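import Pool.Agent.MP42.D.ADec

/-!
# Piece A: the decoration of a solid
-/

set_option autoImplicit false
set_option linter.unusedSectionVars false

namespace Pool.Agent.MP42D

open Pool.Agent.Helper55.UNF Pool.Agent.Helper55.UNF.GridSolid Pool.Agent.MP42

variable {P : GridSolid}

theorem exists_deco (hP : P.IsOrthogonalPolyhedron) (h3 : Deg3 P) : Nonempty (Deco P) := by
  obtain ⟨f⟩ := hP.2.nonempty
  exact exists_deco' hP.1 h3 (exists_dart0 f)

end Pool.Agent.MP42D
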