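import Pool.Agent.MP42.D.AMain

/-!
# Piece A: the decoration of a solid
-/

set_option autoImplicit false
set_option linter.unusedSectionVars false

namespace Pool.Agent.MP42D

open Pool.Agent.Helper55.UNF Pool.Agent.Helper55.UNF.GridSolid Pool.Agent.MP42

variable {P : GridSolid} {hM : P.IsManifold} {h3 : Deg3 P} {Z : Sites P} {d0 : Dart P}

/-! ## Plates -/

lemma plate_eA : ∀ d e : Dir, d.1 ≠ e.1 → d.1 = 2 → cross d e = (1, true) → e.1 = 0 := by
  decide

lemma west_leaf (t : P.FSt) (hd : t.1.d.1 = 2) (hn : t.1.n = (1, true)) (he : t.1.e.1 = 0)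
    (L : Leaf P) (hx : L.x = Geo.nw t.1 0) (hz : L.z = Geo.nw t.1 2) (h1 : L.lo ≤ t.1.c 1)
    (h2 : t.1.c 1 < L.hi) :
    ∃ i < L.m, L.c i = kW t he ∧ yw (L.c i) ≤ t.1.c 1 ∧ t.1.c 1 < yu (L.c (i + 1)) := by
  obtain ⟨k1, k2, k3, -⟩ := plate_strip t he hd
  have k4 := k3 (by rw [hn])
  obtain ⟨i, hi, hc⟩ := L.mem_of_strip (κ := kW t he) (k1.trans hx.symm) (k2.trans hz.symm)
    h1 h2.le (Or.inl ⟨k4.1, k4.2.le⟩)
  rw [← hc, ← L.step] at k4
  refine ⟨i, ?_, hc, k4.1, k4.2⟩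
  by_contra hm
  have := L.dn i (by omega) hi
  omega

lemma nw_r2 (s : P.FSt) (a : Fin 3) (h : a ≠ s.1.n.1) : Geo.nw s.r2.1 a = Geo.ne s.1 a := by
  have e1 : s.r2.1.c = s.1.c := rfl
  have e2 : s.r2.1.d = s.1.d := rfl
  have e3 : opp s.r2.1.e = s.1.e := opp_opp _
  have e4 : cross s.r2.1.d s.r2.1.e = opp s.1.n := Geo.r2_n s
  have e5 : cross s.1.d s.1.e = s.1.n := rfl
  unfold Geo.nw Geo.ne Geo.cnr
  rw [e1, e2, e3, ← e2, e4, e2, e5]
  have h1 : ¬ (a = (opp s.1.n).1) := h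
  simp only [h, h1, false_and, or_false]

lemma east_leaf (t : P.FSt) (hd : t.1.d.1 = 2) (hn : t.1.n = (1, true)) (he : t.r2.1.e.1 = 0)
    (L : Leaf P) (hx : L.x = Geo.ne t.1 0) (hz : L.z = Geo.ne t.1 2) (h1 : L.lo ≤ t.1.c 1)
    (h2 : t.1.c 1 < L.hi) :
    ∃ i, L.m ≤ i ∧ i < L.n ∧ L.c i = kW t.r2 he ∧ yu (L.c (i + 1)) ≤ t.1.c 1 ∧
      t.1.c 1 < yw (L.c i) := by
  obtain ⟨k1, k2, -, k3⟩ := plate_strip t.r2 he hd
  have hn2 : t.r2.1.n = (1, false) := by rw [Geo.r2_n, hn]; rfl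
  have k4 := k3 (by rw [hn2])
  have e1 : t.r2.1.c = t.1.c := rfl
  rw [e1] at k4
  rw [nw_r2 t 0 (by rw [hn]; decide)] at k1
  rw [nw_r2 t 2 (by rw [hn]; decide)] at k2
  obtain ⟨i, hi, hc⟩ := L.mem_of_strip (κ := kW t.r2 he) (k1.trans hx.symm) (k2.trans hz.symm)
    h1 h2.le (Or.inr ⟨k4.1, k4.2.le⟩)
  rw [← hc, ← L.step] at k4
  refine ⟨i, ?_, hi, hc, k4.1, k4.2⟩
  by_contra hm
  have := L.up i (by omega)
  omega

lemma kd_bp {x z y : ℤ} (h : (kd hM h3 Z d0 x z).bp y = true) :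
    ∃ L : Leaf P, Ch L ∧ L.x = x ∧ L.z = z ∧ L.lo ≤ y ∧ y < L.hi ∧
      (L.lc hM h3 Z).K.bp y = true := by
  have h1 : (lf P x z y).elim false (fun L => (L.lc hM h3 Z).K.bp y) = true := h
  cases h2 : lf P x z y with
  | none => rw [h2] at h1; exact absurd h1 (by simp)
  | some L =>
    rw [h2] at h1
    have h1' : (L.lc hM h3 Z).K.bp y = true := h1
    have hs := lf_spec h2
    have h4 := (lc_on L).1 ((L.lc hM h3 Z).facts.ok.bp_ok y h1').1
    exact ⟨L, Ch_of h2, hs.1, hs.2.1, h4.1, h4.2, h1'⟩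

lemma kd_vl {x z y : ℤ} (h : (kd hM h3 Z d0 x z).vl y = true) :
    ∃ L : Leaf P, Ch L ∧ L.x = x ∧ L.z = z ∧ L.lo ≤ y ∧ y < L.hi ∧
      (L.lc hM h3 Z).K.vl y = true := by
  have h1 : (lf P x z y).elim false (fun L => (L.lc hM h3 Z).K.vl y) = true := h
  cases h2 : lf P x z y with
  | none => rw [h2] at h1; exact absurd h1 (by simp)
  | some L =>
    rw [h2] at h1
    have h1' : (L.lc hM h3 Z).K.vl y = true := h1
    have hs := lf_spec h2
    have h4 := (lc_on L).1 ((L.lc hM h3 Z).facts.ok.vl_ok y h1').1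
    exact ⟨L, Ch_of h2, hs.1, hs.2.1, h4.1, h4.2, h1'⟩

lemma dz_NLW (t : P.FSt) (he : t.1.e.1 = 0) :
    (dz hM h3 Z d0).NLW t = (dz hM h3 Z d0).NL (kW t he) := onD_eq _ _ _ he

lemma dz_SLW (t : P.FSt) (he : t.1.e.1 = 0) :
    (dz hM h3 Z d0).SLW t = (dz hM h3 Z d0).SL (kW t he) := onD_eq _ _ _ he

lemma dz_NLE (t : P.FSt) (he : t.1.e.1 = 0) (hd : t.1.d.1 = 2) (he' : t.r2.1.e.1 = 0) :
    (dz hM h3 Z d0).NLE t = (dz hM h3 Z d0).NL (kW t.r2 he') := by
  unfold Deco0.NLE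
  rw [onD_eq _ _ _ he, ← e1_r2 t he hd he']
  rfl

lemma dz_SLE (t : P.FSt) (he : t.1.e.1 = 0) (hd : t.1.d.1 = 2) (he' : t.r2.1.e.1 = 0) :
    (dz hM h3 Z d0).SLE t = (dz hM h3 Z d0).SL (kW t.r2 he') := by
  unfold Deco0.SLE
  rw [onD_eq _ _ _ he, ← e1_r2 t he hd he']
  rfl

theorem dz_plB (t : P.FSt) (hd : t.1.d.1 = 2) (hn : t.1.n = (1, true)) :
    (((dz hM h3 Z d0).Kw t).bp (t.1.c 1) = true →
      (dz hM h3 Z d0).NLW t = false ∧ (dz hM h3 Z d0).SLW t = false) ∧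
    (((dz hM h3 Z d0).Kw t).vl (t.1.c 1) = true → (dz hM h3 Z d0).NLW t = false) := by
  have he : t.1.e.1 = 0 := plate_eA _ _ t.2.2 hd hn
  constructor
  · intro h
    obtain ⟨L, hc, hx, hz, h1, h2, h4⟩ := kd_bp h
    obtain ⟨i, hi, hκ, h5, h6⟩ := west_leaf t hd hn he L hx hz h1 h2
    obtain ⟨k1, k2, k3⟩ := ((L.lc hM h3 Z).facts.plate_B i hi (t.1.c 1) h5 h6).1 h4
    rw [dz_NLW t he, dz_SLW t he, ← hκ, dz_NL hc, dz_SL hc]
    have k2' : Z.S (L.c i) = false := k2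
    rw [k1, k2', k3]
    exact ⟨rfl, rfl⟩
  · intro h
    obtain ⟨L, hc, hx, hz, h1, h2, h4⟩ := kd_vl h
    obtain ⟨i, hi, hκ, h5, h6⟩ := west_leaf t hd hn he L hx hz h1 h2
    obtain ⟨k1, k2⟩ := ((L.lc hM h3 Z).facts.plate_B i hi (t.1.c 1) h5 h6).2 h4
    rw [dz_NLW t he, ← hκ, dz_NL hc]
    have k2' : Z.S (L.c i) = false := k2
    rw [k1, k2']
    rfl

theorem dz_plA (t : P.FSt) (hd : t.1.d.1 = 2) (hn : t.1.n = (1, true)) :
    (((dz hM h3 Z d0).Ke t).bp (t.1.c 1) = true → (dz hM h3 Z d0).NLE t = false) ∧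
    (((dz hM h3 Z d0).Ke t).vl (t.1.c 1) = true →
      (dz hM h3 Z d0).NLE t = false ∧ (dz hM h3 Z d0).SLE t = false) := by
  have he : t.1.e.1 = 0 := plate_eA _ _ t.2.2 hd hn
  have he' : t.r2.1.e.1 = 0 := he
  constructor
  · intro h
    obtain ⟨L, hc, hx, hz, h1, h2, h4⟩ := kd_bp h
    obtain ⟨i, hi, hi', hκ, h5, h6⟩ := east_leaf t hd hn he' L hx hz h1 h2
    obtain ⟨k1, k2⟩ := ((L.lc hM h3 Z).facts.plate_A i hi hi' (t.1.c 1) h5 h6).1 h4
    rw [dz_NLE t he hd he', ← hκ, dz_NL hc]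
    have k2' : Z.S (L.c i) = false := k2
    rw [k1, k2']
    rfl
  · intro h
    obtain ⟨L, hc, hx, hz, h1, h2, h4⟩ := kd_vl h
    obtain ⟨i, hi, hi', hκ, h5, h6⟩ := east_leaf t hd hn he' L hx hz h1 h2
    obtain ⟨k1, k2, k3⟩ := ((L.lc hM h3 Z).facts.plate_A i hi hi' (t.1.c 1) h5 h6).2 h4
    rw [dz_NLE t he hd he', dz_SLE t he hd he', ← hκ, dz_NL hc, dz_SL hc]
    have k2' : Z.S (L.c i) = false := k2
    rw [k1, k2', k3]
    exact ⟨rfl, rfl⟩

/-! ## Exclusive lanes -/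

lemma Kc_c (L : Leaf P) (i : ℕ) : (dz hM h3 Z d0).Kc (L.c i) = kd hM h3 Z d0 L.x L.z := by
  show kd hM h3 Z d0 (xl (L.c i)) (zl (L.c i)) = _
  rw [L.xl_c, L.zl_c]

theorem dz_exclw (κ : Dart P) :
    ((dz hM h3 Z d0).NL κ = true →
      (isUp (phi P κ).1 && ((dz hM h3 Z d0).Kc κ).gN (yw κ)) = false ∧
      (isDn (phi P κ).1 && ((dz hM h3 Z d0).Kc κ).fN (yw κ)) = false) ∧
    ((dz hM h3 Z d0).SL κ = true →
      (isUp (phi P κ).1 && ((dz hM h3 Z d0).Kc κ).fS (yw κ)) = false ∧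
      (isDn (phi P κ).1 && ((dz hM h3 Z d0).Kc κ).gS (yw κ)) = false) := by
  rcases cases_leaf hM h3 κ with ⟨L, hc, i, hi, rfl⟩ | hs
  · obtain ⟨-, -, w1, w2, w3, w4, -⟩ :=
      agree_fl (hM := hM) (h3 := h3) (Z := Z) (d0 := d0) hc (L.rw i).1 (L.rw i).2
    rw [dz_NL hc, dz_SL hc, Kc_c, up_phi (hM := hM) (h3 := h3) (Z := Z) L i,
      dn_phi (hM := hM) (h3 := h3) (Z := Z) L i, w1, w2, w3, w4]
    constructor
    · intro h
      rw [Bool.or_eq_true] at h
      rcases h with h | h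
      · obtain ⟨-, -, -, -, k1, k2, -⟩ := (L.lc hM h3 Z).facts.site i h
        exact ⟨k1, k2⟩
      · obtain ⟨k1, k2, -⟩ := ((L.lc hM h3 Z).facts.excl i).1 h
        exact ⟨k1, k2⟩
    · intro h
      obtain ⟨k1, k2, -⟩ := ((L.lc hM h3 Z).facts.excl i).2 h
      exact ⟨k1, k2⟩
  · have h1 := short_NL (hM := hM) (h3 := h3) (Z := Z) (d0 := d0) hs
    rw [h1.1, h1.2]
    exact ⟨fun h => absurd h (by decide), fun h => absurd h (by decide)⟩

theorem dz_exclu (κ : Dart P) :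
    ((dz hM h3 Z d0).NL ((nuD P).symm κ) = true →
      (isDn κ.1 && ((dz hM h3 Z d0).Kc κ).gN (yu κ)) = false ∧
      (isUp κ.1 && ((dz hM h3 Z d0).Kc κ).fN (yu κ)) = false) ∧
    ((dz hM h3 Z d0).SL ((nuD P).symm κ) = true →
      (isDn κ.1 && ((dz hM h3 Z d0).Kc κ).fS (yu κ)) = false ∧
      (isUp κ.1 && ((dz hM h3 Z d0).Kc κ).gS (yu κ)) = false) := by
  rcases cases_leaf hM h3 κ with ⟨L, hc, i, hi, rfl⟩ | hs
  · obtain ⟨-, -, w1, w2, w3, w4, -⟩ :=
      agree_fl (hM := hM) (h3 := h3) (Z := Z) (d0 := d0) hc (L.ru i).1 (L.ru i).2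
    have hn := L.n_pos
    have hi1 : L.c (i + L.n - 1 + 1) = L.c i := by
      rw [show i + L.n - 1 + 1 = i + L.n by omega, L.c_per]
    rw [L.c_pred, dz_NL hc, dz_SL hc, Kc_c, up_nu (hM := hM) (h3 := h3) (Z := Z) L i,
      dn_nu (hM := hM) (h3 := h3) (Z := Z) L i, w1, w2, w3, w4]
    constructor
    · intro h
      rw [Bool.or_eq_true] at h
      rcases h with h | h
      · obtain ⟨-, -, -, -, -, -, k1, k2, -⟩ := (L.lc hM h3 Z).facts.site (i + L.n - 1) h
        rw [← hi1]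
        exact ⟨k1, k2⟩
      · obtain ⟨-, -, k1, k2⟩ := ((L.lc hM h3 Z).facts.excl (i + L.n - 1)).1 h
        rw [← hi1]
        exact ⟨k1, k2⟩
    · intro h
      obtain ⟨-, -, k1, k2⟩ := ((L.lc hM h3 Z).facts.excl (i + L.n - 1)).2 h
      rw [← hi1]
      exact ⟨k1, k2⟩
  · have h1 := short_NL (hM := hM) (h3 := h3) (Z := Z) (d0 := d0) (short_pred hs)
    rw [h1.1, h1.2]
    exact ⟨fun h => absurd h (by decide), fun h => absurd h (by decide)⟩

/-! ## Runs -/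

theorem dz_vc_spec (c : Dart P) (h1 : Z.S c = false) (h2 : Z.S ((nuD P).symm c) = true) :
    ∃ l : ℕ, 0 < l ∧ ((nuD P) ^ l) ((dz hM h3 Z d0).vc c) = c ∧
      (∀ j < l, Z.S (((nuD P) ^ j) ((dz hM h3 Z d0).vc c)) = true) ∧
      Z.S ((nuD P).symm ((dz hM h3 Z d0).vc c)) = false := by
  rcases cases_leaf hM h3 c with ⟨L, hc, i, hi, rfl⟩ | hs
  · rw [L.c_pred] at h2
    obtain ⟨v, hv, h4⟩ := (L.lc hM h3 Z).facts.exists_run i h1 h2
    rw [dz_vc hc hv h4]
    have h5 := (L.lc hM h3 Z).v_lt_c hv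
    refine ⟨(L.lc hM h3 Z).c v - v, by omega, ?_, ?_, ?_⟩
    · rw [L.c_pow, show v + ((L.lc hM h3 Z).c v - v) = (L.lc hM h3 Z).c v by omega]
      exact L.c_eq.2 h4
    · intro j hj
      rw [L.c_pow]
      exact (L.lc hM h3 Z).S_run (v := v) (x := v + j) (by omega) (by omega)
    · rw [L.c_pred]
      exact hv.2.2
  · rw [(short_S hs Z).2] at h2
    exact absurd h2 (by decide)

/-! ## The words -/

lemma isV_iff (L : Leaf P) {i : ℕ} (hi : i < L.n) : (L.lc hM h3 Z).IsV i ↔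
    Z.S (L.c i) = true ∧ Z.S (L.c (i + L.n - 1)) = false :=
  ⟨fun h => h.2, fun h => ⟨hi, h⟩⟩

theorem dz_red (κ : Dart P) : Red ((dz hM h3 Z d0).rw κ) ((dz hM h3 Z d0).ex κ) := by
  rcases cases_leaf hM h3 κ with ⟨L, hc, i, hi, rfl⟩ | hs
  · rw [rw_eq hc]
    have hSD : ∀ κ, (dz hM h3 Z d0).S κ = Z.S κ := fun _ => rfl
    have key : ∀ (w e : List (Bool × ℕ)) (a b : List (Bool × (Dart P ⊕ Dart P))), Red w e →
        Red (a ++ mg (tg L) w ++ b) (a ++ mg (tg L) e ++ b) := fun w e a b h =>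
      (h.map (tg L)).append_left a |>.append_right b
    unfold Deco0.ex
    simp only []
    rw [L.c_pred, hSD, hSD]
    cases h1 : Z.S (L.c i)
    · cases h2 : Z.S (L.c (i + L.n - 1))
      · have h4 := (L.lc hM h3 Z).facts.cw_other i hi (fun h => by
          have := h.2.1
          rw [show (L.lc hM h3 Z).S i = Z.S (L.c i) from rfl, h1] at this
          exact absurd this (by decide)) (fun v hv h => by
          have h5 := (L.lc hM h3 Z).S_pred_of_c (i := i) hv (by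
            rw [h]; exact (Nat.mod_eq_of_lt hi).symm)
          rw [show (L.lc hM h3 Z).S (i + (L.lc hM h3 Z).n - 1) = Z.S (L.c (i + L.n - 1)) from rfl,
            h2] at h5
          exact absurd h5 (by decide))
        exact key _ _ _ _ h4
      · obtain ⟨v, hv, h4⟩ := (L.lc hM h3 Z).facts.exists_run i h1 h2
        have h5 := (L.lc hM h3 Z).facts.cw_end v hv i hi (by
          rw [h4]; exact Nat.mod_eq_of_lt hi)
        have h6 := key _ _ (opt false (true, Sum.inl (L.c i)))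
          (opt true (true, Sum.inl (L.c (i + L.n - 1)))) h5
        rw [show (dz hM h3 Z d0).vc (L.c i) = L.c v from dz_vc hc hv h4]
        exact h6
    · cases h2 : Z.S (L.c (i + L.n - 1))
      · have h4 := (L.lc hM h3 Z).facts.cw_first i ⟨hi, h1, h2⟩
        exact key _ _ _ _ h4
      · have h4 := (L.lc hM h3 Z).facts.cw_other i hi (fun h => by
          have := h.2.2
          rw [show (L.lc hM h3 Z).S (i + (L.lc hM h3 Z).n - 1) = Z.S (L.c (i + L.n - 1)) from rfl,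
            h2] at this
          exact absurd this (by decide)) (fun v hv h => by
          have h5 := (L.lc hM h3 Z).S_of_c (i := i) (v := v) (by
            rw [h]; exact (Nat.mod_eq_of_lt hi).symm)
          rw [show (L.lc hM h3 Z).S i = Z.S (L.c i) from rfl, h1] at h5
          exact absurd h5 (by decide))
        exact key _ _ _ _ h4
  · rw [short_rw hs]
    have h1 := short_S hs Z
    have h2 : (dz hM h3 Z d0).ex κ = [] := by
      unfold Deco0.ex
      simp only []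
      rw [if_neg (by show ¬ Z.S κ = true; rw [h1.1]; decide),
        if_neg (by show ¬ Z.S ((nuD P).symm κ) = true; rw [h1.2]; decide)]
    rw [h2]
    exact Red.refl _

lemma tg_inj (L : Leaf P) {v v' : ℕ} (h : v < L.n) (h' : v' < L.n) (e : tg L v = tg L v') :
    v = v' := L.inj v h v' h' (Sum.inr.inj e)

theorem dz_nodup (κ : Dart P) : ((dz hM h3 Z d0).rw κ).Nodup := by
  rcases cases_leaf hM h3 κ with ⟨L, hc, i, hi, rfl⟩ | hs
  · rw [rw_eq hc]
    have h1 := (L.lc hM h3 Z).facts.cw_nodup i hi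
    have h2 : (mg (tg L) ((L.lc hM h3 Z).cw i)).Nodup := by
      unfold mg
      refine List.Nodup.map_on ?_ h1
      rintro ⟨b, v⟩ hv ⟨b', v'⟩ hv' e
      have e1 : b = b' := congrArg Prod.fst e
      have e2 : tg L v = tg L v' := congrArg Prod.snd e
      rw [e1, tg_inj L ((L.lc hM h3 Z).facts.cw_tag i b v hv).1
        ((L.lc hM h3 Z).facts.cw_tag i b' v' hv').1 e2]
    have h4 : ∀ (a : Bool) (x : Bool × (Dart P ⊕ Dart P)), (opt a x).Nodup := by
      intro a x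
      cases a <;> simp [opt]
    have hne : L.c i ≠ L.c (i + L.n - 1) := by
      rw [← L.c_pred]
      intro h
      rw [Equiv.eq_symm_apply] at h
      exact (not_short L i).1 h
    rw [List.nodup_append, List.nodup_append]
    refine ⟨⟨h4 _ _, h2, ?_⟩, h4 _ _, ?_⟩
    · rintro a ha b hb rfl
      rw [mem_opt] at ha
      obtain ⟨-, rfl⟩ := ha
      obtain ⟨s, -, hs⟩ := mem_mg _ hb
      exact absurd hs (by unfold tg; simp)
    · rintro a ha b hb rfl
      rw [mem_opt] at hb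
      obtain ⟨-, rfl⟩ := hb
      rw [List.mem_append, mem_opt] at ha
      rcases ha with ⟨-, ha⟩ | ha
      · have h5 : Sum.inl (L.c (i + L.n - 1)) = (Sum.inl (L.c i) : Dart P ⊕ Dart P) :=
          congrArg Prod.snd ha
        exact hne (Sum.inl.inj h5).symm
      · obtain ⟨s, -, hs⟩ := mem_mg _ ha
        exact absurd hs (by unfold tg; simp)
  · rw [short_rw hs]
    exact List.nodup_nil

theorem dz_len (κ : Dart P) : ((dz hM h3 Z d0).rw κ).length ≤ 4 := by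
  rcases cases_leaf hM h3 κ with ⟨L, hc, i, hi, rfl⟩ | hs
  · rw [rw_eq hc]
    have h1 := (L.lc hM h3 Z).facts.cw_length i hi
    have h2 : ∀ (a : Bool) (x : Bool × (Dart P ⊕ Dart P)), (opt a x).length =
        if a = true then 1 else 0 := by
      intro a x
      cases a <;> simp [opt]
    have h4 : (mg (tg L) ((L.lc hM h3 Z).cw i)).length = ((L.lc hM h3 Z).cw i).length := by
      unfold mg
      exact List.length_map _
    rw [List.length_append, List.length_append, h2, h2, h4]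
    have h5 : (L.lc hM h3 Z).S i = Z.S (L.c i) := rfl
    have h6 : (L.lc hM h3 Z).S (i + (L.lc hM h3 Z).n - 1) = Z.S (L.c (i + L.n - 1)) := rfl
    rw [h5, h6] at h1
    omega
  · rw [short_rw hs]
    simp

theorem dz_loc (κ : Dart P) (b : Bool) (t : Dart P ⊕ Dart P)
    (h : (b, t) ∈ (dz hM h3 Z d0).rw κ) : (nuD P).SameCycle κ (Sum.elim id id t) := by
  rcases cases_leaf hM h3 κ with ⟨L, hc, i, hi, rfl⟩ | hs
  · rw [rw_eq hc, List.mem_append, List.mem_append, mem_opt, mem_opt] at h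
    rcases h with (⟨-, h⟩ | h) | ⟨-, h⟩
    · have h1 : t = Sum.inl (L.c i) := congrArg Prod.snd h
      rw [h1]
      exact Equiv.Perm.SameCycle.refl _ _
    · obtain ⟨s, -, hs⟩ := mem_mg _ h
      rw [← hs]
      exact L.same i s
    · have h1 : t = Sum.inl (L.c (i + L.n - 1)) := congrArg Prod.snd h
      rw [h1]
      exact L.same i _
  · rw [short_rw hs] at h
    exact absurd h (by simp)

theorem dz_src (κ : Dart P) (b : Bool) (t : Dart P ⊕ Dart P)
    (h : (b, t) ∈ (dz hM h3 Z d0).rw κ) : ∃ κ', (true, t) ∈ (dz hM h3 Z d0).ex κ' := by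
  have key : ∀ κ, Z.S κ = true → (true, Sum.inl κ) ∈ (dz hM h3 Z d0).ex κ := by
    intro κ h
    unfold Deco0.ex
    simp only []
    rw [if_pos (show (dz hM h3 Z d0).S κ = true from h)]
    split_ifs <;> simp
  rcases cases_leaf hM h3 κ with ⟨L, hc, i, hi, rfl⟩ | hs
  · rw [rw_eq hc, List.mem_append, List.mem_append, mem_opt, mem_opt] at h
    rcases h with (⟨k, h⟩ | h) | ⟨k, h⟩
    · have e : t = Sum.inl (L.c i) := congrArg Prod.snd h
      rw [e]
      exact ⟨_, key _ k⟩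
    · obtain ⟨v, hv, rfl⟩ := mem_mg _ h
      have hv' := (L.lc hM h3 Z).facts.cw_tag i b v hv
      refine ⟨L.c v, ?_⟩
      unfold Deco0.ex
      simp only []
      rw [L.c_pred, if_pos (show (dz hM h3 Z d0).S (L.c v) = true from hv'.2.1),
        if_neg (by
          rw [show (dz hM h3 Z d0).S (L.c (v + L.n - 1)) = false from hv'.2.2]
          decide)]
      unfold tg
      simp
    · have e : t = Sum.inl (L.c (i + L.n - 1)) := congrArg Prod.snd h
      rw [e]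
      exact ⟨_, key _ k⟩
  · rw [short_rw hs] at h
    exact absurd h (by simp)

/-! ## Links -/

lemma short_rwV {κ : Dart P} (hs : nuD P κ = κ ∨ nuD P (nuD P κ) = κ)
    (W : (dz hM h3 Z d0).Vals) : W.rw κ = [] := by
  have h1 := Deco0.Vals.fst_rw W κ
  rw [short_rw hs] at h1
  unfold mg at h1
  exact List.map_eq_nil_iff.1 h1

lemma mem_rwV {L : Leaf P} (hc : Ch L) (W : (dz hM h3 Z d0).Vals) {i : ℕ} {b : Bool}
    {t : Dart P ⊕ Dart P} {p : Prop} (h : (b, t, p) ∈ W.rw (L.c i)) :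
    (∃ μ, t = Sum.inl μ ∧ p = W.vN μ) ∨
    ∃ v, (L.lc hM h3 Z).IsV v ∧ t = tg L v ∧
      (b, v, p) ∈ (L.lc hM h3 Z).cwV (rs hc (W.V L.x L.z)) (fun j => W.vN (L.c j))
        (fun j => W.vS (L.c j)) i := by
  rw [rwV_eq hc, List.mem_append, List.mem_append, mem_opt, mem_opt] at h
  rcases h with (⟨-, h⟩ | h) | ⟨-, h⟩
  · have h1 := congrArg Prod.snd h
    exact Or.inl ⟨L.c i, congrArg Prod.fst h1, congrArg Prod.snd h1⟩
  · right
    obtain ⟨⟨v, q⟩, h1, h2⟩ := mem_mg _ h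
    have h4 : tg L v = t := congrArg Prod.fst h2
    have h5 : q = p := congrArg Prod.snd h2
    rw [h5] at h1
    have h6 : (b, v) ∈ (L.lc hM h3 Z).cw i := by
      rw [← (L.lc hM h3 Z).fst_cwV (rs hc (W.V L.x L.z)) (fun j => W.vN (L.c j))
        (fun j => W.vS (L.c j)) i]
      exact mg_mem Prod.fst (s := (v, p)) h1
    exact ⟨v, (L.lc hM h3 Z).facts.cw_tag i b v h6, h4.symm, h1⟩
  · have h1 := congrArg Prod.snd h
    exact Or.inl ⟨L.c (i + L.n - 1), congrArg Prod.fst h1, congrArg Prod.snd h1⟩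

lemma rwV_mem {L : Leaf P} (hc : Ch L) (W : (dz hM h3 Z d0).Vals) {i : ℕ} {b : Bool}
    {v : ℕ} {p : Prop}
    (h : (b, v, p) ∈ (L.lc hM h3 Z).cwV (rs hc (W.V L.x L.z)) (fun j => W.vN (L.c j))
        (fun j => W.vS (L.c j)) i) : (b, tg L v, p) ∈ W.rw (L.c i) := by
  rw [rwV_eq hc, List.mem_append, List.mem_append]
  exact Or.inl (Or.inr (mg_mem (fun p : ℕ × Prop => (tg L p.1, p.2)) (s := (v, p)) h))

theorem dz_link (W : (dz hM h3 Z d0).Vals)
    (h : ∀ κ t a b, (true, t, a) ∈ W.rw κ → (false, t, b) ∈ W.rw κ → (a ↔ b)) (κ κ' : Dart P)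
    (b b' : Bool) (t : Dart P ⊕ Dart P) (x y : Prop) (h1 : (b, t, x) ∈ W.rw κ)
    (h2 : (b', t, y) ∈ W.rw κ') : x ↔ y := by
  rcases cases_leaf hM h3 κ with ⟨L, hc, i, hi, rfl⟩ | hs
  · rcases cases_leaf hM h3 κ' with ⟨L', hc', j, hj, rfl⟩ | hs
    · rcases mem_rwV hc W h1 with ⟨μ, rfl, rfl⟩ | ⟨v, hv, ht, k1⟩
      · rcases mem_rwV hc' W h2 with ⟨μ', h4, rfl⟩ | ⟨v, hv, ht, k1⟩
        · rw [Sum.inl.inj h4]
        · exact absurd ht (by unfold tg; simp)
      · rcases mem_rwV hc' W h2 with ⟨μ', h4, rfl⟩ | ⟨v', hv', ht', k1'⟩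
        · rw [h4] at ht
          exact absurd ht (by unfold tg; simp)
        · have e1 : L.c v = L'.c v' := Sum.inr.inj (ht.symm.trans ht')
          have e2 := hc.corner v
          rw [e1, hc'.corner v'] at e2
          obtain rfl := Option.some.inj e2
          have e3 : v = v' := L'.inj v hv.1 v' hv'.1 e1
          subst e3
          refine (L'.lc hM h3 Z).facts.link (rs hc (W.V L'.x L'.z)) (fun j => W.vN (L'.c j))
            (fun j => W.vS (L'.c j)) (fun i => by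
              show W.vN (L'.c (i + L'.n)) = _
              rw [L'.c_per]) (fun i => by
              show W.vS (L'.c (i + L'.n)) = _
              rw [L'.c_per]) ?_ i hi j hj _ _ v x y k1 k1'
          intro i hi t a b k2 k3
          exact h (L'.c i) (tg L' t) a b (rwV_mem hc W k2) (rwV_mem hc W k3)
    · rw [short_rwV hs] at h2
      exact absurd h2 (by simp)
  · rw [short_rwV hs] at h1
    exact absurd h1 (by simp)

/-! ## The decoration -/

theorem exists_deco' (hM : P.IsManifold) (h3 : Deg3 P) (hne : Nonempty (Dart P)) :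
    Nonempty (Deco P) := by
  obtain ⟨Z⟩ := exists_sites (P := P)
  obtain ⟨d0⟩ := hne
  exact ⟨{ dz hM h3 Z d0 with
    h_phi := Z.h_phi
    h_S := Z.h_S
    S_uniq := Z.S_uniq
    S_R := Z.S_R
    face := Z.face
    R_uniq := Z.R_uniq
    R_theta := Z.R_theta
    conn := Z.conn
    aw_eq := fun _ _ _ => rfl
    bw_eq := fun _ _ _ => rfl
    ok := fun x z => kd_ok x z
    plB := dz_plB
    plA := dz_plA
    vc_spec := dz_vc_spec
    S_NL := fun κ h => by
      show (Z.S κ || _) = true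
      rw [show Z.S κ = true from h]
      rfl
    red := dz_red
    nodup := dz_nodup
    len := dz_len
    loc := dz_loc
    src := dz_src
    exclw := dz_exclw
    exclu := dz_exclu
    link := dz_link }⟩

lemma ring_e (f : P.Facet) (h : f.1.2.1 ≠ 0) : (bf f).1.e.1 = 0 := by
  have : ∀ d : Dir, d.1 ≠ 0 → (bfE d).1 = 0 := by decide
  exact this _ h

theorem exists_dart0 (f : P.Facet) : Nonempty (Dart P) := by
  have key : ∀ g : P.Facet, g.1.2.1 ≠ 0 → Nonempty (Dart P) := by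
    intro g hg
    obtain ⟨j, hj⟩ := ring_ex' (bf g) (ring_e g hg)
    exact ⟨⟨_, hj⟩⟩
  by_cases h : f.1.2.1 = 0
  · obtain ⟨j, hj⟩ := Geo.exists_turn (bf f)
    have h1 : (bf f).1.d.1 = 0 := h
    rw [h1] at hj
    exact key ((pE ^ j) (bf f)).facet hj
  · exact key f h

end Pool.Agent.MP42D
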