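import Pool.Agent.MP42.D.AWord

/-!
# Piece A: definition of the decoration
-/

set_option autoImplicit false
set_option linter.unusedSectionVars false

namespace Pool.Agent.MP42D

open Pool.Agent.Helper55.UNF Pool.Agent.Helper55.UNF.GridSolid Pool.Agent.MP42

variable {P : GridSolid}

/-! ## The chosen leaves -/

open Classical in
/-- a leaf that starts at `lo` -/
noncomputable def lfc (P : GridSolid) (x z lo : ℤ) : Option (Leaf P) :=
  if h : ∃ L : Leaf P, L.x = x ∧ L.z = z ∧ L.lo = lo then some h.choose else none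

open Classical in
/-- the chosen leaf on the line at the point `y` -/
noncomputable def lf (P : GridSolid) (x z y : ℤ) : Option (Leaf P) :=
  if h : ∃ L : Leaf P, L.x = x ∧ L.z = z ∧ L.lo ≤ y ∧ y ≤ L.hi then lfc P x z h.choose.lo else none

lemma lfc_spec {x z lo : ℤ} {L : Leaf P} (h : lfc P x z lo = some L) :
    L.x = x ∧ L.z = z ∧ L.lo = lo := by
  unfold lfc at h
  split_ifs at h with h1
  obtain rfl := Option.some.inj h
  exact h1.choose_spec

lemma hi_unique {L L' : Leaf P} (hx : L.x = L'.x) (hz : L.z = L'.z) (h : L.lo = L'.lo) :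
    L.hi = L'.hi := by
  have key : ∀ (L L' : Leaf P), L.x = L'.x → L.z = L'.z → L.lo = L'.lo → L.hi < L'.hi →
      False := by
    intro L L' hx hz h h1
    have h2 := L'.on L.hi (by have := L.lohi; omega) h1
    rw [← hx, ← hz, L.off2] at h2
    exact Bool.false_ne_true h2
  rcases lt_trichotomy L.hi L'.hi with h1 | h1 | h1
  · exact (key L L' hx hz h h1).elim
  · exact h1
  · exact (key L' L hx.symm hz.symm h.symm h1).elim

lemma lf_some {x z y : ℤ} (L' : Leaf P) (hx : L'.x = x) (hz : L'.z = z) (h1 : L'.lo ≤ y)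
    (h2 : y ≤ L'.hi) :
    ∃ L, lf P x z y = some L ∧ L.x = x ∧ L.z = z ∧ L.lo = L'.lo ∧ L.hi = L'.hi := by
  have hex : ∃ L : Leaf P, L.x = x ∧ L.z = z ∧ L.lo ≤ y ∧ y ≤ L.hi := ⟨L', hx, hz, h1, h2⟩
  have h3 := hex.choose_spec
  have h4 : hex.choose.lo = L'.lo :=
    hex.choose.lo_unique L' (h3.1.trans hx.symm) (h3.2.1.trans hz.symm) h3.2.2.1 h3.2.2.2 h1 h2
  have hex2 : ∃ L : Leaf P, L.x = x ∧ L.z = z ∧ L.lo = L'.lo := ⟨L', hx, hz, rfl⟩
  have h5 := hex2.choose_spec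
  refine ⟨hex2.choose, ?_, h5.1, h5.2.1, h5.2.2, hi_unique (h5.1.trans hx.symm)
    (h5.2.1.trans hz.symm) h5.2.2⟩
  unfold lf
  rw [dif_pos hex, h4]
  unfold lfc
  rw [dif_pos hex2]

lemma lf_spec {x z y : ℤ} {L : Leaf P} (h : lf P x z y = some L) :
    L.x = x ∧ L.z = z ∧ L.lo ≤ y ∧ y ≤ L.hi := by
  have h0 := h
  unfold lf at h0
  split_ifs at h0 with h1
  have h2 := lfc_spec h0
  have h3 := h1.choose_spec
  refine ⟨h2.1, h2.2.1, ?_, ?_⟩
  · rw [h2.2.2]; exact h3.2.2.1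
  · rw [hi_unique (h2.1.trans h3.1.symm) (h2.2.1.trans h3.2.1.symm) h2.2.2]
    exact h3.2.2.2

lemma lf_none {x z y : ℤ} (h : lf P x z y = none) (L : Leaf P) (hx : L.x = x) (hz : L.z = z)
    (h1 : L.lo ≤ y) (h2 : y ≤ L.hi) : False := by
  obtain ⟨L', h3, -⟩ := lf_some L hx hz h1 h2
  rw [h] at h3
  exact absurd h3 (by simp)

/-- the chosen leaf is the same along its segment -/
lemma lf_same {x z y : ℤ} {L : Leaf P} (h : lf P x z y = some L) {y' : ℤ} (h1 : L.lo ≤ y')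
    (h2 : y' ≤ L.hi) : lf P x z y' = some L := by
  have hs := lf_spec h
  have hex' : ∃ L : Leaf P, L.x = x ∧ L.z = z ∧ L.lo ≤ y' ∧ y' ≤ L.hi := ⟨L, hs.1, hs.2.1, h1, h2⟩
  have h3 := hex'.choose_spec
  have h4 : hex'.choose.lo = L.lo :=
    hex'.choose.lo_unique L (h3.1.trans hs.1.symm) (h3.2.1.trans hs.2.1.symm) h3.2.2.1 h3.2.2.2 h1 h2
  have h0 := h
  unfold lf at h0 ⊢
  split_ifs at h0 with h5
  rw [dif_pos hex', h4, (lfc_spec h0).2.2]
  exact h0

/-! ## The decoration -/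

section

variable (hM : P.IsManifold) (h3 : Deg3 P) (Z : Sites P) (d0 : Dart P)

open Classical in
/-- the number of a corner in its leaf -/
noncomputable def idx (L : Leaf P) (κ : Dart P) : ℕ :=
  if h : ∃ i < L.n, L.c i = κ then h.choose else 0

lemma idx_c (L : Leaf P) (i : ℕ) : idx L (L.c i) = i % L.n := by
  have h : ∃ j < L.n, L.c j = L.c i := ⟨i % L.n, Nat.mod_lt _ L.n_pos, L.c_mod i⟩
  unfold idx
  rw [dif_pos h]
  have h1 := h.choose_spec
  have h2 := L.c_eq.1 h1.2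
  rw [Nat.mod_eq_of_lt h1.1] at h2
  exact h2

/-- tags of a leaf -/
def tg (L : Leaf P) (v : ℕ) : Dart P ⊕ Dart P := Sum.inr (L.c v)

/-- the data of a line -/
noncomputable def kd (x z : ℤ) : KD (Dart P ⊕ Dart P) where
  aw := fun y => awP P x y z
  bw := fun y => bwP P x y z
  M := fun s y => (lf P x z y).elim false fun L => (L.lc hM h3 Z).K.M s y
  cn := fun s y => (lf P x z y).elim false fun L => (L.lc hM h3 Z).K.cn s y
  cs := fun s y => (lf P x z y).elim false fun L => (L.lc hM h3 Z).K.cs s y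
  bp := fun y => (lf P x z y).elim false fun L => (L.lc hM h3 Z).K.bp y
  vl := fun y => (lf P x z y).elim false fun L => (L.lc hM h3 Z).K.vl y
  fN := fun y => (lf P x z y).elim false fun L => (L.lc hM h3 Z).K.fN y
  fS := fun y => (lf P x z y).elim false fun L => (L.lc hM h3 Z).K.fS y
  gS := fun y => (lf P x z y).elim false fun L => (L.lc hM h3 Z).K.gS y
  gN := fun y => (lf P x z y).elim false fun L => (L.lc hM h3 Z).K.gN y
  tM := fun s y => (lf P x z y).elim (Sum.inl d0) fun L => tg L ((L.lc hM h3 Z).K.tM s y)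
  tC := fun s y => (lf P x z y).elim (Sum.inl d0) fun L => tg L ((L.lc hM h3 Z).K.tC s y)
  tb := fun y => (lf P x z y).elim (Sum.inl d0) fun L => tg L ((L.lc hM h3 Z).K.tb y)
  tv := fun y => (lf P x z y).elim (Sum.inl d0) fun L => tg L ((L.lc hM h3 Z).K.tv y)

/-- the leaf of a corner -/
noncomputable def lfD (κ : Dart P) : Option (Leaf P) := lf P (xl κ) (zl κ) (yu κ)

/-- the decoration without the proofs -/
noncomputable def dz : Deco0 P where
  S := Z.S
  R := Z.R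
  h := Z.h
  K := kd hM h3 Z d0
  NL := fun κ => Z.S κ || (lfD κ).elim false fun L => (L.lc hM h3 Z).NL (idx L κ)
  SL := fun κ => (lfD κ).elim false fun L => (L.lc hM h3 Z).SL (idx L κ)
  vc := fun κ => (lfD κ).elim κ fun L =>
    L.c ((L.lc hM h3 Z).pick fun v => (L.lc hM h3 Z).c v % L.n = idx L κ)

/-! ### On a chosen leaf -/

/-- chosen leaves -/
def Ch (L : Leaf P) : Prop := lf P L.x L.z L.lo = some L

variable {hM h3 Z d0}

lemma Ch_of {x z y : ℤ} {L : Leaf P} (h : lf P x z y = some L) : Ch L := by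
  have hs := lf_spec h
  have h1 := lf_same h (y' := L.lo) le_rfl L.lohi.le
  unfold Ch
  rw [hs.1, hs.2.1]
  exact h1

lemma Ch.at {L : Leaf P} (h : Ch L) {y : ℤ} (h1 : L.lo ≤ y) (h2 : y ≤ L.hi) :
    lf P L.x L.z y = some L := lf_same h h1 h2

lemma Ch.corner {L : Leaf P} (h : Ch L) (i : ℕ) : lfD (L.c i) = some L := by
  unfold lfD
  rw [L.xl_c, L.zl_c]
  exact h.at (L.ru i).1 (L.ru i).2

lemma lc_M_off (L : Leaf P) (s : Fin 4) {y : ℤ} (hy : y < L.lo ∨ L.hi ≤ y) :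
    (L.lc hM h3 Z).K.M s y = false := by
  by_contra hne
  have h1 := ((L.lc hM h3 Z).facts.ok.M_on s y (by
    cases h : (L.lc hM h3 Z).K.M s y
    · exact absurd h hne
    · rfl)).2.1
  have h2 : L.lo ≤ y ∧ y < L.hi := of_decide_eq_true h1
  omega

lemma kd_M_off (L : Leaf P) (s : Fin 4) :
    (kd hM h3 Z d0 L.x L.z).M s (L.lo - 1) = false := by
  show (lf P L.x L.z (L.lo - 1)).elim false _ = false
  cases h : lf P L.x L.z (L.lo - 1) with
  | none => rfl
  | some L' =>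
    have hs := lf_spec h
    apply lc_M_off
    right
    by_contra hlt
    have h1 := L'.on (L.lo - 1) hs.2.2.1 (by omega)
    rw [hs.1, hs.2.1, L.off1] at h1
    exact Bool.false_ne_true h1

lemma kd_M {L : Leaf P} (hc : Ch L) (s : Fin 4) {y : ℤ} (h1 : L.lo ≤ y) (h2 : y ≤ L.hi) :
    (kd hM h3 Z d0 L.x L.z).M s y = (L.lc hM h3 Z).K.M s y := by
  show (lf P L.x L.z y).elim false _ = _
  rw [hc.at h1 h2]; rfl

lemma agree {L : Leaf P} (hc : Ch L) :
    Agree (kd hM h3 Z d0 L.x L.z) (L.lc hM h3 Z).K (tg L) L.lo L.hi where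
  M := fun s y h1 h2 => kd_M hc s h1 h2
  M0 := fun s => kd_M_off L s
  M0' := fun s => lc_M_off L s (Or.inl (by omega))
  cn := fun s y h1 h2 => by
    show (lf P L.x L.z y).elim false _ = _
    rw [hc.at h1 h2]; rfl
  cs := fun s y h1 h2 => by
    show (lf P L.x L.z y).elim false _ = _
    rw [hc.at h1 h2]; rfl
  tM := fun s y h1 h2 => by
    show (lf P L.x L.z y).elim _ _ = _
    rw [hc.at h1 h2]; rfl
  tC := fun s y h1 h2 => by
    show (lf P L.x L.z y).elim _ _ = _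
    rw [hc.at h1 h2]; rfl

lemma agree_fl {L : Leaf P} (hc : Ch L) {y : ℤ} (h1 : L.lo ≤ y) (h2 : y ≤ L.hi) :
    (kd hM h3 Z d0 L.x L.z).bp y = (L.lc hM h3 Z).K.bp y ∧
    (kd hM h3 Z d0 L.x L.z).vl y = (L.lc hM h3 Z).K.vl y ∧
    (kd hM h3 Z d0 L.x L.z).fN y = (L.lc hM h3 Z).K.fN y ∧
    (kd hM h3 Z d0 L.x L.z).fS y = (L.lc hM h3 Z).K.fS y ∧
    (kd hM h3 Z d0 L.x L.z).gS y = (L.lc hM h3 Z).K.gS y ∧
    (kd hM h3 Z d0 L.x L.z).gN y = (L.lc hM h3 Z).K.gN y ∧
    (kd hM h3 Z d0 L.x L.z).tb y = tg L ((L.lc hM h3 Z).K.tb y) ∧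
    (kd hM h3 Z d0 L.x L.z).tv y = tg L ((L.lc hM h3 Z).K.tv y) := by
  refine ⟨?_, ?_, ?_, ?_, ?_, ?_, ?_, ?_⟩ <;>
  · show (lf P L.x L.z y).elim _ _ = _
    rw [hc.at h1 h2]; rfl

end

end Pool.Agent.MP42D
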