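import Pool.Agent.MP42.D.Defs

/-!
# Piece A, geometry: plates and the strips of the leaves
-/

set_option autoImplicit false
set_option linter.unusedSectionVars false

namespace Pool.Agent.MP42D

open Pool.Agent.Helper55.UNF Pool.Agent.Helper55.UNF.GridSolid Pool.Agent.MP42

variable {P : GridSolid}

lemma pN_pow_e (s : P.FSt) (j : ℕ) : ((pN ^ j) s).1.e = s.1.e := by
  induction j with
  | zero => rfl
  | succ j ih =>
    rw [pow_succ', Equiv.Perm.mul_apply]
    have : (pN ((pN ^ j) s)).1.e = ((pN ^ j) s).1.e := FSt.stN_e _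
    rw [this, ih]

lemma ring_ex' (s : P.FSt) (hs : s.1.e.1 = 0) : ∃ j : ℕ, IsDart ((pN ^ j) s) := by
  by_cases h1 : s.1.d.1 = 1
  · exact ⟨0, h1, hs⟩
  · obtain ⟨j, hj⟩ := Geo.exists_turn s.rL
    refine ⟨j, ?_, by rw [pN_pow_e]; exact hs⟩
    have h2 : ((pN ^ j) s).1.d = ((pE ^ j) s.rL).1.d := by
      rw [Geo.pN_pow]; rfl
    have h3 := ((pN ^ j) s).2.2
    rw [pN_pow_e, hs] at h3
    rw [h2] at h3 ⊢
    have h4 : s.rL.1.d.1 = s.1.d.1 := rfl
    rw [h4] at hj
    have h5 := s.2.2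
    rw [hs] at h5
    have key : ∀ a b : Fin 3, a ≠ 0 → a ≠ 1 → b ≠ 0 → b ≠ a → b = 1 := by decide
    exact key _ _ h5 h1 h3 hj

lemma ring_ex (s : P.FSt) (hs : s.1.e.1 = 0) :
    ∃ j : ℕ, IsDart (((pN.symm : Equiv.Perm P.FSt) ^ j) s) := by
  obtain ⟨j, hj⟩ := ring_ex' s hs
  have ho := orderOf_pos' (pN : Equiv.Perm P.FSt)
  refine ⟨(orderOf (pN : Equiv.Perm P.FSt)) * j - j, ?_⟩
  have h1 : ((pN.symm : Equiv.Perm P.FSt) ^ ((orderOf (pN : Equiv.Perm P.FSt)) * j - j)) s =
      (pN ^ j) s := by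
    have e : (pN.symm : Equiv.Perm P.FSt) = pN⁻¹ := rfl
    rw [e, inv_pow]
    apply (pN ^ ((orderOf (pN : Equiv.Perm P.FSt)) * j - j)).injective
    rw [← Equiv.Perm.mul_apply, mul_inv_cancel, ← Equiv.Perm.mul_apply, ← pow_add,
      Nat.sub_add_cancel (Nat.le_mul_of_pos_left j ho), pow_mul, pow_orderOf_eq_one, one_pow]
  rw [h1]
  exact hj

lemma isDart_end1F' (s : P.FSt) (hs : s.1.e.1 = 0) : IsDart (end1F s) := srch_spec (ring_ex s hs)

/-- the dart at or to the south of a state with east `± x` -/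
noncomputable def e1 (s : P.FSt) (hs : s.1.e.1 = 0) : Dart P := ⟨end1F s, isDart_end1F' s hs⟩

lemma onD_eq {α : Type*} (a : α) (g : Dart P → α) (s : P.FSt) (hs : s.1.e.1 = 0) :
    onD a g s = g (e1 s hs) := by
  unfold onD
  rw [dif_pos (isDart_end1F' s hs)]
  rfl

lemma end1F_dart {s : P.FSt} (h : IsDart s) : end1F s = s := by
  unfold end1F
  rw [srch_zero h]
  rfl

lemma symm_pow_pN (s : P.FSt) (r : ℕ) :
    (pN ^ r) (((pN.symm : Equiv.Perm P.FSt) ^ r) s) = s := by
  have e : (pN.symm : Equiv.Perm P.FSt) = pN⁻¹ := rfl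
  rw [e, inv_pow, ← Equiv.Perm.mul_apply, mul_inv_cancel]
  rfl

lemma pN_pow_symm (s : P.FSt) (r : ℕ) :
    ((pN.symm : Equiv.Perm P.FSt) ^ r) ((pN ^ r) s) = s := by
  have e : (pN.symm : Equiv.Perm P.FSt) = pN⁻¹ := rfl
  rw [e, inv_pow, ← Equiv.Perm.mul_apply, inv_mul_cancel]
  rfl

/-- a plate is inside the strip after its dart -/
lemma e1_spec (s : P.FSt) (hs : s.1.e.1 = 0) (hd : s.1.d.1 = 2) :
    ∃ r, s = (pN ^ (r + 1)) (e1 s hs).1 ∧
      (∀ i ≤ r, ¬ IsDart ((pN ^ (i + 1)) (e1 s hs).1)) := by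
  have hnd : ¬ IsDart s := by
    intro h
    rw [h.1] at hd
    exact absurd hd (by decide)
  have hpos : 0 < srch (pN.symm : Equiv.Perm P.FSt) IsDart s := srch_pos hnd (ring_ex s hs)
  obtain ⟨r, hr⟩ : ∃ r, srch (pN.symm : Equiv.Perm P.FSt) IsDart s = r + 1 :=
    ⟨_, (Nat.succ_pred_eq_of_pos hpos).symm⟩
  have h1 : (e1 s hs).1 = ((pN.symm : Equiv.Perm P.FSt) ^ (r + 1)) s := by
    show end1F s = _
    unfold end1F
    rw [hr]
  refine ⟨r, ?_, ?_⟩
  · rw [h1, symm_pow_pN]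
  · intro i hi h
    rw [h1] at h
    have h2 : (pN ^ (i + 1)) (((pN.symm : Equiv.Perm P.FSt) ^ (r + 1)) s) =
        ((pN.symm : Equiv.Perm P.FSt) ^ (r - i)) s := by
      have h3 : ((pN.symm : Equiv.Perm P.FSt) ^ (r + 1)) s =
          ((pN.symm : Equiv.Perm P.FSt) ^ (i + 1)) (((pN.symm : Equiv.Perm P.FSt) ^ (r - i)) s) := by
        rw [← Equiv.Perm.mul_apply, ← pow_add]
        congr 2
        omega
      rw [h3, symm_pow_pN]
    rw [h2] at h
    exact srch_not (π := (pN.symm : Equiv.Perm P.FSt)) (stop := IsDart) (s := s) (j := r - i)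
      (by rw [hr]; omega) h

/-- the corner at the west end of a state with east `± x` -/
noncomputable def kW (s : P.FSt) (hs : s.1.e.1 = 0) : Dart P := (phi P).symm (e1 s hs)

lemma phi_kW (s : P.FSt) (hs : s.1.e.1 = 0) : phi P (kW s hs) = e1 s hs :=
  (phi P).apply_symm_apply _

/-- position of a plate in its strip -/
lemma plate_step (s : P.FSt) (hs : s.1.e.1 = 0) (hd : s.1.d.1 = 2) :
    ∃ l b j, Sk (kW s hs) l b ∧ j < l ∧ s = (pN ^ (j + 1)) (phi P (kW s hs)).1 := by
  obtain ⟨l, b, h⟩ := exists_sk (kW s hs)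
  obtain ⟨r, h1, h2⟩ := e1_spec s hs hd
  refine ⟨l, b, r, h, ?_, by rw [phi_kW]; exact h1⟩
  by_contra hlt
  apply h2 l (by omega)
  have h3 : (nuD P (kW s hs)).1.r2 = (pN ^ (l + 1)) (phi P (kW s hs)).1 := by
    rw [h.hnu, FSt.r2_r2, pN_pow']
  rw [phi_kW] at h3
  rw [← h3]
  exact (nuD P (kW s hs)).2

lemma sw_of_rL (s : P.FSt) : Geo.nw s.rL.1 = Geo.sw s.1 := by
  have h1 : Geo.sw (s.rL.rR).1 = Geo.nw s.rL.1 := Geo.sw_rotR _ s.rL.2.2
  rw [FSt.rL_rR] at h1
  exact h1.symm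

lemma nw_sw_0 (s : P.FSt) (h : s.1.n.1 ≠ 0) : Geo.nw s.1 0 = Geo.sw s.1 0 := by
  unfold Geo.nw Geo.sw Geo.cnr
  have h1 : ¬ ((0 : Fin 3) = (cross s.1.d s.1.e).1) := fun h' => h h'.symm
  have h2 : ¬ ((0 : Fin 3) = (opp (cross s.1.d s.1.e)).1) := h1
  simp only [h1, h2, false_and, or_false]

lemma nw_sw_2 (s : P.FSt) (h : s.1.n.1 ≠ 2) : Geo.nw s.1 2 = Geo.sw s.1 2 := by
  unfold Geo.nw Geo.sw Geo.cnr
  have h1 : ¬ ((2 : Fin 3) = (cross s.1.d s.1.e).1) := fun h' => h h'.symm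
  have h2 : ¬ ((2 : Fin 3) = (opp (cross s.1.d s.1.e)).1) := h1
  simp only [h1, h2, false_and, or_false]

lemma sw_1 (s : P.FSt) (hs : s.1.e.1 = 0) (hd : s.1.d.1 = 2) :
    Geo.sw s.1 1 = s.1.c 1 + (if s.1.n.2 then 0 else 1) := by
  unfold Geo.sw Geo.cnr
  have hn : s.1.n.1 = 1 := by
    have : ∀ d e : Dir, d.1 = 2 → e.1 = 0 → (cross d e).1 = 1 := by decide
    exact this _ _ hd hs
  have h1 : ¬ ((1 : Fin 3) = s.1.d.1) := by rw [hd]; decide
  have h2 : ¬ ((1 : Fin 3) = (opp s.1.e).1) := by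
    show ¬ ((1 : Fin 3) = s.1.e.1)
    rw [hs]; decide
  have h3 : (opp (cross s.1.d s.1.e)).1 = 1 := hn
  have h4 : (opp (cross s.1.d s.1.e)).2 = !s.1.n.2 := rfl
  simp only [h1, h2, h3, h4, false_and, false_or, true_and]
  cases s.1.n.2 <;> simp

lemma plate_n (s : P.FSt) (hs : s.1.e.1 = 0) (hd : s.1.d.1 = 2) : s.1.n.1 = 1 := by
  have : ∀ d e : Dir, d.1 = 2 → e.1 = 0 → (cross d e).1 = 1 := by decide
  exact this _ _ hd hs

/-- **A1**: the strip of a plate -/
theorem plate_strip (s : P.FSt) (hs : s.1.e.1 = 0) (hd : s.1.d.1 = 2) :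
    xl (kW s hs) = Geo.nw s.1 0 ∧ zl (kW s hs) = Geo.nw s.1 2 ∧
    (s.1.n.2 = true → yw (kW s hs) ≤ s.1.c 1 ∧ s.1.c 1 < yu (nuD P (kW s hs))) ∧
    (s.1.n.2 = false → yu (nuD P (kW s hs)) ≤ s.1.c 1 ∧ s.1.c 1 < yw (kW s hs)) := by
  obtain ⟨l, b, j, h, hj, hsj⟩ := plate_step s hs hd
  have hn := plate_n s hs hd
  have e1 : s.rL = (pE ^ (j + 1)) (phi P (kW s hs)).1.rL := by
    conv_lhs => rw [hsj, pN_pow', FSt.rR_rL]
  have e2 : Geo.sw s.1 = ![xl (kW s hs), if b then yw (kW s hs) + j else yw (kW s hs) - j,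
      zl (kW s hs)] := by
    rw [← sw_of_rL, e1, h.hpos j (by omega)]
  have e3 : s.1.n = (1, b) := by
    have h1 := h.he j hj
    rw [← e1] at h1
    exact h1
  have h0 := congrFun e2 0
  have h1 := congrFun e2 1
  have h2 := congrFun e2 2
  rw [sw_1 s hs hd, e3] at h1
  have hy := h.yu_eq
  refine ⟨?_, ?_, ?_, ?_⟩
  · rw [nw_sw_0 s (by rw [hn]; decide), h0]; rfl
  · rw [nw_sw_2 s (by rw [hn]; decide), h2]; rfl
  · intro hb
    rw [e3] at hb
    simp only at hb
    subst hb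
    simp at h1 hy
    constructor <;> omega
  · intro hb
    rw [e3] at hb
    simp only at hb
    subst hb
    simp at h1 hy
    constructor <;> omega

/-- the other end of a strip -/
theorem e1_r2 (s : P.FSt) (hs : s.1.e.1 = 0) (hd : s.1.d.1 = 2) (hs' : s.r2.1.e.1 = 0) :
    e1 s.r2 hs' = theta P (e1 s hs) := by
  obtain ⟨l, b, j, h, hj, hsj⟩ := plate_step s hs hd
  apply Subtype.ext
  have h3 : (nuD P (kW s hs)).1 = ((pN ^ (l + 1)) (phi P (kW s hs)).1).r2 := by
    rw [h.hnu, pN_pow']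
  have h4 : (nuD P (kW s hs)) = theta P (e1 s hs) := by
    show theta P (phi P (kW s hs)) = _
    rw [phi_kW]
  rw [← h4, h3]
  show end1F s.r2 = _
  have hpow : ∀ i : ℕ, ((pN.symm : Equiv.Perm P.FSt) ^ i) s.r2 = ((pN ^ i) s).r2 := by
    intro i
    induction i with
    | zero => rfl
    | succ i ih =>
      rw [pow_succ', Equiv.Perm.mul_apply, ih, pow_succ', Equiv.Perm.mul_apply, pN_symm_apply,
        FSt.r2_r2]
      rfl
  have hs2 : ∀ i, (pN ^ i) s = (pN ^ (i + j + 1)) (phi P (kW s hs)).1 := by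
    intro i
    conv_lhs => rw [hsj]
    rw [← Equiv.Perm.mul_apply, ← pow_add]
    congr 2
  have hdart : IsDart ((pN ^ (l + 1)) (phi P (kW s hs)).1) := by
    have h5 := (nuD P (kW s hs)).2
    rw [h3] at h5
    exact h5
  have hsr : srch (pN.symm : Equiv.Perm P.FSt) IsDart s.r2 = l - j := by
    apply le_antisymm
    · by_contra hlt
      have h5 := srch_not (not_le.1 hlt)
      apply h5
      rw [hpow, hs2]
      have : l - j + j + 1 = l + 1 := by omega
      rw [this]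
      exact hdart
    · by_contra hlt
      have h5 := srch_spec (π := (pN.symm : Equiv.Perm P.FSt)) (stop := IsDart)
        (s := s.r2) (ring_ex s.r2 hs')
      rw [hpow, hs2] at h5
      have h6 := h.hd (srch (pN.symm : Equiv.Perm P.FSt) IsDart s.r2 + j) (by omega)
      have h7 := h5.1
      change ((pN ^ (srch (pN.symm : Equiv.Perm P.FSt) IsDart s.r2 + j + 1))
        (phi P (kW s hs)).1).1.d.1 = 1 at h7
      rw [pN_pow'] at h7
      have h8 : ((pE ^ (srch (pN.symm : Equiv.Perm P.FSt) IsDart s.r2 + j + 1))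
        (phi P (kW s hs)).1.rL).1.d.1 = 1 := h7
      rw [h6] at h8
      exact absurd h8 (by decide)
  unfold end1F
  rw [hsr, hpow, hs2]
  have : l - j + j + 1 = l + 1 := by omega
  rw [this]

/-! ### Directions at the darts -/

lemma rR_n (s : P.FSt) : s.rR.1.n = s.1.e := by
  show cross s.1.d (opp (cross s.1.d s.1.e)) = _
  exact cross_opp_cross _ _ s.2.2

lemma Sk.stN_n {κ : Dart P} {l : ℕ} {b : Bool} (h : Sk κ l b) {j : ℕ} (hj : j < l) :
    ((pN ^ (j + 1)) (phi P κ).1).1.n = (1, b) := by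
  rw [pN_pow', rR_n]
  exact h.he j hj

lemma isUp_phi (κ : Dart P) : isUp (phi P κ).1 = decide (yw κ < yu (nuD P κ)) := by
  obtain ⟨l, b, h⟩ := exists_sk κ
  have hy := h.yu_eq
  have hn := dart_n (phi P κ)
  unfold isUp
  rw [decide_eq_decide]
  rcases Nat.eq_zero_or_pos l with rfl | hl
  · constructor
    · rintro (h1 | ⟨-, h1⟩)
      · rw [h1] at hn; exact absurd hn (by decide)
      · exfalso
        have h2 : (nuD P κ).1.r2 = (phi P κ).1.stN := by
          rw [h.hnu, FSt.r2_r2]; rfl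
        have h3 := dart_n (nuD P κ)
        rw [← h2, Geo.r2_n] at h1
        have h4 : (nuD P κ).1.1.n.1 = 1 := congrArg Prod.fst h1
        rw [h4] at h3
        exact absurd h3 (by decide)
    · intro h1
      cases b <;> simp at hy <;> omega
  · have h1 : (phi P κ).1.stN.1.n = (1, b) := h.stN_n hl
    rw [h1]
    constructor
    · rintro (h2 | ⟨-, h2⟩)
      · rw [h2] at hn; exact absurd hn (by decide)
      · have : b = true := congrArg Prod.snd h2
        subst this
        simp at hy; omega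
    · intro h2
      right
      refine ⟨hn, ?_⟩
      cases b
      · simp at hy; omega
      · rfl

lemma isDn_phi (κ : Dart P) : isDn (phi P κ).1 = decide (yu (nuD P κ) < yw κ) := by
  obtain ⟨l, b, h⟩ := exists_sk κ
  have hy := h.yu_eq
  have hn := dart_n (phi P κ)
  unfold isDn
  rw [decide_eq_decide]
  rcases Nat.eq_zero_or_pos l with rfl | hl
  · constructor
    · rintro (h1 | ⟨-, h1⟩)
      · rw [h1] at hn; exact absurd hn (by decide)
      · exfalso
        have h2 : (nuD P κ).1.r2 = (phi P κ).1.stN := by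
          rw [h.hnu, FSt.r2_r2]; rfl
        have h3 := dart_n (nuD P κ)
        rw [← h2, Geo.r2_n] at h1
        have h4 : (nuD P κ).1.1.n.1 = 1 := congrArg Prod.fst h1
        rw [h4] at h3
        exact absurd h3 (by decide)
    · intro h1
      cases b <;> simp at hy <;> omega
  · have h1 : (phi P κ).1.stN.1.n = (1, b) := h.stN_n hl
    rw [h1]
    constructor
    · rintro (h2 | ⟨-, h2⟩)
      · rw [h2] at hn; exact absurd hn (by decide)
      · have : b = false := congrArg Prod.snd h2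
        subst this
        simp at hy; omega
    · intro h2
      right
      refine ⟨hn, ?_⟩
      cases b
      · rfl
      · simp at hy; omega

lemma stN_nu (κ : Dart P) {l : ℕ} {b : Bool} (h : Sk κ l b) :
    (nuD P κ).1.stN = ((pN ^ l) (phi P κ).1).r2 := by
  have h1 : (nuD P κ).1 = ((pN ^ (l + 1)) (phi P κ).1).r2 := by
    rw [h.hnu, pN_pow']
  rw [h1, pow_succ', Equiv.Perm.mul_apply]
  show (((pN ^ l) (phi P κ).1).stN).r2.stN = _
  rw [FSt.stN_inv]

lemma nu_stN_n (κ : Dart P) {l : ℕ} {b : Bool} (h : Sk κ l b) (hl : 0 < l) :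
    (nuD P κ).1.stN.1.n = (1, !b) := by
  obtain ⟨l, rfl⟩ : ∃ l', l = l' + 1 := ⟨l - 1, by omega⟩
  rw [stN_nu κ h, Geo.r2_n, h.stN_n (Nat.lt_succ_self l)]
  rfl

lemma isUp_nu (κ : Dart P) : isUp (nuD P κ).1 = decide (yu (nuD P κ) < yw κ) := by
  obtain ⟨l, b, h⟩ := exists_sk κ
  have hy := h.yu_eq
  have hn := dart_n (nuD P κ)
  unfold isUp
  rw [decide_eq_decide]
  rcases Nat.eq_zero_or_pos l with rfl | hl
  · constructor
    · rintro (h1 | ⟨-, h1⟩)
      · rw [h1] at hn; exact absurd hn (by decide)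
      · exfalso
        rw [stN_nu κ h, Geo.r2_n] at h1
        have h3 := dart_n (phi P κ)
        have h4 : (phi P κ).1.1.n.1 = 1 := congrArg Prod.fst h1
        rw [h4] at h3
        exact absurd h3 (by decide)
    · intro h1
      cases b <;> simp at hy <;> omega
  · rw [nu_stN_n κ h hl]
    constructor
    · rintro (h2 | ⟨-, h2⟩)
      · rw [h2] at hn; exact absurd hn (by decide)
      · have : (!b) = true := congrArg Prod.snd h2
        cases b
        · simp at hy; omega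
        · simp at this
    · intro h2
      right
      refine ⟨hn, ?_⟩
      cases b
      · rfl
      · simp at hy; omega

lemma isDn_nu (κ : Dart P) : isDn (nuD P κ).1 = decide (yw κ < yu (nuD P κ)) := by
  obtain ⟨l, b, h⟩ := exists_sk κ
  have hy := h.yu_eq
  have hn := dart_n (nuD P κ)
  unfold isDn
  rw [decide_eq_decide]
  rcases Nat.eq_zero_or_pos l with rfl | hl
  · constructor
    · rintro (h1 | ⟨-, h1⟩)
      · rw [h1] at hn; exact absurd hn (by decide)
      · exfalso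
        rw [stN_nu κ h, Geo.r2_n] at h1
        have h3 := dart_n (phi P κ)
        have h4 : (phi P κ).1.1.n.1 = 1 := congrArg Prod.fst h1
        rw [h4] at h3
        exact absurd h3 (by decide)
    · intro h1
      cases b <;> simp at hy <;> omega
  · rw [nu_stN_n κ h hl]
    constructor
    · rintro (h2 | ⟨-, h2⟩)
      · rw [h2] at hn; exact absurd hn (by decide)
      · have : (!b) = false := congrArg Prod.snd h2
        cases b
        · simp at this
        · simp at hy; omega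
    · intro h2
      right
      refine ⟨hn, ?_⟩
      cases b
      · simp at hy; omega
      · rfl

end Pool.Agent.MP42D
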