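import Pool.Agent.MP42.D.CombK

/-!
# D1: the data of the line satisfy the conditions
-/

set_option autoImplicit false
set_option linter.unusedSectionVars false

namespace Pool.Agent.MP42D

namespace LC

variable (L : LC)

/-! ## Monotonicity -/

lemma mwA {i j : ℕ} (h1 : L.m ≤ i) (h2 : i ≤ j) (h3 : j < L.n) : L.yw j ≤ L.yw i := by
  rcases h2.lt_or_eq with h | h
  · have e1 := L.mA h1 h h3.le
    have e2 := L.dnc j (by omega) h3
    omega
  · rw [h]

lemma muA {i j : ℕ} (h1 : L.m < i) (h2 : i ≤ j) (h3 : j ≤ L.n) : L.yu j ≤ L.yu i := by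
  rcases h2.lt_or_eq with h | h
  · have e1 := L.mA h1.le h h3
    have e2 := L.dnc i h1 (by omega)
    omega
  · rw [h]

lemma mwB {i j : ℕ} (h2 : i ≤ j) (h3 : j < L.m) : L.yw i ≤ L.yw j := by
  rcases h2.lt_or_eq with h | h
  · have e1 := L.mB h h3.le
    have e2 := L.upc j (by omega) h3
    omega
  · rw [h]

lemma muB {i j : ℕ} (h1 : 0 < i) (h2 : i ≤ j) (h3 : j ≤ L.m) : L.yu i ≤ L.yu j := by
  rcases h2.lt_or_eq with h | h
  · have e1 := L.mB h h3
    have e2 := L.upc i h1 (by omega)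
    omega
  · rw [h]

/-! ## Walls -/

lemma aw_u {p : ℕ} (h1 : L.m < p) (h2 : p < L.n) :
    L.K.aw (L.yu p - 1) = true ∧ L.K.aw (L.yu p) = false := by
  have e1 := L.dnc p h1 h2
  refine ⟨(L.aw_iff _).2 ⟨p, h1.le, h2.le, by omega, by omega⟩, ?_⟩
  rw [Bool.eq_false_iff, ne_eq, aw_iff]
  rintro ⟨j, h3, h4, h5, h6⟩
  rcases lt_trichotomy j p with h | h | h
  · have := L.sepA h3 h h2.le (by omega) e1
    omega
  · subst h; omega
  · have := L.mA h1.le h h4
    omega

lemma aw_w {p : ℕ} (h1 : L.m < p) (h2 : p < L.n) :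
    L.K.aw (L.yw p - 1) = false ∧ L.K.aw (L.yw p) = true := by
  have e1 := L.dnc p h1 h2
  refine ⟨?_, (L.aw_iff _).2 ⟨p, h1.le, h2.le, by omega, by omega⟩⟩
  rw [Bool.eq_false_iff, ne_eq, aw_iff]
  rintro ⟨j, h3, h4, h5, h6⟩
  rcases lt_trichotomy j p with h | h | h
  · have := L.mA h3 h h2.le
    omega
  · subst h; omega
  · have := L.sepA h1.le h h4 e1 (by omega)
    omega

lemma bw_w {p : ℕ} (h1 : 0 < p) (h2 : p < L.m) :
    L.K.bw (L.yw p - 1) = true ∧ L.K.bw (L.yw p) = false := by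
  have e1 := L.upc p h1 h2
  refine ⟨(L.bw_iff _).2 ⟨p, h2.le, by omega, by omega⟩, ?_⟩
  rw [Bool.eq_false_iff, ne_eq, bw_iff]
  rintro ⟨j, h4, h5, h6⟩
  rcases lt_trichotomy j p with h | h | h
  · have := L.mB h h2.le
    omega
  · subst h; omega
  · have := L.sepB h h4 e1 (by omega)
    omega

lemma bw_u {p : ℕ} (h1 : 0 < p) (h2 : p < L.m) :
    L.K.bw (L.yu p - 1) = false ∧ L.K.bw (L.yu p) = true := by
  have e1 := L.upc p h1 h2
  refine ⟨?_, (L.bw_iff _).2 ⟨p, h2.le, by omega, by omega⟩⟩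
  rw [Bool.eq_false_iff, ne_eq, bw_iff]
  rintro ⟨j, h4, h5, h6⟩
  rcases lt_trichotomy j p with h | h | h
  · have := L.sepB h h2.le (by omega) e1
    omega
  · subst h; omega
  · have := L.mB h h4
    omega

lemma aw_ev {y : ℤ} (h : L.K.aw (y - 1) ≠ L.K.aw y) :
    ∃ j, L.yw j < L.yu j ∧ (L.yw j = y ∨ L.yu j = y) := by
  rcases hb : L.K.aw y with _ | _
  · rcases ha : L.K.aw (y - 1) with _ | _
    · rw [ha, hb] at h; exact absurd rfl h
    · obtain ⟨j, h1, h2, h3, h4⟩ := (L.aw_iff _).1 ha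
      refine ⟨j, by omega, ?_⟩
      by_contra hcc
      have : L.K.aw y = true := (L.aw_iff _).2 ⟨j, h1, h2, by omega, by omega⟩
      rw [hb] at this
      cases this
  · rcases ha : L.K.aw (y - 1) with _ | _
    · obtain ⟨j, h1, h2, h3, h4⟩ := (L.aw_iff _).1 hb
      refine ⟨j, by omega, ?_⟩
      by_contra hcc
      have : L.K.aw (y - 1) = true := (L.aw_iff _).2 ⟨j, h1, h2, by omega, by omega⟩
      rw [ha] at this
      cases this
    · rw [ha, hb] at h; exact absurd rfl h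

lemma bw_ev {y : ℤ} (h : L.K.bw (y - 1) ≠ L.K.bw y) :
    ∃ j, L.yu j < L.yw j ∧ (L.yu j = y ∨ L.yw j = y) := by
  rcases hb : L.K.bw y with _ | _
  · rcases ha : L.K.bw (y - 1) with _ | _
    · rw [ha, hb] at h; exact absurd rfl h
    · obtain ⟨j, h1, h3, h4⟩ := (L.bw_iff _).1 ha
      refine ⟨j, by omega, ?_⟩
      by_contra hcc
      have : L.K.bw y = true := (L.bw_iff _).2 ⟨j, h1, by omega, by omega⟩
      rw [hb] at this
      cases this
  · rcases ha : L.K.bw (y - 1) with _ | _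
    · obtain ⟨j, h1, h3, h4⟩ := (L.bw_iff _).1 hb
      refine ⟨j, by omega, ?_⟩
      by_contra hcc
      have : L.K.bw (y - 1) = true := (L.bw_iff _).2 ⟨j, h1, by omega, by omega⟩
      rw [ha] at this
      cases this
    · rw [ha, hb] at h; exact absurd rfl h

/-! ## Pairs of runs -/

variable {L}

lemma Sg.sepO {v c v' c' : ℕ} (h : L.Sg v c) (h' : L.Sg v' c') :
    (v = v' ∧ c = c') ∨ c < v' ∨ c' < v := by
  have h0 := h.v0
  have h0' := h'.v0
  have h1 := h.vc
  have h1' := h'.vc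
  rcases lt_trichotomy v v' with g | g | g
  · right; left
    by_contra hcc
    have := h.s (v' - 1) (by omega) (by omega)
    rw [h'.sv] at this
    cases this
  · left
    refine ⟨g, ?_⟩
    rcases lt_trichotomy c c' with k | k | k
    · have := h'.s c (by omega) k
      rw [h.sc] at this
      cases this
    · exact k
    · have := h.s c' (by omega) k
      rw [h'.sc] at this
      cases this
  · right; right
    by_contra hcc
    have := h'.s (v - 1) (by omega) (by omega)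
    rw [h.sv] at this
    cases this

lemma Hb.sgO {v c v' c' : ℕ} (h : L.Hb v c) (h' : L.Sg v' c') (hn : c' < L.n) :
    c < v' ∧ c' < v := by
  have h0' := h'.v0
  have h1' := h'.vc
  constructor
  · by_contra hcc
    have := h.s2 (v' - 1) (by omega)
    rw [h'.sv] at this
    cases this
  · by_contra hcc
    have := h.s1 c' (by omega) hn
    rw [h'.sc] at this
    cases this

lemma Hb.hbO {v c v' c' : ℕ} (h : L.Hb v c) (h' : L.Hb v' c') : v = v' ∧ c = c' := by
  have key : ∀ {v c v' c' : ℕ}, L.Hb v c → L.Hb v' c' → v' ≤ v ∧ c' ≤ c := by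
    intro v c v' c' h h'
    have e1 := h.mv
    have e2 := h.vn
    have e3 := h'.mv
    have e4 := h'.vn
    constructor
    · by_contra hcc
      have := h.s1 (v' - 1) (by omega) (by omega)
      rw [h'.sv] at this
      cases this
    · by_contra hcc
      have := h'.s2 c (by omega)
      rw [h.sc] at this
      cases this
  have a := key h h'
  have b := key h' h
  omega

lemma Zg.zgO {a w a' w' : ℕ} (h : L.Zg a w) (h' : L.Zg a' w') : a = a' ∧ w = w' := by
  have key : ∀ {a w a' w' : ℕ}, L.Zg a w → L.Zg a' w' → a' ≤ a ∧ w ≤ w' := by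
    intro a w a' w' h h'
    have e1 := h.a0
    have e2 := h.aw
    have e3 := h.wn
    have e4 := h'.a0
    have e5 := h'.aw
    have e6 := h'.wn
    constructor
    · by_contra hcc
      have := h'.s1 (a - 1) (by omega)
      rw [h.sa] at this
      cases this
    · by_contra hcc
      have := h'.s2 w (by omega) (by omega)
      rw [h.sw] at this
      cases this
  have a1 := key h h'
  have b1 := key h' h
  omega

lemma Zg.sgO {a w v c : ℕ} (h : L.Zg a w) (h' : L.Sg v c) (hn : c < L.n) : a ≤ v ∧ c ≤ w := by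
  have e1 := h.a0
  have e2 := h'.v0
  constructor
  · by_contra hcc
    have := h.s1 (v - 1) (by omega)
    rw [h'.sv] at this
    cases this
  · by_contra hcc
    have := h.s2 c (by omega) (by omega)
    rw [h'.sc] at this
    cases this

lemma Zg.hbO {a w v c : ℕ} (h : L.Zg a w) (h' : L.Hb v c) : a ≤ c + 1 ∧ v ≤ w + 1 := by
  have e1 := h.a0
  have e2 := h'.mv
  have e3 := h'.vn
  constructor
  · by_contra hcc
    have := h.s1 c (by omega)
    rw [h'.sc] at this
    cases this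
  · by_contra hcc
    have := h.s2 (v - 1) (by omega) (by omega)
    rw [h'.sv] at this
    cases this

lemma Ht.htO {v c v' c' : ℕ} (h : L.Ht v c) (h' : L.Ht v' c') : v = v' ∧ c = c' := by
  have e1 := h.vm
  have e2 := h.mc
  have e3 := h'.vm
  have e4 := h'.mc
  have e5 := h.sg.sepO h'.sg
  omega

/-- the tracks of the other runs, if a run passes the bottom -/
lemma Hb.trkO {v c v' c' w' : ℕ} {x1 x2 : Bool} {s : Fin 4} {y1 y2 : ℤ} (h : L.Hb v c)
    (h' : L.Ty v' c' w' (x1, x2, Pc.trk s y1 y2)) :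
    (v' = v % L.n ∧ c' = c ∧ w' = v - 1) ∨ (L.m + 1 < v ∧ L.yu (v - 1) ≤ y1) ∨
      (c + 1 < L.m ∧ L.yw (c + 1) ≤ y1) := by
  have e1 := h.mv
  have e2 := h.vn
  have e3 := h.cm
  cases h' with
  | A0 mv cn hs t1 t2 t3 =>
    have e4 := h.sgO hs cn
    have e5 := hs.vc
    exact Or.inr (Or.inl ⟨by omega, L.muA (by omega) (by omega) (by omega)⟩)
  | B0 cm hs t1 t2 t3 =>
    have hm := L.hm
    have e4 := h.sgO hs (by omega)
    have e5 := hs.vc
    exact Or.inr (Or.inr ⟨by omega, L.mwB (by omega) (by omega)⟩)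
  | ZA ma hz hv t1 t2 t3 =>
    have e4 := hz.hbO h
    omega
  | ZB wm hz hv t1 t2 t3 =>
    have e4 := hz.hbO h
    omega
  | b1 hb h1 h2 h3 t1 t2 t3 =>
    have e4 := h.hbO hb
    left
    rw [e4.1, e4.2]
    exact ⟨rfl, rfl, rfl⟩
  | b2 hb h1 h2 h3 h4 t1 t2 t3 =>
    have e4 := h.hbO hb
    left
    rw [e4.1, e4.2]
    exact ⟨rfl, rfl, rfl⟩
  | t1 ht h1 h2 h3 t1 t2 t3 =>
    have e4 := h.sgO ht.sg ht.cn
    exact Or.inr (Or.inl ⟨by omega, L.muA (by omega) (by omega) (by omega)⟩)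
  | t2 ht h1 h2 h3 h4 t1 t2 t3 =>
    have e4 := h.sgO ht.sg ht.cn
    exact Or.inr (Or.inr ⟨by omega, L.mwB (by omega) (by omega)⟩)

/-- the tracks of the other runs, if a run passes the top -/
lemma Ht.trkO {v c v' c' w' : ℕ} {x1 x2 : Bool} {s : Fin 4} {y1 y2 : ℤ} (h : L.Ht v c)
    (h' : L.Ty v' c' w' (x1, x2, Pc.trk s y1 y2)) :
    (v' = v ∧ c' = c ∧ w' = v - 1) ∨ (c + 1 < L.n ∧ y2 ≤ L.yw (c + 1)) ∨
      (1 < v ∧ y2 ≤ L.yu (v - 1)) := by
  have e1 := h.vm
  have e2 := h.mc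
  have e3 := h.cn
  have e0 := h.sg.v0
  cases h' with
  | A0 mv cn hs t1 t2 t3 =>
    have e4 := h.sg.sepO hs
    have e5 := hs.vc
    exact Or.inr (Or.inl ⟨by omega, L.mwA (by omega) (by omega) (by omega)⟩)
  | B0 cm hs t1 t2 t3 =>
    have e4 := h.sg.sepO hs
    have e5 := hs.vc
    exact Or.inr (Or.inr ⟨by omega, L.muB (by omega) (by omega) (by omega)⟩)
  | ZA ma hz hv t1 t2 t3 =>
    have e4 := hz.sgO h.sg e3
    omega
  | ZB wm hz hv t1 t2 t3 =>
    have e4 := hz.sgO h.sg e3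
    omega
  | b1 hb h1 h2 h3 t1 t2 t3 =>
    have e4 := hb.sgO h.sg e3
    exact Or.inr (Or.inl ⟨by omega, L.mwA (by omega) (by omega) (by omega)⟩)
  | b2 hb h1 h2 h3 h4 t1 t2 t3 =>
    have e4 := hb.sgO h.sg e3
    exact Or.inr (Or.inr ⟨by omega, L.muB (by omega) (by omega) (by omega)⟩)
  | t1 ht h1 h2 h3 t1 t2 t3 =>
    have e4 := h.htO ht
    left
    rw [e4.1, e4.2]
    exact ⟨rfl, rfl, rfl⟩
  | t2 ht h1 h2 h3 h4 t1 t2 t3 =>
    have e4 := h.htO ht
    left
    rw [e4.1, e4.2]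
    exact ⟨rfl, rfl, rfl⟩

/-- tracks of one slot -/
theorem Ty.sepO {v c w v' c' w' : ℕ} {x1 x2 x1' x2' : Bool} {s : Fin 4} {y1 y2 y1' y2' : ℤ}
    (h : L.Ty v c w (x1, x2, Pc.trk s y1 y2)) (h' : L.Ty v' c' w' (x1', x2', Pc.trk s y1' y2')) :
    v = v' ∨ y2 < y1' ∨ y2' < y1 := by
  have hm := L.hm
  cases h with
  | A0 mv cn hs t1 t2 t3 =>
    cases h' with
    | A0 mv' cn' hs' t1' t2' t3' =>
      have e1 := hs.vc
      have e2 := hs'.vc
      rcases hs.sepO hs' with g | g | g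
      · exact Or.inl g.1
      · right; right
        exact L.sepA (by omega) g (by omega) (L.dnc _ (by omega) (by omega))
          (L.dnc _ (by omega) (by omega)) |>.trans' (L.dnc _ (by omega) (by omega)) |>.trans
          (L.dnc _ (by omega) (by omega))
      · right; left
        exact L.sepA (by omega) g (by omega) (L.dnc _ (by omega) (by omega))
          (L.dnc _ (by omega) (by omega)) |>.trans' (L.dnc _ (by omega) (by omega)) |>.trans
          (L.dnc _ (by omega) (by omega))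
  | B0 cm hs t1 t2 t3 =>
    cases h' with
    | B0 cm' hs' t1' t2' t3' =>
      have e1 := hs.vc
      have e2 := hs'.vc
      have e3 := hs.v0
      have e4 := hs'.v0
      rcases hs.sepO hs' with g | g | g
      · exact Or.inl g.1
      · right; left
        exact L.sepB g (by omega) (L.upc _ (by omega) (by omega))
          (L.upc _ (by omega) (by omega)) |>.trans' (L.upc _ (by omega) (by omega)) |>.trans
          (L.upc _ (by omega) (by omega))
      · right; right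
        exact L.sepB g (by omega) (L.upc _ (by omega) (by omega))
          (L.upc _ (by omega) (by omega)) |>.trans' (L.upc _ (by omega) (by omega)) |>.trans
          (L.upc _ (by omega) (by omega))
  | ZA ma hz hv t1 t2 t3 =>
    cases h' with
    | ZA ma' hz' hv' t1' t2' t3' =>
      left
      rw [hv, hv', (hz.zgO hz').2]
    | b1 hb h1 h2 h3 t1 t2 t3 =>
      have e4 := hz.hbO hb
      omega
    | t1 ht h1 h2 h3 t1 t2 t3 =>
      have e4 := hz.sgO ht.sg ht.cn
      have e5 := ht.vm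
      omega
  | ZB wm hz hv t1 t2 t3 =>
    cases h' with
    | ZB wm' hz' hv' t1' t2' t3' =>
      left
      rw [hv, hv', (hz.zgO hz').2]
    | b2 hb h1 h2 h3 h4 t1 t2 t3 =>
      have e4 := hz.hbO hb
      omega
    | t2 ht h1 h2 h3 h4 t1 t2 t3 =>
      have e4 := hz.sgO ht.sg ht.cn
      have e5 := ht.mc
      omega
  | b1 hb h1 h2 h3 t1 t2 t3 =>
    cases h' with
    | ZA ma' hz' hv' t1' t2' t3' =>
      have e4 := hz'.hbO hb
      omega
    | b1 hb' h1' h2' h3' t1' t2' t3' =>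
      left
      rw [(hb.hbO hb').1]
    | t1 ht h1' h2' h3' t1' t2' t3' =>
      have e4 := hb.sgO ht.sg ht.cn
      right; left
      have e5 := L.mA (by omega) e4.2 (by omega)
      have e6 := L.dnc _ h1' (by omega)
      have e7 := L.dnc _ hb.mv h2
      omega
  | b2 hb h1 h2 h3 h4 t1 t2 t3 =>
    cases h' with
    | ZB wm' hz' hv' t1' t2' t3' =>
      have e4 := hz'.hbO hb
      omega
    | b2 hb' h1' h2' h3' h4' t1' t2' t3' =>
      left
      rw [(hb.hbO hb').1]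
    | t2 ht h1' h2' h3' h4' t1' t2' t3' =>
      have e4 := hb.sgO ht.sg ht.cn
      right; left
      have e5 := L.mB e4.1 (by omega)
      have e6 := L.upc _ h2 (by omega)
      have e7 := L.upc _ ht.sg.v0 (by omega)
      omega
  | t1 ht h1 h2 h3 t1 t2 t3 =>
    cases h' with
    | ZA ma' hz' hv' t1' t2' t3' =>
      have e4 := hz'.sgO ht.sg ht.cn
      have e5 := ht.vm
      omega
    | b1 hb' h1' h2' h3' t1' t2' t3' =>
      have e4 := hb'.sgO ht.sg ht.cn
      right; right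
      have e5 := L.mA (by omega) e4.2 (by omega)
      have e6 := L.dnc _ h1 (by omega)
      have e7 := L.dnc _ hb'.mv h2'
      omega
    | t1 ht' h1' h2' h3' t1' t2' t3' =>
      left
      exact (ht.htO ht').1
  | t2 ht h1 h2 h3 h4 t1 t2 t3 =>
    cases h' with
    | ZB wm' hz' hv' t1' t2' t3' =>
      have e4 := hz'.sgO ht.sg ht.cn
      have e5 := ht.mc
      omega
    | b2 hb' h1' h2' h3' h4' t1' t2' t3' =>
      have e4 := hb'.sgO ht.sg ht.cn
      right; right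
      have e5 := L.mB e4.1 (by omega)
      have e6 := L.upc _ h2' (by omega)
      have e7 := L.upc _ ht.sg.v0 (by omega)
      omega
    | t2 ht' h1' h2' h3' h4' t1' t2' t3' =>
      left
      exact (ht.htO ht').1

/-- the ends of a track -/
lemma Ty.lt {v c w : ℕ} {x1 x2 : Bool} {s : Fin 4} {y1 y2 : ℤ}
    (h : L.Ty v c w (x1, x2, Pc.trk s y1 y2)) : L.lo < y1 ∧ y1 < y2 ∧ y2 < L.hi := by
  cases h <;> exact ⟨by assumption, by assumption, by assumption⟩

lemma Ty.st {v c w : ℕ} {x1 x2 : Bool} {s : Fin 4} {y1 y2 : ℤ}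
    (h : L.Ty v c w (x1, x2, Pc.trk s y1 y2)) :
    (L.K.aw (y1 - 1) = true ∧ L.K.aw y1 = false) ∨
      (L.K.bw (y1 - 1) = true ∧ L.K.bw y1 = false) := by
  have hm := L.hm
  cases h with
  | A0 mv cn hs t1 t2 t3 =>
    have e1 := hs.vc
    exact Or.inl (L.aw_u (by omega) (by omega))
  | B0 cm hs t1 t2 t3 =>
    have e1 := hs.vc
    have e2 := hs.v0
    exact Or.inr (L.bw_w (by omega) (by omega))
  | ZA ma hz hv t1 t2 t3 =>
    have e1 := hz.aw
    have e2 := hz.wn
    exact Or.inl (L.aw_u (by omega) (by omega))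
  | ZB wm hz hv t1 t2 t3 =>
    have e1 := hz.aw
    have e2 := hz.a0
    exact Or.inr (L.bw_w (by omega) (by omega))
  | b1 hb h1 h2 h3 t1 t2 t3 =>
    exact Or.inr (L.bw_w (by omega) (by omega))
  | b2 hb h1 h2 h3 h4 t1 t2 t3 =>
    have e1 := hb.vn
    exact Or.inl (L.aw_u (by omega) (by omega))
  | t1 ht h1 h2 h3 t1 t2 t3 =>
    have e1 := ht.cn
    exact Or.inl (L.aw_u (by omega) (by omega))
  | t2 ht h1 h2 h3 h4 t1 t2 t3 =>
    have e1 := ht.sg.v0
    exact Or.inr (L.bw_w (by omega) (by omega))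

lemma Ty.sp {v c w : ℕ} {x1 x2 : Bool} {s : Fin 4} {y1 y2 : ℤ}
    (h : L.Ty v c w (x1, x2, Pc.trk s y1 y2)) :
    (L.K.aw (y2 - 1) = false ∧ L.K.aw y2 = true) ∨
      (L.K.bw (y2 - 1) = false ∧ L.K.bw y2 = true) := by
  have hm := L.hm
  cases h with
  | A0 mv cn hs t1 t2 t3 =>
    have e1 := hs.vc
    exact Or.inl (L.aw_w (by omega) (by omega))
  | B0 cm hs t1 t2 t3 =>
    have e1 := hs.vc
    have e2 := hs.v0
    exact Or.inr (L.bw_u (by omega) (by omega))
  | ZA ma hz hv t1 t2 t3 =>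
    have e1 := hz.aw
    have e2 := hz.wn
    exact Or.inl (L.aw_w (by omega) (by omega))
  | ZB wm hz hv t1 t2 t3 =>
    have e1 := hz.aw
    have e2 := hz.a0
    exact Or.inr (L.bw_u (by omega) (by omega))
  | b1 hb h1 h2 h3 t1 t2 t3 =>
    exact Or.inl (L.aw_w hb.mv h2)
  | b2 hb h1 h2 h3 h4 t1 t2 t3 =>
    exact Or.inr (L.bw_u h2 hb.cm)
  | t1 ht h1 h2 h3 t1 t2 t3 =>
    have e1 := ht.vm
    exact Or.inr (L.bw_u (by omega) (by omega))
  | t2 ht h1 h2 h3 h4 t1 t2 t3 =>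
    have e1 := ht.mc
    exact Or.inl (L.aw_w (by omega) (by omega))

/-- at an event of the A side -/
theorem Ty.ordA {v c w v' c' w' : ℕ} {x1 x2 x1' x2' : Bool} {s s' : Fin 4}
    {y y1 y2 y1' y2' : ℤ} (T : L.Ty v c w (x1, x2, Pc.trk s y1 y2))
    (T' : L.Ty v' c' w' (x1', x2', Pc.trk s' y1' y2')) (hy : y = y1 ∨ y = y2)
    (hA : ∃ j, L.yw j < L.yu j ∧ (L.yw j = y ∨ L.yu j = y)) (g1 : y1' < y) (g2 : y < y2')
    (hne : s ≠ s') : s < s' := by
  have hm := L.hm
  have hlt := T.lt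
  have hev : ∀ i, L.yu i < L.yw i → L.yu i = y ∨ L.yw i = y → False := by
    intro i h1 h2
    obtain ⟨j, h3, h4⟩ := hA
    exact L.ev' h3 h4 h1 h2 (by omega) (by omega)
  clear hA
  cases T with
  | A0 mv cn hs t1 t2 t3 =>
    exact Fin.pos_of_ne_zero hne.symm
  | B0 cm hs t1 t2 t3 =>
    exfalso
    have e1 := hs.vc
    have e2 := hs.v0
    rcases hy with hy | hy
    · exact hev v (L.upc v e2 (by omega)) (Or.inr hy.symm)
    · exact hev c (L.upc c (by omega) cm) (Or.inl hy.symm)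
  | @ZA v a w ma hz hv t1 t2 t3 =>
    have e1 := hz.aw
    have e2 := hz.wn
    cases T' with
    | A0 mv' cn' hs' t1' t2' t3' =>
      exfalso
      have e3 := hz.sgO hs' cn'
      have e4 := hs'.vc
      have e5 := L.muA (i := c') (j := w) (by omega) e3.2 e2.le
      have e6 := L.mwA (i := a) (j := v') ma.le e3.1 (by omega)
      omega
    | _ => first | decide | exact absurd rfl hne
  | @ZB v a w wm hz hv t1 t2 t3 =>
    exfalso
    have e1 := hz.aw
    have e2 := hz.a0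
    rcases hy with hy | hy
    · exact hev a (L.upc a e2 (by omega)) (Or.inr hy.symm)
    · exact hev w (L.upc w (by omega) wm) (Or.inl hy.symm)
  | @b1 v c hb h1 h2 h3 t1 t2 t3 =>
    rcases hy with hy | hy
    · exact (hev (c + 1) (L.upc (c + 1) (by omega) h1) (Or.inr hy.symm)).elim
    · cases T' with
      | A0 mv' cn' hs' t1' t2' t3' =>
        exfalso
        have e3 := hb.sgO hs' cn'
        have e4 := hs'.vc
        have e5 := L.mA (i := c') (j := v) (by omega) e3.2 h2.le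
        have e6 := L.dnc c' (by omega) cn'
        have e7 := L.dnc v hb.mv h2
        omega
      | _ => first | decide | exact absurd rfl hne
  | @b2 v c hb h1 h2 h3 h4 t1 t2 t3 =>
    have e0 := hb.vn
    rcases hy with hy | hy
    · cases T' with
      | A0 mv' cn' hs' t1' t2' t3' =>
        exfalso
        have e3 := hb.sgO hs' cn'
        have e4 := hs'.vc
        have e5 := L.muA (i := c') (j := v - 1) (by omega) (by omega) (by omega)
        omega
      | ZA ma hz hv t1 t2 t3 =>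
        have e3 := hz.hbO hb
        have e4 := hb.cm
        omega
      | @b1 v' c' hb' h1' h2' h3' t1' t2' t3' =>
        have e3 := hb.hbO hb'
        rw [← e3.1, ← e3.2] at h3'
        omega
      | t1 ht h1' h2' h3' t1' t2' t3' =>
        exfalso
        have e3 := hb.sgO ht.sg ht.cn
        have e5 := L.muA (i := c') (j := v - 1) (by omega) (by omega) (by omega)
        omega
      | _ => first | decide | exact absurd rfl hne
    · exact (hev c (L.upc c h2 hb.cm) (Or.inl hy.symm)).elim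
  | t1 ht h1 h2 h3 t1 t2 t3 =>
    have e0 := ht.vm
    rcases hy with hy | hy
    · cases T' with
      | A0 mv' cn' hs' t1' t2' t3' =>
        exfalso
        have e2 := hs'.vc
        have e3 := ht.sg.sepO hs'
        have e5 := L.mA (i := c) (j := v') (by omega) (by omega) (by omega)
        have e6 := L.dnc c h1 ht.cn
        have e7 := L.dnc v' mv' (by omega)
        omega
      | _ => first | decide | exact absurd rfl hne
    · exact (hev (v - 1) (L.upc (v - 1) (by omega) (by omega)) (Or.inl hy.symm)).elim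
  | t2 ht h1 h2 h3 h4 t1 t2 t3 =>
    have e0 := ht.mc
    rcases hy with hy | hy
    · exact (hev v (L.upc v ht.sg.v0 h1) (Or.inr hy.symm)).elim
    · cases T' with
      | A0 mv' cn' hs' t1' t2' t3' =>
        exfalso
        have e2 := hs'.vc
        have e3 := ht.sg.sepO hs'
        have e5 := L.mwA (i := c + 1) (j := v') (by omega) (by omega) (by omega)
        omega
      | ZA ma hz hv t1 t2 t3 =>
        have e3 := hz.sgO ht.sg ht.cn
        omega
      | @b1 v' c' hb' h1' h2' h3' t1' t2' t3' =>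
        exfalso
        have e3 := hb'.sgO ht.sg ht.cn
        have e5 := L.mwA (i := c + 1) (j := v') (by omega) (by omega) h2'
        omega
      | t1 ht' h1' h2' h3' t1' t2' t3' =>
        have e3 := ht.htO ht'
        rw [← e3.1, ← e3.2] at h3'
        omega
      | _ => first | decide | exact absurd rfl hne

/-- at an event of the B side -/
theorem Ty.ordB {v c w v' c' w' : ℕ} {x1 x2 x1' x2' : Bool} {s s' : Fin 4}
    {y y1 y2 y1' y2' : ℤ} (T : L.Ty v c w (x1, x2, Pc.trk s y1 y2))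
    (T' : L.Ty v' c' w' (x1', x2', Pc.trk s' y1' y2')) (hy : y = y1 ∨ y = y2)
    (hB : ∃ j, L.yu j < L.yw j ∧ (L.yu j = y ∨ L.yw j = y)) (g1 : y1' < y) (g2 : y < y2')
    (hne : s ≠ s') : s' < s := by
  have hm := L.hm
  have hlt := T.lt
  have hev : ∀ i, L.yw i < L.yu i → L.yw i = y ∨ L.yu i = y → False := by
    intro i h1 h2
    obtain ⟨j, h3, h4⟩ := hB
    exact L.ev' h1 h2 h3 h4 (by omega) (by omega)
  clear hB
  cases T with
  | A0 mv cn hs t1 t2 t3 =>
    exfalso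
    have e1 := hs.vc
    rcases hy with hy | hy
    · exact hev c (L.dnc c (by omega) cn) (Or.inr hy.symm)
    · exact hev v (L.dnc v mv (by omega)) (Or.inl hy.symm)
  | B0 cm hs t1 t2 t3 =>
    exact lt_of_le_of_ne (Fin.le_last s') hne.symm
  | @ZA v a w ma hz hv t1 t2 t3 =>
    exfalso
    have e1 := hz.aw
    have e2 := hz.wn
    rcases hy with hy | hy
    · exact hev w (L.dnc w (by omega) e2) (Or.inr hy.symm)
    · exact hev a (L.dnc a ma (by omega)) (Or.inl hy.symm)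
  | @ZB v a w wm hz hv t1 t2 t3 =>
    have e1 := hz.aw
    have e2 := hz.a0
    cases T' with
    | B0 cm' hs' t1' t2' t3' =>
      exfalso
      have e3 := hz.sgO hs' (by omega)
      have e4 := hs'.vc
      have e5 := L.mwB (i := a) (j := v') e3.1 (by omega)
      have e6 := L.muB (i := c') (j := w) (by omega) e3.2 (by omega)
      omega
    | _ => first | decide | exact absurd rfl hne
  | @b1 v c hb h1 h2 h3 t1 t2 t3 =>
    rcases hy with hy | hy
    · cases T' with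
      | B0 cm' hs' t1' t2' t3' =>
        exfalso
        have e3 := hb.sgO hs' (by omega)
        have e4 := hs'.vc
        have e5 := L.mwB (i := c + 1) (j := v') (by omega) (by omega)
        omega
      | ZB ma hz hv t1 t2 t3 =>
        have e3 := hz.hbO hb
        have e4 := hb.mv
        omega
      | @b2 v' c' hb' h1' h2' h3' h4' t1' t2' t3' =>
        have e3 := hb.hbO hb'
        rw [← e3.1, ← e3.2] at h3'
        omega
      | t2 ht h1' h2' h3' h4' t1' t2' t3' =>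
        exfalso
        have e3 := hb.sgO ht.sg ht.cn
        have e5 := L.mwB (i := c + 1) (j := v') (by omega) (by omega)
        omega
      | _ => first | decide | exact absurd rfl hne
    · exact (hev v (L.dnc v hb.mv h2) (Or.inl hy.symm)).elim
  | @b2 v c hb h1 h2 h3 h4 t1 t2 t3 =>
    have e0 := hb.vn
    rcases hy with hy | hy
    · exact (hev (v - 1) (L.dnc (v - 1) (by omega) (by omega)) (Or.inr hy.symm)).elim
    · cases T' with
      | B0 cm' hs' t1' t2' t3' =>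
        exfalso
        have e3 := hb.sgO hs' (by omega)
        have e4 := hs'.vc
        have e5 := L.mB (i := c) (j := v') (by omega) (by omega)
        have e6 := L.upc v' (by omega) (by omega)
        have e7 := L.upc c h2 hb.cm
        omega
      | _ => first | decide | exact absurd rfl hne
  | t1 ht h1 h2 h3 t1 t2 t3 =>
    have e0 := ht.vm
    rcases hy with hy | hy
    · exact (hev c (L.dnc c h1 ht.cn) (Or.inr hy.symm)).elim
    · cases T' with
      | B0 cm' hs' t1' t2' t3' =>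
        exfalso
        have e2 := hs'.vc
        have e3 := ht.sg.sepO hs'
        have e5 := L.muB (i := c') (j := v - 1) (by omega) (by omega) (by omega)
        omega
      | ZB ma hz hv t1 t2 t3 =>
        have e3 := hz.sgO ht.sg ht.cn
        omega
      | @b2 v' c' hb' h1' h2' h3' h4' t1' t2' t3' =>
        exfalso
        have e3 := hb'.sgO ht.sg ht.cn
        have e5 := L.muB (i := c') (j := v - 1) (by omega) (by omega) (by omega)
        omega
      | t2 ht' h1' h2' h3' h4' t1' t2' t3' =>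
        have e3 := ht.htO ht'
        rw [← e3.1, ← e3.2] at h3'
        omega
      | _ => first | decide | exact absurd rfl hne
  | t2 ht h1 h2 h3 h4 t1 t2 t3 =>
    have e0 := ht.mc
    rcases hy with hy | hy
    · cases T' with
      | B0 cm' hs' t1' t2' t3' =>
        exfalso
        have e2 := hs'.vc
        have e3 := ht.sg.sepO hs'
        have e5 := L.mB (i := c') (j := v) (by omega) (by omega)
        have e6 := L.upc c' (by omega) (by omega)
        have e7 := L.upc v ht.sg.v0 h1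
        omega
      | _ => first | decide | exact absurd rfl hne
    · exact (hev (c + 1) (L.dnc (c + 1) (by omega) h2) (Or.inl hy.symm)).elim

/-! ## The data of the line -/

variable (L)

lemma M_iff (s : Fin 4) (y : ℤ) : L.K.M s y = true ↔ ∃ v, L.IsV v ∧ L.isM s y v := by
  simp [K]

lemma M_ty {s : Fin 4} {y : ℤ} (h : L.K.M s y = true) :
    ∃ v c w x1 x2 y1 y2, L.Ty v c w (x1, x2, Pc.trk s y1 y2) ∧ y1 ≤ y ∧ y < y2 ∧
      (∀ y', y1 ≤ y' → y' < y2 → L.K.M s y' = true) ∧ L.IsV v ∧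
      L.cl v = (x1, x2, Pc.trk s y1 y2) := by
  obtain ⟨v, hv, y1, y2, h1, h2, h3⟩ := (L.M_iff s y).1 h
  have ht := L.ty hv
  obtain ⟨r, hr⟩ : ∃ r, r = L.cl v := ⟨_, rfl⟩
  rw [← hr] at ht
  obtain ⟨x1, x2, p⟩ := r
  rw [← hr] at h1
  simp only at h1
  subst h1
  refine ⟨v, _, _, x1, x2, y1, y2, ht, h2, h3, fun y' h4 h5 => (L.M_iff s y').2
    ⟨v, hv, y1, y2, by rw [← hr], h4, h5⟩, hv, hr.symm⟩

lemma cn_iff (s : Fin 4) (y : ℤ) : L.K.cn s y = true ↔ ∃ v, L.IsV v ∧ L.isC s true y v := by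
  simp [K]

lemma cs_iff (s : Fin 4) (y : ℤ) : L.K.cs s y = true ↔ ∃ v, L.IsV v ∧ L.isC s false y v := by
  simp [K]

lemma C_ty {s : Fin 4} {l : Bool} {y : ℤ} {v : ℕ} (hv : L.IsV v) (h : L.isC s l y v) :
    ∃ c w x1 x2, L.Ty v c w (x1, x2, Pc.ctc s l y) ∧ L.cl v = (x1, x2, Pc.ctc s l y) := by
  have ht := L.ty hv
  obtain ⟨r, hr⟩ : ∃ r, r = L.cl v := ⟨_, rfl⟩
  rw [← hr] at ht
  obtain ⟨x1, x2, p⟩ := r
  unfold isC at h
  rw [← hr] at h
  simp only at h
  subst h
  exact ⟨_, _, x1, x2, ht, hr.symm⟩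

lemma bp_ty {X yA yB : ℤ} {v : ℕ} (hv : L.IsV v) (h : (L.cl v).2.2 = Pc.bump X yA yB) :
    ∃ v' c, v = v' % L.n ∧ L.Hb v' c ∧ yA = L.yu v' ∧ yB = L.yw c ∧ L.yu v' ≤ L.yu (c + 1) ∧
      L.yw c ≤ L.yw (v' - 1) ∧ X = max (L.yu v') (L.yw c) ∧ X < L.yw (v' - 1) ∧
      X < L.yu (c + 1) := by
  have ht := L.ty hv
  obtain ⟨r, hr⟩ : ∃ r, r = L.cl v := ⟨_, rfl⟩
  rw [← hr] at ht h
  obtain ⟨x1, x2, p⟩ := r
  simp only at h
  subst h
  generalize L.c v % L.n = c' at ht
  generalize L.w v % L.n = w' at ht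
  cases ht with
  | b3 h h0 h3 hX h4 h5 => exact ⟨_, _, rfl, h, rfl, rfl, h0, h3, hX, h4, h5⟩

lemma vl_ty {Y yA yB : ℤ} {v : ℕ} (hv : L.IsV v) (h : (L.cl v).2.2 = Pc.valley Y yA yB) :
    ∃ c, L.Ht v c ∧ yA = L.yw c ∧ yB = L.yu v ∧ L.yw (v - 1) ≤ L.yw c ∧
      L.yu (c + 1) ≤ L.yu v ∧ Y = min (L.yw c) (L.yu v) ∧ L.yw (v - 1) < Y ∧
      L.yu (c + 1) < Y := by
  have ht := L.ty hv
  obtain ⟨r, hr⟩ : ∃ r, r = L.cl v := ⟨_, rfl⟩
  rw [← hr] at ht h
  obtain ⟨x1, x2, p⟩ := r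
  simp only at h
  subst h
  generalize L.c v % L.n = c' at ht
  generalize L.w v % L.n = w' at ht
  cases ht with
  | t3 h h0 h3 hX h4 h5 => exact ⟨_, h, rfl, rfl, h0, h3, hX, h4, h5⟩

lemma pick_eq {p : ℕ → Prop} {v : ℕ} (hv : L.IsV v) (hp : p v)
    (hu : ∀ v', L.IsV v' → p v' → v' = v) : L.pick p = v := by
  unfold pick
  have h : ∃ v, L.IsV v ∧ p v := ⟨v, hv, hp⟩
  rw [dif_pos h]
  exact hu _ h.choose_spec.1 h.choose_spec.2

lemma on_iff (y : ℤ) : L.on y = true ↔ L.lo ≤ y ∧ y < L.hi := by simp [on]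

/-- two tracks at the same or at adjacent segments -/
lemma M_uniq {s : Fin 4} {y y' : ℤ} {v v' : ℕ} (hv : L.IsV v) (hv' : L.IsV v')
    (h : L.isM s y v) (h' : L.isM s y' v') (hy : y ≤ y' + 1) (hy' : y' ≤ y + 1) : v = v' := by
  obtain ⟨y1, y2, h1, h2, h3⟩ := h
  obtain ⟨y1', y2', h1', h2', h3'⟩ := h'
  have ht := L.ty hv
  have ht' := L.ty hv'
  obtain ⟨r, hr⟩ : ∃ r, r = L.cl v := ⟨_, rfl⟩
  obtain ⟨r', hr'⟩ : ∃ r', r' = L.cl v' := ⟨_, rfl⟩
  rw [← hr] at ht h1
  rw [← hr'] at ht' h1'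
  obtain ⟨x1, x2, p⟩ := r
  obtain ⟨x1', x2', p'⟩ := r'
  simp only at h1 h1'
  subst h1 h1'
  rcases ht.sepO ht' with g | g | g
  · exact g
  · omega
  · omega

lemma b_uniq {v v' : ℕ} (hv : L.IsV v) (hv' : L.IsV v') {X yA yB X' yA' yB' : ℤ}
    (h : (L.cl v).2.2 = Pc.bump X yA yB) (h' : (L.cl v').2.2 = Pc.bump X' yA' yB') :
    v = v' ∧ X = X' ∧ yA = yA' ∧ yB = yB' := by
  obtain ⟨u, c, k1, k2, k3, k4, k5, k6, k7, k8, k9⟩ := L.bp_ty hv h
  obtain ⟨u', c', k1', k2', k3', k4', k5', k6', k7', k8', k9'⟩ := L.bp_ty hv' h'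
  have e := k2.hbO k2'
  subst k3 k4 k7 k3' k4' k7'
  rw [k1, k1', e.1, e.2]
  exact ⟨rfl, rfl, rfl, rfl⟩

lemma v_uniq {v v' : ℕ} (hv : L.IsV v) (hv' : L.IsV v') {X yA yB X' yA' yB' : ℤ}
    (h : (L.cl v).2.2 = Pc.valley X yA yB) (h' : (L.cl v').2.2 = Pc.valley X' yA' yB') :
    v = v' ∧ X = X' ∧ yA = yA' ∧ yB = yB' := by
  obtain ⟨c, k2, k3, k4, k5, k6, k7, k8, k9⟩ := L.vl_ty hv h
  obtain ⟨c', k2', k3', k4', k5', k6', k7', k8', k9'⟩ := L.vl_ty hv' h'
  have e := k2.htO k2'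
  subst k3 k4 k7 k3' k4' k7'
  rw [e.1, e.2]
  exact ⟨rfl, rfl, rfl, rfl⟩

lemma bp_iff (y : ℤ) : L.K.bp y = true ↔ ∃ v, L.IsV v ∧ L.isBp y v := by simp [K]
lemma vl_iff (y : ℤ) : L.K.vl y = true ↔ ∃ v, L.IsV v ∧ L.isVl y v := by simp [K]
lemma fN_iff (y : ℤ) : L.K.fN y = true ↔ ∃ v, L.IsV v ∧ L.isFN y v := by simp [K]
lemma fS_iff (y : ℤ) : L.K.fS y = true ↔ ∃ v, L.IsV v ∧ L.isFS y v := by simp [K]
lemma gS_iff (y : ℤ) : L.K.gS y = true ↔ ∃ v, L.IsV v ∧ L.isGS y v := by simp [K]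
lemma gN_iff (y : ℤ) : L.K.gN y = true ↔ ∃ v, L.IsV v ∧ L.isGN y v := by simp [K]

theorem fN_st {y : ℤ} (hon : L.on y = true) (haw : L.K.aw y = false) :
    L.K.fN y = (L.K.fN (y + 1) || L.K.bp y) := by
  rw [on_iff] at hon
  rw [Bool.eq_iff_iff, Bool.or_eq_true, fN_iff, fN_iff, bp_iff]
  constructor
  · rintro ⟨v, hv, X, yA, yB, h1, h2, h3⟩
    rcases h3.lt_or_eq with h | h
    · exact Or.inl ⟨v, hv, X, yA, yB, h1, by omega, by omega⟩
    · subst h
      exact Or.inr ⟨v, hv, yA, yB, h1⟩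
  · rintro (⟨v, hv, X, yA, yB, h1, h2, h3⟩ | ⟨v, hv, yA, yB, h1⟩)
    · refine ⟨v, hv, X, yA, yB, h1, ?_, by omega⟩
      by_contra hcc
      obtain ⟨u, c, k1, k2, k3, k4, k5, k6, k7, k8, k9⟩ := L.bp_ty hv h1
      have e1 := L.botA k2.mv k2.vn
      have : L.K.aw y = true :=
        (L.aw_iff y).2 ⟨u, k2.mv.le, k2.vn, by omega, by omega⟩
      rw [haw] at this
      cases this
    · obtain ⟨u, c, k1, k2, k3, k4, k5, k6, k7, k8, k9⟩ := L.bp_ty hv h1
      exact ⟨v, hv, y, yA, yB, h1, by omega, le_refl _⟩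

theorem fS_st {y : ℤ} (hon : L.on y = true) (hbw : L.K.bw y = false) :
    L.K.fS y = (L.K.fS (y + 1) || L.K.bp y) := by
  rw [on_iff] at hon
  rw [Bool.eq_iff_iff, Bool.or_eq_true, fS_iff, fS_iff, bp_iff]
  constructor
  · rintro ⟨v, hv, X, yA, yB, h1, h2, h3⟩
    rcases h3.lt_or_eq with h | h
    · exact Or.inl ⟨v, hv, X, yA, yB, h1, by omega, by omega⟩
    · subst h
      exact Or.inr ⟨v, hv, yA, yB, h1⟩
  · rintro (⟨v, hv, X, yA, yB, h1, h2, h3⟩ | ⟨v, hv, yA, yB, h1⟩)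
    · refine ⟨v, hv, X, yA, yB, h1, ?_, by omega⟩
      by_contra hcc
      obtain ⟨u, c, k1, k2, k3, k4, k5, k6, k7, k8, k9⟩ := L.bp_ty hv h1
      have e1 := L.botB k2.cm
      have : L.K.bw y = true :=
        (L.bw_iff y).2 ⟨c, k2.cm.le, by omega, by omega⟩
      rw [hbw] at this
      cases this
    · obtain ⟨u, c, k1, k2, k3, k4, k5, k6, k7, k8, k9⟩ := L.bp_ty hv h1
      exact ⟨v, hv, y, yA, yB, h1, by omega, le_refl _⟩

theorem gS_st {y : ℤ} (hon : L.on y = true) (haw : L.K.aw y = false) :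
    L.K.gS (y + 1) = (L.K.gS y || L.K.vl y) := by
  rw [on_iff] at hon
  rw [Bool.eq_iff_iff, Bool.or_eq_true, gS_iff, gS_iff, vl_iff]
  constructor
  · rintro ⟨v, hv, X, yA, yB, h1, h2, h3⟩
    rcases h2.lt_or_eq with h | h
    · exact Or.inl ⟨v, hv, X, yA, yB, h1, by omega, by omega⟩
    · subst h
      exact Or.inr ⟨v, hv, yA, yB, h1⟩
  · rintro (⟨v, hv, X, yA, yB, h1, h2, h3⟩ | ⟨v, hv, yA, yB, h1⟩)
    · refine ⟨v, hv, X, yA, yB, h1, by omega, ?_⟩
      by_contra hcc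
      obtain ⟨c, k2, k3, k4, k5, k6, k7, k8, k9⟩ := L.vl_ty hv h1
      have e1 := L.topA k2.mc k2.cn
      have : L.K.aw y = true :=
        (L.aw_iff y).2 ⟨c, k2.mc, k2.cn.le, by omega, by omega⟩
      rw [haw] at this
      cases this
    · obtain ⟨c, k2, k3, k4, k5, k6, k7, k8, k9⟩ := L.vl_ty hv h1
      exact ⟨v, hv, y + 1, yA, yB, h1, le_refl _, by omega⟩

theorem gN_st {y : ℤ} (hon : L.on y = true) (hbw : L.K.bw y = false) :
    L.K.gN (y + 1) = (L.K.gN y || L.K.vl y) := by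
  rw [on_iff] at hon
  rw [Bool.eq_iff_iff, Bool.or_eq_true, gN_iff, gN_iff, vl_iff]
  constructor
  · rintro ⟨v, hv, X, yA, yB, h1, h2, h3⟩
    rcases h2.lt_or_eq with h | h
    · exact Or.inl ⟨v, hv, X, yA, yB, h1, by omega, by omega⟩
    · subst h
      exact Or.inr ⟨v, hv, yA, yB, h1⟩
  · rintro (⟨v, hv, X, yA, yB, h1, h2, h3⟩ | ⟨v, hv, yA, yB, h1⟩)
    · refine ⟨v, hv, X, yA, yB, h1, by omega, ?_⟩
      by_contra hcc
      obtain ⟨c, k2, k3, k4, k5, k6, k7, k8, k9⟩ := L.vl_ty hv h1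
      have e1 := L.topB k2.sg.v0 k2.vm
      have : L.K.bw y = true :=
        (L.bw_iff y).2 ⟨v, k2.vm, by omega, by omega⟩
      rw [hbw] at this
      cases this
    · obtain ⟨c, k2, k3, k4, k5, k6, k7, k8, k9⟩ := L.vl_ty hv h1
      exact ⟨v, hv, y + 1, yA, yB, h1, le_refl _, by omega⟩

lemma tb_eq {y : ℤ} {v : ℕ} (hv : L.IsV v) (h : L.isFN y v ∨ L.isFS y v) : L.K.tb y = v := by
  refine L.pick_eq hv h ?_
  intro v' hv' h'
  rcases h with ⟨X, yA, yB, h1, -, -⟩ | ⟨X, yA, yB, h1, -, -⟩ <;>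
    rcases h' with ⟨X', yA', yB', h1', -, -⟩ | ⟨X', yA', yB', h1', -, -⟩ <;>
    exact (L.b_uniq hv' hv h1' h1).1

lemma tv_eq {y : ℤ} {v : ℕ} (hv : L.IsV v) (h : L.isGS y v ∨ L.isGN y v) : L.K.tv y = v := by
  refine L.pick_eq hv h ?_
  intro v' hv' h'
  rcases h with ⟨X, yA, yB, h1, -, -⟩ | ⟨X, yA, yB, h1, -, -⟩ <;>
    rcases h' with ⟨X', yA', yB', h1', -, -⟩ | ⟨X', yA', yB', h1', -, -⟩ <;>
    exact (L.v_uniq hv' hv h1' h1).1

lemma tM_eq {s : Fin 4} {y : ℤ} {v : ℕ} (hv : L.IsV v) (h : L.isM s y v) :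
    L.K.tM s y = v :=
  L.pick_eq hv h fun _ hv' h' => L.M_uniq hv' hv h' h (by omega) (by omega)

/-- no track passes a run through the bottom -/
lemma Hb.noM {v c : ℕ} {y : ℤ} {x1 x2 : Bool} {p : Pc} (h : L.Hb v c)
    (hcl : L.cl (v % L.n) = (x1, x2, p)) (hp : ∀ s y1 y2, p ≠ Pc.trk s y1 y2)
    (h1 : L.m + 1 < v → y < L.yu (v - 1)) (h2 : c + 1 < L.m → y < L.yw (c + 1)) (s : Fin 4) :
    L.K.M s y = false := by
  rw [Bool.eq_false_iff]
  intro hM
  obtain ⟨v', c', w', x1', x2', y1, y2, k1, k2, k3, k4, k5, k6⟩ := L.M_ty hM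
  rcases h.trkO k1 with g | g | g
  · rw [g.1, hcl] at k6
    exact hp s y1 y2 (Prod.ext_iff.1 (Prod.ext_iff.1 k6).2).2
  · have := h1 g.1
    omega
  · have := h2 g.1
    omega

lemma Ht.noM {v c : ℕ} {y : ℤ} {x1 x2 : Bool} {p : Pc} (h : L.Ht v c)
    (hcl : L.cl v = (x1, x2, p)) (hp : ∀ s y1 y2, p ≠ Pc.trk s y1 y2)
    (h1 : c + 1 < L.n → L.yw (c + 1) ≤ y) (h2 : 1 < v → L.yu (v - 1) ≤ y) (s : Fin 4) :
    L.K.M s y = false := by
  rw [Bool.eq_false_iff]
  intro hM
  obtain ⟨v', c', w', x1', x2', y1, y2, k1, k2, k3, k4, k5, k6⟩ := L.M_ty hM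
  rcases h.trkO k1 with g | g | g
  · rw [g.1, hcl] at k6
    exact hp s y1 y2 (Prod.ext_iff.1 (Prod.ext_iff.1 k6).2).2
  · have := h1 g.1
    omega
  · have := h2 g.1
    omega

theorem C_wM {v c w : ℕ} {s : Fin 4} {l : Bool} {y : ℤ} {x1 x2 : Bool}
    (h : L.Ty v c w (x1, x2, Pc.ctc s l y)) (hcl : L.cl v = (x1, x2, Pc.ctc s l y)) :
    L.K.aw y = true ∧ L.K.bw y = true ∧ (s = 1 ∨ s = 2) ∧ ∀ s', L.K.M s' y = false := by
  have hp : ∀ s' y1 y2, Pc.ctc s l y ≠ Pc.trk s' y1 y2 := by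
    intro s' y1 y2 h
    cases h
  cases h with
  | @b1c v c y hb h3 h4 h5 h6 h7 hy =>
    have e1 := hb.mv
    have e2 := hb.vn
    have e3 := hb.cm
    refine ⟨(L.aw_iff y).2 ⟨v, by omega, e2, h6, h7⟩, (L.bw_iff y).2 ⟨c + 1, e3, h4, h5⟩,
      Or.inl rfl, hb.noM L hcl hp (fun g => ?_) (fun _ => h5)⟩
    have e4 := L.dnc (v - 1) (by omega) (by omega)
    have e5 := L.mA (i := v - 1) (j := v) (by omega) (by omega) e2
    omega
  | @b2c v c y hb h0 h3 h4 h5 h6 h7 hy =>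
    have e1 := hb.mv
    have e2 := hb.vn
    have e3 := hb.cm
    refine ⟨(L.aw_iff y).2 ⟨v - 1, by omega, by omega, h4, h5⟩,
      (L.bw_iff y).2 ⟨c, e3.le, h6, h7⟩,
      Or.inr rfl, hb.noM L hcl hp (fun _ => h5) (fun g => ?_)⟩
    have e4 := L.upc (c + 1) (by omega) (by omega)
    have e5 := L.mB (i := c) (j := c + 1) (by omega) (by omega)
    omega
  | t1c ht h3 h4 h5 h6 h7 hy =>
    have e1 := ht.vm
    have e2 := ht.mc
    have e3 := ht.cn
    refine ⟨(L.aw_iff y).2 ⟨c, e2, e3.le, h4, h5⟩, (L.bw_iff y).2 ⟨v - 1, by omega, h6, h7⟩,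
      Or.inl rfl, ht.noM L hcl hp (fun g => ?_) (fun _ => h6)⟩
    have e4 := L.dnc (c + 1) (by omega) (by omega)
    have e5 := L.mA (i := c) (j := c + 1) (by omega) (by omega) (by omega)
    omega
  | t2c ht h0 h3 h4 h5 h6 h7 hy =>
    have e1 := ht.vm
    have e2 := ht.mc
    have e3 := ht.cn
    refine ⟨(L.aw_iff y).2 ⟨c + 1, by omega, by omega, h6, h7⟩,
      (L.bw_iff y).2 ⟨v, e1, h4, h5⟩,
      Or.inr rfl, ht.noM L hcl hp (fun _ => h6) (fun g => ?_)⟩
    have e4 := L.upc (v - 1) (by omega) (by omega)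
    have e5 := L.mB (i := v - 1) (j := v) (by omega) (by omega)
    omega

theorem C_C {s s' : Fin 4} {y : ℤ} (h : L.K.cn s y = true) (h' : L.K.cs s' y = true) :
    False := by
  obtain ⟨v, hv, hc⟩ := (L.cn_iff s y).1 h
  obtain ⟨v', hv', hc'⟩ := (L.cs_iff s' y).1 h'
  obtain ⟨c, w, x1, x2, T, -⟩ := L.C_ty hv hc
  obtain ⟨c', w', x1', x2', T', -⟩ := L.C_ty hv' hc'
  clear hc hc' hv hv'
  cases T with
  | @b1c v c y hb h3 h4 h5 h6 h7 hy =>
    cases T' with
    | @b2c v' c' y hb' h0' h3' h4' h5' h6' h7' hy' =>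
      have e3 := hb.hbO hb'
      rw [← e3.1, ← e3.2] at h0'
      omega
    | t1c ht h3' h4' h5' h6' h7' hy' =>
      have e3 := hb.sgO ht.sg ht.cn
      have e4 := L.mA (i := c') (j := v) ht.mc e3.2 hb.vn
      omega
  | t2c ht h0 h3 h4 h5 h6 h7 hy =>
    cases T' with
    | @b2c v' c' y hb' h0' h3' h4' h5' h6' h7' hy' =>
      have e3 := hb'.sgO ht.sg ht.cn
      have e4 := L.mB (i := c') (j := v) e3.1 ht.vm
      omega
    | t1c ht' h3' h4' h5' h6' h7' hy' =>
      have e3 := ht.htO ht'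
      rw [← e3.1, ← e3.2] at h3'
      omega

/-- bumps are below valleys -/
lemma bp_vl {v v' : ℕ} (hv : L.IsV v) (hv' : L.IsV v') {X yA yB Y yA' yB' : ℤ}
    (h : (L.cl v).2.2 = Pc.bump X yA yB) (h' : (L.cl v').2.2 = Pc.valley Y yA' yB') :
    X < Y := by
  obtain ⟨u, c, k1, k2, k3, k4, k5, k6, k7, k8, k9⟩ := L.bp_ty hv h
  obtain ⟨c', k2', k3', k4', k5', k6', k7', k8', k9'⟩ := L.vl_ty hv' h'
  have e1 := k2.sgO k2'.sg k2'.cn
  have e2 := k2.mv
  have e3 := k2.vn
  have e4 := L.mwA (i := c') (j := u - 1) k2'.mc (by omega) (by omega)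
  have e5 := L.muB (i := c + 1) (j := v') (by omega) (by omega) k2'.vm
  omega

/-- **D1** -/
theorem K_ok' : L.K.Ok L.on := by
  have hm := L.hm
  have hn := L.hn
  constructor
  · -- ev
    intro y h1 h2
    rw [on_iff] at h1 h2
    by_contra hcc
    rw [not_or] at hcc
    obtain ⟨j, h3, h4⟩ := L.aw_ev hcc.1
    obtain ⟨i, h5, h6⟩ := L.bw_ev hcc.2
    exact L.ev' h3 h4 h5 h6 (by omega) h2.2
  · -- aw_on
    intro y h
    obtain ⟨j, h1, h2, h3, h4⟩ := (L.aw_iff y).1 h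
    have e1 := L.rw j
    have e2 := L.ru j
    rw [on_iff]
    omega
  · intro y h
    obtain ⟨j, h1, h3, h4⟩ := (L.bw_iff y).1 h
    have e1 := L.rw j
    have e2 := L.ru j
    rw [on_iff]
    omega
  · -- M_on
    intro s y h
    obtain ⟨v', c', w', x1', x2', y1, y2, k1, k2, k3, k4, k5, k6⟩ := L.M_ty h
    have e1 := k1.lt
    rw [on_iff, on_iff, on_iff]
    omega
  · -- start
    intro s y h h0
    obtain ⟨v', c', w', x1', x2', y1, y2, k1, k2, k3, k4, k5, k6⟩ := L.M_ty h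
    have e : y = y1 := by
      by_contra hcc
      rw [k4 (y - 1) (by omega) (by omega)] at h0
      cases h0
    rw [e]
    exact k1.st
  · -- stop
    intro s y h h0
    obtain ⟨v', c', w', x1', x2', y1, y2, k1, k2, k3, k4, k5, k6⟩ := L.M_ty h
    have e : y = y2 := by
      by_contra hcc
      rw [k4 y (by omega) (by omega)] at h0
      cases h0
    rw [e]
    exact k1.sp
  · -- ordA
    intro y s s' h1 h2 h3 h4
    obtain ⟨v, c, w, x1, x2, y1, y2, k1, k2, k3, k4, k5, k6⟩ := L.M_ty h3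
    have g2 : y < y2 := by
      obtain ⟨v', hv', hM'⟩ := (L.M_iff s' y).1 h4
      have hM : L.isM s' (y - 1) v := ⟨y1, y2, by rw [k6], k2, k3⟩
      have e := L.M_uniq k5 hv' hM hM' (by omega) (by omega)
      rw [← e] at hM'
      obtain ⟨z1, z2, l1, l2, l3⟩ := hM'
      rw [k6] at l1
      simp only [Pc.trk.injEq, true_and] at l1
      omega
    have hne : s ≠ s' := by
      rintro rfl
      exact h2 (h3.trans h4.symm)
    rcases hM : L.K.M s y with _ | _
    · rw [hM] at h2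
      have h5 : L.K.M s (y - 1) = true := by simpa using h2
      obtain ⟨v', c', w', x1', x2', y1', y2', l1, l2, l3, l4, l5, l6⟩ := L.M_ty h5
      have e : y = y2' := by
        by_contra hcc
        rw [l4 y (by omega) (by omega)] at hM
        cases hM
      exact Ty.ordA l1 k1 (Or.inr e) (L.aw_ev h1) (by omega) g2 hne
    · rw [hM] at h2
      have h5 : L.K.M s (y - 1) = false := by simpa using h2
      obtain ⟨v', c', w', x1', x2', y1', y2', l1, l2, l3, l4, l5, l6⟩ := L.M_ty hM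
      have e : y = y1' := by
        by_contra hcc
        rw [l4 (y - 1) (by omega) (by omega)] at h5
        cases h5
      exact Ty.ordA l1 k1 (Or.inl e) (L.aw_ev h1) (by omega) g2 hne
  · -- ordB
    intro y s s' h1 h2 h3 h4
    obtain ⟨v, c, w, x1, x2, y1, y2, k1, k2, k3, k4, k5, k6⟩ := L.M_ty h3
    have g2 : y < y2 := by
      obtain ⟨v', hv', hM'⟩ := (L.M_iff s' y).1 h4
      have hM : L.isM s' (y - 1) v := ⟨y1, y2, by rw [k6], k2, k3⟩
      have e := L.M_uniq k5 hv' hM hM' (by omega) (by omega)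
      rw [← e] at hM'
      obtain ⟨z1, z2, l1, l2, l3⟩ := hM'
      rw [k6] at l1
      simp only [Pc.trk.injEq, true_and] at l1
      omega
    have hne : s ≠ s' := by
      rintro rfl
      exact h2 (h3.trans h4.symm)
    rcases hM : L.K.M s y with _ | _
    · rw [hM] at h2
      have h5 : L.K.M s (y - 1) = true := by simpa using h2
      obtain ⟨v', c', w', x1', x2', y1', y2', l1, l2, l3, l4, l5, l6⟩ := L.M_ty h5
      have e : y = y2' := by
        by_contra hcc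
        rw [l4 y (by omega) (by omega)] at hM
        cases hM
      exact Ty.ordB l1 k1 (Or.inr e) (L.bw_ev h1) (by omega) g2 hne
    · rw [hM] at h2
      have h5 : L.K.M s (y - 1) = false := by simpa using h2
      obtain ⟨v', c', w', x1', x2', y1', y2', l1, l2, l3, l4, l5, l6⟩ := L.M_ty hM
      have e : y = y1' := by
        by_contra hcc
        rw [l4 (y - 1) (by omega) (by omega)] at h5
        cases h5
      exact Ty.ordB l1 k1 (Or.inl e) (L.bw_ev h1) (by omega) g2 hne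
  · -- cn_ok
    intro s y h
    obtain ⟨v, hv, hc⟩ := (L.cn_iff s y).1 h
    obtain ⟨c, w, x1, x2, T, hcl⟩ := L.C_ty hv hc
    obtain ⟨k1, k2, k3, k4⟩ := L.C_wM T hcl
    refine ⟨k1, k2, k3, k4, fun s' => ?_⟩
    rw [Bool.eq_false_iff]
    exact fun h' => L.C_C h h'
  · -- cs_ok
    intro s y h
    obtain ⟨v, hv, hc⟩ := (L.cs_iff s y).1 h
    obtain ⟨c, w, x1, x2, T, hcl⟩ := L.C_ty hv hc
    obtain ⟨k1, k2, k3, k4⟩ := L.C_wM T hcl
    refine ⟨k1, k2, k3, k4, fun s' => ?_⟩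
    rw [Bool.eq_false_iff]
    exact fun h' => L.C_C h' h
  · -- bp_ok
    intro y h
    obtain ⟨v, hv, yA, yB, h1⟩ := (L.bp_iff y).1 h
    obtain ⟨u, c, k1, k2, k3, k4, k5, k6, k7, k8, k9⟩ := L.bp_ty hv h1
    have e1 := k2.mv
    have e2 := k2.vn
    have e3 := k2.cm
    have e4 := L.ru u
    have e5 := L.rw (u - 1)
    refine ⟨?_, ?_, ?_, ?_, ?_, ?_, ?_⟩
    · rw [on_iff]; omega
    · rw [Bool.eq_false_iff, ne_eq, aw_iff]
      rintro ⟨j, g1, g2, g3, g4⟩
      rcases Nat.lt_or_ge j u with g | g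
      · have := L.mwA (i := j) (j := u - 1) g1 (by omega) (by omega)
        omega
      · have := L.muA (i := u) (j := j) e1 g g2
        omega
    · rw [Bool.eq_false_iff, ne_eq, bw_iff]
      rintro ⟨j, g2, g3, g4⟩
      rcases Nat.lt_or_ge c j with g | g
      · have := L.muB (i := c + 1) (j := j) (by omega) g g2
        omega
      · have := L.mwB (i := j) (j := c) g e3
        omega
    · have hcl : L.cl (u % L.n) = ((L.cl v).1, (L.cl v).2.1, Pc.bump y yA yB) := by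
        rw [← k1, ← h1]
      refine k2.noM L hcl (fun s' y1 y2 h => by cases h) (fun g => ?_) (fun g => ?_)
      · have := L.dnc (u - 1) (by omega) (by omega)
        omega
      · have := L.upc (c + 1) (by omega) g
        omega
    · rw [Bool.eq_false_iff, ne_eq, fN_iff]
      rintro ⟨v', hv', X, yA', yB', l1, l2, l3⟩
      have := (L.b_uniq hv hv' h1 l1).2.1
      omega
    · rw [Bool.eq_false_iff, ne_eq, fS_iff]
      rintro ⟨v', hv', X, yA', yB', l1, l2, l3⟩
      have := (L.b_uniq hv hv' h1 l1).2.1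
      omega
    · rw [Bool.eq_false_iff, ne_eq, gN_iff]
      rintro ⟨v', hv', Y, yA', yB', l1, l2, l3⟩
      have := L.bp_vl hv hv' h1 l1
      omega
  · -- vl_ok
    intro y h
    obtain ⟨v, hv, yA, yB, h1⟩ := (L.vl_iff y).1 h
    obtain ⟨c, k2, k3, k4, k5, k6, k7, k8, k9⟩ := L.vl_ty hv h1
    have e1 := k2.vm
    have e2 := k2.mc
    have e3 := k2.cn
    have e0 := k2.sg.v0
    have e4 := L.rw c
    have e5 := L.rw (v - 1)
    refine ⟨?_, ?_, ?_, ?_, ?_, ?_, ?_⟩
    · rw [on_iff]; omega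
    · rw [Bool.eq_false_iff, ne_eq, aw_iff]
      rintro ⟨j, g1, g2, g3, g4⟩
      rcases Nat.lt_or_ge c j with g | g
      · have := L.muA (i := c + 1) (j := j) (by omega) g g2
        omega
      · have := L.mwA (i := j) (j := c) g1 g e3
        omega
    · rw [Bool.eq_false_iff, ne_eq, bw_iff]
      rintro ⟨j, g2, g3, g4⟩
      rcases Nat.lt_or_ge j v with g | g
      · have := L.mwB (i := j) (j := v - 1) (by omega) (by omega)
        omega
      · have := L.muB (i := v) (j := j) e0 g g2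
        omega
    · have hcl : L.cl v = ((L.cl v).1, (L.cl v).2.1, Pc.valley (y + 1) yA yB) := by
        rw [← h1]
      refine k2.noM L hcl (fun s' y1 y2 h => by cases h) (fun g => ?_) (fun g => ?_)
      · have := L.dnc (c + 1) (by omega) g
        omega
      · have := L.upc (v - 1) (by omega) (by omega)
        omega
    · rw [Bool.eq_false_iff, ne_eq, gS_iff]
      rintro ⟨v', hv', X, yA', yB', l1, l2, l3⟩
      have := (L.v_uniq hv hv' h1 l1).2.1
      omega
    · rw [Bool.eq_false_iff, ne_eq, gN_iff]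
      rintro ⟨v', hv', X, yA', yB', l1, l2, l3⟩
      have := (L.v_uniq hv hv' h1 l1).2.1
      omega
    · rw [Bool.eq_false_iff, ne_eq, fN_iff]
      rintro ⟨v', hv', X, yA', yB', l1, l2, l3⟩
      have := L.bp_vl hv' hv l1 h1
      omega
  · exact fun y h1 h2 => L.fN_st h1 h2
  · exact fun y h1 h2 => L.gS_st h1 h2
  · exact fun y h1 h2 => L.fS_st h1 h2
  · exact fun y h1 h2 => L.gN_st h1 h2
  · -- tM_st
    intro s y h1 h2
    obtain ⟨v, hv, hM⟩ := (L.M_iff _ _).1 h1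
    obtain ⟨v', hv', hM'⟩ := (L.M_iff _ _).1 h2
    rw [L.tM_eq hv hM, L.tM_eq hv' hM']
    exact L.M_uniq hv' hv hM' hM (by omega) (by omega)
  · -- tb_N
    intro y h1 h2 h3
    have h4 : L.K.fN y = true := by rw [L.fN_st h1 h2, h3]; rfl
    obtain ⟨v, hv, hM⟩ := (L.fN_iff _).1 h3
    obtain ⟨v', hv', hM'⟩ := (L.fN_iff _).1 h4
    rw [L.tb_eq hv (Or.inl hM), L.tb_eq hv' (Or.inl hM')]
    obtain ⟨X, yA, yB, l1, -, -⟩ := hM
    obtain ⟨X', yA', yB', l1', -, -⟩ := hM'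
    exact (L.b_uniq hv hv' l1 l1').1
  · -- tb_S
    intro y h1 h2 h3
    have h4 : L.K.fS y = true := by rw [L.fS_st h1 h2, h3]; rfl
    obtain ⟨v, hv, hM⟩ := (L.fS_iff _).1 h3
    obtain ⟨v', hv', hM'⟩ := (L.fS_iff _).1 h4
    rw [L.tb_eq hv (Or.inr hM), L.tb_eq hv' (Or.inr hM')]
    obtain ⟨X, yA, yB, l1, -, -⟩ := hM
    obtain ⟨X', yA', yB', l1', -, -⟩ := hM'
    exact (L.b_uniq hv hv' l1 l1').1
  · -- tv_S
    intro y h1 h2 h3
    have h4 : L.K.gS (y + 1) = true := by rw [L.gS_st h1 h2, h3]; rfl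
    obtain ⟨v, hv, hM⟩ := (L.gS_iff _).1 h4
    obtain ⟨v', hv', hM'⟩ := (L.gS_iff _).1 h3
    rw [L.tv_eq hv (Or.inl hM), L.tv_eq hv' (Or.inl hM')]
    obtain ⟨X, yA, yB, l1, -, -⟩ := hM
    obtain ⟨X', yA', yB', l1', -, -⟩ := hM'
    exact (L.v_uniq hv hv' l1 l1').1
  · -- tv_N
    intro y h1 h2 h3
    have h4 : L.K.gN (y + 1) = true := by rw [L.gN_st h1 h2, h3]; rfl
    obtain ⟨v, hv, hM⟩ := (L.gN_iff _).1 h4
    obtain ⟨v', hv', hM'⟩ := (L.gN_iff _).1 h3
    rw [L.tv_eq hv (Or.inr hM), L.tv_eq hv' (Or.inr hM')]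
    obtain ⟨X, yA, yB, l1, -, -⟩ := hM
    obtain ⟨X', yA', yB', l1', -, -⟩ := hM'
    exact (L.v_uniq hv hv' l1 l1').1

end LC

end Pool.Agent.MP42D
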