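import Pool.Agent.MP42.D.Comb

/-!
# The flip of an abstract leaf (owner helper74)

`flip L`: `i ↦ i + m`, `y ↦ - y`.  It exchanges the A side and the B side, the bottom corner and the
top corner, the slots `s` and `3 - s`, bumps and valleys.
-/

set_option autoImplicit false
set_option linter.unusedSectionVars false

namespace Pool.Agent.MP42D

namespace LC

variable (L : LC)

/-! ## Periodic functions -/

lemma per_mod {α : Type*} {f : ℕ → α} {n : ℕ} (h : ∀ i, f (i + n) = f i) (i : ℕ) :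
    f (i % n) = f i := by
  have key : ∀ q r, f (r + n * q) = f r := by
    intro q
    induction q with
    | zero => intro r; rfl
    | succ q ih =>
      intro r
      rw [Nat.mul_succ, ← add_assoc, h, ih]
  have := key (i / n) (i % n)
  rw [Nat.mod_add_div] at this
  exact this.symm

lemma per_eq {α : Type*} {f : ℕ → α} {n : ℕ} (h : ∀ i, f (i + n) = f i) {i j : ℕ}
    (hij : i % n = j % n) : f i = f j := by
  rw [← per_mod h i, hij, per_mod h]

lemma S_eq' {i j : ℕ} (h : i % L.n = j % L.n) : L.S i = L.S j := per_eq L.S_per h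
lemma yu_eq' {i j : ℕ} (h : i % L.n = j % L.n) : L.yu i = L.yu j := per_eq L.yu_per h
lemma yw_eq' {i j : ℕ} (h : i % L.n = j % L.n) : L.yw i = L.yw j := per_eq L.yw_per h

/-! ## Runs -/

lemma n_pos' : 0 < L.n := by have := L.hn; omega

lemma c_false (v : ℕ) : L.S (L.c v) = false := Nat.find_spec (L.ex_end v)

lemma c_le_of' {v x : ℕ} (h : v ≤ x) (hx : L.S x = false) : L.c v ≤ x := by
  have : Nat.find (L.ex_end v) ≤ x - v :=
    Nat.find_min' _ (by rw [show v + (x - v) = x by omega]; exact hx)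
  unfold c
  omega

lemma c_true {v x : ℕ} (h : v ≤ x) (hx : x < L.c v) : L.S x = true := by
  by_contra hcon
  rw [Bool.not_eq_true] at hcon
  have := L.c_le_of' h hcon
  omega

lemma le_c (v : ℕ) : v ≤ L.c v := Nat.le_add_right _ _

lemma lt_c {v : ℕ} (h : L.S v = true) : v < L.c v := by
  rcases Nat.eq_or_lt_of_le (L.le_c v) with h1 | h1
  · have := L.c_false v
    rw [← h1, h] at this
    exact absurd this (by decide)
  · exact h1

lemma S_two_win (v : ℕ) : ∃ i j, v ≤ i ∧ i < j ∧ j < v + L.n ∧ L.S i = false ∧ L.S j = false := by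
  obtain ⟨i, j, hij, hj, hi', hj'⟩ := L.S_two
  have hn := L.n_pos'
  have key : ∀ k < L.n, ∃ x, v ≤ x ∧ x < v + L.n ∧ x % L.n = k := by
    intro k hk
    have h1 := Nat.mod_lt v hn
    have h2 := Nat.div_add_mod v L.n
    by_cases h : v % L.n ≤ k
    · refine ⟨v + (k - v % L.n), by omega, by omega, ?_⟩
      rw [show v + (k - v % L.n) = k + L.n * (v / L.n) by omega, Nat.add_mul_mod_self_left,
        Nat.mod_eq_of_lt hk]
    · refine ⟨v + (k + L.n - v % L.n), by omega, by omega, ?_⟩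
      rw [show v + (k + L.n - v % L.n) = k + L.n * (v / L.n + 1) by
        rw [Nat.mul_succ]; omega, Nat.add_mul_mod_self_left, Nat.mod_eq_of_lt hk]
  obtain ⟨x, x1, x2, x3⟩ := key i (by omega)
  obtain ⟨y, y1, y2, y3⟩ := key j hj
  have sx : L.S x = false := by rw [← hi']; exact L.S_eq' (by rw [x3, Nat.mod_eq_of_lt (by omega)])
  have sy : L.S y = false := by rw [← hj']; exact L.S_eq' (by rw [y3, Nat.mod_eq_of_lt hj])
  rcases lt_trichotomy x y with h | h | h
  · exact ⟨x, y, x1, h, y2, sx, sy⟩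
  · rw [h, y3] at x3; omega
  · exact ⟨y, x, y1, h, x2, sy, sx⟩

lemma c_le' (v : ℕ) : L.c v + 2 ≤ v + L.n := by
  obtain ⟨i, j, h1, h2, h3, h4, -⟩ := L.S_two_win v
  have := L.c_le_of' h1 h4
  omega

/-- two different runs -/
lemma runs {v v' : ℕ} (h : L.IsV v) (h' : L.IsV v') (hlt : v < v') :
    L.c v < v' ∧ L.c v' < v + L.n := by
  have hn := L.n_pos'
  constructor
  · have h1 : L.S (v' - 1) = false := by
      rw [← h'.2.2]
      apply L.S_eq'
      rw [show v' + L.n - 1 = v' - 1 + L.n by omega, Nat.add_mod_right]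
    have := L.c_le_of' (v := v) (x := v' - 1) (by omega) h1
    omega
  · have := L.c_le_of' (v := v') (x := v + L.n - 1) (by have := h'.1; omega) h.2.2
    omega

lemma hb_iff {v : ℕ} (hv : v < L.n) : L.hb v ↔ v = 0 ∨ L.n ≤ L.c v := by
  have hn := L.n_pos'
  have hc := L.c_le' v
  have hl := L.le_c v
  unfold hb
  constructor
  · rintro ⟨x, h1, h2, h3⟩
    by_contra hcon
    push Not at hcon
    rw [Nat.mod_eq_of_lt (by omega)] at h3
    omega
  · rintro (h | h)
    · exact ⟨0, by omega, Nat.zero_le _, Nat.zero_mod _⟩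
    · exact ⟨L.n, hv.le, h, Nat.mod_self _⟩

lemma ht_iff {v : ℕ} (hv : v < L.n) : L.ht v ↔
    (v ≤ L.m ∧ L.m ≤ L.c v) ∨ L.m + L.n ≤ L.c v ∨ (L.m = L.n ∧ v = 0) := by
  have hn := L.n_pos'
  have hm := L.hm
  have hc := L.c_le' v
  have hl := L.le_c v
  unfold ht
  constructor
  · rintro ⟨x, h1, h2, h3⟩
    have hx : x < 2 * L.n := by omega
    rcases Nat.eq_or_lt_of_le hm with hm' | hm'
    · rw [hm', Nat.mod_self] at h3
      rcases lt_or_ge x L.n with h4 | h4
      · rw [Nat.mod_eq_of_lt h4] at h3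
        right; right; omega
      · left; omega
    · rw [Nat.mod_eq_of_lt hm'] at h3
      rcases lt_or_ge x L.n with h4 | h4
      · rw [Nat.mod_eq_of_lt h4] at h3
        left; omega
      · rw [Nat.mod_eq_sub_mod h4, Nat.mod_eq_of_lt (by omega)] at h3
        right; left; omega
  · rintro (h | h | h)
    · exact ⟨L.m, h.1, h.2, rfl⟩
    · exact ⟨L.m + L.n, by omega, h, Nat.add_mod_right _ _⟩
    · exact ⟨0, by omega, Nat.zero_le _, by rw [h.1, Nat.mod_self, Nat.zero_mod]⟩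

lemma hb_unique' {v v' : ℕ} (h : L.IsV v) (h' : L.IsV v') (hb : L.hb v) (hb' : L.hb v') :
    v = v' := by
  rw [L.hb_iff h.1] at hb
  rw [L.hb_iff h'.1] at hb'
  have := h.1
  have := h'.1
  rcases lt_trichotomy v v' with h1 | h1 | h1
  · have := L.runs h h' h1; omega
  · exact h1
  · have := L.runs h' h h1; omega

lemma ht_unique' {v v' : ℕ} (h : L.IsV v) (h' : L.IsV v') (hb : L.ht v) (hb' : L.ht v') :
    v = v' := by
  rw [L.ht_iff h.1] at hb
  rw [L.ht_iff h'.1] at hb'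
  have := h.1
  have := h'.1
  have := L.hm
  rcases lt_trichotomy v v' with h1 | h1 | h1
  · have := L.runs h h' h1; omega
  · exact h1
  · have := L.runs h' h h1; omega

/-! ## Monotonicity -/

lemma monoB {i j : ℕ} (hij : i < j) (hj : j ≤ L.m) : L.yw i ≤ L.yu j := by
  induction j with
  | zero => omega
  | succ j ih =>
    rcases Nat.lt_succ_iff_lt_or_eq.1 hij with h | h
    · have h1 := ih h (by omega)
      have h2 := L.upc j (by omega) (by omega)
      have h3 := L.up j (by omega)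
      omega
    · subst h
      exact L.up i (by omega)

lemma monoA {i j : ℕ} (hi : L.m ≤ i) (hij : i < j) (hj : j ≤ L.n) : L.yu j ≤ L.yw i := by
  induction j with
  | zero => omega
  | succ j ih =>
    rcases Nat.lt_succ_iff_lt_or_eq.1 hij with h | h
    · have h1 := ih h (by omega)
      have h2 := L.dnc j (by omega) (by omega)
      have h3 := L.dn j (by omega) (by omega)
      omega
    · subst h
      exact L.dn i (by omega) (by omega)

/-! ## The flip -/

/-- the half turn of a leaf -/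
def flip : LC where
  n := L.n
  m := L.n - L.m
  lo := -L.hi
  hi := -L.lo
  yu := fun i => -L.yu (i + L.m)
  yw := fun i => -L.yw (i + L.m)
  S := fun i => L.S (i + L.m)
  hn := L.hn
  hm := Nat.sub_le _ _
  yu_per := fun i => by rw [show i + L.n + L.m = i + L.m + L.n by omega, L.yu_per]
  yw_per := fun i => by rw [show i + L.n + L.m = i + L.m + L.n by omega, L.yw_per]
  S_per := fun i => by rw [show i + L.n + L.m = i + L.m + L.n by omega, L.S_per]
  S_two := by
    obtain ⟨i, j, h1, h2, h3, h4, h5⟩ := L.S_two_win L.m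
    exact ⟨i - L.m, j - L.m, by omega, by omega, by rw [Nat.sub_add_cancel h1]; exact h4,
      by rw [Nat.sub_add_cancel (by omega)]; exact h5⟩
  lohi := by have := L.lohi; omega
  ru := fun i => by have := L.ru (i + L.m); omega
  rw := fun i => by have := L.rw (i + L.m); omega
  up := fun i hi => by
    have := L.dn (i + L.m) (by omega) (by omega)
    rw [show i + 1 + L.m = i + L.m + 1 by omega]
    omega
  upc := fun i h0 hi => by
    have := L.dnc (i + L.m) (by omega) (by omega)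
    omega
  dn := fun i h0 hi => by
    have h1 := L.hm
    have h2 := L.up (i + L.m - L.n) (by omega)
    have h3 := L.yw_per (i + L.m - L.n)
    have h4 := L.yu_per (i + L.m - L.n + 1)
    rw [show i + L.m - L.n + L.n = i + L.m by omega] at h3
    rw [show i + L.m - L.n + 1 + L.n = i + 1 + L.m by omega] at h4
    omega
  dnc := fun i h0 hi => by
    have h1 := L.hm
    have h2 := L.upc (i + L.m - L.n) (by omega) (by omega)
    have h3 := L.yw_per (i + L.m - L.n)
    have h4 := L.yu_per (i + L.m - L.n)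
    rw [show i + L.m - L.n + L.n = i + L.m by omega] at h3 h4
    omega
  bot := by
    rw [Nat.zero_add]
    rcases L.top with h | h
    · left; rw [h]
    · right; rw [h]
  top := by
    have h1 := L.hm
    have h3 := L.yw_per 0
    have h4 := L.yu_per 0
    rw [Nat.sub_add_cancel h1]
    rw [Nat.zero_add] at h3 h4
    rw [h3, h4]
    rcases L.bot with h | h
    · left; rw [h]
    · right; rw [h]
  zero := fun i h => by
    rw [show i + 1 + L.m = i + L.m + 1 by omega] at h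
    rcases L.zero (i + L.m) (by omega) with h1 | h1
    · right; rw [h1]
    · left; rw [h1]
  ev := fun y h1 h2 ⟨i, hi, hi'⟩ ⟨j, hj, hj'⟩ =>
    L.ev (-y) (by omega) (by omega) ⟨j + L.m, by omega, by omega⟩ ⟨i + L.m, by omega, by omega⟩

@[simp] lemma flip_n : L.flip.n = L.n := rfl
lemma flip_m : L.flip.m = L.n - L.m := rfl
lemma flip_lo : L.flip.lo = -L.hi := rfl
lemma flip_hi : L.flip.hi = -L.lo := rfl
lemma flip_yu (i : ℕ) : L.flip.yu i = -L.yu (i + L.m) := rfl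
lemma flip_yw (i : ℕ) : L.flip.yw i = -L.yw (i + L.m) := rfl
lemma flip_S (i : ℕ) : L.flip.S i = L.S (i + L.m) := rfl

/-- the corner `v` of the flipped leaf is the corner `fl v` of the leaf -/
def fl (v : ℕ) : ℕ := (v + L.m) % L.n

lemma fl_lt (v : ℕ) : L.fl v < L.n := Nat.mod_lt _ L.n_pos'

lemma fl_inj {v v' : ℕ} (h : v < L.n) (h' : v' < L.n) (e : L.fl v = L.fl v') : v = v' := by
  have h1 : v + L.m ≡ v' + L.m [MOD L.n] := e
  have h2 := Nat.ModEq.add_right_cancel' L.m h1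
  rw [Nat.ModEq, Nat.mod_eq_of_lt h, Nat.mod_eq_of_lt h'] at h2
  exact h2

lemma fl_surj {v : ℕ} (h : v < L.n) : ∃ v', v' < L.n ∧ L.fl v' = v := by
  have hm := L.hm
  rcases le_or_gt L.m v with h1 | h1
  · exact ⟨v - L.m, by omega, by rw [fl, Nat.sub_add_cancel h1, Nat.mod_eq_of_lt h]⟩
  · refine ⟨v + L.n - L.m, by omega, ?_⟩
    rw [fl, Nat.sub_add_cancel (by omega), Nat.add_mod_right, Nat.mod_eq_of_lt h]

/-- `fl v` for `v < n`: with or without subtraction of `n` -/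
lemma fl_cases {v : ℕ} (h : v < L.n) :
    (v + L.m < L.n ∧ L.fl v = v + L.m) ∨ (L.n ≤ v + L.m ∧ L.fl v + L.n = v + L.m) := by
  have hm := L.hm
  rcases lt_or_ge (v + L.m) L.n with h1 | h1
  · exact Or.inl ⟨h1, Nat.mod_eq_of_lt h1⟩
  · refine Or.inr ⟨h1, ?_⟩
    rw [fl, Nat.mod_eq_sub_mod h1, Nat.mod_eq_of_lt (by omega)]
    omega

lemma fl_S (v x : ℕ) : L.flip.S (v + x) = L.S (L.fl v + x) := by
  rw [flip_S]
  apply L.S_eq'
  rw [fl, Nat.mod_add_mod, show v + x + L.m = v + L.m + x by omega]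

lemma flip_IsV {v : ℕ} (h : v < L.n) : L.flip.IsV v ↔ L.IsV (L.fl v) := by
  have hn := L.n_pos'
  have h1 := L.fl_S v 0
  have h2 := L.fl_S v (L.n - 1)
  rw [Nat.add_zero, Nat.add_zero] at h1
  rw [← Nat.add_sub_assoc hn, ← Nat.add_sub_assoc hn] at h2
  unfold IsV
  rw [flip_n, h1, h2]
  exact ⟨fun h => ⟨L.fl_lt v, h.2⟩, fun h' => ⟨h, h'.2⟩⟩

lemma flip_c (v : ℕ) : L.flip.c v + L.fl v = L.c (L.fl v) + v := by
  have h : Nat.find (L.flip.ex_end v) = Nat.find (L.ex_end (L.fl v)) := by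
    apply le_antisymm
    · apply Nat.find_min'
      rw [fl_S]
      exact Nat.find_spec (L.ex_end (L.fl v))
    · apply Nat.find_min'
      rw [← fl_S]
      exact Nat.find_spec (L.flip.ex_end v)
  unfold c
  omega

lemma flip_c_mod (v : ℕ) : (L.flip.c v + L.m) % L.n = L.c (L.fl v) % L.n := by
  have h := L.flip_c v
  have h1 : (v + L.m) % L.n = L.fl v % L.n := (Nat.mod_mod _ _).symm
  have h2 : L.flip.c v + L.m + L.fl v ≡ L.c (L.fl v) + L.fl v [MOD L.n] := by
    rw [show L.flip.c v + L.m + L.fl v = L.c (L.fl v) + (v + L.m) by omega]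
    exact Nat.ModEq.add_left _ h1
  exact Nat.ModEq.add_right_cancel' _ h2

lemma flip_v_mod (v : ℕ) : (v + L.m) % L.n = L.fl v % L.n := (Nat.mod_mod _ _).symm

lemma flip_a_mod (v : ℕ) : (L.flip.a v + L.m) % L.n = L.a (L.fl v) % L.n := by
  have h := L.flip_c_mod v
  unfold a
  rw [show L.flip.c v + 1 + L.m = L.flip.c v + L.m + 1 by omega, Nat.add_mod, h, ← Nat.add_mod]

lemma flip_w_mod (v : ℕ) : (L.flip.w v + L.m) % L.n = L.w (L.fl v) % L.n := by
  have hn := L.n_pos'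
  have h := L.flip_v_mod v
  unfold w
  rw [flip_n, show v + L.n - 1 + L.m = v + L.m + (L.n - 1) by omega,
    show L.fl v + L.n - 1 = L.fl v + (L.n - 1) by omega, Nat.add_mod, h, ← Nat.add_mod]

/-- `m` added twice -/
lemma mod_fl_zero (x : ℕ) : x % L.n = 0 ↔ (x + L.m) % L.n = L.m % L.n := by
  constructor
  · intro h
    rw [Nat.add_mod, h, Nat.zero_add, Nat.mod_mod]
  · intro h
    have h1 : x + L.m ≡ 0 + L.m [MOD L.n] := by rw [Nat.zero_add]; exact h
    have := Nat.ModEq.add_right_cancel' _ h1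
    rw [Nat.ModEq, Nat.zero_mod] at this
    exact this

lemma mod_fl_m (x : ℕ) : x % L.n = L.flip.m % L.n ↔ (x + L.m) % L.n = 0 := by
  have hm := L.hm
  rw [flip_m]
  constructor
  · intro h
    rw [Nat.add_mod, h, ← Nat.add_mod, Nat.sub_add_cancel hm, Nat.mod_self]
  · intro h
    have h1 : x + L.m ≡ L.n - L.m + L.m [MOD L.n] := by
      rw [Nat.ModEq, Nat.sub_add_cancel hm, Nat.mod_self]; exact h
    exact Nat.ModEq.add_right_cancel' _ h1

lemma flip_hb (v : ℕ) : L.flip.hb v ↔ L.ht (L.fl v) := by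
  have hc := L.flip_c v
  have h1 : (v + L.m) % L.n = L.fl v % L.n := L.flip_v_mod v
  unfold hb ht
  rw [flip_n]
  constructor
  · rintro ⟨x, x1, x2, x3⟩
    refine ⟨L.fl v + (x - v), by omega, by omega, ?_⟩
    rw [← (L.mod_fl_zero x).1 x3, Nat.add_mod, ← h1, ← Nat.add_mod,
      show v + L.m + (x - v) = x + L.m by omega]
  · rintro ⟨x, x1, x2, x3⟩
    refine ⟨v + (x - L.fl v), by omega, by omega, ?_⟩
    rw [L.mod_fl_zero, ← x3, show v + (x - L.fl v) + L.m = v + L.m + (x - L.fl v) by omega,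
      Nat.add_mod, h1, ← Nat.add_mod, show L.fl v + (x - L.fl v) = x by omega]

lemma flip_ht (v : ℕ) : L.flip.ht v ↔ L.hb (L.fl v) := by
  have hc := L.flip_c v
  have h1 : (v + L.m) % L.n = L.fl v % L.n := L.flip_v_mod v
  unfold hb ht
  rw [flip_n]
  constructor
  · rintro ⟨x, x1, x2, x3⟩
    refine ⟨L.fl v + (x - v), by omega, by omega, ?_⟩
    rw [← (L.mod_fl_m x).1 x3, Nat.add_mod, ← h1, ← Nat.add_mod,
      show v + L.m + (x - v) = x + L.m by omega]
  · rintro ⟨x, x1, x2, x3⟩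
    refine ⟨v + (x - L.fl v), by omega, by omega, ?_⟩
    rw [L.mod_fl_m, ← x3, show v + (x - L.fl v) + L.m = v + L.m + (x - L.fl v) by omega,
      Nat.add_mod, h1, ← Nat.add_mod, show L.fl v + (x - L.fl v) = x by omega]


/-! ## The pieces -/

/-- the half turn of a piece -/
def pf : Pc → Pc
  | Pc.none => Pc.none
  | Pc.trk s y1 y2 => Pc.trk (3 - s) (-y2) (-y1)
  | Pc.ctc s l y => Pc.ctc (3 - s) l (-1 - y)
  | Pc.bump X yA yB => Pc.valley (-X) (-yB) (-yA)
  | Pc.valley Y yA yB => Pc.bump (-Y) (-yB) (-yA)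

lemma ue_eq {i j : ℕ} (h : i % L.n = j % L.n) (x : Bool) : L.ue i x = L.ue j x := by
  unfold ue; rw [L.yu_eq' h, L.yw_eq' h]

lemma de_eq {i j : ℕ} (h : i % L.n = j % L.n) (x : Bool) : L.de i x = L.de j x := by
  unfold de; rw [L.yu_eq' h, L.yw_eq' h]

lemma flip_ue {i j : ℕ} (h : (i + L.m) % L.n = j % L.n) (x : Bool) :
    L.flip.ue i x = -L.de j (!x) := by
  rw [← L.de_eq h]
  unfold ue de
  cases x <;> simp [flip_yu, flip_yw]

lemma flip_de {i j : ℕ} (h : (i + L.m) % L.n = j % L.n) (x : Bool) :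
    L.flip.de i x = -L.ue j (!x) := by
  rw [← L.ue_eq h]
  unfold ue de
  cases x <;> simp [flip_yu, flip_yw]

lemma mod_of {x y z : ℕ} (h : x % L.n = y % L.n) : (x % L.n = z) ↔ (y % L.n = z) := by rw [h]

/-- the track condition -/
def tc (p : ℕ) (pA : Bool) (q : ℕ) (qA : Bool) : Prop :=
  p % L.n ≠ L.m % L.n ∧ q % L.n ≠ 0 ∧ L.ue p pA ≤ L.de q qA

lemma conn_t {s : Fin 4} {p : ℕ} {pA : Bool} {q : ℕ} {qA h : Bool} (t : L.tc p pA q qA) :
    L.conn s p pA q qA h = Pc.trk s (L.ue p pA) (L.de q qA) := if_pos t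

lemma conn_c {s : Fin 4} {p : ℕ} {pA : Bool} {q : ℕ} {qA h : Bool} (t : ¬ L.tc p pA q qA) :
    L.conn s p pA q qA h = Pc.ctc s (!pA) (if h then
      (if p % L.n = L.m % L.n then L.ue q qA - 1 else min (L.ue p pA) (L.ue q qA) - 1)
    else (if q % L.n = 0 then L.de p pA else max (L.de p pA) (L.de q qA))) := if_neg t

lemma flip_tc {p' q' p q : ℕ} (hp : (p' + L.m) % L.n = p % L.n) (hq : (q' + L.m) % L.n = q % L.n)
    (pA qA : Bool) : L.flip.tc p' pA q' qA ↔ L.tc q (!qA) p (!pA) := by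
  unfold tc
  rw [L.flip_ue hp, L.flip_de hq, Ne, Ne, Ne, Ne, flip_n, L.mod_fl_m p', L.mod_fl_zero q', hp, hq]
  constructor
  · rintro ⟨h1, h2, h3⟩; exact ⟨h2, h1, by omega⟩
  · rintro ⟨h1, h2, h3⟩; exact ⟨h2, h1, by omega⟩

lemma flip_conn {p' q' p q : ℕ} (hp : (p' + L.m) % L.n = p % L.n)
    (hq : (q' + L.m) % L.n = q % L.n) {s s' : Fin 4} {pA qA h pA' qA' h' : Bool} (hs : s = 3 - s')
    (e1 : pA = !pA') (e2 : qA = !qA') (e3 : h = !h') (h4 : L.tc q qA p pA ∨ pA' = !qA') :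
    L.flip.conn s' p' pA' q' qA' h' = pf (L.conn s q qA p pA h) := by
  subst e1 e2 e3 hs
  have ht := L.flip_tc hp hq pA' qA'
  by_cases t : L.tc q (!qA') p (!pA')
  · rw [conn_t _ (ht.2 t), L.conn_t t, L.flip_ue hp, L.flip_de hq, pf]
    congr 1
    omega
  · have h5 := h4.resolve_left t
    subst h5
    rw [conn_c _ (fun x => t (ht.1 x)), L.conn_c t, pf]
    have a1 := L.flip_ue hp (!qA')
    have a2 := L.flip_de hp (!qA')
    have a3 := L.flip_ue hq qA'
    have a4 := L.flip_de hq qA'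
    have b1 := L.mod_fl_m p'
    have b2 := L.mod_fl_zero q'
    rw [hp] at b1
    rw [hq] at b2
    rw [a1, a2, a3, a4, flip_n]
    have c1 : (3 - (3 - s') : Fin 4) = s' := by revert s'; decide
    rw [c1]
    cases h'
    · simp only [Bool.false_eq_true, if_false, Bool.not_false, if_true]
      by_cases h6 : q % L.n = L.m % L.n
      · rw [if_pos (b2.2 h6), if_pos h6]
        congr 1
        omega
      · rw [if_neg (fun x => h6 (b2.1 x)), if_neg h6]
        congr 1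
        omega
    · simp only [Bool.false_eq_true, if_false, Bool.not_true, if_true]
      by_cases h6 : p % L.n = 0
      · rw [if_pos (b1.2 h6), if_pos h6]
        congr 1
        omega
      · rw [if_neg (fun x => h6 (b1.1 x)), if_neg h6]
        congr 1
        omega


/-! ## Facts about the runs -/

lemma up' {i : ℕ} (h : i % L.n < L.m) : L.yw i ≤ L.yu (i + 1) := by
  have h1 := L.up _ h
  rw [L.yw_eq' (Nat.mod_mod i L.n), L.yu_eq' (Nat.mod_add_mod i L.n 1)] at h1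
  exact h1

lemma dn' {i : ℕ} (h : L.m ≤ i % L.n) : L.yu (i + 1) ≤ L.yw i := by
  have h1 := L.dn _ h (Nat.mod_lt _ L.n_pos')
  rw [L.yw_eq' (Nat.mod_mod i L.n), L.yu_eq' (Nat.mod_add_mod i L.n 1)] at h1
  exact h1

lemma mod_fl_lt (x : ℕ) : x % L.n < L.flip.m ↔ L.m ≤ (x + L.m) % L.n := by
  have hn := L.n_pos'
  have hm := L.hm
  rw [flip_m]
  have h1 := Nat.mod_lt x hn
  have h2 : (x + L.m) % L.n = (x % L.n + L.m) % L.n := (Nat.mod_add_mod _ _ _).symm
  rw [h2]
  generalize x % L.n = r at *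
  rcases lt_or_ge (r + L.m) L.n with h3 | h3
  · rw [Nat.mod_eq_of_lt h3]; omega
  · rw [Nat.mod_eq_sub_mod h3, Nat.mod_eq_of_lt (by omega)]; omega

/-- the residues of `c`, `w`, `a` -/
lemma res {v : ℕ} (hv : L.IsV v) :
    (L.c v < L.n ∧ L.c v % L.n = L.c v ∨ L.n ≤ L.c v ∧ L.c v % L.n + L.n = L.c v) ∧
    (v = 0 ∧ L.w v % L.n + 1 = L.n ∨ 0 < v ∧ L.w v % L.n + 1 = v) ∧
    (L.a v < L.n ∧ L.a v % L.n = L.a v ∨ L.n ≤ L.a v ∧ L.a v % L.n + L.n = L.a v) := by
  have hn := L.n_pos'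
  have h1 := hv.1
  have h2 := L.c_le' v
  refine ⟨?_, ?_, ?_⟩
  · rcases lt_or_ge (L.c v) L.n with h | h
    · exact Or.inl ⟨h, Nat.mod_eq_of_lt h⟩
    · refine Or.inr ⟨h, ?_⟩
      rw [Nat.mod_eq_sub_mod h, Nat.mod_eq_of_lt (by omega)]
      omega
  · rcases Nat.eq_zero_or_pos v with h | h
    · refine Or.inl ⟨h, ?_⟩
      rw [w, h, Nat.mod_eq_of_lt (by omega)]
      omega
    · refine Or.inr ⟨h, ?_⟩
      rw [w, show v + L.n - 1 = v - 1 + L.n by omega, Nat.add_mod_right,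
        Nat.mod_eq_of_lt (by omega)]
      omega
  · have h3 : L.a v = L.c v + 1 := rfl
    rcases lt_or_ge (L.a v) L.n with h | h
    · exact Or.inl ⟨h, Nat.mod_eq_of_lt h⟩
    · refine Or.inr ⟨h, ?_⟩
      rw [Nat.mod_eq_sub_mod h, Nat.mod_eq_of_lt (by omega)]
      omega

lemma m_mod : L.m < L.n ∧ L.m % L.n = L.m ∨ L.m = L.n ∧ L.m % L.n = 0 := by
  rcases Nat.eq_or_lt_of_le L.hm with h | h
  · right; exact ⟨h, by rw [h, Nat.mod_self]⟩
  · left; exact ⟨h, Nat.mod_eq_of_lt h⟩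

lemma hb_cw {v : ℕ} (hv : L.IsV v) (h1 : L.hb v) (h2 : ¬ L.ht v) :
    L.c v % L.n < L.m ∧ L.m ≤ L.w v % L.n := by
  rw [L.hb_iff hv.1] at h1
  rw [L.ht_iff hv.1] at h2
  have := L.res hv
  have := L.c_le' v
  have := L.lt_c hv.2.1
  have := hv.1
  have := L.hm
  omega

lemma ht_cw {v : ℕ} (hv : L.IsV v) (h1 : L.ht v) (h2 : ¬ L.hb v) :
    L.m ≤ L.c v % L.n ∧ L.w v % L.n < L.m := by
  rw [L.ht_iff hv.1] at h1
  rw [L.hb_iff hv.1] at h2
  have := L.res hv
  have := L.c_le' v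
  have := L.lt_c hv.2.1
  have := hv.1
  have := L.hm
  omega

lemma tcA {p q : ℕ} (h1 : L.m < q % L.n) (h2 : q % L.n < p % L.n) : L.tc p true q true := by
  have hn := L.n_pos'
  have h3 := Nat.mod_lt p hn
  have h4 := L.monoA h1.le h2 h3.le
  rw [L.yu_eq' (Nat.mod_mod p L.n), L.yw_eq' (Nat.mod_mod q L.n)] at h4
  have := L.m_mod
  refine ⟨by omega, by omega, h4⟩

lemma tcB {p q : ℕ} (h1 : 0 < p % L.n) (h2 : p % L.n < q % L.n) (h3 : q % L.n < L.m) :
    L.tc p false q false := by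
  have h4 := L.monoB h2 h3.le
  rw [L.yw_eq' (Nat.mod_mod p L.n), L.yu_eq' (Nat.mod_mod q L.n)] at h4
  have := L.m_mod
  refine ⟨by omega, by omega, h4⟩

lemma f1A {v : ℕ} (hv : L.IsV v) (h2 : L.ht v) (h3 : L.a v ≠ L.w v)
    (h4 : L.m ≤ L.w v % L.n) : L.m < L.a v % L.n ∧ L.a v % L.n < L.w v % L.n := by
  rw [L.ht_iff hv.1] at h2
  have := L.res hv
  have := L.c_le' v
  have := L.lt_c hv.2.1
  have := hv.1
  have := L.hm
  have h5 : L.a v = L.c v + 1 := rfl
  have h6 : L.w v = v + L.n - 1 := rfl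
  omega

lemma f1B {v : ℕ} (hv : L.IsV v) (h1 : L.hb v) (h2 : L.ht v) (h3 : L.a v ≠ L.w v)
    (h4 : ¬ L.m ≤ L.w v % L.n) :
    0 < L.a v % L.n ∧ L.a v % L.n < L.w v % L.n ∧ L.w v % L.n < L.m := by
  rw [L.hb_iff hv.1] at h1
  rw [L.ht_iff hv.1] at h2
  have := L.res hv
  have := L.c_le' v
  have := L.lt_c hv.2.1
  have := hv.1
  have := L.hm
  have h5 : L.a v = L.c v + 1 := rfl
  have h6 : L.w v = v + L.n - 1 := rfl
  omega

lemma f4A {v : ℕ} (hv : L.IsV v) (h1 : ¬ L.hb v) (h3 : L.m < v) :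
    L.m < v % L.n ∧ v % L.n < L.c v % L.n := by
  rw [L.hb_iff hv.1] at h1
  have := L.res hv
  have := L.lt_c hv.2.1
  have := Nat.mod_eq_of_lt hv.1
  omega

lemma f4B {v : ℕ} (hv : L.IsV v) (h1 : ¬ L.hb v) (h2 : ¬ L.ht v) (h3 : ¬ L.m < v) :
    0 < v % L.n ∧ v % L.n < L.c v % L.n ∧ L.c v % L.n < L.m := by
  rw [L.hb_iff hv.1] at h1
  rw [L.ht_iff hv.1] at h2
  have := L.res hv
  have := L.lt_c hv.2.1
  have := Nat.mod_eq_of_lt hv.1
  omega

/-- not both cases of `F2` -/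
lemma f2_excl {v : ℕ} (hv : L.IsV v) (h1 : L.hb v) (h2 : ¬ L.ht v)
    (h3 : L.yu (L.a v) < L.yu v) (h4 : L.yw (L.w v) < L.yw (L.c v)) : False := by
  obtain ⟨h5, h6⟩ := L.hb_cw hv h1 h2
  have h7 := L.up' h5
  have h8 := L.dn' h6
  have h9 : L.yu (L.w v + 1) = L.yu v := by
    apply L.yu_eq'
    have := L.n_pos'
    rw [w, show v + L.n - 1 + 1 = v + L.n by omega, Nat.add_mod_right]
  rw [h9] at h8
  have h10 : L.yu (L.a v) = L.yu (L.c v + 1) := rfl
  omega

lemma f3_excl {v : ℕ} (hv : L.IsV v) (h1 : L.ht v) (h2 : ¬ L.hb v)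
    (h3 : L.yw (L.c v) < L.yw (L.w v)) (h4 : L.yu v < L.yu (L.a v)) : False := by
  obtain ⟨h5, h6⟩ := L.ht_cw hv h1 h2
  have h7 := L.dn' h5
  have h8 := L.up' h6
  have h9 : L.yu (L.w v + 1) = L.yu v := by
    apply L.yu_eq'
    have := L.n_pos'
    rw [w, show v + L.n - 1 + 1 = v + L.n by omega, Nat.add_mod_right]
  rw [h9] at h8
  have h10 : L.yu (L.a v) = L.yu (L.c v + 1) := rfl
  omega

/-! ## The closing of the flipped leaf -/

section values

variable {v : ℕ}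

lemma cl_none (h : L.a v = L.w v) : L.cl v = (true, true, Pc.none) := if_pos h

lemma cl_1A (h : L.a v ≠ L.w v) (b : L.hb v) (t : L.ht v) (c : L.m ≤ L.w v % L.n) :
    L.cl v = (true, true, L.conn 1 (L.w v) true (L.a v) true false) := by
  unfold cl; rw [if_neg h, if_pos ⟨b, t⟩, if_pos c]

lemma cl_1B (h : L.a v ≠ L.w v) (b : L.hb v) (t : L.ht v) (c : ¬ L.m ≤ L.w v % L.n) :
    L.cl v = (true, true, L.conn 2 (L.a v) false (L.w v) false true) := by
  unfold cl; rw [if_neg h, if_pos ⟨b, t⟩, if_neg c]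

lemma cl_2a (h : L.a v ≠ L.w v) (b : L.hb v) (t : ¬ L.ht v) (c : L.yu (L.a v) < L.yu v) :
    L.cl v = (false, true, L.conn 1 (L.a v) false v true false) := by
  unfold cl; rw [if_neg h, if_neg (fun x => t x.2), if_pos b, if_pos c]

lemma cl_2b (h : L.a v ≠ L.w v) (b : L.hb v) (t : ¬ L.ht v) (c : ¬ L.yu (L.a v) < L.yu v)
    (d : L.yw (L.w v) < L.yw (L.c v)) :
    L.cl v = (true, false, L.conn 2 (L.w v) true (L.c v) false false) := by
  unfold cl; rw [if_neg h, if_neg (fun x => t x.2), if_pos b, if_neg c, if_pos d]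

lemma cl_bump (h : L.a v ≠ L.w v) (b : L.hb v) (t : ¬ L.ht v) (c : ¬ L.yu (L.a v) < L.yu v)
    (d : ¬ L.yw (L.w v) < L.yw (L.c v)) :
    L.cl v = (false, false, Pc.bump (max (L.yu v) (L.yw (L.c v))) (L.yu v) (L.yw (L.c v))) := by
  unfold cl; rw [if_neg h, if_neg (fun x => t x.2), if_pos b, if_neg c, if_neg d]

lemma cl_3a (h : L.a v ≠ L.w v) (b : ¬ L.hb v) (t : L.ht v) (c : L.yw (L.c v) < L.yw (L.w v)) :
    L.cl v = (true, false, L.conn 1 (L.c v) true (L.w v) false true) := by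
  unfold cl; rw [if_neg h, if_neg (fun x => b x.1), if_neg b, if_pos t, if_pos c]

lemma cl_3b (h : L.a v ≠ L.w v) (b : ¬ L.hb v) (t : L.ht v) (c : ¬ L.yw (L.c v) < L.yw (L.w v))
    (d : L.yu v < L.yu (L.a v)) :
    L.cl v = (false, true, L.conn 2 v false (L.a v) true true) := by
  unfold cl; rw [if_neg h, if_neg (fun x => b x.1), if_neg b, if_pos t, if_neg c, if_pos d]

lemma cl_valley (h : L.a v ≠ L.w v) (b : ¬ L.hb v) (t : L.ht v)
    (c : ¬ L.yw (L.c v) < L.yw (L.w v)) (d : ¬ L.yu v < L.yu (L.a v)) :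
    L.cl v = (false, false, Pc.valley (min (L.yw (L.c v)) (L.yu v)) (L.yw (L.c v)) (L.yu v)) := by
  unfold cl; rw [if_neg h, if_neg (fun x => b x.1), if_neg b, if_pos t, if_neg c, if_neg d]

lemma cl_4A (h : L.a v ≠ L.w v) (b : ¬ L.hb v) (t : ¬ L.ht v) (c : L.m < v) :
    L.cl v = (false, false, L.conn 0 (L.c v) true v true false) := by
  unfold cl; rw [if_neg h, if_neg (fun x => b x.1), if_neg b, if_neg t, if_pos c]

lemma cl_4B (h : L.a v ≠ L.w v) (b : ¬ L.hb v) (t : ¬ L.ht v) (c : ¬ L.m < v) :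
    L.cl v = (false, false, L.conn 3 v false (L.c v) false true) := by
  unfold cl; rw [if_neg h, if_neg (fun x => b x.1), if_neg b, if_neg t, if_neg c]

end values

lemma tri {α β γ : Type*} {a : α} {b : β} {x y : γ} (h : x = y) : (a, b, x) = (a, b, y) := by rw [h]

theorem flip_cl {v : ℕ} (h : v < L.n) (hv : L.IsV (L.fl v)) :
    L.flip.cl v = ((L.cl (L.fl v)).1, (L.cl (L.fl v)).2.1, pf (L.cl (L.fl v)).2.2) := by
  have ev := L.flip_v_mod v
  have ec := L.flip_c_mod v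
  have ea := L.flip_a_mod v
  have ew := L.flip_w_mod v
  have q1 : L.flip.a v = L.flip.w v ↔ L.a (L.fl v) = L.w (L.fl v) := by
    have := L.flip_c v
    unfold a w
    rw [flip_n]
    have := L.n_pos'
    omega
  have q2 := L.flip_hb v
  have q3 := L.flip_ht v
  have q4 : L.flip.m ≤ L.flip.w v % L.flip.n ↔ ¬ L.m ≤ L.w (L.fl v) % L.n := by
    have := L.mod_fl_lt (L.flip.w v)
    rw [ew] at this
    rw [flip_n, ← this, not_lt]
  have y1 : L.flip.yu (L.flip.a v) = -L.yu (L.a (L.fl v)) := by rw [flip_yu, L.yu_eq' ea]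
  have y2 : L.flip.yu v = -L.yu (L.fl v) := by rw [flip_yu, L.yu_eq' ev]
  have y3 : L.flip.yw (L.flip.w v) = -L.yw (L.w (L.fl v)) := by rw [flip_yw, L.yw_eq' ew]
  have y4 : L.flip.yw (L.flip.c v) = -L.yw (L.c (L.fl v)) := by rw [flip_yw, L.yw_eq' ec]
  have k5 := L.fl_cases h
  generalize L.fl v = u at *
  by_cases c1 : L.a u = L.w u
  · rw [L.flip.cl_none (q1.2 c1), L.cl_none c1]; rfl
  have c1' : L.flip.a v ≠ L.flip.w v := fun x => c1 (q1.1 x)
  by_cases b : L.hb u <;> by_cases t : L.ht u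
  · by_cases c2 : L.m ≤ L.w u % L.n
    · rw [L.cl_1A c1 b t c2, L.flip.cl_1B c1' (q2.2 t) (q3.2 b) (fun x => q4.1 x c2)]
      have f := L.f1A hv t c1 c2
      exact tri (L.flip_conn ea ew rfl rfl rfl rfl (Or.inl (L.tcA f.1 f.2)))
    · rw [L.cl_1B c1 b t c2, L.flip.cl_1A c1' (q2.2 t) (q3.2 b) (q4.2 c2)]
      have f := L.f1B hv b t c1 c2
      exact tri (L.flip_conn ew ea rfl rfl rfl rfl (Or.inl (L.tcB f.1 f.2.1 f.2.2)))
  · have f := L.f2_excl hv b t
    have b' : L.flip.ht v := q3.2 b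
    have t' : ¬ L.flip.hb v := fun x => t (q2.1 x)
    by_cases c2 : L.yu (L.a u) < L.yu u
    · have c3 : ¬ L.yw (L.w u) < L.yw (L.c u) := fun x => f c2 x
      rw [L.cl_2a c1 b t c2, L.flip.cl_3b c1' t' b' (by omega) (by omega)]
      exact tri (L.flip_conn ev ea rfl rfl rfl rfl (Or.inr rfl))
    · by_cases c3 : L.yw (L.w u) < L.yw (L.c u)
      · rw [L.cl_2b c1 b t c2 c3, L.flip.cl_3a c1' t' b' (by omega)]
        exact tri (L.flip_conn ec ew rfl rfl rfl rfl (Or.inr rfl))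
      · rw [L.cl_bump c1 b t c2 c3, L.flip.cl_valley c1' t' b' (by omega) (by omega)]
        dsimp only [pf]
        rw [y2, y4]
        congr 3
        omega
  · have f := L.f3_excl hv t b
    have b' : ¬ L.flip.ht v := fun x => b (q3.1 x)
    have t' : L.flip.hb v := q2.2 t
    by_cases c2 : L.yw (L.c u) < L.yw (L.w u)
    · have c3 : ¬ L.yu u < L.yu (L.a u) := fun x => f c2 x
      rw [L.cl_3a c1 b t c2, L.flip.cl_2b c1' t' b' (by omega) (by omega)]
      exact tri (L.flip_conn ew ec rfl rfl rfl rfl (Or.inr rfl))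
    · by_cases c3 : L.yu u < L.yu (L.a u)
      · rw [L.cl_3b c1 b t c2 c3, L.flip.cl_2a c1' t' b' (by omega)]
        exact tri (L.flip_conn ea ev rfl rfl rfl rfl (Or.inr rfl))
      · rw [L.cl_valley c1 b t c2 c3, L.flip.cl_bump c1' t' b' (by omega) (by omega)]
        dsimp only [pf]
        rw [y2, y4]
        congr 3
        omega
  · have b' : ¬ L.flip.ht v := fun x => b (q3.1 x)
    have t' : ¬ L.flip.hb v := fun x => t (q2.1 x)
    have q5 : L.flip.m < v ↔ ¬ L.m < u := by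
      have k2 : ¬ (u = 0 ∨ L.n ≤ L.c u) := fun x => b ((L.hb_iff hv.1).2 x)
      have k3 : ¬ ((u ≤ L.m ∧ L.m ≤ L.c u) ∨ L.m + L.n ≤ L.c u ∨ (L.m = L.n ∧ u = 0)) :=
        fun x => t ((L.ht_iff hv.1).2 x)
      have k4 := L.lt_c hv.2.1
      have k6 := L.hm
      rw [flip_m]
      omega
    by_cases c2 : L.m < u
    · rw [L.cl_4A c1 b t c2, L.flip.cl_4B c1' t' b' (fun x => q5.1 x c2)]
      have f := L.f4A hv b c2
      exact tri (L.flip_conn ev ec rfl rfl rfl rfl (Or.inl (L.tcA f.1 f.2)))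
    · rw [L.cl_4B c1 b t c2, L.flip.cl_4A c1' t' b' (q5.2 c2)]
      have f := L.f4B hv b t c2
      exact tri (L.flip_conn ec ev rfl rfl rfl rfl (Or.inl (L.tcB f.1 f.2.1 f.2.2)))


/-! ## Cases of a closing -/

theorem cl_ind (v : ℕ) {P : Bool × Bool × Pc → Prop}
    (h0 : L.a v = L.w v → P (true, true, Pc.none))
    (h1A : L.a v ≠ L.w v → L.hb v → L.ht v → L.m ≤ L.w v % L.n →
      P (true, true, L.conn 1 (L.w v) true (L.a v) true false))
    (h1B : L.a v ≠ L.w v → L.hb v → L.ht v → ¬ L.m ≤ L.w v % L.n →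
      P (true, true, L.conn 2 (L.a v) false (L.w v) false true))
    (h2a : L.a v ≠ L.w v → L.hb v → ¬ L.ht v → L.yu (L.a v) < L.yu v →
      P (false, true, L.conn 1 (L.a v) false v true false))
    (h2b : L.a v ≠ L.w v → L.hb v → ¬ L.ht v → ¬ L.yu (L.a v) < L.yu v →
      L.yw (L.w v) < L.yw (L.c v) →
      P (true, false, L.conn 2 (L.w v) true (L.c v) false false))
    (hbp : L.a v ≠ L.w v → L.hb v → ¬ L.ht v → ¬ L.yu (L.a v) < L.yu v →
      ¬ L.yw (L.w v) < L.yw (L.c v) →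
      P (false, false, Pc.bump (max (L.yu v) (L.yw (L.c v))) (L.yu v) (L.yw (L.c v))))
    (h3a : L.a v ≠ L.w v → ¬ L.hb v → L.ht v → L.yw (L.c v) < L.yw (L.w v) →
      P (true, false, L.conn 1 (L.c v) true (L.w v) false true))
    (h3b : L.a v ≠ L.w v → ¬ L.hb v → L.ht v → ¬ L.yw (L.c v) < L.yw (L.w v) →
      L.yu v < L.yu (L.a v) → P (false, true, L.conn 2 v false (L.a v) true true))
    (hvl : L.a v ≠ L.w v → ¬ L.hb v → L.ht v → ¬ L.yw (L.c v) < L.yw (L.w v) →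
      ¬ L.yu v < L.yu (L.a v) →
      P (false, false, Pc.valley (min (L.yw (L.c v)) (L.yu v)) (L.yw (L.c v)) (L.yu v)))
    (h4A : L.a v ≠ L.w v → ¬ L.hb v → ¬ L.ht v → L.m < v →
      P (false, false, L.conn 0 (L.c v) true v true false))
    (h4B : L.a v ≠ L.w v → ¬ L.hb v → ¬ L.ht v → ¬ L.m < v →
      P (false, false, L.conn 3 v false (L.c v) false true)) : P (L.cl v) := by
  by_cases c1 : L.a v = L.w v
  · rw [L.cl_none c1]; exact h0 c1
  by_cases b : L.hb v <;> by_cases t : L.ht v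
  · by_cases c2 : L.m ≤ L.w v % L.n
    · rw [L.cl_1A c1 b t c2]; exact h1A c1 b t c2
    · rw [L.cl_1B c1 b t c2]; exact h1B c1 b t c2
  · by_cases c2 : L.yu (L.a v) < L.yu v
    · rw [L.cl_2a c1 b t c2]; exact h2a c1 b t c2
    · by_cases c3 : L.yw (L.w v) < L.yw (L.c v)
      · rw [L.cl_2b c1 b t c2 c3]; exact h2b c1 b t c2 c3
      · rw [L.cl_bump c1 b t c2 c3]; exact hbp c1 b t c2 c3
  · by_cases c2 : L.yw (L.c v) < L.yw (L.w v)
    · rw [L.cl_3a c1 b t c2]; exact h3a c1 b t c2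
    · by_cases c3 : L.yu v < L.yu (L.a v)
      · rw [L.cl_3b c1 b t c2 c3]; exact h3b c1 b t c2 c3
      · rw [L.cl_valley c1 b t c2 c3]; exact hvl c1 b t c2 c3
  · by_cases c2 : L.m < v
    · rw [L.cl_4A c1 b t c2]; exact h4A c1 b t c2
    · rw [L.cl_4B c1 b t c2]; exact h4B c1 b t c2

section conn

variable {s s' : Fin 4} {p q : ℕ} {pA qA h l : Bool} {y y1 y2 y3 : ℤ}

lemma conn_trk (e : L.conn s p pA q qA h = Pc.trk s' y1 y2) :
    s = s' ∧ L.tc p pA q qA ∧ y1 = L.ue p pA ∧ y2 = L.de q qA := by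
  by_cases t : L.tc p pA q qA
  · rw [L.conn_t t] at e
    injection e with e1 e2 e3
    exact ⟨e1, t, e2.symm, e3.symm⟩
  · rw [L.conn_c t] at e
    exact Pc.noConfusion e

lemma conn_ctc (e : L.conn s p pA q qA h = Pc.ctc s' l y) :
    s = s' ∧ l = (!pA) ∧ ¬ L.tc p pA q qA ∧ y = (if h then
      (if p % L.n = L.m % L.n then L.ue q qA - 1 else min (L.ue p pA) (L.ue q qA) - 1)
    else (if q % L.n = 0 then L.de p pA else max (L.de p pA) (L.de q qA))) := by
  by_cases t : L.tc p pA q qA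
  · rw [L.conn_t t] at e
    exact Pc.noConfusion e
  · rw [L.conn_c t] at e
    injection e with e1 e2 e3
    exact ⟨e1, e2.symm, t, e3.symm⟩

lemma conn_bump : L.conn s p pA q qA h ≠ Pc.bump y1 y2 y3 := by
  intro e
  by_cases t : L.tc p pA q qA
  · rw [L.conn_t t] at e; exact Pc.noConfusion e
  · rw [L.conn_c t] at e; exact Pc.noConfusion e

lemma conn_valley : L.conn s p pA q qA h ≠ Pc.valley y1 y2 y3 := by
  intro e
  by_cases t : L.tc p pA q qA
  · rw [L.conn_t t] at e; exact Pc.noConfusion e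
  · rw [L.conn_c t] at e; exact Pc.noConfusion e

end conn


/-! ## Facts about tracks and letters -/

lemma isM_0 {v : ℕ} {y : ℤ} (hv : L.IsV v) (h : L.isM 0 y v) :
    L.m < v ∧ L.c v < L.n ∧ L.yu (L.c v) ≤ y ∧ y < L.yw v := by
  obtain ⟨y1, y2, h1, h2, h3⟩ := h
  revert h1
  refine L.cl_ind v (P := fun z => z.2.2 = Pc.trk 0 y1 y2 → _) ?_ ?_ ?_ ?_ ?_ ?_ ?_ ?_ ?_ ?_ ?_
  · intro _ e; exact Pc.noConfusion e
  · intro _ _ _ _ e; exact absurd (L.conn_trk e).1 (by decide)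
  · intro _ _ _ _ e; exact absurd (L.conn_trk e).1 (by decide)
  · intro _ _ _ _ e; exact absurd (L.conn_trk e).1 (by decide)
  · intro _ _ _ _ _ e; exact absurd (L.conn_trk e).1 (by decide)
  · intro _ _ _ _ _ e; exact Pc.noConfusion e
  · intro _ _ _ _ e; exact absurd (L.conn_trk e).1 (by decide)
  · intro _ _ _ _ _ e; exact absurd (L.conn_trk e).1 (by decide)
  · intro _ _ _ _ _ e; exact Pc.noConfusion e
  · intro _ b _ c e
    obtain ⟨-, -, e1, e2⟩ := L.conn_trk e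
    have k2 : ¬ (v = 0 ∨ L.n ≤ L.c v) := fun x => b ((L.hb_iff hv.1).2 x)
    have e3 : L.ue (L.c v) true = L.yu (L.c v) := rfl
    have e4 : L.de v true = L.yw v := rfl
    omega
  · intro _ _ _ _ e; exact absurd (L.conn_trk e).1 (by decide)

lemma isM_1 {v : ℕ} {y : ℤ} (hv : L.IsV v) (h : L.isM 1 y v) :
    (L.hb v ∧ L.ht v) ∨ (L.hb v ∧ ¬ L.ht v ∧ L.m < v ∧ y < L.yw v) ∨
      (L.ht v ∧ ¬ L.hb v ∧ L.m < L.c v ∧ L.c v < L.n ∧ L.yu (L.c v) ≤ y) := by
  obtain ⟨y1, y2, h1, h2, h3⟩ := h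
  revert h1
  refine L.cl_ind v (P := fun z => z.2.2 = Pc.trk 1 y1 y2 → _) ?_ ?_ ?_ ?_ ?_ ?_ ?_ ?_ ?_ ?_ ?_
  · intro _ e; exact Pc.noConfusion e
  · intro _ b t _ e; exact Or.inl ⟨b, t⟩
  · intro _ _ _ _ e; exact absurd (L.conn_trk e).1 (by decide)
  · intro _ b t c e
    obtain ⟨-, e0, e1, e2⟩ := L.conn_trk e
    refine Or.inr (Or.inl ⟨b, t, ?_⟩)
    have e4 : L.de v true = L.yw v := rfl
    have e5 := e0.2.1
    have e6 := L.hb_cw hv b t
    have e7 := L.res hv
    have e8 := Nat.mod_eq_of_lt hv.1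
    omega
  · intro _ _ _ _ _ e; exact absurd (L.conn_trk e).1 (by decide)
  · intro _ _ _ _ _ e; exact Pc.noConfusion e
  · intro _ b t _ e
    obtain ⟨-, e0, e1, e2⟩ := L.conn_trk e
    have k2 : ¬ (v = 0 ∨ L.n ≤ L.c v) := fun x => b ((L.hb_iff hv.1).2 x)
    refine Or.inr (Or.inr ⟨t, b, ?_⟩)
    have e4 : L.ue (L.c v) true = L.yu (L.c v) := rfl
    have e5 := e0.1
    have e6 := L.ht_cw hv t b
    have e7 := L.res hv
    have e8 := L.m_mod
    omega
  · intro _ _ _ _ _ e; exact absurd (L.conn_trk e).1 (by decide)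
  · intro _ _ _ _ _ e; exact Pc.noConfusion e
  · intro _ _ _ _ e; exact absurd (L.conn_trk e).1 (by decide)
  · intro _ _ _ _ e; exact absurd (L.conn_trk e).1 (by decide)

lemma uM_0 {v v' : ℕ} {y : ℤ} (hv : L.IsV v) (hv' : L.IsV v') (h : L.isM 0 y v)
    (h' : L.isM 0 y v') : v = v' := by
  have key : ∀ v v', L.IsV v → L.IsV v' → L.isM 0 y v → L.isM 0 y v' → v < v' → False := by
    intro v v' hv hv' h h' hlt
    have a1 := L.isM_0 hv h
    have a2 := L.isM_0 hv' h'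
    have a3 := L.runs hv hv' hlt
    have a4 := L.lt_c hv.2.1
    have a5 := L.monoA (i := L.c v) (j := v') (by omega) (by omega) hv'.1.le
    have a6 := L.dnc (L.c v) (by omega) (by omega)
    have a7 := L.dnc v' (by omega) hv'.1
    omega
  rcases lt_trichotomy v v' with h1 | h1 | h1
  · exact (key v v' hv hv' h h' h1).elim
  · exact h1
  · exact (key v' v hv' hv h' h h1).elim

lemma uM_1 {v v' : ℕ} {y : ℤ} (hv : L.IsV v) (hv' : L.IsV v') (h : L.isM 1 y v)
    (h' : L.isM 1 y v') : v = v' := by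
  have key : ∀ v v', L.IsV v → L.IsV v' → L.hb v → ¬ L.ht v → L.m < v → y < L.yw v →
      L.ht v' → L.m < L.c v' → L.c v' < L.n → L.yu (L.c v') ≤ y → False := by
    intro v v' hv hv' b t h1 h2 t' h3 h4 h5
    have c1 := (L.hb_iff hv.1).1 b
    have c2 : v ≠ v' := by rintro rfl; exact t t'
    have c3 : L.c v' < v := by
      rcases lt_or_gt_of_ne c2 with c3 | c3
      · have := L.runs hv hv' c3
        have := hv'.1
        omega
      · exact (L.runs hv' hv c3).1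
    have c4 := L.monoA h3.le c3 hv.1.le
    have a6 := L.dnc (L.c v') h3 h4
    have a7 := L.dnc v h1 hv.1
    omega
  rcases L.isM_1 hv h with ⟨b, t⟩ | ⟨b, t, h1, h2⟩ | ⟨t, b, h1, h2, h3⟩ <;>
    rcases L.isM_1 hv' h' with ⟨b', t'⟩ | ⟨b', t', h1', h2'⟩ | ⟨t', b', h1', h2', h3'⟩
  · exact L.hb_unique' hv hv' b b'
  · exact L.hb_unique' hv hv' b b'
  · exact L.ht_unique' hv hv' t t'
  · exact L.hb_unique' hv hv' b b'
  · exact L.hb_unique' hv hv' b b'
  · exact (key v v' hv hv' b t h1 h2 t' h1' h2' h3').elim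
  · exact L.ht_unique' hv hv' t t'
  · exact (key v' v hv' hv b' t' h1' h2' t h1 h2 h3).elim
  · exact L.ht_unique' hv hv' t t'

/-- single letters: slots, letters and walls -/
lemma isC_cases {v : ℕ} {s : Fin 4} {l : Bool} {y : ℤ} (hv : L.IsV v) (h : L.isC s l y v) :
    (L.hb v ∧ ¬ L.ht v ∧ ((s = 1 ∧ l = true) ∨ (s = 2 ∧ l = false))) ∨
    (L.ht v ∧ ¬ L.hb v ∧ ((s = 1 ∧ l = false) ∨ (s = 2 ∧ l = true))) := by
  unfold isC at h
  revert h
  refine L.cl_ind v (P := fun z => z.2.2 = Pc.ctc s l y → _) ?_ ?_ ?_ ?_ ?_ ?_ ?_ ?_ ?_ ?_ ?_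
  · intro _ e; exact Pc.noConfusion e
  · intro c1 _ t c2 e
    have f := L.f1A hv t c1 c2
    exact absurd (L.tcA f.1 f.2) (L.conn_ctc e).2.2.1
  · intro c1 b t c2 e
    have f := L.f1B hv b t c1 c2
    exact absurd (L.tcB f.1 f.2.1 f.2.2) (L.conn_ctc e).2.2.1
  · intro _ b t _ e
    obtain ⟨e1, e2, -⟩ := L.conn_ctc e
    exact Or.inl ⟨b, t, Or.inl ⟨e1.symm, e2⟩⟩
  · intro _ b t _ _ e
    obtain ⟨e1, e2, -⟩ := L.conn_ctc e
    exact Or.inl ⟨b, t, Or.inr ⟨e1.symm, e2⟩⟩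
  · intro _ _ _ _ _ e; exact Pc.noConfusion e
  · intro _ b t _ e
    obtain ⟨e1, e2, -⟩ := L.conn_ctc e
    exact Or.inr ⟨t, b, Or.inl ⟨e1.symm, e2⟩⟩
  · intro _ b t _ _ e
    obtain ⟨e1, e2, -⟩ := L.conn_ctc e
    exact Or.inr ⟨t, b, Or.inr ⟨e1.symm, e2⟩⟩
  · intro _ _ _ _ _ e; exact Pc.noConfusion e
  · intro _ b _ c2 e
    have f := L.f4A hv b c2
    exact absurd (L.tcA f.1 f.2) (L.conn_ctc e).2.2.1
  · intro _ b t c2 e
    have f := L.f4B hv b t c2
    exact absurd (L.tcB f.1 f.2.1 f.2.2) (L.conn_ctc e).2.2.1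


lemma C_1a {v : ℕ} {y : ℤ} (hv : L.IsV v) (b : L.hb v) (t : ¬ L.ht v) (h : L.isC 1 true y v) :
    y < L.yu v := by
  unfold isC at h
  revert h
  refine L.cl_ind v (P := fun z => z.2.2 = Pc.ctc 1 true y → _) ?_ ?_ ?_ ?_ ?_ ?_ ?_ ?_ ?_ ?_ ?_
  · intro _ e; exact Pc.noConfusion e
  · intro _ _ t' _ _; exact absurd t' t
  · intro _ _ t' _ _; exact absurd t' t
  · intro _ _ _ c e
    obtain ⟨-, -, -, e1⟩ := L.conn_ctc e
    have e2 : L.de (L.a v) false = L.yu (L.a v) := rfl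
    have e3 : L.de v true = L.yw v := rfl
    have e6 := L.hb_cw hv b t
    have e7 := L.res hv
    have e8 := Nat.mod_eq_of_lt hv.1
    rw [e2, e3] at e1
    simp only [Bool.false_eq_true, if_false] at e1
    split_ifs at e1 with e4
    · omega
    · have e5 := L.dnc v (by omega) hv.1
      omega
  · intro _ _ _ _ _ e; exact absurd (L.conn_ctc e).1 (by decide)
  · intro _ _ _ _ _ e; exact Pc.noConfusion e
  · intro _ b' _ _ _; exact absurd b b'
  · intro _ b' _ _ _ _; exact absurd b b'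
  · intro _ b' _ _ _ _; exact absurd b b'
  · intro _ b' _ _ _; exact absurd b b'
  · intro _ b' _ _ _; exact absurd b b'

lemma C_1b {v : ℕ} {y : ℤ} (hv : L.IsV v) (b : ¬ L.hb v) (t : L.ht v) (h : L.isC 1 false y v) :
    L.yw (L.c v) ≤ y := by
  unfold isC at h
  revert h
  refine L.cl_ind v (P := fun z => z.2.2 = Pc.ctc 1 false y → _) ?_ ?_ ?_ ?_ ?_ ?_ ?_ ?_ ?_ ?_ ?_
  · intro _ e; exact Pc.noConfusion e
  · intro _ b' _ _ _; exact absurd b' b
  · intro _ b' _ _ _; exact absurd b' b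
  · intro _ b' _ _ _; exact absurd b' b
  · intro _ b' _ _ _ _; exact absurd b' b
  · intro _ b' _ _ _ _; exact absurd b' b
  · intro _ _ _ c e
    obtain ⟨-, -, -, e1⟩ := L.conn_ctc e
    have e2 : L.ue (L.c v) true = L.yu (L.c v) := rfl
    have e3 : L.ue (L.w v) false = L.yw (L.w v) := rfl
    have e6 := L.ht_cw hv t b
    have e7 := L.res hv
    have e9 := L.m_mod
    have e10 := Nat.mod_lt (L.c v) L.n_pos'
    rw [e2, e3] at e1
    simp only [if_true] at e1
    split_ifs at e1 with e4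
    · omega
    · have e5 := L.dnc (L.c v % L.n) (by omega) e10
      rw [L.yw_eq' (Nat.mod_mod (L.c v) L.n), L.yu_eq' (Nat.mod_mod (L.c v) L.n)] at e5
      omega
  · intro _ _ _ _ _ e; exact absurd (L.conn_ctc e).1 (by decide)
  · intro _ _ _ _ _ e; exact Pc.noConfusion e
  · intro _ _ t' _ _; exact absurd t t'
  · intro _ _ t' _ _; exact absurd t t'

lemma uC_1 {v v' : ℕ} {y : ℤ} (hv : L.IsV v) (hv' : L.IsV v')
    (h : L.isC 1 true y v ∨ L.isC 1 false y v) (h' : L.isC 1 true y v' ∨ L.isC 1 false y v') :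
    v = v' := by
  have key : ∀ v v', L.IsV v → L.IsV v' → L.hb v → ¬ L.ht v → L.ht v' → ¬ L.hb v' →
      y < L.yu v → L.yw (L.c v') ≤ y → False := by
    intro v v' hv hv' b t t' b' h1 h2
    have c1 := (L.hb_iff hv.1).1 b
    have c0 : ¬ (v' = 0 ∨ L.n ≤ L.c v') := fun x => b' ((L.hb_iff hv'.1).2 x)
    have c2 : v ≠ v' := by rintro rfl; exact t t'
    have e6 := L.ht_cw hv' t' b'
    have e7 := L.res hv'
    rcases Nat.eq_zero_or_pos v with h0 | h0
    · have c4 := L.monoA (i := L.c v') (j := L.n) (by omega) (by omega) le_rfl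
      have c5 := L.yu_per 0
      rw [Nat.zero_add] at c5
      rw [h0] at h1
      omega
    · have c3 : L.c v' < v := by
        rcases lt_or_gt_of_ne c2 with c3 | c3
        · have := L.runs hv hv' c3
          have := hv'.1
          omega
        · exact (L.runs hv' hv c3).1
      have c4 := L.monoA (by omega) c3 hv.1.le
      omega
  have c : ∀ v, L.IsV v → (L.isC 1 true y v ∨ L.isC 1 false y v) →
      (L.hb v ∧ ¬ L.ht v ∧ y < L.yu v) ∨ (L.ht v ∧ ¬ L.hb v ∧ L.yw (L.c v) ≤ y) := by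
    intro v hv h
    rcases h with h | h
    · rcases L.isC_cases hv h with ⟨b, t, -⟩ | ⟨-, -, h1⟩
      · exact Or.inl ⟨b, t, L.C_1a hv b t h⟩
      · rcases h1 with ⟨-, h1⟩ | ⟨h1, -⟩
        · exact absurd h1 (by decide)
        · exact absurd h1 (by decide)
    · rcases L.isC_cases hv h with ⟨-, -, h1⟩ | ⟨t, b, -⟩
      · rcases h1 with ⟨-, h1⟩ | ⟨h1, -⟩
        · exact absurd h1 (by decide)
        · exact absurd h1 (by decide)
      · exact Or.inr ⟨t, b, L.C_1b hv b t h⟩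
  rcases c v hv h with ⟨b, t, h1⟩ | ⟨t, b, h1⟩ <;>
    rcases c v' hv' h' with ⟨b', t', h1'⟩ | ⟨t', b', h1'⟩
  · exact L.hb_unique' hv hv' b b'
  · exact (key v v' hv hv' b t t' b' h1 h1').elim
  · exact (key v' v hv' hv b' t' t b h1' h1).elim
  · exact L.ht_unique' hv hv' t t'


/-! ## Transfer of the properties of the pieces -/

lemma f3 (s : Fin 4) : (3 - (3 - s) : Fin 4) = s := by revert s; decide

lemma pf_pf (P : Pc) : pf (pf P) = P := by
  cases P with
  | none => rfl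
  | trk s y1 y2 => simp only [pf, f3, neg_neg]
  | ctc s l y => simp only [pf, f3]; congr 1; omega
  | bump X yA yB => simp only [pf, neg_neg]
  | valley Y yA yB => simp only [pf, neg_neg]

lemma pf_iff {P Q : Pc} : pf P = Q ↔ P = pf Q :=
  ⟨fun h => by rw [← h, pf_pf], fun h => by rw [h, pf_pf]⟩

section tr

variable {v : ℕ} (h : v < L.n) (hv : L.IsV (L.fl v))
include h hv

lemma flip_isM (s : Fin 4) (y : ℤ) :
    L.flip.isM s y v ↔ L.isM (3 - s) (-1 - y) (L.fl v) := by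
  unfold isM
  rw [L.flip_cl h hv]
  constructor
  · rintro ⟨y1, y2, h1, h2, h3⟩
    exact ⟨-y2, -y1, pf_iff.1 h1, by omega, by omega⟩
  · rintro ⟨y1, y2, h1, h2, h3⟩
    refine ⟨-y2, -y1, ?_, by omega, by omega⟩
    rw [pf_iff, h1]
    simp only [pf, neg_neg]

lemma flip_isC (s : Fin 4) (l : Bool) (y : ℤ) :
    L.flip.isC s l y v ↔ L.isC (3 - s) l (-1 - y) (L.fl v) := by
  unfold isC
  rw [L.flip_cl h hv, pf_iff]
  rfl

lemma flip_isBp (y : ℤ) : L.flip.isBp y v ↔ L.isVl (-1 - y) (L.fl v) := by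
  unfold isBp isVl
  rw [L.flip_cl h hv]
  constructor
  · rintro ⟨yA, yB, h1⟩
    refine ⟨-yB, -yA, ?_⟩
    rw [pf_iff] at h1
    rw [h1]
    simp only [pf]
    congr 1
    omega
  · rintro ⟨yA, yB, h1⟩
    refine ⟨-yB, -yA, ?_⟩
    rw [pf_iff, h1]
    simp only [pf, neg_neg]
    congr 1
    omega

lemma flip_isVl (y : ℤ) : L.flip.isVl y v ↔ L.isBp (-1 - y) (L.fl v) := by
  unfold isBp isVl
  rw [L.flip_cl h hv]
  constructor
  · rintro ⟨yA, yB, h1⟩
    refine ⟨-yB, -yA, ?_⟩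
    rw [pf_iff] at h1
    rw [h1]
    simp only [pf]
    congr 1
    omega
  · rintro ⟨yA, yB, h1⟩
    refine ⟨-yB, -yA, ?_⟩
    rw [pf_iff, h1]
    simp only [pf, neg_neg]
    congr 1
    omega

lemma flip_isFN (y : ℤ) : L.flip.isFN y v ↔ L.isGN (-y) (L.fl v) := by
  unfold isFN isGN
  rw [L.flip_cl h hv]
  constructor
  · rintro ⟨X, yA, yB, h1, h2, h3⟩
    exact ⟨-X, -yB, -yA, pf_iff.1 h1, by omega, by omega⟩
  · rintro ⟨X, yA, yB, h1, h2, h3⟩
    refine ⟨-X, -yB, -yA, ?_, by omega, by omega⟩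
    rw [pf_iff, h1]
    simp only [pf, neg_neg]

lemma flip_isFS (y : ℤ) : L.flip.isFS y v ↔ L.isGS (-y) (L.fl v) := by
  unfold isFS isGS
  rw [L.flip_cl h hv]
  constructor
  · rintro ⟨X, yA, yB, h1, h2, h3⟩
    exact ⟨-X, -yB, -yA, pf_iff.1 h1, by omega, by omega⟩
  · rintro ⟨X, yA, yB, h1, h2, h3⟩
    refine ⟨-X, -yB, -yA, ?_, by omega, by omega⟩
    rw [pf_iff, h1]
    simp only [pf, neg_neg]

lemma flip_isGS (y : ℤ) : L.flip.isGS y v ↔ L.isFS (-y) (L.fl v) := by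
  unfold isFS isGS
  rw [L.flip_cl h hv]
  constructor
  · rintro ⟨X, yA, yB, h1, h2, h3⟩
    exact ⟨-X, -yB, -yA, pf_iff.1 h1, by omega, by omega⟩
  · rintro ⟨X, yA, yB, h1, h2, h3⟩
    refine ⟨-X, -yB, -yA, ?_, by omega, by omega⟩
    rw [pf_iff, h1]
    simp only [pf, neg_neg]

lemma flip_isGN (y : ℤ) : L.flip.isGN y v ↔ L.isFN (-y) (L.fl v) := by
  unfold isFN isGN
  rw [L.flip_cl h hv]
  constructor
  · rintro ⟨X, yA, yB, h1, h2, h3⟩
    exact ⟨-X, -yB, -yA, pf_iff.1 h1, by omega, by omega⟩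
  · rintro ⟨X, yA, yB, h1, h2, h3⟩
    refine ⟨-X, -yB, -yA, ?_, by omega, by omega⟩
    rw [pf_iff, h1]
    simp only [pf, neg_neg]

end tr

/-! ## Uniqueness -/

theorem uM {s : Fin 4} {v v' : ℕ} {y : ℤ} (hv : L.IsV v) (hv' : L.IsV v') (h : L.isM s y v)
    (h' : L.isM s y v') : v = v' := by
  have key : ∀ s : Fin 4, (∀ u u', L.flip.IsV u → L.flip.IsV u' →
      L.flip.isM s (-1 - y) u → L.flip.isM s (-1 - y) u' → u = u') →
      L.isM (3 - s) y v → L.isM (3 - s) y v' → v = v' := by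
    intro s hs g g'
    obtain ⟨u, hu, e⟩ := L.fl_surj hv.1
    obtain ⟨u', hu', e'⟩ := L.fl_surj hv'.1
    rw [← e] at hv g ⊢
    rw [← e'] at hv' g' ⊢
    have := hs u u' ((L.flip_IsV hu).2 hv) ((L.flip_IsV hu').2 hv')
      ((L.flip_isM hu hv s _).2 (by rw [show -1 - (-1 - y) = y by omega]; exact g))
      ((L.flip_isM hu' hv' s _).2 (by rw [show -1 - (-1 - y) = y by omega]; exact g'))
    rw [this]
  fin_cases s
  · exact L.uM_0 hv hv' h h'
  · exact L.uM_1 hv hv' h h'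
  · exact key 1 (fun u u' a a' b b' => L.flip.uM_1 a a' b b') h h'
  · exact key 0 (fun u u' a a' b b' => L.flip.uM_0 a a' b b') h h'

theorem uC {s : Fin 4} {v v' : ℕ} {y : ℤ} (hv : L.IsV v) (hv' : L.IsV v')
    (h : L.isC s true y v ∨ L.isC s false y v) (h' : L.isC s true y v' ∨ L.isC s false y v') :
    v = v' := by
  have n0 : ∀ v l, L.IsV v → L.isC 0 l y v → False := by
    intro v l hv h
    rcases L.isC_cases hv h with ⟨-, -, h1⟩ | ⟨-, -, h1⟩ <;>
      rcases h1 with ⟨h1, -⟩ | ⟨h1, -⟩ <;> exact absurd h1 (by decide)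
  have n3 : ∀ v l, L.IsV v → L.isC 3 l y v → False := by
    intro v l hv h
    rcases L.isC_cases hv h with ⟨-, -, h1⟩ | ⟨-, -, h1⟩ <;>
      rcases h1 with ⟨h1, -⟩ | ⟨h1, -⟩ <;> exact absurd h1 (by decide)
  fin_cases s
  · rcases h with h | h <;> exact (n0 _ _ hv h).elim
  · exact L.uC_1 hv hv' h h'
  · obtain ⟨u, hu, e⟩ := L.fl_surj hv.1
    obtain ⟨u', hu', e'⟩ := L.fl_surj hv'.1
    rw [← e] at hv h ⊢
    rw [← e'] at hv' h' ⊢
    have t : ∀ l, L.flip.isC 1 l (-1 - y) u ↔ L.isC 2 l y (L.fl u) := by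
      intro l
      rw [L.flip_isC hu hv, show -1 - (-1 - y) = y by omega]
      rfl
    have t' : ∀ l, L.flip.isC 1 l (-1 - y) u' ↔ L.isC 2 l y (L.fl u') := by
      intro l
      rw [L.flip_isC hu' hv', show -1 - (-1 - y) = y by omega]
      rfl
    have := L.flip.uC_1 ((L.flip_IsV hu).2 hv) ((L.flip_IsV hu').2 hv')
      (h.imp (t true).2 (t false).2) (h'.imp (t' true).2 (t' false).2)
    rw [this]
  · rcases h with h | h <;> exact (n3 _ _ hv h).elim

/-- bumps: the run passes the bottom only; valleys: the top only -/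
lemma bump_hb {v : ℕ} {X yA yB : ℤ} (h : (L.cl v).2.2 = Pc.bump X yA yB) : L.hb v ∧ ¬ L.ht v := by
  revert h
  refine L.cl_ind v (P := fun z => z.2.2 = Pc.bump X yA yB → _) ?_ ?_ ?_ ?_ ?_ ?_ ?_ ?_ ?_ ?_ ?_
  · intro _ e; exact Pc.noConfusion e
  · intro _ _ _ _ e; exact (L.conn_bump e).elim
  · intro _ _ _ _ e; exact (L.conn_bump e).elim
  · intro _ _ _ _ e; exact (L.conn_bump e).elim
  · intro _ _ _ _ _ e; exact (L.conn_bump e).elim
  · intro _ b t _ _ e; exact ⟨b, t⟩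
  · intro _ _ _ _ e; exact (L.conn_bump e).elim
  · intro _ _ _ _ _ e; exact (L.conn_bump e).elim
  · intro _ _ _ _ _ e; exact Pc.noConfusion e
  · intro _ _ _ _ e; exact (L.conn_bump e).elim
  · intro _ _ _ _ e; exact (L.conn_bump e).elim

lemma valley_ht {v : ℕ} {X yA yB : ℤ} (h : (L.cl v).2.2 = Pc.valley X yA yB) :
    L.ht v ∧ ¬ L.hb v := by
  revert h
  refine L.cl_ind v (P := fun z => z.2.2 = Pc.valley X yA yB → _) ?_ ?_ ?_ ?_ ?_ ?_ ?_ ?_ ?_ ?_ ?_
  · intro _ e; exact Pc.noConfusion e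
  · intro _ _ _ _ e; exact (L.conn_valley e).elim
  · intro _ _ _ _ e; exact (L.conn_valley e).elim
  · intro _ _ _ _ e; exact (L.conn_valley e).elim
  · intro _ _ _ _ _ e; exact (L.conn_valley e).elim
  · intro _ _ _ _ _ e; exact Pc.noConfusion e
  · intro _ _ _ _ e; exact (L.conn_valley e).elim
  · intro _ _ _ _ _ e; exact (L.conn_valley e).elim
  · intro _ b t _ _ e; exact ⟨t, b⟩
  · intro _ _ _ _ e; exact (L.conn_valley e).elim
  · intro _ _ _ _ e; exact (L.conn_valley e).elim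

theorem ub {v v' : ℕ} {y y' : ℤ} (hv : L.IsV v) (hv' : L.IsV v')
    (h : L.isFN y v ∨ L.isFS y v) (h' : L.isFN y' v' ∨ L.isFS y' v') : v = v' := by
  have k : ∀ v y, L.isFN y v ∨ L.isFS y v → L.hb v := by
    intro v y h
    rcases h with ⟨X, yA, yB, h, -⟩ | ⟨X, yA, yB, h, -⟩ <;> exact (L.bump_hb h).1
  exact L.hb_unique' hv hv' (k _ _ h) (k _ _ h')

theorem uv {v v' : ℕ} {y y' : ℤ} (hv : L.IsV v) (hv' : L.IsV v')
    (h : L.isGS y v ∨ L.isGN y v) (h' : L.isGS y' v' ∨ L.isGN y' v') : v = v' := by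
  have k : ∀ v y, L.isGS y v ∨ L.isGN y v → L.ht v := by
    intro v y h
    rcases h with ⟨X, yA, yB, h, -⟩ | ⟨X, yA, yB, h, -⟩ <;> exact (L.valley_ht h).1
  exact L.ht_unique' hv hv' (k _ _ h) (k _ _ h')

theorem uw {v v' : ℕ} (hv : L.IsV v) (hv' : L.IsV v') (h : L.w v % L.n = L.w v' % L.n) :
    v = v' := by
  have a := L.res hv
  have b := L.res hv'
  have := hv.1
  have := hv'.1
  omega

theorem uc {v v' : ℕ} (hv : L.IsV v) (hv' : L.IsV v') (h : L.c v % L.n = L.c v' % L.n) :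
    v = v' := by
  have a := L.res hv
  have b := L.res hv'
  have h1 := L.lt_c hv.2.1
  have h2 := L.lt_c hv'.2.1
  rcases lt_trichotomy v v' with h3 | h3 | h3
  · have := L.runs hv hv' h3; omega
  · exact h3
  · have := L.runs hv' hv h3; omega


/-! ## The line of the flipped leaf -/

lemma dec_iff {p : Prop} {i : Decidable p} : @decide p i = true ↔ p := decide_eq_true_iff

lemma ex_flip {P' P : ℕ → Prop} (h : ∀ v < L.n, L.IsV (L.fl v) → (P' v ↔ P (L.fl v))) :
    (∃ v, L.flip.IsV v ∧ P' v) ↔ ∃ v, L.IsV v ∧ P v := by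
  constructor
  · rintro ⟨v, hv, h1⟩
    have hv' := (L.flip_IsV hv.1).1 hv
    exact ⟨L.fl v, hv', (h v hv.1 hv').1 h1⟩
  · rintro ⟨v, hv, h1⟩
    obtain ⟨u, hu, rfl⟩ := L.fl_surj hv.1
    exact ⟨u, (L.flip_IsV hu).2 hv, (h u hu hv).2 h1⟩

lemma pick_spec {p : ℕ → Prop} (h : ∃ v, L.IsV v ∧ p v) : L.IsV (L.pick p) ∧ p (L.pick p) := by
  unfold pick
  rw [dif_pos h]
  exact h.choose_spec

lemma pick_flip {P' P : ℕ → Prop} (h : ∀ v < L.n, L.IsV (L.fl v) → (P' v ↔ P (L.fl v)))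
    (hu : ∀ v v', L.IsV v → L.IsV v' → P v → P v' → v = v') (he : ∃ v, L.IsV v ∧ P v) :
    L.fl (L.flip.pick P') = L.pick P := by
  have h1 := L.pick_spec he
  have h2 := L.flip.pick_spec ((L.ex_flip h).2 he)
  have h3 := (L.flip_IsV h2.1.1).1 h2.1
  exact hu _ _ h3 h1.1 ((h _ h2.1.1 h3).1 h2.2) h1.2

lemma flip_aw (y : ℤ) : L.flip.K.aw y = L.K.bw (-1 - y) := by
  simp only [K]
  rw [decide_eq_decide]
  constructor
  · rintro ⟨i, hi, h1, h2⟩
    rw [flip_yw] at h1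
    rw [flip_yu] at h2
    refine ⟨L.fl i, L.fl_lt i, ?_, ?_⟩
    · rw [← L.yu_eq' (L.flip_v_mod i)]; omega
    · rw [← L.yw_eq' (L.flip_v_mod i)]; omega
  · rintro ⟨i, hi, h1, h2⟩
    obtain ⟨u, hu, rfl⟩ := L.fl_surj hi
    rw [← L.yu_eq' (L.flip_v_mod u)] at h1
    rw [← L.yw_eq' (L.flip_v_mod u)] at h2
    refine ⟨u, hu, ?_, ?_⟩
    · rw [flip_yw]; omega
    · rw [flip_yu]; omega

lemma flip_bw (y : ℤ) : L.flip.K.bw y = L.K.aw (-1 - y) := by
  simp only [K]
  rw [decide_eq_decide]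
  constructor
  · rintro ⟨i, hi, h1, h2⟩
    rw [flip_yu] at h1
    rw [flip_yw] at h2
    refine ⟨L.fl i, L.fl_lt i, ?_, ?_⟩
    · rw [← L.yw_eq' (L.flip_v_mod i)]; omega
    · rw [← L.yu_eq' (L.flip_v_mod i)]; omega
  · rintro ⟨i, hi, h1, h2⟩
    obtain ⟨u, hu, rfl⟩ := L.fl_surj hi
    rw [← L.yw_eq' (L.flip_v_mod u)] at h1
    rw [← L.yu_eq' (L.flip_v_mod u)] at h2
    refine ⟨u, hu, ?_, ?_⟩
    · rw [flip_yu]; omega
    · rw [flip_yw]; omega

lemma flip_M (s : Fin 4) (y : ℤ) : L.flip.K.M s y = L.K.M (3 - s) (-1 - y) := by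
  simp only [K]
  rw [decide_eq_decide]
  exact L.ex_flip fun v h hv => L.flip_isM h hv s y

lemma flip_cn (s : Fin 4) (y : ℤ) : L.flip.K.cn s y = L.K.cn (3 - s) (-1 - y) := by
  simp only [K]
  rw [decide_eq_decide]
  exact L.ex_flip fun v h hv => L.flip_isC h hv s true y

lemma flip_cs (s : Fin 4) (y : ℤ) : L.flip.K.cs s y = L.K.cs (3 - s) (-1 - y) := by
  simp only [K]
  rw [decide_eq_decide]
  exact L.ex_flip fun v h hv => L.flip_isC h hv s false y

lemma flip_bp (y : ℤ) : L.flip.K.bp y = L.K.vl (-1 - y) := by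
  simp only [K]
  rw [decide_eq_decide]
  exact L.ex_flip fun v h hv => L.flip_isBp h hv y

lemma flip_vl (y : ℤ) : L.flip.K.vl y = L.K.bp (-1 - y) := by
  simp only [K]
  rw [decide_eq_decide]
  exact L.ex_flip fun v h hv => L.flip_isVl h hv y

lemma flip_fN (y : ℤ) : L.flip.K.fN y = L.K.gN (-y) := by
  simp only [K]
  rw [decide_eq_decide]
  exact L.ex_flip fun v h hv => L.flip_isFN h hv y

lemma flip_fS (y : ℤ) : L.flip.K.fS y = L.K.gS (-y) := by
  simp only [K]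
  rw [decide_eq_decide]
  exact L.ex_flip fun v h hv => L.flip_isFS h hv y

lemma flip_gS (y : ℤ) : L.flip.K.gS y = L.K.fS (-y) := by
  simp only [K]
  rw [decide_eq_decide]
  exact L.ex_flip fun v h hv => L.flip_isGS h hv y

lemma flip_gN (y : ℤ) : L.flip.K.gN y = L.K.fN (-y) := by
  simp only [K]
  rw [decide_eq_decide]
  exact L.ex_flip fun v h hv => L.flip_isGN h hv y

lemma flip_tM {s : Fin 4} {y : ℤ} (h : L.K.M (3 - s) (-1 - y) = true) :
    L.fl (L.flip.K.tM s y) = L.K.tM (3 - s) (-1 - y) := by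
  simp only [K] at h ⊢
  rw [dec_iff] at h
  exact L.pick_flip (fun v h hv => L.flip_isM h hv s y)
    (fun v v' hv hv' h h' => L.uM hv hv' h h') h

lemma flip_tC {s : Fin 4} {y : ℤ}
    (h : L.K.cn (3 - s) (-1 - y) = true ∨ L.K.cs (3 - s) (-1 - y) = true) :
    L.fl (L.flip.K.tC s y) = L.K.tC (3 - s) (-1 - y) := by
  simp only [K] at h ⊢
  rw [dec_iff, dec_iff] at h
  refine L.pick_flip (fun v h hv => or_congr (L.flip_isC h hv s true y)
    (L.flip_isC h hv s false y)) (fun v v' hv hv' h h' => L.uC hv hv' h h') ?_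
  rcases h with ⟨v, hv, h⟩ | ⟨v, hv, h⟩
  · exact ⟨v, hv, Or.inl h⟩
  · exact ⟨v, hv, Or.inr h⟩

lemma flip_tb {y : ℤ} (h : L.K.gS (-y) = true ∨ L.K.gN (-y) = true) :
    L.fl (L.flip.K.tb y) = L.K.tv (-y) := by
  simp only [K] at h ⊢
  rw [dec_iff, dec_iff] at h
  refine L.pick_flip (fun v h hv => ?_) (fun v v' hv hv' h h' => L.uv hv hv' h h') ?_
  · rw [L.flip_isFN h hv, L.flip_isFS h hv, or_comm]
  rcases h with ⟨v, hv, h⟩ | ⟨v, hv, h⟩
  · exact ⟨v, hv, Or.inl h⟩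
  · exact ⟨v, hv, Or.inr h⟩

lemma flip_tv {y : ℤ} (h : L.K.fN (-y) = true ∨ L.K.fS (-y) = true) :
    L.fl (L.flip.K.tv y) = L.K.tb (-y) := by
  simp only [K] at h ⊢
  rw [dec_iff, dec_iff] at h
  refine L.pick_flip (fun v h hv => ?_) (fun v v' hv hv' h h' => L.ub hv hv' h h') ?_
  · rw [L.flip_isGS h hv, L.flip_isGN h hv, or_comm]
  rcases h with ⟨v, hv, h⟩ | ⟨v, hv, h⟩
  · exact ⟨v, hv, Or.inl h⟩
  · exact ⟨v, hv, Or.inr h⟩

lemma shift_mod {x y i j : ℕ} (h : (x + L.m) % L.n = y % L.n) (h' : (i + L.m) % L.n = j % L.n) :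
    x % L.n = i % L.n ↔ y % L.n = j % L.n := by
  rw [← h, ← h']
  constructor
  · intro e
    rw [Nat.add_mod, e, ← Nat.add_mod]
  · intro e
    exact Nat.ModEq.add_right_cancel' L.m e

section strips

variable {i j : ℕ} (hij : (i + L.m) % L.n = j % L.n)
include hij

lemma flip_wi (v : ℕ) (h : v < L.n) (hv : L.IsV (L.fl v)) :
    ((L.flip.cl v).1 = true ∧ L.flip.w v % L.n = i % L.n) ↔
      ((L.cl (L.fl v)).1 = true ∧ L.w (L.fl v) % L.n = j % L.n) := by
  rw [L.flip_cl h hv, L.shift_mod (L.flip_w_mod v) hij]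

lemma flip_ci (v : ℕ) (h : v < L.n) (hv : L.IsV (L.fl v)) :
    ((L.flip.cl v).2.1 = true ∧ L.flip.c v % L.n = i % L.n) ↔
      ((L.cl (L.fl v)).2.1 = true ∧ L.c (L.fl v) % L.n = j % L.n) := by
  rw [L.flip_cl h hv, L.shift_mod (L.flip_c_mod v) hij]

lemma flip_NL : L.flip.NL i = L.NL j := by
  unfold NL
  rw [decide_eq_decide]
  exact L.ex_flip (L.flip_wi hij)

lemma flip_SL : L.flip.SL i = L.SL j := by
  unfold SL
  rw [decide_eq_decide]
  exact L.ex_flip (L.flip_ci hij)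

lemma flip_tN (h : L.NL j = true) : L.fl (L.flip.tN i) = L.tN j := by
  unfold NL at h
  rw [dec_iff] at h
  exact L.pick_flip (L.flip_wi hij) (fun v v' hv hv' a a' => L.uw hv hv' (a.2.trans a'.2.symm)) h

lemma flip_tS (h : L.SL j = true) : L.fl (L.flip.tS i) = L.tS j := by
  unfold SL at h
  rw [dec_iff] at h
  exact L.pick_flip (L.flip_ci hij) (fun v v' hv hv' a a' => L.uc hv hv' (a.2.trans a'.2.symm)) h

lemma fyu : L.flip.yu i = -L.yu j := by rw [flip_yu, L.yu_eq' hij]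
lemma fyw : L.flip.yw i = -L.yw j := by rw [flip_yw, L.yw_eq' hij]

lemma hij1 : (i + 1 + L.m) % L.n = (j + 1) % L.n := by
  rw [show i + 1 + L.m = i + L.m + 1 by omega, Nat.add_mod, hij, ← Nat.add_mod]

lemma hijn : (i + L.n - 1 + L.m) % L.n = (j + L.n - 1) % L.n := by
  have := L.n_pos'
  rw [show i + L.n - 1 + L.m = i + L.m + (L.n - 1) by omega,
    show j + L.n - 1 = j + (L.n - 1) by omega, Nat.add_mod, hij, ← Nat.add_mod]

lemma flip_sB : L.flip.sB i = L.sA j := by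
  unfold sB sA
  rw [decide_eq_decide, L.fyu (L.hij1 hij), L.fyw hij, flip_n, L.mod_fl_lt, hij, Ne, Ne, neg_inj]

lemma flip_sA : L.flip.sA i = L.sB j := by
  unfold sB sA
  rw [decide_eq_decide, L.fyu (L.hij1 hij), L.fyw hij, flip_n, ← not_lt, L.mod_fl_lt, hij, not_le,
    Ne, Ne, neg_inj]

end strips


/-! ## The word of the flipped leaf -/

lemma ctsF_zero {τ : Type*} (K : KD τ) (y : ℤ) : K.cts y 0 = [] := rfl

lemma ctsF_succ {τ : Type*} (K : KD τ) (y : ℤ) (l : ℕ) :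
    K.cts y (l + 1) = K.cts y l ++ K.ct (y + l) := by
  unfold KD.cts
  rw [List.range_succ]
  simp

lemma ctsF_succ' {τ : Type*} (K : KD τ) (y : ℤ) (l : ℕ) :
    K.cts y (l + 1) = K.ct y ++ K.cts (y + 1) l := by
  induction l with
  | zero => rw [ctsF_succ, ctsF_zero, ctsF_zero]; simp
  | succ l ih =>
    rw [ctsF_succ, ih, ctsF_succ, List.append_assoc]
    congr 3
    push_cast
    ring

/-- renaming of the tags -/
def fm (w : List (Bool × ℕ)) : List (Bool × ℕ) := w.map fun z => (z.1, L.fl z.2)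

lemma fm_append (u v : List (Bool × ℕ)) : L.fm (u ++ v) = L.fm u ++ L.fm v := List.map_append

lemma fm_reverse (u : List (Bool × ℕ)) : L.fm u.reverse = (L.fm u).reverse := List.map_reverse

lemma fm_opt {b b' x : Bool} {t t' : ℕ} (h1 : b = b') (h2 : b' = true → L.fl t = t') :
    L.fm (opt b (x, t)) = opt b' (x, t') := by
  subst h1
  cases b
  · rfl
  · rw [← h2 rfl]; rfl

lemma fm_sl4 {f g : Fin 4 → List (Bool × ℕ)} (h : ∀ s, L.fm (f s) = g (3 - s)) :
    L.fm (sl4 f) = ls4 g := by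
  unfold sl4 ls4
  rw [fm_append, fm_append, fm_append, h, h, h, h]
  rfl

lemma fm_ls4 {f g : Fin 4 → List (Bool × ℕ)} (h : ∀ s, L.fm (f s) = g (3 - s)) :
    L.fm (ls4 f) = sl4 g := by
  unfold sl4 ls4
  rw [fm_append, fm_append, fm_append, h, h, h, h]
  rfl

lemma and_l {a b : Bool} (h : (a && b) = true) : a = true := by
  rw [Bool.and_eq_true] at h; exact h.1

lemma and_r {a b : Bool} (h : (a && b) = true) : b = true := by
  rw [Bool.and_eq_true] at h; exact h.2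

lemma flip_opA (w : ℤ) : L.fm (L.flip.K.opA (-w)) = L.K.opB w := by
  unfold KD.opA KD.opB
  refine L.fm_sl4 fun s => ?_
  refine L.fm_opt ?_ fun h => ?_
  · rw [L.flip_M, L.flip_M, show -1 - (-w - 1) = w by omega, show -1 - -w = w - 1 by omega]
  · have h1 := and_l h
    have := L.flip_tM (s := s) (y := -w - 1) (by rw [show -1 - (-w - 1) = w by omega]; exact h1)
    rw [show -1 - (-w - 1) = w by omega] at this
    exact this

lemma flip_opB (w : ℤ) : L.fm (L.flip.K.opB (-w)) = L.K.opA w := by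
  unfold KD.opA KD.opB
  refine L.fm_ls4 fun s => ?_
  refine L.fm_opt ?_ fun h => ?_
  · rw [L.flip_M, L.flip_M, show -1 - (-w - 1) = w by omega, show -1 - -w = w - 1 by omega]
  · have h1 := and_l h
    have := L.flip_tM (s := s) (y := -w) (by rw [show -1 - -w = w - 1 by omega]; exact h1)
    rw [show -1 - -w = w - 1 by omega] at this
    exact this

lemma flip_clA (u : ℤ) : L.fm (L.flip.K.clA (-u)) = L.K.clB u := by
  unfold KD.clA KD.clB
  refine L.fm_ls4 fun s => ?_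
  refine L.fm_opt ?_ fun h => ?_
  · rw [L.flip_M, L.flip_M, show -1 - (-u - 1) = u by omega, show -1 - -u = u - 1 by omega]
  · have h1 := and_l h
    have := L.flip_tM (s := s) (y := -u) (by rw [show -1 - -u = u - 1 by omega]; exact h1)
    rw [show -1 - -u = u - 1 by omega] at this
    exact this

lemma flip_clB (u : ℤ) : L.fm (L.flip.K.clB (-u)) = L.K.clA u := by
  unfold KD.clA KD.clB
  refine L.fm_sl4 fun s => ?_
  refine L.fm_opt ?_ fun h => ?_
  · rw [L.flip_M, L.flip_M, show -1 - (-u - 1) = u by omega, show -1 - -u = u - 1 by omega]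
  · have h1 := and_l h
    have := L.flip_tM (s := s) (y := -u - 1) (by rw [show -1 - (-u - 1) = u by omega]; exact h1)
    rw [show -1 - (-u - 1) = u by omega] at this
    exact this

lemma opt_comm {α : Type*} {b b' : Bool} {x y : α} (h : b = true → b' = true → False) :
    opt b x ++ opt b' y = opt b' y ++ opt b x := by
  cases b <;> cases b'
  · rfl
  · rfl
  · rfl
  · exact (h rfl rfl).elim

lemma opt_reverse {α : Type*} {b : Bool} {x : α} : (opt b x).reverse = opt b x := by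
  cases b <;> rfl

lemma cn2_cs1 {y : ℤ} (h : L.K.cn 2 y = true) (h' : L.K.cs 1 y = true) : False := by
  simp only [K] at h h'
  rw [dec_iff] at h h'
  obtain ⟨v, hv, h⟩ := h
  obtain ⟨v', hv', h'⟩ := h'
  rcases L.isC_cases hv h with ⟨-, -, h1⟩ | ⟨t, -, -⟩
  · rcases h1 with ⟨h1, -⟩ | ⟨-, h1⟩ <;> exact absurd h1 (by decide)
  · rcases L.isC_cases hv' h' with ⟨-, -, h1⟩ | ⟨t', -, -⟩
    · rcases h1 with ⟨-, h1⟩ | ⟨h1, -⟩ <;> exact absurd h1 (by decide)
    · have := L.ht_unique' hv hv' t t'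
      subst this
      unfold isC at h h'
      rw [h] at h'
      injection h' with h1
      exact absurd h1 (by decide)

lemma cn1_cs2 {y : ℤ} (h : L.K.cn 1 y = true) (h' : L.K.cs 2 y = true) : False := by
  simp only [K] at h h'
  rw [dec_iff] at h h'
  obtain ⟨v, hv, h⟩ := h
  obtain ⟨v', hv', h'⟩ := h'
  rcases L.isC_cases hv h with ⟨b, -, -⟩ | ⟨-, -, h1⟩
  · rcases L.isC_cases hv' h' with ⟨b', -, -⟩ | ⟨-, -, h1⟩
    · have := L.hb_unique' hv hv' b b'
      subst this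
      unfold isC at h h'
      rw [h] at h'
      injection h' with h1
      exact absurd h1 (by decide)
    · rcases h1 with ⟨h1, -⟩ | ⟨-, h1⟩ <;> exact absurd h1 (by decide)
  · rcases h1 with ⟨-, h1⟩ | ⟨h1, -⟩ <;> exact absurd h1 (by decide)

lemma flip_ct (y : ℤ) : L.fm (L.flip.K.ct y) = (L.K.ct (-1 - y)).reverse := by
  have a1 : L.fm (opt (L.flip.K.cn 1 y) (true, L.flip.K.tC 1 y)) =
      opt (L.K.cn 2 (-1 - y)) (true, L.K.tC 2 (-1 - y)) :=
    L.fm_opt (L.flip_cn 1 y) fun h => L.flip_tC (Or.inl h)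
  have a2 : L.fm (opt (L.flip.K.cs 2 y) (false, L.flip.K.tC 2 y)) =
      opt (L.K.cs 1 (-1 - y)) (false, L.K.tC 1 (-1 - y)) :=
    L.fm_opt (L.flip_cs 2 y) fun h => L.flip_tC (Or.inr h)
  have a3 : L.fm (opt (L.flip.K.cn 2 y) (true, L.flip.K.tC 2 y)) =
      opt (L.K.cn 1 (-1 - y)) (true, L.K.tC 1 (-1 - y)) :=
    L.fm_opt (L.flip_cn 2 y) fun h => L.flip_tC (Or.inl h)
  have a4 : L.fm (opt (L.flip.K.cs 1 y) (false, L.flip.K.tC 1 y)) =
      opt (L.K.cs 2 (-1 - y)) (false, L.K.tC 2 (-1 - y)) :=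
    L.fm_opt (L.flip_cs 1 y) fun h => L.flip_tC (Or.inr h)
  unfold KD.ct
  rw [fm_append, fm_append, fm_append, a1, a2, a3, a4]
  rw [List.reverse_append, List.reverse_append, List.reverse_append, opt_reverse, opt_reverse,
    opt_reverse, opt_reverse]
  rw [opt_comm (fun h h' => L.cn2_cs1 h h'), List.append_assoc,
    opt_comm (fun h h' => L.cn1_cs2 h h')]
  simp only [List.append_assoc]

lemma flip_cts (y : ℤ) (l : ℕ) :
    L.fm (L.flip.K.cts y l) = (L.K.cts (-y - l) l).reverse := by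
  induction l with
  | zero => rfl
  | succ l ih =>
    rw [ctsF_succ, fm_append, ih, flip_ct, ctsF_succ', List.reverse_append]
    congr 3
    · push_cast; ring
    · push_cast; ring

lemma flip_xw (u w : ℤ) : L.fm (L.flip.K.xw (-u) (-w)) = L.K.xw u w := by
  unfold KD.xw
  by_cases h1 : w < u
  · rw [if_neg (show ¬ -w < -u by omega), if_pos (show -u < -w by omega), if_pos h1, fm_append,
      fm_append, flip_opB, flip_clB, fm_reverse, flip_cts, List.reverse_reverse]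
    rw [show (-w - -u).toNat = (u - w).toNat by congr 1; omega]
    rw [show - -u - (((u - w).toNat : ℕ) : ℤ) = w by omega]
  · by_cases h2 : u < w
    · rw [if_pos (show -w < -u by omega), if_neg h1, if_pos h2, fm_append, fm_append, flip_opA,
        flip_clA, flip_cts]
      rw [show (-u - -w).toNat = (w - u).toNat by congr 1; omega]
      rw [show - -w - (((w - u).toNat : ℕ) : ℤ) = u by omega]
    · rw [if_neg (show ¬ -w < -u by omega), if_neg (show ¬ -u < -w by omega), if_neg h1, if_neg h2]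
      rfl

lemma sA_sB {i : ℕ} (h : L.sA i = true) (h' : L.sB i = true) : False := by
  unfold sA at h
  unfold sB at h'
  rw [decide_eq_true_eq] at h h'
  omega

section corner

variable {i j : ℕ} (hij : (i + L.m) % L.n = j % L.n)
include hij

lemma flip_s (y : ℤ) :
    L.fm (opt (L.flip.SL i) (false, L.flip.tS i) ++
      opt (L.flip.sB i && L.flip.K.fS (-y)) (false, L.flip.K.tb (-y)) ++
      opt (L.flip.sA i && L.flip.K.gS (-y)) (false, L.flip.K.tv (-y))) =
    opt (L.SL j) (false, L.tS j) ++ opt (L.sB j && L.K.fS y) (false, L.K.tb y) ++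
      opt (L.sA j && L.K.gS y) (false, L.K.tv y) := by
  have a1 : L.fm (opt (L.flip.SL i) (false, L.flip.tS i)) = opt (L.SL j) (false, L.tS j) :=
    L.fm_opt (L.flip_SL hij) fun h => L.flip_tS hij h
  have a2 : L.fm (opt (L.flip.sB i && L.flip.K.fS (-y)) (false, L.flip.K.tb (-y))) =
      opt (L.sA j && L.K.gS y) (false, L.K.tv y) := by
    refine L.fm_opt ?_ fun h => ?_
    · rw [L.flip_sB hij, L.flip_fS, neg_neg]
    · have := L.flip_tb (y := -y) (Or.inl (by rw [neg_neg]; exact and_r h))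
      rw [neg_neg] at this
      exact this
  have a3 : L.fm (opt (L.flip.sA i && L.flip.K.gS (-y)) (false, L.flip.K.tv (-y))) =
      opt (L.sB j && L.K.fS y) (false, L.K.tb y) := by
    refine L.fm_opt ?_ fun h => ?_
    · rw [L.flip_sA hij, L.flip_gS, neg_neg]
    · have := L.flip_tv (y := -y) (Or.inr (by rw [neg_neg]; exact and_r h))
      rw [neg_neg] at this
      exact this
  rw [fm_append, fm_append, a1, a2, a3, List.append_assoc, List.append_assoc,
    opt_comm (fun h h' => L.sA_sB (and_l h) (and_l h'))]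

lemma flip_nn (y : ℤ) :
    L.fm (opt (L.flip.NL i) (true, L.flip.tN i) ++
      opt (L.flip.sB i && L.flip.K.gN (-y)) (true, L.flip.K.tv (-y)) ++
      opt (L.flip.sA i && L.flip.K.fN (-y)) (true, L.flip.K.tb (-y))) =
    opt (L.NL j) (true, L.tN j) ++ opt (L.sB j && L.K.gN y) (true, L.K.tv y) ++
      opt (L.sA j && L.K.fN y) (true, L.K.tb y) := by
  have a1 : L.fm (opt (L.flip.NL i) (true, L.flip.tN i)) = opt (L.NL j) (true, L.tN j) :=
    L.fm_opt (L.flip_NL hij) fun h => L.flip_tN hij h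
  have a2 : L.fm (opt (L.flip.sB i && L.flip.K.gN (-y)) (true, L.flip.K.tv (-y))) =
      opt (L.sA j && L.K.fN y) (true, L.K.tb y) := by
    refine L.fm_opt ?_ fun h => ?_
    · rw [L.flip_sB hij, L.flip_gN, neg_neg]
    · have := L.flip_tv (y := -y) (Or.inl (by rw [neg_neg]; exact and_r h))
      rw [neg_neg] at this
      exact this
  have a3 : L.fm (opt (L.flip.sA i && L.flip.K.fN (-y)) (true, L.flip.K.tb (-y))) =
      opt (L.sB j && L.K.gN y) (true, L.K.tv y) := by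
    refine L.fm_opt ?_ fun h => ?_
    · rw [L.flip_sA hij, L.flip_fN, neg_neg]
    · have := L.flip_tb (y := -y) (Or.inr (by rw [neg_neg]; exact and_r h))
      rw [neg_neg] at this
      exact this
  rw [fm_append, fm_append, a1, a2, a3, List.append_assoc, List.append_assoc,
    opt_comm (fun h h' => L.sA_sB (and_l h) (and_l h'))]

/-- **The word of a corner of the flipped leaf.** -/
theorem flip_cw : L.fm (L.flip.cw i) = L.cw j := by
  unfold cw
  rw [fm_append, fm_append, fm_append, fm_append, L.fyu hij, L.fyw hij, L.flip_s hij,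
    L.flip_nn hij, L.flip_xw]
  have hij' := L.hijn hij
  rw [flip_n, L.flip_s hij', L.flip_nn hij']

end corner

lemma redmap {α β : Type*} {w w' : List (Bool × α)} (h : Red w w') (f : α → β) :
    Red (w.map fun z => (z.1, f z.2)) (w'.map fun z => (z.1, f z.2)) := by
  induction h with
  | refl w => exact Red.refl _
  | step u v t h ih =>
    rw [List.map_append] at ih
    rw [List.map_append, List.map_cons, List.map_cons]
    exact Red.step _ _ _ ih

/-! ## The B side from the A side -/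

/-- **D2** at the corner `i` -/
def D2 (i : ℕ) : Prop :=
  (L.IsV i → Red (L.cw i) [(true, i)]) ∧
  (∀ v, L.IsV v → L.c v % L.n = i → Red (L.cw i) [(false, v)]) ∧
  (¬ L.IsV i → (∀ v, L.IsV v → L.c v % L.n ≠ i) → Red (L.cw i) [])

/-- a property of corners that holds on the A side and at the bottom corner and that is invariant
under the flip -/
theorem of_flip {P : LC → ℕ → Prop}
    (hA : ∀ L i, i < L.n → L.m < L.n → (i = 0 ∨ L.m < i) → P L i)
    (hf : ∀ L i, i < L.n → P (flip L) i → P L (L.fl i)) {i : ℕ} (hi : i < L.n) : P L i := by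
  by_cases h : L.m < L.n ∧ (i = 0 ∨ L.m < i)
  · exact hA L i hi h.1 h.2
  · obtain ⟨u, hu, rfl⟩ := L.fl_surj hi
    have k := L.fl_cases hu
    have := L.hm
    refine hf L u hu (hA _ u hu ?_ ?_)
    · rw [flip_m, flip_n]
      omega
    · rw [flip_m]
      omega

theorem flip_D2 {i : ℕ} (hi : i < L.n) (h : L.flip.D2 i) : L.D2 (L.fl i) := by
  have e : L.fm (L.flip.cw i) = L.cw (L.fl i) := L.flip_cw (L.flip_v_mod i)
  refine ⟨fun hv => ?_, fun v hv hc => ?_, fun h1 h2 => ?_⟩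
  · have := redmap (h.1 ((L.flip_IsV hi).2 hv)) L.fl
    rw [← e]
    exact this
  · obtain ⟨u, hu, rfl⟩ := L.fl_surj hv.1
    have := redmap (h.2.1 u ((L.flip_IsV hu).2 hv) (by
      have h3 := (L.shift_mod (L.flip_c_mod u) (L.flip_v_mod i)).2
        (by rw [hc, Nat.mod_eq_of_lt (L.fl_lt i)])
      rw [flip_n, h3, Nat.mod_eq_of_lt hi])) L.fl
    rw [← e]
    exact this
  · have := redmap (h.2.2 (fun x => h1 ((L.flip_IsV hi).1 x)) (fun u hu hc => by
      have h3 := (L.shift_mod (L.flip_c_mod u) (L.flip_v_mod i)).1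
        (by rw [← hc, flip_n, Nat.mod_mod])
      exact h2 (L.fl u) ((L.flip_IsV hu.1).1 hu)
        (by rw [h3, Nat.mod_eq_of_lt (L.fl_lt i)]))) L.fl
    rw [← e]
    exact this

/-- **D2** on the A side and at the bottom corner gives D2 -/
theorem D2_of_A
    (hA : ∀ (L : LC) (i : ℕ), i < L.n → L.m < L.n → (i = 0 ∨ L.m < i) → L.D2 i) {i : ℕ}
    (hi : i < L.n) : L.D2 i :=
  L.of_flip (P := D2) hA (fun L _ hi h => L.flip_D2 hi h) hi


end LC

end Pool.Agent.MP42D
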