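import Pool.Agent.MP42.D.CombC
import Pool.Agent.MP42.D.CombO
import Pool.Agent.MP42.D.Flip

/-!
# Piece D2: the corner `0` (owner helper74)
-/

set_option autoImplicit false
set_option linter.unusedSectionVars false

namespace Pool.Agent.MP42D

namespace LC

variable (L : LC)

/-! ## Full lanes -/

lemma b0_NL {v i : ℕ} (hv : L.IsV v) (hw : L.w v % L.n = i % L.n) :
    opt (L.NL i) (true, L.tN i) = opt (L.cl v).1 (true, v) := by
  have e : L.NL i = (L.cl v).1 := by
    unfold NL
    rw [Bool.eq_iff_iff, dec_iff]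
    constructor
    · rintro ⟨v', hv', h1, h2⟩
      rw [L.uw hv hv' (hw.trans h2.symm)]
      exact h1
    · intro h
      exact ⟨v, hv, h, hw⟩
  rw [e]
  cases h : (L.cl v).1
  · rfl
  · have hx : ∃ v, L.IsV v ∧ ((L.cl v).1 = true ∧ L.w v % L.n = i % L.n) := ⟨v, hv, h, hw⟩
    have hp := L.pick_spec hx
    have : L.tN i = v := L.uw hp.1 hv (hp.2.2.trans hw.symm)
    rw [this]

lemma b0_NL0 {i : ℕ} (h : ∀ v, L.IsV v → (L.cl v).1 = true → L.w v % L.n ≠ i % L.n) :
    L.NL i = false := by
  unfold NL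
  rw [← Bool.not_eq_true, dec_iff]
  rintro ⟨v, hv, h1, h2⟩
  exact h v hv h1 h2

lemma b0_SL {v i : ℕ} (hv : L.IsV v) (hw : L.c v % L.n = i % L.n) :
    opt (L.SL i) (false, L.tS i) = opt (L.cl v).2.1 (false, v) := by
  have e : L.SL i = (L.cl v).2.1 := by
    unfold SL
    rw [Bool.eq_iff_iff, dec_iff]
    constructor
    · rintro ⟨v', hv', h1, h2⟩
      rw [L.uc hv hv' (hw.trans h2.symm)]
      exact h1
    · intro h
      exact ⟨v, hv, h, hw⟩
  rw [e]
  cases h : (L.cl v).2.1
  · rfl
  · have hx : ∃ v, L.IsV v ∧ ((L.cl v).2.1 = true ∧ L.c v % L.n = i % L.n) := ⟨v, hv, h, hw⟩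
    have hp := L.pick_spec hx
    have : L.tS i = v := L.uc hp.1 hv (hp.2.2.trans hw.symm)
    rw [this]

lemma b0_SL0 {i : ℕ} (h : ∀ v, L.IsV v → (L.cl v).2.1 = true → L.c v % L.n ≠ i % L.n) :
    L.SL i = false := by
  unfold SL
  rw [← Bool.not_eq_true, dec_iff]
  rintro ⟨v, hv, h1, h2⟩
  exact h v hv h1 h2

/-! ## `S` next to the corner `0` -/

lemma b0_c {v : ℕ} (hv : L.IsV v) (hc : L.c v % L.n = 0) :
    L.S 0 = false ∧ L.S (L.n - 1) = true := by
  have hn := L.hn
  have h1 := L.v_lt_c hv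
  have h2 := L.c_lt hv
  constructor
  · rw [← hc, L.S_mod]
    exact L.S_c v
  · have h3 : L.S (L.c v - 1) = true := L.S_run (v := v) (by omega) (by omega)
    rw [← h3]
    apply L.S_eq
    rw [mod2 h2] at hc
    rw [Nat.mod_eq_of_lt (by omega)]
    have h4 : L.c v = L.n := by
      split_ifs at hc <;> omega
    rw [h4, Nat.mod_eq_of_lt (by omega)]

lemma b0_c1 {v : ℕ} (hc : L.c v % L.n = L.n - 1) : L.S (L.n - 1) = false := by
  rw [← hc, L.S_mod]
  exact L.S_c v

lemma b0_V1 (h : L.IsV 1) : L.S 0 = false := by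
  have h1 := h.2.2
  rw [show 1 + L.n - 1 = L.n by omega, L.S_n] at h1
  exact h1

lemma b0_V0 (h : L.IsV 0) : L.S (L.n - 1) = false := by
  have h1 := h.2.2
  rwa [zero_add] at h1

/-! ## Flags -/

lemma b0_fS {v : ℕ} (hv : L.IsV v) {y : ℤ} (hy : y = L.yw 0) (h : L.isFS y v) :
    L.c v % L.n = 0 := by
  obtain ⟨X, yA, yB, h1, h2, h3⟩ := h
  have h0 := L.ty hv
  generalize L.c v % L.n = c0 at h0 ⊢
  generalize L.w v % L.n = w0 at h0
  generalize L.cl v = k at h0 h1
  cases h0 with
  | b3 h' =>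
    injection h1 with e1 e2 e3
    by_contra hcon
    have g1 := L.upc c0 (by omega) h'.cm
    have g2 := L.mB (i := 0) (j := c0) (by omega) h'.cm.le
    omega
  | _ => cases h1

lemma b0_fN {v : ℕ} (hv : L.IsV v) {y : ℤ} (hy : y = L.yu 0) (h : L.isFN y v) : v = 0 := by
  obtain ⟨X, yA, yB, h1, h2, h3⟩ := h
  have h0 := L.ty hv
  generalize L.c v % L.n = c0 at h0
  generalize L.w v % L.n = w0 at h0
  generalize L.cl v = k at h0 h1
  cases h0 with
  | b3 h' g3 g4 g5 g6 g7 =>
    rename_i v' X'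
    injection h1 with e1 e2 e3
    rcases h'.vn.lt_or_eq with hcon | hcon
    · have g1 := L.dnc v' h'.mv hcon
      have g2 := L.mA (i := v') (j := L.n) h'.mv.le hcon le_rfl
      rw [L.yu_n] at g2
      omega
    · rw [hcon, Nat.mod_self]
  | _ => cases h1

lemma b0_gN {v : ℕ} (hv : L.IsV v) {y : ℤ} (hy : y = L.yw 0) (h : L.isGN y v) : False := by
  obtain ⟨X, yA, yB, h1, h2, h3⟩ := h
  have h0 := L.ty hv
  generalize L.c v % L.n = c0 at h0
  generalize L.w v % L.n = w0 at h0
  generalize L.cl v = k at h0 h1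
  cases h0 with
  | t3 h' =>
    injection h1 with e1 e2 e3
    have e4 := h'.vm
    have e5 := h'.sg.v0
    have e6 := L.mwB (i := 0) (j := v - 1) (by omega) (by omega)
    omega
  | _ => cases h1

lemma b0_gS {v : ℕ} (hv : L.IsV v) {y : ℤ} (hy : y = L.yu 0) (h : L.isGS y v) : False := by
  obtain ⟨X, yA, yB, h1, h2, h3⟩ := h
  have h0 := L.ty hv
  generalize L.c v % L.n = c0 at h0
  generalize L.w v % L.n = w0 at h0
  generalize L.cl v = k at h0 h1
  cases h0 with
  | t3 h' =>
    injection h1 with e1 e2 e3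
    have e4 := h'.mc
    have e5 := h'.cn
    have e6 := L.muA (i := c0 + 1) (j := L.n) (by omega) (by omega) le_rfl
    rw [L.yu_n] at e6
    omega
  | _ => cases h1

lemma b0_nobv (hm : L.m = 0) {v : ℕ} (hv : L.IsV v) {X yA yB : ℤ} :
    (L.cl v).2.2 ≠ Pc.bump X yA yB ∧ (L.cl v).2.2 ≠ Pc.valley X yA yB := by
  have h0 := L.ty hv
  generalize L.c v % L.n = c0 at h0
  generalize L.w v % L.n = w0 at h0
  generalize L.cl v = k at h0
  constructor
  · intro h1
    cases h0 with
    | b3 h' => have := h'.cm; omega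
    | _ => cases h1
  · intro h1
    cases h0 with
    | t3 h' => have := h'.vm; have := h'.sg.v0; omega
    | _ => cases h1

/-- the word of the corner `0` -/
lemma b0_cw (hm : L.m < L.n) : L.cw 0 =
    opt (L.SL 0) (false, L.tS 0) ++ opt (L.sB 0 && L.K.fS (L.yw 0)) (false, L.K.tb (L.yw 0)) ++
    opt (L.NL 0) (true, L.tN 0) ++ L.K.xw (L.yu 0) (L.yw 0) ++
    opt (L.NL (L.n - 1)) (true, L.tN (L.n - 1)) ++
    opt (L.sA (L.n - 1) && L.K.fN (L.yu 0)) (true, L.K.tb (L.yu 0)) ++
    opt (L.SL (L.n - 1)) (false, L.tS (L.n - 1)) := by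
  have hn := L.hn
  have a1 : (L.sA 0 && L.K.gS (L.yw 0)) = false := by
    rcases Nat.eq_zero_or_pos L.m with h | h
    · rw [Bool.and_eq_false_iff]
      right
      rw [← Bool.not_eq_true, L.gS_iff]
      rintro ⟨v, hv, X, yA, yB, h1, -⟩
      exact (L.b0_nobv h hv).2 h1
    · rw [Bool.and_eq_false_iff]
      left
      unfold sA
      rw [Nat.zero_mod]
      exact decide_eq_false (by omega)
  have a2 : (L.sA 0 && L.K.fN (L.yw 0)) = false := by
    rcases Nat.eq_zero_or_pos L.m with h | h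
    · rw [Bool.and_eq_false_iff]
      right
      rw [← Bool.not_eq_true, L.fN_iff]
      rintro ⟨v, hv, X, yA, yB, h1, -⟩
      exact (L.b0_nobv h hv).1 h1
    · rw [Bool.and_eq_false_iff]
      left
      unfold sA
      rw [Nat.zero_mod]
      exact decide_eq_false (by omega)
  have a3 : (L.sB 0 && L.K.gN (L.yw 0)) = false := by
    rw [Bool.and_eq_false_iff]
    right
    rw [← Bool.not_eq_true, L.gN_iff]
    rintro ⟨v, hv, h⟩
    exact L.b0_gN hv rfl h
  have a4 : L.sB (L.n - 1) = false := by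
    unfold sB
    rw [Nat.mod_eq_of_lt (by omega)]
    exact decide_eq_false (by omega)
  have a5 : (L.sA (L.n - 1) && L.K.gS (L.yu 0)) = false := by
    rw [Bool.and_eq_false_iff]
    right
    rw [← Bool.not_eq_true, L.gS_iff]
    rintro ⟨v, hv, h⟩
    exact L.b0_gS hv rfl h
  unfold cw
  rw [zero_add, a1, a2, a3, a4, a5]
  simp only [Bool.false_and, opt_false, List.append_nil, List.append_assoc]

/-! ## The walls of the corner `0` -/

lemma b0_end {j : ℕ} (h1 : 0 < j) (h2 : j < L.n) {y : ℤ} (h3 : L.lo < y) (h4 : y < L.hi)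
    (h5 : L.yu j = y ∨ L.yw j = y) : y ≠ L.yu 0 ∧ y ≠ L.yw 0 := by
  have hn := L.hn
  constructor
  · intro h
    have := L.end_unique (i := 0) (j := j) (by omega) h2 h3 h4 (Or.inl h.symm) h5
    omega
  · intro h
    have := L.end_unique (i := 0) (j := j) (by omega) h2 h3 h4 (Or.inr h.symm) h5
    omega

lemma b0_tk {v : ℕ} {s : Fin 4} {y1 y2 : ℤ} (h : L.TK v s y1 y2) :
    (y1 ≠ L.yu 0 ∧ y1 ≠ L.yw 0) ∧ (y2 ≠ L.yu 0 ∧ y2 ≠ L.yw 0) := by
  have hp := TK.pos L h
  have hm := L.hm
  cases h with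
  | A0 mv cn h =>
    have := h.vc
    exact ⟨L.b0_end (by omega) cn (by omega) (by omega) (Or.inl rfl),
      L.b0_end (j := v) (by omega) (by omega) (by omega) (by omega) (Or.inr rfl)⟩
  | B0 cm h =>
    rename_i c
    have := h.vc
    have := h.v0
    exact ⟨L.b0_end (j := v) (by omega) (by omega) (by omega) (by omega) (Or.inr rfl),
      L.b0_end (j := c) (by omega) (by omega) (by omega) (by omega) (Or.inl rfl)⟩
  | ZA ma h hv =>
    rename_i a w
    have := h.aw
    have := h.wn
    exact ⟨L.b0_end (j := w) (by omega) (by omega) (by omega) (by omega) (Or.inl rfl),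
      L.b0_end (j := a) (by omega) (by omega) (by omega) (by omega) (Or.inr rfl)⟩
  | ZB wm h hv =>
    rename_i a w
    have := h.aw
    have := h.a0
    exact ⟨L.b0_end (j := a) (by omega) (by omega) (by omega) (by omega) (Or.inr rfl),
      L.b0_end (j := w) (by omega) (by omega) (by omega) (by omega) (Or.inl rfl)⟩
  | b1 h h1 h2 h3 h4 =>
    rename_i c
    have := h.mv
    exact ⟨L.b0_end (j := c + 1) (by omega) (by omega) (by omega) (by omega) (Or.inr rfl),
      L.b0_end (j := v) (by omega) (by omega) (by omega) (by omega) (Or.inr rfl)⟩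
  | b2 h h1 h2 h0 h3 h4 =>
    rename_i v c
    have := h.vn
    have := h.cm
    exact ⟨L.b0_end (j := v - 1) (by omega) (by omega) (by omega) (by omega) (Or.inl rfl),
      L.b0_end (j := c) (by omega) (by omega) (by omega) (by omega) (Or.inl rfl)⟩
  | t1 h h1 h2 h3 h4 =>
    rename_i c
    have := h.vm
    have := h.cn
    exact ⟨L.b0_end (j := c) (by omega) (by omega) (by omega) (by omega) (Or.inl rfl),
      L.b0_end (j := v - 1) (by omega) (by omega) (by omega) (by omega) (Or.inl rfl)⟩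
  | t2 h h1 h2 h0 h3 h4 =>
    rename_i c
    have := h.sg.v0
    exact ⟨L.b0_end (j := v) (by omega) (by omega) (by omega) (by omega) (Or.inr rfl),
      L.b0_end (j := c + 1) (by omega) (by omega) (by omega) (by omega) (Or.inr rfl)⟩

lemma b0_oE {b : Bool} {s : Fin 4} {y : ℤ} (h : y = L.yu 0 ∨ y = L.yw 0) : L.oE b s y = [] := by
  apply L.oE_nil
  intro v hv y1 e
  have := (L.b0_tk (L.tk hv e)).2
  rcases h with h | h
  · exact this.1 h
  · exact this.2 h

lemma b0_oS {b : Bool} {s : Fin 4} {y : ℤ} (h : y = L.yu 0 ∨ y = L.yw 0) : L.oS b s y = [] := by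
  apply L.oS_nil
  intro v hv y2 e
  have := (L.b0_tk (L.tk hv e)).1
  rcases h with h | h
  · exact this.1 h
  · exact this.2 h

lemma b0_XA (h : L.yw 0 < L.yu 0) :
    L.K.xw (L.yu 0) (L.yw 0) = L.K.cts (L.yw 0) (L.yu 0 - L.yw 0).toNat := by
  unfold KD.xw
  rw [if_pos h, opA_eq, clA_eq, L.b0_oE (Or.inr rfl), L.b0_oE (Or.inr rfl), L.b0_oE (Or.inr rfl),
    L.b0_oE (Or.inr rfl), L.b0_oS (Or.inl rfl), L.b0_oS (Or.inl rfl), L.b0_oS (Or.inl rfl),
    L.b0_oS (Or.inl rfl)]
  simp

lemma b0_XB (h : L.yu 0 < L.yw 0) :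
    L.K.xw (L.yu 0) (L.yw 0) = (L.K.cts (L.yu 0) (L.yw 0 - L.yu 0).toNat).reverse := by
  unfold KD.xw
  rw [if_neg (by omega), if_pos h, opB_eq, clB_eq, L.b0_oE (Or.inl rfl), L.b0_oE (Or.inl rfl),
    L.b0_oE (Or.inl rfl), L.b0_oE (Or.inl rfl), L.b0_oS (Or.inr rfl), L.b0_oS (Or.inr rfl),
    L.b0_oS (Or.inr rfl), L.b0_oS (Or.inr rfl)]
  simp

/-- no single letter -/
lemma b0_X0 (h : ∀ v, L.IsV v → ∀ s l y, (L.cl v).2.2 = Pc.ctc s l y →
    (L.yw 0 ≤ y ∧ y < L.yu 0) ∨ (L.yu 0 ≤ y ∧ y < L.yw 0) → False) :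
    L.K.xw (L.yu 0) (L.yw 0) = [] := by
  rcases lt_trichotomy (L.yw 0) (L.yu 0) with h1 | h1 | h1
  · rw [L.b0_XA h1]
    exact L.cts_none fun v hv s l y e h2 h3 => h v hv s l y e (Or.inl ⟨h2, h3⟩)
  · unfold KD.xw
    rw [if_neg (by omega), if_neg (by omega)]
  · rw [L.b0_XB h1, L.cts_none fun v hv s l y e h2 h3 => h v hv s l y e (Or.inr ⟨h2, h3⟩)]
    rfl

/-! ## Single letters at the corner `0` -/

/-- the single letters in an A wall of the corner `0` -/
inductive CA (y : ℤ) : ℕ → ℕ → Fin 4 → Bool → Bool × Bool × Pc → Prop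
  | b {c : ℕ} (h : L.Hb L.n c) (h1 : L.yu (c + 1) ≤ y) (h2 : y < L.yw (c + 1))
      (hy : y = max (L.yu (c + 1)) (L.yw 0)) : CA y 0 c 1 true (false, true, Pc.ctc 1 true y)
  | t {v : ℕ} (h : L.Ht v (L.n - 1)) (h3 : L.yu v < L.yu 0) (h0 : L.yw (v - 1) ≤ L.yw (L.n - 1))
      (h1 : L.yu v ≤ y) (h2 : y < L.yw v) (hy : y + 1 = min (L.yw v) (L.yu 0)) :
      CA y v (L.n - 1) 2 true (false, true, Pc.ctc 2 true y)

/-- the single letters in a B wall of the corner `0` -/
inductive CB (y : ℤ) : ℕ → ℕ → Fin 4 → Bool → Bool × Bool × Pc → Prop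
  | b {v : ℕ} (h : L.Hb v 0) (h1 : L.yw (v - 1) ≤ y) (h2 : y < L.yu (v - 1))
      (hy : y = max (L.yw (v - 1)) (L.yu 0)) :
      CB y (v % L.n) 0 2 false (true, false, Pc.ctc 2 false y)
  | t {c : ℕ} (h : L.Ht 1 c) (h1 : L.yw c ≤ y) (h2 : y < L.yu c)
      (hy : y + 1 = min (L.yu c) (L.yw 0)) : CB y 1 c 1 false (true, false, Pc.ctc 1 false y)

lemma b0_CA {v : ℕ} (hv : L.IsV v) {s : Fin 4} {l : Bool} {y : ℤ}
    (h : (L.cl v).2.2 = Pc.ctc s l y) (k1 : L.yw 0 ≤ y) (k2 : y < L.yu 0) :
    L.CA y v (L.c v % L.n) s l (L.cl v) := by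
  have hn := L.hn
  have h0 := L.ty hv
  generalize L.c v % L.n = c0 at h0 ⊢
  generalize L.w v % L.n = w0 at h0
  generalize L.cl v = k at h0 h ⊢
  cases h0 with
  | b1c h' g3 g4 g5 g6 g7 gy =>
    injection h with e1 e2 e3
    subst e1 e2 e3
    have g8 := h'.vn
    rcases g8.lt_or_eq with g | g
    · have := L.wallA_unique g (by omega) g6 g7 k1 k2
      have := h'.mv
      omega
    · subst g
      rw [Nat.mod_self]
      rw [L.yw_n] at gy
      exact CA.b h' g4 g5 gy
  | b2c h' g0 g3 g4 g5 g6 g7 gy =>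
    injection h with e1 e2 e3
    subst e1 e2 e3
    have g8 := h'.vn
    have g9 := h'.mv
    have g10 := h'.cm
    have := L.wallA_unique (j := 0) (by omega) (by omega) g4 g5 k1 k2
    omega
  | t1c h' g3 g4 g5 g6 g7 gy =>
    injection h with e1 e2 e3
    subst e1 e2 e3
    have g8 := h'.mc
    have g9 := h'.sg.v0
    have g10 := h'.vm
    have := L.wallA_unique h'.cn (by omega) g4 g5 k1 k2
    omega
  | t2c h' g0 g3 g4 g5 g6 g7 gy =>
    injection h with e1 e2 e3
    subst e1 e2 e3
    have g8 := h'.cn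
    have g9 : c0 + 1 = L.n := by
      by_contra hcon
      have := L.wallA_unique (i := c0 + 1) (j := 0) (by omega) (by omega) g6 g7 k1 k2
      omega
    have g10 : c0 = L.n - 1 := by omega
    subst g10
    rw [g9, L.yu_n] at g3 gy
    exact CA.t h' g3 g0 g4 g5 gy
  | _ => cases h

lemma b0_CB (hm : L.m < L.n) {v : ℕ} (hv : L.IsV v) {s : Fin 4} {l : Bool} {y : ℤ}
    (h : (L.cl v).2.2 = Pc.ctc s l y) (k1 : L.yu 0 ≤ y) (k2 : y < L.yw 0) :
    L.CB y v (L.c v % L.n) s l (L.cl v) := by
  have hn := L.hn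
  have h0 := L.ty hv
  generalize L.c v % L.n = c0 at h0 ⊢
  generalize L.w v % L.n = w0 at h0
  generalize L.cl v = k at h0 h ⊢
  cases h0 with
  | b1c h' g3 g4 g5 g6 g7 gy =>
    injection h with e1 e2 e3
    subst e1 e2 e3
    have g8 := h'.cm
    have := L.wallB_unique (j := 0) (by omega) (by omega) g4 g5 k1 k2
    omega
  | b2c h' g0 g3 g4 g5 g6 g7 gy =>
    injection h with e1 e2 e3
    subst e1 e2 e3
    have g10 := h'.cm
    have := L.wallB_unique (j := 0) (by omega) (by omega) g6 g7 k1 k2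
    subst this
    exact CB.b h' g4 g5 gy
  | t1c h' g3 g4 g5 g6 g7 gy =>
    injection h with e1 e2 e3
    subst e1 e2 e3
    have g9 := h'.sg.v0
    have g10 := h'.vm
    have := L.wallB_unique (j := 0) (by omega) (by omega) g6 g7 k1 k2
    have g11 : v = 1 := by omega
    subst g11
    exact CB.t h' g4 g5 gy
  | t2c h' g0 g3 g4 g5 g6 g7 gy =>
    injection h with e1 e2 e3
    subst e1 e2 e3
    have g9 := h'.sg.v0
    have g10 := h'.vm
    have := L.wallB_unique (j := 0) (by omega) (by omega) g4 g5 k1 k2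
    omega
  | _ => cases h

/-- a full lane `s` on the strip `n - 1` -/
lemma b0_E (hm : L.m < L.n) {v : ℕ} (hv : L.IsV v) (hc : L.c v % L.n = L.n - 1)
    (h : (L.cl v).2.1 = true) :
    (v = 1 ∧ L.w v % L.n = 0 ∧ L.cl v = (true, true, Pc.none) ∧ L.S 0 = false ∧
      L.S (L.n - 1) = false) ∨
    (∃ y, L.yw 0 ≤ y ∧ y < L.yu 0 ∧ L.cl v = (false, true, Pc.ctc 2 true y) ∧
      L.Ht v (L.n - 1)) := by
  have hn := L.hn
  have h0 := L.ty hv
  have hvn := hv.1
  generalize L.c v % L.n = c0 at h0 hc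
  generalize L.w v % L.n = w0 at h0 ⊢
  generalize L.cl v = k at h0 h ⊢
  cases h0 with
  | none h1 h2 h3 h4 h5 h6 =>
    subst hc
    rw [Nat.sub_add_cancel (by omega), Nat.mod_self] at h2
    subst h2
    rw [zero_add, Nat.mod_eq_of_lt (by omega)] at h3
    exact Or.inl ⟨h3, rfl, rfl, h6, h5⟩
  | A0 => cases h
  | B0 => cases h
  | ZA ma h' =>
    rename_i a
    have := h'.aw
    have := h'.wn
    omega
  | ZB wm h' =>
    rename_i a
    have := h'.aw
    have := h'.wn
    omega
  | b1 h' => have := h'.cm; omega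
  | b1c h' => have := h'.cm; omega
  | b2 h' => cases h
  | b2c h' => cases h
  | b3 h' => cases h
  | t1 h' => cases h
  | t1c h' => cases h
  | t2 h' h1 h2 => omega
  | t2c h' g0 g3 g4 g5 g6 g7 gy =>
    subst hc
    rw [Nat.sub_add_cancel (by omega), L.yu_n] at g7
    rw [Nat.sub_add_cancel (by omega), L.yw_n] at g6
    exact Or.inr ⟨_, g6, g7, rfl, h'⟩
  | t3 h' => cases h

/-- a full lane `n` on the strip `0` -/
lemma b0_F {v : ℕ} (hv : L.IsV v) (hv1 : v = 1) (h : (L.cl v).1 = true) :
    (L.c v % L.n = L.n - 1 ∧ L.cl v = (true, true, Pc.none) ∧ L.S (L.n - 1) = false) ∨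
    (∃ y, L.yu 0 ≤ y ∧ y < L.yw 0 ∧ L.cl v = (true, false, Pc.ctc 1 false y) ∧
      L.Ht v (L.c v % L.n)) := by
  have hn := L.hn
  have h0 := L.ty hv
  have hw : L.w v % L.n = 0 := by
    unfold w
    rw [hv1, show 1 + L.n - 1 = L.n by omega, Nat.mod_self]
  generalize L.w v % L.n = w0 at h0 hw
  generalize L.c v % L.n = c0 at h0 ⊢
  generalize L.cl v = k at h0 h ⊢
  cases h0 with
  | none h1 h2 h3 h4 h5 h6 =>
    left
    have : c0 = L.n - 1 := by
      by_contra hcon
      rw [Nat.mod_eq_of_lt (by omega)] at h2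
      omega
    subst this
    exact ⟨rfl, rfl, h5⟩
  | A0 => cases h
  | B0 => cases h
  | ZA ma h' => have := h'.aw; omega
  | ZB wm h' => have := h'.aw; omega
  | b1 h' => cases h
  | b1c h' => cases h
  | b2 h' => have := h'.mv; have := h'.cm; omega
  | b2c h' => have := h'.mv; have := h'.cm; omega
  | b3 h' => cases h
  | t1 h' h1 h2 => omega
  | t1c h' g3 g4 g5 g6 g7 gy =>
    right
    subst hv1
    exact ⟨_, g6, g7, rfl, h'⟩
  | t2 h' => cases h
  | t2c h' => cases h
  | t3 h' => cases h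

/-- the second full lane -/
lemma b0_D {v : ℕ} (hv : L.IsV v) (hc : L.c v % L.n = L.n - 1)
    (h : (L.cl v).2.1 = true) :
    opt (L.SL (L.n - 1)) (false, L.tS (L.n - 1)) = [(false, v)] := by
  have hn := L.hn
  rw [L.b0_SL hv (by rw [hc, Nat.mod_eq_of_lt (by omega)]), h]
  rfl

lemma b0_D0
    (h : ¬ ∃ v, L.IsV v ∧ L.c v % L.n = L.n - 1 ∧ (L.cl v).2.1 = true) :
    L.SL (L.n - 1) = false := by
  have hn := L.hn
  apply L.b0_SL0
  intro v hv h1 h2
  rw [Nat.mod_eq_of_lt (show L.n - 1 < L.n by omega)] at h2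
  exact h ⟨v, hv, h2, h1⟩

/-! ## Bumps at the corner `0` -/

/-- the piece is a bump -/
def isB : Pc → Bool
  | Pc.bump _ _ _ => true
  | _ => false

lemma b0_C2 (hm : L.m < L.n) {v : ℕ} (hv : L.IsV v) (hv0 : v = 0) :
    opt (L.sA (L.n - 1) && L.K.fN (L.yu 0)) (true, L.K.tb (L.yu 0)) =
      opt (isB (L.cl v).2.2) (true, v) := by
  have hn := L.hn
  have h0 := L.ty hv
  have hno : isB (L.cl v).2.2 = false →
      opt (L.sA (L.n - 1) && L.K.fN (L.yu 0)) (true, L.K.tb (L.yu 0)) =
      opt (isB (L.cl v).2.2) (true, v) := by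
    intro hb
    have : L.K.fN (L.yu 0) = false := by
      rw [← Bool.not_eq_true, L.fN_iff]
      rintro ⟨v', hv', h⟩
      have e := L.b0_fN hv' rfl h
      rw [← hv0] at e
      subst e
      obtain ⟨X, yA, yB, h, -⟩ := h
      rw [h] at hb
      exact Bool.noConfusion hb
    rw [this, hb, Bool.and_false]
    rfl
  generalize hc : L.c v % L.n = c0 at h0
  generalize L.w v % L.n = w0 at h0
  generalize hk : L.cl v = k at h0 hno ⊢
  cases h0 with
  | b3 h' g0 g3 gX g4 g5 =>
    rename_i v' X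
    have e1 : v' = L.n := by
      rcases h'.vn.lt_or_eq with h | h
      · rw [Nat.mod_eq_of_lt h] at hv0
        have := h'.mv
        omega
      · exact h
    subst e1
    have e2 : L.isFN (L.yu 0) (L.n % L.n) :=
      ⟨X, L.yu L.n, L.yw c0, by rw [hk], by rw [L.yu_n], by rw [← L.yu_n]; omega⟩
    have e3 : L.K.fN (L.yu 0) = true := (L.fN_iff _).2 ⟨_, hv, e2⟩
    have e4 : L.sA (L.n - 1) = true := by
      unfold sA
      rw [Nat.mod_eq_of_lt (by omega), Nat.sub_add_cancel (by omega)]
      exact decide_eq_true ⟨by omega, by omega⟩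
    rw [e3, e4, L.tb_eq hv (Or.inl e2)]
    rfl
  | _ => exact hno rfl

lemma b0_A2 {v : ℕ} (hv : L.IsV v) (hc0 : L.c v % L.n = 0) :
    opt (L.sB 0 && L.K.fS (L.yw 0)) (false, L.K.tb (L.yw 0)) =
      opt (isB (L.cl v).2.2) (false, v) := by
  have hn := L.hn
  have h0 := L.ty hv
  have hno : isB (L.cl v).2.2 = false →
      opt (L.sB 0 && L.K.fS (L.yw 0)) (false, L.K.tb (L.yw 0)) =
      opt (isB (L.cl v).2.2) (false, v) := by
    intro hb
    have : L.K.fS (L.yw 0) = false := by
      rw [← Bool.not_eq_true, L.fS_iff]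
      rintro ⟨v', hv', h⟩
      have e := L.c_unique hv' hv ((L.b0_fS hv' rfl h).trans hc0.symm)
      subst e
      obtain ⟨X, yA, yB, h, -⟩ := h
      rw [h] at hb
      exact Bool.noConfusion hb
    rw [this, hb, Bool.and_false]
    rfl
  generalize L.c v % L.n = c0 at h0 hc0
  generalize L.w v % L.n = w0 at h0
  generalize hk : L.cl v = k at h0 hno ⊢
  cases h0 with
  | b3 h' g0 g3 gX g4 g5 =>
    rename_i v' X
    subst hc0
    have e2 : L.isFS (L.yw 0) (v' % L.n) := ⟨X, L.yu v', L.yw 0, by rw [hk], le_rfl, by omega⟩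
    have e3 : L.K.fS (L.yw 0) = true := (L.fS_iff _).2 ⟨_, hv, e2⟩
    have e4 : L.sB 0 = true := by
      unfold sB
      rw [Nat.zero_mod]
      exact decide_eq_true ⟨h'.cm, by omega⟩
    rw [e3, e4, L.tb_eq hv (Or.inr e2)]
    rfl
  | _ => exact hno rfl

/-! ## The three cases -/

lemma b0_w1 {v : ℕ} (hv : L.IsV v) (h : L.w v % L.n = 0 % L.n) : v = 1 := by
  have hn := L.hn
  rw [L.w_mod hv.1, Nat.zero_mod] at h
  split_ifs at h <;> omega

lemma b0_w0 {v : ℕ} (hv : L.IsV v) (h : L.w v % L.n = (L.n - 1) % L.n) : v = 0 := by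
  have hn := L.hn
  have := hv.1
  rw [L.w_mod hv.1, Nat.mod_eq_of_lt (by omega)] at h
  split_ifs at h <;> omega

lemma b0_w0' {v : ℕ} (hv0 : v = 0) : L.w v % L.n = (L.n - 1) % L.n := by
  unfold w
  rw [hv0, zero_add]

lemma b0_w1' {v : ℕ} (hv1 : v = 1) : L.w v % L.n = 0 % L.n := by
  unfold w
  rw [hv1, show 1 + L.n - 1 = L.n by omega, Nat.mod_self, Nat.zero_mod]

theorem b0_first (hm : L.m < L.n) {v : ℕ} (hv : L.IsV v) (hv0 : v = 0) :
    Red (L.cw 0) [(true, v)] := by
  have hn := L.hn
  have S0 : L.S 0 = true := by rw [← hv0]; exact hv.2.1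
  have Sn : L.S (L.n - 1) = false := L.b0_V0 (by rw [← hv0]; exact hv)
  have A1 : L.SL 0 = false := by
    apply L.b0_SL0
    intro v' hv' h1 h2
    rw [Nat.zero_mod] at h2
    rw [(L.b0_c hv' h2).1] at S0
    exact Bool.noConfusion S0
  have A2 : (L.sB 0 && L.K.fS (L.yw 0)) = false := by
    rw [Bool.and_eq_false_iff]
    right
    rw [← Bool.not_eq_true, L.fS_iff]
    rintro ⟨v', hv', h⟩
    rw [(L.b0_c hv' (L.b0_fS hv' rfl h)).1] at S0
    exact Bool.noConfusion S0
  have B : L.NL 0 = false := by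
    apply L.b0_NL0
    intro v' hv' h1 h2
    have e := L.b0_w1 hv' h2
    rw [L.b0_V1 (by rw [← e]; exact hv')] at S0
    exact Bool.noConfusion S0
  rw [L.b0_cw hm, A1, A2, B, L.b0_NL hv (L.b0_w0' hv0), L.b0_C2 hm hv hv0]
  simp only [opt_false, List.nil_append]
  -- no single letter in a B wall
  have nB : ∀ v', L.IsV v' → ∀ s l y, (L.cl v').2.2 = Pc.ctc s l y → L.yu 0 ≤ y → y < L.yw 0 →
      False := by
    intro v' hv' s l y e h1 h2
    have cb := L.b0_CB hm hv' e h1 h2
    generalize hcc : L.c v' % L.n = c' at cb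
    generalize L.cl v' = k' at cb
    cases cb with
    | b h => rw [(L.b0_c hv' hcc).1] at S0; exact Bool.noConfusion S0
    | t h => rw [L.b0_V1 hv'] at S0; exact Bool.noConfusion S0
  by_cases hE : ∃ v, L.IsV v ∧ L.c v % L.n = L.n - 1 ∧ (L.cl v).2.1 = true
  · obtain ⟨v', hv', hc', h'⟩ := hE
    rw [L.b0_D hv' hc' h']
    rcases L.b0_E hm hv' hc' h' with ⟨-, -, -, h1, -⟩ | ⟨y', k1, k2, ecl', Ht'⟩
    · rw [h1] at S0; exact Bool.noConfusion S0
    have ca := L.b0_CA hv' (by rw [ecl']) k1 k2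
    rw [ecl', hc'] at ca
    cases ca with
    | t _ q3 q0 q1 q2 qy =>
    have h0 := L.ty hv
    have hw : L.w v % L.n = L.n - 1 := by
      rw [L.b0_w0' hv0, Nat.mod_eq_of_lt (by omega)]
    have hne : v ≠ v' := by
      have := Ht'.sg.v0
      omega
    generalize hcv : L.c v % L.n = c0 at h0
    generalize L.w v % L.n = w0 at h0 hw
    generalize hk : L.cl v = k at h0 ⊢
    have hvm := Ht'.vm
    have hv0' := Ht'.sg.v0
    have hvc := Ht'.sg.vc
    cases h0 with
    | none h1 h2 h3 h4 h5 h6 =>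
      exfalso
      have e1 : c0 + 1 = L.n - 1 := by
        rcases Nat.lt_or_ge (c0 + 1) L.n with g | g
        · rw [Nat.mod_eq_of_lt g] at h2; omega
        · rw [show c0 + 1 = L.n by omega, Nat.mod_self] at h2; omega
      have e2 := h4 (v' - 1) (by omega) (by omega) (by omega)
      rw [Ht'.sg.sv] at e2
      exact Bool.noConfusion e2
    | A0 mv cn h => exfalso; have := h.v0; omega
    | B0 cm h => exfalso; have := h.v0; omega
    | ZA ma h => exact (Ht'.notZA h ma).elim
    | ZB wm h => exfalso; omega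
    | b1 h h1 h2 =>
      exfalso
      rw [Nat.mod_eq_of_lt h2] at hv0
      have := h.mv
      omega
    | b1c h g3 g4 g5 g6 g7 gy =>
      rename_i vh y
      have e1 : vh = L.n := by
        rcases h.vn.lt_or_eq with g | g
        · rw [Nat.mod_eq_of_lt g] at hv0
          have := h.mv
          omega
        · exact g
      subst e1
      have hcc := Hb.Ht h Ht'
      have o1 : L.yu (c0 + 1) < L.yw v' := by
        rcases Nat.lt_or_ge (c0 + 1) v' with g | g
        · have := L.mB g hvm
          omega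
        · have : c0 + 1 = v' := by omega
          rw [this]
          omega
      have e2 := L.yu_n
      have e3 := L.yw_n
      rw [L.b0_XA (by omega), L.cts_set2 hv hv' hne, hk, ecl']
      · simp only [eC, opt_false, List.append_nil]
        rw [decide_eq_true (show L.yw 0 ≤ y ∧ y < L.yu 0 by omega),
          decide_eq_true (show L.yw 0 ≤ y' ∧ y' < L.yu 0 by omega)]
        simp only [isB, opt_true, opt_false, List.append_nil, List.cons_append, List.nil_append]
        exact Red.tail1 _ _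
      · intro s l z s' l' z' f1 f2 f3 f4 f5 f6
        rw [hk] at f1
        rw [ecl'] at f2
        injection f1 with i1 i2 i3
        injection f2 with j1 j2 j3
        subst i1 i2 i3 j1 j2 j3
        rcases lt_trichotomy y y' with g | g | g
        · exact Or.inl g
        · exact Or.inr ⟨g, Or.inl ⟨rfl, rfl, rfl⟩⟩
        · omega
      · intro v'' hv'' s l z f f1 f2
        have ca := L.b0_CA hv'' f f1 f2
        generalize hcc' : L.c v'' % L.n = c'' at ca
        generalize L.cl v'' = k'' at ca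
        cases ca with
        | b h => left; rw [hv0]
        | t h => right; exact L.c_unique hv'' hv' (hcc'.trans hc'.symm)
    | b2 h h1 h2 h0 g3 g4 g5 g6 =>
      rename_i vh
      exfalso
      have e1 : vh = L.n := by
        rcases h.vn.lt_or_eq with g | g
        · rw [Nat.mod_eq_of_lt g] at hv0
          have := h.mv
          omega
        · exact g
      subst e1
      have hcc := Hb.Ht h Ht'
      have := L.mwB (i := c0) (j := v' - 1) (by omega) (by omega)
      omega
    | b2c h h0 g3 g4 g5 g6 g7 gy =>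
      rename_i vh y
      exfalso
      have e1 : vh = L.n := by
        rcases h.vn.lt_or_eq with g | g
        · rw [Nat.mod_eq_of_lt g] at hv0
          have := h.mv
          omega
        · exact g
      subst e1
      have hcc := Hb.Ht h Ht'
      have := L.mwB (i := c0) (j := v' - 1) (by omega) (by omega)
      omega
    | b3 h h0 g3 gX g4 g5 =>
      rename_i vh X
      exfalso
      have e1 : vh = L.n := by
        rcases h.vn.lt_or_eq with g | g
        · rw [Nat.mod_eq_of_lt g] at hv0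
          have := h.mv
          omega
        · exact g
      subst e1
      have hcc := Hb.Ht h Ht'
      have := L.muB (i := c0 + 1) (j := v') (by omega) (by omega) hvm
      have e2 := L.yu_n
      omega
    | t1 h => exfalso; have := h.sg.v0; omega
    | t1c h => exfalso; have := h.sg.v0; omega
    | t2 h => exfalso; have := h.sg.v0; omega
    | t2c h => exfalso; have := h.sg.v0; omega
    | t3 h => exfalso; have := h.sg.v0; omega
  · rw [L.b0_D0 hE]
    simp only [opt_false, List.append_nil]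
    -- the only single letter in an A wall
    have nA : ∀ v', L.IsV v' → ∀ s l y, (L.cl v').2.2 = Pc.ctc s l y → L.yw 0 ≤ y → y < L.yu 0 →
        v' = v ∧ (L.cl v').1 = false ∧ L.cl v' = (false, true, Pc.ctc 1 true y) := by
      intro v' hv' s l y e h1 h2
      have ca := L.b0_CA hv' e h1 h2
      generalize hcc : L.c v' % L.n = c' at ca
      generalize hkk : L.cl v' = k' at ca
      cases ca with
      | b h => exact ⟨hv0.symm, rfl, rfl⟩
      | t h => exact (hE ⟨v', hv', hcc, by rw [hkk]⟩).elim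
    have X0 : (∀ y, L.cl v ≠ (false, true, Pc.ctc 1 true y)) →
        L.K.xw (L.yu 0) (L.yw 0) = [] := by
      intro hno
      apply L.b0_X0
      rintro v' hv' s l y e (⟨h1, h2⟩ | ⟨h1, h2⟩)
      · obtain ⟨i1, -, i3⟩ := nA v' hv' s l y e h1 h2
        subst i1
        exact hno y i3
      · exact nB v' hv' s l y e h1 h2
    have h0 := L.ty hv
    have hw : L.w v % L.n = L.n - 1 := by
      rw [L.b0_w0' hv0, Nat.mod_eq_of_lt (by omega)]
    generalize hcv : L.c v % L.n = c0 at h0
    generalize L.w v % L.n = w0 at h0 hw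
    generalize hk : L.cl v = k at h0 X0 ⊢
    cases h0 with
    | none h1 h2 h3 h4 h5 h6 => rw [X0 (by simp)]; exact Red.refl _
    | A0 mv cn h => exfalso; have := h.v0; omega
    | B0 cm h => exfalso; have := h.v0; omega
    | ZA ma h => rw [X0 (by simp)]; exact Red.refl _
    | ZB wm h => exfalso; omega
    | b1 h h1 h2 =>
      exfalso
      rw [Nat.mod_eq_of_lt h2] at hv0
      have := h.mv
      omega
    | b1c h g3 g4 g5 g6 g7 gy =>
      rename_i vh y
      have e1 : vh = L.n := by
        rcases h.vn.lt_or_eq with g | g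
        · rw [Nat.mod_eq_of_lt g] at hv0
          have := h.mv
          omega
        · exact g
      subst e1
      have e2 := L.yu_n
      have e3 := L.yw_n
      rw [L.b0_XA (by omega), L.cts_set1 hv, hk]
      · simp only [eC, isB, opt_false, List.append_nil]
        rw [decide_eq_true (show L.yw 0 ≤ y ∧ y < L.yu 0 by omega)]
        exact Red.refl _
      · intro v'' hv'' s l z f f1 f2
        exact (nA v'' hv'' s l z f f1 f2).1
    | b2 h h1 h2 h0 g3 => rw [X0 (by simp)]; exact Red.refl _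
    | b2c h h0 g3 => rw [X0 (by simp)]; exact Red.refl _
    | b3 h h0 g3 gX g4 g5 => rw [X0 (by simp)]; exact Red.refl _
    | t1 h => exfalso; have := h.sg.v0; omega
    | t1c h => exfalso; have := h.sg.v0; omega
    | t2 h => exfalso; have := h.sg.v0; omega
    | t2c h => exfalso; have := h.sg.v0; omega
    | t3 h => exfalso; have := h.sg.v0; omega

theorem b0_last (hm : L.m < L.n) {v : ℕ} (hv : L.IsV v) (hc : L.c v % L.n = 0) :
    Red (L.cw 0) [(false, v)] := by
  have hn := L.hn
  obtain ⟨S0, Sn⟩ := L.b0_c hv hc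
  have nV0 : ¬ L.IsV 0 := fun h => by
    rw [L.b0_V0 h] at Sn
    exact Bool.noConfusion Sn
  have C1 : L.NL (L.n - 1) = false := by
    apply L.b0_NL0
    intro v' hv' h1 h2
    have e := L.b0_w0 hv' h2
    subst e
    exact nV0 hv'
  have C2 : (L.sA (L.n - 1) && L.K.fN (L.yu 0)) = false := by
    rw [Bool.and_eq_false_iff]
    right
    rw [← Bool.not_eq_true, L.fN_iff]
    rintro ⟨v', hv', h⟩
    have e := L.b0_fN hv' rfl h
    subst e
    exact nV0 hv'
  have D : L.SL (L.n - 1) = false := by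
    apply L.b0_D0
    rintro ⟨v', hv', h1, h2⟩
    rw [L.b0_c1 h1] at Sn
    exact Bool.noConfusion Sn
  rw [L.b0_cw hm, C1, C2, D, L.b0_SL hv (by rw [hc, Nat.zero_mod]), L.b0_A2 hv hc]
  simp only [opt_false, List.append_nil]
  -- no single letter in an A wall
  have nA : ∀ v', L.IsV v' → ∀ s l y, (L.cl v').2.2 = Pc.ctc s l y → L.yw 0 ≤ y → y < L.yu 0 →
      False := by
    intro v' hv' s l y e h1 h2
    have ca := L.b0_CA hv' e h1 h2
    generalize hcc : L.c v' % L.n = c' at ca
    generalize L.cl v' = k' at ca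
    cases ca with
    | b h => exact nV0 hv'
    | t h => rw [L.b0_c1 hcc] at Sn; exact Bool.noConfusion Sn
  have h0 := L.ty hv
  by_cases hF : L.IsV 1 ∧ (L.cl 1).1 = true
  · obtain ⟨v', hv1'⟩ : ∃ v', v' = 1 := ⟨1, rfl⟩
    obtain ⟨hv', h'⟩ : L.IsV v' ∧ (L.cl v').1 = true := by rw [hv1']; exact hF
    have B : opt (L.NL 0) (true, L.tN 0) = [(true, v')] := by
      rw [L.b0_NL hv' (L.b0_w1' hv1'), h']
      rfl
    rw [B]
    rcases L.b0_F hv' hv1' h' with ⟨-, -, h1⟩ | ⟨y', k1, k2, ecl', Ht'⟩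
    · rw [h1] at Sn; exact Bool.noConfusion Sn
    have cb := L.b0_CB hm hv' (by rw [ecl']) k1 k2
    rw [ecl'] at cb
    have S1 : L.S 1 = true := by rw [← hv1']; exact hv'.2.1
    have hne : v ≠ v' := by
      rintro rfl
      have := Ht'.mc
      have := Ht'.vm
      have := Ht'.sg.v0
      omega
    generalize hcv' : L.c v' % L.n = c' at cb Ht'
    have q : L.yw c' ≤ y' ∧ y' < L.yu c' ∧ y' + 1 = min (L.yu c') (L.yw 0) := by
      cases cb with
      | t _ q1 q2 qy => exact ⟨q1, q2, qy⟩
    have hX1 : (∀ y, L.cl v ≠ (true, false, Pc.ctc 2 false y)) →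
        L.K.xw (L.yu 0) (L.yw 0) = [(false, v')] := by
      intro hno
      rw [L.b0_XB (by omega), L.cts_set1 hv', ecl']
      · simp only [eC]
        rw [decide_eq_true (show L.yu 0 ≤ y' ∧ y' < L.yw 0 by omega)]
        rfl
      · intro v'' hv'' s l z f f1 f2
        have ca := L.b0_CB hm hv'' f f1 f2
        generalize hcc' : L.c v'' % L.n = c'' at ca
        generalize hkk : L.cl v'' = k'' at ca
        cases ca with
        | b h =>
          have := L.c_unique hv'' hv (hcc'.trans hc.symm)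
          subst this
          exact (hno _ hkk).elim
        | t h => exact hv1'.symm
    generalize L.w v % L.n = w0 at h0
    generalize hc0' : L.c v % L.n = c0 at h0
    have hc0 : 0 = c0 := by rw [← hc0', hc]
    generalize hk : L.cl v = k at h0 hX1 ⊢
    cases h0 with
    | none h1 h2 h3 h4 h5 h6 =>
      exfalso
      rw [← hc0, zero_add, Nat.mod_eq_of_lt (by omega)] at h2
      subst h2
      rw [S1] at h6
      exact Bool.noConfusion h6
    | A0 mv cn h => exfalso; have := h.vc; omega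
    | B0 cm h => exfalso; have := h.vc; omega
    | ZA ma h => exact (Ht'.notZA h ma).elim
    | ZB wm h => exact (Ht'.notZB h wm).elim
    | b1 h h1 h2 =>
      rw [hX1 (by simp)]
      simp only [isB, opt_true, opt_false, List.append_nil, List.cons_append, List.nil_append]
      exact Red.tail1 _ _
    | b1c h =>
      rw [hX1 (by simp)]
      simp only [isB, opt_true, opt_false, List.append_nil, List.cons_append, List.nil_append]
      exact Red.tail1 _ _
    | b2 h h1 h2 h0 g3 g4 g5 g6 => exfalso; omega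
    | b2c h h0 g3 g4 g5 g6 g7 gy =>
      rename_i vh y
      subst hc0
      have hcc := Hb.Ht h Ht'
      have hvn := h.vn
      have o1 : L.yw (vh - 1) < L.yu c' := by
        rcases Nat.lt_or_ge c' (vh - 1) with g | g
        · have := L.mA Ht'.mc g (by omega)
          omega
        · have : c' = vh - 1 := by omega
          rw [← this]
          omega
      have hY : y ≤ y' := by omega
      rw [L.b0_XB (by omega), L.cts_set2 hv hv' hne, hk, ecl']
      · simp only [eC, opt_false]
        rw [decide_eq_true (show L.yu 0 ≤ y ∧ y < L.yw 0 by omega),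
          decide_eq_true (show L.yu 0 ≤ y' ∧ y' < L.yw 0 by omega)]
        simp only [isB, opt_true, opt_false, List.append_nil, List.cons_append, List.nil_append]
        exact Red.head1 _ _
      · intro s l z s' l' z' f1 f2 f3 f4 f5 f6
        rw [hk] at f1
        rw [ecl'] at f2
        injection f1 with i1 i2 i3
        injection f2 with j1 j2 j3
        subst i1 i2 i3 j1 j2 j3
        rcases hY.lt_or_eq with g | g
        · exact Or.inl g
        · exact Or.inr ⟨g, Or.inr ⟨rfl, rfl, rfl⟩⟩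
      · intro v'' hv'' s l z f f1 f2
        have ca := L.b0_CB hm hv'' f f1 f2
        generalize hcc' : L.c v'' % L.n = c'' at ca
        generalize L.cl v'' = k'' at ca
        cases ca with
        | b h => left; exact L.c_unique hv'' hv (hcc'.trans hc.symm)
        | t h => right; exact hv1'.symm
    | b3 h h0 g3 gX g4 g5 =>
      rw [hX1 (by simp)]
      simp only [isB, opt_true, opt_false, List.cons_append, List.nil_append]
      exact Red.tail1 _ _
    | t1 h => exfalso; have := h.mc; have := h.vm; have := h.sg.v0; omega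
    | t1c h => exfalso; have := h.mc; have := h.vm; have := h.sg.v0; omega
    | t2 h => exfalso; have := h.mc; have := h.vm; have := h.sg.v0; omega
    | t2c h => exfalso; have := h.mc; have := h.vm; have := h.sg.v0; omega
    | t3 h => exfalso; have := h.mc; have := h.vm; have := h.sg.v0; omega
  · have B : L.NL 0 = false := by
      apply L.b0_NL0
      intro v' hv' h1 h2
      have e := L.b0_w1 hv' h2
      subst e
      exact hF ⟨hv', h1⟩
    rw [B]
    simp only [opt_false, List.append_nil]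
    -- the only single letter in a B wall
    have nB : ∀ v', L.IsV v' → ∀ s l y, (L.cl v').2.2 = Pc.ctc s l y → L.yu 0 ≤ y → y < L.yw 0 →
        v' = v ∧ L.cl v' = (true, false, Pc.ctc 2 false y) := by
      intro v' hv' s l y e h1 h2
      have ca := L.b0_CB hm hv' e h1 h2
      generalize hcc : L.c v' % L.n = c' at ca
      generalize hkk : L.cl v' = k' at ca
      cases ca with
      | b h => exact ⟨L.c_unique hv' hv (hcc.trans hc.symm), rfl⟩
      | t h => exact (hF ⟨hv', by rw [hkk]⟩).elim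
    have X0 : (∀ y, L.cl v ≠ (true, false, Pc.ctc 2 false y)) →
        L.K.xw (L.yu 0) (L.yw 0) = [] := by
      intro hno
      apply L.b0_X0
      rintro v' hv' s l y e (⟨h1, h2⟩ | ⟨h1, h2⟩)
      · exact nA v' hv' s l y e h1 h2
      · obtain ⟨i1, i3⟩ := nB v' hv' s l y e h1 h2
        subst i1
        exact hno y i3
    generalize L.w v % L.n = w0 at h0
    generalize hc0' : L.c v % L.n = c0 at h0
    have hc0 : 0 = c0 := by rw [← hc0', hc]
    generalize hk : L.cl v = k at h0 X0 ⊢
    cases h0 with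
    | none h1 h2 h3 h4 h5 h6 => rw [X0 (by simp)]; exact Red.refl _
    | A0 mv cn h => exfalso; have := h.vc; omega
    | B0 cm h => exfalso; have := h.vc; omega
    | ZA ma h => rw [X0 (by simp)]; exact Red.refl _
    | ZB wm h => rw [X0 (by simp)]; exact Red.refl _
    | b1 h => rw [X0 (by simp)]; exact Red.refl _
    | b1c h => rw [X0 (by simp)]; exact Red.refl _
    | b2 h h1 h2 h0 g3 g4 g5 g6 => exfalso; omega
    | b2c h h0 g3 g4 g5 g6 g7 gy =>
      rename_i vh y
      subst hc0
      rw [L.b0_XB (by omega), L.cts_set1 hv, hk]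
      · simp only [eC, isB, opt_false, List.append_nil]
        rw [decide_eq_true (show L.yu 0 ≤ y ∧ y < L.yw 0 by omega)]
        exact Red.refl _
      · intro v'' hv'' s l z f f1 f2
        exact (nB v'' hv'' s l z f f1 f2).1
    | b3 h h0 g3 gX g4 g5 => rw [X0 (by simp)]; exact Red.refl _
    | t1 h => exfalso; have := h.mc; have := h.vm; have := h.sg.v0; omega
    | t1c h => exfalso; have := h.mc; have := h.vm; have := h.sg.v0; omega
    | t2 h => exfalso; have := h.mc; have := h.vm; have := h.sg.v0; omega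
    | t2c h => exfalso; have := h.mc; have := h.vm; have := h.sg.v0; omega
    | t3 h => exfalso; have := h.mc; have := h.vm; have := h.sg.v0; omega

theorem b0_other (hm : L.m < L.n) (nV0 : ¬ L.IsV 0)
    (nc : ∀ v, L.IsV v → L.c v % L.n ≠ 0) : Red (L.cw 0) [] := by
  have hn := L.hn
  have A1 : L.SL 0 = false := by
    apply L.b0_SL0
    intro v' hv' h1 h2
    rw [Nat.zero_mod] at h2
    exact nc v' hv' h2
  have A2 : (L.sB 0 && L.K.fS (L.yw 0)) = false := by
    rw [Bool.and_eq_false_iff]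
    right
    rw [← Bool.not_eq_true, L.fS_iff]
    rintro ⟨v', hv', h⟩
    exact nc v' hv' (L.b0_fS hv' rfl h)
  have C1 : L.NL (L.n - 1) = false := by
    apply L.b0_NL0
    intro v' hv' h1 h2
    have e := L.b0_w0 hv' h2
    subst e
    exact nV0 hv'
  have C2 : (L.sA (L.n - 1) && L.K.fN (L.yu 0)) = false := by
    rw [Bool.and_eq_false_iff]
    right
    rw [← Bool.not_eq_true, L.fN_iff]
    rintro ⟨v', hv', h⟩
    have e := L.b0_fN hv' rfl h
    subst e
    exact nV0 hv'
  rw [L.b0_cw hm, A1, A2, C1, C2]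
  simp only [opt_false, List.append_nil, List.nil_append]
  by_cases hF : L.IsV 1 ∧ (L.cl 1).1 = true
  · obtain ⟨v', hv1'⟩ : ∃ v', v' = 1 := ⟨1, rfl⟩
    obtain ⟨hv', h'⟩ : L.IsV v' ∧ (L.cl v').1 = true := by rw [hv1']; exact hF
    have B : opt (L.NL 0) (true, L.tN 0) = [(true, v')] := by
      rw [L.b0_NL hv' (L.b0_w1' hv1'), h']
      rfl
    rw [B]
    rcases L.b0_F hv' hv1' h' with ⟨h1, h2, -⟩ | ⟨y', k1, k2, ecl', Ht'⟩
    · rw [L.b0_D hv' h1 (by rw [h2]), L.b0_X0]
      · exact Red.mid1 _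
      · rintro v'' hv'' s l y e (⟨f1, f2⟩ | ⟨f1, f2⟩)
        · have ca := L.b0_CA hv'' e f1 f2
          generalize hcc : L.c v'' % L.n = c' at ca
          generalize hkk : L.cl v'' = k' at ca
          cases ca with
          | b h => exact nV0 hv''
          | t h =>
            have := L.c_unique hv'' hv' (hcc.trans h1.symm)
            subst this
            rw [h2] at hkk
            cases hkk
        · have ca := L.b0_CB hm hv'' e f1 f2
          generalize hcc : L.c v'' % L.n = c' at ca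
          generalize hkk : L.cl v'' = k' at ca
          cases ca with
          | b h => exact nc _ hv'' hcc
          | t h =>
            rw [← hv1', h2] at hkk
            cases hkk
    · have D : L.SL (L.n - 1) = false := by
        apply L.b0_D0
        rintro ⟨v'', hv'', h1, h2⟩
        rcases L.b0_E hm hv'' h1 h2 with ⟨e1, -, e2, -, -⟩ | ⟨y'', -, -, ecl'', Ht''⟩
        · rw [e1, ← hv1', ecl'] at e2
          cases e2
        · have := Ht'.uniq Ht''
          subst this
          rw [ecl'] at ecl''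
          cases ecl''
      rw [D, L.b0_XB (by omega), L.cts_set1 hv', ecl']
      · simp only [eC]
        rw [decide_eq_true (show L.yu 0 ≤ y' ∧ y' < L.yw 0 by omega)]
        exact Red.mid1 _
      · intro v'' hv'' s l z f f1 f2
        have ca := L.b0_CB hm hv'' f f1 f2
        generalize hcc' : L.c v'' % L.n = c'' at ca
        generalize hkk : L.cl v'' = k'' at ca
        cases ca with
        | b h => exact (nc _ hv'' hcc').elim
        | t h => exact hv1'.symm
  · have B : L.NL 0 = false := by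
      apply L.b0_NL0
      intro v' hv' h1 h2
      have e := L.b0_w1 hv' h2
      subst e
      exact hF ⟨hv', h1⟩
    rw [B]
    simp only [opt_false, List.nil_append]
    have nB : ∀ v', L.IsV v' → ∀ s l y, (L.cl v').2.2 = Pc.ctc s l y → L.yu 0 ≤ y → y < L.yw 0 →
        False := by
      intro v' hv' s l y e h1 h2
      have ca := L.b0_CB hm hv' e h1 h2
      generalize hcc : L.c v' % L.n = c' at ca
      generalize hkk : L.cl v' = k' at ca
      cases ca with
      | b h => exact nc _ hv' hcc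
      | t h => exact hF ⟨hv', by rw [hkk]⟩
    by_cases hE : ∃ v, L.IsV v ∧ L.c v % L.n = L.n - 1 ∧ (L.cl v).2.1 = true
    · obtain ⟨v', hv', hc', h'⟩ := hE
      rw [L.b0_D hv' hc' h']
      rcases L.b0_E hm hv' hc' h' with ⟨h1, -, h2, -, -⟩ | ⟨y', k1, k2, ecl', Ht'⟩
      · exfalso
        subst h1
        exact hF ⟨hv', by rw [h2]⟩
      rw [L.b0_XA (by omega), L.cts_set1 hv', ecl']
      · simp only [eC]
        rw [decide_eq_true (show L.yw 0 ≤ y' ∧ y' < L.yu 0 by omega)]
        exact Red.mid1 _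
      · intro v'' hv'' s l z f f1 f2
        have ca := L.b0_CA hv'' f f1 f2
        generalize hcc : L.c v'' % L.n = c'' at ca
        generalize hkk : L.cl v'' = k'' at ca
        cases ca with
        | b h => exact (nV0 hv'').elim
        | t h => exact L.c_unique hv'' hv' (hcc.trans hc'.symm)
    · rw [L.b0_D0 hE, L.b0_X0]
      · exact Red.refl _
      · rintro v' hv' s l y e (⟨h1, h2⟩ | ⟨h1, h2⟩)
        · have ca := L.b0_CA hv' e h1 h2
          generalize hcc : L.c v' % L.n = c' at ca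
          generalize hkk : L.cl v' = k' at ca
          cases ca with
          | b h => exact nV0 hv'
          | t h => exact hE ⟨v', hv', hcc, by rw [hkk]⟩
        · exact nB v' hv' s l y e h1 h2

/-- **D2** at the corner `0` -/
theorem D2_zero (hm : L.m < L.n) : L.D2 0 :=
  ⟨fun h => L.b0_first hm h rfl, fun _ hv hc => L.b0_last hm hv hc,
    fun h1 h2 => L.b0_other hm h1 h2⟩

end LC

end Pool.Agent.MP42D
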