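import Pool.Agent.MP42.D.CombA
import Pool.Agent.MP42.D.CombB

/-!
# Piece D2: the words of the corners
-/

set_option autoImplicit false
set_option linter.unusedSectionVars false

namespace Pool.Agent.MP42D

namespace LC

variable (L : LC)

theorem D2_all {i : ℕ} (hi : i < L.n) : L.D2 i := by
  refine L.D2_of_A (fun L i hi hm h => ?_) hi
  rcases h with rfl | h
  · exact L.D2_zero hm
  · exact ⟨fun hv => L.cwA_first h hi hv, fun v hv hc => L.cwA_end h hi hv hc,
      fun h1 h2 => L.cwA_other h hi h1 h2⟩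

theorem cw_firstG {v : ℕ} (hv : L.IsV v) : Red (L.cw v) [(true, v)] := (L.D2_all hv.1).1 hv

theorem cw_endG {v : ℕ} (hv : L.IsV v) {i : ℕ} (hi : i < L.n) (h : L.c v % L.n = i) :
    Red (L.cw i) [(false, v)] := (L.D2_all hi).2.1 v hv h

theorem cw_otherG {i : ℕ} (hi : i < L.n) (h1 : ¬ L.IsV i)
    (h2 : ∀ v, L.IsV v → L.c v % L.n ≠ i) : Red (L.cw i) [] := (L.D2_all hi).2.2 h1 h2

end LC

end Pool.Agent.MP42D
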