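import Pool.Agent.MP42.D.CombH5

/-!
# Piece D4: the theorem `link`
-/

set_option autoImplicit false
set_option linter.unusedSectionVars false

namespace Pool.Agent.MP42D

namespace LC

variable {L : LC}

lemma NL_at {t i : ℕ} (ht : L.IsV t) (h : (L.cl t).1 = true) (hi : L.w t % L.n = i % L.n) :
    L.NL i = true ∧ L.tN i = t := by
  have h1 : L.NL i = true := (L.NL_iff i).mpr ⟨t, ht, h, hi⟩
  obtain ⟨h2, -, h3⟩ := L.NL_tN h1
  exact ⟨h1, w_uniq h2 ht (h3.trans hi.symm)⟩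

lemma SL_at {t i : ℕ} (ht : L.IsV t) (h : (L.cl t).2.1 = true) (hi : L.c t % L.n = i % L.n) :
    L.SL i = true ∧ L.tS i = t := by
  have h1 : L.SL i = true := (L.SL_iff i).mpr ⟨t, ht, h, hi⟩
  obtain ⟨h2, -, h3⟩ := L.SL_tS h1
  exact ⟨h1, c_uniq h2 ht (h3.trans hi.symm)⟩

lemma bef_mod {i j : ℕ} (h : (j + 1) % L.n = i % L.n) : (i + L.n - 1) % L.n = j % L.n := by
  have hn := L.h_n0
  have h2 : (i + L.n - 1 + 1) ≡ (j + 1) [MOD L.n] := by
    rw [show i + L.n - 1 + 1 = i + L.n by omega]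
    change (i + L.n) % L.n = (j + 1) % L.n
    rw [Nat.add_mod_right, h]
  exact Nat.ModEq.add_right_cancel' _ h2

section

variable {V : L.K.Val L.on} {vN vS : ℕ → Prop}

lemma cwV_xw {i : ℕ} {z : Bool × ℕ × Prop} (h : z ∈ (L.K.withV V).xw (L.yu i) (L.yw i)) :
    z ∈ L.cwV V vN vS i := by
  unfold cwV
  simp only [List.mem_append]
  tauto

lemma cwV_NL {i : ℕ} (h : L.NL i = true) : (true, L.tN i, vN i) ∈ L.cwV V vN vS i := by
  unfold cwV
  simp only [List.mem_append, mem_opt]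
  tauto

lemma cwV_SL' {i : ℕ} (h : L.SL (i + L.n - 1) = true) :
    (false, L.tS (i + L.n - 1), vS (i + L.n - 1)) ∈ L.cwV V vN vS i := by
  unfold cwV
  simp only [List.mem_append, mem_opt]
  tauto

/-- the full lanes have the value of the piece -/
theorem HN_HS (hN : ∀ i, vN (i + L.n) = vN i)
    (hS : ∀ i, vS (i + L.n) = vS i)
    (h : ∀ i < L.n, ∀ t a b, (true, t, a) ∈ L.cwV V vN vS i → (false, t, b) ∈ L.cwV V vN vS i →
      (a ↔ b)) {t : ℕ} (ht : L.IsV t) :
    ((L.cl t).1 = true → (vN (L.w t) ↔ PV V vS t)) ∧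
      ((L.cl t).2.1 = true → (vS (L.c t) ↔ PV V vS t)) := by
  have hn := L.h_n0
  -- the corner `w`
  have hw : L.w t % L.n < L.n := Nat.mod_lt _ hn
  have ha : L.a t % L.n < L.n := Nat.mod_lt _ hn
  have ew : L.w t % L.n = L.w t % L.n % L.n := (Nat.mod_mod _ _).symm
  have ea : L.a t % L.n = L.a t % L.n % L.n := (Nat.mod_mod _ _).symm
  have evN : vN (L.w t % L.n) = vN (L.w t) := L.h_per vN hN _
  have eca : (L.a t % L.n + L.n - 1) % L.n = L.c t % L.n := bef_mod ea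
  have evS : vS (L.a t % L.n + L.n - 1) = vS (L.c t) := L.h_eq hS eca
  cases cls ht with
  | no h1 hc =>
    have e : PV V vS t ↔ vS (L.c t) := by
      unfold PV
      rw [hc]
    refine ⟨fun _ => ?_, fun _ => e.symm⟩
    obtain ⟨h2, h3⟩ := NL_at ht (by rw [hc]) ew
    obtain ⟨h4, h5⟩ := SL_at (i := L.a t % L.n + L.n - 1) ht (by rw [hc]) eca.symm
    have h6 := cwV_NL (V := V) (vN := vN) (vS := vS) h2
    have h7 := cwV_SL' (V := V) (vN := vN) (vS := vS) h4
    rw [h3, evN] at h6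
    rw [h5, evS, h1] at h7
    rw [e]
    exact h _ hw _ _ _ h6 h7
  | sp k hk =>
    refine ⟨fun h1 => ?_, fun h1 => ?_⟩
    · obtain ⟨a, h2⟩ := X_w (V := V) ht hk (by rw [← hk.c1]; exact h1) ew
      obtain ⟨h3, h4⟩ := NL_at ht h1 ew
      have h6 := cwV_NL (V := V) (vN := vN) (vS := vS) h3
      rw [h4, evN] at h6
      exact (h _ hw _ _ _ h6 (cwV_xw h2)).trans (PV_X vS h2)
    · obtain ⟨a, h2⟩ := X_a (V := V) ht hk (by rw [← hk.c2]; exact h1) ea
      obtain ⟨h3, h4⟩ := SL_at (i := L.a t % L.n + L.n - 1) ht h1 eca.symm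
      have h6 := cwV_SL' (V := V) (vN := vN) (vS := vS) h3
      rw [h4, evS] at h6
      exact (h _ ha _ _ _ (cwV_xw h2) h6).symm.trans (PV_X vS h2)
  | bu P C hb =>
    refine ⟨fun h1 => ?_, fun h1 => ?_⟩ <;> rw [hb.cl] at h1 <;> exact absurd h1 (by simp)
  | va C hb =>
    refine ⟨fun h1 => ?_, fun h1 => ?_⟩ <;> rw [hb.cl] at h1 <;> exact absurd h1 (by simp)

/-- all letters of a closing have the value of the piece -/
theorem cwV_PV (hN : ∀ i, vN (i + L.n) = vN i) (hS : ∀ i, vS (i + L.n) = vS i)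
    (h : ∀ i < L.n, ∀ t a b, (true, t, a) ∈ L.cwV V vN vS i → (false, t, b) ∈ L.cwV V vN vS i →
      (a ↔ b)) {i : ℕ} {x : Bool} {t : ℕ} {a : Prop} (hz : (x, t, a) ∈ L.cwV V vN vS i) :
    a ↔ PV V vS t := by
  have hn := L.h_n0
  have hNL : ∀ {i : ℕ}, L.NL i = true → (vN i ↔ PV V vS (L.tN i)) := by
    intro i h1
    obtain ⟨h2, h3, h4⟩ := L.NL_tN h1
    rw [← L.h_eq hN h4]
    exact (HN_HS hN hS h h2).1 h3
  have hSL : ∀ {i : ℕ}, L.SL i = true → (vS i ↔ PV V vS (L.tS i)) := by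
    intro i h1
    obtain ⟨h2, h3, h4⟩ := L.SL_tS h1
    rw [← L.h_eq hS h4]
    exact (HN_HS hN hS h h2).2 h3
  have e1 : L.yu (i + L.n - 1 + 1) = L.yu i := by
    rw [show i + L.n - 1 + 1 = i + L.n by omega, L.yu_per]
  unfold cwV at hz
  simp only [List.mem_append, mem_opt] at hz
  rcases hz with (((((hz | hz) | hz) | ((hz | hz) | hz)) | hz) | ((hz | hz) | hz)) |
    ((hz | hz) | hz)
  · obtain ⟨h1, h2⟩ := hz
    injection h2 with e2 e3
    injection e3 with e3 e4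
    subst e2 e3 e4
    exact hSL h1
  · obtain ⟨h1, h2⟩ := hz
    injection h2 with e2 e3
    injection e3 with e3 e4
    subst e2 e3 e4
    obtain ⟨P, C, hb, hv, -, h4⟩ := T2 h1
    have := PV_fS (V := V) vS hv hb
    rwa [← h4] at this
  · obtain ⟨h1, h2⟩ := hz
    injection h2 with e2 e3
    injection e3 with e3 e4
    subst e2 e3 e4
    obtain ⟨C, hb, hv, -, h4⟩ := T3 h1
    have := PV_gS (V := V) vS hv hb
    rwa [← h4] at this
  · obtain ⟨h1, h2⟩ := hz
    injection h2 with e2 e3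
    injection e3 with e3 e4
    subst e2 e3 e4
    exact hNL h1
  · rw [T5 i] at hz
    exact absurd hz.1 (by simp)
  · rw [T6 i] at hz
    exact absurd hz.1 (by simp)
  · exact PV_X vS hz
  · obtain ⟨h1, h2⟩ := hz
    injection h2 with e2 e3
    injection e3 with e3 e4
    subst e2 e3 e4
    exact hNL h1
  · obtain ⟨h1, h2⟩ := hz
    injection h2 with e2 e3
    injection e3 with e3 e4
    subst e2 e3 e4
    have h1' : (L.sB (i + L.n - 1) && L.K.gN (L.yu (i + L.n - 1 + 1))) = true := by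
      rw [e1]
      exact h1
    obtain ⟨C, hb, hv, -, h4⟩ := T8 h1'
    rw [e1] at hb hv h4
    have := PV_gN (V := V) vS hv hb
    rwa [← h4] at this
  · obtain ⟨h1, h2⟩ := hz
    injection h2 with e2 e3
    injection e3 with e3 e4
    subst e2 e3 e4
    have h1' : (L.sA (i + L.n - 1) && L.K.fN (L.yu (i + L.n - 1 + 1))) = true := by
      rw [e1]
      exact h1
    obtain ⟨P, C, hb, hv, -, h4⟩ := T9 h1'
    rw [e1] at hb hv h4
    have := PV_fN (V := V) vS hv hb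
    rwa [← h4] at this
  · obtain ⟨h1, h2⟩ := hz
    injection h2 with e2 e3
    injection e3 with e3 e4
    subst e2 e3 e4
    exact hSL h1
  · have h1' := T11 (L := L) (i + L.n - 1)
    rw [e1] at h1'
    rw [h1'] at hz
    exact absurd hz.1 (by simp)
  · have h1' := T12 (L := L) (i + L.n - 1)
    rw [e1] at h1'
    rw [h1'] at hz
    exact absurd hz.1 (by simp)

end

/-- **D4**: the pieces of a closing are linked -/
theorem link' (V : L.K.Val L.on) (vN vS : ℕ → Prop) (hN : ∀ i, vN (i + L.n) = vN i)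
    (hS : ∀ i, vS (i + L.n) = vS i)
    (h : ∀ i < L.n, ∀ t a b, (true, t, a) ∈ L.cwV V vN vS i → (false, t, b) ∈ L.cwV V vN vS i →
      (a ↔ b)) :
    ∀ i < L.n, ∀ j < L.n, ∀ x y t a b, (x, t, a) ∈ L.cwV V vN vS i →
      (y, t, b) ∈ L.cwV V vN vS j → (a ↔ b) := by
  intro i _ j _ x y t a b h1 h2
  exact (cwV_PV hN hS h h1).trans (cwV_PV hN hS h h2).symm

end LC

end Pool.Agent.MP42D
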