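import Pool.Agent.MP42.D.CombJ

/-!
# D3 and D7: the letters of a corner are different, their number

For every run `v` the letters `(true, v)`, `(false, v)` at a corner are located by the roles of the
corner in the run.
-/

set_option autoImplicit false
set_option linter.unusedSectionVars false

namespace Pool.Agent.MP42D

lemma count_opt (b : Bool) (a x : Bool × ℕ) :
    (opt b a).count x = if b = true ∧ a = x then 1 else 0 := by
  cases b
  · simp [opt]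
  · by_cases h : a = x
    · subst h; simp [opt]
    · simp [opt, h]

/-- sums with at most one term -/
lemma sum_le_one (l : ℕ) (g : ℕ → ℕ) (h1 : ∀ j, g j ≤ 1)
    (h2 : ∀ j k, j < l → k < l → g j ≠ 0 → g k ≠ 0 → j = k) :
    ((List.range l).map g).sum ≤ 1 := by
  induction l with
  | zero => simp
  | succ l ih =>
    rw [List.range_succ, List.map_append, List.sum_append]
    simp only [List.map_cons, List.map_nil, List.sum_cons, List.sum_nil, add_zero]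
    have h3 := ih fun j k hj hk => h2 j k (by omega) (by omega)
    by_cases h4 : g l = 0
    · omega
    · have h5 : ((List.range l).map g).sum = 0 := by
        rw [List.sum_eq_zero_iff]
        intro x hx
        obtain ⟨j, hj, rfl⟩ := List.mem_map.1 hx
        rw [List.mem_range] at hj
        by_contra h6
        have := h2 j l (by omega) (by omega) h6 h4
        omega
      have := h1 l
      omega

namespace LC

variable (L : LC)

/-! ## Ends of the tracks and roles -/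

variable {L} in
/-- the ends of a track and the roles of their corners -/
lemma Ty.role {v c w : ℕ} {x1 x2 : Bool} {s : Fin 4} {y1 y2 : ℤ}
    (h : L.Ty v c w (x1, x2, Pc.trk s y1 y2)) :
    ((∃ p, p < L.n ∧ y1 = L.yu p ∧ L.yw p < L.yu p ∧ (p = c ∨ p = w) ∧ (x2 = true → p = w)) ∨
      ∃ p, p < L.n ∧ y1 = L.yw p ∧ L.yu p < L.yw p ∧ (p = v ∨ p = (c + 1) % L.n) ∧
        (x1 = true → p = (c + 1) % L.n)) ∧
    ((∃ q, q < L.n ∧ y2 = L.yw q ∧ L.yw q < L.yu q ∧ (q = v ∨ q = (c + 1) % L.n) ∧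
      (x1 = true → q = (c + 1) % L.n)) ∨
      ∃ q, q < L.n ∧ y2 = L.yu q ∧ L.yu q < L.yw q ∧ (q = c ∨ q = w) ∧ (x2 = true → q = w)) := by
  have hm := L.hm
  have m1 : ∀ x, x < L.n → x % L.n = x := fun x hx => Nat.mod_eq_of_lt hx
  cases h with
  | A0 mv cn hs t1 t2 t3 =>
    have e1 := hs.vc
    exact ⟨Or.inl ⟨c, cn, rfl, L.dnc c (by omega) cn, Or.inl rfl, fun h => by cases h⟩,
      Or.inl ⟨v, by omega, rfl, L.dnc v mv (by omega), Or.inl rfl, fun h => by cases h⟩⟩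
  | B0 cm hs t1 t2 t3 =>
    have e1 := hs.vc
    have e2 := hs.v0
    exact ⟨Or.inr ⟨v, by omega, rfl, L.upc v e2 (by omega), Or.inl rfl, fun h => by cases h⟩,
      Or.inr ⟨c, by omega, rfl, L.upc c (by omega) cm, Or.inl rfl, fun h => by cases h⟩⟩
  | @ZA v a w ma hz hv t1 t2 t3 =>
    have e1 := hz.aw
    have e2 := hz.wn
    have e3 : (a - 1 + 1) % L.n = a := by rw [show a - 1 + 1 = a by omega, m1 a (by omega)]
    rw [e3]
    exact ⟨Or.inl ⟨w, e2, rfl, L.dnc w (by omega) e2, Or.inr rfl, fun _ => rfl⟩,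
      Or.inl ⟨a, by omega, rfl, L.dnc a ma (by omega), Or.inr rfl, fun _ => rfl⟩⟩
  | @ZB v a w wm hz hv t1 t2 t3 =>
    have e1 := hz.aw
    have e2 := hz.a0
    have e3 : (a - 1 + 1) % L.n = a := by rw [show a - 1 + 1 = a by omega, m1 a (by omega)]
    rw [e3]
    exact ⟨Or.inr ⟨a, by omega, rfl, L.upc a e2 (by omega), Or.inr rfl, fun _ => rfl⟩,
      Or.inr ⟨w, by omega, rfl, L.upc w (by omega) wm, Or.inr rfl, fun _ => rfl⟩⟩
  | @b1 v c hb h1 h2 h3 t1 t2 t3 =>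
    have e3 : (c + 1) % L.n = c + 1 := m1 _ (by omega)
    rw [e3, m1 v h2]
    exact ⟨Or.inr ⟨c + 1, by omega, rfl, L.upc (c + 1) (by omega) h1, Or.inr rfl,
      fun h => by cases h⟩,
      Or.inl ⟨v, h2, rfl, L.dnc v hb.mv h2, Or.inl rfl, fun h => by cases h⟩⟩
  | @b2 v c hb h1 h2 h3 h4 t1 t2 t3 =>
    have e0 := hb.vn
    have e1 := hb.cm
    exact ⟨Or.inl ⟨v - 1, by omega, rfl, L.dnc (v - 1) (by omega) (by omega), Or.inr rfl,
      fun h => by cases h⟩,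
      Or.inr ⟨c, by omega, rfl, L.upc c h2 hb.cm, Or.inl rfl, fun h => by cases h⟩⟩
  | t1 ht h1 h2 h3 t1 t2 t3 =>
    have e0 := ht.vm
    have e1 := ht.cn
    exact ⟨Or.inl ⟨c, e1, rfl, L.dnc c h1 e1, Or.inl rfl, fun h => by cases h⟩,
      Or.inr ⟨v - 1, by omega, rfl, L.upc (v - 1) (by omega) (by omega), Or.inr rfl,
        fun h => by cases h⟩⟩
  | t2 ht h1 h2 h3 h4 t1 t2 t3 =>
    have e0 := ht.sg.v0
    have e1 := ht.mc
    have e3 : (c + 1) % L.n = c + 1 := m1 _ (by omega)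
    rw [e3]
    exact ⟨Or.inr ⟨v, by omega, rfl, L.upc v e0 h1, Or.inl rfl, fun h => by cases h⟩,
      Or.inl ⟨c + 1, h2, rfl, L.dnc (c + 1) (by omega) h2, Or.inr rfl, fun h => by cases h⟩⟩

variable {L} in
/-- the walls of a single letter and the roles of their corners -/
lemma Ty.roleC {v c w : ℕ} {x1 x2 l : Bool} {s : Fin 4} {y : ℤ}
    (h : L.Ty v c w (x1, x2, Pc.ctc s l y)) :
    (∃ p, p < L.n ∧ L.yw p ≤ y ∧ y < L.yu p ∧
      if l then (p = v ∨ p = (c + 1) % L.n) ∧ x1 = false else (p = c ∨ p = w) ∧ x2 = false) ∧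
    ∃ p, p < L.n ∧ L.yu p ≤ y ∧ y < L.yw p ∧
      if l then (p = v ∨ p = (c + 1) % L.n) ∧ x1 = false else (p = c ∨ p = w) ∧ x2 = false := by
  have hm := L.hm
  have hn := L.hn
  have m1 : ∀ x, x < L.n → x % L.n = x := fun x hx => Nat.mod_eq_of_lt hx
  have m2 : ∀ x, x % L.n < L.n := fun x => Nat.mod_lt _ (by omega)
  cases h with
  | @b1c v c y hb h3 h4 h5 h6 h7 hy =>
    have e1 := hb.cm
    have e2 := hb.mv
    have e4 := hb.vn
    have e3 : (c + 1) % L.n = c + 1 := m1 _ (by omega)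
    refine ⟨⟨v % L.n, m2 _, by rw [yw_mod]; exact h6, by rw [yu_mod]; exact h7, ?_⟩,
      ⟨c + 1, by omega, h4, h5, ?_⟩⟩
    · rw [if_pos rfl]
      exact ⟨Or.inl rfl, rfl⟩
    · rw [if_pos rfl]
      exact ⟨Or.inr e3.symm, rfl⟩
  | @b2c v c y hb h0 h3 h4 h5 h6 h7 hy =>
    have e1 := hb.cm
    have e2 := hb.mv
    have e4 := hb.vn
    refine ⟨⟨v - 1, by omega, h4, h5, ?_⟩, ⟨c, by omega, h6, h7, ?_⟩⟩
    · rw [if_neg Bool.false_ne_true]
      exact ⟨Or.inr rfl, rfl⟩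
    · rw [if_neg Bool.false_ne_true]
      exact ⟨Or.inl rfl, rfl⟩
  | t1c ht h3 h4 h5 h6 h7 hy =>
    have e1 := ht.cn
    have e2 := ht.vm
    have e3 := ht.mc
    have e4 := ht.sg.v0
    refine ⟨⟨c, by omega, h4, h5, ?_⟩, ⟨v - 1, by omega, h6, h7, ?_⟩⟩
    · rw [if_neg Bool.false_ne_true]
      exact ⟨Or.inl rfl, rfl⟩
    · rw [if_neg Bool.false_ne_true]
      exact ⟨Or.inr rfl, rfl⟩
  | t2c ht h0 h3 h4 h5 h6 h7 hy =>
    have e1 := ht.cn
    have e2 := ht.vm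
    have e3 := ht.mc
    refine ⟨⟨(c + 1) % L.n, m2 _, by rw [yw_mod]; exact h6, by rw [yu_mod]; exact h7, ?_⟩,
      ⟨v, by omega, h4, h5, ?_⟩⟩
    · rw [if_pos rfl]
      exact ⟨Or.inr rfl, rfl⟩
    · rw [if_pos rfl]
      exact ⟨Or.inl rfl, rfl⟩

lemma a_mod (v : ℕ) : L.a v % L.n = (L.c v % L.n + 1) % L.n := by
  unfold a
  rw [Nat.mod_add_mod]

/-- the letter `n` of the run `v` at the corner `i` in the middle word -/
def RN (i v : ℕ) : Prop :=
  (i = v ∨ i = L.a v % L.n) ∧ ((L.cl v).1 = true → i = L.a v % L.n)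

/-- the letter `s` of the run `v` at the corner `i` in the middle word -/
def RS (i v : ℕ) : Prop :=
  (i = L.c v % L.n ∨ i = L.w v % L.n) ∧ ((L.cl v).2.1 = true → i = L.w v % L.n)

lemma trk_ty {v : ℕ} (hv : L.IsV v) {s : Fin 4} {y1 y2 : ℤ}
    (h : (L.cl v).2.2 = Pc.trk s y1 y2) :
    L.Ty v (L.c v % L.n) (L.w v % L.n) ((L.cl v).1, (L.cl v).2.1, Pc.trk s y1 y2) := by
  rw [← h]
  exact L.ty hv

lemma ctc_ty {v : ℕ} (hv : L.IsV v) {s : Fin 4} {l : Bool} {y : ℤ}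
    (h : (L.cl v).2.2 = Pc.ctc s l y) :
    L.Ty v (L.c v % L.n) (L.w v % L.n) ((L.cl v).1, (L.cl v).2.1, Pc.ctc s l y) := by
  rw [← h]
  exact L.ty hv

lemma trk_opA {v : ℕ} (hv : L.IsV v) {s : Fin 4} {y1 y2 : ℤ}
    (h : (L.cl v).2.2 = Pc.trk s y1 y2) {i : ℕ} (hi : i < L.n) (hA : L.yw i < L.yu i)
    (hy : y2 = L.yw i) : L.RN i v := by
  have T := L.trk_ty hv h
  have hl := T.lt
  obtain ⟨-, ⟨q, h1, h2, h3, h4, h5⟩ | ⟨q, h1, h2, h3, h4, h5⟩⟩ := T.role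
  · have : i = q := L.end_unique (y := y2) hi h1 (by omega) hl.2.2 (Or.inr hy.symm)
      (Or.inr h2.symm)
    subst this
    unfold RN
    rw [a_mod]
    exact ⟨h4, h5⟩
  · have : i = q := L.end_unique (y := y2) hi h1 (by omega) hl.2.2 (Or.inr hy.symm)
      (Or.inl h2.symm)
    subst this
    omega

lemma trk_opB {v : ℕ} (hv : L.IsV v) {s : Fin 4} {y1 y2 : ℤ}
    (h : (L.cl v).2.2 = Pc.trk s y1 y2) {i : ℕ} (hi : i < L.n) (hA : L.yu i < L.yw i)
    (hy : y1 = L.yw i) : L.RN i v := by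
  have T := L.trk_ty hv h
  have hl := T.lt
  obtain ⟨⟨q, h1, h2, h3, h4, h5⟩ | ⟨q, h1, h2, h3, h4, h5⟩, -⟩ := T.role
  · have : i = q := L.end_unique (y := y1) hi h1 (by omega) (by omega) (Or.inr hy.symm)
      (Or.inl h2.symm)
    subst this
    omega
  · have : i = q := L.end_unique (y := y1) hi h1 (by omega) (by omega) (Or.inr hy.symm)
      (Or.inr h2.symm)
    subst this
    unfold RN
    rw [a_mod]
    exact ⟨h4, h5⟩

lemma trk_clA {v : ℕ} (hv : L.IsV v) {s : Fin 4} {y1 y2 : ℤ}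
    (h : (L.cl v).2.2 = Pc.trk s y1 y2) {i : ℕ} (hi : i < L.n) (hA : L.yw i < L.yu i)
    (hy : y1 = L.yu i) : L.RS i v := by
  have T := L.trk_ty hv h
  have hl := T.lt
  obtain ⟨⟨q, h1, h2, h3, h4, h5⟩ | ⟨q, h1, h2, h3, h4, h5⟩, -⟩ := T.role
  · have : i = q := L.end_unique (y := y1) hi h1 (by omega) (by omega) (Or.inl hy.symm)
      (Or.inl h2.symm)
    subst this
    exact ⟨h4, h5⟩
  · have : i = q := L.end_unique (y := y1) hi h1 (by omega) (by omega) (Or.inl hy.symm)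
      (Or.inr h2.symm)
    subst this
    omega

lemma trk_clB {v : ℕ} (hv : L.IsV v) {s : Fin 4} {y1 y2 : ℤ}
    (h : (L.cl v).2.2 = Pc.trk s y1 y2) {i : ℕ} (hi : i < L.n) (hA : L.yu i < L.yw i)
    (hy : y2 = L.yu i) : L.RS i v := by
  have T := L.trk_ty hv h
  have hl := T.lt
  obtain ⟨-, ⟨q, h1, h2, h3, h4, h5⟩ | ⟨q, h1, h2, h3, h4, h5⟩⟩ := T.role
  · have : i = q := L.end_unique (y := y2) hi h1 (by omega) (by omega) (Or.inl hy.symm)
      (Or.inr h2.symm)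
    subst this
    omega
  · have : i = q := L.end_unique (y := y2) hi h1 (by omega) (by omega) (Or.inl hy.symm)
      (Or.inl h2.symm)
    subst this
    exact ⟨h4, h5⟩

lemma ctc_N {v : ℕ} (hv : L.IsV v) {s : Fin 4} {y : ℤ}
    (h : (L.cl v).2.2 = Pc.ctc s true y) {i : ℕ} (hi : i < L.n)
    (hy : (L.yw i ≤ y ∧ y < L.yu i) ∨ (L.yu i ≤ y ∧ y < L.yw i)) : L.RN i v := by
  have T := L.ctc_ty hv h
  obtain ⟨⟨p, h1, h2, h3, h4⟩, ⟨p', h1', h2', h3', h4'⟩⟩ := T.roleC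
  rw [if_pos rfl] at h4 h4'
  unfold RN
  rw [a_mod]
  rcases hy with hy | hy
  · have : i = p := L.wallA_unique hi h1 hy.1 hy.2 h2 h3
    subst this
    exact ⟨h4.1, fun h => by rw [h4.2] at h; cases h⟩
  · have : i = p' := L.wallB_unique hi h1' hy.1 hy.2 h2' h3'
    subst this
    exact ⟨h4'.1, fun h => by rw [h4'.2] at h; cases h⟩

lemma ctc_S {v : ℕ} (hv : L.IsV v) {s : Fin 4} {y : ℤ}
    (h : (L.cl v).2.2 = Pc.ctc s false y) {i : ℕ} (hi : i < L.n)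
    (hy : (L.yw i ≤ y ∧ y < L.yu i) ∨ (L.yu i ≤ y ∧ y < L.yw i)) : L.RS i v := by
  have T := L.ctc_ty hv h
  obtain ⟨⟨p, h1, h2, h3, h4⟩, ⟨p', h1', h2', h3', h4'⟩⟩ := T.roleC
  rw [if_neg Bool.false_ne_true] at h4 h4'
  unfold RS
  rcases hy with hy | hy
  · have : i = p := L.wallA_unique hi h1 hy.1 hy.2 h2 h3
    subst this
    exact ⟨h4.1, fun h => by rw [h4.2] at h; cases h⟩
  · have : i = p' := L.wallB_unique hi h1' hy.1 hy.2 h2' h3'
    subst this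
    exact ⟨h4'.1, fun h => by rw [h4'.2] at h; cases h⟩

/-! ## Tags -/

lemma tM_is {s : Fin 4} {y : ℤ} (h : L.K.M s y = true) : L.IsV (L.K.tM s y) ∧
    L.isM s y (L.K.tM s y) := by
  obtain ⟨v, hv, hM⟩ := (L.M_iff s y).1 h
  rw [L.tM_eq hv hM]
  exact ⟨hv, hM⟩

lemma C_uniq {s : Fin 4} {l : Bool} {y : ℤ} (h : ∃ v, L.IsV v ∧ L.isC s l y v) :
    L.IsV (L.K.tC s y) ∧ L.isC s l y (L.K.tC s y) := by
  obtain ⟨h1, h2⟩ := L.pickA_spec (p := fun v => L.isC s true y v ∨ L.isC s false y v)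
    (by
      obtain ⟨v, hv, hC⟩ := h
      cases l
      · exact ⟨v, hv, Or.inr hC⟩
      · exact ⟨v, hv, Or.inl hC⟩)
  refine ⟨h1, ?_⟩
  have h3 : L.isC s true y (L.K.tC s y) ∨ L.isC s false y (L.K.tC s y) := h2
  cases l
  · rcases h3 with h3 | h3
    · exact (L.C_C ((L.cn_iff s y).2 ⟨_, h1, h3⟩) ((L.cs_iff s y).2 h)).elim
    · exact h3
  · rcases h3 with h3 | h3
    · exact h3
    · exact (L.C_C ((L.cn_iff s y).2 h) ((L.cs_iff s y).2 ⟨_, h1, h3⟩)).elim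

lemma fN_is {y : ℤ} (h : L.K.fN y = true) : L.IsV (L.K.tb y) ∧ L.isFN y (L.K.tb y) := by
  obtain ⟨v, hv, hM⟩ := (L.fN_iff y).1 h
  rw [L.tb_eq hv (Or.inl hM)]
  exact ⟨hv, hM⟩

lemma fS_is {y : ℤ} (h : L.K.fS y = true) : L.IsV (L.K.tb y) ∧ L.isFS y (L.K.tb y) := by
  obtain ⟨v, hv, hM⟩ := (L.fS_iff y).1 h
  rw [L.tb_eq hv (Or.inr hM)]
  exact ⟨hv, hM⟩

lemma gS_is {y : ℤ} (h : L.K.gS y = true) : L.IsV (L.K.tv y) ∧ L.isGS y (L.K.tv y) := by
  obtain ⟨v, hv, hM⟩ := (L.gS_iff y).1 h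
  rw [L.tv_eq hv (Or.inl hM)]
  exact ⟨hv, hM⟩

lemma gN_is {y : ℤ} (h : L.K.gN y = true) : L.IsV (L.K.tv y) ∧ L.isGN y (L.K.tv y) := by
  obtain ⟨v, hv, hM⟩ := (L.gN_iff y).1 h
  rw [L.tv_eq hv (Or.inr hM)]
  exact ⟨hv, hM⟩

/-! ## Counting -/

lemma four_le {a : Fin 4 → ℕ} (h1 : ∀ s, a s ≤ 1) (h2 : ∀ s s', a s ≠ 0 → a s' ≠ 0 → s = s') :
    a 0 + a 1 + a 2 + a 3 ≤ 1 := by
  have k01 : a 0 = 0 ∨ a 1 = 0 := by
    by_contra hcc
    rw [not_or] at hcc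
    exact absurd (h2 0 1 hcc.1 hcc.2) (by decide)
  have k02 : a 0 = 0 ∨ a 2 = 0 := by
    by_contra hcc
    rw [not_or] at hcc
    exact absurd (h2 0 2 hcc.1 hcc.2) (by decide)
  have k03 : a 0 = 0 ∨ a 3 = 0 := by
    by_contra hcc
    rw [not_or] at hcc
    exact absurd (h2 0 3 hcc.1 hcc.2) (by decide)
  have k12 : a 1 = 0 ∨ a 2 = 0 := by
    by_contra hcc
    rw [not_or] at hcc
    exact absurd (h2 1 2 hcc.1 hcc.2) (by decide)
  have k13 : a 1 = 0 ∨ a 3 = 0 := by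
    by_contra hcc
    rw [not_or] at hcc
    exact absurd (h2 1 3 hcc.1 hcc.2) (by decide)
  have k23 : a 2 = 0 ∨ a 3 = 0 := by
    by_contra hcc
    rw [not_or] at hcc
    exact absurd (h2 2 3 hcc.1 hcc.2) (by decide)
  have := h1 0
  have := h1 1
  have := h1 2
  have := h1 3
  omega

lemma four_ne {a : Fin 4 → ℕ} (h : a 0 + a 1 + a 2 + a 3 ≠ 0) : ∃ s, a s ≠ 0 := by
  by_contra hcc
  push Not at hcc
  rw [hcc 0, hcc 1, hcc 2, hcc 3] at h
  exact h rfl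

lemma count_sl4 {f : Fin 4 → List (Bool × ℕ)} {x : Bool × ℕ} :
    (sl4 f).count x = (f 0).count x + (f 1).count x + (f 2).count x + (f 3).count x := by
  simp only [sl4, List.count_append]

lemma count_ls4 {f : Fin 4 → List (Bool × ℕ)} {x : Bool × ℕ} :
    (ls4 f).count x = (f 0).count x + (f 1).count x + (f 2).count x + (f 3).count x := by
  simp only [ls4, List.count_append]
  omega

/-- the track of the run `v` is over `y - 1` and not over `y` -/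
lemma end_of {s : Fin 4} {y : ℤ} {v : ℕ}
    (h : (L.K.M s (y - 1) && !L.K.M s y) = true ∧ L.K.tM s (y - 1) = v) :
    L.IsV v ∧ ∃ y1, (L.cl v).2.2 = Pc.trk s y1 y := by
  obtain ⟨h1, rfl⟩ := h
  rw [Bool.and_eq_true] at h1
  obtain ⟨h2, h3⟩ := h1
  obtain ⟨hv, y1, y2, k1, k2, k3⟩ := L.tM_is h2
  refine ⟨hv, y1, ?_⟩
  have : y2 = y := by
    by_contra hcc
    have h4 : L.K.M s y = true := (L.M_iff s y).2 ⟨_, hv, y1, y2, k1, by omega, by omega⟩
    rw [h4] at h3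
    exact absurd h3 (by decide)
  rw [this] at k1
  exact k1

/-- the track of the run `v` is over `y` and not over `y - 1` -/
lemma start_of {s : Fin 4} {y : ℤ} {v : ℕ}
    (h : (L.K.M s y && !L.K.M s (y - 1)) = true ∧ L.K.tM s y = v) :
    L.IsV v ∧ ∃ y2, (L.cl v).2.2 = Pc.trk s y y2 := by
  obtain ⟨h1, rfl⟩ := h
  rw [Bool.and_eq_true] at h1
  obtain ⟨h2, h3⟩ := h1
  obtain ⟨hv, y1, y2, k1, k2, k3⟩ := L.tM_is h2
  refine ⟨hv, y2, ?_⟩
  have : y1 = y := by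
    by_contra hcc
    have h4 : L.K.M s (y - 1) = true := (L.M_iff s _).2 ⟨_, hv, y1, y2, k1, by omega, by omega⟩
    rw [h4] at h3
    exact absurd h3 (by decide)
  rw [this] at k1
  exact k1

lemma pair_eq {b b' : Bool} {t v : ℕ} : (b, t) = (b', v) ↔ b = b' ∧ t = v := Prod.mk_inj

lemma opA_T (v : ℕ) (w : ℤ) : (L.K.opA w).count (true, v) ≤ 1 ∧
    ((L.K.opA w).count (true, v) ≠ 0 → L.IsV v ∧ ∃ s y1, (L.cl v).2.2 = Pc.trk s y1 w) := by
  unfold KD.opA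
  rw [count_sl4]
  simp only [count_opt, pair_eq, true_and]
  set a : Fin 4 → ℕ := fun s => if (L.K.M s (w - 1) && !L.K.M s w) = true ∧
    L.K.tM s (w - 1) = v then 1 else 0 with ha
  have h1 : ∀ s, a s ≤ 1 := fun s => by simp only [ha]; split_ifs <;> omega
  have h2 : ∀ s, a s ≠ 0 → L.IsV v ∧ ∃ y1, (L.cl v).2.2 = Pc.trk s y1 w := by
    intro s hs
    simp only [ha] at hs
    split_ifs at hs with h
    · exact L.end_of h
    · exact absurd rfl hs
  refine ⟨four_le h1 fun s s' hs hs' => ?_, fun h => ?_⟩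
  · obtain ⟨-, y1, k1⟩ := h2 s hs
    obtain ⟨-, y2, k2⟩ := h2 s' hs'
    rw [k1] at k2
    cases k2
    rfl
  · obtain ⟨s, hs⟩ := four_ne (a := a) h
    obtain ⟨k0, y1, k1⟩ := h2 s hs
    exact ⟨k0, s, y1, k1⟩

lemma opB_T (v : ℕ) (w : ℤ) : (L.K.opB w).count (true, v) ≤ 1 ∧
    ((L.K.opB w).count (true, v) ≠ 0 → L.IsV v ∧ ∃ s y2, (L.cl v).2.2 = Pc.trk s w y2) := by
  unfold KD.opB
  rw [count_ls4]
  simp only [count_opt, pair_eq, true_and]
  set a : Fin 4 → ℕ := fun s => if (L.K.M s w && !L.K.M s (w - 1)) = true ∧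
    L.K.tM s w = v then 1 else 0 with ha
  have h1 : ∀ s, a s ≤ 1 := fun s => by simp only [ha]; split_ifs <;> omega
  have h2 : ∀ s, a s ≠ 0 → L.IsV v ∧ ∃ y1, (L.cl v).2.2 = Pc.trk s w y1 := by
    intro s hs
    simp only [ha] at hs
    split_ifs at hs with h
    · exact L.start_of h
    · exact absurd rfl hs
  refine ⟨four_le h1 fun s s' hs hs' => ?_, fun h => ?_⟩
  · obtain ⟨-, y1, k1⟩ := h2 s hs
    obtain ⟨-, y2, k2⟩ := h2 s' hs'
    rw [k1] at k2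
    cases k2
    rfl
  · obtain ⟨s, hs⟩ := four_ne (a := a) h
    obtain ⟨k0, y1, k1⟩ := h2 s hs
    exact ⟨k0, s, y1, k1⟩

lemma clA_F (v : ℕ) (u : ℤ) : (L.K.clA u).count (false, v) ≤ 1 ∧
    ((L.K.clA u).count (false, v) ≠ 0 → L.IsV v ∧ ∃ s y2, (L.cl v).2.2 = Pc.trk s u y2) := by
  unfold KD.clA
  rw [count_ls4]
  simp only [count_opt, pair_eq, true_and]
  set a : Fin 4 → ℕ := fun s => if (L.K.M s u && !L.K.M s (u - 1)) = true ∧
    L.K.tM s u = v then 1 else 0 with ha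
  have h1 : ∀ s, a s ≤ 1 := fun s => by simp only [ha]; split_ifs <;> omega
  have h2 : ∀ s, a s ≠ 0 → L.IsV v ∧ ∃ y1, (L.cl v).2.2 = Pc.trk s u y1 := by
    intro s hs
    simp only [ha] at hs
    split_ifs at hs with h
    · exact L.start_of h
    · exact absurd rfl hs
  refine ⟨four_le h1 fun s s' hs hs' => ?_, fun h => ?_⟩
  · obtain ⟨-, y1, k1⟩ := h2 s hs
    obtain ⟨-, y2, k2⟩ := h2 s' hs'
    rw [k1] at k2
    cases k2
    rfl
  · obtain ⟨s, hs⟩ := four_ne (a := a) h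
    obtain ⟨k0, y1, k1⟩ := h2 s hs
    exact ⟨k0, s, y1, k1⟩

lemma clB_F (v : ℕ) (u : ℤ) : (L.K.clB u).count (false, v) ≤ 1 ∧
    ((L.K.clB u).count (false, v) ≠ 0 → L.IsV v ∧ ∃ s y1, (L.cl v).2.2 = Pc.trk s y1 u) := by
  unfold KD.clB
  rw [count_sl4]
  simp only [count_opt, pair_eq, true_and]
  set a : Fin 4 → ℕ := fun s => if (L.K.M s (u - 1) && !L.K.M s u) = true ∧
    L.K.tM s (u - 1) = v then 1 else 0 with ha
  have h1 : ∀ s, a s ≤ 1 := fun s => by simp only [ha]; split_ifs <;> omega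
  have h2 : ∀ s, a s ≠ 0 → L.IsV v ∧ ∃ y1, (L.cl v).2.2 = Pc.trk s y1 u := by
    intro s hs
    simp only [ha] at hs
    split_ifs at hs with h
    · exact L.end_of h
    · exact absurd rfl hs
  refine ⟨four_le h1 fun s s' hs hs' => ?_, fun h => ?_⟩
  · obtain ⟨-, y1, k1⟩ := h2 s hs
    obtain ⟨-, y2, k2⟩ := h2 s' hs'
    rw [k1] at k2
    cases k2
    rfl
  · obtain ⟨s, hs⟩ := four_ne (a := a) h
    obtain ⟨k0, y1, k1⟩ := h2 s hs
    exact ⟨k0, s, y1, k1⟩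

lemma opA_F (v : ℕ) (w : ℤ) : (L.K.opA w).count (false, v) = 0 := by
  unfold KD.opA
  rw [count_sl4]
  simp only [count_opt, pair_eq, reduceCtorEq, false_and, and_false, if_false]

lemma opB_F (v : ℕ) (w : ℤ) : (L.K.opB w).count (false, v) = 0 := by
  unfold KD.opB
  rw [count_ls4]
  simp only [count_opt, pair_eq, reduceCtorEq, false_and, and_false, if_false]

lemma clA_T (v : ℕ) (w : ℤ) : (L.K.clA w).count (true, v) = 0 := by
  unfold KD.clA
  rw [count_ls4]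
  simp only [count_opt, pair_eq, reduceCtorEq, false_and, and_false, if_false]

lemma clB_T (v : ℕ) (w : ℤ) : (L.K.clB w).count (true, v) = 0 := by
  unfold KD.clB
  rw [count_sl4]
  simp only [count_opt, pair_eq, reduceCtorEq, false_and, and_false, if_false]

lemma ct_T (v : ℕ) (y : ℤ) : (L.K.ct y).count (true, v) ≤ 1 ∧
    ((L.K.ct y).count (true, v) ≠ 0 → L.IsV v ∧ ∃ s, (L.cl v).2.2 = Pc.ctc s true y) := by
  unfold KD.ct
  simp only [List.count_append, count_opt, pair_eq, reduceCtorEq, false_and, and_false, if_false,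
    add_zero, true_and]
  have h2 : ∀ s, L.K.cn s y = true ∧ L.K.tC s y = v →
      L.IsV v ∧ (L.cl v).2.2 = Pc.ctc s true y := by
    rintro s ⟨h, rfl⟩
    exact L.C_uniq ((L.cn_iff s y).1 h)
  have h3 : (L.K.cn 1 y = true ∧ L.K.tC 1 y = v) → (L.K.cn 2 y = true ∧ L.K.tC 2 y = v) →
      False := by
    intro h h'
    have k1 := (h2 1 h).2
    have k2 := (h2 2 h').2
    rw [k1] at k2
    cases k2
  split_ifs with g1 g2 g2
  · exact (h3 g1 g2).elim
  · exact ⟨by omega, fun _ => ⟨(h2 1 g1).1, 1, (h2 1 g1).2⟩⟩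
  · exact ⟨by omega, fun _ => ⟨(h2 2 g2).1, 2, (h2 2 g2).2⟩⟩
  · exact ⟨by omega, fun h => absurd rfl h⟩

lemma ct_F (v : ℕ) (y : ℤ) : (L.K.ct y).count (false, v) ≤ 1 ∧
    ((L.K.ct y).count (false, v) ≠ 0 → L.IsV v ∧ ∃ s, (L.cl v).2.2 = Pc.ctc s false y) := by
  unfold KD.ct
  simp only [List.count_append, count_opt, pair_eq, reduceCtorEq, false_and, and_false, if_false,
    add_zero, zero_add, true_and]
  have h2 : ∀ s, L.K.cs s y = true ∧ L.K.tC s y = v →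
      L.IsV v ∧ (L.cl v).2.2 = Pc.ctc s false y := by
    rintro s ⟨h, rfl⟩
    exact L.C_uniq ((L.cs_iff s y).1 h)
  have h3 : (L.K.cs 2 y = true ∧ L.K.tC 2 y = v) → (L.K.cs 1 y = true ∧ L.K.tC 1 y = v) →
      False := by
    intro h h'
    have k1 := (h2 2 h).2
    have k2 := (h2 1 h').2
    rw [k1] at k2
    cases k2
  split_ifs with g1 g2 g2
  · exact (h3 g1 g2).elim
  · exact ⟨by omega, fun _ => ⟨(h2 2 g1).1, 2, (h2 2 g1).2⟩⟩
  · exact ⟨by omega, fun _ => ⟨(h2 1 g2).1, 1, (h2 1 g2).2⟩⟩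
  · exact ⟨by omega, fun h => absurd rfl h⟩

lemma cts_X (b : Bool) (v : ℕ)
    (hc : ∀ y, (L.K.ct y).count (b, v) ≤ 1 ∧
      ((L.K.ct y).count (b, v) ≠ 0 → L.IsV v ∧ ∃ s, (L.cl v).2.2 = Pc.ctc s b y))
    (y : ℤ) (l : ℕ) : (L.K.cts y l).count (b, v) ≤ 1 ∧
    ((L.K.cts y l).count (b, v) ≠ 0 → L.IsV v ∧ ∃ s y', (L.cl v).2.2 = Pc.ctc s b y' ∧
      y ≤ y' ∧ y' < y + l) := by
  have e : (L.K.cts y l).count (b, v) =
      ((List.range l).map fun j : ℕ => (L.K.ct (y + (j : ℤ))).count (b, v)).sum := by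
    unfold KD.cts
    rw [List.count_flatMap]
    rfl
  rw [e]
  refine ⟨sum_le_one l _ (fun j => (hc _).1) fun j k hj hk h1 h2 => ?_, fun h => ?_⟩
  · obtain ⟨-, s, k1⟩ := (hc _).2 h1
    obtain ⟨-, s', k2⟩ := (hc _).2 h2
    rw [k1] at k2
    simp only [Pc.ctc.injEq] at k2
    omega
  · have : ∃ j, j < l ∧ (L.K.ct (y + (j : ℤ))).count (b, v) ≠ 0 := by
      by_contra hcc
      push Not at hcc
      apply h
      rw [List.sum_eq_zero_iff]
      intro x hx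
      obtain ⟨j, hj, rfl⟩ := List.mem_map.1 hx
      exact hcc j (List.mem_range.1 hj)
    obtain ⟨j, hj, h1⟩ := this
    obtain ⟨k0, s, k1⟩ := (hc _).2 h1
    exact ⟨k0, s, _, k1, by omega, by omega⟩

/-- the letters `n` of a run in the middle word -/
lemma xw_T {i : ℕ} (hi : i < L.n) (v : ℕ) : (L.K.xw (L.yu i) (L.yw i)).count (true, v) ≤ 1 ∧
    ((L.K.xw (L.yu i) (L.yw i)).count (true, v) ≠ 0 → L.IsV v ∧ L.RN i v ∧
      ((∃ s y1 y2, (L.cl v).2.2 = Pc.trk s y1 y2) ∨ ∃ s l y, (L.cl v).2.2 = Pc.ctc s l y)) := by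
  unfold KD.xw
  split_ifs with h1 h2
  · simp only [List.count_append, L.clA_T, add_zero]
    obtain ⟨a1, a2⟩ := L.opA_T v (L.yw i)
    obtain ⟨b1, b2⟩ := L.cts_X true v (L.ct_T v) (L.yw i) (L.yu i - L.yw i).toNat
    constructor
    · by_contra hcc
      obtain ⟨-, s, y1, k1⟩ := a2 (by omega)
      obtain ⟨-, s', y', k2, -⟩ := b2 (by omega)
      rw [k1] at k2
      cases k2
    · intro h
      by_cases ha : (L.K.opA (L.yw i)).count (true, v) = 0
      · obtain ⟨k0, s', y', k2, k3, k4⟩ := b2 (by omega)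
        exact ⟨k0, L.ctc_N k0 k2 hi (Or.inl ⟨k3, by omega⟩), Or.inr ⟨_, _, _, k2⟩⟩
      · obtain ⟨k0, s, y1, k1⟩ := a2 ha
        exact ⟨k0, L.trk_opA k0 k1 hi h1 rfl, Or.inl ⟨_, _, _, k1⟩⟩
  · simp only [List.count_append, L.clB_T, add_zero, List.count_reverse]
    obtain ⟨a1, a2⟩ := L.opB_T v (L.yw i)
    obtain ⟨b1, b2⟩ := L.cts_X true v (L.ct_T v) (L.yu i) (L.yw i - L.yu i).toNat
    constructor
    · by_contra hcc
      obtain ⟨-, s, y1, k1⟩ := a2 (by omega)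
      obtain ⟨-, s', y', k2, -⟩ := b2 (by omega)
      rw [k1] at k2
      cases k2
    · intro h
      by_cases ha : (L.K.opB (L.yw i)).count (true, v) = 0
      · obtain ⟨k0, s', y', k2, k3, k4⟩ := b2 (by omega)
        exact ⟨k0, L.ctc_N k0 k2 hi (Or.inr ⟨k3, by omega⟩), Or.inr ⟨_, _, _, k2⟩⟩
      · obtain ⟨k0, s, y1, k1⟩ := a2 ha
        exact ⟨k0, L.trk_opB k0 k1 hi h2 rfl, Or.inl ⟨_, _, _, k1⟩⟩
  · simp

/-- the letters `s` of a run in the middle word -/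
lemma xw_F {i : ℕ} (hi : i < L.n) (v : ℕ) : (L.K.xw (L.yu i) (L.yw i)).count (false, v) ≤ 1 ∧
    ((L.K.xw (L.yu i) (L.yw i)).count (false, v) ≠ 0 → L.IsV v ∧ L.RS i v ∧
      ((∃ s y1 y2, (L.cl v).2.2 = Pc.trk s y1 y2) ∨ ∃ s l y, (L.cl v).2.2 = Pc.ctc s l y)) := by
  unfold KD.xw
  split_ifs with h1 h2
  · simp only [List.count_append, L.opA_F, zero_add]
    obtain ⟨a1, a2⟩ := L.clA_F v (L.yu i)
    obtain ⟨b1, b2⟩ := L.cts_X false v (L.ct_F v) (L.yw i) (L.yu i - L.yw i).toNat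
    constructor
    · by_contra hcc
      obtain ⟨-, s, y1, k1⟩ := a2 (by omega)
      obtain ⟨-, s', y', k2, -⟩ := b2 (by omega)
      rw [k1] at k2
      cases k2
    · intro h
      by_cases ha : (L.K.clA (L.yu i)).count (false, v) = 0
      · obtain ⟨k0, s', y', k2, k3, k4⟩ := b2 (by omega)
        exact ⟨k0, L.ctc_S k0 k2 hi (Or.inl ⟨k3, by omega⟩), Or.inr ⟨_, _, _, k2⟩⟩
      · obtain ⟨k0, s, y1, k1⟩ := a2 ha
        exact ⟨k0, L.trk_clA k0 k1 hi h1 rfl, Or.inl ⟨_, _, _, k1⟩⟩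
  · simp only [List.count_append, L.opB_F, zero_add, List.count_reverse]
    obtain ⟨a1, a2⟩ := L.clB_F v (L.yu i)
    obtain ⟨b1, b2⟩ := L.cts_X false v (L.ct_F v) (L.yu i) (L.yw i - L.yu i).toNat
    constructor
    · by_contra hcc
      obtain ⟨-, s, y1, k1⟩ := a2 (by omega)
      obtain ⟨-, s', y', k2, -⟩ := b2 (by omega)
      rw [k1] at k2
      cases k2
    · intro h
      by_cases ha : (L.K.clB (L.yu i)).count (false, v) = 0
      · obtain ⟨k0, s', y', k2, k3, k4⟩ := b2 (by omega)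
        exact ⟨k0, L.ctc_S k0 k2 hi (Or.inr ⟨k3, by omega⟩), Or.inr ⟨_, _, _, k2⟩⟩
      · obtain ⟨k0, s, y1, k1⟩ := a2 ha
        exact ⟨k0, L.trk_clB k0 k1 hi h2 rfl, Or.inl ⟨_, _, _, k1⟩⟩
  · simp

/-! ## The roles of a corner are different -/

lemma a_rng {v : ℕ} (hv : L.IsV v) : v + 2 ≤ L.a v ∧ L.a v + 1 ≤ v + L.n := by
  have h1 := L.c_gt hv
  have h2 := L.c_le hv
  unfold a
  omega

lemma mod_of_rng {v x : ℕ} (hv : v < L.n) (h1 : v ≤ x) (h2 : x < v + L.n) :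
    x % L.n = if x < L.n then x else x - L.n := by
  split_ifs with h
  · exact Nat.mod_eq_of_lt h
  · rw [Nat.mod_eq_sub_mod (by omega), Nat.mod_eq_of_lt (by omega)]

lemma rng_inj {v x y : ℕ} (hv : v < L.n) (h1 : v ≤ x) (h2 : x < v + L.n) (h3 : v ≤ y)
    (h4 : y < v + L.n) (h : x % L.n = y % L.n) : x = y := by
  rw [L.mod_of_rng hv h1 h2, L.mod_of_rng hv h3 h4] at h
  split_ifs at h <;> omega

lemma a_ne_v {v : ℕ} (hv : L.IsV v) : L.a v % L.n ≠ v := by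
  intro h
  have h1 := L.a_rng hv
  have h2 := hv.1
  have h3 : L.a v = v := L.rng_inj h2 (by omega) (by omega) (le_refl _) (by omega)
    (by rw [h, Nat.mod_eq_of_lt h2])
  omega

lemma w_ne_v {v : ℕ} (hv : L.IsV v) : L.w v % L.n ≠ v := by
  intro h
  have h2 := hv.1
  have hn := L.hn
  have h1 : L.w v = v + L.n - 1 := rfl
  have h3 : L.w v = v := L.rng_inj h2 (by omega) (by omega) (le_refl _) (by omega)
    (by rw [h, Nat.mod_eq_of_lt h2])
  omega

lemma c_ne_a {v : ℕ} (hv : L.IsV v) : L.c v % L.n ≠ L.a v % L.n := by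
  intro h
  have h1 := L.a_rng hv
  have h2 := hv.1
  have h4 := L.c_gt hv
  have h5 : L.a v = L.c v + 1 := rfl
  have h3 : L.c v = L.a v := L.rng_inj h2 (by omega) (by omega) (by omega) (by omega) h
  omega

lemma c_ne_w {v : ℕ} (hv : L.IsV v) : L.c v % L.n ≠ L.w v % L.n := by
  intro h
  have h1 := L.a_rng hv
  have h2 := hv.1
  have h4 := L.c_gt hv
  have hn := L.hn
  have h6 := L.c_le hv
  have h5 : L.w v = v + L.n - 1 := rfl
  have h3 : L.c v = L.w v := L.rng_inj h2 (by omega) (by omega) (by omega) (by omega) h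
  omega

lemma a_ne_w {v : ℕ} (hv : L.IsV v) (h : (L.cl v).2.2 ≠ Pc.none) :
    L.a v % L.n ≠ L.w v % L.n := by
  intro h'
  have h1 := L.a_rng hv
  have h2 := hv.1
  have hn := L.hn
  have h5 : L.w v = v + L.n - 1 := rfl
  have h3 : L.a v = L.w v := L.rng_inj h2 (by omega) (by omega) (by omega) (by omega) h'
  apply h
  unfold cl
  rw [if_pos h3]

lemma pred_mod {i v : ℕ} (hi : i < L.n) (hv : v < L.n) (h : L.w v % L.n = (i + L.n - 1) % L.n) :
    i = v := by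
  have hn := L.hn
  have h1 : (L.w v + 1) % L.n = (i + L.n - 1 + 1) % L.n := by
    rw [Nat.add_mod, h, ← Nat.add_mod]
  have h5 : L.w v = v + L.n - 1 := rfl
  rw [h5, show v + L.n - 1 + 1 = v + L.n by omega, show i + L.n - 1 + 1 = i + L.n by omega,
    Nat.add_mod_right, Nat.add_mod_right, Nat.mod_eq_of_lt hv, Nat.mod_eq_of_lt hi] at h1
  exact h1.symm

lemma pred_mod' {i v : ℕ} (hi : i < L.n) (h : L.c v % L.n = (i + L.n - 1) % L.n) :
    i = L.a v % L.n := by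
  have hn := L.hn
  have h1 : (L.c v + 1) % L.n = (i + L.n - 1 + 1) % L.n := by
    rw [Nat.add_mod, h, ← Nat.add_mod]
  rw [show i + L.n - 1 + 1 = i + L.n by omega, Nat.add_mod_right, Nat.mod_eq_of_lt hi] at h1
  exact h1.symm

/-! ## Flags -/

lemma yu_pred {i : ℕ} (hi : i < L.n) : L.yu ((i + L.n - 1) % L.n + 1) = L.yu i := by
  apply L.yu_eq
  rw [Nat.mod_add_mod, show i + L.n - 1 + 1 = i + L.n by omega, Nat.add_mod_right]

lemma fl2 {i : ℕ} (hi : i < L.n) (h : (L.sB i && L.K.gN (L.yw i)) = true) : False := by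
  rw [Bool.and_eq_true] at h
  obtain ⟨k1, k2⟩ := L.sB_lt hi h.1
  obtain ⟨hv, X, yA, yB, h3, h4, h5⟩ := L.gN_is h.2
  obtain ⟨c, q2, q3, q4, q5, q6, q7, q8, q9, q10, q11, q12, q13⟩ := L.vlI hv h3
  have e1 := q2.vm
  have e2 := q2.sg.v0
  have := L.stripB' (i := i) (c := L.K.tv (L.yw i) - 1) (y := L.yw i) k1 (by omega) le_rfl
    (by omega) (by omega) (by rw [show L.K.tv (L.yw i) - 1 + 1 = L.K.tv (L.yw i) by omega]; omega)
  rw [← this] at q12
  omega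

lemma fl3 {i : ℕ} (hi : i < L.n) (h : (L.sA i && L.K.fN (L.yw i)) = true) : False := by
  rw [Bool.and_eq_true] at h
  obtain ⟨k1, k2⟩ := L.sA_lt hi h.1
  obtain ⟨hv, X, yA, yB, h3, h4, h5⟩ := L.fN_is h.2
  obtain ⟨v', c, q1, q2, q3, q4, q5, q6, q7, q8, q9, q10, q11, q12, q13⟩ := L.bpI hv h3
  have e1 := q2.mv
  have e2 := q2.vn
  have := L.stripA (i := i) (c := v' - 1) (y := L.yw i) k1 hi (by omega) (by omega) (by omega)
    le_rfl (by rw [show v' - 1 + 1 = v' by omega]; omega) (by omega)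
  rw [← this] at q12
  omega

lemma fl6 {i v : ℕ} (hi : i < L.n)
    (h : (L.sB (i + L.n - 1) && L.K.gN (L.yu i)) = true ∧ L.K.tv (L.yu i) = v) :
    L.IsV v ∧ i = v ∧ ∃ Y yA yB, (L.cl v).2.2 = Pc.valley Y yA yB := by
  obtain ⟨h, hv0⟩ := h
  rw [Bool.and_eq_true, ← L.sB_mod] at h
  obtain ⟨hj, k2⟩ := L.sB_lt (Nat.mod_lt _ L.n_pos) h.1
  obtain ⟨hv, X, yA, yB, h3, h4, h5⟩ := L.gN_is h.2
  rw [hv0] at hv h3
  obtain ⟨c, q2, q3, q4, q5, q6, q7, q8, q9, q10, q11, q12, q13⟩ := L.vlI hv h3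
  have e1 := q2.vm
  have e2 := q2.sg.v0
  rw [L.yu_pred hi] at k2
  refine ⟨hv, L.pred_mod hi hv.1 ?_, X, yA, yB, h3⟩
  rw [q4]
  exact (L.stripB' (i := (i + L.n - 1) % L.n) (c := v - 1) (y := L.yu i) hj (by omega) (by omega)
    (by rw [L.yu_pred hi]) (by omega) (by rw [show v - 1 + 1 = v by omega]; omega)).symm

lemma fl7 {i v : ℕ} (hi : i < L.n)
    (h : (L.sA (i + L.n - 1) && L.K.fN (L.yu i)) = true ∧ L.K.tb (L.yu i) = v) :
    L.IsV v ∧ i = v ∧ ∃ Y yA yB, (L.cl v).2.2 = Pc.bump Y yA yB := by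
  obtain ⟨h, hv0⟩ := h
  have hjn := Nat.mod_lt (i + L.n - 1) L.n_pos
  rw [Bool.and_eq_true, ← L.sA_mod] at h
  obtain ⟨hj, k2⟩ := L.sA_lt hjn h.1
  obtain ⟨hv, X, yA, yB, h3, h4, h5⟩ := L.fN_is h.2
  rw [hv0] at hv h3
  obtain ⟨v', c, q1, q2, q3, q4, q5, q6, q7, q8, q9, q10, q11, q12, q13⟩ := L.bpI hv h3
  have e1 := q2.mv
  have e2 := q2.vn
  rw [L.yu_pred hi] at k2
  refine ⟨hv, L.pred_mod hi hv.1 ?_, X, yA, yB, h3⟩
  rw [q4]
  exact (L.stripA (i := (i + L.n - 1) % L.n) (c := v' - 1) (y := L.yu i) hj hjn (by omega)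
    (by omega) (by rw [L.yu_pred hi]) k2.le (by rw [show v' - 1 + 1 = v' by omega]; omega)
    (by omega)).symm

lemma gl2 {i v : ℕ} (hi : i < L.n)
    (h : (L.sB i && L.K.fS (L.yw i)) = true ∧ L.K.tb (L.yw i) = v) :
    L.IsV v ∧ i = L.c v % L.n ∧ ∃ Y yA yB, (L.cl v).2.2 = Pc.bump Y yA yB := by
  obtain ⟨h, hv0⟩ := h
  rw [Bool.and_eq_true] at h
  obtain ⟨hj, k2⟩ := L.sB_lt hi h.1
  obtain ⟨hv, X, yA, yB, h3, h4, h5⟩ := L.fS_is h.2
  rw [hv0] at hv h3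
  obtain ⟨v', c, q1, q2, q3, q4, q5, q6, q7, q8, q9, q10, q11, q12, q13⟩ := L.bpI hv h3
  refine ⟨hv, ?_, X, yA, yB, h3⟩
  rw [q3]
  exact L.stripB' (i := i) (c := c) (y := L.yw i) hj q2.cm le_rfl (by omega) (by omega)
    (by omega)

lemma gl3 {i v : ℕ} (hi : i < L.n)
    (h : (L.sA i && L.K.gS (L.yw i)) = true ∧ L.K.tv (L.yw i) = v) :
    L.IsV v ∧ i = L.c v % L.n ∧ ∃ Y yA yB, (L.cl v).2.2 = Pc.valley Y yA yB := by
  obtain ⟨h, hv0⟩ := h
  rw [Bool.and_eq_true] at h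
  obtain ⟨hj, k2⟩ := L.sA_lt hi h.1
  obtain ⟨hv, X, yA, yB, h3, h4, h5⟩ := L.gS_is h.2
  rw [hv0] at hv h3
  obtain ⟨c, q2, q3, q4, q5, q6, q7, q8, q9, q10, q11, q12, q13⟩ := L.vlI hv h3
  refine ⟨hv, ?_, X, yA, yB, h3⟩
  rw [q3]
  exact L.stripA (i := i) (c := c) (y := L.yw i) hj hi q2.mc q2.cn (by omega) le_rfl (by omega)
    (by omega)

lemma gl6 {i : ℕ} (hi : i < L.n)
    (h : (L.sB (i + L.n - 1) && L.K.fS (L.yu i)) = true) : False := by
  rw [Bool.and_eq_true, ← L.sB_mod] at h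
  obtain ⟨hj, k2⟩ := L.sB_lt (Nat.mod_lt _ L.n_pos) h.1
  obtain ⟨hv, X, yA, yB, h3, h4, h5⟩ := L.fS_is h.2
  obtain ⟨v', c, q1, q2, q3, q4, q5, q6, q7, q8, q9, q10, q11, q12, q13⟩ := L.bpI hv h3
  rw [L.yu_pred hi] at k2
  have := L.stripB' (i := (i + L.n - 1) % L.n) (c := c) (y := L.yu i) hj q2.cm (by omega)
    (by rw [L.yu_pred hi]) (by omega) (by omega)
  rw [← this, L.yu_pred hi] at q13
  omega

lemma gl7 {i : ℕ} (hi : i < L.n)
    (h : (L.sA (i + L.n - 1) && L.K.gS (L.yu i)) = true) : False := by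
  have hjn := Nat.mod_lt (i + L.n - 1) L.n_pos
  rw [Bool.and_eq_true, ← L.sA_mod] at h
  obtain ⟨hj, k2⟩ := L.sA_lt hjn h.1
  obtain ⟨hv, X, yA, yB, h3, h4, h5⟩ := L.gS_is h.2
  obtain ⟨c, q2, q3, q4, q5, q6, q7, q8, q9, q10, q11, q12, q13⟩ := L.vlI hv h3
  rw [L.yu_pred hi] at k2
  have := L.stripA (i := (i + L.n - 1) % L.n) (c := c) (y := L.yu i) hj hjn q2.mc q2.cn
    (by rw [L.yu_pred hi]) k2.le (by omega) (by omega)
  rw [← this, L.yu_pred hi] at q13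
  omega

/-! ## The words of the corners -/

lemma NL_v {i v : ℕ} (h : L.NL i = true ∧ L.tN i = v) :
    L.IsV v ∧ (L.cl v).1 = true ∧ L.w v % L.n = i % L.n := by
  obtain ⟨h1, rfl⟩ := h
  exact L.NL_tN h1

lemma SL_v {i v : ℕ} (h : L.SL i = true ∧ L.tS i = v) :
    L.IsV v ∧ (L.cl v).2.1 = true ∧ L.c v % L.n = i % L.n := by
  obtain ⟨h1, rfl⟩ := h
  exact L.SL_tS h1

lemma bump_cl {v : ℕ} (hv : L.IsV v) (h : ∃ Y yA yB, (L.cl v).2.2 = Pc.bump Y yA yB) :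
    (L.cl v).1 = false ∧ (L.cl v).2.1 = false := by
  obtain ⟨X, yA, yB, h3⟩ := h
  obtain ⟨v', c, q1, q2, q3, q4, q5, q6, q7, q8, q9, q10, q11, q12, q13⟩ := L.bpI hv h3
  exact ⟨q5, q6⟩

lemma valley_cl {v : ℕ} (hv : L.IsV v) (h : ∃ Y yA yB, (L.cl v).2.2 = Pc.valley Y yA yB) :
    (L.cl v).1 = false ∧ (L.cl v).2.1 = false := by
  obtain ⟨X, yA, yB, h3⟩ := h
  obtain ⟨c, q2, q3, q4, q5, q6, q7, q8, q9, q10, q11, q12, q13⟩ := L.vlI hv h3
  exact ⟨q5, q6⟩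

lemma ite_le {p : Prop} [Decidable p] : (if p then 1 else 0 : ℕ) ≤ 1 := by
  split_ifs <;> omega

lemma ite_ne {p : Prop} [Decidable p] (h : (if p then 1 else 0 : ℕ) ≠ 0) : p := by
  by_contra hp
  rw [if_neg hp] at h
  exact h rfl

/-- the letters `n` of a run at a corner -/
theorem cw_T {i : ℕ} (hi : i < L.n) (v : ℕ) : (L.cw i).count (true, v) ≤ 1 ∧
    ((L.cw i).count (true, v) ≠ 0 → L.IsV v ∧ (i = v ∨ i = L.a v % L.n ∨ i = L.w v % L.n)) := by
  have him : i % L.n = i := Nat.mod_eq_of_lt hi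
  have e : (L.cw i).count (true, v) =
      (if L.NL i = true ∧ L.tN i = v then 1 else 0) +
      (L.K.xw (L.yu i) (L.yw i)).count (true, v) +
      (if L.NL (i + L.n - 1) = true ∧ L.tN (i + L.n - 1) = v then 1 else 0) +
      (if (L.sB (i + L.n - 1) && L.K.gN (L.yu i)) = true ∧ L.K.tv (L.yu i) = v then 1 else 0) +
      (if (L.sA (i + L.n - 1) && L.K.fN (L.yu i)) = true ∧ L.K.tb (L.yu i) = v then 1 else 0) := by
    unfold cw
    simp only [List.count_append, count_opt, pair_eq, reduceCtorEq, false_and, and_false,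
      if_false, true_and]
    rw [if_neg (fun h : (L.sB i && L.K.gN (L.yw i)) = true ∧ _ => L.fl2 hi h.1),
      if_neg (fun h : (L.sA i && L.K.fN (L.yw i)) = true ∧ _ => L.fl3 hi h.1)]
    omega
  obtain ⟨x1, x2⟩ := L.xw_T hi v
  rw [e]
  generalize hX : (L.K.xw (L.yu i) (L.yw i)).count (true, v) = X at x1 x2 ⊢
  have r1 : (if L.NL i = true ∧ L.tN i = v then 1 else 0 : ℕ) ≠ 0 →
      L.IsV v ∧ (L.cl v).1 = true ∧ i = L.w v % L.n := fun h => by
    obtain ⟨h1, h2, h3⟩ := L.NL_v (ite_ne h)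
    exact ⟨h1, h2, by rw [h3, him]⟩
  have r5 : (if L.NL (i + L.n - 1) = true ∧ L.tN (i + L.n - 1) = v then 1 else 0 : ℕ) ≠ 0 →
      L.IsV v ∧ (L.cl v).1 = true ∧ i = v := fun h => by
    obtain ⟨h1, h2, h3⟩ := L.NL_v (ite_ne h)
    exact ⟨h1, h2, L.pred_mod hi h1.1 h3⟩
  have r6 : (if (L.sB (i + L.n - 1) && L.K.gN (L.yu i)) = true ∧ L.K.tv (L.yu i) = v then 1
      else 0 : ℕ) ≠ 0 → _ := fun h => L.fl6 hi (ite_ne h)
  have r7 : (if (L.sA (i + L.n - 1) && L.K.fN (L.yu i)) = true ∧ L.K.tb (L.yu i) = v then 1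
      else 0 : ℕ) ≠ 0 → _ := fun h => L.fl7 hi (ite_ne h)
  have l1 : (if L.NL i = true ∧ L.tN i = v then 1 else 0 : ℕ) ≤ 1 := ite_le
  have l5 : (if L.NL (i + L.n - 1) = true ∧ L.tN (i + L.n - 1) = v then 1 else 0 : ℕ) ≤ 1 :=
    ite_le
  have l6 : (if (L.sB (i + L.n - 1) && L.K.gN (L.yu i)) = true ∧ L.K.tv (L.yu i) = v then 1
      else 0 : ℕ) ≤ 1 := ite_le
  have l7 : (if (L.sA (i + L.n - 1) && L.K.fN (L.yu i)) = true ∧ L.K.tb (L.yu i) = v then 1
      else 0 : ℕ) ≤ 1 := ite_le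
  generalize (if L.NL i = true ∧ L.tN i = v then 1 else 0 : ℕ) = n1 at r1 l1 ⊢
  generalize (if L.NL (i + L.n - 1) = true ∧ L.tN (i + L.n - 1) = v then 1 else 0 : ℕ) = n5
    at r5 l5 ⊢
  generalize (if (L.sB (i + L.n - 1) && L.K.gN (L.yu i)) = true ∧ L.K.tv (L.yu i) = v then 1
      else 0 : ℕ) = n6 at r6 l6 ⊢
  generalize (if (L.sA (i + L.n - 1) && L.K.fN (L.yu i)) = true ∧ L.K.tb (L.yu i) = v then 1
      else 0 : ℕ) = n7 at r7 l7 ⊢
  have p15 : n1 = 0 ∨ n5 = 0 := by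
    by_contra hcc
    rw [not_or] at hcc
    exact L.w_ne_v (r1 hcc.1).1 ((r1 hcc.1).2.2.symm.trans (r5 hcc.2).2.2)
  have p16 : n1 = 0 ∨ n6 = 0 := by
    by_contra hcc
    rw [not_or] at hcc
    have k := (L.valley_cl (r6 hcc.2).1 (r6 hcc.2).2.2).1
    rw [(r1 hcc.1).2.1] at k
    cases k
  have p17 : n1 = 0 ∨ n7 = 0 := by
    by_contra hcc
    rw [not_or] at hcc
    have k := (L.bump_cl (r7 hcc.2).1 (r7 hcc.2).2.2).1
    rw [(r1 hcc.1).2.1] at k
    cases k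
  have p56 : n5 = 0 ∨ n6 = 0 := by
    by_contra hcc
    rw [not_or] at hcc
    have k := (L.valley_cl (r6 hcc.2).1 (r6 hcc.2).2.2).1
    rw [(r5 hcc.1).2.1] at k
    cases k
  have p57 : n5 = 0 ∨ n7 = 0 := by
    by_contra hcc
    rw [not_or] at hcc
    have k := (L.bump_cl (r7 hcc.2).1 (r7 hcc.2).2.2).1
    rw [(r5 hcc.1).2.1] at k
    cases k
  have p67 : n6 = 0 ∨ n7 = 0 := by
    by_contra hcc
    rw [not_or] at hcc
    obtain ⟨-, -, Y, yA, yB, k⟩ := r6 hcc.1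
    obtain ⟨-, -, Y', yA', yB', k'⟩ := r7 hcc.2
    rw [k] at k'
    cases k'
  have pX1 : X = 0 ∨ n1 = 0 := by
    by_contra hcc
    rw [not_or] at hcc
    obtain ⟨k0, k1, k2⟩ := x2 hcc.1
    have k3 := k1.2 (r1 hcc.2).2.1
    refine L.a_ne_w k0 ?_ (k3.symm.trans (r1 hcc.2).2.2)
    rcases k2 with ⟨s, y1, y2, k2⟩ | ⟨s, l, y, k2⟩ <;> rw [k2] <;> exact fun h => by cases h
  have pX5 : X = 0 ∨ n5 = 0 := by
    by_contra hcc
    rw [not_or] at hcc
    obtain ⟨k0, k1, k2⟩ := x2 hcc.1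
    have k3 := k1.2 (r5 hcc.2).2.1
    exact L.a_ne_v k0 (k3.symm.trans (r5 hcc.2).2.2)
  have pX6 : X = 0 ∨ n6 = 0 := by
    by_contra hcc
    rw [not_or] at hcc
    obtain ⟨k0, k1, k2⟩ := x2 hcc.1
    obtain ⟨-, -, Y, yA, yB, k⟩ := r6 hcc.2
    rcases k2 with ⟨s, y1, y2, k2⟩ | ⟨s, l, y, k2⟩ <;> rw [k] at k2 <;> cases k2
  have pX7 : X = 0 ∨ n7 = 0 := by
    by_contra hcc
    rw [not_or] at hcc
    obtain ⟨k0, k1, k2⟩ := x2 hcc.1
    obtain ⟨-, -, Y, yA, yB, k⟩ := r7 hcc.2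
    rcases k2 with ⟨s, y1, y2, k2⟩ | ⟨s, l, y, k2⟩ <;> rw [k] at k2 <;> cases k2
  refine ⟨by omega, fun h => ?_⟩
  by_cases q1 : n1 = 0
  · by_cases q5 : n5 = 0
    · by_cases q6 : n6 = 0
      · by_cases q7 : n7 = 0
        · obtain ⟨k0, k1, k2⟩ := x2 (by omega)
          exact ⟨k0, k1.1.imp id Or.inl⟩
        · exact ⟨(r7 q7).1, Or.inl (r7 q7).2.1⟩
      · exact ⟨(r6 q6).1, Or.inl (r6 q6).2.1⟩
    · exact ⟨(r5 q5).1, Or.inl (r5 q5).2.2⟩
  · exact ⟨(r1 q1).1, Or.inr (Or.inr (r1 q1).2.2)⟩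

/-- the letters `s` of a run at a corner -/
theorem cw_F {i : ℕ} (hi : i < L.n) (v : ℕ) : (L.cw i).count (false, v) ≤ 1 ∧
    ((L.cw i).count (false, v) ≠ 0 →
      L.IsV v ∧ (i = L.c v % L.n ∨ i = L.a v % L.n ∨ i = L.w v % L.n)) := by
  have him : i % L.n = i := Nat.mod_eq_of_lt hi
  have e : (L.cw i).count (false, v) =
      (if L.SL i = true ∧ L.tS i = v then 1 else 0) +
      (if (L.sB i && L.K.fS (L.yw i)) = true ∧ L.K.tb (L.yw i) = v then 1 else 0) +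
      (if (L.sA i && L.K.gS (L.yw i)) = true ∧ L.K.tv (L.yw i) = v then 1 else 0) +
      (L.K.xw (L.yu i) (L.yw i)).count (false, v) +
      (if L.SL (i + L.n - 1) = true ∧ L.tS (i + L.n - 1) = v then 1 else 0) := by
    unfold cw
    simp only [List.count_append, count_opt, pair_eq, reduceCtorEq, false_and, and_false,
      if_false, true_and]
    rw [if_neg (fun h : (L.sB (i + L.n - 1) && L.K.fS (L.yu i)) = true ∧ _ => L.gl6 hi h.1),
      if_neg (fun h : (L.sA (i + L.n - 1) && L.K.gS (L.yu i)) = true ∧ _ => L.gl7 hi h.1)]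
    omega
  obtain ⟨x1, x2⟩ := L.xw_F hi v
  rw [e]
  generalize hX : (L.K.xw (L.yu i) (L.yw i)).count (false, v) = X at x1 x2 ⊢
  have r1 : (if L.SL i = true ∧ L.tS i = v then 1 else 0 : ℕ) ≠ 0 →
      L.IsV v ∧ (L.cl v).2.1 = true ∧ i = L.c v % L.n := fun h => by
    obtain ⟨h1, h2, h3⟩ := L.SL_v (ite_ne h)
    exact ⟨h1, h2, by rw [h3, him]⟩
  have r5 : (if L.SL (i + L.n - 1) = true ∧ L.tS (i + L.n - 1) = v then 1 else 0 : ℕ) ≠ 0 →
      L.IsV v ∧ (L.cl v).2.1 = true ∧ i = L.a v % L.n := fun h => by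
    obtain ⟨h1, h2, h3⟩ := L.SL_v (ite_ne h)
    exact ⟨h1, h2, L.pred_mod' hi h3⟩
  have r6 : (if (L.sB i && L.K.fS (L.yw i)) = true ∧ L.K.tb (L.yw i) = v then 1
      else 0 : ℕ) ≠ 0 → _ := fun h => L.gl2 hi (ite_ne h)
  have r7 : (if (L.sA i && L.K.gS (L.yw i)) = true ∧ L.K.tv (L.yw i) = v then 1
      else 0 : ℕ) ≠ 0 → _ := fun h => L.gl3 hi (ite_ne h)
  have l1 : (if L.SL i = true ∧ L.tS i = v then 1 else 0 : ℕ) ≤ 1 := ite_le
  have l5 : (if L.SL (i + L.n - 1) = true ∧ L.tS (i + L.n - 1) = v then 1 else 0 : ℕ) ≤ 1 :=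
    ite_le
  have l6 : (if (L.sB i && L.K.fS (L.yw i)) = true ∧ L.K.tb (L.yw i) = v then 1
      else 0 : ℕ) ≤ 1 := ite_le
  have l7 : (if (L.sA i && L.K.gS (L.yw i)) = true ∧ L.K.tv (L.yw i) = v then 1
      else 0 : ℕ) ≤ 1 := ite_le
  generalize (if L.SL i = true ∧ L.tS i = v then 1 else 0 : ℕ) = n1 at r1 l1 ⊢
  generalize (if L.SL (i + L.n - 1) = true ∧ L.tS (i + L.n - 1) = v then 1 else 0 : ℕ) = n5
    at r5 l5 ⊢
  generalize (if (L.sB i && L.K.fS (L.yw i)) = true ∧ L.K.tb (L.yw i) = v then 1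
      else 0 : ℕ) = n6 at r6 l6 ⊢
  generalize (if (L.sA i && L.K.gS (L.yw i)) = true ∧ L.K.tv (L.yw i) = v then 1
      else 0 : ℕ) = n7 at r7 l7 ⊢
  have p15 : n1 = 0 ∨ n5 = 0 := by
    by_contra hcc
    rw [not_or] at hcc
    exact L.c_ne_a (r1 hcc.1).1 ((r1 hcc.1).2.2.symm.trans (r5 hcc.2).2.2)
  have p16 : n1 = 0 ∨ n6 = 0 := by
    by_contra hcc
    rw [not_or] at hcc
    have k := (L.bump_cl (r6 hcc.2).1 (r6 hcc.2).2.2).2
    rw [(r1 hcc.1).2.1] at k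
    cases k
  have p17 : n1 = 0 ∨ n7 = 0 := by
    by_contra hcc
    rw [not_or] at hcc
    have k := (L.valley_cl (r7 hcc.2).1 (r7 hcc.2).2.2).2
    rw [(r1 hcc.1).2.1] at k
    cases k
  have p56 : n5 = 0 ∨ n6 = 0 := by
    by_contra hcc
    rw [not_or] at hcc
    have k := (L.bump_cl (r6 hcc.2).1 (r6 hcc.2).2.2).2
    rw [(r5 hcc.1).2.1] at k
    cases k
  have p57 : n5 = 0 ∨ n7 = 0 := by
    by_contra hcc
    rw [not_or] at hcc
    have k := (L.valley_cl (r7 hcc.2).1 (r7 hcc.2).2.2).2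
    rw [(r5 hcc.1).2.1] at k
    cases k
  have p67 : n6 = 0 ∨ n7 = 0 := by
    by_contra hcc
    rw [not_or] at hcc
    obtain ⟨-, -, Y, yA, yB, k⟩ := r6 hcc.1
    obtain ⟨-, -, Y', yA', yB', k'⟩ := r7 hcc.2
    rw [k] at k'
    cases k'
  have pX1 : X = 0 ∨ n1 = 0 := by
    by_contra hcc
    rw [not_or] at hcc
    obtain ⟨k0, k1, k2⟩ := x2 hcc.1
    have k3 := k1.2 (r1 hcc.2).2.1
    exact L.c_ne_w k0 ((r1 hcc.2).2.2.symm.trans k3)
  have pX5 : X = 0 ∨ n5 = 0 := by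
    by_contra hcc
    rw [not_or] at hcc
    obtain ⟨k0, k1, k2⟩ := x2 hcc.1
    have k3 := k1.2 (r5 hcc.2).2.1
    refine L.a_ne_w k0 ?_ ((r5 hcc.2).2.2.symm.trans k3)
    rcases k2 with ⟨s, y1, y2, k2⟩ | ⟨s, l, y, k2⟩ <;> rw [k2] <;> exact fun h => by cases h
  have pX6 : X = 0 ∨ n6 = 0 := by
    by_contra hcc
    rw [not_or] at hcc
    obtain ⟨k0, k1, k2⟩ := x2 hcc.1
    obtain ⟨-, -, Y, yA, yB, k⟩ := r6 hcc.2
    rcases k2 with ⟨s, y1, y2, k2⟩ | ⟨s, l, y, k2⟩ <;> rw [k] at k2 <;> cases k2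
  have pX7 : X = 0 ∨ n7 = 0 := by
    by_contra hcc
    rw [not_or] at hcc
    obtain ⟨k0, k1, k2⟩ := x2 hcc.1
    obtain ⟨-, -, Y, yA, yB, k⟩ := r7 hcc.2
    rcases k2 with ⟨s, y1, y2, k2⟩ | ⟨s, l, y, k2⟩ <;> rw [k] at k2 <;> cases k2
  refine ⟨by omega, fun h => ?_⟩
  by_cases q1 : n1 = 0
  · by_cases q5 : n5 = 0
    · by_cases q6 : n6 = 0
      · by_cases q7 : n7 = 0
        · obtain ⟨k0, k1, k2⟩ := x2 (by omega)
          exact ⟨k0, k1.1.imp id Or.inr⟩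
        · exact ⟨(r7 q7).1, Or.inl (r7 q7).2.1⟩
      · exact ⟨(r6 q6).1, Or.inl (r6 q6).2.1⟩
    · exact ⟨(r5 q5).1, Or.inr (Or.inl (r5 q5).2.2)⟩
  · exact ⟨(r1 q1).1, Or.inl (r1 q1).2.2⟩

/-- **D3** -/
theorem cw_nodup' {i : ℕ} (hi : i < L.n) : (L.cw i).Nodup := by
  rw [List.nodup_iff_count_le_one]
  rintro ⟨b, v⟩
  cases b
  · exact (L.cw_F hi v).1
  · exact (L.cw_T hi v).1

/-- **D7** -/
theorem cw_length' {i : ℕ} (hi : i < L.n) :
    (L.cw i).length + (if L.S i then 1 else 0) + (if L.S (i + L.n - 1) then 1 else 0) ≤ 4 := by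
  have him : i % L.n = i := Nat.mod_eq_of_lt hi
  have hn := L.n_pos
  have hnd := L.cw_nodup' hi
  have hT : ∀ v, (true, v) ∈ L.cw i →
      L.IsV v ∧ (i = v ∨ i = L.a v % L.n ∨ i = L.w v % L.n) :=
    fun v hv => (L.cw_T hi v).2 (List.count_pos_iff.2 hv).ne'
  have hF : ∀ v, (false, v) ∈ L.cw i →
      L.IsV v ∧ (i = L.c v % L.n ∨ i = L.a v % L.n ∨ i = L.w v % L.n) :=
    fun v hv => (L.cw_F hi v).2 (List.count_pos_iff.2 hv).ne'
  have Sv : ∀ v, L.IsV v → i = v → L.S i = true ∧ L.S (i + L.n - 1) = false := by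
    rintro v hv rfl
    exact ⟨hv.2.1, hv.2.2⟩
  have Sa : ∀ v, L.IsV v → i = L.a v % L.n → L.S (i + L.n - 1) = false := by
    intro v hv h
    rw [← L.S_mod]
    have e : (i + L.n - 1) % L.n = L.c v % L.n := by
      apply add_mod_inj hn
      rw [show i + L.n - 1 + 1 = i + L.n by omega, Nat.add_mod_right, him]
      exact h
    rw [e, L.S_mod, L.S_c]
  have Sc : ∀ v, L.IsV v → i = L.c v % L.n → L.S i = false ∧ L.S (i + L.n - 1) = true :=
    fun v hv h => ⟨L.S_of_c (by rw [him]; exact h.symm), L.S_pred_of_c hv (by rw [him]; exact h.symm)⟩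
  have Sw : ∀ v, L.IsV v → i = L.w v % L.n → L.S i = false :=
    fun v hv h => L.S_of_w hv (by rw [him]; exact h.symm)
  obtain ⟨ta, hta⟩ : ∃ t, ∀ v, L.IsV v → i = L.a v % L.n → v = t := by
    by_cases h : ∃ v, L.IsV v ∧ i = L.a v % L.n
    · obtain ⟨t, h1, h2⟩ := h
      exact ⟨t, fun v hv he => L.a_unique hv h1 (he.symm.trans h2)⟩
    · exact ⟨0, fun v hv he => absurd ⟨v, hv, he⟩ h⟩
  obtain ⟨tc, htc⟩ : ∃ t, ∀ v, L.IsV v → i = L.c v % L.n → v = t := by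
    by_cases h : ∃ v, L.IsV v ∧ i = L.c v % L.n
    · obtain ⟨t, h1, h2⟩ := h
      exact ⟨t, fun v hv he => L.c_unique hv h1 (he.symm.trans h2)⟩
    · exact ⟨0, fun v hv he => absurd ⟨v, hv, he⟩ h⟩
  obtain ⟨tw, htw⟩ : ∃ t, ∀ v, L.IsV v → i = L.w v % L.n → v = t := by
    by_cases h : ∃ v, L.IsV v ∧ i = L.w v % L.n
    · obtain ⟨t, h1, h2⟩ := h
      exact ⟨t, fun v hv he => L.w_unique hv h1 (he.symm.trans h2)⟩
    · exact ⟨0, fun v hv he => absurd ⟨v, hv, he⟩ h⟩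
  rw [← List.toFinset_card_of_nodup hnd]
  cases hS : L.S i <;> cases hP : L.S (i + L.n - 1)
  · -- no `S` on both sides
    have hsub : (L.cw i).toFinset ⊆ {(true, ta), (false, ta), (true, tw), (false, tw)} := by
      rintro ⟨b, v⟩ hx
      rw [List.mem_toFinset] at hx
      simp only [Finset.mem_insert, Finset.mem_singleton]
      cases b
      · obtain ⟨h1, h2 | h2 | h2⟩ := hF v hx
        · have := (Sc v h1 h2).2
          rw [hP] at this
          cases this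
        · rw [hta v h1 h2]
          exact Or.inr (Or.inl rfl)
        · rw [htw v h1 h2]
          exact Or.inr (Or.inr (Or.inr rfl))
      · obtain ⟨h1, h2 | h2 | h2⟩ := hT v hx
        · have := (Sv v h1 h2).1
          rw [hS] at this
          cases this
        · rw [hta v h1 h2]
          exact Or.inl rfl
        · rw [htw v h1 h2]
          exact Or.inr (Or.inr (Or.inl rfl))
    have h1 := Finset.card_le_card hsub
    have h2 : ({(true, ta), (false, ta), (true, tw), (false, tw)} : Finset (Bool × ℕ)).card ≤ 4 :=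
      Finset.card_le_four
    simp only [Bool.false_eq_true, if_false]
    omega
  · have hsub : (L.cw i).toFinset ⊆ {(false, tc), (true, tw), (false, tw)} := by
      rintro ⟨b, v⟩ hx
      rw [List.mem_toFinset] at hx
      simp only [Finset.mem_insert, Finset.mem_singleton]
      cases b
      · obtain ⟨h1, h2 | h2 | h2⟩ := hF v hx
        · rw [htc v h1 h2]
          exact Or.inl rfl
        · have := Sa v h1 h2
          rw [hP] at this
          cases this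
        · rw [htw v h1 h2]
          exact Or.inr (Or.inr rfl)
      · obtain ⟨h1, h2 | h2 | h2⟩ := hT v hx
        · have := (Sv v h1 h2).1
          rw [hS] at this
          cases this
        · have := Sa v h1 h2
          rw [hP] at this
          cases this
        · rw [htw v h1 h2]
          exact Or.inr (Or.inl rfl)
    have h1 := Finset.card_le_card hsub
    have h2 : ({(false, tc), (true, tw), (false, tw)} : Finset (Bool × ℕ)).card ≤ 3 :=
      Finset.card_le_three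
    simp only [Bool.false_eq_true, if_false, if_true]
    omega
  · have hsub : (L.cw i).toFinset ⊆ {(true, i), (true, ta), (false, ta)} := by
      rintro ⟨b, v⟩ hx
      rw [List.mem_toFinset] at hx
      simp only [Finset.mem_insert, Finset.mem_singleton]
      cases b
      · obtain ⟨h1, h2 | h2 | h2⟩ := hF v hx
        · have := (Sc v h1 h2).2
          rw [hP] at this
          cases this
        · rw [hta v h1 h2]
          exact Or.inr (Or.inr rfl)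
        · have := Sw v h1 h2
          rw [hS] at this
          cases this
      · obtain ⟨h1, h2 | h2 | h2⟩ := hT v hx
        · rw [← h2]
          exact Or.inl rfl
        · rw [hta v h1 h2]
          exact Or.inr (Or.inl rfl)
        · have := Sw v h1 h2
          rw [hS] at this
          cases this
    have h1 := Finset.card_le_card hsub
    have h2 : ({(true, i), (true, ta), (false, ta)} : Finset (Bool × ℕ)).card ≤ 3 :=
      Finset.card_le_three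
    simp only [Bool.false_eq_true, if_false, if_true]
    omega
  · have hsub : (L.cw i).toFinset ⊆ ∅ := by
      rintro ⟨b, v⟩ hx
      rw [List.mem_toFinset] at hx
      exfalso
      cases b
      · obtain ⟨h1, h2 | h2 | h2⟩ := hF v hx
        · have := (Sc v h1 h2).1
          rw [hS] at this
          cases this
        · have := Sa v h1 h2
          rw [hP] at this
          cases this
        · have := Sw v h1 h2
          rw [hS] at this
          cases this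
      · obtain ⟨h1, h2 | h2 | h2⟩ := hT v hx
        · have := (Sv v h1 h2).2
          rw [hP] at this
          cases this
        · have := Sa v h1 h2
          rw [hP] at this
          cases this
        · have := Sw v h1 h2
          rw [hS] at this
          cases this
    have h1 := Finset.card_le_card hsub
    rw [Finset.card_empty] at h1
    simp only [if_true]
    omega

end LC

end Pool.Agent.MP42D
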