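import Pool.Agent.MP42.D.CombJ
import Pool.Agent.MP42.D.CombH6
import Pool.Agent.MP42.D.CombN
import Pool.Agent.MP42.D.CombG

/-!
# Piece D: the facts about a leaf that are used later
-/

set_option autoImplicit false
set_option linter.unusedSectionVars false

namespace Pool.Agent.MP42D

namespace LC

structure Facts (L : LC) : Prop where
  ok : L.K.Ok L.on
  cw_first : ∀ v, L.IsV v → Red (L.cw v) [(true, v)]
  cw_end : ∀ v, L.IsV v → ∀ i < L.n, L.c v % L.n = i → Red (L.cw i) [(false, v)]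
  cw_other : ∀ i < L.n, ¬ L.IsV i → (∀ v, L.IsV v → L.c v % L.n ≠ i) → Red (L.cw i) []
  cw_nodup : ∀ i < L.n, (L.cw i).Nodup
  link : ∀ (V : L.K.Val L.on) (vN vS : ℕ → Prop), (∀ i, vN (i + L.n) = vN i) →
    (∀ i, vS (i + L.n) = vS i) →
    (∀ i < L.n, ∀ t a b, (true, t, a) ∈ L.cwV V vN vS i → (false, t, b) ∈ L.cwV V vN vS i →
      (a ↔ b)) →
    ∀ i < L.n, ∀ j < L.n, ∀ x y t a b, (x, t, a) ∈ L.cwV V vN vS i →
      (y, t, b) ∈ L.cwV V vN vS j → (a ↔ b)
  NL_S : ∀ i, L.NL i = true → L.S i = false ∧ L.S (i + 1) = true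
  SL_S : ∀ i, L.SL i = true → L.S i = false ∧ L.S (i + L.n - 1) = true
  plate_B : ∀ i < L.m, ∀ y, L.yw i ≤ y → y < L.yu (i + 1) →
    (L.K.bp y = true → L.NL i = false ∧ L.S i = false ∧ L.SL i = false) ∧
      (L.K.vl y = true → L.NL i = false ∧ L.S i = false)
  plate_A : ∀ i, L.m ≤ i → i < L.n → ∀ y, L.yu (i + 1) ≤ y → y < L.yw i →
    (L.K.bp y = true → L.NL i = false ∧ L.S i = false) ∧
      (L.K.vl y = true → L.NL i = false ∧ L.S i = false ∧ L.SL i = false)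
  cw_length : ∀ i < L.n, (L.cw i).length + (if L.S i then 1 else 0) +
    (if L.S (i + L.n - 1) then 1 else 0) ≤ 4
  site : ∀ i, L.S i = true → L.SL i = false ∧ L.NL i = false ∧
    (L.sB i && L.K.fS (L.yw i)) = false ∧ (L.sA i && L.K.gS (L.yw i)) = false ∧
    (L.sB i && L.K.gN (L.yw i)) = false ∧ (L.sA i && L.K.fN (L.yw i)) = false ∧
    (L.sB i && L.K.gN (L.yu (i + 1))) = false ∧ (L.sA i && L.K.fN (L.yu (i + 1))) = false ∧
    (L.sB i && L.K.fS (L.yu (i + 1))) = false ∧ (L.sA i && L.K.gS (L.yu (i + 1))) = false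
  excl : ∀ i, (L.NL i = true →
      (L.sB i && L.K.gN (L.yw i)) = false ∧ (L.sA i && L.K.fN (L.yw i)) = false ∧
      (L.sB i && L.K.gN (L.yu (i + 1))) = false ∧ (L.sA i && L.K.fN (L.yu (i + 1))) = false) ∧
    (L.SL i = true →
      (L.sB i && L.K.fS (L.yw i)) = false ∧ (L.sA i && L.K.gS (L.yw i)) = false ∧
      (L.sB i && L.K.fS (L.yu (i + 1))) = false ∧ (L.sA i && L.K.gS (L.yu (i + 1))) = false)
  cw_tag : ∀ i b v, (b, v) ∈ L.cw i → L.IsV v
  exists_run : ∀ i, L.S i = false → L.S (i + L.n - 1) = true →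
    ∃ v, L.IsV v ∧ L.c v % L.n = i % L.n

/-- **Piece D** -/
theorem facts (L : LC) : L.Facts where
  ok := L.K_ok'
  cw_first := fun _ hv => L.cw_firstG hv
  cw_end := fun _ hv _ hi h => L.cw_endG hv hi h
  cw_other := fun _ hi h1 h2 => L.cw_otherG hi h1 h2
  cw_nodup := fun _ hi => L.cw_nodup' hi
  link := fun V vN vS hN hS h => link' (L := L) V vN vS hN hS h
  NL_S := fun _ h => L.NL_SI h
  SL_S := fun _ h => L.SL_SI h
  plate_B := fun _ hi _ h1 h2 => L.plate_BI hi h1 h2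
  plate_A := fun _ hm hi _ h1 h2 => L.plate_AI hm hi h1 h2
  cw_length := fun _ hi => L.cw_length' hi
  site := fun _ h => L.siteI h
  excl := fun i => L.exclI i
  cw_tag := fun _ _ _ h => L.cw_tagI h
  exists_run := fun _ h1 h2 => L.exists_runI h1 h2

end LC

end Pool.Agent.MP42D
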