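import Pool.Agent.MP42.D.LeafD

/-!
# Leaves: the order of corners and strips at a point (owner helper18)
-/

set_option autoImplicit false
set_option linter.unusedSectionVars false

namespace Pool.Agent.MP42D

open Pool.Agent.Helper55.UNF Pool.Agent.Helper55.UNF.GridSolid Pool.Agent.MP42

variable {P : GridSolid}

/-! ## Changes at a point -/

lemma headQ.chg {x y z : ℤ} {r u : Bool} (h : headQ P x y z r u) :
    bit P x (y - 1) z r u ≠ bit P x y z r u := by
  rw [h.1, h.2]
  cases r <;> cases u <;> decide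

lemma tailQ.chg {x y z : ℤ} {r u : Bool} (h : tailQ P x y z r u) :
    bit P x (y - 1) z r u ≠ bit P x y z r u := by
  rw [h.1, h.2]
  cases r <;> cases u <;> decide

/-- the quadrant of four bits -/
def q4 (r u : Bool) (a b c d : Bool) : Bool :=
  match r, u with
  | false, false => a
  | true, false => b
  | false, true => c
  | true, true => d

lemma bit_q4 (x y z : ℤ) (r u : Bool) : bit P x y z r u = q4 r u (bit P x y z false false)
    (bit P x y z true false) (bit P x y z false true) (bit P x y z true true) := by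
  cases r <;> cases u <;> rfl

lemma single8 : ∀ a0 b0 c0 d0 a1 b1 c1 d1 : Bool, Geo.goodB a0 b0 c0 d0 a1 b1 c1 d1 = true →
    Geo.onB a0 b0 c0 d0 = true → Geo.onB a1 b1 c1 d1 = true →
    ∀ r u r' u' : Bool, q4 r u a0 b0 c0 d0 ≠ q4 r u a1 b1 c1 d1 →
      q4 r' u' a0 b0 c0 d0 ≠ q4 r' u' a1 b1 c1 d1 → r = r' ∧ u = u' := by
  decide

/-- At an interior point at most one quadrant changes. -/
theorem chg_one (hM : P.IsManifold) (h3 : Deg3 P) {x y z : ℤ} (h1 : onP P x (y - 1) z = true)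
    (h2 : onP P x y z = true) {r u r' u' : Bool} (hc : bit P x (y - 1) z r u ≠ bit P x y z r u)
    (hc' : bit P x (y - 1) z r' u' ≠ bit P x y z r' u') : r = r' ∧ u = u' := by
  rw [bit_q4 x (y - 1), bit_q4 x y] at hc hc'
  exact single8 _ _ _ _ _ _ _ _ (good8 hM h3 x y z) h1 h2 r u r' u' hc hc'

lemma four8 : ∀ a0 b0 c0 d0 a1 b1 c1 d1 : Bool, Geo.goodB a0 b0 c0 d0 a1 b1 c1 d1 = true →
    a0 ≠ a1 → b0 ≠ b1 → c0 ≠ c1 → d0 ≠ d1 →
    Geo.onB a0 b0 c0 d0 = false ∧ Geo.onB a1 b1 c1 d1 = false := by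
  decide

/-- If all quadrants change then the line is not in the surface on both sides. -/
theorem chg_four (hM : P.IsManifold) (h3 : Deg3 P) {x y z : ℤ}
    (h : ∀ r u, bit P x (y - 1) z r u ≠ bit P x y z r u) :
    onP P x (y - 1) z = false ∧ onP P x y z = false :=
  four8 _ _ _ _ _ _ _ _ (good8 hM h3 x y z) (h _ _) (h _ _) (h _ _) (h _ _)

lemma turnA8 : ∀ a0 b0 c0 d0 a1 b1 c1 d1 : Bool, Geo.goodB a0 b0 c0 d0 a1 b1 c1 d1 = true →
    Geo.onB a1 b1 c1 d1 = true → ∀ r u : Bool,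
    q4 false u a0 b0 c0 d0 = (true != u) → q4 true u a0 b0 c0 d0 = (true == u) →
    q4 r u a0 b0 c0 d0 = (u == r) → q4 r u a1 b1 c1 d1 = (u != r) →
    ¬ (q4 r false a0 b0 c0 d0 = (false == r) ∧ q4 r true a0 b0 c0 d0 = (false != r)) := by
  decide

lemma turnB8 : ∀ a0 b0 c0 d0 a1 b1 c1 d1 : Bool, Geo.goodB a0 b0 c0 d0 a1 b1 c1 d1 = true →
    Geo.onB a0 b0 c0 d0 = true → ∀ r u : Bool,
    q4 false u a1 b1 c1 d1 = (false != u) → q4 true u a1 b1 c1 d1 = (false == u) →
    q4 r u a0 b0 c0 d0 = (u == r) → q4 r u a1 b1 c1 d1 = (u != r) →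
    ¬ (q4 r false a1 b1 c1 d1 = (true == r) ∧ q4 r true a1 b1 c1 d1 = (true != r)) := by
  decide

lemma turnC8 : ∀ a0 b0 c0 d0 a1 b1 c1 d1 : Bool, Geo.goodB a0 b0 c0 d0 a1 b1 c1 d1 = true →
    Geo.onB a1 b1 c1 d1 = true → ∀ r u : Bool,
    q4 r false a0 b0 c0 d0 = (true == r) → q4 r true a0 b0 c0 d0 = (true != r) →
    q4 r u a0 b0 c0 d0 = (u != r) → q4 r u a1 b1 c1 d1 = (u == r) →
    ¬ (q4 false u a0 b0 c0 d0 = (false != u) ∧ q4 true u a0 b0 c0 d0 = (false == u)) := by
  decide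

lemma turnD8 : ∀ a0 b0 c0 d0 a1 b1 c1 d1 : Bool, Geo.goodB a0 b0 c0 d0 a1 b1 c1 d1 = true →
    Geo.onB a0 b0 c0 d0 = true → ∀ r u : Bool,
    q4 r false a1 b1 c1 d1 = (false == r) → q4 r true a1 b1 c1 d1 = (false != r) →
    q4 r u a0 b0 c0 d0 = (u != r) → q4 r u a1 b1 c1 d1 = (u == r) →
    ¬ (q4 false u a1 b1 c1 d1 = (true != u) ∧ q4 true u a1 b1 c1 d1 = (true == u)) := by
  decide

lemma turnA (hM : P.IsManifold) (h3 : Deg3 P) {x y z : ℤ} (h2 : onP P x y z = true) {r u : Bool}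
    (hw : wallU P x (y - 1) z u true) (ht : tailQ P x y z r u) :
    ¬ stripU P x (y - 1) z r false := by
  unfold wallU at hw
  unfold tailQ at ht
  unfold stripU
  rw [bit_q4 x (y - 1) z r false, bit_q4 x (y - 1) z r true]
  rw [bit_q4 x (y - 1) z false u, bit_q4 x (y - 1) z true u] at hw
  rw [bit_q4 x (y - 1) z r u, bit_q4 x y z r u] at ht
  exact turnA8 _ _ _ _ _ _ _ _ (good8 hM h3 x y z) h2 r u hw.1 hw.2 ht.1 ht.2

lemma turnB (hM : P.IsManifold) (h3 : Deg3 P) {x y z : ℤ} (h1 : onP P x (y - 1) z = true)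
    {r u : Bool} (hw : wallU P x y z u false) (ht : tailQ P x y z r u) :
    ¬ stripU P x y z r true := by
  unfold wallU at hw
  unfold tailQ at ht
  unfold stripU
  rw [bit_q4 x y z r false, bit_q4 x y z r true]
  rw [bit_q4 x y z false u, bit_q4 x y z true u] at hw
  rw [bit_q4 x (y - 1) z r u, bit_q4 x y z r u] at ht
  exact turnB8 _ _ _ _ _ _ _ _ (good8 hM h3 x y z) h1 r u hw.1 hw.2 ht.1 ht.2

lemma turnC (hM : P.IsManifold) (h3 : Deg3 P) {x y z : ℤ} (h2 : onP P x y z = true) {r u : Bool}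
    (hs : stripU P x (y - 1) z r true) (ht : headQ P x y z r u) :
    ¬ wallU P x (y - 1) z u false := by
  unfold stripU at hs
  unfold headQ at ht
  unfold wallU
  rw [bit_q4 x (y - 1) z false u, bit_q4 x (y - 1) z true u]
  rw [bit_q4 x (y - 1) z r false, bit_q4 x (y - 1) z r true] at hs
  rw [bit_q4 x (y - 1) z r u, bit_q4 x y z r u] at ht
  exact turnC8 _ _ _ _ _ _ _ _ (good8 hM h3 x y z) h2 r u hs.1 hs.2 ht.1 ht.2

lemma turnD (hM : P.IsManifold) (h3 : Deg3 P) {x y z : ℤ} (h1 : onP P x (y - 1) z = true)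
    {r u : Bool} (hs : stripU P x y z r false) (ht : headQ P x y z r u) :
    ¬ wallU P x y z u true := by
  unfold stripU at hs
  unfold headQ at ht
  unfold wallU
  rw [bit_q4 x y z false u, bit_q4 x y z true u]
  rw [bit_q4 x y z r false, bit_q4 x y z r true] at hs
  rw [bit_q4 x (y - 1) z r u, bit_q4 x y z r u] at ht
  exact turnD8 _ _ _ _ _ _ _ _ (good8 hM h3 x y z) h1 r u hs.1 hs.2 ht.1 ht.2

/-! ## Flat corners and strips of length zero -/

lemma flat_rT (d : Dart P) (h : yw d = yu d) : rT d = !rH d := by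
  obtain ⟨k, b, hk⟩ := exists_wk' d
  have h1 := hk.yw_eq
  have h2 : k = 0 := by
    cases b <;> simp at h1 <;> omega
  subst h2
  exact hk.flat

lemma zero_uS (d : Dart P) (h : yu (nuD P d) = yw d) : uS (nuD P d) = !uS d := by
  obtain ⟨k, b, hk⟩ := exists_sk d
  have h1 := hk.yu_eq
  have h2 : k = 0 := by
    cases b <;> simp at h1 <;> omega
  subst h2
  exact hk.zero

/-- **I4**, corner then strip -/
theorem i4a (hM : P.IsManifold) (h3 : Deg3 P) (d : Dart P) {v : ℤ} (hv : yw d = v)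
    (h1 : onP P (xl d) (v - 1) (zl d) = true) (h2 : onP P (xl d) v (zl d) = true) :
    (yu d < v ∧ v < yu (nuD P d)) ∨ (yu (nuD P d) < v ∧ v < yu d) := by
  have ht := tail_q d
  rw [hv] at ht
  have hne : yu d ≠ v := by
    intro h
    have hh := head_q d
    rw [h] at hh
    have := (chg_one hM h3 h1 h2 hh.chg ht.chg).1
    rw [flat_rT d (by rw [hv, h])] at this
    cases hr : rH d <;> rw [hr] at this <;> simp at this
  have hne' : yu (nuD P d) ≠ v := by
    intro h
    have hh := head_q (nuD P d)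
    rw [h, xl_nu, zl_nu] at hh
    have := (chg_one hM h3 h1 h2 hh.chg ht.chg).2
    rw [zero_uS d (by rw [hv, h])] at this
    cases hr : uS d <;> rw [hr] at this <;> simp at this
  rcases lt_or_gt_of_ne hne with h | h <;> rcases lt_or_gt_of_ne hne' with h' | h'
  · exact absurd (strip_dn d (y := v - 1) (by omega) (by omega))
      (turnA hM h3 h2 (wall_up d (y := v - 1) (by omega) (by omega)) ht)
  · exact Or.inl ⟨h, h'⟩
  · exact Or.inr ⟨h', h⟩
  · exact absurd (strip_up d (y := v) (by omega) (by omega))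
      (turnB hM h3 h1 (wall_dn d (y := v) (by omega) (by omega)) ht)

/-- **I4**, strip then corner -/
theorem i4b (hM : P.IsManifold) (h3 : Deg3 P) (d : Dart P) {v : ℤ} (hv : yu (nuD P d) = v)
    (h1 : onP P (xl d) (v - 1) (zl d) = true) (h2 : onP P (xl d) v (zl d) = true) :
    (yw d < v ∧ v < yw (nuD P d)) ∨ (yw (nuD P d) < v ∧ v < yw d) := by
  have ht := head_q (nuD P d)
  rw [hv, xl_nu, zl_nu, rH_nu] at ht
  have hne : yw (nuD P d) ≠ v := by
    intro h
    have hh := tail_q (nuD P d)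
    rw [h, xl_nu, zl_nu] at hh
    have := (chg_one hM h3 h1 h2 hh.chg ht.chg).1
    rw [flat_rT (nuD P d) (by rw [hv, h]), rH_nu] at this
    cases hr : rT d <;> rw [hr] at this <;> simp at this
  have hne' : yw d ≠ v := by
    intro h
    have hh := tail_q d
    rw [h] at hh
    have := (chg_one hM h3 h1 h2 hh.chg ht.chg).2
    rw [zero_uS d (by rw [hv, h])] at this
    cases hr : uS d <;> rw [hr] at this <;> simp at this
  rcases lt_or_gt_of_ne hne with h | h <;> rcases lt_or_gt_of_ne hne' with h' | h'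
  · have hw := wall_dn (nuD P d) (y := v - 1) (by omega) (by omega)
    rw [xl_nu, zl_nu] at hw
    exact absurd hw (turnC hM h3 h2 (strip_up d (y := v - 1) (by omega) (by omega)) ht)
  · exact Or.inr ⟨h, h'⟩
  · exact Or.inl ⟨h', h⟩
  · have hw := wall_up (nuD P d) (y := v) (by omega) (by omega)
    rw [xl_nu, zl_nu] at hw
    exact absurd hw (turnD hM h3 h1 (strip_dn d (y := v) (by omega) (by omega)) ht)

/-- **I5**, flat corner, zero strip, flat corner -/
theorem i5a (hM : P.IsManifold) (h3 : Deg3 P) (d : Dart P) {v : ℤ} (e1 : yu d = v)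
    (e2 : yw d = v) (e3 : yu (nuD P d) = v) (e4 : yw (nuD P d) = v) :
    onP P (xl d) (v - 1) (zl d) = false ∧ onP P (xl d) v (zl d) = false := by
  have q1 := (head_q d).chg
  have q2 := (tail_q d).chg
  have q3 := (head_q (nuD P d)).chg
  have q4 := (tail_q (nuD P d)).chg
  have r1 := flat_rT d (by rw [e1, e2])
  have r2 := flat_rT (nuD P d) (by rw [e3, e4])
  have r3 := zero_uS d (by rw [e2, e3])
  rw [rH_nu] at r2 q3
  rw [xl_nu, zl_nu] at q3 q4
  rw [r2, r3, r1, e4] at q4
  rw [r3, r1, e3] at q3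
  rw [r1, e2] at q2
  rw [e1] at q1
  apply chg_four hM h3
  intro r u
  cases hr : rH d <;> cases hu : uS d <;> rw [hr, hu] at q1 q2 q3 q4 <;> cases r <;> cases u <;>
    first
    | exact q1
    | exact q2
    | exact q3
    | exact q4

/-- **I5**, zero strip, flat corner, zero strip -/
theorem i5b (hM : P.IsManifold) (h3 : Deg3 P) (d : Dart P) {v : ℤ} (e1 : yw d = v)
    (e2 : yu (nuD P d) = v) (e3 : yw (nuD P d) = v) (e4 : yu (nuD P (nuD P d)) = v) :
    onP P (xl d) (v - 1) (zl d) = false ∧ onP P (xl d) v (zl d) = false := by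
  have q1 := (tail_q d).chg
  have q2 := (head_q (nuD P d)).chg
  have q3 := (tail_q (nuD P d)).chg
  have q4 := (head_q (nuD P (nuD P d))).chg
  have r1 := flat_rT (nuD P d) (by rw [e2, e3])
  have r2 := zero_uS d (by rw [e1, e2])
  have r3 := zero_uS (nuD P d) (by rw [e3, e4])
  rw [rH_nu] at r1 q2 q4
  rw [xl_nu, zl_nu] at q2 q3 q4
  rw [xl_nu, zl_nu] at q4
  rw [r3, r2, r1, e4] at q4
  rw [r2, r1, e3] at q3
  rw [r2, e2] at q2
  rw [e1] at q1
  apply chg_four hM h3
  intro r u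
  cases hr : rT d <;> cases hu : uS d <;> rw [hr, hu] at q1 q2 q3 q4 <;> cases r <;> cases u <;>
    first
    | exact q1
    | exact q2
    | exact q3
    | exact q4

/-- At an isolated point corners are flat and strips have length zero. -/
lemma off_yw (d : Dart P) (h1 : onP P (xl d) (yu d - 1) (zl d) = false)
    (h2 : onP P (xl d) (yu d) (zl d) = false) : yw d = yu d := by
  by_contra hne
  rcases lt_or_gt_of_ne hne with h | h
  · rw [(i2b d (y := yu d - 1) (by omega) (by omega)).1] at h1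
    exact Bool.noConfusion h1
  · rw [(i2a d (y := yu d) (by omega) (by omega)).1] at h2
    exact Bool.noConfusion h2

lemma off_yu (d : Dart P) (h1 : onP P (xl d) (yw d - 1) (zl d) = false)
    (h2 : onP P (xl d) (yw d) (zl d) = false) : yu (nuD P d) = yw d := by
  by_contra hne
  rcases lt_or_gt_of_ne hne with h | h
  · rw [(i2d d (y := yw d - 1) (by omega) (by omega)).1] at h1
    exact Bool.noConfusion h1
  · rw [(i2c d (y := yw d) (by omega) (by omega)).1] at h2
    exact Bool.noConfusion h2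

/-- two corners with the same head are equal -/
lemma dart_ext' {d d' : Dart P} (hx : xl d = xl d') (hy : yu d = yu d') (hz : zl d = zl d')
    (hr : rH d = rH d') (hu : uS d = uS d') : d = d' := by
  apply Subtype.ext
  refine Geo.dart_ext d.1 d'.1 d.2 d'.2 ?_ hr hu
  funext a
  fin_cases a
  · exact hx
  · exact hy
  · exact hz

/-- **I6** -/
theorem i6 (d : Dart P) (h1 : onP P (xl d) (yu d - 1) (zl d) = false)
    (h2 : onP P (xl d) (yu d) (zl d) = false) : nuD P (nuD P d) = d := by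
  have a1 := off_yw d h1 h2
  have a2 := off_yu d (by rw [a1]; exact h1) (by rw [a1]; exact h2)
  have a3 := off_yw (nuD P d) (by rw [xl_nu, zl_nu, a2, a1]; exact h1)
    (by rw [xl_nu, zl_nu, a2, a1]; exact h2)
  have a4 := off_yu (nuD P d) (by rw [xl_nu, zl_nu, a3, a2, a1]; exact h1)
    (by rw [xl_nu, zl_nu, a3, a2, a1]; exact h2)
  have r1 := flat_rT d a1
  have r2 := flat_rT (nuD P d) a3
  have r3 := zero_uS d a2
  have r4 := zero_uS (nuD P d) a4
  apply dart_ext'
  · rw [xl_nu, xl_nu]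
  · rw [a4, a3, a2, a1]
  · rw [zl_nu, zl_nu]
  · rw [rH_nu, r2, rH_nu, r1, Bool.not_not]
  · rw [r4, r3, Bool.not_not]

end Pool.Agent.MP42D
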