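import Pool.Agent.MP42.D.AGeo
import Pool.Agent.MP42.D.CombF
import Pool.Agent.MP42.D.LeafE
import Pool.Agent.MP42.A1

/-!
# Piece A: the abstract leaf of a leaf
-/

set_option autoImplicit false
set_option linter.unusedSectionVars false

namespace Pool.Agent.MP42D

open Pool.Agent.Helper55.UNF Pool.Agent.Helper55.UNF.GridSolid Pool.Agent.MP42

variable {P : GridSolid}

/-! ## Sites and roots -/

structure Sites (P : GridSolid) where
  S : Dart P → Bool
  R : Dart P → Bool
  h : Dart P → ℕ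
  h_phi : ∀ d, h (phi P d) = h d
  h_S : ∀ d, S d = true → h (nuD P d) < h d
  two : ∀ d, nuD P d ≠ d → ∃ a b, a ≠ b ∧ S a = false ∧ S b = false ∧
    (nuD P).SameCycle d a ∧ (nuD P).SameCycle d b
  S_uniq : ∀ d e, S d = true → S e = true → (phi P).SameCycle d e → d = e
  S_R : ∀ d r, S d = true → R r = true →
    ¬ (phi P).SameCycle d r ∧ ¬ (phi P).SameCycle d (theta P r)
  face : ∀ d, (∃ s, S s = true ∧ (phi P).SameCycle d s) ∨
    ∃ r, R r = true ∧ ((phi P).SameCycle d r ∨ (phi P).SameCycle d (theta P r))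
  R_uniq : ∀ r r', R r = true → R r' = true → ((phi P).SameCycle r r' ∨
    (phi P).SameCycle r (theta P r') ∨ (phi P).SameCycle (theta P r) r' ∨
    (phi P).SameCycle (theta P r) (theta P r')) → r = r'
  R_theta : ∀ r, R r = true → R (theta P r) = false
  conn : ∀ q : Dart P → Prop, (∀ d, q (phi P d) ↔ q d) → (∀ d, S d = true → (q d ↔ q (nuD P d))) →
    (∀ r, R r = true → (q r ↔ q (theta P r))) → ∀ d, q d ↔ q (theta P d)

theorem exists_sites : Nonempty (Sites P) := by
  classical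
  obtain ⟨S, R, h, h1, h2, h3, h4, h5, h6, h7, h8, h9⟩ :=
    qarbor (theta P) (phi P) (theta_theta P) (theta_ne P)
  refine ⟨⟨fun d => decide (d ∈ S), fun d => decide (d ∈ R), h, h1, ?_, ?_, ?_, ?_, ?_, ?_, ?_, ?_⟩⟩
  · intro d hd
    exact h2 d (of_decide_eq_true hd)
  · intro d hd
    obtain ⟨a, b, k1, k2, k3, k4, k5⟩ := h3 d hd
    exact ⟨a, b, k1, decide_eq_false k2, decide_eq_false k3, k4, k5⟩
  · intro d e hd he
    exact h4 d (of_decide_eq_true hd) e (of_decide_eq_true he)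
  · intro d r hd hr
    exact h5 d (of_decide_eq_true hd) r (of_decide_eq_true hr)
  · intro d
    rcases h6 d with ⟨s, hs, k⟩ | ⟨r, hr, k⟩
    · exact Or.inl ⟨s, decide_eq_true hs, k⟩
    · exact Or.inr ⟨r, decide_eq_true hr, k⟩
  · intro r r' hr hr'
    exact h7 r (of_decide_eq_true hr) r' (of_decide_eq_true hr')
  · intro r hr
    exact decide_eq_false (h8 r (of_decide_eq_true hr))
  · intro q k1 k2 k3
    exact h9 q k1 (fun d hd => k2 d (decide_eq_true hd)) (fun r hr => k3 r (decide_eq_true hr))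

/-! ## The corners of a leaf -/

namespace Leaf

variable (L : Leaf P)

lemma c_per (i : ℕ) : L.c (i + L.n) = L.c i := by
  induction i with
  | zero => rw [Nat.zero_add]; exact L.per
  | succ i ih =>
    rw [show i + 1 + L.n = i + L.n + 1 by omega, L.step, ih, L.step]

lemma c_per_mul (i q : ℕ) : L.c (i + q * L.n) = L.c i := by
  induction q with
  | zero => simp
  | succ q ih => rw [Nat.succ_mul, ← add_assoc, L.c_per, ih]

lemma n_pos : 0 < L.n := by have := L.hn; omega

lemma c_mod (i : ℕ) : L.c (i % L.n) = L.c i := by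
  conv_rhs => rw [← Nat.mod_add_div i L.n, mul_comm]
  rw [L.c_per_mul]

lemma c_eq {i j : ℕ} : L.c i = L.c j ↔ i % L.n = j % L.n := by
  rw [← L.c_mod i, ← L.c_mod j]
  constructor
  · exact L.inj _ (Nat.mod_lt _ L.n_pos) _ (Nat.mod_lt _ L.n_pos)
  · intro h; rw [h]

lemma c_pred (i : ℕ) : (nuD P).symm (L.c i) = L.c (i + L.n - 1) := by
  rw [Equiv.symm_apply_eq, ← L.step]
  have := L.n_pos
  rw [show i + L.n - 1 + 1 = i + L.n by omega, L.c_per]

lemma c_pow (i j : ℕ) : ((nuD P) ^ j) (L.c i) = L.c (i + j) := by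
  induction j with
  | zero => rfl
  | succ j ih => rw [pow_succ', Equiv.Perm.mul_apply, ih, ← L.step]; rfl

lemma same (i j : ℕ) : (nuD P).SameCycle (L.c i) (L.c j) := by
  rw [← L.c_per_mul j i]
  refine ⟨(j + i * L.n - i : ℕ), ?_⟩
  rw [zpow_natCast, L.c_pow]
  congr 1
  have : i ≤ i * L.n := Nat.le_mul_of_pos_right i L.n_pos
  omega

lemma of_same {i : ℕ} {d : Dart P} (h : (nuD P).SameCycle (L.c i) d) : ∃ j < L.n, L.c j = d := by
  obtain ⟨n, hn⟩ := h.exists_nat_pow_eq
  rw [L.c_pow] at hn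
  exact ⟨(i + n) % L.n, Nat.mod_lt _ L.n_pos, by rw [L.c_mod, hn]⟩

lemma xl_c (i : ℕ) : xl (L.c i) = L.x := (L.px i).1
lemma zl_c (i : ℕ) : zl (L.c i) = L.z := (L.pz i).1

lemma hS (Z : Sites P) : ∃ i j, i < j ∧ j < L.n ∧ Z.S (L.c i) = false ∧ Z.S (L.c j) = false := by
  have hne : nuD P (L.c 0) ≠ L.c 0 := by
    rw [← L.step]
    intro h
    have := L.inj 1 (by have := L.hn; omega) 0 L.n_pos h
    omega
  obtain ⟨a, b, hab, ha, hb, h1, h2⟩ := Z.two _ hne
  obtain ⟨i, hi, rfl⟩ := L.of_same h1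
  obtain ⟨j, hj, rfl⟩ := L.of_same h2
  rcases lt_trichotomy i j with h | h | h
  · exact ⟨i, j, h, hj, ha, hb⟩
  · exact absurd (by rw [h]) hab
  · exact ⟨j, i, h, hi, hb, ha⟩

lemma in_iff {y : ℤ} : (L.lo < y ∧ y < L.hi) → onP P L.x (y - 1) L.z = true ∧
    onP P L.x y L.z = true := fun h => ⟨L.on _ (by omega) (by omega), L.on _ (by omega) (by omega)⟩

lemma evA (hM : P.IsManifold) (h3 : Deg3 P) {y : ℤ} (h1 : L.lo < y) (h2 : y < L.hi) {i : ℕ}
    (hi : yw (L.c i) < yu (L.c i)) (hy : yw (L.c i) = y ∨ yu (L.c i) = y) :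
    awP P L.x (y - 1) L.z ≠ awP P L.x y L.z := by
  have ho := L.in_iff ⟨h1, h2⟩
  rw [← L.xl_c i, ← L.zl_c i] at ho ⊢
  rcases hy with hy | hy
  · have e1 := (i2b (L.c i) (y := y) (by omega) (by omega)).2
    have e2 : awP P (xl (L.c i)) (y - 1) (zl (L.c i)) = false := by
      rcases i4a hM h3 (L.c i) hy ho.1 ho.2 with ⟨k1, k2⟩ | ⟨k1, k2⟩
      · omega
      · exact (i2d (L.c i) (y := y - 1) (by omega) (by omega)).2
    rw [e1, e2]; decide
  · have e1 := (i2b (L.c i) (y := y - 1) (by omega) (by omega)).2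
    have hn : nuD P (L.c (i + L.n - 1)) = L.c i := by
      rw [← L.c_pred, Equiv.apply_symm_apply]
    have e2 : awP P (xl (L.c i)) y (zl (L.c i)) = false := by
      have hx : xl (L.c (i + L.n - 1)) = xl (L.c i) := by rw [L.xl_c, L.xl_c]
      have hz : zl (L.c (i + L.n - 1)) = zl (L.c i) := by rw [L.zl_c, L.zl_c]
      rcases i4b hM h3 (L.c (i + L.n - 1)) (v := y) (by rw [hn]; exact hy)
        (by rw [hx, hz]; exact ho.1) (by rw [hx, hz]; exact ho.2) with ⟨k1, k2⟩ | ⟨k1, k2⟩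
      · rw [hn] at k2; omega
      · rw [← hx, ← hz]
        exact (i2d (L.c (i + L.n - 1)) (y := y) (by rw [hn]; omega) (by omega)).2
    rw [e1, e2]; decide

lemma evB (hM : P.IsManifold) (h3 : Deg3 P) {y : ℤ} (h1 : L.lo < y) (h2 : y < L.hi) {i : ℕ}
    (hi : yu (L.c i) < yw (L.c i)) (hy : yu (L.c i) = y ∨ yw (L.c i) = y) :
    bwP P L.x (y - 1) L.z ≠ bwP P L.x y L.z := by
  have ho := L.in_iff ⟨h1, h2⟩
  rw [← L.xl_c i, ← L.zl_c i] at ho ⊢
  rcases hy with hy | hy
  · have e1 := (i2a (L.c i) (y := y) (by omega) (by omega)).2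
    have hn : nuD P (L.c (i + L.n - 1)) = L.c i := by
      rw [← L.c_pred, Equiv.apply_symm_apply]
    have e2 : bwP P (xl (L.c i)) (y - 1) (zl (L.c i)) = false := by
      have hx : xl (L.c (i + L.n - 1)) = xl (L.c i) := by rw [L.xl_c, L.xl_c]
      have hz : zl (L.c (i + L.n - 1)) = zl (L.c i) := by rw [L.zl_c, L.zl_c]
      rcases i4b hM h3 (L.c (i + L.n - 1)) (v := y) (by rw [hn]; exact hy)
        (by rw [hx, hz]; exact ho.1) (by rw [hx, hz]; exact ho.2) with ⟨k1, k2⟩ | ⟨k1, k2⟩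
      · rw [← hx, ← hz]
        exact (i2c (L.c (i + L.n - 1)) (y := y - 1) (by omega) (by rw [hn]; omega)).2
      · rw [hn] at k1; omega
    rw [e1, e2]; decide
  · have e1 := (i2a (L.c i) (y := y - 1) (by omega) (by omega)).2
    have e2 : bwP P (xl (L.c i)) y (zl (L.c i)) = false := by
      rcases i4a hM h3 (L.c i) hy ho.1 ho.2 with ⟨k1, k2⟩ | ⟨k1, k2⟩
      · exact (i2c (L.c i) (y := y) (by omega) (by omega)).2
      · omega
    rw [e1, e2]; decide

/-- the abstract leaf -/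
noncomputable def lc (hM : P.IsManifold) (h3 : Deg3 P) (Z : Sites P) : LC where
  n := L.n
  m := L.m
  lo := L.lo
  hi := L.hi
  yu := fun i => yu (L.c i)
  yw := fun i => yw (L.c i)
  S := fun i => Z.S (L.c i)
  hn := L.hn
  hm := L.hm
  yu_per := fun i => by rw [L.c_per]
  yw_per := fun i => by rw [L.c_per]
  S_per := fun i => by rw [L.c_per]
  S_two := L.hS Z
  lohi := L.lohi
  ru := L.ru
  rw := L.rw
  up := L.up
  upc := L.upc
  dn := L.dn
  dnc := L.dnc
  bot := L.bot
  top := L.top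
  zero := L.zero
  ev := by
    rintro y h1 h2 ⟨i, hi, hi'⟩ ⟨j, hj, hj'⟩
    have hA := L.evA hM h3 h1 h2 hi hi'
    have hB := L.evB hM h3 h1 h2 hj hj'
    have ho := L.in_iff ⟨h1, h2⟩
    rcases one_event hM h3 L.x y L.z ho.1 ho.2 with h | h
    · exact hA h
    · exact hB h

/-- two leaves on the same line that meet are on the same segment -/
lemma lo_unique (L' : Leaf P) (hx : L.x = L'.x) (hz : L.z = L'.z) {y : ℤ} (h1 : L.lo ≤ y)
    (h2 : y ≤ L.hi) (h1' : L'.lo ≤ y) (h2' : y ≤ L'.hi) : L.lo = L'.lo := by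
  have key : ∀ (L L' : Leaf P), L.x = L'.x → L.z = L'.z → L.lo < L'.lo → L'.lo ≤ y → y ≤ L.hi →
      False := by
    intro L L' hx hz h h1' h2
    have h3 := L.on (L'.lo - 1) (by omega) (by omega)
    rw [hx, hz, L'.off1] at h3
    exact Bool.false_ne_true h3
  rcases lt_trichotomy L.lo L'.lo with h | h | h
  · exact (key L L' hx hz h h1' h2).elim
  · exact h
  · exact (key L' L hx.symm hz.symm h h1 h2').elim

/-- a corner on the line that meets the segment of the leaf belongs to the leaf -/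
lemma mem_of_yw {κ : Dart P} (hx : xl κ = L.x) (hz : zl κ = L.z) (h1 : L.lo ≤ yw κ)
    (h2 : yw κ ≤ L.hi) : ∃ i < L.n, L.c i = κ := by
  apply L.all κ hx hz
  · by_contra hlt
    have := (i2a κ (y := L.lo - 1) (by omega) (by omega)).1
    rw [hx, hz, L.off1] at this
    exact Bool.false_ne_true this
  · by_contra hlt
    have := (i2b κ (y := L.hi) (by omega) (by omega)).1
    rw [hx, hz, L.off2] at this
    exact Bool.false_ne_true this

/-- a corner whose wall meets the segment belongs to the leaf -/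
lemma mem_of_wall {κ : Dart P} (hx : xl κ = L.x) (hz : zl κ = L.z) {y : ℤ} (h1 : L.lo ≤ y)
    (h2 : y ≤ L.hi) (h : (yu κ ≤ y ∧ y ≤ yw κ) ∨ (yw κ ≤ y ∧ y ≤ yu κ)) :
    ∃ i < L.n, L.c i = κ := by
  apply L.all κ hx hz
  · by_contra hlt
    rcases h with h | h
    · have := (i2a κ (y := L.lo - 1) (by omega) (by omega)).1
      rw [hx, hz, L.off1] at this
      exact Bool.false_ne_true this
    · omega
  · by_contra hlt
    rcases h with h | h
    · omega
    · have := (i2b κ (y := L.hi) (by omega) (by omega)).1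
      rw [hx, hz, L.off2] at this
      exact Bool.false_ne_true this

/-- a strip that meets the segment -/
lemma mem_of_strip {κ : Dart P} (hx : xl κ = L.x) (hz : zl κ = L.z) {y : ℤ} (h1 : L.lo ≤ y)
    (h2 : y ≤ L.hi)
    (h : (yw κ ≤ y ∧ y ≤ yu (nuD P κ)) ∨ (yu (nuD P κ) ≤ y ∧ y ≤ yw κ)) :
    ∃ i < L.n, L.c i = κ := by
  apply L.mem_of_yw hx hz
  · by_contra hlt
    rcases h with h | h
    · have := (i2c κ (y := L.lo - 1) (by omega) (by omega)).1
      rw [hx, hz, L.off1] at this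
      exact Bool.false_ne_true this
    · omega
  · by_contra hlt
    rcases h with h | h
    · omega
    · have := (i2d κ (y := L.hi) (by omega) (by omega)).1
      rw [hx, hz, L.off2] at this
      exact Bool.false_ne_true this

end Leaf

end Pool.Agent.MP42D
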