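import Pool.Agent.MP42.D.ARv

/-!
# Piece A: the decoration of a solid

Every leaf with at least three corners gives an `LC`; the line `(x, z)` takes on every maximal
segment of the line in the surface the data of its leaf.
-/

set_option autoImplicit false
set_option linter.unusedSectionVars false

namespace Pool.Agent.MP42D

open Pool.Agent.Helper55.UNF Pool.Agent.Helper55.UNF.GridSolid Pool.Agent.MP42

variable {P : GridSolid} {hM : P.IsManifold} {h3 : Deg3 P} {Z : Sites P} {d0 : Dart P}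

/-! ## The words without values -/

/-- trivial values -/
def triv (D : Deco0 P) : D.Vals where
  V := fun x z =>
    { M := fun _ _ => True
      C := fun _ _ => True
      fN := fun _ => True
      fS := fun _ => True
      gS := fun _ => True
      gN := fun _ => True
      M_st := fun _ _ _ _ => Iff.rfl
      fN_st := fun _ _ _ _ => Iff.rfl
      fS_st := fun _ _ _ _ => Iff.rfl
      gS_st := fun _ _ _ _ => Iff.rfl
      gN_st := fun _ _ _ _ => Iff.rfl
      bp := fun _ _ => Iff.rfl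
      vl := fun _ _ => Iff.rfl }
  vN := fun _ => True
  vS := fun _ => True

lemma fst_mv {τ σ : Type*} (g : σ → τ) (w : List (Bool × σ × Prop)) :
    mg Prod.fst (mv g w) = mg g (mg Prod.fst w) := by
  unfold mv mg
  rw [List.map_map, List.map_map]
  rfl

theorem rw_eq {L : Leaf P} (hc : Ch L) (i : ℕ) :
    (dz hM h3 Z d0).rw (L.c i) = opt (Z.S (L.c i)) (true, Sum.inl (L.c i)) ++
      mg (tg L) ((L.lc hM h3 Z).cw i) ++
      opt (Z.S (L.c (i + L.n - 1))) (true, Sum.inl (L.c (i + L.n - 1))) := by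
  have h := congrArg (mg Prod.fst) (rwV_eq (hM := hM) (h3 := h3) (Z := Z) (d0 := d0) hc
    (triv _) i)
  rw [Deco0.Vals.fst_rw, mg_append, mg_append, fst_mv, LC.fst_cwV, mg_fst_opt, mg_fst_opt] at h
  exact h

/-! ## Corners outside the leaves -/

/-- a corner is in a chosen leaf or has a short orbit -/
lemma cases_leaf (hM : P.IsManifold) (h3 : Deg3 P) (κ : Dart P) :
    (∃ L : Leaf P, Ch L ∧ ∃ i < L.n, L.c i = κ) ∨ nuD P κ = κ ∨ nuD P (nuD P κ) = κ := by
  by_cases h1 : nuD P κ = κ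
  · exact Or.inr (Or.inl h1)
  by_cases h2 : nuD P (nuD P κ) = κ
  · exact Or.inr (Or.inr h2)
  obtain ⟨L, i, hi, rfl⟩ := exists_leaf hM h3 κ h1 h2
  left
  obtain ⟨L', h4, hx, hz, hlo, hhi⟩ := lf_some L rfl rfl (L.ru i).1 (L.ru i).2
  refine ⟨L', Ch_of h4, ?_⟩
  obtain ⟨j, hj, hj'⟩ := L'.all (L.c i) ((L.xl_c i).trans hx.symm) ((L.zl_c i).trans hz.symm)
    (by rw [hlo]; exact (L.ru i).1) (by rw [hhi]; exact (L.ru i).2)
  exact ⟨j, hj, hj'⟩

lemma not_short (L : Leaf P) (i : ℕ) : nuD P (L.c i) ≠ L.c i ∧ nuD P (nuD P (L.c i)) ≠ L.c i := by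
  have hn := L.hn
  have key : ∀ j, j < 3 → 0 < j → L.c (i + j) ≠ L.c i := by
    intro j hj hj0 h
    have h1 := L.c_eq.1 h
    have h2 : (i + j) % L.n = (i % L.n + j) % L.n := by rw [Nat.mod_add_mod]
    rw [h2] at h1
    have h3 : i % L.n < L.n := Nat.mod_lt _ L.n_pos
    by_cases h4 : i % L.n + j < L.n
    · rw [Nat.mod_eq_of_lt h4] at h1
      omega
    · rw [Nat.mod_eq_sub_mod (by omega), Nat.mod_eq_of_lt (by omega)] at h1
      omega
  constructor
  · rw [← L.step]; exact key 1 (by omega) (by omega)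
  · rw [← L.step, ← L.step]; exact key 2 (by omega) (by omega)

section Short

variable {κ : Dart P} (hs : nuD P κ = κ ∨ nuD P (nuD P κ) = κ)

include hs

lemma short_not (L : Leaf P) (i : ℕ) : L.c i ≠ κ := by
  rintro rfl
  rcases hs with h | h
  · exact (not_short L i).1 h
  · exact (not_short L i).2 h

lemma short_S (Z : Sites P) : Z.S κ = false ∧ Z.S ((nuD P).symm κ) = false := by
  by_cases h1 : nuD P κ = κ
  · have h2 : (nuD P).symm κ = κ := by rw [Equiv.symm_apply_eq]; exact h1.symm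
    rw [h2]
    have h3 : Z.S κ = false := by
      by_contra hne
      have h4 := Z.h_S κ (by simpa using hne)
      rw [h1] at h4
      exact lt_irrefl _ h4
    exact ⟨h3, h3⟩
  · have h2 : nuD P (nuD P κ) = κ := hs.resolve_left h1
    obtain ⟨a, b, hab, ha, hb, h4, h5⟩ := Z.two κ h1
    have h6 : (nuD P).symm κ = nuD P κ := by rw [Equiv.symm_apply_eq]; exact h2.symm
    have h7 : ∀ n : ℕ, ((nuD P) ^ n) κ = κ ∨ ((nuD P) ^ n) κ = nuD P κ := by
      intro n
      induction n with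
      | zero => left; rfl
      | succ n ih =>
        rw [pow_succ', Equiv.Perm.mul_apply]
        rcases ih with ih | ih
        · right; rw [ih]
        · left; rw [ih, h2]
    have h8 : ∀ c, (nuD P).SameCycle κ c → c = κ ∨ c = nuD P κ := by
      intro c hc
      obtain ⟨n, hn⟩ := hc.exists_nat_pow_eq
      rw [← hn]
      exact h7 n
    rw [h6]
    rcases h8 a h4 with rfl | rfl
    · rcases h8 b h5 with rfl | rfl
      · exact absurd rfl hab
      · exact ⟨ha, hb⟩
    · rcases h8 b h5 with rfl | rfl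
      · exact ⟨hb, ha⟩
      · exact absurd rfl hab

lemma short_lf {y : ℤ} (h : y = yu κ ∨ y = yw κ ∨ (yu κ ≤ y ∧ y ≤ yw κ) ∨
    (yw κ ≤ y ∧ y ≤ yu κ)) : lf P (xl κ) (zl κ) y = none := by
  cases hf : lf P (xl κ) (zl κ) y with
  | none => rfl
  | some L =>
    exfalso
    have h1 := lf_spec hf
    have h2 : ∃ i < L.n, L.c i = κ := by
      rcases h with rfl | rfl | h | h
      · exact L.all κ h1.1.symm h1.2.1.symm h1.2.2.1 h1.2.2.2
      · exact L.mem_of_yw h1.1.symm h1.2.1.symm h1.2.2.1 h1.2.2.2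
      · exact L.mem_of_wall h1.1.symm h1.2.1.symm h1.2.2.1 h1.2.2.2 (Or.inl h)
      · exact L.mem_of_wall h1.1.symm h1.2.1.symm h1.2.2.1 h1.2.2.2 (Or.inr h)
    obtain ⟨i, -, hi⟩ := h2
    exact short_not hs L i hi

lemma short_lfD : lfD κ = none := short_lf hs (Or.inl rfl)

lemma short_M (s : Fin 4) {y : ℤ} (h : y = yu κ ∨ y = yw κ) :
    (kd hM h3 Z d0 (xl κ) (zl κ)).M s y = false ∧
      (kd hM h3 Z d0 (xl κ) (zl κ)).M s (y - 1) = false := by
  constructor
  · show (lf P (xl κ) (zl κ) y).elim false _ = false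
    rw [short_lf hs (by rcases h with h | h <;> simp [h])]
    rfl
  · by_contra hne
    obtain ⟨L, hc, hx, hz, h1, h2, -⟩ := kd_M_true (by simpa using hne :
      (kd hM h3 Z d0 (xl κ) (zl κ)).M s (y - 1) = true)
    have h4 : lf P (xl κ) (zl κ) y = some L := by
      rw [← hx, ← hz]; exact hc.at (by omega) (by omega)
    rw [short_lf hs (by rcases h with h | h <;> simp [h])] at h4
    exact absurd h4 (by simp)

lemma short_xw : (kd hM h3 Z d0 (xl κ) (zl κ)).xw (yu κ) (yw κ) = [] := by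
  have k1 : (kd hM h3 Z d0 (xl κ) (zl κ)).opA (yw κ) = [] := by
    unfold KD.opA sl4
    simp [(short_M hs _ (Or.inr rfl)).1, (short_M hs _ (Or.inr rfl)).2, opt]
  have k2 : (kd hM h3 Z d0 (xl κ) (zl κ)).clA (yu κ) = [] := by
    unfold KD.clA ls4
    simp [(short_M hs _ (Or.inl rfl)).1, (short_M hs _ (Or.inl rfl)).2, opt]
  have k3 : (kd hM h3 Z d0 (xl κ) (zl κ)).opB (yw κ) = [] := by
    unfold KD.opB ls4
    simp [(short_M hs _ (Or.inr rfl)).1, (short_M hs _ (Or.inr rfl)).2, opt]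
  have k4 : (kd hM h3 Z d0 (xl κ) (zl κ)).clB (yu κ) = [] := by
    unfold KD.clB sl4
    simp [(short_M hs _ (Or.inl rfl)).1, (short_M hs _ (Or.inl rfl)).2, opt]
  have k5 : ∀ y, (yu κ ≤ y ∧ y ≤ yw κ) ∨ (yw κ ≤ y ∧ y ≤ yu κ) →
      (kd hM h3 Z d0 (xl κ) (zl κ)).ct y = [] := by
    intro y hy
    have h4 := short_lf hs (Or.inr (Or.inr hy))
    have e1 : ∀ s, (kd hM h3 Z d0 (xl κ) (zl κ)).cn s y = false := by
      intro s
      show (lf P (xl κ) (zl κ) y).elim false _ = false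
      rw [h4]; rfl
    have e2 : ∀ s, (kd hM h3 Z d0 (xl κ) (zl κ)).cs s y = false := by
      intro s
      show (lf P (xl κ) (zl κ) y).elim false _ = false
      rw [h4]; rfl
    unfold KD.ct
    rw [e1, e2, e1, e2]
    rfl
  have k6 : ∀ (a : ℤ) (l : ℕ), (∀ y, a ≤ y → y < a + l → (yu κ ≤ y ∧ y ≤ yw κ) ∨
      (yw κ ≤ y ∧ y ≤ yu κ)) → (kd hM h3 Z d0 (xl κ) (zl κ)).cts a l = [] := by
    intro a l h
    unfold KD.cts
    rw [List.flatMap_eq_nil_iff]
    intro i hi
    rw [List.mem_range] at hi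
    exact k5 _ (h _ (by omega) (by omega))
  unfold KD.xw
  split_ifs with h1 h2
  · rw [k1, k2, k6 _ _ (fun y h4 h5 => Or.inr ⟨h4, by omega⟩)]
    rfl
  · rw [k3, k4, k6 _ _ (fun y h4 h5 => Or.inl ⟨h4, by omega⟩)]
    rfl
  · rfl

lemma short_fl {y : ℤ} (h : y = yu κ ∨ y = yw κ) :
    (kd hM h3 Z d0 (xl κ) (zl κ)).fN y = false ∧ (kd hM h3 Z d0 (xl κ) (zl κ)).fS y = false ∧
    (kd hM h3 Z d0 (xl κ) (zl κ)).gS y = false ∧ (kd hM h3 Z d0 (xl κ) (zl κ)).gN y = false := by
  have h4 : lf P (xl κ) (zl κ) y = none := short_lf hs (by rcases h with h | h <;> simp [h])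
  refine ⟨?_, ?_, ?_, ?_⟩ <;>
  · show (lf P (xl κ) (zl κ) y).elim false _ = false
    rw [h4]; rfl

end Short

lemma short_pred {κ : Dart P} (hs : nuD P κ = κ ∨ nuD P (nuD P κ) = κ) :
    nuD P ((nuD P).symm κ) = (nuD P).symm κ ∨
      nuD P (nuD P ((nuD P).symm κ)) = (nuD P).symm κ := by
  rw [Equiv.apply_symm_apply]
  rcases hs with h | h
  · left; rw [Equiv.eq_symm_apply]; exact h
  · right; rw [Equiv.eq_symm_apply]; exact h

lemma short_NL {κ : Dart P} (hs : nuD P κ = κ ∨ nuD P (nuD P κ) = κ) :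
    (dz hM h3 Z d0).NL κ = false ∧ (dz hM h3 Z d0).SL κ = false := by
  constructor
  · show (Z.S κ || (lfD κ).elim false _) = false
    rw [short_lfD hs, (short_S hs Z).1]; rfl
  · show (lfD κ).elim false _ = false
    rw [short_lfD hs]; rfl

lemma short_rw {κ : Dart P} (hs : nuD P κ = κ ∨ nuD P (nuD P κ) = κ) :
    (dz hM h3 Z d0).rw κ = [] := by
  have h1 := short_NL (hM := hM) (h3 := h3) (Z := Z) (d0 := d0) hs
  have h2 := short_NL (hM := hM) (h3 := h3) (Z := Z) (d0 := d0) (short_pred hs)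
  have h4 := short_fl (hM := hM) (h3 := h3) (Z := Z) (d0 := d0) hs (y := yu κ) (Or.inl rfl)
  have h5 := short_fl (hM := hM) (h3 := h3) (Z := Z) (d0 := d0) hs (y := yw κ) (Or.inr rfl)
  have h6 := short_xw (hM := hM) (h3 := h3) (Z := Z) (d0 := d0) hs
  have hK : (dz hM h3 Z d0).Kc κ = kd hM h3 Z d0 (xl κ) (zl κ) := rfl
  unfold Deco0.rw
  simp only []
  rw [hK, h1.1, h1.2, h2.1, h2.2, h4.1, h4.2.1, h4.2.2.1, h4.2.2.2, h5.1, h5.2.1, h5.2.2.1,
    h5.2.2.2, h6]
  simp [opt]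

end Pool.Agent.MP42D
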