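import Pool.Agent.MP42.D.ADeco

/-!
# Piece A: the lines of the decoration are good
-/

set_option autoImplicit false
set_option linter.unusedSectionVars false

namespace Pool.Agent.MP42D

open Pool.Agent.Helper55.UNF Pool.Agent.Helper55.UNF.GridSolid Pool.Agent.MP42

variable {P : GridSolid} {hM : P.IsManifold} {h3 : Deg3 P} {Z : Sites P} {d0 : Dart P}

lemma aw_on8 : ∀ a b c d : Bool, ((c && !d) || (!a && b)) = true → Geo.onB a b c d = true := by
  decide
lemma bw_on8 : ∀ a b c d : Bool, ((!c && d) || (a && !b)) = true → Geo.onB a b c d = true := by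
  decide

lemma awP_on {x y z : ℤ} (h : awP P x y z = true) : onP P x y z = true := aw_on8 _ _ _ _ h
lemma bwP_on {x y z : ℤ} (h : bwP P x y z = true) : onP P x y z = true := bw_on8 _ _ _ _ h

/-- a segment in the surface is in a chosen leaf with both ends or in none -/
lemma pair {x y z : ℤ} (h : onP P x y z = true) :
    (lf P x z y = none ∧ lf P x z (y + 1) = none) ∨
    ∃ L : Leaf P, Ch L ∧ L.x = x ∧ L.z = z ∧ L.lo ≤ y ∧ y < L.hi := by
  cases h1 : lf P x z y with
  | none =>
    left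
    refine ⟨rfl, ?_⟩
    cases h2 : lf P x z (y + 1) with
    | none => rfl
    | some L =>
      exfalso
      have hs := lf_spec h2
      by_cases hy : L.lo ≤ y
      · exact lf_none h1 L hs.1 hs.2.1 hy (by omega)
      · have e : y = L.lo - 1 := by omega
        have h3 := L.off1
        rw [hs.1, hs.2.1, ← e, h] at h3
        exact Bool.false_ne_true h3.symm
  | some L =>
    right
    have hs := lf_spec h1
    refine ⟨L, Ch_of h1, hs.1, hs.2.1, hs.2.2.1, ?_⟩
    rcases lt_or_eq_of_le hs.2.2.2 with h2 | h2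
    · exact h2
    · have h3 := L.off2
      rw [hs.1, hs.2.1, ← h2, h] at h3
      exact absurd h3 (by decide)

lemma lc_aw (L : Leaf P) {y : ℤ} (h1 : L.lo ≤ y) (h2 : y < L.hi) :
    (L.lc hM h3 Z).K.aw y = awP P L.x y L.z := by
  have h := L.awI y h1 h2
  cases ha : awP P L.x y L.z
  · rw [ha] at h
    apply decide_eq_false
    intro h4
    exact Bool.false_ne_true (h.2 h4)
  · rw [ha] at h
    exact decide_eq_true (h.1 rfl)

lemma lc_bw (L : Leaf P) {y : ℤ} (h1 : L.lo ≤ y) (h2 : y < L.hi) :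
    (L.lc hM h3 Z).K.bw y = bwP P L.x y L.z := by
  have h := L.bwI y h1 h2
  cases ha : bwP P L.x y L.z
  · rw [ha] at h
    apply decide_eq_false
    intro h4
    exact Bool.false_ne_true (h.2 h4)
  · rw [ha] at h
    exact decide_eq_true (h.1 rfl)

lemma lc_on (L : Leaf P) {y : ℤ} : (L.lc hM h3 Z).on y = true ↔ L.lo ≤ y ∧ y < L.hi := by
  unfold LC.on
  rw [decide_eq_true_iff]
  exact Iff.rfl

/-- a track is in a chosen leaf -/
lemma kd_M_true {x z y : ℤ} {s : Fin 4} (h : (kd hM h3 Z d0 x z).M s y = true) :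
    ∃ L : Leaf P, Ch L ∧ L.x = x ∧ L.z = z ∧ L.lo ≤ y - 1 ∧ y + 1 < L.hi ∧
      (L.lc hM h3 Z).K.M s y = true := by
  have h1 : (lf P x z y).elim false (fun L => (L.lc hM h3 Z).K.M s y) = true := h
  cases h2 : lf P x z y with
  | none => rw [h2] at h1; exact absurd h1 (by simp)
  | some L =>
    rw [h2] at h1
    have h1' : (L.lc hM h3 Z).K.M s y = true := h1
    have hs := lf_spec h2
    have h4 := (L.lc hM h3 Z).facts.ok.M_on s y h1'
    rw [lc_on, lc_on, lc_on] at h4
    exact ⟨L, Ch_of h2, hs.1, hs.2.1, h4.1.1, h4.2.2.2, h1'⟩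

theorem kd_ok (x z : ℤ) : (kd hM h3 Z d0 x z).Ok (fun y => onP P x y z) where
  ev := fun y h1 h2 => one_event hM h3 x y z h1 h2
  aw_on := fun y h => awP_on h
  bw_on := fun y h => bwP_on h
  M_on := fun s y h => by
    obtain ⟨L, -, rfl, rfl, h1, h2, -⟩ := kd_M_true h
    exact ⟨L.on _ h1 (by omega), L.on _ (by omega) (by omega), L.on _ (by omega) h2⟩
  start := fun s y h h' => by
    obtain ⟨L, hc, rfl, rfl, h1, h2, h4⟩ := kd_M_true h
    rw [kd_M hc s h1 (by omega)] at h'
    have h5 := (L.lc hM h3 Z).facts.ok.start s y h4 h'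
    rw [lc_aw L h1 (by omega), lc_aw L (by omega) (by omega), lc_bw L h1 (by omega),
      lc_bw L (by omega) (by omega)] at h5
    exact h5
  stop := fun s y h h' => by
    obtain ⟨L, hc, rfl, rfl, h1, h2, h4⟩ := kd_M_true h
    rw [kd_M hc s (by omega) (by omega)] at h'
    have h5 := (L.lc hM h3 Z).facts.ok.stop s y h4 h'
    rw [lc_aw L (by omega) (by omega), lc_aw L (by omega) (by omega),
      lc_bw L (by omega) (by omega), lc_bw L (by omega) (by omega)] at h5
    exact h5
  ordA := fun y s s' h h' k k' => by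
    obtain ⟨L, hc, rfl, rfl, h1, h2, h4⟩ := kd_M_true k'
    rw [kd_M hc s h1 (by omega), kd_M hc s (by omega) (by omega)] at h'
    rw [kd_M hc s' h1 (by omega)] at k
    refine (L.lc hM h3 Z).facts.ok.ordA y s s' ?_ h' k h4
    rw [lc_aw L h1 (by omega), lc_aw L (by omega) (by omega)]
    exact h
  ordB := fun y s s' h h' k k' => by
    obtain ⟨L, hc, rfl, rfl, h1, h2, h4⟩ := kd_M_true k'
    rw [kd_M hc s h1 (by omega), kd_M hc s (by omega) (by omega)] at h'
    rw [kd_M hc s' h1 (by omega)] at k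
    refine (L.lc hM h3 Z).facts.ok.ordB y s s' ?_ h' k h4
    rw [lc_bw L h1 (by omega), lc_bw L (by omega) (by omega)]
    exact h
  cn_ok := fun s y h => by
    have h1 : (lf P x z y).elim false (fun L => (L.lc hM h3 Z).K.cn s y) = true := h
    cases h2 : lf P x z y with
    | none => rw [h2] at h1; exact absurd h1 (by simp)
    | some L =>
      rw [h2] at h1
      have h1' : (L.lc hM h3 Z).K.cn s y = true := h1
      have hs := lf_spec h2
      have hc := Ch_of h2
      obtain ⟨rfl, rfl, hy1, hy2⟩ := hs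
      obtain ⟨k1, k2, k3, k4, k5⟩ := (L.lc hM h3 Z).facts.ok.cn_ok s y h1'
      have hy3 := (lc_on L).1 ((L.lc hM h3 Z).facts.ok.aw_on y k1)
      refine ⟨?_, ?_, k3, ?_, ?_⟩
      · show awP P L.x y L.z = true
        rw [← lc_aw L hy1 hy3.2]; exact k1
      · show bwP P L.x y L.z = true
        rw [← lc_bw L hy1 hy3.2]; exact k2
      · intro s'
        rw [kd_M hc s' hy1 hy2]; exact k4 s'
      · intro s'
        rw [(agree hc).cs s' y hy1 hy2]; exact k5 s'
  cs_ok := fun s y h => by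
    have h1 : (lf P x z y).elim false (fun L => (L.lc hM h3 Z).K.cs s y) = true := h
    cases h2 : lf P x z y with
    | none => rw [h2] at h1; exact absurd h1 (by simp)
    | some L =>
      rw [h2] at h1
      have h1' : (L.lc hM h3 Z).K.cs s y = true := h1
      have hs := lf_spec h2
      have hc := Ch_of h2
      obtain ⟨rfl, rfl, hy1, hy2⟩ := hs
      obtain ⟨k1, k2, k3, k4, k5⟩ := (L.lc hM h3 Z).facts.ok.cs_ok s y h1'
      have hy3 := (lc_on L).1 ((L.lc hM h3 Z).facts.ok.aw_on y k1)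
      refine ⟨?_, ?_, k3, ?_, ?_⟩
      · show awP P L.x y L.z = true
        rw [← lc_aw L hy1 hy3.2]; exact k1
      · show bwP P L.x y L.z = true
        rw [← lc_bw L hy1 hy3.2]; exact k2
      · intro s'
        rw [kd_M hc s' hy1 hy2]; exact k4 s'
      · intro s'
        rw [(agree hc).cn s' y hy1 hy2]; exact k5 s'
  bp_ok := fun y h => by
    have h1 : (lf P x z y).elim false (fun L => (L.lc hM h3 Z).K.bp y) = true := h
    cases h2 : lf P x z y with
    | none => rw [h2] at h1; exact absurd h1 (by simp)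
    | some L =>
      rw [h2] at h1
      have h1' : (L.lc hM h3 Z).K.bp y = true := h1
      have hs := lf_spec h2
      have hc := Ch_of h2
      obtain ⟨rfl, rfl, hy1, hy2⟩ := hs
      obtain ⟨k0, k1, k2, k3, k4, k5, k6⟩ := (L.lc hM h3 Z).facts.ok.bp_ok y h1'
      have hy3 := (lc_on L).1 k0
      have a1 := agree_fl (hM := hM) (h3 := h3) (Z := Z) (d0 := d0) hc hy1 hy2
      have a2 := agree_fl (hM := hM) (h3 := h3) (Z := Z) (d0 := d0) hc (y := y + 1) (by omega)
        (by omega)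
      refine ⟨L.on y hy1 hy3.2, ?_, ?_, ?_, ?_, ?_, ?_⟩
      · show awP P L.x y L.z = false
        rw [← lc_aw L hy1 hy3.2]; exact k1
      · show bwP P L.x y L.z = false
        rw [← lc_bw L hy1 hy3.2]; exact k2
      · intro s'
        rw [kd_M hc s' hy1 hy2]; exact k3 s'
      · rw [a2.2.2.1]; exact k4
      · rw [a2.2.2.2.1]; exact k5
      · rw [a1.2.2.2.2.2.1]; exact k6
  vl_ok := fun y h => by
    have h1 : (lf P x z y).elim false (fun L => (L.lc hM h3 Z).K.vl y) = true := h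
    cases h2 : lf P x z y with
    | none => rw [h2] at h1; exact absurd h1 (by simp)
    | some L =>
      rw [h2] at h1
      have h1' : (L.lc hM h3 Z).K.vl y = true := h1
      have hs := lf_spec h2
      have hc := Ch_of h2
      obtain ⟨rfl, rfl, hy1, hy2⟩ := hs
      obtain ⟨k0, k1, k2, k3, k4, k5, k6⟩ := (L.lc hM h3 Z).facts.ok.vl_ok y h1'
      have hy3 := (lc_on L).1 k0
      have a1 := agree_fl (hM := hM) (h3 := h3) (Z := Z) (d0 := d0) hc hy1 hy2
      have a2 := agree_fl (hM := hM) (h3 := h3) (Z := Z) (d0 := d0) hc (y := y + 1) (by omega)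
        (by omega)
      refine ⟨L.on y hy1 hy3.2, ?_, ?_, ?_, ?_, ?_, ?_⟩
      · show awP P L.x y L.z = false
        rw [← lc_aw L hy1 hy3.2]; exact k1
      · show bwP P L.x y L.z = false
        rw [← lc_bw L hy1 hy3.2]; exact k2
      · intro s'
        rw [kd_M hc s' hy1 hy2]; exact k3 s'
      · rw [a1.2.2.2.2.1]; exact k4
      · rw [a1.2.2.2.2.2.1]; exact k5
      · rw [a2.2.2.1]; exact k6
  fN_st := fun y h h' => by
    rcases pair h with ⟨k1, k2⟩ | ⟨L, hc, rfl, rfl, hy1, hy2⟩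
    · show (lf P x z y).elim false _ = ((lf P x z (y + 1)).elim false _ ||
        (lf P x z y).elim false _)
      rw [k1, k2]; rfl
    · have a1 := agree_fl (hM := hM) (h3 := h3) (Z := Z) (d0 := d0) hc hy1 hy2.le
      have a2 := agree_fl (hM := hM) (h3 := h3) (Z := Z) (d0 := d0) hc (y := y + 1) (by omega)
        (by omega)
      rw [a1.1, a1.2.2.1, a2.2.2.1]
      refine (L.lc hM h3 Z).facts.ok.fN_st y ((lc_on L).2 ⟨hy1, hy2⟩) ?_
      rw [lc_aw L hy1 hy2]; exact h'
  gS_st := fun y h h' => by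
    rcases pair h with ⟨k1, k2⟩ | ⟨L, hc, rfl, rfl, hy1, hy2⟩
    · show (lf P x z (y + 1)).elim false _ = ((lf P x z y).elim false _ ||
        (lf P x z y).elim false _)
      rw [k1, k2]; rfl
    · have a1 := agree_fl (hM := hM) (h3 := h3) (Z := Z) (d0 := d0) hc hy1 hy2.le
      have a2 := agree_fl (hM := hM) (h3 := h3) (Z := Z) (d0 := d0) hc (y := y + 1) (by omega)
        (by omega)
      rw [a1.2.1, a1.2.2.2.2.1, a2.2.2.2.2.1]
      refine (L.lc hM h3 Z).facts.ok.gS_st y ((lc_on L).2 ⟨hy1, hy2⟩) ?_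
      rw [lc_aw L hy1 hy2]; exact h'
  fS_st := fun y h h' => by
    rcases pair h with ⟨k1, k2⟩ | ⟨L, hc, rfl, rfl, hy1, hy2⟩
    · show (lf P x z y).elim false _ = ((lf P x z (y + 1)).elim false _ ||
        (lf P x z y).elim false _)
      rw [k1, k2]; rfl
    · have a1 := agree_fl (hM := hM) (h3 := h3) (Z := Z) (d0 := d0) hc hy1 hy2.le
      have a2 := agree_fl (hM := hM) (h3 := h3) (Z := Z) (d0 := d0) hc (y := y + 1) (by omega)
        (by omega)
      rw [a1.1, a1.2.2.2.1, a2.2.2.2.1]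
      refine (L.lc hM h3 Z).facts.ok.fS_st y ((lc_on L).2 ⟨hy1, hy2⟩) ?_
      rw [lc_bw L hy1 hy2]; exact h'
  gN_st := fun y h h' => by
    rcases pair h with ⟨k1, k2⟩ | ⟨L, hc, rfl, rfl, hy1, hy2⟩
    · show (lf P x z (y + 1)).elim false _ = ((lf P x z y).elim false _ ||
        (lf P x z y).elim false _)
      rw [k1, k2]; rfl
    · have a1 := agree_fl (hM := hM) (h3 := h3) (Z := Z) (d0 := d0) hc hy1 hy2.le
      have a2 := agree_fl (hM := hM) (h3 := h3) (Z := Z) (d0 := d0) hc (y := y + 1) (by omega)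
        (by omega)
      rw [a1.2.1, a1.2.2.2.2.2.1, a2.2.2.2.2.2.1]
      refine (L.lc hM h3 Z).facts.ok.gN_st y ((lc_on L).2 ⟨hy1, hy2⟩) ?_
      rw [lc_bw L hy1 hy2]; exact h'
  tM_st := fun s y h h' => by
    obtain ⟨L, hc, rfl, rfl, h1, h2, h4⟩ := kd_M_true h'
    rw [kd_M hc s h1 (by omega)] at h
    rw [(agree hc).tM s y (by omega) (by omega), (agree hc).tM s (y - 1) h1 (by omega),
      (L.lc hM h3 Z).facts.ok.tM_st s y h h4]
  tb_N := fun y h h' k => by
    rcases pair h with ⟨k1, k2⟩ | ⟨L, hc, rfl, rfl, hy1, hy2⟩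
    · have k' : (lf P x z (y + 1)).elim false (fun L => (L.lc hM h3 Z).K.fN (y + 1)) = true := k
      rw [k2] at k'
      exact absurd k' (by simp)
    · have a1 := agree_fl (hM := hM) (h3 := h3) (Z := Z) (d0 := d0) hc hy1 hy2.le
      have a2 := agree_fl (hM := hM) (h3 := h3) (Z := Z) (d0 := d0) hc (y := y + 1) (by omega)
        (by omega)
      rw [a2.2.2.1] at k
      rw [a1.2.2.2.2.2.2.1, a2.2.2.2.2.2.2.1]
      congr 1
      refine (L.lc hM h3 Z).facts.ok.tb_N y ((lc_on L).2 ⟨hy1, hy2⟩) ?_ k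
      rw [lc_aw L hy1 hy2]; exact h'
  tb_S := fun y h h' k => by
    rcases pair h with ⟨k1, k2⟩ | ⟨L, hc, rfl, rfl, hy1, hy2⟩
    · have k' : (lf P x z (y + 1)).elim false (fun L => (L.lc hM h3 Z).K.fS (y + 1)) = true := k
      rw [k2] at k'
      exact absurd k' (by simp)
    · have a1 := agree_fl (hM := hM) (h3 := h3) (Z := Z) (d0 := d0) hc hy1 hy2.le
      have a2 := agree_fl (hM := hM) (h3 := h3) (Z := Z) (d0 := d0) hc (y := y + 1) (by omega)
        (by omega)
      rw [a2.2.2.2.1] at k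
      rw [a1.2.2.2.2.2.2.1, a2.2.2.2.2.2.2.1]
      congr 1
      refine (L.lc hM h3 Z).facts.ok.tb_S y ((lc_on L).2 ⟨hy1, hy2⟩) ?_ k
      rw [lc_bw L hy1 hy2]; exact h'
  tv_S := fun y h h' k => by
    rcases pair h with ⟨k1, k2⟩ | ⟨L, hc, rfl, rfl, hy1, hy2⟩
    · have k' : (lf P x z y).elim false (fun L => (L.lc hM h3 Z).K.gS y) = true := k
      rw [k1] at k'
      exact absurd k' (by simp)
    · have a1 := agree_fl (hM := hM) (h3 := h3) (Z := Z) (d0 := d0) hc hy1 hy2.le
      have a2 := agree_fl (hM := hM) (h3 := h3) (Z := Z) (d0 := d0) hc (y := y + 1) (by omega)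
        (by omega)
      rw [a1.2.2.2.2.1] at k
      rw [a1.2.2.2.2.2.2.2, a2.2.2.2.2.2.2.2]
      congr 1
      refine (L.lc hM h3 Z).facts.ok.tv_S y ((lc_on L).2 ⟨hy1, hy2⟩) ?_ k
      rw [lc_aw L hy1 hy2]; exact h'
  tv_N := fun y h h' k => by
    rcases pair h with ⟨k1, k2⟩ | ⟨L, hc, rfl, rfl, hy1, hy2⟩
    · have k' : (lf P x z y).elim false (fun L => (L.lc hM h3 Z).K.gN y) = true := k
      rw [k1] at k'
      exact absurd k' (by simp)
    · have a1 := agree_fl (hM := hM) (h3 := h3) (Z := Z) (d0 := d0) hc hy1 hy2.le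
      have a2 := agree_fl (hM := hM) (h3 := h3) (Z := Z) (d0 := d0) hc (y := y + 1) (by omega)
        (by omega)
      rw [a1.2.2.2.2.2.1] at k
      rw [a1.2.2.2.2.2.2.2, a2.2.2.2.2.2.2.2]
      congr 1
      refine (L.lc hM h3 Z).facts.ok.tv_N y ((lc_on L).2 ⟨hy1, hy2⟩) ?_ k
      rw [lc_bw L hy1 hy2]; exact h'

end Pool.Agent.MP42D
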