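import Pool.Agent.MP42.D.ARw

/-!
# Piece A: the words of the corners of a leaf
-/

set_option autoImplicit false
set_option linter.unusedSectionVars false

namespace Pool.Agent.MP42D

open Pool.Agent.Helper55.UNF Pool.Agent.Helper55.UNF.GridSolid Pool.Agent.MP42

variable {P : GridSolid}

/-- the word of a corner with the line as a parameter -/
noncomputable def Deco0.Vals.rw' {D : Deco0 P} (W : D.Vals) (x z : ℤ) (κ : Dart P) :
    List (Bool × (Dart P ⊕ Dart P) × Prop) :=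
  let κ' := (nuD P).symm κ
  let V := W.V x z
  (opt (D.SL κ) (false, D.tS κ, W.vS κ) ++
    opt (isUp (phi P κ).1 && (D.K x z).fS (yw κ)) (false, (D.K x z).tb (yw κ), V.fS (yw κ)) ++
    opt (isDn (phi P κ).1 && (D.K x z).gS (yw κ)) (false, (D.K x z).tv (yw κ), V.gS (yw κ))) ++
  (opt (D.NL κ) (true, D.tN κ, W.vN κ) ++
    opt (isUp (phi P κ).1 && (D.K x z).gN (yw κ)) (true, (D.K x z).tv (yw κ), V.gN (yw κ)) ++
    opt (isDn (phi P κ).1 && (D.K x z).fN (yw κ)) (true, (D.K x z).tb (yw κ), V.fN (yw κ))) ++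
  ((D.K x z).withV V).xw (yu κ) (yw κ) ++
  (opt (D.NL κ') (true, D.tN κ', W.vN κ') ++
    opt (isDn κ.1 && (D.K x z).gN (yu κ)) (true, (D.K x z).tv (yu κ), V.gN (yu κ)) ++
    opt (isUp κ.1 && (D.K x z).fN (yu κ)) (true, (D.K x z).tb (yu κ), V.fN (yu κ))) ++
  (opt (D.SL κ') (false, D.tS κ', W.vS κ') ++
    opt (isDn κ.1 && (D.K x z).fS (yu κ)) (false, (D.K x z).tb (yu κ), V.fS (yu κ)) ++
    opt (isUp κ.1 && (D.K x z).gS (yu κ)) (false, (D.K x z).tv (yu κ), V.gS (yu κ)))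

lemma Deco0.Vals.rw_eq' {D : Deco0 P} (W : D.Vals) {x z : ℤ} {κ : Dart P} (hx : xl κ = x)
    (hz : zl κ = z) : W.rw κ = W.rw' x z κ := by
  subst hx hz; rfl

variable {hM : P.IsManifold} {h3 : Deg3 P} {Z : Sites P} {d0 : Dart P}

/-! ## Corners of a leaf -/

lemma dz_NL {L : Leaf P} (hc : Ch L) (i : ℕ) :
    (dz hM h3 Z d0).NL (L.c i) = (Z.S (L.c i) || (L.lc hM h3 Z).NL i) := by
  show (Z.S (L.c i) || (lfD (L.c i)).elim false _) = _
  rw [hc.corner i]
  show (Z.S (L.c i) || (L.lc hM h3 Z).NL (idx L (L.c i))) = _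
  rw [idx_c]
  exact congrArg _ ((L.lc hM h3 Z).NL_mod i)

lemma dz_SL {L : Leaf P} (hc : Ch L) (i : ℕ) :
    (dz hM h3 Z d0).SL (L.c i) = (L.lc hM h3 Z).SL i := by
  show (lfD (L.c i)).elim false _ = _
  rw [hc.corner i]
  show (L.lc hM h3 Z).SL (idx L (L.c i)) = _
  rw [idx_c]
  exact (L.lc hM h3 Z).SL_mod i

lemma dz_vc {L : Leaf P} (hc : Ch L) {i v : ℕ} (hv : (L.lc hM h3 Z).IsV v)
    (h : (L.lc hM h3 Z).c v % L.n = i % L.n) : (dz hM h3 Z d0).vc (L.c i) = L.c v := by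
  show (lfD (L.c i)).elim _ _ = _
  rw [hc.corner i]
  show L.c ((L.lc hM h3 Z).pick fun v => (L.lc hM h3 Z).c v % L.n = idx L (L.c i)) = _
  rw [idx_c]
  congr 1
  exact (L.lc hM h3 Z).pick_c hv h

lemma lc_sB (L : Leaf P) (i : ℕ) :
    (L.lc hM h3 Z).sB i = decide (yw (L.c i) < yu (L.c (i + 1))) := by
  unfold LC.sB
  rw [decide_eq_decide]
  have h1 : L.c (i % L.n) = L.c i := L.c_mod i
  have h2 : L.c (i % L.n + 1) = L.c (i + 1) := by rw [L.step, h1, ← L.step]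
  show i % L.n < L.m ∧ yw (L.c i) ≠ yu (L.c (i + 1)) ↔ _
  constructor
  · rintro ⟨h3, h4⟩
    have h5 := L.up (i % L.n) h3
    rw [h1, h2] at h5
    omega
  · intro h3
    refine ⟨?_, by omega⟩
    by_contra h4
    have h5 := L.dn (i % L.n) (by omega) (Nat.mod_lt _ L.n_pos)
    rw [h1, h2] at h5
    omega

lemma lc_sA (L : Leaf P) (i : ℕ) :
    (L.lc hM h3 Z).sA i = decide (yu (L.c (i + 1)) < yw (L.c i)) := by
  unfold LC.sA
  rw [decide_eq_decide]
  have h1 : L.c (i % L.n) = L.c i := L.c_mod i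
  have h2 : L.c (i % L.n + 1) = L.c (i + 1) := by rw [L.step, h1, ← L.step]
  show L.m ≤ i % L.n ∧ yw (L.c i) ≠ yu (L.c (i + 1)) ↔ _
  constructor
  · rintro ⟨h3, h4⟩
    have h5 := L.dn (i % L.n) h3 (Nat.mod_lt _ L.n_pos)
    rw [h1, h2] at h5
    omega
  · intro h3
    refine ⟨?_, by omega⟩
    by_contra h4
    have h5 := L.up (i % L.n) (by omega)
    rw [h1, h2] at h5
    omega

lemma up_phi (L : Leaf P) (i : ℕ) : isUp (phi P (L.c i)).1 = (L.lc hM h3 Z).sB i := by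
  rw [isUp_phi, lc_sB, L.step]

lemma dn_phi (L : Leaf P) (i : ℕ) : isDn (phi P (L.c i)).1 = (L.lc hM h3 Z).sA i := by
  rw [isDn_phi, lc_sA, L.step]

lemma dn_nu (L : Leaf P) (i : ℕ) : isDn (L.c i).1 = (L.lc hM h3 Z).sB (i + L.n - 1) := by
  have h := L.n_pos
  have h1 : L.c i = nuD P (L.c (i + L.n - 1)) := by
    rw [← L.step, show i + L.n - 1 + 1 = i + L.n by omega, L.c_per]
  rw [h1, isDn_nu, lc_sB, L.step]

lemma up_nu (L : Leaf P) (i : ℕ) : isUp (L.c i).1 = (L.lc hM h3 Z).sA (i + L.n - 1) := by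
  have h := L.n_pos
  have h1 : L.c i = nuD P (L.c (i + L.n - 1)) := by
    rw [← L.step, show i + L.n - 1 + 1 = i + L.n by omega, L.c_per]
  rw [h1, isUp_nu, lc_sA, L.step]

lemma dz_tN {L : Leaf P} {i : ℕ} (hS : Z.S (L.c i) = false)
    (h : (L.lc hM h3 Z).NL i = true) :
    (dz hM h3 Z d0).tN (L.c i) = tg L ((L.lc hM h3 Z).tN i) := by
  unfold Deco0.tN
  rw [if_neg (by show ¬ Z.S (L.c i) = true; rw [hS]; decide)]
  unfold tg
  congr 1
  rw [← L.step]
  exact L.c_eq.2 ((L.lc hM h3 Z).tN_eq h).symm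

lemma dz_tS {L : Leaf P} (hc : Ch L) {i : ℕ} (h : (L.lc hM h3 Z).SL i = true) :
    (dz hM h3 Z d0).tS (L.c i) = tg L ((L.lc hM h3 Z).tS i) := by
  obtain ⟨h1, -, h2⟩ := (L.lc hM h3 Z).SL_tS h
  show Sum.inr ((dz hM h3 Z d0).vc (L.c i)) = _
  rw [dz_vc hc h1 h2]
  rfl

/-- the values on the leaf -/
noncomputable def rs {L : Leaf P} (hc : Ch L)
    (V : (kd hM h3 Z d0 L.x L.z).Val (fun y => onP P L.x y L.z)) :
    (L.lc hM h3 Z).K.Val (L.lc hM h3 Z).on where
  M := V.M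
  C := V.C
  fN := V.fN
  fS := V.fS
  gS := V.gS
  gN := V.gN
  M_st := fun s y h h' => by
    have h4 := (L.lc hM h3 Z).facts.ok.M_on s y h'
    rw [lc_on, lc_on, lc_on] at h4
    refine V.M_st s y ?_ ?_
    · rw [kd_M hc s h4.1.1 (by omega)]; exact h
    · rw [kd_M hc s (by omega) (by omega)]; exact h'
  fN_st := fun y h h' k => by
    have hy := (lc_on L).1 h
    refine V.fN_st y (L.on y hy.1 hy.2) ?_ ?_
    · show awP P L.x y L.z = false
      rw [← lc_aw L hy.1 hy.2]; exact h'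
    · rw [(agree_fl hc (y := y + 1) (by omega) (by omega)).2.2.1]; exact k
  fS_st := fun y h h' k => by
    have hy := (lc_on L).1 h
    refine V.fS_st y (L.on y hy.1 hy.2) ?_ ?_
    · show bwP P L.x y L.z = false
      rw [← lc_bw L hy.1 hy.2]; exact h'
    · rw [(agree_fl hc (y := y + 1) (by omega) (by omega)).2.2.2.1]; exact k
  gS_st := fun y h h' k => by
    have hy := (lc_on L).1 h
    refine V.gS_st y (L.on y hy.1 hy.2) ?_ ?_
    · show awP P L.x y L.z = false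
      rw [← lc_aw L hy.1 hy.2]; exact h'
    · rw [(agree_fl hc (y := y) (by omega) (by omega)).2.2.2.2.1]; exact k
  gN_st := fun y h h' k => by
    have hy := (lc_on L).1 h
    refine V.gN_st y (L.on y hy.1 hy.2) ?_ ?_
    · show bwP P L.x y L.z = false
      rw [← lc_bw L hy.1 hy.2]; exact h'
    · rw [(agree_fl hc (y := y) (by omega) (by omega)).2.2.2.2.2.1]; exact k
  bp := fun y k => by
    have hy := (lc_on L).1 ((L.lc hM h3 Z).facts.ok.bp_ok y k).1
    refine V.bp y ?_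
    rw [(agree_fl hc (y := y) (by omega) (by omega)).1]; exact k
  vl := fun y k => by
    have hy := (lc_on L).1 ((L.lc hM h3 Z).facts.ok.vl_ok y k).1
    refine V.vl y ?_
    rw [(agree_fl hc (y := y) (by omega) (by omega)).2.1]; exact k

lemma agreeV {L : Leaf P} (hc : Ch L)
    (V : (kd hM h3 Z d0 L.x L.z).Val (fun y => onP P L.x y L.z)) :
    Agree ((kd hM h3 Z d0 L.x L.z).withV V) ((L.lc hM h3 Z).K.withV (rs hc V))
      (fun p : ℕ × Prop => (tg L p.1, p.2)) L.lo L.hi := by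
  have h := agree (hM := hM) (h3 := h3) (Z := Z) (d0 := d0) hc
  exact ⟨h.M, h.M0, h.M0', h.cn, h.cs, fun s y h1 h2 => Prod.ext (h.tM s y h1 h2) rfl,
    fun s y h1 h2 => Prod.ext (h.tC s y h1 h2) rfl⟩

lemma fl_part {L : Leaf P} {b b' f f' l : Bool} {t : Dart P ⊕ Dart P} {t' : ℕ} {p : Prop}
    (hb : b = b') (hf : f = f') (ht : t = tg L t') :
    opt (b && f) (l, t, p) = mv (tg L) (opt (b' && f') (l, t', p)) := by
  rw [mv_opt, hb, hf, ht]

lemma optA_false {α : Type*} {b : Bool} (h : b = false) (a : α) : opt b a = [] := by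
  rw [h]; rfl

lemma optA_true {α : Type*} {b : Bool} (h : b = true) (a : α) : opt b a = [a] := by
  rw [h]; rfl

/-- **the word of a corner of a leaf** -/
theorem rwV_eq {L : Leaf P} (hc : Ch L) (W : (dz hM h3 Z d0).Vals) (i : ℕ) :
    W.rw (L.c i) = opt (Z.S (L.c i)) (true, Sum.inl (L.c i), W.vN (L.c i)) ++
      mv (tg L) ((L.lc hM h3 Z).cwV (rs hc (W.V L.x L.z)) (fun j => W.vN (L.c j))
        (fun j => W.vS (L.c j)) i) ++
      opt (Z.S (L.c (i + L.n - 1))) (true, Sum.inl (L.c (i + L.n - 1)),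
        W.vN (L.c (i + L.n - 1))) := by
  have hn := L.n_pos
  rw [W.rw_eq' (L.xl_c i) (L.zl_c i)]
  unfold Deco0.Vals.rw' LC.cwV
  rw [L.c_pred]
  simp only []
  have aw := agree_fl (hM := hM) (h3 := h3) (Z := Z) (d0 := d0) hc (L.rw i).1 (L.rw i).2
  have au := agree_fl (hM := hM) (h3 := h3) (Z := Z) (d0 := d0) hc (L.ru i).1 (L.ru i).2
  obtain ⟨-, -, w1, w2, w3, w4, w5, w6⟩ := aw
  obtain ⟨-, -, u1, u2, u3, u4, u5, u6⟩ := au
  have hX := (agreeV (hM := hM) (h3 := h3) (Z := Z) (d0 := d0) hc (W.V L.x L.z)).xw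
    (L.ru i).1 (L.ru i).2 (L.rw i).1 (L.rw i).2
  have ub := up_phi (hM := hM) (h3 := h3) (Z := Z) L i
  have db := dn_phi (hM := hM) (h3 := h3) (Z := Z) L i
  have ua := up_nu (hM := hM) (h3 := h3) (Z := Z) L i
  have da := dn_nu (hM := hM) (h3 := h3) (Z := Z) L i
  have hi1 : L.c (i + L.n - 1 + 1) = L.c i := by
    rw [show i + L.n - 1 + 1 = i + L.n by omega, L.c_per]
  have H12 : (opt ((dz hM h3 Z d0).SL (L.c i))
        (false, (dz hM h3 Z d0).tS (L.c i), W.vS (L.c i)) ++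
      opt (isUp (phi P (L.c i)).1 && (kd hM h3 Z d0 L.x L.z).fS (yw (L.c i)))
        (false, (kd hM h3 Z d0 L.x L.z).tb (yw (L.c i)), (W.V L.x L.z).fS (yw (L.c i))) ++
      opt (isDn (phi P (L.c i)).1 && (kd hM h3 Z d0 L.x L.z).gS (yw (L.c i)))
        (false, (kd hM h3 Z d0 L.x L.z).tv (yw (L.c i)), (W.V L.x L.z).gS (yw (L.c i)))) ++
      (opt ((dz hM h3 Z d0).NL (L.c i)) (true, (dz hM h3 Z d0).tN (L.c i), W.vN (L.c i)) ++
      opt (isUp (phi P (L.c i)).1 && (kd hM h3 Z d0 L.x L.z).gN (yw (L.c i)))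
        (true, (kd hM h3 Z d0 L.x L.z).tv (yw (L.c i)), (W.V L.x L.z).gN (yw (L.c i))) ++
      opt (isDn (phi P (L.c i)).1 && (kd hM h3 Z d0 L.x L.z).fN (yw (L.c i)))
        (true, (kd hM h3 Z d0 L.x L.z).tb (yw (L.c i)), (W.V L.x L.z).fN (yw (L.c i)))) =
      opt (Z.S (L.c i)) (true, Sum.inl (L.c i), W.vN (L.c i)) ++
      mv (tg L) ((opt ((L.lc hM h3 Z).SL i) (false, (L.lc hM h3 Z).tS i, W.vS (L.c i)) ++
      opt ((L.lc hM h3 Z).sB i && (L.lc hM h3 Z).K.fS (yw (L.c i)))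
        (false, (L.lc hM h3 Z).K.tb (yw (L.c i)), (W.V L.x L.z).fS (yw (L.c i))) ++
      opt ((L.lc hM h3 Z).sA i && (L.lc hM h3 Z).K.gS (yw (L.c i)))
        (false, (L.lc hM h3 Z).K.tv (yw (L.c i)), (W.V L.x L.z).gS (yw (L.c i)))) ++
      (opt ((L.lc hM h3 Z).NL i) (true, (L.lc hM h3 Z).tN i, W.vN (L.c i)) ++
      opt ((L.lc hM h3 Z).sB i && (L.lc hM h3 Z).K.gN (yw (L.c i)))
        (true, (L.lc hM h3 Z).K.tv (yw (L.c i)), (W.V L.x L.z).gN (yw (L.c i))) ++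
      opt ((L.lc hM h3 Z).sA i && (L.lc hM h3 Z).K.fN (yw (L.c i)))
        (true, (L.lc hM h3 Z).K.tb (yw (L.c i)), (W.V L.x L.z).fN (yw (L.c i))))) := by
    cases hS : Z.S (L.c i)
    · rw [optA_false rfl, List.nil_append, mv_append, mv_append, mv_append, mv_append, mv_append]
      rw [fl_part ub w2 w5, fl_part db w3 w6, fl_part ub w4 w6, fl_part db w1 w5]
      congr 1
      · congr 1
        congr 1
        rw [mv_opt]
        exact opt_congr (dz_SL hc i) (fun h => by rw [dz_tS hc h])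
      · congr 1
        congr 1
        rw [mv_opt]
        refine opt_congr ?_ (fun h => by rw [dz_tN hS h])
        rw [dz_NL hc, hS, Bool.false_or]
    · obtain ⟨s1, s2, s3, s4, s5, s6, -⟩ := (L.lc hM h3 Z).facts.site i hS
      have e1 : (isUp (phi P (L.c i)).1 && (kd hM h3 Z d0 L.x L.z).fS (yw (L.c i))) = false := by
        rw [ub, w2]; exact s3
      have e2 : (isDn (phi P (L.c i)).1 && (kd hM h3 Z d0 L.x L.z).gS (yw (L.c i))) = false := by
        rw [db, w3]; exact s4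
      have e3 : (isUp (phi P (L.c i)).1 && (kd hM h3 Z d0 L.x L.z).gN (yw (L.c i))) = false := by
        rw [ub, w4]; exact s5
      have e4 : (isDn (phi P (L.c i)).1 && (kd hM h3 Z d0 L.x L.z).fN (yw (L.c i))) = false := by
        rw [db, w1]; exact s6
      have e5 : (dz hM h3 Z d0).SL (L.c i) = false := by rw [dz_SL hc, s1]
      have e6 : (dz hM h3 Z d0).NL (L.c i) = true := by rw [dz_NL hc, hS]; rfl
      have e7 : (dz hM h3 Z d0).tN (L.c i) = Sum.inl (L.c i) := by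
        unfold Deco0.tN
        exact if_pos hS
      rw [optA_false e1, optA_false e2, optA_false e3, optA_false e4, optA_false e5, optA_true e6,
        optA_false s1, optA_false s2, e7]
      have s3' : ((L.lc hM h3 Z).sB i && (L.lc hM h3 Z).K.fS (yw (L.c i))) = false := s3
      have s4' : ((L.lc hM h3 Z).sA i && (L.lc hM h3 Z).K.gS (yw (L.c i))) = false := s4
      have s5' : ((L.lc hM h3 Z).sB i && (L.lc hM h3 Z).K.gN (yw (L.c i))) = false := s5
      have s6' : ((L.lc hM h3 Z).sA i && (L.lc hM h3 Z).K.fN (yw (L.c i))) = false := s6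
      rw [optA_false s3', optA_false s4', optA_false s5', optA_false s6']
      rfl
  have H45 : (opt ((dz hM h3 Z d0).NL (L.c (i + L.n - 1)))
        (true, (dz hM h3 Z d0).tN (L.c (i + L.n - 1)), W.vN (L.c (i + L.n - 1))) ++
      opt (isDn (L.c i).1 && (kd hM h3 Z d0 L.x L.z).gN (yu (L.c i)))
        (true, (kd hM h3 Z d0 L.x L.z).tv (yu (L.c i)), (W.V L.x L.z).gN (yu (L.c i))) ++
      opt (isUp (L.c i).1 && (kd hM h3 Z d0 L.x L.z).fN (yu (L.c i)))
        (true, (kd hM h3 Z d0 L.x L.z).tb (yu (L.c i)), (W.V L.x L.z).fN (yu (L.c i)))) ++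
      (opt ((dz hM h3 Z d0).SL (L.c (i + L.n - 1)))
        (false, (dz hM h3 Z d0).tS (L.c (i + L.n - 1)), W.vS (L.c (i + L.n - 1))) ++
      opt (isDn (L.c i).1 && (kd hM h3 Z d0 L.x L.z).fS (yu (L.c i)))
        (false, (kd hM h3 Z d0 L.x L.z).tb (yu (L.c i)), (W.V L.x L.z).fS (yu (L.c i))) ++
      opt (isUp (L.c i).1 && (kd hM h3 Z d0 L.x L.z).gS (yu (L.c i)))
        (false, (kd hM h3 Z d0 L.x L.z).tv (yu (L.c i)), (W.V L.x L.z).gS (yu (L.c i)))) =
      mv (tg L) ((opt ((L.lc hM h3 Z).NL (i + L.n - 1))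
        (true, (L.lc hM h3 Z).tN (i + L.n - 1), W.vN (L.c (i + L.n - 1))) ++
      opt ((L.lc hM h3 Z).sB (i + L.n - 1) && (L.lc hM h3 Z).K.gN (yu (L.c i)))
        (true, (L.lc hM h3 Z).K.tv (yu (L.c i)), (W.V L.x L.z).gN (yu (L.c i))) ++
      opt ((L.lc hM h3 Z).sA (i + L.n - 1) && (L.lc hM h3 Z).K.fN (yu (L.c i)))
        (true, (L.lc hM h3 Z).K.tb (yu (L.c i)), (W.V L.x L.z).fN (yu (L.c i)))) ++
      (opt ((L.lc hM h3 Z).SL (i + L.n - 1))
        (false, (L.lc hM h3 Z).tS (i + L.n - 1), W.vS (L.c (i + L.n - 1))) ++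
      opt ((L.lc hM h3 Z).sB (i + L.n - 1) && (L.lc hM h3 Z).K.fS (yu (L.c i)))
        (false, (L.lc hM h3 Z).K.tb (yu (L.c i)), (W.V L.x L.z).fS (yu (L.c i))) ++
      opt ((L.lc hM h3 Z).sA (i + L.n - 1) && (L.lc hM h3 Z).K.gS (yu (L.c i)))
        (false, (L.lc hM h3 Z).K.tv (yu (L.c i)), (W.V L.x L.z).gS (yu (L.c i))))) ++
      opt (Z.S (L.c (i + L.n - 1))) (true, Sum.inl (L.c (i + L.n - 1)),
        W.vN (L.c (i + L.n - 1))) := by
    cases hS : Z.S (L.c (i + L.n - 1))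
    · rw [optA_false rfl, List.append_nil, mv_append, mv_append, mv_append, mv_append, mv_append]
      rw [fl_part da u4 u6, fl_part ua u1 u5, fl_part da u2 u5, fl_part ua u3 u6]
      congr 1
      · congr 1
        congr 1
        rw [mv_opt]
        refine opt_congr ?_ (fun h => by rw [dz_tN hS h])
        rw [dz_NL hc, hS, Bool.false_or]
      · congr 1
        congr 1
        rw [mv_opt]
        exact opt_congr (dz_SL hc _) (fun h => by rw [dz_tS hc h])
    · obtain ⟨s1, s2, -, -, -, -, s3, s4, s5, s6⟩ := (L.lc hM h3 Z).facts.site (i + L.n - 1) hS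
      have s3' : ((L.lc hM h3 Z).sB (i + L.n - 1) && (L.lc hM h3 Z).K.gN (yu (L.c i))) =
        false := by rw [← hi1]; exact s3
      have s4' : ((L.lc hM h3 Z).sA (i + L.n - 1) && (L.lc hM h3 Z).K.fN (yu (L.c i))) =
        false := by rw [← hi1]; exact s4
      have s5' : ((L.lc hM h3 Z).sB (i + L.n - 1) && (L.lc hM h3 Z).K.fS (yu (L.c i))) =
        false := by rw [← hi1]; exact s5
      have s6' : ((L.lc hM h3 Z).sA (i + L.n - 1) && (L.lc hM h3 Z).K.gS (yu (L.c i))) =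
        false := by rw [← hi1]; exact s6
      have e1 : (isDn (L.c i).1 && (kd hM h3 Z d0 L.x L.z).gN (yu (L.c i))) = false := by
        rw [da, u4]; exact s3'
      have e2 : (isUp (L.c i).1 && (kd hM h3 Z d0 L.x L.z).fN (yu (L.c i))) = false := by
        rw [ua, u1]; exact s4'
      have e3 : (isDn (L.c i).1 && (kd hM h3 Z d0 L.x L.z).fS (yu (L.c i))) = false := by
        rw [da, u2]; exact s5'
      have e4 : (isUp (L.c i).1 && (kd hM h3 Z d0 L.x L.z).gS (yu (L.c i))) = false := by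
        rw [ua, u3]; exact s6'
      have e5 : (dz hM h3 Z d0).SL (L.c (i + L.n - 1)) = false := by rw [dz_SL hc, s1]
      have e6 : (dz hM h3 Z d0).NL (L.c (i + L.n - 1)) = true := by rw [dz_NL hc, hS]; rfl
      have e7 : (dz hM h3 Z d0).tN (L.c (i + L.n - 1)) = Sum.inl (L.c (i + L.n - 1)) := by
        unfold Deco0.tN
        exact if_pos hS
      rw [optA_false e1, optA_false e2, optA_false e3, optA_false e4, optA_false e5, optA_true e6,
        optA_false s1, optA_false s2, e7, optA_false s3', optA_false s4', optA_false s5',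
        optA_false s6']
      rfl
  have hX' : ((kd hM h3 Z d0 L.x L.z).withV (W.V L.x L.z)).xw (yu (L.c i)) (yw (L.c i)) =
    mv (tg L) (((L.lc hM h3 Z).K.withV (rs hc (W.V L.x L.z))).xw (yu (L.c i)) (yw (L.c i))) := hX
  have key : ∀ (p1 p2 x p4 p5 : List (Bool × (Dart P ⊕ Dart P) × Prop))
      (q1 q2 y q4 q5 : List (Bool × ℕ × Prop)) (a b : List (Bool × (Dart P ⊕ Dart P) × Prop)),
      p1 ++ p2 = a ++ mv (tg L) (q1 ++ q2) → p4 ++ p5 = mv (tg L) (q4 ++ q5) ++ b →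
      x = mv (tg L) y → p1 ++ p2 ++ x ++ p4 ++ p5 = a ++ mv (tg L) (q1 ++ q2 ++ y ++ q4 ++ q5) ++
        b := by
    intro p1 p2 x p4 p5 q1 q2 y q4 q5 a b h1 h2 h3
    rw [List.append_assoc (p1 ++ p2 ++ x), h1, h2, h3]
    simp only [mv_append, List.append_assoc]
  exact key _ _ _ _ _ _ _ _ _ _ _ _ H12 H45 hX'

end Pool.Agent.MP42D
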