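import Pool.Agent.MP42.D.Comb

/-!
# Piece D: common library (owner helper18)

Runs, positions, and the classification of the closings.
-/

set_option autoImplicit false
set_option linter.unusedSectionVars false

namespace Pool.Agent.MP42D

namespace LC

variable (L : LC)

/-! ## Runs -/

lemma n_pos : 0 < L.n := by have := L.hn; omega

lemma S_mod (i : ℕ) : L.S (i % L.n) = L.S i := Function.Periodic.map_mod_nat L.S_per i
lemma yu_mod (i : ℕ) : L.yu (i % L.n) = L.yu i := Function.Periodic.map_mod_nat L.yu_per i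
lemma yw_mod (i : ℕ) : L.yw (i % L.n) = L.yw i := Function.Periodic.map_mod_nat L.yw_per i

lemma yu_n : L.yu L.n = L.yu 0 := by have := L.yu_per 0; rwa [zero_add] at this
lemma yw_n : L.yw L.n = L.yw 0 := by have := L.yw_per 0; rwa [zero_add] at this
lemma S_n : L.S L.n = L.S 0 := by have := L.S_per 0; rwa [zero_add] at this

lemma mod2 {x n : ℕ} (h : x < 2 * n) : x % n = if x < n then x else x - n := by
  split_ifs with h1
  · exact Nat.mod_eq_of_lt h1
  · rw [Nat.mod_eq_sub_mod (by omega), Nat.mod_eq_of_lt (by omega)]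

lemma S_c (v : ℕ) : L.S (L.c v) = false := Nat.find_spec (L.ex_end v)

lemma S_run {v x : ℕ} (h1 : v ≤ x) (h2 : x < L.c v) : L.S x = true := by
  have h3 := Nat.find_min (L.ex_end v) (m := x - v) (by unfold c at h2; omega)
  rw [show v + (x - v) = x by omega] at h3
  simpa using h3

lemma v_lt_c {v : ℕ} (hv : L.IsV v) : v < L.c v := by
  by_contra h
  have h1 : L.c v = v := by unfold c at h ⊢; omega
  have h2 := L.S_c v
  rw [h1, hv.2.1] at h2
  exact Bool.noConfusion h2

lemma c_le {v : ℕ} (hv : L.IsV v) : L.c v + 2 ≤ v + L.n := by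
  by_contra hcon
  have hn := L.hn
  obtain ⟨i, j, hij, hj, hSi, hSj⟩ := L.S_two
  have hvn := hv.1
  have key : ∀ i < L.n, L.S i = false → i = (v + L.n - 1) % L.n := by
    intro i hi hS
    by_contra hne
    rw [mod2 (by omega)] at hne
    have h1 : L.S (if v ≤ i then i else i + L.n) = true := by
      apply L.S_run (v := v)
      · split_ifs <;> omega
      · split_ifs at hne ⊢ <;> omega
    have h2 : L.S (if v ≤ i then i else i + L.n) = false := by
      split_ifs
      · exact hS
      · rw [L.S_per]; exact hS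
    rw [h1] at h2
    exact Bool.noConfusion h2
  have h1 := key i (by omega) hSi
  have h2 := key j hj hSj
  omega

lemma c_lt {v : ℕ} (hv : L.IsV v) : L.c v < 2 * L.n := by
  have := L.c_le hv
  have := hv.1
  omega

/-- A corner is in at most one run (with its end). -/
theorem run_unique {v v' x x' : ℕ} (hv : L.IsV v) (hv' : L.IsV v') (h1 : v ≤ x) (h2 : x ≤ L.c v)
    (h1' : v' ≤ x') (h2' : x' ≤ L.c v') (h : x % L.n = x' % L.n) : v = v' := by
  have hn := L.hn
  have k1 := L.c_le hv
  have k2 := L.c_le hv'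
  have k3 := hv.1
  have k4 := hv'.1
  have key : ∀ v v' x x' : ℕ, L.IsV v → L.IsV v' → v ≤ x → x ≤ L.c v → v' ≤ x' →
      (x = x' ∨ x = x' + L.n) → v < v' ∨ x = x' + L.n → False := by
    intro v v' x x' hv hv' h1 h2 h1' hx hlt
    have k3 := hv.1
    have k4 := hv'.1
    have h3 := hv'.2.2
    rcases hx with hx | hx
    · have hlt' : v < v' := by omega
      have h4 : L.S (v' - 1) = true := L.S_run (v := v) (by omega) (by omega)
      have h5 : L.S (v' - 1 + L.n) = true := by rw [L.S_per]; exact h4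
      rw [show v' - 1 + L.n = v' + L.n - 1 by omega, h3] at h5
      exact Bool.noConfusion h5
    · have h4 : L.S (v' + L.n - 1) = true := L.S_run (v := v) (by omega) (by omega)
      rw [h3] at h4
      exact Bool.noConfusion h4
  rw [mod2 (by omega), mod2 (by omega)] at h
  have hx : x = x' ∨ x = x' + L.n ∨ x' = x + L.n := by
    split_ifs at h <;> omega
  rcases hx with hx | hx | hx
  · rcases lt_trichotomy v v' with hlt | hlt | hlt
    · exact (key v v' x x' hv hv' h1 h2 h1' (Or.inl hx) (Or.inl hlt)).elim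
    · exact hlt
    · exact (key v' v x' x hv' hv h1' h2' h1 (Or.inl hx.symm) (Or.inl hlt)).elim
  · exact (key v v' x x' hv hv' h1 h2 h1' (Or.inr hx) (Or.inr hx)).elim
  · exact (key v' v x' x hv' hv h1' h2' h1 (Or.inr hx) (Or.inr hx)).elim

lemma hb_unique {v v' : ℕ} (hv : L.IsV v) (hv' : L.IsV v') (h : L.hb v) (h' : L.hb v') :
    v = v' := by
  obtain ⟨x, h1, h2, h3⟩ := h
  obtain ⟨x', h1', h2', h3'⟩ := h'
  exact L.run_unique hv hv' h1 h2 h1' h2' (by rw [h3, h3'])

lemma ht_unique {v v' : ℕ} (hv : L.IsV v) (hv' : L.IsV v') (h : L.ht v) (h' : L.ht v') :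
    v = v' := by
  obtain ⟨x, h1, h2, h3⟩ := h
  obtain ⟨x', h1', h2', h3'⟩ := h'
  exact L.run_unique hv hv' h1 h2 h1' h2' (by rw [h3, h3'])

lemma c_unique {v v' : ℕ} (hv : L.IsV v) (hv' : L.IsV v') (h : L.c v % L.n = L.c v' % L.n) :
    v = v' :=
  L.run_unique hv hv' (L.v_lt_c hv).le le_rfl (L.v_lt_c hv').le le_rfl h

lemma add_mod_inj {x y n : ℕ} (hn : 0 < n) (h : (x + 1) % n = (y + 1) % n) : x % n = y % n := by
  have h1 : (x + 1 + (n - 1)) % n = (y + 1 + (n - 1)) % n := by
    rw [Nat.add_mod, h, ← Nat.add_mod]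
  rw [show x + 1 + (n - 1) = x + n by omega, show y + 1 + (n - 1) = y + n by omega,
    Nat.add_mod_right, Nat.add_mod_right] at h1
  exact h1

lemma a_unique {v v' : ℕ} (hv : L.IsV v) (hv' : L.IsV v') (h : L.a v % L.n = L.a v' % L.n) :
    v = v' := L.c_unique hv hv' (add_mod_inj L.n_pos h)

lemma w_mod {v : ℕ} (hv : v < L.n) : L.w v % L.n = if v = 0 then L.n - 1 else v - 1 := by
  have hn := L.hn
  unfold w
  rw [mod2 (by omega)]
  split_ifs <;> omega

lemma w_unique {v v' : ℕ} (hv : L.IsV v) (hv' : L.IsV v') (h : L.w v % L.n = L.w v' % L.n) :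
    v = v' := by
  have hn := L.hn
  have := hv.1
  have := hv'.1
  rw [L.w_mod hv.1, L.w_mod hv'.1] at h
  split_ifs at h <;> omega

/-! ## Positions -/

theorem chainA {i j : ℕ} (h1 : L.m ≤ i) (h2 : i < j) (h3 : j ≤ L.n) : L.yu j ≤ L.yw i := by
  induction j with
  | zero => omega
  | succ j ih =>
    rcases Nat.lt_or_ge i j with h | h
    · have k1 := ih h (by omega)
      have k2 := L.dn j (by omega) (by omega)
      have k3 := L.dnc j (by omega) (by omega)
      omega
    · have : i = j := by omega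
      subst this
      exact L.dn i h1 (by omega)

theorem chainB {i j : ℕ} (h2 : i < j) (h3 : j ≤ L.m) : L.yw i ≤ L.yu j := by
  induction j with
  | zero => omega
  | succ j ih =>
    rcases Nat.lt_or_ge i j with h | h
    · have k1 := ih h (by omega)
      have k2 := L.up j (by omega)
      have k3 := L.upc j (by omega) (by omega)
      omega
    · have : i = j := by omega
      subst this
      exact L.up i (by omega)

lemma b_A (h : L.lo < L.yu 0) : L.yw 0 = L.lo := by
  rcases L.bot with h1 | h1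
  · omega
  · exact h1

lemma b_B (h : L.lo < L.yw 0) : L.yu 0 = L.lo := by
  rcases L.bot with h1 | h1
  · exact h1
  · omega

lemma t_A (h : L.yw L.m < L.hi) : L.yu L.m = L.hi := by
  rcases L.top with h1 | h1
  · exact h1
  · omega

lemma t_B (h : L.yu L.m < L.hi) : L.yw L.m = L.hi := by
  rcases L.top with h1 | h1
  · omega
  · exact h1

/-- If all strips are on the B side then the corner `0` is a full A wall. -/
lemma full_A (h : L.m = L.n) : L.yu 0 = L.hi ∧ L.yw 0 = L.lo := by
  have hn := L.hn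
  have h1 := L.chainB (i := 0) (j := 1) (by omega) (by omega)
  have h2 := L.upc 1 (by omega) (by omega)
  have h3 := (L.rw 1).2
  have h4 := L.bot
  have h5 := L.top
  rw [h, yu_n, yw_n] at h5
  have := L.lohi
  omega

/-- If all strips are on the A side then the corner `0` is a full B wall. -/
lemma full_B (h : L.m = 0) : L.yu 0 = L.lo ∧ L.yw 0 = L.hi := by
  have hn := L.hn
  have h1 := L.chainA (i := 0) (j := 1) (by omega) (by omega) (by omega)
  have h2 := L.dnc 1 (by omega) (by omega)
  have h3 := (L.rw 1).1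
  have h4 := L.bot
  have h5 := L.top
  rw [h] at h5
  have := L.lohi
  omega

/-- an A corner has a name in `m .. n` -/
lemma hatA {i : ℕ} (hi : i < L.n) (h : L.yw i < L.yu i) : (L.m ≤ i ∧ 0 < i) ∨ (i = 0 ∧ 0 < L.m) := by
  rcases Nat.eq_zero_or_pos i with h0 | h0
  · subst h0
    right
    refine ⟨rfl, ?_⟩
    by_contra hm
    have h1 := L.full_B (by omega)
    have := L.lohi
    omega
  · left
    refine ⟨?_, h0⟩
    by_contra hm
    have := L.upc i h0 (by omega)
    omega

/-- a B corner has a name in `0 .. m` -/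
lemma hatB {i : ℕ} (hi : i < L.n) (h : L.yu i < L.yw i) : i ≤ L.m ∧ ¬ (i = 0 ∧ L.m = L.n) := by
  constructor
  · by_contra hm
    have := L.dnc i (by omega) hi
    omega
  · rintro ⟨rfl, h1⟩
    have h2 := L.full_A h1
    have := L.lohi
    omega

/-- walls on the A side are disjoint -/
theorem wallA_unique {i j : ℕ} {y : ℤ} (hi : i < L.n) (hj : j < L.n) (h1 : L.yw i ≤ y)
    (h2 : y < L.yu i) (h1' : L.yw j ≤ y) (h2' : y < L.yu j) : i = j := by
  have key : ∀ i j : ℕ, L.m ≤ i → i < j → j ≤ L.n → L.yw i ≤ y → y < L.yu j → False := by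
    intro i j h1 h2 h3 h4 h5
    have := L.chainA h1 h2 h3
    omega
  have a1 := L.hatA hi (by omega)
  have a2 := L.hatA hj (by omega)
  by_contra hne
  rcases a1 with a1 | a1 <;> rcases a2 with a2 | a2
  · rcases Nat.lt_or_ge i j with h | h
    · exact key i j a1.1 h hj.le h1 h2'
    · exact key j i a2.1 (by omega) hi.le h1' h2
  · refine key i L.n a1.1 hi le_rfl h1 ?_
    rw [yu_n, ← a2.1]; exact h2'
  · refine key j L.n a2.1 hj le_rfl h1' ?_
    rw [yu_n, ← a1.1]; exact h2
  · omega

/-- walls on the B side are disjoint -/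
theorem wallB_unique {i j : ℕ} {y : ℤ} (hi : i < L.n) (hj : j < L.n) (h1 : L.yu i ≤ y)
    (h2 : y < L.yw i) (h1' : L.yu j ≤ y) (h2' : y < L.yw j) : i = j := by
  have key : ∀ i j : ℕ, i < j → j ≤ L.m → L.yu j ≤ y → y < L.yw i → False := by
    intro i j h1 h2 h3 h4
    have := L.chainB h1 h2
    omega
  have a1 := L.hatB hi (by omega)
  have a2 := L.hatB hj (by omega)
  by_contra hne
  rcases Nat.lt_or_ge i j with h | h
  · exact key i j h a2.1 h1' h2
  · exact key j i (by omega) a1.1 h1 h2'

/-- an interior end of a corner: the corner is not flat -/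
lemma end_type {i : ℕ} {y : ℤ} (hi : i < L.n) (h1 : L.lo < y) (h2 : y < L.hi)
    (h : L.yu i = y ∨ L.yw i = y) : L.yw i < L.yu i ∨ L.yu i < L.yw i := by
  rcases Nat.eq_zero_or_pos i with h0 | h0
  · subst h0
    have := L.bot
    omega
  · rcases lt_trichotomy i L.m with hm | hm | hm
    · exact Or.inr (L.upc i h0 hm)
    · subst hm
      have := L.top
      omega
    · exact Or.inl (L.dnc i hm hi)

/-- At an interior point there is only one end of a corner. -/
theorem end_unique {i j : ℕ} {y : ℤ} (hi : i < L.n) (hj : j < L.n) (h1 : L.lo < y) (h2 : y < L.hi)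
    (h : L.yu i = y ∨ L.yw i = y) (h' : L.yu j = y ∨ L.yw j = y) : i = j := by
  -- two consecutive A corners
  have keyA : ∀ i j : ℕ, L.m ≤ i → i < j → j ≤ L.n → L.yw i = y → L.yu j = y → False := by
    intro i j k1 k2 k3 k4 k5
    rcases Nat.eq_or_lt_of_le (Nat.succ_le_of_lt k2) with h3 | h3
    · have := L.zero i (by rw [k4, ← k5, ← h3])
      omega
    · have e1 := L.dn i k1 (by omega)
      have e2 := L.dnc (i + 1) (by omega) (by omega)
      have e3 := L.chainA (i := i + 1) (j := j) (by omega) h3 k3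
      omega
  have keyB : ∀ i j : ℕ, i < j → j ≤ L.m → L.yw i = y → L.yu j = y → False := by
    intro i j k2 k3 k4 k5
    rcases Nat.eq_or_lt_of_le (Nat.succ_le_of_lt k2) with h3 | h3
    · have := L.zero i (by rw [k4, ← k5, ← h3])
      omega
    · have e1 := L.up i (by omega)
      have e2 := L.upc (i + 1) (by omega) (by omega)
      have e3 := L.chainB (i := i + 1) (j := j) h3 k3
      omega
  have keyA' : ∀ i j : ℕ, L.m ≤ i → i < j → j ≤ L.n → L.yw i < L.yu i → L.yw j < L.yu j →
      (L.yu i = y ∨ L.yw i = y) → (L.yu j = y ∨ L.yw j = y) → False := by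
    intro i j k1 k2 k3 k4 k5 k6 k7
    have := L.chainA k1 k2 k3
    exact keyA i j k1 k2 k3 (by omega) (by omega)
  have keyB' : ∀ i j : ℕ, i < j → j ≤ L.m → L.yu i < L.yw i → L.yu j < L.yw j →
      (L.yu i = y ∨ L.yw i = y) → (L.yu j = y ∨ L.yw j = y) → False := by
    intro i j k2 k3 k4 k5 k6 k7
    have := L.chainB k2 k3
    exact keyB i j k2 k3 (by omega) (by omega)
  by_contra hne
  rcases L.end_type hi h1 h2 h with t1 | t1 <;> rcases L.end_type hj h1 h2 h' with t2 | t2
  · have a1 := L.hatA hi t1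
    have a2 := L.hatA hj t2
    rcases a1 with a1 | a1 <;> rcases a2 with a2 | a2
    · rcases Nat.lt_or_ge i j with h3 | h3
      · exact keyA' i j a1.1 h3 hj.le t1 t2 h h'
      · exact keyA' j i a2.1 (by omega) hi.le t2 t1 h' h
    · rw [a2.1] at t2 h'
      refine keyA' i L.n a1.1 hi le_rfl t1 ?_ h ?_
      · rw [yu_n, yw_n]; exact t2
      · rw [yu_n, yw_n]; exact h'
    · rw [a1.1] at t1 h
      refine keyA' j L.n a2.1 hj le_rfl t2 ?_ h' ?_
      · rw [yu_n, yw_n]; exact t1
      · rw [yu_n, yw_n]; exact h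
    · omega
  · exact L.ev y h1 h2 ⟨i, t1, h.symm⟩ ⟨j, t2, h'⟩
  · exact L.ev y h1 h2 ⟨j, t2, h'.symm⟩ ⟨i, t1, h⟩
  · have a1 := L.hatB hi t1
    have a2 := L.hatB hj t2
    rcases Nat.lt_or_ge i j with h3 | h3
    · exact keyB' i j h3 a2.1 t1 t2 h h'
    · exact keyB' j i (by omega) a1.1 t2 t1 h' h

end LC

end Pool.Agent.MP42D
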