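import Pool.Agent.MP42.D.AOk
import Pool.Agent.MP42.D.CombL

/-!
# Piece A: the words of the corners
-/

set_option autoImplicit false
set_option linter.unusedSectionVars false

namespace Pool.Agent.MP42D

open Pool.Agent.Helper55.UNF Pool.Agent.Helper55.UNF.GridSolid Pool.Agent.MP42

/-! ## Values -/

/-- change of the tags, with values -/
def mv {τ σ : Type*} (g : σ → τ) (w : List (Bool × σ × Prop)) : List (Bool × τ × Prop) :=
  mg (fun p : σ × Prop => (g p.1, p.2)) w

section

variable {τ σ : Type*} (g : σ → τ)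

@[simp] lemma mv_append (u v : List (Bool × σ × Prop)) : mv g (u ++ v) = mv g u ++ mv g v :=
  mg_append _ _ _

lemma mv_opt (b : Bool) (x : Bool) (t : σ) (p : Prop) :
    mv g (opt b (x, t, p)) = opt b (x, g t, p) := mg_opt _ _ _ _

lemma mg_fst_opt (b : Bool) (x : Bool) (t : σ) (p : Prop) :
    mg Prod.fst (opt b (x, t, p)) = opt b (x, t) := mg_opt _ _ _ _

end

lemma KD.ct_withV {τ : Type*} (K : KD τ) {on : ℤ → Bool} (V : K.Val on) (y : ℤ) :
    mg Prod.fst ((K.withV V).ct y) = K.ct y := by
  unfold KD.ct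
  simp only [mg_append]
  congr 1
  · congr 1
    · congr 1
      · exact mg_opt _ _ _ _
      · exact mg_opt _ _ _ _
    · exact mg_opt _ _ _ _
  · exact mg_opt _ _ _ _

lemma KD.cts_withV {τ : Type*} (K : KD τ) {on : ℤ → Bool} (V : K.Val on) (y : ℤ) (l : ℕ) :
    mg Prod.fst ((K.withV V).cts y l) = K.cts y l := by
  unfold KD.cts
  induction l with
  | zero => rfl
  | succ l ih =>
    rw [List.range_succ, List.flatMap_append, List.flatMap_append, mg_append, ih]
    congr 1
    simp only [List.flatMap_cons, List.flatMap_nil, List.append_nil]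
    exact K.ct_withV V _

lemma KD.xw_withV {τ : Type*} (K : KD τ) {on : ℤ → Bool} (V : K.Val on) (u w : ℤ) :
    mg Prod.fst ((K.withV V).xw u w) = K.xw u w := by
  have e1 : mg Prod.fst ((K.withV V).opA w) = K.opA w := by
    unfold KD.opA sl4
    simp only [mg_append]
    congr 1
    · congr 1
      · congr 1
        · exact mg_opt _ _ _ _
        · exact mg_opt _ _ _ _
      · exact mg_opt _ _ _ _
    · exact mg_opt _ _ _ _
  have e2 : mg Prod.fst ((K.withV V).clA u) = K.clA u := by
    unfold KD.clA ls4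
    simp only [mg_append]
    congr 1
    · congr 1
      · congr 1
        · exact mg_opt _ _ _ _
        · exact mg_opt _ _ _ _
      · exact mg_opt _ _ _ _
    · exact mg_opt _ _ _ _
  have e3 : mg Prod.fst ((K.withV V).opB w) = K.opB w := by
    unfold KD.opB ls4
    simp only [mg_append]
    congr 1
    · congr 1
      · congr 1
        · exact mg_opt _ _ _ _
        · exact mg_opt _ _ _ _
      · exact mg_opt _ _ _ _
    · exact mg_opt _ _ _ _
  have e4 : mg Prod.fst ((K.withV V).clB u) = K.clB u := by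
    unfold KD.clB sl4
    simp only [mg_append]
    congr 1
    · congr 1
      · congr 1
        · exact mg_opt _ _ _ _
        · exact mg_opt _ _ _ _
      · exact mg_opt _ _ _ _
    · exact mg_opt _ _ _ _
  unfold KD.xw
  split_ifs with h5 h6
  · rw [mg_append, mg_append, e1, K.cts_withV V, e2]
  · rw [mg_append, mg_append, e3, mg_reverse, K.cts_withV V, e4]
  · rfl

lemma Deco0.Vals.fst_rw {P : GridSolid} {D : Deco0 P} (W : D.Vals) (κ : Dart P) :
    mg Prod.fst (W.rw κ) = D.rw κ := by
  unfold Deco0.Vals.rw Deco0.rw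
  simp only [mg_append, mg_fst_opt]
  rw [KD.xw_withV]

lemma LC.fst_cwV (A : LC) (V : A.K.Val A.on) (vN vS : ℕ → Prop) (i : ℕ) :
    mg Prod.fst (A.cwV V vN vS i) = A.cw i := by
  unfold LC.cwV LC.cw
  simp only [mg_append, mg_fst_opt]
  rw [KD.xw_withV]

lemma mem_mg {τ σ : Type*} (g : σ → τ) {w : List (Bool × σ)} {b : Bool} {t : τ}
    (h : (b, t) ∈ mg g w) : ∃ s, (b, s) ∈ w ∧ g s = t := by
  unfold mg at h
  rw [List.mem_map] at h
  obtain ⟨⟨b', s⟩, h1, h2⟩ := h
  have h3 : b' = b := congrArg Prod.fst h2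
  have h4 : g s = t := congrArg Prod.snd h2
  exact ⟨s, by rw [← h3]; exact h1, h4⟩

lemma mg_mem {τ σ : Type*} (g : σ → τ) {w : List (Bool × σ)} {b : Bool} {s : σ}
    (h : (b, s) ∈ w) : (b, g s) ∈ mg g w := by
  unfold mg
  exact List.mem_map_of_mem (f := fun p : Bool × σ => (p.1, g p.2)) h

end Pool.Agent.MP42D
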