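import Pool.Agent.MP42.D.ALeaf

/-!
# Piece A: the data of a line from the data of its leaves
-/

set_option autoImplicit false
set_option linter.unusedSectionVars false

namespace Pool.Agent.MP42D

open Pool.Agent.Helper55.UNF Pool.Agent.Helper55.UNF.GridSolid Pool.Agent.MP42

/-! ## Lists -/

/-- change of the tags -/
def mg {τ σ : Type*} (g : σ → τ) (w : List (Bool × σ)) : List (Bool × τ) :=
  w.map fun p => (p.1, g p.2)

section

variable {τ σ : Type*} (g : σ → τ)

@[simp] lemma mg_append (u v : List (Bool × σ)) : mg g (u ++ v) = mg g u ++ mg g v := by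
  simp [mg]

@[simp] lemma mg_nil : mg g ([] : List (Bool × σ)) = [] := rfl

lemma mg_opt (b : Bool) (x : Bool) (t : σ) : mg g (opt b (x, t)) = opt b (x, g t) := by
  cases b <;> rfl

lemma opt_congr {α : Type*} {b b' : Bool} {x x' : α} (h : b = b') (hx : b' = true → x = x') :
    opt b x = opt b' x' := by
  subst h
  cases b
  · rfl
  · rw [hx rfl]

lemma mg_reverse (u : List (Bool × σ)) : mg g u.reverse = (mg g u).reverse := by
  simp [mg]

lemma Red.map {u v : List (Bool × σ)} (h : Red u v) : Red (mg g u) (mg g v) := by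
  induction h with
  | refl w => exact Red.refl _
  | step u v t h ih =>
    rw [mg_append] at ih ⊢
    exact Red.step _ _ (g t) ih

lemma Red.append_left {u v : List (Bool × τ)} (a : List (Bool × τ)) (h : Red u v) :
    Red (a ++ u) (a ++ v) := by
  induction h with
  | refl w => exact Red.refl _
  | step u v t h ih =>
    rw [← List.append_assoc] at ih ⊢
    exact Red.step _ _ t ih

lemma Red.append_right {u v : List (Bool × τ)} (a : List (Bool × τ)) (h : Red u v) :
    Red (u ++ a) (v ++ a) := by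
  induction h with
  | refl w => exact Red.refl _
  | step u v t h ih =>
    rw [List.append_assoc] at ih ⊢
    exact Red.step _ _ t ih

/-- a word that starts with `s` does not lose this letter -/
lemma Red.head_s {u v : List (Bool × τ)} (h : Red u v) : ∀ {t : τ} {u' : List (Bool × τ)},
    u = (false, t) :: u' → ∃ v', v = (false, t) :: v' := by
  induction h with
  | refl w => intro t u' h; exact ⟨u', h⟩
  | step u v t' h ih =>
    intro t u' he
    cases u with
    | nil => simp at he
    | cons a u =>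
      simp only [List.cons_append, List.cons.injEq] at he
      obtain ⟨rfl, he⟩ := he
      exact ih rfl

end

/-! ## Two lines that agree -/

/-- the data `K` of a line agrees with the data `K'` of a leaf on the points `lo .. hi` -/
structure Agree {τ σ : Type*} (K : KD τ) (K' : KD σ) (g : σ → τ) (lo hi : ℤ) : Prop where
  M : ∀ s y, lo ≤ y → y ≤ hi → K.M s y = K'.M s y
  M0 : ∀ s, K.M s (lo - 1) = false
  M0' : ∀ s, K'.M s (lo - 1) = false
  cn : ∀ s y, lo ≤ y → y ≤ hi → K.cn s y = K'.cn s y
  cs : ∀ s y, lo ≤ y → y ≤ hi → K.cs s y = K'.cs s y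
  tM : ∀ s y, lo ≤ y → y ≤ hi → K.tM s y = g (K'.tM s y)
  tC : ∀ s y, lo ≤ y → y ≤ hi → K.tC s y = g (K'.tC s y)

namespace Agree

variable {τ σ : Type*} {K : KD τ} {K' : KD σ} {g : σ → τ} {lo hi : ℤ} (h : Agree K K' g lo hi)

include h

lemma M1 (s : Fin 4) {y : ℤ} (h1 : lo - 1 ≤ y) (h2 : y ≤ hi) : K.M s y = K'.M s y := by
  rcases eq_or_lt_of_le h1 with rfl | h3
  · rw [h.M0, h.M0']
  · exact h.M s y (by omega) h2

lemma opA {w : ℤ} (h1 : lo ≤ w) (h2 : w ≤ hi) : K.opA w = mg g (K'.opA w) := by
  have key : ∀ s, opt (K.M s (w - 1) && !K.M s w) (true, K.tM s (w - 1)) =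
      mg g (opt (K'.M s (w - 1) && !K'.M s w) (true, K'.tM s (w - 1))) := by
    intro s
    rw [mg_opt, h.M1 s (y := w - 1) (by omega) (by omega), h.M1 s (y := w) (by omega) h2]
    apply opt_congr rfl
    intro hc
    have hw : lo ≤ w - 1 := by
      by_contra hlt
      have e : w - 1 = lo - 1 := by omega
      rw [e, h.M0'] at hc
      simp at hc
    rw [h.tM s _ hw (by omega)]
  unfold KD.opA sl4
  simp only [key, mg_append]

lemma clA {w : ℤ} (h1 : lo ≤ w) (h2 : w ≤ hi) : K.clA w = mg g (K'.clA w) := by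
  have key : ∀ s, opt (K.M s w && !K.M s (w - 1)) (false, K.tM s w) =
      mg g (opt (K'.M s w && !K'.M s (w - 1)) (false, K'.tM s w)) := by
    intro s
    rw [mg_opt, h.M1 s (y := w - 1) (by omega) (by omega), h.M1 s (y := w) (by omega) h2,
      h.tM s _ h1 h2]
  unfold KD.clA ls4
  simp only [key, mg_append]

lemma opB {w : ℤ} (h1 : lo ≤ w) (h2 : w ≤ hi) : K.opB w = mg g (K'.opB w) := by
  have key : ∀ s, opt (K.M s w && !K.M s (w - 1)) (true, K.tM s w) =
      mg g (opt (K'.M s w && !K'.M s (w - 1)) (true, K'.tM s w)) := by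
    intro s
    rw [mg_opt, h.M1 s (y := w - 1) (by omega) (by omega), h.M1 s (y := w) (by omega) h2,
      h.tM s _ h1 h2]
  unfold KD.opB ls4
  simp only [key, mg_append]

lemma clB {w : ℤ} (h1 : lo ≤ w) (h2 : w ≤ hi) : K.clB w = mg g (K'.clB w) := by
  have key : ∀ s, opt (K.M s (w - 1) && !K.M s w) (false, K.tM s (w - 1)) =
      mg g (opt (K'.M s (w - 1) && !K'.M s w) (false, K'.tM s (w - 1))) := by
    intro s
    rw [mg_opt, h.M1 s (y := w - 1) (by omega) (by omega), h.M1 s (y := w) (by omega) h2]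
    apply opt_congr rfl
    intro hc
    have hw : lo ≤ w - 1 := by
      by_contra hlt
      have e : w - 1 = lo - 1 := by omega
      rw [e, h.M0'] at hc
      simp at hc
    rw [h.tM s _ hw (by omega)]
  unfold KD.clB sl4
  simp only [key, mg_append]

lemma ct {y : ℤ} (h1 : lo ≤ y) (h2 : y ≤ hi) : K.ct y = mg g (K'.ct y) := by
  unfold KD.ct
  simp only [mg_append, mg_opt]
  rw [h.cn _ _ h1 h2, h.cs _ _ h1 h2, h.cn _ _ h1 h2, h.cs _ _ h1 h2, h.tC _ _ h1 h2,
    h.tC _ _ h1 h2]

lemma cts {y : ℤ} {l : ℕ} (h1 : lo ≤ y) (h2 : y + l ≤ hi) : K.cts y l = mg g (K'.cts y l) := by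
  unfold KD.cts
  induction l with
  | zero => rfl
  | succ l ih =>
    rw [List.range_succ, List.flatMap_append, List.flatMap_append, mg_append,
      ih (by push_cast at h2; omega)]
    congr 1
    simp only [List.flatMap_cons, List.flatMap_nil, List.append_nil]
    exact h.ct (by omega) (by push_cast at h2; omega)

lemma xw {u w : ℤ} (h1 : lo ≤ u) (h2 : u ≤ hi) (h3 : lo ≤ w) (h4 : w ≤ hi) :
    K.xw u w = mg g (K'.xw u w) := by
  unfold KD.xw
  split_ifs with h5 h6
  · rw [mg_append, mg_append, h.opA h3 h4, h.cts h3 (by omega), h.clA h1 h2]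
  · rw [mg_append, mg_append, h.opB h3 h4, mg_reverse, h.cts h1 (by omega), h.clB h1 h2]
  · rfl

end Agree

end Pool.Agent.MP42D
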