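import Pool.Agent.MP42.D.Table

/-!
# Words of letters with tags

Letters: `true` = lane `n` (opens), `false` = lane `s` (closes).  In the order of the general
reduction theorem (walking to the east with the junction in the south) the word of a corner is read
from its second wall to its first wall.
-/

set_option autoImplicit false
set_option linter.unusedSectionVars false

namespace Pool.Agent.MP42D

/-- cancellation of adjacent `n`, `s` with the same tag -/
inductive Red {τ : Type*} : List (Bool × τ) → List (Bool × τ) → Prop
  | refl (w : List (Bool × τ)) : Red w w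
  | step (u v : List (Bool × τ)) (t : τ) {w : List (Bool × τ)} (h : Red (u ++ v) w) :
      Red (u ++ (true, t) :: (false, t) :: v) w

/-- the slots in increasing and in decreasing order -/
def sl4 {α : Type*} (f : Fin 4 → List α) : List α := f 0 ++ f 1 ++ f 2 ++ f 3
def ls4 {α : Type*} (f : Fin 4 → List α) : List α := f 3 ++ f 2 ++ f 1 ++ f 0

/-- a letter that is present if `b` -/
def opt {α : Type*} (b : Bool) (a : α) : List α := if b then [a] else []

namespace KD

variable {τ : Type*} (K : KD τ)

/-- tracks that end at the lower end `w` of an A corner, start at its upper end `u` -/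
def opA (w : ℤ) : List (Bool × τ) :=
  sl4 fun s => opt (K.M s (w - 1) && !K.M s w) (true, K.tM s (w - 1))
def clA (u : ℤ) : List (Bool × τ) :=
  ls4 fun s => opt (K.M s u && !K.M s (u - 1)) (false, K.tM s u)

/-- tracks that start at the upper end `w` of a B corner, end at its lower end `u` -/
def opB (w : ℤ) : List (Bool × τ) :=
  ls4 fun s => opt (K.M s w && !K.M s (w - 1)) (true, K.tM s w)
def clB (u : ℤ) : List (Bool × τ) :=
  sl4 fun s => opt (K.M s (u - 1) && !K.M s u) (false, K.tM s (u - 1))

/-- the single letters in the segment `y`, in the order `+ y` -/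
def ct (y : ℤ) : List (Bool × τ) :=
  opt (K.cn 1 y) (true, K.tC 1 y) ++ opt (K.cs 2 y) (false, K.tC 2 y) ++
    opt (K.cn 2 y) (true, K.tC 2 y) ++ opt (K.cs 1 y) (false, K.tC 1 y)

/-- the single letters in the segments `y, ..., y + l - 1`, in the order `+ y` -/
def cts (y : ℤ) (l : ℕ) : List (Bool × τ) := (List.range l).flatMap fun i : ℕ => K.ct (y + (i : ℤ))

/-- the (reduced) word of the walls of a corner from `u` to `w` -/
def xw (u w : ℤ) : List (Bool × τ) :=
  if w < u then K.opA w ++ K.cts w (u - w).toNat ++ K.clA u
  else if u < w then K.opB w ++ (K.cts u (w - u).toNat).reverse ++ K.clB u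
  else []

/-- Values of the strands along a line. -/
structure Val (on : ℤ → Bool) where
  M : Fin 4 → ℤ → Prop
  C : Fin 4 → ℤ → Prop
  fN : ℤ → Prop
  fS : ℤ → Prop
  gS : ℤ → Prop
  gN : ℤ → Prop
  M_st : ∀ s y, K.M s (y - 1) = true → K.M s y = true → (M s (y - 1) ↔ M s y)
  fN_st : ∀ y, on y = true → K.aw y = false → K.fN (y + 1) = true → (fN (y + 1) ↔ fN y)
  fS_st : ∀ y, on y = true → K.bw y = false → K.fS (y + 1) = true → (fS (y + 1) ↔ fS y)
  gS_st : ∀ y, on y = true → K.aw y = false → K.gS y = true → (gS (y + 1) ↔ gS y)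
  gN_st : ∀ y, on y = true → K.bw y = false → K.gN y = true → (gN (y + 1) ↔ gN y)
  bp : ∀ y, K.bp y = true → (fN y ↔ fS y)
  vl : ∀ y, K.vl y = true → (gN (y + 1) ↔ gS (y + 1))

/-- tags and values -/
def withV {on : ℤ → Bool} (V : K.Val on) : KD (τ × Prop) :=
  { K with
    tM := fun s y => (K.tM s y, V.M s y)
    tC := fun s y => (K.tC s y, V.C s y)
    tb := fun y => (K.tb y, V.fN y)
    tv := fun y => (K.tv y, V.gN y) }

end KD

end Pool.Agent.MP42D
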