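import Pool.Agent.MP42.D.TableP
import Pool.Agent.MP42.D.Word

/-!
# Stage 2: stacks and slots (owner helper89)

`app l c`: the infinite stack `c` with the list `l` on top.  `lst b f`: the list of the values `f s`
of the slots `s` with `b s`, slot `0` on top.  `pix b s`: the place of the slot `s` in this list.
-/

set_option autoImplicit false
set_option linter.unusedSectionVars false

namespace Pool.Agent.MP42D

open Pool.Agent.Helper55.UNF

/-- a stack with one more item -/
def psh (v : Prop) (c : ℕ → Prop) : ℕ → Prop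
  | 0 => v
  | m + 1 => c m

/-- a stack with a list on top -/
def app : List Prop → (ℕ → Prop) → (ℕ → Prop)
  | [], c => c
  | v :: l, c => psh v (app l c)

lemma psh_inj {v v' : Prop} {c c' : ℕ → Prop} (h : psh v c = psh v' c') : v = v' ∧ c = c' := by
  refine ⟨congrFun h 0, ?_⟩
  funext m
  exact congrFun h (m + 1)

lemma app_append (l l' : List Prop) (c : ℕ → Prop) : app (l ++ l') c = app l (app l' c) := by
  induction l with
  | nil => rfl
  | cons v l ih => simp only [List.cons_append, app, ih]

lemma app_inj : ∀ {l l' : List Prop} {c c' : ℕ → Prop}, l.length = l'.length →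
    app l c = app l' c' → l = l' ∧ c = c'
  | [], [], _, _, _, h => ⟨rfl, h⟩
  | [], _ :: _, _, _, h, _ => by simp at h
  | _ :: _, [], _, _, h, _ => by simp at h
  | v :: l, v' :: l', c, c', h, e => by
    obtain ⟨h1, h2⟩ := psh_inj e
    obtain ⟨h3, h4⟩ := app_inj (by simpa using h) h2
    exact ⟨by rw [h1, h3], h4⟩

lemma psh_eta (c : ℕ → Prop) : psh (c 0) (fun m => c (m + 1)) = c := by
  funext m
  cases m <;> rfl

/-- the values of the slots -/
def lst (b : Fin 4 → Bool) (f : Fin 4 → Prop) : List Prop := sl4 fun s => opt (b s) (f s)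

/-- the place of the slot `s` -/
def pix (b : Fin 4 → Bool) (s : Fin 4) : ℕ :=
  if s = 0 then 0 else if s = 1 then (b 0).toNat else if s = 2 then (b 0).toNat + (b 1).toNat
  else (b 0).toNat + (b 1).toNat + (b 2).toNat

/-- the number of slots -/
def cnt (b : Fin 4 → Bool) : ℕ := (b 0).toNat + (b 1).toNat + (b 2).toNat + (b 3).toNat

/-- the stack below the first `n` items -/
def drp (n : ℕ) (c : ℕ → Prop) : ℕ → Prop := fun m => c (m + n)

lemma drp_zero (c : ℕ → Prop) : drp 0 c = c := rfl

lemma lst_eq (b : Fin 4 → Bool) (f : Fin 4 → Prop) :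
    lst b f = opt (b 0) (f 0) ++ opt (b 1) (f 1) ++ opt (b 2) (f 2) ++ opt (b 3) (f 3) := rfl

lemma lst_split (b : Fin 4 → Bool) (c : ℕ → Prop) :
    app (lst b fun s => c (pix b s)) (drp (cnt b) c) = c := by
  rw [lst_eq]
  unfold drp cnt pix
  cases h0 : b 0 <;> cases h1 : b 1 <;> cases h2 : b 2 <;> cases h3 : b 3 <;>
    (funext m; rcases m with _ | _ | _ | _ | m <;> rfl)

lemma lst_ix (b : Fin 4 → Bool) (f : Fin 4 → Prop) (c : ℕ → Prop) {s : Fin 4} (hs : b s = true) :
    app (lst b f) c (pix b s) = f s := by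
  rw [lst_eq]
  unfold pix
  cases h0 : b 0 <;> cases h1 : b 1 <;> cases h2 : b 2 <;> cases h3 : b 3 <;>
    fin_cases s <;> first | rfl | (exfalso; simp_all)

lemma lst_drp (b : Fin 4 → Bool) (f : Fin 4 → Prop) (c : ℕ → Prop) :
    drp (cnt b) (app (lst b f) c) = c := by
  rw [lst_eq]
  unfold drp cnt
  cases h0 : b 0 <;> cases h1 : b 1 <;> cases h2 : b 2 <;> cases h3 : b 3 <;>
    (funext m; rfl)

lemma lst_len (b : Fin 4 → Bool) (f : Fin 4 → Prop) : (lst b f).length = cnt b := by
  rw [lst_eq]
  unfold cnt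
  cases h0 : b 0 <;> cases h1 : b 1 <;> cases h2 : b 2 <;> cases h3 : b 3 <;> rfl

lemma lst_inj {b : Fin 4 → Bool} {f g : Fin 4 → Prop} (h : lst b f = lst b g) {s : Fin 4}
    (hs : b s = true) : f s = g s := by
  rw [lst_eq, lst_eq] at h
  cases h0 : b 0 <;> cases h1 : b 1 <;> cases h2 : b 2 <;> cases h3 : b 3 <;>
    fin_cases s <;> simp_all [opt]

lemma lst_congr {b : Fin 4 → Bool} {f g : Fin 4 → Prop} (h : ∀ s, b s = true → f s = g s) :
    lst b f = lst b g := by
  rw [lst_eq, lst_eq]
  cases h0 : b 0 <;> cases h1 : b 1 <;> cases h2 : b 2 <;> cases h3 : b 3 <;>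
    simp_all [opt]

lemma lst_none {b : Fin 4 → Bool} (h : ∀ s, b s = false) (f : Fin 4 → Prop) : lst b f = [] := by
  rw [lst_eq, h, h, h, h]
  rfl

lemma cnt_none {b : Fin 4 → Bool} (h : ∀ s, b s = false) : cnt b = 0 := by
  unfold cnt
  rw [h, h, h, h]
  rfl

/-- the slots of `e` are on top of the slots of `p` -/
lemma lst_order {b e p : Fin 4 → Bool} (hb : ∀ s, b s = (e s || p s))
    (hd : ∀ s, e s = true → p s = false) (ho : ∀ s s', e s = true → p s' = true → s < s')
    (f : Fin 4 → Prop) : lst b f = lst e f ++ lst p f := by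
  rw [lst_eq, lst_eq, lst_eq, hb, hb, hb, hb]
  have d0 := hd 0
  have d1 := hd 1
  have d2 := hd 2
  have d3 := hd 3
  have o10 := ho 1 0
  have o20 := ho 2 0
  have o30 := ho 3 0
  have o21 := ho 2 1
  have o31 := ho 3 1
  have o32 := ho 3 2
  clear hb hd ho
  revert d0 d1 d2 d3 o10 o20 o30 o21 o31 o32
  generalize e 0 = e0
  generalize e 1 = e1
  generalize e 2 = e2
  generalize e 3 = e3
  generalize p 0 = p0
  generalize p 1 = p1
  generalize p 2 = p2
  generalize p 3 = p3
  cases e0 <;> cases e1 <;> cases e2 <;> cases e3 <;> cases p0 <;> cases p1 <;> cases p2 <;>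
    cases p3 <;> intro d0 d1 d2 d3 o10 o20 o30 o21 o31 o32 <;>
    first
      | rfl
      | exact absurd (d0 rfl) (by decide)
      | exact absurd (d1 rfl) (by decide)
      | exact absurd (d2 rfl) (by decide)
      | exact absurd (d3 rfl) (by decide)
      | exact absurd (o10 rfl rfl) (by decide)
      | exact absurd (o20 rfl rfl) (by decide)
      | exact absurd (o30 rfl rfl) (by decide)
      | exact absurd (o21 rfl rfl) (by decide)
      | exact absurd (o31 rfl rfl) (by decide)
      | exact absurd (o32 rfl rfl) (by decide)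

/-! ## one row of a wall -/

/-- The slots `b` over the side with more strands, `a` over the other side, `q`: letters. -/
structure Tr (b a q : Fin 4 → Bool) : Prop where
  ab : ∀ s, a s = true → b s = true ∧ q s = false
  bq : ∀ s, b s = true → a s = false → q s = true
  or : ((∀ s, q s = true → b s = true) ∧ ∀ s s', q s = true → a s' = true → s < s') ∨
    ((∀ s, a s = false) ∧ ∀ s s', b s = true → q s' = true → b s' = false → s < s')

lemma Tr.main {b a q : Fin 4 → Bool} (h : Tr b a q) {c0 c1 : ℕ → Prop} {f : Fin 4 → Prop}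
    (e : c0 = app (lst q f) c1) :
    (∀ s, a s = true → c0 (pix b s) = c1 (pix a s)) ∧
    (∀ s, b s = true → a s = false → c0 (pix b s) = f s) ∧
    drp (cnt b) c0 = app (lst (fun s => q s && !b s) f) (drp (cnt a) c1) := by
  have e0 := lst_split b c0
  set v : Fin 4 → Prop := fun s => c0 (pix b s) with hv
  rcases h.or with ⟨h1, h2⟩ | ⟨h1, h2⟩
  · have hb : ∀ s, b s = (q s || a s) := by
      intro s
      have k1 := h.ab s
      have k2 := h.bq s
      have k3 := h1 s
      cases hq : q s <;> cases ha : a s <;> cases hb : b s <;> simp_all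
    have hs := lst_order hb (fun s hs => by
      cases ha : a s
      · rfl
      · rw [(h.ab s ha).2] at hs; exact absurd hs (by decide)) h2 v
    rw [hs, app_append] at e0
    rw [e] at e0
    obtain ⟨h3, h4⟩ := app_inj (by rw [lst_len, lst_len]) e0
    refine ⟨?_, ?_, ?_⟩
    · intro s ha
      rw [← h4, lst_ix a v _ ha]
    · intro s hb' ha
      exact lst_inj h3 (h.bq s hb' ha)
    · rw [lst_none (b := fun s => q s && !b s), ← h4, lst_drp, ← e]
      · rfl
      · intro s
        cases hq : q s
        · rfl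
        · rw [h1 s hq]; rfl
  · have hq : ∀ s, q s = (b s || (q s && !b s)) := by
      intro s
      have k2 := h.bq s
      have k3 := h1 s
      cases hq : q s <;> cases hb : b s <;> simp_all
    have hs := lst_order hq (fun s hs => by simp only [hs]; simp)
      (fun s s' hb' hq' => by
        simp only [Bool.and_eq_true, Bool.not_eq_true'] at hq'
        exact h2 s s' hb' hq'.1 hq'.2) f
    rw [hs, app_append] at e
    rw [e] at e0
    obtain ⟨h3, h4⟩ := app_inj (by rw [lst_len, lst_len]) e0
    refine ⟨?_, ?_, ?_⟩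
    · intro s ha
      rw [h1 s] at ha
      exact absurd ha (by decide)
    · intro s hb' _
      exact lst_inj h3 hb'
    · rw [cnt_none h1, drp_zero, ← h4, ← e]

end Pool.Agent.MP42D
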