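import Pool.Agent.MP42.D.CovC

/-!
# Piece C: coverage
-/

set_option autoImplicit false
set_option linter.unusedSectionVars false

namespace Pool.Agent.MP42D

open Pool.Agent.Helper55.UNF Pool.Agent.Helper55.UNF.GridSolid Pool.Agent.MP42G

variable {P : GridSolid}

namespace Deco

variable (D : Deco P)

theorem L7_core (k : ℕ) (f : (P.refine 7 Deco0.h7).Facet) (hf : D.L7 k f) : ¬ Deco0.core7 f :=
  fun h => h.1 hf.1

open Deco0 in
lemma pE_sub (s : P.FSt) {i j : ℕ} (hi : i < 7) (hj : j < 7) (n : ℕ) (hn : i + n < 7) :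
    (pE ^ n) (sub h7 s i j hi hj) = sub h7 s (i + n) j hn hj := by
  induction n with
  | zero => rfl
  | succ n ih =>
    rw [pow_succ', Equiv.Perm.mul_apply, ih (by omega)]
    show (sub h7 s (i + n) j _ hj).stE = _
    rw [sub_stE_mid s (by omega) hj]
    rfl

open Deco0 in
lemma same_sub (s : P.FSt) {i i' j : ℕ} (hi : i < 7) (hi' : i' < 7) (hj : j < 7) :
    pE.SameCycle (sub h7 s i j hi hj) (sub h7 s i' j hi' hj) := by
  rcases le_total i i' with h | h
  · refine ⟨((i' - i : ℕ) : ℤ), ?_⟩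
    rw [zpow_natCast, pE_sub s hi hj (i' - i) (by omega)]
    exact sub_congr _ _ rfl (by omega) rfl
  · apply Equiv.Perm.SameCycle.symm
    refine ⟨((i - i' : ℕ) : ℤ), ?_⟩
    rw [zpow_natCast, pE_sub s hi' hj (i - i') (by omega)]
    exact sub_congr _ _ rfl (by omega) rfl

open Deco0 in
theorem nsp7_ex (r : (P.refine 7 Deco0.h7).FSt) (hr : IsV r) (hc : Deco0.core7 r.facet) :
    ∃ a, pE.SameCycle r a ∧ ¬ Deco0.nsp7 a.facet := by
  obtain ⟨s, i, j, hi, hj, rfl, he, hs⟩ := exists_sub r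
  refine ⟨sub h7 s 3 j (by norm_num) hj, same_sub s hi _ hj, ?_⟩
  rintro ⟨-, h1, h2⟩
  -- the column of the facet is the third one
  have hd : s.1.d.1 = 1 := h1
  have hn : s.1.n.1 = 2 := hr
  have he0 : s.1.e.1 = 0 := by
    have h3 : s.1.e.1 ≠ 1 := fun h => s.2.2 (hd.trans h.symm)
    have h4 : s.1.e.1 ≠ 2 := fun h => cross_axis_right _ _ s.2.2 (hn.trans h.symm)
    have : ∀ a : Fin 3, a ≠ 1 → a ≠ 2 → a = 0 := by decide
    exact this _ h3 h4
  have hb := e_aux4 _ hd
  have hf : fi (sub h7 s 3 j (by norm_num) hj).facet = 3 := by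
    cases hb2 : s.1.e.2
    · have h3 : bf s.facet = s.r2 := by
        refine st_fe (s := bf s.facet) (t := s.r2) rfl ?_
        show bfE s.1.d = opp s.1.e
        rw [hb]
        apply Prod.ext
        · rw [opp_fst]; exact he0.symm
        · show true = !s.1.e.2
          rw [hb2]; rfl
      rw [sub_bf_r2 h3, fi_part]
    · have h3 : bf s.facet = s := by
        apply bf_eq
        rw [hb]
        exact Prod.ext he0 hb2
      rw [sub_bf h3, fi_part]
  rw [hf] at h2
  omega

variable (hM : P.IsManifold) (h3 : MP42.Deg3 P) {k : ℕ} (hk : 62 ≤ k)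

include hM h3 hk

theorem L7_pr (f : (P.refine 7 Deco0.h7).Facet) (hf : D.L7 k f) (x y : ℕ) (hx : x ≤ k)
    (hy : y < k) : D.pr7 k f x y = false := D.L7_pr0 (by omega) hf hx hy

theorem L7_la (f : (P.refine 7 Deco0.h7).Facet) (hf : D.L7 k f) (x y : ℕ) (hx : x < k)
    (hy : y ≤ k) : D.la7 k f x y = Ln.z := D.L7_la0 (by omega) hf hx

open Deco0 in
theorem cov7 (f : (P.refine 7 Deco0.h7).Facet) (hf : ¬ Deco0.core7 f) (hL : ¬ D.L7 k f) (x : ℕ)
    (hx : x < k) (w : Bool) : ∃ z : ℤ,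
    (∀ y ∈ Set.uIcc 0 z, ∃ g, ¬ D.L7 k g ∧ (pN ^ y) (D.can7 f) = D.can7 g) ∧
    ∃ g, (pN ^ z) (D.can7 f) = D.can7 g ∧
      (Deco0.core7 g ∨ ∃ y < k, D.pr7 k g (if w then x else x + 1) y = true) := by
  show D.Cv k (D.can7 f) x w
  by_cases hd : f.1.2.1 = 2
  · by_cases hX : D.isX7 f = true
    · -- tracks
      obtain ⟨F, i, j, hi, hj, rfl⟩ := exists_part f
      have hF : F.1.2.1 = 2 := hd
      have hi2 : i = 0 ∨ i = 6 := by
        by_contra hcon
        push Not at hcon
        unfold isX7 at hX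
        rw [fi_part, PD.isX_mid hcon.1 hcon.2] at hX
        exact absurd hX (by decide)
      rcases hi2 with rfl | rfl
      · exact D.Cv_XB hM (by omega) hF hj hX hx w
      · exact D.Cv_XA hM (by omega) hF hj hX hx w
    · have hX' : D.isX7 f = false := by simpa using hX
      have he : (D.can7 f).1.e = (0, true) := by
        rw [D.can7_e, if_neg]
        rintro (h | h)
        · rw [hd] at h; exact absurd h (by decide)
        · exact hX h.2
      by_cases ho : fi f = 0 ∨ fi f = 6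
      · -- the outer columns
        have hR : D.Rch k f := by
          by_contra h
          exact hL ⟨hd, hX', ho, h⟩
        obtain ⟨z, h1, g, h2, h3⟩ := hR
        refine ⟨z, ?_, g, h2, ?_⟩
        · intro y hy
          obtain ⟨g', hg'⟩ := h1 y hy
          refine ⟨g', ?_, hg'⟩
          rintro ⟨-, -, -, h4⟩
          apply h4
          have e : ∀ y' : ℤ, (pN ^ y') (D.can7 g') = (pN ^ (y' + y)) (D.can7 f) := by
            intro y'
            rw [zpow_add, Equiv.Perm.mul_apply, hg']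
          refine ⟨z - y, ?_, g, ?_, h3⟩
          · intro y' hy'
            obtain ⟨g'', hg''⟩ := h1 (y' + y) (by rw [Set.mem_uIcc] at hy hy' ⊢; omega)
            exact ⟨g'', by rw [e, hg'']⟩
          · rw [e, sub_add_cancel, h2]
        · rcases h3 with h3 | ⟨y, hy, h3⟩
          · exact Or.inl h3
          · refine Or.inr ⟨y, hy, h3 _ ?_⟩
            split_ifs <;> omega
      · -- the columns in the middle
        obtain ⟨s, i, j, hi, hj, h1, h2, -⟩ := exists_sub (D.can7 f)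
        rw [he] at h2
        have h4 : fi f = if s.1.d = (2, false) then 6 - i else i := by
          have := (fij_y h2 i j hi hj).1
          rw [← h1, D.can7_facet0] at this
          exact this
        rw [h1, ← subZ_zero]
        apply Cv_col h2
        · intro h; subst h
          split_ifs at h4 <;> omega
        · intro h; subst h
          split_ifs at h4 <;> omega
  · -- the walls
    obtain ⟨F, i, j, hi, hj, rfl⟩ := exists_part f
    have h1 : D.can7 (part F i j hi hj) = sub h7 (bf F) i j hi hj := by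
      unfold can7
      rw [if_neg (show ¬ IsPl (co h7 (part F i j hi hj)) from hd), sf_part]
    rw [h1]
    exact Cv_wall (s := bf F) (bf_eq (s := bf F) rfl) hd hi hj x w

open Deco0 in
theorem lean7 (f : (P.refine 7 Deco0.h7).Facet) (hf : D.L7 k f) :
    Nonempty (JLean (P.refine 7 Deco0.h7) k Deco0.core7 Deco0.nsp7 (D.L7 k) D.can7 (D.pr7 k)
      (D.la7 k) f) := by
  have hk2 : 20 ≤ k := by omega
  obtain ⟨hd, hX, -⟩ := D.L7_out hf
  have he : (D.can7 f).1.e = (0, true) := by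
    rw [D.can7_e, if_neg]
    rintro (h | h)
    · rw [hd] at h; exact absurd h (by decide)
    · rw [hX] at h; exact absurd h.2 (by decide)
  obtain ⟨s, i, j, hi, hj, h1, h2, hsf⟩ := exists_sub (D.can7 f)
  rw [he] at h2
  have hfe : (subZ h7 s i hi (j : ℤ)).facet = f := by
    rw [subZ_zero s i j hi hj, ← h1, D.can7_facet0]
  have hcf : D.can7 f = subZ h7 s i hi (j : ℤ) := by rw [subZ_zero s i j hi hj, h1]
  have hsd : s.1.d.1 = 2 := by
    have h4 : (subZ h7 s i hi (j : ℤ)).1.d.1 = 2 := by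
      have : (subZ h7 s i hi (j : ℤ)).facet.1.2.1 = 2 := by rw [hfe]; exact hd
      exact this
    rw [subZ_zero s i j hi hj] at h4
    exact h4
  have hi2 : i = 0 ∨ i = 6 := by
    have h4 := (fij_y h2 i j hi hj).1
    rw [← h1, D.can7_facet0] at h4
    have h5 := hf.2.2.1
    rw [h4] at h5
    split_ifs at h5 <;> omega
  -- the column of the neighbours
  obtain ⟨i', hi', hii⟩ : ∃ i', ∃ _ : i' < 7, (i = 0 ∧ i' = 1) ∨ (i = 6 ∧ i' = 5) := by
    rcases hi2 with h | h
    · exact ⟨1, by norm_num, Or.inl ⟨h, rfl⟩⟩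
    · exact ⟨5, by norm_num, Or.inr ⟨h, rfl⟩⟩
  -- the next support to the south
  classical
  have hex := D.exists_Sup h2 hsd hi j
  set n := Nat.find hex with hn
  obtain ⟨hn1, hnS⟩ := Nat.find_spec hex
  rw [← hn] at hn1 hnS
  have hmin : ∀ n', 1 ≤ n' → n' < n → ¬ D.Sup s i hi ((j : ℤ) - n') :=
    fun n' h3 h4 h5 => Nat.find_min hex h4 ⟨h3, h5⟩
  have hj0 : ¬ D.Sup s i hi (j : ℤ) := by
    rintro (h | ⟨-, h⟩)
    · rw [hfe] at h
      exact h.1 hd
    · rw [hfe] at h
      exact hf.2.2.2 (D.Rch_of_REf hk2 hd hX (by have := hf.2.2.1; omega) h)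
  set m : ℤ := (j : ℤ) - n with hm
  have hmid : ∀ l : ℕ, 1 ≤ l → l ≤ n → ¬ D.Sup s i hi (m + l) := by
    intro l h3 h4
    by_cases h5 : l = n
    · rw [h5, hm, sub_add_cancel]; exact hj0
    · have h6 := hmin (n - l) (by omega) (by omega)
      rwa [show (j : ℤ) - ((n - l : ℕ) : ℤ) = m + l by omega] at h6
  have hcan0 := D.Sup_can h2 hnS
  have hcan1 := D.can7_col h2 hi' (by omega) (by omega) m
  have hbase := D.lean_base hk2 h2 hi hi' hii hnS
  have htop : (pN ^ (n : ℤ)) (D.can7 (subZ h7 s i hi m).facet) = D.can7 f := by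
    rw [hcan0, subZ_pow, hcf]
    congr 1; omega
  have hs2 : ∀ l : ℕ, 1 ≤ l → l ≤ n → ∃ h, ¬ D.L7 k h ∧ ¬ core7 h ∧
      (pN ^ (l : ℤ)) (D.can7 (subZ h7 s i' hi' m).facet) = D.can7 h ∧
      ∀ x ≤ k, ∀ y < k, D.pr7 k h x y = false := by
    intro l h3 h4
    obtain ⟨h5, h6, h8⟩ := D.lean_mid hk2 h2 hi hi' hii (hmid l h3 h4)
    refine ⟨_, h5, h6, ?_, h8⟩
    rw [hcan1, subZ_pow, D.can7_col h2 hi' (by omega) (by omega)]
  rcases hii with ⟨rfl, rfl⟩ | ⟨rfl, rfl⟩
  · refine ⟨⟨(subZ h7 s 0 hi m).facet, (subZ h7 s 1 hi' m).facet, n, true, by omega, htop, ?_, ?_,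
      ?_⟩⟩
    · intro l _
      rw [if_pos rfl, hcan0, hcan1, subZ_pow, subZ_pow]
      exact sub_stE_mid _ hi' _
    · intro l h3 h4
      obtain ⟨h, h5, h6, h8, h9⟩ := hs2 l h3 h4
      exact ⟨h, h5, h6, h8, fun y hy => by rw [if_pos rfl]; exact h9 0 (by omega) y hy⟩
    · rcases hbase with h | ⟨h3, h4, y0, hy0, h5, h6, h8⟩
      · exact Or.inl h
      · refine Or.inr ⟨h3, h4, y0, hy0, fun x hx => (h5 x hx).1, fun x hx =>
          ⟨(h6 x hx y0).1, (h6 x hx (y0 + 1)).1⟩, ?_, ?_⟩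
        · rw [if_pos rfl]
          exact ⟨(h5 0 (by omega)).2, (h5 (0 + 1) (by omega)).2, (h6 0 (by omega) y0).2,
            (h6 0 (by omega) (y0 + 1)).2⟩
        · intro y h9 h10
          rw [if_pos rfl]
          exact h8 0 (by omega) y h9 h10
  · refine ⟨⟨(subZ h7 s 6 hi m).facet, (subZ h7 s 5 hi' m).facet, n, false, by omega, htop, ?_,
      ?_, ?_⟩⟩
    · intro l _
      rw [if_neg (by decide), hcan0, hcan1, subZ_pow, subZ_pow]
      exact sub_stE_mid _ hi _
    · intro l h3 h4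
      obtain ⟨h, h5, h6, h8, h9⟩ := hs2 l h3 h4
      exact ⟨h, h5, h6, h8, fun y hy => by rw [if_neg (by decide)]; exact h9 k le_rfl y hy⟩
    · rcases hbase with h | ⟨h3, h4, y0, hy0, h5, h6, h8⟩
      · exact Or.inl h
      · refine Or.inr ⟨h3, h4, y0, hy0, fun x hx => (h5 x hx).1, fun x hx =>
          ⟨(h6 x hx y0).1, (h6 x hx (y0 + 1)).1⟩, ?_, ?_⟩
        · rw [if_neg (by decide)]
          exact ⟨(h5 (k - 1) (by omega)).2, (h5 (k - 1 + 1) (by omega)).2,
            (h6 (k - 1) (by omega) y0).2, (h6 (k - 1) (by omega) (y0 + 1)).2⟩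
        · intro y h9 h10
          rw [if_neg (by decide)]
          exact h8 k le_rfl y h9 h10

open Deco0 in
theorem lcut7 (f : (P.refine 7 Deco0.h7).Facet) (hf : D.L7 k f) :
    ∃ g : (P.refine 7 Deco0.h7).Facet, Deco0.core7 g := by
  obtain ⟨hd, hX, -⟩ := D.L7_out hf
  have he : (D.can7 f).1.e = (0, true) := by
    rw [D.can7_e, if_neg]
    rintro (h | h)
    · rw [hd] at h; exact absurd h (by decide)
    · rw [hX] at h; exact absurd h.2 (by decide)
  obtain ⟨s, i, j, hi, hj, h1, h2, -⟩ := exists_sub (D.can7 f)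
  rw [he] at h2
  obtain ⟨q, hq⟩ := exists_wall_N s (by rw [h2])
  exact ⟨_, core_subZ h2 hi (q : ℤ) (by rw [zpow_natCast]; exact hq)⟩

end Deco

end Pool.Agent.MP42D
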