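import Pool.Agent.MP42.D.Word

/-!
# Piece D: the combinatorics of a leaf

`LC`: the data of a leaf.  The corners are numbered by `i : ℕ`, with period `n`; the strip `i` is
between the corners `i` and `i + 1`.  The strips `0 .. m - 1` go up on the B side, the strips
`m .. n - 1` go down on the A side.  `yu i`, `yw i`: the point where the first wall, the second wall
of the corner `i` is.  `S`: the corners where a child face is attached to the next corner.

A run is a maximal set of consecutive corners `v, v + 1, .., c - 1` in `S` (`0 ≤ v < n`); `c` is not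
in `S`.  Its closing is a strand from `v` (letter `n`) to `c` (letter `s`).  With `a = c + 1` and
`w = v + n - 1` it may use the full lanes `n` on the strip `w` and `s` on the strip `c`, and a track
or a single letter on the line between `v` or `w` and `c` or `a`, or a bump or a valley.
-/

set_option autoImplicit false
set_option linter.unusedSectionVars false

namespace Pool.Agent.MP42D

structure LC where
  n : ℕ
  m : ℕ
  lo : ℤ
  hi : ℤ
  yu : ℕ → ℤ
  yw : ℕ → ℤ
  S : ℕ → Bool
  hn : 3 ≤ n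
  hm : m ≤ n
  yu_per : ∀ i, yu (i + n) = yu i
  yw_per : ∀ i, yw (i + n) = yw i
  S_per : ∀ i, S (i + n) = S i
  S_two : ∃ i j, i < j ∧ j < n ∧ S i = false ∧ S j = false
  lohi : lo < hi
  ru : ∀ i, lo ≤ yu i ∧ yu i ≤ hi
  rw : ∀ i, lo ≤ yw i ∧ yw i ≤ hi
  up : ∀ i < m, yw i ≤ yu (i + 1)
  upc : ∀ i, 0 < i → i < m → yu i < yw i
  dn : ∀ i, m ≤ i → i < n → yu (i + 1) ≤ yw i
  dnc : ∀ i, m < i → i < n → yw i < yu i
  bot : yu 0 = lo ∨ yw 0 = lo
  top : yu m = hi ∨ yw m = hi
  zero : ∀ i, yw i = yu (i + 1) → yw i = lo ∨ yw i = hi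
  /-- not both sides change at the same interior point -/
  ev : ∀ y, lo < y → y < hi → (∃ i, yw i < yu i ∧ (yw i = y ∨ yu i = y)) →
    (∃ j, yu j < yw j ∧ (yu j = y ∨ yw j = y)) → False

/-- a closing: `trk s y1 y2`: a track in the slot `s` over the segments `y1 .. y2 - 1`;
`ctc s l y`: a single letter (`l = true`: `n`) in the slot `s` in the segment `y`;
`bump X yA yB`, `valley Y yA yB`, `none`: no piece -/
inductive Pc
  | none
  | trk (s : Fin 4) (y1 y2 : ℤ)
  | ctc (s : Fin 4) (l : Bool) (y : ℤ)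
  | bump (X yA yB : ℤ)
  | valley (Y yA yB : ℤ)

namespace LC

variable (L : LC)

/-- `v` is the first corner of a run -/
def IsV (v : ℕ) : Prop := v < L.n ∧ L.S v = true ∧ L.S (v + L.n - 1) = false

instance (v : ℕ) : Decidable (L.IsV v) := by unfold IsV; infer_instance

lemma ex_end (v : ℕ) : ∃ l, L.S (v + l) = false := by
  obtain ⟨i, j, hij, hj, hi, -⟩ := L.S_two
  have key : ∀ q, L.S (i + q * L.n) = false := by
    intro q
    induction q with
    | zero => simpa using hi
    | succ q ih => rw [Nat.succ_mul, ← add_assoc, L.S_per]; exact ih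
  refine ⟨i + v * L.n - v, ?_⟩
  have hn := L.hn
  have : v ≤ v * L.n := Nat.le_mul_of_pos_right v (by omega)
  rw [show v + (i + v * L.n - v) = i + v * L.n by omega]
  exact key v

/-- the corner after the run that starts at `v` -/
def c (v : ℕ) : ℕ := v + Nat.find (L.ex_end v)

/-- `a = c + 1`, `w = v + n - 1` -/
def a (v : ℕ) : ℕ := L.c v + 1
def w (v : ℕ) : ℕ := v + L.n - 1

/-- the run with its end passes the bottom corner, the top corner -/
def hb (v : ℕ) : Prop := ∃ x, v ≤ x ∧ x ≤ L.c v ∧ x % L.n = 0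
def ht (v : ℕ) : Prop := ∃ x, v ≤ x ∧ x ≤ L.c v ∧ x % L.n = L.m % L.n

/-- the upper end and the lower end of the corner `i` on the A side (`x = true`), on the B side -/
def ue (i : ℕ) (x : Bool) : ℤ := if x then L.yu i else L.yw i
def de (i : ℕ) (x : Bool) : ℤ := if x then L.yw i else L.yu i

/-- the piece between the corner `p` (below) and the corner `q` (above) in the slot `s`;
`pA`, `qA`: on the A side.  If they overlap there is a single letter in the lowest (`h = false`) or
highest (`h = true`) common segment. -/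
noncomputable def conn (s : Fin 4) (p : ℕ) (pA : Bool) (q : ℕ) (qA : Bool) (h : Bool) : Pc :=
  open Classical in
  if p % L.n ≠ L.m % L.n ∧ q % L.n ≠ 0 ∧ L.ue p pA ≤ L.de q qA then
    Pc.trk s (L.ue p pA) (L.de q qA)
  else Pc.ctc s (!pA) (if h then
      (if p % L.n = L.m % L.n then L.ue q qA - 1 else min (L.ue p pA) (L.ue q qA) - 1)
    else (if q % L.n = 0 then L.de p pA else max (L.de p pA) (L.de q qA)))

/-- the closing of the run `v`: full lane `n` on the strip `w`, full lane `s` on the strip `c`, the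
piece on the line -/
noncomputable def cl (v : ℕ) : Bool × Bool × Pc :=
  open Classical in
  if L.a v = L.w v then (true, true, Pc.none)
  else if L.hb v ∧ L.ht v then
    if L.m ≤ L.w v % L.n then (true, true, L.conn 1 (L.w v) true (L.a v) true false)
    else (true, true, L.conn 2 (L.a v) false (L.w v) false true)
  else if L.hb v then
    if L.yu (L.a v) < L.yu v then (false, true, L.conn 1 (L.a v) false v true false)
    else if L.yw (L.w v) < L.yw (L.c v) then
      (true, false, L.conn 2 (L.w v) true (L.c v) false false)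
    else (false, false, Pc.bump (max (L.yu v) (L.yw (L.c v))) (L.yu v) (L.yw (L.c v)))
  else if L.ht v then
    if L.yw (L.c v) < L.yw (L.w v) then
      (true, false, L.conn 1 (L.c v) true (L.w v) false true)
    else if L.yu v < L.yu (L.a v) then (false, true, L.conn 2 v false (L.a v) true true)
    else (false, false, Pc.valley (min (L.yw (L.c v)) (L.yu v)) (L.yw (L.c v)) (L.yu v))
  else if L.m < v then (false, false, L.conn 0 (L.c v) true v true false)
  else (false, false, L.conn 3 v false (L.c v) false true)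

/-- full lanes of the closings: by strips; and their runs -/
noncomputable def NL (i : ℕ) : Bool :=
  open Classical in decide (∃ v, L.IsV v ∧ (L.cl v).1 = true ∧ L.w v % L.n = i % L.n)
noncomputable def SL (i : ℕ) : Bool :=
  open Classical in decide (∃ v, L.IsV v ∧ (L.cl v).2.1 = true ∧ L.c v % L.n = i % L.n)

open Classical in
/-- a run with the property `p` -/
noncomputable def pick (p : ℕ → Prop) : ℕ := if h : ∃ v, L.IsV v ∧ p v then h.choose else 0

noncomputable def tN (i : ℕ) : ℕ := L.pick fun v => (L.cl v).1 = true ∧ L.w v % L.n = i % L.n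
noncomputable def tS (i : ℕ) : ℕ := L.pick fun v => (L.cl v).2.1 = true ∧ L.c v % L.n = i % L.n

/-- properties of the pieces -/
def isM (s : Fin 4) (y : ℤ) (v : ℕ) : Prop :=
  ∃ y1 y2, (L.cl v).2.2 = Pc.trk s y1 y2 ∧ y1 ≤ y ∧ y < y2
def isC (s : Fin 4) (l : Bool) (y : ℤ) (v : ℕ) : Prop := (L.cl v).2.2 = Pc.ctc s l y
def isBp (y : ℤ) (v : ℕ) : Prop := ∃ yA yB, (L.cl v).2.2 = Pc.bump y yA yB
def isVl (y : ℤ) (v : ℕ) : Prop := ∃ yA yB, (L.cl v).2.2 = Pc.valley (y + 1) yA yB
def isFN (y : ℤ) (v : ℕ) : Prop := ∃ X yA yB, (L.cl v).2.2 = Pc.bump X yA yB ∧ yA ≤ y ∧ y ≤ X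
def isFS (y : ℤ) (v : ℕ) : Prop := ∃ X yA yB, (L.cl v).2.2 = Pc.bump X yA yB ∧ yB ≤ y ∧ y ≤ X
def isGS (y : ℤ) (v : ℕ) : Prop := ∃ Y yA yB, (L.cl v).2.2 = Pc.valley Y yA yB ∧ Y ≤ y ∧ y ≤ yA
def isGN (y : ℤ) (v : ℕ) : Prop := ∃ Y yA yB, (L.cl v).2.2 = Pc.valley Y yA yB ∧ Y ≤ y ∧ y ≤ yB

open Classical in
/-- the data of the line on the segments `lo .. hi - 1` -/
noncomputable def K : KD ℕ where
  aw := fun y => decide (∃ i < L.n, L.yw i ≤ y ∧ y < L.yu i)
  bw := fun y => decide (∃ i < L.n, L.yu i ≤ y ∧ y < L.yw i)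
  M := fun s y => decide (∃ v, L.IsV v ∧ L.isM s y v)
  cn := fun s y => decide (∃ v, L.IsV v ∧ L.isC s true y v)
  cs := fun s y => decide (∃ v, L.IsV v ∧ L.isC s false y v)
  bp := fun y => decide (∃ v, L.IsV v ∧ L.isBp y v)
  vl := fun y => decide (∃ v, L.IsV v ∧ L.isVl y v)
  fN := fun y => decide (∃ v, L.IsV v ∧ L.isFN y v)
  fS := fun y => decide (∃ v, L.IsV v ∧ L.isFS y v)
  gS := fun y => decide (∃ v, L.IsV v ∧ L.isGS y v)
  gN := fun y => decide (∃ v, L.IsV v ∧ L.isGN y v)
  tM := fun s y => L.pick (L.isM s y)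
  tC := fun s y => L.pick fun v => L.isC s true y v ∨ L.isC s false y v
  tb := fun y => L.pick fun v => L.isFN y v ∨ L.isFS y v
  tv := fun y => L.pick fun v => L.isGS y v ∨ L.isGN y v

/-- the segments of the leaf -/
def on (y : ℤ) : Bool := decide (L.lo ≤ y ∧ y < L.hi)

/-- directions of the strips of positive length: on the B side, on the A side -/
def sB (i : ℕ) : Bool := decide (i % L.n < L.m ∧ L.yw i ≠ L.yu (i + 1))
def sA (i : ℕ) : Bool := decide (L.m ≤ i % L.n ∧ L.yw i ≠ L.yu (i + 1))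

/-- the word of the closings at the corner `i` -/
noncomputable def cw (i : ℕ) : List (Bool × ℕ) :=
  opt (L.SL i) (false, L.tS i) ++ opt (L.sB i && L.K.fS (L.yw i)) (false, L.K.tb (L.yw i)) ++
    opt (L.sA i && L.K.gS (L.yw i)) (false, L.K.tv (L.yw i)) ++
  (opt (L.NL i) (true, L.tN i) ++ opt (L.sB i && L.K.gN (L.yw i)) (true, L.K.tv (L.yw i)) ++
    opt (L.sA i && L.K.fN (L.yw i)) (true, L.K.tb (L.yw i))) ++
  L.K.xw (L.yu i) (L.yw i) ++
  (opt (L.NL (i + L.n - 1)) (true, L.tN (i + L.n - 1)) ++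
    opt (L.sB (i + L.n - 1) && L.K.gN (L.yu i)) (true, L.K.tv (L.yu i)) ++
    opt (L.sA (i + L.n - 1) && L.K.fN (L.yu i)) (true, L.K.tb (L.yu i))) ++
  (opt (L.SL (i + L.n - 1)) (false, L.tS (i + L.n - 1)) ++
    opt (L.sB (i + L.n - 1) && L.K.fS (L.yu i)) (false, L.K.tb (L.yu i)) ++
    opt (L.sA (i + L.n - 1) && L.K.gS (L.yu i)) (false, L.K.tv (L.yu i)))

/-- the word of the closings at the corner `i` with values -/
noncomputable def cwV (V : L.K.Val L.on) (vN vS : ℕ → Prop) (i : ℕ) : List (Bool × ℕ × Prop) :=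
  opt (L.SL i) (false, L.tS i, vS i) ++
    opt (L.sB i && L.K.fS (L.yw i)) (false, L.K.tb (L.yw i), V.fS (L.yw i)) ++
    opt (L.sA i && L.K.gS (L.yw i)) (false, L.K.tv (L.yw i), V.gS (L.yw i)) ++
  (opt (L.NL i) (true, L.tN i, vN i) ++
    opt (L.sB i && L.K.gN (L.yw i)) (true, L.K.tv (L.yw i), V.gN (L.yw i)) ++
    opt (L.sA i && L.K.fN (L.yw i)) (true, L.K.tb (L.yw i), V.fN (L.yw i))) ++
  (L.K.withV V).xw (L.yu i) (L.yw i) ++
  (opt (L.NL (i + L.n - 1)) (true, L.tN (i + L.n - 1), vN (i + L.n - 1)) ++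
    opt (L.sB (i + L.n - 1) && L.K.gN (L.yu i)) (true, L.K.tv (L.yu i), V.gN (L.yu i)) ++
    opt (L.sA (i + L.n - 1) && L.K.fN (L.yu i)) (true, L.K.tb (L.yu i), V.fN (L.yu i))) ++
  (opt (L.SL (i + L.n - 1)) (false, L.tS (i + L.n - 1), vS (i + L.n - 1)) ++
    opt (L.sB (i + L.n - 1) && L.K.fS (L.yu i)) (false, L.K.tb (L.yu i), V.fS (L.yu i)) ++
    opt (L.sA (i + L.n - 1) && L.K.gS (L.yu i)) (false, L.K.tv (L.yu i), V.gS (L.yu i)))

end LC

end Pool.Agent.MP42D
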