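import Pool.Agent.MP42.D.CombC
import Pool.Agent.MP42.D.CombO

/-!
# Piece D2 for the corners of the A side (owner helper18)
-/

set_option autoImplicit false
set_option linter.unusedSectionVars false

namespace Pool.Agent.MP42D

namespace LC

variable (L : LC)

/-! ## Runs and corners -/

lemma S_of_cA {v j : ℕ} (h : L.c v % L.n = j) : L.S j = false := by
  rw [← h, L.S_mod]; exact L.S_c v

lemma S_of_cA' {v j : ℕ} (hv : L.IsV v) (h : L.c v % L.n = j) :
    L.S (j + L.n - 1) = true := by
  have hn := L.hn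
  have h1 := L.v_lt_c hv
  have h2 : L.S (L.c v - 1) = true := L.S_run (v := v) (by omega) (by omega)
  rw [← h2]
  apply L.S_eq
  have h3 := Nat.div_add_mod (L.c v) L.n
  rw [h] at h3
  have h4 : L.c v - 1 + L.n = j + L.n - 1 + L.n * (L.c v / L.n) := by omega
  rw [← Nat.add_mod_right (L.c v - 1), h4, Nat.add_mul_mod_self_left]

lemma S_prevA {j : ℕ} (hj : 0 < j) : L.S (j + L.n - 1) = L.S (j - 1) := by
  apply L.S_eq
  rw [show j + L.n - 1 = j - 1 + L.n by omega, Nat.add_mod_right]

lemma S_of_wA {v j : ℕ} (hv : L.IsV v) (h : L.w v % L.n = j) : L.S j = false := by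
  rw [← h, L.S_mod]; exact hv.2.2

lemma S_of_wA' {v j : ℕ} (hv : L.IsV v) (h : L.w v % L.n = j) : L.S (j + 1) = true := by
  have h1 := hv.2.1
  rw [← h1]
  apply L.S_eq
  rw [← h]
  have hn := L.hn
  have e : L.w v + 1 = v + L.n := by unfold w; omega
  rw [Nat.mod_add_mod, e, Nat.add_mod_right]

lemma v_of_wA {v j : ℕ} (hv : L.IsV v) (h : L.w v % L.n = j) : v = (j + 1) % L.n := by
  have hn := L.hn
  have e : L.w v + 1 = v + L.n := by unfold w; omega
  rw [← h, Nat.mod_add_mod, e, Nat.add_mod_right, Nat.mod_eq_of_lt hv.1]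

lemma isV_iffA {i : ℕ} (h0 : 0 < i) (hi : i < L.n) :
    L.IsV i ↔ L.S i = true ∧ L.S (i - 1) = false := by
  have e : L.S (i + L.n - 1) = L.S (i - 1) := by
    apply L.S_eq
    rw [show i + L.n - 1 = i - 1 + L.n by omega, Nat.add_mod_right]
  unfold IsV
  rw [e]
  exact ⟨fun h => ⟨h.2.1, h.2.2⟩, fun h => ⟨hi, h.1, h.2⟩⟩

/-- a run that contains the corner `i` with its end -/
lemma run_atA {v x i : ℕ} (hv : L.IsV v) (h1 : v ≤ x) (h2 : x ≤ L.c v) (h : x % L.n = i)
    (hi : L.IsV i) : v = i := by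
  have := hi.1
  exact L.run_unique hv hi h1 h2 le_rfl (L.v_lt_c hi).le (by rw [h, Nat.mod_eq_of_lt this])

lemma wallA_at {i j : ℕ} {y : ℤ} (hi : L.m < i) (hin : i < L.n) (hj : L.m ≤ j) (hjn : j ≤ L.n)
    (h1 : L.yw j ≤ y) (h2 : y < L.yu j) (h3 : L.yw i ≤ y) (h4 : y < L.yu i) : j = i := by
  rcases lt_trichotomy j i with h | h | h
  · have := L.mA hj h hin.le
    omega
  · exact h
  · have := L.mA hi.le h hjn
    omega

/-! ## Full lanes -/

lemma NL_ofA {v i : ℕ} (hv : L.IsV v) (h : (L.cl v).1 = true) (hw : L.w v % L.n = i % L.n) :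
    L.NL i = true ∧ L.tN i = v := by
  constructor
  · simp only [NL, decide_eq_true_eq]
    exact ⟨v, hv, h, hw⟩
  · exact L.pick_of hv ⟨h, hw⟩ fun v' hv' h' => L.w_unique hv' hv (by rw [h'.2, hw])

lemma SL_ofA {v i : ℕ} (hv : L.IsV v) (h : (L.cl v).2.1 = true) (hw : L.c v % L.n = i % L.n) :
    L.SL i = true ∧ L.tS i = v := by
  constructor
  · simp only [SL, decide_eq_true_eq]
    exact ⟨v, hv, h, hw⟩
  · exact L.pick_of hv ⟨h, hw⟩ fun v' hv' h' => L.c_unique hv' hv (by rw [h'.2, hw])

lemma NL_no {i : ℕ} (h : ∀ v, L.IsV v → (L.cl v).1 = true → L.w v % L.n ≠ i % L.n) :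
    L.NL i = false := by
  simp only [NL, decide_eq_false_iff_not]
  rintro ⟨v, hv, h1, h2⟩
  exact h v hv h1 h2

lemma SL_no {i : ℕ} (h : ∀ v, L.IsV v → (L.cl v).2.1 = true → L.c v % L.n ≠ i % L.n) :
    L.SL i = false := by
  simp only [SL, decide_eq_false_iff_not]
  rintro ⟨v, hv, h1, h2⟩
  exact h v hv h1 h2

/-! ## The roles of a run at an A corner `i` -/

/-- the run that starts at `i` -/
inductive AO (i : ℕ) : Bool × Bool × Pc → Prop
  | none (s : L.S (i + L.n - 2) = false) : AO i (true, true, Pc.none)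
  | ZA {a : ℕ} (ma : L.m < a) (h : L.Zg a (i - 1)) :
      AO i (true, true, Pc.trk 1 (L.yu (i - 1)) (L.yw a))
  | b2 {c : ℕ} (h : L.Hb i c) (h0 : L.yu i ≤ L.yu (c + 1)) :
      AO i (true, false, Pc.trk 2 (L.yu (i - 1)) (L.yu c))
  | b2c {c : ℕ} {y : ℤ} (h : L.Hb i c) (h0 : L.yu i ≤ L.yu (c + 1)) :
      AO i (true, false, Pc.ctc 2 false y)
  | b3 {c : ℕ} {X : ℤ} (h : L.Hb i c) (h0 : L.yu i ≤ L.yu (c + 1)) (h1 : L.yu i ≤ X)
      (h2 : X < L.yw (i - 1)) : AO i (false, false, Pc.bump X (L.yu i) (L.yw c))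
  | A0 {c : ℕ} (cn : c < L.n) (h : L.Sg i c) : AO i (false, false, Pc.trk 0 (L.yu c) (L.yw i))
  | b1 {c : ℕ} (h : L.Hb i c) : AO i (false, true, Pc.trk 1 (L.yw (c + 1)) (L.yw i))
  | b1c {c : ℕ} {y : ℤ} (h : L.Hb i c) (h1 : L.yw i ≤ y) (h2 : y < L.yu i)
      (h3 : y < L.yw (c + 1)) (h4 : L.yu (c + 1) ≤ y) : AO i (false, true, Pc.ctc 1 true y)

theorem ro {i : ℕ} (hi : L.m < i) (hv : L.IsV i) : L.AO i (L.cl i) := by
  have h0 := L.ty hv
  generalize L.c i % L.n = c0 at h0
  generalize L.w i % L.n = w0 at h0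
  generalize L.cl i = k at h0
  have hvn := hv.1
  have hm := L.hm
  have hn := L.hn
  have hmod : ∀ w, w < L.n → i = (w + 1) % L.n → w + 1 = i := by
    intro w hw h
    rw [mod2 (by omega)] at h
    split_ifs at h <;> omega
  have hvm : ∀ v, v ≤ L.n → i = v % L.n → v = i := by
    intro v hw h
    rw [mod2 (by omega)] at h
    split_ifs at h <;> omega
  obtain ⟨j, hj⟩ : ∃ j, i = j := ⟨_, rfl⟩
  rw [hj] at h0
  cases h0 with
  | none hc hw hv' hs sc sw =>
    apply AO.none
    have h1 := hmod w0 (by rw [hw]; exact Nat.mod_lt _ (by omega)) (hj.trans hv')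
    rw [← sc]
    apply L.S_eq
    rw [mod2 (by omega)] at hw
    split_ifs at hw
    · rw [show i + L.n - 2 = c0 + L.n by omega, Nat.add_mod_right]
    · rw [show i + L.n - 2 = c0 by omega]
  | A0 mv cn h => rw [← hj] at *; exact AO.A0 cn h
  | B0 cm h => have := h.vc; omega
  | ZA ma h hv' t1 t2 t3 =>
    rename_i a
    have := hmod w0 h.wn (hj.trans hv')
    have e : w0 = i - 1 := by omega
    rw [e] at h ⊢
    exact AO.ZA ma h
  | ZB ma h hv' =>
    have := hmod w0 h.wn (hj.trans hv')
    omega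
  | b1 h' h1 h2 h3 t1 t2 t3 =>
    have := hvm _ h'.vn hj
    subst this
    exact AO.b1 h'
  | b1c h' h3 h4 h5 h6 h7 hy =>
    have := hvm _ h'.vn hj
    subst this
    exact AO.b1c h' h6 h7 h5 h4
  | b2 h' h1 h2 h0 h3 t1 t2 t3 =>
    have := hvm _ h'.vn hj
    subst this
    exact AO.b2 h' h0
  | b2c h' h0 h3 h4 h5 h6 h7 hy =>
    have := hvm _ h'.vn hj
    subst this
    exact AO.b2c h' h0
  | b3 h' h0 h3 hX h4 h5 =>
    have := hvm _ h'.vn hj
    subst this
    exact AO.b3 h' h0 (by omega) h4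
  | t1 h' h1 h2 h3 t1 t2 t3 => have := h'.vm; omega
  | t1c h' => have := h'.vm; omega
  | t2 h' h1 h2 h0 h3 t1 t2 t3 => have := h'.vm; omega
  | t2c h' => have := h'.vm; omega
  | t3 h' => have := h'.vm; omega

/-- the run `v` that ends at `i - 1`, with the lane `s` on the strip `i - 1` -/
inductive AP (i v : ℕ) : Bool × Bool × Pc → Prop
  | none (w : L.w v % L.n = i) : AP i v (true, true, Pc.none)
  | ZA {w : ℕ} (h : L.Zg i w) : AP i v (true, true, Pc.trk 1 (L.yu w) (L.yw i))
  | t2 (h : L.Ht v (i - 1)) (h1 : v < L.m) (h3 : L.yu v < L.yu i) (h4 : L.yw v < L.yw i) :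
      AP i v (false, true, Pc.trk 2 (L.yw v) (L.yw i))
  | t2c {y : ℤ} (h : L.Ht v (i - 1)) (h3 : L.yu v < L.yu i) (h4 : L.yu v ≤ y) (h5 : y < L.yw v)
      (h6 : L.yw i ≤ y) (h7 : y < L.yu i) (hy : y + 1 = min (L.yw v) (L.yu i)) :
      AP i v (false, true, Pc.ctc 2 true y)

theorem rp {i v : ℕ} (hi : L.m < i) (hin : i < L.n) (hv : L.IsV v) (hc : L.c v % L.n = i - 1)
    (hk : (L.cl v).2.1 = true) : L.AP i v (L.cl v) := by
  have h0 := L.ty hv
  have hm := L.hm
  have hn := L.hn
  rw [hc] at h0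
  generalize hw0 : L.w v % L.n = w0 at h0
  generalize L.cl v = k at h0 hk
  generalize hc0 : i - 1 = c0 at h0
  cases h0 with
  | none hc hw hv' hs sc sw =>
    apply AP.none
    rw [hw0, hw, ← hc0, show i - 1 + 1 = i by omega, Nat.mod_eq_of_lt hin]
  | A0 mv cn h => cases hk
  | B0 cm h => cases hk
  | ZA ma h hv' t1 t2 t3 =>
    rename_i a
    have e : a = i := by have := h.a0; omega
    subst e
    exact AP.ZA h
  | ZB ma h hv' =>
    have := h.aw
    omega
  | b1 h' h1 h2 h3 t1 t2 t3 => have := h'.cm; omega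
  | b1c h' h3 h4 h5 h6 h7 hy => have := h'.cm; omega
  | b2 h' h1 h2 h0 h3 t1 t2 t3 => cases hk
  | b2c h' h0 h3 h4 h5 h6 h7 hy => cases hk
  | b3 h' h0 h3 hX h4 h5 => cases hk
  | t1 h' h1 h2 h3 t1 t2 t3 => cases hk
  | t1c h' => cases hk
  | t2 h' h1 h2 h0 h3 t1 t2 t3 =>
    have e : c0 + 1 = i := by omega
    rw [e] at h3 t2 t3 ⊢
    rw [← hc0] at h'
    exact AP.t2 h' h1 h3 t2
  | t2c h' h0 h3 h4 h5 h6 h7 hy =>
    have e : c0 + 1 = i := by omega
    rw [e] at h3 h6 h7 hy
    rw [← hc0] at h'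
    exact AP.t2c h' h3 h4 h5 h6 h7 hy
  | t3 h' => cases hk

/-- the run `v` that ends at `i` -/
inductive AE (i v : ℕ) : Bool × Bool × Pc → Prop
  | none (s : L.S (i + 1) = false) : AE i v (true, true, Pc.none)
  | ZA {w : ℕ} (h : L.Zg (i + 1) w) : AE i v (true, true, Pc.trk 1 (L.yu w) (L.yw (i + 1)))
  | A0 (h : L.Sg v i) : AE i v (false, false, Pc.trk 0 (L.yu i) (L.yw v))
  | t1 (h : L.Ht v i) : AE i v (true, false, Pc.trk 1 (L.yu i) (L.yu (v - 1)))
  | t1c {y : ℤ} (h : L.Ht v i) (h4 : L.yw i ≤ y) (h5 : y < L.yu i) (h6 : L.yu (v - 1) ≤ y)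
      (h7 : y < L.yw (v - 1)) (hy : y + 1 = min (L.yu i) (L.yw (v - 1))) :
      AE i v (true, false, Pc.ctc 1 false y)
  | t2 (h : L.Ht v i) : AE i v (false, true, Pc.trk 2 (L.yw v) (L.yw (i + 1)))
  | t2c {y : ℤ} (h : L.Ht v i) : AE i v (false, true, Pc.ctc 2 true y)
  | t3 {Y : ℤ} (h : L.Ht v i) (h1 : Y ≤ L.yw i) (h2 : L.yu (i + 1) < Y) :
      AE i v (false, false, Pc.valley Y (L.yw i) (L.yu v))

theorem re {i v : ℕ} (hi : L.m < i) (hin : i < L.n) (hv : L.IsV v) (hc : L.c v % L.n = i) :
    L.AE i v (L.cl v) := by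
  have h0 := L.ty hv
  have hm := L.hm
  have hn := L.hn
  rw [hc] at h0
  generalize hw0 : L.w v % L.n = w0 at h0
  generalize L.cl v = k at h0
  generalize hc0 : i = c0 at h0
  cases h0 with
  | none hc hw hv' hs sc sw =>
    apply AE.none
    rw [← sw, hw]
    exact (L.S_mod _).symm
  | A0 mv cn h => exact AE.A0 h
  | B0 cm h => omega
  | ZA ma h hv' t1 t2 t3 =>
    rename_i a
    have e : a = a - 1 + 1 := by have := h.a0; omega
    have k : L.AE (a - 1) v (true, true, Pc.trk 1 (L.yu w0) (L.yw (a - 1 + 1))) :=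
      AE.ZA (by rw [← e]; exact h)
    rw [← e] at k
    exact k
  | ZB ma h hv' =>
    have := h.aw
    omega
  | b1 h' h1 h2 h3 t1 t2 t3 => have := h'.cm; omega
  | b1c h' h3 h4 h5 h6 h7 hy => have := h'.cm; omega
  | b2 h' h1 h2 h0 h3 t1 t2 t3 => have := h'.cm; omega
  | b2c h' h0 h3 h4 h5 h6 h7 hy => have := h'.cm; omega
  | b3 h' h0 h3 hX h4 h5 => have := h'.cm; omega
  | t1 h' h1 h2 h3 t1 t2 t3 => exact AE.t1 h'
  | t1c h' h3 h4 h5 h6 h7 hy => exact AE.t1c h' h4 h5 h6 h7 hy
  | t2 h' h1 h2 h0 h3 t1 t2 t3 => exact AE.t2 h'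
  | t2c h' h0 h3 h4 h5 h6 h7 hy => exact AE.t2c h'
  | t3 h' h0 h3 hY h4 h5 => exact AE.t3 h' (by omega) h5

/-- the run `v` with `w = i`, with the lane `n` on the strip `i` -/
inductive AN (i v : ℕ) : Bool × Bool × Pc → Prop
  | none (c : L.c v % L.n = i - 1) : AN i v (true, true, Pc.none)
  | ZA {a : ℕ} (h : L.Zg a i) (ma : L.m < a) : AN i v (true, true, Pc.trk 1 (L.yu i) (L.yw a))
  | b2 {c : ℕ} (h : L.Hb (i + 1) c) (h2 : 0 < c) (h3 : L.yu i < L.yu c) :
      AN i v (true, false, Pc.trk 2 (L.yu i) (L.yu c))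
  | b2c {c : ℕ} {y : ℤ} (h : L.Hb (i + 1) c) (h4 : L.yw i ≤ y) (h5 : y < L.yu i)
      (h6 : L.yu c ≤ y) (h7 : y < L.yw c) (hy : y = max (L.yw i) (L.yu c)) :
      AN i v (true, false, Pc.ctc 2 false y)

theorem rn {i v : ℕ} (hi : L.m < i) (hin : i < L.n) (hv : L.IsV v) (hw : L.w v % L.n = i)
    (hk : (L.cl v).1 = true) : L.AN i v (L.cl v) := by
  have h0 := L.ty hv
  have hm := L.hm
  have hn := L.hn
  rw [hw] at h0
  generalize hc0 : L.c v % L.n = c0 at h0
  generalize L.cl v = k at h0 hk
  generalize hw0 : i = w0 at h0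
  cases h0 with
  | none hc hw hv' hs sc sw =>
    apply AN.none
    rw [mod2 (by omega)] at hw
    split_ifs at hw <;> omega
  | A0 mv cn h => cases hk
  | B0 cm h => cases hk
  | ZA ma h hv' => exact AN.ZA h ma
  | ZB ma h hv' => omega
  | b1 h' h1 h2 h3 t1 t2 t3 => cases hk
  | b1c h' h3 h4 h5 h6 h7 hy => cases hk
  | b2 h' h1 h2 h0 h3 t1 t2 t3 =>
    rename_i v'
    have e : v' = v' - 1 + 1 := by omega
    rw [e] at h'
    exact AN.b2 h' h2 t2
  | b2c h' h0 h3 h4 h5 h6 h7 hy =>
    rename_i v' y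
    have := h'.mv
    have e : v' = v' - 1 + 1 := by omega
    rw [e] at h'
    exact AN.b2c h' h4 h5 h6 h7 hy
  | b3 h' h0 h3 hX h4 h5 => cases hk
  | t1 h' h1 h2 h3 t1 t2 t3 => have := h'.vm; omega
  | t1c h' => have := h'.vm; omega
  | t2 h' h1 h2 h0 h3 t1 t2 t3 => cases hk
  | t2c h' h0 h3 h4 h5 h6 h7 hy => cases hk
  | t3 h' => cases hk

/-! ## Which runs have a letter at the corner -/

/-- a track ends at `i` -/
theorem gE {i v : ℕ} (hi : L.m < i) (hin : i < L.n) (hv : L.IsV v) {s : Fin 4} {y1 : ℤ}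
    (h : (L.cl v).2.2 = Pc.trk s y1 (L.yw i)) :
    (v = i ∧ (L.cl v).1 = false) ∨ (L.c v % L.n = i - 1 ∧ (L.cl v).2.1 = true) := by
  have h0 := L.ty hv
  have hp := TK.pos L (L.tk hv h)
  have hA := L.dnc i hi hin
  have hB : ∀ j, 0 < j → j < L.m → (L.yu j = L.yw i ∨ L.yw j = L.yw i) → False :=
    fun j h1 h2 h3 => L.ev' hA (Or.inl rfl) (L.upc j h1 h2) h3 (by omega) (by omega)
  have hI : ∀ j, L.m < j → j < L.n → L.yw j = L.yw i → i = j :=
    fun j h1 h2 h3 => L.A_inj hi hin h1 h2 (Or.inl h3.symm)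
  obtain ⟨c0, hc0⟩ : ∃ c0, L.c v % L.n = c0 := ⟨_, rfl⟩
  rw [hc0] at h0 ⊢
  generalize L.w v % L.n = w0 at h0
  generalize L.cl v = k at h0 h ⊢
  cases h0 with
  | none hc hw hv' hs sc sw => cases h
  | A0 mv cn h' =>
    injection h with e1 e2 e3
    have := h'.vc
    have := hI v mv (by omega) e3
    exact Or.inl ⟨this.symm, rfl⟩
  | B0 cm h' =>
    injection h with e1 e2 e3
    have := h'.vc
    exact (hB c0 (by omega) cm (Or.inl e3)).elim
  | ZA ma h' hv' t1 t2 t3 =>
    rename_i a
    injection h with e1 e2 e3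
    have := h'.aw
    have := h'.wn
    have := hI a ma (by omega) e3
    exact Or.inr ⟨by omega, rfl⟩
  | ZB ma h' hv' t1 t2 t3 =>
    injection h with e1 e2 e3
    have := h'.aw
    exact (hB w0 (by omega) ma (Or.inl e3)).elim
  | b1 h' h1 h2 h3 t1 t2 t3 =>
    injection h with e1 e2 e3
    have := hI _ h'.mv h2 e3
    exact Or.inl ⟨by rw [Nat.mod_eq_of_lt h2]; omega, rfl⟩
  | b1c h' h3 h4 h5 h6 h7 hy => cases h
  | b2 h' h1 h2 h0 h3 t1 t2 t3 =>
    injection h with e1 e2 e3
    exact (hB c0 h2 h'.cm (Or.inl e3)).elim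
  | b2c h' h0 h3 h4 h5 h6 h7 hy => cases h
  | b3 h' h0 h3 hX h4 h5 => cases h
  | t1 h' h1 h2 h3 t1 t2 t3 =>
    injection h with e1 e2 e3
    have := h'.vm
    exact (hB (v - 1) (by omega) (by omega) (Or.inl e3)).elim
  | t1c h' => cases h
  | t2 h' h1 h2 h0 h3 t1 t2 t3 =>
    injection h with e1 e2 e3
    have := h'.mc
    have := hI (c0 + 1) (by omega) h2 e3
    exact Or.inr ⟨by omega, rfl⟩
  | t2c h' h0 h3 h4 h5 h6 h7 hy => cases h
  | t3 h' => cases h

/-- a track starts at `i` -/
theorem gS' {i v : ℕ} (hi : L.m < i) (hin : i < L.n) (hv : L.IsV v) {s : Fin 4} {y2 : ℤ}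
    (h : (L.cl v).2.2 = Pc.trk s (L.yu i) y2) :
    (L.c v % L.n = i ∧ (L.cl v).2.1 = false) ∨ (L.w v % L.n = i ∧ (L.cl v).1 = true) := by
  have h0 := L.ty hv
  have hp := TK.pos L (L.tk hv h)
  have hA := L.dnc i hi hin
  have hB : ∀ j, 0 < j → j < L.m → (L.yu j = L.yu i ∨ L.yw j = L.yu i) → False :=
    fun j h1 h2 h3 => L.ev' hA (Or.inr rfl) (L.upc j h1 h2) h3 (by omega) (by omega)
  have hI : ∀ j, L.m < j → j < L.n → L.yu j = L.yu i → i = j :=
    fun j h1 h2 h3 => L.A_inj hi hin h1 h2 (Or.inr h3.symm)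
  obtain ⟨c0, hc0⟩ : ∃ c0, L.c v % L.n = c0 := ⟨_, rfl⟩
  obtain ⟨w0, hw0⟩ : ∃ w0, L.w v % L.n = w0 := ⟨_, rfl⟩
  rw [hc0, hw0] at h0 ⊢
  generalize L.cl v = k at h0 h ⊢
  cases h0 with
  | none hc hw hv' hs sc sw => cases h
  | A0 mv cn h' =>
    injection h with e1 e2 e3
    have := h'.vc
    have := hI c0 (by omega) (by omega) e2
    exact Or.inl ⟨this.symm, rfl⟩
  | B0 cm h' =>
    injection h with e1 e2 e3
    have := h'.vc
    exact (hB v h'.v0 (by omega) (Or.inr e2)).elim
  | ZA ma h' hv' t1 t2 t3 =>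
    rename_i a
    injection h with e1 e2 e3
    have := h'.aw
    have := h'.wn
    have := hI w0 (by omega) (by omega) e2
    exact Or.inr ⟨by omega, rfl⟩
  | ZB ma h' hv' t1 t2 t3 =>
    rename_i a
    injection h with e1 e2 e3
    have := h'.aw
    have := h'.a0
    exact (hB a (by omega) (by omega) (Or.inr e2)).elim
  | b1 h' h1 h2 h3 t1 t2 t3 =>
    injection h with e1 e2 e3
    exact (hB (c0 + 1) (by omega) h1 (Or.inr e2)).elim
  | b1c h' h3 h4 h5 h6 h7 hy => cases h
  | b2 h' h1 h2 h0 h3 t1 t2 t3 =>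
    rename_i v'
    injection h with e1 e2 e3
    have := h'.vn
    have := hI (v' - 1) (by omega) (by omega) e2
    exact Or.inr ⟨by omega, rfl⟩
  | b2c h' h0 h3 h4 h5 h6 h7 hy => cases h
  | b3 h' h0 h3 hX h4 h5 => cases h
  | t1 h' h1 h2 h3 t1 t2 t3 =>
    injection h with e1 e2 e3
    have := h'.vm
    have := hI c0 (by omega) h'.cn e2
    exact Or.inl ⟨by omega, rfl⟩
  | t1c h' => cases h
  | t2 h' h1 h2 h0 h3 t1 t2 t3 =>
    injection h with e1 e2 e3
    have := h'.sg.v0
    exact (hB v (by omega) h1 (Or.inr e2)).elim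
  | t2c h' h0 h3 h4 h5 h6 h7 hy => cases h
  | t3 h' => cases h

/-- a single letter on the wall of `i` -/
theorem gC {i v : ℕ} (hi : L.m < i) (hin : i < L.n) (hv : L.IsV v) {s : Fin 4} {l : Bool} {y : ℤ}
    (h : (L.cl v).2.2 = Pc.ctc s l y) (y1 : L.yw i ≤ y) (y2 : y < L.yu i) :
    (v = i ∧ (L.cl v).1 = false) ∨ (L.c v % L.n = i - 1 ∧ (L.cl v).2.1 = true) ∨
    (L.c v % L.n = i ∧ (L.cl v).2.1 = false) ∨ (L.w v % L.n = i ∧ (L.cl v).1 = true) := by
  have h0 := L.ty hv
  have hm := L.hm
  obtain ⟨c0, hc0⟩ : ∃ c0, L.c v % L.n = c0 := ⟨_, rfl⟩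
  obtain ⟨w0, hw0⟩ : ∃ w0, L.w v % L.n = w0 := ⟨_, rfl⟩
  rw [hc0, hw0] at h0 ⊢
  generalize L.cl v = k at h0 h ⊢
  cases h0 with
  | none hc hw hv' hs sc sw => cases h
  | A0 mv cn h' => cases h
  | B0 cm h' => cases h
  | ZA ma h' hv' t1 t2 t3 => cases h
  | ZB ma h' hv' t1 t2 t3 => cases h
  | b1 h' h1 h2 h3 t1 t2 t3 => cases h
  | b1c h' h3 h4 h5 h6 h7 hy =>
    injection h with e1 e2 e3
    subst e3
    have e := L.wallA_at hi hin h'.mv.le h'.vn h6 h7 y1 y2
    subst e
    exact Or.inl ⟨Nat.mod_eq_of_lt hin, rfl⟩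
  | b2 h' h1 h2 h0 h3 t1 t2 t3 => cases h
  | b2c h' h0 h3 h4 h5 h6 h7 hy =>
    injection h with e1 e2 e3
    subst e3
    have := h'.mv
    have := h'.vn
    have e := L.wallA_at hi hin (by omega) (by omega) h4 h5 y1 y2
    exact Or.inr (Or.inr (Or.inr ⟨e, rfl⟩))
  | b3 h' h0 h3 hX h4 h5 => cases h
  | t1 h' h1 h2 h3 t1 t2 t3 => cases h
  | t1c h' h3 h4 h5 h6 h7 hy =>
    injection h with e1 e2 e3
    subst e3
    have e := L.wallA_at hi hin h'.mc h'.cn.le h4 h5 y1 y2
    exact Or.inr (Or.inr (Or.inl ⟨e, rfl⟩))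
  | t2 h' h1 h2 h0 h3 t1 t2 t3 => cases h
  | t2c h' h0 h3 h4 h5 h6 h7 hy =>
    injection h with e1 e2 e3
    subst e3
    have := h'.mc
    have := h'.cn
    have e := L.wallA_at hi hin (by omega) (by omega) h6 h7 y1 y2
    exact Or.inr (Or.inl ⟨by omega, rfl⟩)
  | t3 h' => cases h

/-! ## Bumps and valleys -/

lemma fN_w {i : ℕ} (hi : L.m < i) (hin : i < L.n) : L.K.fN (L.yw i) = false := by
  rw [← Bool.not_eq_true, L.fN_iff]
  rintro ⟨v, hv, X, yA, yB, h, h1, h2⟩
  obtain ⟨v', c, e, hb, rfl, rfl, h3, h4, h5, h6, h7⟩ := L.bp_ty hv h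
  have hA := L.dnc i hi hin
  have k1 := hb.mv
  have k2 := hb.vn
  rcases Nat.lt_or_ge i v' with hlt | hlt
  · have := L.mwA (i := i) (j := v' - 1) hi.le (by omega) (by omega)
    omega
  · have := L.muA (i := v') (j := i) k1 hlt hin.le
    omega

lemma fN_u {i v : ℕ} (hi : L.m < i) (hin : i < L.n) (hv : L.IsV v) (h : L.isFN (L.yu i) v) :
    v = i ∧ (L.cl v).1 = false := by
  obtain ⟨X, yA, yB, h, h1, h2⟩ := h
  obtain ⟨v', c, e, hb, rfl, rfl, h3, h4, h5, h6, h7⟩ := L.bp_ty hv h
  have hA := L.dnc i hi hin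
  have k1 := hb.mv
  have k2 := hb.vn
  have e1 : v' = i := by
    rcases lt_trichotomy i v' with hlt | hlt | hlt
    · have := L.mwA (i := i) (j := v' - 1) hi.le (by omega) (by omega)
      omega
    · exact hlt.symm
    · have := L.mA (i := v') (j := i) k1.le hlt hin.le
      have := L.dnc v' k1 (by omega)
      omega
  subst e1
  rw [Nat.mod_eq_of_lt hin] at e
  subst e
  refine ⟨rfl, ?_⟩
  have h0 := L.ro hi hv
  generalize L.cl v = k at h0 h
  cases h0 with
  | b3 => rfl
  | _ => cases h

lemma gS_u {i : ℕ} (hi : L.m < i) (hin : i < L.n) : L.K.gS (L.yu i) = false := by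
  rw [← Bool.not_eq_true, L.gS_iff]
  rintro ⟨v, hv, X, yA, yB, h, h1, h2⟩
  obtain ⟨c, hb, rfl, rfl, h3, h4, h5, h6, h7⟩ := L.vl_ty hv h
  have hA := L.dnc i hi hin
  have k1 := hb.mc
  have k2 := hb.cn
  rcases Nat.lt_or_ge c i with hlt | hlt
  · have := L.muA (i := c + 1) (j := i) (by omega) hlt hin.le
    omega
  · have := L.mwA (i := i) (j := c) hi.le hlt k2
    omega

lemma gS_w {i v : ℕ} (hi : L.m < i) (hin : i < L.n) (hv : L.IsV v) (h : L.isGS (L.yw i) v) :
    L.c v % L.n = i ∧ (L.cl v).2.1 = false := by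
  obtain ⟨Y, yA, yB, h, h1, h2⟩ := h
  have h0 := L.ty hv
  have hA := L.dnc i hi hin
  obtain ⟨c0, hc0⟩ : ∃ c0, L.c v % L.n = c0 := ⟨_, rfl⟩
  obtain ⟨w0, hw0⟩ : ∃ w0, L.w v % L.n = w0 := ⟨_, rfl⟩
  rw [hc0, hw0] at h0
  rw [hc0]
  generalize L.cl v = k at h0 h ⊢
  cases h0 with
  | t3 hb h3 h4 h5 h6 h7 =>
    injection h with e1 e2 e3
    subst e1 e2 e3
    have k1 := hb.mc
    have k2 := hb.cn
    refine ⟨?_, rfl⟩
    rcases lt_trichotomy c0 i with hlt | hlt | hlt
    · have := L.muA (i := c0 + 1) (j := i) (by omega) hlt hin.le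
      omega
    · exact hlt
    · have := L.mA (i := i) (j := c0) hi.le hlt k2.le
      have := L.dnc c0 (by omega) k2
      omega
  | _ => cases h

/-! ## The word -/

/-- the word of an A corner -/
lemma cwA_eq {i : ℕ} (hi : L.m < i) (hin : i < L.n) : L.cw i =
    opt (L.SL i) (false, L.tS i) ++ (opt (L.sA i && L.K.gS (L.yw i)) (false, L.K.tv (L.yw i)) ++
    (opt (L.NL i) (true, L.tN i) ++
    (L.oE true 0 (L.yw i) ++ (L.oE true 1 (L.yw i) ++ (L.oE true 2 (L.yw i) ++
      (L.oE true 3 (L.yw i) ++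
    (L.K.cts (L.yw i) (L.yu i - L.yw i).toNat ++
    (L.oS false 3 (L.yu i) ++ (L.oS false 2 (L.yu i) ++ (L.oS false 1 (L.yu i) ++
      (L.oS false 0 (L.yu i) ++
    (opt (L.NL (i + L.n - 1)) (true, L.tN (i + L.n - 1)) ++
    (opt (L.sA (i + L.n - 1) && L.K.fN (L.yu i)) (true, L.K.tb (L.yu i)) ++
    opt (L.SL (i + L.n - 1)) (false, L.tS (i + L.n - 1))))))))))))))) := by
  have hA := L.dnc i hi hin
  have e1 : L.sB i = false := by
    simp only [sB, decide_eq_false_iff_not]
    rintro ⟨h, -⟩
    rw [Nat.mod_eq_of_lt hin] at h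
    omega
  have e2 : L.sB (i + L.n - 1) = false := by
    simp only [sB, decide_eq_false_iff_not]
    rintro ⟨h, -⟩
    rw [show i + L.n - 1 = i - 1 + L.n by omega, Nat.add_mod_right,
      Nat.mod_eq_of_lt (by omega)] at h
    omega
  unfold cw KD.xw
  rw [if_pos hA, e1, e2, L.fN_w hi hin, L.gS_u hi hin, opA_eq, clA_eq]
  simp only [Bool.false_and, Bool.and_false, opt_false, List.append_nil, List.nil_append,
    List.append_assoc]

/-- the letter of a bump or a valley -/
def eF (b : Bool) (v : ℕ) : Pc → List (Bool × ℕ)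
  | Pc.bump _ _ _ => [(b, v)]
  | Pc.valley _ _ _ => [(b, v)]
  | _ => []

lemma fN_own {i : ℕ} (hi : L.m < i) (hin : i < L.n) (hv : L.IsV i) :
    opt (L.sA (i + L.n - 1) && L.K.fN (L.yu i)) (true, L.K.tb (L.yu i)) =
      eF true i (L.cl i).2.2 := by
  have ho := L.ro hi hv
  obtain ⟨k, hk⟩ : ∃ k, k = L.cl i := ⟨_, rfl⟩
  rw [← hk] at ho ⊢
  have hno : (∀ X yA yB, k.2.2 ≠ Pc.bump X yA yB) → L.K.fN (L.yu i) = false := by
    intro h
    rw [← Bool.not_eq_true, L.fN_iff]
    rintro ⟨v, hv', h'⟩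
    obtain ⟨e, -⟩ := L.fN_u hi hin hv' h'
    subst e
    obtain ⟨X, yA, yB, h1, -, -⟩ := h'
    rw [← hk] at h1
    exact h _ _ _ h1
  cases ho with
  | b3 h h0 h1 h2 =>
    rename_i c X
    have hF : L.isFN (L.yu i) i := ⟨X, L.yu i, L.yw c, by rw [← hk], le_rfl, h1⟩
    have e1 : L.K.fN (L.yu i) = true := (L.fN_iff _).2 ⟨i, hv, hF⟩
    have e2 : L.sA (i + L.n - 1) = true := by
      simp only [sA, decide_eq_true_eq]
      have hm1 : (i + L.n - 1) % L.n = (i - 1) % L.n := by
        rw [show i + L.n - 1 = i - 1 + L.n by omega, Nat.add_mod_right]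
      refine ⟨?_, ?_⟩
      · rw [hm1, Nat.mod_eq_of_lt (by omega)]
        omega
      · rw [L.yw_eq hm1, show i + L.n - 1 + 1 = i + L.n by omega, L.yu_per]
        omega
    rw [e1, e2, L.tb_eq hv (Or.inl hF)]
    rfl
  | _ =>
    rw [hno (by intro X yA yB h; cases h), Bool.and_false]
    rfl

/-- The run that starts at `i` has no full lane `n` and no bump if the run that ends at `i - 1` has
a full lane `s` -/
lemma ro_rp {i v : ℕ} {k k' : Bool × Bool × Pc} (hin : i < L.n) (hv : L.IsV i) (hv' : L.IsV v)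
    (hc : L.c v % L.n = i - 1) (h : L.AO i k) (h' : L.AP i v k') :
    k.1 = false ∧ ∀ X yA yB, k.2.2 ≠ Pc.bump X yA yB := by
  have hn := L.hn
  have hb : ∀ c, L.Hb i c → L.yu i ≤ L.yu (c + 1) → False := by
    intro c hb h0
    cases h' with
    | none w =>
      have h1 := hv.2.1
      rw [L.S_of_wA hv' w] at h1
      cases h1
    | ZA hz =>
      rename_i w
      have e := hz.mem (i := c) (by have := hb.cm; have := hb.mv; omega) hb.sc
      have := hb.cm
      have := hb.mv
      omega
    | t2 ht h1 h3 h4 =>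
      have e := hb.Ht ht
      have := L.muB (i := c + 1) (j := v) (by omega) (by omega) ht.vm
      omega
    | t2c ht h3 h4 h5 h6 h7 hy =>
      have e := hb.Ht ht
      have := L.muB (i := c + 1) (j := v) (by omega) (by omega) ht.vm
      omega
  cases h with
  | none s =>
    exfalso
    have h1 := L.S_of_cA' hv' hc
    have h2 := hv.1
    have h3 := hv.2.2
    rcases Nat.eq_zero_or_pos i with h0 | h0
    · subst h0
      have h4 := L.c_le hv'
      have h5 := L.c_lt hv'
      rw [show 0 - 1 + L.n - 1 = 0 + L.n - 1 by omega, h3] at h1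
      cases h1
    · rw [show i - 1 + L.n - 1 = i + L.n - 2 by omega, s] at h1
      cases h1
  | ZA ma hz =>
    exfalso
    rename_i a
    have haw := hz.aw
    cases h' with
    | none w =>
      have h1 := hv.2.1
      rw [L.S_of_wA hv' w] at h1
      cases h1
    | ZA hz' =>
      have := (hz.uniq hz').1
      omega
    | t2 ht h1 h3 h4 => exact ht.notZA hz ma
    | t2c ht h3 h4 h5 h6 h7 hy => exact ht.notZA hz ma
  | b2 h1 h2 => exact (hb _ h1 h2).elim
  | b2c h1 h2 => exact (hb _ h1 h2).elim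
  | b3 h1 h2 => exact (hb _ h1 h2).elim
  | A0 cn h1 => exact ⟨rfl, fun X yA yB h => by cases h⟩
  | b1 h1 => exact ⟨rfl, fun X yA yB h => by cases h⟩
  | b1c h1 => exact ⟨rfl, fun X yA yB h => by cases h⟩

/-- the corner `i` is the first corner of a run -/
theorem cwA_first {i : ℕ} (hi : L.m < i) (hin : i < L.n) (hv : L.IsV i) :
    Red (L.cw i) [(true, i)] := by
  have hn := L.hn
  have hS := hv.2.1
  have nc : ∀ v, L.c v % L.n = i → False := by
    intro v h
    have := L.S_of_cA h
    rw [hS] at this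
    cases this
  have nw : ∀ v, L.IsV v → L.w v % L.n = i → False := by
    intro v hv' h
    have := L.S_of_wA hv' h
    rw [hS] at this
    cases this
  have hmi : i % L.n = i := Nat.mod_eq_of_lt hin
  have hmp : (i + L.n - 1) % L.n = i - 1 := by
    rw [show i + L.n - 1 = i - 1 + L.n by omega, Nat.add_mod_right, Nat.mod_eq_of_lt (by omega)]
  have e1 : L.SL i = false := L.SL_no fun v _ _ h => nc v (h.trans hmi)
  have e2 : L.NL i = false := L.NL_no fun v hv' _ h => nw v hv' (h.trans hmi)
  have e3 : L.K.gS (L.yw i) = false := by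
    rw [← Bool.not_eq_true, L.gS_iff]
    rintro ⟨v, hv', h⟩
    exact nc v (L.gS_w hi hin hv' h).1
  have e4 : ∀ s, L.oS false s (L.yu i) = [] := fun s => L.oS_nil fun v hv' y2 h => by
    rcases L.gS' hi hin hv' h with h | h
    · exact nc v h.1
    · exact nw v hv' h.1
  have e5 := L.fN_own hi hin hv
  have hwi : L.w i % L.n = (i + L.n - 1) % L.n := rfl
  rw [L.cwA_eq hi hin, e1, e2, e3, e4, e4, e4, e4, e5]
  simp only [Bool.and_false, opt_false, List.nil_append]
  have ho := L.ro hi hv
  by_cases hr : ∃ v, L.IsV v ∧ L.c v % L.n = i - 1 ∧ (L.cl v).2.1 = true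
  · obtain ⟨v, hv', hc, hl⟩ := hr
    have hp := L.rp hi hin hv' hc hl
    have hx := L.ro_rp hin hv hv' hc ho hp
    have hne : i ≠ v := by
      rintro rfl
      have h1 := L.c_le hv
      have h2 := L.v_lt_c hv
      rw [mod2 (by omega)] at hc
      split_ifs at hc <;> omega
    have hu : ∀ v', L.IsV v' → L.c v' % L.n = i - 1 → v' = v := fun v' h1 h2 =>
      L.c_unique h1 hv' (by rw [h2, hc])
    have E : ∀ s, L.oE true s (L.yw i) = eE true s (L.yw i) i (L.cl i).2.2 ++
        eE true s (L.yw i) v (L.cl v).2.2 := fun s =>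
      L.oE_two hv hv' hne fun v' h1 y1 e => by
        rcases L.gE hi hin h1 e with h | h
        · exact Or.inl h.1
        · exact Or.inr (hu v' h1 h.1)
    have e6 : L.NL (i + L.n - 1) = false := L.NL_no fun v' h1 h2 h3 => by
      have := L.w_unique h1 hv (h3.trans hwi.symm)
      subst this
      rw [hx.1] at h2
      cases h2
    obtain ⟨e7, e8⟩ := L.SL_ofA (i := i + L.n - 1) hv' hl (hc.trans hmp.symm)
    have C : L.K.cts (L.yw i) (L.yu i - L.yw i).toNat =
        eC (L.yw i) (L.yu i) i (L.cl i).2.2 ++ eC (L.yw i) (L.yu i) v (L.cl v).2.2 := by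
      apply L.cts_set2 hv hv' hne
      · obtain ⟨k, hk⟩ : ∃ k, k = L.cl i := ⟨_, rfl⟩
        obtain ⟨k', hk'⟩ : ∃ k, k = L.cl v := ⟨_, rfl⟩
        rw [← hk] at ho hx ⊢
        rw [← hk'] at hp ⊢
        intro s l y s' l' y' h1 h2 h3 h4 h5 h6
        clear hk hk' e5 E
        cases ho with
        | b1c hb k1 k2 k3 k4 =>
          cases hp with
          | t2c ht l3 l4 l5 l6 l7 ly =>
            injection h1 with a1 a2 a3
            injection h2 with b1 b2 b3
            subst a1 a2 a3 b1 b2 b3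
            rename_i c y y'
            have e := hb.Ht ht
            have f : L.yw (c + 1) ≤ L.yw v := by
              rcases Nat.lt_or_ge (c + 1) v with g | g
              · have := L.mB (i := c + 1) (j := v) g ht.vm
                omega
              · rw [show c + 1 = v by omega]
            rcases (show y ≤ y' by omega).lt_or_eq with g | g
            · exact Or.inl g
            · exact Or.inr ⟨g, Or.inl ⟨rfl, rfl, rfl⟩⟩
          | _ => cases h2
        | b2c hb k1 => cases hx.1
        | _ => cases h1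
      · intro v' h1 s l y h h3 h4
        rcases L.gC hi hin h1 h h3 h4 with h | h | h | h
        · exact Or.inl h.1
        · exact Or.inr (hu v' h1 h.1)
        · exact (nc v' h.1).elim
        · exact (nw v' h1 h.1).elim
    rw [E, E, E, E, C, e6, e7, e8]
    simp only [opt_false, List.nil_append, opt_true]
    obtain ⟨k, hk⟩ : ∃ k, k = L.cl i := ⟨_, rfl⟩
    obtain ⟨k', hk'⟩ : ∃ k, k = L.cl v := ⟨_, rfl⟩
    rw [← hk] at ho hx ⊢
    rw [← hk'] at hp ⊢
    clear hk hk' e5 E
    have hnw := nw v hv'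
    cases ho with
    | none => cases hx.1
    | ZA => cases hx.1
    | b2 => cases hx.1
    | b2c => cases hx.1
    | b3 => exact (hx.2 _ _ _ rfl).elim
    | A0 cn h1 =>
      cases hp with
      | none w => exact (hnw w).elim
      | ZA hz => simp [eE, eC, eF]; exact Red.tail1 _ _
      | t2 ht h1 h3 h4 => simp [eE, eC, eF]; exact Red.tail1 _ _
      | t2c ht h3 h4 h5 h6 h7 hy => simp [eE, eC, eF, h6, h7]; exact Red.tail1 _ _
    | b1 hb =>
      cases hp with
      | none w => exact (hnw w).elim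
      | ZA hz => exact (hb.notZA hz hi).elim
      | t2 ht h1 h3 h4 => simp [eE, eC, eF]; exact Red.tail1 _ _
      | t2c ht h3 h4 h5 h6 h7 hy => simp [eE, eC, eF, h6, h7]; exact Red.tail1 _ _
    | b1c hb k1 k2 k3 k4 =>
      rename_i c y
      cases hp with
      | none w => exact (hnw w).elim
      | ZA hz => exact (hb.notZA hz hi).elim
      | t2 ht h1 h3 h4 =>
        exfalso
        have e := hb.Ht ht
        have := L.mwB (i := c + 1) (j := v) e.1 h1
        omega
      | t2c ht h3 h4 h5 h6 h7 hy => simp [eE, eC, eF, h6, h7, k1, k2]; exact Red.tail1 _ _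
  · have e7 : L.SL (i + L.n - 1) = false := L.SL_no fun v' h1 h2 h3 =>
      hr ⟨v', h1, by rw [h3, hmp], h2⟩
    by_cases hl : (L.cl i).1 = true
    · have E : ∀ s, L.oE true s (L.yw i) = [] := fun s => L.oE_nil fun v' h1 y1 e => by
        rcases L.gE hi hin h1 e with h | h
        · rw [h.1, hl] at h
          cases h.2
        · exact hr ⟨v', h1, h⟩
      have C : L.K.cts (L.yw i) (L.yu i - L.yw i).toNat = [] :=
        L.cts_none fun v' h1 s l y h h3 h4 => by
          rcases L.gC hi hin h1 h h3 h4 with h | h | h | h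
          · rw [h.1, hl] at h
            cases h.2
          · exact hr ⟨v', h1, h⟩
          · exact (nc v' h.1).elim
          · exact (nw v' h1 h.1).elim
      obtain ⟨e8, e9⟩ := L.NL_ofA (i := i + L.n - 1) hv hl hwi
      rw [E, E, E, E, C, e7, e8, e9]
      have e10 : eF true i (L.cl i).2.2 = [] := by
        clear e5
        generalize L.cl i = k at ho hl ⊢
        cases ho with
        | b3 => cases hl
        | _ => rfl
      rw [e10]
      exact Red.refl _
    · have E : ∀ s, L.oE true s (L.yw i) = eE true s (L.yw i) i (L.cl i).2.2 := fun s =>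
        L.oE_one hv fun v' h1 y1 e => by
          rcases L.gE hi hin h1 e with h | h
          · exact h.1
          · exact (hr ⟨v', h1, h⟩).elim
      have C : L.K.cts (L.yw i) (L.yu i - L.yw i).toNat =
          eC (L.yw i) (L.yu i) i (L.cl i).2.2 :=
        L.cts_set1 hv fun v' h1 s l y h h3 h4 => by
          rcases L.gC hi hin h1 h h3 h4 with h | h | h | h
          · exact h.1
          · exact (hr ⟨v', h1, h⟩).elim
          · exact (nc v' h.1).elim
          · exact (nw v' h1 h.1).elim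
      have e8 : L.NL (i + L.n - 1) = false := L.NL_no fun v' h1 h2 h3 => by
        have := L.w_unique h1 hv (h3.trans hwi.symm)
        subst this
        exact hl h2
      rw [E, E, E, E, C, e7, e8]
      obtain ⟨k, hk⟩ : ∃ k, k = L.cl i := ⟨_, rfl⟩
      rw [← hk] at ho hl ⊢
      clear hk e5 E C
      cases ho with
      | none => exact (hl rfl).elim
      | ZA => exact (hl rfl).elim
      | b2 => exact (hl rfl).elim
      | b2c => exact (hl rfl).elim
      | b3 => exact Red.refl _
      | A0 cn h1 => simp [eE, eC, eF]; exact Red.refl _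
      | b1 hb => simp [eE, eC, eF]; exact Red.refl _
      | b1c hb k1 k2 k3 k4 => simp [eE, eC, eF, k1, k2]; exact Red.refl _

lemma gS_end {i v : ℕ} (hi : L.m < i) (hin : i < L.n) (hv : L.IsV v) (hc : L.c v % L.n = i) :
    opt (L.sA i && L.K.gS (L.yw i)) (false, L.K.tv (L.yw i)) = eF false v (L.cl v).2.2 := by
  have ho := L.re hi hin hv hc
  obtain ⟨k, hk⟩ : ∃ k, k = L.cl v := ⟨_, rfl⟩
  rw [← hk] at ho ⊢
  have hno : (∀ X yA yB, k.2.2 ≠ Pc.valley X yA yB) → L.K.gS (L.yw i) = false := by
    intro h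
    rw [← Bool.not_eq_true, L.gS_iff]
    rintro ⟨v', hv', h'⟩
    have e := L.gS_w hi hin hv' h'
    have := L.c_unique hv' hv (by rw [e.1, hc])
    subst this
    obtain ⟨X, yA, yB, h1, -, -⟩ := h'
    rw [← hk] at h1
    exact h _ _ _ h1
  cases ho with
  | t3 h h1 h2 =>
    rename_i Y
    have hF : L.isGS (L.yw i) v := ⟨Y, L.yw i, L.yu v, by rw [← hk], h1, le_rfl⟩
    have e1 : L.K.gS (L.yw i) = true := (L.gS_iff _).2 ⟨v, hv, hF⟩
    have e2 : L.sA i = true := by
      simp only [sA, decide_eq_true_eq]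
      refine ⟨?_, ?_⟩
      · rw [Nat.mod_eq_of_lt hin]
        omega
      · omega
    rw [e1, e2, L.tv_eq hv (Or.inl hF)]
    rfl
  | _ =>
    rw [hno (by intro X yA yB h; cases h), Bool.and_false]
    rfl

/-- the corner `i` is the last corner of a run -/
theorem cwA_end {i v : ℕ} (hi : L.m < i) (hin : i < L.n) (hv : L.IsV v) (hc : L.c v % L.n = i) :
    Red (L.cw i) [(false, v)] := by
  have hn := L.hn
  have hS := L.S_of_cA hc
  have hSp : L.S (i - 1) = true := by
    rw [← L.S_prevA (j := i) (by omega)]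
    exact L.S_of_cA' hv hc
  have no : ∀ v, L.IsV v → v = i → False := by
    intro v hv h
    subst h
    rw [hv.2.1] at hS
    cases hS
  have np : ∀ v, L.IsV v → L.c v % L.n = i - 1 → False := by
    intro v hv' h
    have := L.S_of_cA h
    rw [hSp] at this
    cases this
  have hmi : i % L.n = i := Nat.mod_eq_of_lt hin
  have hmp : (i + L.n - 1) % L.n = i - 1 := by
    rw [show i + L.n - 1 = i - 1 + L.n by omega, Nat.add_mod_right, Nat.mod_eq_of_lt (by omega)]
  have e1 : L.SL (i + L.n - 1) = false := L.SL_no fun v hv' _ h => np v hv' (h.trans hmp)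
  have e2 : L.NL (i + L.n - 1) = false := L.NL_no fun v hv' _ h => by
    have := L.v_of_wA hv' (h.trans hmp)
    rw [show i - 1 + 1 = i by omega, hmi] at this
    exact no v hv' this
  have e3 : L.K.fN (L.yu i) = false := by
    rw [← Bool.not_eq_true, L.fN_iff]
    rintro ⟨v, hv', h⟩
    exact no v hv' (L.fN_u hi hin hv' h).1
  have e4 : ∀ s, L.oE true s (L.yw i) = [] := fun s => L.oE_nil fun v hv' y2 h => by
    rcases L.gE hi hin hv' h with h | h
    · exact no v hv' h.1
    · exact np v hv' h.1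
  have e5 := L.gS_end hi hin hv hc
  rw [L.cwA_eq hi hin, e1, e2, e3, e4, e4, e4, e4, e5]
  simp only [Bool.and_false, opt_false, List.nil_append, List.append_nil]
  have ho := L.re hi hin hv hc
  have hu : ∀ v', L.IsV v' → L.c v' % L.n = i → v' = v := fun v' h1 h2 =>
      L.c_unique h1 hv (by rw [h2, hc])
  by_cases hr : ∃ v, L.IsV v ∧ L.w v % L.n = i ∧ (L.cl v).1 = true
  · obtain ⟨r, hv', hw, hl⟩ := hr
    have hp := L.rn hi hin hv' hw hl
    have hS1 := L.S_of_wA' hv' hw
    have hu' : ∀ v', L.IsV v' → L.w v' % L.n = i → v' = r := fun v' h1 h2 =>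
      L.w_unique h1 hv' (by rw [h2, hw])
    have hnp := np r hv'
    obtain ⟨e6, e7⟩ := L.NL_ofA (i := i) hv' hl (hw.trans hmi.symm)
    by_cases hlv : (L.cl v).2.1 = true
    · -- the run ends with a full lane
      obtain ⟨e8, e9⟩ := L.SL_ofA (i := i) hv hlv (hc.trans hmi.symm)
      have E : ∀ s, L.oS false s (L.yu i) = eS false s (L.yu i) r (L.cl r).2.2 := fun s =>
        L.oS_one hv' fun v' h1 y1 e => by
          rcases L.gS' hi hin h1 e with h | h
          · have := hu v' h1 h.1
            subst this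
            rw [h.2] at hlv
            cases hlv
          · exact hu' v' h1 h.1
      have C : L.K.cts (L.yw i) (L.yu i - L.yw i).toNat =
          eC (L.yw i) (L.yu i) r (L.cl r).2.2 :=
        L.cts_set1 hv' fun v' h1 s l y h h3 h4 => by
          rcases L.gC hi hin h1 h h3 h4 with h | h | h | h
          · exact (no v' h1 h.1).elim
          · exact (np v' h1 h.1).elim
          · have := hu v' h1 h.1
            subst this
            rw [h.2] at hlv
            cases hlv
          · exact hu' v' h1 h.1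
      rw [E, E, E, E, C, e6, e7, e8, e9]
      have e10 : eF false v (L.cl v).2.2 = [] := by
        clear e5
        generalize L.cl v = k at ho hlv ⊢
        cases ho with
        | t3 => cases hlv
        | _ => rfl
      rw [e10]
      clear e5 E C
      generalize L.cl r = k at hp hl ⊢
      cases hp with
      | none c => exact (hnp c).elim
      | ZA hz ma => simp [eS, eC]; exact Red.tail1 _ _
      | b2 hb h2 h3 => simp [eS, eC]; exact Red.tail1 _ _
      | b2c hb h4 h5 h6 h7 hy => simp [eS, eC, h4, h5]; exact Red.tail1 _ _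
    · -- the run ends at the corner with a letter of its piece
      have e8 : L.SL i = false := L.SL_no fun v' h1 h2 h3 => by
        have := hu v' h1 (h3.trans hmi)
        subst this
        exact hlv h2
      have hne : r ≠ v := by
        rintro rfl
        have h1 := L.c_le hv
        have h2 := L.v_lt_c hv
        have h3 := L.v_of_wA hv hw
        have h4 := hv.1
        rw [mod2 (by omega)] at hc h3
        split_ifs at hc h3 <;> omega
      have E : ∀ s, L.oS false s (L.yu i) = eS false s (L.yu i) r (L.cl r).2.2 ++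
          eS false s (L.yu i) v (L.cl v).2.2 := fun s =>
        L.oS_two hv' hv hne fun v' h1 y1 e => by
          rcases L.gS' hi hin h1 e with h | h
          · exact Or.inr (hu v' h1 h.1)
          · exact Or.inl (hu' v' h1 h.1)
      have C : L.K.cts (L.yw i) (L.yu i - L.yw i).toNat =
          eC (L.yw i) (L.yu i) r (L.cl r).2.2 ++ eC (L.yw i) (L.yu i) v (L.cl v).2.2 := by
        apply L.cts_set2 hv' hv hne
        · obtain ⟨k, hk⟩ : ∃ k, k = L.cl v := ⟨_, rfl⟩
          obtain ⟨k', hk'⟩ : ∃ k, k = L.cl r := ⟨_, rfl⟩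
          rw [← hk] at ho hlv ⊢
          rw [← hk'] at hp ⊢
          intro s l y s' l' y' h1 h2 h3 h4 h5 h6
          clear hk hk' e5 E
          cases hp with
          | b2c hb k4 k5 k6 k7 ky =>
            cases ho with
            | t1c ht l4 l5 l6 l7 ly =>
              injection h1 with a1 a2 a3
              injection h2 with b1 b2 b3
              subst a1 a2 a3 b1 b2 b3
              rename_i c y y'
              have e := hb.Ht ht
              have := ht.sg.v0
              have := ht.vm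
              have f : L.yw c ≤ L.yw (v - 1) := L.mwB (i := c) (j := v - 1) (by omega) (by omega)
              rcases (show y ≤ y' by omega).lt_or_eq with g | g
              · exact Or.inl g
              · exact Or.inr ⟨g, Or.inr ⟨rfl, rfl, rfl⟩⟩
            | t2c ht => exact (hlv rfl).elim
            | _ => cases h2
          | _ => cases h1
        · intro v' h1 s l y h h3 h4
          rcases L.gC hi hin h1 h h3 h4 with h | h | h | h
          · exact (no v' h1 h.1).elim
          · exact (np v' h1 h.1).elim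
          · exact Or.inr (hu v' h1 h.1)
          · exact Or.inl (hu' v' h1 h.1)
      rw [E, E, E, E, C, e6, e7, e8]
      clear e5 E C
      obtain ⟨k, hk⟩ : ∃ k, k = L.cl v := ⟨_, rfl⟩
      obtain ⟨k', hk'⟩ : ∃ k, k = L.cl r := ⟨_, rfl⟩
      rw [← hk] at ho hlv ⊢
      rw [← hk'] at hp ⊢
      clear hk hk'
      cases ho with
      | none => exact (hlv rfl).elim
      | ZA => exact (hlv rfl).elim
      | t2 => exact (hlv rfl).elim
      | t2c => exact (hlv rfl).elim
      | A0 h =>
        cases hp with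
        | none c => exact (hnp c).elim
        | ZA hz ma => simp [eS, eC, eF]; exact Red.head1 _ _
        | b2 hb h2 h3 => simp [eS, eC, eF]; exact Red.head1 _ _
        | b2c hb h4 h5 h6 h7 hy => simp [eS, eC, eF, h4, h5]; exact Red.head1 _ _
      | t1 ht =>
        cases hp with
        | none c => exact (hnp c).elim
        | ZA hz ma => exact (ht.notZA hz ma).elim
        | b2 hb h2 h3 => simp [eS, eC, eF]; exact Red.head1 _ _
        | b2c hb h4 h5 h6 h7 hy => simp [eS, eC, eF, h4, h5]; exact Red.head1 _ _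
      | t1c ht k4 k5 k6 k7 ky =>
        cases hp with
        | none c => exact (hnp c).elim
        | ZA hz ma => exact (ht.notZA hz ma).elim
        | b2 hb h2 h3 =>
          exfalso
          rename_i c
          have e := hb.Ht ht
          have := ht.sg.v0
          have := ht.vm
          have := L.muB (i := c) (j := v - 1) h2 (by omega) (by omega)
          omega
        | b2c hb h4 h5 h6 h7 hy => simp [eS, eC, eF, h4, h5, k4, k5]; exact Red.head1 _ _
      | t3 ht k1 k2 =>
        cases hp with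
        | none c => exact (hnp c).elim
        | ZA hz ma => exact (ht.notZA hz ma).elim
        | b2 hb h2 h3 => simp [eS, eC, eF]; exact Red.tail1 _ _
        | b2c hb h4 h5 h6 h7 hy => simp [eS, eC, eF, h4, h5]; exact Red.tail1 _ _
  · have e6 : L.NL i = false := L.NL_no fun v' h1 h2 h3 => hr ⟨v', h1, h3.trans hmi, h2⟩
    by_cases hlv : (L.cl v).2.1 = true
    · obtain ⟨e8, e9⟩ := L.SL_ofA (i := i) hv hlv (hc.trans hmi.symm)
      have E : ∀ s, L.oS false s (L.yu i) = [] := fun s =>
        L.oS_nil fun v' h1 y1 e => by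
          rcases L.gS' hi hin h1 e with h | h
          · have := hu v' h1 h.1
            subst this
            rw [h.2] at hlv
            cases hlv
          · exact hr ⟨v', h1, h⟩
      have C : L.K.cts (L.yw i) (L.yu i - L.yw i).toNat = [] :=
        L.cts_none fun v' h1 s l y h h3 h4 => by
          rcases L.gC hi hin h1 h h3 h4 with h | h | h | h
          · exact (no v' h1 h.1).elim
          · exact (np v' h1 h.1).elim
          · have := hu v' h1 h.1
            subst this
            rw [h.2] at hlv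
            cases hlv
          · exact hr ⟨v', h1, h⟩
      have e10 : eF false v (L.cl v).2.2 = [] := by
        clear e5
        generalize L.cl v = k at ho hlv ⊢
        cases ho with
        | t3 => cases hlv
        | _ => rfl
      rw [E, E, E, E, C, e6, e8, e9, e10]
      exact Red.refl _
    · have e8 : L.SL i = false := L.SL_no fun v' h1 h2 h3 => by
        have := hu v' h1 (h3.trans hmi)
        subst this
        exact hlv h2
      have E : ∀ s, L.oS false s (L.yu i) = eS false s (L.yu i) v (L.cl v).2.2 := fun s =>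
        L.oS_one hv fun v' h1 y1 e => by
          rcases L.gS' hi hin h1 e with h | h
          · exact hu v' h1 h.1
          · exact (hr ⟨v', h1, h⟩).elim
      have C : L.K.cts (L.yw i) (L.yu i - L.yw i).toNat =
          eC (L.yw i) (L.yu i) v (L.cl v).2.2 :=
        L.cts_set1 hv fun v' h1 s l y h h3 h4 => by
          rcases L.gC hi hin h1 h h3 h4 with h | h | h | h
          · exact (no v' h1 h.1).elim
          · exact (np v' h1 h.1).elim
          · exact hu v' h1 h.1
          · exact (hr ⟨v', h1, h⟩).elim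
      rw [E, E, E, E, C, e6, e8]
      clear e5 E C
      obtain ⟨k, hk⟩ : ∃ k, k = L.cl v := ⟨_, rfl⟩
      rw [← hk] at ho hlv ⊢
      clear hk
      cases ho with
      | none => exact (hlv rfl).elim
      | ZA => exact (hlv rfl).elim
      | t2 => exact (hlv rfl).elim
      | t2c => exact (hlv rfl).elim
      | A0 h => simp [eS, eC, eF]; exact Red.refl _
      | t1 ht => simp [eS, eC, eF]; exact Red.refl _
      | t1c ht k4 k5 k6 k7 ky => simp [eS, eC, eF, k4, k5]; exact Red.refl _
      | t3 ht k1 k2 => simp [eS, eC, eF]; exact Red.refl _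

/-- the corner `i` is not the first and not the last corner of a run -/
theorem cwA_other {i : ℕ} (hi : L.m < i) (hin : i < L.n) (h1 : ¬ L.IsV i)
    (h2 : ∀ v, L.IsV v → L.c v % L.n ≠ i) : Red (L.cw i) [] := by
  have hn := L.hn
  have no : ∀ v, L.IsV v → v = i → False := by
    intro v hv h
    subst h
    exact h1 hv
  have hmi : i % L.n = i := Nat.mod_eq_of_lt hin
  have hmp : (i + L.n - 1) % L.n = i - 1 := by
    rw [show i + L.n - 1 = i - 1 + L.n by omega, Nat.add_mod_right, Nat.mod_eq_of_lt (by omega)]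
  have e1 : L.SL i = false := L.SL_no fun v hv' _ h => h2 v hv' (h.trans hmi)
  have e2 : L.NL (i + L.n - 1) = false := L.NL_no fun v hv' _ h => by
    have := L.v_of_wA hv' (h.trans hmp)
    rw [show i - 1 + 1 = i by omega, hmi] at this
    exact no v hv' this
  have e3 : L.K.fN (L.yu i) = false := by
    rw [← Bool.not_eq_true, L.fN_iff]
    rintro ⟨v, hv', h⟩
    exact no v hv' (L.fN_u hi hin hv' h).1
  have e4 : L.K.gS (L.yw i) = false := by
    rw [← Bool.not_eq_true, L.gS_iff]
    rintro ⟨v, hv', h⟩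
    exact h2 v hv' (L.gS_w hi hin hv' h).1
  rw [L.cwA_eq hi hin, e1, e2, e3, e4]
  simp only [Bool.and_false, opt_false, List.nil_append]
  by_cases hp : ∃ v, L.IsV v ∧ L.c v % L.n = i - 1 ∧ (L.cl v).2.1 = true
  · obtain ⟨p, hvp, hcp, hlp⟩ := hp
    have hup : ∀ v', L.IsV v' → L.c v' % L.n = i - 1 → v' = p := fun v' h1 h2 =>
        L.c_unique h1 hvp (by rw [h2, hcp])
    obtain ⟨e5, e6⟩ := L.SL_ofA (i := i + L.n - 1) hvp hlp (hcp.trans hmp.symm)
    have hP := L.rp hi hin hvp hcp hlp
    have E : ∀ s, L.oE true s (L.yw i) = eE true s (L.yw i) p (L.cl p).2.2 := fun s =>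
      L.oE_one hvp fun v' h1 y1 e => by
        rcases L.gE hi hin h1 e with h | h
        · exact (no v' h1 h.1).elim
        · exact hup v' h1 h.1
    by_cases hr : ∃ v, L.IsV v ∧ L.w v % L.n = i ∧ (L.cl v).1 = true
    · obtain ⟨r, hvr, hwr, hlr⟩ := hr
      have hR := L.rn hi hin hvr hwr hlr
      have hur : ∀ v', L.IsV v' → L.w v' % L.n = i → v' = r := fun v' h1 h2 =>
        L.w_unique h1 hvr (by rw [h2, hwr])
      obtain ⟨e7, e8⟩ := L.NL_ofA (i := i) hvr hlr (hwr.trans hmi.symm)
      have E' : ∀ s, L.oS false s (L.yu i) = eS false s (L.yu i) r (L.cl r).2.2 := fun s =>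
        L.oS_one hvr fun v' h1 y1 e => by
          rcases L.gS' hi hin h1 e with h | h
          · exact (h2 v' h1 h.1).elim
          · exact hur v' h1 h.1
      by_cases heq : r = p
      · subst heq
        have C : L.K.cts (L.yw i) (L.yu i - L.yw i).toNat =
            eC (L.yw i) (L.yu i) r (L.cl r).2.2 :=
          L.cts_set1 hvp fun v' h1 s l y h h3 h4 => by
            rcases L.gC hi hin h1 h h3 h4 with h | h | h | h
            · exact (no v' h1 h.1).elim
            · exact hup v' h1 h.1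
            · exact (h2 v' h1 h.1).elim
            · exact hur v' h1 h.1
        rw [E, E, E, E, E', E', E', E', C, e5, e6, e7, e8]
        clear E E' C
        generalize L.cl r = k at hP hR hlp hlr ⊢
        cases hP with
        | none w => simp [eE, eS, eC]; exact Red.mid1 _
        | ZA hz =>
          exfalso
          rename_i w
          generalize hk' : (true, true, Pc.trk 1 (L.yu w) (L.yw i)) = k' at hR
          cases hR with
          | none c => cases hk'
          | ZA hz' =>
            have := (hz.uniq hz').2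
            have := hz.aw
            omega
          | b2 hb => cases hk'
          | b2c hb => cases hk'
        | t2 => cases hlr
        | t2c => cases hlr
      · have C : L.K.cts (L.yw i) (L.yu i - L.yw i).toNat =
            eC (L.yw i) (L.yu i) r (L.cl r).2.2 ++ eC (L.yw i) (L.yu i) p (L.cl p).2.2 := by
          apply L.cts_set2 hvr hvp heq
          · obtain ⟨k, hk⟩ : ∃ k, k = L.cl p := ⟨_, rfl⟩
            obtain ⟨k', hk'⟩ : ∃ k, k = L.cl r := ⟨_, rfl⟩
            rw [← hk] at hP ⊢
            rw [← hk'] at hR ⊢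
            intro s l y s' l' y' h1 h2 h3 h4 h5 h6
            clear hk hk' E E'
            cases hR with
            | b2c hb k4 k5 k6 k7 ky =>
              cases hP with
              | t2c ht l3 l4 l5 l6 l7 ly =>
                injection h1 with a1 a2 a3
                injection h2 with b1 b2 b3
                subst a1 a2 a3 b1 b2 b3
                rename_i c y y'
                have e := hb.Ht ht
                have f : L.yw c ≤ L.yu p := L.mB e.1 ht.vm
                left
                omega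
              | _ => cases h2
            | _ => cases h1
          · intro v' h1 s l y h h3 h4
            rcases L.gC hi hin h1 h h3 h4 with h | h | h | h
            · exact (no v' h1 h.1).elim
            · exact Or.inr (hup v' h1 h.1)
            · exact (h2 v' h1 h.1).elim
            · exact Or.inl (hur v' h1 h.1)
        rw [E, E, E, E, E', E', E', E', C, e5, e6, e7, e8]
        clear E E' C
        have n1 := hup r hvr
        have n2 := hur p hvp
        generalize L.cl p = k at hP hlp ⊢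
        generalize L.cl r = k' at hR hlr ⊢
        cases hP with
        | none w => exact (heq (n2 w).symm).elim
        | ZA hz =>
          exfalso
          cases hR with
          | none c => exact heq (n1 c)
          | ZA hz' ma =>
            have := (hz.uniq hz').2
            have := hz.aw
            omega
          | b2 hb => exact hb.notZA hz hi
          | b2c hb => exact hb.notZA hz hi
        | t2 ht k1 k3 k4 =>
          exfalso
          cases hR with
          | none c => exact heq (n1 c)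
          | ZA hz' ma => exact ht.notZA hz' ma
          | b2 hb l2 l3 =>
            rename_i c
            have e := hb.Ht ht
            have := L.muB (i := c) (j := p) l2 (by omega) (by omega)
            omega
          | b2c hb l4 l5 l6 l7 ly =>
            rename_i c y
            have e := hb.Ht ht
            have := L.mwB (i := c) (j := p) (by omega) (by omega)
            omega
        | t2c ht k3 k4 k5 k6 k7 ky =>
          cases hR with
          | none c => exact (heq (n1 c)).elim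
          | ZA hz' ma => exact (ht.notZA hz' ma).elim
          | b2 hb l2 l3 =>
            exfalso
            rename_i c
            have e := hb.Ht ht
            have := L.muB (i := c) (j := p) l2 (by omega) ht.vm
            omega
          | b2c hb l4 l5 l6 l7 ly =>
            simp [eE, eS, eC, k6, k7, l4, l5]; exact Red.two _ _
    · have e7 : L.NL i = false := L.NL_no fun v' h1 h2 h3 => hr ⟨v', h1, h3.trans hmi, h2⟩
      have E' : ∀ s, L.oS false s (L.yu i) = [] := fun s =>
        L.oS_nil fun v' h1 y1 e => by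
          rcases L.gS' hi hin h1 e with h | h
          · exact (h2 v' h1 h.1).elim
          · exact hr ⟨v', h1, h⟩
      have C : L.K.cts (L.yw i) (L.yu i - L.yw i).toNat =
          eC (L.yw i) (L.yu i) p (L.cl p).2.2 :=
        L.cts_set1 hvp fun v' h1 s l y h h3 h4 => by
          rcases L.gC hi hin h1 h h3 h4 with h | h | h | h
          · exact (no v' h1 h.1).elim
          · exact hup v' h1 h.1
          · exact (h2 v' h1 h.1).elim
          · exact (hr ⟨v', h1, h⟩).elim
      rw [E, E, E, E, E', E', E', E', C, e5, e6, e7]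
      clear E E' C
      have n2 : L.w p % L.n = i → (L.cl p).1 = true → False := fun h h' => hr ⟨p, hvp, h, h'⟩
      generalize L.cl p = k at hP hlp n2 ⊢
      cases hP with
      | none w => exact (n2 w rfl).elim
      | ZA hz => simp [eE, eS, eC]; exact Red.mid1 _
      | t2 ht k1 k3 k4 => simp [eE, eS, eC]; exact Red.mid1 _
      | t2c ht k3 k4 k5 k6 k7 ky => simp [eE, eS, eC, k6, k7]; exact Red.mid1 _
  · have e5 : L.SL (i + L.n - 1) = false := L.SL_no fun v' h1 h2 h3 =>
      hp ⟨v', h1, h3.trans hmp, h2⟩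
    have E : ∀ s, L.oE true s (L.yw i) = [] := fun s =>
      L.oE_nil fun v' h1 y1 e => by
        rcases L.gE hi hin h1 e with h | h
        · exact (no v' h1 h.1).elim
        · exact hp ⟨v', h1, h⟩
    by_cases hr : ∃ v, L.IsV v ∧ L.w v % L.n = i ∧ (L.cl v).1 = true
    · obtain ⟨r, hvr, hwr, hlr⟩ := hr
      have hR := L.rn hi hin hvr hwr hlr
      have hur : ∀ v', L.IsV v' → L.w v' % L.n = i → v' = r := fun v' h1 h2 =>
        L.w_unique h1 hvr (by rw [h2, hwr])
      obtain ⟨e7, e8⟩ := L.NL_ofA (i := i) hvr hlr (hwr.trans hmi.symm)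
      have E' : ∀ s, L.oS false s (L.yu i) = eS false s (L.yu i) r (L.cl r).2.2 := fun s =>
        L.oS_one hvr fun v' h1 y1 e => by
          rcases L.gS' hi hin h1 e with h | h
          · exact (h2 v' h1 h.1).elim
          · exact hur v' h1 h.1
      have C : L.K.cts (L.yw i) (L.yu i - L.yw i).toNat =
          eC (L.yw i) (L.yu i) r (L.cl r).2.2 :=
        L.cts_set1 hvr fun v' h1 s l y h h3 h4 => by
          rcases L.gC hi hin h1 h h3 h4 with h | h | h | h
          · exact (no v' h1 h.1).elim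
          · exact (hp ⟨v', h1, h⟩).elim
          · exact (h2 v' h1 h.1).elim
          · exact hur v' h1 h.1
      rw [E, E, E, E, E', E', E', E', C, e5, e7, e8]
      clear E E' C
      have n2 : L.c r % L.n = i - 1 → (L.cl r).2.1 = true → False := fun h h' =>
        hp ⟨r, hvr, h, h'⟩
      generalize L.cl r = k at hR hlr n2 ⊢
      cases hR with
      | none c => exact (n2 c rfl).elim
      | ZA hz => simp [eE, eS, eC]; exact Red.mid1 _
      | b2 hb l2 l3 => simp [eE, eS, eC]; exact Red.mid1 _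
      | b2c hb l4 l5 l6 l7 ly => simp [eE, eS, eC, l4, l5]; exact Red.mid1 _
    · have e7 : L.NL i = false := L.NL_no fun v' h1 h2 h3 => hr ⟨v', h1, h3.trans hmi, h2⟩
      have E' : ∀ s, L.oS false s (L.yu i) = [] := fun s =>
        L.oS_nil fun v' h1 y1 e => by
          rcases L.gS' hi hin h1 e with h | h
          · exact (h2 v' h1 h.1).elim
          · exact hr ⟨v', h1, h⟩
      have C : L.K.cts (L.yw i) (L.yu i - L.yw i).toNat = [] :=
        L.cts_none fun v' h1 s l y h h3 h4 => by
          rcases L.gC hi hin h1 h h3 h4 with h | h | h | h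
          · exact (no v' h1 h.1).elim
          · exact hp ⟨v', h1, h⟩
          · exact (h2 v' h1 h.1).elim
          · exact hr ⟨v', h1, h⟩
      rw [E, E, E, E, E', E', E', E', C, e5, e7]
      exact Red.refl _

end LC

end Pool.Agent.MP42D
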