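import Pool.Agent.MP42.D.CombT

/-!
# Piece D2: letters of given runs (owner helper18)
-/

set_option autoImplicit false
set_option linter.unusedSectionVars false

namespace Pool.Agent.MP42D

/-- the letter of a track of the run `v` that ends at `y` in the slot `s` -/
def eE (b : Bool) (s : Fin 4) (y : ℤ) (v : ℕ) : Pc → List (Bool × ℕ)
  | Pc.trk s' _ y2 => opt (decide (s' = s ∧ y2 = y)) (b, v)
  | _ => []

/-- the letter of a track of the run `v` that starts at `y` in the slot `s` -/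
def eS (b : Bool) (s : Fin 4) (y : ℤ) (v : ℕ) : Pc → List (Bool × ℕ)
  | Pc.trk s' y1 _ => opt (decide (s' = s ∧ y1 = y)) (b, v)
  | _ => []

/-- the single letter of the run `v` in the segments `w .. u - 1` -/
def eC (w u : ℤ) (v : ℕ) : Pc → List (Bool × ℕ)
  | Pc.ctc _ l y => opt (decide (w ≤ y ∧ y < u)) (l, v)
  | _ => []

namespace LC

variable (L : LC)

lemma eE_self {b : Bool} {v : ℕ} {s : Fin 4} {y1 y2 : ℤ} :
    eE b s y2 v (Pc.trk s y1 y2) = [(b, v)] := by simp [eE]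

lemma oE_one {b : Bool} {s : Fin 4} {y : ℤ} {v1 : ℕ} (hv : L.IsV v1)
    (h : ∀ v, L.IsV v → ∀ y1, (L.cl v).2.2 = Pc.trk s y1 y → v = v1) :
    L.oE b s y = eE b s y v1 (L.cl v1).2.2 := by
  by_cases hex : ∃ y1, (L.cl v1).2.2 = Pc.trk s y1 y
  · obtain ⟨y1, e⟩ := hex
    rw [L.oE_of hv e, e, eE_self]
  · rw [L.oE_nil]
    · generalize (L.cl v1).2.2 = p at hex
      cases p with
      | trk s' y1 y2 =>
        show [] = opt (decide (s' = s ∧ y2 = y)) (b, v1)
        rw [decide_eq_false]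
        · rfl
        · rintro ⟨rfl, rfl⟩
          exact hex ⟨_, rfl⟩
      | _ => rfl
    · intro v hv' y1 e
      have := h v hv' y1 e
      subst this
      exact hex ⟨y1, e⟩

lemma oE_two {b : Bool} {s : Fin 4} {y : ℤ} {v1 v2 : ℕ} (hv1 : L.IsV v1) (hv2 : L.IsV v2)
    (hne : v1 ≠ v2)
    (h : ∀ v, L.IsV v → ∀ y1, (L.cl v).2.2 = Pc.trk s y1 y → v = v1 ∨ v = v2) :
    L.oE b s y = eE b s y v1 (L.cl v1).2.2 ++ eE b s y v2 (L.cl v2).2.2 := by
  have hno : ∀ v, (¬ ∃ y1, (L.cl v).2.2 = Pc.trk s y1 y) → eE b s y v (L.cl v).2.2 = [] := by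
    intro v hex
    generalize (L.cl v).2.2 = p at hex
    cases p with
    | trk s' y1 y2 =>
      show opt (decide (s' = s ∧ y2 = y)) (b, v) = []
      rw [decide_eq_false]
      · rfl
      · rintro ⟨rfl, rfl⟩
        exact hex ⟨_, rfl⟩
    | _ => rfl
  by_cases hex : ∃ y1, (L.cl v1).2.2 = Pc.trk s y1 y
  · obtain ⟨y1, e⟩ := hex
    have h2 : ¬ ∃ y1, (L.cl v2).2.2 = Pc.trk s y1 y := by
      rintro ⟨y1', e'⟩
      have p1 := TK.pos L (L.tk hv1 e)
      have p2 := TK.pos L (L.tk hv2 e')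
      rcases TK.sep L (L.tk hv1 e) (L.tk hv2 e') with k | k | k
      · exact hne k
      · omega
      · omega
    rw [L.oE_of hv1 e, hno v2 h2, e, eE_self]
    rfl
  · rw [hno v1 hex, List.nil_append]
    exact L.oE_one hv2 fun v hv y1 e => by
      rcases h v hv y1 e with k | k
      · subst k
        exact (hex ⟨y1, e⟩).elim
      · exact k

lemma eS_self {b : Bool} {v : ℕ} {s : Fin 4} {y1 y2 : ℤ} :
    eS b s y1 v (Pc.trk s y1 y2) = [(b, v)] := by simp [eS]

lemma oS_one {b : Bool} {s : Fin 4} {y : ℤ} {v1 : ℕ} (hv : L.IsV v1)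
    (h : ∀ v, L.IsV v → ∀ y2, (L.cl v).2.2 = Pc.trk s y y2 → v = v1) :
    L.oS b s y = eS b s y v1 (L.cl v1).2.2 := by
  by_cases hex : ∃ y2, (L.cl v1).2.2 = Pc.trk s y y2
  · obtain ⟨y1, e⟩ := hex
    rw [L.oS_of hv e, e, eS_self]
  · rw [L.oS_nil]
    · generalize (L.cl v1).2.2 = p at hex
      cases p with
      | trk s' y1 y2 =>
        show [] = opt (decide (s' = s ∧ y1 = y)) (b, v1)
        rw [decide_eq_false]
        · rfl
        · rintro ⟨rfl, rfl⟩
          exact hex ⟨_, rfl⟩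
      | _ => rfl
    · intro v hv' y1 e
      have := h v hv' y1 e
      subst this
      exact hex ⟨y1, e⟩

lemma oS_two {b : Bool} {s : Fin 4} {y : ℤ} {v1 v2 : ℕ} (hv1 : L.IsV v1) (hv2 : L.IsV v2)
    (hne : v1 ≠ v2)
    (h : ∀ v, L.IsV v → ∀ y2, (L.cl v).2.2 = Pc.trk s y y2 → v = v1 ∨ v = v2) :
    L.oS b s y = eS b s y v1 (L.cl v1).2.2 ++ eS b s y v2 (L.cl v2).2.2 := by
  have hno : ∀ v, (¬ ∃ y2, (L.cl v).2.2 = Pc.trk s y y2) → eS b s y v (L.cl v).2.2 = [] := by
    intro v hex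
    generalize (L.cl v).2.2 = p at hex
    cases p with
    | trk s' y1 y2 =>
      show opt (decide (s' = s ∧ y1 = y)) (b, v) = []
      rw [decide_eq_false]
      · rfl
      · rintro ⟨rfl, rfl⟩
        exact hex ⟨_, rfl⟩
    | _ => rfl
  by_cases hex : ∃ y2, (L.cl v1).2.2 = Pc.trk s y y2
  · obtain ⟨y1, e⟩ := hex
    have h2 : ¬ ∃ y2, (L.cl v2).2.2 = Pc.trk s y y2 := by
      rintro ⟨y1', e'⟩
      have p1 := TK.pos L (L.tk hv1 e)
      have p2 := TK.pos L (L.tk hv2 e')
      rcases TK.sep L (L.tk hv1 e) (L.tk hv2 e') with k | k | k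
      · exact hne k
      · omega
      · omega
    rw [L.oS_of hv1 e, hno v2 h2, e, eS_self]
    rfl
  · rw [hno v1 hex, List.nil_append]
    exact L.oS_one hv2 fun v hv y1 e => by
      rcases h v hv y1 e with k | k
      · subst k
        exact (hex ⟨y1, e⟩).elim
      · exact k

/-! ## Contacts -/

/-- the single letters: only slots 1 and 2 -/
lemma ctc_slot {v : ℕ} (hv : L.IsV v) {s : Fin 4} {l : Bool} {y : ℤ}
    (h : (L.cl v).2.2 = Pc.ctc s l y) :
    (∃ v' c, L.Hb v' c ∧ v = v' % L.n ∧ ((s = 1 ∧ l = true) ∨ (s = 2 ∧ l = false))) ∨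
    (∃ c, L.Ht v c ∧ ((s = 1 ∧ l = false) ∨ (s = 2 ∧ l = true))) := by
  have h0 := L.ty hv
  generalize L.c v % L.n = c0 at h0
  generalize L.w v % L.n = w0 at h0
  generalize hk : L.cl v = k at h0 h
  cases h0 with
  | b1c h' =>
    injection h with e1 e2 e3
    exact Or.inl ⟨_, _, h', rfl, Or.inl ⟨e1.symm, e2.symm⟩⟩
  | b2c h' =>
    injection h with e1 e2 e3
    exact Or.inl ⟨_, _, h', rfl, Or.inr ⟨e1.symm, e2.symm⟩⟩
  | t1c h' =>
    injection h with e1 e2 e3
    exact Or.inr ⟨_, h', Or.inl ⟨e1.symm, e2.symm⟩⟩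
  | t2c h' =>
    injection h with e1 e2 e3
    exact Or.inr ⟨_, h', Or.inr ⟨e1.symm, e2.symm⟩⟩
  | _ => cases h

/-- two different runs with single letters are of different kinds -/
lemma ctc_pair {v v' : ℕ} (hv : L.IsV v) (hv' : L.IsV v') {s s' : Fin 4} {l l' : Bool} {y y' : ℤ}
    (h : (L.cl v).2.2 = Pc.ctc s l y) (h' : (L.cl v').2.2 = Pc.ctc s' l' y') (hne : v ≠ v') :
    ¬ (s = s' ∧ l = l') := by
  rintro ⟨rfl, rfl⟩
  rcases L.ctc_slot hv h with ⟨v1, c1, h1, e1, k1⟩ | ⟨c1, h1, k1⟩ <;>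
    rcases L.ctc_slot hv' h' with ⟨v2, c2, h2, e2, k2⟩ | ⟨c2, h2, k2⟩
  · apply hne
    rw [e1, e2, (h1.uniq h2).1]
  · rcases k1 with ⟨rfl, rfl⟩ | ⟨rfl, rfl⟩ <;> rcases k2 with ⟨k, k'⟩ | ⟨k, k'⟩ <;>
      first | exact absurd k (by decide) | exact absurd k' (by decide)
  · rcases k1 with ⟨rfl, rfl⟩ | ⟨rfl, rfl⟩ <;> rcases k2 with ⟨k, k'⟩ | ⟨k, k'⟩ <;>
      first | exact absurd k (by decide) | exact absurd k' (by decide)
  · exact hne (h1.uniq h2)

lemma cn_iffT (s : Fin 4) (y : ℤ) :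
    L.K.cn s y = true ↔ ∃ v, L.IsV v ∧ (L.cl v).2.2 = Pc.ctc s true y := by
  simp only [K, decide_eq_true_eq, isC]

lemma cs_iffT (s : Fin 4) (y : ℤ) :
    L.K.cs s y = true ↔ ∃ v, L.IsV v ∧ (L.cl v).2.2 = Pc.ctc s false y := by
  simp only [K, decide_eq_true_eq, isC]

lemma ct_nil {y : ℤ} (h : ∀ v, L.IsV v → ∀ s l, (L.cl v).2.2 ≠ Pc.ctc s l y) :
    L.K.ct y = [] := by
  have h1 : ∀ s, L.K.cn s y = false := by
    intro s
    rw [← Bool.not_eq_true, L.cn_iffT]
    rintro ⟨v, hv, e⟩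
    exact h v hv _ _ e
  have h2 : ∀ s, L.K.cs s y = false := by
    intro s
    rw [← Bool.not_eq_true, L.cs_iffT]
    rintro ⟨v, hv, e⟩
    exact h v hv _ _ e
  unfold KD.ct
  rw [h1, h1, h2, h2]
  rfl

lemma tC_of {v : ℕ} (hv : L.IsV v) {s : Fin 4} {l : Bool} {y : ℤ}
    (h : (L.cl v).2.2 = Pc.ctc s l y)
    (hu : ∀ v', L.IsV v' → ∀ l', (L.cl v').2.2 = Pc.ctc s l' y → v' = v) : L.K.tC s y = v := by
  apply L.pick_of hv
  · cases l
    · exact Or.inr h
    · exact Or.inl h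
  · rintro v' hv' (h' | h')
    · exact hu v' hv' _ h'
    · exact hu v' hv' _ h'

/-- one single letter in the segment -/
lemma ct_one {v : ℕ} (hv : L.IsV v) {s : Fin 4} {l : Bool} {y : ℤ}
    (h : (L.cl v).2.2 = Pc.ctc s l y)
    (hu : ∀ v', L.IsV v' → ∀ s' l', (L.cl v').2.2 = Pc.ctc s' l' y → v' = v) :
    L.K.ct y = [(l, v)] := by
  have hs : s = 1 ∨ s = 2 := by
    rcases L.ctc_slot hv h with ⟨_, _, _, _, k | k⟩ | ⟨_, _, k | k⟩
    · exact Or.inl k.1
    · exact Or.inr k.1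
    · exact Or.inl k.1
    · exact Or.inr k.1
  have hn : ∀ s', L.K.cn s' y = true ↔ (s' = s ∧ l = true) := by
    intro s'
    rw [L.cn_iffT]
    constructor
    · rintro ⟨v', hv', e⟩
      have := hu v' hv' _ _ e
      subst this
      rw [h] at e
      injection e with e1 e2 e3
      exact ⟨e1.symm, e2⟩
    · rintro ⟨rfl, rfl⟩
      exact ⟨v, hv, h⟩
  have hs' : ∀ s', L.K.cs s' y = true ↔ (s' = s ∧ l = false) := by
    intro s'
    rw [L.cs_iffT]
    constructor
    · rintro ⟨v', hv', e⟩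
      have := hu v' hv' _ _ e
      subst this
      rw [h] at e
      injection e with e1 e2 e3
      exact ⟨e1.symm, e2⟩
    · rintro ⟨rfl, rfl⟩
      exact ⟨v, hv, h⟩
  have ht := L.tC_of hv h (fun v' hv' l' e => hu v' hv' _ _ e)
  have b1 : ∀ s', L.K.cn s' y = decide (s' = s ∧ l = true) := by
    intro s'
    rw [Bool.eq_iff_iff, hn, decide_eq_true_eq]
  have b2 : ∀ s', L.K.cs s' y = decide (s' = s ∧ l = false) := by
    intro s'
    rw [Bool.eq_iff_iff, hs', decide_eq_true_eq]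
  unfold KD.ct
  rw [b1, b1, b2, b2]
  rcases hs with rfl | rfl <;> cases l <;> simp [ht]

/-- the order of two single letters in the same segment -/
def cOrd (s : Fin 4) (l : Bool) (s' : Fin 4) (l' : Bool) : Prop :=
  (s = 1 ∧ l = true ∧ s' = 2) ∨ (s = 2 ∧ s' = 1 ∧ l' = false)

lemma ct_two {v v' : ℕ} (hv : L.IsV v) (hv' : L.IsV v') (hne : v ≠ v') {s s' : Fin 4}
    {l l' : Bool} {y : ℤ} (h : (L.cl v).2.2 = Pc.ctc s l y) (h' : (L.cl v').2.2 = Pc.ctc s' l' y)
    (ho : cOrd s l s' l')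
    (hu : ∀ v'', L.IsV v'' → ∀ s l, (L.cl v'').2.2 = Pc.ctc s l y → v'' = v ∨ v'' = v') :
    L.K.ct y = [(l, v), (l', v')] := by
  have hss : s ≠ s' := by
    rcases ho with ⟨rfl, _, rfl⟩ | ⟨rfl, rfl, _⟩ <;> decide
  have hn : ∀ s'', L.K.cn s'' y = true ↔ ((s'' = s ∧ l = true) ∨ (s'' = s' ∧ l' = true)) := by
    intro s''
    rw [L.cn_iffT]
    constructor
    · rintro ⟨v'', hv'', e⟩
      rcases hu v'' hv'' _ _ e with k | k
      · subst k
        rw [h] at e
        injection e with e1 e2 e3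
        exact Or.inl ⟨e1.symm, e2⟩
      · subst k
        rw [h'] at e
        injection e with e1 e2 e3
        exact Or.inr ⟨e1.symm, e2⟩
    · rintro (⟨rfl, rfl⟩ | ⟨rfl, rfl⟩)
      · exact ⟨v, hv, h⟩
      · exact ⟨v', hv', h'⟩
  have hs' : ∀ s'', L.K.cs s'' y = true ↔ ((s'' = s ∧ l = false) ∨ (s'' = s' ∧ l' = false)) := by
    intro s''
    rw [L.cs_iffT]
    constructor
    · rintro ⟨v'', hv'', e⟩
      rcases hu v'' hv'' _ _ e with k | k
      · subst k
        rw [h] at e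
        injection e with e1 e2 e3
        exact Or.inl ⟨e1.symm, e2⟩
      · subst k
        rw [h'] at e
        injection e with e1 e2 e3
        exact Or.inr ⟨e1.symm, e2⟩
    · rintro (⟨rfl, rfl⟩ | ⟨rfl, rfl⟩)
      · exact ⟨v, hv, h⟩
      · exact ⟨v', hv', h'⟩
  have ht := L.tC_of hv h (fun v'' hv'' l'' e => by
    rcases hu v'' hv'' _ _ e with k | k
    · exact k
    · subst k
      rw [h'] at e
      injection e with e1 e2 e3
      exact absurd e1.symm hss)
  have ht' := L.tC_of hv' h' (fun v'' hv'' l'' e => by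
    rcases hu v'' hv'' _ _ e with k | k
    · subst k
      rw [h] at e
      injection e with e1 e2 e3
      exact absurd e1 hss
    · exact k)
  have b1 : ∀ s'', L.K.cn s'' y = decide ((s'' = s ∧ l = true) ∨ (s'' = s' ∧ l' = true)) := by
    intro s''
    rw [Bool.eq_iff_iff, hn, decide_eq_true_eq]
  have b2 : ∀ s'', L.K.cs s'' y = decide ((s'' = s ∧ l = false) ∨ (s'' = s' ∧ l' = false)) := by
    intro s''
    rw [Bool.eq_iff_iff, hs', decide_eq_true_eq]
  unfold KD.ct
  rw [b1, b1, b2, b2]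
  rcases ho with ⟨rfl, rfl, rfl⟩ | ⟨rfl, rfl, rfl⟩
  · cases l' <;> simp [ht, ht']
  · cases l <;> simp [ht, ht']

/-- the single letters in an interval: none -/
lemma cts_none {w u : ℤ}
    (h : ∀ v, L.IsV v → ∀ s l y, (L.cl v).2.2 = Pc.ctc s l y → w ≤ y → y < u → False) :
    L.K.cts w (u - w).toNat = [] :=
  L.K.cts_nil' fun y h1 h2 => L.ct_nil fun v hv s l e => h v hv s l y e h1 h2

/-- the single letters in an interval: one run -/
lemma cts_set1 {w u : ℤ} {v1 : ℕ} (hv : L.IsV v1)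
    (h : ∀ v, L.IsV v → ∀ s l y, (L.cl v).2.2 = Pc.ctc s l y → w ≤ y → y < u → v = v1) :
    L.K.cts w (u - w).toNat = eC w u v1 (L.cl v1).2.2 := by
  by_cases hex : ∃ s l y, (L.cl v1).2.2 = Pc.ctc s l y ∧ w ≤ y ∧ y < u
  · obtain ⟨s, l, y, e, h1, h2⟩ := hex
    rw [L.K.cts_one' h1 h2, L.ct_one hv e, e]
    · simp [eC, h1, h2]
    · intro v' hv' s' l' e'
      exact h v' hv' _ _ _ e' h1 h2
    · intro z hz1 hz2 hz3
      apply L.ct_nil
      intro v' hv' s' l' e'
      have := h v' hv' _ _ _ e' hz1 hz2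
      subst this
      rw [e] at e'
      injection e' with e1 e2 e3
      exact hz3 e3.symm
  · rw [L.cts_none]
    · generalize (L.cl v1).2.2 = p at hex
      cases p with
      | ctc s l y =>
        show [] = opt (decide (w ≤ y ∧ y < u)) (l, v1)
        rw [decide_eq_false]
        · rfl
        · rintro ⟨h1, h2⟩
          exact hex ⟨_, _, _, rfl, h1, h2⟩
      | _ => rfl
    · intro v hv' s l y e h1 h2
      have := h v hv' _ _ _ e h1 h2
      subst this
      exact hex ⟨_, _, _, e, h1, h2⟩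

/-- the single letters in an interval: two runs, in this order -/
lemma cts_set2 {w u : ℤ} {v1 v2 : ℕ} (hv1 : L.IsV v1) (hv2 : L.IsV v2) (hne : v1 ≠ v2)
    (ho : ∀ s l y s' l' y', (L.cl v1).2.2 = Pc.ctc s l y → (L.cl v2).2.2 = Pc.ctc s' l' y' →
      w ≤ y → y < u → w ≤ y' → y' < u → y < y' ∨ (y = y' ∧ cOrd s l s' l'))
    (h : ∀ v, L.IsV v → ∀ s l y, (L.cl v).2.2 = Pc.ctc s l y → w ≤ y → y < u →
      v = v1 ∨ v = v2) :
    L.K.cts w (u - w).toNat = eC w u v1 (L.cl v1).2.2 ++ eC w u v2 (L.cl v2).2.2 := by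
  have hno : ∀ v, (¬ ∃ s l y, (L.cl v).2.2 = Pc.ctc s l y ∧ w ≤ y ∧ y < u) →
      eC w u v (L.cl v).2.2 = [] := by
    intro v hex
    generalize (L.cl v).2.2 = p at hex
    cases p with
    | ctc s l y =>
      show opt (decide (w ≤ y ∧ y < u)) (l, v) = []
      rw [decide_eq_false]
      · rfl
      · rintro ⟨h1, h2⟩
        exact hex ⟨_, _, _, rfl, h1, h2⟩
    | _ => rfl
  by_cases hex : ∃ s l y, (L.cl v1).2.2 = Pc.ctc s l y ∧ w ≤ y ∧ y < u
  · by_cases hex' : ∃ s l y, (L.cl v2).2.2 = Pc.ctc s l y ∧ w ≤ y ∧ y < u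
    · obtain ⟨s, l, y, e, h1, h2⟩ := hex
      obtain ⟨s', l', y', e', h1', h2'⟩ := hex'
      have r : eC w u v1 (L.cl v1).2.2 ++ eC w u v2 (L.cl v2).2.2 = [(l, v1), (l', v2)] := by
        rw [e, e']
        simp [eC, h1, h2, h1', h2']
      rw [r]
      rcases ho _ _ _ _ _ _ e e' h1 h2 h1' h2' with ho | ⟨rfl, ho⟩
      · rw [L.K.cts_two' h1 ho h2', L.ct_one hv1 e, L.ct_one hv2 e']
        · rfl
        · intro v hv s0 l0 e0
          rcases h v hv _ _ _ e0 h1' h2' with k | k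
          · subst k
            rw [e] at e0
            injection e0 with e1 e2 e3
            omega
          · exact k
        · intro v hv s0 l0 e0
          rcases h v hv _ _ _ e0 h1 h2 with k | k
          · exact k
          · subst k
            rw [e'] at e0
            injection e0 with e1 e2 e3
            omega
        · intro z hz1 hz2 hz3 hz4
          apply L.ct_nil
          intro v hv s0 l0 e0
          rcases h v hv _ _ _ e0 hz1 hz2 with k | k
          · subst k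
            rw [e] at e0
            injection e0 with e1 e2 e3
            omega
          · subst k
            rw [e'] at e0
            injection e0 with e1 e2 e3
            omega
      · rw [L.K.cts_one' h1 h2, L.ct_two hv1 hv2 hne e e' ho]
        · intro v hv s0 l0 e0
          exact h v hv _ _ _ e0 h1 h2
        · intro z hz1 hz2 hz3
          apply L.ct_nil
          intro v hv s0 l0 e0
          rcases h v hv _ _ _ e0 hz1 hz2 with k | k
          · subst k
            rw [e] at e0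
            injection e0 with e1 e2 e3
            omega
          · subst k
            rw [e'] at e0
            injection e0 with e1 e2 e3
            omega
    · rw [hno v2 hex', List.append_nil]
      exact L.cts_set1 hv1 fun v hv s l y e h1 h2 => by
        rcases h v hv _ _ _ e h1 h2 with k | k
        · exact k
        · subst k
          exact (hex' ⟨_, _, _, e, h1, h2⟩).elim
  · rw [hno v1 hex, List.nil_append]
    exact L.cts_set1 hv2 fun v hv s l y e h1 h2 => by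
      rcases h v hv _ _ _ e h1 h2 with k | k
      · subst k
        exact (hex ⟨_, _, _, e, h1, h2⟩).elim
      · exact k

end LC

end Pool.Agent.MP42D
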