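import Pool.Agent.MP42.D.Comb

/-!
# Piece D: runs and positions
-/

set_option autoImplicit false
set_option linter.unusedSectionVars false

namespace Pool.Agent.MP42D

namespace LC

variable (L : LC)

/-! ### periodicity -/

lemma h_per {α : Type*} (f : ℕ → α) (hf : ∀ i, f (i + L.n) = f i) (i : ℕ) : f (i % L.n) = f i := by
  have key : ∀ q r, f (r + q * L.n) = f r := by
    intro q
    induction q with
    | zero => intro r; simp
    | succ q ih => intro r; rw [Nat.succ_mul, ← add_assoc, hf]; exact ih r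
  conv_rhs => rw [← Nat.mod_add_div i L.n, mul_comm]
  exact (key _ _).symm

lemma h_eq {α : Type*} {f : ℕ → α} (hf : ∀ i, f (i + L.n) = f i) {i j : ℕ}
    (h : i % L.n = j % L.n) : f i = f j := by
  rw [← L.h_per f hf i, h, L.h_per f hf j]

lemma h_u {i j : ℕ} (h : i % L.n = j % L.n) : L.yu i = L.yu j := L.h_eq L.yu_per h
lemma h_w {i j : ℕ} (h : i % L.n = j % L.n) : L.yw i = L.yw j := L.h_eq L.yw_per h
lemma h_S {i j : ℕ} (h : i % L.n = j % L.n) : L.S i = L.S j := L.h_eq L.S_per h

lemma h_n0 : 0 < L.n := by have := L.hn; omega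

lemma h_md {i : ℕ} (h : i < L.n) : i % L.n = i := Nat.mod_eq_of_lt h

lemma h_md' {i : ℕ} (h : L.n ≤ i) (h' : i < 2 * L.n) : i % L.n = i - L.n := by
  rw [Nat.mod_eq_sub_mod h, Nat.mod_eq_of_lt (by omega)]

lemma h_nn : L.n % L.n = 0 := Nat.mod_self _

/-- indices with the same residue in a window of length `n` are equal -/
lemma h_win {i j : ℕ} (h : i % L.n = j % L.n) (h1 : i < j + L.n) (h2 : j < i + L.n) : i = j := by
  have hn := L.h_n0
  rcases lt_trichotomy i j with hlt | rfl | hlt
  · exfalso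
    have h4 : L.n ∣ j - i := (Nat.modEq_iff_dvd' hlt.le).mp (h : i ≡ j [MOD L.n])
    have h5 := Nat.le_of_dvd (by omega) h4
    omega
  · rfl
  · exfalso
    have h4 : L.n ∣ i - j := (Nat.modEq_iff_dvd' hlt.le).mp (h.symm : j ≡ i [MOD L.n])
    have h5 := Nat.le_of_dvd (by omega) h4
    omega

/-! ### runs -/

variable {L}

lemma c_SH (v : ℕ) : L.S (L.c v) = false := Nat.find_spec (L.ex_end v)

lemma c_run {v x : ℕ} (h1 : v ≤ x) (h2 : x < L.c v) : L.S x = true := by
  have h3 : x - v < Nat.find (L.ex_end v) := by unfold c at h2; omega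
  have h4 := Nat.find_min (L.ex_end v) h3
  rw [show v + (x - v) = x by omega] at h4
  simpa using h4

lemma c_gtH {v : ℕ} (h : L.S v = true) : v < L.c v := by
  have h1 : v ≤ L.c v := by unfold c; omega
  rcases h1.lt_or_eq with h2 | h2
  · exact h2
  · have h3 := c_SH (L := L) v
    rw [← h2, h] at h3
    exact absurd h3 (by simp)

lemma IsV.lt {v : ℕ} (h : L.IsV v) : v < L.n := h.1
lemma IsV.S {v : ℕ} (h : L.IsV v) : L.S v = true := h.2.1
lemma IsV.Sw {v : ℕ} (h : L.IsV v) : L.S (L.w v) = false := h.2.2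
lemma IsV.c_gt {v : ℕ} (h : L.IsV v) : v < L.c v := LC.c_gtH h.S

/-- the first corner that is not in `S` comes before `w` -/
lemma IsV.c_le {v : ℕ} (h : L.IsV v) : L.c v + 2 ≤ v + L.n := by
  have hn := L.hn
  by_contra hlt
  -- all corners of the window `v .. v + n - 2` are in `S`
  have key : ∀ x, v ≤ x → x + 1 < v + L.n → L.S x = true := fun x h1 h2 =>
    c_run h1 (by omega)
  obtain ⟨i, j, hij, hj, hi, hj'⟩ := L.S_two
  have hv := h.lt
  have h1 : ∀ x < L.n, L.S x = false → x = (v + L.n - 1) % L.n := by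
    intro x hx hS
    rcases Nat.lt_or_ge x v with h2 | h2
    · -- use `x + n`
      by_cases h3 : x + L.n + 1 < v + L.n
      · have := key (x + L.n) (by omega) h3
        rw [L.S_per, hS] at this
        exact absurd this (by simp)
      · rw [L.h_md' (by omega) (by omega)]
        omega
    · by_cases h3 : x + 1 < v + L.n
      · have := key x h2 h3
        rw [hS] at this
        exact absurd this (by simp)
      · have h4 : v = 0 := by omega
        subst h4
        rw [L.h_md (by omega)]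
        omega
  have := h1 i (by omega) hi
  have := h1 j hj hj'
  omega

/-- two corners of runs with the same residue: the same run -/
lemma run_uniq {v v' x x' : ℕ} (hv : L.IsV v) (hv' : L.IsV v') (h1 : v ≤ x) (h2 : x ≤ L.c v)
    (h1' : v' ≤ x') (h2' : x' ≤ L.c v') (h : x % L.n = x' % L.n) : v = v' := by
  have hn := L.h_n0
  -- the case of corners in `S`
  have key : ∀ v v' x x', L.IsV v → L.IsV v' → v ≤ x → x < L.c v → v' ≤ x' → x' < L.c v' →
      x % L.n = x' % L.n → x - v < x' - v' → False := by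
    intro v v' x x' hv hv' h1 h2 h1' h2' h hd
    have h3 : L.S (x' - (x - v) - 1) = true := c_run (v := v') (by omega) (by omega)
    have h4 : (x' - (x - v) - 1) % L.n = (v + L.n - 1) % L.n := by
      have e1 : x' - (x - v) - 1 + (x - v + 1) = x' := by omega
      have e2 : v + L.n - 1 + (x - v + 1) = x + L.n := by omega
      have h5 : (x' - (x - v) - 1 + (x - v + 1)) ≡ (v + L.n - 1 + (x - v + 1)) [MOD L.n] := by
        rw [e1, e2]
        change x' % L.n = (x + L.n) % L.n
        rw [Nat.add_mod_right, h]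
      exact Nat.ModEq.add_right_cancel' _ h5
    rw [L.h_S h4] at h3
    exact absurd (h3.symm.trans hv.2.2) (by simp)
  have key2 : ∀ v v' x x', L.IsV v → L.IsV v' → v ≤ x → x < L.c v → v' ≤ x' → x' < L.c v' →
      x % L.n = x' % L.n → v = v' := by
    intro v v' x x' hv hv' h1 h2 h1' h2' h
    rcases lt_trichotomy (x - v) (x' - v') with h3 | h3 | h3
    · exact (key v v' x x' hv hv' h1 h2 h1' h2' h h3).elim
    · have h5 : (v + (x - v)) ≡ (v' + (x - v)) [MOD L.n] := by
        rw [show v + (x - v) = x by omega, show v' + (x - v) = x' by omega]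
        exact h
      have h6 := Nat.ModEq.add_right_cancel' _ h5
      have h7 : v % L.n = v' % L.n := h6
      rwa [L.h_md hv.lt, L.h_md hv'.lt] at h7
    · exact (key v' v x' x hv' hv h1' h2' h1 h2 h.symm h3).elim
  rcases h2.lt_or_eq with h3 | h3
  · rcases h2'.lt_or_eq with h3' | h3'
    · exact key2 v v' x x' hv hv' h1 h3 h1' h3' h
    · have h4 := c_run h1 h3
      rw [L.h_S h, h3', c_SH] at h4
      exact absurd h4 (by simp)
  · rcases h2'.lt_or_eq with h3' | h3'
    · have h4 := c_run h1' h3'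
      rw [← L.h_S h, h3, c_SH] at h4
      exact absurd h4 (by simp)
    · have hc := hv.c_gt
      have hc' := hv'.c_gt
      refine key2 v v' (x - 1) (x' - 1) hv hv' (by omega) (by omega) (by omega) (by omega) ?_
      have h5 : (x - 1 + 1) ≡ (x' - 1 + 1) [MOD L.n] := by
        rw [show x - 1 + 1 = x by omega, show x' - 1 + 1 = x' by omega]
        exact h
      exact Nat.ModEq.add_right_cancel' _ h5

lemma c_uniq {v v' : ℕ} (hv : L.IsV v) (hv' : L.IsV v') (h : L.c v % L.n = L.c v' % L.n) :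
    v = v' :=
  run_uniq hv hv' hv.c_gt.le le_rfl hv'.c_gt.le le_rfl h

lemma a_uniq {v v' : ℕ} (hv : L.IsV v) (hv' : L.IsV v') (h : L.a v % L.n = L.a v' % L.n) :
    v = v' :=
  c_uniq hv hv' (Nat.ModEq.add_right_cancel' 1 (h : L.c v + 1 ≡ L.c v' + 1 [MOD L.n]))

lemma w_uniq {v v' : ℕ} (hv : L.IsV v) (hv' : L.IsV v') (h : L.w v % L.n = L.w v' % L.n) :
    v = v' := by
  have hn := L.h_n0
  have h1 : (L.w v + 1) ≡ (L.w v' + 1) [MOD L.n] := Nat.ModEq.add_right 1 h
  have h2 : (v + L.n) % L.n = (v' + L.n) % L.n := by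
    unfold w at h1
    rwa [show v + L.n - 1 + 1 = v + L.n by omega, show v' + L.n - 1 + 1 = v' + L.n by omega] at h1
  rwa [Nat.add_mod_right, Nat.add_mod_right, L.h_md hv.lt, L.h_md hv'.lt] at h2

lemma hb_uniq {v v' : ℕ} (hv : L.IsV v) (hv' : L.IsV v') (h : L.hb v) (h' : L.hb v') :
    v = v' := by
  obtain ⟨x, h1, h2, h3⟩ := h
  obtain ⟨x', h1', h2', h3'⟩ := h'
  exact run_uniq hv hv' h1 h2 h1' h2' (h3.trans h3'.symm)

lemma ht_uniq {v v' : ℕ} (hv : L.IsV v) (hv' : L.IsV v') (h : L.ht v) (h' : L.ht v') :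
    v = v' := by
  obtain ⟨x, h1, h2, h3⟩ := h
  obtain ⟨x', h1', h2', h3'⟩ := h'
  exact run_uniq hv hv' h1 h2 h1' h2' (h3.trans h3'.symm)

/-- `v`, `c`, `a`, `w` have different residues, except that `a = w` is possible -/
lemma vc_ne {v : ℕ} (hv : L.IsV v) : v % L.n ≠ L.c v % L.n := by
  intro h
  have := L.h_S h
  rw [hv.S, c_SH] at this
  exact absurd this (by simp)

lemma vw_ne {v : ℕ} (hv : L.IsV v) : v % L.n ≠ L.w v % L.n := by
  intro h
  have := L.h_S h
  rw [hv.S, hv.Sw] at this
  exact absurd this (by simp)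

lemma va_ne {v : ℕ} (hv : L.IsV v) : v % L.n ≠ L.a v % L.n := by
  intro h
  have h1 := hv.c_gt
  have h2 := hv.c_le
  have := L.h_win h (by unfold a; omega) (by unfold a; omega)
  unfold a at this
  omega

lemma ca_ne {v : ℕ} (hv : L.IsV v) : L.c v % L.n ≠ L.a v % L.n := by
  intro h
  have hn := L.hn
  have := L.h_win h (by unfold a; omega) (by unfold a; omega)
  unfold a at this
  omega

lemma cw_ne {v : ℕ} (hv : L.IsV v) : L.c v % L.n ≠ L.w v % L.n := by
  intro h
  have h1 := hv.c_gt
  have h2 := hv.c_le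
  have := L.h_win h (by unfold w; omega) (by unfold w; omega)
  unfold w at this
  omega

lemma aw_eq {v : ℕ} (hv : L.IsV v) (h : L.a v % L.n = L.w v % L.n) : L.a v = L.w v := by
  have h1 := hv.c_gt
  have h2 := hv.c_le
  exact L.h_win h (by unfold a w; omega) (by unfold a w; omega)

/-! ### the roles -/

/-- the roles of the corners in a run -/
inductive Rl
  | v | c | w | a
  deriving DecidableEq

def Rl.ix (L : LC) (v : ℕ) : Rl → ℕ
  | .v => v
  | .c => L.c v
  | .w => L.w v
  | .a => L.a v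

/-- the letter of the piece of the closing at the corner with the role -/
def Rl.x : Rl → Bool
  | .v => true
  | .c => false
  | .w => false
  | .a => true

lemma role_uniq {ρ : Rl} {v v' : ℕ} (hv : L.IsV v) (hv' : L.IsV v')
    (h : ρ.ix L v % L.n = ρ.ix L v' % L.n) : v = v' := by
  cases ρ with
  | v =>
    have h' : v % L.n = v' % L.n := h
    rwa [L.h_md hv.lt, L.h_md hv'.lt] at h'
  | c => exact c_uniq hv hv' h
  | w => exact w_uniq hv hv' h
  | a => exact a_uniq hv hv' h

/-! ### D5 -/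

theorem NL_SH {i : ℕ} (h : L.NL i = true) : L.S i = false ∧ L.S (i + 1) = true := by
  classical
  unfold NL at h
  obtain ⟨v, hv, -, hw⟩ := of_decide_eq_true h
  have hn := L.h_n0
  refine ⟨(L.h_S hw).symm.trans hv.Sw, ?_⟩
  have h1 : (L.w v + 1) % L.n = (i + 1) % L.n := Nat.ModEq.add_right 1 hw
  rw [← L.h_S h1]
  have h2 : (L.w v + 1) % L.n = v % L.n := by
    unfold w
    rw [show v + L.n - 1 + 1 = v + L.n by omega, Nat.add_mod_right]
  rw [L.h_S h2]
  exact hv.S

theorem SL_SH {i : ℕ} (h : L.SL i = true) : L.S i = false ∧ L.S (i + L.n - 1) = true := by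
  classical
  unfold SL at h
  obtain ⟨v, hv, -, hc⟩ := of_decide_eq_true h
  have hn := L.h_n0
  have hgt := hv.c_gt
  refine ⟨(L.h_S hc).symm.trans (c_SH v), ?_⟩
  have h1 : (i + L.n - 1) % L.n = (L.c v - 1) % L.n := by
    have h2 : (i + L.n - 1 + 1) ≡ (L.c v - 1 + 1) [MOD L.n] := by
      rw [show i + L.n - 1 + 1 = i + L.n by omega, show L.c v - 1 + 1 = L.c v by omega]
      change (i + L.n) % L.n = L.c v % L.n
      rw [Nat.add_mod_right, hc]
    exact Nat.ModEq.add_right_cancel' _ h2
  rw [L.h_S h1]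
  exact c_run (v := v) (by omega) (by omega)

end LC

end Pool.Agent.MP42D
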