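import Pool.Agent.MP42.D.CombH1

/-!
# Piece D: geometry of the two sides
-/

set_option autoImplicit false
set_option linter.unusedSectionVars false

namespace Pool.Agent.MP42D

namespace LC

variable {L : LC}

/-! ### chains -/

lemma chB {i : ℕ} : ∀ {j : ℕ}, i < j → j ≤ L.m →
    L.yw i ≤ L.yu j ∧ (i + 1 < j → L.yw i < L.yu j) := by
  intro j
  induction j with
  | zero => intro h; omega
  | succ j ih =>
    intro h hj
    rcases (Nat.lt_succ_iff.mp h).lt_or_eq with h1 | h1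
    · obtain ⟨h2, -⟩ := ih h1 (by omega)
      have h3 := L.upc j (by omega) (by omega)
      have h4 := L.up j (by omega)
      exact ⟨by omega, fun _ => by omega⟩
    · subst h1
      exact ⟨L.up _ (by omega), fun h5 => by omega⟩

lemma chA {i : ℕ} (hm : L.m ≤ i) : ∀ {j : ℕ}, i < j → j ≤ L.n →
    L.yu j ≤ L.yw i ∧ (i + 1 < j → L.yu j < L.yw i) := by
  intro j
  induction j with
  | zero => intro h; omega
  | succ j ih =>
    intro h hj
    rcases (Nat.lt_succ_iff.mp h).lt_or_eq with h1 | h1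
    · obtain ⟨h2, -⟩ := ih h1 (by omega)
      have h3 := L.dnc j (by omega) (by omega)
      have h4 := L.dn j (by omega) (by omega)
      exact ⟨by omega, fun _ => by omega⟩
    · subst h1
      exact ⟨L.dn _ (by omega) (by omega), fun h5 => by omega⟩

lemma eqB {i j : ℕ} (h : i < j) (hj : j ≤ L.m) (he : L.yw i = L.yu j) :
    L.yw i = L.lo ∨ L.yw i = L.hi := by
  obtain ⟨-, h2⟩ := chB h hj
  have h3 : j = i + 1 := by
    by_contra hne
    have := h2 (by omega)
    omega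
  subst h3
  exact L.zero i he

lemma eqA {i j : ℕ} (hm : L.m ≤ i) (h : i < j) (hj : j ≤ L.n) (he : L.yw i = L.yu j) :
    L.yw i = L.lo ∨ L.yw i = L.hi := by
  obtain ⟨-, h2⟩ := chA hm h hj
  have h3 : j = i + 1 := by
    by_contra hne
    have := h2 (by omega)
    omega
  subst h3
  exact L.zero i he

lemma wB_mono {i j : ℕ} (h : i ≤ j) (hj : j < L.m) : L.yw i ≤ L.yw j := by
  rcases h.lt_or_eq with h1 | rfl
  · have h2 := (chB h1 hj.le).1
    have h3 := L.upc j (by omega) hj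
    omega
  · exact le_rfl

lemma uB_mono {i j : ℕ} (h0 : 0 < i) (h : i ≤ j) (hj : j ≤ L.m) : L.yu i ≤ L.yu j := by
  rcases h.lt_or_eq with h1 | rfl
  · have h2 := (chB h1 hj).1
    have h3 := L.upc i h0 (by omega)
    omega
  · exact le_rfl

lemma wA_mono {i j : ℕ} (hm : L.m ≤ i) (h : i ≤ j) (hj : j < L.n) : L.yw j ≤ L.yw i := by
  rcases h.lt_or_eq with h1 | rfl
  · have h2 := (chA hm h1 hj.le).1
    have h3 := L.dnc j (by omega) hj
    omega
  · exact le_rfl

lemma uA_mono {i j : ℕ} (hm : L.m < i) (h : i ≤ j) (hj : j ≤ L.n) : L.yu j ≤ L.yu i := by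
  rcases h.lt_or_eq with h1 | rfl
  · have h2 := (chA hm.le h1 hj).1
    have h3 := L.dnc i hm (by omega)
    omega
  · exact le_rfl

/-! ### positions on the sides -/

lemma hatAH {i : ℕ} (h : L.yw i < L.yu i) : ∃ x, L.m ≤ x ∧ x ≤ L.n ∧ x % L.n = i % L.n := by
  have hn := L.h_n0
  have h1 : i % L.n < L.n := Nat.mod_lt _ hn
  have h2 : L.yw (i % L.n) = L.yw i := L.h_w (Nat.mod_mod _ _)
  have h3 : L.yu (i % L.n) = L.yu i := L.h_u (Nat.mod_mod _ _)
  by_cases h4 : L.m ≤ i % L.n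
  · exact ⟨i % L.n, h4, h1.le, Nat.mod_mod _ _⟩
  · rcases Nat.eq_zero_or_pos (i % L.n) with h5 | h5
    · exact ⟨L.n, L.hm, le_rfl, by rw [Nat.mod_self, h5]⟩
    · have := L.upc _ h5 (by omega)
      omega

lemma hatBH {i : ℕ} (h : L.yu i < L.yw i) : ∃ x, x ≤ L.m ∧ x % L.n = i % L.n := by
  have hn := L.h_n0
  have h1 : i % L.n < L.n := Nat.mod_lt _ hn
  have h2 : L.yw (i % L.n) = L.yw i := L.h_w (Nat.mod_mod _ _)
  have h3 : L.yu (i % L.n) = L.yu i := L.h_u (Nat.mod_mod _ _)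
  by_cases h4 : i % L.n ≤ L.m
  · exact ⟨i % L.n, h4, Nat.mod_mod _ _⟩
  · have := L.dnc _ (by omega : L.m < i % L.n) h1
    omega

/-! ### walls are disjoint -/

lemma wallA {i j : ℕ} {y : ℤ} (h1 : L.yw i ≤ y) (h2 : y < L.yu i) (h3 : L.yw j ≤ y)
    (h4 : y < L.yu j) : i % L.n = j % L.n := by
  obtain ⟨x, hx1, hx2, hx3⟩ := hatAH (L := L) (i := i) (by omega)
  obtain ⟨z, hz1, hz2, hz3⟩ := hatAH (L := L) (i := j) (by omega)
  rw [← L.h_w hx3] at h1
  rw [← L.h_u hx3] at h2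
  rw [← L.h_w hz3] at h3
  rw [← L.h_u hz3] at h4
  rw [← hx3, ← hz3]
  rcases lt_trichotomy x z with h | h | h
  · have := (chA hx1 h hz2).1
    omega
  · rw [h]
  · have := (chA hz1 h hx2).1
    omega

lemma wallB {i j : ℕ} {y : ℤ} (h1 : L.yu i ≤ y) (h2 : y < L.yw i) (h3 : L.yu j ≤ y)
    (h4 : y < L.yw j) : i % L.n = j % L.n := by
  obtain ⟨x, hx1, hx3⟩ := hatBH (L := L) (i := i) (by omega)
  obtain ⟨z, hz1, hz3⟩ := hatBH (L := L) (i := j) (by omega)
  rw [← L.h_u hx3] at h1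
  rw [← L.h_w hx3] at h2
  rw [← L.h_u hz3] at h3
  rw [← L.h_w hz3] at h4
  rw [← hx3, ← hz3]
  rcases lt_trichotomy x z with h | h | h
  · have := (chB h hz1).1
    omega
  · rw [h]
  · have := (chB h hx1).1
    omega

/-- the corner `i` has a wall on the side `σ` -/
def NF (L : LC) (i : ℕ) (σ : Bool) : Prop := L.de i σ < L.ue i σ

lemma wall_u {σ : Bool} {i j : ℕ} {y : ℤ} (h1 : L.de i σ ≤ y) (h2 : y < L.ue i σ)
    (h3 : L.de j σ ≤ y) (h4 : y < L.ue j σ) : i % L.n = j % L.n := by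
  cases σ
  · exact wallB h1 h2 h3 h4
  · exact wallA h1 h2 h3 h4

lemma end_ud_same {σ : Bool} {i j : ℕ} (hi : NF L i σ) (hj : NF L j σ) (h : L.ue i σ = L.de j σ)
    (hlo : L.lo < L.ue i σ) (hhi : L.ue i σ < L.hi) : False := by
  cases σ
  · change L.yu i < L.yw i at hi
    change L.yu j < L.yw j at hj
    change L.yw i = L.yu j at h
    change L.lo < L.yw i at hlo
    change L.yw i < L.hi at hhi
    obtain ⟨x, hx1, hx3⟩ := hatBH hi
    obtain ⟨z, hz1, hz3⟩ := hatBH hj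
    rw [← L.h_u hx3, ← L.h_w hx3] at hi
    rw [← L.h_u hz3, ← L.h_w hz3] at hj
    rw [← L.h_w hx3] at hlo hhi
    rw [← L.h_w hx3, ← L.h_u hz3] at h
    rcases lt_trichotomy x z with h5 | h5 | h5
    · have := eqB h5 hz1 h
      omega
    · subst h5
      omega
    · have := (chB h5 hx1).1
      omega
  · change L.yw i < L.yu i at hi
    change L.yw j < L.yu j at hj
    change L.yu i = L.yw j at h
    change L.lo < L.yu i at hlo
    change L.yu i < L.hi at hhi
    obtain ⟨x, hx1, hx2, hx3⟩ := hatAH hi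
    obtain ⟨z, hz1, hz2, hz3⟩ := hatAH hj
    rw [← L.h_u hx3, ← L.h_w hx3] at hi
    rw [← L.h_u hz3, ← L.h_w hz3] at hj
    rw [← L.h_u hx3] at hlo hhi
    rw [← L.h_u hx3, ← L.h_w hz3] at h
    rcases lt_trichotomy z x with h5 | h5 | h5
    · have := eqA hz1 h5 hx2 h.symm
      omega
    · subst h5
      omega
    · have := (chA hx1 h5 hz2).1
      omega

/-- ends of walls on different sides are different in the interior -/
lemma end_side {σ τ : Bool} {i j : ℕ} {y : ℤ} (hi : NF L i σ) (hj : NF L j τ)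
    (h1 : L.ue i σ = y ∨ L.de i σ = y) (h2 : L.ue j τ = y ∨ L.de j τ = y)
    (hlo : L.lo < y) (hhi : y < L.hi) : σ = τ := by
  cases σ <;> cases τ
  · rfl
  · exact (L.ev y hlo hhi ⟨j, hj, h2.symm⟩ ⟨i, hi, h1.symm⟩).elim
  · exact (L.ev y hlo hhi ⟨i, hi, h1.symm⟩ ⟨j, hj, h2.symm⟩).elim
  · rfl

lemma end_ud {σ τ : Bool} {i j : ℕ} (hi : NF L i σ) (hj : NF L j τ) (h : L.ue i σ = L.de j τ)
    (hlo : L.lo < L.ue i σ) (hhi : L.ue i σ < L.hi) : False := by
  have := end_side hi hj (Or.inl rfl) (Or.inr h.symm) hlo hhi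
  subst this
  exact end_ud_same hi hj h hlo hhi

lemma end_dd {σ τ : Bool} {i j : ℕ} (hi : NF L i σ) (hj : NF L j τ) (h : L.de i σ = L.de j τ)
    (hlo : L.lo < L.de i σ) (hhi : L.de i σ < L.hi) : σ = τ ∧ i % L.n = j % L.n := by
  have := end_side hi hj (Or.inr rfl) (Or.inr h.symm) hlo hhi
  subst this
  unfold NF at hi hj
  exact ⟨rfl, wall_u (σ := σ) (i := i) (j := j) (y := L.de i σ) le_rfl hi h.symm.le (by omega)⟩

lemma end_uu {σ τ : Bool} {i j : ℕ} (hi : NF L i σ) (hj : NF L j τ) (h : L.ue i σ = L.ue j τ)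
    (hlo : L.lo < L.ue i σ) (hhi : L.ue i σ < L.hi) : σ = τ ∧ i % L.n = j % L.n := by
  have := end_side hi hj (Or.inl rfl) (Or.inl h.symm) hlo hhi
  subst this
  unfold NF at hi hj
  exact ⟨rfl, wall_u (σ := σ) (i := i) (j := j) (y := L.ue i σ - 1) (by omega) (by omega) (by omega)
    (by omega)⟩

/-! ### strips -/

lemma stripA_wall {i j : ℕ} {y : ℤ} (hm : L.m ≤ i) (hi : i < L.n) (h1 : L.yu (i + 1) ≤ y)
    (h2 : y < L.yw i) (h3 : L.yw j ≤ y) (h4 : y < L.yu j) : False := by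
  obtain ⟨x, hx1, hx2, hx3⟩ := hatAH (L := L) (i := j) (by omega)
  rw [← L.h_w hx3] at h3
  rw [← L.h_u hx3] at h4
  rcases Nat.lt_or_ge i x with h | h
  · have := uA_mono (L := L) (i := i + 1) (j := x) (by omega) (by omega) hx2
    omega
  · have := wA_mono hx1 h hi
    omega

lemma stripB_wall {i j : ℕ} {y : ℤ} (hi : i < L.m) (h1 : L.yw i ≤ y)
    (h2 : y < L.yu (i + 1)) (h3 : L.yu j ≤ y) (h4 : y < L.yw j) : False := by
  obtain ⟨x, hx1, hx3⟩ := hatBH (L := L) (i := j) (by omega)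
  rw [← L.h_u hx3] at h3
  rw [← L.h_w hx3] at h4
  rcases Nat.lt_or_ge i x with h | h
  · have := uB_mono (L := L) (i := i + 1) (j := x) (by omega) (by omega) hx1
    omega
  · have := wB_mono h hi
    omega

lemma stripA_u {i j : ℕ} {y : ℤ} (hm : L.m ≤ i) (hi : i < L.n) (hm' : L.m ≤ j) (hj : j < L.n)
    (h1 : L.yu (i + 1) ≤ y) (h2 : y < L.yw i) (h3 : L.yu (j + 1) ≤ y) (h4 : y < L.yw j) :
    i = j := by
  rcases lt_trichotomy i j with h | h | h
  · have h5 := uA_mono (L := L) (i := i + 1) (j := j) (by omega) (by omega) (by omega)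
    have h6 := L.dnc j (by omega) hj
    omega
  · exact h
  · have h5 := uA_mono (L := L) (i := j + 1) (j := i) (by omega) (by omega) (by omega)
    have h6 := L.dnc i (by omega) hi
    omega

lemma stripB_u {i j : ℕ} {y : ℤ} (hi : i < L.m) (hj : j < L.m)
    (h1 : L.yw i ≤ y) (h2 : y < L.yu (i + 1)) (h3 : L.yw j ≤ y) (h4 : y < L.yu (j + 1)) :
    i = j := by
  rcases lt_trichotomy i j with h | h | h
  · have h5 := uB_mono (L := L) (i := i + 1) (j := j) (by omega) (by omega) (by omega)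
    have h6 := L.upc j (by omega) hj
    omega
  · exact h
  · have h5 := uB_mono (L := L) (i := j + 1) (j := i) (by omega) (by omega) (by omega)
    have h6 := L.upc i (by omega) hi
    omega

end LC

end Pool.Agent.MP42D
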