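import Pool.Agent.MP42.D.CombH2
import Pool.Agent.MP42.D.CombO
import Pool.Agent.MP42.D.CombC
import Pool.Agent.MP42.D.Flip

/-!
# Piece D: the kinds of closings
-/

set_option autoImplicit false
set_option linter.unusedSectionVars false

namespace Pool.Agent.MP42D

namespace LC

variable {L : LC}

/-! ### kinds -/

inductive Kd
  | A1 | B1 | a2 | b2 | a3 | b3 | A4 | B4
  deriving DecidableEq

namespace Kd

def sl : Kd → Fin 4
  | A1 => 0 | B1 => 3 | a2 => 1 | b2 => 2 | a3 => 1 | b3 => 2 | A4 => 1 | B4 => 2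

def pA : Kd → Bool
  | A1 => true | B1 => false | a2 => false | b2 => true | a3 => true | b3 => false
  | A4 => true | B4 => false

def qA : Kd → Bool
  | A1 => true | B1 => false | a2 => true | b2 => false | a3 => false | b3 => true
  | A4 => true | B4 => false

def bN : Kd → Bool
  | A1 => false | B1 => false | a2 => false | b2 => true | a3 => true | b3 => false
  | A4 => true | B4 => true

def bS : Kd → Bool
  | A1 => false | B1 => false | a2 => true | b2 => false | a3 => false | b3 => true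
  | A4 => true | B4 => true

def P : Kd → Rl
  | A1 => Rl.c | B1 => Rl.v | a2 => Rl.a | b2 => Rl.w | a3 => Rl.c | b3 => Rl.v
  | A4 => Rl.w | B4 => Rl.a

def Q : Kd → Rl
  | A1 => Rl.v | B1 => Rl.c | a2 => Rl.v | b2 => Rl.c | a3 => Rl.w | b3 => Rl.a
  | A4 => Rl.a | B4 => Rl.w

lemma P_x (k : Kd) : k.P.x = !k.pA := by cases k <;> rfl
lemma Q_x (k : Kd) : k.Q.x = k.qA := by cases k <;> rfl

end Kd

/-- a closing with a track or a single letter -/
structure Sp (L : LC) (v : ℕ) (k : Kd) : Prop where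
  c1 : (L.cl v).1 = k.bN
  c2 : (L.cl v).2.1 = k.bS
  p : NF L (k.P.ix L v) k.pA
  q : NF L (k.Q.ix L v) k.qA
  pc : (∃ y1 y2, (L.cl v).2.2 = Pc.trk k.sl y1 y2 ∧ y1 = L.ue (k.P.ix L v) k.pA ∧
      y2 = L.de (k.Q.ix L v) k.qA ∧ L.lo < y1 ∧ y1 < y2 ∧ y2 < L.hi) ∨
    ∃ y, (L.cl v).2.2 = Pc.ctc k.sl (!k.pA) y ∧ k.qA = (!k.pA) ∧
      L.de (k.P.ix L v) k.pA ≤ y ∧ y < L.ue (k.P.ix L v) k.pA ∧
      L.de (k.Q.ix L v) k.qA ≤ y ∧ y < L.ue (k.Q.ix L v) k.qA
  aw : L.a v ≠ L.w v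

/-- a bump; `V`, `C`: positions of `v`, `c` -/
structure Bu (L : LC) (v V C : ℕ) : Prop where
  cl : L.cl v = (false, false, Pc.bump (max (L.yu V) (L.yw C)) (L.yu V) (L.yw C))
  hb : L.Hb V C
  hV : v = V % L.n
  hC : L.c v % L.n = C
  hW : L.w v % L.n = V - 1
  va : L.yu V ≤ L.yu (C + 1)
  cw : L.yw C ≤ L.yw (V - 1)
  Xw : max (L.yu V) (L.yw C) < L.yw (V - 1)
  Xa : max (L.yu V) (L.yw C) < L.yu (C + 1)

/-- a valley; `C`: position of `c` -/
structure Va (L : LC) (v C : ℕ) : Prop where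
  cl : L.cl v = (false, false, Pc.valley (min (L.yw C) (L.yu v)) (L.yw C) (L.yu v))
  ht : L.Ht v C
  hC : L.c v % L.n = C
  hW : L.w v % L.n = v - 1
  va : L.yu (C + 1) ≤ L.yu v
  cw : L.yw (v - 1) ≤ L.yw C
  Yw : L.yw (v - 1) < min (L.yw C) (L.yu v)
  Ya : L.yu (C + 1) < min (L.yw C) (L.yu v)

/-- the closing of a run -/
inductive Cls (L : LC) (v : ℕ) : Prop
  | no (h : L.a v = L.w v) (hc : L.cl v = (true, true, Pc.none))
  | sp (k : Kd) (h : Sp L v k)
  | bu (V C : ℕ) (h : Bu L v V C)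
  | va (C : ℕ) (h : Va L v C)

lemma a_modH {v c0 : ℕ} (h : L.c v % L.n = c0 % L.n) : L.a v % L.n = (c0 + 1) % L.n :=
  Nat.ModEq.add_right 1 h

theorem cls_aux {v v0 c0 w0 : ℕ} {r : Bool × Bool × Pc} (hv : L.IsV v) (h : L.Ty v0 c0 w0 r)
    (hv0 : v0 = v) (hc : L.c v % L.n = c0) (hw : L.w v % L.n = w0) (hr : L.cl v = r)
    (hne : L.a v ≠ L.w v ∨ r.2.2 = Pc.none) (hno : r.2.2 = Pc.none → L.a v = L.w v) :
    Cls L v := by
  have hvn := hv.1
  have hn := L.h_n0
  have hc0 : c0 < L.n := by rw [← hc]; exact Nat.mod_lt _ hn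
  have hw0 : w0 < L.n := by rw [← hw]; exact Nat.mod_lt _ hn
  have hc' : L.c v % L.n = c0 % L.n := by rw [L.h_md hc0]; exact hc
  have hw' : L.w v % L.n = w0 % L.n := by rw [L.h_md hw0]; exact hw
  have ha' := a_modH hc'
  have euc := L.h_u hc'
  have ewc := L.h_w hc'
  have euw := L.h_u hw'
  have eww := L.h_w hw'
  have eua := L.h_u ha'
  have ewa := L.h_w ha'
  have hne' : r.2.2 ≠ Pc.none → L.a v ≠ L.w v := fun h => hne.resolve_right h
  cases h with
  | none => exact Cls.no (hno rfl) hr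
  | A0 mv cn h t1 t2 t3 =>
    subst hv0
    have d1 := L.dnc _ (by have := h.vc; omega) cn
    have d2 := L.dnc _ mv hvn
    refine Cls.sp Kd.A1 ⟨by rw [hr]; rfl, by rw [hr]; rfl, ?_, ?_, Or.inl
      ⟨_, _, by rw [hr]; rfl, ?_, rfl, t1, t2, t3⟩, hne' (by simp)⟩
    · change L.yw (L.c v0) < L.yu (L.c v0)
      omega
    · change L.yw v0 < L.yu v0
      omega
    · exact euc.symm
  | B0 cm h t1 t2 t3 =>
    subst hv0
    have hvc := h.vc
    have d1 := L.upc _ (by omega : 0 < c0) cm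
    have d2 := L.upc _ h.v0 (by omega)
    refine Cls.sp Kd.B1 ⟨by rw [hr]; rfl, by rw [hr]; rfl, ?_, ?_, Or.inl
      ⟨_, _, by rw [hr]; rfl, rfl, ?_, t1, t2, t3⟩, hne' (by simp)⟩
    · change L.yu v0 < L.yw v0
      omega
    · change L.yu (L.c v0) < L.yw (L.c v0)
      omega
    · exact euc.symm
  | ZA ma h hv' t1 t2 t3 =>
    rename_i a
    have haw := h.aw
    have d1 := L.dnc a ma (by omega)
    have d2 := L.dnc w0 (by omega) hw0
    have e : a - 1 + 1 = a := by omega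
    rw [e] at eua ewa
    refine Cls.sp Kd.A4 ⟨by rw [hr]; rfl, by rw [hr]; rfl, ?_, ?_, Or.inl
      ⟨_, _, by rw [hr]; rfl, ?_, ?_, t1, t2, t3⟩, hne' (by simp)⟩
    · change L.yw (L.w v) < L.yu (L.w v)
      omega
    · change L.yw (L.a v) < L.yu (L.a v)
      omega
    · exact euw.symm
    · exact ewa.symm
  | ZB wm h hv' t1 t2 t3 =>
    rename_i a
    have haw := h.aw
    have ha0 := h.a0
    have d1 := L.upc a ha0 (by omega)
    have d2 := L.upc w0 (by omega) wm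
    have e : a - 1 + 1 = a := by omega
    rw [e] at eua ewa
    refine Cls.sp Kd.B4 ⟨by rw [hr]; rfl, by rw [hr]; rfl, ?_, ?_, Or.inl
      ⟨_, _, by rw [hr]; rfl, ?_, ?_, t1, t2, t3⟩, hne' (by simp)⟩
    · change L.yu (L.a v) < L.yw (L.a v)
      omega
    · change L.yu (L.w v) < L.yw (L.w v)
      omega
    · exact ewa.symm
    · exact euw.symm
  | b1 h h1 h2 h3 t1 t2 t3 =>
    rename_i V
    rw [L.h_md h2] at hv0
    subst hv0
    have d1 := L.upc (c0 + 1) (by omega) h1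
    have d2 := L.dnc V h.mv h2
    refine Cls.sp Kd.a2 ⟨by rw [hr]; rfl, by rw [hr]; rfl, ?_, ?_, Or.inl
      ⟨_, _, by rw [hr]; rfl, ?_, rfl, t1, t2, t3⟩, hne' (by simp)⟩
    · change L.yu (L.a V) < L.yw (L.a V)
      omega
    · exact d2
    · exact ewa.symm
  | b1c h h3 h4 h5 h6 h7 hy =>
    rename_i V y
    have eV : v % L.n = V % L.n := by rw [← hv0, Nat.mod_mod]
    have e1 := L.h_u eV
    have e2 := L.h_w eV
    refine Cls.sp Kd.a2 ⟨by rw [hr]; rfl, by rw [hr]; rfl, ?_, ?_, Or.inr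
      ⟨y, by rw [hr]; rfl, rfl, ?_, ?_, ?_, ?_⟩, hne' (by simp)⟩
    · change L.yu (L.a v) < L.yw (L.a v)
      omega
    · change L.yw v < L.yu v
      omega
    · change L.yu (L.a v) ≤ y
      omega
    · change y < L.yw (L.a v)
      omega
    · change L.yw v ≤ y
      omega
    · change y < L.yu v
      omega
  | b2 h h1 h2 h0 h3 t1 t2 t3 =>
    rename_i V
    have hVn := h.vn
    have d1 := L.upc c0 h2 h.cm
    have d2 := L.dnc (V - 1) (by omega) (by omega)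
    refine Cls.sp Kd.b2 ⟨by rw [hr]; rfl, by rw [hr]; rfl, ?_, ?_, Or.inl
      ⟨_, _, by rw [hr]; rfl, ?_, ?_, t1, t2, t3⟩, hne' (by simp)⟩
    · change L.yw (L.w v) < L.yu (L.w v)
      omega
    · change L.yu (L.c v) < L.yw (L.c v)
      omega
    · exact euw.symm
    · exact euc.symm
  | b2c h h0 h3 h4 h5 h6 h7 hy =>
    rename_i V y
    refine Cls.sp Kd.b2 ⟨by rw [hr]; rfl, by rw [hr]; rfl, ?_, ?_, Or.inr
      ⟨y, by rw [hr]; rfl, rfl, ?_, ?_, ?_, ?_⟩, hne' (by simp)⟩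
    · change L.yw (L.w v) < L.yu (L.w v)
      omega
    · change L.yu (L.c v) < L.yw (L.c v)
      omega
    · change L.yw (L.w v) ≤ y
      omega
    · change y < L.yu (L.w v)
      omega
    · change L.yu (L.c v) ≤ y
      omega
    · change y < L.yw (L.c v)
      omega
  | b3 h h0 h3 hX h4 h5 =>
    rename_i V X
    subst hX
    exact Cls.bu V c0 ⟨hr, h, hv0.symm, hc, hw, h0, h3, h4, h5⟩
  | t1 h h1 h2 h3 t1 t2 t3 =>
    subst hv0
    have hvm := h.vm
    have d1 := L.dnc c0 h1 h.cn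
    have d2 := L.upc (v0 - 1) (by omega) (by omega)
    refine Cls.sp Kd.a3 ⟨by rw [hr]; rfl, by rw [hr]; rfl, ?_, ?_, Or.inl
      ⟨_, _, by rw [hr]; rfl, ?_, ?_, t1, t2, t3⟩, hne' (by simp)⟩
    · change L.yw (L.c v0) < L.yu (L.c v0)
      omega
    · change L.yu (L.w v0) < L.yw (L.w v0)
      omega
    · exact euc.symm
    · exact euw.symm
  | t1c h h3 h4 h5 h6 h7 hy =>
    rename_i y
    subst hv0
    refine Cls.sp Kd.a3 ⟨by rw [hr]; rfl, by rw [hr]; rfl, ?_, ?_, Or.inr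
      ⟨y, by rw [hr]; rfl, rfl, ?_, ?_, ?_, ?_⟩, hne' (by simp)⟩
    · change L.yw (L.c v0) < L.yu (L.c v0)
      omega
    · change L.yu (L.w v0) < L.yw (L.w v0)
      omega
    · change L.yw (L.c v0) ≤ y
      omega
    · change y < L.yu (L.c v0)
      omega
    · change L.yu (L.w v0) ≤ y
      omega
    · change y < L.yw (L.w v0)
      omega
  | t2 h h1 h2 h0 h3 t1 t2 t3 =>
    subst hv0
    have hv0' := h.sg.v0
    have hmc := h.mc
    have d1 := L.dnc (c0 + 1) (by omega) h2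
    have d2 := L.upc v0 (by omega) (by omega)
    refine Cls.sp Kd.b3 ⟨by rw [hr]; rfl, by rw [hr]; rfl, ?_, ?_, Or.inl
      ⟨_, _, by rw [hr]; rfl, rfl, ?_, t1, t2, t3⟩, hne' (by simp)⟩
    · exact d2
    · change L.yw (L.a v0) < L.yu (L.a v0)
      omega
    · exact ewa.symm
  | t2c h h0 h3 h4 h5 h6 h7 hy =>
    rename_i y
    subst hv0
    refine Cls.sp Kd.b3 ⟨by rw [hr]; rfl, by rw [hr]; rfl, ?_, ?_, Or.inr
      ⟨y, by rw [hr]; rfl, rfl, ?_, ?_, ?_, ?_⟩, hne' (by simp)⟩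
    · change L.yu v0 < L.yw v0
      omega
    · change L.yw (L.a v0) < L.yu (L.a v0)
      omega
    · change L.yu v0 ≤ y
      omega
    · change y < L.yw v0
      omega
    · change L.yw (L.a v0) ≤ y
      omega
    · change y < L.yu (L.a v0)
      omega
  | t3 h h0 h3 hY h4 h5 =>
    subst hv0 hY
    exact Cls.va c0 ⟨hr, h, hc, hw, h3, h0, h4, h5⟩

lemma conn_ne {s : Fin 4} {p : ℕ} {pA : Bool} {q : ℕ} {qA h : Bool} :
    L.conn s p pA q qA h ≠ Pc.none := by
  unfold conn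
  split_ifs <;> simp

lemma cl_noneH {v : ℕ} : (L.cl v).2.2 = Pc.none ↔ L.a v = L.w v := by
  constructor
  · intro h
    by_contra hne
    unfold cl at h
    rw [if_neg hne] at h
    split_ifs at h <;> first | exact conn_ne h | simp at h
  · intro h
    unfold cl
    rw [if_pos h]

theorem cls {v : ℕ} (hv : L.IsV v) : Cls L v := by
  refine cls_aux hv (L.ty hv) rfl rfl rfl rfl ?_ cl_noneH.mp
  by_cases h : L.a v = L.w v
  · exact Or.inr (cl_noneH.mpr h)
  · exact Or.inl h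

end LC

end Pool.Agent.MP42D
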