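import Pool.Agent.MP42.D.CombH3

/-!
# Piece D: lanes of bumps and valleys, full lanes (D5, D6, D8, D11, flags)
-/

set_option autoImplicit false
set_option linter.unusedSectionVars false

namespace Pool.Agent.MP42D

namespace LC

variable {L : LC}

lemma bu_of {v : ℕ} {X yA yB : ℤ} (hv : L.IsV v) (h : (L.cl v).2.2 = Pc.bump X yA yB) :
    ∃ V C, Bu L v V C ∧ X = max (L.yu V) (L.yw C) ∧ yA = L.yu V ∧ yB = L.yw C := by
  cases cls hv with
  | no h1 hc => rw [hc] at h; cases h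
  | sp k hk => rcases hk.pc with ⟨y1, y2, e, -⟩ | ⟨y, e, -⟩ <;> rw [e] at h <;> cases h
  | bu V C hb =>
    rw [hb.cl] at h
    injection h with e1 e2 e3
    exact ⟨V, C, hb, e1.symm, e2.symm, e3.symm⟩
  | va C hc => rw [hc.cl] at h; cases h

lemma va_of {v : ℕ} {Y yA yB : ℤ} (hv : L.IsV v) (h : (L.cl v).2.2 = Pc.valley Y yA yB) :
    ∃ C, Va L v C ∧ Y = min (L.yw C) (L.yu v) ∧ yA = L.yw C ∧ yB = L.yu v := by
  cases cls hv with
  | no h1 hc => rw [hc] at h; cases h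
  | sp k hk => rcases hk.pc with ⟨y1, y2, e, -⟩ | ⟨y, e, -⟩ <;> rw [e] at h <;> cases h
  | bu V C hb => rw [hb.cl] at h; cases h
  | va C hc =>
    rw [hc.cl] at h
    injection h with e1 e2 e3
    exact ⟨C, hc, e1.symm, e2.symm, e3.symm⟩

/-- a strip of positive length on the B side -/
lemma sB_of {i : ℕ} (h : L.sB i = true) : ∃ j < L.m, i % L.n = j ∧ L.yw i = L.yw j ∧
    L.yu (i + 1) = L.yu (j + 1) ∧ L.yw j < L.yu (j + 1) := by
  unfold sB at h
  have h1 := of_decide_eq_true h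
  have e1 : i % L.n = i % L.n % L.n := (Nat.mod_mod _ _).symm
  have e2 : (i + 1) % L.n = (i % L.n + 1) % L.n := Nat.ModEq.add_right 1 e1
  have e3 := L.h_w e1
  have e4 := L.h_u e2
  refine ⟨i % L.n, h1.1, rfl, e3, e4, ?_⟩
  have h2 := L.up (i % L.n) h1.1
  have h3 := h1.2
  omega

/-- a strip of positive length on the A side -/
lemma sA_of {i : ℕ} (h : L.sA i = true) : ∃ j, L.m ≤ j ∧ j < L.n ∧ i % L.n = j ∧
    L.yw i = L.yw j ∧ L.yu (i + 1) = L.yu (j + 1) ∧ L.yu (j + 1) < L.yw j := by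
  unfold sA at h
  have h1 := of_decide_eq_true h
  have e1 : i % L.n = i % L.n % L.n := (Nat.mod_mod _ _).symm
  have e2 : (i + 1) % L.n = (i % L.n + 1) % L.n := Nat.ModEq.add_right 1 e1
  have e3 := L.h_w e1
  have e4 := L.h_u e2
  have hn : i % L.n < L.n := Nat.mod_lt _ L.h_n0
  refine ⟨i % L.n, h1.1, hn, rfl, e3, e4, ?_⟩
  have h2 := L.dn (i % L.n) h1.1 hn
  have h3 := h1.2
  omega

/-! ### lanes of bumps -/

/-- the bumps of the lanes `n` -/
lemma fN_bu {y : ℤ} (h : L.K.fN y = true) : ∃ V C, Bu L (L.K.tb y) V C ∧ L.IsV (L.K.tb y) ∧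
    L.yu V ≤ y ∧ y ≤ max (L.yu V) (L.yw C) := by
  obtain ⟨v, hv, hf⟩ := (L.fN_iff y).mp h
  have e := L.tb_eq hv (Or.inl hf)
  obtain ⟨X, yA, yB, h1, h2, h3⟩ := hf
  obtain ⟨V, C, hb, rfl, rfl, rfl⟩ := bu_of hv h1
  rw [e]
  exact ⟨V, C, hb, hv, h2, h3⟩

lemma fS_bu {y : ℤ} (h : L.K.fS y = true) : ∃ V C, Bu L (L.K.tb y) V C ∧ L.IsV (L.K.tb y) ∧
    L.yw C ≤ y ∧ y ≤ max (L.yu V) (L.yw C) := by
  obtain ⟨v, hv, hf⟩ := (L.fS_iff y).mp h
  have e := L.tb_eq hv (Or.inr hf)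
  obtain ⟨X, yA, yB, h1, h2, h3⟩ := hf
  obtain ⟨V, C, hb, rfl, rfl, rfl⟩ := bu_of hv h1
  rw [e]
  exact ⟨V, C, hb, hv, h2, h3⟩

lemma gS_va {y : ℤ} (h : L.K.gS y = true) : ∃ C, Va L (L.K.tv y) C ∧ L.IsV (L.K.tv y) ∧
    min (L.yw C) (L.yu (L.K.tv y)) ≤ y ∧ y ≤ L.yw C := by
  obtain ⟨v, hv, hf⟩ := (L.gS_iff y).mp h
  have e := L.tv_eq hv (Or.inl hf)
  obtain ⟨X, yA, yB, h1, h2, h3⟩ := hf
  obtain ⟨C, hb, rfl, rfl, rfl⟩ := va_of hv h1
  rw [e]
  exact ⟨C, hb, hv, h2, h3⟩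

lemma gN_va {y : ℤ} (h : L.K.gN y = true) : ∃ C, Va L (L.K.tv y) C ∧ L.IsV (L.K.tv y) ∧
    min (L.yw C) (L.yu (L.K.tv y)) ≤ y ∧ y ≤ L.yu (L.K.tv y) := by
  obtain ⟨v, hv, hf⟩ := (L.gN_iff y).mp h
  have e := L.tv_eq hv (Or.inr hf)
  obtain ⟨X, yA, yB, h1, h2, h3⟩ := hf
  obtain ⟨C, hb, rfl, rfl, rfl⟩ := va_of hv h1
  rw [e]
  exact ⟨C, hb, hv, h2, h3⟩

lemma T2 {i : ℕ} (h : (L.sB i && L.K.fS (L.yw i)) = true) :
    ∃ V C, Bu L (L.K.tb (L.yw i)) V C ∧ L.IsV (L.K.tb (L.yw i)) ∧ i % L.n = C ∧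
      L.yw i = L.yw C := by
  rw [Bool.and_eq_true] at h
  obtain ⟨j, hj, e1, e2, -, h2⟩ := sB_of h.1
  obtain ⟨V, C, hb, hv, h3, h4⟩ := fS_bu h.2
  have h5 := hb.Xa
  have h6 := hb.hb.cm
  have h7 : j = C := stripB_u (y := L.yw j) hj h6 le_rfl h2 (by omega) (by omega)
  subst h7
  exact ⟨V, j, hb, hv, e1, e2⟩

lemma T3 {i : ℕ} (h : (L.sA i && L.K.gS (L.yw i)) = true) :
    ∃ C, Va L (L.K.tv (L.yw i)) C ∧ L.IsV (L.K.tv (L.yw i)) ∧ i % L.n = C ∧
      L.yw i = L.yw C := by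
  rw [Bool.and_eq_true] at h
  obtain ⟨j, hj, hjn, e1, e2, -, h2⟩ := sA_of h.1
  obtain ⟨C, hb, hv, h3, h4⟩ := gS_va h.2
  have h5 := hb.Ya
  have h6 := hb.ht.mc
  have h8 := hb.ht.cn
  have h7 : j = C := stripA_u (y := L.yw j - 1) hj hjn h6 h8 (by omega) (by omega) (by omega)
    (by omega)
  subst h7
  exact ⟨j, hb, hv, e1, e2⟩

lemma T9 {i : ℕ} (h : (L.sA i && L.K.fN (L.yu (i + 1))) = true) :
    ∃ V C, Bu L (L.K.tb (L.yu (i + 1))) V C ∧ L.IsV (L.K.tb (L.yu (i + 1))) ∧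
      i % L.n = V - 1 ∧ L.yu (i + 1) = L.yu V := by
  rw [Bool.and_eq_true] at h
  obtain ⟨j, hj, hjn, e1, -, e2, h2⟩ := sA_of h.1
  obtain ⟨V, C, hb, hv, h3, h4⟩ := fN_bu h.2
  have h5 := hb.Xw
  have h6 := hb.hb.mv
  have h8 := hb.hb.vn
  have h9 : V - 1 + 1 = V := by omega
  have h7 : j = V - 1 := stripA_u (y := L.yu (j + 1)) hj hjn (by omega) (by omega) le_rfl h2
    (by rw [h9]; omega) (by omega)
  refine ⟨V, C, hb, hv, by rw [e1, h7], ?_⟩
  rw [e2, h7, h9]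

lemma T8 {i : ℕ} (h : (L.sB i && L.K.gN (L.yu (i + 1))) = true) :
    ∃ C, Va L (L.K.tv (L.yu (i + 1))) C ∧ L.IsV (L.K.tv (L.yu (i + 1))) ∧
      i % L.n = L.K.tv (L.yu (i + 1)) - 1 ∧ L.yu (i + 1) = L.yu (L.K.tv (L.yu (i + 1))) := by
  rw [Bool.and_eq_true] at h
  obtain ⟨j, hj, e1, -, e2, h2⟩ := sB_of h.1
  obtain ⟨C, hb, hv, h3, h4⟩ := gN_va h.2
  generalize L.K.tv (L.yu (i + 1)) = v at hb hv h3 h4 ⊢
  have h5 := hb.Yw
  have h6 := hb.ht.sg.v0
  have h8 := hb.ht.vm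
  have h9 : v - 1 + 1 = v := by omega
  have h7 : j = v - 1 := stripB_u (y := L.yu (j + 1) - 1) hj (by omega) (by omega) (by omega)
    (by omega) (by rw [h9]; omega)
  refine ⟨C, hb, hv, by rw [e1, h7], ?_⟩
  rw [e2, h7, h9]

lemma T6 (i : ℕ) : (L.sA i && L.K.fN (L.yw i)) = false := by
  rw [← Bool.not_eq_true, Bool.and_eq_true]
  rintro ⟨h1, h2⟩
  obtain ⟨j, hj, hjn, -, e2, -, h2'⟩ := sA_of h1
  obtain ⟨V, C, hb, -, h3, h4⟩ := fN_bu h2
  have h5 := hb.Xw
  have h6 := hb.hb.mv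
  have h8 := hb.hb.vn
  have h9 : V - 1 + 1 = V := by omega
  rcases lt_or_ge (L.yu V) (L.yw j) with h | h
  · have h7 : j = V - 1 := stripA_u (y := L.yw j - 1) hj hjn (by omega) (by omega) (by omega)
      (by omega) (by rw [h9]; omega) (by omega)
    subst h7
    omega
  · rcases Nat.lt_or_ge j V with h7 | h7
    · have := uA_mono (L := L) (i := j + 1) (j := V) (by omega) h7 h8
      omega
    · have h10 := wA_mono (L := L) (i := V) (j := j) (by omega) h7 hjn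
      have h11 := L.dnc V h6 (by omega)
      omega

lemma T11 (i : ℕ) : (L.sB i && L.K.fS (L.yu (i + 1))) = false := by
  rw [← Bool.not_eq_true, Bool.and_eq_true]
  rintro ⟨h1, h2⟩
  obtain ⟨j, hj, -, -, e2, h2'⟩ := sB_of h1
  obtain ⟨V, C, hb, -, h3, h4⟩ := fS_bu h2
  have h5 := hb.Xa
  have h6 := hb.hb.cm
  rcases lt_or_ge (L.yw C) (L.yu (j + 1)) with h | h
  · have h7 : j = C := stripB_u (y := L.yu (j + 1) - 1) hj h6 (by omega) (by omega)
      (by omega) (by omega)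
    subst h7
    omega
  · rcases Nat.lt_or_ge j C with h7 | h7
    · have h8 := uB_mono (L := L) (i := j + 1) (j := C) (by omega) h7 h6.le
      have h9 := L.upc C (by omega) h6
      omega
    · have := wB_mono h7 hj
      omega

lemma T5 (i : ℕ) : (L.sB i && L.K.gN (L.yw i)) = false := by
  rw [← Bool.not_eq_true, Bool.and_eq_true]
  rintro ⟨h1, h2⟩
  obtain ⟨j, hj, -, e2, -, h2'⟩ := sB_of h1
  obtain ⟨C, hb, -, h3, h4⟩ := gN_va h2
  generalize L.K.tv (L.yw i) = v at hb h3 h4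
  have h5 := hb.Yw
  have h6 := hb.ht.sg.v0
  have h8 := hb.ht.vm
  have h9 : v - 1 + 1 = v := by omega
  rcases lt_or_ge (L.yw j) (L.yu v) with h | h
  · have h7 : j = v - 1 := stripB_u (y := L.yw j) hj (by omega) le_rfl h2' (by omega)
      (by rw [h9]; omega)
    subst h7
    omega
  · rcases Nat.lt_or_ge j v with h7 | h7
    · have := wB_mono (L := L) (i := j) (j := v - 1) (by omega) (by omega)
      omega
    · have h10 := wB_mono h7 hj
      have h11 := L.upc v h6 (by omega)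
      omega

lemma T12 (i : ℕ) : (L.sA i && L.K.gS (L.yu (i + 1))) = false := by
  rw [← Bool.not_eq_true, Bool.and_eq_true]
  rintro ⟨h1, h2⟩
  obtain ⟨j, hj, hjn, -, -, e2, h2'⟩ := sA_of h1
  obtain ⟨C, hb, -, h3, h4⟩ := gS_va h2
  generalize L.K.tv (L.yu (i + 1)) = v at hb h3 h4
  have h5 := hb.Ya
  have h6 := hb.ht.mc
  have h8 := hb.ht.cn
  rcases lt_or_ge (L.yu (j + 1)) (L.yw C) with h | h
  · have h7 : j = C := stripA_u (y := L.yu (j + 1)) hj hjn h6 h8 le_rfl h2' (by omega)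
      (by omega)
    subst h7
    omega
  · rcases Nat.lt_or_ge j C with h7 | h7
    · have h10 := wA_mono (L := L) (i := j + 1) (j := C) (by omega) h7 h8
      have h11 := L.dnc (j + 1) (by omega) (by omega)
      omega
    · have := uA_mono (L := L) (i := C + 1) (j := j + 1) (by omega) (by omega) (by omega)
      omega

/-! ### flags are in the leaf -/

theorem flags_in' {y : ℤ} (h : L.K.fN y = true ∨ L.K.fS y = true ∨ L.K.gS y = true ∨
    L.K.gN y = true) : L.lo ≤ y ∧ y ≤ L.hi := by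
  rcases h with h | h | h | h
  · obtain ⟨V, C, -, -, h1, h2⟩ := fN_bu h
    have r1 := L.ru V
    have r2 := L.rw C
    omega
  · obtain ⟨V, C, -, -, h1, h2⟩ := fS_bu h
    have r1 := L.ru V
    have r2 := L.rw C
    omega
  · obtain ⟨C, -, -, h1, h2⟩ := gS_va h
    have r1 := L.ru (L.K.tv y)
    have r2 := L.rw C
    omega
  · obtain ⟨C, -, -, h1, h2⟩ := gN_va h
    have r1 := L.ru (L.K.tv y)
    have r2 := L.rw C
    omega

/-! ### full lanes -/

lemma NL_of {i : ℕ} (h : L.NL i = true) : ∃ v, L.IsV v ∧ (L.cl v).1 = true ∧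
    L.w v % L.n = i % L.n := by
  classical
  unfold NL at h
  exact of_decide_eq_true h

lemma SL_of {i : ℕ} (h : L.SL i = true) : ∃ v, L.IsV v ∧ (L.cl v).2.1 = true ∧
    L.c v % L.n = i % L.n := by
  classical
  unfold SL at h
  exact of_decide_eq_true h

lemma Bu.Sc {v V C : ℕ} (h : Bu L v V C) : L.S C = false := h.hb.sc
lemma Bu.Sw {v V C : ℕ} (h : Bu L v V C) : L.S (V - 1) = false := h.hb.sv

/-- no full lane `n` on the strip `w` of a bump -/
lemma Bu.NLw {v V C i : ℕ} (hv : L.IsV v) (h : Bu L v V C) (hi : i % L.n = V - 1) :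
    L.NL i = false := by
  rw [← Bool.not_eq_true]
  intro hN
  obtain ⟨v', hv', h1, h2⟩ := NL_of hN
  have : v' = v := w_uniq hv' hv (h2.trans (hi.trans h.hW.symm))
  subst this
  rw [h.cl] at h1
  exact absurd h1 (by simp)

lemma Bu.SLc {v V C i : ℕ} (hv : L.IsV v) (h : Bu L v V C) (hi : i % L.n = C) :
    L.SL i = false := by
  rw [← Bool.not_eq_true]
  intro hN
  obtain ⟨v', hv', h1, h2⟩ := SL_of hN
  have : v' = v := c_uniq hv' hv (h2.trans (hi.trans h.hC.symm))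
  subst this
  rw [h.cl] at h1
  exact absurd h1 (by simp)

lemma Va.NLw {v C i : ℕ} (hv : L.IsV v) (h : Va L v C) (hi : i % L.n = v - 1) :
    L.NL i = false := by
  rw [← Bool.not_eq_true]
  intro hN
  obtain ⟨v', hv', h1, h2⟩ := NL_of hN
  have : v' = v := w_uniq hv' hv (h2.trans (hi.trans h.hW.symm))
  subst this
  rw [h.cl] at h1
  exact absurd h1 (by simp)

lemma Va.SLc {v C i : ℕ} (hv : L.IsV v) (h : Va L v C) (hi : i % L.n = C) :
    L.SL i = false := by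
  rw [← Bool.not_eq_true]
  intro hN
  obtain ⟨v', hv', h1, h2⟩ := SL_of hN
  have : v' = v := c_uniq hv' hv (h2.trans (hi.trans h.hC.symm))
  subst this
  rw [h.cl] at h1
  exact absurd h1 (by simp)

/-- the strips `w` of the runs with a full lane `n` -/
theorem tyN {v c w : ℕ} {r : Bool × Bool × Pc} (h : L.Ty v c w r) (h1 : r.1 = true) :
    (w = (c + 1) % L.n ∧ ∀ i < L.n, i ≠ c → i ≠ w → L.S i = true) ∨
    (∃ a, L.m < a ∧ L.Zg a w) ∨ (∃ a, w < L.m ∧ L.Zg a w) ∨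
    (∃ V, L.Hb V c ∧ w = V - 1 ∧ L.yw (V - 1) < L.yw c) ∨
    (L.Ht v c ∧ w = v - 1 ∧ L.yw c < L.yw (v - 1)) := by
  cases h with
  | none hc hw hv hs => exact Or.inl ⟨hw, hs⟩
  | ZA ma h => exact Or.inr (Or.inl ⟨_, ma, h⟩)
  | ZB wm h => exact Or.inr (Or.inr (Or.inl ⟨_, wm, h⟩))
  | b2 h _ _ _ h3 => exact Or.inr (Or.inr (Or.inr (Or.inl ⟨_, h, rfl, h3⟩)))
  | b2c h _ h3 => exact Or.inr (Or.inr (Or.inr (Or.inl ⟨_, h, rfl, h3⟩)))
  | t1 h _ _ h3 => exact Or.inr (Or.inr (Or.inr (Or.inr ⟨h, rfl, h3⟩)))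
  | t1c h h3 => exact Or.inr (Or.inr (Or.inr (Or.inr ⟨h, rfl, h3⟩)))
  | A0 => exact absurd h1 (by simp)
  | B0 => exact absurd h1 (by simp)
  | b1 => exact absurd h1 (by simp)
  | b1c => exact absurd h1 (by simp)
  | b3 => exact absurd h1 (by simp)
  | t2 => exact absurd h1 (by simp)
  | t2c => exact absurd h1 (by simp)
  | t3 => exact absurd h1 (by simp)

/-- no full lane `n` on the strip `c` of a bump -/
lemma Bu.NLc {v V C i : ℕ} (h : Bu L v V C) (hi : i % L.n = C) : L.NL i = false := by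
  rw [← Bool.not_eq_true]
  intro hN
  obtain ⟨v', hv', h1, h2⟩ := NL_of hN
  have ht := L.ty hv'
  rw [hi] at h2
  rw [h2] at ht
  have hmv := h.hb.mv
  have hvn := h.hb.vn
  have hcm := h.hb.cm
  have hsv := h.hb.sv
  have hsc := h.hb.sc
  have hne := h.hb.ne
  have hn := L.h_n0
  rcases tyN ht h1 with ⟨h3, hs⟩ | ⟨a, ma, h3⟩ | ⟨a, wm, h3⟩ | ⟨V', h3, h4, h5⟩ | ⟨h3, h4, h5⟩
  · have h7 : V - 1 = L.c v' % L.n := by
      by_contra hne
      have := hs (V - 1) (by omega) hne (by omega)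
      rw [hsv] at this
      exact absurd this (by simp)
    rw [← h7, show V - 1 + 1 = V by omega] at h3
    rcases hvn.lt_or_eq with h8 | h8
    · rw [L.h_md h8] at h3
      omega
    · rw [h8, Nat.mod_self] at h3
      omega
  · have := h3.aw
    omega
  · have := h3.s2 (V - 1) (by omega) (by omega)
    rw [hsv] at this
    exact absurd this (by simp)
  · have := h3.mv
    omega
  · have h6 := h3.mc
    have h7 := h3.cn
    have h8 : L.c v' % L.n < V := by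
      by_contra hlt
      have := h.hb.s1 (L.c v' % L.n) (by omega) h7
      rw [h3.sg.sc] at this
      exact absurd this (by simp)
    have h9 := wA_mono (L := L) (i := L.c v' % L.n) (j := V - 1) h6 (by omega) (by omega)
    have h10 := h.cw
    rw [← h4] at h5
    omega

/-- no full lane `n` on the strip `c` of a valley -/
lemma Va.NLc {v C i : ℕ} (h : Va L v C) (hi : i % L.n = C) : L.NL i = false := by
  rw [← Bool.not_eq_true]
  intro hN
  obtain ⟨v', hv', h1, h2⟩ := NL_of hN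
  have ht := L.ty hv'
  rw [hi] at h2
  rw [h2] at ht
  have hvm := h.ht.vm
  have hmc := h.ht.mc
  have hcn := h.ht.cn
  have hv0 := h.ht.sg.v0
  have hvc := h.ht.sg.vc
  have hsv := h.ht.sg.sv
  have hsc := h.ht.sg.sc
  have hn := L.h_n0
  rcases tyN ht h1 with ⟨h3, hs⟩ | ⟨a, ma, h3⟩ | ⟨a, wm, h3⟩ | ⟨V', h3, h4, h5⟩ | ⟨h3, h4, h5⟩
  · have h7 : v - 1 = L.c v' % L.n := by
      by_contra hne
      have := hs (v - 1) (by omega) hne (by omega)
      rw [hsv] at this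
      exact absurd this (by simp)
    rw [← h7, show v - 1 + 1 = v by omega, L.h_md (by omega)] at h3
    omega
  · have := h3.s1 (v - 1) (by omega)
    rw [hsv] at this
    exact absurd this (by simp)
  · omega
  · have h8 : L.c v' % L.n ≤ v - 1 := by
      by_contra hlt
      have := h3.s2 (v - 1) (by omega)
      rw [hsv] at this
      exact absurd this (by simp)
    have h9 := wB_mono (L := L) (i := L.c v' % L.n) (j := v - 1) h8 (by omega)
    have h10 := h.cw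
    rw [← h4] at h5
    omega
  · have := h3.vm
    have := h3.sg.v0
    omega

lemma Bu.strip {v V C : ℕ} (h : Bu L v V C) {i : ℕ} (hi : i < L.m) {y : ℤ} (h1 : L.yw i ≤ y)
    (h2 : y < L.yu (i + 1)) (hy : y = max (L.yu V) (L.yw C)) : i = C := by
  have := h.Xa
  exact stripB_u hi h.hb.cm h1 h2 (by omega) (by omega)

lemma Bu.strip' {v V C : ℕ} (h : Bu L v V C) {i : ℕ} (hm : L.m ≤ i) (hi : i < L.n) {y : ℤ}
    (h1 : L.yu (i + 1) ≤ y) (h2 : y < L.yw i) (hy : y = max (L.yu V) (L.yw C)) : i = V - 1 := by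
  have h3 := h.Xw
  have h4 := h.hb.mv
  have h5 := h.hb.vn
  exact stripA_u hm hi (by omega) (by omega) h1 h2
    (by rw [show V - 1 + 1 = V by omega]; omega) (by omega)

lemma Va.strip {v C : ℕ} (h : Va L v C) {i : ℕ} (hi : i < L.m) {y : ℤ} (h1 : L.yw i ≤ y)
    (h2 : y < L.yu (i + 1)) (hy : y + 1 = min (L.yw C) (L.yu v)) : i = v - 1 := by
  have h3 := h.Yw
  have h4 := h.ht.sg.v0
  have h5 := h.ht.vm
  exact stripB_u hi (by omega) h1 h2 (by omega)
    (by rw [show v - 1 + 1 = v by omega]; omega)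

lemma Va.strip' {v C : ℕ} (h : Va L v C) {i : ℕ} (hm : L.m ≤ i) (hi : i < L.n) {y : ℤ}
    (h1 : L.yu (i + 1) ≤ y) (h2 : y < L.yw i) (hy : y + 1 = min (L.yw C) (L.yu v)) : i = C := by
  have h3 := h.Ya
  exact stripA_u hm hi h.ht.mc h.ht.cn h1 h2 (by omega) (by omega)

lemma bp_of {y : ℤ} (h : L.K.bp y = true) : ∃ v V C, L.IsV v ∧ Bu L v V C ∧
    y = max (L.yu V) (L.yw C) := by
  obtain ⟨v, hv, yA, yB, hf⟩ := (L.bp_iff y).mp h
  obtain ⟨V, C, hb, h1, -, -⟩ := bu_of hv hf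
  exact ⟨v, V, C, hv, hb, h1⟩

lemma vl_of {y : ℤ} (h : L.K.vl y = true) : ∃ v C, L.IsV v ∧ Va L v C ∧
    y + 1 = min (L.yw C) (L.yu v) := by
  obtain ⟨v, hv, yA, yB, hf⟩ := (L.vl_iff y).mp h
  obtain ⟨C, hb, h1, -, -⟩ := va_of hv hf
  exact ⟨v, C, hv, hb, h1⟩

/-- **D6** -/
theorem plate_BH {i : ℕ} (hi : i < L.m) {y : ℤ} (h1 : L.yw i ≤ y) (h2 : y < L.yu (i + 1)) :
    (L.K.bp y = true → L.NL i = false ∧ L.S i = false ∧ L.SL i = false) ∧
      (L.K.vl y = true → L.NL i = false ∧ L.S i = false) := by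
  have hm := L.hm
  refine ⟨fun h => ?_, fun h => ?_⟩
  · obtain ⟨v, V, C, hv, hb, hy⟩ := bp_of h
    have hC : i = C := hb.strip hi h1 h2 hy
    subst hC
    have e : i % L.n = i := L.h_md (by omega)
    exact ⟨hb.NLc e, hb.Sc, hb.SLc hv e⟩
  · obtain ⟨v, C, hv, hb, hy⟩ := vl_of h
    have hC : i = v - 1 := hb.strip hi h1 h2 hy
    subst hC
    have e : (v - 1) % L.n = v - 1 := L.h_md (by omega)
    exact ⟨hb.NLw hv e, hb.ht.sg.sv⟩

theorem plate_AH {i : ℕ} (hm : L.m ≤ i) (hi : i < L.n) {y : ℤ} (h1 : L.yu (i + 1) ≤ y)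
    (h2 : y < L.yw i) :
    (L.K.bp y = true → L.NL i = false ∧ L.S i = false) ∧
      (L.K.vl y = true → L.NL i = false ∧ L.S i = false ∧ L.SL i = false) := by
  have e : i % L.n = i := L.h_md hi
  refine ⟨fun h => ?_, fun h => ?_⟩
  · obtain ⟨v, V, C, hv, hb, hy⟩ := bp_of h
    have hC : i = V - 1 := hb.strip' hm hi h1 h2 hy
    subst hC
    exact ⟨hb.NLw hv e, hb.Sw⟩
  · obtain ⟨v, C, hv, hb, hy⟩ := vl_of h
    have hC : i = C := hb.strip' hm hi h1 h2 hy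
    subst hC
    exact ⟨hb.NLc e, hb.ht.sg.sc, hb.SLc hv e⟩

lemma bfalse {b : Bool} (h : b = true → False) : b = false := by
  cases b
  · rfl
  · exact (h rfl).elim

/-- **D8** -/
theorem siteH {i : ℕ} (h : L.S i = true) : L.SL i = false ∧ L.NL i = false ∧
    (L.sB i && L.K.fS (L.yw i)) = false ∧ (L.sA i && L.K.gS (L.yw i)) = false ∧
    (L.sB i && L.K.gN (L.yw i)) = false ∧ (L.sA i && L.K.fN (L.yw i)) = false ∧
    (L.sB i && L.K.gN (L.yu (i + 1))) = false ∧ (L.sA i && L.K.fN (L.yu (i + 1))) = false ∧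
    (L.sB i && L.K.fS (L.yu (i + 1))) = false ∧ (L.sA i && L.K.gS (L.yu (i + 1))) = false := by
  have key : ∀ j, i % L.n = j → L.S j = false → False := by
    intro j h1 h2
    have e : i % L.n = j % L.n := by rw [← h1, Nat.mod_mod]
    rw [L.h_S e, h2] at h
    exact absurd h (by simp)
  refine ⟨bfalse fun h' => ?_, bfalse fun h' => ?_, bfalse fun h' => ?_, bfalse fun h' => ?_,
    T5 i, T6 i, bfalse fun h' => ?_, bfalse fun h' => ?_, T11 i, T12 i⟩
  · rw [(SL_SH h').1] at h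
    exact absurd h (by simp)
  · rw [(NL_SH h').1] at h
    exact absurd h (by simp)
  · obtain ⟨V, C, hb, hv, e, -⟩ := T2 h'
    exact key _ e hb.Sc
  · obtain ⟨C, hb, hv, e, -⟩ := T3 h'
    exact key _ e hb.ht.sg.sc
  · obtain ⟨C, hb, hv, e, -⟩ := T8 h'
    exact key _ e hb.ht.sg.sv
  · obtain ⟨V, C, hb, hv, e, -⟩ := T9 h'
    exact key _ e hb.Sw

/-- **D11** -/
theorem exclH (i : ℕ) : (L.NL i = true →
      (L.sB i && L.K.gN (L.yw i)) = false ∧ (L.sA i && L.K.fN (L.yw i)) = false ∧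
      (L.sB i && L.K.gN (L.yu (i + 1))) = false ∧ (L.sA i && L.K.fN (L.yu (i + 1))) = false) ∧
    (L.SL i = true →
      (L.sB i && L.K.fS (L.yw i)) = false ∧ (L.sA i && L.K.gS (L.yw i)) = false ∧
      (L.sB i && L.K.fS (L.yu (i + 1))) = false ∧
      (L.sA i && L.K.gS (L.yu (i + 1))) = false) := by
  refine ⟨fun h => ⟨T5 i, T6 i, bfalse fun h' => ?_, bfalse fun h' => ?_⟩,
    fun h => ⟨bfalse fun h' => ?_, bfalse fun h' => ?_, T11 i, T12 i⟩⟩
  · obtain ⟨C, hb, hv, e, -⟩ := T8 h'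
    rw [hb.NLw hv e] at h
    exact absurd h (by simp)
  · obtain ⟨V, C, hb, hv, e, -⟩ := T9 h'
    rw [hb.NLw hv e] at h
    exact absurd h (by simp)
  · obtain ⟨V, C, hb, hv, e, -⟩ := T2 h'
    rw [hb.SLc hv e] at h
    exact absurd h (by simp)
  · obtain ⟨C, hb, hv, e, -⟩ := T3 h'
    rw [hb.SLc hv e] at h
    exact absurd h (by simp)

/-- **D10** -/
theorem exists_runH {i : ℕ} (h1 : L.S i = false) (h2 : L.S (i + L.n - 1) = true) :
    ∃ v, L.IsV v ∧ L.c v % L.n = i % L.n := by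
  classical
  have hn := L.hn
  -- the last corner before `i` that is not in `S`
  have hex : ∃ l, L.S (i + L.n - 1 - l) = false :=
    ⟨L.n - 1, by rw [show i + L.n - 1 - (L.n - 1) = i by omega]; exact h1⟩
  have hl := Nat.find_spec hex
  have hmin : ∀ j < Nat.find hex, L.S (i + L.n - 1 - j) = true := fun j hj => by
    simpa using Nat.find_min hex hj
  have hle : Nat.find hex ≤ L.n - 1 := Nat.find_min' hex
    (by rw [show i + L.n - 1 - (L.n - 1) = i by omega]; exact h1)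
  have hpos : Nat.find hex ≠ 0 := by
    intro h0
    rw [h0, Nat.sub_zero, h2] at hl
    exact absurd hl (by simp)
  generalize Nat.find hex = l at hl hmin hle hpos
  have e0 : ∀ j, ((i + L.n - l) % L.n + j) % L.n = (i + L.n - l + j) % L.n := fun j =>
    Nat.ModEq.add_right j (Nat.mod_mod _ _)
  have hx : L.S ((i + L.n - l) % L.n) = true := by
    have := hmin (l - 1) (by omega)
    rw [show i + L.n - 1 - (l - 1) = i + L.n - l by omega] at this
    rw [L.h_S (Nat.mod_mod _ _)]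
    exact this
  have hlt : (i + L.n - l) % L.n < L.n := Nat.mod_lt _ (by omega)
  refine ⟨(i + L.n - l) % L.n, ⟨hlt, hx, ?_⟩, ?_⟩
  · have e1 : ((i + L.n - l) % L.n + L.n - 1) % L.n = (i + L.n - 1 - l) % L.n := by
      rw [show (i + L.n - l) % L.n + L.n - 1 = (i + L.n - l) % L.n + (L.n - 1) by omega, e0,
        show i + L.n - l + (L.n - 1) = i + L.n - 1 - l + L.n by omega, Nat.add_mod_right]
    rw [L.h_S e1]
    exact hl
  · have e2 : L.c ((i + L.n - l) % L.n) = (i + L.n - l) % L.n + l := by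
      apply le_antisymm
      · apply L.c_le_of (by omega)
        rw [L.h_S (e0 l), show i + L.n - l + l = i + L.n by omega, L.S_per]
        exact h1
      · by_contra hlt'
        have h3 := L.c_ge ((i + L.n - l) % L.n)
        obtain ⟨j, hj⟩ := Nat.exists_eq_add_of_le h3
        have h4 := c_SH (L := L) ((i + L.n - l) % L.n)
        rw [hj, L.h_S (e0 j)] at h4
        have h5 := hmin (l - 1 - j) (by omega)
        rw [show i + L.n - 1 - (l - 1 - j) = i + L.n - l + j by omega, h4] at h5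
        exact absurd h5 (by simp)
    rw [e2, e0, show i + L.n - l + l = i + L.n by omega, Nat.add_mod_right]

end LC

end Pool.Agent.MP42D
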