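import Pool.Agent.MP42.D.CombO

/-!
# Piece D: full lanes, tags, runs
-/

set_option autoImplicit false
set_option linter.unusedSectionVars false

namespace Pool.Agent.MP42D

lemma mem_opt {α : Type*} {b : Bool} {a x : α} : x ∈ opt b a ↔ b = true ∧ x = a := by
  cases b <;> simp [opt]

/-! ## The abstract words modulo the period -/

namespace LC

variable (A : LC)

lemma NL_iff (i : ℕ) : A.NL i = true ↔
    ∃ v, A.IsV v ∧ (A.cl v).1 = true ∧ A.w v % A.n = i % A.n := by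
  classical
  unfold NL; exact decide_eq_true_iff

lemma SL_iff (i : ℕ) : A.SL i = true ↔
    ∃ v, A.IsV v ∧ (A.cl v).2.1 = true ∧ A.c v % A.n = i % A.n := by
  classical
  unfold SL; exact decide_eq_true_iff

lemma NL_mod (i : ℕ) : A.NL (i % A.n) = A.NL i := by
  rw [Bool.eq_iff_iff, NL_iff, NL_iff, Nat.mod_mod]

lemma SL_mod (i : ℕ) : A.SL (i % A.n) = A.SL i := by
  rw [Bool.eq_iff_iff, SL_iff, SL_iff, Nat.mod_mod]

lemma tN_mod (i : ℕ) : A.tN (i % A.n) = A.tN i := by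
  unfold tN
  simp only [Nat.mod_mod]

lemma tS_mod (i : ℕ) : A.tS (i % A.n) = A.tS i := by
  unfold tS
  simp only [Nat.mod_mod]

lemma pickA_spec {p : ℕ → Prop} (h : ∃ v, A.IsV v ∧ p v) : A.IsV (A.pick p) ∧ p (A.pick p) := by
  unfold pick
  rw [dif_pos h]
  exact h.choose_spec

lemma NL_tN {i : ℕ} (h : A.NL i = true) : A.IsV (A.tN i) ∧ (A.cl (A.tN i)).1 = true ∧
    A.w (A.tN i) % A.n = i % A.n :=
  A.pickA_spec (p := fun v => (A.cl v).1 = true ∧ A.w v % A.n = i % A.n) ((A.NL_iff i).1 h)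

lemma SL_tS {i : ℕ} (h : A.SL i = true) : A.IsV (A.tS i) ∧ (A.cl (A.tS i)).2.1 = true ∧
    A.c (A.tS i) % A.n = i % A.n :=
  A.pickA_spec (p := fun v => (A.cl v).2.1 = true ∧ A.c v % A.n = i % A.n) ((A.SL_iff i).1 h)

/-- the number of the run of a full lane `n` -/
lemma tN_eq {i : ℕ} (h : A.NL i = true) : A.tN i % A.n = (i + 1) % A.n := by
  obtain ⟨h1, -, h2⟩ := A.NL_tN h
  have hn := A.n_pos
  have e : (A.w (A.tN i) + 1) % A.n = A.tN i % A.n := by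
    unfold w
    rw [show A.tN i + A.n - 1 + 1 = A.tN i + A.n by omega, Nat.add_mod_right]
  rw [← e, Nat.add_mod, h2, ← Nat.add_mod]

/-- the first corner of the run that ends at `i` -/
lemma pick_c {i v : ℕ} (hv : A.IsV v) (h : A.c v % A.n = i % A.n) :
    A.pick (fun v => A.c v % A.n = i % A.n) = v := by
  obtain ⟨h1, h2⟩ := A.pickA_spec (p := fun v => A.c v % A.n = i % A.n) ⟨v, hv, h⟩
  exact A.c_unique h1 hv (h2.trans h.symm)

lemma S_pred_of_c {i v : ℕ} (hv : A.IsV v) (h : A.c v % A.n = i % A.n) :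
    A.S (i + A.n - 1) = true := by
  have hn := A.n_pos
  have h1 := A.v_lt_c hv
  have h2 : A.S (A.c v - 1) = true := A.S_run (v := v) (by omega) (by omega)
  rw [← A.S_mod]
  have e : (i + A.n - 1) % A.n = (A.c v - 1) % A.n := by
    apply add_mod_inj hn
    rw [show i + A.n - 1 + 1 = i + A.n by omega, show A.c v - 1 + 1 = A.c v by omega,
      Nat.add_mod_right, h]
  rw [e, A.S_mod, h2]

lemma S_of_c {i v : ℕ} (h : A.c v % A.n = i % A.n) : A.S i = false := by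
  rw [← A.S_mod, ← h, A.S_mod, A.S_c]

/-- **D5** -/
theorem NL_SI {i : ℕ} (h : A.NL i = true) : A.S i = false ∧ A.S (i + 1) = true := by
  obtain ⟨v, hv, -, h1⟩ := (A.NL_iff i).1 h
  have hn := A.n_pos
  constructor
  · rw [← A.S_mod, ← h1, A.S_mod]
    exact hv.2.2
  · have e : (A.w v + 1) % A.n = (i + 1) % A.n := by
      rw [Nat.add_mod, h1, ← Nat.add_mod]
    rw [← A.S_mod, ← e, A.S_mod]
    unfold w
    rw [show v + A.n - 1 + 1 = v + A.n by omega, A.S_per]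
    exact hv.2.1

theorem SL_SI {i : ℕ} (h : A.SL i = true) : A.S i = false ∧ A.S (i + A.n - 1) = true := by
  obtain ⟨v, hv, -, h1⟩ := (A.SL_iff i).1 h
  exact ⟨A.S_of_c h1, A.S_pred_of_c hv h1⟩

/-- **D10** -/
theorem exists_runI {i : ℕ} (h1 : A.S i = false) (h2 : A.S (i + A.n - 1) = true) :
    ∃ v, A.IsV v ∧ A.c v % A.n = i % A.n := by
  have hn := A.hn
  have hex : ∃ t, 1 ≤ t ∧ A.S (i + A.n - t) = false := ⟨A.n, by omega, by
    rw [show i + A.n - A.n = i by omega]; exact h1⟩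
  obtain ⟨t, ht⟩ : ∃ t, t = Nat.find hex := ⟨_, rfl⟩
  have h3 : 1 ≤ t ∧ A.S (i + A.n - t) = false := by rw [ht]; exact Nat.find_spec hex
  have h4 : t ≤ A.n := by
    rw [ht]
    exact Nat.find_min' hex ⟨by omega, by rw [show i + A.n - A.n = i by omega]; exact h1⟩
  have h5 : ∀ s, 1 ≤ s → s < t → A.S (i + A.n - s) = true := by
    intro s hs hst
    have := Nat.find_min hex (m := s) (by omega)
    by_contra hne
    exact this ⟨hs, by simpa using hne⟩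
  have h6 : t ≠ 1 := by
    rintro rfl
    rw [h2] at h3
    exact absurd h3.2 (by decide)
  obtain ⟨v0, hv0⟩ : ∃ v0, v0 = i + A.n - t + 1 := ⟨_, rfl⟩
  have h7 : ∀ l, l + 1 < t → A.S (v0 + l) = true := by
    intro l hl
    have := h5 (t - 1 - l) (by omega) (by omega)
    rw [show i + A.n - (t - 1 - l) = v0 + l by omega] at this
    exact this
  have hmod : ∀ l, A.S (v0 % A.n + l) = A.S (v0 + l) := by
    intro l
    rw [← A.S_mod (v0 % A.n + l), Nat.mod_add_mod, A.S_mod]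
  have hv : A.IsV (v0 % A.n) := by
    refine ⟨Nat.mod_lt _ A.n_pos, ?_, ?_⟩
    · have := h7 0 (by omega)
      rw [← hmod 0] at this
      exact this
    · rw [show v0 % A.n + A.n - 1 = v0 % A.n + (A.n - 1) by omega, hmod,
        show v0 + (A.n - 1) = i + A.n - t + A.n by omega, A.S_per]
      exact h3.2
  refine ⟨v0 % A.n, hv, ?_⟩
  have hc : A.c (v0 % A.n) = v0 % A.n + (t - 1) := by
    unfold c
    congr 1
    rw [Nat.find_eq_iff]
    constructor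
    · rw [hmod, show v0 + (t - 1) = i + A.n by omega, A.S_per]
      exact h1
    · intro l hl
      rw [hmod, h7 l (by omega)]
      decide
  rw [hc, Nat.mod_add_mod, show v0 + (t - 1) = i + A.n by omega, Nat.add_mod_right]

/-! ## Tags -/

lemma tagM {s : Fin 4} {y : ℤ} (h : A.K.M s y = true) : A.IsV (A.K.tM s y) :=
  (A.pickA_spec ((A.M_iff s y).1 h)).1

lemma tagC {s : Fin 4} {y : ℤ} (h : A.K.cn s y = true ∨ A.K.cs s y = true) :
    A.IsV (A.K.tC s y) := by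
  refine (A.pickA_spec (p := fun v => A.isC s true y v ∨ A.isC s false y v) ?_).1
  rcases h with h | h
  · obtain ⟨v, hv, h1⟩ := (A.cn_iff s y).1 h
    exact ⟨v, hv, Or.inl h1⟩
  · obtain ⟨v, hv, h1⟩ := (A.cs_iff s y).1 h
    exact ⟨v, hv, Or.inr h1⟩

lemma tagb {y : ℤ} (h : A.K.fN y = true ∨ A.K.fS y = true) : A.IsV (A.K.tb y) := by
  refine (A.pickA_spec (p := fun v => A.isFN y v ∨ A.isFS y v) ?_).1
  rcases h with h | h
  · obtain ⟨v, hv, h1⟩ := (A.fN_iff y).1 h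
    exact ⟨v, hv, Or.inl h1⟩
  · obtain ⟨v, hv, h1⟩ := (A.fS_iff y).1 h
    exact ⟨v, hv, Or.inr h1⟩

lemma tagv {y : ℤ} (h : A.K.gS y = true ∨ A.K.gN y = true) : A.IsV (A.K.tv y) := by
  refine (A.pickA_spec (p := fun v => A.isGS y v ∨ A.isGN y v) ?_).1
  rcases h with h | h
  · obtain ⟨v, hv, h1⟩ := (A.gS_iff y).1 h
    exact ⟨v, hv, Or.inl h1⟩
  · obtain ⟨v, hv, h1⟩ := (A.gN_iff y).1 h
    exact ⟨v, hv, Or.inr h1⟩

lemma tag_ct {y : ℤ} {p : Bool × ℕ} (h : p ∈ A.K.ct y) : A.IsV p.2 := by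
  unfold KD.ct at h
  simp only [List.mem_append, mem_opt] at h
  rcases h with ((⟨h, rfl⟩ | ⟨h, rfl⟩) | ⟨h, rfl⟩) | ⟨h, rfl⟩
  · exact A.tagC (Or.inl h)
  · exact A.tagC (Or.inr h)
  · exact A.tagC (Or.inl h)
  · exact A.tagC (Or.inr h)

lemma tag_cts {y : ℤ} {l : ℕ} {p : Bool × ℕ} (h : p ∈ A.K.cts y l) : A.IsV p.2 := by
  unfold KD.cts at h
  rw [List.mem_flatMap] at h
  obtain ⟨i, -, h⟩ := h
  exact A.tag_ct h

lemma tag_xw {u w : ℤ} {p : Bool × ℕ} (h : p ∈ A.K.xw u w) : A.IsV p.2 := by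
  have kM : ∀ {s : Fin 4} {y : ℤ} {b : Bool}, (A.K.M s y && b) = true → A.IsV (A.K.tM s y) :=
    fun h => A.tagM (Bool.and_eq_true_iff.1 h).1
  have h1 : ∀ w, p ∈ A.K.opA w → A.IsV p.2 := by
    intro w h
    unfold KD.opA sl4 at h
    simp only [List.mem_append, mem_opt] at h
    rcases h with ((⟨k, rfl⟩ | ⟨k, rfl⟩) | ⟨k, rfl⟩) | ⟨k, rfl⟩ <;> exact kM k
  have h2 : ∀ w, p ∈ A.K.clA w → A.IsV p.2 := by
    intro w h
    unfold KD.clA ls4 at h
    simp only [List.mem_append, mem_opt] at h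
    rcases h with ((⟨k, rfl⟩ | ⟨k, rfl⟩) | ⟨k, rfl⟩) | ⟨k, rfl⟩ <;> exact kM k
  have h3 : ∀ w, p ∈ A.K.opB w → A.IsV p.2 := by
    intro w h
    unfold KD.opB ls4 at h
    simp only [List.mem_append, mem_opt] at h
    rcases h with ((⟨k, rfl⟩ | ⟨k, rfl⟩) | ⟨k, rfl⟩) | ⟨k, rfl⟩ <;> exact kM k
  have h4 : ∀ w, p ∈ A.K.clB w → A.IsV p.2 := by
    intro w h
    unfold KD.clB sl4 at h
    simp only [List.mem_append, mem_opt] at h
    rcases h with ((⟨k, rfl⟩ | ⟨k, rfl⟩) | ⟨k, rfl⟩) | ⟨k, rfl⟩ <;> exact kM k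
  unfold KD.xw at h
  split_ifs at h with k1 k2
  · simp only [List.mem_append] at h
    rcases h with (h | h) | h
    · exact h1 _ h
    · exact A.tag_cts h
    · exact h2 _ h
  · simp only [List.mem_append, List.mem_reverse] at h
    rcases h with (h | h) | h
    · exact h3 _ h
    · exact A.tag_cts h
    · exact h4 _ h
  · simp at h

lemma tag_cw {i : ℕ} {p : Bool × ℕ} (h : p ∈ A.cw i) : A.IsV p.2 := by
  have kb1 : ∀ {y : ℤ} {b : Bool}, (b && A.K.fS y) = true → A.IsV (A.K.tb y) :=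
    fun h => A.tagb (Or.inr (Bool.and_eq_true_iff.1 h).2)
  have kb2 : ∀ {y : ℤ} {b : Bool}, (b && A.K.fN y) = true → A.IsV (A.K.tb y) :=
    fun h => A.tagb (Or.inl (Bool.and_eq_true_iff.1 h).2)
  have kv1 : ∀ {y : ℤ} {b : Bool}, (b && A.K.gS y) = true → A.IsV (A.K.tv y) :=
    fun h => A.tagv (Or.inl (Bool.and_eq_true_iff.1 h).2)
  have kv2 : ∀ {y : ℤ} {b : Bool}, (b && A.K.gN y) = true → A.IsV (A.K.tv y) :=
    fun h => A.tagv (Or.inr (Bool.and_eq_true_iff.1 h).2)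
  unfold cw at h
  simp only [List.mem_append, mem_opt] at h
  rcases h with ((((((⟨k, rfl⟩ | ⟨k, rfl⟩) | ⟨k, rfl⟩) | ((⟨k, rfl⟩ | ⟨k, rfl⟩) | ⟨k, rfl⟩)) | h) |
    ((⟨k, rfl⟩ | ⟨k, rfl⟩) | ⟨k, rfl⟩)) | ((⟨k, rfl⟩ | ⟨k, rfl⟩) | ⟨k, rfl⟩))
  · exact (A.SL_tS k).1
  · exact kb1 k
  · exact kv1 k
  · exact (A.NL_tN k).1
  · exact kv2 k
  · exact kb2 k
  · exact A.tag_xw h
  · exact (A.NL_tN k).1
  · exact kv2 k
  · exact kb2 k
  · exact (A.SL_tS k).1
  · exact kb1 k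
  · exact kv1 k

/-- **D9** -/
theorem cw_tagI {i : ℕ} {b : Bool} {v : ℕ} (h : (b, v) ∈ A.cw i) : A.IsV v := A.tag_cw h

end LC

end Pool.Agent.MP42D
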