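import Pool.Agent.MP42.D.CombH4
import Pool.Agent.MP42.D.CombI

/-!
# Piece D4: the pieces of a closing are linked
-/

set_option autoImplicit false
set_option linter.unusedSectionVars false

namespace Pool.Agent.MP42D

/-! ### letters in the words of the walls -/

namespace KD

variable {τ : Type*} {K : KD τ}

lemma in_opA {s : Fin 4} {w : ℤ} (h1 : K.M s (w - 1) = true) (h2 : K.M s w = false) :
    (true, K.tM s (w - 1)) ∈ K.opA w := by
  unfold opA sl4
  fin_cases s <;> simp_all [opt]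

lemma in_clA {s : Fin 4} {u : ℤ} (h1 : K.M s u = true) (h2 : K.M s (u - 1) = false) :
    (false, K.tM s u) ∈ K.clA u := by
  unfold clA ls4
  fin_cases s <;> simp_all [opt]

lemma in_opB {s : Fin 4} {w : ℤ} (h1 : K.M s w = true) (h2 : K.M s (w - 1) = false) :
    (true, K.tM s w) ∈ K.opB w := by
  unfold opB ls4
  fin_cases s <;> simp_all [opt]

lemma in_clB {s : Fin 4} {u : ℤ} (h1 : K.M s (u - 1) = true) (h2 : K.M s u = false) :
    (false, K.tM s (u - 1)) ∈ K.clB u := by
  unfold clB sl4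
  fin_cases s <;> simp_all [opt]

lemma in_cts {w u y : ℤ} {z : Bool × τ} (h1 : w ≤ y) (h2 : y < u) (hz : z ∈ K.ct y) :
    z ∈ K.cts w (u - w).toNat := by
  unfold cts
  rw [List.mem_flatMap]
  refine ⟨(y - w).toNat, ?_, ?_⟩
  · rw [List.mem_range]
    omega
  · have : w + ((y - w).toNat : ℤ) = y := by omega
    rw [this]
    exact hz

/-- a letter in the word of the walls of a corner: of a track or a single letter -/
lemma xw_mem {u w : ℤ} {z : Bool × τ} (hz : z ∈ K.xw u w) :
    (∃ s y, K.M s y = true ∧ z.2 = K.tM s y) ∨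
      ∃ s y, (K.cn s y = true ∨ K.cs s y = true) ∧ z.2 = K.tC s y := by
  have hct : ∀ y, z ∈ K.ct y → ∃ s y, (K.cn s y = true ∨ K.cs s y = true) ∧ z.2 = K.tC s y := by
    intro y h
    unfold ct at h
    simp only [List.mem_append, mem_opt] at h
    rcases h with ((⟨h, rfl⟩ | ⟨h, rfl⟩) | ⟨h, rfl⟩) | ⟨h, rfl⟩
    · exact ⟨1, y, Or.inl h, rfl⟩
    · exact ⟨2, y, Or.inr h, rfl⟩
    · exact ⟨2, y, Or.inl h, rfl⟩
    · exact ⟨1, y, Or.inr h, rfl⟩
  have hcts : ∀ y l, z ∈ K.cts y l →
      ∃ s y, (K.cn s y = true ∨ K.cs s y = true) ∧ z.2 = K.tC s y := by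
    intro y l h
    unfold cts at h
    rw [List.mem_flatMap] at h
    obtain ⟨i, -, h⟩ := h
    exact hct _ h
  have ho : ∀ {s : Fin 4} {y : ℤ} {x b : Bool}, z ∈ opt (K.M s y && b) (x, K.tM s y) →
      ∃ s y, K.M s y = true ∧ z.2 = K.tM s y := by
    intro s y x b h
    rw [mem_opt, Bool.and_eq_true] at h
    exact ⟨s, y, h.1.1, by rw [h.2]⟩
  unfold xw at hz
  split_ifs at hz with h1 h2
  · rw [List.mem_append, List.mem_append] at hz
    rcases hz with (hz | hz) | hz
    · left
      unfold opA sl4 at hz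
      simp only [List.mem_append] at hz
      rcases hz with ((hz | hz) | hz) | hz <;> exact ho hz
    · exact Or.inr (hcts _ _ hz)
    · left
      unfold clA ls4 at hz
      simp only [List.mem_append] at hz
      rcases hz with ((hz | hz) | hz) | hz <;> exact ho hz
  · rw [List.mem_append, List.mem_append, List.mem_reverse] at hz
    rcases hz with (hz | hz) | hz
    · left
      unfold opB ls4 at hz
      simp only [List.mem_append] at hz
      rcases hz with ((hz | hz) | hz) | hz <;> exact ho hz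
    · exact Or.inr (hcts _ _ hz)
    · left
      unfold clB sl4 at hz
      simp only [List.mem_append] at hz
      rcases hz with ((hz | hz) | hz) | hz <;> exact ho hz
  · exact absurd hz (by simp)

end KD

namespace LC

variable {L : LC}

/-! ### uniqueness of tags -/

lemma tC_eqH {s : Fin 4} {y : ℤ} {l : Bool} {v : ℕ} (hv : L.IsV v) (h : L.isC s l y v) :
    L.K.tC s y = v := by
  have h' : L.isC s true y v ∨ L.isC s false y v := by
    cases l
    · exact Or.inr h
    · exact Or.inl h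
  obtain ⟨h1, h2⟩ := L.pickA_spec (p := fun v => L.isC s true y v ∨ L.isC s false y v) ⟨v, hv, h'⟩
  exact L.uC h1 hv h2 h'

lemma cn_H {s : Fin 4} {y : ℤ} {v : ℕ} (hv : L.IsV v) (h : L.isC s true y v) :
    L.K.cn s y = true := (L.cn_iff s y).mpr ⟨v, hv, h⟩

lemma cs_H {s : Fin 4} {y : ℤ} {v : ℕ} (hv : L.IsV v) (h : L.isC s false y v) :
    L.K.cs s y = true := (L.cs_iff s y).mpr ⟨v, hv, h⟩

lemma M_H {s : Fin 4} {y : ℤ} {v : ℕ} (hv : L.IsV v) (h : L.isM s y v) :
    L.K.M s y = true := (L.M_iff s y).mpr ⟨v, hv, h⟩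

/-- no track of the same slot directly after a track -/
lemma M_after {s : Fin 4} {y1 y2 : ℤ} {v : ℕ} (hv : L.IsV v)
    (h : (L.cl v).2.2 = Pc.trk s y1 y2) (h12 : y1 < y2) : L.K.M s y2 = false := by
  rw [← Bool.not_eq_true]
  intro hM
  obtain ⟨v', hv', h'⟩ := (L.M_iff s y2).mp hM
  have e : v = v' := L.M_uniq (y := y2 - 1) (y' := y2) hv hv' ⟨y1, y2, h, by omega, by omega⟩ h'
    (by omega) (by omega)
  subst e
  obtain ⟨z1, z2, h2, h3, h4⟩ := h'
  rw [h] at h2
  injection h2 with e1 e2 e3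
  omega

lemma M_before {s : Fin 4} {y1 y2 : ℤ} {v : ℕ} (hv : L.IsV v)
    (h : (L.cl v).2.2 = Pc.trk s y1 y2) (h12 : y1 < y2) : L.K.M s (y1 - 1) = false := by
  rw [← Bool.not_eq_true]
  intro hM
  obtain ⟨v', hv', h'⟩ := (L.M_iff s (y1 - 1)).mp hM
  have e : v = v' := L.M_uniq (y := y1) (y' := y1 - 1) hv hv' ⟨y1, y2, h, by omega, by omega⟩ h'
    (by omega) (by omega)
  subst e
  obtain ⟨z1, z2, h2, h3, h4⟩ := h'
  rw [h] at h2
  injection h2 with e1 e2 e3
  omega

/-! ### the values -/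

section

variable (V : L.K.Val L.on) (vS : ℕ → Prop)

/-- the value of the piece of a closing -/
def PV (t : ℕ) : Prop :=
  match (L.cl t).2.2 with
  | Pc.none => vS (L.c t)
  | Pc.trk s y1 _ => V.M s y1
  | Pc.ctc s _ y => V.C s y
  | Pc.bump X _ _ => V.fN X
  | Pc.valley Y _ _ => V.gN Y

variable {V}

lemma PV_trk {t : ℕ} (ht : L.IsV t) {s : Fin 4} {y1 y2 : ℤ} (h : (L.cl t).2.2 = Pc.trk s y1 y2)
    {y : ℤ} (h1 : y1 ≤ y) : y < y2 → (V.M s y ↔ PV V vS t) := by
  have hM : ∀ y, y1 ≤ y → y < y2 → L.K.M s y = true := fun y h1 h2 => M_H ht ⟨y1, y2, h, h1, h2⟩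
  have e : PV V vS t ↔ V.M s y1 := by
    unfold PV
    rw [h]
  rw [e]
  induction y, h1 using Int.le_induction with
  | base => exact fun _ => Iff.rfl
  | succ y hy ih =>
    intro h2
    have h3 := V.M_st s (y + 1) (by rw [add_sub_cancel_right]; exact hM y hy (by omega))
      (hM (y + 1) (by omega) h2)
    rw [add_sub_cancel_right] at h3
    exact h3.symm.trans (ih (by omega))

lemma PV_ctc {t : ℕ} {s : Fin 4} {l : Bool} {y : ℤ}
    (h : (L.cl t).2.2 = Pc.ctc s l y) : V.C s y ↔ PV V vS t := by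
  unfold PV
  rw [h]

lemma PV_X {t : ℕ} {x : Bool} {a : Prop} {u w : ℤ}
    (h : (x, t, a) ∈ (L.K.withV V).xw u w) : a ↔ PV V vS t := by
  rcases KD.xw_mem h with ⟨s, y, h1, h2⟩ | ⟨s, y, h1, h2⟩
  · change L.K.M s y = true at h1
    change (t, a) = (L.K.tM s y, V.M s y) at h2
    injection h2 with e1 e2
    obtain ⟨v, hv, h3⟩ := (L.M_iff s y).mp h1
    have e3 := L.tM_eq hv h3
    obtain ⟨y1, y2, h4, h5, h6⟩ := h3
    rw [e3] at e1
    subst e1 e2
    exact PV_trk vS hv h4 h5 h6
  · change L.K.cn s y = true ∨ L.K.cs s y = true at h1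
    change (t, a) = (L.K.tC s y, V.C s y) at h2
    injection h2 with e1 e2
    obtain ⟨l, v, hv, h3⟩ : ∃ l v, L.IsV v ∧ L.isC s l y v := by
      rcases h1 with h1 | h1
      · obtain ⟨v, hv, h3⟩ := (L.cn_iff s y).mp h1
        exact ⟨true, v, hv, h3⟩
      · obtain ⟨v, hv, h3⟩ := (L.cs_iff s y).mp h1
        exact ⟨false, v, hv, h3⟩
    have e3 := tC_eqH hv h3
    rw [e3] at e1
    subst e1 e2
    exact PV_ctc vS h3

lemma on_H {y : ℤ} (h1 : L.lo ≤ y) (h2 : y < L.hi) : L.on y = true := (L.on_iff y).mpr ⟨h1, h2⟩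

lemma aw_stripH {i : ℕ} (hm : L.m ≤ i) (hi : i < L.n) {y : ℤ} (h1 : L.yu (i + 1) ≤ y)
    (h2 : y < L.yw i) : L.K.aw y = false := by
  rw [← Bool.not_eq_true]
  intro h
  have h3 : ∃ i < L.n, L.yw i ≤ y ∧ y < L.yu i := by
    classical
    exact of_decide_eq_true h
  obtain ⟨j, -, h4, h5⟩ := h3
  exact stripA_wall hm hi h1 h2 h4 h5

lemma bw_stripH {i : ℕ} (hi : i < L.m) {y : ℤ} (h1 : L.yw i ≤ y)
    (h2 : y < L.yu (i + 1)) : L.K.bw y = false := by
  rw [← Bool.not_eq_true]
  intro h
  have h3 : ∃ i < L.n, L.yu i ≤ y ∧ y < L.yw i := by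
    classical
    exact of_decide_eq_true h
  obtain ⟨j, -, h4, h5⟩ := h3
  exact stripB_wall hi h1 h2 h4 h5

/-- the lane `n` of a bump -/
lemma PV_fN {v P C : ℕ} (hv : L.IsV v) (h : Bu L v P C) : V.fN (L.yu P) ↔ PV V vS v := by
  have e : PV V vS v ↔ V.fN (max (L.yu P) (L.yw C)) := by
    unfold PV
    rw [h.cl]
  have h1 := h.hb.mv
  have h2 := h.hb.vn
  have hXw := h.Xw
  have hs : P - 1 + 1 = P := by omega
  have key : ∀ y, L.yu P ≤ y → y ≤ max (L.yu P) (L.yw C) → (V.fN (L.yu P) ↔ V.fN y) := by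
    intro y hy
    induction y, hy using Int.le_induction with
    | base => exact fun _ => Iff.rfl
    | succ y hy ih =>
      intro h3
      have r1 := L.ru P
      have r2 := L.rw (P - 1)
      have h4 := V.fN_st y (on_H (by omega) (by omega))
        (aw_stripH (i := P - 1) (by omega) (by omega) (by rw [hs]; exact hy) (by omega))
        ((L.fN_iff (y + 1)).mpr ⟨v, hv, _, _, _, by rw [h.cl], by omega, h3⟩)
      exact (ih (by omega)).trans h4.symm
  rw [e]
  exact key _ (le_max_left _ _) le_rfl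

/-- the lane `s` of a bump -/
lemma PV_fS {v P C : ℕ} (hv : L.IsV v) (h : Bu L v P C) : V.fS (L.yw C) ↔ PV V vS v := by
  have e : PV V vS v ↔ V.fN (max (L.yu P) (L.yw C)) := by
    unfold PV
    rw [h.cl]
  have h1 := h.hb.cm
  have hXa := h.Xa
  have key : ∀ y, L.yw C ≤ y → y ≤ max (L.yu P) (L.yw C) → (V.fS (L.yw C) ↔ V.fS y) := by
    intro y hy
    induction y, hy using Int.le_induction with
    | base => exact fun _ => Iff.rfl
    | succ y hy ih =>
      intro h3
      have r1 := L.rw C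
      have r2 := L.ru (C + 1)
      have h4 := V.fS_st y (on_H (by omega) (by omega))
        (bw_stripH (i := C) h1 hy (by omega))
        ((L.fS_iff (y + 1)).mpr ⟨v, hv, _, _, _, by rw [h.cl], by omega, h3⟩)
      exact (ih (by omega)).trans h4.symm
  rw [e]
  have h5 := V.bp (max (L.yu P) (L.yw C)) ((L.bp_iff _).mpr ⟨v, hv, _, _, by rw [h.cl]⟩)
  exact (key _ (le_max_right _ _) le_rfl).trans h5.symm

/-- the lane `n` of a valley -/
lemma PV_gN {v C : ℕ} (hv : L.IsV v) (h : Va L v C) : V.gN (L.yu v) ↔ PV V vS v := by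
  have e : PV V vS v ↔ V.gN (min (L.yw C) (L.yu v)) := by
    unfold PV
    rw [h.cl]
  have h1 := h.ht.sg.v0
  have h2 := h.ht.vm
  have hYw := h.Yw
  have hs : v - 1 + 1 = v := by omega
  have key : ∀ y, min (L.yw C) (L.yu v) ≤ y → y ≤ L.yu v →
      (V.gN y ↔ V.gN (min (L.yw C) (L.yu v))) := by
    intro y hy
    induction y, hy using Int.le_induction with
    | base => exact fun _ => Iff.rfl
    | succ y hy ih =>
      intro h3
      have r1 := L.rw (v - 1)
      have r2 := L.ru v
      have h4 := V.gN_st y (on_H (by omega) (by omega))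
        (bw_stripH (i := v - 1) (by omega) (by omega) (by rw [hs]; omega))
        ((L.gN_iff y).mpr ⟨v, hv, _, _, _, by rw [h.cl], hy, by omega⟩)
      exact h4.trans (ih (by omega))
  rw [e]
  exact key _ (min_le_right _ _) le_rfl

/-- the lane `s` of a valley -/
lemma PV_gS {v C : ℕ} (hv : L.IsV v) (h : Va L v C) : V.gS (L.yw C) ↔ PV V vS v := by
  have e : PV V vS v ↔ V.gN (min (L.yw C) (L.yu v)) := by
    unfold PV
    rw [h.cl]
  have h1 := h.ht.mc
  have h2 := h.ht.cn
  have hYa := h.Ya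
  have key : ∀ y, min (L.yw C) (L.yu v) ≤ y → y ≤ L.yw C →
      (V.gS y ↔ V.gS (min (L.yw C) (L.yu v))) := by
    intro y hy
    induction y, hy using Int.le_induction with
    | base => exact fun _ => Iff.rfl
    | succ y hy ih =>
      intro h3
      have r1 := L.ru (C + 1)
      have r2 := L.rw C
      have h4 := V.gS_st y (on_H (by omega) (by omega))
        (aw_stripH (i := C) h1 h2 (by omega) (by omega))
        ((L.gS_iff y).mpr ⟨v, hv, _, _, _, by rw [h.cl], hy, by omega⟩)
      exact h4.trans (ih (by omega))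
  rw [e]
  have h5 := V.vl (min (L.yw C) (L.yu v) - 1) ((L.vl_iff _).mpr ⟨v, hv, _, _, by
    rw [h.cl, sub_add_cancel]⟩)
  rw [sub_add_cancel] at h5
  exact (key _ (min_le_left _ _) le_rfl).trans h5.symm

/-! ### the letters at the ends of a piece -/

lemma xw_A {τ : Type*} {K : KD τ} {u w : ℤ} (h : w < u) :
    K.xw u w = K.opA w ++ K.cts w (u - w).toNat ++ K.clA u := by
  unfold KD.xw
  rw [if_pos h]

lemma xw_B {τ : Type*} {K : KD τ} {u w : ℤ} (h : u < w) :
    K.xw u w = K.opB w ++ (K.cts u (w - u).toNat).reverse ++ K.clB u := by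
  unfold KD.xw
  rw [if_neg (by omega), if_pos h]

/-- single letters are in the slots 1 and 2 -/
lemma Sp.slot {t : ℕ} {k : Kd} (h : k.qA = !k.pA) : k.sl = 1 ∨ k.sl = 2 := by
  cases k <;> simp_all [Kd.qA, Kd.pA, Kd.sl]

lemma ct_inH {t : ℕ} (ht : L.IsV t) {s : Fin 4} {l : Bool} {y : ℤ}
    (hs : s = 1 ∨ s = 2) (h : L.isC s l y t) :
    (l, t, V.C s y) ∈ (L.K.withV V).ct y := by
  have e := tC_eqH ht h
  have e' : (L.K.withV V).tC s y = (t, V.C s y) := by
    change (L.K.tC s y, V.C s y) = _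
    rw [e]
  unfold KD.ct
  simp only [List.mem_append, mem_opt]
  cases l
  · have h1 : (L.K.withV V).cs s y = true := cs_H ht h
    rcases hs with rfl | rfl
    · exact Or.inr ⟨h1, by rw [e']⟩
    · exact Or.inl (Or.inl (Or.inr ⟨h1, by rw [e']⟩))
  · have h1 : (L.K.withV V).cn s y = true := cn_H ht h
    rcases hs with rfl | rfl
    · exact Or.inl (Or.inl (Or.inl ⟨h1, by rw [e']⟩))
    · exact Or.inl (Or.inr ⟨h1, by rw [e']⟩)

/-- the letter at the lower end -/
lemma X_P {t : ℕ} {k : Kd} (ht : L.IsV t) (h : Sp L t k) {i : ℕ}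
    (hi : k.P.ix L t % L.n = i % L.n) :
    ∃ a, (k.P.x, t, a) ∈ (L.K.withV V).xw (L.yu i) (L.yw i) := by
  have eu := L.h_u hi
  have ew := L.h_w hi
  have hp := h.p
  have hx := k.P_x
  rcases h.pc with ⟨y1, y2, h1, h2, -, -, h3, -⟩ | ⟨y, h1, h2, h3, h4, -, -⟩
  · have hM : L.K.M k.sl y1 = true := M_H ht ⟨y1, y2, h1, le_rfl, h3⟩
    have hM' := M_before ht h1 h3
    have e := L.tM_eq ht (s := k.sl) (y := y1) ⟨y1, y2, h1, le_rfl, h3⟩
    refine ⟨V.M k.sl y1, ?_⟩
    rw [hx]
    cases hA : k.pA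
    · rw [hA] at h2 hp
      change L.yu _ < L.yw _ at hp
      change y1 = L.yw _ at h2
      rw [xw_B (by omega)]
      have := KD.in_opB (K := L.K.withV V) hM hM'
      change (true, L.K.tM k.sl y1, V.M k.sl y1) ∈ _ at this
      rw [e] at this
      rw [ew] at h2
      rw [← h2]
      exact List.mem_append_left _ (List.mem_append_left _ this)
    · rw [hA] at h2 hp
      change L.yw _ < L.yu _ at hp
      change y1 = L.yu _ at h2
      rw [xw_A (by omega)]
      have := KD.in_clA (K := L.K.withV V) hM hM'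
      change (false, L.K.tM k.sl y1, V.M k.sl y1) ∈ _ at this
      rw [e] at this
      rw [eu] at h2
      rw [← h2]
      exact List.mem_append_right _ this
  · refine ⟨V.C k.sl y, ?_⟩
    have hct := ct_inH (V := V) ht (Sp.slot (t := t) h2) h1
    rw [hx]
    cases hA : k.pA
    · rw [hA] at h3 h4 hp hct
      change L.yu _ < L.yw _ at hp
      change L.yu _ ≤ y at h3
      change y < L.yw _ at h4
      rw [xw_B (by omega)]
      exact List.mem_append_left _ (List.mem_append_right _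
        (List.mem_reverse.mpr (KD.in_cts (by omega) (by omega) hct)))
    · rw [hA] at h3 h4 hp hct
      change L.yw _ < L.yu _ at hp
      change L.yw _ ≤ y at h3
      change y < L.yu _ at h4
      rw [xw_A (by omega)]
      exact List.mem_append_left _ (List.mem_append_right _
        (KD.in_cts (by omega) (by omega) hct))

/-- the letter at the upper end -/
lemma X_Q {t : ℕ} {k : Kd} (ht : L.IsV t) (h : Sp L t k) {i : ℕ}
    (hi : k.Q.ix L t % L.n = i % L.n) :
    ∃ a, (k.Q.x, t, a) ∈ (L.K.withV V).xw (L.yu i) (L.yw i) := by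
  have eu := L.h_u hi
  have ew := L.h_w hi
  have hq := h.q
  have hx := k.Q_x
  rcases h.pc with ⟨y1, y2, h1, -, h2, -, h3, -⟩ | ⟨y, h1, h2, -, -, h3, h4⟩
  · have hM : L.K.M k.sl (y2 - 1) = true := M_H ht ⟨y1, y2, h1, by omega, by omega⟩
    have hM' := M_after ht h1 h3
    have e := L.tM_eq ht (s := k.sl) (y := y2 - 1) ⟨y1, y2, h1, by omega, by omega⟩
    refine ⟨V.M k.sl (y2 - 1), ?_⟩
    rw [hx]
    cases hA : k.qA
    · rw [hA] at h2 hq
      change L.yu _ < L.yw _ at hq
      change y2 = L.yu _ at h2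
      rw [xw_B (by omega)]
      have := KD.in_clB (K := L.K.withV V) hM hM'
      change (false, L.K.tM k.sl (y2 - 1), V.M k.sl (y2 - 1)) ∈ _ at this
      rw [e] at this
      rw [eu] at h2
      rw [← h2]
      exact List.mem_append_right _ this
    · rw [hA] at h2 hq
      change L.yw _ < L.yu _ at hq
      change y2 = L.yw _ at h2
      rw [xw_A (by omega)]
      have := KD.in_opA (K := L.K.withV V) hM hM'
      change (true, L.K.tM k.sl (y2 - 1), V.M k.sl (y2 - 1)) ∈ _ at this
      rw [e] at this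
      rw [ew] at h2
      rw [← h2]
      exact List.mem_append_left _ (List.mem_append_left _ this)
  · refine ⟨V.C k.sl y, ?_⟩
    have hct := ct_inH (V := V) ht (Sp.slot (t := t) h2) h1
    rw [← h2] at hct
    rw [hx]
    cases hA : k.qA
    · rw [hA] at h3 h4 hq hct
      change L.yu _ < L.yw _ at hq
      change L.yu _ ≤ y at h3
      change y < L.yw _ at h4
      rw [xw_B (by omega)]
      exact List.mem_append_left _ (List.mem_append_right _
        (List.mem_reverse.mpr (KD.in_cts (by omega) (by omega) hct)))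
    · rw [hA] at h3 h4 hq hct
      change L.yw _ < L.yu _ at hq
      change L.yw _ ≤ y at h3
      change y < L.yu _ at h4
      rw [xw_A (by omega)]
      exact List.mem_append_left _ (List.mem_append_right _
        (KD.in_cts (by omega) (by omega) hct))

/-- if the strip `c` has a full lane: the letter `n` of the piece at the corner `a` -/
lemma X_a {t : ℕ} {k : Kd} (ht : L.IsV t) (h : Sp L t k) (hS : k.bS = true) {i : ℕ}
    (hi : L.a t % L.n = i % L.n) :
    ∃ a, (true, t, a) ∈ (L.K.withV V).xw (L.yu i) (L.yw i) := by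
  have h1 : k.P = Rl.a ∨ k.Q = Rl.a := by cases k <;> simp_all [Kd.bS, Kd.P, Kd.Q]
  rcases h1 with h1 | h1
  · have := X_P (V := V) ht h (i := i) (by rw [h1]; exact hi)
    rw [h1] at this
    exact this
  · have := X_Q (V := V) ht h (i := i) (by rw [h1]; exact hi)
    rw [h1] at this
    exact this

/-- if the strip `w` has a full lane: the letter `s` of the piece at the corner `w` -/
lemma X_w {t : ℕ} {k : Kd} (ht : L.IsV t) (h : Sp L t k) (hN : k.bN = true) {i : ℕ}
    (hi : L.w t % L.n = i % L.n) :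
    ∃ a, (false, t, a) ∈ (L.K.withV V).xw (L.yu i) (L.yw i) := by
  have h1 : k.P = Rl.w ∨ k.Q = Rl.w := by cases k <;> simp_all [Kd.bN, Kd.P, Kd.Q]
  rcases h1 with h1 | h1
  · have := X_P (V := V) ht h (i := i) (by rw [h1]; exact hi)
    rw [h1] at this
    exact this
  · have := X_Q (V := V) ht h (i := i) (by rw [h1]; exact hi)
    rw [h1] at this
    exact this

end

end LC

end Pool.Agent.MP42D
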