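import Pool.Agent.MP42.D.CombI

/-!
# Piece D: where the lanes of the bumps and valleys are
-/

set_option autoImplicit false
set_option linter.unusedSectionVars false

namespace Pool.Agent.MP42D

namespace LC

variable (L : LC)

lemma bpI {X yA yB : ℤ} {v : ℕ} (hv : L.IsV v) (h : (L.cl v).2.2 = Pc.bump X yA yB) :
    ∃ v' c, v = v' % L.n ∧ L.Hb v' c ∧ L.c v % L.n = c ∧ L.w v % L.n = v' - 1 ∧
      (L.cl v).1 = false ∧ (L.cl v).2.1 = false ∧ yA = L.yu v' ∧ yB = L.yw c ∧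
      L.yu v' ≤ L.yu (c + 1) ∧ L.yw c ≤ L.yw (v' - 1) ∧ X = max (L.yu v') (L.yw c) ∧
      X < L.yw (v' - 1) ∧ X < L.yu (c + 1) := by
  have ht := L.ty hv
  obtain ⟨r, hr⟩ : ∃ r, r = L.cl v := ⟨_, rfl⟩
  rw [← hr] at ht h ⊢
  obtain ⟨x1, x2, p⟩ := r
  simp only at h
  subst h
  generalize L.c v % L.n = c' at ht ⊢
  generalize L.w v % L.n = w' at ht ⊢
  cases ht with
  | b3 h h0 h3 hX h4 h5 =>
    exact ⟨_, _, rfl, h, rfl, rfl, rfl, rfl, rfl, rfl, h0, h3, hX, h4, h5⟩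

lemma vlI {Y yA yB : ℤ} {v : ℕ} (hv : L.IsV v) (h : (L.cl v).2.2 = Pc.valley Y yA yB) :
    ∃ c, L.Ht v c ∧ L.c v % L.n = c ∧ L.w v % L.n = v - 1 ∧
      (L.cl v).1 = false ∧ (L.cl v).2.1 = false ∧ yA = L.yw c ∧ yB = L.yu v ∧
      L.yw (v - 1) ≤ L.yw c ∧ L.yu (c + 1) ≤ L.yu v ∧ Y = min (L.yw c) (L.yu v) ∧
      L.yw (v - 1) < Y ∧ L.yu (c + 1) < Y := by
  have ht := L.ty hv
  obtain ⟨r, hr⟩ : ∃ r, r = L.cl v := ⟨_, rfl⟩
  rw [← hr] at ht h ⊢
  obtain ⟨x1, x2, p⟩ := r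
  simp only at h
  subst h
  generalize L.c v % L.n = c' at ht ⊢
  generalize L.w v % L.n = w' at ht ⊢
  cases ht with
  | t3 h h0 h3 hX h4 h5 => exact ⟨_, h, rfl, rfl, rfl, rfl, rfl, rfl, h0, h3, hX, h4, h5⟩

/-! ## Strips -/

lemma sB_lt {i : ℕ} (hi : i < L.n) (h : L.sB i = true) : i < L.m ∧ L.yw i < L.yu (i + 1) := by
  unfold sB at h
  rw [decide_eq_true_iff, Nat.mod_eq_of_lt hi] at h
  have := L.up i h.1
  exact ⟨h.1, by have := h.2; omega⟩

lemma sA_lt {i : ℕ} (hi : i < L.n) (h : L.sA i = true) : L.m ≤ i ∧ L.yu (i + 1) < L.yw i := by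
  unfold sA at h
  rw [decide_eq_true_iff, Nat.mod_eq_of_lt hi] at h
  have := L.dn i h.1 hi
  exact ⟨h.1, by have := h.2; omega⟩

/-- an A strip that meets `[yu (c + 1), yw c)` -/
lemma stripA {i c : ℕ} {y : ℤ} (hm : L.m ≤ i) (hi : i < L.n) (hm' : L.m ≤ c) (hc : c < L.n)
    (h1 : L.yu (i + 1) ≤ y) (h2 : y ≤ L.yw i) (h3 : L.yu (c + 1) ≤ y) (h4 : y ≤ L.yw c) :
    i = c := by
  rcases lt_trichotomy i c with h | h | h
  · exfalso
    have e1 := L.mwA (i := i + 1) (j := c) (by omega) (by omega) hc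
    have e2 := L.dnc (i + 1) (by omega) (by omega)
    omega
  · exact h
  · exfalso
    have e1 := L.mwA (i := c + 1) (j := i) (by omega) (by omega) hi
    have e2 := L.dnc (c + 1) (by omega) (by omega)
    omega

/-- a B strip that meets `[yw c, yu (c + 1)]` -/
lemma stripB' {i c : ℕ} {y : ℤ} (hi : i < L.m) (hc : c < L.m) (h1 : L.yw i ≤ y)
    (h2 : y ≤ L.yu (i + 1)) (h3 : L.yw c ≤ y) (h4 : y ≤ L.yu (c + 1)) : i = c := by
  rcases lt_trichotomy i c with h | h | h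
  · exfalso
    have e1 := L.muB (i := i + 1) (j := c) (by omega) (by omega) (by omega)
    have e2 := L.upc c (by omega) hc
    omega
  · exact h
  · exfalso
    have e1 := L.muB (i := c + 1) (j := i) (by omega) (by omega) (by omega)
    have e2 := L.upc i (by omega) hi
    omega

/-- the strip of a lane `s` of a bump -/
lemma fS_at {i : ℕ} {y : ℤ} (hi : i < L.m) (h : L.K.fS y = true) (h1 : L.yw i ≤ y)
    (h2 : y ≤ L.yu (i + 1)) :
    ∃ v, L.IsV v ∧ L.c v % L.n = i ∧ (L.cl v).1 = false ∧ (L.cl v).2.1 = false := by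
  obtain ⟨v, hv, X, yA, yB, h3, h4, h5⟩ := (L.fS_iff y).1 h
  obtain ⟨v', c, k1, k2, k3, k4, k5, k6, k7, k8, k9, k10, k11, k12, k13⟩ := L.bpI hv h3
  refine ⟨v, hv, ?_, k5, k6⟩
  rw [k3]
  exact (L.stripB' hi k2.cm h1 h2 (by omega) (by omega)).symm

/-- the strip of a lane `n` of a bump -/
lemma fN_at {i : ℕ} {y : ℤ} (hm : L.m ≤ i) (hi : i < L.n) (h : L.K.fN y = true)
    (h1 : L.yu (i + 1) ≤ y) (h2 : y ≤ L.yw i) :
    ∃ v, L.IsV v ∧ L.w v % L.n = i ∧ (L.cl v).1 = false ∧ (L.cl v).2.1 = false := by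
  obtain ⟨v, hv, X, yA, yB, h3, h4, h5⟩ := (L.fN_iff y).1 h
  obtain ⟨v', c, k1, k2, k3, k4, k5, k6, k7, k8, k9, k10, k11, k12, k13⟩ := L.bpI hv h3
  refine ⟨v, hv, ?_, k5, k6⟩
  rw [k4]
  have e1 := k2.mv
  have e2 := k2.vn
  refine (L.stripA hm hi (by omega) (by omega) h1 h2 ?_ (by omega)).symm
  rw [show v' - 1 + 1 = v' by omega]
  omega

/-- the strip of a lane `n` of a valley -/
lemma gN_at {i : ℕ} {y : ℤ} (hi : i < L.m) (h : L.K.gN y = true) (h1 : L.yw i ≤ y)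
    (h2 : y ≤ L.yu (i + 1)) :
    ∃ v, L.IsV v ∧ L.w v % L.n = i ∧ (L.cl v).1 = false ∧ (L.cl v).2.1 = false := by
  obtain ⟨v, hv, X, yA, yB, h3, h4, h5⟩ := (L.gN_iff y).1 h
  obtain ⟨c, k2, k3, k4, k5, k6, k7, k8, k9, k10, k11, k12, k13⟩ := L.vlI hv h3
  refine ⟨v, hv, ?_, k5, k6⟩
  rw [k4]
  have e1 := k2.vm
  have e2 := k2.sg.v0
  refine (L.stripB' hi (by omega) h1 h2 (by omega) ?_).symm
  rw [show v - 1 + 1 = v by omega]
  omega

/-- the strip of a lane `s` of a valley -/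
lemma gS_at {i : ℕ} {y : ℤ} (hm : L.m ≤ i) (hi : i < L.n) (h : L.K.gS y = true)
    (h1 : L.yu (i + 1) ≤ y) (h2 : y ≤ L.yw i) :
    ∃ v, L.IsV v ∧ L.c v % L.n = i ∧ (L.cl v).1 = false ∧ (L.cl v).2.1 = false := by
  obtain ⟨v, hv, X, yA, yB, h3, h4, h5⟩ := (L.gS_iff y).1 h
  obtain ⟨c, k2, k3, k4, k5, k6, k7, k8, k9, k10, k11, k12, k13⟩ := L.vlI hv h3
  refine ⟨v, hv, ?_, k5, k6⟩
  rw [k3]
  exact (L.stripA hm hi k2.mc k2.cn h1 h2 (by omega) (by omega)).symm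

lemma sB_mod (i : ℕ) : L.sB (i % L.n) = L.sB i := by
  have e1 : L.yu (i % L.n + 1) = L.yu (i + 1) := L.yu_eq (by rw [Nat.mod_add_mod])
  unfold sB
  rw [Nat.mod_mod, L.yw_mod, e1]

lemma sA_mod (i : ℕ) : L.sA (i % L.n) = L.sA i := by
  have e1 : L.yu (i % L.n + 1) = L.yu (i + 1) := L.yu_eq (by rw [Nat.mod_add_mod])
  unfold sA
  rw [Nat.mod_mod, L.yw_mod, e1]

/-- `y` is an end of the strip `i` -/
def End (i : ℕ) (y : ℤ) : Prop := y = L.yw i ∨ y = L.yu (i + 1)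

lemma End.mod {i : ℕ} {y : ℤ} (h : L.End i y) : L.End (i % L.n) y := by
  have e1 : L.yu (i % L.n + 1) = L.yu (i + 1) := L.yu_eq (by rw [Nat.mod_add_mod])
  unfold End
  rw [L.yw_mod, e1]
  exact h

lemma p_fS {i : ℕ} {y : ℤ} (he : L.End i y) (h : (L.sB i && L.K.fS y) = true) :
    ∃ v, L.IsV v ∧ L.c v % L.n = i % L.n ∧ (L.cl v).1 = false ∧ (L.cl v).2.1 = false := by
  have he' := he.mod
  rw [← L.sB_mod, Bool.and_eq_true] at h
  obtain ⟨k1, k2⟩ := L.sB_lt (Nat.mod_lt _ L.n_pos) h.1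
  exact L.fS_at k1 h.2 (by rcases he' with e | e <;> omega) (by rcases he' with e | e <;> omega)

lemma p_gN {i : ℕ} {y : ℤ} (he : L.End i y) (h : (L.sB i && L.K.gN y) = true) :
    ∃ v, L.IsV v ∧ L.w v % L.n = i % L.n ∧ (L.cl v).1 = false ∧ (L.cl v).2.1 = false := by
  have he' := he.mod
  rw [← L.sB_mod, Bool.and_eq_true] at h
  obtain ⟨k1, k2⟩ := L.sB_lt (Nat.mod_lt _ L.n_pos) h.1
  exact L.gN_at k1 h.2 (by rcases he' with e | e <;> omega) (by rcases he' with e | e <;> omega)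

lemma p_fN {i : ℕ} {y : ℤ} (he : L.End i y) (h : (L.sA i && L.K.fN y) = true) :
    ∃ v, L.IsV v ∧ L.w v % L.n = i % L.n ∧ (L.cl v).1 = false ∧ (L.cl v).2.1 = false := by
  have he' := he.mod
  rw [← L.sA_mod, Bool.and_eq_true] at h
  have hi := Nat.mod_lt i L.n_pos
  obtain ⟨k1, k2⟩ := L.sA_lt hi h.1
  exact L.fN_at k1 hi h.2 (by rcases he' with e | e <;> omega)
    (by rcases he' with e | e <;> omega)

lemma p_gS {i : ℕ} {y : ℤ} (he : L.End i y) (h : (L.sA i && L.K.gS y) = true) :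
    ∃ v, L.IsV v ∧ L.c v % L.n = i % L.n ∧ (L.cl v).1 = false ∧ (L.cl v).2.1 = false := by
  have he' := he.mod
  rw [← L.sA_mod, Bool.and_eq_true] at h
  have hi := Nat.mod_lt i L.n_pos
  obtain ⟨k1, k2⟩ := L.sA_lt hi h.1
  exact L.gS_at k1 hi h.2 (by rcases he' with e | e <;> omega)
    (by rcases he' with e | e <;> omega)

lemma S_of_w {i v : ℕ} (hv : L.IsV v) (h : L.w v % L.n = i % L.n) : L.S i = false := by
  rw [← L.S_mod, ← h, L.S_mod]
  exact hv.2.2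

/-- **D8** -/
theorem siteI {i : ℕ} (h : L.S i = true) : L.SL i = false ∧ L.NL i = false ∧
    (L.sB i && L.K.fS (L.yw i)) = false ∧ (L.sA i && L.K.gS (L.yw i)) = false ∧
    (L.sB i && L.K.gN (L.yw i)) = false ∧ (L.sA i && L.K.fN (L.yw i)) = false ∧
    (L.sB i && L.K.gN (L.yu (i + 1))) = false ∧ (L.sA i && L.K.fN (L.yu (i + 1))) = false ∧
    (L.sB i && L.K.fS (L.yu (i + 1))) = false ∧ (L.sA i && L.K.gS (L.yu (i + 1))) = false := by
  have kc : ∀ {b : Bool}, (b = true → ∃ v, L.IsV v ∧ L.c v % L.n = i % L.n ∧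
      (L.cl v).1 = false ∧ (L.cl v).2.1 = false) → b = false := by
    intro b hb
    by_contra hne
    obtain ⟨v, hv, h1, -⟩ := hb (by simpa using hne)
    rw [L.S_of_c h1] at h
    exact absurd h (by decide)
  have kw : ∀ {b : Bool}, (b = true → ∃ v, L.IsV v ∧ L.w v % L.n = i % L.n ∧
      (L.cl v).1 = false ∧ (L.cl v).2.1 = false) → b = false := by
    intro b hb
    by_contra hne
    obtain ⟨v, hv, h1, -⟩ := hb (by simpa using hne)
    rw [L.S_of_w hv h1] at h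
    exact absurd h (by decide)
  refine ⟨?_, ?_, kc (L.p_fS (Or.inl rfl)), kc (L.p_gS (Or.inl rfl)), kw (L.p_gN (Or.inl rfl)),
    kw (L.p_fN (Or.inl rfl)), kw (L.p_gN (Or.inr rfl)), kw (L.p_fN (Or.inr rfl)),
    kc (L.p_fS (Or.inr rfl)), kc (L.p_gS (Or.inr rfl))⟩
  · by_contra hne
    have := (L.SL_SI (i := i) (by simpa using hne)).1
    rw [this] at h
    exact absurd h (by decide)
  · by_contra hne
    have := (L.NL_SI (i := i) (by simpa using hne)).1
    rw [this] at h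
    exact absurd h (by decide)

/-- **D11** -/
theorem exclI (i : ℕ) : (L.NL i = true →
      (L.sB i && L.K.gN (L.yw i)) = false ∧ (L.sA i && L.K.fN (L.yw i)) = false ∧
      (L.sB i && L.K.gN (L.yu (i + 1))) = false ∧ (L.sA i && L.K.fN (L.yu (i + 1))) = false) ∧
    (L.SL i = true →
      (L.sB i && L.K.fS (L.yw i)) = false ∧ (L.sA i && L.K.gS (L.yw i)) = false ∧
      (L.sB i && L.K.fS (L.yu (i + 1))) = false ∧
      (L.sA i && L.K.gS (L.yu (i + 1))) = false) := by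
  constructor
  · intro h
    obtain ⟨v', hv', h4, h5⟩ := (L.NL_iff i).1 h
    have kw : ∀ {b : Bool}, (b = true → ∃ v, L.IsV v ∧ L.w v % L.n = i % L.n ∧
        (L.cl v).1 = false ∧ (L.cl v).2.1 = false) → b = false := by
      intro b hb
      by_contra hne
      obtain ⟨v, hv, h1, h2, -⟩ := hb (by simpa using hne)
      rw [L.w_unique hv' hv (h5.trans h1.symm), h2] at h4
      exact absurd h4 (by decide)
    exact ⟨kw (L.p_gN (Or.inl rfl)), kw (L.p_fN (Or.inl rfl)), kw (L.p_gN (Or.inr rfl)),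
      kw (L.p_fN (Or.inr rfl))⟩
  · intro h
    obtain ⟨v', hv', h4, h5⟩ := (L.SL_iff i).1 h
    have kc : ∀ {b : Bool}, (b = true → ∃ v, L.IsV v ∧ L.c v % L.n = i % L.n ∧
        (L.cl v).1 = false ∧ (L.cl v).2.1 = false) → b = false := by
      intro b hb
      by_contra hne
      obtain ⟨v, hv, h1, -, h2⟩ := hb (by simpa using hne)
      rw [L.c_unique hv' hv (h5.trans h1.symm), h2] at h4
      exact absurd h4 (by decide)
    exact ⟨kc (L.p_fS (Or.inl rfl)), kc (L.p_gS (Or.inl rfl)), kc (L.p_fS (Or.inr rfl)),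
      kc (L.p_gS (Or.inr rfl))⟩

/-! ## Plates -/

lemma NL_false_of_w {i v : ℕ} (hv : L.IsV v) (h : L.w v % L.n = i % L.n)
    (h1 : (L.cl v).1 = false) : L.NL i = false := by
  by_contra hne
  obtain ⟨v', hv', h4, h5⟩ := (L.NL_iff i).1 (by simpa using hne)
  rw [L.w_unique hv' hv (h5.trans h.symm), h1] at h4
  exact absurd h4 (by decide)

lemma SL_false_of_c {i v : ℕ} (hv : L.IsV v) (h : L.c v % L.n = i % L.n)
    (h1 : (L.cl v).2.1 = false) : L.SL i = false := by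
  by_contra hne
  obtain ⟨v', hv', h4, h5⟩ := (L.SL_iff i).1 (by simpa using hne)
  rw [L.c_unique hv' hv (h5.trans h.symm), h1] at h4
  exact absurd h4 (by decide)

/-- the full lane of the run after a bump -/
lemma bump_next {v' c : ℕ} (hb : L.Hb v' c) (h1 : L.yw c ≤ L.yw (v' - 1)) :
    L.NL c = false := by
  have hm := L.hm
  have e1 := hb.mv
  have e2 := hb.vn
  have e3 := hb.cm
  have e4 := hb.sv
  by_contra hne
  obtain ⟨v, hv, h4, h5⟩ := (L.NL_iff c).1 (by simpa using hne)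
  rw [Nat.mod_eq_of_lt (by omega : c < L.n)] at h5
  have ht := L.ty hv
  rw [h5] at ht
  obtain ⟨r, hr⟩ : ∃ r, r = L.cl v := ⟨_, rfl⟩
  rw [← hr] at ht h4
  obtain ⟨x1, x2, p⟩ := r
  simp only at h4
  subst h4
  obtain ⟨d, hd⟩ : ∃ d, d = L.c v % L.n := ⟨_, rfl⟩
  rw [← hd] at ht
  have key : ∀ {w u : ℕ}, c = u - 1 → u ≤ L.m → L.Ht u d → L.yw d < L.yw (u - 1) → False := by
    intro w u h6 h7 h8 h9
    have f1 := h8.mc
    have f2 := h8.cn
    have f3 : d ≤ v' - 1 := by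
      by_contra hlt
      rw [h8.sg.s (v' - 1) (by omega) (by omega)] at e4
      exact absurd e4 (by decide)
    have f4 := L.mwA f1 f3 (by omega)
    rw [← h6] at h9
    omega
  cases ht with
  | none hc hw hv hs sc sw =>
    by_cases h6 : v' - 1 = d
    · have : d + 1 < L.n ∨ d + 1 = L.n := by omega
      rcases this with h7 | h7
      · rw [Nat.mod_eq_of_lt h7] at hw; omega
      · rw [h7, Nat.mod_self] at hw
        rcases hb.ne with h8 | h8 <;> omega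
    · rw [hs (v' - 1) (by omega) h6 (by omega)] at e4
      exact absurd e4 (by decide)
  | ZA ma h hv t1 t2 t3 =>
    rw [h.s2 (v' - 1) (by omega) (by omega)] at e4
    exact absurd e4 (by decide)
  | ZB wm h hv t1 t2 t3 =>
    rw [h.s2 (v' - 1) (by omega) (by omega)] at e4
    exact absurd e4 (by decide)
  | @b2 u d h h1 h2 h0 h3 t1 t2 t3 => have := h.mv; omega
  | @b2c u d y h h0 h3 h4 h5 h6 h7 hy => have := h.mv; omega
  | t1 h h1 h2 h3 t1 t2 t3 => exact key (w := 0) rfl h.vm h h3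
  | t1c h h3 h4 h5 h6 h7 hy => exact key (w := 0) rfl h.vm h h3

/-- the full lane of the run after a valley -/
lemma valley_next {v c : ℕ} (hb : L.Ht v c) (h1 : L.yw (v - 1) ≤ L.yw c) :
    L.NL c = false := by
  have hm := L.hm
  have e1 := hb.vm
  have e2 := hb.mc
  have e3 := hb.cn
  have e4 := hb.sg.sv
  have e5 := hb.sg.v0
  have e6 := hb.sg.vc
  by_contra hne
  obtain ⟨v', hv', h4, h5⟩ := (L.NL_iff c).1 (by simpa using hne)
  rw [Nat.mod_eq_of_lt (by omega : c < L.n)] at h5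
  have ht := L.ty hv'
  rw [h5] at ht
  obtain ⟨r, hr⟩ : ∃ r, r = L.cl v' := ⟨_, rfl⟩
  rw [← hr] at ht h4
  obtain ⟨x1, x2, p⟩ := r
  simp only at h4
  subst h4
  obtain ⟨d, hd⟩ : ∃ d, d = L.c v' % L.n := ⟨_, rfl⟩
  rw [← hd] at ht
  have key : ∀ {u : ℕ}, c = u - 1 → L.Hb u d → L.yw (u - 1) < L.yw d → False := by
    intro u h6 h8 h9
    have f1 := h8.mv
    have f2 := h8.cm
    have f3 : d ≤ v - 1 := by
      by_contra hlt
      rw [h8.s2 (v - 1) (by omega)] at e4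
      exact absurd e4 (by decide)
    have f4 := L.mwB f3 (by omega)
    rw [← h6] at h9
    omega
  cases ht with
  | none hc hw hv hs sc sw =>
    by_cases h6 : v - 1 = d
    · rw [← h6, show v - 1 + 1 = v by omega, Nat.mod_eq_of_lt (by omega)] at hw
      omega
    · rw [hs (v - 1) (by omega) h6 (by omega)] at e4
      exact absurd e4 (by decide)
  | @ZA v' a w ma h hv t1 t2 t3 =>
    have f1 := h.sa
    have f2 := h.a0
    have f3 := h.aw
    rw [hb.sg.s (a - 1) (by omega) (by omega)] at f1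
    exact absurd f1 (by decide)
  | ZB wm h hv t1 t2 t3 => omega
  | b2 h h1 h2 h0 h3 t1 t2 t3 => exact key rfl h h3
  | b2c h h0 h3 h4 h5 h6 h7 hy => exact key rfl h h3
  | t1 h h1 h2 h3 t1 t2 t3 => have := h.vm; have := h.sg.v0; omega
  | t1c h h3 h4 h5 h6 h7 hy => have := h.vm; have := h.sg.v0; omega

/-- **D6** -/
theorem plate_BI {i : ℕ} (hi : i < L.m) {y : ℤ} (h1 : L.yw i ≤ y) (h2 : y < L.yu (i + 1)) :
    (L.K.bp y = true → L.NL i = false ∧ L.S i = false ∧ L.SL i = false) ∧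
      (L.K.vl y = true → L.NL i = false ∧ L.S i = false) := by
  have hm := L.hm
  have hin : i % L.n = i := Nat.mod_eq_of_lt (by omega)
  constructor
  · intro h
    obtain ⟨v, hv, yA, yB, h3⟩ := (L.bp_iff y).1 h
    obtain ⟨v', c, k1, k2, k3, k4, k5, k6, k7, k8, k9, k10, k11, k12, k13⟩ := L.bpI hv h3
    have e := L.stripB' hi k2.cm h1 h2.le (by omega) (by omega)
    subst e
    exact ⟨L.bump_next k2 k10, k2.sc, L.SL_false_of_c hv (k3.trans hin.symm) k6⟩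
  · intro h
    obtain ⟨v, hv, yA, yB, h3⟩ := (L.vl_iff y).1 h
    obtain ⟨c, k2, k3, k4, k5, k6, k7, k8, k9, k10, k11, k12, k13⟩ := L.vlI hv h3
    have e1 := k2.vm
    have e2 := k2.sg.v0
    have e := L.stripB' hi (c := v - 1) (by omega) h1 h2.le (by omega)
      (by rw [show v - 1 + 1 = v by omega]; omega)
    subst e
    exact ⟨L.NL_false_of_w hv (k4.trans hin.symm) k5, k2.sg.sv⟩

theorem plate_AI {i : ℕ} (hmi : L.m ≤ i) (hi : i < L.n) {y : ℤ} (h1 : L.yu (i + 1) ≤ y)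
    (h2 : y < L.yw i) :
    (L.K.bp y = true → L.NL i = false ∧ L.S i = false) ∧
      (L.K.vl y = true → L.NL i = false ∧ L.S i = false ∧ L.SL i = false) := by
  have hin : i % L.n = i := Nat.mod_eq_of_lt hi
  constructor
  · intro h
    obtain ⟨v, hv, yA, yB, h3⟩ := (L.bp_iff y).1 h
    obtain ⟨v', c, k1, k2, k3, k4, k5, k6, k7, k8, k9, k10, k11, k12, k13⟩ := L.bpI hv h3
    have e1 := k2.mv
    have e2 := k2.vn
    have e := L.stripA hmi hi (c := v' - 1) (by omega) (by omega) h1 h2.le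
      (by rw [show v' - 1 + 1 = v' by omega]; omega) (by omega)
    subst e
    exact ⟨L.NL_false_of_w hv (k4.trans hin.symm) k5, k2.sv⟩
  · intro h
    obtain ⟨v, hv, yA, yB, h3⟩ := (L.vl_iff y).1 h
    obtain ⟨c, k2, k3, k4, k5, k6, k7, k8, k9, k10, k11, k12, k13⟩ := L.vlI hv h3
    have e := L.stripA hmi hi k2.mc k2.cn h1 h2.le (by omega) (by omega)
    subst e
    exact ⟨L.valley_next k2 k9, k2.sg.sc, L.SL_false_of_c hv (k3.trans hin.symm) k6⟩

end LC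

end Pool.Agent.MP42D
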