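import Pool.Agent.MP42.D.CombL

/-!
# D1: the data of the line satisfy the conditions

The runs are sorted into types; positions on the A side are numbers `m .. n`, positions on the B side
are numbers `0 .. m`.
-/

set_option autoImplicit false
set_option linter.unusedSectionVars false

namespace Pool.Agent.MP42D

namespace LC

variable (L : LC)

/-! ## Positions -/

lemma mA {i j : ℕ} (h1 : L.m ≤ i) (h2 : i < j) (h3 : j ≤ L.n) : L.yu j ≤ L.yw i := by
  induction j with
  | zero => omega
  | succ j ih =>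
    rcases Nat.lt_or_ge i j with h | h
    · have e1 := ih h (by omega)
      have e2 := L.dnc j (by omega) (by omega)
      have e3 := L.dn j (by omega) (by omega)
      omega
    · have : i = j := by omega
      subst this
      exact L.dn i h1 (by omega)

lemma mA2 {i j : ℕ} (h1 : L.m ≤ i) (h2 : i < j) (h3 : j < L.n) : L.yw j < L.yu (i + 1) := by
  have e1 := L.dnc j (by omega) h3
  rcases Nat.lt_or_ge (i + 1) j with h | h
  · have e2 := L.mA (i := i + 1) (by omega) h h3.le
    have e3 := L.dnc (i + 1) (by omega) (by omega)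
    omega
  · have : j = i + 1 := by omega
    subst this
    exact e1

lemma mB {i j : ℕ} (h2 : i < j) (h3 : j ≤ L.m) : L.yw i ≤ L.yu j := by
  induction j with
  | zero => omega
  | succ j ih =>
    rcases Nat.lt_or_ge i j with h | h
    · have e1 := ih h (by omega)
      have e2 := L.upc j (by omega) (by omega)
      have e3 := L.up j (by omega)
      omega
    · have : i = j := by omega
      subst this
      exact L.up i (by omega)

lemma mB2 {i j : ℕ} (h2 : i < j) (h3 : j < L.m) : L.yu (i + 1) < L.yw j := by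
  have e1 := L.upc j (by omega) h3
  rcases Nat.lt_or_ge (i + 1) j with h | h
  · have e2 := L.mB (i := i + 1) h h3.le
    have e3 := L.upc (i + 1) (by omega) (by omega)
    omega
  · have : j = i + 1 := by omega
    subst this
    exact e1

lemma topA {p : ℕ} (h1 : L.m ≤ p) (h2 : p < L.n) :
    L.yw p < L.yu p ∨ (p = L.m ∧ L.yw p = L.hi) := by
  rcases Nat.lt_or_ge L.m p with h | h
  · exact Or.inl (L.dnc p h h2)
  · have : p = L.m := by omega
    subst this
    have := L.rw L.m
    rcases L.top with h | h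
    · by_cases h' : L.yw L.m = L.hi
      · exact Or.inr ⟨rfl, h'⟩
      · left; omega
    · exact Or.inr ⟨rfl, h⟩

lemma botA {p : ℕ} (h1 : L.m < p) (h2 : p ≤ L.n) :
    L.yw p < L.yu p ∨ (p = L.n ∧ L.yu p = L.lo) := by
  rcases Nat.lt_or_ge p L.n with h | h
  · exact Or.inl (L.dnc p h1 h)
  · have : p = L.n := by omega
    subst this
    have h0 := L.ru 0
    rw [L.yu_n, L.yw_n]
    rcases L.bot with h | h
    · exact Or.inr ⟨rfl, h⟩
    · by_cases h' : L.yu 0 = L.lo
      · exact Or.inr ⟨rfl, h'⟩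
      · left; omega

lemma botB {p : ℕ} (h2 : p < L.m) : L.yu p < L.yw p ∨ (p = 0 ∧ L.yw p = L.lo) := by
  rcases Nat.eq_zero_or_pos p with h | h
  · subst h
    have h0 := L.rw 0
    rcases L.bot with h | h
    · by_cases h' : L.yw 0 = L.lo
      · exact Or.inr ⟨rfl, h'⟩
      · left; omega
    · exact Or.inr ⟨rfl, h⟩
  · exact Or.inl (L.upc p h h2)

lemma topB {p : ℕ} (h1 : 0 < p) (h2 : p ≤ L.m) :
    L.yu p < L.yw p ∨ (p = L.m ∧ L.yu p = L.hi) := by
  rcases Nat.lt_or_ge p L.m with h | h
  · exact Or.inl (L.upc p h1 h)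
  · have : p = L.m := by omega
    subst this
    have := L.ru L.m
    rcases L.top with h | h
    · exact Or.inr ⟨rfl, h⟩
    · by_cases h' : L.yu L.m = L.hi
      · exact Or.inr ⟨rfl, h'⟩
      · left; omega

/-- two A walls are separated -/
lemma sepA {i j : ℕ} (h1 : L.m ≤ i) (h2 : i < j) (h3 : j ≤ L.n) (hi : L.yw i < L.yu i)
    (hj : L.yw j < L.yu j) : L.yu j < L.yw i := by
  have e := L.mA h1 h2 h3
  rcases e.lt_or_eq with h | h
  · exact h
  · exfalso
    have r1 := L.ru i
    have r2 := L.rw j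
    rcases Nat.lt_or_ge (i + 1) j with h' | h'
    · have e2 := L.mA (i := i + 1) (by omega) h' h3
      have e3 := L.dnc (i + 1) (by omega) (by omega)
      have e4 := L.mA h1 (Nat.lt_succ_self i) (by omega)
      have : i.succ = i + 1 := rfl
      rw [this] at e4
      omega
    · have : j = i + 1 := by omega
      subst this
      rcases L.zero i h.symm with h' | h' <;> omega

/-- two B walls are separated -/
lemma sepB {i j : ℕ} (h2 : i < j) (h3 : j ≤ L.m) (hi : L.yu i < L.yw i)
    (hj : L.yu j < L.yw j) : L.yw i < L.yu j := by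
  have e := L.mB h2 h3
  rcases e.lt_or_eq with h | h
  · exact h
  · exfalso
    have r1 := L.ru i
    have r2 := L.rw j
    rcases Nat.lt_or_ge (i + 1) j with h' | h'
    · have e2 := L.mB (i := i + 1) h' h3
      have e3 := L.upc (i + 1) (by omega) (by omega)
      have e4 := L.mB (Nat.lt_succ_self i) (by omega)
      have : i.succ = i + 1 := rfl
      rw [this] at e4
      omega
    · have : j = i + 1 := by omega
      subst this
      rcases L.zero i h with h' | h' <;> omega

/-! ## Walls -/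

lemma aw_iff (y : ℤ) : L.K.aw y = true ↔ ∃ j, L.m ≤ j ∧ j ≤ L.n ∧ L.yw j ≤ y ∧ y < L.yu j := by
  have hn := L.hn
  simp only [K, decide_eq_true_eq]
  constructor
  · rintro ⟨i, hi, h1, h2⟩
    rcases Nat.lt_or_ge i L.m with h | h
    · rcases Nat.eq_zero_or_pos i with h0 | h0
      · subst h0
        exact ⟨L.n, L.hm, le_refl _, by rw [L.yw_n]; exact h1, by rw [L.yu_n]; exact h2⟩
      · have := L.upc i h0 h
        omega
    · exact ⟨i, h, hi.le, h1, h2⟩
  · rintro ⟨j, h1, h2, h3, h4⟩
    rcases Nat.lt_or_ge j L.n with h | h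
    · exact ⟨j, h, h3, h4⟩
    · have : j = L.n := by omega
      subst this
      rw [L.yw_n] at h3
      rw [L.yu_n] at h4
      exact ⟨0, by omega, h3, h4⟩

lemma bw_iff (y : ℤ) : L.K.bw y = true ↔ ∃ j, j ≤ L.m ∧ L.yu j ≤ y ∧ y < L.yw j := by
  have hn := L.hn
  have hm := L.hm
  simp only [K, decide_eq_true_eq]
  constructor
  · rintro ⟨i, hi, h1, h2⟩
    rcases Nat.lt_or_ge L.m i with h | h
    · have := L.dnc i h hi
      omega
    · exact ⟨i, h, h1, h2⟩
  · rintro ⟨j, h1, h3, h4⟩
    rcases Nat.lt_or_ge j L.n with h | h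
    · exact ⟨j, h, h3, h4⟩
    · have : j = L.n := by omega
      subst this
      rw [L.yw_n] at h4
      rw [L.yu_n] at h3
      exact ⟨0, by omega, h3, h4⟩

/-! ## Runs -/

lemma c_spec (v : ℕ) : L.S (L.c v) = false := Nat.find_spec (L.ex_end v)

lemma c_ge (v : ℕ) : v ≤ L.c v := Nat.le_add_right _ _

lemma c_S {v i : ℕ} (h1 : v ≤ i) (h2 : i < L.c v) : L.S i = true := by
  have h3 : i - v < Nat.find (L.ex_end v) := by unfold c at h2; omega
  have h4 := Nat.find_min (L.ex_end v) h3
  rw [show v + (i - v) = i by omega] at h4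
  simpa using h4

lemma c_le_of {v i : ℕ} (h1 : v ≤ i) (h2 : L.S i = false) : L.c v ≤ i := by
  by_contra h
  have h3 := L.c_S h1 (by omega)
  rw [h2] at h3
  cases h3

lemma c_gt {v : ℕ} (hv : L.IsV v) : v < L.c v := by
  rcases (L.c_ge v).lt_or_eq with h | h
  · exact h
  · have h3 := L.c_spec v
    rw [← h, hv.2.1] at h3
    cases h3

lemma yu_eq {i j : ℕ} (h : i % L.n = j % L.n) : L.yu i = L.yu j := by
  have e : ∀ i, L.yu (i % L.n) = L.yu i :=
    Function.Periodic.map_mod_nat (f := L.yu) (a := L.n) L.yu_per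
  rw [← e i, h, e j]

lemma yw_eq {i j : ℕ} (h : i % L.n = j % L.n) : L.yw i = L.yw j := by
  have e : ∀ i, L.yw (i % L.n) = L.yw i :=
    Function.Periodic.map_mod_nat (f := L.yw) (a := L.n) L.yw_per
  rw [← e i, h, e j]

lemma S_eq {i j : ℕ} (h : i % L.n = j % L.n) : L.S i = L.S j := by
  have e : ∀ i, L.S (i % L.n) = L.S i :=
    Function.Periodic.map_mod_nat (f := L.S) (a := L.n) L.S_per
  rw [← e i, h, e j]

/-- the corners `v .. c - 1` are in `S`, the corners `v - 1`, `c` are not in `S` -/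
structure Sg (v c : ℕ) : Prop where
  v0 : 0 < v
  vc : v < c
  s : ∀ i, v ≤ i → i < c → L.S i = true
  sv : L.S (v - 1) = false
  sc : L.S c = false

/-- all corners that are not between `a - 1` and `w` are in `S` -/
structure Zg (a w : ℕ) : Prop where
  a0 : 0 < a
  aw : a < w
  wn : w < L.n
  s1 : ∀ i, i + 1 < a → L.S i = true
  s2 : ∀ i, w < i → i < L.n → L.S i = true
  sw : L.S w = false
  sa : L.S (a - 1) = false

/-- a run that passes the bottom and does not pass the top: it starts at the position `v` on the A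
side and ends at the position `c` on the B side -/
structure Hb (v c : ℕ) : Prop where
  mv : L.m < v
  vn : v ≤ L.n
  cm : c < L.m
  s1 : ∀ i, v ≤ i → i < L.n → L.S i = true
  s2 : ∀ i, i < c → L.S i = true
  sv : L.S (v - 1) = false
  sc : L.S c = false
  ne : v < L.n ∨ 0 < c
  aw : ¬ (v = L.m + 1 ∧ c + 1 = L.m)

/-- a run that passes the top and does not pass the bottom: it starts at the position `v` on the B
side and ends at the position `c` on the A side -/
structure Ht (v c : ℕ) : Prop where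
  vm : v ≤ L.m
  mc : L.m ≤ c
  cn : c < L.n
  sg : L.Sg v c
  aw : ¬ (v = 1 ∧ c + 1 = L.n)

/-- the types of the runs: first corner, last corner, `w` (mod `n`), full lanes and piece -/
inductive Ty : ℕ → ℕ → ℕ → Bool × Bool × Pc → Prop
  /-- `S` is everything but two adjacent corners `c`, `w` -/
  | none {v c w : ℕ} (hc : c < L.n) (hw : w = (c + 1) % L.n) (hv : v = (w + 1) % L.n)
      (hs : ∀ i < L.n, i ≠ c → i ≠ w → L.S i = true) (sc : L.S c = false) (sw : L.S w = false) :
      Ty v c w (true, true, Pc.none)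
  /-- inside the A side -/
  | A0 {v c : ℕ} (mv : L.m < v) (cn : c < L.n) (h : L.Sg v c) (t1 : L.lo < L.yu c)
      (t2 : L.yu c < L.yw v) (t3 : L.yw v < L.hi) :
      Ty v c (v - 1) (false, false, Pc.trk 0 (L.yu c) (L.yw v))
  /-- inside the B side -/
  | B0 {v c : ℕ} (cm : c < L.m) (h : L.Sg v c) (t1 : L.lo < L.yw v)
      (t2 : L.yw v < L.yu c) (t3 : L.yu c < L.hi) :
      Ty v c (v - 1) (false, false, Pc.trk 3 (L.yw v) (L.yu c))
  /-- through the bottom and the top -/
  | ZA {v a w : ℕ} (ma : L.m < a) (h : L.Zg a w) (hv : v = (w + 1) % L.n) (t1 : L.lo < L.yu w)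
      (t2 : L.yu w < L.yw a) (t3 : L.yw a < L.hi) :
      Ty v (a - 1) w (true, true, Pc.trk 1 (L.yu w) (L.yw a))
  | ZB {v a w : ℕ} (wm : w < L.m) (h : L.Zg a w) (hv : v = (w + 1) % L.n) (t1 : L.lo < L.yw a)
      (t2 : L.yw a < L.yu w) (t3 : L.yu w < L.hi) :
      Ty v (a - 1) w (true, true, Pc.trk 2 (L.yw a) (L.yu w))
  /-- through the bottom -/
  | b1 {v c : ℕ} (h : L.Hb v c) (h1 : c + 1 < L.m) (h2 : v < L.n)
      (h3 : L.yu (c + 1) < L.yu v) (t1 : L.lo < L.yw (c + 1))
      (t2 : L.yw (c + 1) < L.yw v) (t3 : L.yw v < L.hi) :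
      Ty (v % L.n) c (v - 1) (false, true, Pc.trk 1 (L.yw (c + 1)) (L.yw v))
  | b1c {v c : ℕ} {y : ℤ} (h : L.Hb v c) (h3 : L.yu (c + 1) < L.yu v)
      (h4 : L.yu (c + 1) ≤ y) (h5 : y < L.yw (c + 1)) (h6 : L.yw v ≤ y) (h7 : y < L.yu v)
      (hy : y = max (L.yu (c + 1)) (L.yw v)) :
      Ty (v % L.n) c (v - 1) (false, true, Pc.ctc 1 true y)
  | b2 {v c : ℕ} (h : L.Hb v c) (h1 : L.m + 1 < v) (h2 : 0 < c) (h0 : L.yu v ≤ L.yu (c + 1))
      (h3 : L.yw (v - 1) < L.yw c) (t1 : L.lo < L.yu (v - 1)) (t2 : L.yu (v - 1) < L.yu c)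
      (t3 : L.yu c < L.hi) :
      Ty (v % L.n) c (v - 1) (true, false, Pc.trk 2 (L.yu (v - 1)) (L.yu c))
  | b2c {v c : ℕ} {y : ℤ} (h : L.Hb v c) (h0 : L.yu v ≤ L.yu (c + 1))
      (h3 : L.yw (v - 1) < L.yw c)
      (h4 : L.yw (v - 1) ≤ y) (h5 : y < L.yu (v - 1)) (h6 : L.yu c ≤ y) (h7 : y < L.yw c)
      (hy : y = max (L.yw (v - 1)) (L.yu c)) :
      Ty (v % L.n) c (v - 1) (true, false, Pc.ctc 2 false y)
  | b3 {v c : ℕ} {X : ℤ} (h : L.Hb v c) (h0 : L.yu v ≤ L.yu (c + 1))
      (h3 : L.yw c ≤ L.yw (v - 1)) (hX : X = max (L.yu v) (L.yw c)) (h4 : X < L.yw (v - 1))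
      (h5 : X < L.yu (c + 1)) :
      Ty (v % L.n) c (v - 1) (false, false, Pc.bump X (L.yu v) (L.yw c))
  /-- through the top -/
  | t1 {v c : ℕ} (h : L.Ht v c) (h1 : L.m < c) (h2 : 1 < v) (h3 : L.yw c < L.yw (v - 1))
      (t1 : L.lo < L.yu c) (t2 : L.yu c < L.yu (v - 1)) (t3 : L.yu (v - 1) < L.hi) :
      Ty v c (v - 1) (true, false, Pc.trk 1 (L.yu c) (L.yu (v - 1)))
  | t1c {v c : ℕ} {y : ℤ} (h : L.Ht v c) (h3 : L.yw c < L.yw (v - 1))
      (h4 : L.yw c ≤ y) (h5 : y < L.yu c) (h6 : L.yu (v - 1) ≤ y) (h7 : y < L.yw (v - 1))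
      (hy : y + 1 = min (L.yu c) (L.yw (v - 1))) :
      Ty v c (v - 1) (true, false, Pc.ctc 1 false y)
  | t2 {v c : ℕ} (h : L.Ht v c) (h1 : v < L.m) (h2 : c + 1 < L.n) (h0 : L.yw (v - 1) ≤ L.yw c)
      (h3 : L.yu v < L.yu (c + 1)) (t1 : L.lo < L.yw v) (t2 : L.yw v < L.yw (c + 1))
      (t3 : L.yw (c + 1) < L.hi) :
      Ty v c (v - 1) (false, true, Pc.trk 2 (L.yw v) (L.yw (c + 1)))
  | t2c {v c : ℕ} {y : ℤ} (h : L.Ht v c) (h0 : L.yw (v - 1) ≤ L.yw c)
      (h3 : L.yu v < L.yu (c + 1))
      (h4 : L.yu v ≤ y) (h5 : y < L.yw v) (h6 : L.yw (c + 1) ≤ y) (h7 : y < L.yu (c + 1))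
      (hy : y + 1 = min (L.yw v) (L.yu (c + 1))) :
      Ty v c (v - 1) (false, true, Pc.ctc 2 true y)
  | t3 {v c : ℕ} {Y : ℤ} (h : L.Ht v c) (h0 : L.yw (v - 1) ≤ L.yw c)
      (h3 : L.yu (c + 1) ≤ L.yu v) (hY : Y = min (L.yw c) (L.yu v)) (h4 : L.yw (v - 1) < Y)
      (h5 : L.yu (c + 1) < Y) :
      Ty v c (v - 1) (false, false, Pc.valley Y (L.yw c) (L.yu v))

/-! ## Pieces of the line -/

lemma ev' {i j : ℕ} {y : ℤ} (hi : L.yw i < L.yu i) (hi' : L.yw i = y ∨ L.yu i = y)
    (hj : L.yu j < L.yw j) (hj' : L.yu j = y ∨ L.yw j = y) (h1 : L.lo < y) (h2 : y < L.hi) :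
    False := L.ev y h1 h2 ⟨i, hi, hi'⟩ ⟨j, hj, hj'⟩

lemma conn_AA (s : Fin 4) {p q p' q' : ℕ} (h : Bool) (hp : p % L.n = p') (hq : q % L.n = q')
    (h1 : L.m < q') (h2 : q' < p') (h3 : p' < L.n) :
    L.conn s p true q true h = Pc.trk s (L.yu p') (L.yw q') ∧ L.lo < L.yu p' ∧
      L.yu p' < L.yw q' ∧ L.yw q' < L.hi := by
  have e1 : L.yu p = L.yu p' := L.yu_eq (by rw [hp, Nat.mod_eq_of_lt h3])
  have e2 : L.yw q = L.yw q' := L.yw_eq (by rw [hq, Nat.mod_eq_of_lt (by omega)])
  have e3 : L.m % L.n = L.m := Nat.mod_eq_of_lt (by omega)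
  have e4 := L.dnc p' (by omega) h3
  have e5 := L.dnc q' (by omega) (by omega)
  have e6 := L.sepA (by omega) h2 h3.le e5 e4
  have e7 := L.ru q'
  have e8 := L.rw p'
  refine ⟨?_, by omega, e6, by omega⟩
  unfold conn
  rw [if_pos]
  · simp only [ue, de, if_true, e1, e2]
  · refine ⟨by omega, by omega, ?_⟩
    simp only [ue, de, if_true, e1, e2]
    exact e6.le

lemma conn_BB (s : Fin 4) {p q p' q' : ℕ} (h : Bool) (hp : p % L.n = p') (hq : q % L.n = q')
    (h1 : 0 < p') (h2 : p' < q') (h3 : q' < L.m) :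
    L.conn s p false q false h = Pc.trk s (L.yw p') (L.yu q') ∧ L.lo < L.yw p' ∧
      L.yw p' < L.yu q' ∧ L.yu q' < L.hi := by
  have hm := L.hm
  have hn := L.hn
  have e1 : L.yw p = L.yw p' := L.yw_eq (by rw [hp, Nat.mod_eq_of_lt (by omega)])
  have e2 : L.yu q = L.yu q' := L.yu_eq (by rw [hq, Nat.mod_eq_of_lt (by omega)])
  have e3 : L.m % L.n = L.m ∨ L.m % L.n = 0 := by
    rcases Nat.lt_or_ge L.m L.n with h | h
    · exact Or.inl (Nat.mod_eq_of_lt h)
    · right
      rw [show L.m = L.n by omega, Nat.mod_self]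
  have e4 := L.upc p' (by omega) (by omega)
  have e5 := L.upc q' (by omega) (by omega)
  have e6 := L.sepB h2 h3.le e4 e5
  have e7 := L.rw q'
  have e8 := L.ru p'
  refine ⟨?_, by omega, e6, by omega⟩
  unfold conn
  rw [if_pos]
  · simp only [ue, de, Bool.false_eq_true, if_false, e1, e2]
  · refine ⟨by omega, by omega, ?_⟩
    simp only [ue, de, Bool.false_eq_true, if_false, e1, e2]
    exact e6.le

/-- from the A position `p'` to the B position `q'` -/
lemma conn_AB (s : Fin 4) {p q p' q' : ℕ} (h : Bool) (hp : p % L.n = p') (hq : q % L.n = q')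
    (h1 : L.m ≤ p') (h2 : p' < L.n) (h3 : q' < L.m) (h4 : L.yw p' < L.yw q') :
    (L.m < p' ∧ 0 < q' ∧ L.lo < L.yu p' ∧ L.yu p' < L.yu q' ∧ L.yu q' < L.hi ∧
      L.conn s p true q false h = Pc.trk s (L.yu p') (L.yu q')) ∨
    (∃ y, L.yw p' ≤ y ∧ y < L.yu p' ∧ L.yu q' ≤ y ∧ y < L.yw q' ∧
      (h = false → y = max (L.yw p') (L.yu q')) ∧
      (h = true → y + 1 = min (L.yu p') (L.yw q')) ∧
      L.conn s p true q false h = Pc.ctc s false y) := by
  have hn := L.hn
  have e1 : L.yw p = L.yw p' := L.yw_eq (by rw [hp, Nat.mod_eq_of_lt (by omega)])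
  have e2 : L.yu q = L.yu q' := L.yu_eq (by rw [hq, Nat.mod_eq_of_lt (by omega)])
  have e1' : L.yu p = L.yu p' := L.yu_eq (by rw [hp, Nat.mod_eq_of_lt (by omega)])
  have e2' : L.yw q = L.yw q' := L.yw_eq (by rw [hq, Nat.mod_eq_of_lt (by omega)])
  have e3 : L.m % L.n = L.m := Nat.mod_eq_of_lt (by omega)
  have f1 := L.topA h1 h2
  have f2 := L.botB h3
  have f3 := L.rw p'
  have f4 := L.ru p'
  have f5 := L.rw q'
  have f6 := L.ru q'
  have f7 : q' = 0 → L.yu q' = L.lo ∨ L.yw q' = L.lo := by rintro rfl; exact L.bot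
  have f8 : p' = L.m → L.yu p' = L.hi ∨ L.yw p' = L.hi := by rintro rfl; exact L.top
  have f9 : 0 < q' → L.yu q' < L.yw q' := fun h => L.upc q' h h3
  unfold conn
  simp only [ue, de, if_true, Bool.false_eq_true, if_false, e1, e2, e1', e2', hp, hq, e3,
    Bool.not_true]
  by_cases hc : p' ≠ L.m ∧ q' ≠ 0 ∧ L.yu p' ≤ L.yu q'
  · left
    rw [if_pos hc]
    refine ⟨by omega, by omega, by omega, ?_, by omega, rfl⟩
    rcases hc.2.2.lt_or_eq with g | g
    · exact g
    · exact (L.ev' (i := p') (j := q') (y := L.yu p') (by omega) (Or.inr rfl) (by omega)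
        (Or.inl g.symm) (by omega) (by omega)).elim
  · right
    rw [if_neg hc]
    cases h
    · simp only [Bool.false_eq_true, if_false]
      by_cases h0 : q' = 0
      · rw [if_pos h0]
        refine ⟨_, ?_, ?_, ?_, ?_, fun _ => ?_, fun hh => absurd hh (by decide), rfl⟩ <;> omega
      · rw [if_neg h0]
        refine ⟨_, ?_, ?_, ?_, ?_, fun _ => ?_, fun hh => absurd hh (by decide), rfl⟩ <;> omega
    · simp only [if_true]
      by_cases h0 : p' = L.m
      · rw [if_pos h0]
        refine ⟨_, ?_, ?_, ?_, ?_, fun hh => absurd hh (by decide), fun _ => ?_, rfl⟩ <;> omega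
      · rw [if_neg h0]
        refine ⟨_, ?_, ?_, ?_, ?_, fun hh => absurd hh (by decide), fun _ => ?_, rfl⟩ <;> omega

/-- from the B position `p'` to the A position `q'` -/
lemma conn_BA (s : Fin 4) {p q p' q' : ℕ} (h : Bool) (hp : p % L.n = p')
    (hq : q % L.n = q' % L.n)
    (h0 : 0 < p') (h1 : p' ≤ L.m) (h2 : L.m < q') (h3 : q' ≤ L.n) (h4 : L.yu p' < L.yu q') :
    (p' < L.m ∧ q' < L.n ∧ L.lo < L.yw p' ∧ L.yw p' < L.yw q' ∧ L.yw q' < L.hi ∧
      L.conn s p false q true h = Pc.trk s (L.yw p') (L.yw q')) ∨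
    (∃ y, L.yu p' ≤ y ∧ y < L.yw p' ∧ L.yw q' ≤ y ∧ y < L.yu q' ∧
      (h = false → y = max (L.yu p') (L.yw q')) ∧
      (h = true → y + 1 = min (L.yw p') (L.yu q')) ∧
      L.conn s p false q true h = Pc.ctc s true y) := by
  have hn := L.hn
  have e1 : L.yu p = L.yu p' := L.yu_eq (by rw [hp, Nat.mod_eq_of_lt (by omega)])
  have e1' : L.yw p = L.yw p' := L.yw_eq (by rw [hp, Nat.mod_eq_of_lt (by omega)])
  have e2 : L.yw q = L.yw q' := L.yw_eq hq
  have e2' : L.yu q = L.yu q' := L.yu_eq hq
  have e3 : L.m % L.n = L.m := Nat.mod_eq_of_lt (by omega)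
  have f1 := L.topB h0 h1
  have f2 := L.botA h2 h3
  have f3 := L.rw p'
  have f4 := L.ru p'
  have f5 := L.rw q'
  have f6 := L.ru q'
  have f7 : q' = L.n → L.yu q' = L.lo ∨ L.yw q' = L.lo := by
    rintro rfl
    rw [yu_n, yw_n]
    exact L.bot
  have f8 : p' = L.m → L.yu p' = L.hi ∨ L.yw p' = L.hi := by rintro rfl; exact L.top
  have f9 : q' < L.n → L.yw q' < L.yu q' := fun h => L.dnc q' h2 h
  have hq0 : q % L.n = 0 ↔ q' = L.n := by
    rw [hq]
    rcases h3.lt_or_eq with h | h
    · rw [Nat.mod_eq_of_lt h]; omega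
    · rw [h, Nat.mod_self]; simp
  unfold conn
  simp only [ue, de, if_true, Bool.false_eq_true, if_false, e1, e2, e1', e2', hp, e3,
    Bool.not_false, hq0, ne_eq]
  by_cases hc : ¬ p' = L.m ∧ ¬ q' = L.n ∧ L.yw p' ≤ L.yw q'
  · left
    rw [if_pos hc]
    refine ⟨by omega, by omega, by omega, ?_, by omega, rfl⟩
    rcases hc.2.2.lt_or_eq with g | g
    · exact g
    · exact (L.ev' (i := q') (j := p') (y := L.yw q') (by omega) (Or.inl rfl) (by omega)
        (Or.inr g) (by omega) (by omega)).elim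
  · right
    rw [if_neg hc]
    cases h
    · simp only [Bool.false_eq_true, if_false]
      by_cases h0 : q' = L.n
      · rw [if_pos h0]
        refine ⟨_, ?_, ?_, ?_, ?_, fun _ => ?_, fun hh => absurd hh (by decide), rfl⟩ <;> omega
      · rw [if_neg h0]
        refine ⟨_, ?_, ?_, ?_, ?_, fun _ => ?_, fun hh => absurd hh (by decide), rfl⟩ <;> omega
    · simp only [if_true]
      by_cases h0 : p' = L.m
      · rw [if_pos h0]
        refine ⟨_, ?_, ?_, ?_, ?_, fun hh => absurd hh (by decide), fun _ => ?_, rfl⟩ <;> omega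
      · rw [if_neg h0]
        refine ⟨_, ?_, ?_, ?_, ?_, fun hh => absurd hh (by decide), fun _ => ?_, rfl⟩ <;> omega

open Classical in
/-- runs through the bottom -/
lemma ty_b {v c w a v' c' : ℕ} (h : L.Hb v' c') (hv : v % L.n = v' % L.n) (hc : c % L.n = c')
    (hw : w % L.n = v' - 1) (ha : a % L.n = c' + 1) :
    L.Ty (v' % L.n) c' (v' - 1)
      (if L.yu a < L.yu v then (false, true, L.conn 1 a false v true false)
      else if L.yw w < L.yw c then (true, false, L.conn 2 w true c false false)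
      else (false, false, Pc.bump (max (L.yu v) (L.yw c)) (L.yu v) (L.yw c))) := by
  have hn := L.hn
  have h1 := h.mv
  have h2 := h.vn
  have h3 := h.cm
  have e1 : L.yu v = L.yu v' := L.yu_eq hv
  have e2 : L.yw c = L.yw c' := L.yw_eq (by rw [hc, Nat.mod_eq_of_lt (by omega)])
  have e3 : L.yu a = L.yu (c' + 1) := L.yu_eq (by rw [ha, Nat.mod_eq_of_lt (by omega)])
  have e4 : L.yw w = L.yw (v' - 1) := L.yw_eq (by rw [hw, Nat.mod_eq_of_lt (by omega)])
  rw [e1, e2, e3, e4]
  split_ifs with g1 g2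
  · rcases L.conn_BA 1 false ha hv (by omega) (by omega) h1 h2 g1 with
      ⟨g3, g4, g5, g6, g7, g⟩ | ⟨y, g3, g4, g5, g6, g7, g8, g⟩
    · rw [g]
      exact Ty.b1 h g3 g4 g1 g5 g6 g7
    · rw [g]
      exact Ty.b1c h g1 g3 g4 g5 g6 (g7 rfl)
  · rcases L.conn_AB 2 false hw hc (by omega) (by omega) h3 g2 with
      ⟨g3, g4, g5, g6, g7, g⟩ | ⟨y, g3, g4, g5, g6, g7, g8, g⟩
    · rw [g]
      exact Ty.b2 h (by omega) g4 (by omega) g2 g5 g6 g7
    · rw [g]
      exact Ty.b2c h (by omega) g2 g3 g4 g5 g6 (g7 rfl)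
  · have f1 := L.topA (p := v' - 1) (by omega) (by omega)
    have f2 := L.botB h3
    have f3 := L.botA h1 h2
    have f4 := L.topB (p := c' + 1) (by omega) (by omega)
    have f5 := L.ru v'
    have f6 := L.rw v'
    have f7 := L.ru c'
    have f8 := L.rw c'
    have f9 := L.ru (v' - 1)
    have f10 := L.rw (v' - 1)
    have f11 := L.ru (c' + 1)
    have f12 := L.rw (c' + 1)
    have f13 := L.mA (i := v' - 1) (j := v') (by omega) (by omega) h2
    have f14 := L.mB (i := c') (j := c' + 1) (by omega) (by omega)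
    have f15 := h.aw
    have f16 := h.ne
    refine Ty.b3 h (by omega) (by omega) rfl ?_ ?_
    · rw [max_lt_iff]
      constructor
      · -- strip `w` is not zero
        by_contra hcc
        rcases L.zero (v' - 1) (by rw [show v' - 1 + 1 = v' by omega]; omega) with g | g
        · omega
        · omega
      · by_contra hcc
        have g : L.yw c' = L.yw (v' - 1) := by omega
        by_cases k1 : L.lo < L.yw c' ∧ L.yw c' < L.hi
        · exact L.ev' (i := v' - 1) (j := c') (y := L.yw c') (by omega) (Or.inl g.symm) (by omega)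
            (Or.inr rfl) k1.1 k1.2
        · omega
    · rw [max_lt_iff]
      constructor
      · by_contra hcc
        have g : L.yu v' = L.yu (c' + 1) := by omega
        by_cases k1 : L.lo < L.yu v' ∧ L.yu v' < L.hi
        · exact L.ev' (i := v') (j := c' + 1) (y := L.yu v') (by omega) (Or.inr rfl) (by omega)
            (Or.inl g.symm) k1.1 k1.2
        · omega
      · by_contra hcc
        rcases L.zero c' (by omega) with g | g
        · omega
        · omega

open Classical in
/-- runs through the top -/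
lemma ty_t {v c w a v' c' : ℕ} (h : L.Ht v' c') (hv : v % L.n = v') (hc : c % L.n = c')
    (hw : w % L.n = v' - 1) (ha : a % L.n = (c' + 1) % L.n) :
    L.Ty v' c' (v' - 1)
      (if L.yw c < L.yw w then (true, false, L.conn 1 c true w false true)
      else if L.yu v < L.yu a then (false, true, L.conn 2 v false a true true)
      else (false, false, Pc.valley (min (L.yw c) (L.yu v)) (L.yw c) (L.yu v))) := by
  have hn := L.hn
  have h1 := h.vm
  have h2 := h.mc
  have h3 := h.cn
  have h4 := h.sg.v0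
  have h5 := h.sg.vc
  have e1 : L.yu v = L.yu v' := L.yu_eq (by rw [hv, Nat.mod_eq_of_lt (by omega)])
  have e2 : L.yw c = L.yw c' := L.yw_eq (by rw [hc, Nat.mod_eq_of_lt (by omega)])
  have e3 : L.yu a = L.yu (c' + 1) := L.yu_eq ha
  have e4 : L.yw w = L.yw (v' - 1) := L.yw_eq (by rw [hw, Nat.mod_eq_of_lt (by omega)])
  rw [e1, e2, e3, e4]
  split_ifs with g1 g2
  · rcases L.conn_AB 1 true hc hw h2 h3 (by omega) g1 with
      ⟨g3, g4, g5, g6, g7, g⟩ | ⟨y, g3, g4, g5, g6, g7, g8, g⟩
    · rw [g]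
      exact Ty.t1 h g3 (by omega) g1 g5 g6 g7
    · rw [g]
      exact Ty.t1c h g1 g3 g4 g5 g6 (g8 rfl)
  · rcases L.conn_BA 2 true hv ha h4 h1 (by omega) (by omega) g2 with
      ⟨g3, g4, g5, g6, g7, g⟩ | ⟨y, g3, g4, g5, g6, g7, g8, g⟩
    · rw [g]
      exact Ty.t2 h g3 g4 (by omega) g2 g5 g6 g7
    · rw [g]
      exact Ty.t2c h (by omega) g2 g3 g4 g5 g6 (g8 rfl)
  · have f1 := L.topA h2 h3
    have f2 := L.botB (p := v' - 1) (by omega)
    have f3 := L.botA (p := c' + 1) (by omega) (by omega)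
    have f4 := L.topB h4 h1
    have f5 := L.ru v'
    have f6 := L.rw v'
    have f7 := L.ru c'
    have f8 := L.rw c'
    have f9 := L.ru (v' - 1)
    have f10 := L.rw (v' - 1)
    have f11 := L.ru (c' + 1)
    have f12 := L.rw (c' + 1)
    have f13 := L.mB (i := v' - 1) (j := v') (by omega) h1
    have f14 := L.mA (i := c') (j := c' + 1) h2 (by omega) (by omega)
    have f15 := h.aw
    refine Ty.t3 h (by omega) (by omega) rfl ?_ ?_
    · rw [lt_min_iff]
      constructor
      · by_contra hcc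
        have g : L.yw c' = L.yw (v' - 1) := by omega
        by_cases k1 : L.lo < L.yw c' ∧ L.yw c' < L.hi
        · exact L.ev' (i := c') (j := v' - 1) (y := L.yw c') (by omega) (Or.inl rfl) (by omega)
            (Or.inr g.symm) k1.1 k1.2
        · omega
      · by_contra hcc
        rcases L.zero (v' - 1) (by rw [show v' - 1 + 1 = v' by omega]; omega) with g | g
        · omega
        · omega
    · rw [lt_min_iff]
      constructor
      · by_contra hcc
        rcases L.zero c' (by omega) with g | g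
        · omega
        · omega
      · by_contra hcc
        have g : L.yu v' = L.yu (c' + 1) := by omega
        by_cases k1 : L.lo < L.yu v' ∧ L.yu v' < L.hi
        · exact L.ev' (i := c' + 1) (j := v') (y := L.yu v') (by omega) (Or.inr g.symm) (by omega)
            (Or.inl rfl) k1.1 k1.2
        · omega

/-- The classification of the runs. -/
theorem ty {v : ℕ} (hv : L.IsV v) :
    L.Ty v (L.c v % L.n) (L.w v % L.n) (L.cl v) := by
  have hn := L.hn
  have hm := L.hm
  have hvn := hv.1
  have hc1 := L.c_gt hv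
  have hc2 := L.c_le hv
  have hs : ∀ i, v ≤ i → i < L.c v → L.S i = true := fun i => L.c_S
  have hsc := L.c_spec v
  have hsw := hv.2.2
  have hsn : ∀ i, L.S (i + L.n) = L.S i := L.S_per
  obtain ⟨c, hc⟩ : ∃ c, c = L.c v := ⟨_, rfl⟩
  rw [← hc] at hc1 hc2 hs hsc
  have hwd : L.w v = v + L.n - 1 := rfl
  have had : L.a v = c + 1 := by rw [hc]; rfl
  have hbd : L.hb v ↔ (v = 0 ∨ L.n ≤ c) := by
    unfold hb
    rw [← hc]
    constructor
    · rintro ⟨x, h1, h2, h3⟩
      by_contra hcc
      rw [Nat.mod_eq_of_lt (by omega)] at h3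
      omega
    · rintro (h | h)
      · exact ⟨0, by omega, by omega, Nat.zero_mod _⟩
      · exact ⟨L.n, by omega, h, Nat.mod_self _⟩
  have htd : L.ht v ↔ ((v ≤ L.m ∧ L.m ≤ c) ∨ L.n + L.m ≤ c ∨ (L.m = L.n ∧ v = 0)) := by
    unfold ht
    rw [← hc]
    constructor
    · rintro ⟨x, h1, h2, h3⟩
      by_contra hcc
      rcases Nat.lt_or_ge L.m L.n with h | h
      · rw [Nat.mod_eq_of_lt h] at h3
        rcases Nat.lt_or_ge x L.n with h' | h'
        · rw [Nat.mod_eq_of_lt h'] at h3
          omega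
        · rw [Nat.mod_eq_sub_mod h', Nat.mod_eq_of_lt (by omega)] at h3
          omega
      · have hmn : L.m = L.n := by omega
        rw [hmn, Nat.mod_self] at h3
        rcases Nat.lt_or_ge x L.n with h' | h'
        · rw [Nat.mod_eq_of_lt h'] at h3
          omega
        · omega
    · rintro (h | h | h)
      · exact ⟨L.m, h.1, h.2, rfl⟩
      · exact ⟨L.n + L.m, by omega, h, by rw [Nat.add_mod_left]⟩
      · exact ⟨0, by omega, by omega, by rw [h.1, Nat.mod_self, Nat.zero_mod]⟩
  have m1 : ∀ x, x < L.n → x % L.n = x := fun x hx => Nat.mod_eq_of_lt hx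
  have m2 : ∀ x, L.n ≤ x → x < L.n + L.n → x % L.n = x - L.n := fun x hx hx' => by
    rw [Nat.mod_eq_sub_mod hx, Nat.mod_eq_of_lt (by omega)]
  have m3 : L.n % L.n = 0 := Nat.mod_self _
  have hwm : (v + L.n - 1) % L.n = if v = 0 then L.n - 1 else v - 1 := by
    split_ifs with h
    · rw [m1 _ (by omega)]; omega
    · rw [m2 _ (by omega) (by omega)]; omega
  have hcm : c % L.n = if c < L.n then c else c - L.n := by
    split_ifs with h
    · rw [m1 _ (by omega)]
    · rw [m2 _ (by omega) (by omega)]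
  have hcm1 : L.S (c % L.n) = false := by
    rw [L.S_eq (Nat.mod_mod c L.n), hsc]
  have hwm1 : L.S ((v + L.n - 1) % L.n) = false := by
    rw [L.S_eq (Nat.mod_mod _ L.n), hsw]
  have hsw2 : ∀ x, x + 1 = v → L.S x = false := by
    intro x hx
    rw [← hsn x, show x + L.n = v + L.n - 1 by omega]
    exact hsw
  unfold cl
  rw [had, hwd, ← hc]
  by_cases h0 : c + 1 = v + L.n - 1
  · -- `a = w`
    rw [if_pos h0]
    refine Ty.none (Nat.mod_lt _ (by omega)) ?_ ?_ ?_ hcm1 hwm1
    · rw [Nat.mod_add_mod, ← h0]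
    · rw [hwm]
      split_ifs with h
      · rw [show L.n - 1 + 1 = L.n by omega, m3, h]
      · rw [show v - 1 + 1 = v by omega, m1 v hvn]
    · intro i hi hic hiw
      rcases Nat.lt_or_ge i v with h | h
      · rw [← hsn i]
        refine hs _ (by omega) ?_
        by_contra hcc
        rw [hwm, if_neg (by omega)] at hiw
        rw [hcm] at hic
        split_ifs at hic <;> omega
      · refine hs _ h ?_
        by_contra hcc
        rw [hcm] at hic
        rw [hwm] at hiw
        split_ifs at hic hiw <;> omega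
  rw [if_neg h0]
  by_cases hb : L.hb v
  · by_cases ht : L.ht v
    · rw [if_pos ⟨hb, ht⟩]
      rw [hbd] at hb
      rw [htd] at ht
      rcases Nat.eq_zero_or_pos v with hv0 | hv0
      · have hcn : c < L.n := by omega
        have hz : L.Zg (c + 1) (L.n - 1) :=
          { a0 := by omega
            aw := by omega
            wn := by omega
            s1 := fun i hi => hs i (by omega) (by omega)
            s2 := fun i hi hi' => by omega
            sw := by rw [← hsw, hv0, Nat.zero_add]
            sa := by rw [Nat.add_sub_cancel]; exact hsc }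
        rw [if_pos hv0] at hwm
        rw [if_pos hcn] at hcm
        rcases Nat.lt_or_ge L.m L.n with hmn | hmn
        · obtain ⟨k1, k2, k3, k4⟩ := L.conn_AA 1 (p := v + L.n - 1) (q := c + 1)
            (p' := L.n - 1) (q' := c + 1) false hwm
            (m1 _ (by omega)) (by omega) (by omega) (by omega)
          rw [if_pos (by rw [hwm]; omega), hwm, hcm, k1]
          have := Ty.ZA (L := L) (v := v) (a := c + 1) (w := L.n - 1) (by omega) hz
            (by rw [show L.n - 1 + 1 = L.n by omega, m3, hv0]) k2 k3 k4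
          rwa [Nat.add_sub_cancel] at this
        · obtain ⟨k1, k2, k3, k4⟩ := L.conn_BB 2 (p := c + 1) (q := v + L.n - 1)
            (p' := c + 1) (q' := L.n - 1) true (m1 _ (by omega)) hwm (by omega) (by omega)
            (by omega)
          rw [if_neg (by rw [hwm]; omega), hwm, hcm, k1]
          have := Ty.ZB (L := L) (v := v) (a := c + 1) (w := L.n - 1) (by omega) hz
            (by rw [show L.n - 1 + 1 = L.n by omega, m3, hv0]) k2 k3 k4
          rwa [Nat.add_sub_cancel] at this
      · have hcn : L.n ≤ c := by omega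
        have hcn2 : c < L.n + L.n := by omega
        rw [if_neg (by omega)] at hwm
        rw [if_neg (by omega)] at hcm
        have hz : L.Zg (c - L.n + 1) (v - 1) :=
          { a0 := by omega
            aw := by omega
            wn := by omega
            s1 := fun i hi => by
              rw [← hsn i]
              exact hs _ (by omega) (by omega)
            s2 := fun i hi hi' => hs i (by omega) (by omega)
            sw := hsw2 _ (by omega)
            sa := by
              rw [Nat.add_sub_cancel, ← hsn, show c - L.n + L.n = c by omega]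
              exact hsc }
        rcases Nat.lt_or_ge L.m v with hmv | hmv
        · obtain ⟨k1, k2, k3, k4⟩ := L.conn_AA 1 (p := v + L.n - 1) (q := c + 1)
            (p' := v - 1) (q' := c - L.n + 1) false hwm
            (by rw [m2 _ (by omega) (by omega)]; omega) (by omega) (by omega) (by omega)
          rw [if_pos (by rw [hwm]; omega), hwm, hcm, k1]
          have := Ty.ZA (L := L) (v := v) (a := c - L.n + 1) (w := v - 1) (by omega) hz
            (by rw [show v - 1 + 1 = v by omega, m1 v hvn]) k2 k3 k4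
          rwa [Nat.add_sub_cancel] at this
        · obtain ⟨k1, k2, k3, k4⟩ := L.conn_BB 2 (p := c + 1) (q := v + L.n - 1)
            (p' := c - L.n + 1) (q' := v - 1) true
            (by rw [m2 _ (by omega) (by omega)]; omega) hwm (by omega) (by omega) (by omega)
          rw [if_neg (by rw [hwm]; omega), hwm, hcm, k1]
          have := Ty.ZB (L := L) (v := v) (a := c - L.n + 1) (w := v - 1) (by omega) hz
            (by rw [show v - 1 + 1 = v by omega, m1 v hvn]) k2 k3 k4
          rwa [Nat.add_sub_cancel] at this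
    · rw [if_neg (by tauto), if_pos hb]
      rw [hbd] at hb
      rw [htd] at ht
      rcases Nat.eq_zero_or_pos v with hv0 | hv0
      · have hcn : c < L.m := by omega
        have hH : L.Hb L.n c :=
          { mv := by omega
            vn := le_refl _
            cm := hcn
            s1 := fun i hi hi' => by omega
            s2 := fun i hi => hs i (by omega) (by omega)
            sv := by rw [← hsw, hv0, Nat.zero_add]
            sc := hsc
            ne := by omega
            aw := by omega }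
        rw [if_pos hv0] at hwm
        rw [if_pos (by omega)] at hcm
        have := L.ty_b (v := v) (c := c) (w := v + L.n - 1) (a := c + 1) hH
          (by rw [hv0, m3, Nat.zero_mod]) hcm hwm (m1 _ (by omega))
        rw [hwm, hcm]
        rw [m3, ← hv0] at this
        exact this
      · have hmv : L.m < v := by omega
        rw [if_neg (by omega)] at hwm
        rw [if_neg (by omega)] at hcm
        have hH : L.Hb v (c - L.n) :=
          { mv := hmv
            vn := hvn.le
            cm := by omega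
            s1 := fun i hi hi' => hs i (by omega) (by omega)
            s2 := fun i hi => by
              rw [← hsn i]
              exact hs _ (by omega) (by omega)
            sv := hsw2 _ (by omega)
            sc := by
              rw [← hsn, show c - L.n + L.n = c by omega]
              exact hsc
            ne := by omega
            aw := by omega }
        have := L.ty_b (v := v) (c := c) (w := v + L.n - 1) (a := c + 1) hH
          rfl hcm hwm (by rw [m2 _ (by omega) (by omega)]; omega)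
        rw [hwm, hcm]
        rw [m1 v hvn] at this
        exact this
  · have hv0 : 0 < v := by
      rw [hbd] at hb; omega
    have hcn : c < L.n := by
      rw [hbd] at hb; omega
    rw [if_neg (by omega)] at hwm
    rw [if_pos hcn] at hcm
    have hsg : L.Sg v c :=
      { v0 := hv0
        vc := hc1
        s := hs
        sv := hsw2 _ (by omega)
        sc := hsc }
    rw [if_neg (by tauto), if_neg hb]
    by_cases ht : L.ht v
    · rw [if_pos ht]
      rw [htd] at ht
      have hT : L.Ht v c :=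
        { vm := by omega
          mc := by omega
          cn := hcn
          sg := hsg
          aw := by omega }
      have := L.ty_t (v := v) (c := c) (w := v + L.n - 1) (a := c + 1) hT
        (m1 _ hvn) hcm hwm rfl
      rw [hwm, hcm]
      exact this
    · rw [if_neg ht]
      rw [htd] at ht
      rcases Nat.lt_or_ge L.m v with hmv | hmv
      · obtain ⟨k1, k2, k3, k4⟩ := L.conn_AA 0 (p := c) (q := v) (p' := c) (q' := v) false
          (m1 _ hcn) (m1 _ hvn) hmv hc1 hcn
        rw [if_pos hmv, hwm, hcm, k1]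
        exact Ty.A0 hmv hcn hsg k2 k3 k4
      · obtain ⟨k1, k2, k3, k4⟩ := L.conn_BB 3 (p := v) (q := c) (p' := v) (q' := c) true
          (m1 _ hvn) (m1 _ hcn) hv0 hc1 (by omega)
        rw [if_neg (by omega), hwm, hcm, k1]
        exact Ty.B0 (by omega) hsg k2 k3 k4

end LC

end Pool.Agent.MP42D
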