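import Pool.Agent.MP42.D.Word

/-!
# Piece D2: words, general lemmas (owner helper18)
-/

set_option autoImplicit false
set_option linter.unusedSectionVars false

namespace Pool.Agent.MP42D

/-! ## Reduction -/

lemma Red.pair {τ : Type*} (u v : List (Bool × τ)) (t : τ) :
    Red (u ++ (true, t) :: (false, t) :: v) (u ++ v) := Red.step u v t (Red.refl _)

lemma Red.tail1 {τ : Type*} (a : Bool × τ) (t : τ) : Red [a, (true, t), (false, t)] [a] :=
  Red.step [a] [] t (Red.refl _)

lemma Red.head1 {τ : Type*} (a : Bool × τ) (t : τ) : Red [(true, t), (false, t), a] [a] :=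
  Red.step [] [a] t (Red.refl _)

lemma Red.mid1 {τ : Type*} (t : τ) : Red [(true, t), (false, t)] [] :=
  Red.step [] [] t (Red.refl _)

lemma Red.two {τ : Type*} (t t' : τ) :
    Red [(true, t), (false, t), (true, t'), (false, t')] [] :=
  Red.step [] _ t (Red.mid1 t')

@[simp] lemma opt_true {α : Type*} (a : α) : opt true a = [a] := rfl
@[simp] lemma opt_false {α : Type*} (a : α) : opt false a = [] := rfl

lemma sl4_eq {α : Type*} (f : Fin 4 → List α) : sl4 f = f 0 ++ f 1 ++ f 2 ++ f 3 := rfl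
lemma ls4_eq {α : Type*} (f : Fin 4 → List α) : ls4 f = f 3 ++ f 2 ++ f 1 ++ f 0 := rfl

namespace KD

variable {τ : Type*} (K : KD τ)

lemma cts_zero (y : ℤ) : K.cts y 0 = [] := rfl

lemma cts_succ (y : ℤ) (l : ℕ) : K.cts y (l + 1) = K.cts y l ++ K.ct (y + l) := by
  unfold cts
  rw [List.range_succ, List.flatMap_append]
  simp

lemma cts_add (y : ℤ) (l l' : ℕ) : K.cts y (l + l') = K.cts y l ++ K.cts (y + l) l' := by
  induction l' with
  | zero => simp [cts_zero]
  | succ l' ih =>
    rw [← add_assoc, cts_succ, ih, cts_succ, List.append_assoc]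
    congr 3
    push_cast
    ring

lemma cts_nil {y : ℤ} {l : ℕ} (h : ∀ j < l, K.ct (y + j) = []) : K.cts y l = [] := by
  induction l with
  | zero => rfl
  | succ l ih =>
    rw [cts_succ, ih (fun j hj => h j (by omega)), h l (by omega)]
    rfl

lemma cts_nil' {w u : ℤ} (h : ∀ y, w ≤ y → y < u → K.ct y = []) : K.cts w (u - w).toNat = [] :=
  K.cts_nil fun j hj => h _ (by omega) (by omega)

lemma cts_one' {w u y : ℤ} (h1 : w ≤ y) (h2 : y < u)
    (h : ∀ z, w ≤ z → z < u → z ≠ y → K.ct z = []) : K.cts w (u - w).toNat = K.ct y := by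
  have e : (u - w).toNat = (y - w).toNat + (1 + (u - y - 1).toNat) := by omega
  rw [e, cts_add, cts_add]
  have e1 : K.cts w (y - w).toNat = [] := K.cts_nil fun j hj => h _ (by omega) (by omega) (by omega)
  have e2 : K.cts (w + ((y - w).toNat : ℤ)) 1 = K.ct y := by
    rw [cts_succ, cts_zero]
    have : w + ((y - w).toNat : ℤ) + ((0 : ℕ) : ℤ) = y := by omega
    rw [this]
    rfl
  have e3 : K.cts (w + ((y - w).toNat : ℤ) + ((1 : ℕ) : ℤ)) (u - y - 1).toNat = [] :=
    K.cts_nil fun j hj => h _ (by omega) (by omega) (by omega)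
  rw [e1, e2, e3]
  simp

lemma cts_two' {w u y y' : ℤ} (h1 : w ≤ y) (h12 : y < y') (h2 : y' < u)
    (h : ∀ z, w ≤ z → z < u → z ≠ y → z ≠ y' → K.ct z = []) :
    K.cts w (u - w).toNat = K.ct y ++ K.ct y' := by
  have e : (u - w).toNat = (y' - w).toNat + (u - y').toNat := by omega
  rw [e, cts_add]
  have e1 : K.cts w (y' - w).toNat = K.ct y :=
    K.cts_one' h1 h12 (fun z hz1 hz2 hz3 => h z hz1 (by omega) hz3 (by omega))
  have e2 : w + ((y' - w).toNat : ℤ) = y' := by omega
  rw [e1, e2]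
  congr 1
  exact K.cts_one' le_rfl h2 (fun z hz1 hz2 hz3 => h z (by omega) hz2 (by omega) hz3)

end KD

end Pool.Agent.MP42D
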