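import Pool.Agent.MP42.D.CombK
import Pool.Agent.MP42.D.CombW

/-!
# Piece D2: tracks (owner helper18)
-/

set_option autoImplicit false
set_option linter.unusedSectionVars false

namespace Pool.Agent.MP42D

namespace LC

variable (L : LC)

/-- the tracks, by the types of the runs -/
inductive TK : ℕ → Fin 4 → ℤ → ℤ → Prop
  | A0 {v c : ℕ} (mv : L.m < v) (cn : c < L.n) (h : L.Sg v c) : TK v 0 (L.yu c) (L.yw v)
  | B0 {v c : ℕ} (cm : c < L.m) (h : L.Sg v c) : TK v 3 (L.yw v) (L.yu c)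
  | ZA {v a w : ℕ} (ma : L.m < a) (h : L.Zg a w) (hv : v = (w + 1) % L.n) :
      TK v 1 (L.yu w) (L.yw a)
  | ZB {v a w : ℕ} (wm : w < L.m) (h : L.Zg a w) (hv : v = (w + 1) % L.n) :
      TK v 2 (L.yw a) (L.yu w)
  | b1 {v c : ℕ} (h : L.Hb v c) (h1 : c + 1 < L.m) (h2 : v < L.n)
      (h3 : L.yu (c + 1) < L.yu v) (h4 : L.yw (c + 1) ≤ L.yw v) :
      TK v 1 (L.yw (c + 1)) (L.yw v)
  | b2 {v c : ℕ} (h : L.Hb v c) (h1 : L.m + 1 < v) (h2 : 0 < c) (h0 : L.yu v ≤ L.yu (c + 1))
      (h3 : L.yw (v - 1) < L.yw c) (h4 : L.yu (v - 1) ≤ L.yu c) :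
      TK (v % L.n) 2 (L.yu (v - 1)) (L.yu c)
  | t1 {v c : ℕ} (h : L.Ht v c) (h1 : L.m < c) (h2 : 1 < v) (h3 : L.yw c < L.yw (v - 1))
      (h4 : L.yu c ≤ L.yu (v - 1)) :
      TK v 1 (L.yu c) (L.yu (v - 1))
  | t2 {v c : ℕ} (h : L.Ht v c) (h1 : v < L.m) (h2 : c + 1 < L.n) (h0 : L.yw (v - 1) ≤ L.yw c)
      (h3 : L.yu v < L.yu (c + 1)) (h4 : L.yw v ≤ L.yw (c + 1)) :
      TK v 2 (L.yw v) (L.yw (c + 1))

theorem tk {v : ℕ} (hv : L.IsV v) {s : Fin 4} {y1 y2 : ℤ}
    (h : (L.cl v).2.2 = Pc.trk s y1 y2) : L.TK v s y1 y2 := by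
  have h0 := L.ty hv
  generalize L.c v % L.n = c0 at h0
  generalize L.w v % L.n = w0 at h0
  generalize hk : L.cl v = k at h0 h
  have hvn := hv.1
  cases h0 with
  | none => cases h
  | A0 mv cn h' => injection h with e1 e2 e3; subst e1 e2 e3; exact TK.A0 mv cn h'
  | B0 cm h' => injection h with e1 e2 e3; subst e1 e2 e3; exact TK.B0 cm h'
  | ZA ma h' hv' => injection h with e1 e2 e3; subst e1 e2 e3; exact TK.ZA ma h' hv'
  | ZB ma h' hv' => injection h with e1 e2 e3; subst e1 e2 e3; exact TK.ZB ma h' hv'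
  | b1 h' h1 h2 h3 t1 t2 t3 =>
    injection h with e1 e2 e3
    subst e1 e2 e3
    rw [Nat.mod_eq_of_lt h2]
    exact TK.b1 h' h1 h2 h3 t2.le
  | b1c => cases h
  | b2 h' h1 h2 h0 h3 t1 t2 t3 =>
    injection h with e1 e2 e3
    subst e1 e2 e3
    exact TK.b2 h' h1 h2 h0 h3 t2.le
  | b2c => cases h
  | b3 => cases h
  | t1 h' h1 h2 h3 t1 t2 t3 =>
    injection h with e1 e2 e3; subst e1 e2 e3; exact TK.t1 h' h1 h2 h3 t2.le
  | t1c => cases h
  | t2 h' h1 h2 h0 h3 t1 t2 t3 =>
    injection h with e1 e2 e3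
    subst e1 e2 e3
    exact TK.t2 h' h1 h2 h0 h3 t2.le
  | t2c => cases h
  | t3 => cases h

/-- the ends of a track are in the interior -/
theorem TK.pos {v : ℕ} {s : Fin 4} {y1 y2 : ℤ} (h : L.TK v s y1 y2) :
    L.lo < y1 ∧ y1 < y2 ∧ y2 < L.hi := by
  cases h with
  | A0 mv cn h =>
    rename_i c
    have e1 := L.dnc v mv (by have := h.vc; omega)
    have e2 := L.dnc c (by have := h.vc; omega) cn
    have e3 := L.sepA mv.le h.vc cn.le e1 e2
    have e4 := L.rw c
    have e5 := L.ru v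
    omega
  | B0 cm h =>
    rename_i c
    have e1 := L.upc v h.v0 (by have := h.vc; omega)
    have e2 := L.upc c (by have := h.vc; omega) cm
    have e3 := L.sepB h.vc cm.le e1 e2
    have e4 := L.rw c
    have e5 := L.ru v
    omega
  | ZA ma h hv =>
    rename_i a w
    have e1 := L.dnc a ma (by have := h.aw; have := h.wn; omega)
    have e2 := L.dnc w (by have := h.aw; omega) h.wn
    have e3 := L.sepA ma.le h.aw h.wn.le e1 e2
    have e4 := L.rw w
    have e5 := L.ru a
    omega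
  | ZB wm h hv =>
    rename_i a w
    have e1 := L.upc a h.a0 (by have := h.aw; omega)
    have e2 := L.upc w (by have := h.aw; omega) wm
    have e3 := L.sepB h.aw wm.le e1 e2
    have e4 := L.rw w
    have e5 := L.ru a
    omega
  | b1 h h1 h2 h3 h4 =>
    rename_i c
    have e1 := L.dnc v h.mv h2
    have e2 := L.upc (c + 1) (by omega) h1
    have e4 := L.ru (c + 1)
    have e5 := L.ru v
    refine ⟨by omega, ?_, by omega⟩
    by_contra hcc
    exact L.ev' (i := v) (j := c + 1) (y := L.yw v) e1 (Or.inl rfl) e2 (Or.inr (by omega))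
      (by omega) (by omega)
  | b2 h h1 h2 h0 h3 h4 =>
    rename_i v c
    have hvn := h.vn
    have e1 := L.dnc (v - 1) (by omega) (by omega)
    have e2 := L.upc c h2 h.cm
    have e4 := L.rw (v - 1)
    have e5 := L.rw c
    refine ⟨by omega, ?_, by omega⟩
    by_contra hcc
    exact L.ev' (i := v - 1) (j := c) (y := L.yu c) e1 (Or.inr (by omega)) e2 (Or.inl rfl)
      (by omega) (by omega)
  | t1 h h1 h2 h3 h4 =>
    rename_i c
    have hvm := h.vm
    have e1 := L.dnc c h1 h.cn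
    have e2 := L.upc (v - 1) (by omega) (by omega)
    have e4 := L.rw c
    have e5 := L.rw (v - 1)
    refine ⟨by omega, ?_, by omega⟩
    by_contra hcc
    exact L.ev' (i := c) (j := v - 1) (y := L.yu c) e1 (Or.inr rfl) e2 (Or.inl (by omega))
      (by omega) (by omega)
  | t2 h h1 h2 h0 h3 h4 =>
    rename_i c
    have hmc := h.mc
    have hv0 := h.sg.v0
    have e1 := L.dnc (c + 1) (by omega) h2
    have e2 := L.upc v hv0 h1
    have e4 := L.ru v
    have e5 := L.ru (c + 1)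
    refine ⟨by omega, ?_, by omega⟩
    by_contra hcc
    exact L.ev' (i := c + 1) (j := v) (y := L.yw v) e1 (Or.inl (by omega)) e2 (Or.inr rfl)
      (by omega) (by omega)

/-! ### S facts -/

variable {L}

lemma Sg.sep {v c v' c' : ℕ} (h : L.Sg v c) (h' : L.Sg v' c') : v = v' ∨ c < v' ∨ c' < v := by
  by_contra hcc
  have h0 := h.v0
  have h0' := h'.v0
  rcases lt_trichotomy v v' with hlt | hlt | hlt
  · have := h.s (v' - 1) (by omega) (by omega)
    rw [h'.sv] at this
    cases this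
  · omega
  · have := h'.s (v - 1) (by omega) (by omega)
    rw [h.sv] at this
    cases this

lemma Zg.uniq {a w a' w' : ℕ} (h : L.Zg a w) (h' : L.Zg a' w') : a = a' ∧ w = w' := by
  have h0 := h.a0
  have h0' := h'.a0
  constructor
  · rcases lt_trichotomy a a' with hlt | hlt | hlt
    · have := h'.s1 (a - 1) (by omega)
      rw [h.sa] at this; cases this
    · exact hlt
    · have := h.s1 (a' - 1) (by omega)
      rw [h'.sa] at this; cases this
  · rcases lt_trichotomy w w' with hlt | hlt | hlt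
    · have := h.s2 w' hlt h'.wn
      rw [h'.sw] at this; cases this
    · exact hlt
    · have := h'.s2 w hlt h.wn
      rw [h.sw] at this; cases this

/-- a non child is between `a - 1` and `w` -/
lemma Zg.mem {a w i : ℕ} (h : L.Zg a w) (hi : i < L.n) (hS : L.S i = false) :
    a ≤ i + 1 ∧ i ≤ w := by
  constructor
  · by_contra hcc
    rw [h.s1 i (by omega)] at hS; cases hS
  · by_contra hcc
    rw [h.s2 i (by omega) hi] at hS; cases hS

/-- a non child is between `c` and `v - 1` -/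
lemma Hb.mem {v c i : ℕ} (h : L.Hb v c) (hi : i < L.n) (hS : L.S i = false) :
    c ≤ i ∧ i < v := by
  constructor
  · by_contra hcc
    rw [h.s2 i (by omega)] at hS; cases hS
  · by_contra hcc
    rw [h.s1 i (by omega) hi] at hS; cases hS

lemma Hb.uniq {v c v' c' : ℕ} (h : L.Hb v c) (h' : L.Hb v' c') : v = v' ∧ c = c' := by
  have h1 := h.mv
  have h2 := h.vn
  have h3 := h.cm
  have h1' := h'.mv
  have h2' := h'.vn
  have h3' := h'.cm
  have e1 := h.mem (i := v' - 1) (by omega) h'.sv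
  have e2 := h'.mem (i := v - 1) (by omega) h.sv
  have e3 := h.mem (i := c') (by omega) h'.sc
  have e4 := h'.mem (i := c) (by omega) h.sc
  omega

lemma Ht.uniq {v c v' c' : ℕ} (h : L.Ht v c) (h' : L.Ht v' c') : v = v' := by
  have h1 := h.vm
  have h2 := h.mc
  have h1' := h'.vm
  have h2' := h'.mc
  rcases h.sg.sep h'.sg with e | e | e <;> omega

lemma Hb.notZA {v c a w : ℕ} (h : L.Hb v c) (h' : L.Zg a w) (ma : L.m < a) : False := by
  have h3 := h.cm
  have h1 := h.mv
  have h2 := h.vn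
  have e := h'.mem (i := c) (by omega) h.sc
  omega

lemma Hb.notZB {v c a w : ℕ} (h : L.Hb v c) (h' : L.Zg a w) (ma : w < L.m) : False := by
  have h3 := h.cm
  have h1 := h.mv
  have h2 := h.vn
  have e := h'.mem (i := v - 1) (by omega) h.sv
  omega

lemma Ht.notZA {v c a w : ℕ} (h : L.Ht v c) (h' : L.Zg a w) (ma : L.m < a) : False := by
  have h3 := h.vm
  have h1 := h.mc
  have h2 := h.cn
  have h4 := h.sg.v0
  have e := h'.mem (i := v - 1) (by omega) h.sg.sv
  omega

lemma Ht.notZB {v c a w : ℕ} (h : L.Ht v c) (h' : L.Zg a w) (ma : w < L.m) : False := by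
  have h3 := h.vm
  have h1 := h.mc
  have h2 := h.cn
  have e := h'.mem (i := c) (by omega) h.sg.sc
  omega

/-- the run through the top is between the ends of the run through the bottom -/
lemma Hb.Ht {v c v' c' : ℕ} (h : L.Hb v c) (h' : L.Ht v' c') : c < v' ∧ c' < v := by
  have h1 := h.mv
  have h2 := h.vn
  have h3 := h.cm
  have h4 := h'.vm
  have h5 := h'.mc
  have h6 := h'.cn
  have h7 := h'.sg.v0
  have h8 := h'.sg.vc
  have e1 := h.mem (i := v' - 1) (by omega) h'.sg.sv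
  have e2 := h.mem (i := c') (by omega) h'.sg.sc
  omega

variable (L)

/-- two tracks in the same slot are separated -/
theorem TK.sep {v v' : ℕ} {s : Fin 4} {y1 y2 y1' y2' : ℤ} (h : L.TK v s y1 y2)
    (h' : L.TK v' s y1' y2') : v = v' ∨ y2 < y1' ∨ y2' < y1 := by
  have keyA : ∀ {v c v' c' : ℕ}, L.m < v → L.Sg v c → L.Sg v' c' → c' < L.n → c < v' →
      L.yw v' < L.yu c := by
    intro v c v' c' mv h h' cn' hlt
    have e0 := h.vc
    have e0' := h'.vc
    have e1 := L.dnc c (by omega) (by omega)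
    have e2 := L.dnc v' (by omega) (by omega)
    have e3 := L.mA (i := c) (j := v') (by omega) hlt (by omega)
    omega
  have keyB : ∀ {v c v' c' : ℕ}, L.Sg v c → L.Sg v' c' → c' < L.m → c < v' →
      L.yu c < L.yw v' := by
    intro v c v' c' h h' cn' hlt
    have e0 := h.vc
    have e0' := h'.vc
    have e1 := L.upc c (by omega) (by omega)
    have e2 := L.upc v' (by omega) (by omega)
    have e3 := L.mB (i := c) (j := v') hlt (by omega)
    omega
  cases h with
  | A0 mv cn h =>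
    cases h' with
    | A0 mv' cn' h' =>
      rcases h.sep h' with e | e | e
      · exact Or.inl e
      · exact Or.inr (Or.inr (keyA mv h h' cn' e))
      · exact Or.inr (Or.inl (keyA mv' h' h cn e))
  | B0 cm h =>
    cases h' with
    | B0 cm' h' =>
      rcases h.sep h' with e | e | e
      · exact Or.inl e
      · exact Or.inr (Or.inl (keyB h h' cm' e))
      · exact Or.inr (Or.inr (keyB h' h cm e))
  | ZA ma h hv =>
    cases h' with
    | ZA ma' h' hv' =>
      left
      rw [hv, hv', (h.uniq h').2]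
    | b1 h' => exact (h'.notZA h ma).elim
    | t1 h' => exact (h'.notZA h ma).elim
  | ZB ma h hv =>
    cases h' with
    | ZB ma' h' hv' =>
      left
      rw [hv, hv', (h.uniq h').2]
    | b2 h' => exact (h'.notZB h ma).elim
    | t2 h' => exact (h'.notZB h ma).elim
  | b1 h h1 h2 h3 h4 =>
    cases h' with
    | ZA ma' h' hv' => exact (h.notZA h' ma').elim
    | b1 h' => exact Or.inl (h.uniq h').1
    | t1 h' h1' h2' h3' h4' =>
      rename_i c'
      right; left
      have e := h.Ht h'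
      have e1 := L.dnc c' h1' h'.cn
      have e2 := L.dnc v h.mv h2
      have e3 := L.mA (i := c') (j := v) h1'.le e.2 h2.le
      omega
  | b2 h h1 h2 h0 h3 h4 =>
    rename_i vv cc
    cases h' with
    | ZB ma' h' hv' => exact (h.notZB h' ma').elim
    | b2 h' =>
      left
      rw [(h.uniq h').1]
    | t2 h' h1' h2' h0' h3' h4' =>
      right; left
      have e := h.Ht h'
      have e1 := L.upc cc h2 h.cm
      have e2 := L.upc v' h'.sg.v0 h1'
      have e3 := L.mB (i := cc) (j := v') e.1 h1'.le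
      omega
  | t1 h h1 h2 h3 h4 =>
    rename_i c
    cases h' with
    | ZA ma' h' hv' => exact (h.notZA h' ma').elim
    | b1 h' h1' h2' h3' h4' =>
      right; right
      have e := h'.Ht h
      have e1 := L.dnc c h1 h.cn
      have e2 := L.dnc v' h'.mv h2'
      have e3 := L.mA (i := c) (j := v') h1.le e.2 h2'.le
      omega
    | t1 h' => exact Or.inl (h.uniq h')
  | t2 h h1 h2 h0 h3 h4 =>
    cases h' with
    | ZB ma' h' hv' => exact (h.notZB h' ma').elim
    | b2 h' h1' h2' h0' h3' h4' =>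
      rename_i vv cc
      right; right
      have e := h'.Ht h
      have e1 := L.upc cc h2' h'.cm
      have e2 := L.upc v h.sg.v0 h1
      have e3 := L.mB (i := cc) (j := v) e.1 h1.le
      omega
    | t2 h' => exact Or.inl (h.uniq h')

/-! ## The letters of the tracks -/

lemma pick_of {p : ℕ → Prop} {v : ℕ} (hv : L.IsV v) (h : p v)
    (hu : ∀ v', L.IsV v' → p v' → v' = v) : L.pick p = v := by
  unfold pick
  have hex : ∃ v, L.IsV v ∧ p v := ⟨v, hv, h⟩
  rw [dif_pos hex]
  exact hu _ hex.choose_spec.1 hex.choose_spec.2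

lemma M_iffT (s : Fin 4) (y : ℤ) : L.K.M s y = true ↔ ∃ v, L.IsV v ∧ L.isM s y v := by
  simp only [K, decide_eq_true_eq]

lemma isM_unique {s : Fin 4} {y : ℤ} {v v' : ℕ} (hv : L.IsV v) (hv' : L.IsV v')
    (h : L.isM s y v) (h' : L.isM s y v') : v = v' := by
  obtain ⟨y1, y2, e, h1, h2⟩ := h
  obtain ⟨y1', y2', e', h1', h2'⟩ := h'
  rcases TK.sep L (L.tk hv e) (L.tk hv' e') with h | h | h
  · exact h
  · omega
  · omega

lemma tM_of {s : Fin 4} {y : ℤ} {v : ℕ} (hv : L.IsV v) (h : L.isM s y v) : L.K.tM s y = v :=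
  L.pick_of hv h fun _ hv' h' => L.isM_unique hv' hv h' h

/-- the letter of a track that ends at `y` -/
noncomputable def oE (b : Bool) (s : Fin 4) (y : ℤ) : List (Bool × ℕ) :=
  opt (L.K.M s (y - 1) && !L.K.M s y) (b, L.K.tM s (y - 1))

/-- the letter of a track that starts at `y` -/
noncomputable def oS (b : Bool) (s : Fin 4) (y : ℤ) : List (Bool × ℕ) :=
  opt (L.K.M s y && !L.K.M s (y - 1)) (b, L.K.tM s y)

lemma oE_of {b : Bool} {v : ℕ} (hv : L.IsV v) {s : Fin 4} {y1 y2 : ℤ}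
    (h : (L.cl v).2.2 = Pc.trk s y1 y2) : L.oE b s y2 = [(b, v)] := by
  have hp := TK.pos L (L.tk hv h)
  have h1 : L.isM s (y2 - 1) v := ⟨y1, y2, h, by omega, by omega⟩
  have h2 : L.K.M s (y2 - 1) = true := (L.M_iffT s _).2 ⟨v, hv, h1⟩
  have h3 : L.K.M s y2 = false := by
    rw [← Bool.not_eq_true, L.M_iffT]
    rintro ⟨v', hv', y1', y2', e', k1, k2⟩
    rcases TK.sep L (L.tk hv h) (L.tk hv' e') with k | k | k
    · subst k
      rw [h] at e'
      injection e' with e1 e2 e3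
      omega
    · omega
    · have := TK.pos L (L.tk hv' e')
      omega
  unfold oE
  rw [h2, h3, L.tM_of hv h1]
  rfl

lemma oE_nil {b : Bool} {s : Fin 4} {y : ℤ}
    (h : ∀ v, L.IsV v → ∀ y1, (L.cl v).2.2 ≠ Pc.trk s y1 y) : L.oE b s y = [] := by
  unfold oE
  cases h1 : L.K.M s (y - 1)
  · rfl
  · cases h2 : L.K.M s y
    · exfalso
      obtain ⟨v, hv, y1, y2, e, k1, k2⟩ := (L.M_iffT s _).1 h1
      rw [← Bool.not_eq_true, L.M_iffT] at h2
      apply h2
      refine ⟨v, hv, y1, y2, e, by omega, ?_⟩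
      by_contra hcc
      have : y2 = y := by omega
      subst this
      exact h v hv y1 e
    · rfl

lemma oS_of {b : Bool} {v : ℕ} (hv : L.IsV v) {s : Fin 4} {y1 y2 : ℤ}
    (h : (L.cl v).2.2 = Pc.trk s y1 y2) : L.oS b s y1 = [(b, v)] := by
  have hp := TK.pos L (L.tk hv h)
  have h1 : L.isM s y1 v := ⟨y1, y2, h, by omega, by omega⟩
  have h2 : L.K.M s y1 = true := (L.M_iffT s _).2 ⟨v, hv, h1⟩
  have h3 : L.K.M s (y1 - 1) = false := by
    rw [← Bool.not_eq_true, L.M_iffT]
    rintro ⟨v', hv', y1', y2', e', k1, k2⟩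
    rcases TK.sep L (L.tk hv h) (L.tk hv' e') with k | k | k
    · subst k
      rw [h] at e'
      injection e' with e1 e2 e3
      omega
    · omega
    · omega
  unfold oS
  rw [h2, h3, L.tM_of hv h1]
  rfl

lemma oS_nil {b : Bool} {s : Fin 4} {y : ℤ}
    (h : ∀ v, L.IsV v → ∀ y2, (L.cl v).2.2 ≠ Pc.trk s y y2) : L.oS b s y = [] := by
  unfold oS
  cases h1 : L.K.M s y
  · rfl
  · cases h2 : L.K.M s (y - 1)
    · exfalso
      obtain ⟨v, hv, y1, y2, e, k1, k2⟩ := (L.M_iffT s _).1 h1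
      rw [← Bool.not_eq_true, L.M_iffT] at h2
      apply h2
      refine ⟨v, hv, y1, y2, e, ?_, by omega⟩
      by_contra hcc
      have : y1 = y := by omega
      subst this
      exact h v hv y2 e
    · rfl

/-- the track letters of a corner -/
lemma opA_eq (y : ℤ) : L.K.opA y = L.oE true 0 y ++ L.oE true 1 y ++ L.oE true 2 y ++
    L.oE true 3 y := rfl
lemma clA_eq (y : ℤ) : L.K.clA y = L.oS false 3 y ++ L.oS false 2 y ++ L.oS false 1 y ++
    L.oS false 0 y := rfl
lemma opB_eq (y : ℤ) : L.K.opB y = L.oS true 3 y ++ L.oS true 2 y ++ L.oS true 1 y ++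
    L.oS true 0 y := rfl
lemma clB_eq (y : ℤ) : L.K.clB y = L.oE false 0 y ++ L.oE false 1 y ++ L.oE false 2 y ++
    L.oE false 3 y := rfl

/-! ## Which track ends at an A corner -/

/-- the tracks that end at the bottom of the A corner `i` -/
inductive EA (i : ℕ) : ℕ → Fin 4 → Prop
  | A0 {c : ℕ} (cn : c < L.n) (h : L.Sg i c) : EA i i 0
  | ZA {v w : ℕ} (h : L.Zg i w) (hv : v = (w + 1) % L.n) : EA i v 1
  | b1 {c : ℕ} (h : L.Hb i c) (h1 : c + 1 < L.m)
      (h3 : L.yu (c + 1) < L.yu i) (h4 : L.yw (c + 1) ≤ L.yw i) : EA i i 1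
  | t2 {v c : ℕ} (h : L.Ht v c) (hc : c + 1 = i) (h1 : v < L.m) (h0 : L.yw (v - 1) ≤ L.yw c)
      (h3 : L.yu v < L.yu i) (h4 : L.yw v ≤ L.yw i) : EA i v 2

/-- the tracks that start at the top of the A corner `i` -/
inductive SA (i : ℕ) : ℕ → Fin 4 → Prop
  | A0 {v : ℕ} (mv : L.m < v) (h : L.Sg v i) : SA i v 0
  | ZA {v a : ℕ} (ma : L.m < a) (h : L.Zg a i) (hv : v = (i + 1) % L.n) : SA i v 1
  | b2 {v c : ℕ} (h : L.Hb v c) (hv : v = i + 1) (h2 : 0 < c) (h0 : L.yu v ≤ L.yu (c + 1))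
      (h3 : L.yw i < L.yw c) (h4 : L.yu i ≤ L.yu c) : SA i (v % L.n) 2
  | t1 {v : ℕ} (h : L.Ht v i) (h2 : 1 < v) (h3 : L.yw i < L.yw (v - 1))
      (h4 : L.yu i ≤ L.yu (v - 1)) : SA i v 1

lemma A_inj {i j : ℕ} (hi : L.m < i) (hin : i < L.n) (hj : L.m < j) (hjn : j < L.n)
    (h : L.yw i = L.yw j ∨ L.yu i = L.yu j) : i = j := by
  have e1 := L.dnc i hi hin
  have e2 := L.dnc j hj hjn
  rcases lt_trichotomy i j with hlt | hlt | hlt
  · have := L.mA hi.le hlt hjn.le
    omega
  · exact hlt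
  · have := L.mA hj.le hlt hin.le
    omega

theorem eA {i : ℕ} (hi : L.m < i) (hin : i < L.n) {v : ℕ} (hv : L.IsV v) {s : Fin 4} {y1 : ℤ}
    (htr : (L.cl v).2.2 = Pc.trk s y1 (L.yw i)) : L.EA i v s := by
  have hk := L.tk hv htr
  clear htr hv
  have hp := TK.pos L hk
  have hA := L.dnc i hi hin
  have hB : ∀ j, L.yu j < L.yw j → ∀ y2, (L.yu j = y2 ∨ L.yw j = y2) → L.yw i = y2 → L.lo < y2 →
      y2 < L.hi → False := fun j h1 y2 h2 h3 h4 h5 => L.ev' hA (Or.inl h3) h1 h2 h4 h5
  generalize hy : L.yw i = y2 at hk hp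
  cases hk with
  | A0 mv cn h =>
    have := L.A_inj hi hin mv (by have := h.vc; omega) (Or.inl hy)
    subst this
    exact EA.A0 cn h
  | B0 cm h =>
    rename_i c
    exact (hB c (L.upc c (by have := h.vc; omega) cm) _ (Or.inl rfl) hy (by omega) (by omega)).elim
  | ZA ma h hv =>
    rename_i a w
    have := L.A_inj hi hin ma (by have := h.aw; have := h.wn; omega) (Or.inl hy)
    subst this
    exact EA.ZA h hv
  | ZB wm h hv =>
    rename_i a w
    exact (hB w (L.upc w (by have := h.aw; omega) wm) _ (Or.inl rfl) hy (by omega)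
      (by omega)).elim
  | b1 h h1 h2 h3 h4 =>
    have := L.A_inj hi hin h.mv h2 (Or.inl hy)
    subst this
    exact EA.b1 h h1 h3 h4
  | b2 h h1 h2 h0 h3 h4 =>
    rename_i v c
    exact (hB c (L.upc c h2 h.cm) _ (Or.inl rfl) hy (by omega) (by omega)).elim
  | t1 h h1 h2 h3 h4 =>
    rename_i c
    have := h.vm
    exact (hB (v - 1) (L.upc (v - 1) (by omega) (by omega)) _ (Or.inl rfl) hy (by omega)
      (by omega)).elim
  | t2 h h1 h2 h0 h3 h4 =>
    rename_i c
    have := h.mc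
    have := L.A_inj hi hin (j := c + 1) (by omega) h2 (Or.inl hy)
    subst this
    exact EA.t2 h rfl h1 h0 h3 h4

theorem sA' {i : ℕ} (hi : L.m < i) (hin : i < L.n) {v : ℕ} (hv : L.IsV v) {s : Fin 4} {y2 : ℤ}
    (htr : (L.cl v).2.2 = Pc.trk s (L.yu i) y2) : L.SA i v s := by
  have hk := L.tk hv htr
  clear htr hv
  have hp := TK.pos L hk
  have hA := L.dnc i hi hin
  have hB : ∀ j, L.yu j < L.yw j → ∀ y1, (L.yu j = y1 ∨ L.yw j = y1) → L.yu i = y1 → L.lo < y1 →
      y1 < L.hi → False := fun j h1 y1 h2 h3 h4 h5 => L.ev' hA (Or.inr h3) h1 h2 h4 h5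
  generalize hy : L.yu i = y1 at hk hp
  cases hk with
  | A0 mv cn h =>
    rename_i c
    have := L.A_inj hi hin (j := c) (by have := h.vc; omega) cn (Or.inr hy)
    subst this
    exact SA.A0 mv h
  | B0 cm h =>
    rename_i c
    exact (hB v (L.upc v h.v0 (by have := h.vc; omega)) _ (Or.inr rfl) hy (by omega)
      (by omega)).elim
  | ZA ma h hv =>
    rename_i a w
    have := L.A_inj hi hin (j := w) (by have := h.aw; omega) h.wn (Or.inr hy)
    subst this
    exact SA.ZA ma h hv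
  | ZB wm h hv =>
    rename_i a w
    exact (hB a (L.upc a h.a0 (by have := h.aw; omega)) _ (Or.inr rfl) hy (by omega)
      (by omega)).elim
  | b1 h h1 h2 h3 h4 =>
    rename_i c
    exact (hB (c + 1) (L.upc (c + 1) (by omega) h1) _ (Or.inr rfl) hy (by omega) (by omega)).elim
  | b2 h h1 h2 h0 h3 h4 =>
    rename_i v c
    have := h.vn
    have e := L.A_inj hi hin (j := v - 1) (by omega) (by omega) (Or.inr hy)
    subst e
    exact SA.b2 h (by omega) h2 h0 h3 h4
  | t1 h h1 h2 h3 h4 =>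
    rename_i c
    have := L.A_inj hi hin h1 h.cn (Or.inr hy)
    subst this
    exact SA.t1 h h2 h3 h4
  | t2 h h1 h2 h0 h3 h4 =>
    rename_i c
    exact (hB v (L.upc v h.sg.v0 h1) _ (Or.inr rfl) hy (by omega) (by omega)).elim

end LC

end Pool.Agent.MP42D
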