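import Pool.Agent.MP42.D.Defs

/-!
# Coordinates on `P.refine 7` (owner helper55)

* `st_fe`: a state is given by its facet and its east direction;
* `part F i j`: the part `(i, j)` of the coarse facet `F` in the base frame;
* `can7_y`, `can7_x`: recognition of canonical frames;
* `col s i m`: the line of `P.refine 7` over the column `i` of the coarse state `s`.
-/

set_option autoImplicit false
set_option linter.unusedSectionVars false

namespace Pool.Agent.MP42D

open Pool.Agent.Helper55.UNF Pool.Agent.Helper55.UNF.GridSolid Pool.Agent.MP42G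

variable {P : GridSolid}

lemma st_fe {s t : P.FSt} (h1 : s.facet = t.facet) (h2 : s.1.e = t.1.e) : s = t := by
  apply FSt.ext'
  obtain ⟨⟨c, d, e⟩, hs⟩ := s
  obtain ⟨⟨c', d', e'⟩, ht⟩ := t
  have h3 := congrArg Subtype.val h1
  simp only [FSt.facet, Prod.mk.injEq] at h3
  obtain ⟨rfl, rfl⟩ := h3
  simp only at h2
  subst h2
  rfl

lemma st_n_eq {s t : P.FSt} (h1 : s.facet = t.facet) (h2 : s.1.n = t.1.n) : s = t := by
  apply st_fe h1
  have hd : s.1.d = t.1.d := congrArg (fun g : P.Facet => g.1.2) h1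
  have h3 : opp (cross s.1.d s.1.n) = s.1.e := cross_cross' _ _ s.2.2
  have h4 : opp (cross t.1.d t.1.n) = t.1.e := cross_cross' _ _ t.2.2
  rw [← h3, ← h4, hd, h2]

lemma pN_e (s : P.FSt) (z : ℤ) : ((pN ^ z) s).1.e = s.1.e := by
  have key : ∀ n : ℕ, ∀ s : P.FSt, ((pN ^ n) s).1.e = s.1.e := by
    intro n
    induction n with
    | zero => intro s; rfl
    | succ n ih =>
      intro s
      rw [pow_succ', Equiv.Perm.mul_apply]
      show ((pN ^ n) s).stN.1.e = s.1.e
      rw [FSt.stN_e, ih]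
  obtain ⟨n, rfl | rfl⟩ := Int.eq_nat_or_neg z
  · rw [zpow_natCast]; exact key n s
  · rw [zpow_neg, zpow_natCast]
    have h := key n ((pN ^ n)⁻¹ s)
    rw [← Equiv.Perm.mul_apply, mul_inv_cancel, Equiv.Perm.one_apply] at h
    exact h.symm

lemma pN_e_nat (s : P.FSt) (n : ℕ) : ((pN ^ n) s).1.e = s.1.e := by
  have := pN_e s n
  rwa [zpow_natCast] at this

/-- going north from a state with east `± x` one comes to a wall -/
lemma exists_wall_N (s : P.FSt) (he : s.1.e.1 = 0) : ∃ q : ℕ, ((pN ^ q) s).1.d.1 = 1 := by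
  have three : ∀ a : Fin 3, a ≠ 0 → a ≠ 2 → a = 1 := by decide
  by_cases h1 : s.1.d.1 = 1
  · exact ⟨0, h1⟩
  · have h2 : s.1.d.1 = 2 := by
      have h3 : s.1.d.1 ≠ 0 := fun h => s.2.2 (h.trans he.symm)
      have : ∀ a : Fin 3, a ≠ 0 → a ≠ 1 → a = 2 := by decide
      exact this _ h3 h1
    obtain ⟨j, hj⟩ := MP42.Geo.exists_turn s.rL
    refine ⟨j, ?_⟩
    have h4 : ((pN ^ j) s).1.d.1 = ((pE ^ j) s.rL).1.d.1 := by
      rw [MP42.Geo.pN_pow]; rfl
    apply three
    · have h5 := ((pN ^ j) s).2.2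
      rw [pN_e_nat, he] at h5
      exact h5
    · rw [h4, ← h2]
      exact hj

/-- going south from a state with east `± x` one comes to a wall -/
lemma exists_wall_S (s : P.FSt) (he : s.1.e.1 = 0) :
    ∃ q : ℕ, ((pN ^ (-(q : ℤ))) s).1.d.1 = 1 := by
  obtain ⟨q, hq⟩ := exists_wall_N s.r2 (by show (opp s.1.e).1 = 0; rw [opp_fst]; exact he)
  refine ⟨q, ?_⟩
  have h := FSt.stN_r2_pow s (q : ℤ)
  rw [zpow_natCast] at h
  rw [h] at hq
  exact hq

lemma ix_opp {k : ℕ} (hk : 0 < k) (w : Dir) (c : Fin 3 → ℤ) :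
    ix k (opp w) c = k - 1 - ix k w c := by
  have hk' : (0 : ℤ) < k := by exact_mod_cast hk
  obtain ⟨a, b⟩ := w
  have h4 := Int.emod_nonneg (c a) hk'.ne'
  have h5 := Int.emod_lt_of_pos (c a) hk'
  unfold ix opp
  cases b <;> simp <;> omega

namespace Deco0

/-! ### Parts -/

/-- the part `(i, j)` of a coarse facet in its base frame -/
noncomputable def part (F : P.Facet) (i j : ℕ) (hi : i < 7) (hj : j < 7) : (P.refine 7 h7).Facet :=
  (sub h7 (bf F) i j hi hj).facet

variable {F : P.Facet} {i j : ℕ} {hi : i < 7} {hj : j < 7}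

@[simp] lemma co_part : co h7 (part F i j hi hj) = F := by
  unfold part; rw [co_sub]; rfl

@[simp] lemma fi_part : fi (part F i j hi hj) = i := by
  unfold fi
  rw [co_part]
  exact ix_subC_e _ (bf F).2.2 hi hj

@[simp] lemma fj_part : fj (part F i j hi hj) = j := by
  unfold fj
  rw [co_part]
  exact ix_subC_n _ (bf F).2.2 hi hj

@[simp] lemma sf_part : sf (part F i j hi hj) = sub h7 (bf F) i j hi hj := by
  unfold sf
  exact sub_congr _ _ (by rw [co_part]) fi_part fj_part

lemma part_eta (f : (P.refine 7 h7).Facet) :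
    part (co h7 f) (fi f) (fj f) (fi_lt f) (fj_lt f) = f := sf_facet f

lemma exists_part (f : (P.refine 7 h7).Facet) :
    ∃ (F : P.Facet) (i j : ℕ) (hi : i < 7) (hj : j < 7), f = part F i j hi hj :=
  ⟨_, _, _, _, _, (part_eta f).symm⟩

lemma bf_eq {s : P.FSt} (h : s.1.e = bfE s.1.d) : bf s.facet = s := st_fe rfl h.symm

/-- a coarse state in its base frame -/
lemma sub_bf {s : P.FSt} (h : bf s.facet = s) :
    (sub h7 s i j hi hj).facet = part s.facet i j hi hj := by
  unfold part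
  exact congrArg _ (sub_congr _ _ h.symm rfl rfl)

lemma sub_bf_r2 {s : P.FSt} (h : bf s.facet = s.r2) :
    (sub h7 s i j hi hj).facet = part s.facet (6 - i) (6 - j) (by omega) (by omega) := by
  unfold part
  have h1 := sub_r2 (hk := h7) s hi hj
  have h2 : (sub h7 s i j hi hj).facet = (sub h7 s i j hi hj).r2.facet := rfl
  rw [h2, h1]
  exact congrArg _ (sub_congr _ _ h.symm rfl rfl)

lemma sub_bf_rL {s : P.FSt} (h : bf s.facet = s.rL) :
    (sub h7 s i j hi hj).facet = part s.facet j (6 - i) hj (by omega) := by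
  unfold part
  have h1 := sub_rL (hk := h7) s hi hj
  have h2 : (sub h7 s i j hi hj).facet = (sub h7 s i j hi hj).rL.facet := rfl
  rw [h2, h1]
  exact congrArg _ (sub_congr _ _ h.symm rfl rfl)

lemma sub_bf_rR {s : P.FSt} (h : bf s.facet = s.rR) :
    (sub h7 s i j hi hj).facet = part s.facet (6 - j) i (by omega) hi := by
  unfold part
  have h1 := sub_rR (hk := h7) s hi hj
  have h2 : (sub h7 s i j hi hj).facet = (sub h7 s i j hi hj).rR.facet := rfl
  rw [h2, h1]
  exact congrArg _ (sub_congr _ _ h.symm rfl rfl)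

/-! ### Recognition of the canonical frames -/

variable (D : Deco0 P)

lemma can7_facet0 (f : (P.refine 7 h7).Facet) : (D.can7 f).facet = f := by
  unfold can7
  split_ifs
  · rw [FSt.facet_rL]; exact sf_facet f
  · exact sf_facet f
  · rw [FSt.facet_r2]; exact sf_facet f
  · exact sf_facet f

lemma sf_e (f : (P.refine 7 h7).Facet) : (sf f).1.e = bfE f.1.2 := rfl

lemma sf_d (f : (P.refine 7 h7).Facet) : (sf f).1.d = f.1.2 := rfl

lemma e_aux1 : ∀ d : Dir, d.1 = 2 → cross d (bfE d) = (1, true) := by decide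
lemma e_aux2 : ∀ d : Dir, d.1 = 2 → d.2 = true → bfE d = (0, true) := by decide
lemma e_aux3 : ∀ d : Dir, d.1 = 2 → ¬ d.2 = true → opp (bfE d) = (0, true) := by decide
lemma e_aux4 : ∀ d : Dir, d.1 = 1 → bfE d = (0, true) := by decide
lemma e_aux5 : ∀ d : Dir, d.1 = 0 → bfE d = (1, true) := by decide

/-- east of a canonical frame -/
lemma can7_e (f : (P.refine 7 h7).Facet) :
    (D.can7 f).1.e = if f.1.2.1 = 0 ∨ (f.1.2.1 = 2 ∧ D.isX7 f = true) then (1, true)
      else (0, true) := by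
  have e1 : IsPl (co h7 f) ↔ f.1.2.1 = 2 := Iff.rfl
  unfold can7
  by_cases h2 : f.1.2.1 = 2
  · rw [if_pos (e1.2 h2)]
    by_cases hX : D.isX7 f = true
    · rw [if_pos hX, if_pos (Or.inr ⟨h2, hX⟩)]
      exact e_aux1 _ h2
    · have hn : ¬ (f.1.2.1 = 0 ∨ (f.1.2.1 = 2 ∧ D.isX7 f = true)) := by
        rintro (h | h)
        · rw [h2] at h; exact absurd h (by decide)
        · exact hX h.2
      rw [if_neg hX, if_neg hn]
      by_cases hb : f.1.2.2 = true
      · rw [if_pos hb]; exact e_aux2 _ h2 hb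
      · rw [if_neg hb]; exact e_aux3 _ h2 hb
  · rw [if_neg (fun h => h2 (e1.1 h))]
    have : f.1.2.1 = 0 ∨ f.1.2.1 = 1 := by
      have : ∀ a : Fin 3, a ≠ 2 → a = 0 ∨ a = 1 := by decide
      exact this _ h2
    rcases this with h | h
    · rw [if_pos (Or.inl h)]; exact e_aux5 _ h
    · rw [if_neg]
      · exact e_aux4 _ h
      · rintro (h' | h')
        · rw [h] at h'; exact absurd h' (by decide)
        · exact h2 h'.1

/-- a state with east `+ x` that is canonical -/
lemma can7_y {t : (P.refine 7 h7).FSt} (he : t.1.e = (0, true))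
    (h : t.1.d.1 = 2 → D.isX7 t.facet = false) : D.can7 t.facet = t := by
  apply st_fe (D.can7_facet0 _)
  rw [D.can7_e, he, if_neg]
  rintro (h' | ⟨h', h2⟩)
  · apply t.2.2
    rw [he]
    exact h'
  · rw [h h'] at h2
    exact absurd h2 (by decide)

/-- a state with east `+ y` that is canonical -/
lemma can7_x {t : (P.refine 7 h7).FSt} (he : t.1.e = (1, true))
    (h : t.1.d.1 = 2 → D.isX7 t.facet = true) : D.can7 t.facet = t := by
  apply st_fe (D.can7_facet0 _)
  rw [D.can7_e, he, if_pos]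
  have h0 : t.1.d.1 ≠ 1 := by
    intro h'
    apply t.2.2
    rw [he]
    exact h'
  have : ∀ a : Fin 3, a ≠ 1 → a = 0 ∨ a = 2 := by decide
  rcases this _ h0 with h' | h'
  · exact Or.inl h'
  · exact Or.inr ⟨h', h h'⟩

/-- a canonical state is the canonical frame of its facet -/
lemma can7_inj {f : (P.refine 7 h7).Facet} {t : (P.refine 7 h7).FSt} (h : t = D.can7 f) :
    t.facet = f := by
  rw [h, D.can7_facet0]

lemma core7_iff (f : (P.refine 7 h7).Facet) : core7 f ↔ f.1.2.1 ≠ 2 ∧ fj f = 3 := Iff.rfl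

/-! ### Columns -/

lemma bf_y1 : ∀ d : Dir, d.1 ≠ 0 → d ≠ (2, false) → (0, true) = bfE d := by decide

/-- coordinates of the parts of a coarse state with east `+ x` -/
lemma fij_y {s : P.FSt} (he : s.1.e = (0, true)) (i j : ℕ) (hi : i < 7) (hj : j < 7) :
    fi (sub h7 s i j hi hj).facet = (if s.1.d = (2, false) then 6 - i else i) ∧
      fj (sub h7 s i j hi hj).facet = (if s.1.d = (2, false) then 6 - j else j) := by
  by_cases h : s.1.d = (2, false)
  · rw [if_pos h, if_pos h]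
    have h1 : bf s.facet = s.r2 := by
      refine st_fe (s := bf s.facet) (t := s.r2) rfl ?_
      show bfE s.1.d = opp s.1.e
      rw [h, he]; decide
    rw [sub_bf_r2 h1, fi_part, fj_part]
    exact ⟨rfl, rfl⟩
  · rw [if_neg h, if_neg h]
    have h1 : bf s.facet = s := by
      apply bf_eq
      rw [he]
      refine bf_y1 _ ?_ h
      intro h2
      apply s.2.2
      rw [h2, he]
    rw [sub_bf h1, fi_part, fj_part]
    exact ⟨rfl, rfl⟩

/-- coordinates of the parts of a coarse wall in its base frame -/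
lemma fij_w {s : P.FSt} (h : bf s.facet = s) (i j : ℕ) (hi : i < 7) (hj : j < 7) :
    fi (sub h7 s i j hi hj).facet = i ∧ fj (sub h7 s i j hi hj).facet = j := by
  rw [sub_bf h, fi_part, fj_part]
  exact ⟨rfl, rfl⟩

/-- every state lies in a coarse state -/
lemma exists_sub (t : (P.refine 7 h7).FSt) : ∃ (s : P.FSt) (i j : ℕ) (hi : i < 7) (hj : j < 7),
    t = sub h7 s i j hi hj ∧ s.1.e = t.1.e ∧ s.facet = co h7 t.facet := by
  let s : P.FSt := ⟨⟨(co h7 t.facet).1.1, t.1.d, t.1.e⟩, (co h7 t.facet).2, t.2.2⟩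
  refine ⟨s, ix 7 s.1.e t.facet.1.1, ix 7 s.1.n t.facet.1.1, ix_lt h7 _ _, ix_lt h7 _ _, ?_,
    rfl, rfl⟩
  exact st_fe (sub_ix h7 s t.facet rfl).symm rfl

lemma subZ_e (s : P.FSt) (i : ℕ) (hi : i < 7) (m : ℤ) : (subZ h7 s i hi m).1.e = s.1.e :=
  pN_e s _

lemma subZ_co (s : P.FSt) (i : ℕ) (hi : i < 7) (m : ℤ) :
    co h7 (subZ h7 s i hi m).facet = ((pN ^ (m / 7)) s).facet := co_sub h7 _ _ _

lemma subZ_d (s : P.FSt) (i : ℕ) (hi : i < 7) (m : ℤ) :
    (subZ h7 s i hi m).1.d = ((pN ^ (m / 7)) s).1.d := rfl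

lemma subZ_zero (s : P.FSt) (i j : ℕ) (hi : i < 7) (hj : j < 7) :
    subZ h7 s i hi (j : ℤ) = sub h7 s i j hi hj := by
  have := subZ_eq h7 s hi hj 0
  simpa using this

lemma fij_subZ {s : P.FSt} (he : s.1.e = (0, true)) (i : ℕ) (hi : i < 7) (m : ℤ) :
    fi (subZ h7 s i hi m).facet =
      (if (subZ h7 s i hi m).1.d = (2, false) then 6 - i else i) ∧
    fj (subZ h7 s i hi m).facet =
      (if (subZ h7 s i hi m).1.d = (2, false) then 6 - (m % 7).toNat else (m % 7).toNat) :=
  fij_y (s := (pN ^ (m / 7)) s) ((pN_e s _).trans he) i (m % 7).toNat hi (by omega)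

end Deco0

end Pool.Agent.MP42D
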