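import Pool.Agent.MP42.D.TableP

/-!
# Piece C: coverage of the tables of the plates (owner helper55)
-/

set_option autoImplicit false
set_option linter.unusedSectionVars false

namespace Pool.Agent.MP42D

open Pool.Agent.Helper55.UNF

namespace KD

variable {τ : Type*} {K : KD τ} {on : ℤ → Bool}

/-- tracks on the B side of the part `(y, j)` -/
def XB (K : KD τ) (y : ℤ) (j : ℕ) : Prop := ∃ s : Fin 4, K.bB s y j = true ∨ K.aB s y j = true

/-- tracks on the A side of the part `(y, j)` -/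
def XA (K : KD τ) (y : ℤ) (j : ℕ) : Prop := ∃ s : Fin 4, K.bA s y j = true ∨ K.aA s y j = true

/-- runs to the east over the part `(y, j)` -/
def RE (K : KD τ) (y : ℤ) (j : ℕ) : Prop :=
  (j = 2 ∧ K.bp y = true) ∨ (j = 4 ∧ K.vl y = true)

lemma M_of_V (h : K.Ok on) {y : ℤ} (ha : K.aw y = false) (hb : K.bw y = false) {s : Fin 4}
    (hV : K.V s y = true) : K.M s y = true := by
  cases hm : K.M s y
  · unfold V at hV
    rw [hm, Bool.or_false] at hV
    rcases h.stop s y hV hm with h1 | h1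
    · rw [ha] at h1; exact absurd h1.2 (by decide)
    · rw [hb] at h1; exact absurd h1.2 (by decide)
  · rfl

lemma M_of_V' (h : K.Ok on) {y : ℤ} (ha : K.aw y = false) (hb : K.bw y = false) {s : Fin 4}
    (hV : K.V s (y + 1) = true) : K.M s y = true := by
  cases hm : K.M s y
  · unfold V at hV
    rw [show y + 1 - 1 = y by ring, hm, Bool.false_or] at hV
    rcases h.start s (y + 1) hV (by rw [show y + 1 - 1 = y by ring]; exact hm) with h1 | h1
    · rw [show y + 1 - 1 = y by ring, ha] at h1; exact absurd h1.1 (by decide)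
    · rw [show y + 1 - 1 = y by ring, hb] at h1; exact absurd h1.1 (by decide)
  · rfl

/-- where there are plates on both sides, the tracks run on the two sides alternatively -/
lemma alt (h : K.Ok on) {y : ℤ} (ha : K.aw y = false) (hb : K.bw y = false) (s : Fin 4)
    (j : ℕ) : (K.bB s y j = true ∨ K.aB s y j = true ∨ K.bA s y j = true ∨ K.aA s y j = true) →
    (K.bA s y j = !K.bB s y j ∧ K.aA s y j = !K.aB s y j) := by
  intro hs
  have hsd : K.sd y = false := by unfold sd; rw [hb]; rfl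
  have m1 : K.V s y = true → K.M s y = true := M_of_V h ha hb
  have m2 : K.V s (y + 1) = true → K.M s y = true := M_of_V' h ha hb
  have hV : K.V s y = K.M s y := by
    cases hm : K.M s y
    · cases hv : K.V s y
      · rfl
      · exact absurd (m1 hv) (by rw [hm]; decide)
    · unfold V; rw [hm, Bool.or_true]
  have hV' : K.V s (y + 1) = K.M s y := by
    cases hm : K.M s y
    · cases hv : K.V s (y + 1)
      · rfl
      · exact absurd (m2 hv) (by rw [hm]; decide)
    · unfold V; rw [show y + 1 - 1 = y by ring, hm, Bool.true_or]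
  unfold bB aB bA aA at hs ⊢
  rw [hV, hV', hsd] at hs ⊢
  cases hm : K.M s y
  · rw [hm] at hs
    simp at hs
  · constructor
    · split_ifs <;> cases K.st y <;> rfl
    · split_ifs <;> cases K.st (y + 1) <;> rfl

lemma Lb_or_La (b a : Fin 4 → Bool) (b' a' : Fin 4 → Bool) (s : Fin 4) (t : ℕ)
    (h1 : b' s = !b s) (h2 : a' s = !a s) : Lb b a s t = true ∨ La b' a' s t = true := by
  unfold Lb La
  rw [h1, h2]
  by_cases c1 : t ≤ nC s <;> by_cases c2 : t ≤ sC s <;>
    cases b s <;> cases a s <;>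
    simp [c1, c2] <;> omega

/-- Coverage of a part with tracks on the B side: a track at the column, or a wall on the A side,
or a track at the column on the A side. -/
lemma XB_cov (h : K.Ok on) {y : ℤ} (hb : K.bw y = false) {j : ℕ} (hX : K.XB y j) (t : ℕ) :
    K.aw y = true ∨
      (∃ s, Lb (fun s => K.bB s y j) (fun s => K.aB s y j) s t = true) ∨
      (K.XA y j ∧ ∃ s, La (fun s => K.bA s y j) (fun s => K.aA s y j) s t = true) := by
  cases ha : K.aw y
  · right
    obtain ⟨s, hs⟩ := hX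
    obtain ⟨e1, e2⟩ := alt h ha hb s j (by tauto)
    rcases Lb_or_La (fun s => K.bB s y j) (fun s => K.aB s y j) (fun s => K.bA s y j)
      (fun s => K.aA s y j) s t e1 e2 with h1 | h1
    · exact Or.inl ⟨s, h1⟩
    · refine Or.inr ⟨⟨s, ?_⟩, s, h1⟩
      unfold La at h1
      simp only [Bool.or_eq_true, Bool.and_eq_true] at h1
      tauto
  · exact Or.inl rfl

lemma XA_cov (h : K.Ok on) {y : ℤ} (ha : K.aw y = false) {j : ℕ} (hX : K.XA y j) (t : ℕ) :
    K.bw y = true ∨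
      (∃ s, La (fun s => K.bA s y j) (fun s => K.aA s y j) s t = true) ∨
      (K.XB y j ∧ ∃ s, Lb (fun s => K.bB s y j) (fun s => K.aB s y j) s t = true) := by
  cases hb : K.bw y
  · right
    obtain ⟨s, hs⟩ := hX
    obtain ⟨e1, e2⟩ := alt h ha hb s j (by tauto)
    rcases Lb_or_La (fun s => K.bB s y j) (fun s => K.aB s y j) (fun s => K.bA s y j)
      (fun s => K.aA s y j) s t e1 e2 with h1 | h1
    · refine Or.inr ⟨⟨s, ?_⟩, s, h1⟩
      unfold Lb at h1
      simp only [Bool.or_eq_true, Bool.and_eq_true] at h1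
      tauto
    · exact Or.inl ⟨s, h1⟩
  · exact Or.inl rfl

/-- a segment with a bump or a valley carries no tracks -/
lemma RE_clear (h : K.Ok on) {y : ℤ} (hr : K.bp y = true ∨ K.vl y = true) (s : Fin 4) (j : ℕ) :
    K.bB s y j = false ∧ K.aB s y j = false ∧ K.bA s y j = false ∧ K.aA s y j = false := by
  have hh : K.aw y = false ∧ K.bw y = false ∧ ∀ s, K.M s y = false := by
    rcases hr with hr | hr
    · obtain ⟨-, h1, h2, h3, -⟩ := h.bp_ok y hr
      exact ⟨h1, h2, h3⟩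
    · obtain ⟨-, h1, h2, h3, -⟩ := h.vl_ok y hr
      exact ⟨h1, h2, h3⟩
  obtain ⟨ha, hb, hm⟩ := hh
  have h1 : K.V s y = false := by
    cases hv : K.V s y
    · rfl
    · exact absurd (M_of_V h ha hb hv) (by rw [hm s]; decide)
  have h2 : K.V s (y + 1) = false := by
    cases hv : K.V s (y + 1)
    · rfl
    · exact absurd (M_of_V' h ha hb hv) (by rw [hm s]; decide)
  unfold bB aB bA aA
  rw [h1, h2, hm s]
  simp

lemma RE_not_XB (h : K.Ok on) {y : ℤ} {j : ℕ} (hr : K.RE y j) : ¬ K.XB y j := by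
  rintro ⟨s, hs⟩
  obtain ⟨h1, h2, -, -⟩ := RE_clear h (by rcases hr with ⟨-, hr⟩ | ⟨-, hr⟩ <;> tauto) s j
  rw [h1, h2] at hs
  simp at hs

lemma RE_not_XA (h : K.Ok on) {y : ℤ} {j : ℕ} (hr : K.RE y j) : ¬ K.XA y j := by
  rintro ⟨s, hs⟩
  obtain ⟨-, -, h1, h2⟩ := RE_clear h (by rcases hr with ⟨-, hr⟩ | ⟨-, hr⟩ <;> tauto) s j
  rw [h1, h2] at hs
  simp at hs

end KD

namespace PD

variable {τ : Type*} {D : PD τ} {k : ℕ}

lemma isX_zero (j : ℕ) : D.isX 0 j = true ↔ D.KW.XB D.y j := by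
  unfold isX KD.XB
  simp

lemma isX_six (j : ℕ) : D.isX 6 j = true ↔ D.KE.XA D.y j := by
  unfold isX KD.XA
  simp

lemma isX_mid {i : ℕ} (h0 : i ≠ 0) (h6 : i ≠ 6) (j : ℕ) : D.isX i j = false := by
  unfold isX
  simp [h0, h6]

/-- the strands of a part that is not seen in the frame of the tracks -/
lemma prT_side (hk : 20 ≤ k) {i j : ℕ}
    (hX : D.isX i j = false) (hi : i < 7) {x y : ℕ} (hx : x ≤ k) (hy : y < k) :
    D.prT k i j x y = (Vm k (D.KW.bp D.y).toNat (D.KW.vl D.y).toNat (D.KE.bp D.y).toNat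
      (D.KE.vl D.y).toNat (i * k + x) (j * k + y)).ie := by
  unfold prT
  rw [if_neg (by rw [hX]; decide)]
  by_cases h0 : i = 0
  · subst h0
    rw [Vv_clear hk hy]
    · right
      intro s hs
      have := (isX_zero (D := D) j).2 ⟨s, hs⟩
      rw [this] at hX
      exact absurd hX (by decide)
    · left
      omega
  · by_cases h6 : i = 6
    · subst h6
      rw [Vv_clear hk hy]
      · left
        omega
      · right
        intro s hs
        have := (isX_six (D := D) j).2 ⟨s, hs⟩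
        rw [this] at hX
        exact absurd hX (by decide)
    · rw [Vv_mid hk]
      · have : 1 * k ≤ i * k := Nat.mul_le_mul_right k (by omega)
        omega
      · have : i * k ≤ 5 * k := Nat.mul_le_mul_right k (by omega)
        omega

lemma Vm_ie {k a b c d X Y : ℕ} : (Vm k a b c d X Y).ie = true ↔
    (Y = 2 * k + 3 ∧ ((a = 1 ∧ X ≤ 2 * k + 5) ∨ (c = 1 ∧ 5 * k < X + 4))) ∨
    (Y = 4 * k + 3 ∧ ((b = 1 ∧ X ≤ 2 * k + 3) ∨ (d = 1 ∧ 5 * k < X + 6))) := by
  unfold Vm
  split_ifs with h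
  · simp only [El.ie, true_iff]; exact h
  · simp only [El.ie, Bool.false_eq_true, false_iff]; exact h

lemma row_iff (hk : 20 ≤ k) {j y r : ℕ} (hy : y < k) :
    j * k + y = r * k + 3 ↔ j = r ∧ y = 3 := by
  constructor
  · intro h
    have h1 : (j * k + y) / k = (r * k + 3) / k := by rw [h]
    rw [(div_mod (j := j) hy).1, (div_mod (j := r) (show 3 < k by omega)).1] at h1
    subst h1
    exact ⟨rfl, by omega⟩
  · rintro ⟨rfl, rfl⟩; rfl

/-- the parts `(0, j)` and `(1, j)`, `(0, j)` not seen in the frame of the tracks -/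
lemma prT_W (hk : 20 ≤ k) {i j : ℕ} (hi : i ≤ 1) (hX : D.isX i j = false) {x y : ℕ} (hx : x ≤ k)
    (hy : y < k) : D.prT k i j x y = true ↔ D.KW.RE D.y j ∧ y = 3 := by
  rw [prT_side hk hX (by omega) hx hy, Vm_ie, row_iff hk hy, row_iff hk hy]
  have hik : i * k ≤ 1 * k := Nat.mul_le_mul_right k hi
  simp only [Bool.toNat_eq_one]
  unfold KD.RE
  constructor
  · rintro (⟨⟨rfl, rfl⟩, ⟨h, -⟩ | ⟨-, h⟩⟩ | ⟨⟨rfl, rfl⟩, ⟨h, -⟩ | ⟨-, h⟩⟩)
    · exact ⟨Or.inl ⟨rfl, h⟩, rfl⟩
    · omega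
    · exact ⟨Or.inr ⟨rfl, h⟩, rfl⟩
    · omega
  · rintro ⟨⟨rfl, h⟩ | ⟨rfl, h⟩, rfl⟩
    · exact Or.inl ⟨⟨rfl, rfl⟩, Or.inl ⟨h, by omega⟩⟩
    · exact Or.inr ⟨⟨rfl, rfl⟩, Or.inl ⟨h, by omega⟩⟩

/-- the parts `(5, j)` and `(6, j)` -/
lemma prT_E (hk : 20 ≤ k) {i j : ℕ} (hi : 5 ≤ i) (hi' : i < 7) (hX : D.isX i j = false)
    {x y : ℕ} (hx : x ≤ k) (hy : y < k) : D.prT k i j x y = true ↔ D.KE.RE D.y j ∧ y = 3 := by
  rw [prT_side hk hX hi' hx hy, Vm_ie, row_iff hk hy, row_iff hk hy]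
  have hik : 5 * k ≤ i * k := Nat.mul_le_mul_right k hi
  simp only [Bool.toNat_eq_one]
  unfold KD.RE
  constructor
  · rintro (⟨⟨rfl, rfl⟩, ⟨-, h⟩ | ⟨h, -⟩⟩ | ⟨⟨rfl, rfl⟩, ⟨-, h⟩ | ⟨h, -⟩⟩)
    · omega
    · exact ⟨Or.inl ⟨rfl, h⟩, rfl⟩
    · omega
    · exact ⟨Or.inr ⟨rfl, h⟩, rfl⟩
  · rintro ⟨⟨rfl, h⟩ | ⟨rfl, h⟩, rfl⟩
    · exact Or.inl ⟨⟨rfl, rfl⟩, Or.inr ⟨h, by omega⟩⟩
    · exact Or.inr ⟨⟨rfl, rfl⟩, Or.inr ⟨h, by omega⟩⟩

/-- the lanes of the outer parts and of the first line of the next parts -/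
lemma laT_W (hk : 20 ≤ k) {i j : ℕ} (hi : i ≤ 1) (hX : D.isX i j = false) {x y : ℕ} (hx : x < k) :
    D.laT k i j x y = Ln.z := by
  unfold laT
  rw [if_neg (by rw [hX]; decide)]
  have hik : i * k ≤ 1 * k := Nat.mul_le_mul_right k hi
  by_cases h0 : i = 0
  · subst h0
    exact Hv_side (by omega) hk _
  · have : i = 1 := by omega
    subst this
    rw [Hv_mid (by omega) (by omega)]
    unfold Hm
    rw [if_neg (by omega), if_neg (by omega), if_neg (by omega), if_neg (by omega),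
      if_neg (by omega)]
    rfl

lemma laT_E (hk : 20 ≤ k) {i j : ℕ} (hi : 5 ≤ i) (hi' : i < 7) (hX : D.isX i j = false) {x y : ℕ}
    (hx : x < k) : D.laT k i j x y = Ln.z := by
  unfold laT
  rw [if_neg (by rw [hX]; decide)]
  by_cases h6 : i = 6
  · subst h6
    exact Hv_side (by omega) hk _
  · have : i = 5 := by omega
    subst this
    rw [Hv_mid (by omega) (by omega)]
    unfold Hm
    rw [if_neg (by omega), if_neg (by omega), if_neg (by omega), if_neg (by omega),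
      if_neg (by omega)]
    rfl

/-- strands of the part `(0, j)` in the frame of the tracks -/
lemma prT_XB (hk : 20 ≤ k) {j : ℕ} (hj : j < 7) (hX : D.isX 0 j = true) {t : ℕ} (ht : t ≤ k) :
    (∃ y < k, D.prT k 0 j t y = true) ↔
      ∃ s, Lb (fun s => D.KW.bB s D.y j) (fun s => D.KW.aB s D.y j) s t = true := by
  unfold prT
  simp only [if_pos hX]
  constructor
  · rintro ⟨y, hy, h⟩
    rw [Nat.zero_mul, Nat.zero_add, Hv_west hk (by omega) hj ht, decide_eq_true_iff] at h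
    obtain ⟨s, -, h⟩ := h
    exact ⟨s, h⟩
  · rintro ⟨s, h⟩
    have := dB_le s
    refine ⟨k - 1 - dB s, by omega, ?_⟩
    rw [Nat.zero_mul, Nat.zero_add, Hv_west hk (by omega) hj ht, decide_eq_true_iff]
    exact ⟨s, by omega, h⟩

lemma prT_XA (hk : 20 ≤ k) {j : ℕ} (hj : j < 7) (hX : D.isX 6 j = true) {t : ℕ} (ht : t ≤ k) :
    (∃ y < k, D.prT k 6 j t y = true) ↔
      ∃ s, La (fun s => D.KE.bA s D.y j) (fun s => D.KE.aA s D.y j) s t = true := by
  unfold prT
  simp only [if_pos hX]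
  constructor
  · rintro ⟨y, hy, h⟩
    rw [Hv_east hk hy hj ht, decide_eq_true_iff] at h
    obtain ⟨s, -, h⟩ := h
    exact ⟨s, h⟩
  · rintro ⟨s, h⟩
    have := dA_le s
    refine ⟨dA s, by omega, ?_⟩
    rw [Hv_east hk (by omega) hj ht, decide_eq_true_iff]
    exact ⟨s, rfl, h⟩

end PD

end Pool.Agent.MP42D
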