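import Pool.Agent.MP42.D.T2
import Pool.Agent.MP42.D.Coord
import Pool.Agent.MP42.D.CovT

/-!
# Coverage on `P.refine 7` (owner helper55)
-/

set_option autoImplicit false
set_option linter.unusedSectionVars false

namespace Pool.Agent.MP42D

open Pool.Agent.Helper55.UNF Pool.Agent.Helper55.UNF.GridSolid Pool.Agent.MP42G

variable {P : GridSolid}

namespace Deco0

variable (D : Deco0 P) {k : ℕ}

/-- the row of a run to the east in the canonical frame -/
def yr (k : ℕ) (f : (P.refine 7 h7).Facet) : ℕ := if f.1.2.2 = true then 3 else k - 4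

/-- the part carries a run to the east -/
def REf (f : (P.refine 7 h7).Facet) : Prop :=
  (fi f ≤ 1 ∧ (D.Kw (bf (co h7 f))).RE ((bf (co h7 f)).1.c 1) (fj f)) ∨
    (5 ≤ fi f ∧ (D.Ke (bf (co h7 f))).RE ((bf (co h7 f)).1.c 1) (fj f))

lemma pr7_wall {f : (P.refine 7 h7).Facet} (h : f.1.2.1 ≠ 2) (x y : ℕ) :
    D.pr7 k f x y = false := by
  unfold pr7
  rw [if_neg (show ¬ IsPl (co h7 f) from h)]

lemma pr7_X {f : (P.refine 7 h7).Facet} (h : f.1.2.1 = 2) (hX : D.isX7 f = true) (x y : ℕ) :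
    D.pr7 k f x y = (D.pd (bf (co h7 f))).prT k (fi f) (fj f) x y := by
  unfold pr7
  rw [if_pos (show IsPl (co h7 f) from h), if_pos (Or.inl hX)]

/-- the strands of the outer parts -/
lemma pr7_out (hk : 20 ≤ k) {f : (P.refine 7 h7).Facet} (h : f.1.2.1 = 2)
    (hX : D.isX7 f = false) (ho : fi f ≤ 1 ∨ 5 ≤ fi f) {x y : ℕ} (hx : x ≤ k) (hy : y < k) :
    D.pr7 k f x y = true ↔ D.REf f ∧ y = yr k f := by
  unfold pr7 yr
  rw [if_pos (show IsPl (co h7 f) from h)]
  by_cases hb : f.1.2.2 = true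
  · rw [if_pos (Or.inr hb), if_pos hb]
    rcases ho with ho | ho
    · rw [PD.prT_W hk ho hX hx hy]
      unfold REf
      constructor
      · rintro ⟨h1, h2⟩; exact ⟨Or.inl ⟨ho, h1⟩, h2⟩
      · rintro ⟨⟨-, h1⟩ | ⟨h1, -⟩, h2⟩
        · exact ⟨h1, h2⟩
        · omega
    · rw [PD.prT_E hk ho (fi_lt f) hX hx hy]
      unfold REf
      constructor
      · rintro ⟨h1, h2⟩; exact ⟨Or.inr ⟨ho, h1⟩, h2⟩
      · rintro ⟨⟨h1, -⟩ | ⟨-, h1⟩, h2⟩
        · omega
        · exact ⟨h1, h2⟩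
  · rw [if_neg (by rw [hX]; simp [hb]), if_neg hb]
    rcases ho with ho | ho
    · rw [PD.prT_W hk ho hX (by omega) (by omega)]
      unfold REf
      constructor
      · rintro ⟨h1, h2⟩; exact ⟨Or.inl ⟨ho, h1⟩, by omega⟩
      · rintro ⟨⟨-, h1⟩ | ⟨h1, -⟩, h2⟩
        · exact ⟨h1, by omega⟩
        · omega
    · rw [PD.prT_E hk ho (fi_lt f) hX (by omega) (by omega)]
      unfold REf
      constructor
      · rintro ⟨h1, h2⟩; exact ⟨Or.inr ⟨ho, h1⟩, by omega⟩
      · rintro ⟨⟨h1, -⟩ | ⟨-, h1⟩, h2⟩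
        · omega
        · exact ⟨h1, by omega⟩

/-- the outer parts carry no lanes -/
lemma la7_out (hk : 20 ≤ k) {f : (P.refine 7 h7).Facet} (h : f.1.2.1 = 2)
    (hX : D.isX7 f = false) (ho : fi f ≤ 1 ∨ 5 ≤ fi f) {x y : ℕ} (hx : x < k) :
    D.la7 k f x y = Ln.z := by
  unfold la7
  rw [if_pos (show IsPl (co h7 f) from h)]
  by_cases hb : f.1.2.2 = true
  · rw [if_pos (Or.inr hb)]
    rcases ho with ho | ho
    · exact PD.laT_W hk ho hX hx
    · exact PD.laT_E hk ho (fi_lt f) hX hx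
  · rw [if_neg (by rw [hX]; simp [hb])]
    rcases ho with ho | ho
    · exact PD.laT_W hk ho hX (by omega)
    · exact PD.laT_E hk ho (fi_lt f) hX (by omega)

lemma yr_lt (hk : 20 ≤ k) (f : (P.refine 7 h7).Facet) : yr k f < k := by
  unfold yr; split_ifs <;> omega

lemma Rch_of_REf (hk : 20 ≤ k) {f : (P.refine 7 h7).Facet} (h : f.1.2.1 = 2)
    (hX : D.isX7 f = false) (ho : fi f ≤ 1 ∨ 5 ≤ fi f) (hr : D.REf f) : D.Rch k f := by
  refine ⟨0, ?_, f, rfl, Or.inr ⟨yr k f, yr_lt hk f, ?_⟩⟩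
  · intro y hy
    rw [Set.uIcc_self, Set.mem_singleton_iff] at hy
    subst hy
    exact ⟨f, rfl⟩
  · intro x hx
    exact (D.pr7_out hk h hX ho hx (yr_lt hk f)).2 ⟨hr, rfl⟩

lemma L7_out {f : (P.refine 7 h7).Facet} (hf : D.L7 k f) :
    f.1.2.1 = 2 ∧ D.isX7 f = false ∧ (fi f ≤ 1 ∨ 5 ≤ fi f) := by
  obtain ⟨h1, h2, h3, -⟩ := hf
  exact ⟨h1, h2, by omega⟩

lemma L7_pr0 (hk : 20 ≤ k) {f : (P.refine 7 h7).Facet} (hf : D.L7 k f) {x y : ℕ} (hx : x ≤ k)
    (hy : y < k) : D.pr7 k f x y = false := by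
  obtain ⟨h1, h2, h3⟩ := D.L7_out hf
  cases h : D.pr7 k f x y
  · rfl
  · exfalso
    rw [D.pr7_out hk h1 h2 h3 hx hy] at h
    exact hf.2.2.2 (D.Rch_of_REf hk h1 h2 h3 h.1)

lemma L7_la0 (hk : 20 ≤ k) {f : (P.refine 7 h7).Facet} (hf : D.L7 k f) {x y : ℕ} (hx : x < k) :
    D.la7 k f x y = Ln.z := by
  obtain ⟨h1, h2, h3⟩ := D.L7_out hf
  exact D.la7_out hk h1 h2 h3 hx

/-! ### Columns -/

lemma isX7_col {s : P.FSt} (he : s.1.e = (0, true)) {i : ℕ} (hi : i < 7) (h0 : i ≠ 0)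
    (h6 : i ≠ 6) (m : ℤ) : D.isX7 (subZ h7 s i hi m).facet = false := by
  obtain ⟨h1, -⟩ := fij_subZ he i hi m
  unfold isX7
  apply PD.isX_mid
  · rw [h1]; split_ifs <;> omega
  · rw [h1]; split_ifs <;> omega

lemma can7_col {s : P.FSt} (he : s.1.e = (0, true)) {i : ℕ} (hi : i < 7) (h0 : i ≠ 0)
    (h6 : i ≠ 6) (m : ℤ) :
    D.can7 (subZ h7 s i hi m).facet = subZ h7 s i hi m :=
  D.can7_y ((subZ_e s i hi m).trans he) (fun _ => D.isX7_col he hi h0 h6 m)

lemma L7_col {s : P.FSt} (he : s.1.e = (0, true)) {i : ℕ} (hi : i < 7) (h0 : i ≠ 0)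
    (h6 : i ≠ 6) (m : ℤ) : ¬ D.L7 k (subZ h7 s i hi m).facet := by
  rintro ⟨-, -, h, -⟩
  obtain ⟨h1, -⟩ := fij_subZ he i hi m
  rw [h1] at h
  split_ifs at h <;> omega

/-- the middle row of a coarse wall -/
lemma core_subZ {s : P.FSt} (he : s.1.e = (0, true)) {i : ℕ} (hi : i < 7) (q : ℤ)
    (hq : ((pN ^ q) s).1.d.1 = 1) : core7 (subZ h7 s i hi (7 * q + 3)).facet := by
  have e1 : subZ h7 s i hi (7 * q + 3) = sub h7 ((pN ^ q) s) i 3 hi (by norm_num) := by
    have := subZ_eq h7 s hi (show 3 < 7 by norm_num) q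
    exact_mod_cast this
  rw [e1, core7_iff]
  obtain ⟨-, h2⟩ := fij_y (s := (pN ^ q) s) ((pN_e s q).trans he) i 3 hi (by norm_num)
  constructor
  · show ((pN ^ q) s).1.d.1 ≠ 2
    rw [hq]; decide
  · rw [h2, if_neg]
    intro h
    rw [h] at hq
    exact absurd hq (by decide)

/-- a core facet is in the middle row -/
lemma core_subZ' {s : P.FSt} (he : s.1.e = (0, true)) {i : ℕ} (hi : i < 7) (m : ℤ) :
    core7 (subZ h7 s i hi m).facet ↔ ((pN ^ (m / 7)) s).1.d.1 = 1 ∧ m % 7 = 3 := by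
  rw [core7_iff]
  obtain ⟨-, h2⟩ := fij_subZ he i hi m
  rw [h2]
  have h3 : (subZ h7 s i hi m).1.d.1 ≠ 0 := by
    intro h
    apply (subZ h7 s i hi m).2.2
    rw [h, subZ_e, he]
  have h4 : (subZ h7 s i hi m).facet.1.2.1 = ((pN ^ (m / 7)) s).1.d.1 := rfl
  have h5 : (subZ h7 s i hi m).1.d = ((pN ^ (m / 7)) s).1.d := rfl
  rw [h4]
  rw [h5] at h3 ⊢
  have three : ∀ a : Fin 3, a ≠ 0 → (a ≠ 2 ↔ a = 1) := by decide
  rw [three _ h3]
  constructor
  · rintro ⟨h6, h7⟩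
    rw [if_neg (by intro h; rw [h] at h6; exact absurd h6 (by decide))] at h7
    exact ⟨h6, by omega⟩
  · rintro ⟨h6, h7⟩
    rw [if_neg (by intro h; rw [h] at h6; exact absurd h6 (by decide))]
    exact ⟨h6, by omega⟩

/-! ### Coverage of one column -/

/-- the line of the state `t` is covered at the column `x` -/
def Cv (k : ℕ) (t : (P.refine 7 h7).FSt) (x : ℕ) (w : Bool) : Prop := ∃ z : ℤ,
    (∀ y ∈ Set.uIcc 0 z, ∃ g, ¬ D.L7 k g ∧ (pN ^ y) t = D.can7 g) ∧
    ∃ g, (pN ^ z) t = D.can7 g ∧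
      (core7 g ∨ ∃ y < k, D.pr7 k g (if w then x else x + 1) y = true)

variable {D}

lemma Cv_port {t : (P.refine 7 h7).FSt} (ht : D.can7 t.facet = t) (hL : ¬ D.L7 k t.facet) {x : ℕ}
    {w : Bool} (h : ∃ y < k, D.pr7 k t.facet (if w then x else x + 1) y = true) :
    D.Cv k t x w := by
  refine ⟨0, ?_, t.facet, ht.symm, Or.inr h⟩
  intro y hy
  rw [Set.uIcc_self, Set.mem_singleton_iff] at hy
  subst hy
  exact ⟨t.facet, hL, ht.symm⟩

lemma Cv_N {t : (P.refine 7 h7).FSt} (ht : D.can7 t.facet = t) (hL : ¬ D.L7 k t.facet) {x : ℕ}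
    {w : Bool} (h : D.Cv k t.stN x w) : D.Cv k t x w := by
  obtain ⟨z, h1, g, h2, h3⟩ := h
  have e : ∀ y : ℤ, (pN ^ y) t.stN = (pN ^ (y + 1)) t := by
    intro y
    rw [zpow_add_one, Equiv.Perm.mul_apply]; rfl
  refine ⟨z + 1, ?_, g, by rw [← e, h2], h3⟩
  intro y hy
  by_cases h0 : y = 0
  · subst h0
    exact ⟨t.facet, hL, ht.symm⟩
  · have := h1 (y - 1) (by rw [Set.mem_uIcc] at hy ⊢; omega)
    rwa [e, sub_add_cancel] at this

lemma Cv_S {t : (P.refine 7 h7).FSt} (ht : D.can7 t.facet = t) (hL : ¬ D.L7 k t.facet) {x : ℕ}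
    {w : Bool} (h : D.Cv k (pN.symm t) x w) : D.Cv k t x w := by
  obtain ⟨z, h1, g, h2, h3⟩ := h
  have e : ∀ y : ℤ, (pN ^ y) (pN.symm t) = (pN ^ (y - 1)) t := by
    intro y
    have : y = (y - 1) + 1 := by ring
    conv_lhs => rw [this, zpow_add_one, Equiv.Perm.mul_apply, Equiv.apply_symm_apply]
  refine ⟨z - 1, ?_, g, by rw [← e, h2], h3⟩
  intro y hy
  by_cases h0 : y = 0
  · subst h0
    exact ⟨t.facet, hL, ht.symm⟩
  · have := h1 (y + 1) (by rw [Set.mem_uIcc] at hy ⊢; omega)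
    rwa [e, add_sub_cancel_right] at this

/-- a column that is canonical everywhere between `m` and a core facet -/
lemma Cv_subZ {s : P.FSt} {i : ℕ} (hi : i < 7) (m m' : ℤ)
    (hc : ∀ y ∈ Set.uIcc m m', D.can7 (subZ h7 s i hi y).facet = subZ h7 s i hi y ∧
      ¬ D.L7 k (subZ h7 s i hi y).facet) (hcore : core7 (subZ h7 s i hi m').facet) (x : ℕ)
    (w : Bool) : D.Cv k (subZ h7 s i hi m) x w := by
  refine ⟨m' - m, ?_, (subZ h7 s i hi m').facet, ?_, Or.inl hcore⟩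
  · intro y hy
    have h1 := hc (m + y) (by rw [Set.mem_uIcc] at hy ⊢; omega)
    exact ⟨_, h1.2, by rw [h1.1, subZ_pow]⟩
  · rw [subZ_pow, (hc m' Set.right_mem_uIcc).1]
    congr 1; ring

/-- the columns `1 .. 5` -/
lemma Cv_col {s : P.FSt} (he : s.1.e = (0, true)) {i : ℕ} (hi : i < 7) (h0 : i ≠ 0)
    (h6 : i ≠ 6) (m : ℤ) (x : ℕ) (w : Bool) : D.Cv k (subZ h7 s i hi m) x w := by
  obtain ⟨q, hq⟩ := exists_wall_N s (by rw [he])
  have hq' : ((pN ^ (q : ℤ)) s).1.d.1 = 1 := by rw [zpow_natCast]; exact hq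
  exact Cv_subZ hi m (7 * (q : ℤ) + 3) (fun y _ => ⟨D.can7_col he hi h0 h6 y,
    D.L7_col he hi h0 h6 y⟩) (core_subZ he hi _ hq') x w

/-- the coarse walls -/
lemma Cv_wall {s : P.FSt} (hs : bf s.facet = s) (hd : s.1.d.1 ≠ 2) {i j : ℕ} (hi : i < 7)
    (hj : j < 7) (x : ℕ) (w : Bool) : D.Cv k (sub h7 s i j hi hj) x w := by
  rw [← subZ_zero]
  apply Cv_subZ hi (j : ℤ) 3
  · intro y hy
    obtain ⟨y', hy', rfl⟩ : ∃ y' : ℕ, y' < 7 ∧ y = (y' : ℤ) := by
      refine ⟨y.toNat, ?_, ?_⟩ <;> rw [Set.mem_uIcc] at hy <;> omega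
    rw [subZ_zero _ _ _ _ hy']
    have hdd : (sub h7 s i y' hi hy').1.d = s.1.d := rfl
    have hee : (sub h7 s i y' hi hy').1.e = s.1.e := rfl
    have hs2 : s.1.e = bfE s.1.d := (congrArg (fun t : P.FSt => t.1.e) hs).symm
    constructor
    · have : s.1.d.1 = 0 ∨ s.1.d.1 = 1 := by
        have : ∀ a : Fin 3, a ≠ 2 → a = 0 ∨ a = 1 := by decide
        exact this _ hd
      rcases this with h | h
      · apply D.can7_x
        · rw [hee, hs2]; exact e_aux5 _ h
        · intro h2; exact absurd h2 hd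
      · apply D.can7_y
        · rw [hee, hs2]; exact e_aux4 _ h
        · intro h2; exact absurd h2 hd
    · rintro ⟨h1, -⟩
      exact hd h1
  · have e1 : subZ h7 s i hi 3 = sub h7 s i 3 hi (by norm_num) := by
      have := subZ_zero s i 3 hi (by norm_num)
      exact_mod_cast this
    rw [e1, core7_iff]
    exact ⟨hd, (fij_w hs i 3 hi (by norm_num)).2⟩

/-! ### The western and the eastern plate -/

/-- a plate state with east `+ y` is a base frame turned to the left -/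
lemma eq_bf_rL {s : P.FSt} (he : s.1.e = (1, true)) (hd : s.1.d.1 = 2) :
    s = (bf s.facet).rL := by
  refine st_fe (s := s) (t := (bf s.facet).rL) rfl ?_
  rw [he]
  exact (e_aux1 _ hd).symm

/-- a wall state with east `+ y` is a base frame -/
lemma eq_bf_x {s : P.FSt} (he : s.1.e = (1, true)) (hd : s.1.d.1 ≠ 2) : bf s.facet = s := by
  apply bf_eq
  rw [he]
  have h0 : s.1.d.1 = 0 := by
    have h1 : s.1.d.1 ≠ 1 := by
      intro h
      apply s.2.2
      rw [h, he]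
    have : ∀ a : Fin 3, a ≠ 1 → a ≠ 2 → a = 0 := by decide
    exact this _ h1 hd
  exact (e_aux5 _ h0).symm

lemma stE_of_rL {s t : P.FSt} (h : s.rL.stN = t.rL) : t.stE = s := by
  have h1 : s.rL.stN = s.r2.stE.rR := by
    show s.rL.rL.stE.rR = _
    rw [FSt.rL_rL]
  rw [h1] at h
  have h2 : s.r2.stE = t.r2 := by
    have := congrArg FSt.rL h
    rwa [FSt.rR_rL, FSt.rL_rL] at this
  have h3 := FSt.stE_inv s.r2
  rw [h2, FSt.r2_r2, FSt.r2_r2] at h3
  exact h3

/-- adjacent plates have the same line and the same segment between them -/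
lemma line_eq {s t : P.FSt} (h : t.stE = s) (hs : s.1.d.1 = 2) (ht : t.1.d.1 = 2)
    (he : t.1.e.1 = 0) : D.Ke t = D.Kw s ∧ t.1.c 1 = s.1.c 1 := by
  have h1 : t.1.stepE P = s.1 := congrArg Subtype.val h
  have h2 : MP42.Geo.nw s.1 = MP42.Geo.ne t.1 := by
    rw [← h1]
    exact MP42.Geo.nw_stepE P t.1 t.2.2
  have h3 := MP42.Geo.stepE_flat_of_axis (P := P) t.1 t.2.2 (by rw [h1, hs, ht])
  constructor
  · unfold Ke Kw
    rw [h2]
  · rw [← h1, h3.2.2, shift_ne]
    rw [he]; decide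

end Deco0

namespace Deco

variable (D : Deco P) {k : ℕ}

/-- the conditions on the line at the west side of a plate -/
lemma W_ok (hM : P.IsManifold) {s : P.FSt} (hd : s.1.d.1 = 2) (hn : s.1.n = (1, true)) :
    (D.Kw s).Ok (fun y => onP P (MP42.Geo.nw s.1 0) y (MP42.Geo.nw s.1 2)) ∧
      (D.Kw s).bw (s.1.c 1) = false := by
  refine ⟨D.ok _ _, ?_⟩
  unfold Deco0.Kw
  rw [D.bw_eq]
  exact (plate_bits hM s hd hn).2.1

lemma E_ok (hM : P.IsManifold) {s : P.FSt} (hd : s.1.d.1 = 2) (hn : s.1.n = (1, true)) :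
    (D.Ke s).Ok (fun y => onP P (MP42.Geo.ne s.1 0) y (MP42.Geo.ne s.1 2)) ∧
      (D.Ke s).aw (s.1.c 1) = false := by
  refine ⟨D.ok _ _, ?_⟩
  unfold Deco0.Ke
  rw [D.aw_eq]
  exact (plate_bits hM s hd hn).2.2.2

lemma bf_n : ∀ d : Dir, d.1 = 2 → cross d (bfE d) = (1, true) := by decide

lemma bf_plate {F : P.Facet} (hF : F.1.2.1 = 2) :
    (bf F).1.d.1 = 2 ∧ (bf F).1.n = (1, true) ∧ (bf F).1.e.1 = 0 := by
  refine ⟨hF, bf_n _ hF, ?_⟩
  show (bfE F.1.2).1 = 0
  unfold bfE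
  rw [if_neg (by rw [hF]; decide), if_neg (by rw [hF]; decide)]

open Deco0 in
/-- the parts `(0, j)` with tracks -/
lemma Cv_XB (hM : P.IsManifold) (hk : 20 ≤ k) {F : P.Facet} (hF : F.1.2.1 = 2) {j : ℕ}
    (hj : j < 7) (hX : D.isX7 (part F 0 j (by norm_num) hj) = true) {x : ℕ} (hx : x < k)
    (w : Bool) : D.Cv k (D.can7 (part F 0 j (by norm_num) hj)) x w := by
  set f := part F 0 j (by norm_num) hj with hf
  obtain ⟨hd, hn, he⟩ := bf_plate hF
  obtain ⟨hok, hbw⟩ := D.W_ok hM hd hn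
  have hfd : f.1.2.1 = 2 := hF
  have hcan : D.can7 f = sub h7 (bf F).rL j 6 hj (by norm_num) := by
    unfold can7
    rw [if_pos (show IsPl (co h7 f) from hfd), if_pos hX, hf, sf_part, sub_rL]
  have hfac : (sub h7 (bf F).rL j 6 hj (by norm_num)).facet = f := by
    rw [← hcan, D.can7_facet0]
  have hXB : (D.Kw (bf F)).XB ((bf F).1.c 1) j := by
    have h1 := hX
    unfold isX7 at h1
    rw [hf, co_part, fi_part, fj_part] at h1
    exact (PD.isX_zero j).1 h1
  have hcan' : D.can7 (sub h7 (bf F).rL j 6 hj (by norm_num)).facet =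
      sub h7 (bf F).rL j 6 hj (by norm_num) := by rw [hfac, hcan]
  have hL : ¬ D.L7 k (sub h7 (bf F).rL j 6 hj (by norm_num)).facet := by
    rw [hfac]
    rintro ⟨-, h2, -⟩
    rw [hX] at h2
    exact absurd h2 (by decide)
  set t : ℕ := if w then x else x + 1 with ht
  have htk : t ≤ k := by rw [ht]; split_ifs <;> omega
  rw [hcan]
  -- the state on the other side of the line
  set s' : P.FSt := (bf F).rL.stN with hs'
  have hse : s'.1.e = (1, true) := by
    rw [hs', FSt.stN_e]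
    exact hn
  have hstN : (sub h7 (bf F).rL j 6 hj (by norm_num)).stN = sub h7 s' j 0 hj (by norm_num) :=
    sub_stN_end (hk := h7) (bf F).rL hj
  by_cases hw : s'.1.d.1 = 2
  · have hs2 : s' = (bf s'.facet).rL := eq_bf_rL hse hw
    obtain ⟨hd', hn', he'⟩ := bf_plate (F := s'.facet) hw
    have hst : (bf s'.facet).stE = bf F := stE_of_rL (s := bf F) (t := bf s'.facet)
      (by rw [← hs2])
    obtain ⟨hK, hy⟩ := line_eq (D := D.toDeco0) hst hd hd' he'
    obtain ⟨-, haw⟩ := D.E_ok hM hd' hn'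
    rw [hK, hy] at haw
    rcases KD.XB_cov hok hbw hXB t with h1 | h1 | ⟨h1, h2⟩
    · rw [haw] at h1; exact absurd h1 (by decide)
    · apply Cv_port hcan' hL
      rw [hfac]
      have h3 := (PD.prT_XB (D := D.pd (bf F)) hk hj
        (by rw [PD.isX_zero]; exact hXB) htk).2 h1
      obtain ⟨y, hy1, hy2⟩ := h3
      refine ⟨y, hy1, ?_⟩
      rw [D.pr7_X hfd hX, hf, co_part, fi_part, fj_part]
      exact hy2
    · -- the part on the A side
      set g := part s'.facet 6 j (by norm_num) hj with hg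
      have hgd : g.1.2.1 = 2 := hw
      have hXA : (D.Ke (bf s'.facet)).XA ((bf s'.facet).1.c 1) j := by rw [hK, hy]; exact h1
      have hXg : D.isX7 g = true := by
        unfold isX7
        rw [hg, co_part, fi_part, fj_part]
        exact (PD.isX_six j).2 hXA
      have hcg : D.can7 g = sub h7 s' j 0 hj (by norm_num) := by
        unfold can7
        rw [if_pos (show IsPl (co h7 g) from hgd), if_pos hXg, hg, sf_part, sub_rL]
        exact sub_congr _ _ hs2.symm rfl rfl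
      have hgf : (sub h7 s' j 0 hj (by norm_num)).facet = g := by
        rw [← hcg, D.can7_facet0]
      apply Cv_N hcan' hL
      rw [hstN]
      apply Cv_port
      · rw [hgf, hcg]
      · rw [hgf]
        rintro ⟨-, h3, -⟩
        rw [hXg] at h3
        exact absurd h3 (by decide)
      · rw [hgf]
        have h3 := (PD.prT_XA (D := D.pd (bf s'.facet)) hk hj
          (by rw [PD.isX_six]; exact hXA) htk).2 (by
            show ∃ s, La (fun s => (D.Ke (bf s'.facet)).bA s ((bf s'.facet).1.c 1) j)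
              (fun s => (D.Ke (bf s'.facet)).aA s ((bf s'.facet).1.c 1) j) s t = true
            rw [hK, hy]; exact h2)
        obtain ⟨y, hy1, hy2⟩ := h3
        refine ⟨y, hy1, ?_⟩
        rw [D.pr7_X hgd hXg, hg, co_part, fi_part, fj_part]
        exact hy2
  · apply Cv_N hcan' hL
    rw [hstN]
    exact Cv_wall (eq_bf_x hse hw) hw hj (by norm_num) x w

open Deco0 in
/-- the parts `(6, j)` with tracks -/
lemma Cv_XA (hM : P.IsManifold) (hk : 20 ≤ k) {F : P.Facet} (hF : F.1.2.1 = 2) {j : ℕ}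
    (hj : j < 7) (hX : D.isX7 (part F 6 j (by norm_num) hj) = true) {x : ℕ} (hx : x < k)
    (w : Bool) : D.Cv k (D.can7 (part F 6 j (by norm_num) hj)) x w := by
  set f := part F 6 j (by norm_num) hj with hf
  obtain ⟨hd, hn, he⟩ := bf_plate hF
  obtain ⟨hok, haw⟩ := D.E_ok hM hd hn
  have hfd : f.1.2.1 = 2 := hF
  have hcan : D.can7 f = sub h7 (bf F).rL j 0 hj (by norm_num) := by
    unfold can7
    rw [if_pos (show IsPl (co h7 f) from hfd), if_pos hX, hf, sf_part, sub_rL]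
  have hfac : (sub h7 (bf F).rL j 0 hj (by norm_num)).facet = f := by
    rw [← hcan, D.can7_facet0]
  have hXA : (D.Ke (bf F)).XA ((bf F).1.c 1) j := by
    have h1 := hX
    unfold isX7 at h1
    rw [hf, co_part, fi_part, fj_part] at h1
    exact (PD.isX_six j).1 h1
  have hcan' : D.can7 (sub h7 (bf F).rL j 0 hj (by norm_num)).facet =
      sub h7 (bf F).rL j 0 hj (by norm_num) := by rw [hfac, hcan]
  have hL : ¬ D.L7 k (sub h7 (bf F).rL j 0 hj (by norm_num)).facet := by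
    rw [hfac]
    rintro ⟨-, h2, -⟩
    rw [hX] at h2
    exact absurd h2 (by decide)
  set t : ℕ := if w then x else x + 1 with ht
  have htk : t ≤ k := by rw [ht]; split_ifs <;> omega
  rw [hcan]
  -- the state on the other side of the line
  set s' : P.FSt := pN.symm (bf F).rL with hs'
  have hsN : s'.stN = (bf F).rL := by
    show pN s' = _
    rw [hs', Equiv.apply_symm_apply]
  have hse : s'.1.e = (1, true) := by
    rw [← FSt.stN_e, hsN]
    exact hn
  have hstN : pN.symm (sub h7 (bf F).rL j 0 hj (by norm_num)) =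
      sub h7 s' j 6 hj (by norm_num) := by
    rw [Equiv.symm_apply_eq]
    show _ = (sub h7 s' j 6 hj (by norm_num)).stN
    rw [sub_stN_end (hk := h7) s' hj]
    exact sub_congr _ _ hsN.symm rfl rfl
  by_cases hw : s'.1.d.1 = 2
  · have hs2 : s' = (bf s'.facet).rL := eq_bf_rL hse hw
    obtain ⟨hd', hn', he'⟩ := bf_plate (F := s'.facet) hw
    have hst : (bf F).stE = bf s'.facet := stE_of_rL (s := bf s'.facet) (t := bf F)
      (by rw [← hs2, hsN])
    obtain ⟨hK, hy⟩ := line_eq (D := D.toDeco0) hst hd' hd he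
    obtain ⟨-, hbw⟩ := D.W_ok hM hd' hn'
    rw [← hK, ← hy] at hbw
    rcases KD.XA_cov hok haw hXA t with h1 | h1 | ⟨h1, h2⟩
    · rw [hbw] at h1; exact absurd h1 (by decide)
    · apply Cv_port hcan' hL
      rw [hfac]
      have h3 := (PD.prT_XA (D := D.pd (bf F)) hk hj
        (by rw [PD.isX_six]; exact hXA) htk).2 h1
      obtain ⟨y, hy1, hy2⟩ := h3
      refine ⟨y, hy1, ?_⟩
      rw [D.pr7_X hfd hX, hf, co_part, fi_part, fj_part]
      exact hy2
    · set g := part s'.facet 0 j (by norm_num) hj with hg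
      have hgd : g.1.2.1 = 2 := hw
      have hXB : (D.Kw (bf s'.facet)).XB ((bf s'.facet).1.c 1) j := by
        rw [← hK, ← hy]; exact h1
      have hXg : D.isX7 g = true := by
        unfold isX7
        rw [hg, co_part, fi_part, fj_part]
        exact (PD.isX_zero j).2 hXB
      have hcg : D.can7 g = sub h7 s' j 6 hj (by norm_num) := by
        unfold can7
        rw [if_pos (show IsPl (co h7 g) from hgd), if_pos hXg, hg, sf_part, sub_rL]
        exact sub_congr _ _ hs2.symm rfl rfl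
      have hgf : (sub h7 s' j 6 hj (by norm_num)).facet = g := by
        rw [← hcg, D.can7_facet0]
      apply Cv_S hcan' hL
      rw [hstN]
      apply Cv_port
      · rw [hgf, hcg]
      · rw [hgf]
        rintro ⟨-, h3, -⟩
        rw [hXg] at h3
        exact absurd h3 (by decide)
      · rw [hgf]
        have h3 := (PD.prT_XB (D := D.pd (bf s'.facet)) hk hj
          (by rw [PD.isX_zero]; exact hXB) htk).2 (by
            show ∃ s, Lb (fun s => (D.Kw (bf s'.facet)).bB s ((bf s'.facet).1.c 1) j)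
              (fun s => (D.Kw (bf s'.facet)).aB s ((bf s'.facet).1.c 1) j) s t = true
            rw [← hK, ← hy]; exact h2)
        obtain ⟨y, hy1, hy2⟩ := h3
        refine ⟨y, hy1, ?_⟩
        rw [D.pr7_X hgd hXg, hg, co_part, fi_part, fj_part]
        exact hy2
  · apply Cv_S hcan' hL
    rw [hstN]
    exact Cv_wall (eq_bf_x hse hw) hw hj (by norm_num) x w

/-! ### The support of a lean facet -/

section Tilt

open Deco0

lemma fi_sd (s : P.FSt) (he : s.1.e = (0, true)) {i i' : ℕ} (hi : i < 7) (hi' : i' < 7)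
    (m : ℤ) (h : (i = 0 ∧ i' = 1) ∨ (i = 6 ∧ i' = 5)) :
    (fi (subZ h7 s i hi m).facet = 0 ∧ fi (subZ h7 s i' hi' m).facet = 1) ∨
      (fi (subZ h7 s i hi m).facet = 6 ∧ fi (subZ h7 s i' hi' m).facet = 5) := by
  obtain ⟨h1, -⟩ := fij_subZ he i hi m
  obtain ⟨h2, -⟩ := fij_subZ he i' hi' m
  have hd : (subZ h7 s i' hi' m).1.d = (subZ h7 s i hi m).1.d := rfl
  rw [h1, h2, hd]
  split_ifs <;> omega

lemma fj_sd (s : P.FSt) (he : s.1.e = (0, true)) {i i' : ℕ} (hi : i < 7) (hi' : i' < 7)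
    (m : ℤ) : fj (subZ h7 s i hi m).facet = fj (subZ h7 s i' hi' m).facet := by
  obtain ⟨-, h1⟩ := fij_subZ he i hi m
  obtain ⟨-, h2⟩ := fij_subZ he i' hi' m
  have hd : (subZ h7 s i' hi' m).1.d = (subZ h7 s i hi m).1.d := rfl
  rw [h1, h2, hd]

lemma REf_sd (s : P.FSt) (he : s.1.e = (0, true)) {i i' : ℕ} (hi : i < 7) (hi' : i' < 7)
    (m : ℤ) (h : (i = 0 ∧ i' = 1) ∨ (i = 6 ∧ i' = 5)) :
    D.REf (subZ h7 s i hi m).facet ↔ D.REf (subZ h7 s i' hi' m).facet := by
  have h1 := fi_sd s he hi hi' m h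
  have h2 := fj_sd s he hi hi' m
  unfold REf
  rw [subZ_co, subZ_co, h2]
  constructor
  · rintro (⟨h3, h4⟩ | ⟨h3, h4⟩)
    · exact Or.inl ⟨by omega, h4⟩
    · exact Or.inr ⟨by omega, h4⟩
  · rintro (⟨h3, h4⟩ | ⟨h3, h4⟩)
    · exact Or.inl ⟨by omega, h4⟩
    · exact Or.inr ⟨by omega, h4⟩

/-- a part with a run to the east is not seen in the frame of the tracks -/
lemma REf_not_X {f : (P.refine 7 h7).Facet} (hr : D.REf f) : D.isX7 f = false := by
  cases hX : D.isX7 f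
  · rfl
  · exfalso
    unfold isX7 at hX
    rcases hr with ⟨h1, h2⟩ | ⟨h1, h2⟩
    · by_cases h0 : fi f = 0
      · rw [h0, PD.isX_zero] at hX
        exact KD.RE_not_XB (D.ok _ _) h2 hX
      · rw [PD.isX_mid h0 (by omega)] at hX
        exact absurd hX (by decide)
    · by_cases h0 : fi f = 6
      · rw [h0, PD.isX_six] at hX
        exact KD.RE_not_XA (D.ok _ _) h2 hX
      · rw [PD.isX_mid (by omega) h0] at hX
        exact absurd hX (by decide)

/-- the outer columns of the walls with normal `± y` carry no lanes -/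
lemma ev_out (hk : 20 ≤ k) {s : P.FSt} (he : s.1.e.1 = 0) {X : ℕ} (hX : X < 2 * k ∨ 5 * k ≤ X) :
    (D.ev k s X).ln = Ln.z := by
  unfold ev
  rw [if_neg (by rw [he]; decide), if_neg (by omega), if_neg (by omega), if_neg (by omega),
    if_neg (by omega), if_neg (by omega)]
  split_ifs <;> rfl

lemma la7_core (hk : 20 ≤ k) {f : (P.refine 7 h7).Facet} (h : f.1.2.1 = 1)
    (ho : fi f ≤ 1 ∨ 5 ≤ fi f) {x y : ℕ} (hx : x < k) : D.la7 k f x y = Ln.z := by
  unfold la7
  have h2 : ¬ IsPl (co h7 f) := by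
    show ¬ f.1.2.1 = 2
    rw [h]; decide
  have he : (bf (co h7 f)).1.e.1 = 0 := by
    show (bfE f.1.2).1 = 0
    rw [e_aux4 _ h]
  have h3 : fi f * k + x < 2 * k ∨ 5 * k ≤ fi f * k + x := by
    rcases ho with ho | ho
    · have : fi f * k ≤ 1 * k := Nat.mul_le_mul_right k ho
      omega
    · have : 5 * k ≤ fi f * k := Nat.mul_le_mul_right k ho
      omega
  have h4 : fi f * k + x < 7 * k := by
    have : fi f * k ≤ 6 * k := Nat.mul_le_mul_right k (by have := fi_lt f; omega)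
    omega
  rw [if_neg h2]
  split_ifs
  · apply D.ev_out hk
    · show (opp (bf (co h7 f)).1.e).1 = 0
      rw [opp_fst]; exact he
    · omega
  · exact D.ev_out hk he h3

/-- a support: a core facet or a run to the east -/
def Sup (s : P.FSt) (i : ℕ) (hi : i < 7) (m : ℤ) : Prop :=
  core7 (subZ h7 s i hi m).facet ∨
    ((subZ h7 s i hi m).facet.1.2.1 = 2 ∧ D.REf (subZ h7 s i hi m).facet)

lemma Sup_can {s : P.FSt} (he : s.1.e = (0, true)) {i : ℕ} {hi : i < 7} {m : ℤ}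
    (h : D.Sup s i hi m) : D.can7 (subZ h7 s i hi m).facet = subZ h7 s i hi m := by
  apply D.can7_y ((subZ_e s i hi m).trans he)
  intro hd
  rcases h with h | h
  · exact absurd hd ((core7_iff _).1 h).1
  · exact D.REf_not_X h.2

lemma exists_Sup {s : P.FSt} (he : s.1.e = (0, true)) (hd : s.1.d.1 = 2) {i : ℕ} (hi : i < 7)
    (j : ℕ) : ∃ n : ℕ, 1 ≤ n ∧ D.Sup s i hi ((j : ℤ) - n) := by
  obtain ⟨q, hq⟩ := exists_wall_S s (by rw [he])
  have hq1 : q ≠ 0 := by
    rintro rfl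
    have h3 : ((pN ^ (-((0 : ℕ) : ℤ))) s) = s := by simp
    rw [h3, hd] at hq
    exact absurd hq (by decide)
  refine ⟨j + 7 * q - 3, by omega, Or.inl ?_⟩
  have e : (j : ℤ) - ((j + 7 * q - 3 : ℕ) : ℤ) = 7 * (-(q : ℤ)) + 3 := by omega
  rw [e]
  exact core_subZ he hi _ hq

/-- between a lean facet and its support -/
lemma lean_mid (hk : 20 ≤ k) {s : P.FSt} (he : s.1.e = (0, true)) {i i' : ℕ} (hi : i < 7)
    (hi' : i' < 7) (hii : (i = 0 ∧ i' = 1) ∨ (i = 6 ∧ i' = 5)) {m : ℤ}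
    (hS : ¬ D.Sup s i hi m) :
    ¬ D.L7 k (subZ h7 s i' hi' m).facet ∧ ¬ core7 (subZ h7 s i' hi' m).facet ∧
      ∀ x ≤ k, ∀ y < k, D.pr7 k (subZ h7 s i' hi' m).facet x y = false := by
  refine ⟨D.L7_col he hi' (by omega) (by omega) m, ?_, ?_⟩
  · intro h
    apply hS
    left
    rw [core_subZ' he] at h ⊢
    exact h
  · intro x hx y hy
    cases hp : D.pr7 k (subZ h7 s i' hi' m).facet x y
    · rfl
    · exfalso
      by_cases h2 : (subZ h7 s i' hi' m).facet.1.2.1 = 2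
      · have h3 := fi_sd s he hi hi' m hii
        rw [D.pr7_out hk h2 (D.isX7_col he hi' (by omega) (by omega) m) (by omega) hx hy] at hp
        apply hS
        right
        exact ⟨h2, (D.REf_sd s he hi hi' m hii).2 hp.1⟩
      · rw [D.pr7_wall h2] at hp
        exact absurd hp (by decide)

/-- the support -/
lemma lean_base (hk : 20 ≤ k) {s : P.FSt} (he : s.1.e = (0, true)) {i i' : ℕ} (hi : i < 7)
    (hi' : i' < 7) (hii : (i = 0 ∧ i' = 1) ∨ (i = 6 ∧ i' = 5)) {m : ℤ}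
    (hS : D.Sup s i hi m) :
    (core7 (subZ h7 s i hi m).facet ∧ core7 (subZ h7 s i' hi' m).facet ∧
      nsp7 (subZ h7 s i hi m).facet ∧ nsp7 (subZ h7 s i' hi' m).facet ∧
      ∀ x < k, D.la7 k (subZ h7 s i hi m).facet x 0 = Ln.z ∧
        D.la7 k (subZ h7 s i hi m).facet x k = Ln.z ∧
        D.la7 k (subZ h7 s i' hi' m).facet x 0 = Ln.z ∧
        D.la7 k (subZ h7 s i' hi' m).facet x k = Ln.z) ∨
    (¬ core7 (subZ h7 s i hi m).facet ∧ ¬ core7 (subZ h7 s i' hi' m).facet ∧ ∃ y0 < k,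
      (∀ x ≤ k, D.pr7 k (subZ h7 s i hi m).facet x y0 = true ∧
        D.pr7 k (subZ h7 s i' hi' m).facet x y0 = true) ∧
      (∀ x < k, ∀ y, D.la7 k (subZ h7 s i hi m).facet x y = Ln.z ∧
        D.la7 k (subZ h7 s i' hi' m).facet x y = Ln.z) ∧
      ∀ x ≤ k, ∀ y, y0 < y → y < k → D.pr7 k (subZ h7 s i' hi' m).facet x y = false) := by
  have h3 := fi_sd s he hi hi' m hii
  rcases hS with hc | ⟨hd, hr⟩
  · left
    have hc' : core7 (subZ h7 s i' hi' m).facet := by
      rw [core_subZ' he] at hc ⊢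
      exact hc
    have hd1 : (subZ h7 s i hi m).facet.1.2.1 = 1 := ((core_subZ' he hi m).1 hc).1
    have hd2 : (subZ h7 s i' hi' m).facet.1.2.1 = 1 := ((core_subZ' he hi' m).1 hc').1
    refine ⟨hc, hc', ⟨hc, hd1, by omega⟩, ⟨hc', hd2, by omega⟩, ?_⟩
    intro x hx
    exact ⟨D.la7_core hk hd1 (by omega) hx, D.la7_core hk hd1 (by omega) hx,
      D.la7_core hk hd2 (by omega) hx, D.la7_core hk hd2 (by omega) hx⟩
  · right
    have hd2 : (subZ h7 s i' hi' m).facet.1.2.1 = 2 := hd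
    have hr2 := (D.REf_sd s he hi hi' m hii).1 hr
    have hX1 := D.REf_not_X hr
    have hX2 := D.REf_not_X hr2
    have hyr : yr k (subZ h7 s i' hi' m).facet = yr k (subZ h7 s i hi m).facet := rfl
    refine ⟨fun h => h.1 hd, fun h => h.1 hd2, yr k (subZ h7 s i hi m).facet, yr_lt hk _, ?_, ?_,
      ?_⟩
    · intro x hx
      exact ⟨(D.pr7_out hk hd hX1 (by omega) hx (yr_lt hk _)).2 ⟨hr, rfl⟩,
        (D.pr7_out hk hd2 hX2 (by omega) hx (yr_lt hk _)).2 ⟨hr2, hyr.symm⟩⟩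
    · intro x hx y
      exact ⟨D.la7_out hk hd hX1 (by omega) hx, D.la7_out hk hd2 hX2 (by omega) hx⟩
    · intro x hx y hy hyk
      cases hp : D.pr7 k (subZ h7 s i' hi' m).facet x y
      · rfl
      · exfalso
        rw [D.pr7_out hk hd2 hX2 (by omega) hx hyk, hyr] at hp
        omega

end Tilt

end Deco

end Pool.Agent.MP42D
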