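import Pool.Agent.MP42.D.LeafW

/-!
# Leaves of a solid with vertices of degree three

A leaf is an orbit of the corner permutation `ν = θ ∘ φ`.  All its corners lie on one line parallel
to the `y`-axis, and the walk around the leaf runs around a maximal segment of this line in the
surface: up along its B side and down along its A side.  The definitions are in `LeafA.lean`
(`bit`, `awP`, `bwP`, `onP`, `nuD`, `yu`, `yw`, `Wk`) and `LeafS.lean` (`Leaf`).
-/

set_option autoImplicit false
set_option linter.unusedSectionVars false

namespace Pool.Agent.MP42D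

open Pool.Agent.Helper55.UNF Pool.Agent.Helper55.UNF.GridSolid Pool.Agent.MP42

variable {P : GridSolid}

/-- every corner has a walk -/
theorem exists_wk (d : Dart P) : ∃ k b, Wk d k b := exists_wk' d

/-- In the interior of a line not both walls change at the same point. -/
theorem one_event (hM : P.IsManifold) (h3 : Deg3 P) (x y z : ℤ) (h1 : onP P x (y - 1) z = true)
    (h2 : onP P x y z = true) :
    awP P x (y - 1) z = awP P x y z ∨ bwP P x (y - 1) z = bwP P x y z :=
  one_event' hM h3 x y z h1 h2

/-- **Leaf normal form.** -/
theorem exists_leaf (hM : P.IsManifold) (h3 : Deg3 P) (d : Dart P) (h1 : nuD P d ≠ d)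
    (h2 : nuD P (nuD P d) ≠ d) : ∃ L : Leaf P, ∃ i < L.n, L.c i = d :=
  exists_leaf' hM h3 d h1 h2

end Pool.Agent.MP42D
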