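import Pool.Agent.MP42.D.Word
import Pool.Agent.MP42.D.Leaf
import Pool.Agent.MP42.G.Defs

/-!
# Stage 2 (vertices of degree three): the decoration and the junction certificate

`Deco P`: the combinatorial data on a solid `P`.  The certificate lives on `P.refine 7` with `k` by
`k` tables.

Coarse states are the oriented facets of `P`; `D.ev k s X` is the value of the unit edge number `X`
(`0 ≤ X < 7 k`, from west to east) of the north side of the coarse state `s`.
-/

set_option autoImplicit false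
set_option linter.unusedSectionVars false

namespace Pool.Agent.MP42D

open Pool.Agent.Helper55.UNF Pool.Agent.Helper55.UNF.GridSolid Pool.Agent.MP42 Pool.Agent.MP42G

/-! ## Coarse states -/

section Coarse

variable {P : GridSolid}

/-- the first dart at the state `s` or to the south of it -/
noncomputable def end1F (s : P.FSt) : P.FSt := (pN.symm ^ (srch pN.symm IsDart s)) s

open Classical in
/-- extension of a function on darts to the states with east `± x` -/
noncomputable def onD {α : Type*} (a : α) (g : Dart P → α) (s : P.FSt) : α :=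
  if h : IsDart (end1F s) then g ⟨end1F s, h⟩ else a

/-- the plates at the north side of `s` lie in the direction `+ y` (`isUp`) or `- y` (`isDn`) -/
def isUp (s : P.FSt) : Bool :=
  decide (s.1.n = (1, true) ∨ (s.1.n.1 = 2 ∧ s.stN.1.n = (1, true)))
def isDn (s : P.FSt) : Bool :=
  decide (s.1.n = (1, false) ∨ (s.1.n.1 = 2 ∧ s.stN.1.n = (1, false)))

/-- the base frame of a facet: plates: north `+ y`, east from A to B; walls with normal `± y`: east
`+ x`; walls with normal `± x`: east `+ y` -/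
def bfE (d : Dir) : Dir := if d.1 = 0 then (1, true) else if d.1 = 1 then (0, true) else (0, d.2)

lemma bfE_ne (d : Dir) : d.1 ≠ (bfE d).1 := by
  revert d; decide

def bf (F : P.Facet) : P.FSt := ⟨⟨F.1.1, F.1.2, bfE F.1.2⟩, F.2, bfE_ne _⟩

lemma bf_facet (F : P.Facet) : (bf F).facet = F := rfl

/-- plates -/
def IsPl (F : P.Facet) : Prop := F.1.2.1 = 2

instance (F : P.Facet) : Decidable (IsPl F) := by unfold IsPl; infer_instance

end Coarse

/-! ## The decoration -/

/-- the data without the conditions -/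
structure Deco0 (P : GridSolid) where
  /-- sites, roots, rank -/
  S : Dart P → Bool
  R : Dart P → Bool
  h : Dart P → ℕ
  /-- the lines -/
  K : ℤ → ℤ → KD (Dart P ⊕ Dart P)
  /-- full lanes `n`, `s` on the strip between `phi κ` and `ν κ`, near the line of `κ` -/
  NL : Dart P → Bool
  SL : Dart P → Bool
  /-- the first corner of the run that ends at `c` -/
  vc : Dart P → Dart P

namespace Deco0

variable {P : GridSolid} (D : Deco0 P)

/-- tags of the full lanes -/
noncomputable def tN (κ : Dart P) : Dart P ⊕ Dart P := if D.S κ then Sum.inl κ else Sum.inr (nuD P κ)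
def tS (κ : Dart P) : Dart P ⊕ Dart P := Sum.inr (D.vc κ)

/-- the line of a corner -/
def Kc (κ : Dart P) : KD (Dart P ⊕ Dart P) := D.K (Geo.ne κ.1.1 0) (Geo.ne κ.1.1 2)

/-- the word of the corner `κ` (from the second wall to the first wall) -/
noncomputable def rw (κ : Dart P) : List (Bool × (Dart P ⊕ Dart P)) :=
  let κ' := (nuD P).symm κ
  (opt (D.SL κ) (false, D.tS κ) ++
    opt (isUp (phi P κ).1 && (D.Kc κ).fS (yw κ)) (false, (D.Kc κ).tb (yw κ)) ++
    opt (isDn (phi P κ).1 && (D.Kc κ).gS (yw κ)) (false, (D.Kc κ).tv (yw κ))) ++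
  (opt (D.NL κ) (true, D.tN κ) ++
    opt (isUp (phi P κ).1 && (D.Kc κ).gN (yw κ)) (true, (D.Kc κ).tv (yw κ)) ++
    opt (isDn (phi P κ).1 && (D.Kc κ).fN (yw κ)) (true, (D.Kc κ).tb (yw κ))) ++
  (D.Kc κ).xw (yu κ) (yw κ) ++
  (opt (D.NL κ') (true, D.tN κ') ++
    opt (isDn κ.1 && (D.Kc κ).gN (yu κ)) (true, (D.Kc κ).tv (yu κ)) ++
    opt (isUp κ.1 && (D.Kc κ).fN (yu κ)) (true, (D.Kc κ).tb (yu κ))) ++
  (opt (D.SL κ') (false, D.tS κ') ++
    opt (isDn κ.1 && (D.Kc κ).fS (yu κ)) (false, (D.Kc κ).tb (yu κ)) ++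
    opt (isUp κ.1 && (D.Kc κ).gS (yu κ)) (false, (D.Kc κ).tv (yu κ)))

/-- what remains of the word of the corner -/
noncomputable def ex (κ : Dart P) : List (Bool × (Dart P ⊕ Dart P)) :=
  let κ' := (nuD P).symm κ
  if D.S κ then
    if D.S κ' then [(true, Sum.inl κ), (true, Sum.inl κ')]
    else [(true, Sum.inl κ), (true, Sum.inr κ)]
  else if D.S κ' then [(false, Sum.inr (D.vc κ)), (true, Sum.inl κ')]
  else []

/-- values of all strands -/
structure Vals where
  V : ∀ x z : ℤ, (D.K x z).Val (fun y => onP P x y z)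
  vN : Dart P → Prop
  vS : Dart P → Prop

variable {D} in
/-- the word of the corner with values -/
noncomputable def Vals.rw (W : D.Vals) (κ : Dart P) : List (Bool × (Dart P ⊕ Dart P) × Prop) :=
  let κ' := (nuD P).symm κ
  let V := W.V (Geo.ne κ.1.1 0) (Geo.ne κ.1.1 2)
  (opt (D.SL κ) (false, D.tS κ, W.vS κ) ++
    opt (isUp (phi P κ).1 && (D.Kc κ).fS (yw κ)) (false, (D.Kc κ).tb (yw κ), V.fS (yw κ)) ++
    opt (isDn (phi P κ).1 && (D.Kc κ).gS (yw κ)) (false, (D.Kc κ).tv (yw κ), V.gS (yw κ))) ++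
  (opt (D.NL κ) (true, D.tN κ, W.vN κ) ++
    opt (isUp (phi P κ).1 && (D.Kc κ).gN (yw κ)) (true, (D.Kc κ).tv (yw κ), V.gN (yw κ)) ++
    opt (isDn (phi P κ).1 && (D.Kc κ).fN (yw κ)) (true, (D.Kc κ).tb (yw κ), V.fN (yw κ))) ++
  ((D.Kc κ).withV V).xw (yu κ) (yw κ) ++
  (opt (D.NL κ') (true, D.tN κ', W.vN κ') ++
    opt (isDn κ.1 && (D.Kc κ).gN (yu κ)) (true, (D.Kc κ).tv (yu κ), V.gN (yu κ)) ++
    opt (isUp κ.1 && (D.Kc κ).fN (yu κ)) (true, (D.Kc κ).tb (yu κ), V.fN (yu κ))) ++
  (opt (D.SL κ') (false, D.tS κ', W.vS κ') ++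
    opt (isDn κ.1 && (D.Kc κ).fS (yu κ)) (false, (D.Kc κ).tb (yu κ), V.fS (yu κ)) ++
    opt (isUp κ.1 && (D.Kc κ).gS (yu κ)) (false, (D.Kc κ).tv (yu κ), V.gS (yu κ)))

/-! ### Edge values -/

/-- full lanes at the west end and at the east end of a state with east `± x` -/
noncomputable def NLW : P.FSt → Bool := onD false fun d => D.NL ((phi P).symm d)
noncomputable def SLW : P.FSt → Bool := onD false fun d => D.SL ((phi P).symm d)
noncomputable def NLE : P.FSt → Bool := onD false fun d => D.NL ((phi P).symm (theta P d))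
noncomputable def SLE : P.FSt → Bool := onD false fun d => D.SL ((phi P).symm (theta P d))

open Classical in
/-- root lanes -/
noncomputable def rt1 : P.FSt → Bool := onD false fun d =>
  D.R d || (D.R (theta P d) && decide (¬ (phi P).SameCycle d (theta P d)))
open Classical in
noncomputable def rt2 : P.FSt → Bool := onD false fun d =>
  D.R (theta P d) || (D.R d && decide (¬ (phi P).SameCycle d (theta P d)))

/-- the lines at the north west corner and at the north east corner of a state -/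
def Kw (s : P.FSt) : KD (Dart P ⊕ Dart P) := D.K (Geo.nw s.1 0) (Geo.nw s.1 2)
def Ke (s : P.FSt) : KD (Dart P ⊕ Dart P) := D.K (Geo.ne s.1 0) (Geo.ne s.1 2)

/-- lanes near the two ends of the north side of a state with east `± x` -/
noncomputable def wN (s : P.FSt) : Bool := D.NLW s || (isUp s && (D.Kw s).gN (Geo.nw s.1 1)) ||
  (isDn s && (D.Kw s).fN (Geo.nw s.1 1))
noncomputable def wS (s : P.FSt) : Bool := D.SLW s || (isUp s && (D.Kw s).fS (Geo.nw s.1 1)) ||
  (isDn s && (D.Kw s).gS (Geo.nw s.1 1))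
noncomputable def eN (s : P.FSt) : Bool := D.NLE s || (isUp s && (D.Ke s).fN (Geo.ne s.1 1)) ||
  (isDn s && (D.Ke s).gN (Geo.ne s.1 1))
noncomputable def eS (s : P.FSt) : Bool := D.SLE s || (isUp s && (D.Ke s).gS (Geo.ne s.1 1)) ||
  (isDn s && (D.Ke s).fS (Geo.ne s.1 1))

/-- the tracks that cross the north side near its ends -/
def wT (s : P.FSt) (X : ℕ) : Prop := ∃ q : Fin 4,
  (isUp s = true ∧ X = dB q ∧ (D.Kw s).V q (Geo.nw s.1 1) = true ∧
    (D.Kw s).st (Geo.nw s.1 1) = false) ∨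
  (isDn s = true ∧ X = dA q ∧ (D.Kw s).V q (Geo.nw s.1 1) = true ∧
    (D.Kw s).st (Geo.nw s.1 1) = true)
def eT (k : ℕ) (s : P.FSt) (X : ℕ) : Prop := ∃ q : Fin 4,
  (isUp s = true ∧ X + 1 + dA q = 7 * k ∧ (D.Ke s).V q (Geo.ne s.1 1) = true ∧
    (D.Ke s).st (Geo.ne s.1 1) = true) ∨
  (isDn s = true ∧ X + 1 + dB q = 7 * k ∧ (D.Ke s).V q (Geo.ne s.1 1) = true ∧
    (D.Ke s).st (Geo.ne s.1 1) = false)

/-- the number of the segment on the north side of a state with east `± y` -/
def sgY (s : P.FSt) : ℤ := if s.1.e.2 then Geo.nw s.1 1 else Geo.ne s.1 1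

open Classical in
/-- the value of the edge `X` on the north side of the coarse state `s` -/
noncomputable def ev (k : ℕ) (s : P.FSt) (X : ℕ) : El :=
  if s.1.e.1 = 1 then (D.Kw s).kl k (sgY s) (if s.1.e.2 then X else 7 * k - 1 - X)
  else if X = 2 * k + 3 ∧ D.wN s = true then El.n
  else if X = 2 * k + 5 ∧ D.wS s = true then El.s
  else if X + 4 = 5 * k ∧ D.eN s = true then El.n
  else if X + 6 = 5 * k ∧ D.eS s = true then El.s
  else if (X = 3 * k + 3 ∧ D.rt1 s = true) ∨ (X + 4 = 4 * k ∧ D.rt2 s = true) then El.n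
  else if D.wT s X ∨ D.eT k s X then El.e
  else El.o

/-- the data of a plate, `t` its base frame -/
noncomputable def pd (t : P.FSt) : PD (Dart P ⊕ Dart P) where
  KW := D.Kw t
  KE := D.Ke t
  y := t.1.c 1
  nW := D.NLW t
  sW := D.SLW t
  nE := D.NLE t
  sE := D.SLE t
  r1 := D.rt1 t
  r2 := D.rt2 t

/-! ### The tables on `P.refine 7` -/

lemma h7 : 0 < 7 := by norm_num

/-- column and row of a facet of `P.refine 7` in the base frame of its coarse facet -/
def fi (f : (P.refine 7 h7).Facet) : ℕ := ix 7 (bf (co h7 f)).1.e f.1.1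
def fj (f : (P.refine 7 h7).Facet) : ℕ := ix 7 (bf (co h7 f)).1.n f.1.1

lemma fi_lt (f : (P.refine 7 h7).Facet) : fi f < 7 := ix_lt h7 _ _
lemma fj_lt (f : (P.refine 7 h7).Facet) : fj f < 7 := ix_lt h7 _ _

/-- the state of `f` in the base frame -/
def sf (f : (P.refine 7 h7).Facet) : (P.refine 7 h7).FSt :=
  sub h7 (bf (co h7 f)) (fi f) (fj f) (fi_lt f) (fj_lt f)

lemma sf_facet (f : (P.refine 7 h7).Facet) : (sf f).facet = f :=
  sub_ix h7 _ f (bf_facet _).symm

/-- the core facets -/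
def core7 (f : (P.refine 7 h7).Facet) : Prop := ¬ IsPl (co h7 f) ∧ fj f = 3

/-- the facet is seen in the frame with east `+ y` although it lies in a plate -/
noncomputable def isX7 (f : (P.refine 7 h7).Facet) : Bool :=
  (D.pd (bf (co h7 f))).isX (fi f) (fj f)

/-- the canonical frame -/
noncomputable def can7 (f : (P.refine 7 h7).Facet) : (P.refine 7 h7).FSt :=
  if IsPl (co h7 f) then
    if D.isX7 f then (sf f).rL else if f.1.2.2 then sf f else (sf f).r2
  else sf f

/-- the strands -/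
noncomputable def pr7 (k : ℕ) (f : (P.refine 7 h7).Facet) (x y : ℕ) : Bool :=
  if IsPl (co h7 f) then
    if D.isX7 f ∨ f.1.2.2 = true then (D.pd (bf (co h7 f))).prT k (fi f) (fj f) x y
    else (D.pd (bf (co h7 f))).prT k (fi f) (fj f) (k - x) (k - 1 - y)
  else false

/-- the lanes -/
noncomputable def la7 (k : ℕ) (f : (P.refine 7 h7).Facet) (x y : ℕ) : Helper55.UNF.Ln :=
  if IsPl (co h7 f) then
    if D.isX7 f ∨ f.1.2.2 = true then (D.pd (bf (co h7 f))).laT k (fi f) (fj f) x y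
    else (D.pd (bf (co h7 f))).laT k (fi f) (fj f) (k - 1 - x) (k - y)
  else if fj f < 3 ∨ (fj f = 3 ∧ y = 0) then
    (D.ev k (bf (co h7 f)).r2 (7 * k - 1 - (fi f * k + x))).ln
  else (D.ev k (bf (co h7 f)) (fi f * k + x)).ln

/-- the canonical line of the facet reaches a core facet or a straight strand -/
def Rch (k : ℕ) (f : (P.refine 7 h7).Facet) : Prop := ∃ z : ℤ,
  (∀ y ∈ Set.uIcc 0 z, ∃ g, (pN ^ y) (D.can7 f) = D.can7 g) ∧
    ∃ g, (pN ^ z) (D.can7 f) = D.can7 g ∧
      (core7 g ∨ ∃ y < k, ∀ x ≤ k, D.pr7 k g x y = true)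

/-- the lean facets: in the outer columns of the plates, in the frame with east `± x` -/
def L7 (k : ℕ) (f : (P.refine 7 h7).Facet) : Prop :=
  IsPl (co h7 f) ∧ D.isX7 f = false ∧ (fi f = 0 ∨ fi f = 6) ∧ ¬ D.Rch k f

/-- core facets that are not used as special facets -/
def nsp7 (f : (P.refine 7 h7).Facet) : Prop :=
  core7 f ∧ (co h7 f).1.2.1 = 1 ∧ (fi f < 2 ∨ 4 < fi f)

end Deco0

/-- The decoration. -/
structure Deco (P : GridSolid) extends Deco0 P where
  h_phi : ∀ d, h (phi P d) = h d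
  h_S : ∀ d, S d = true → h (nuD P d) < h d
  S_uniq : ∀ d e, S d = true → S e = true → (phi P).SameCycle d e → d = e
  S_R : ∀ d r, S d = true → R r = true →
    ¬ (phi P).SameCycle d r ∧ ¬ (phi P).SameCycle d (theta P r)
  face : ∀ d, (∃ s, S s = true ∧ (phi P).SameCycle d s) ∨
    ∃ r, R r = true ∧ ((phi P).SameCycle d r ∨ (phi P).SameCycle d (theta P r))
  R_uniq : ∀ r r', R r = true → R r' = true → ((phi P).SameCycle r r' ∨
    (phi P).SameCycle r (theta P r') ∨ (phi P).SameCycle (theta P r) r' ∨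
    (phi P).SameCycle (theta P r) (theta P r')) → r = r'
  R_theta : ∀ r, R r = true → R (theta P r) = false
  conn : ∀ q : Dart P → Prop, (∀ d, q (phi P d) ↔ q d) → (∀ d, S d = true → (q d ↔ q (nuD P d))) →
    (∀ r, R r = true → (q r ↔ q (theta P r))) → ∀ d, q d ↔ q (theta P d)
  /-- the lines -/
  aw_eq : ∀ x y z, (K x z).aw y = awP P x y z
  bw_eq : ∀ x y z, (K x z).bw y = bwP P x y z
  ok : ∀ x z, (K x z).Ok (fun y => onP P x y z)
  /-- bumps and valleys do not meet the full lanes; `t`: a plate with north `+ y` -/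
  plB : ∀ t : P.FSt, t.1.d.1 = 2 → t.1.n = (1, true) →
    ((toDeco0.Kw t).bp (t.1.c 1) = true → toDeco0.NLW t = false ∧ toDeco0.SLW t = false) ∧
    ((toDeco0.Kw t).vl (t.1.c 1) = true → toDeco0.NLW t = false)
  plA : ∀ t : P.FSt, t.1.d.1 = 2 → t.1.n = (1, true) →
    ((toDeco0.Ke t).bp (t.1.c 1) = true → toDeco0.NLE t = false) ∧
    ((toDeco0.Ke t).vl (t.1.c 1) = true → toDeco0.NLE t = false ∧ toDeco0.SLE t = false)
  /-- the runs -/
  vc_spec : ∀ c, S c = false → S ((nuD P).symm c) = true → ∃ l : ℕ, 0 < l ∧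
    ((nuD P) ^ l) (vc c) = c ∧ (∀ j < l, S (((nuD P) ^ j) (vc c)) = true) ∧
    S ((nuD P).symm (vc c)) = false
  /-- the words of the corners -/
  S_NL : ∀ κ, S κ = true → NL κ = true
  red : ∀ κ, Red (toDeco0.rw κ) (toDeco0.ex κ)
  nodup : ∀ κ, (toDeco0.rw κ).Nodup
  len : ∀ κ, (toDeco0.rw κ).length ≤ 4
  loc : ∀ κ b t, (b, t) ∈ toDeco0.rw κ → (nuD P).SameCycle κ (Sum.elim id id t)
  /-- every tag is the tag of a letter that remains -/
  src : ∀ κ b t, (b, t) ∈ toDeco0.rw κ → ∃ κ', (true, t) ∈ toDeco0.ex κ'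
  /-- at one place there is only one lane -/
  exclw : ∀ κ, (NL κ = true → (isUp (phi P κ).1 && (toDeco0.Kc κ).gN (yw κ)) = false ∧
      (isDn (phi P κ).1 && (toDeco0.Kc κ).fN (yw κ)) = false) ∧
    (SL κ = true → (isUp (phi P κ).1 && (toDeco0.Kc κ).fS (yw κ)) = false ∧
      (isDn (phi P κ).1 && (toDeco0.Kc κ).gS (yw κ)) = false)
  exclu : ∀ κ, (NL ((nuD P).symm κ) = true → (isDn κ.1 && (toDeco0.Kc κ).gN (yu κ)) = false ∧
      (isUp κ.1 && (toDeco0.Kc κ).fN (yu κ)) = false) ∧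
    (SL ((nuD P).symm κ) = true → (isDn κ.1 && (toDeco0.Kc κ).fS (yu κ)) = false ∧
      (isUp κ.1 && (toDeco0.Kc κ).gS (yu κ)) = false)
  link : ∀ W : toDeco0.Vals,
    (∀ κ t a b, (true, t, a) ∈ W.rw κ → (false, t, b) ∈ W.rw κ → (a ↔ b)) →
    ∀ κ κ' b b' t x y, (b, t, x) ∈ W.rw κ → (b', t, y) ∈ W.rw κ' → (x ↔ y)

end Pool.Agent.MP42D
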