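import Pool.Agent.MP42.D.W
import Pool.Agent.MP42.D.A
import Pool.Agent.MP42.G.Grt
import Pool.Agent.MP42.H.Refine

/-!
# Stage 2: solids with vertices of degree three
-/

set_option autoImplicit false
set_option linter.unusedSectionVars false

namespace Pool.Agent.MP42D

open Pool.Agent.Helper55.UNF Pool.Agent.Helper55.UNF.GridSolid Pool.Agent.MP42

/-- **Theorem.** -/
theorem main_deg3 (P : GridSolid) (hP : P.IsOrthogonalPolyhedron) (h3 : Deg3 P) :
    (P.refine 2590 (by norm_num)).HasEdgeUnfolding := by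
  obtain ⟨D⟩ := exists_deco hP h3
  have hk : 62 ≤ 74 := by norm_num
  have h := (D.jc hP.1 h3 hk).grt (MP42H.isOrthogonal_refine hP _) (D.words hP.1 h3 hk)
    (D.conn7 hP.1 h3 hk) (by unfold Deco.wB; omega)
  rw [MP42H.refine_refine] at h
  exact h

end Pool.Agent.MP42D
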