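import Mathlib

/-!
# Stage 2: the gap lemma (owner helper89)

`D`: darts, `θ`, `φ`: as in `qarbor`, `ν d = θ (φ d)`.  `a d`: the infinite stack before the corner
`d`, `b d`: the stack after the corner `d` (in the order of the rims, i.e. against `φ`).  Between the
corner `d` and the corner `φ⁻¹ d` the root letters of the wall `d` are read.
A corner in `S` pushes the value `N d` of its own lane and then the value of the lane of the next
child (`N (ν⁻¹ d)`) or of the closing strand (`K d`).  A parent corner replaces the value of the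
closing strand by the value of the lane of the child.
-/

set_option autoImplicit false

namespace Pool.Agent.MP42D

variable {D : Type*}

/-- one face -/
lemma cyc_const [Finite D] (φ : Equiv.Perm D) (a b : D → ℕ → Prop) (n r : D → ℕ) {B : ℕ}
    {u : Prop} {d0 : D} (hev : ∀ d, φ.SameCycle d0 d → ∀ m, B ≤ m → (a d m ↔ u) ∧ (b d m ↔ u))
    (hb : ∀ d, φ.SameCycle d0 d → ∀ m, (b d (m + n d) ↔ a d m))
    (ha : ∀ d, φ.SameCycle d0 d → ∀ m, (a (φ.symm d) (m + r d) ↔ b d m))
    (hp : ∃ d, φ.SameCycle d0 d ∧ 0 < n d + r d) :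
    ∀ d, φ.SameCycle d0 d → ∀ m, (a d m ↔ u) ∧ (b d m ↔ u) := by
  have hstep : ∀ d, φ.SameCycle d0 d → φ.SameCycle d0 (φ.symm d) := fun d h => by
    apply Equiv.Perm.SameCycle.trans h
    refine ⟨-1, ?_⟩
    rfl
  have key : ∀ j : ℕ, ∀ d, φ.SameCycle d0 d → ∀ m, B ≤ m + j → (a d m ↔ u) ∧ (b d m ↔ u) := by
    intro j
    induction j with
    | zero => intro d hd m hm; exact hev d hd m (by omega)
    | succ j ih =>
      -- one index `M`
      have one : ∀ M, B ≤ M + (j + 1) → ∀ d, φ.SameCycle d0 d → (a d M ↔ u) ∧ (b d M ↔ u) := by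
        intro M hM
        -- backwards
        have s1 : ∀ d, φ.SameCycle d0 d → (a (φ.symm d) M ↔ u) → (b d M ↔ u) := by
          intro d hd h
          rcases Nat.eq_zero_or_pos (r d) with h0 | h0
          · have := ha d hd M
            rw [h0, Nat.add_zero] at this
            exact this.symm.trans h
          · have := ha d hd M
            exact this.symm.trans (ih (φ.symm d) (hstep d hd) _ (by omega)).1
        have s2 : ∀ d, φ.SameCycle d0 d → (b d M ↔ u) → (a d M ↔ u) := by
          intro d hd h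
          rcases Nat.eq_zero_or_pos (n d) with h0 | h0
          · have := hb d hd M
            rw [h0, Nat.add_zero] at this
            exact this.symm.trans h
          · have := hb d hd M
            exact this.symm.trans (ih d hd _ (by omega)).2
        -- one of them
        obtain ⟨d1, hd1, hpos⟩ := hp
        have h1 : a d1 M ↔ u := by
          rcases Nat.eq_zero_or_pos (n d1) with h0 | h0
          · apply s2 d1 hd1
            have := ha d1 hd1 M
            exact this.symm.trans (ih (φ.symm d1) (hstep d1 hd1) _ (by omega)).1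
          · have := hb d1 hd1 M
            exact this.symm.trans (ih d1 hd1 _ (by omega)).2
        -- around the face
        have h2 : ∀ t : ℕ, φ.SameCycle d0 ((φ ^ t) d1) ∧ (a ((φ ^ t) d1) M ↔ u) := by
          intro t
          induction t with
          | zero => exact ⟨hd1, h1⟩
          | succ t iht =>
            rw [pow_succ', Equiv.Perm.mul_apply]
            have h3 : φ.SameCycle d0 (φ ((φ ^ t) d1)) := Equiv.Perm.sameCycle_apply_right.2 iht.1
            refine ⟨h3, s2 _ h3 (s1 _ h3 ?_)⟩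
            rw [Equiv.symm_apply_apply]
            exact iht.2
        intro d hd
        have h3 : a d M ↔ u := by
          obtain ⟨t, -, ht⟩ := (hd1.symm.trans hd).exists_pow_eq'
          rw [← ht]
          exact (h2 t).2
        refine ⟨h3, s1 d hd ?_⟩
        obtain ⟨t, -, ht⟩ := (hd1.symm.trans (hstep d hd)).exists_pow_eq'
        rw [← ht]
        exact (h2 t).2
      intro d hd m hm
      exact one m hm d hd
  intro d hd m
  exact key B d hd m (by omega)

/-- The stacks at the corners of the faces. -/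
structure RimData (θ φ : Equiv.Perm D) (S R : Set D) (a b : D → ℕ → Prop) (N K : D → Prop)
    (B : ℕ) : Prop where
  ev : ∀ d e, φ.SameCycle d e → ∀ m m', B ≤ m → B ≤ m' → (a d m ↔ a e m')
  evb : ∀ d m m', B ≤ m → B ≤ m' → (b d m ↔ a d m')
  /-- a child corner -/
  S0 : ∀ e ∈ S, θ (φ e) ∈ S → (b (θ (φ e)) 0 ↔ N e)
  S0' : ∀ d ∈ S, (∀ e ∈ S, θ (φ e) ≠ d) → (b d 0 ↔ K d)
  S1 : ∀ d ∈ S, (b d 1 ↔ N d)
  S2 : ∀ d ∈ S, ∀ m, (b d (m + 2) ↔ a d m)
  /-- a parent corner -/
  P0 : ∀ e ∈ S, θ (φ e) ∉ S → (a (θ (φ e)) 0 ↔ K (θ (φ e)))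
  P1 : ∀ e ∈ S, θ (φ e) ∉ S → (b (θ (φ e)) 0 ↔ N e)
  P2 : ∀ e ∈ S, θ (φ e) ∉ S → ∀ m, (b (θ (φ e)) (m + 1) ↔ a (θ (φ e)) (m + 1))
  /-- other corners -/
  O : ∀ d, d ∉ S → (∀ e ∈ S, θ (φ e) ≠ d) → ∀ m, (b d m ↔ a d m)
  /-- the closing strand -/
  K : ∀ e ∈ S, (K (θ (φ e)) ↔ K e)
  /-- root letters -/
  rt : ∀ d, ∃ r : ℕ, (∀ m, (a (φ.symm d) (m + r) ↔ b d m)) ∧ (0 < r ↔ d ∈ R ∨ θ d ∈ R)
  rr : ∀ r ∈ R, ∃ i j, (a (φ.symm r) i ↔ a (φ.symm (θ r)) j)

/-- **Gap lemma.** -/
theorem gap [Finite D] (θ φ : Equiv.Perm D) (hθ : ∀ d, θ (θ d) = d) {S R : Set D} {h : D → ℕ}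
    (h1 : ∀ d, h (φ d) = h d) (h2 : ∀ d ∈ S, h (θ (φ d)) < h d)
    (h3 : ∀ d, (∃ s ∈ S, φ.SameCycle d s) ∨ ∃ r ∈ R, φ.SameCycle d r ∨ φ.SameCycle d (θ r))
    (h4 : ∀ ψ : D → Prop, (∀ d, ψ (φ d) ↔ ψ d) → (∀ d ∈ S, ψ d ↔ ψ (θ (φ d))) →
        (∀ r ∈ R, ψ r ↔ ψ (θ r)) → ∀ d, ψ d ↔ ψ (θ d))
    {a b : D → ℕ → Prop} {N K : D → Prop} {B : ℕ} (H : RimData θ φ S R a b N K B) :
    ∃ V : D → Prop, (∀ d, V (φ d) ↔ V d) ∧ (∀ d, V (θ d) ↔ V d) ∧
      (∀ d m, (a d m ↔ V d) ∧ (b d m ↔ V d)) ∧ (∀ e ∈ S, (N e ↔ V e) ∧ (K e ↔ V e)) := by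
  classical
  have hsame : ∀ d e, φ.SameCycle d e → h e = h d := by
    intro d e hs
    obtain ⟨n, -, rfl⟩ := hs.exists_pow_eq'
    induction n with
    | zero => rfl
    | succ n ih =>
      rw [pow_succ', Equiv.Perm.mul_apply, h1]
      exact ih ⟨n, by rw [zpow_natCast]⟩
  obtain ⟨M, hM⟩ : ∃ M, ∀ d, h d ≤ M := by
    obtain ⟨M, hM⟩ := (Set.finite_range h).bddAbove
    exact ⟨M, fun d => hM ⟨d, rfl⟩⟩
  -- constant faces
  have main : ∀ n, ∀ d0, M - h d0 = n →
      ∃ u, ∀ d, φ.SameCycle d0 d → ∀ m, (a d m ↔ u) ∧ (b d m ↔ u) := by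
    intro n
    induction n using Nat.strong_induction_on with
    | _ n ih =>
      intro d0 hd0
      have hup : ∀ e, h d0 < h e → ∃ u, ∀ d, φ.SameCycle e d → ∀ m, (a d m ↔ u) ∧ (b d m ↔ u) := by
        intro e he
        refine ih (M - h e) ?_ e rfl
        have := hM e
        omega
      -- the lanes of the children
      have claim : ∀ n', ∀ e ∈ S, h d0 < h e → M - h e = n' → (K e ↔ N e) := by
        intro n'
        induction n' using Nat.strong_induction_on with
        | _ n' ih' =>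
          intro e he hlt hn'
          obtain ⟨u, hu⟩ := hup e hlt
          have hu' := hu e (Equiv.Perm.SameCycle.refl _ _)
          by_cases hx : ∃ e' ∈ S, θ (φ e') = e
          · obtain ⟨e', he', rfl⟩ := hx
            have hl := h2 e' he'
            have h5 := ih' (M - h e') (by have := hM e'; omega) e' he' (by omega) rfl
            have h6 := H.S0 e' he' he
            have h7 := H.S1 _ he
            have h8 := H.K e' he'
            exact h8.trans (h5.trans (h6.symm.trans ((hu' 0).2.trans ((hu' 1).2.symm.trans h7))))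
          · push Not at hx
            have h6 := H.S0' e he hx
            have h7 := H.S1 _ he
            exact h6.symm.trans ((hu' 0).2.trans ((hu' 1).2.symm.trans h7))
      -- the corners of the face
      have corner : ∀ d, φ.SameCycle d0 d → ∃ n : ℕ, (∀ m, (b d (m + n) ↔ a d m)) ∧
          (d ∈ S → 0 < n) := by
        intro d hd
        by_cases hS : d ∈ S
        · exact ⟨2, H.S2 d hS, fun _ => by omega⟩
        · refine ⟨0, ?_, fun h' => absurd h' hS⟩
          by_cases hx : ∃ e ∈ S, θ (φ e) = d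
          · obtain ⟨e, he, rfl⟩ := hx
            intro m
            have hl := h2 e he
            have hh := hsame _ _ hd
            cases m with
            | zero =>
              have h5 := claim _ e he (by omega) rfl
              exact (H.P1 e he hS).trans (h5.symm.trans ((H.K e he).symm.trans (H.P0 e he hS).symm))
            | succ m => exact H.P2 e he hS m
          · push Not at hx
            exact H.O d hS hx
      have hc : ∀ d, ∃ n : ℕ, φ.SameCycle d0 d → ((∀ m, (b d (m + n) ↔ a d m)) ∧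
          (d ∈ S → 0 < n)) := by
        intro d
        by_cases hd : φ.SameCycle d0 d
        · obtain ⟨n, hn⟩ := corner d hd
          exact ⟨n, fun _ => hn⟩
        · exact ⟨0, fun h' => absurd h' hd⟩
      choose nn hnn using hc
      choose rr hrr using H.rt
      refine ⟨a d0 B, cyc_const φ a b nn rr (B := B) ?_ ?_ ?_ ?_⟩
      · intro d hd m hm
        exact ⟨H.ev d d0 hd.symm m B hm le_rfl,
          (H.evb d m B hm le_rfl).trans (H.ev d d0 hd.symm B B le_rfl le_rfl)⟩
      · intro d hd m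
        exact (hnn d hd).1 m
      · intro d _ m
        exact (hrr d).1 m
      · rcases h3 d0 with ⟨s, hs, hds⟩ | ⟨r, hr, hdr | hdr⟩
        · exact ⟨s, hds, by have := (hnn s hds).2 hs; omega⟩
        · exact ⟨r, hdr, by have := (hrr r).2.2 (Or.inl hr); omega⟩
        · exact ⟨θ r, hdr, by have := (hrr (θ r)).2.2 (Or.inr (by rw [hθ]; exact hr)); omega⟩
  have main' : ∀ d, ∀ e, φ.SameCycle d e → ∀ m, (a e m ↔ a d 0) ∧ (b e m ↔ a d 0) := by
    intro d e hs m
    obtain ⟨u, hu⟩ := main _ d rfl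
    have h5 := (hu d (Equiv.Perm.SameCycle.refl _ _) 0).1
    have h6 := hu e hs m
    exact ⟨h6.1.trans h5.symm, h6.2.trans h5.symm⟩
  have hself : ∀ d m, (a d m ↔ a d 0) ∧ (b d m ↔ a d 0) := fun d m =>
    main' d d (Equiv.Perm.SameCycle.refl _ _) m
  have hφ : ∀ d, a (φ d) 0 ↔ a d 0 := fun d =>
    (main' d (φ d) (Equiv.Perm.sameCycle_apply_right.2 (Equiv.Perm.SameCycle.refl _ _)) 0).1
  have hN : ∀ e ∈ S, (N e ↔ a e 0) := fun e he => (H.S1 e he).symm.trans (hself e 1).2
  have hθ' : ∀ d, a d 0 ↔ a (θ d) 0 := by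
    apply h4 (fun d => a d 0) hφ
    · intro e he
      by_cases hS : θ (φ e) ∈ S
      · exact (hN e he).symm.trans ((H.S0 e he hS).symm.trans (hself _ 0).2)
      · exact (hN e he).symm.trans ((H.P1 e he hS).symm.trans (hself _ 0).2)
    · intro r hr
      obtain ⟨i, j, hij⟩ := H.rr r hr
      have h5 := (hself (φ.symm r) i).1
      have h6 := (hself (φ.symm (θ r)) j).1
      have h7 := hφ (φ.symm r)
      have h8 := hφ (φ.symm (θ r))
      rw [Equiv.apply_symm_apply] at h7 h8
      exact h7.trans (h5.symm.trans (hij.trans (h6.trans h8.symm)))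
  refine ⟨fun d => a d 0, hφ, fun d => (hθ' d).symm, hself, ?_⟩
  -- the closing strands
  have hK : ∀ n', ∀ e ∈ S, M - h e = n' → (K e ↔ a e 0) := by
    intro n'
    induction n' using Nat.strong_induction_on with
    | _ n' ih' =>
      intro e he hn'
      by_cases hx : ∃ e' ∈ S, θ (φ e') = e
      · obtain ⟨e', he', rfl⟩ := hx
        have hl := h2 e' he'
        have h5 := ih' (M - h e') (by have := hM e'; omega) e' he' rfl
        exact (H.K e' he').trans (h5.trans ((hφ e').symm.trans (hθ' (φ e'))))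
      · push Not at hx
        exact (H.S0' e he hx).symm.trans (hself e 0).2
  exact fun e he => ⟨hN e he, hK _ e he rfl⟩

end Pool.Agent.MP42D
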