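import Pool.Agent.MP42.D.C

/-!
# The junction certificate of a decoration
-/

set_option autoImplicit false
set_option linter.unusedSectionVars false

namespace Pool.Agent.MP42D

open Pool.Agent.Helper55.UNF Pool.Agent.Helper55.UNF.GridSolid Pool.Agent.MP42G

variable {P : GridSolid}

/-- the junction certificate of a decoration -/
noncomputable def Deco.jc (D : Deco P) (hM : P.IsManifold) (h3 : MP42.Deg3 P) {k : ℕ}
    (hk : 62 ≤ k) : JCert (P.refine 7 Deco0.h7) k where
  core := Deco0.core7
  core_E := Deco.core7_E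
  can := D.can7
  can_facet := D.can7_facet
  can_core := D.can7_core
  pr := D.pr7 k
  la := D.la7 k
  ok := D.ok7 hM h3 hk
  free := fun f hf x hx h => D.free7 hM h3 hk f hf x hx h
  gN := fun f g h x hx => D.gN7 hM h3 hk f g h x hx
  gN' := fun f h x hx => D.gN7' hM h3 hk f h x hx
  gS' := fun g h x hx => D.gS7' hM h3 hk g h x hx
  gE := fun f g hf h y hy => D.gE7 hM h3 hk f g hf h y hy
  gEr := fun f g hf h y hy => D.gEr7 hM h3 hk f g hf h y hy
  gWr := fun f g hf h y hy => D.gWr7 hM h3 hk f g hf h y hy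
  gE' := fun f hf h y hy => D.gE7' hM h3 hk f hf h y hy
  gW' := fun f hf h y hy => D.gW7' hM h3 hk f hf h y hy
  L := D.L7 k
  L_core := D.L7_core k
  Lpr := fun f hf x y hx hy => D.L7_pr hM h3 hk f hf x y hx hy
  Lla := fun f hf x y hx hy => D.L7_la hM h3 hk f hf x y hx hy
  cov := fun f hf hL x hx w => D.cov7 hM h3 hk f hf hL x hx w
  nsp := Deco0.nsp7
  nsp_ex := Deco.nsp7_ex
  lean := fun f hf => D.lean7 hM h3 hk f hf
  lcut := fun f hf => D.lcut7 hM h3 hk f hf

end Pool.Agent.MP42D
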