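import Pool.Agent.MP42.Lines2
import Pool.Agent.MP42.QArbor
import Pool.Agent.MP42.Geo

/-!
# Leaves: the walk around a corner, and local facts at the points of a leaf (owner helper18)
-/

set_option autoImplicit false
set_option linter.unusedSectionVars false

namespace Pool.Agent.MP42D

open Pool.Agent.Helper55.UNF Pool.Agent.Helper55.UNF.GridSolid Pool.Agent.MP42

variable (P : GridSolid)

/-- the boxes around the unit edge from `(x, y, z)` to `(x, y + 1, z)`: `r` right, `a` above -/
def bit (x y z : ℤ) (r a : Bool) : Bool :=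
  decide ((![if r then x else x - 1, y, if a then z else z - 1] : Fin 3 → ℤ) ∈ P.cells)

/-- the unit edge has a wall on its A side -/
def awP (x y z : ℤ) : Bool :=
  (bit P x y z false true && !bit P x y z true true) ||
    (!bit P x y z false false && bit P x y z true false)

/-- the unit edge has a wall on its B side -/
def bwP (x y z : ℤ) : Bool :=
  (!bit P x y z false true && bit P x y z true true) ||
    (bit P x y z false false && !bit P x y z true false)

/-- the unit edge lies in the surface -/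
def onP (x y z : ℤ) : Bool :=
  Geo.onB (bit P x y z false false) (bit P x y z true false) (bit P x y z false true)
    (bit P x y z true true)

/-- the corner permutation -/
noncomputable def nuD : Equiv.Perm (Dart P) := nu (theta P) (phi P)

variable {P}

/-- the `y`-coordinate at which the corner `d` starts (end of the first wall) -/
def yu (d : Dart P) : ℤ := Geo.ne d.1.1 1

/-- the `y`-coordinate at which the corner `d` ends (start of the second wall) -/
noncomputable def yw (d : Dart P) : ℤ := Geo.nw (phi P d).1.1 1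

/-- The walk around a corner: `k` walls with normal `± x`, all in the direction `b` (`true`: up, on
the B side of the line; `false`: down, on the A side). -/
structure Wk (d : Dart P) (k : ℕ) (b : Bool) : Prop where
  hphi : (phi P d).1 = (pE ^ (k + 1)) d.1
  hd : ∀ j < k, ((pE ^ (j + 1)) d.1).1.d.1 = 0
  he : ∀ j < k, ((pE ^ (j + 1)) d.1).1.e = (1, b)
  hn : ∀ j ≤ k + 1, ((pE ^ j) d.1).1.n = d.1.1.n
  hpos : ∀ j ≤ k, Geo.nw ((pE ^ (j + 1)) d.1).1 =
    ![Geo.ne d.1.1 0, if b then yu d + j else yu d - j, Geo.ne d.1.1 2]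

/-! ## The walk around a corner -/

lemma axes_of_n : ∀ d e : Dir, d.1 ≠ e.1 → (cross d e).1 = 2 →
    (d.1 = 1 ∧ e.1 = 0) ∨ (d.1 = 0 ∧ e.1 = 1) := by decide

lemma pE_pow_succ (s : P.FSt) (j : ℕ) : (pE ^ (j + 1)) s = ((pE ^ j) s).stE := by
  rw [pow_succ', Equiv.Perm.mul_apply]; rfl

lemma pow_n (s : P.FSt) (j : ℕ) : ((pE ^ j) s).1.n = s.1.n := by
  induction j with
  | zero => rfl
  | succ j ih =>
    rw [pE_pow_succ]
    have h : ((pE ^ j) s).stE.1.n = ((pE ^ j) s).1.n := P.stepE_n _ ((pE ^ j) s).2.2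
    rw [h, ih]

lemma dart_n (d : Dart P) : d.1.1.n.1 = 2 := by
  have h1 := d.2.1
  have h2 := d.2.2
  have : ∀ d e : Dir, d.1 = 1 → e.1 = 0 → (cross d e).1 = 2 := by decide
  exact this _ _ h1 h2

/-- a state with north `± z` that is not a dart is a wall -/
lemma wall_of_not_dart (s : P.FSt) (hn : s.1.n.1 = 2) (h : ¬ IsDart s) :
    s.1.d.1 = 0 ∧ s.1.e.1 = 1 := by
  rcases axes_of_n _ _ s.2.2 hn with h1 | h1
  · exact absurd h1 h
  · exact h1

lemma cnr_wall (c : Fin 3 → ℤ) (d e n : Dir) (b : Bool) (hd : d.1 = 0) (he : e = (1, b))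
    (hn : n.1 = 2) (a : Fin 3) :
    Geo.cnr c d e n a = Geo.cnr c d (opp e) n a + (if a = 1 then (if b then 1 else -1) else 0) := by
  obtain ⟨d, ds⟩ := d
  obtain ⟨n, ns⟩ := n
  simp only at hd hn
  subst hd hn he
  unfold Geo.cnr opp
  have ha : a = 0 ∨ a = 1 ∨ a = 2 := by fin_cases a <;> simp
  rcases ha with rfl | rfl | rfl <;> cases b <;> simp

/-- every corner has a walk -/
theorem exists_wk' (d : Dart P) : ∃ k b, Wk d k b := by
  set k := retN pE IsDart d.1 with hk
  have hnd : ∀ j < k, ¬ IsDart ((pE ^ (j + 1)) d.1) := fun j hj => retN_not hj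
  have hn : ∀ j, ((pE ^ j) d.1).1.n = d.1.1.n := pow_n d.1
  have hw : ∀ j < k, ((pE ^ (j + 1)) d.1).1.d.1 = 0 ∧ ((pE ^ (j + 1)) d.1).1.e.1 = 1 := by
    intro j hj
    exact wall_of_not_dart _ (by rw [hn]; exact dart_n d) (hnd j hj)
  have he : ∀ j < k, ((pE ^ (j + 1)) d.1).1.e = (1, ((pE ^ (0 + 1)) d.1).1.e.2) := by
    intro j
    induction j with
    | zero =>
      intro h0
      exact Prod.ext (hw 0 h0).2 rfl
    | succ j ih =>
      intro hj
      have h1 := ih (by omega)
      have h2 : ((pE ^ (j + 1 + 1)) d.1).1.d.1 = ((pE ^ (j + 1)) d.1).1.d.1 := by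
        rw [(hw (j + 1) hj).1, (hw j (by omega)).1]
      rw [pE_pow_succ d.1 (j + 1)] at h2 ⊢
      have h3 := Geo.stepE_flat_of_axis (P := P) ((pE ^ (j + 1)) d.1).1 ((pE ^ (j + 1)) d.1).2.2 h2
      have h4 : ((pE ^ (j + 1)) d.1).stE.1.e = ((pE ^ (j + 1)) d.1).1.e := h3.2.1
      rw [h4, h1]
  refine ⟨k, ((pE ^ (0 + 1)) d.1).1.e.2, ?_, fun j hj => (hw j hj).1, he, fun j _ => hn j, ?_⟩
  · show retFun pE IsDart d.1 = _
    rw [retFun_eq]
  · generalize ((pE ^ (0 + 1)) d.1).1.e.2 = b at he
    intro j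
    induction j with
    | zero =>
      intro _
      rw [pE_pow_succ]
      have h1 : Geo.nw ((pE ^ 0) d.1).stE.1 = Geo.ne ((pE ^ 0) d.1).1 :=
        Geo.nw_stepE P _ ((pE ^ 0) d.1).2.2
      rw [h1]
      have h2 : (pE ^ 0) d.1 = d.1 := rfl
      rw [h2]
      funext a
      fin_cases a
      · rfl
      · cases b <;> simp [yu]
      · rfl
    | succ j ih =>
      intro hj
      have h0 := ih (by omega)
      rw [pE_pow_succ d.1 (j + 1)]
      have h1 : Geo.nw ((pE ^ (j + 1)) d.1).stE.1 = Geo.ne ((pE ^ (j + 1)) d.1).1 :=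
        Geo.nw_stepE P _ ((pE ^ (j + 1)) d.1).2.2
      rw [h1]
      have h2 := he j (by omega)
      have h3 := (hw j (by omega)).1
      have h4 : ((pE ^ (j + 1)) d.1).1.n.1 = 2 := by rw [hn]; exact dart_n d
      have h5 : ∀ a, Geo.ne ((pE ^ (j + 1)) d.1).1 a = Geo.nw ((pE ^ (j + 1)) d.1).1 a +
          (if a = 1 then (if b then 1 else -1) else 0) := by
        intro a
        exact cnr_wall _ _ _ _ b h3 h2 h4 a
      funext a
      rw [h5 a, h0]
      fin_cases a
      · simp
      · cases b <;> simp <;> ring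
      · simp

end Pool.Agent.MP42D
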