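import Pool.Agent.MP42.D.LeafA

/-!
# Leaves: unit walls, unit strips, heads and tails (owner helper18)

At a grid point `(x, y, z)` the quadrants are `(r, u)` (`r`: right, `u`: above).  A *wall* lies in a
slab `u`, a *strip* lies on a side `r`.  Every corner starts at a head and ends at a tail.
-/

set_option autoImplicit false
set_option linter.unusedSectionVars false

namespace Pool.Agent.MP42D

open Pool.Agent.Helper55.UNF Pool.Agent.Helper55.UNF.GridSolid Pool.Agent.MP42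

variable (P : GridSolid)

/-- the unit edge has a wall in the slab `u` of the direction `b` (`true`: B wall, `false`: A wall) -/
def wallU (x y z : ℤ) (u b : Bool) : Prop :=
  bit P x y z false u = (b != u) ∧ bit P x y z true u = (b == u)

/-- the unit edge has a strip on the side `r` of the direction `b` (`true`: B, `false`: A) -/
def stripU (x y z : ℤ) (r b : Bool) : Prop :=
  bit P x y z r false = (b == r) ∧ bit P x y z r true = (b != r)

/-- the quadrant `(r, u)` at the point is a head: a corner starts here -/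
def headQ (x y z : ℤ) (r u : Bool) : Prop :=
  bit P x (y - 1) z r u = (u != r) ∧ bit P x y z r u = (u == r)

/-- the quadrant `(r, u)` at the point is a tail: a corner ends here -/
def tailQ (x y z : ℤ) (r u : Bool) : Prop :=
  bit P x (y - 1) z r u = (u == r) ∧ bit P x y z r u = (u != r)

variable {P}

/-! ## Walks to the east -/

/-- the walk to the east from `s` up to the next `y`-facet -/
structure EW (s : P.FSt) (k : ℕ) (b : Bool) : Prop where
  mid : ∀ j < k, ((pE ^ (j + 1)) s).1.e = (1, b)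
  d1 : ((pE ^ (k + 1)) s).1.d.1 = 1
  pos : ∀ j ≤ k, Geo.nw ((pE ^ (j + 1)) s).1 =
    ![Geo.ne s.1 0, if b then Geo.ne s.1 1 + j else Geo.ne s.1 1 - j, Geo.ne s.1 2]

lemma third_axis : ∀ d e : Dir, d.1 ≠ e.1 → (cross d e).1 ≠ 1 → d.1 ≠ 1 →
    e.1 = 1 ∧ (d.1 = 0 ∨ d.1 = 2) := by decide

lemma cnr_wall' (c : Fin 3 → ℤ) (d e n : Dir) (b : Bool) (hd : d.1 ≠ 1) (he : e = (1, b))
    (hn : n.1 ≠ 1) (a : Fin 3) :
    Geo.cnr c d e n a = Geo.cnr c d (opp e) n a + (if a = 1 then (if b then 1 else -1) else 0) := by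
  subst he
  unfold Geo.cnr opp
  by_cases ha : a = 1
  · subst ha
    have h1 : ¬ ((1 : Fin 3) = d.1) := fun h => hd h.symm
    have h2 : ¬ ((1 : Fin 3) = n.1) := fun h => hn h.symm
    cases b <;> simp [h1, h2]
  · simp [ha]

theorem exists_EW (s : P.FSt) (hn : s.1.n.1 ≠ 1) (k : ℕ)
    (hk : ∀ j < k, ((pE ^ (j + 1)) s).1.d.1 ≠ 1) (hl : ((pE ^ (k + 1)) s).1.d.1 = 1) :
    EW s k ((pE ^ (0 + 1)) s).1.e.2 := by
  have hN : ∀ j, ((pE ^ j) s).1.n = s.1.n := pow_n s
  have hw : ∀ j < k, ((pE ^ (j + 1)) s).1.e.1 = 1 := by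
    intro j hj
    exact (third_axis _ _ ((pE ^ (j + 1)) s).2.2 (by
      have := hN (j + 1)
      show ((pE ^ (j + 1)) s).1.n.1 ≠ 1
      rw [this]; exact hn) (hk j hj)).1
  have he : ∀ j < k, ((pE ^ (j + 1)) s).1.e = (1, ((pE ^ (0 + 1)) s).1.e.2) := by
    intro j
    induction j with
    | zero =>
      intro h0
      exact Prod.ext (hw 0 h0) rfl
    | succ j ih =>
      intro hj
      have h1 := ih (by omega)
      have h2 : ((pE ^ (j + 1 + 1)) s).1.d.1 = ((pE ^ (j + 1)) s).1.d.1 := by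
        have k1 := hw (j + 1) hj
        have k2 := hw j (by omega)
        have k3 := hN (j + 1 + 1)
        have k4 := hN (j + 1)
        have k5 : (cross ((pE ^ (j + 1 + 1)) s).1.d ((pE ^ (j + 1 + 1)) s).1.e).1 =
            (cross ((pE ^ (j + 1)) s).1.d ((pE ^ (j + 1)) s).1.e).1 := by
          show ((pE ^ (j + 1 + 1)) s).1.n.1 = ((pE ^ (j + 1)) s).1.n.1
          rw [k3, k4]
        have : ∀ d e d' e' : Dir, e.1 = 1 → e'.1 = 1 → (cross d e).1 = (cross d' e').1 →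
            d.1 = d'.1 := by decide
        exact this _ _ _ _ k1 k2 k5
      rw [pE_pow_succ s (j + 1)] at h2 ⊢
      have h3 := Geo.stepE_flat_of_axis (P := P) ((pE ^ (j + 1)) s).1 ((pE ^ (j + 1)) s).2.2 h2
      have h4 : ((pE ^ (j + 1)) s).stE.1.e = ((pE ^ (j + 1)) s).1.e := h3.2.1
      rw [h4, h1]
  refine ⟨he, hl, ?_⟩
  generalize ((pE ^ (0 + 1)) s).1.e.2 = b at he
  intro j
  induction j with
  | zero =>
    intro _
    rw [pE_pow_succ]
    have h1 : Geo.nw ((pE ^ 0) s).stE.1 = Geo.ne ((pE ^ 0) s).1 :=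
      Geo.nw_stepE P _ ((pE ^ 0) s).2.2
    rw [h1]
    have h2 : (pE ^ 0) s = s := rfl
    rw [h2]
    funext a
    fin_cases a
    · rfl
    · cases b <;> simp
    · rfl
  | succ j ih =>
    intro hj
    have h0 := ih (by omega)
    rw [pE_pow_succ s (j + 1)]
    have h1 : Geo.nw ((pE ^ (j + 1)) s).stE.1 = Geo.ne ((pE ^ (j + 1)) s).1 :=
      Geo.nw_stepE P _ ((pE ^ (j + 1)) s).2.2
    rw [h1]
    have h5 : ∀ a, Geo.ne ((pE ^ (j + 1)) s).1 a = Geo.nw ((pE ^ (j + 1)) s).1 a +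
        (if a = 1 then (if b then 1 else -1) else 0) := by
      intro a
      exact cnr_wall' _ _ _ _ b (hk j (by omega)) (he j (by omega)) (by
        show ((pE ^ (j + 1)) s).1.n.1 ≠ 1
        rw [hN]; exact hn) a
    funext a
    rw [h5 a, h0]
    fin_cases a
    · simp
    · cases b <;> simp <;> ring
    · simp

/-! ## Unit walls and unit strips -/

lemma cell3 (c : Fin 3 → ℤ) : c = ![c 0, c 1, c 2] := by
  funext i; fin_cases i <;> rfl

lemma shift_x (c : Fin 3 → ℤ) (s : Bool) :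
    shift c (0, s) = ![c 0 + (if s then 1 else -1), c 1, c 2] := by
  funext a
  fin_cases a <;> simp [shift]

lemma shift_y (c : Fin 3 → ℤ) (s : Bool) :
    shift c (1, s) = ![c 0, c 1 + (if s then 1 else -1), c 2] := by
  funext a
  fin_cases a <;> simp [shift]

lemma shift_z (c : Fin 3 → ℤ) (s : Bool) :
    shift c (2, s) = ![c 0, c 1, c 2 + (if s then 1 else -1)] := by
  funext a
  fin_cases a <;> simp [shift]

/-- the unit edge of a wall -/
lemma wall_bits (s : P.FSt) (b : Bool) (hd : s.1.d.1 = 0) (he : s.1.e = (1, b)) :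
    wallU P (Geo.nw s.1 0) (if b then Geo.nw s.1 1 else Geo.nw s.1 1 - 1) (Geo.nw s.1 2)
      (!s.1.n.2) b := by
  obtain ⟨⟨c, ⟨d, ds⟩, e⟩, ⟨hc, hc'⟩, hde⟩ := s
  simp only at hd he hc hc' hde
  subst hd he
  rw [shift_x] at hc'
  rw [cell3 c] at hc
  have hn : ∀ ds es : Bool, cross (0, ds) (1, es) = (2, ds == es) := by decide
  unfold wallU Geo.nw St.n bit
  simp only [hn, opp, Geo.cnr]
  cases ds <;> cases b <;> simp [sub_eq_add_neg] at hc hc' ⊢ <;>
    first | exact ⟨hc', hc⟩ | exact ⟨hc, hc'⟩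

/-- the unit edge of a strip -/
lemma strip_bits (s : P.FSt) (b : Bool) (hd : s.1.d.1 = 2) (he : s.1.e = (1, b)) :
    stripU P (Geo.nw s.1 0) (if b then Geo.nw s.1 1 else Geo.nw s.1 1 - 1) (Geo.nw s.1 2)
      (!s.1.n.2) b := by
  obtain ⟨⟨c, ⟨d, ds⟩, e⟩, ⟨hc, hc'⟩, hde⟩ := s
  simp only at hd he hc hc' hde
  subst hd he
  rw [shift_z] at hc'
  rw [cell3 c] at hc
  have hn : ∀ ds es : Bool, cross (2, ds) (1, es) = (0, ds != es) := by decide
  unfold stripU Geo.nw St.n bit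
  simp only [hn, opp, Geo.cnr]
  cases ds <;> cases b <;> simp [sub_eq_add_neg] at hc hc' ⊢ <;>
    first | exact ⟨hc', hc⟩ | exact ⟨hc, hc'⟩

/-- the quadrant of a head -/
lemma head_bits (s : P.FSt) (hs : IsDart s) :
    headQ P (Geo.ne s.1 0) (Geo.ne s.1 1) (Geo.ne s.1 2) (!s.1.e.2) (!s.1.n.2) := by
  obtain ⟨⟨c, ⟨d, ds⟩, ⟨e, es⟩⟩, ⟨hc, hc'⟩, hde⟩ := s
  obtain ⟨h1, h2⟩ := hs
  simp only at h1 h2 hc hc' hde
  subst h1 h2
  rw [shift_y] at hc'
  rw [cell3 c] at hc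
  have hn : ∀ ds es : Bool, cross (1, ds) (0, es) = (2, ds != es) := by decide
  unfold headQ Geo.ne St.n bit
  simp only [hn, opp, Geo.cnr]
  cases ds <;> cases es <;> simp [sub_eq_add_neg] at hc hc' ⊢ <;>
    first | exact ⟨hc', hc⟩ | exact ⟨hc, hc'⟩

/-- the quadrant of a tail -/
lemma tail_bits (s : P.FSt) (hs : IsDart s) :
    tailQ P (Geo.nw s.1 0) (Geo.nw s.1 1) (Geo.nw s.1 2) (s.1.e.2) (!s.1.n.2) := by
  obtain ⟨⟨c, ⟨d, ds⟩, ⟨e, es⟩⟩, ⟨hc, hc'⟩, hde⟩ := s
  obtain ⟨h1, h2⟩ := hs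
  simp only at h1 h2 hc hc' hde
  subst h1 h2
  rw [shift_y] at hc'
  rw [cell3 c] at hc
  have hn : ∀ ds es : Bool, cross (1, ds) (0, es) = (2, ds != es) := by decide
  unfold tailQ Geo.nw St.n bit
  simp only [hn, opp, Geo.cnr]
  cases ds <;> cases es <;> simp [sub_eq_add_neg] at hc hc' ⊢ <;>
    first | exact ⟨hc', hc⟩ | exact ⟨hc, hc'⟩

end Pool.Agent.MP42D
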