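import Pool.Agent.MP42.D.LeafB

/-!
# Leaves: corners and strips of the walk around a leaf (owner helper18)
-/

set_option autoImplicit false
set_option linter.unusedSectionVars false

namespace Pool.Agent.MP42D

open Pool.Agent.Helper55.UNF Pool.Agent.Helper55.UNF.GridSolid Pool.Agent.MP42

variable {P : GridSolid}

/-- the slab of a corner -/
def uS (d : Dart P) : Bool := !d.1.1.n.2

/-- the side of the head of a corner -/
def rH (d : Dart P) : Bool := !d.1.1.e.2

/-- the side of the tail of a corner: the side of the strip after the corner -/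
noncomputable def rT (d : Dart P) : Bool := (phi P d).1.1.e.2

/-- the line of a dart -/
def xl (d : Dart P) : ℤ := Geo.ne d.1.1 0

def zl (d : Dart P) : ℤ := Geo.ne d.1.1 2

/-! ## Corners -/

section

variable {d : Dart P} {k : ℕ} {b : Bool}

lemma Wk.yw_eq (h : Wk d k b) : yw d = if b then yu d + k else yu d - k := by
  unfold yw
  rw [h.hphi, h.hpos k le_rfl]
  cases b <;> rfl

lemma Wk.nw_phi (h : Wk d k b) : Geo.nw (phi P d).1.1 = ![xl d, yw d, zl d] := by
  rw [h.yw_eq, h.hphi, h.hpos k le_rfl]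
  rfl

lemma nw_phi (d : Dart P) : Geo.nw (phi P d).1.1 = ![xl d, yw d, zl d] := by
  obtain ⟨k, b, h⟩ := exists_wk' d
  exact h.nw_phi

lemma n_phi (d : Dart P) : (phi P d).1.1.n = d.1.1.n := by
  obtain ⟨k, b, h⟩ := exists_wk' d
  rw [h.hphi]
  exact h.hn _ le_rfl

/-- the `j`-th unit edge of a corner or a strip that starts at `y` -/
def uE (y : ℤ) (b : Bool) (j : ℕ) : ℤ := if b then y + j else y - j - 1

/-- the unit edges of a corner are walls -/
lemma Wk.wall (h : Wk d k b) {j : ℕ} (hj : j < k) :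
    wallU P (xl d) (uE (yu d) b j) (zl d) (uS d) b := by
  have h1 := wall_bits ((pE ^ (j + 1)) d.1) b (h.hd j hj) (h.he j hj)
  rw [h.hpos j (by omega), h.hn (j + 1) (by omega)] at h1
  unfold uE
  cases b <;> exact h1

/-- a corner starts at a head -/
lemma head_q (d : Dart P) : headQ P (xl d) (yu d) (zl d) (rH d) (uS d) := head_bits d.1 d.2

/-- a corner ends at a tail -/
lemma tail_q (d : Dart P) : tailQ P (xl d) (yw d) (zl d) (rT d) (uS d) := by
  have h1 := tail_bits (phi P d).1 (phi P d).2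
  rw [nw_phi, n_phi] at h1
  exact h1

/-- a flat corner crosses the line -/
lemma Wk.flat (h : Wk d 0 b) : rT d = !rH d := by
  have h1 : (phi P d).1 = d.1.stE := h.hphi
  have h2 := Geo.stepE_flat_of_axis (P := P) d.1.1 d.1.2.2 (by
    have h3 := (phi P d).2.1
    rw [h1] at h3
    rw [d.2.1]
    exact h3)
  unfold rT rH
  rw [h1]
  have h4 : d.1.stE.1.e = d.1.1.e := h2.2.1
  rw [h4, Bool.not_not]

end

/-! ## Strips -/

/-- The strip after the corner `d`: `l` units in the direction `b`. -/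
structure Sk (d : Dart P) (l : ℕ) (b : Bool) : Prop where
  hnu : (nuD P d).1 = (((pE ^ (l + 1)) (phi P d).1.rL).rR).r2
  hd : ∀ j < l, ((pE ^ (j + 1)) (phi P d).1.rL).1.d.1 = 2
  he : ∀ j < l, ((pE ^ (j + 1)) (phi P d).1.rL).1.e = (1, b)
  hn : ∀ j, ((pE ^ j) (phi P d).1.rL).1.n = opp (phi P d).1.1.e
  hpos : ∀ j ≤ l, Geo.nw ((pE ^ (j + 1)) (phi P d).1.rL).1 =
    ![xl d, if b then yw d + j else yw d - j, zl d]

lemma rL_n (s : P.FSt) : s.rL.1.n = opp s.1.e := by
  show cross s.1.d (cross s.1.d s.1.e) = opp s.1.e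
  exact cross_cross _ _ s.2.2

lemma pN_pow' (s : P.FSt) (j : ℕ) : (pN ^ j) s = ((pE ^ j) s.rL).rR := Geo.pN_pow s j

lemma nuD_val (d : Dart P) : (nuD P d).1 = ((rN P (phi P d)).1).r2 := rfl

/-- every corner is followed by a strip -/
theorem exists_sk (d : Dart P) : ∃ l b, Sk d l b := by
  set t := (phi P d).1 with ht
  set l := retN pN IsDart t with hl
  have htn : t.rL.1.n.1 = 0 := by
    rw [rL_n]
    exact (phi P d).2.2
  have hN : ∀ j, ((pE ^ j) t.rL).1.n = t.rL.1.n := pow_n t.rL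
  have hdart : ∀ j, IsDart ((pN ^ j) t) ↔ ((pE ^ j) t.rL).1.d.1 = 1 := by
    intro j
    rw [pN_pow']
    constructor
    · exact fun h => h.1
    · intro h
      refine ⟨h, ?_⟩
      show (opp ((pE ^ j) t.rL).1.n).1 = 0
      rw [hN]
      exact htn
  have hnd : ∀ j < l, ((pE ^ (j + 1)) t.rL).1.d.1 ≠ 1 := by
    intro j hj h
    exact retN_not hj ((hdart (j + 1)).2 h)
  have hrN : (rN P (phi P d)).1 = (pN ^ (l + 1)) t := by
    show retFun pN IsDart t = _
    rw [retFun_eq]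
  have hlast : ((pE ^ (l + 1)) t.rL).1.d.1 = 1 := by
    rw [← hdart, ← hrN]
    exact (rN P (phi P d)).2
  have hew := exists_EW t.rL (by rw [htn]; decide) l hnd hlast
  generalize ((pE ^ (0 + 1)) t.rL).1.e.2 = b at hew
  refine ⟨l, b, ?_, ?_, hew.mid, ?_, ?_⟩
  · rw [nuD_val, hrN, pN_pow']
  · intro j hj
    have h1 := hnd j hj
    have h2 := hew.mid j hj
    have h3 : (cross ((pE ^ (j + 1)) t.rL).1.d ((pE ^ (j + 1)) t.rL).1.e).1 = 0 := by
      show ((pE ^ (j + 1)) t.rL).1.n.1 = 0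
      rw [hN]; exact htn
    have h4 : ∀ d e : Dir, e.1 = 1 → (cross d e).1 = 0 → d.1 = 2 := by decide
    exact h4 _ _ (by rw [h2]) h3
  · intro j
    rw [hN, rL_n]
  · intro j hj
    rw [hew.pos j hj]
    have h1 : Geo.ne t.rL.1 = Geo.nw t.1 := Geo.ne_rotL t.1 t.2.2
    rw [h1, ht, nw_phi]
    rfl

section

variable {d : Dart P} {l : ℕ} {b : Bool}

lemma Sk.nu_e (h : Sk d l b) : (nuD P d).1.1.e = opp (phi P d).1.1.e := by
  rw [h.hnu]
  show opp (opp ((pE ^ (l + 1)) (phi P d).1.rL).1.n) = _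
  rw [opp_opp, h.hn]

lemma Sk.ne_nu (h : Sk d l b) : Geo.ne (nuD P d).1.1 =
    ![xl d, if b then yw d + l else yw d - l, zl d] := by
  rw [h.hnu]
  have h1 : Geo.ne (((pE ^ (l + 1)) (phi P d).1.rL).rR).r2.1 =
      Geo.sw (((pE ^ (l + 1)) (phi P d).1.rL).rR).1 :=
    Geo.ne_rot2 _ (((pE ^ (l + 1)) (phi P d).1.rL).rR).2.2
  have h2 : Geo.sw (((pE ^ (l + 1)) (phi P d).1.rL).rR).1 =
      Geo.nw ((pE ^ (l + 1)) (phi P d).1.rL).1 :=
    Geo.sw_rotR _ ((pE ^ (l + 1)) (phi P d).1.rL).2.2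
  rw [h1, h2, h.hpos l le_rfl]

lemma Sk.yu_eq (h : Sk d l b) : yu (nuD P d) = if b then yw d + l else yw d - l := by
  unfold yu
  rw [h.ne_nu]
  cases b <;> rfl

/-- the unit edges of a strip -/
lemma Sk.strip (h : Sk d l b) {j : ℕ} (hj : j < l) :
    stripU P (xl d) (uE (yw d) b j) (zl d) (rT d) b := by
  have h1 := strip_bits ((pE ^ (j + 1)) (phi P d).1.rL) b (h.hd j hj) (h.he j hj)
  rw [h.hpos j (by omega), h.hn (j + 1)] at h1
  unfold uE rT
  have h2 : (!(opp (phi P d).1.1.e).2) = (phi P d).1.1.e.2 := by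
    unfold opp; simp
  rw [h2] at h1
  cases b <;> exact h1

/-- a strip of length zero changes the slab -/
lemma Sk.zero (h : Sk d 0 b) : uS (nuD P d) = !uS d := by
  have h1 : (nuD P d).1 = (((phi P d).1.rL).stE.rR).r2 := h.hnu
  have h2 := Geo.stepE_flat_of_axis (P := P) (phi P d).1.rL.1 (phi P d).1.rL.2.2 (by
    have h3 := (nuD P d).2.1
    rw [h1] at h3
    have h4 : (phi P d).1.rL.1.d.1 = 1 := (phi P d).2.1
    rw [h4]
    exact h3)
  have h3 : (nuD P d).1.1.d = (phi P d).1.1.d := by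
    rw [h1]
    exact h2.1
  unfold uS
  have h4 : (nuD P d).1.1.n = opp (phi P d).1.1.n := by
    show cross (nuD P d).1.1.d (nuD P d).1.1.e = opp (cross (phi P d).1.1.d (phi P d).1.1.e)
    rw [h3, h.nu_e, cross_opp_right _ _ (phi P d).1.2.2]
  rw [h4, n_phi]
  rfl

end

lemma xl_nu (d : Dart P) : xl (nuD P d) = xl d := by
  obtain ⟨l, b, h⟩ := exists_sk d
  unfold xl
  rw [h.ne_nu]
  rfl

lemma zl_nu (d : Dart P) : zl (nuD P d) = zl d := by
  obtain ⟨l, b, h⟩ := exists_sk d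
  unfold zl
  rw [h.ne_nu]
  rfl

/-- the head of the next corner is on the side of the strip -/
lemma rH_nu (d : Dart P) : rH (nuD P d) = rT d := by
  obtain ⟨l, b, h⟩ := exists_sk d
  unfold rH rT
  rw [h.nu_e]
  unfold opp
  simp

/-! ## Uniqueness -/

lemma nw_inj (s t : P.FSt) (hd : s.1.d = t.1.d) (he : s.1.e = t.1.e)
    (h : Geo.nw s.1 = Geo.nw t.1) : s = t := by
  apply FSt.ext'
  obtain ⟨⟨c, d, e⟩, h1⟩ := s
  obtain ⟨⟨c', d', e'⟩, h2⟩ := t
  simp only at hd he
  subst hd he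
  have : c = c' := by
    funext a
    have := congrFun h a
    unfold Geo.nw Geo.cnr at this
    simp only at this
    omega
  subst this
  rfl

lemma d_of_en : ∀ d e d' : Dir, d.1 ≠ e.1 → d'.1 ≠ e.1 → cross d e = cross d' e → d = d' := by
  decide

/-- walks that meet start at the same state -/
lemma walk_unique (s t : P.FSt) (hs : s.1.d.1 = 1) (ht : t.1.d.1 = 1) {k l i j : ℕ}
    (h1 : ∀ j < k, ((pE ^ (j + 1)) s).1.d.1 ≠ 1) (h2 : ∀ j < l, ((pE ^ (j + 1)) t).1.d.1 ≠ 1)
    (hi : i < k) (hj : j < l) (h : (pE ^ (i + 1)) s = (pE ^ (j + 1)) t) : s = t := by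
  have key : ∀ (s t : P.FSt) (l i j : ℕ), s.1.d.1 = 1 → (∀ j < l, ((pE ^ (j + 1)) t).1.d.1 ≠ 1) →
      j < l → i ≤ j → (pE ^ (i + 1)) s = (pE ^ (j + 1)) t → s = t := by
    intro s t l i j hs h2 hj hij h
    obtain ⟨m, rfl⟩ := Nat.exists_eq_add_of_le hij
    have e : (pE ^ (i + m + 1)) t = (pE ^ (i + 1)) ((pE ^ m) t) := by
      rw [← Equiv.Perm.mul_apply, ← pow_add]
      congr 2
      omega
    rw [e] at h
    have h3 := (pE ^ (i + 1)).injective h
    rcases Nat.eq_zero_or_pos m with rfl | hm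
    · simpa using h3
    · exfalso
      obtain ⟨m, rfl⟩ := Nat.exists_eq_succ_of_ne_zero (by omega : m ≠ 0)
      exact h2 m (by omega) (by
        have h4 : (pE ^ (m + 1)) t = s := h3.symm
        rw [h4]; exact hs)
  rcases le_total i j with hij | hij
  · exact key s t l i j hs h2 hj hij h
  · exact (key t s k j i ht h1 hi hij h.symm).symm

/-- a wall lies in one corner -/
lemma Wk.unique {d d' : Dart P} {k k' : ℕ} {b : Bool} (h : Wk d k b) (h' : Wk d' k' b)
    (hx : xl d = xl d') (hz : zl d = zl d') (hu : uS d = uS d') {i j : ℕ} (hi : i < k)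
    (hj : j < k') (hy : uE (yu d) b i = uE (yu d') b j) : d = d' := by
  apply Subtype.ext
  have e1 : ((pE ^ (i + 1)) d.1).1.e = ((pE ^ (j + 1)) d'.1).1.e := by
    rw [h.he i hi, h'.he j hj]
  have en : ((pE ^ (i + 1)) d.1).1.n = ((pE ^ (j + 1)) d'.1).1.n := by
    rw [h.hn _ (by omega), h'.hn _ (by omega)]
    apply Prod.ext
    · rw [dart_n, dart_n]
    · unfold uS at hu
      simpa using hu
  have hq : (pE ^ (i + 1)) d.1 = (pE ^ (j + 1)) d'.1 := by
    apply nw_inj _ _ ?_ e1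
    · rw [h.hpos i (by omega), h'.hpos j (by omega)]
      unfold uE at hy
      funext a
      fin_cases a
      · exact hx
      · cases b <;> simp at hy ⊢ <;> omega
      · exact hz
    · refine d_of_en _ _ _ ((pE ^ (i + 1)) d.1).2.2 ?_ ?_
      · rw [e1]; exact ((pE ^ (j + 1)) d'.1).2.2
      · have h1 : cross ((pE ^ (i + 1)) d.1).1.d ((pE ^ (i + 1)) d.1).1.e =
            cross ((pE ^ (j + 1)) d'.1).1.d ((pE ^ (j + 1)) d'.1).1.e := en
        rw [h1, e1]
  refine walk_unique d.1 d'.1 d.2.1 d'.2.1 (k := k) (l := k') ?_ ?_ hi hj hq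
  · intro j hj h1
    rw [h.hd j hj] at h1
    exact absurd h1 (by decide)
  · intro j hj h1
    rw [h'.hd j hj] at h1
    exact absurd h1 (by decide)

/-- a piece of a strip lies in one strip -/
lemma Sk.unique {d d' : Dart P} {k k' : ℕ} {b : Bool} (h : Sk d k b) (h' : Sk d' k' b)
    (hx : xl d = xl d') (hz : zl d = zl d') (hr : rT d = rT d') {i j : ℕ} (hi : i < k)
    (hj : j < k') (hy : uE (yw d) b i = uE (yw d') b j) : d = d' := by
  have e0 : (phi P d).1.1.e = (phi P d').1.1.e := by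
    apply Prod.ext
    · rw [(phi P d).2.2, (phi P d').2.2]
    · exact hr
  have e1 : ((pE ^ (i + 1)) (phi P d).1.rL).1.e = ((pE ^ (j + 1)) (phi P d').1.rL).1.e := by
    rw [h.he i hi, h'.he j hj]
  have en : ((pE ^ (i + 1)) (phi P d).1.rL).1.n = ((pE ^ (j + 1)) (phi P d').1.rL).1.n := by
    rw [h.hn, h'.hn, e0]
  have hq : (pE ^ (i + 1)) (phi P d).1.rL = (pE ^ (j + 1)) (phi P d').1.rL := by
    apply nw_inj _ _ ?_ e1
    · rw [h.hpos i (by omega), h'.hpos j (by omega)]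
      unfold uE at hy
      funext a
      fin_cases a
      · exact hx
      · cases b <;> simp at hy ⊢ <;> omega
      · exact hz
    · refine d_of_en _ _ _ ((pE ^ (i + 1)) (phi P d).1.rL).2.2 ?_ ?_
      · rw [e1]; exact ((pE ^ (j + 1)) (phi P d').1.rL).2.2
      · have h1 : cross ((pE ^ (i + 1)) (phi P d).1.rL).1.d ((pE ^ (i + 1)) (phi P d).1.rL).1.e =
            cross ((pE ^ (j + 1)) (phi P d').1.rL).1.d ((pE ^ (j + 1)) (phi P d').1.rL).1.e := en
        rw [h1, e1]
  have h2 : (phi P d).1.rL = (phi P d').1.rL := by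
    refine walk_unique _ _ (phi P d).2.1 (phi P d').2.1 (k := k) (l := k') ?_ ?_ hi hj hq
    · intro j hj h1
      rw [h.hd j hj] at h1
      exact absurd h1 (by decide)
    · intro j hj h1
      rw [h'.hd j hj] at h1
      exact absurd h1 (by decide)
  have h3 : (phi P d).1 = (phi P d').1 := by
    have := congrArg FSt.rR h2
    rwa [FSt.rL_rR, FSt.rL_rR] at this
  exact (phi P).injective (Subtype.ext h3)

end Pool.Agent.MP42D
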