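import Pool.Agent.MP42.D.LeafC

/-!
# Leaves: local facts at the points of a leaf (owner helper18)
-/

set_option autoImplicit false
set_option linter.unusedSectionVars false

namespace Pool.Agent.MP42D

open Pool.Agent.Helper55.UNF Pool.Agent.Helper55.UNF.GridSolid Pool.Agent.MP42

variable {P : GridSolid}

/-! ## The eight bits at a point -/

lemma bt_bit1 (x y z : ℤ) (r a : Bool) : Geo.bt P ![x, y, z] ![r, true, a] = bit P x y z r a := by
  unfold Geo.bt bit corner
  congr 2
  funext i
  fin_cases i <;> rfl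

lemma bt_bit0 (x y z : ℤ) (r a : Bool) :
    Geo.bt P ![x, y, z] ![r, false, a] = bit P x (y - 1) z r a := by
  unfold Geo.bt bit corner
  congr 2
  funext i
  fin_cases i <;> rfl

lemma good8 (hM : P.IsManifold) (h3 : Deg3 P) (x y z : ℤ) :
    Geo.goodB (bit P x (y - 1) z false false) (bit P x (y - 1) z true false)
      (bit P x (y - 1) z false true) (bit P x (y - 1) z true true)
      (bit P x y z false false) (bit P x y z true false)
      (bit P x y z false true) (bit P x y z true true) = true := by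
  have h := Geo.good P hM (isSimple_of_deg3 h3) ![x, y, z]
  simpa only [bt_bit0, bt_bit1] using h

lemma alt4 (hM : P.IsManifold) (x y z : ℤ) :
    Geo.altB (bit P x y z false false) (bit P x y z true false) (bit P x y z false true)
      (bit P x y z true true) = false := by
  have e0 : ∀ (x y z s : Bool), Function.update (![x, y, z] : Fin 3 → Bool) 0 s = ![s, y, z] := by
    decide
  have e2 : ∀ (x y z s : Bool), Function.update (![x, y, z] : Fin 3 → Bool) 2 s = ![x, y, s] := by
    decide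
  have h := Geo.alt_false P hM ![x, y, z] ![false, true, false] 0 2 (by decide)
  simp only [e0, e2] at h
  simpa only [bt_bit1] using h

lemma one_event8 : ∀ a0 b0 c0 d0 a1 b1 c1 d1 : Bool, Geo.goodB a0 b0 c0 d0 a1 b1 c1 d1 = true →
    Geo.onB a0 b0 c0 d0 = true → Geo.onB a1 b1 c1 d1 = true →
    ((c0 && !d0) || (!a0 && b0)) = ((c1 && !d1) || (!a1 && b1)) ∨
    ((!c0 && d0) || (a0 && !b0)) = ((!c1 && d1) || (a1 && !b1)) := by
  decide

/-- In the interior of a line not both walls change at the same point. -/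
theorem one_event' (hM : P.IsManifold) (h3 : Deg3 P) (x y z : ℤ) (h1 : onP P x (y - 1) z = true)
    (h2 : onP P x y z = true) :
    awP P x (y - 1) z = awP P x y z ∨ bwP P x (y - 1) z = bwP P x y z :=
  one_event8 _ _ _ _ _ _ _ _ (good8 hM h3 x y z) h1 h2

/-! ## Units of the corners and strips -/

lemma wallU_on {x y z : ℤ} {u b : Bool} (h : wallU P x y z u b) : onP P x y z = true := by
  obtain ⟨h1, h2⟩ := h
  unfold onP
  revert h1 h2
  cases u <;> (
  generalize bit P x y z false false = a0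
  generalize bit P x y z true false = b0
  generalize bit P x y z false true = c0
  generalize bit P x y z true true = d0
  revert a0 b0 c0 d0 b
  decide)

lemma stripU_on {x y z : ℤ} {r b : Bool} (h : stripU P x y z r b) : onP P x y z = true := by
  obtain ⟨h1, h2⟩ := h
  unfold onP
  revert h1 h2
  cases r <;> (
  generalize bit P x y z false false = a0
  generalize bit P x y z true false = b0
  generalize bit P x y z false true = c0
  generalize bit P x y z true true = d0
  revert a0 b0 c0 d0 b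
  decide)

lemma wallU_bw {x y z : ℤ} {u : Bool} (h : wallU P x y z u true) : bwP P x y z = true := by
  obtain ⟨h1, h2⟩ := h
  unfold bwP
  cases u <;> simp_all

lemma wallU_aw {x y z : ℤ} {u : Bool} (h : wallU P x y z u false) : awP P x y z = true := by
  obtain ⟨h1, h2⟩ := h
  unfold awP
  cases u <;> simp_all

lemma stripU_bw {x y z : ℤ} {r : Bool} (h : stripU P x y z r true) : bwP P x y z = false := by
  obtain ⟨h1, h2⟩ := h
  unfold bwP
  cases r <;> simp_all

lemma stripU_aw {x y z : ℤ} {r : Bool} (h : stripU P x y z r false) : awP P x y z = false := by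
  obtain ⟨h1, h2⟩ := h
  unfold awP
  cases r <;> simp_all

lemma wallU_unique (hM : P.IsManifold) {x y z : ℤ} {u u' b : Bool} (h : wallU P x y z u b)
    (h' : wallU P x y z u' b) : u = u' := by
  obtain ⟨h1, h2⟩ := h
  obtain ⟨h1', h2'⟩ := h'
  have h3 := alt4 hM x y z
  revert h1 h2 h1' h2' h3
  cases u <;> cases u' <;> (
  generalize bit P x y z false false = a0
  generalize bit P x y z true false = b0
  generalize bit P x y z false true = c0
  generalize bit P x y z true true = d0
  revert a0 b0 c0 d0 b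
  decide)

lemma stripU_unique (hM : P.IsManifold) {x y z : ℤ} {r r' b : Bool} (h : stripU P x y z r b)
    (h' : stripU P x y z r' b) : r = r' := by
  obtain ⟨h1, h2⟩ := h
  obtain ⟨h1', h2'⟩ := h'
  have h3 := alt4 hM x y z
  revert h1 h2 h1' h2' h3
  cases r <;> cases r' <;> (
  generalize bit P x y z false false = a0
  generalize bit P x y z true false = b0
  generalize bit P x y z false true = c0
  generalize bit P x y z true true = d0
  revert a0 b0 c0 d0 b
  decide)

/-- the direction and the unit edge of a corner -/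
lemma Wk.at_up {d : Dart P} {k : ℕ} {b : Bool} (h : Wk d k b) {y : ℤ} (h1 : yu d ≤ y)
    (h2 : y < yw d) : b = true ∧ ∃ j < k, uE (yu d) b j = y := by
  have h3 := h.yw_eq
  cases b
  · exfalso
    simp only [Bool.false_eq_true, if_false] at h3
    omega
  · simp only [if_true] at h3
    refine ⟨rfl, (y - yu d).toNat, by omega, ?_⟩
    unfold uE
    simp only [if_true]
    omega

lemma Wk.at_dn {d : Dart P} {k : ℕ} {b : Bool} (h : Wk d k b) {y : ℤ} (h1 : yw d ≤ y)
    (h2 : y < yu d) : b = false ∧ ∃ j < k, uE (yu d) b j = y := by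
  have h3 := h.yw_eq
  cases b
  · simp only [Bool.false_eq_true, if_false] at h3
    refine ⟨rfl, (yu d - y - 1).toNat, by omega, ?_⟩
    unfold uE
    simp only [Bool.false_eq_true, if_false]
    omega
  · exfalso
    simp only [if_true] at h3
    omega

lemma Sk.at_up {d : Dart P} {k : ℕ} {b : Bool} (h : Sk d k b) {y : ℤ} (h1 : yw d ≤ y)
    (h2 : y < yu (nuD P d)) : b = true ∧ ∃ j < k, uE (yw d) b j = y := by
  have h3 := h.yu_eq
  cases b
  · exfalso
    simp only [Bool.false_eq_true, if_false] at h3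
    omega
  · simp only [if_true] at h3
    refine ⟨rfl, (y - yw d).toNat, by omega, ?_⟩
    unfold uE
    simp only [if_true]
    omega

lemma Sk.at_dn {d : Dart P} {k : ℕ} {b : Bool} (h : Sk d k b) {y : ℤ}
    (h1 : yu (nuD P d) ≤ y) (h2 : y < yw d) : b = false ∧ ∃ j < k, uE (yw d) b j = y := by
  have h3 := h.yu_eq
  cases b
  · simp only [Bool.false_eq_true, if_false] at h3
    refine ⟨rfl, (yw d - y - 1).toNat, by omega, ?_⟩
    unfold uE
    simp only [Bool.false_eq_true, if_false]
    omega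
  · exfalso
    simp only [if_true] at h3
    omega

/-! ## I1, I2, I3 -/

lemma wall_up (d : Dart P) {y : ℤ} (h1 : yu d ≤ y) (h2 : y < yw d) :
    wallU P (xl d) y (zl d) (uS d) true := by
  obtain ⟨k, b, h⟩ := exists_wk' d
  obtain ⟨rfl, j, hj, rfl⟩ := h.at_up h1 h2
  exact h.wall hj

lemma wall_dn (d : Dart P) {y : ℤ} (h1 : yw d ≤ y) (h2 : y < yu d) :
    wallU P (xl d) y (zl d) (uS d) false := by
  obtain ⟨k, b, h⟩ := exists_wk' d
  obtain ⟨rfl, j, hj, rfl⟩ := h.at_dn h1 h2
  exact h.wall hj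

lemma strip_up (d : Dart P) {y : ℤ} (h1 : yw d ≤ y) (h2 : y < yu (nuD P d)) :
    stripU P (xl d) y (zl d) (rT d) true := by
  obtain ⟨k, b, h⟩ := exists_sk d
  obtain ⟨rfl, j, hj, rfl⟩ := h.at_up h1 h2
  exact h.strip hj

lemma strip_dn (d : Dart P) {y : ℤ} (h1 : yu (nuD P d) ≤ y) (h2 : y < yw d) :
    stripU P (xl d) y (zl d) (rT d) false := by
  obtain ⟨k, b, h⟩ := exists_sk d
  obtain ⟨rfl, j, hj, rfl⟩ := h.at_dn h1 h2
  exact h.strip hj

/-- **I2** -/
theorem i2a (d : Dart P) {y : ℤ} (h1 : yu d ≤ y) (h2 : y < yw d) :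
    onP P (xl d) y (zl d) = true ∧ bwP P (xl d) y (zl d) = true :=
  ⟨wallU_on (wall_up d h1 h2), wallU_bw (wall_up d h1 h2)⟩

theorem i2b (d : Dart P) {y : ℤ} (h1 : yw d ≤ y) (h2 : y < yu d) :
    onP P (xl d) y (zl d) = true ∧ awP P (xl d) y (zl d) = true :=
  ⟨wallU_on (wall_dn d h1 h2), wallU_aw (wall_dn d h1 h2)⟩

theorem i2c (d : Dart P) {y : ℤ} (h1 : yw d ≤ y) (h2 : y < yu (nuD P d)) :
    onP P (xl d) y (zl d) = true ∧ bwP P (xl d) y (zl d) = false :=
  ⟨stripU_on (strip_up d h1 h2), stripU_bw (strip_up d h1 h2)⟩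

theorem i2d (d : Dart P) {y : ℤ} (h1 : yu (nuD P d) ≤ y) (h2 : y < yw d) :
    onP P (xl d) y (zl d) = true ∧ awP P (xl d) y (zl d) = false :=
  ⟨stripU_on (strip_dn d h1 h2), stripU_aw (strip_dn d h1 h2)⟩

/-- **I3** -/
theorem i3a (hM : P.IsManifold) (d d' : Dart P) (hx : xl d = xl d') (hz : zl d = zl d') {y : ℤ}
    (h1 : yu d ≤ y) (h2 : y < yw d) (h1' : yu d' ≤ y) (h2' : y < yw d') : d = d' := by
  have hu : uS d = uS d' := by
    have k1 := wall_up d h1 h2
    have k2 := wall_up d' h1' h2'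
    rw [← hx, ← hz] at k2
    exact wallU_unique hM k1 k2
  obtain ⟨k, b, h⟩ := exists_wk' d
  obtain ⟨k', b', h'⟩ := exists_wk' d'
  obtain ⟨rfl, j, hj, e⟩ := h.at_up h1 h2
  obtain ⟨rfl, j', hj', e'⟩ := h'.at_up h1' h2'
  exact h.unique h' hx hz hu hj hj' (by rw [e, e'])

theorem i3b (hM : P.IsManifold) (d d' : Dart P) (hx : xl d = xl d') (hz : zl d = zl d') {y : ℤ}
    (h1 : yw d ≤ y) (h2 : y < yu d) (h1' : yw d' ≤ y) (h2' : y < yu d') : d = d' := by
  have hu : uS d = uS d' := by
    have k1 := wall_dn d h1 h2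
    have k2 := wall_dn d' h1' h2'
    rw [← hx, ← hz] at k2
    exact wallU_unique hM k1 k2
  obtain ⟨k, b, h⟩ := exists_wk' d
  obtain ⟨k', b', h'⟩ := exists_wk' d'
  obtain ⟨rfl, j, hj, e⟩ := h.at_dn h1 h2
  obtain ⟨rfl, j', hj', e'⟩ := h'.at_dn h1' h2'
  exact h.unique h' hx hz hu hj hj' (by rw [e, e'])

theorem i3c (hM : P.IsManifold) (d d' : Dart P) (hx : xl d = xl d') (hz : zl d = zl d') {y : ℤ}
    (h1 : yw d ≤ y) (h2 : y < yu (nuD P d)) (h1' : yw d' ≤ y) (h2' : y < yu (nuD P d')) :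
    d = d' := by
  have hu : rT d = rT d' := by
    have k1 := strip_up d h1 h2
    have k2 := strip_up d' h1' h2'
    rw [← hx, ← hz] at k2
    exact stripU_unique hM k1 k2
  obtain ⟨k, b, h⟩ := exists_sk d
  obtain ⟨k', b', h'⟩ := exists_sk d'
  obtain ⟨rfl, j, hj, e⟩ := h.at_up h1 h2
  obtain ⟨rfl, j', hj', e'⟩ := h'.at_up h1' h2'
  exact h.unique h' hx hz hu hj hj' (by rw [e, e'])

theorem i3d (hM : P.IsManifold) (d d' : Dart P) (hx : xl d = xl d') (hz : zl d = zl d') {y : ℤ}
    (h1 : yu (nuD P d) ≤ y) (h2 : y < yw d) (h1' : yu (nuD P d') ≤ y) (h2' : y < yw d') :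
    d = d' := by
  have hu : rT d = rT d' := by
    have k1 := strip_dn d h1 h2
    have k2 := strip_dn d' h1' h2'
    rw [← hx, ← hz] at k2
    exact stripU_unique hM k1 k2
  obtain ⟨k, b, h⟩ := exists_sk d
  obtain ⟨k', b', h'⟩ := exists_sk d'
  obtain ⟨rfl, j, hj, e⟩ := h.at_dn h1 h2
  obtain ⟨rfl, j', hj', e'⟩ := h'.at_dn h1' h2'
  exact h.unique h' hx hz hu hj hj' (by rw [e, e'])

end Pool.Agent.MP42D
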