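import Pool.Agent.MP42.D.LeafA

/-!
# The normal form of a leaf: definition
-/

set_option autoImplicit false
set_option linter.unusedSectionVars false

namespace Pool.Agent.MP42D

open Pool.Agent.Helper55.UNF Pool.Agent.Helper55.UNF.GridSolid Pool.Agent.MP42

/-- A leaf with at least three corners. -/
structure Leaf (P : GridSolid) where
  x : ℤ
  z : ℤ
  lo : ℤ
  hi : ℤ
  n : ℕ
  m : ℕ
  c : ℕ → Dart P
  hn : 3 ≤ n
  hm : m ≤ n
  step : ∀ i, c (i + 1) = nuD P (c i)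
  per : c n = c 0
  inj : ∀ i < n, ∀ j < n, c i = c j → i = j
  /-- all corners are on the line `(x, z)` -/
  px : ∀ i, Geo.ne (c i).1.1 0 = x ∧ Geo.nw (phi P (c i)).1.1 0 = x
  pz : ∀ i, Geo.ne (c i).1.1 2 = z ∧ Geo.nw (phi P (c i)).1.1 2 = z
  lohi : lo < hi
  ru : ∀ i, lo ≤ yu (c i) ∧ yu (c i) ≤ hi
  rw : ∀ i, lo ≤ yw (c i) ∧ yw (c i) ≤ hi
  /-- the strips `0 .. m-1` go up on the B side, the corners between them are B corners -/
  up : ∀ i < m, yw (c i) ≤ yu (c (i + 1))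
  upc : ∀ i, 0 < i → i < m → yu (c i) < yw (c i)
  /-- the strips `m .. n-1` go down on the A side, the corners between them are A corners -/
  dn : ∀ i, m ≤ i → i < n → yu (c (i + 1)) ≤ yw (c i)
  dnc : ∀ i, m < i → i < n → yw (c i) < yu (c i)
  bot : yu (c 0) = lo ∨ yw (c 0) = lo
  top : yu (c m) = hi ∨ yw (c m) = hi
  /-- strips of length zero occur only at the ends -/
  zero : ∀ i, yw (c i) = yu (c (i + 1)) → yw (c i) = lo ∨ yw (c i) = hi
  on : ∀ y, lo ≤ y → y < hi → onP P x y z = true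
  off1 : onP P x (lo - 1) z = false
  off2 : onP P x hi z = false
  bwI : ∀ y, lo ≤ y → y < hi → (bwP P x y z = true ↔ ∃ i < n, yu (c i) ≤ y ∧ y < yw (c i))
  awI : ∀ y, lo ≤ y → y < hi → (awP P x y z = true ↔ ∃ i < n, yw (c i) ≤ y ∧ y < yu (c i))
  /-- the leaf contains all corners on the segment -/
  all : ∀ d : Dart P, Geo.ne d.1.1 0 = x → Geo.ne d.1.1 2 = z → lo ≤ yu d → yu d ≤ hi →
    ∃ i < n, c i = d

end Pool.Agent.MP42D
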