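import Pool.Agent.MP42.D.LeafD
import Pool.Agent.MP42.D.LeafS

/-!
# The normal form of a leaf (owner helper74)

The walk around a leaf alternates corners and strips.  `F s = (first y-facet to the east of s).rL` on
the states of `y`-facets: `F d = (phi d).rL`, `F (F d) = nu d`.  `Geo.kappa` = rotation around the
north east corner; `F s` is `kappa s` if the next facet is a `y`-facet.  The local facts are about
`kappa` at one point, by the eight boxes around it (`chk`).  The word of the positions goes once down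
and once up (`Wd.shape`), `Wd.choice` selects the first and the top corner.
-/

set_option autoImplicit false
set_option linter.unusedSectionVars false
set_option linter.unusedSimpArgs false

namespace Pool.Agent.MP42D

open Pool.Agent.Helper55.UNF Pool.Agent.Helper55.UNF.GridSolid Pool.Agent.MP42

/-! ## Combinatorics of the positions -/

/-- the word of the positions: in the interior the direction is kept, and no four consecutive
positions are equal -/
structure Wd (p : ℕ → ℤ) (lo hi : ℤ) : Prop where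
  ra : ∀ j, lo ≤ p j
  rb : ∀ j, p j ≤ hi
  int : ∀ j, lo < p (j + 1) → p (j + 1) < hi →
    (p j < p (j + 1) ∧ p (j + 1) < p (j + 2)) ∨ (p (j + 1) < p j ∧ p (j + 2) < p (j + 1))
  four : ∀ j, ¬ (p j = p (j + 1) ∧ p (j + 1) = p (j + 2) ∧ p (j + 2) = p (j + 3))

namespace Wd

variable {p : ℕ → ℤ} {lo hi : ℤ}

lemma neg (w : Wd p lo hi) : Wd (fun j => - p j) (-hi) (-lo) where
  ra j := by have := w.rb j; omega
  rb j := by have := w.ra j; omega
  int j h1 h2 := by
    have := w.int j (by omega) (by omega)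
    omega
  four j h := w.four j (by omega)

lemma asc (w : Wd p lo hi) : ∀ (n : ℕ) (j : ℕ), hi - p (j + 1) ≤ n → p j < p (j + 1) →
    ∃ h, j < h ∧ p h = hi ∧ ∀ l, j ≤ l → l < h → p l < p (l + 1) := by
  intro n
  induction n with
  | zero =>
    intro j h1 h2
    have := w.rb (j + 1)
    refine ⟨j + 1, by omega, by push_cast at h1; omega, ?_⟩
    intro l h3 h4
    have : l = j := by omega
    subst this
    exact h2
  | succ n ih =>
    intro j h1 h2
    by_cases h3 : p (j + 1) = hi
    · refine ⟨j + 1, by omega, h3, ?_⟩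
      intro l h4 h5
      have : l = j := by omega
      subst this
      exact h2
    · have h4 := w.rb (j + 1)
      have h5 := w.ra j
      have h6 : p (j + 1) < p (j + 2) := by
        have := w.int j (by omega) (by omega)
        omega
      obtain ⟨h, k1, k2, k3⟩ := ih (j + 1) (by push_cast at h1; have : j + 1 + 1 = j + 2 := rfl
                                               rw [this]; omega) h6
      refine ⟨h, by omega, k2, ?_⟩
      intro l h7 h8
      rcases Nat.eq_or_lt_of_le h7 with rfl | h9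
      · exact h2
      · exact k3 l (by omega) h8

lemma asc' (w : Wd p lo hi) (j : ℕ) (h : p j < p (j + 1)) :
    ∃ h, j < h ∧ p h = hi ∧ ∀ l, j ≤ l → l < h → p l < p (l + 1) :=
  w.asc (hi - p (j + 1)).toNat j (Int.self_le_toNat _) h

lemma desc' (w : Wd p lo hi) (j : ℕ) (h : p (j + 1) < p j) :
    ∃ h, j < h ∧ p h = lo ∧ ∀ l, j ≤ l → l < h → p (l + 1) < p l := by
  obtain ⟨h, k1, k2, k3⟩ := w.neg.asc' j (by omega)
  exact ⟨h, k1, by omega, fun l h1 h2 => by have := k3 l h1 h2; omega⟩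

lemma plat (w : Wd p lo hi) (h : ℕ) (hh : p h = hi) :
    ∃ e, h ≤ e ∧ e ≤ h + 2 ∧ (∀ l, h ≤ l → l ≤ e → p l = hi) ∧ p (e + 1) < hi := by
  have r1 := w.rb (h + 1)
  have r2 := w.rb (h + 2)
  have r3 := w.rb (h + 3)
  have r4 := w.four h
  by_cases h1 : p (h + 1) < hi
  · exact ⟨h, le_rfl, by omega, fun l a b => by have : l = h := by omega
                                                rw [this]; exact hh, h1⟩
  by_cases h2 : p (h + 2) < hi
  · refine ⟨h + 1, by omega, by omega, fun l a b => ?_, h2⟩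
    have : l = h ∨ l = h + 1 := by omega
    rcases this with rfl | rfl
    · exact hh
    · omega
  · refine ⟨h + 2, by omega, by omega, fun l a b => ?_, ?_⟩
    · have : l = h ∨ l = h + 1 ∨ l = h + 2 := by omega
      rcases this with rfl | rfl | rfl
      · exact hh
      · omega
      · omega
    · show p (h + 3) < hi
      omega

lemma plat' (w : Wd p lo hi) (h : ℕ) (hh : p h = lo) :
    ∃ e, h ≤ e ∧ e ≤ h + 2 ∧ (∀ l, h ≤ l → l ≤ e → p l = lo) ∧ lo < p (e + 1) := by
  obtain ⟨e, k1, k2, k3, k4⟩ := w.neg.plat h (by omega)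
  exact ⟨e, k1, k2, fun l a b => by have := k3 l a b; omega, by omega⟩

/-- from every index on there is the start of a descent -/
lemma exists_start (w : Wd p lo hi) (i : ℕ) : ∃ j, i ≤ j ∧ p j = hi ∧ p (j + 1) < hi := by
  have key : ∀ j, i ≤ j → p j < p (j + 1) → ∃ j, i ≤ j ∧ p j = hi ∧ p (j + 1) < hi := by
    intro j hj h
    obtain ⟨h, k1, k2, -⟩ := w.asc' j h
    obtain ⟨e, l1, l2, l3, l4⟩ := w.plat h k2
    exact ⟨e, by omega, l3 e l1 le_rfl, l4⟩
  have key2 : ∀ j, i ≤ j → p (j + 1) < p j → ∃ j, i ≤ j ∧ p j = hi ∧ p (j + 1) < hi := by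
    intro j hj h
    obtain ⟨h, k1, k2, -⟩ := w.desc' j h
    obtain ⟨e, l1, l2, l3, l4⟩ := w.plat' h k2
    refine key e (by omega) ?_
    rw [l3 e l1 le_rfl]
    exact l4
  have h4 := w.four i
  have : ∃ j, i ≤ j ∧ p j ≠ p (j + 1) := by
    by_contra hcon
    push Not at hcon
    have h1 := hcon i le_rfl
    have h2 := hcon (i + 1) (by omega)
    have h3 := hcon (i + 2) (by omega)
    exact h4 ⟨h1, h2, h3⟩
  obtain ⟨j, hj, hne⟩ := this
  rcases lt_or_gt_of_ne hne with h | h
  · exact key j hj h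
  · exact key2 j hj h

/-- the shape of a period -/
theorem shape (w : Wd p lo hi) (hlo : lo < hi) (N : ℕ) (hN : 0 < N) (hper : ∀ j, p (j + 2 * N) = p j)
    (hu : ∀ i j, i ≤ j → p i = hi → p (i + 1) < hi → p j = hi → p (j + 1) < hi →
      2 * N ∣ j - i) :
    ∃ a f g h, a < f ∧ f ≤ g ∧ g ≤ f + 2 ∧ g < h ∧ h ≤ a + 2 * N ∧ a + 2 * N ≤ h + 2 ∧
      (∀ j, a ≤ j → j < f → p (j + 1) < p j) ∧ (∀ j, f ≤ j → j ≤ g → p j = lo) ∧
      (∀ j, g ≤ j → j < h → p j < p (j + 1)) ∧ (∀ j, h ≤ j → j ≤ a + 2 * N → p j = hi) := by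
  obtain ⟨a, -, a1, a2⟩ := w.exists_start 0
  obtain ⟨f, f1, f2, f3⟩ := w.desc' a (by omega)
  obtain ⟨g, g1, g2, g3, g4⟩ := w.plat' f f2
  obtain ⟨h, h1, h2, h3⟩ := w.asc' g (by rw [g3 g g1 le_rfl]; exact g4)
  obtain ⟨e, e1, e2, e3, e4⟩ := w.plat h h2
  have hae : 2 * N ∣ e - a := hu a e (by omega) a1 a2 (e3 e e1 le_rfl) e4
  have hea : a + 2 * N ≤ e := by
    have := Nat.le_of_dvd (by omega) hae
    omega
  have : e = a + 2 * N := by
    by_contra hne
    have q1 : p (a + 2 * N) = hi := by rw [hper]; exact a1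
    have q2 : p (a + 2 * N + 1) < hi := by
      rw [show a + 2 * N + 1 = (a + 1) + 2 * N by ring, hper]; exact a2
    have q0 : a < a + 2 * N := by omega
    have q3 : a + 2 * N < e := by omega
    generalize a + 2 * N = q at *
    rcases lt_or_ge q f with h5 | h5
    · have := f3 q (by omega) h5
      have hmono : ∀ n, a + 1 + n ≤ f → p (a + 1 + n) < hi := by
        intro n
        induction n with
        | zero => intro _; exact a2
        | succ n ih =>
          intro hn
          have := f3 (a + 1 + n) (by omega) (by omega)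
          have := ih (by omega)
          have e : a + 1 + (n + 1) = a + 1 + n + 1 := by ring
          rw [e]
          omega
      have := hmono (q - (a + 1)) (by omega)
      rw [show a + 1 + (q - (a + 1)) = q by omega] at this
      omega
    rcases le_or_gt q g with h6 | h6
    · have := g3 q h5 h6
      omega
    rcases lt_or_ge q h with h7 | h7
    · have := h3 q h6.le h7
      have := w.rb (q + 1)
      omega
    · have := e3 (q + 1) (by omega) (by omega)
      omega
  subst this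
  exact ⟨a, f, g, h, f1, g1, g2, h1, e1, e2, f3, g3, h3, e3⟩

/-- the choice of the first corner and of the top corner -/
theorem choice (w : Wd p lo hi) (hlo : lo < hi) (N : ℕ) (hN : 0 < N) (hper : ∀ j, p (j + 2 * N) = p j)
    (hu : ∀ i j, i ≤ j → p i = hi → p (i + 1) < hi → p j = hi → p (j + 1) < hi →
      2 * N ∣ j - i) :
    ∃ q m, m ≤ N ∧
      (∀ i < m, p (2 * (q + i) + 1) ≤ p (2 * (q + i + 1))) ∧
      (∀ i, 0 < i → i < m → p (2 * (q + i)) < p (2 * (q + i) + 1)) ∧
      (∀ i, m ≤ i → i < N → p (2 * (q + i + 1)) ≤ p (2 * (q + i) + 1)) ∧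
      (∀ i, m < i → i < N → p (2 * (q + i) + 1) < p (2 * (q + i))) ∧
      (p (2 * q) = lo ∨ p (2 * q + 1) = lo) ∧
      (p (2 * (q + m)) = hi ∨ p (2 * (q + m) + 1) = hi) ∧
      (∀ y, lo ≤ y → y < hi → ∃ j, p j ≤ y ∧ y < p (j + 1)) ∧
      (∀ y, lo ≤ y → y < hi → ∃ j, p (j + 1) ≤ y ∧ y < p j) := by
  obtain ⟨a, f, g, h, h1, h2, h3, h4, h5, h6, k1, k2, k3, k4⟩ := w.shape hlo N hN hper hu
  -- the first corner
  obtain ⟨q, hq⟩ : ∃ q, (2 * q = f ∨ (2 * q = f + 1 ∧ f < g) ∨ (2 * q + 1 = f ∧ f = g)) := by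
    rcases Nat.even_or_odd' f with ⟨c, hc | hc⟩
    · exact ⟨c, Or.inl hc.symm⟩
    · by_cases hfg : f = g
      · exact ⟨c, Or.inr (Or.inr ⟨by omega, hfg⟩)⟩
      · exact ⟨c + 1, Or.inr (Or.inl ⟨by omega, by omega⟩)⟩
  obtain ⟨r, hr⟩ : ∃ r, (2 * r = h ∨ (2 * r = h + 1 ∧ h < a + 2 * N) ∨
      (2 * r + 1 = h ∧ h = a + 2 * N)) := by
    rcases Nat.even_or_odd' h with ⟨c, hc | hc⟩
    · exact ⟨c, Or.inl hc.symm⟩
    · by_cases hfg : h = a + 2 * N
      · exact ⟨c, Or.inr (Or.inr ⟨by omega, hfg⟩)⟩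
      · exact ⟨c + 1, Or.inr (Or.inl ⟨by omega, by omega⟩)⟩
  have hqr : q ≤ r := by omega
  have hrN : r ≤ q + N := by omega
  -- periodicity
  have k1' : ∀ j, a + 2 * N ≤ j → j < f + 2 * N → p (j + 1) < p j := by
    intro j hj1 hj2
    have := k1 (j - 2 * N) (by omega) (by omega)
    rw [← hper (j - 2 * N + 1), ← hper (j - 2 * N)] at this
    rw [show j - 2 * N + 1 + 2 * N = j + 1 by omega, show j - 2 * N + 2 * N = j by omega] at this
    exact this
  have k2' : ∀ j, f + 2 * N ≤ j → j ≤ g + 2 * N → p j = lo := by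
    intro j hj1 hj2
    have := k2 (j - 2 * N) (by omega) (by omega)
    rw [← hper (j - 2 * N)] at this
    rw [show j - 2 * N + 2 * N = j by omega] at this
    exact this
  refine ⟨q, r - q, by omega, ?_, ?_, ?_, ?_, ?_, ?_, ?_, ?_⟩
  · intro i hi
    rw [show 2 * (q + i + 1) = 2 * (q + i) + 1 + 1 by ring]
    generalize hj : 2 * (q + i) + 1 = j
    rcases lt_or_ge j g with e1 | e1
    · rw [k2 j (by omega) (by omega), k2 (j + 1) (by omega) (by omega)]
    rcases lt_or_ge j h with e2 | e2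
    · exact (k3 j e1 e2).le
    · rw [k4 j (by omega) (by omega), k4 (j + 1) (by omega) (by omega)]
  · intro i hi1 hi2
    generalize hj : 2 * (q + i) = j
    exact k3 j (by omega) (by omega)
  · intro i hi1 hi2
    rw [show 2 * (q + i + 1) = 2 * (q + i) + 1 + 1 by ring]
    generalize hj : 2 * (q + i) + 1 = j
    rcases lt_or_ge j (a + 2 * N) with e1 | e1
    · rw [k4 j (by omega) (by omega), k4 (j + 1) (by omega) (by omega)]
    rcases lt_or_ge j (f + 2 * N) with e2 | e2
    · exact (k1' j e1 e2).le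
    · rw [k2' j (by omega) (by omega), k2' (j + 1) (by omega) (by omega)]
  · intro i hi1 hi2
    generalize hj : 2 * (q + i) = j
    exact k1' j (by omega) (by omega)
  · rcases hq with hq | hq | hq
    · left; rw [hq]; exact k2 f le_rfl h2
    · left; rw [hq.1]; exact k2 (f + 1) (by omega) (by omega)
    · right; rw [hq.1]; exact k2 f le_rfl h2
  · rw [show q + (r - q) = r by omega]
    rcases hr with hr | hr | hr
    · left; rw [hr]; exact k4 h le_rfl h5
    · left; rw [hr.1]; exact k4 (h + 1) (by omega) (by omega)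
    · right; rw [hr.1]; exact k4 h le_rfl h5
  · intro y hy1 hy2
    by_contra hcon
    push Not at hcon
    have : ∀ n, g + n ≤ h → p (g + n) ≤ y := by
      intro n
      induction n with
      | zero => intro _; rw [add_zero, k2 g h2 le_rfl]; exact hy1
      | succ n ih =>
        intro hn
        exact hcon _ (ih (by omega))
    have := this (h - g) (by omega)
    rw [show g + (h - g) = h by omega, k4 h le_rfl h5] at this
    omega
  · intro y hy1 hy2
    by_contra hcon
    push Not at hcon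
    have : ∀ n, a + 2 * N + n ≤ f + 2 * N → y < p (a + 2 * N + n) := by
      intro n
      induction n with
      | zero => intro _; rw [add_zero, k4 _ h5 le_rfl]; exact hy2
      | succ n ih =>
        intro hn
        by_contra hlt
        push Not at hlt
        have := hcon (a + 2 * N + n) (by rw [← add_assoc] at hlt; exact hlt)
        have := ih (by omega)
        omega
    have := this (f - a) (by omega)
    rw [show a + 2 * N + (f - a) = f + 2 * N by omega, k2' _ le_rfl (by omega)] at this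
    omega

end Wd

/-! ## Local facts -/

/-- eight bits as a function -/
def mk8 (a0 b0 c0 d0 a1 b1 c1 d1 : Bool) (ε : Fin 3 → Bool) : Bool :=
  bif ε 1 then (bif ε 2 then (bif ε 0 then d1 else c1) else (bif ε 0 then b1 else a1))
  else (bif ε 2 then (bif ε 0 then d0 else c0) else (bif ε 0 then b0 else a0))

/-- the quadrant of the box of a state at its north east corner, turned over in the directions `s`
(east) and `t` (out) -/
def qd (d e : Dir) (s t : Bool) (a : Fin 3) : Bool :=
  if a = e.1 then (e.2 == s) else if a = d.1 then (d.2 == t) else !(cross d e).2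

/-- the rotation around the north east corner -/
def lk (f : (Fin 3 → Bool) → Bool) (x : Dir × Dir) : Dir × Dir :=
  if f (qd x.1 x.2 true true) then (opp x.2, cross (opp x.2) x.1)
  else if f (qd x.1 x.2 true false) then (x.1, cross x.1 x.2)
  else (x.2, cross x.2 (opp x.1))

/-- the state is valid -/
def vd (f : (Fin 3 → Bool) → Bool) (x : Dir × Dir) : Bool :=
  decide (x.1.1 ≠ x.2.1) && f (qd x.1 x.2 false false) && !f (qd x.1 x.2 false true)

/-- in the interior: no flat corner -/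
def t1 (f : (Fin 3 → Bool) → Bool) (x : Dir × Dir) : Bool :=
  !(vd f x) || !(decide (x.1.1 = 1)) || decide ((lk f x).1.1 ≠ 1)

/-- in the interior: the direction is kept -/
def t2 (f : (Fin 3 → Bool) → Bool) (x : Dir × Dir) : Bool :=
  !(vd f x) || !(decide (x.2.1 = 1)) || !(decide ((lk f x).1.1 = 1)) ||
    (decide ((lk f (lk f x)).1.1 ≠ 1) &&
      decide (cross (lk f (lk f x)).1 (lk f (lk f x)).2 = opp x.2))

/-- at the ends: not four times the same point -/
def t3 (f : (Fin 3 → Bool) → Bool) (x : Dir × Dir) : Bool :=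
  !(vd f x) || !(decide (x.1.1 = 1)) || !(decide ((lk f x).1.1 = 1)) ||
    !(decide ((lk f (lk f x)).1.1 = 1)) || decide ((lk f (lk f (lk f x))).1.1 ≠ 1)

/-- a point in the interior of a facet -/
def t4 (f : (Fin 3 → Bool) → Bool) (x : Dir × Dir) : Bool :=
  !(vd f x) || !(decide (x.1.1 = 1)) || (decide ((lk f x).1.1 = 1) &&
    decide ((lk f (lk f x)).1.1 = 1) && decide ((lk f (lk f (lk f x))).1.1 = 1) &&
    decide (lk f (lk f (lk f (lk f x))) = x))

def bb : List Bool := [false, true]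

lemma all_bb {p : Bool → Bool} (h : bb.all p = true) (b : Bool) : p b = true := by
  rw [List.all_eq_true] at h
  exact h b (by cases b <;> simp [bb])

theorem chk : ∀ a0 b0 c0 d0 a1 b1 c1 d1 : Bool, Geo.goodB a0 b0 c0 d0 a1 b1 c1 d1 = true →
    ∀ x : Dir × Dir,
      ((Geo.onB a0 b0 c0 d0 && Geo.onB a1 b1 c1 d1) = true → t1 (mk8 a0 b0 c0 d0 a1 b1 c1 d1) x = true ∧
        t2 (mk8 a0 b0 c0 d0 a1 b1 c1 d1) x = true) ∧
      ((Geo.onB a0 b0 c0 d0 || Geo.onB a1 b1 c1 d1) = true → t3 (mk8 a0 b0 c0 d0 a1 b1 c1 d1) x = true) ∧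
      ((Geo.onB a0 b0 c0 d0 || Geo.onB a1 b1 c1 d1) = false → t4 (mk8 a0 b0 c0 d0 a1 b1 c1 d1) x = true) := by
  decide +kernel

/-! ## The rotation around the north east corner -/

variable {P : GridSolid}

lemma box_qd (s : St) (h : s.d.1 ≠ s.e.1) (σ τ : Bool) :
    corner (Geo.ne s) (qd s.d s.e σ τ) =
      if σ then (if τ then shift (shift s.c s.e) s.d else shift s.c s.e)
      else (if τ then shift s.c s.d else s.c) := by
  obtain ⟨c, d, e⟩ := s
  simp only at h
  have h1 := cross_axis_left d e h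
  have h2 := cross_axis_right d e h
  funext a
  have hax : a = e.1 ∨ a = d.1 ∨ a = (cross d e).1 := by
    by_cases ha : a = d.1
    · exact Or.inr (Or.inl ha)
    · by_cases hb : a = e.1
      · exact Or.inl hb
      · exact Or.inr (Or.inr (axis_eq d e a h ha hb))
  unfold corner qd Geo.ne Geo.cnr
  generalize cross d e = n at *
  obtain ⟨d, ds⟩ := d
  obtain ⟨e, es⟩ := e
  obtain ⟨n, ns⟩ := n
  simp only at *
  rcases hax with rfl | rfl | rfl
  · cases σ <;> cases τ <;> cases es <;> simp [h, h.symm, h1, h1.symm, h2, h2.symm, shift, sub_eq_add_neg]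
  · cases σ <;> cases τ <;> cases ds <;> simp [h, h.symm, h1, h1.symm, h2, h2.symm, shift, sub_eq_add_neg]
  · cases σ <;> cases τ <;> cases ns <;> simp [h, h.symm, h1, h1.symm, h2, h2.symm, shift, sub_eq_add_neg]

lemma ne_kappa (s : P.FSt) : Geo.ne (Geo.kappa s).1 = Geo.ne s.1 := by
  have h1 : Geo.ne (Geo.kappa s).1 = Geo.nw s.stE.1 := Geo.ne_rotL s.stE.1 s.stE.2.2
  rw [h1]
  exact Geo.nw_stepE P s.1 s.2.2

lemma kappa_lk (s : P.FSt) : ((Geo.kappa s).1.d, (Geo.kappa s).1.e) =
    lk (Geo.bt P (Geo.ne s.1)) (s.1.d, s.1.e) := by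
  have b1 := box_qd s.1 s.2.2 true true
  have b2 := box_qd s.1 s.2.2 true false
  simp only [if_true, if_false, Bool.false_eq_true] at b1 b2
  show ((s.1.stepE P).rotL.d, (s.1.stepE P).rotL.e) = _
  unfold lk Geo.bt St.stepE St.rotL
  simp only
  rw [b1, b2]
  by_cases h1 : shift (shift s.1.c s.1.e) s.1.d ∈ P.cells
  · simp [h1]
  · by_cases h2 : shift s.1.c s.1.e ∈ P.cells
    · simp [h1, h2]
    · simp [h1, h2]

lemma vd_st (s : P.FSt) : vd (Geo.bt P (Geo.ne s.1)) (s.1.d, s.1.e) = true := by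
  have b1 := box_qd s.1 s.2.2 false true
  have b2 := box_qd s.1 s.2.2 false false
  simp only [if_true, if_false, Bool.false_eq_true] at b1 b2
  have h1 : s.1.c ∈ P.cells := s.2.1.1
  have h2 : shift s.1.c s.1.d ∉ P.cells := s.2.1.2
  unfold vd Geo.bt
  simp only
  rw [b1, b2]
  simp [h1, h2, s.2.2]

lemma mk8_bt (v : Fin 3 → ℤ) : Geo.bt P v =
    mk8 (Geo.bt P v ![false, false, false]) (Geo.bt P v ![true, false, false])
      (Geo.bt P v ![false, false, true]) (Geo.bt P v ![true, false, true])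
      (Geo.bt P v ![false, true, false]) (Geo.bt P v ![true, true, false])
      (Geo.bt P v ![false, true, true]) (Geo.bt P v ![true, true, true]) := by
  funext ε
  have hε : ε = ![ε 0, ε 1, ε 2] := by
    funext i; fin_cases i <;> rfl
  rw [hε]
  generalize ε 0 = x
  generalize ε 1 = y
  generalize ε 2 = z
  cases x <;> cases y <;> cases z <;> rfl

lemma on_above (v : Fin 3 → ℤ) : onP P (v 0) (v 1) (v 2) =
    Geo.onB (Geo.bt P v ![false, true, false]) (Geo.bt P v ![true, true, false])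
      (Geo.bt P v ![false, true, true]) (Geo.bt P v ![true, true, true]) := by
  have key : ∀ r a : Bool, bit P (v 0) (v 1) (v 2) r a = Geo.bt P v ![r, true, a] := by
    intro r a
    unfold bit Geo.bt
    congr 2
    funext i
    fin_cases i <;> simp [corner]
  unfold onP
  rw [key, key, key, key]

lemma on_below (v : Fin 3 → ℤ) : onP P (v 0) (v 1 - 1) (v 2) =
    Geo.onB (Geo.bt P v ![false, false, false]) (Geo.bt P v ![true, false, false])
      (Geo.bt P v ![false, false, true]) (Geo.bt P v ![true, false, true]) := by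
  have key : ∀ r a : Bool, bit P (v 0) (v 1 - 1) (v 2) r a = Geo.bt P v ![r, false, a] := by
    intro r a
    unfold bit Geo.bt
    congr 2
    funext i
    fin_cases i <;> simp [corner]
  unfold onP
  rw [key, key, key, key]

/-- the edge below and above the north east corner of a state -/
def obl (s : P.FSt) : Bool := onP P (Geo.ne s.1 0) (Geo.ne s.1 1 - 1) (Geo.ne s.1 2)

def oab (s : P.FSt) : Bool := onP P (Geo.ne s.1 0) (Geo.ne s.1 1) (Geo.ne s.1 2)

lemma chk_st (hM : P.IsManifold) (h3 : Deg3 P) (s : P.FSt) :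
    ((obl s && oab s) = true → t1 (Geo.bt P (Geo.ne s.1)) (s.1.d, s.1.e) = true ∧
      t2 (Geo.bt P (Geo.ne s.1)) (s.1.d, s.1.e) = true) ∧
    ((obl s || oab s) = true → t3 (Geo.bt P (Geo.ne s.1)) (s.1.d, s.1.e) = true) ∧
    ((obl s || oab s) = false → t4 (Geo.bt P (Geo.ne s.1)) (s.1.d, s.1.e) = true) := by
  have h := chk _ _ _ _ _ _ _ _ (Geo.good P hM (isSimple_of_deg3 h3) (Geo.ne s.1)) (s.1.d, s.1.e)
  rw [← mk8_bt, ← on_above, ← on_below] at h
  exact h

lemma lk_kappa (s : P.FSt) (f : (Fin 3 → Bool) → Bool) (hf : f = Geo.bt P (Geo.ne s.1)) :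
    lk f (s.1.d, s.1.e) = ((Geo.kappa s).1.d, (Geo.kappa s).1.e) := by
  rw [hf, kappa_lk]

/-- no flat corner in the interior -/
lemma loc1 (hM : P.IsManifold) (h3 : Deg3 P) (s : P.FSt) (ho : (obl s && oab s) = true)
    (hs : s.1.d.1 = 1) : (Geo.kappa s).1.d.1 ≠ 1 := by
  have h := ((chk_st hM h3 s).1 ho).1
  unfold t1 at h
  rw [vd_st, lk_kappa s _ rfl] at h
  simpa [hs] using h

/-- the direction is kept in the interior -/
lemma loc2 (hM : P.IsManifold) (h3 : Deg3 P) (s : P.FSt) (ho : (obl s && oab s) = true)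
    (hs : s.1.e.1 = 1) (hk : (Geo.kappa s).1.d.1 = 1) :
    (Geo.kappa (Geo.kappa s)).1.d.1 ≠ 1 ∧ (Geo.kappa (Geo.kappa s)).1.n = opp s.1.e := by
  have h := ((chk_st hM h3 s).1 ho).2
  unfold t2 at h
  rw [vd_st, lk_kappa s _ rfl, lk_kappa (Geo.kappa s) _ (by rw [ne_kappa])] at h
  simpa [hs, hk, St.n] using h

lemma loc3 (hM : P.IsManifold) (h3 : Deg3 P) (s : P.FSt) (ho : (obl s || oab s) = true)
    (hs : s.1.d.1 = 1) (h1 : (Geo.kappa s).1.d.1 = 1) (h2 : (Geo.kappa (Geo.kappa s)).1.d.1 = 1) :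
    (Geo.kappa (Geo.kappa (Geo.kappa s))).1.d.1 ≠ 1 := by
  have h := (chk_st hM h3 s).2.1 ho
  unfold t3 at h
  rw [vd_st, lk_kappa s _ rfl, lk_kappa (Geo.kappa s) _ (by rw [ne_kappa]),
    lk_kappa (Geo.kappa (Geo.kappa s)) _ (by rw [ne_kappa, ne_kappa])] at h
  simpa [hs, h1, h2] using h

lemma st_ext {s t : P.FSt} (hd : s.1.d = t.1.d) (he : s.1.e = t.1.e)
    (h : Geo.ne s.1 = Geo.ne t.1) : s = t := by
  apply FSt.ext'
  have h1 := box_qd s.1 s.2.2 false false
  have h2 := box_qd t.1 t.2.2 false false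
  simp only [Bool.false_eq_true, if_false] at h1 h2
  refine St.ext ?_ hd he
  rw [← h1, ← h2, hd, he, h]

lemma loc4 (hM : P.IsManifold) (h3 : Deg3 P) (s : P.FSt) (ho : (obl s || oab s) = false)
    (hs : s.1.d.1 = 1) : (Geo.kappa s).1.d.1 = 1 ∧ (Geo.kappa (Geo.kappa s)).1.d.1 = 1 ∧
      (Geo.kappa (Geo.kappa (Geo.kappa s))).1.d.1 = 1 ∧
      Geo.kappa (Geo.kappa (Geo.kappa (Geo.kappa s))) = s := by
  have h := (chk_st hM h3 s).2.2 ho
  unfold t4 at h
  rw [vd_st, lk_kappa s _ rfl, lk_kappa (Geo.kappa s) _ (by rw [ne_kappa]),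
    lk_kappa (Geo.kappa (Geo.kappa s)) _ (by rw [ne_kappa, ne_kappa]),
    lk_kappa (Geo.kappa (Geo.kappa (Geo.kappa s))) _ (by rw [ne_kappa, ne_kappa, ne_kappa])] at h
  simp only [hs, Bool.not_true, decide_true, Bool.false_or, Bool.and_eq_true,
    decide_eq_true_eq, Prod.mk.injEq] at h
  obtain ⟨⟨⟨h1, h2⟩, h4⟩, h5, h6⟩ := h
  exact ⟨h1, h2, h4, st_ext h5 h6 (by rw [ne_kappa, ne_kappa, ne_kappa, ne_kappa])⟩

/-! ## The walk around a leaf as a walk of states -/

lemma ne_d (d : Dart P) : Geo.ne d.1.1 = ![xl d, yu d, zl d] := by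
  funext a; fin_cases a <;> rfl

lemma ne_phiL (d : Dart P) : Geo.ne (phi P d).1.rL.1 = ![xl d, yw d, zl d] := by
  rw [← nw_phi]
  exact Geo.ne_rotL _ (phi P d).1.2.2

lemma kappa_def (s : P.FSt) : Geo.kappa s = s.stE.rL := rfl

lemma pow_one_stE (s : P.FSt) : (pE ^ (0 + 1)) s = s.stE := by
  rw [pE_pow_succ]; rfl

/-- flat corners -/
lemma kap_c (d : Dart P) (h : yu d = yw d) : Geo.kappa d.1 = (phi P d).1.rL := by
  obtain ⟨k, b, hk⟩ := exists_wk' d
  have h1 := hk.yw_eq
  have h2 : k = 0 := by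
    cases b <;> simp at h1 <;> omega
  subst h2
  rw [kappa_def, hk.hphi, pow_one_stE]

lemma kap_c' (d : Dart P) (h : (Geo.kappa d.1).1.d.1 = 1) :
    Geo.kappa d.1 = (phi P d).1.rL ∧ yu d = yw d := by
  obtain ⟨k, b, hk⟩ := exists_wk' d
  rcases Nat.eq_zero_or_pos k with h2 | h2
  · subst h2
    have h1 := hk.yw_eq
    refine ⟨by rw [kappa_def, hk.hphi, pow_one_stE], ?_⟩
    cases b <;> simp at h1 <;> omega
  · exfalso
    have h3 := hk.hd 0 h2
    rw [pow_one_stE] at h3
    have h4 : (Geo.kappa d.1).1.d.1 = d.1.stE.1.d.1 := rfl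
    rw [h4, h3] at h
    exact absurd h (by decide)

/-- strips of length zero -/
lemma kap_s (d : Dart P) (h : yw d = yu (nuD P d)) :
    Geo.kappa (phi P d).1.rL = (nuD P d).1 := by
  obtain ⟨k, b, hk⟩ := exists_sk d
  have h1 := hk.yu_eq
  have h2 : k = 0 := by
    cases b <;> simp at h1 <;> omega
  subst h2
  rw [kappa_def, hk.hnu, pow_one_stE, FSt.rR_r2]

lemma kap_s' (d : Dart P) (h : (Geo.kappa (phi P d).1.rL).1.d.1 = 1) :
    Geo.kappa (phi P d).1.rL = (nuD P d).1 ∧ yw d = yu (nuD P d) := by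
  obtain ⟨k, b, hk⟩ := exists_sk d
  rcases Nat.eq_zero_or_pos k with h2 | h2
  · subst h2
    have h1 := hk.yu_eq
    refine ⟨by rw [kappa_def, hk.hnu, pow_one_stE, FSt.rR_r2], ?_⟩
    cases b <;> simp at h1 <;> omega
  · exfalso
    have h3 := hk.hd 0 h2
    rw [pow_one_stE] at h3
    have h4 : (Geo.kappa (phi P d).1.rL).1.d.1 = (phi P d).1.rL.stE.1.d.1 := rfl
    rw [h4, h3] at h
    exact absurd h (by decide)

lemma ob_d (d : Dart P) : obl d.1 = onP P (xl d) (yu d - 1) (zl d) ∧
    oab d.1 = onP P (xl d) (yu d) (zl d) := ⟨rfl, rfl⟩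

lemma ob_phi (d : Dart P) : obl (phi P d).1.rL = onP P (xl d) (yw d - 1) (zl d) ∧
    oab (phi P d).1.rL = onP P (xl d) (yw d) (zl d) := by
  unfold obl oab
  rw [ne_phiL]
  exact ⟨rfl, rfl⟩

/-- the end of a walk: the last state before the next `y`-facet -/
lemma nu_last {s : P.FSt} {k : ℕ} {v : Fin 3 → ℤ} (hk : 0 < k)
    (hv : Geo.nw ((pE ^ (k + 1)) s).1 = v) : Geo.ne ((pE ^ (k - 1 + 1)) s).1 = v := by
  rw [← hv, pE_pow_succ s k, show k - 1 + 1 = k by omega]
  exact (Geo.nw_stepE P _ ((pE ^ k) s).2.2).symm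

lemma kappa_last {s : P.FSt} {k : ℕ} (hk : 0 < k) :
    Geo.kappa ((pE ^ (k - 1 + 1)) s) = ((pE ^ (k + 1)) s).rL := by
  rw [kappa_def, pE_pow_succ s k, show k - 1 + 1 = k by omega]

lemma kappa_n (s : P.FSt) : (Geo.kappa s).1.n = opp s.stE.1.e := rL_n s.stE

lemma opp_inj1 (b b' : Bool) (h : opp ((1 : Fin 3), b) = opp (1, b')) : b = b' := by
  have := congrArg Prod.snd h
  simpa [opp] using this

/-- **I4**, the end of a corner -/
theorem lw4a (hM : P.IsManifold) (h3 : Deg3 P) (d : Dart P)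
    (h1 : onP P (xl d) (yw d - 1) (zl d) = true) (h2 : onP P (xl d) (yw d) (zl d) = true) :
    (yu d < yw d ∧ yw d < yu (nuD P d)) ∨ (yu (nuD P d) < yw d ∧ yw d < yu d) := by
  obtain ⟨k, b, hk⟩ := exists_wk' d
  obtain ⟨l, b', hl⟩ := exists_sk d
  rcases Nat.eq_zero_or_pos k with h0 | h0
  · exfalso
    subst h0
    have e1 : yu d = yw d := by
      have := hk.yw_eq
      cases b <;> simp at this <;> omega
    have e2 := kap_c d e1
    refine loc1 hM h3 d.1 ?_ d.2.1 (by rw [e2]; exact (phi P d).2.1)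
    rw [(ob_d d).1, (ob_d d).2, e1, h1, h2]
    rfl
  · have hv : Geo.nw ((pE ^ (k + 1)) d.1).1 = ![xl d, yw d, zl d] := by
      rw [← hk.hphi]; exact nw_phi d
    have hne := nu_last h0 hv
    have hka := kappa_last (s := d.1) h0
    rw [← hk.hphi] at hka
    have he := hk.he (k - 1) (by omega)
    have q := loc2 hM h3 ((pE ^ (k - 1 + 1)) d.1) (by
      unfold obl oab
      rw [hne]
      show (onP P (xl d) (yw d - 1) (zl d) && onP P (xl d) (yw d) (zl d)) = true
      rw [h1, h2]; rfl) (by rw [he]) (by rw [hka]; exact (phi P d).2.1)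
    rw [hka, he] at q
    rcases Nat.eq_zero_or_pos l with h4 | h4
    · exfalso
      subst h4
      have e1 : yw d = yu (nuD P d) := by
        have := hl.yu_eq
        cases b' <;> simp at this <;> omega
      apply q.1
      rw [kap_s d e1]
      exact (nuD P d).2.1
    · have e1 := hl.he 0 h4
      rw [pow_one_stE] at e1
      have e2 := q.2
      rw [kappa_n, e1] at e2
      have e3 := opp_inj1 _ _ e2
      subst e3
      have e4 := hk.yw_eq
      have e5 := hl.yu_eq
      cases b' <;> simp at e4 e5 <;> omega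

/-- **I4**, the end of a strip -/
theorem lw4b (hM : P.IsManifold) (h3 : Deg3 P) (d : Dart P)
    (h1 : onP P (xl d) (yu (nuD P d) - 1) (zl d) = true)
    (h2 : onP P (xl d) (yu (nuD P d)) (zl d) = true) :
    (yw d < yu (nuD P d) ∧ yu (nuD P d) < yw (nuD P d)) ∨
      (yw (nuD P d) < yu (nuD P d) ∧ yu (nuD P d) < yw d) := by
  obtain ⟨l, b, hl⟩ := exists_sk d
  obtain ⟨k, b', hk⟩ := exists_wk' (nuD P d)
  rcases Nat.eq_zero_or_pos l with h0 | h0
  · exfalso
    subst h0
    have e1 : yw d = yu (nuD P d) := by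
      have := hl.yu_eq
      cases b <;> simp at this <;> omega
    have e2 := kap_s d e1
    refine loc1 hM h3 (phi P d).1.rL ?_ (phi P d).2.1 (by rw [e2]; exact (nuD P d).2.1)
    rw [(ob_phi d).1, (ob_phi d).2, e1, h1, h2]
    rfl
  · have hnu : (nuD P d).1 = ((pE ^ (l + 1)) (phi P d).1.rL).rL := by
      rw [hl.hnu, FSt.rR_r2]
    have hv : Geo.nw ((pE ^ (l + 1)) (phi P d).1.rL).1 = ![xl d, yu (nuD P d), zl d] := by
      have e1 : Geo.nw ((pE ^ (l + 1)) (phi P d).1.rL).1 = Geo.ne (nuD P d).1.1 := by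
        rw [hnu]
        exact (Geo.ne_rotL _ ((pE ^ (l + 1)) (phi P d).1.rL).2.2).symm
      rw [e1, ne_d, xl_nu, zl_nu]
    have hne := nu_last h0 hv
    have hka := kappa_last (s := (phi P d).1.rL) h0
    rw [← hnu] at hka
    have he := hl.he (l - 1) (by omega)
    have q := loc2 hM h3 ((pE ^ (l - 1 + 1)) (phi P d).1.rL) (by
      unfold obl oab
      rw [hne]
      show (onP P (xl d) (yu (nuD P d) - 1) (zl d) && onP P (xl d) (yu (nuD P d)) (zl d)) = true
      rw [h1, h2]; rfl) (by rw [he]) (by rw [hka]; exact (nuD P d).2.1)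
    rw [hka, he] at q
    rcases Nat.eq_zero_or_pos k with h4 | h4
    · exfalso
      subst h4
      have e1 : yu (nuD P d) = yw (nuD P d) := by
        have := hk.yw_eq
        cases b' <;> simp at this <;> omega
      apply q.1
      rw [kap_c _ e1]
      exact (phi P (nuD P d)).2.1
    · have e1 := hk.he 0 h4
      rw [pow_one_stE] at e1
      have e2 := q.2
      rw [kappa_n, e1] at e2
      have e3 := opp_inj1 _ _ e2
      subst e3
      have e4 := hk.yw_eq
      have e5 := hl.yu_eq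
      cases b' <;> simp at e4 e5 <;> omega

/-- **I5** -/
theorem lw5a (hM : P.IsManifold) (h3 : Deg3 P) (d : Dart P)
    (h : onP P (xl d) (yu d - 1) (zl d) = true ∨ onP P (xl d) (yu d) (zl d) = true)
    (e1 : yu d = yw d) (e2 : yw d = yu (nuD P d)) (e3 : yu (nuD P d) = yw (nuD P d)) : False := by
  refine loc3 hM h3 d.1 ?_ d.2.1 (by rw [kap_c d e1]; exact (phi P d).2.1)
    (by rw [kap_c d e1, kap_s d e2]; exact (nuD P d).2.1)
    (by rw [kap_c d e1, kap_s d e2, kap_c _ e3]; exact (phi P (nuD P d)).2.1)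
  rw [(ob_d d).1, (ob_d d).2]
  rcases h with h | h <;> simp [h]

theorem lw5b (hM : P.IsManifold) (h3 : Deg3 P) (d : Dart P)
    (h : onP P (xl d) (yw d - 1) (zl d) = true ∨ onP P (xl d) (yw d) (zl d) = true)
    (e1 : yw d = yu (nuD P d)) (e2 : yu (nuD P d) = yw (nuD P d))
    (e3 : yw (nuD P d) = yu (nuD P (nuD P d))) : False := by
  refine loc3 hM h3 (phi P d).1.rL ?_ (phi P d).2.1 (by rw [kap_s d e1]; exact (nuD P d).2.1)
    (by rw [kap_s d e1, kap_c _ e2]; exact (phi P (nuD P d)).2.1)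
    (by rw [kap_s d e1, kap_c _ e2, kap_s _ e3]; exact (nuD P (nuD P d)).2.1)
  rw [(ob_phi d).1, (ob_phi d).2]
  rcases h with h | h <;> simp [h]

/-- **I6** -/
theorem lw6 (hM : P.IsManifold) (h3 : Deg3 P) (d : Dart P)
    (h1 : onP P (xl d) (yu d - 1) (zl d) = false) (h2 : onP P (xl d) (yu d) (zl d) = false) :
    nuD P (nuD P d) = d := by
  obtain ⟨k1, k2, k3, k4⟩ := loc4 hM h3 d.1 (by rw [(ob_d d).1, (ob_d d).2, h1, h2]; rfl) d.2.1
  obtain ⟨a1, -⟩ := kap_c' d k1
  rw [a1] at k2 k3 k4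
  obtain ⟨a2, -⟩ := kap_s' d k2
  rw [a2] at k3 k4
  obtain ⟨a3, -⟩ := kap_c' _ k3
  rw [a3] at k4
  obtain ⟨a4, -⟩ := kap_s' (nuD P d) (by rw [k4]; exact d.2.1)
  rw [a4] at k4
  exact Subtype.ext k4

/-! ## The word of a leaf -/

/-- the positions of the walk around a leaf -/
noncomputable def pw (e : Dart P) (j : ℕ) : ℤ :=
  if j % 2 = 0 then yu ((nuD P)^[j / 2] e) else yw ((nuD P)^[j / 2] e)

lemma pw_even (e : Dart P) (i : ℕ) : pw e (2 * i) = yu ((nuD P)^[i] e) := by
  unfold pw
  rw [if_pos (by omega), show 2 * i / 2 = i by omega]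

lemma pw_odd (e : Dart P) (i : ℕ) : pw e (2 * i + 1) = yw ((nuD P)^[i] e) := by
  unfold pw
  rw [if_neg (by omega), show (2 * i + 1) / 2 = i by omega]

lemma it_succ (e : Dart P) (i : ℕ) : (nuD P)^[i + 1] e = nuD P ((nuD P)^[i] e) :=
  Function.iterate_succ_apply' _ _ _

lemma xl_it (e : Dart P) (i : ℕ) : xl ((nuD P)^[i] e) = xl e := by
  induction i with
  | zero => rfl
  | succ i ih => rw [it_succ, xl_nu, ih]

lemma zl_it (e : Dart P) (i : ℕ) : zl ((nuD P)^[i] e) = zl e := by
  induction i with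
  | zero => rfl
  | succ i ih => rw [it_succ, zl_nu, ih]

section

variable {lo hi : ℤ}

lemma range_yw {e : Dart P} (h1 : onP P (xl e) (lo - 1) (zl e) = false)
    (h2 : onP P (xl e) hi (zl e) = false) (ha : lo ≤ yu e) (hb : yu e ≤ hi) :
    lo ≤ yw e ∧ yw e ≤ hi := by
  constructor
  · by_contra hlt
    have := (i2b e (y := lo - 1) (by omega) (by omega)).1
    rw [h1] at this
    exact Bool.false_ne_true this
  · by_contra hlt
    have := (i2a e (y := hi) (by omega) (by omega)).1
    rw [h2] at this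
    exact Bool.false_ne_true this

lemma range_yu {e : Dart P} (h1 : onP P (xl e) (lo - 1) (zl e) = false)
    (h2 : onP P (xl e) hi (zl e) = false) (ha : lo ≤ yw e) (hb : yw e ≤ hi) :
    lo ≤ yu (nuD P e) ∧ yu (nuD P e) ≤ hi := by
  constructor
  · by_contra hlt
    have := (i2d e (y := lo - 1) (by omega) (by omega)).1
    rw [h1] at this
    exact Bool.false_ne_true this
  · by_contra hlt
    have := (i2c e (y := hi) (by omega) (by omega)).1
    rw [h2] at this
    exact Bool.false_ne_true this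

lemma range_it {e : Dart P} (h1 : onP P (xl e) (lo - 1) (zl e) = false)
    (h2 : onP P (xl e) hi (zl e) = false) (ha : lo ≤ yu e) (hb : yu e ≤ hi) (i : ℕ) :
    (lo ≤ yu ((nuD P)^[i] e) ∧ yu ((nuD P)^[i] e) ≤ hi) ∧
      (lo ≤ yw ((nuD P)^[i] e) ∧ yw ((nuD P)^[i] e) ≤ hi) := by
  induction i with
  | zero => exact ⟨⟨ha, hb⟩, range_yw h1 h2 ha hb⟩
  | succ i ih =>
    have h1' : onP P (xl ((nuD P)^[i] e)) (lo - 1) (zl ((nuD P)^[i] e)) = false := by
      rw [xl_it, zl_it, h1]
    have h2' : onP P (xl ((nuD P)^[i] e)) hi (zl ((nuD P)^[i] e)) = false := by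
      rw [xl_it, zl_it, h2]
    have h1'' : onP P (xl ((nuD P)^[i + 1] e)) (lo - 1) (zl ((nuD P)^[i + 1] e)) = false := by
      rw [xl_it, zl_it, h1]
    have h2'' : onP P (xl ((nuD P)^[i + 1] e)) hi (zl ((nuD P)^[i + 1] e)) = false := by
      rw [xl_it, zl_it, h2]
    have a := range_yu h1' h2' ih.2.1 ih.2.2
    rw [← it_succ] at a
    exact ⟨a, range_yw h1'' h2'' a.1 a.2⟩

lemma wd_pw (hM : P.IsManifold) (h3 : Deg3 P) {e : Dart P} (hlo : lo < hi)
    (hon : ∀ y, lo ≤ y → y < hi → onP P (xl e) y (zl e) = true)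
    (h1 : onP P (xl e) (lo - 1) (zl e) = false)
    (h2 : onP P (xl e) hi (zl e) = false) (ha : lo ≤ yu e) (hb : yu e ≤ hi) :
    Wd (pw e) lo hi := by
  have hr := range_it h1 h2 ha hb
  have hr' : ∀ j, lo ≤ pw e j ∧ pw e j ≤ hi := by
    intro j
    rcases Nat.even_or_odd' j with ⟨i, rfl | rfl⟩
    · rw [pw_even]; exact (hr i).1
    · rw [pw_odd]; exact (hr i).2
  have hoo : ∀ v, lo ≤ v → v ≤ hi →
      onP P (xl e) (v - 1) (zl e) = true ∨ onP P (xl e) v (zl e) = true := by
    intro v hv1 hv2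
    rcases eq_or_lt_of_le hv2 with rfl | hv
    · exact Or.inl (hon _ (by omega) (by omega))
    · exact Or.inr (hon _ hv1 hv)
  refine ⟨fun j => (hr' j).1, fun j => (hr' j).2, ?_, ?_⟩
  · intro j hj1 hj2
    rcases Nat.even_or_odd' j with ⟨i, rfl | rfl⟩
    · rw [pw_even, pw_odd, show 2 * i + 2 = 2 * (i + 1) by ring, pw_even, it_succ] at *
      have := lw4a hM h3 ((nuD P)^[i] e) (by
        rw [xl_it, zl_it]; exact hon _ (by omega) (by omega)) (by
        rw [xl_it, zl_it]; exact hon _ (by omega) (by omega))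
      omega
    · rw [pw_odd, show 2 * i + 1 + 1 = 2 * (i + 1) by ring,
        show 2 * i + 1 + 2 = 2 * (i + 1) + 1 by ring, pw_odd, pw_even, it_succ] at *
      have := lw4b hM h3 ((nuD P)^[i] e) (by
        rw [xl_it, zl_it]; exact hon _ (by omega) (by omega)) (by
        rw [xl_it, zl_it]; exact hon _ (by omega) (by omega))
      omega
  · rintro j ⟨e1, e2, e3⟩
    rcases Nat.even_or_odd' j with ⟨i, rfl | rfl⟩
    · rw [pw_even, pw_odd] at e1
      rw [show 2 * i + 2 = 2 * (i + 1) by ring, pw_even, pw_odd, it_succ] at e2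
      rw [show 2 * i + 2 = 2 * (i + 1) by ring, show 2 * i + 3 = 2 * (i + 1) + 1 by ring,
        pw_even, pw_odd, it_succ] at e3
      refine lw5a hM h3 ((nuD P)^[i] e) ?_ e1 e2 e3
      rw [xl_it, zl_it]
      exact hoo _ (hr i).1.1 (hr i).1.2
    · rw [show 2 * i + 1 + 1 = 2 * (i + 1) by ring, pw_even, pw_odd, it_succ] at e1
      rw [show 2 * i + 1 + 1 = 2 * (i + 1) by ring, show 2 * i + 1 + 2 = 2 * (i + 1) + 1 by ring,
        pw_even, pw_odd, it_succ] at e2
      rw [show 2 * i + 1 + 2 = 2 * (i + 1) + 1 by ring,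
        show 2 * i + 1 + 3 = 2 * (i + 1 + 1) by ring, pw_even, pw_odd, it_succ, it_succ,
        it_succ] at e3
      refine lw5b hM h3 ((nuD P)^[i] e) ?_ e1 e2 e3
      rw [xl_it, zl_it]
      exact hoo _ (hr i).2.1 (hr i).2.2

/-- two descents from the upper end -/
lemma start_eq (hM : P.IsManifold) {e e' : Dart P} (hx : xl e = xl e') (hz : zl e = zl e')
    {i j : ℕ} (a1 : pw e i = hi) (a2 : pw e (i + 1) < hi) (b1 : pw e' j = hi)
    (b2 : pw e' (j + 1) < hi) :
    (∃ i' j', i = 2 * i' ∧ j = 2 * j' ∧ (nuD P)^[i'] e = (nuD P)^[j'] e') ∨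
      (∃ i' j', i = 2 * i' + 1 ∧ j = 2 * j' + 1 ∧ (nuD P)^[i'] e = (nuD P)^[j'] e') := by
  have key : ∀ (e e' : Dart P) (i j : ℕ), xl e = xl e' → zl e = zl e' → pw e (2 * i) = hi →
      pw e (2 * i + 1) < hi → pw e' (2 * j + 1) = hi → pw e' (2 * j + 1 + 1) < hi → False := by
    intro e e' i j hx hz a1 a2 b1 b2
    rw [pw_even] at a1
    rw [pw_odd] at a2 b1
    rw [show 2 * j + 1 + 1 = 2 * (j + 1) by ring, pw_even, it_succ] at b2
    have k1 := (i2b ((nuD P)^[i] e) (y := hi - 1) (by omega) (by omega)).2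
    have k2 := (i2d ((nuD P)^[j] e') (y := hi - 1) (by omega) (by omega)).2
    rw [xl_it, zl_it] at k1 k2
    rw [hx, hz, k2] at k1
    exact Bool.false_ne_true k1
  rcases Nat.even_or_odd' i with ⟨i', rfl | rfl⟩ <;> rcases Nat.even_or_odd' j with ⟨j', rfl | rfl⟩
  · left
    refine ⟨i', j', rfl, rfl, ?_⟩
    rw [pw_even] at a1 b1
    rw [pw_odd] at a2 b2
    exact i3b hM _ _ (by rw [xl_it, xl_it, hx]) (by rw [zl_it, zl_it, hz]) (y := hi - 1)
      (by omega) (by omega) (by omega) (by omega)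
  · exact (key _ _ _ _ hx hz a1 a2 b1 b2).elim
  · exact (key _ _ _ _ hx.symm hz.symm b1 b2 a1 a2).elim
  · right
    refine ⟨i', j', rfl, rfl, ?_⟩
    rw [pw_odd] at a1 b1
    rw [show 2 * i' + 1 + 1 = 2 * (i' + 1) by ring, pw_even, it_succ] at a2
    rw [show 2 * j' + 1 + 1 = 2 * (j' + 1) by ring, pw_even, it_succ] at b2
    exact i3d hM _ _ (by rw [xl_it, xl_it, hx]) (by rw [zl_it, zl_it, hz]) (y := hi - 1)
      (by omega) (by omega) (by omega) (by omega)

end

lemma insurf_on (x t z : ℤ) : Geo.InSurf P ![x, t, z] (1, true) ↔ onP P x t z = true := by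
  rw [Geo.surf_y1, ← on_above]
  exact Iff.rfl

/-- **Leaf normal form.** -/
theorem exists_leaf' (hM : P.IsManifold) (h3 : Deg3 P) (d : Dart P) (h1 : nuD P d ≠ d)
    (h2 : nuD P (nuD P d) ≠ d) : ∃ L : Leaf P, ∃ i < L.n, L.c i = d := by
  obtain ⟨lo, m0, hl1, hl2, hon', hlo', hhi'⟩ := exists_seg P (xl d) (yu d) (zl d)
  rw [insurf_on, Bool.not_eq_true] at hlo' hhi'
  obtain ⟨hi, hhi⟩ : ∃ hi : ℤ, hi = lo + m0 := ⟨_, rfl⟩
  rw [← hhi] at hl2 hhi'
  have hon : ∀ y, lo ≤ y → y < hi → onP P (xl d) y (zl d) = true := by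
    intro y hy1 hy2
    have := (insurf_on _ _ _).1 (hon' (y - lo).toNat (by omega))
    rwa [show lo + ((y - lo).toNat : ℤ) = y by omega] at this
  have hlohi : lo < hi := by
    by_contra hlt
    have e : yu d = lo := by omega
    have e' : hi = lo := by omega
    rw [e'] at hhi'
    exact h2 (lw6 hM h3 d (by rw [e]; exact hlo') (by rw [e]; exact hhi'))
  -- the period
  set N := Function.minimalPeriod (nuD P) d with hN
  have hNpos : 0 < N := Function.minimalPeriod_pos_of_mem_periodicPts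
    (Function.Injective.mem_periodicPts (nuD P).injective d)
  have hNd : (nuD P)^[N] d = d := Function.iterate_minimalPeriod
  have hN3 : 3 ≤ N := by
    by_contra hlt
    have : N = 1 ∨ N = 2 := by omega
    rcases this with h | h
    · rw [h] at hNd; exact h1 hNd
    · rw [h] at hNd; exact h2 hNd
  have hmod : ∀ i, (nuD P)^[i % N] d = (nuD P)^[i] d := fun i =>
    Function.iterate_mod_minimalPeriod_eq
  have hadd : ∀ i, (nuD P)^[i + N] d = (nuD P)^[i] d := by
    intro i
    rw [Function.iterate_add_apply, hNd]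
  have hdvd : ∀ i j, i ≤ j → (nuD P)^[i] d = (nuD P)^[j] d → N ∣ j - i := by
    intro i j hij h
    have e : (nuD P)^[j] d = (nuD P)^[i] ((nuD P)^[j - i] d) := by
      rw [← Function.iterate_add_apply]
      congr 2
      omega
    rw [e] at h
    have e2 := ((nuD P).injective.iterate i) h
    exact Function.IsPeriodicPt.minimalPeriod_dvd (f := nuD P) (x := d) e2.symm
  have hW := wd_pw hM h3 (e := d) hlohi hon hlo' hhi' hl1 hl2
  obtain ⟨q, m, c1, c2, c3, c4, c5, c6, c7, c8, c9⟩ := hW.choice hlohi N hNpos (by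
    intro j
    rcases Nat.even_or_odd' j with ⟨i, rfl | rfl⟩
    · rw [show 2 * i + 2 * N = 2 * (i + N) by ring, pw_even, pw_even, hadd]
    · rw [show 2 * i + 1 + 2 * N = 2 * (i + N) + 1 by ring, pw_odd, pw_odd, hadd]) (by
    intro i j hij a1 a2 b1 b2
    rcases start_eq hM rfl rfl a1 a2 b1 b2 with ⟨i', j', rfl, rfl, h⟩ | ⟨i', j', rfl, rfl, h⟩
    · obtain ⟨r, hr⟩ := hdvd i' j' (by omega) h
      exact ⟨r, by rw [mul_assoc, ← hr]; omega⟩
    · obtain ⟨r, hr⟩ := hdvd i' j' (by omega) h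
      exact ⟨r, by rw [mul_assoc, ← hr]; omega⟩)
  -- every element of the orbit
  have horb : ∀ k, ∃ i < N, (nuD P)^[q + i] d = (nuD P)^[k] d := by
    intro k
    refine ⟨(k + (N - 1) * q) % N, Nat.mod_lt _ hNpos, ?_⟩
    have e : (q + (k + (N - 1) * q) % N) % N = k % N := by
      have e1 : q + (k + (N - 1) * q) = k + N * q := by
        obtain ⟨r, hr⟩ : ∃ r, N = r + 1 := ⟨N - 1, by omega⟩
        rw [hr]
        simp only [Nat.add_sub_cancel]
        ring
      rw [Nat.add_mod_mod, e1, Nat.add_mul_mod_self_left]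
    rw [← hmod (q + _), e, hmod k]
  have hr := range_it hlo' hhi' hl1 hl2
  refine ⟨{
    x := xl d
    z := zl d
    lo := lo
    hi := hi
    n := N
    m := m
    c := fun i => (nuD P)^[q + i] d
    hn := hN3
    hm := c1
    step := fun i => it_succ _ _
    per := by
      show (nuD P)^[q + N] d = (nuD P)^[q + 0] d
      rw [hadd]; rfl
    inj := by
      intro i hi j hj h
      have h' : (nuD P)^[q] ((nuD P)^[i] d) = (nuD P)^[q] ((nuD P)^[j] d) := by
        rw [← Function.iterate_add_apply, ← Function.iterate_add_apply]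
        exact h
      exact Function.iterate_injOn_Iio_minimalPeriod (f := nuD P) (x := d) hi hj
        (((nuD P).injective.iterate q) h')
    px := fun i => ⟨xl_it d _, by rw [nw_phi]; exact xl_it d _⟩
    pz := fun i => ⟨zl_it d _, by rw [nw_phi]; exact zl_it d _⟩
    lohi := hlohi
    ru := fun i => (hr _).1
    rw := fun i => (hr _).2
    up := by
      intro i hi
      have := c2 i hi
      rw [pw_odd, pw_even] at this
      exact this
    upc := by
      intro i hi1 hi2
      have := c3 i hi1 hi2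
      rw [pw_odd, pw_even] at this
      exact this
    dn := by
      intro i hi1 hi2
      have := c4 i hi1 hi2
      rw [pw_odd, pw_even] at this
      exact this
    dnc := by
      intro i hi1 hi2
      have := c5 i hi1 hi2
      rw [pw_odd, pw_even] at this
      exact this
    bot := by
      rw [pw_odd, pw_even] at c6
      exact c6
    top := by
      rw [pw_odd, pw_even] at c7
      exact c7
    zero := by
      intro i h
      by_contra hcon
      push Not at hcon
      have e := hW.int (2 * (q + i)) (by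
        rw [pw_odd]; exact lt_of_le_of_ne (hr _).2.1 (Ne.symm hcon.1)) (by
        rw [pw_odd]; exact lt_of_le_of_ne (hr _).2.2 hcon.2)
      rw [pw_odd, show 2 * (q + i) + 2 = 2 * (q + i + 1) by ring, pw_even, pw_even] at e
      have h' : yw ((nuD P)^[q + i] d) = yu ((nuD P)^[q + i + 1] d) := h
      omega
    on := hon
    off1 := hlo'
    off2 := hhi'
    bwI := by
      intro y hy1 hy2
      constructor
      · intro h
        obtain ⟨j, j1, j2⟩ := c8 y hy1 hy2
        rcases Nat.even_or_odd' j with ⟨i, rfl | rfl⟩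
        · rw [pw_even] at j1
          rw [pw_odd] at j2
          obtain ⟨i', hi', e⟩ := horb i
          exact ⟨i', hi', by show yu ((nuD P)^[q + i'] d) ≤ y; rw [e]; exact j1, by
            show y < yw ((nuD P)^[q + i'] d); rw [e]; exact j2⟩
        · exfalso
          rw [pw_odd] at j1
          rw [show 2 * i + 1 + 1 = 2 * (i + 1) by ring, pw_even, it_succ] at j2
          have := (i2c _ j1 j2).2
          rw [xl_it, zl_it, h] at this
          exact Bool.false_ne_true this.symm
      · rintro ⟨i, -, j1, j2⟩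
        have := (i2a _ j1 j2).2
        rw [xl_it, zl_it] at this
        exact this
    awI := by
      intro y hy1 hy2
      constructor
      · intro h
        obtain ⟨j, j1, j2⟩ := c9 y hy1 hy2
        rcases Nat.even_or_odd' j with ⟨i, rfl | rfl⟩
        · rw [pw_even] at j2
          rw [pw_odd] at j1
          obtain ⟨i', hi', e⟩ := horb i
          exact ⟨i', hi', by show yw ((nuD P)^[q + i'] d) ≤ y; rw [e]; exact j1, by
            show y < yu ((nuD P)^[q + i'] d); rw [e]; exact j2⟩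
        · exfalso
          rw [pw_odd] at j2
          rw [show 2 * i + 1 + 1 = 2 * (i + 1) by ring, pw_even, it_succ] at j1
          have := (i2d _ j1 j2).2
          rw [xl_it, zl_it, h] at this
          exact Bool.false_ne_true this.symm
      · rintro ⟨i, -, j1, j2⟩
        have := (i2b _ j1 j2).2
        rw [xl_it, zl_it] at this
        exact this
    all := by
      intro e hx hz a1 a2
      have hx' : xl e = xl d := hx
      have hz' : zl e = zl d := hz
      have hW' := wd_pw hM h3 (e := e) hlohi (by rw [hx', hz']; exact hon)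
        (by rw [hx', hz']; exact hlo') (by rw [hx', hz']; exact hhi') a1 a2
      obtain ⟨i, -, i1, i2⟩ := hW'.exists_start 0
      obtain ⟨j, -, j1, j2⟩ := hW.exists_start 0
      have hm : ∃ i' j', (nuD P)^[i'] e = (nuD P)^[j'] d := by
        rcases start_eq hM hx' hz' i1 i2 j1 j2 with ⟨i', j', -, -, h⟩ | ⟨i', j', -, -, h⟩
        · exact ⟨i', j', h⟩
        · exact ⟨i', j', h⟩
      obtain ⟨i', j', h⟩ := hm
      have hpos : 0 < orderOf (nuD P) := orderOf_pos _
      have hback : (nuD P)^[orderOf (nuD P) * i' - i'] ((nuD P)^[i'] e) = e := by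
        rw [← Function.iterate_add_apply, Nat.sub_add_cancel (Nat.le_mul_of_pos_left _ hpos),
          Equiv.Perm.iterate_eq_pow, pow_mul, pow_orderOf_eq_one, one_pow]
        rfl
      rw [h, ← Function.iterate_add_apply] at hback
      obtain ⟨k, hk, e1⟩ := horb (orderOf (nuD P) * i' - i' + j')
      exact ⟨k, hk, e1.trans hback⟩ }, ?_⟩
  obtain ⟨i, hi, e⟩ := horb 0
  exact ⟨i, hi, e⟩

end Pool.Agent.MP42D
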