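import Pool.Agent.MP42.D.LineW

/-!
# Piece W3: the action of the walls of a corner (owner helper89)
-/

set_option autoImplicit false
set_option linter.unusedSectionVars false

namespace Pool.Agent.MP42D

open Pool.Agent.Helper55.UNF

namespace KD

variable {τ : Type*} {K : KD τ} {on : ℤ → Bool}

lemma kn_3 (h : K.Ok on) (y : ℤ) (s : Fin 4) : (K.kn s y 3 && !K.bB s y 3) = K.cn s y ∧
    (K.kn s y 3 && !K.aA s y 3) = K.cn s y := by
  rw [K.kn_mid _ _ (by omega) (by omega), K.bB_mid _ _ (by omega), K.aA_mid _ _ (by omega)]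
  cases hc : K.cn s y
  · simp
  · rw [(h.cn_ok s y hc).2.2.2.1 s]
    simp

lemma ks_3 (h : K.Ok on) (y : ℤ) (s : Fin 4) : (K.ks s y 3 && !K.aB s y 3) = K.cs s y ∧
    (K.ks s y 3 && !K.bA s y 3) = K.cs s y := by
  rw [K.ks_mid _ _ (by omega) (by omega), K.aB_mid _ _ (by omega), K.bA_mid _ _ (by omega)]
  cases hc : K.cs s y
  · simp
  · rw [(h.cs_ok s y hc).2.2.2.1 s]
    simp

lemma cn_03 (h : K.Ok on) (y : ℤ) : K.cn 0 y = false ∧ K.cn 3 y = false := by
  constructor
  · cases hc : K.cn 0 y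
    · rfl
    · rcases (h.cn_ok 0 y hc).2.2.1 with h1 | h1 <;> exact absurd h1 (by decide)
  · cases hc : K.cn 3 y
    · rfl
    · rcases (h.cn_ok 3 y hc).2.2.1 with h1 | h1 <;> exact absurd h1 (by decide)

lemma cs_03 (h : K.Ok on) (y : ℤ) : K.cs 0 y = false ∧ K.cs 3 y = false := by
  constructor
  · cases hc : K.cs 0 y
    · rfl
    · rcases (h.cs_ok 0 y hc).2.2.1 with h1 | h1 <;> exact absurd h1 (by decide)
  · cases hc : K.cs 3 y
    · rfl
    · rcases (h.cs_ok 3 y hc).2.2.1 with h1 | h1 <;> exact absurd h1 (by decide)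

/-- at the ends of a B wall no track runs on the B side -/
lemma noB (h : K.Ok on) {y : ℤ} (hb : K.bw (y - 1) ≠ K.bw y) (s : Fin 4) :
    (K.V s y && !K.st y) = false := by
  cases hV : K.V s y
  · rfl
  · have ho : on (y - 1) = true ∧ on y = true := by
      unfold V at hV
      rw [Bool.or_eq_true] at hV
      rcases hV with h1 | h1
      · obtain ⟨-, a, b⟩ := h.M_on s _ h1
        rw [show y - 1 + 1 = y by ring] at b
        exact ⟨a, b⟩
      · obtain ⟨a, b, -⟩ := h.M_on s _ h1
        exact ⟨a, b⟩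
    rcases h.ev y ho.1 ho.2 with h1 | h1
    · have : K.st y = true := by
        unfold st
        rw [if_neg (by rw [h1]; simp), if_pos hb]
      rw [this]; rfl
    · exact absurd h1 hb

/-- at the ends of an A wall no track runs on the A side -/
lemma noA {y : ℤ} (hb : K.aw (y - 1) ≠ K.aw y) (s : Fin 4) : (K.V s y && K.st y) = false := by
  have : K.st y = false := by
    unfold st
    rw [if_pos hb]
  rw [this, Bool.and_false]

end KD

namespace LV

variable {τ : Type*} {K : KD τ} {k : ℕ} {on : ℤ → Bool} (L : LV K k on) (h : K.Ok on) (hk : 20 ≤ k)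

include h hk

lemma bsB_mid {y : ℤ} (hb : K.bw y = true) {j : ℕ} (h1 : 1 ≤ j) (h6 : j < 6) (h3 : j ≠ 3) :
    L.bsB y j = L.bsB y (j + 1) := by
  rcases (L.wallB h hk hb (j := j) (by omega)).2 with ⟨-, h2⟩ | ⟨-, h2⟩
  · rw [lst_none] at h2
    · exact h2
    · intro s
      rw [K.kn_mid _ _ (by omega) (by omega)]
      simp [h3]
  · rw [lst_none] at h2
    · exact h2.symm
    · intro s
      rw [K.ks_mid _ _ (by omega) (by omega)]
      simp [h3]

lemma bsA_mid {y : ℤ} (hb : K.aw y = true) {j : ℕ} (h1 : 1 ≤ j) (h6 : j < 6) (h3 : j ≠ 3) :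
    L.bsA y j = L.bsA y (j + 1) := by
  rcases (L.wallA h hk hb (j := j) (by omega)).2 with ⟨-, h2⟩ | ⟨-, h2⟩
  · rw [lst_none] at h2
    · exact h2
    · intro s
      rw [K.ks_mid _ _ (by omega) (by omega)]
      simp [h3]
  · rw [lst_none] at h2
    · exact h2.symm
    · intro s
      rw [K.kn_mid _ _ (by omega) (by omega)]
      simp [h3]

variable (V : K.Val on) (hC : ∀ s y, V.C s y = L.cv s y)

include hC

lemma ctB {y : ℤ} (hb : K.bw y = true) :
    Act ((K.withV V).ct y).reverse (L.bsB y 6) (L.bsB y 1) := by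
  have e1 : L.bsB y 6 = L.bsB y 4 := by
    rw [← L.bsB_mid h hk hb (j := 5) (by omega) (by omega) (by omega),
      ← L.bsB_mid h hk hb (j := 4) (by omega) (by omega) (by omega)]
  have e2 : L.bsB y 1 = L.bsB y 3 := by
    rw [L.bsB_mid h hk hb (j := 1) (by omega) (by omega) (by omega),
      L.bsB_mid h hk hb (j := 2) (by omega) (by omega) (by omega)]
  rw [e1, e2]
  obtain ⟨n0, n3⟩ := K.cn_03 h y
  obtain ⟨s0, s3⟩ := K.cs_03 h y
  rcases (L.wallB h hk hb (j := 3) (by omega)).2 with ⟨h1, h2⟩ | ⟨h1, h2⟩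
  · have hcs : ∀ s, K.cs s y = false := fun s => by
      have := h1 s
      rw [K.ks_mid _ _ (by omega) (by omega)] at this
      simpa using this
    have e : lst (fun s => K.kn s y 3 && !K.bB s y 3) (fun s => L.lam y (3 * k + nC s)) =
        opt (K.cn 1 y) (V.C 1 y) ++ opt (K.cn 2 y) (V.C 2 y) := by
      have e3 : (fun s => K.kn s y 3 && !K.bB s y 3) = fun s => K.cn s y :=
        funext fun s => (K.kn_3 h y s).1
      rw [e3, lst_congr (g := fun s => V.C s y) (fun s hs => by rw [hC, L.cv_n h hs]), lst_eq,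
        n0, n3]
      show [] ++ _ ++ _ ++ [] = _
      simp
    rw [e] at h2
    rw [h2]
    show Act (opt (K.cn 1 y) (true, (K.tC 1 y, V.C 1 y)) ++ opt (K.cs 2 y) (false, (K.tC 2 y,
      V.C 2 y)) ++ opt (K.cn 2 y) (true, (K.tC 2 y, V.C 2 y)) ++ opt (K.cs 1 y) (false, (K.tC 1 y,
      V.C 1 y))).reverse _ _
    rw [hcs, hcs]
    cases K.cn 1 y <;> cases K.cn 2 y <;> exact rfl
  · have hcn : ∀ s, K.cn s y = false := fun s => by
      have := h1 s
      rw [K.kn_mid _ _ (by omega) (by omega)] at this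
      simpa using this
    have e : lst (fun s => K.ks s y 3 && !K.aB s y 3) (fun s => L.lam y (3 * k + sC s)) =
        opt (K.cs 1 y) (V.C 1 y) ++ opt (K.cs 2 y) (V.C 2 y) := by
      have e3 : (fun s => K.ks s y 3 && !K.aB s y 3) = fun s => K.cs s y :=
        funext fun s => (K.ks_3 h y s).1
      rw [e3, lst_congr (g := fun s => V.C s y) (fun s hs => by rw [hC, L.cv_s h hs]), lst_eq,
        s0, s3]
      show [] ++ _ ++ _ ++ [] = _
      simp
    rw [e] at h2
    rw [show L.bsB y 4 = _ from h2]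
    show Act (opt (K.cn 1 y) (true, (K.tC 1 y, V.C 1 y)) ++ opt (K.cs 2 y) (false, (K.tC 2 y,
      V.C 2 y)) ++ opt (K.cn 2 y) (true, (K.tC 2 y, V.C 2 y)) ++ opt (K.cs 1 y) (false, (K.tC 1 y,
      V.C 1 y))).reverse _ _
    rw [hcn, hcn]
    cases K.cs 1 y <;> cases K.cs 2 y
    all_goals
      first
        | exact rfl
        | exact ⟨_, rfl, rfl⟩
        | exact ⟨_, rfl, _, rfl, rfl⟩

lemma ctA {y : ℤ} (hb : K.aw y = true) :
    Act ((K.withV V).ct y) (L.bsA y 1) (L.bsA y 6) := by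
  have e1 : L.bsA y 6 = L.bsA y 4 := by
    rw [← L.bsA_mid h hk hb (j := 5) (by omega) (by omega) (by omega),
      ← L.bsA_mid h hk hb (j := 4) (by omega) (by omega) (by omega)]
  have e2 : L.bsA y 1 = L.bsA y 3 := by
    rw [L.bsA_mid h hk hb (j := 1) (by omega) (by omega) (by omega),
      L.bsA_mid h hk hb (j := 2) (by omega) (by omega) (by omega)]
  rw [e1, e2]
  obtain ⟨n0, n3⟩ := K.cn_03 h y
  obtain ⟨s0, s3⟩ := K.cs_03 h y
  rcases (L.wallA h hk hb (j := 3) (by omega)).2 with ⟨h1, h2⟩ | ⟨h1, h2⟩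
  · have hcn : ∀ s, K.cn s y = false := fun s => by
      have := h1 s
      rw [K.kn_mid _ _ (by omega) (by omega)] at this
      simpa using this
    have e : lst (fun s => K.ks (Fin.rev s) y 3 && !K.bA (Fin.rev s) y 3)
        (fun s => L.lam y (3 * k + nC s)) =
        opt (K.cs 2 y) (V.C 2 y) ++ opt (K.cs 1 y) (V.C 1 y) := by
      have e3 : (fun s => K.ks (Fin.rev s) y 3 && !K.bA (Fin.rev s) y 3) =
          fun s => K.cs (Fin.rev s) y := funext fun s => (K.ks_3 h y _).2
      rw [e3, lst_congr (g := fun s => V.C (Fin.rev s) y)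
        (fun s hs => by rw [hC, L.cv_s h hs, sC_rev]), lst_eq]
      show opt (K.cs 3 y) (V.C 3 y) ++ opt (K.cs 2 y) (V.C 2 y) ++ opt (K.cs 1 y) (V.C 1 y) ++
        opt (K.cs 0 y) (V.C 0 y) = _
      rw [s0, s3]
      show [] ++ _ ++ _ ++ [] = _
      simp
    rw [e] at h2
    rw [h2]
    show Act (opt (K.cn 1 y) (true, (K.tC 1 y, V.C 1 y)) ++ opt (K.cs 2 y) (false, (K.tC 2 y,
      V.C 2 y)) ++ opt (K.cn 2 y) (true, (K.tC 2 y, V.C 2 y)) ++ opt (K.cs 1 y) (false, (K.tC 1 y,
      V.C 1 y))) _ _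
    rw [hcn, hcn]
    cases K.cs 1 y <;> cases K.cs 2 y
    all_goals
      first
        | exact rfl
        | exact ⟨_, rfl, rfl⟩
        | exact ⟨_, rfl, _, rfl, rfl⟩
  · have hcs : ∀ s, K.cs s y = false := fun s => by
      have := h1 s
      rw [K.ks_mid _ _ (by omega) (by omega)] at this
      simpa using this
    have e : lst (fun s => K.kn (Fin.rev s) y 3 && !K.aA (Fin.rev s) y 3)
        (fun s => L.lam y (3 * k + sC s)) =
        opt (K.cn 2 y) (V.C 2 y) ++ opt (K.cn 1 y) (V.C 1 y) := by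
      have e3 : (fun s => K.kn (Fin.rev s) y 3 && !K.aA (Fin.rev s) y 3) =
          fun s => K.cn (Fin.rev s) y := funext fun s => (K.kn_3 h y _).2
      rw [e3, lst_congr (g := fun s => V.C (Fin.rev s) y)
        (fun s hs => by rw [hC, L.cv_n h hs, nC_rev]), lst_eq]
      show opt (K.cn 3 y) (V.C 3 y) ++ opt (K.cn 2 y) (V.C 2 y) ++ opt (K.cn 1 y) (V.C 1 y) ++
        opt (K.cn 0 y) (V.C 0 y) = _
      rw [n0, n3]
      show [] ++ _ ++ _ ++ [] = _
      simp
    rw [e] at h2
    rw [show L.bsA y 4 = _ from h2]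
    show Act (opt (K.cn 1 y) (true, (K.tC 1 y, V.C 1 y)) ++ opt (K.cs 2 y) (false, (K.tC 2 y,
      V.C 2 y)) ++ opt (K.cn 2 y) (true, (K.tC 2 y, V.C 2 y)) ++ opt (K.cs 1 y) (false, (K.tC 1 y,
      V.C 1 y))) _ _
    rw [hcs, hcs]
    cases K.cn 1 y <;> cases K.cn 2 y <;> exact rfl

omit hC in
lemma joinB {y : ℤ} (hb1 : K.bw (y - 1) = true) (hb : K.bw y = true) :
    L.bsB y 1 = L.bsB (y - 1) 6 := by
  have e1 : L.bsB y 1 = L.bsB y 0 := by
    rw [L.stopB h hk hb, lst_none]
    · rfl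
    · intro s
      rw [hb1]
      simp
  have e2 : L.bsB (y - 1) 6 = L.bsB (y - 1) 7 := by
    rw [L.startB h hk hb1, lst_none]
    · rfl
    · intro s
      rw [show y - 1 + 1 = y by ring, hb]
      simp
  have e3 : K.bdB (y - 1) 7 = K.bdB y 0 := by
    funext s
    unfold KD.bdB
    rw [show y - 1 + 1 = y by ring]
    simp
  rw [e1, e2]
  unfold bsB
  rw [L.cB_1 y hb1 hb, e3, Nat.zero_mul]

omit hC in
lemma joinA {y : ℤ} (hb1 : K.aw (y - 1) = true) (hb : K.aw y = true) :
    L.bsA y 1 = L.bsA (y - 1) 6 := by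
  have e1 : L.bsA y 1 = L.bsA y 0 := by
    rw [L.stopA h hk hb, lst_none]
    · rfl
    · intro s
      rw [hb1]
      simp
  have e2 : L.bsA (y - 1) 6 = L.bsA (y - 1) 7 := by
    rw [L.startA h hk hb1, lst_none]
    · rfl
    · intro s
      rw [show y - 1 + 1 = y by ring, hb]
      simp
  have e3 : (fun s => K.bdA (y - 1) 7 (Fin.rev s)) = fun s => K.bdA y 0 (Fin.rev s) := by
    funext s
    unfold KD.bdA
    rw [show y - 1 + 1 = y by ring]
    simp
  rw [e1, e2]
  unfold bsA
  rw [L.cA_1 y hb1 hb, e3, Nat.zero_mul]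

omit h hk hC L in
lemma cts_succ {τ' : Type*} (K' : KD τ') (y : ℤ) (n : ℕ) :
    K'.cts y (n + 1) = K'.cts y n ++ K'.ct (y + n) := by
  unfold KD.cts
  rw [List.range_succ, List.flatMap_append]
  simp

lemma ctsB {u : ℤ} (n : ℕ) (hb : ∀ y, u ≤ y → y < u + (n + 1 : ℕ) → K.bw y = true) :
    Act ((K.withV V).cts u (n + 1)).reverse (L.bsB (u + n) 6) (L.bsB u 1) := by
  induction n with
  | zero =>
    have := L.ctB h hk V hC (hb u le_rfl (by push_cast; omega))
    rw [cts_succ]
    simpa [KD.cts] using this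
  | succ n ih =>
    rw [cts_succ, List.reverse_append]
    refine Act.append (L.ctB h hk V hC (hb _ (by push_cast; omega) (by push_cast; omega))) ?_
    have hj := L.joinB h hk (y := u + ((n + 1 : ℕ) : ℤ)) (hb _ (by push_cast; omega)
      (by push_cast; omega)) (hb _ (by push_cast; omega) (by push_cast; omega))
    rw [hj, show u + ((n + 1 : ℕ) : ℤ) - 1 = u + n by push_cast; ring]
    exact ih fun y h1 h2 => hb y h1 (by push_cast at h2 ⊢; omega)

lemma ctsA {w : ℤ} (n : ℕ) (hb : ∀ y, w ≤ y → y < w + (n + 1 : ℕ) → K.aw y = true) :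
    Act ((K.withV V).cts w (n + 1)) (L.bsA w 1) (L.bsA (w + n) 6) := by
  induction n with
  | zero =>
    have := L.ctA h hk V hC (hb w le_rfl (by push_cast; omega))
    rw [cts_succ]
    simpa [KD.cts] using this
  | succ n ih =>
    rw [cts_succ]
    refine Act.append (ih fun y h1 h2 => hb y h1 (by push_cast at h2 ⊢; omega)) ?_
    have hj := L.joinA h hk (y := w + ((n + 1 : ℕ) : ℤ)) (hb _ (by push_cast; omega)
      (by push_cast; omega)) (hb _ (by push_cast; omega) (by push_cast; omega))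
    rw [show w + ((n + 1 : ℕ) : ℤ) - 1 = w + n by push_cast; ring] at hj
    rw [← hj]
    exact L.ctA h hk V hC (hb _ (by push_cast; omega) (by push_cast; omega))

variable (hV : ∀ s y, V.M s y = L.mv s y)

include hV

/-- the action of the walls of a corner on the B side -/
theorem cornerB {u w : ℤ} (huw : u < w) (hb : ∀ y, u ≤ y → y < w → K.bw y = true)
    (hu : K.bw (u - 1) = false) (hw : K.bw w = false) :
    Act ((K.withV V).xw u w) (L.cB (w - 1) (7 * k)) (L.cB u 0) := by
  have hbu := hb u le_rfl huw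
  have hbw := hb (w - 1) (by omega) (by omega)
  obtain ⟨n, hn⟩ : ∃ n : ℕ, w = u + (n + 1 : ℕ) := ⟨(w - u - 1).toNat, by push_cast; omega⟩
  unfold KD.xw
  rw [if_neg (by omega), if_pos huw, show (w - u).toNat = n + 1 by omega]
  have e1 : L.cB (w - 1) (7 * k) = L.bsB (w - 1) 7 := by
    unfold bsB
    rw [cnt_none, drp_zero]
    intro s
    unfold KD.bdB
    rw [if_neg (by omega), if_pos rfl, show w - 1 + 1 = w by ring]
    exact K.noB h (by rw [hbw, hw]; decide) s
  have e2 : L.cB u 0 = L.bsB u 0 := by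
    unfold bsB
    rw [cnt_none, drp_zero, Nat.zero_mul]
    intro s
    unfold KD.bdB
    rw [if_pos rfl]
    exact K.noB h (by rw [hbu, hu]; decide) s
  rw [e1, e2]
  have p1 : Act ((K.withV V).opB w) (L.bsB (w - 1) 7) (L.bsB (w - 1) 6) := by
    have e := L.startB h hk hbw
    rw [show w - 1 + 1 = w by ring, hw] at e
    have e' : (fun s => K.M s w && !K.M s (w - 1) && !false) = fun s => K.M s w && !K.M s (w - 1) :=
      funext fun s => by simp
    rw [e', lst_congr (g := fun s => V.M s w) (fun s _ => (hV s w).symm)] at e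
    rw [e]
    exact act_push (fun s => K.M s w && !K.M s (w - 1)) (fun s => K.tM s w) (fun s => V.M s w) _
  have p2 := L.ctsB h hk V hC (u := u) n (fun y h1 h2 => hb y h1 (by omega))
  rw [show u + (n : ℤ) = w - 1 by rw [hn]; push_cast; ring] at p2
  have p3 : Act ((K.withV V).clB u) (L.bsB u 1) (L.bsB u 0) := by
    have e := L.stopB h hk hbu
    rw [hu] at e
    have e' : (fun s => K.M s (u - 1) && !K.M s u && !false) = fun s => K.M s (u - 1) && !K.M s u :=
      funext fun s => by simp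
    rw [e', lst_congr (g := fun s => V.M s (u - 1)) (fun s _ => (hV s _).symm)] at e
    rw [e]
    exact act_pop (fun s => K.M s (u - 1) && !K.M s u) (fun s => K.tM s (u - 1))
      (fun s => V.M s (u - 1)) _
  exact (p1.append p2).append p3

/-- the action of the walls of a corner on the A side -/
theorem cornerA {u w : ℤ} (hwu : w < u) (ha : ∀ y, w ≤ y → y < u → K.aw y = true)
    (hw : K.aw (w - 1) = false) (hu : K.aw u = false) :
    Act ((K.withV V).xw u w) (L.cA w 0) (L.cA (u - 1) (7 * k)) := by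
  have haw := ha w le_rfl hwu
  have hau := ha (u - 1) (by omega) (by omega)
  obtain ⟨n, hn⟩ : ∃ n : ℕ, u = w + (n + 1 : ℕ) := ⟨(u - w - 1).toNat, by push_cast; omega⟩
  unfold KD.xw
  rw [if_pos hwu, show (u - w).toNat = n + 1 by omega]
  have e1 : L.cA (u - 1) (7 * k) = L.bsA (u - 1) 7 := by
    unfold bsA
    rw [cnt_none, drp_zero]
    intro s
    unfold KD.bdA
    rw [if_neg (by omega), if_pos rfl, show u - 1 + 1 = u by ring]
    exact K.noA (by rw [hau, hu]; decide) _
  have e2 : L.cA w 0 = L.bsA w 0 := by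
    unfold bsA
    rw [cnt_none, drp_zero, Nat.zero_mul]
    intro s
    unfold KD.bdA
    rw [if_pos rfl]
    exact K.noA (by rw [haw, hw]; decide) _
  rw [e1, e2]
  have p1 : Act ((K.withV V).opA w) (L.bsA w 0) (L.bsA w 1) := by
    have e := L.stopA h hk haw
    rw [hw] at e
    have e' : (fun s => K.M (Fin.rev s) (w - 1) && !K.M (Fin.rev s) w && !false) =
        fun s => K.M (Fin.rev s) (w - 1) && !K.M (Fin.rev s) w := funext fun s => by simp
    rw [e', lst_congr (g := fun s => V.M (Fin.rev s) (w - 1)) (fun s _ => (hV _ _).symm)] at e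
    rw [e]
    exact act_push' (fun s => K.M s (w - 1) && !K.M s w) (fun s => K.tM s (w - 1))
      (fun s => V.M s (w - 1)) _
  have p2 := L.ctsA h hk V hC (w := w) n (fun y h1 h2 => ha y h1 (by omega))
  rw [show w + (n : ℤ) = u - 1 by rw [hn]; push_cast; ring] at p2
  have p3 : Act ((K.withV V).clA u) (L.bsA (u - 1) 6) (L.bsA (u - 1) 7) := by
    have e := L.startA h hk hau
    rw [show u - 1 + 1 = u by ring, hu] at e
    have e' : (fun s => K.M (Fin.rev s) u && !K.M (Fin.rev s) (u - 1) && !false) =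
        fun s => K.M (Fin.rev s) u && !K.M (Fin.rev s) (u - 1) := funext fun s => by simp
    rw [e', lst_congr (g := fun s => V.M (Fin.rev s) u) (fun s _ => (hV _ _).symm)] at e
    rw [e]
    exact act_pop' (fun s => K.M s u && !K.M s (u - 1)) (fun s => K.tM s u)
      (fun s => V.M s u) _
  exact (p1.append p2).append p3

end LV

end Pool.Agent.MP42D
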