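import Pool.Agent.MP42.D.App

/-!
# Stage 2: the letters of a line and the slots on the two sides (owner helper89)
-/

set_option autoImplicit false
set_option linter.unusedSectionVars false

namespace Pool.Agent.MP42D

open Pool.Agent.Helper55.UNF

namespace KD

variable {τ : Type*} {K : KD τ} {on : ℤ → Bool}

/-! ### events -/

lemma ev_stop (h : K.Ok on) {s : Fin 4} {y : ℤ} (h1 : K.M s (y - 1) = true)
    (h2 : K.M s y = false) :
    (K.aw (y - 1) = false ∧ K.aw y = true ∧ K.bw (y - 1) = K.bw y ∧ K.st y = false) ∨
    (K.bw (y - 1) = false ∧ K.bw y = true ∧ K.aw (y - 1) = K.aw y ∧ K.st y = true) := by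
  obtain ⟨-, ho1, ho2⟩ := h.M_on s _ h1
  rw [show y - 1 + 1 = y by ring] at ho2
  have hev := h.ev y ho1 ho2
  unfold st
  rcases h.stop s y h1 h2 with ⟨h3, h4⟩ | ⟨h3, h4⟩
  · left
    rw [h3, h4] at hev ⊢
    rcases hev with h5 | h5
    · exact absurd h5 (by decide)
    · exact ⟨rfl, rfl, h5, by simp⟩
  · right
    rw [h3, h4] at hev ⊢
    rcases hev with h5 | h5
    · refine ⟨rfl, rfl, h5, ?_⟩
      rw [if_neg (by rw [h5]; simp), if_pos (by simp)]
    · exact absurd h5 (by decide)

lemma ev_start (h : K.Ok on) {s : Fin 4} {y : ℤ} (h1 : K.M s y = true)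
    (h2 : K.M s (y - 1) = false) :
    (K.aw (y - 1) = true ∧ K.aw y = false ∧ K.bw (y - 1) = K.bw y ∧ K.st y = false) ∨
    (K.bw (y - 1) = true ∧ K.bw y = false ∧ K.aw (y - 1) = K.aw y ∧ K.st y = true) := by
  obtain ⟨ho1, ho2, -⟩ := h.M_on s _ h1
  have hev := h.ev y ho1 ho2
  unfold st
  rcases h.start s y h1 h2 with ⟨h3, h4⟩ | ⟨h3, h4⟩
  · left
    rw [h3, h4] at hev ⊢
    rcases hev with h5 | h5
    · exact absurd h5 (by decide)
    · exact ⟨rfl, rfl, h5, by simp⟩
  · right
    rw [h3, h4] at hev ⊢
    rcases hev with h5 | h5
    · refine ⟨rfl, rfl, h5, ?_⟩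
      rw [if_neg (by rw [h5]; simp), if_pos (by simp)]
    · exact absurd h5 (by decide)

lemma pass_stop (h : K.Ok on) {s s' : Fin 4} {y : ℤ} (h1 : K.M s (y - 1) = true)
    (h2 : K.M s y = false) (h3 : K.M s' y = true) : K.M s' (y - 1) = true := by
  cases h4 : K.M s' (y - 1)
  · exfalso
    rcases ev_stop h h1 h2 with ⟨a1, a2, a3, a4⟩ | ⟨a1, a2, a3, a4⟩ <;>
      rcases ev_start h h3 h4 with ⟨b1, b2, b3, b4⟩ | ⟨b1, b2, b3, b4⟩ <;> simp_all
  · rfl

lemma pass_start (h : K.Ok on) {s s' : Fin 4} {y : ℤ} (h1 : K.M s y = true)
    (h2 : K.M s (y - 1) = false) (h3 : K.M s' (y - 1) = true) : K.M s' y = true := by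
  cases h4 : K.M s' y
  · exfalso
    rcases ev_start h h1 h2 with ⟨a1, a2, a3, a4⟩ | ⟨a1, a2, a3, a4⟩ <;>
      rcases ev_stop h h3 h4 with ⟨b1, b2, b3, b4⟩ | ⟨b1, b2, b3, b4⟩ <;> simp_all
  · rfl

/-! ### the letters of a row -/

lemma kn_0 (s : Fin 4) (y : ℤ) : K.kn s y 0 = (((K.V s y && !K.st y) && !(K.M s y && !K.sd y)) ||
    ((K.M s y && K.sd y) && !(K.V s y && K.st y))) := by
  unfold kn bB aB bA aA
  simp

lemma ks_0 (s : Fin 4) (y : ℤ) : K.ks s y 0 = (((K.V s y && K.st y) && !(K.M s y && K.sd y)) ||
    ((K.M s y && !K.sd y) && !(K.V s y && !K.st y))) := by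
  unfold ks bB aB bA aA
  simp

lemma kn_6 (s : Fin 4) (y : ℤ) : K.kn s y 6 = (((K.M s y && !K.sd y) &&
    !(K.V s (y + 1) && !K.st (y + 1))) ||
    ((K.V s (y + 1) && K.st (y + 1)) && !(K.M s y && K.sd y))) := by
  unfold kn bB aB bA aA
  simp

lemma ks_6 (s : Fin 4) (y : ℤ) : K.ks s y 6 = (((K.M s y && K.sd y) &&
    !(K.V s (y + 1) && K.st (y + 1))) ||
    ((K.V s (y + 1) && !K.st (y + 1)) && !(K.M s y && !K.sd y))) := by
  unfold ks bB aB bA aA
  simp

lemma kn_mid (s : Fin 4) (y : ℤ) {j : ℕ} (h0 : j ≠ 0) (h6 : j ≠ 6) :
    K.kn s y j = (decide (j = 3) && K.cn s y) := by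
  unfold kn
  rw [bB_mid _ _ _ h0, aB_mid _ _ _ h6, bA_mid _ _ _ h0, aA_mid _ _ _ h6]
  generalize (K.M s y && !K.sd y) = u
  generalize (K.M s y && K.sd y) = v
  cases u <;> cases v <;> simp

lemma ks_mid (s : Fin 4) (y : ℤ) {j : ℕ} (h0 : j ≠ 0) (h6 : j ≠ 6) :
    K.ks s y j = (decide (j = 3) && K.cs s y) := by
  unfold ks
  rw [bB_mid _ _ _ h0, aB_mid _ _ _ h6, bA_mid _ _ _ h0, aA_mid _ _ _ h6]
  generalize (K.M s y && !K.sd y) = u
  generalize (K.M s y && K.sd y) = v
  cases u <;> cases v <;> simp

lemma bB_0 (s : Fin 4) (y : ℤ) : K.bB s y 0 = (K.V s y && !K.st y) := by unfold bB; simp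
lemma bA_0 (s : Fin 4) (y : ℤ) : K.bA s y 0 = (K.V s y && K.st y) := by unfold bA; simp
lemma aB_6 (s : Fin 4) (y : ℤ) : K.aB s y 6 = (K.V s (y + 1) && !K.st (y + 1)) := by
  unfold aB; simp
lemma aA_6 (s : Fin 4) (y : ℤ) : K.aA s y 6 = (K.V s (y + 1) && K.st (y + 1)) := by
  unfold aA; simp

/-- the B side of a wall -/
lemma trB (h : K.Ok on) {y : ℤ} {j : ℕ} (hj : j < 7) :
    ((∀ s, K.ks s y j = false) ∧
      Tr (fun s => K.bB s y j) (fun s => K.aB s y j) (fun s => K.kn s y j)) ∨
    ((∀ s, K.kn s y j = false) ∧
      Tr (fun s => K.aB s y j) (fun s => K.bB s y j) (fun s => K.ks s y j)) := by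
  by_cases h0 : j = 0
  · subst h0
    have hV : ∀ s, K.M s y = true → K.V s y = true := fun s hs => by unfold V; rw [hs]; simp
    have hV' : ∀ s, K.V s y = true → K.M s y = false → K.M s (y - 1) = true := by
      intro s h1 h2
      unfold V at h1
      rw [h2, Bool.or_false] at h1
      exact h1
    cases hst : K.st y
    · left
      refine ⟨?_, ?_, ?_, Or.inl ⟨?_, ?_⟩⟩
      · intro s
        have := hV s
        rw [ks_0, hst]
        cases hM : K.M s y <;> cases hsd : K.sd y <;> cases hv : K.V s y <;> simp_all
      · intro s hs
        simp only [aB_mid _ _ _ (show (0 : ℕ) ≠ 6 by omega)] at hs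
        simp only [kn_0, bB_0]
        have := hV s
        cases hM : K.M s y <;> cases hsd : K.sd y <;> cases hv : K.V s y <;> simp_all
      · intro s hs ha
        simp only [aB_mid _ _ _ (show (0 : ℕ) ≠ 6 by omega), bB_0] at hs ha
        simp only [kn_0]
        cases hM : K.M s y <;> cases hsd : K.sd y <;> cases hv : K.V s y <;> simp_all
      · intro s hs
        simp only [kn_0] at hs
        simp only [bB_0]
        have := hV s
        cases hM : K.M s y <;> cases hsd : K.sd y <;> cases hv : K.V s y <;> simp_all
      · intro s s' hs hs'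
        simp only [kn_0] at hs
        simp only [aB_mid _ _ _ (show (0 : ℕ) ≠ 6 by omega)] at hs'
        have hM' : K.M s' y = true := by
          cases hM : K.M s' y
          · simp [hM] at hs'
          · rfl
        have hsd : K.sd y = false := by
          cases hsd : K.sd y
          · rfl
          · simp [hsd] at hs'
        have hM : K.M s y = false := by
          cases hM : K.M s y
          · rfl
          · simp [hM, hsd, hV s hM] at hs
        have hVs : K.V s y = true := by
          cases hv : K.V s y
          · simp [hM, hv] at hs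
          · rfl
        have h1 := hV' s hVs hM
        rcases ev_stop h h1 hM with ⟨a1, a2, a3, a4⟩ | ⟨a1, a2, a3, a4⟩
        · exact h.ordA y s s' (by rw [a1, a2]; decide) (by rw [h1, hM]; decide)
            (pass_stop h h1 hM hM') hM'
        · rw [hst] at a4
          exact absurd a4 (by decide)
    · right
      refine ⟨?_, ?_, ?_, Or.inr ⟨?_, ?_⟩⟩
      · intro s
        have := hV s
        rw [kn_0, hst]
        cases hM : K.M s y <;> cases hsd : K.sd y <;> cases hv : K.V s y <;> simp_all
      · intro s hs
        simp only [bB_0, hst] at hs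
        simp at hs
      · intro s hs ha
        simp only [aB_mid _ _ _ (show (0 : ℕ) ≠ 6 by omega), bB_0] at hs ha
        simp only [ks_0]
        cases hM : K.M s y <;> cases hsd : K.sd y <;> cases hv : K.V s y <;> simp_all
      · intro s
        simp only [bB_0, hst]
        simp
      · intro s s' hs hs' ha
        simp only [aB_mid _ _ _ (show (0 : ℕ) ≠ 6 by omega)] at hs ha
        simp only [ks_0] at hs'
        have hM : K.M s y = true := by
          cases hM : K.M s y
          · simp [hM] at hs
          · rfl
        have hsd : K.sd y = false := by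
          cases hsd : K.sd y
          · rfl
          · simp [hsd] at hs
        have hM' : K.M s' y = false := by
          cases hM : K.M s' y
          · rfl
          · simp [hM, hsd] at ha
        have hVs : K.V s' y = true := by
          cases hv : K.V s' y
          · simp [hM', hv] at hs'
          · rfl
        have h1 := hV' s' hVs hM'
        rcases ev_stop h h1 hM' with ⟨a1, a2, a3, a4⟩ | ⟨a1, a2, a3, a4⟩
        · rw [hst] at a4
          exact absurd a4 (by decide)
        · exact h.ordB y s' s (by rw [a1, a2]; decide) (by rw [h1, hM']; decide)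
            (pass_stop h h1 hM' hM) hM
  · by_cases h6 : j = 6
    · subst h6
      have hy : y + 1 - 1 = y := by ring
      have hV : ∀ s, K.M s y = true → K.V s (y + 1) = true := fun s hs => by
        unfold V; rw [hy, hs]; simp
      have hV' : ∀ s, K.V s (y + 1) = true → K.M s y = false → K.M s (y + 1) = true := by
        intro s h1 h2
        unfold V at h1
        rw [hy, h2, Bool.false_or] at h1
        exact h1
      cases hst : K.st (y + 1)
      · right
        refine ⟨?_, ?_, ?_, Or.inl ⟨?_, ?_⟩⟩
        · intro s
          have := hV s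
          rw [kn_6, hst]
          cases hM : K.M s y <;> cases hsd : K.sd y <;> cases hv : K.V s (y + 1) <;> simp_all
        · intro s hs
          simp only [bB_mid _ _ _ (show (6 : ℕ) ≠ 0 by omega)] at hs
          simp only [ks_6, aB_6]
          have := hV s
          cases hM : K.M s y <;> cases hsd : K.sd y <;> cases hv : K.V s (y + 1) <;> simp_all
        · intro s hs ha
          simp only [bB_mid _ _ _ (show (6 : ℕ) ≠ 0 by omega), aB_6] at hs ha
          simp only [ks_6]
          cases hM : K.M s y <;> cases hsd : K.sd y <;> cases hv : K.V s (y + 1) <;> simp_all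
        · intro s hs
          simp only [ks_6] at hs
          simp only [aB_6]
          have := hV s
          cases hM : K.M s y <;> cases hsd : K.sd y <;> cases hv : K.V s (y + 1) <;> simp_all
        · intro s s' hs hs'
          simp only [ks_6] at hs
          simp only [bB_mid _ _ _ (show (6 : ℕ) ≠ 0 by omega)] at hs'
          have hM' : K.M s' y = true := by
            cases hM : K.M s' y
            · simp [hM] at hs'
            · rfl
          have hsd : K.sd y = false := by
            cases hsd : K.sd y
            · rfl
            · simp [hsd] at hs'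
          have hM : K.M s y = false := by
            cases hM : K.M s y
            · rfl
            · simp [hM, hsd, hV s hM] at hs
          have hVs : K.V s (y + 1) = true := by
            cases hv : K.V s (y + 1)
            · simp [hM, hv] at hs
            · rfl
          have h1 := hV' s hVs hM
          have h2 : K.M s (y + 1 - 1) = false := by rw [hy]; exact hM
          have h3 : K.M s' (y + 1 - 1) = true := by rw [hy]; exact hM'
          rcases ev_start h h1 h2 with ⟨a1, a2, a3, a4⟩ | ⟨a1, a2, a3, a4⟩
          · exact h.ordA (y + 1) s s' (by rw [a1, a2]; decide) (by rw [h1, h2]; decide) h3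
              (pass_start h h1 h2 h3)
          · rw [hst] at a4
            exact absurd a4 (by decide)
      · left
        refine ⟨?_, ?_, ?_, Or.inr ⟨?_, ?_⟩⟩
        · intro s
          have := hV s
          rw [ks_6, hst]
          cases hM : K.M s y <;> cases hsd : K.sd y <;> cases hv : K.V s (y + 1) <;> simp_all
        · intro s hs
          simp only [aB_6, hst] at hs
          simp at hs
        · intro s hs ha
          simp only [bB_mid _ _ _ (show (6 : ℕ) ≠ 0 by omega), aB_6] at hs ha
          simp only [kn_6]
          cases hM : K.M s y <;> cases hsd : K.sd y <;> cases hv : K.V s (y + 1) <;> simp_all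
        · intro s
          simp only [aB_6, hst]
          simp
        · intro s s' hs hs' ha
          simp only [bB_mid _ _ _ (show (6 : ℕ) ≠ 0 by omega)] at hs ha
          simp only [kn_6] at hs'
          have hM : K.M s y = true := by
            cases hM : K.M s y
            · simp [hM] at hs
            · rfl
          have hsd : K.sd y = false := by
            cases hsd : K.sd y
            · rfl
            · simp [hsd] at hs
          have hM' : K.M s' y = false := by
            cases hM : K.M s' y
            · rfl
            · simp [hM, hsd] at ha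
          have hVs : K.V s' (y + 1) = true := by
            cases hv : K.V s' (y + 1)
            · simp [hM', hv] at hs'
            · rfl
          have h1 := hV' s' hVs hM'
          have h2 : K.M s' (y + 1 - 1) = false := by rw [hy]; exact hM'
          have h3 : K.M s (y + 1 - 1) = true := by rw [hy]; exact hM
          rcases ev_start h h1 h2 with ⟨a1, a2, a3, a4⟩ | ⟨a1, a2, a3, a4⟩
          · rw [hst] at a4
            exact absurd a4 (by decide)
          · exact h.ordB (y + 1) s' s (by rw [a1, a2]; decide) (by rw [h1, h2]; decide) h3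
              (pass_start h h1 h2 h3)
    · -- middle rows
      have hb : ∀ s, K.bB s y j = K.aB s y j := fun s => by
        rw [bB_mid _ _ _ h0, aB_mid _ _ _ h6]
      by_cases hcs : ∃ s, K.ks s y j = true
      · right
        obtain ⟨s0, hs0⟩ := hcs
        rw [ks_mid _ _ h0 h6, Bool.and_eq_true] at hs0
        obtain ⟨-, -, -, hM, hcn⟩ := h.cs_ok s0 y hs0.2
        have hbn : ∀ s, K.bB s y j = false := fun s => by
          rw [bB_mid _ _ _ h0, hM]; rfl
        refine ⟨fun s => ?_, ?_, ?_, Or.inr ⟨hbn, ?_⟩⟩
        · rw [kn_mid _ _ h0 h6, hcn, Bool.and_false]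
        · intro s hs
          exact absurd hs (by simp only [hbn]; decide)
        · intro s hs
          exact absurd hs (by simp only [← hb, hbn]; decide)
        · intro s s' hs
          exact absurd hs (by simp only [← hb, hbn]; decide)
      · left
        push Not at hcs
        have hks : ∀ s, K.ks s y j = false := fun s => by
          have := hcs s
          simpa using this
        refine ⟨hks, ?_, ?_, ?_⟩
        · intro s hs
          have hs' : K.bB s y j = true := by rw [hb]; exact hs
          refine ⟨hs', ?_⟩
          simp only [kn_mid _ _ h0 h6]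
          cases hc : K.cn s y
          · rw [Bool.and_false]
          · exfalso
            obtain ⟨-, -, -, hM, -⟩ := h.cn_ok s y hc
            rw [bB_mid _ _ _ h0, hM] at hs'
            simp at hs'
        · intro s hs ha
          rw [← hb, hs] at ha
          exact absurd ha (by decide)
        · by_cases hcn : ∃ s, K.kn s y j = true
          · right
            obtain ⟨s0, hs0⟩ := hcn
            rw [kn_mid _ _ h0 h6, Bool.and_eq_true] at hs0
            obtain ⟨-, -, -, hM, -⟩ := h.cn_ok s0 y hs0.2
            have hbn : ∀ s, K.bB s y j = false := fun s => by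
              rw [bB_mid _ _ _ h0, hM]; rfl
            refine ⟨fun s => by rw [← hb, hbn], ?_⟩
            intro s s' hs
            exact absurd hs (by simp only [hbn]; decide)
          · left
            push Not at hcn
            exact ⟨fun s hs => absurd hs (hcn s), fun s s' hs => absurd hs (hcn s)⟩

lemma sd_A {y : ℤ} (ha : K.aw y = true) : K.sd y = false := by
  unfold sd; rw [ha]; simp

/-- the A side of a wall, with the slots in the reverse order -/
lemma trA (h : K.Ok on) {y : ℤ} (ha : K.aw y = true) {j : ℕ} (hj : j < 7) :
    ((∀ s, K.kn s y j = false) ∧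
      Tr (fun s => K.bA (Fin.rev s) y j) (fun s => K.aA (Fin.rev s) y j)
        (fun s => K.ks (Fin.rev s) y j)) ∨
    ((∀ s, K.ks s y j = false) ∧
      Tr (fun s => K.aA (Fin.rev s) y j) (fun s => K.bA (Fin.rev s) y j)
        (fun s => K.kn (Fin.rev s) y j)) := by
  have hsd := sd_A ha
  by_cases h0 : j = 0
  · subst h0
    have haA : ∀ s, K.aA s y 0 = false := fun s => by
      rw [aA_mid _ _ _ (show (0 : ℕ) ≠ 6 by omega), hsd, Bool.and_false]
    have hV : ∀ s, K.M s y = true → K.V s y = true := fun s hs => by unfold V; rw [hs]; simp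
    cases hst : K.st y
    · right
      have hbA : ∀ s, K.bA s y 0 = false := fun s => by rw [bA_0, hst, Bool.and_false]
      refine ⟨?_, ?_, ?_, Or.inr ⟨fun s => hbA _, ?_⟩⟩
      · intro s
        have := hV s
        rw [ks_0, hst, hsd]
        cases hM : K.M s y <;> cases hv : K.V s y <;> simp_all
      · intro s hs
        simp only [hbA] at hs
        exact absurd hs (by decide)
      · intro s hs
        simp only [haA] at hs
        exact absurd hs (by decide)
      · intro s s' hs
        simp only [haA] at hs
        exact absurd hs (by decide)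
    · left
      refine ⟨?_, ?_, ?_, Or.inr ⟨fun s => haA _, ?_⟩⟩
      · intro s
        have := hV s
        rw [kn_0, hst, hsd]
        cases hM : K.M s y <;> cases hv : K.V s y <;> simp_all
      · intro s hs
        simp only [haA] at hs
        exact absurd hs (by decide)
      · intro s hs _
        simp only [bA_0, hst, Bool.and_true] at hs
        simp only [ks_0, hst, hsd, hs]
        simp
      · intro s s' _ hs' hb
        exfalso
        simp only [bA_0, hst, Bool.and_true] at hb
        simp only [ks_0, hst, hsd, hb] at hs'
        have := hV (Fin.rev s')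
        cases hM : K.M (Fin.rev s') y <;> simp_all
  · by_cases h6 : j = 6
    · subst h6
      have hy : y + 1 - 1 = y := by ring
      have hbA : ∀ s, K.bA s y 6 = false := fun s => by
        rw [bA_mid _ _ _ (show (6 : ℕ) ≠ 0 by omega), hsd, Bool.and_false]
      have hV : ∀ s, K.M s y = true → K.V s (y + 1) = true := fun s hs => by
        unfold V; rw [hy, hs]; simp
      cases hst : K.st (y + 1)
      · left
        have haA : ∀ s, K.aA s y 6 = false := fun s => by rw [aA_6, hst, Bool.and_false]
        refine ⟨?_, ?_, ?_, Or.inr ⟨fun s => haA _, ?_⟩⟩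
        · intro s
          have := hV s
          rw [kn_6, hst, hsd]
          cases hM : K.M s y <;> cases hv : K.V s (y + 1) <;> simp_all
        · intro s hs
          simp only [haA] at hs
          exact absurd hs (by decide)
        · intro s hs
          simp only [hbA] at hs
          exact absurd hs (by decide)
        · intro s s' hs
          simp only [hbA] at hs
          exact absurd hs (by decide)
      · right
        refine ⟨?_, ?_, ?_, Or.inr ⟨fun s => hbA _, ?_⟩⟩
        · intro s
          have := hV s
          rw [ks_6, hst, hsd]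
          cases hM : K.M s y <;> cases hv : K.V s (y + 1) <;> simp_all
        · intro s hs
          simp only [hbA] at hs
          exact absurd hs (by decide)
        · intro s hs _
          simp only [aA_6, hst, Bool.and_true] at hs
          simp only [kn_6, hst, hsd, hs]
          simp
        · intro s s' _ hs' hb
          exfalso
          simp only [aA_6, hst, Bool.and_true] at hb
          simp only [kn_6, hst, hsd, hb] at hs'
          have := hV (Fin.rev s')
          cases hM : K.M (Fin.rev s') y <;> simp_all
    · have hbA : ∀ s, K.bA s y j = false := fun s => by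
        rw [bA_mid _ _ _ h0, hsd, Bool.and_false]
      have haA : ∀ s, K.aA s y j = false := fun s => by
        rw [aA_mid _ _ _ h6, hsd, Bool.and_false]
      by_cases hcs : ∃ s, K.ks s y j = true
      · left
        obtain ⟨s0, hs0⟩ := hcs
        rw [ks_mid _ _ h0 h6, Bool.and_eq_true] at hs0
        obtain ⟨-, -, -, hM, hcn⟩ := h.cs_ok s0 y hs0.2
        refine ⟨fun s => ?_, ?_, ?_, Or.inr ⟨fun s => haA _, ?_⟩⟩
        · rw [kn_mid _ _ h0 h6, hcn, Bool.and_false]
        · intro s hs
          simp only [haA] at hs
          exact absurd hs (by decide)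
        · intro s hs
          simp only [hbA] at hs
          exact absurd hs (by decide)
        · intro s s' hs
          simp only [hbA] at hs
          exact absurd hs (by decide)
      · right
        push Not at hcs
        have hks : ∀ s, K.ks s y j = false := fun s => by
          have := hcs s
          simpa using this
        refine ⟨hks, ?_, ?_, Or.inr ⟨fun s => hbA _, ?_⟩⟩
        · intro s hs
          simp only [hbA] at hs
          exact absurd hs (by decide)
        · intro s hs
          simp only [haA] at hs
          exact absurd hs (by decide)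
        · intro s s' hs
          simp only [haA] at hs
          exact absurd hs (by decide)

end KD

/-! ### columns and rows -/

lemma nC_rev (s : Fin 4) : nC (Fin.rev s) = sC s := by
  revert s; decide

lemma sC_rev (s : Fin 4) : sC (Fin.rev s) = nC s := by
  revert s; decide

/-- the letters of a row in the columns `nC`, each is on top of the next stack -/
lemma row_n {k : ℕ} (hk : 7 ≤ k) {q : Fin 4 → Bool} {c : ℕ → ℕ → Prop} {lam : ℕ → Prop}
    (h1 : ∀ t < k, (∃ s, q s = true ∧ t = nC s) → c t = psh (lam t) (c (t + 1)))
    (h2 : ∀ t < k, (¬ ∃ s, q s = true ∧ t = nC s) → c (t + 1) = c t) :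
    c 0 = app (lst q fun s => lam (nC s)) (c k) := by
  have e : ∀ s : Fin 4, c (nC s) = app (opt (q s) (lam (nC s))) (c (nC s + 1)) := by
    intro s
    have hs := nC_le s
    cases hq : q s
    · rw [h2 (nC s) (by omega)]
      · rfl
      · rintro ⟨s', h3, h4⟩
        rw [nC_inj h4, h3] at hq
        exact absurd hq (by decide)
    · exact h1 (nC s) (by omega) ⟨s, hq, rfl⟩
  have lowz : ∀ t, t ≤ 3 → c t = c 0 := by
    intro t
    induction t with
    | zero => intro _; rfl
    | succ t ih =>
      intro ht
      rw [h2 t (by omega), ih (by omega)]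
      rintro ⟨s, -, h4⟩
      have := three_le_nC s
      omega
  have high : ∀ t, 7 ≤ t → t ≤ k → c t = c 7 := by
    intro t ht
    induction t, ht using Nat.le_induction with
    | base => intro _; rfl
    | succ t ht ih =>
      intro htk
      rw [h2 t (by omega), ih (by omega)]
      rintro ⟨s, -, h4⟩
      have := nC_le s
      omega
  have e0 := e 0
  have e1 := e 1
  have e2 := e 2
  have e3 := e 3
  have n0 : nC 0 = 3 := rfl
  have n1 : nC 1 = 4 := rfl
  have n2 : nC 2 = 5 := rfl
  have n3 : nC 3 = 6 := rfl
  rw [n0] at e0
  rw [n1] at e1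
  rw [n2] at e2
  rw [n3] at e3
  rw [← lowz 3 le_rfl, high k hk le_rfl, e0, e1, e2, e3, lst_eq, app_append, app_append, app_append]
  rfl

/-- the letters of a row in the columns `sC` -/
lemma row_s {k : ℕ} (hk : 7 ≤ k) {q : Fin 4 → Bool} {c : ℕ → ℕ → Prop} {lam : ℕ → Prop}
    (h1 : ∀ t < k, (∃ s, q s = true ∧ t = sC s) → c (t + 1) = psh (lam t) (c t))
    (h2 : ∀ t < k, (¬ ∃ s, q s = true ∧ t = sC s) → c (t + 1) = c t) :
    c k = app (lst q fun s => lam (sC s)) (c 0) := by
  have e : ∀ s : Fin 4, c (sC s + 1) = app (opt (q s) (lam (sC s))) (c (sC s)) := by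
    intro s
    have hs := sC_le s
    cases hq : q s
    · rw [h2 (sC s) (by omega)]
      · rfl
      · rintro ⟨s', h3, h4⟩
        rw [sC_inj h4, h3] at hq
        exact absurd hq (by decide)
    · exact h1 (sC s) (by omega) ⟨s, hq, rfl⟩
  have lowz : ∀ t, t ≤ 3 → c t = c 0 := by
    intro t
    induction t with
    | zero => intro _; rfl
    | succ t ih =>
      intro ht
      rw [h2 t (by omega), ih (by omega)]
      rintro ⟨s, -, h4⟩
      have := three_le_sC s
      omega
  have high : ∀ t, 7 ≤ t → t ≤ k → c t = c 7 := by
    intro t ht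
    induction t, ht using Nat.le_induction with
    | base => intro _; rfl
    | succ t ht ih =>
      intro htk
      rw [h2 t (by omega), ih (by omega)]
      rintro ⟨s, -, h4⟩
      have := sC_le s
      omega
  have e0 := e 0
  have e1 := e 1
  have e2 := e 2
  have e3 := e 3
  have n0 : sC 0 = 6 := rfl
  have n1 : sC 1 = 5 := rfl
  have n2 : sC 2 = 4 := rfl
  have n3 : sC 3 = 3 := rfl
  rw [n0] at e0
  rw [n1] at e1
  rw [n2] at e2
  rw [n3] at e3
  rw [← lowz 3 le_rfl, high k hk le_rfl, e0, e1, e2, e3, lst_eq, app_append, app_append, app_append]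
  rfl

end Pool.Agent.MP42D
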