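import Pool.Agent.MP42.G.Main0

/-!
# Stage 2: the stack of the strands of a band (owner helper89)

For a junction certificate with `Words`, invariant predicates (`Inv`, `Eq2`) give for every line
`q = (r, x)` of a rim an infinite stack `c q : ℕ → Prop`, the values of the strands over the line,
index `0` = top.  A letter `n` pushes its value, a letter `s` pops its value; far down all stacks of
a rim have one constant value.
-/

set_option autoImplicit false
set_option linter.unusedSectionVars false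

namespace Pool.Agent.MP42D

open Pool.Agent.Helper55.UNF Pool.Agent.Helper55.UNF.GridSolid Pool.Agent.MP42G
open Pool.Agent.MP42G.JCert

variable {P : GridSolid} {k : ℕ} {C : JCert P k} {ψ χ : P.Facet → ℕ → ℕ → Prop}

/-- the item `m` of the stack at `q` is opened at `q'`, `n` steps before -/
structure Op (C : JCert P k) (q : P.FSt × ℕ) (m : ℕ) (q' : P.FSt × ℕ) (n : ℕ) : Prop where
  ok : Ok C q'
  wd : C.wd q'.1 q'.2 = Ln.n
  pos : 1 ≤ n
  it : (nx k)^[n] q' = q
  sum : C.wsum q' n = m + 1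
  ge : ∀ j, 1 ≤ j → j ≤ n → 1 ≤ C.wsum q' j

lemma nx_inj {q q' : P.FSt × ℕ} (h : q.2 < k) (h' : q'.2 < k) (e : nx k q = nx k q') : q = q' := by
  obtain ⟨s, x⟩ := q
  obtain ⟨s', x'⟩ := q'
  simp only at h h'
  unfold nx at e
  simp only at e
  split_ifs at e with h1 h2 h2
  · simp only [Prod.mk.injEq] at e
    rw [e.1, show x = x' by omega]
  · simp only [Prod.mk.injEq] at e
    omega
  · simp only [Prod.mk.injEq] at e
    omega
  · simp only [Prod.mk.injEq] at e
    have : s = s' := pE.injective e.1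
    rw [this, show x = x' by omega]

lemma iter_inj (n : ℕ) : ∀ {q q' : P.FSt × ℕ}, Ok C q → Ok C q' →
    (nx k)^[n] q = (nx k)^[n] q' → q = q' := by
  induction n with
  | zero => intro q q' _ _ e; exact e
  | succ n ih =>
    intro q q' h h' e
    rw [Function.iterate_succ_apply', Function.iterate_succ_apply'] at e
    exact ih h h' (nx_inj (h.iter n).2 (h'.iter n).2 e)

lemma Op.uniq {q : P.FSt × ℕ} {m : ℕ} {q1 q2 : P.FSt × ℕ} {n1 n2 : ℕ} (h1 : Op C q m q1 n1)
    (h2 : Op C q m q2 n2) : q1 = q2 := by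
  have key : ∀ {q1 q2 : P.FSt × ℕ} {n1 n2 : ℕ}, Op C q m q1 n1 → Op C q m q2 n2 → n1 ≤ n2 →
      q1 = q2 := by
    intro q1 q2 n1 n2 h1 h2 h
    have e : q1 = (nx k)^[n2 - n1] q2 := by
      apply iter_inj (C := C) n1 h1.ok (h2.ok.iter _)
      rw [← Function.iterate_add_apply, show n1 + (n2 - n1) = n2 by omega, h1.it, h2.it]
    rcases Nat.eq_zero_or_pos (n2 - n1) with h3 | h3
    · rw [h3] at e
      exact e
    · exfalso
      have h4 := h2.ge (n2 - n1) h3 (by omega)
      have h5 := wsum_add (C := C) q2 (n2 - n1) n1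
      rw [← e, show n2 - n1 + n1 = n2 by omega, h2.sum, h1.sum] at h5
      omega
  rcases le_total n1 n2 with h | h
  · exact key h1 h2 h
  · exact (key h2 h1 h).symm

/-- the stack -/
def stk (C : JCert P k) (χ : P.Facet → ℕ → ℕ → Prop) (q : P.FSt × ℕ) (m : ℕ) : Prop :=
  ∃ q' n, Op C q m q' n ∧ C.fv χ q'.1 q'.2

lemma stk_iff {q : P.FSt × ℕ} {m : ℕ} {q' : P.FSt × ℕ} {n : ℕ} (h : Op C q m q' n) :
    stk C χ q m ↔ C.fv χ q'.1 q'.2 := by
  constructor
  · rintro ⟨q1, n1, h1, h2⟩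
    rw [h.uniq h1]
    exact h2
  · intro h1
    exact ⟨q', n, h, h1⟩

/-! ## Periods -/

lemma per_iter {q : P.FSt × ℕ} (h : Ok C q) :
    (nx k)^[Function.minimalPeriod pE q.1 * k] q = q := by
  obtain ⟨r, x⟩ := q
  have hx : x < k := h.2
  have e : (nx k)^[x] (r, 0) = (r, x) := by
    rw [iter_col r (by omega), Nat.zero_add]
  have e2 : (nx k)^[Function.minimalPeriod pE r * k] (r, 0) = (r, 0) := by
    rw [iter_mul (by omega), Pool.Agent.MP42.pow_minimalPeriod]
  show (nx k)^[Function.minimalPeriod pE r * k] (r, x) = (r, x)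
  have e3 : (nx k)^[Function.minimalPeriod pE r * k] ((nx k)^[x] (r, 0)) = (nx k)^[x] (r, 0) := by
    rw [← Function.iterate_add_apply, Nat.add_comm, Function.iterate_add_apply, e2]
  rw [e] at e3
  exact e3

lemma per_sum {B : ℕ} (hW : C.Words B) {q : P.FSt × ℕ} (h : Ok C q) :
    C.wsum q (Function.minimalPeriod pE q.1 * k) = 2 := by
  obtain ⟨r, x⟩ := q
  have hx : x < k := h.2
  have e : (nx k)^[x] (r, 0) = (r, x) := by
    rw [iter_col r (by omega), Nat.zero_add]
  have e2 : (nx k)^[Function.minimalPeriod pE r * k] (r, 0) = (r, 0) := by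
    rw [iter_mul (by omega), Pool.Agent.MP42.pow_minimalPeriod]
  have h1 := wsum_add (C := C) (r, 0) x (Function.minimalPeriod pE r * k)
  have h2 := wsum_add (C := C) (r, 0) (Function.minimalPeriod pE r * k) x
  rw [e] at h1
  rw [e2, hW.tot r h.1.1 h.1.2] at h2
  rw [Nat.add_comm, h2] at h1
  show C.wsum (r, x) (Function.minimalPeriod pE r * k) = 2
  linarith

lemma per_mul {B : ℕ} (hW : C.Words B) {q : P.FSt × ℕ} (h : Ok C q) (t : ℕ) :
    (nx k)^[t * (Function.minimalPeriod pE q.1 * k)] q = q ∧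
      C.wsum q (t * (Function.minimalPeriod pE q.1 * k)) = 2 * t := by
  induction t with
  | zero => simp [wsum]
  | succ t ih =>
    rw [Nat.succ_mul]
    constructor
    · rw [Function.iterate_add_apply, per_iter h, ih.1]
    · rw [wsum_add, ih.1, ih.2, per_sum hW h]
      push_cast
      ring

lemma sum_ge {B : ℕ} (hW : C.Words B) {q : P.FSt × ℕ} (h : Ok C q) (j : ℕ) :
    -(B : ℤ) ≤ C.wsum q j := by
  have hk : 0 < k := by have := h.2; omega
  set N := Function.minimalPeriod pE q.1 * k with hN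
  have hNp : 0 < N := Nat.mul_pos (Pool.Agent.MP42.minimalPeriod_pos' pE q.1) hk
  have e1 : j = j / N * N + j % N := by
    rw [Nat.mul_comm]; exact (Nat.div_add_mod j N).symm
  obtain ⟨h1, h2⟩ := per_mul hW h (j / N)
  rw [e1, wsum_add, h1, h2]
  have h3 := hW.bd q.1 q.2 (j % N) h.1.1 h.1.2 h.2 (Nat.mod_lt _ hNp).le
  have h4 := (abs_le.1 h3).1
  have h5 : C.wsum q (j % N) = C.wsum (q.1, q.2) (j % N) := rfl
  rw [h5]
  have h6 : (0 : ℤ) ≤ ((j / N : ℕ) : ℤ) := by positivity
  linarith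

lemma exists_op {B : ℕ} (hW : C.Words B) {q : P.FSt × ℕ} (h : Ok C q) (m : ℕ) :
    ∃ q' n, Op C q m q' n := by
  classical
  set T := (m + 1) * (Function.minimalPeriod pE q.1 * k) with hT
  obtain ⟨hT1, hT2⟩ := per_mul hW h (m + 1)
  rw [← hT] at hT1 hT2
  push_cast at hT2
  set p : ℕ → Prop := fun i => C.wsum q i ≤ m + 1 with hp
  have h0 : p 0 := by
    show C.wsum q 0 ≤ m + 1
    unfold wsum
    simp only [Finset.range_zero, Finset.sum_empty]
    positivity
  set i0 := Nat.findGreatest p T with hi0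
  have hp0 : C.wsum q i0 ≤ m + 1 := Nat.findGreatest_spec (P := p) (Nat.zero_le _) h0
  have hle : i0 ≤ T := Nat.findGreatest_le T
  have hlt : i0 < T := by
    rcases Nat.lt_or_ge i0 T with h1 | h1
    · exact h1
    · exfalso
      have : i0 = T := le_antisymm hle h1
      rw [this, hT2] at hp0
      have : (0 : ℤ) ≤ m := by positivity
      linarith
  have hgt : ∀ j, i0 < j → j ≤ T → (m : ℤ) + 2 ≤ C.wsum q j := by
    intro j h1 h2
    have h3 := Nat.findGreatest_is_greatest h1 h2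
    have h4 : ¬ (C.wsum q j ≤ m + 1) := h3
    omega
  have hs := wsum_succ (C := C) q i0
  have h1 := hgt (i0 + 1) (by omega) (by omega)
  have hvl : vl (C.wd ((nx k)^[i0] q).1 ((nx k)^[i0] q).2) = 1 ∧ C.wsum q i0 = m + 1 := by
    rcases vl_cases (C.wd ((nx k)^[i0] q).1 ((nx k)^[i0] q).2) with h2 | h2 | h2 <;>
      rw [h2] at hs <;> constructor <;> omega
  refine ⟨(nx k)^[i0] q, T - i0, h.iter i0, vl_n.1 hvl.1, by omega, ?_, ?_, ?_⟩
  · rw [← Function.iterate_add_apply, show T - i0 + i0 = T by omega, hT1]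
  · have h3 := wsum_add (C := C) q i0 (T - i0)
    rw [show i0 + (T - i0) = T by omega, hT2, hvl.2] at h3
    linarith
  · intro j h2 h3
    have h4 := wsum_add (C := C) q i0 j
    have h5 := hgt (i0 + j) (by omega) (by omega)
    rw [hvl.2] at h4
    linarith

lemma Op.same {q : P.FSt × ℕ} {m : ℕ} {q' : P.FSt × ℕ} {n : ℕ} (h : Op C q m q' n) :
    pE.SameCycle q'.1 q.1 := by
  rw [← h.it]
  exact same_iter q' n

lemma Op.unm {B : ℕ} (hW : C.Words B) {q : P.FSt × ℕ} {m : ℕ} {q' : P.FSt × ℕ} {n : ℕ}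
    (h : Op C q m q' n) (hq : Ok C q) (hm : B ≤ m) : C.Unmatched q' := by
  refine ⟨h.wd, ?_⟩
  intro j hj
  rcases Nat.lt_or_ge n j with h1 | h1
  · have h2 := wsum_add (C := C) q' n (j - n)
    have h3 := sum_ge hW hq (j - n)
    rw [show n + (j - n) = j by omega, h.it, h.sum] at h2
    have h4 : (B : ℤ) ≤ m := by exact_mod_cast hm
    linarith
  · exact h.ge j hj h1

/-- The stacks of the lines of the rims. -/
structure StackOk (C : JCert P k) (B : ℕ) (χ : P.Facet → ℕ → ℕ → Prop)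
    (c : P.FSt × ℕ → ℕ → Prop) : Prop where
  z : ∀ q, Ok C q → C.wd q.1 q.2 = Ln.z → ∀ m, (c (nx k q) m ↔ c q m)
  n0 : ∀ q, Ok C q → C.wd q.1 q.2 = Ln.n → (c (nx k q) 0 ↔ C.fv χ q.1 q.2)
  n1 : ∀ q, Ok C q → C.wd q.1 q.2 = Ln.n → ∀ m, (c (nx k q) (m + 1) ↔ c q m)
  s0 : ∀ q, Ok C q → C.wd q.1 q.2 = Ln.s → (c q 0 ↔ C.fv χ q.1 q.2)
  s1 : ∀ q, Ok C q → C.wd q.1 q.2 = Ln.s → ∀ m, (c q (m + 1) ↔ c (nx k q) m)
  ev : ∀ q q', Ok C q → Ok C q' → pE.SameCycle q.1 q'.1 → ∀ m m', B ≤ m → B ≤ m' →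
    (c q m ↔ c q' m')

/-- **The stack machine.** -/
theorem exists_stack {B : ℕ} (hW : C.Words B) (hI : C.Inv ψ χ) (hE : C.Eq2 χ) :
    StackOk C B χ (stk C χ) where
  z := by
    intro q hq hw m
    obtain ⟨q', n, h⟩ := exists_op hW hq m
    rw [stk_iff h]
    refine stk_iff (n := n + 1) ⟨h.ok, h.wd, by omega, ?_, ?_, ?_⟩
    · rw [Function.iterate_succ_apply', h.it]
    · rw [wsum_succ, h.it, hw, h.sum]
      simp [vl]
    · intro j h1 h2
      rcases Nat.lt_or_ge n j with h3 | h3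
      · rw [show j = n + 1 by omega, wsum_succ, h.it, hw, h.sum]
        simp only [vl]
        omega
      · exact h.ge j h1 h3
  n0 := by
    intro q hq hw
    refine stk_iff (n := 1) ⟨hq, hw, le_rfl, ?_, ?_, ?_⟩
    · rfl
    · rw [wsum_one, hw]
      simp [vl]
    · intro j h1 h2
      rw [show j = 1 by omega, wsum_one, hw]
      simp [vl]
  n1 := by
    intro q hq hw m
    obtain ⟨q', n, h⟩ := exists_op hW hq m
    rw [stk_iff h]
    refine stk_iff (n := n + 1) ⟨h.ok, h.wd, by omega, ?_, ?_, ?_⟩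
    · rw [Function.iterate_succ_apply', h.it]
    · rw [wsum_succ, h.it, hw, h.sum]
      simp [vl]
    · intro j h1 h2
      rcases Nat.lt_or_ge n j with h3 | h3
      · rw [show j = n + 1 by omega, wsum_succ, h.it, hw, h.sum]
        simp only [vl]
        omega
      · exact h.ge j h1 h3
  s0 := by
    intro q hq hw
    obtain ⟨q', n, h⟩ := exists_op hW hq 0
    rw [stk_iff h]
    refine hI.matched q'.1 q'.2 q h.ok.1.1 h.ok.1.2 h.ok.2 ⟨h.wd, hw, n, h.pos, h.it, ?_, h.ge⟩
    have := h.sum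
    simpa using this
  s1 := by
    intro q hq hw m
    obtain ⟨q', n, h⟩ := exists_op hW hq (m + 1)
    rw [stk_iff h]
    refine (stk_iff (n := n + 1) ⟨h.ok, h.wd, by omega, ?_, ?_, ?_⟩).symm
    · rw [Function.iterate_succ_apply', h.it]
    · rw [wsum_succ, h.it, hw, h.sum]
      simp only [vl]
      push_cast
      ring
    · intro j h1 h2
      rcases Nat.lt_or_ge n j with h3 | h3
      · rw [show j = n + 1 by omega, wsum_succ, h.it, hw, h.sum]
        simp only [vl]
        push_cast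
        omega
      · exact h.ge j h1 h3
  ev := by
    intro q q' hq hq' hs m m' hm hm'
    obtain ⟨q1, n1, h1⟩ := exists_op hW hq m
    obtain ⟨q2, n2, h2⟩ := exists_op hW hq' m'
    rw [stk_iff h1, stk_iff h2]
    exact hE q1.1 q1.2 q2.1 q2.2 h1.ok.1.1 h1.ok.1.2
      (h1.same.trans (hs.trans h2.same.symm)) h1.ok.2 h2.ok.2 (h1.unm hW hq hm)
      (h2.unm hW hq' hm')

end Pool.Agent.MP42D
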