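import Pool.Agent.MP42.D.JC
import Pool.Agent.MP42.D.App
import Pool.Agent.MP42.D.Stack
import Pool.Agent.MP42.D.Gap

/-!
# Piece W: interface (captain helper89)

`CV D k B`: the values of invariant predicates on the coarse level.
`val s X`: the value of the unit edge `X` on the north side of the coarse state `s` (from west to
east).  `hv F X Y`, `vv F X Y`: the values of the unit edges of a plate `F` in its base frame, as in
`PD.Hv`, `PD.Vv`.  `cs s Y`: the infinite stack of the band of the wall `s` (north towards the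
junction) over the line `Y`, `0 ≤ Y ≤ 7 k`, from west to east.  The order of the general reduction
theorem is from east to west.
`LV K k on`: the values along one line.
-/

set_option autoImplicit false
set_option linter.unusedSectionVars false

namespace Pool.Agent.MP42D

open Pool.Agent.Helper55.UNF Pool.Agent.Helper55.UNF.GridSolid Pool.Agent.MP42 Pool.Agent.MP42G

variable {P : GridSolid}

/-! ## Plates -/

namespace PD

variable {τ : Type*} (D : PD τ)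

/-- the four edges of a cell of a plate -/
def cEl (k X Y : ℕ) : Prt → El
  | Prt.W => D.Vv k X Y
  | Prt.E => D.Vv k (X + 1) Y
  | Prt.S => D.Hv k X Y
  | Prt.N => D.Hv k X (Y + 1)

/-- the values of the four edges of a cell -/
def cVal (hv vv : ℕ → ℕ → Prop) (X Y : ℕ) : Prt → Prop
  | Prt.W => vv X Y
  | Prt.E => vv (X + 1) Y
  | Prt.S => hv X Y
  | Prt.N => hv X (Y + 1)

/-- strands have one value -/
def Rel (k : ℕ) (hv vv : ℕ → ℕ → Prop) : Prop :=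
  ∀ X Y, X < 7 * k → Y < 7 * k → ∀ p q, p ≠ q → D.cEl k X Y p ≠ El.o → D.cEl k X Y q ≠ El.o →
    (∀ r, r ≠ p → r ≠ q → D.cEl k X Y r = El.o) → (cVal hv vv X Y p ↔ cVal hv vv X Y q)

end PD

/-! ## The coarse level -/

/-- Values on the coarse level. -/
structure CV (D : Deco P) (k B : ℕ) where
  val : P.FSt → ℕ → Prop
  hv : P.Facet → ℕ → ℕ → Prop
  vv : P.Facet → ℕ → ℕ → Prop
  cs : P.FSt → ℕ → ℕ → Prop
  symm : ∀ s : P.FSt, s.1.e.1 ≠ 2 → ∀ X < 7 * k, D.ev k s X ≠ El.o →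
    (val s.stN.r2 (7 * k - 1 - X) ↔ val s X)
  cell : ∀ F : P.Facet, IsPl F → (D.pd (bf F)).Rel k (hv F) (vv F)
  sN : ∀ F : P.Facet, IsPl F → ∀ X < 7 * k, D.ev k (bf F) X ≠ El.o →
    (hv F X (7 * k) ↔ val (bf F) X)
  sS : ∀ F : P.Facet, IsPl F → ∀ X < 7 * k, D.ev k (bf F).r2 (7 * k - 1 - X) ≠ El.o →
    (hv F X 0 ↔ val (bf F).r2 (7 * k - 1 - X))
  sW : ∀ F : P.Facet, IsPl F → ∀ Y < 7 * k, D.ev k (bf F).rL Y ≠ El.o →
    (vv F 0 Y ↔ val (bf F).rL Y)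
  sE : ∀ F : P.Facet, IsPl F → ∀ Y < 7 * k, D.ev k (bf F).rR (7 * k - 1 - Y) ≠ El.o →
    (vv F (7 * k) Y ↔ val (bf F).rR (7 * k - 1 - Y))
  /-- walls with north up or down -/
  cs_E : ∀ s : P.FSt, IsV s → cs s.stE 0 = cs s (7 * k)
  cs_z : ∀ s : P.FSt, IsV s → ∀ X < 7 * k, (D.ev k s X).ln = Helper55.UNF.Ln.z →
    cs s X = cs s (X + 1)
  cs_n : ∀ s : P.FSt, IsV s → ∀ X < 7 * k, D.ev k s X = El.n → cs s X = psh (val s X) (cs s (X + 1))
  cs_s : ∀ s : P.FSt, IsV s → ∀ X < 7 * k, D.ev k s X = El.s → cs s (X + 1) = psh (val s X) (cs s X)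
  cs_ev : ∀ s s' : P.FSt, IsV s → pE.SameCycle s s' → ∀ Y ≤ 7 * k, ∀ Y' ≤ 7 * k, ∀ m m', B ≤ m →
    B ≤ m' → (cs s Y m ↔ cs s' Y' m')

/-- the value of the junction at the north side of the coarse state `s` -/
noncomputable def jv (V : Dart P → Prop) (s : P.FSt) : Prop :=
  if s.1.d.1 = 2 then onD False V (bf s.facet) else ∃ d : Dart P, pE.SameCycle s d.1 ∧ V d

/-- The predicates on `P.refine 7` are given by the coarse values. -/
structure Back {D : Deco P} {k B : ℕ} (W : CV D k B)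
    (ψ χ : (P.refine 7 Deco0.h7).Facet → ℕ → ℕ → Prop) : Prop where
  ver : ∀ (f : (P.refine 7 Deco0.h7).Facet) (x y : ℕ), IsPl (co Deco0.h7 f) → x ≤ k → y < k →
    D.pr7 k f x y = true →
    (∃ X Y, X < 7 * k ∧ Y ≤ 7 * k ∧ (D.pd (bf (co Deco0.h7 f))).Hv k X Y ≠ El.o ∧
      (ψ f x y ↔ W.hv (co Deco0.h7 f) X Y)) ∨
    (∃ X Y, X ≤ 7 * k ∧ Y < 7 * k ∧ (D.pd (bf (co Deco0.h7 f))).Vv k X Y ≠ El.o ∧
      (ψ f x y ↔ W.vv (co Deco0.h7 f) X Y))
  hor : ∀ (f : (P.refine 7 Deco0.h7).Facet) (x y : ℕ), IsPl (co Deco0.h7 f) → x < k → y ≤ k →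
    D.la7 k f x y ≠ Helper55.UNF.Ln.z →
    (∃ X Y, X < 7 * k ∧ Y ≤ 7 * k ∧ (D.pd (bf (co Deco0.h7 f))).Hv k X Y ≠ El.o ∧
      (χ f x y ↔ W.hv (co Deco0.h7 f) X Y)) ∨
    (∃ X Y, X ≤ 7 * k ∧ Y < 7 * k ∧ (D.pd (bf (co Deco0.h7 f))).Vv k X Y ≠ El.o ∧
      (χ f x y ↔ W.vv (co Deco0.h7 f) X Y))
  /-- walls -/
  low : ∀ (f : (P.refine 7 Deco0.h7).Facet) (x y : ℕ), ¬ IsPl (co Deco0.h7 f) → x < k → y ≤ k →
    (Deco0.fj f < 3 ∨ (Deco0.fj f = 3 ∧ y = 0)) → D.la7 k f x y ≠ Helper55.UNF.Ln.z →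
    (χ f x y ↔ W.val (bf (co Deco0.h7 f)).r2 (7 * k - 1 - (Deco0.fi f * k + x)))
  high : ∀ (f : (P.refine 7 Deco0.h7).Facet) (x y : ℕ), ¬ IsPl (co Deco0.h7 f) → x < k → y ≤ k →
    (3 < Deco0.fj f ∨ (Deco0.fj f = 3 ∧ y = k)) → D.la7 k f x y ≠ Helper55.UNF.Ln.z →
    (χ f x y ↔ W.val (bf (co Deco0.h7 f)) (Deco0.fi f * k + x))

/-! ## One line -/

/-- Values along one line.  `lam y T`: the unit edge `T` of the segment `y`.  `pB y Y s`: the strand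
of the slot `s` on the plate on the B side over the height `Y`.  `cB y Y`: the stack of the wall on
the B side over the height `Y`. -/
structure LV {τ : Type*} (K : KD τ) (k : ℕ) (on : ℤ → Bool) where
  lam : ℤ → ℕ → Prop
  pB : ℤ → ℕ → Fin 4 → Prop
  pA : ℤ → ℕ → Fin 4 → Prop
  cB : ℤ → ℕ → ℕ → Prop
  cA : ℤ → ℕ → ℕ → Prop
  pB_c : ∀ y, on y = true → K.bw y = false → ∀ s, ∀ Y < 7 * k, K.lnB k s y Y = true →
    K.lnB k s y (Y + 1) = true → (pB y Y s ↔ pB y (Y + 1) s)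
  pB_o : ∀ y, on y = true → K.bw y = false → ∀ s, ∀ Y < 7 * k, K.lnB k s y Y = true →
    K.lnB k s y (Y + 1) = false → (pB y Y s ↔ lam y Y)
  pB_i : ∀ y, on y = true → K.bw y = false → ∀ s, ∀ Y < 7 * k, K.lnB k s y Y = false →
    K.lnB k s y (Y + 1) = true → (pB y (Y + 1) s ↔ lam y Y)
  pB_n : ∀ y, on (y - 1) = true → on y = true → K.bw (y - 1) = false → K.bw y = false →
    ∀ s, K.V s y = true → K.st y = false → (pB (y - 1) (7 * k) s ↔ pB y 0 s)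
  pA_c : ∀ y, on y = true → K.aw y = false → ∀ s, ∀ Y < 7 * k, K.lnA k s y Y = true →
    K.lnA k s y (Y + 1) = true → (pA y Y s ↔ pA y (Y + 1) s)
  pA_o : ∀ y, on y = true → K.aw y = false → ∀ s, ∀ Y < 7 * k, K.lnA k s y Y = true →
    K.lnA k s y (Y + 1) = false → (pA y Y s ↔ lam y Y)
  pA_i : ∀ y, on y = true → K.aw y = false → ∀ s, ∀ Y < 7 * k, K.lnA k s y Y = false →
    K.lnA k s y (Y + 1) = true → (pA y (Y + 1) s ↔ lam y Y)
  pA_n : ∀ y, on (y - 1) = true → on y = true → K.aw (y - 1) = false → K.aw y = false →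
    ∀ s, K.V s y = true → K.st y = true → (pA (y - 1) (7 * k) s ↔ pA y 0 s)
  cB_z : ∀ y, K.bw y = true → ∀ T < 7 * k, (K.kl k y T).ln = Helper55.UNF.Ln.z →
    cB y (T + 1) = cB y T
  cB_n : ∀ y, K.bw y = true → ∀ T < 7 * k, K.kl k y T = El.n → cB y T = psh (lam y T) (cB y (T + 1))
  cB_s : ∀ y, K.bw y = true → ∀ T < 7 * k, K.kl k y T = El.s → cB y (T + 1) = psh (lam y T) (cB y T)
  cB_1 : ∀ y, K.bw (y - 1) = true → K.bw y = true → cB (y - 1) (7 * k) = cB y 0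
  cA_z : ∀ y, K.aw y = true → ∀ T < 7 * k, (K.kl k y T).ln = Helper55.UNF.Ln.z →
    cA y (T + 1) = cA y T
  cA_n : ∀ y, K.aw y = true → ∀ T < 7 * k, K.kl k y T = El.n → cA y (T + 1) = psh (lam y T) (cA y T)
  cA_s : ∀ y, K.aw y = true → ∀ T < 7 * k, K.kl k y T = El.s → cA y T = psh (lam y T) (cA y (T + 1))
  cA_1 : ∀ y, K.aw (y - 1) = true → K.aw y = true → cA (y - 1) (7 * k) = cA y 0

/-- the values of a line belong to the values on the coarse level -/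
structure LV.Link {D : Deco P} {k B : ℕ} (W : CV D k B) (x z : ℤ)
    (L : LV (D.K x z) k (fun y => onP P x y z)) : Prop where
  /-- the state with east `+ y` on the north side of which the segment `y` is -/
  lam : ∀ s : P.FSt, s.1.e = (1, true) → Geo.nw s.1 0 = x → Geo.nw s.1 2 = z → ∀ T < 7 * k,
    D.ev k s T ≠ El.o → (L.lam (Geo.nw s.1 1) T ↔ W.val s T)
  cB : ∀ s : P.FSt, IsV s → s.1.e = (1, true) → Geo.nw s.1 0 = x → Geo.nw s.1 2 = z →
    ∀ T ≤ 7 * k, L.cB (Geo.nw s.1 1) T = W.cs s T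
  cA : ∀ s : P.FSt, IsV s → s.1.e = (1, false) → Geo.ne s.1 0 = x → Geo.ne s.1 2 = z →
    ∀ T ≤ 7 * k, L.cA (Geo.ne s.1 1) T = W.cs s (7 * k - T)
  pB : ∀ F : P.Facet, IsPl F → Geo.nw (bf F).1 0 = x → Geo.nw (bf F).1 2 = z → ∀ Y ≤ 7 * k, ∀ s,
    (L.pB ((bf F).1.c 1) Y s ↔ W.hv F (dB s) Y)
  pA : ∀ F : P.Facet, IsPl F → Geo.ne (bf F).1 0 = x → Geo.ne (bf F).1 2 = z → ∀ Y ≤ 7 * k, ∀ s,
    (L.pA ((bf F).1.c 1) Y s ↔ W.hv F (7 * k - 1 - dA s) Y)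

/-- The lanes of bumps and valleys along a line. -/
structure FG {D : Deco P} {k B : ℕ} (W : CV D k B) (x z : ℤ) where
  fN : ℤ → Prop
  fS : ℤ → Prop
  gS : ℤ → Prop
  gN : ℤ → Prop
  fN_st : ∀ y, onP P x y z = true → (D.K x z).aw y = false → (D.K x z).fN (y + 1) = true →
    (fN (y + 1) ↔ fN y)
  fS_st : ∀ y, onP P x y z = true → (D.K x z).bw y = false → (D.K x z).fS (y + 1) = true →
    (fS (y + 1) ↔ fS y)
  gS_st : ∀ y, onP P x y z = true → (D.K x z).aw y = false → (D.K x z).gS y = true →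
    (gS (y + 1) ↔ gS y)
  gN_st : ∀ y, onP P x y z = true → (D.K x z).bw y = false → (D.K x z).gN y = true →
    (gN (y + 1) ↔ gN y)
  bp : ∀ y, (D.K x z).bp y = true → (fN y ↔ fS y)
  vl : ∀ y, (D.K x z).vl y = true → (gN (y + 1) ↔ gS (y + 1))
  /-- links: the line is at the north west corner / north east corner of `s` -/
  wn : ∀ s : P.FSt, s.1.e.1 = 0 → Geo.nw s.1 0 = x → Geo.nw s.1 2 = z →
    (isUp s = true → (D.K x z).gN (Geo.nw s.1 1) = true →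
      (W.val s (2 * k + 3) ↔ gN (Geo.nw s.1 1))) ∧
    (isDn s = true → (D.K x z).fN (Geo.nw s.1 1) = true →
      (W.val s (2 * k + 3) ↔ fN (Geo.nw s.1 1))) ∧
    (isUp s = true → (D.K x z).fS (Geo.nw s.1 1) = true →
      (W.val s (2 * k + 5) ↔ fS (Geo.nw s.1 1))) ∧
    (isDn s = true → (D.K x z).gS (Geo.nw s.1 1) = true →
      (W.val s (2 * k + 5) ↔ gS (Geo.nw s.1 1)))
  en : ∀ s : P.FSt, s.1.e.1 = 0 → Geo.ne s.1 0 = x → Geo.ne s.1 2 = z →
    (isUp s = true → (D.K x z).fN (Geo.ne s.1 1) = true →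
      (W.val s (5 * k - 4) ↔ fN (Geo.ne s.1 1))) ∧
    (isDn s = true → (D.K x z).gN (Geo.ne s.1 1) = true →
      (W.val s (5 * k - 4) ↔ gN (Geo.ne s.1 1))) ∧
    (isUp s = true → (D.K x z).gS (Geo.ne s.1 1) = true →
      (W.val s (5 * k - 6) ↔ gS (Geo.ne s.1 1))) ∧
    (isDn s = true → (D.K x z).fS (Geo.ne s.1 1) = true →
      (W.val s (5 * k - 6) ↔ fS (Geo.ne s.1 1)))

end Pool.Agent.MP42D
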