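import Pool.Agent.MP42.D.LineT
import Pool.Agent.MP42.D.WDefs

/-!
# Piece W3: the values along a line (owner helper89)
-/

set_option autoImplicit false
set_option linter.unusedSectionVars false

namespace Pool.Agent.MP42D

open Pool.Agent.Helper55.UNF

/-! ### one row of a plate -/

lemma plate_c {k : ℕ} {f : ℕ → Bool} {p : ℕ → Prop}
    (h1 : ∀ t < k, f t = true → f (t + 1) = true → (p t ↔ p (t + 1)))
    {a b : ℕ} (hab : a ≤ b) (hb : b ≤ k) (hf : ∀ t, a ≤ t → t ≤ b → f t = true) : p a = p b := by
  induction b, hab using Nat.le_induction with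
  | base => rfl
  | succ b hab ih =>
    rw [ih (by omega) (fun t h2 h3 => hf t h2 (by omega))]
    exact propext (h1 b (by omega) (hf b hab (by omega)) (hf (b + 1) (by omega) le_rfl))

namespace KD

variable {τ : Type*} (K : KD τ)

/-- the slots on the B side, A side over the boundary `j` of the segment `y` -/
def bdB (y : ℤ) (j : ℕ) (s : Fin 4) : Bool :=
  if j = 0 then K.V s y && !K.st y else if j = 7 then K.V s (y + 1) && !K.st (y + 1)
  else K.M s y && !K.sd y
def bdA (y : ℤ) (j : ℕ) (s : Fin 4) : Bool :=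
  if j = 0 then K.V s y && K.st y else if j = 7 then K.V s (y + 1) && K.st (y + 1)
  else K.M s y && K.sd y

lemma bB_eq {j : ℕ} (hj : j < 7) (s : Fin 4) (y : ℤ) : K.bB s y j = K.bdB y j s := by
  unfold bB bdB
  by_cases h0 : j = 0
  · rw [if_pos h0, if_pos h0]
  · rw [if_neg h0, if_neg h0, if_neg (by omega)]

lemma aB_eq {j : ℕ} (hj : j < 7) (s : Fin 4) (y : ℤ) : K.aB s y j = K.bdB y (j + 1) s := by
  unfold aB bdB
  rw [if_neg (show ¬ j + 1 = 0 by omega)]
  by_cases h6 : j = 6
  · rw [if_pos h6, if_pos (by omega)]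
  · rw [if_neg h6, if_neg (by omega)]

lemma bA_eq {j : ℕ} (hj : j < 7) (s : Fin 4) (y : ℤ) : K.bA s y j = K.bdA y j s := by
  unfold bA bdA
  by_cases h0 : j = 0
  · rw [if_pos h0, if_pos h0]
  · rw [if_neg h0, if_neg h0, if_neg (by omega)]

lemma aA_eq {j : ℕ} (hj : j < 7) (s : Fin 4) (y : ℤ) : K.aA s y j = K.bdA y (j + 1) s := by
  unfold aA bdA
  rw [if_neg (show ¬ j + 1 = 0 by omega)]
  by_cases h6 : j = 6
  · rw [if_pos h6, if_pos (by omega)]
  · rw [if_neg h6, if_neg (by omega)]

variable {K} {k : ℕ}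

lemma kl_n {y : ℤ} {j t : ℕ} (ht : t < k) (h : ∃ s, K.kn s y j = true ∧ t = nC s) :
    K.kl k y (j * k + t) = El.n := by
  obtain ⟨e1, e2⟩ := PD.div_mod (j := j) ht
  unfold kl
  rw [e1, e2, if_pos h]

lemma kl_s {y : ℤ} {j t : ℕ} (ht : t < k) (h0 : ∀ s, K.kn s y j = false)
    (h : ∃ s, K.ks s y j = true ∧ t = sC s) : K.kl k y (j * k + t) = El.s := by
  obtain ⟨e1, e2⟩ := PD.div_mod (j := j) ht
  unfold kl
  rw [e1, e2, if_neg, if_pos h]
  rintro ⟨s, h1, -⟩
  rw [h0] at h1
  exact absurd h1 (by decide)

lemma kl_z {y : ℤ} {j t : ℕ} (ht : t < k) (h1 : ¬ ∃ s, K.kn s y j = true ∧ t = nC s)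
    (h2 : ¬ ∃ s, K.ks s y j = true ∧ t = sC s) :
    (K.kl k y (j * k + t)).ln = Helper55.UNF.Ln.z := by
  obtain ⟨e1, e2⟩ := PD.div_mod (j := j) ht
  unfold kl
  rw [e1, e2, if_neg h1, if_neg h2]
  split_ifs <;> rfl

end KD

namespace LV

variable {τ : Type*} {K : KD τ} {k : ℕ} {on : ℤ → Bool} (L : LV K k on)

/-- the value of the strand of the slot `s` on the B side over the boundary `j` -/
noncomputable def vB (y : ℤ) (j : ℕ) (s : Fin 4) : Prop :=
  if K.bw y = true then L.cB y (j * k) (pix (K.bdB y j) s) else L.pB y (j * k) s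

noncomputable def vA (y : ℤ) (j : ℕ) (s : Fin 4) : Prop :=
  if K.aw y = true then L.cA y (j * k) (pix (fun s => K.bdA y j (Fin.rev s)) (Fin.rev s))
  else L.pA y (j * k) s

/-- the part of the stack below the strands of the passing tracks -/
noncomputable def bsB (y : ℤ) (j : ℕ) : ℕ → Prop := drp (cnt (K.bdB y j)) (L.cB y (j * k))
noncomputable def bsA (y : ℤ) (j : ℕ) : ℕ → Prop :=
  drp (cnt (fun s => K.bdA y j (Fin.rev s))) (L.cA y (j * k))

lemma wallB (h : K.Ok on) (hk : 20 ≤ k) {y : ℤ} (hb : K.bw y = true) {j : ℕ} (hj : j < 7) :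
    ((∀ s, K.bB s y j = true → K.aB s y j = true → L.vB y j s = L.vB y (j + 1) s) ∧
      (∀ s, K.bB s y j = true → K.aB s y j = false → L.vB y j s = L.lam y (j * k + nC s)) ∧
      (∀ s, K.bB s y j = false → K.aB s y j = true →
        L.vB y (j + 1) s = L.lam y (j * k + sC s))) ∧
    (((∀ s, K.ks s y j = false) ∧
      L.bsB y j = app (lst (fun s => K.kn s y j && !K.bB s y j) fun s => L.lam y (j * k + nC s))
        (L.bsB y (j + 1))) ∨
     ((∀ s, K.kn s y j = false) ∧
      L.bsB y (j + 1) = app (lst (fun s => K.ks s y j && !K.aB s y j)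
        fun s => L.lam y (j * k + sC s)) (L.bsB y j))) := by
  have e1 : (fun s => K.bB s y j) = K.bdB y j := funext fun s => K.bB_eq hj s y
  have e2 : (fun s => K.aB s y j) = K.bdB y (j + 1) := funext fun s => K.aB_eq hj s y
  have hjk : j * k + k = (j + 1) * k := by ring
  have hT : ∀ t, t < k → j * k + t < 7 * k := by
    intro t ht
    have : j * k ≤ 6 * k := Nat.mul_le_mul_right k (by omega)
    omega
  have hv0 : ∀ s, L.vB y j s = L.cB y (j * k) (pix (K.bdB y j) s) := fun s => by
    unfold vB; rw [if_pos hb]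
  have hv1 : ∀ s, L.vB y (j + 1) s = L.cB y ((j + 1) * k) (pix (K.bdB y (j + 1)) s) := fun s => by
    unfold vB; rw [if_pos hb]
  rcases K.trB h (y := y) hj with ⟨h1, h2⟩ | ⟨h1, h2⟩
  · have hr := row_n (k := k) (by omega) (q := fun s => K.kn s y j)
      (c := fun t => L.cB y (j * k + t)) (lam := fun t => L.lam y (j * k + t))
      (fun t ht h3 => L.cB_n y hb _ (hT t ht) (K.kl_n ht h3))
      (fun t ht h3 => L.cB_z y hb _ (hT t ht) (K.kl_z ht h3 (by
        rintro ⟨s, h4, -⟩
        rw [h1] at h4
        exact absurd h4 (by decide))))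
    simp only [Nat.add_zero, hjk] at hr
    rw [e1, e2] at h2
    obtain ⟨a1, a2, a3⟩ := h2.main hr
    refine ⟨⟨?_, ?_, ?_⟩, Or.inl ⟨h1, ?_⟩⟩
    · intro s _ hs
      rw [hv0, hv1]
      exact a1 s (by rw [← K.aB_eq hj]; exact hs)
    · intro s hs hs'
      rw [hv0]
      exact a2 s (by rw [← K.bB_eq hj]; exact hs) (by rw [← K.aB_eq hj]; exact hs')
    · intro s hs hs'
      exfalso
      have := (h2.ab s (by rw [← K.aB_eq hj]; exact hs')).1
      rw [← K.bB_eq hj, hs] at this
      exact absurd this (by decide)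
    · unfold bsB
      rw [a3]
      congr 2
      funext s
      rw [K.bB_eq hj]
  · have hr := row_s (k := k) (by omega) (q := fun s => K.ks s y j)
      (c := fun t => L.cB y (j * k + t)) (lam := fun t => L.lam y (j * k + t))
      (fun t ht h3 => L.cB_s y hb _ (hT t ht) (K.kl_s ht h1 h3))
      (fun t ht h3 => L.cB_z y hb _ (hT t ht) (K.kl_z ht (by
        rintro ⟨s, h4, -⟩
        rw [h1] at h4
        exact absurd h4 (by decide)) h3))
    simp only [Nat.add_zero, hjk] at hr
    rw [e1, e2] at h2
    obtain ⟨a1, a2, a3⟩ := h2.main hr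
    refine ⟨⟨?_, ?_, ?_⟩, Or.inr ⟨h1, ?_⟩⟩
    · intro s hs _
      rw [hv0, hv1]
      exact (a1 s (by rw [← K.bB_eq hj]; exact hs)).symm
    · intro s hs hs'
      exfalso
      have := (h2.ab s (by rw [← K.bB_eq hj]; exact hs)).1
      rw [← K.aB_eq hj, hs'] at this
      exact absurd this (by decide)
    · intro s hs hs'
      rw [hv1]
      exact a2 s (by rw [← K.aB_eq hj]; exact hs') (by rw [← K.bB_eq hj]; exact hs)
    · unfold bsB
      rw [a3]
      congr 2
      funext s
      rw [K.aB_eq hj]

lemma wallA (h : K.Ok on) (hk : 20 ≤ k) {y : ℤ} (hb : K.aw y = true) {j : ℕ} (hj : j < 7) :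
    ((∀ s, K.bA s y j = true → K.aA s y j = true → L.vA y j s = L.vA y (j + 1) s) ∧
      (∀ s, K.bA s y j = true → K.aA s y j = false → L.vA y j s = L.lam y (j * k + sC s)) ∧
      (∀ s, K.bA s y j = false → K.aA s y j = true →
        L.vA y (j + 1) s = L.lam y (j * k + nC s))) ∧
    (((∀ s, K.kn s y j = false) ∧
      L.bsA y j = app (lst (fun s => K.ks (Fin.rev s) y j && !K.bA (Fin.rev s) y j)
        fun s => L.lam y (j * k + nC s)) (L.bsA y (j + 1))) ∨
     ((∀ s, K.ks s y j = false) ∧
      L.bsA y (j + 1) = app (lst (fun s => K.kn (Fin.rev s) y j && !K.aA (Fin.rev s) y j)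
        fun s => L.lam y (j * k + sC s)) (L.bsA y j))) := by
  have e1 : (fun s => K.bA (Fin.rev s) y j) = fun s => K.bdA y j (Fin.rev s) :=
    funext fun s => K.bA_eq hj _ y
  have e2 : (fun s => K.aA (Fin.rev s) y j) = fun s => K.bdA y (j + 1) (Fin.rev s) :=
    funext fun s => K.aA_eq hj _ y
  have hjk : j * k + k = (j + 1) * k := by ring
  have hT : ∀ t, t < k → j * k + t < 7 * k := by
    intro t ht
    have : j * k ≤ 6 * k := Nat.mul_le_mul_right k (by omega)
    omega
  have hv0 : ∀ s, L.vA y j (Fin.rev s) = L.cA y (j * k) (pix (fun s => K.bdA y j (Fin.rev s)) s) :=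
    fun s => by unfold vA; rw [if_pos hb, Fin.rev_rev]
  have hv1 : ∀ s, L.vA y (j + 1) (Fin.rev s) =
      L.cA y ((j + 1) * k) (pix (fun s => K.bdA y (j + 1) (Fin.rev s)) s) :=
    fun s => by unfold vA; rw [if_pos hb, Fin.rev_rev]
  have hrev : ∀ {t : ℕ} {g : Fin 4 → Bool}, (∃ s, g (Fin.rev s) = true ∧ t = nC s) ↔
      ∃ s, g s = true ∧ t = sC s := by
    intro t g
    constructor
    · rintro ⟨s, h1, h2⟩
      exact ⟨Fin.rev s, h1, by rw [sC_rev]; exact h2⟩
    · rintro ⟨s, h1, h2⟩
      exact ⟨Fin.rev s, by rw [Fin.rev_rev]; exact h1, by rw [nC_rev]; exact h2⟩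
  have hrev' : ∀ {t : ℕ} {g : Fin 4 → Bool}, (∃ s, g (Fin.rev s) = true ∧ t = sC s) ↔
      ∃ s, g s = true ∧ t = nC s := by
    intro t g
    constructor
    · rintro ⟨s, h1, h2⟩
      exact ⟨Fin.rev s, h1, by rw [nC_rev]; exact h2⟩
    · rintro ⟨s, h1, h2⟩
      exact ⟨Fin.rev s, by rw [Fin.rev_rev]; exact h1, by rw [sC_rev]; exact h2⟩
  rcases K.trA h hb hj with ⟨h1, h2⟩ | ⟨h1, h2⟩
  · have hr := row_n (k := k) (by omega) (q := fun s => K.ks (Fin.rev s) y j)
      (c := fun t => L.cA y (j * k + t)) (lam := fun t => L.lam y (j * k + t))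
      (fun t ht h3 => L.cA_s y hb _ (hT t ht)
        (K.kl_s ht h1 ((hrev (g := fun s => K.ks s y j)).1 h3)))
      (fun t ht h3 => L.cA_z y hb _ (hT t ht) (K.kl_z ht (by
        rintro ⟨s, h4, -⟩
        rw [h1] at h4
        exact absurd h4 (by decide)) (fun h4 => h3 ((hrev (g := fun s => K.ks s y j)).2 h4))))
    simp only [Nat.add_zero, hjk] at hr
    rw [e1, e2] at h2
    obtain ⟨a1, a2, a3⟩ := h2.main hr
    refine ⟨⟨?_, ?_, ?_⟩, Or.inl ⟨h1, ?_⟩⟩
    · intro s _ hs
      have := a1 (Fin.rev s) (by rw [Fin.rev_rev, ← K.aA_eq hj]; exact hs)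
      rw [← hv0, ← hv1, Fin.rev_rev] at this
      exact this
    · intro s hs hs'
      have := a2 (Fin.rev s) (by rw [Fin.rev_rev, ← K.bA_eq hj]; exact hs)
        (by rw [Fin.rev_rev, ← K.aA_eq hj]; exact hs')
      rw [← hv0, Fin.rev_rev, nC_rev] at this
      exact this
    · intro s hs hs'
      exfalso
      have := (h2.ab (Fin.rev s) (by rw [Fin.rev_rev, ← K.aA_eq hj]; exact hs')).1
      rw [Fin.rev_rev, ← K.bA_eq hj, hs] at this
      exact absurd this (by decide)
    · unfold bsA
      rw [a3]
      congr 2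
      funext s
      rw [K.bA_eq hj]
  · have hr := row_s (k := k) (by omega) (q := fun s => K.kn (Fin.rev s) y j)
      (c := fun t => L.cA y (j * k + t)) (lam := fun t => L.lam y (j * k + t))
      (fun t ht h3 => L.cA_n y hb _ (hT t ht)
        (K.kl_n ht ((hrev' (g := fun s => K.kn s y j)).1 h3)))
      (fun t ht h3 => L.cA_z y hb _ (hT t ht) (K.kl_z ht
        (fun h4 => h3 ((hrev' (g := fun s => K.kn s y j)).2 h4)) (by
        rintro ⟨s, h4, -⟩
        rw [h1] at h4
        exact absurd h4 (by decide))))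
    simp only [Nat.add_zero, hjk] at hr
    rw [e1, e2] at h2
    obtain ⟨a1, a2, a3⟩ := h2.main hr
    refine ⟨⟨?_, ?_, ?_⟩, Or.inr ⟨h1, ?_⟩⟩
    · intro s hs _
      have := a1 (Fin.rev s) (by rw [Fin.rev_rev, ← K.bA_eq hj]; exact hs)
      rw [← hv0, ← hv1, Fin.rev_rev] at this
      exact this.symm
    · intro s hs hs'
      exfalso
      have := (h2.ab (Fin.rev s) (by rw [Fin.rev_rev, ← K.bA_eq hj]; exact hs)).1
      rw [Fin.rev_rev, ← K.aA_eq hj, hs'] at this
      exact absurd this (by decide)
    · intro s hs hs'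
      have := a2 (Fin.rev s) (by rw [Fin.rev_rev, ← K.aA_eq hj]; exact hs')
        (by rw [Fin.rev_rev, ← K.bA_eq hj]; exact hs)
      rw [← hv1, Fin.rev_rev, sC_rev] at this
      exact this
    · unfold bsA
      rw [a3]
      congr 2
      funext s
      rw [K.aA_eq hj]

/-! ### the two sides -/

lemma sideB (h : K.Ok on) (hk : 20 ≤ k) {y : ℤ} (ho : on y = true) {j : ℕ} (hj : j < 7) :
    (∀ s, K.bB s y j = true → K.aB s y j = true → L.vB y j s = L.vB y (j + 1) s) ∧
      (∀ s, K.bB s y j = true → K.aB s y j = false → L.vB y j s = L.lam y (j * k + nC s)) ∧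
      (∀ s, K.bB s y j = false → K.aB s y j = true →
        L.vB y (j + 1) s = L.lam y (j * k + sC s)) := by
  cases hb : K.bw y
  · have hjk : j * k + k = (j + 1) * k := by ring
    have hT : ∀ t, t < k → j * k + t < 7 * k := by
      intro t ht
      have : j * k ≤ 6 * k := Nat.mul_le_mul_right k (by omega)
      omega
    have hv : ∀ j s, L.vB y j s = L.pB y (j * k) s := fun j s => by
      unfold vB; rw [if_neg (by rw [hb]; decide)]
    have hln : ∀ s t, t ≤ k → K.lnB k s y (j * k + t) =
        Lb (fun s => K.bB s y j) (fun s => K.aB s y j) s t := fun s t ht => K.lnB_eq hk s y hj ht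
    have hc : ∀ s t, t < k → K.lnB k s y (j * k + t) = true →
        K.lnB k s y (j * k + (t + 1)) = true →
        (L.pB y (j * k + t) s ↔ L.pB y (j * k + (t + 1)) s) :=
      fun s t ht => L.pB_c y ho hb s _ (hT t ht)
    refine ⟨?_, ?_, ?_⟩
    · intro s h1 h2
      rw [hv, hv, ← hjk]
      have := plate_c (k := k) (f := fun t => K.lnB k s y (j * k + t))
        (p := fun t => L.pB y (j * k + t) s) (fun t ht => hc s t ht) (a := 0) (b := k) (by omega)
        le_rfl (fun t _ ht => by
          show K.lnB k s y (j * k + t) = true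
          rw [hln s t ht]
          unfold Lb
          simp only [h1, h2]
          rfl)
      exact this
    · intro s h1 h2
      have hn := nC_le s
      rw [hv]
      have e1 := plate_c (k := k) (f := fun t => K.lnB k s y (j * k + t))
        (p := fun t => L.pB y (j * k + t) s) (fun t ht => hc s t ht) (a := 0) (b := nC s)
        (by omega) (by omega) (fun t _ ht => by
          show K.lnB k s y (j * k + t) = true
          rw [hln s t (by omega)]
          unfold Lb
          simp only [h1, h2, ht]
          rfl)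
      have e2 := L.pB_o y ho hb s (j * k + nC s) (hT _ (by omega)) (by
        rw [hln s _ (by omega)]
        unfold Lb
        simp only [h1, h2]
        simp) (by
        rw [show j * k + nC s + 1 = j * k + (nC s + 1) by ring, hln s _ (by omega)]
        unfold Lb
        simp only [h1, h2]
        simp)
      exact e1.trans (propext e2)
    · intro s h1 h2
      have hn := sC_le s
      rw [hv, ← hjk]
      have e1 := plate_c (k := k) (f := fun t => K.lnB k s y (j * k + t))
        (p := fun t => L.pB y (j * k + t) s) (fun t ht => hc s t ht) (a := sC s + 1) (b := k)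
        (by omega) le_rfl (fun t ht ht' => by
          show K.lnB k s y (j * k + t) = true
          rw [hln s t (by omega)]
          unfold Lb
          simp only [h1, h2, decide_eq_true (show sC s < t by omega)]
          rfl)
      have e2 := L.pB_i y ho hb s (j * k + sC s) (hT _ (by omega)) (by
        rw [hln s _ (by omega)]
        unfold Lb
        simp only [h1, h2]
        simp) (by
        rw [show j * k + sC s + 1 = j * k + (sC s + 1) by ring, hln s _ (by omega)]
        unfold Lb
        simp only [h1, h2]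
        simp)
      exact e1.symm.trans (propext e2)
  · exact (L.wallB h hk hb hj).1

lemma sideA (h : K.Ok on) (hk : 20 ≤ k) {y : ℤ} (ho : on y = true) {j : ℕ} (hj : j < 7) :
    (∀ s, K.bA s y j = true → K.aA s y j = true → L.vA y j s = L.vA y (j + 1) s) ∧
      (∀ s, K.bA s y j = true → K.aA s y j = false → L.vA y j s = L.lam y (j * k + sC s)) ∧
      (∀ s, K.bA s y j = false → K.aA s y j = true →
        L.vA y (j + 1) s = L.lam y (j * k + nC s)) := by
  cases hb : K.aw y
  · have hjk : j * k + k = (j + 1) * k := by ring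
    have hT : ∀ t, t < k → j * k + t < 7 * k := by
      intro t ht
      have : j * k ≤ 6 * k := Nat.mul_le_mul_right k (by omega)
      omega
    have hv : ∀ j s, L.vA y j s = L.pA y (j * k) s := fun j s => by
      unfold vA; rw [if_neg (by rw [hb]; decide)]
    have hln : ∀ s t, t ≤ k → K.lnA k s y (j * k + t) =
        La (fun s => K.bA s y j) (fun s => K.aA s y j) s t := fun s t ht => K.lnA_eq hk s y hj ht
    have hc : ∀ s t, t < k → K.lnA k s y (j * k + t) = true →
        K.lnA k s y (j * k + (t + 1)) = true →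
        (L.pA y (j * k + t) s ↔ L.pA y (j * k + (t + 1)) s) :=
      fun s t ht => L.pA_c y ho hb s _ (hT t ht)
    refine ⟨?_, ?_, ?_⟩
    · intro s h1 h2
      rw [hv, hv, ← hjk]
      have := plate_c (k := k) (f := fun t => K.lnA k s y (j * k + t))
        (p := fun t => L.pA y (j * k + t) s) (fun t ht => hc s t ht) (a := 0) (b := k) (by omega)
        le_rfl (fun t _ ht => by
          show K.lnA k s y (j * k + t) = true
          rw [hln s t ht]
          unfold La
          simp only [h1, h2]
          rfl)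
      exact this
    · intro s h1 h2
      have hn := sC_le s
      rw [hv]
      have e1 := plate_c (k := k) (f := fun t => K.lnA k s y (j * k + t))
        (p := fun t => L.pA y (j * k + t) s) (fun t ht => hc s t ht) (a := 0) (b := sC s)
        (by omega) (by omega) (fun t _ ht => by
          show K.lnA k s y (j * k + t) = true
          rw [hln s t (by omega)]
          unfold La
          simp only [h1, h2, ht]
          rfl)
      have e2 := L.pA_o y ho hb s (j * k + sC s) (hT _ (by omega)) (by
        rw [hln s _ (by omega)]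
        unfold La
        simp only [h1, h2]
        simp) (by
        rw [show j * k + sC s + 1 = j * k + (sC s + 1) by ring, hln s _ (by omega)]
        unfold La
        simp only [h1, h2]
        simp)
      exact e1.trans (propext e2)
    · intro s h1 h2
      have hn := nC_le s
      rw [hv, ← hjk]
      have e1 := plate_c (k := k) (f := fun t => K.lnA k s y (j * k + t))
        (p := fun t => L.pA y (j * k + t) s) (fun t ht => hc s t ht) (a := nC s + 1) (b := k)
        (by omega) le_rfl (fun t ht ht' => by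
          show K.lnA k s y (j * k + t) = true
          rw [hln s t (by omega)]
          unfold La
          simp only [h1, h2, decide_eq_true (show nC s < t by omega)]
          rfl)
      have e2 := L.pA_i y ho hb s (j * k + nC s) (hT _ (by omega)) (by
        rw [hln s _ (by omega)]
        unfold La
        simp only [h1, h2]
        simp) (by
        rw [show j * k + nC s + 1 = j * k + (nC s + 1) by ring, hln s _ (by omega)]
        unfold La
        simp only [h1, h2]
        simp)
      exact e1.symm.trans (propext e2)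
  · exact (L.wallA h hk hb hj).1

end LV

end Pool.Agent.MP42D
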