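import Pool.Agent.MP42.D.LineV

/-!
# Piece W3: the words on the walls of a line (owner helper89)
-/

set_option autoImplicit false
set_option linter.unusedSectionVars false

namespace Pool.Agent.MP42D

open Pool.Agent.Helper55.UNF

/-! ### the action of a word on a stack -/

/-- the action of a word with values on an infinite stack -/
def Act {τ : Type*} : List (Bool × τ × Prop) → (ℕ → Prop) → (ℕ → Prop) → Prop
  | [], c, c' => c = c'
  | (true, _, v) :: l, c, c' => Act l (psh v c) c'
  | (false, _, v) :: l, c, c' => ∃ c1, c = psh v c1 ∧ Act l c1 c'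

lemma Act.append {τ : Type*} : ∀ {l l' : List (Bool × τ × Prop)} {c c1 c' : ℕ → Prop},
    Act l c c1 → Act l' c1 c' → Act (l ++ l') c c'
  | [], _, _, _, _, h, h' => by
    have h : _ = _ := h
    subst h; exact h'
  | (true, _, v) :: l, l', c, c1, c', h, h' => Act.append (l := l) h h'
  | (false, _, v) :: l, l', c, c1, c', ⟨c2, e, h⟩, h' => ⟨c2, e, Act.append (l := l) h h'⟩

lemma Act.split {τ : Type*} : ∀ {l l' : List (Bool × τ × Prop)} {c c' : ℕ → Prop},
    Act (l ++ l') c c' → ∃ c1, Act l c c1 ∧ Act l' c1 c'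
  | [], _, c, _, h => ⟨c, rfl, h⟩
  | (true, _, v) :: l, l', c, c', h => Act.split (l := l) h
  | (false, _, v) :: l, l', c, c', ⟨c2, e, h⟩ => by
    obtain ⟨c1, h1, h2⟩ := Act.split (l := l) h
    exact ⟨c1, ⟨c2, e, h1⟩, h2⟩

lemma act_push {τ : Type*} (b : Fin 4 → Bool) (t : Fin 4 → τ) (v : Fin 4 → Prop) (c : ℕ → Prop) :
    Act (ls4 fun s => opt (b s) (true, t s, v s)) c (app (lst b v) c) := by
  rw [lst_eq]
  show Act (opt (b 3) (true, t 3, v 3) ++ opt (b 2) (true, t 2, v 2) ++
    opt (b 1) (true, t 1, v 1) ++ opt (b 0) (true, t 0, v 0)) c _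
  generalize b 0 = b0
  generalize b 1 = b1
  generalize b 2 = b2
  generalize b 3 = b3
  cases b0 <;> cases b1 <;> cases b2 <;> cases b3 <;> exact rfl

lemma act_pop {τ : Type*} (b : Fin 4 → Bool) (t : Fin 4 → τ) (v : Fin 4 → Prop) (c : ℕ → Prop) :
    Act (sl4 fun s => opt (b s) (false, t s, v s)) (app (lst b v) c) c := by
  rw [lst_eq]
  show Act (opt (b 0) (false, t 0, v 0) ++ opt (b 1) (false, t 1, v 1) ++
    opt (b 2) (false, t 2, v 2) ++ opt (b 3) (false, t 3, v 3)) _ c
  generalize b 0 = b0
  generalize b 1 = b1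
  generalize b 2 = b2
  generalize b 3 = b3
  cases b0 <;> cases b1 <;> cases b2 <;> cases b3
  all_goals
    first
      | exact rfl
      | exact ⟨_, rfl, rfl⟩
      | exact ⟨_, rfl, _, rfl, rfl⟩
      | exact ⟨_, rfl, _, rfl, _, rfl, rfl⟩
      | exact ⟨_, rfl, _, rfl, _, rfl, _, rfl, rfl⟩

lemma act_push' {τ : Type*} (b : Fin 4 → Bool) (t : Fin 4 → τ) (v : Fin 4 → Prop) (c : ℕ → Prop) :
    Act (sl4 fun s => opt (b s) (true, t s, v s)) c
      (app (lst (fun s => b (Fin.rev s)) fun s => v (Fin.rev s)) c) := by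
  rw [lst_eq]
  show Act (opt (b 0) (true, t 0, v 0) ++ opt (b 1) (true, t 1, v 1) ++
    opt (b 2) (true, t 2, v 2) ++ opt (b 3) (true, t 3, v 3)) c
    (app (opt (b 3) (v 3) ++ opt (b 2) (v 2) ++ opt (b 1) (v 1) ++ opt (b 0) (v 0)) c)
  generalize b 0 = b0
  generalize b 1 = b1
  generalize b 2 = b2
  generalize b 3 = b3
  cases b0 <;> cases b1 <;> cases b2 <;> cases b3 <;> exact rfl

lemma act_pop' {τ : Type*} (b : Fin 4 → Bool) (t : Fin 4 → τ) (v : Fin 4 → Prop) (c : ℕ → Prop) :
    Act (ls4 fun s => opt (b s) (false, t s, v s))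
      (app (lst (fun s => b (Fin.rev s)) fun s => v (Fin.rev s)) c) c := by
  rw [lst_eq]
  show Act (opt (b 3) (false, t 3, v 3) ++ opt (b 2) (false, t 2, v 2) ++
    opt (b 1) (false, t 1, v 1) ++ opt (b 0) (false, t 0, v 0))
    (app (opt (b 3) (v 3) ++ opt (b 2) (v 2) ++ opt (b 1) (v 1) ++ opt (b 0) (v 0)) c) c
  generalize b 0 = b0
  generalize b 1 = b1
  generalize b 2 = b2
  generalize b 3 = b3
  cases b0 <;> cases b1 <;> cases b2 <;> cases b3
  all_goals
    first
      | exact rfl
      | exact ⟨_, rfl, rfl⟩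
      | exact ⟨_, rfl, _, rfl, rfl⟩
      | exact ⟨_, rfl, _, rfl, _, rfl, rfl⟩
      | exact ⟨_, rfl, _, rfl, _, rfl, _, rfl, rfl⟩

namespace LV

variable {τ : Type*} {K : KD τ} {k : ℕ} {on : ℤ → Bool} (L : LV K k on)

/-- the value of a track in the middle of a segment -/
noncomputable def mv (s : Fin 4) (y : ℤ) : Prop :=
  if K.sd y = true then L.vA y 3 s else L.vB y 3 s

/-- the value of a track over the lower end and over the upper end of a segment -/
noncomputable def p0 (s : Fin 4) (y : ℤ) : Prop :=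
  if K.st y = true then L.vA y 0 s else L.vB y 0 s
noncomputable def p7 (s : Fin 4) (y : ℤ) : Prop :=
  if K.st (y + 1) = true then L.vA y 7 s else L.vB y 7 s

open Classical in
/-- the value of a single letter -/
noncomputable def cv (s : Fin 4) (y : ℤ) : Prop :=
  if K.cn s y = true then L.lam y (3 * k + nC s) else L.lam y (3 * k + sC s)

section

variable (h : K.Ok on) (hk : 20 ≤ k)

include h hk

lemma midB {s : Fin 4} {y : ℤ} (ho : on y = true) (hM : K.M s y = true) (hsd : K.sd y = false)
    {j : ℕ} (h1 : 1 ≤ j) (h6 : j ≤ 6) : L.vB y j s = L.vB y 1 s := by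
  induction j, h1 using Nat.le_induction with
  | base => rfl
  | succ j hj ih =>
    rw [← (L.sideB h hk ho (j := j) (by omega)).1 s]
    · exact ih (by omega)
    · rw [K.bB_mid _ _ (by omega), hM, hsd]; rfl
    · rw [K.aB_mid _ _ (by omega), hM, hsd]; rfl

lemma midA {s : Fin 4} {y : ℤ} (ho : on y = true) (hM : K.M s y = true) (hsd : K.sd y = true)
    {j : ℕ} (h1 : 1 ≤ j) (h6 : j ≤ 6) : L.vA y j s = L.vA y 1 s := by
  induction j, h1 using Nat.le_induction with
  | base => rfl
  | succ j hj ih =>
    rw [← (L.sideA h hk ho (j := j) (by omega)).1 s]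
    · exact ih (by omega)
    · rw [K.bA_mid _ _ (by omega), hM, hsd]; rfl
    · rw [K.aA_mid _ _ (by omega), hM, hsd]; rfl

omit hk in
lemma on_V {s : Fin 4} {y : ℤ} (hV : K.V s y = true) : on (y - 1) = true ∧ on y = true := by
  unfold KD.V at hV
  rw [Bool.or_eq_true] at hV
  rcases hV with h1 | h1
  · obtain ⟨-, a, b⟩ := h.M_on s _ h1
    rw [show y - 1 + 1 = y by ring] at b
    exact ⟨a, b⟩
  · obtain ⟨a, b, -⟩ := h.M_on s _ h1
    exact ⟨a, b⟩

omit h hk in
lemma V_of_M {s : Fin 4} {y : ℤ} (hM : K.M s y = true) : K.V s y = true := by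
  unfold KD.V; rw [hM]; simp

omit h hk in
lemma V_of_M' {s : Fin 4} {y : ℤ} (hM : K.M s y = true) : K.V s (y + 1) = true := by
  unfold KD.V; rw [show y + 1 - 1 = y by ring, hM]; simp

lemma p0_mv {s : Fin 4} {y : ℤ} (hM : K.M s y = true) : L.p0 s y = L.mv s y := by
  have ho := (h.M_on s y hM).2.1
  have hV := V_of_M hM
  unfold p0 mv
  cases hst : K.st y <;> cases hsd : K.sd y
  · rw [if_neg (by decide), if_neg (by decide), L.midB h hk ho hM hsd (j := 3) (by omega) (by omega)]
    apply (L.sideB h hk ho (j := 0) (by omega)).1 s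
    · rw [K.bB_0, hV, hst]; rfl
    · rw [K.aB_mid _ _ (by omega), hM, hsd]; rfl
  · rw [if_neg (by decide), if_pos rfl, L.midA h hk ho hM hsd (j := 3) (by omega) (by omega)]
    rw [(L.sideB h hk ho (j := 0) (by omega)).2.1 s, (L.sideA h hk ho (j := 0) (by omega)).2.2 s]
    · rw [K.bA_0, hV, hst]; rfl
    · rw [K.aA_mid _ _ (by omega), hM, hsd]; rfl
    · rw [K.bB_0, hV, hst]; rfl
    · rw [K.aB_mid _ _ (by omega), hM, hsd]; rfl
  · rw [if_pos rfl, if_neg (by decide), L.midB h hk ho hM hsd (j := 3) (by omega) (by omega)]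
    rw [(L.sideA h hk ho (j := 0) (by omega)).2.1 s, (L.sideB h hk ho (j := 0) (by omega)).2.2 s]
    · rw [K.bB_0, hV, hst]; rfl
    · rw [K.aB_mid _ _ (by omega), hM, hsd]; rfl
    · rw [K.bA_0, hV, hst]; rfl
    · rw [K.aA_mid _ _ (by omega), hM, hsd]; rfl
  · rw [if_pos rfl, if_pos rfl, L.midA h hk ho hM hsd (j := 3) (by omega) (by omega)]
    apply (L.sideA h hk ho (j := 0) (by omega)).1 s
    · rw [K.bA_0, hV, hst]; rfl
    · rw [K.aA_mid _ _ (by omega), hM, hsd]; rfl

lemma p7_mv {s : Fin 4} {y : ℤ} (hM : K.M s y = true) : L.p7 s y = L.mv s y := by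
  have ho := (h.M_on s y hM).2.1
  have hV := V_of_M' hM
  unfold p7 mv
  cases hst : K.st (y + 1) <;> cases hsd : K.sd y
  · rw [if_neg (by decide), if_neg (by decide), L.midB h hk ho hM hsd (j := 3) (by omega) (by omega),
      ← L.midB h hk ho hM hsd (j := 6) (by omega) (by omega)]
    symm
    apply (L.sideB h hk ho (j := 6) (by omega)).1 s
    · rw [K.bB_mid _ _ (by omega), hM, hsd]; rfl
    · rw [K.aB_6, hV, hst]; rfl
  · rw [if_neg (by decide), if_pos rfl, L.midA h hk ho hM hsd (j := 3) (by omega) (by omega),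
      ← L.midA h hk ho hM hsd (j := 6) (by omega) (by omega)]
    rw [(L.sideB h hk ho (j := 6) (by omega)).2.2 s, (L.sideA h hk ho (j := 6) (by omega)).2.1 s]
    · rw [K.bA_mid _ _ (by omega), hM, hsd]; rfl
    · rw [K.aA_6, hV, hst]; rfl
    · rw [K.bB_mid _ _ (by omega), hM, hsd]; rfl
    · rw [K.aB_6, hV, hst]; rfl
  · rw [if_pos rfl, if_neg (by decide), L.midB h hk ho hM hsd (j := 3) (by omega) (by omega),
      ← L.midB h hk ho hM hsd (j := 6) (by omega) (by omega)]
    rw [(L.sideA h hk ho (j := 6) (by omega)).2.2 s, (L.sideB h hk ho (j := 6) (by omega)).2.1 s]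
    · rw [K.bB_mid _ _ (by omega), hM, hsd]; rfl
    · rw [K.aB_6, hV, hst]; rfl
    · rw [K.bA_mid _ _ (by omega), hM, hsd]; rfl
    · rw [K.aA_6, hV, hst]; rfl
  · rw [if_pos rfl, if_pos rfl, L.midA h hk ho hM hsd (j := 3) (by omega) (by omega),
      ← L.midA h hk ho hM hsd (j := 6) (by omega) (by omega)]
    symm
    apply (L.sideA h hk ho (j := 6) (by omega)).1 s
    · rw [K.bA_mid _ _ (by omega), hM, hsd]; rfl
    · rw [K.aA_6, hV, hst]; rfl

omit hk in
lemma p7_p0 {s : Fin 4} {y : ℤ} (hV : K.V s y = true) : L.p7 s (y - 1) = L.p0 s y := by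
  obtain ⟨ho1, ho2⟩ := on_V h hV
  have hev := h.ev y ho1 ho2
  have hy : y - 1 + 1 = y := by ring
  unfold p7 p0
  rw [hy]
  cases hst : K.st y
  · rw [if_neg (by decide), if_neg (by decide)]
    have hb : K.bw (y - 1) = K.bw y := by
      by_contra hne
      rcases hev with h1 | h1
      · unfold KD.st at hst
        rw [if_neg (by rw [h1]; simp), if_pos hne] at hst
        exact absurd hst (by decide)
      · exact hne h1
    unfold vB
    cases hbw : K.bw y
    · rw [hbw] at hb
      rw [if_neg (by rw [hb]; decide), if_neg (by decide), Nat.zero_mul]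
      exact propext (L.pB_n y ho1 ho2 hb hbw s hV hst)
    · rw [hbw] at hb
      rw [if_pos hb, if_pos rfl, L.cB_1 y hb hbw, Nat.zero_mul]
      have e : K.bdB (y - 1) 7 = K.bdB y 0 := by
        funext s
        unfold KD.bdB
        rw [hy]
        simp
      rw [e]
  · rw [if_pos rfl, if_pos rfl]
    have hb : K.aw (y - 1) = K.aw y := by
      by_contra hne
      unfold KD.st at hst
      rw [if_pos hne] at hst
      exact absurd hst (by decide)
    unfold vA
    cases hbw : K.aw y
    · rw [hbw] at hb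
      rw [if_neg (by rw [hb]; decide), if_neg (by decide), Nat.zero_mul]
      exact propext (L.pA_n y ho1 ho2 hb hbw s hV hst)
    · rw [hbw] at hb
      rw [if_pos hb, if_pos rfl, L.cA_1 y hb hbw, Nat.zero_mul]
      have e : (fun s => K.bdA (y - 1) 7 (Fin.rev s)) = fun s => K.bdA y 0 (Fin.rev s) := by
        funext s
        unfold KD.bdA
        rw [hy]
        simp
      rw [e]

/-- the values of a track are constant -/
lemma mv_st {s : Fin 4} {y : ℤ} (h1 : K.M s (y - 1) = true) (h2 : K.M s y = true) :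
    L.mv s (y - 1) = L.mv s y := by
  rw [← L.p7_mv h hk h1, L.p7_p0 h (V_of_M h2), L.p0_mv h hk h2]

lemma p0_stop {s : Fin 4} {y : ℤ} (h1 : K.M s (y - 1) = true) : L.p0 s y = L.mv s (y - 1) := by
  have hV : K.V s y = true := by unfold KD.V; rw [h1]; rfl
  rw [← L.p7_p0 h hV, L.p7_mv h hk h1]

lemma p7_start {s : Fin 4} {y : ℤ} (h1 : K.M s (y + 1) = true) : L.p7 s y = L.mv s (y + 1) := by
  have hV : K.V s (y + 1) = true := V_of_M h1
  have := L.p7_p0 h hV
  rw [show y + 1 - 1 = y by ring] at this
  rw [this, L.p0_mv h hk h1]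

/-! ### letters -/

lemma kn0 {s : Fin 4} {y : ℤ} (ho : on y = true) (hn : K.kn s y 0 = true) :
    K.V s y = true ∧ K.st y = false ∧ L.lam y (0 * k + nC s) = L.p0 s y := by
  have hV := V_of_M (K := K) (s := s) (y := y)
  have hn' := hn
  rw [K.kn_0] at hn
  have h1 : K.V s y = true := by
    cases hv : K.V s y
    · cases hM : K.M s y <;> simp_all
    · rfl
  have h2 : K.st y = false := by
    cases hst : K.st y
    · rfl
    · cases hM : K.M s y <;> cases hsd : K.sd y <;> simp_all
  have h3 : K.aB s y 0 = false := by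
    rw [K.aB_mid _ _ (by omega)]
    cases hM : K.M s y <;> cases hsd : K.sd y <;> simp_all
  refine ⟨h1, h2, ?_⟩
  unfold p0
  rw [h2, if_neg (by decide)]
  symm
  apply (L.sideB h hk ho (j := 0) (by omega)).2.1 s _ h3
  rw [K.bB_0, h1, h2]; rfl

lemma ks0 {s : Fin 4} {y : ℤ} (ho : on y = true) (hn : K.ks s y 0 = true) :
    K.V s y = true ∧ K.st y = true ∧ L.lam y (0 * k + sC s) = L.p0 s y := by
  have hV := V_of_M (K := K) (s := s) (y := y)
  rw [K.ks_0] at hn
  have h1 : K.V s y = true := by
    cases hv : K.V s y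
    · cases hM : K.M s y <;> simp_all
    · rfl
  have h2 : K.st y = true := by
    cases hst : K.st y
    · cases hM : K.M s y <;> cases hsd : K.sd y <;> simp_all
    · rfl
  have h3 : K.aA s y 0 = false := by
    rw [K.aA_mid _ _ (by omega)]
    cases hM : K.M s y <;> cases hsd : K.sd y <;> simp_all
  refine ⟨h1, h2, ?_⟩
  unfold p0
  rw [h2, if_pos rfl]
  symm
  apply (L.sideA h hk ho (j := 0) (by omega)).2.1 s _ h3
  rw [K.bA_0, h1, h2]; rfl

lemma kn6 {s : Fin 4} {y : ℤ} (ho : on y = true) (hn : K.kn s y 6 = true) :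
    K.V s (y + 1) = true ∧ K.st (y + 1) = true ∧ L.lam y (6 * k + nC s) = L.p7 s y := by
  have hV := V_of_M' (K := K) (s := s) (y := y)
  rw [K.kn_6] at hn
  have h1 : K.V s (y + 1) = true := by
    cases hv : K.V s (y + 1)
    · cases hM : K.M s y <;> simp_all
    · rfl
  have h2 : K.st (y + 1) = true := by
    cases hst : K.st (y + 1)
    · cases hM : K.M s y <;> cases hsd : K.sd y <;> simp_all
    · rfl
  have h3 : K.bA s y 6 = false := by
    rw [K.bA_mid _ _ (by omega)]
    cases hM : K.M s y <;> cases hsd : K.sd y <;> simp_all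
  refine ⟨h1, h2, ?_⟩
  unfold p7
  rw [h2, if_pos rfl]
  symm
  apply (L.sideA h hk ho (j := 6) (by omega)).2.2 s h3
  rw [K.aA_6, h1, h2]; rfl

lemma ks6 {s : Fin 4} {y : ℤ} (ho : on y = true) (hn : K.ks s y 6 = true) :
    K.V s (y + 1) = true ∧ K.st (y + 1) = false ∧ L.lam y (6 * k + sC s) = L.p7 s y := by
  have hV := V_of_M' (K := K) (s := s) (y := y)
  rw [K.ks_6] at hn
  have h1 : K.V s (y + 1) = true := by
    cases hv : K.V s (y + 1)
    · cases hM : K.M s y <;> simp_all
    · rfl
  have h2 : K.st (y + 1) = false := by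
    cases hst : K.st (y + 1)
    · rfl
    · cases hM : K.M s y <;> cases hsd : K.sd y <;> simp_all
  have h3 : K.bB s y 6 = false := by
    rw [K.bB_mid _ _ (by omega)]
    cases hM : K.M s y <;> cases hsd : K.sd y <;> simp_all
  refine ⟨h1, h2, ?_⟩
  unfold p7
  rw [h2, if_neg (by decide)]
  symm
  apply (L.sideB h hk ho (j := 6) (by omega)).2.2 s h3
  rw [K.aB_6, h1, h2]; rfl

omit hk in
lemma cv_n {s : Fin 4} {y : ℤ} (hc : K.cn s y = true) : L.cv s y = L.lam y (3 * k + nC s) := by
  unfold cv; rw [if_pos hc]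

omit hk in
lemma cv_s {s : Fin 4} {y : ℤ} (hc : K.cs s y = true) : L.cv s y = L.lam y (3 * k + sC s) := by
  unfold cv
  rw [if_neg]
  rw [(h.cs_ok s y hc).2.2.2.2 s]
  decide

/-- The values of the letters of the line. -/
theorem letter {y : ℤ} (ho : on y = true) {T : ℕ} (hT : T < 7 * k)
    (hl : (K.kl k y T).ln ≠ Helper55.UNF.Ln.z) :
    (∃ s, K.M s y = true ∧ L.lam y T = L.mv s y) ∨
    (∃ s, K.M s (y - 1) = true ∧ L.lam y T = L.mv s (y - 1)) ∨
    (∃ s, K.M s (y + 1) = true ∧ L.lam y T = L.mv s (y + 1)) ∨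
    (∃ s, (K.cn s y = true ∨ K.cs s y = true) ∧ L.lam y T = L.cv s y) := by
  have hkp : 0 < k := by omega
  have hj : T / k < 7 := by
    rw [Nat.div_lt_iff_lt_mul hkp]; exact hT
  have eT : T = T / k * k + T % k := by
    rw [Nat.mul_comm]; exact (Nat.div_add_mod T k).symm
  have key : (∃ s, K.kn s y (T / k) = true ∧ T % k = nC s) ∨
      (∃ s, K.ks s y (T / k) = true ∧ T % k = sC s) := by
    by_contra hno
    rw [not_or] at hno
    apply hl
    unfold KD.kl
    rw [if_neg hno.1, if_neg hno.2]
    split_ifs <;> rfl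
  rcases key with ⟨s, h1, h2⟩ | ⟨s, h1, h2⟩
  · rw [h2] at eT
    by_cases h0 : T / k = 0
    · rw [h0] at h1 eT
      obtain ⟨a1, a2, a3⟩ := L.kn0 h hk ho h1
      rw [eT, a3]
      cases hM : K.M s y
      · right; left
        have : K.M s (y - 1) = true := by
          unfold KD.V at a1; rw [hM, Bool.or_false] at a1; exact a1
        exact ⟨s, this, L.p0_stop h hk this⟩
      · exact Or.inl ⟨s, hM, L.p0_mv h hk hM⟩
    · by_cases h6 : T / k = 6
      · rw [h6] at h1 eT
        obtain ⟨a1, a2, a3⟩ := L.kn6 h hk ho h1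
        rw [eT, a3]
        cases hM : K.M s y
        · right; right; left
          have : K.M s (y + 1) = true := by
            unfold KD.V at a1
            rw [show y + 1 - 1 = y by ring, hM, Bool.false_or] at a1; exact a1
          exact ⟨s, this, L.p7_start h hk this⟩
        · exact Or.inl ⟨s, hM, L.p7_mv h hk hM⟩
      · rw [K.kn_mid _ _ h0 h6, Bool.and_eq_true, decide_eq_true_iff] at h1
        rw [h1.1] at eT
        right; right; right
        refine ⟨s, Or.inl h1.2, ?_⟩
        rw [L.cv_n h h1.2, ← eT]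
  · rw [h2] at eT
    by_cases h0 : T / k = 0
    · rw [h0] at h1 eT
      obtain ⟨a1, a2, a3⟩ := L.ks0 h hk ho h1
      rw [eT, a3]
      cases hM : K.M s y
      · right; left
        have : K.M s (y - 1) = true := by
          unfold KD.V at a1; rw [hM, Bool.or_false] at a1; exact a1
        exact ⟨s, this, L.p0_stop h hk this⟩
      · exact Or.inl ⟨s, hM, L.p0_mv h hk hM⟩
    · by_cases h6 : T / k = 6
      · rw [h6] at h1 eT
        obtain ⟨a1, a2, a3⟩ := L.ks6 h hk ho h1
        rw [eT, a3]
        cases hM : K.M s y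
        · right; right; left
          have : K.M s (y + 1) = true := by
            unfold KD.V at a1
            rw [show y + 1 - 1 = y by ring, hM, Bool.false_or] at a1; exact a1
          exact ⟨s, this, L.p7_start h hk this⟩
        · exact Or.inl ⟨s, hM, L.p7_mv h hk hM⟩
      · rw [K.ks_mid _ _ h0 h6, Bool.and_eq_true, decide_eq_true_iff] at h1
        rw [h1.1] at eT
        right; right; right
        refine ⟨s, Or.inr h1.2, ?_⟩
        rw [L.cv_s h h1.2, ← eT]

/-! ### the base of the stacks -/

lemma stopB {y : ℤ} (hb : K.bw y = true) :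
    L.bsB y 1 = app (lst (fun s => K.M s (y - 1) && !K.M s y && !K.bw (y - 1))
      fun s => L.mv s (y - 1)) (L.bsB y 0) := by
  have ho := h.bw_on y hb
  rcases (L.wallB h hk hb (j := 0) (by omega)).2 with ⟨h1, h2⟩ | ⟨h1, h2⟩
  · rw [lst_none] at h2
    · rw [lst_none]
      · exact h2.symm
      · intro s
        have hks := h1 s
        rw [K.ks_0] at hks
        cases hM1 : K.M s (y - 1)
        · rfl
        · cases hM : K.M s y
          · cases hb1 : K.bw (y - 1)
            · exfalso
              have hV : K.V s y = true := by unfold KD.V; rw [hM1]; rfl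
              rcases K.ev_stop h hM1 hM with ⟨-, -, a3, -⟩ | ⟨-, -, -, a4⟩
              · rw [hb1, hb] at a3
                exact absurd a3 (by decide)
              · rw [hV, a4, hM] at hks
                simp at hks
            · rfl
          · rfl
    · intro s
      cases hn : K.kn s y 0
      · rfl
      · obtain ⟨a1, a2, -⟩ := L.kn0 h hk ho hn
        rw [K.bB_0, a1, a2]
        rfl
  · rw [h2]
    have e : (fun s => K.ks s y 0 && !K.aB s y 0) =
        fun s => K.M s (y - 1) && !K.M s y && !K.bw (y - 1) := by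
      funext s
      cases hn : K.ks s y 0
      · cases hM1 : K.M s (y - 1)
        · rfl
        · cases hM : K.M s y
          · cases hb1 : K.bw (y - 1)
            · exfalso
              have hV : K.V s y = true := by unfold KD.V; rw [hM1]; rfl
              rw [K.ks_0] at hn
              rcases K.ev_stop h hM1 hM with ⟨-, -, a3, -⟩ | ⟨-, -, -, a4⟩
              · rw [hb1, hb] at a3
                exact absurd a3 (by decide)
              · rw [hV, a4, hM] at hn
                simp at hn
            · rfl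
          · rfl
      · obtain ⟨a1, a2, -⟩ := L.ks0 h hk ho hn
        rw [K.aB_mid _ _ (by omega)]
        cases hM : K.M s y
        · have hM1 : K.M s (y - 1) = true := by
            unfold KD.V at a1; rw [hM, Bool.or_false] at a1; exact a1
          rcases K.ev_stop h hM1 hM with ⟨-, -, -, a4⟩ | ⟨b1, -, -, -⟩
          · rw [a2] at a4
            exact absurd a4 (by decide)
          · rw [hM1, b1]; rfl
        · cases hsd : K.sd y
          · simp
          · exfalso
            rw [K.ks_0, a2, hM, hsd, a1] at hn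
            simp at hn
    rw [e]
    congr 1
    apply lst_congr
    intro s hs
    simp only [Bool.and_eq_true, Bool.not_eq_true'] at hs
    have hn : K.ks s y 0 = true := by
      have := congrFun e s
      simp only [hs.1.1, hs.1.2, hs.2, Bool.not_false, Bool.and_true] at this
      rw [Bool.and_eq_true] at this
      exact this.1
    rw [(L.ks0 h hk ho hn).2.2, L.p0_stop h hk hs.1.1]

lemma startB {y : ℤ} (hb : K.bw y = true) :
    L.bsB y 6 = app (lst (fun s => K.M s (y + 1) && !K.M s y && !K.bw (y + 1))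
      fun s => L.mv s (y + 1)) (L.bsB y 7) := by
  have ho := h.bw_on y hb
  have hy : y + 1 - 1 = y := by ring
  have hst : ∀ s, K.M s (y + 1) = true → K.M s y = false → K.bw (y + 1) = false →
      K.kn s y 6 = true := by
    intro s hM1 hM hb1
    have hM' : K.M s (y + 1 - 1) = false := by rw [hy]; exact hM
    have hV : K.V s (y + 1) = true := V_of_M hM1
    rcases K.ev_start h hM1 hM' with ⟨-, -, a3, -⟩ | ⟨-, -, -, a4⟩
    · rw [hy, hb1, hb] at a3
      exact absurd a3 (by decide)
    · rw [K.kn_6, hV, a4, hM]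
      simp
  rcases (L.wallB h hk hb (j := 6) (by omega)).2 with ⟨h1, h2⟩ | ⟨h1, h2⟩
  · rw [h2]
    have e : (fun s => K.kn s y 6 && !K.bB s y 6) =
        fun s => K.M s (y + 1) && !K.M s y && !K.bw (y + 1) := by
      funext s
      cases hn : K.kn s y 6
      · cases hM1 : K.M s (y + 1)
        · rfl
        · cases hM : K.M s y
          · cases hb1 : K.bw (y + 1)
            · exfalso
              rw [hst s hM1 hM hb1] at hn
              exact absurd hn (by decide)
            · rfl
          · rfl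
      · obtain ⟨a1, a2, -⟩ := L.kn6 h hk ho hn
        rw [K.bB_mid _ _ (by omega)]
        cases hM : K.M s y
        · have hM1 : K.M s (y + 1) = true := by
            unfold KD.V at a1; rw [hy, hM, Bool.false_or] at a1; exact a1
          have hM' : K.M s (y + 1 - 1) = false := by rw [hy]; exact hM
          rcases K.ev_start h hM1 hM' with ⟨-, -, -, a4⟩ | ⟨-, b1, -, -⟩
          · rw [a2] at a4
            exact absurd a4 (by decide)
          · rw [hM1, b1]; rfl
        · cases hsd : K.sd y
          · simp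
          · exfalso
            rw [K.kn_6, a2, hM, hsd, a1] at hn
            simp at hn
    rw [e]
    congr 1
    apply lst_congr
    intro s hs
    simp only [Bool.and_eq_true, Bool.not_eq_true'] at hs
    have hn := hst s hs.1.1 hs.1.2 hs.2
    rw [(L.kn6 h hk ho hn).2.2, L.p7_start h hk hs.1.1]
  · rw [lst_none] at h2
    · rw [lst_none]
      · exact h2.symm
      · intro s
        cases hM1 : K.M s (y + 1)
        · rfl
        · cases hM : K.M s y
          · cases hb1 : K.bw (y + 1)
            · exfalso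
              have := hst s hM1 hM hb1
              rw [h1] at this
              exact absurd this (by decide)
            · rfl
          · rfl
    · intro s
      cases hn : K.ks s y 6
      · rfl
      · obtain ⟨a1, a2, -⟩ := L.ks6 h hk ho hn
        rw [K.aB_6, a1, a2]
        rfl

lemma stopA {y : ℤ} (hb : K.aw y = true) :
    L.bsA y 1 = app (lst (fun s => K.M (Fin.rev s) (y - 1) && !K.M (Fin.rev s) y &&
      !K.aw (y - 1)) fun s => L.mv (Fin.rev s) (y - 1)) (L.bsA y 0) := by
  have ho := h.aw_on y hb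
  have hsd := K.sd_A hb
  have hst : ∀ s, K.M s (y - 1) = true → K.M s y = false → K.aw (y - 1) = false →
      K.kn s y 0 = true := by
    intro s hM1 hM hb1
    have hV : K.V s y = true := by unfold KD.V; rw [hM1]; rfl
    rcases K.ev_stop h hM1 hM with ⟨-, -, -, a4⟩ | ⟨-, -, a3, -⟩
    · rw [K.kn_0, hV, a4, hM]
      simp
    · rw [hb1, hb] at a3
      exact absurd a3 (by decide)
  rcases (L.wallA h hk hb (j := 0) (by omega)).2 with ⟨h1, h2⟩ | ⟨h1, h2⟩
  · rw [lst_none] at h2
    · rw [lst_none]
      · exact h2.symm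
      · intro s
        cases hM1 : K.M (Fin.rev s) (y - 1)
        · rfl
        · cases hM : K.M (Fin.rev s) y
          · cases hb1 : K.aw (y - 1)
            · exfalso
              have := hst _ hM1 hM hb1
              rw [h1] at this
              exact absurd this (by decide)
            · rfl
          · rfl
    · intro s
      cases hn : K.ks (Fin.rev s) y 0
      · rfl
      · obtain ⟨a1, a2, -⟩ := L.ks0 h hk ho hn
        rw [K.bA_0, a1, a2]
        rfl
  · rw [h2]
    have e : (fun s => K.kn (Fin.rev s) y 0 && !K.aA (Fin.rev s) y 0) =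
        fun s => K.M (Fin.rev s) (y - 1) && !K.M (Fin.rev s) y && !K.aw (y - 1) := by
      funext s
      cases hn : K.kn (Fin.rev s) y 0
      · cases hM1 : K.M (Fin.rev s) (y - 1)
        · rfl
        · cases hM : K.M (Fin.rev s) y
          · cases hb1 : K.aw (y - 1)
            · exfalso
              rw [hst _ hM1 hM hb1] at hn
              exact absurd hn (by decide)
            · rfl
          · rfl
      · obtain ⟨a1, a2, -⟩ := L.kn0 h hk ho hn
        rw [K.aA_mid _ _ (by omega), hsd]
        cases hM : K.M (Fin.rev s) y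
        · have hM1 : K.M (Fin.rev s) (y - 1) = true := by
            unfold KD.V at a1; rw [hM, Bool.or_false] at a1; exact a1
          rcases K.ev_stop h hM1 hM with ⟨b1, -, -, -⟩ | ⟨-, -, -, a4⟩
          · rw [hM1, b1]; rfl
          · rw [a2] at a4
            exact absurd a4 (by decide)
        · exfalso
          rw [K.kn_0, a2, hM, hsd, a1] at hn
          simp at hn
    rw [e]
    congr 1
    apply lst_congr
    intro s hs
    simp only [Bool.and_eq_true, Bool.not_eq_true'] at hs
    have hn := hst _ hs.1.1 hs.1.2 hs.2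
    have := (L.kn0 h hk ho hn).2.2
    rw [nC_rev] at this
    rw [this, L.p0_stop h hk hs.1.1]

lemma startA {y : ℤ} (hb : K.aw y = true) :
    L.bsA y 6 = app (lst (fun s => K.M (Fin.rev s) (y + 1) && !K.M (Fin.rev s) y &&
      !K.aw (y + 1)) fun s => L.mv (Fin.rev s) (y + 1)) (L.bsA y 7) := by
  have ho := h.aw_on y hb
  have hsd := K.sd_A hb
  have hy : y + 1 - 1 = y := by ring
  have hst : ∀ s, K.M s (y + 1) = true → K.M s y = false → K.aw (y + 1) = false →
      K.ks s y 6 = true := by
    intro s hM1 hM hb1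
    have hM' : K.M s (y + 1 - 1) = false := by rw [hy]; exact hM
    have hV : K.V s (y + 1) = true := V_of_M hM1
    rcases K.ev_start h hM1 hM' with ⟨-, -, -, a4⟩ | ⟨-, -, a3, -⟩
    · rw [K.ks_6, hV, a4, hM]
      simp
    · rw [hy, hb1, hb] at a3
      exact absurd a3 (by decide)
  rcases (L.wallA h hk hb (j := 6) (by omega)).2 with ⟨h1, h2⟩ | ⟨h1, h2⟩
  · rw [h2]
    have e : (fun s => K.ks (Fin.rev s) y 6 && !K.bA (Fin.rev s) y 6) =
        fun s => K.M (Fin.rev s) (y + 1) && !K.M (Fin.rev s) y && !K.aw (y + 1) := by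
      funext s
      cases hn : K.ks (Fin.rev s) y 6
      · cases hM1 : K.M (Fin.rev s) (y + 1)
        · rfl
        · cases hM : K.M (Fin.rev s) y
          · cases hb1 : K.aw (y + 1)
            · exfalso
              rw [hst _ hM1 hM hb1] at hn
              exact absurd hn (by decide)
            · rfl
          · rfl
      · obtain ⟨a1, a2, -⟩ := L.ks6 h hk ho hn
        rw [K.bA_mid _ _ (by omega), hsd]
        cases hM : K.M (Fin.rev s) y
        · have hM1 : K.M (Fin.rev s) (y + 1) = true := by
            unfold KD.V at a1; rw [hy, hM, Bool.false_or] at a1; exact a1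
          have hM' : K.M (Fin.rev s) (y + 1 - 1) = false := by rw [hy]; exact hM
          rcases K.ev_start h hM1 hM' with ⟨-, b1, -, -⟩ | ⟨-, -, -, a4⟩
          · rw [hM1, b1]; rfl
          · rw [a2] at a4
            exact absurd a4 (by decide)
        · exfalso
          rw [K.ks_6, a2, hM, hsd, a1] at hn
          simp at hn
    rw [e]
    congr 1
    apply lst_congr
    intro s hs
    simp only [Bool.and_eq_true, Bool.not_eq_true'] at hs
    have hn := hst _ hs.1.1 hs.1.2 hs.2
    have := (L.ks6 h hk ho hn).2.2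
    rw [sC_rev] at this
    rw [this, L.p7_start h hk hs.1.1]
  · rw [lst_none] at h2
    · rw [lst_none]
      · exact h2.symm
      · intro s
        cases hM1 : K.M (Fin.rev s) (y + 1)
        · rfl
        · cases hM : K.M (Fin.rev s) y
          · cases hb1 : K.aw (y + 1)
            · exfalso
              have := hst _ hM1 hM hb1
              rw [h1] at this
              exact absurd this (by decide)
            · rfl
          · rfl
    · intro s
      cases hn : K.kn (Fin.rev s) y 6
      · rfl
      · obtain ⟨a1, a2, -⟩ := L.kn6 h hk ho hn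
        rw [K.aA_6, a1, a2]
        rfl

end

end LV

end Pool.Agent.MP42D
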