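import Pool.Agent.MP42.D.WDefs

/-!
# Piece PL: the strands on a plate (part of piece W, owner helper2)

Only tables of one plate, no geometry.  `R : D.Rel k hv vv`: in every cell of the table that is
crossed by exactly two nonzero edges these two edges have the same value.
-/

set_option autoImplicit false
set_option linter.unusedSectionVars false
set_option linter.unusedVariables false

namespace Pool.Agent.MP42D

open Pool.Agent.Helper55.UNF

namespace KD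

variable {τ : Type*} (K : KD τ)

/-- The tracks that leave or enter the B side of a plate are in lower slots than the tracks that
go on. -/
lemma ordW {on : ℤ → Bool} (h : K.Ok on) {y : ℤ} (ho : on y = true) (hb : K.bw y = false) {j : ℕ}
    {s1 s : Fin 4} (h1 : K.bB s1 y j ≠ K.aB s1 y j) (h2 : K.bB s y j = true)
    (h3 : K.aB s y j = true) : s1 < s := by
  by_cases h0 : j = 0
  · subst h0
    unfold bB aB V at *
    simp only [if_true, if_neg (show ¬ (0 : ℕ) = 6 by decide), Bool.and_eq_true,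
      Bool.not_eq_true'] at h1 h2 h3
    obtain ⟨h2, hst⟩ := h2
    obtain ⟨h3, hsd⟩ := h3
    rw [hst, hsd] at h1
    have hM1 : K.M s1 y = false := by
      cases hc : K.M s1 y
      · rfl
      · rw [hc] at h1; simp at h1
    have hM0 : K.M s1 (y - 1) = true := by
      cases hc : K.M s1 (y - 1)
      · rw [hc, hM1] at h1; simp at h1
      · rfl
    have hon : on (y - 1) = true := (h.M_on s y h3).1
    have ha : K.aw (y - 1) = false ∧ K.aw y = true := by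
      rcases h.stop s1 y hM0 hM1 with h4 | h4
      · exact h4
      · rw [hb] at h4; exact absurd h4.2 (by decide)
    have hbb : K.bw (y - 1) = K.bw y := by
      rcases h.ev y hon ho with h5 | h5
      · rw [ha.1, ha.2] at h5; exact absurd h5 (by decide)
      · exact h5
    have hMs : K.M s (y - 1) = true := by
      by_contra hc
      rcases h.start s y h3 (by simpa using hc) with h4 | h4
      · rw [ha.1] at h4; exact absurd h4.1 (by decide)
      · rw [hbb, hb] at h4; exact absurd h4.1 (by decide)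
    exact h.ordA y s1 s (by rw [ha.1, ha.2]; decide) (by rw [hM0, hM1]; decide) hMs h3
  · by_cases h6 : j = 6
    · subst h6
      unfold bB aB V at *
      simp only [if_true, if_neg (show ¬ (6 : ℕ) = 0 by decide), Bool.and_eq_true,
        Bool.not_eq_true'] at h1 h2 h3
      obtain ⟨h2, hsd⟩ := h2
      obtain ⟨h3, hst⟩ := h3
      have e1 : y + 1 - 1 = y := by ring
      rw [e1] at h1 h3
      rw [hst, hsd] at h1
      have hM1 : K.M s1 y = false := by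
        cases hc : K.M s1 y
        · rfl
        · rw [hc] at h1; simp at h1
      have hM0 : K.M s1 (y + 1) = true := by
        cases hc : K.M s1 (y + 1)
        · rw [hc, hM1] at h1; simp at h1
        · rfl
      have hon : on (y + 1) = true := (h.M_on s y h2).2.2
      have ha : K.aw y = true ∧ K.aw (y + 1) = false := by
        rcases h.start s1 (y + 1) hM0 (by rw [e1]; exact hM1) with h4 | h4
        · rw [e1] at h4; exact h4
        · rw [e1, hb] at h4; exact absurd h4.1 (by decide)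
      have hbb : K.bw y = K.bw (y + 1) := by
        have h5 := h.ev (y + 1) (by rw [e1]; exact ho) hon
        rw [e1] at h5
        rcases h5 with h5 | h5
        · rw [ha.1, ha.2] at h5; exact absurd h5 (by decide)
        · exact h5
      have hMs : K.M s (y + 1) = true := by
        by_contra hc
        rcases h.stop s (y + 1) (by rw [e1]; exact h2) (by simpa using hc) with h4 | h4
        · rw [e1, ha.1] at h4; exact absurd h4.1 (by decide)
        · rw [← hbb, hb] at h4; exact absurd h4.2 (by decide)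
      exact h.ordA (y + 1) s1 s (by rw [e1, ha.1, ha.2]; decide) (by rw [e1, hM0, hM1]; decide)
        (by rw [e1]; exact h2) hMs
    · exact absurd ((K.bB_mid s1 y h0).trans (K.aB_mid s1 y h6).symm) h1

/-- On the A side they are in higher slots. -/
lemma ordE {on : ℤ → Bool} (h : K.Ok on) {y : ℤ} (ho : on y = true) (ha : K.aw y = false) {j : ℕ}
    {s1 s : Fin 4} (h1 : K.bA s1 y j ≠ K.aA s1 y j) (h2 : K.bA s y j = true)
    (h3 : K.aA s y j = true) : s < s1 := by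
  by_cases h0 : j = 0
  · subst h0
    unfold bA aA V at *
    simp only [if_true, if_neg (show ¬ (0 : ℕ) = 6 by decide), Bool.and_eq_true] at h1 h2 h3
    obtain ⟨h2, hst⟩ := h2
    obtain ⟨h3, hsd⟩ := h3
    rw [hst, hsd] at h1
    have hM1 : K.M s1 y = false := by
      cases hc : K.M s1 y
      · rfl
      · rw [hc] at h1; simp at h1
    have hM0 : K.M s1 (y - 1) = true := by
      cases hc : K.M s1 (y - 1)
      · rw [hc, hM1] at h1; simp at h1
      · rfl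
    have hon : on (y - 1) = true := (h.M_on s y h3).1
    have hb : K.bw (y - 1) = false ∧ K.bw y = true := by
      rcases h.stop s1 y hM0 hM1 with h4 | h4
      · rw [ha] at h4; exact absurd h4.2 (by decide)
      · exact h4
    have hbb : K.aw (y - 1) = K.aw y := by
      rcases h.ev y hon ho with h5 | h5
      · exact h5
      · rw [hb.1, hb.2] at h5; exact absurd h5 (by decide)
    have hMs : K.M s (y - 1) = true := by
      by_contra hc
      rcases h.start s y h3 (by simpa using hc) with h4 | h4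
      · rw [hbb, ha] at h4; exact absurd h4.1 (by decide)
      · rw [hb.1] at h4; exact absurd h4.1 (by decide)
    exact h.ordB y s1 s (by rw [hb.1, hb.2]; decide) (by rw [hM0, hM1]; decide) hMs h3
  · by_cases h6 : j = 6
    · subst h6
      unfold bA aA V at *
      simp only [if_true, if_neg (show ¬ (6 : ℕ) = 0 by decide), Bool.and_eq_true] at h1 h2 h3
      obtain ⟨h2, hsd⟩ := h2
      obtain ⟨h3, hst⟩ := h3
      have e1 : y + 1 - 1 = y := by ring
      rw [e1] at h1 h3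
      rw [hst, hsd] at h1
      have hM1 : K.M s1 y = false := by
        cases hc : K.M s1 y
        · rfl
        · rw [hc] at h1; simp at h1
      have hM0 : K.M s1 (y + 1) = true := by
        cases hc : K.M s1 (y + 1)
        · rw [hc, hM1] at h1; simp at h1
        · rfl
      have hon : on (y + 1) = true := (h.M_on s y h2).2.2
      have hb : K.bw y = true ∧ K.bw (y + 1) = false := by
        rcases h.start s1 (y + 1) hM0 (by rw [e1]; exact hM1) with h4 | h4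
        · rw [e1, ha] at h4; exact absurd h4.1 (by decide)
        · rw [e1] at h4; exact h4
      have hbb : K.aw y = K.aw (y + 1) := by
        have h5 := h.ev (y + 1) (by rw [e1]; exact ho) hon
        rw [e1] at h5
        rcases h5 with h5 | h5
        · exact h5
        · rw [hb.1, hb.2] at h5; exact absurd h5 (by decide)
      have hMs : K.M s (y + 1) = true := by
        by_contra hc
        rcases h.stop s (y + 1) (by rw [e1]; exact h2) (by simpa using hc) with h4 | h4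
        · rw [← hbb, ha] at h4; exact absurd h4.2 (by decide)
        · rw [e1, hb.1] at h4; exact absurd h4.1 (by decide)
      exact h.ordB (y + 1) s1 s (by rw [e1, hb.1, hb.2]; decide) (by rw [e1, hM0, hM1]; decide)
        (by rw [e1]; exact h2) hMs
    · exact absurd ((K.bA_mid s1 y h0).trans (K.aA_mid s1 y h6).symm) h1

end KD

namespace PD

variable {τ : Type*} {D : PD τ} {k : ℕ} {hv vv : ℕ → ℕ → Prop} {onW onE : ℤ → Bool}

/-! ### steps -/

lemma Rel.col (R : D.Rel k hv vv) {X a b : ℕ} (hX : X < 7 * k) (hb : b ≤ 7 * k)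
    (h1 : ∀ Y, a ≤ Y → Y ≤ b → D.Hv k X Y ≠ El.o)
    (h2 : ∀ Y, a ≤ Y → Y < b → D.Vv k X Y = El.o ∧ D.Vv k (X + 1) Y = El.o) :
    ∀ Y, a ≤ Y → Y ≤ b → (hv X Y ↔ hv X a) := by
  intro Y haY
  induction Y, haY using Nat.le_induction with
  | base => intro _; exact Iff.rfl
  | succ Y haY ih =>
    intro hY
    rw [← ih (by omega)]
    refine (R X Y hX (by omega) Prt.N Prt.S (by decide) (h1 _ (by omega) hY)
      (h1 _ haY (by omega)) ?_)
    intro r hr1 hr2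
    cases r
    · exact (h2 Y haY (by omega)).1
    · exact (h2 Y haY (by omega)).2
    · exact absurd rfl hr1
    · exact absurd rfl hr2

lemma Rel.row (R : D.Rel k hv vv) {Y a b : ℕ} (hY : Y < 7 * k) (hb : b ≤ 7 * k)
    (h1 : ∀ X, a ≤ X → X ≤ b → D.Vv k X Y ≠ El.o)
    (h2 : ∀ X, a ≤ X → X < b → D.Hv k X Y = El.o ∧ D.Hv k X (Y + 1) = El.o) :
    ∀ X, a ≤ X → X ≤ b → (vv X Y ↔ vv a Y) := by
  intro X haX
  induction X, haX using Nat.le_induction with
  | base => intro _; exact Iff.rfl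
  | succ X haX ih =>
    intro hX
    rw [← ih (by omega)]
    refine (R X Y (by omega) hY Prt.E Prt.W (by decide) (h1 _ (by omega) hX)
      (h1 _ haX (by omega)) ?_)
    intro r hr1 hr2
    cases r
    · exact absurd rfl hr2
    · exact absurd rfl hr1
    · exact (h2 X haX (by omega)).2
    · exact (h2 X haX (by omega)).1


/-! ### values near the west side -/

lemma Hv_W (hk : 20 ≤ k) {X : ℕ} (hX : X < k) (Y : ℕ) :
    D.Hv k X Y = if (∃ s : Fin 4, X = dB s ∧ D.KW.lnB k s D.y Y = true) then El.e else El.o := by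
  unfold Hv
  by_cases hh : ∃ s : Fin 4, X = dB s ∧ D.KW.lnB k s D.y Y = true
  · rw [if_pos ⟨hX, hh⟩, if_pos hh]
  · rw [if_neg (fun h => hh h.2), if_neg hh]
    split_ifs <;> first | rfl | (exfalso; omega)

lemma Hv_E (hk : 20 ≤ k) {X : ℕ} (hX : 6 * k ≤ X) (Y : ℕ) :
    D.Hv k X Y = if (∃ s : Fin 4, X + 1 + dA s = 7 * k ∧ D.KE.lnA k s D.y Y = true) then El.e
      else El.o := by
  unfold Hv
  rw [if_neg (fun h => by have := h.1; omega)]
  by_cases hh : ∃ s : Fin 4, X + 1 + dA s = 7 * k ∧ D.KE.lnA k s D.y Y = true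
  · rw [if_pos ⟨hX, hh⟩, if_pos hh]
  · rw [if_neg (fun h => hh h.2), if_neg hh]
    split_ifs <;> first | rfl | (exfalso; omega)

lemma row_eq {j t i u : ℕ} (ht : t < k) (hu : u < k) (h : j * k + t = i * k + u) :
    j = i ∧ t = u := by
  obtain ⟨e1, e2⟩ := div_mod (j := j) ht
  obtain ⟨e3, e4⟩ := div_mod (j := i) hu
  rw [h] at e1 e2
  exact ⟨e1.symm.trans e3, e2.symm.trans e4⟩

lemma Vv_Wo (hk : 20 ≤ k) {X j t : ℕ} (hX : X ≤ k) (ht : t < k)
    (hn : ∀ s : Fin 4, X ≤ dB s → D.KW.bB s D.y j = true → D.KW.aB s D.y j = false → t ≠ nC s)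
    (hs : ∀ s : Fin 4, X ≤ dB s → D.KW.bB s D.y j = false → D.KW.aB s D.y j = true → t ≠ sC s)
    (hb : D.KW.bp D.y = false ∨ ¬ (j = 2 ∧ t = 3)) (hv : D.KW.vl D.y = false ∨ ¬ (j = 4 ∧ t = 3)) :
    D.Vv k X (j * k + t) = El.o := by
  obtain ⟨e1, e2⟩ := div_mod (j := j) ht
  unfold Vv
  rw [e1, e2, if_neg, if_neg, if_neg, if_neg, if_neg]
  · rintro (⟨h, ⟨h1, -⟩ | ⟨-, h1⟩⟩ | ⟨h, ⟨h1, -⟩ | ⟨-, h1⟩⟩)
    · rcases hb with hb | hb
      · rw [h1] at hb; exact absurd hb (by decide)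
      · exact hb (row_eq ht (by omega) h)
    · omega
    · rcases hv with hv | hv
      · rw [h1] at hv; exact absurd hv (by decide)
      · exact hv (row_eq ht (by omega) h)
    · omega
  · rintro ⟨s, h, -⟩
    have := dA_le s
    omega
  · rintro ⟨s, h, -⟩
    have := dA_le s
    omega
  · rintro ⟨s, h1, h2, h3, h4⟩
    exact hs s h1 h2 h3 h4
  · rintro ⟨s, h1, h2, h3, h4⟩
    exact hn s h1 h2 h3 h4

lemma Vv_Wn {X j t : ℕ} (ht : t < k) {s : Fin 4} (h1 : X ≤ dB s)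
    (h2 : D.KW.bB s D.y j = true) (h3 : D.KW.aB s D.y j = false) (h4 : t = nC s) :
    D.Vv k X (j * k + t) = El.n := by
  obtain ⟨e1, e2⟩ := div_mod (j := j) ht
  unfold Vv
  rw [e1, e2, if_pos ⟨s, h1, h2, h3, h4⟩]

lemma Vv_Ws {X j t : ℕ} (ht : t < k) {s : Fin 4} (h1 : X ≤ dB s)
    (h2 : D.KW.bB s D.y j = false) (h3 : D.KW.aB s D.y j = true) (h4 : t = sC s) :
    D.Vv k X (j * k + t) = El.s := by
  obtain ⟨e1, e2⟩ := div_mod (j := j) ht
  unfold Vv
  rw [e1, e2, if_neg, if_pos ⟨s, h1, h2, h3, h4⟩]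
  rintro ⟨s', -, h5, h6, -⟩
  exact D.KW.mixB D.y j s' s ⟨⟨h5, h6⟩, h2, h3⟩

lemma Vv_Eo (hk : 20 ≤ k) {X j t : ℕ} (hX : 6 * k ≤ X) (ht : t < k)
    (hn : ∀ s : Fin 4, 7 * k ≤ X + dA s → D.KE.bA s D.y j = false → D.KE.aA s D.y j = true →
      t ≠ nC s)
    (hs : ∀ s : Fin 4, 7 * k ≤ X + dA s → D.KE.bA s D.y j = true → D.KE.aA s D.y j = false →
      t ≠ sC s)
    (hb : D.KE.bp D.y = false ∨ ¬ (j = 2 ∧ t = 3)) (hv : D.KE.vl D.y = false ∨ ¬ (j = 4 ∧ t = 3)) :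
    D.Vv k X (j * k + t) = El.o := by
  obtain ⟨e1, e2⟩ := div_mod (j := j) ht
  unfold Vv
  rw [e1, e2, if_neg, if_neg, if_neg, if_neg, if_neg]
  · rintro (⟨h, ⟨-, h1⟩ | ⟨h1, -⟩⟩ | ⟨h, ⟨-, h1⟩ | ⟨h1, -⟩⟩)
    · omega
    · rcases hb with hb | hb
      · rw [h1] at hb; exact absurd hb (by decide)
      · exact hb (row_eq ht (by omega) h)
    · omega
    · rcases hv with hv | hv
      · rw [h1] at hv; exact absurd hv (by decide)
      · exact hv (row_eq ht (by omega) h)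
  · rintro ⟨s, h1, h2, h3, h4⟩
    exact hs s h1 h2 h3 h4
  · rintro ⟨s, h1, h2, h3, h4⟩
    exact hn s h1 h2 h3 h4
  · rintro ⟨s, h, -⟩
    have := dB_le s
    omega
  · rintro ⟨s, h, -⟩
    have := dB_le s
    omega

lemma Vv_En (hk : 20 ≤ k) {X j t : ℕ} (hX : 6 * k ≤ X) (ht : t < k) {s : Fin 4}
    (h1 : 7 * k ≤ X + dA s) (h2 : D.KE.bA s D.y j = false) (h3 : D.KE.aA s D.y j = true)
    (h4 : t = nC s) : D.Vv k X (j * k + t) = El.n := by
  obtain ⟨e1, e2⟩ := div_mod (j := j) ht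
  unfold Vv
  rw [e1, e2, if_neg, if_neg, if_pos ⟨s, h1, h2, h3, h4⟩]
  · rintro ⟨s, h, -⟩
    have := dB_le s
    omega
  · rintro ⟨s, h, -⟩
    have := dB_le s
    omega

lemma Vv_Es (hk : 20 ≤ k) {X j t : ℕ} (hX : 6 * k ≤ X) (ht : t < k) {s : Fin 4}
    (h1 : 7 * k ≤ X + dA s) (h2 : D.KE.bA s D.y j = true) (h3 : D.KE.aA s D.y j = false)
    (h4 : t = sC s) : D.Vv k X (j * k + t) = El.s := by
  obtain ⟨e1, e2⟩ := div_mod (j := j) ht
  unfold Vv
  rw [e1, e2, if_neg, if_neg, if_neg, if_pos ⟨s, h1, h2, h3, h4⟩]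
  · rintro ⟨s', -, h5, h6, -⟩
    exact D.KE.mixA D.y j s s' ⟨⟨h2, h3⟩, h5, h6⟩
  · rintro ⟨s, h, -⟩
    have := dB_le s
    omega
  · rintro ⟨s, h, -⟩
    have := dB_le s
    omega

end PD

/-! ### heights of the tracks -/

lemma Lb_iff {b a : Fin 4 → Bool} {s : Fin 4} {t : ℕ} : Lb b a s t = true ↔
    (b s = true ∧ a s = true) ∨ (b s = true ∧ a s = false ∧ t ≤ nC s) ∨
      (b s = false ∧ a s = true ∧ sC s < t) := by
  unfold Lb
  cases b s <;> cases a s <;> simp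

lemma La_iff {b a : Fin 4 → Bool} {s : Fin 4} {t : ℕ} : La b a s t = true ↔
    (b s = true ∧ a s = true) ∨ (b s = true ∧ a s = false ∧ t ≤ sC s) ∨
      (b s = false ∧ a s = true ∧ nC s < t) := by
  unfold La
  cases b s <;> cases a s <;> simp

lemma Lb_out {b a : Fin 4 → Bool} {s : Fin 4} {t : ℕ} (h1 : Lb b a s t = true)
    (h2 : Lb b a s (t + 1) = false) : b s = true ∧ a s = false ∧ t = nC s := by
  rw [← Bool.not_eq_true] at h2
  rw [Lb_iff] at h1 h2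
  cases hb : b s <;> cases ha : a s <;> simp [hb, ha] at h1 h2 ⊢ <;> omega

lemma Lb_in {b a : Fin 4 → Bool} {s : Fin 4} {t : ℕ} (h1 : Lb b a s t = false)
    (h2 : Lb b a s (t + 1) = true) : b s = false ∧ a s = true ∧ t = sC s := by
  rw [← Bool.not_eq_true] at h1
  rw [Lb_iff] at h1 h2
  cases hb : b s <;> cases ha : a s <;> simp [hb, ha] at h1 h2 ⊢ <;> omega

lemma La_out {b a : Fin 4 → Bool} {s : Fin 4} {t : ℕ} (h1 : La b a s t = true)
    (h2 : La b a s (t + 1) = false) : b s = true ∧ a s = false ∧ t = sC s := by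
  rw [← Bool.not_eq_true] at h2
  rw [La_iff] at h1 h2
  cases hb : b s <;> cases ha : a s <;> simp [hb, ha] at h1 h2 ⊢ <;> omega

lemma La_in {b a : Fin 4 → Bool} {s : Fin 4} {t : ℕ} (h1 : La b a s t = false)
    (h2 : La b a s (t + 1) = true) : b s = false ∧ a s = true ∧ t = nC s := by
  rw [← Bool.not_eq_true] at h1
  rw [La_iff] at h1 h2
  cases hb : b s <;> cases ha : a s <;> simp [hb, ha] at h1 h2 ⊢ <;> omega

lemma nC_lt {s s' : Fin 4} (h : s < s') : nC s < nC s' := by unfold nC; omega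
lemma sC_lt {s s' : Fin 4} (h : s < s') : sC s' < sC s := by unfold sC; omega
lemma dB_lt {s s' : Fin 4} : dB s < dB s' ↔ s < s' := by unfold dB; omega
lemma dA_lt {s s' : Fin 4} : dA s' < dA s ↔ s < s' := by unfold dA; omega
lemma dB_le_dB {s s' : Fin 4} : dB s ≤ dB s' ↔ s ≤ s' := by unfold dB; omega
lemma dA_le_dA {s s' : Fin 4} : dA s' ≤ dA s ↔ s ≤ s' := by unfold dA; omega

namespace KD

variable {τ : Type*} (K : KD τ)

/-- no letter beyond a track that goes on -/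
lemma cleanB {on : ℤ → Bool} (h : K.Ok on) {y : ℤ} (ho : on y = true) (hb : K.bw y = false)
    {j t : ℕ} {s : Fin 4}
    (h1 : Lb (fun s => K.bB s y j) (fun s => K.aB s y j) s t = true)
    (h2 : Lb (fun s => K.bB s y j) (fun s => K.aB s y j) s (t + 1) = true) (s1 : Fin 4)
    (hs : s ≤ s1) :
    (K.bB s1 y j = true → K.aB s1 y j = false → t ≠ nC s1) ∧
      (K.bB s1 y j = false → K.aB s1 y j = true → t ≠ sC s1) := by
  rw [Lb_iff] at h1 h2
  constructor
  · intro c1 c2 c3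
    rcases h2 with ⟨g1, g2⟩ | ⟨g1, g2, g3⟩ | ⟨g1, g2, g3⟩
    · have := K.ordW h ho hb (s1 := s1) (by rw [c1, c2]; decide) g1 g2
      omega
    · rcases eq_or_lt_of_le hs with rfl | h3
      · omega
      · have := nC_lt h3
        omega
    · exact K.mixB y j s1 s ⟨⟨c1, c2⟩, g1, g2⟩
  · intro c1 c2 c3
    rcases h1 with ⟨g1, g2⟩ | ⟨g1, g2, g3⟩ | ⟨g1, g2, g3⟩
    · have := K.ordW h ho hb (s1 := s1) (by rw [c1, c2]; decide) g1 g2
      omega
    · exact K.mixB y j s s1 ⟨⟨g1, g2⟩, c1, c2⟩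
    · rcases eq_or_lt_of_le hs with rfl | h3
      · omega
      · have := sC_lt h3
        omega

lemma cleanA {on : ℤ → Bool} (h : K.Ok on) {y : ℤ} (ho : on y = true) (ha : K.aw y = false)
    {j t : ℕ} {s : Fin 4}
    (h1 : La (fun s => K.bA s y j) (fun s => K.aA s y j) s t = true)
    (h2 : La (fun s => K.bA s y j) (fun s => K.aA s y j) s (t + 1) = true) (s1 : Fin 4)
    (hs : s1 ≤ s) :
    (K.bA s1 y j = false → K.aA s1 y j = true → t ≠ nC s1) ∧
      (K.bA s1 y j = true → K.aA s1 y j = false → t ≠ sC s1) := by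
  rw [La_iff] at h1 h2
  constructor
  · intro c1 c2 c3
    rcases h1 with ⟨g1, g2⟩ | ⟨g1, g2, g3⟩ | ⟨g1, g2, g3⟩
    · have := K.ordE h ho ha (s1 := s1) (by rw [c1, c2]; decide) g1 g2
      omega
    · exact K.mixA y j s s1 ⟨⟨g1, g2⟩, c1, c2⟩
    · rcases eq_or_lt_of_le hs with rfl | h3
      · omega
      · have := nC_lt h3
        omega
  · intro c1 c2 c3
    rcases h2 with ⟨g1, g2⟩ | ⟨g1, g2, g3⟩ | ⟨g1, g2, g3⟩
    · have := K.ordE h ho ha (s1 := s1) (by rw [c1, c2]; decide) g1 g2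
      omega
    · rcases eq_or_lt_of_le hs with rfl | h3
      · omega
      · have := sC_lt h3
        omega
    · exact K.mixA y j s1 s ⟨⟨c1, c2⟩, g1, g2⟩

/-- a letter `n` of the slot `s`: the lower slots are empty there -/
lemma nlB {on : ℤ → Bool} (h : K.Ok on) {y : ℤ} (ho : on y = true) (hb : K.bw y = false)
    {j : ℕ} {s : Fin 4} (c1 : K.bB s y j = true) (c2 : K.aB s y j = false) (s1 : Fin 4)
    (hs : s1 < s) (u : ℕ) (hu : nC s ≤ u) :
    Lb (fun s => K.bB s y j) (fun s => K.aB s y j) s1 u = false := by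
  rw [← Bool.not_eq_true, Lb_iff]
  rintro (⟨g1, g2⟩ | ⟨g1, g2, g3⟩ | ⟨g1, g2, g3⟩)
  · have := K.ordW h ho hb (s1 := s) (by rw [c1, c2]; decide) g1 g2
    omega
  · have := nC_lt hs
    omega
  · exact K.mixB y j s s1 ⟨⟨c1, c2⟩, g1, g2⟩

lemma slB {on : ℤ → Bool} (h : K.Ok on) {y : ℤ} (ho : on y = true) (hb : K.bw y = false)
    {j : ℕ} {s : Fin 4} (c1 : K.bB s y j = false) (c2 : K.aB s y j = true) (s1 : Fin 4)
    (hs : s1 < s) (u : ℕ) (hu : u ≤ sC s + 1) :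
    Lb (fun s => K.bB s y j) (fun s => K.aB s y j) s1 u = false := by
  rw [← Bool.not_eq_true, Lb_iff]
  rintro (⟨g1, g2⟩ | ⟨g1, g2, g3⟩ | ⟨g1, g2, g3⟩)
  · have := K.ordW h ho hb (s1 := s) (by rw [c1, c2]; decide) g1 g2
    omega
  · exact K.mixB y j s1 s ⟨⟨g1, g2⟩, c1, c2⟩
  · have := sC_lt hs
    omega

/-- the same on the A side: the higher slots are empty -/
lemma nlA {on : ℤ → Bool} (h : K.Ok on) {y : ℤ} (ho : on y = true) (ha : K.aw y = false)
    {j : ℕ} {s : Fin 4} (c1 : K.bA s y j = false) (c2 : K.aA s y j = true) (s1 : Fin 4)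
    (hs : s < s1) (u : ℕ) (hu : u ≤ nC s + 1) :
    La (fun s => K.bA s y j) (fun s => K.aA s y j) s1 u = false := by
  rw [← Bool.not_eq_true, La_iff]
  rintro (⟨g1, g2⟩ | ⟨g1, g2, g3⟩ | ⟨g1, g2, g3⟩)
  · have := K.ordE h ho ha (s1 := s) (by rw [c1, c2]; decide) g1 g2
    omega
  · exact K.mixA y j s1 s ⟨⟨g1, g2⟩, c1, c2⟩
  · have := nC_lt hs
    omega

lemma slA {on : ℤ → Bool} (h : K.Ok on) {y : ℤ} (ho : on y = true) (ha : K.aw y = false)
    {j : ℕ} {s : Fin 4} (c1 : K.bA s y j = true) (c2 : K.aA s y j = false) (s1 : Fin 4)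
    (hs : s < s1) (u : ℕ) (hu : sC s ≤ u) :
    La (fun s => K.bA s y j) (fun s => K.aA s y j) s1 u = false := by
  rw [← Bool.not_eq_true, La_iff]
  rintro (⟨g1, g2⟩ | ⟨g1, g2, g3⟩ | ⟨g1, g2, g3⟩)
  · have := K.ordE h ho ha (s1 := s) (by rw [c1, c2]; decide) g1 g2
    omega
  · have := sC_lt hs
    omega
  · exact K.mixA y j s s1 ⟨⟨c1, c2⟩, g1, g2⟩

end KD



namespace PD

variable {τ : Type*} {D : PD τ} {k : ℕ} {hv vv : ℕ → ℕ → Prop} {onW onE : ℤ → Bool}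

lemma exists_jt {Y : ℕ} (hY : Y < 7 * k) : ∃ j t : ℕ, j < 7 ∧ t < k ∧ Y = j * k + t := by
  have hk : 0 < k := by omega
  refine ⟨Y / k, Y % k, ?_, Nat.mod_lt _ hk, ?_⟩
  · rw [Nat.div_lt_iff_lt_mul hk]
    exact hY
  · rw [Nat.mul_comm]
    exact (Nat.div_add_mod Y k).symm

lemma jt_lt {j t : ℕ} (hj : j < 7) (ht : t < k) : j * k + t < 7 * k := by
  interval_cases j <;> omega

lemma Hv_dB (hk : 20 ≤ k) {s : Fin 4} {Y : ℕ} (h : D.KW.lnB k s D.y Y = true) :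
    D.Hv k (dB s) Y = El.e := by
  have := dB_le s
  rw [Hv_W hk (by omega), if_pos ⟨s, rfl, h⟩]

lemma Hv_dB' (hk : 20 ≤ k) {s : Fin 4} {Y : ℕ} (h : D.KW.lnB k s D.y Y = false) :
    D.Hv k (dB s) Y = El.o := by
  have := dB_le s
  rw [Hv_W hk (by omega), if_neg]
  rintro ⟨s', h1, h2⟩
  rw [← dB_inj h1, h] at h2
  exact absurd h2 (by decide)

lemma Hv_dA (hk : 20 ≤ k) {s : Fin 4} {Y : ℕ} (h : D.KE.lnA k s D.y Y = true) :
    D.Hv k (7 * k - 1 - dA s) Y = El.e := by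
  have := dA_le s
  rw [Hv_E hk (by omega), if_pos ⟨s, by omega, h⟩]

lemma Hv_dA' (hk : 20 ≤ k) {s : Fin 4} {Y : ℕ} (h : D.KE.lnA k s D.y Y = false) :
    D.Hv k (7 * k - 1 - dA s) Y = El.o := by
  have := dA_le s
  rw [Hv_E hk (by omega), if_neg]
  rintro ⟨s', h1, h2⟩
  have h3 : dA s = dA s' := by
    have := dA_le s'
    omega
  rw [← dA_inj h3, h] at h2
  exact absurd h2 (by decide)

lemma LbY (hk : 20 ≤ k) (s : Fin 4) {j t : ℕ} (hj : j < 7) (ht : t < k) :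
    D.KW.lnB k s D.y (j * k + t) = Lb (fun s => D.KW.bB s D.y j) (fun s => D.KW.aB s D.y j) s t ∧
    D.KW.lnB k s D.y (j * k + t + 1) =
      Lb (fun s => D.KW.bB s D.y j) (fun s => D.KW.aB s D.y j) s (t + 1) :=
  ⟨D.KW.lnB_eq hk s _ hj ht.le, D.KW.lnB_eq hk s _ hj (show t + 1 ≤ k by omega)⟩

lemma LaY (hk : 20 ≤ k) (s : Fin 4) {j t : ℕ} (hj : j < 7) (ht : t < k) :
    D.KE.lnA k s D.y (j * k + t) = La (fun s => D.KE.bA s D.y j) (fun s => D.KE.aA s D.y j) s t ∧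
    D.KE.lnA k s D.y (j * k + t + 1) =
      La (fun s => D.KE.bA s D.y j) (fun s => D.KE.aA s D.y j) s (t + 1) :=
  ⟨D.KE.lnA_eq hk s _ hj ht.le, D.KE.lnA_eq hk s _ hj (show t + 1 ≤ k by omega)⟩

/-- bumps and valleys are in rows without tracks -/
lemma bpW_row (h : D.Ok onW onE) {j t : ℕ}
    (hh : ∃ s : Fin 4, D.KW.bB s D.y j = true ∨ D.KW.aB s D.y j = true) :
    (D.KW.bp D.y = false ∨ ¬ (j = 2 ∧ t = 3)) ∧ (D.KW.vl D.y = false ∨ ¬ (j = 4 ∧ t = 3)) := by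
  obtain ⟨s, hs⟩ := hh
  constructor
  · by_contra hc
    push Not at hc
    obtain ⟨h1, rfl, -⟩ := hc
    have hM := (h.W.bp_ok _ (by simpa using h1)).2.2.2.1 s
    unfold KD.bB KD.aB at hs
    simp [hM] at hs
  · by_contra hc
    push Not at hc
    obtain ⟨h1, rfl, -⟩ := hc
    have hM := (h.W.vl_ok _ (by simpa using h1)).2.2.2.1 s
    unfold KD.bB KD.aB at hs
    simp [hM] at hs

lemma bpE_row (h : D.Ok onW onE) {j t : ℕ}
    (hh : ∃ s : Fin 4, D.KE.bA s D.y j = true ∨ D.KE.aA s D.y j = true) :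
    (D.KE.bp D.y = false ∨ ¬ (j = 2 ∧ t = 3)) ∧ (D.KE.vl D.y = false ∨ ¬ (j = 4 ∧ t = 3)) := by
  obtain ⟨s, hs⟩ := hh
  constructor
  · by_contra hc
    push Not at hc
    obtain ⟨h1, rfl, -⟩ := hc
    have hM := (h.E.bp_ok _ (by simpa using h1)).2.2.2.1 s
    unfold KD.bA KD.aA at hs
    simp [hM] at hs
  · by_contra hc
    push Not at hc
    obtain ⟨h1, rfl, -⟩ := hc
    have hM := (h.E.vl_ok _ (by simpa using h1)).2.2.2.1 s
    unfold KD.bA KD.aA at hs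
    simp [hM] at hs

lemma Lb_row {b a : Fin 4 → Bool} {s : Fin 4} {t : ℕ} (h : Lb b a s t = true) :
    b s = true ∨ a s = true := by
  rcases Lb_iff.1 h with h | h | h
  · exact Or.inl h.1
  · exact Or.inl h.1
  · exact Or.inr h.2.1

lemma La_row {b a : Fin 4 → Bool} {s : Fin 4} {t : ℕ} (h : La b a s t = true) :
    b s = true ∨ a s = true := by
  rcases La_iff.1 h with h | h | h
  · exact Or.inl h.1
  · exact Or.inl h.1
  · exact Or.inr h.2.1

/-! ### tracks near the west side -/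

theorem Rel.trB (h : D.Ok onW onE) (hk : 20 ≤ k) (R : D.Rel k hv vv) {s : Fin 4} {Y : ℕ}
    (hY : Y < 7 * k) (h1 : D.KW.lnB k s D.y Y = true) (h2 : D.KW.lnB k s D.y (Y + 1) = true) :
    hv (dB s) Y ↔ hv (dB s) (Y + 1) := by
  obtain ⟨j, t, hj, ht, rfl⟩ := exists_jt hY
  have hd := dB_le s
  have g1 := h1
  have g2 := h2
  rw [(LbY hk s hj ht).1] at g1
  rw [(LbY hk s hj ht).2] at g2
  have hr := bpW_row h (t := t) ⟨s, Lb_row g1⟩
  have key : ∀ X, dB s ≤ X → X ≤ k → D.Vv k X (j * k + t) = El.o := by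
    intro X hX hXk
    refine Vv_Wo hk hXk ht ?_ ?_ hr.1 hr.2
    · intro s1 h3
      exact (D.KW.cleanB h.W h.oW h.bw g1 g2 s1 (dB_le_dB.1 (by omega))).1
    · intro s1 h3
      exact (D.KW.cleanB h.W h.oW h.bw g1 g2 s1 (dB_le_dB.1 (by omega))).2
  refine R (dB s) _ (by omega) hY Prt.S Prt.N (by decide) ?_ ?_ ?_
  · show D.Hv k (dB s) (j * k + t) ≠ El.o
    rw [Hv_dB hk h1]; decide
  · show D.Hv k (dB s) (j * k + t + 1) ≠ El.o
    rw [Hv_dB hk h2]; decide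
  · intro r hr1 hr2
    cases r
    · exact key _ le_rfl (by omega)
    · exact key _ (by omega) (by omega)
    · exact absurd rfl hr2
    · exact absurd rfl hr1

/-- the lane of a letter of the slot `s` on the B side -/
lemma Rel.rowB (h : D.Ok onW onE) (hk : 20 ≤ k) (R : D.Rel k hv vv) {s : Fin 4} {j t : ℕ}
    (hj : j < 7) (ht : t < k)
    (hl : (D.KW.bB s D.y j = true ∧ D.KW.aB s D.y j = false ∧ t = nC s) ∨
      (D.KW.bB s D.y j = false ∧ D.KW.aB s D.y j = true ∧ t = sC s)) :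
    ∀ X ≤ dB s, D.Vv k X (j * k + t) ≠ El.o ∧ (vv X (j * k + t) ↔ vv 0 (j * k + t)) := by
  have hd := dB_le s
  have hV : ∀ X ≤ dB s, D.Vv k X (j * k + t) ≠ El.o := by
    intro X hX
    rcases hl with ⟨c1, c2, c3⟩ | ⟨c1, c2, c3⟩
    · rw [Vv_Wn ht hX c1 c2 c3]; decide
    · rw [Vv_Ws ht hX c1 c2 c3]; decide
  have hL : ∀ s1, s1 < s → Lb (fun s => D.KW.bB s D.y j) (fun s => D.KW.aB s D.y j) s1 t = false ∧
      Lb (fun s => D.KW.bB s D.y j) (fun s => D.KW.aB s D.y j) s1 (t + 1) = false := by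
    intro s1 hs1
    rcases hl with ⟨c1, c2, c3⟩ | ⟨c1, c2, c3⟩
    · exact ⟨D.KW.nlB h.W h.oW h.bw c1 c2 s1 hs1 _ (by omega),
        D.KW.nlB h.W h.oW h.bw c1 c2 s1 hs1 _ (by omega)⟩
    · exact ⟨D.KW.slB h.W h.oW h.bw c1 c2 s1 hs1 _ (by omega),
        D.KW.slB h.W h.oW h.bw c1 c2 s1 hs1 _ (by omega)⟩
  have hH : ∀ X < dB s, D.Hv k X (j * k + t) = El.o ∧ D.Hv k X (j * k + t + 1) = El.o := by
    intro X hX
    rw [Hv_W hk (by omega), Hv_W hk (by omega)]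
    constructor
    · rw [if_neg]
      rintro ⟨s1, rfl, h2⟩
      rw [(LbY hk s1 hj ht).1, (hL s1 (dB_lt.1 hX)).1] at h2
      exact absurd h2 (by decide)
    · rw [if_neg]
      rintro ⟨s1, rfl, h2⟩
      rw [(LbY hk s1 hj ht).2, (hL s1 (dB_lt.1 hX)).2] at h2
      exact absurd h2 (by decide)
  intro X hX
  exact ⟨hV X hX, R.row (jt_lt hj ht) (b := dB s) (by omega) (fun X _ hX => hV X hX)
    (fun X _ hX => hH X hX) X (Nat.zero_le _) hX⟩

theorem Rel.outB (h : D.Ok onW onE) (hk : 20 ≤ k) (R : D.Rel k hv vv) {s : Fin 4} {Y : ℕ}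
    (hY : Y < 7 * k) (h1 : D.KW.lnB k s D.y Y = true) (h2 : D.KW.lnB k s D.y (Y + 1) = false) :
    hv (dB s) Y ↔ vv 0 Y := by
  obtain ⟨j, t, hj, ht, rfl⟩ := exists_jt hY
  have hd := dB_le s
  have g1 := h1
  have g2 := h2
  rw [(LbY hk s hj ht).1] at g1
  rw [(LbY hk s hj ht).2] at g2
  obtain ⟨c1, c2, c3⟩ := Lb_out g1 g2
  have hr := bpW_row h (t := t) ⟨s, Or.inl c1⟩
  obtain ⟨r1, r2⟩ := R.rowB h hk hj ht (Or.inl ⟨c1, c2, c3⟩) (dB s) le_rfl
  rw [← r2]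
  refine R (dB s) _ (by omega) hY Prt.S Prt.W (by decide) ?_ r1 ?_
  · show D.Hv k (dB s) (j * k + t) ≠ El.o
    rw [Hv_dB hk h1]; decide
  · intro r hr1 hr2
    cases r
    · exact absurd rfl hr2
    · show D.Vv k (dB s + 1) (j * k + t) = El.o
      refine Vv_Wo hk (by omega) ht ?_ ?_ hr.1 hr.2
      · intro s1 h3 _ _ h6
        have := nC_inj (h6.symm.trans c3)
        subst this
        omega
      · intro s1 _ h4 h5 _
        exact D.KW.mixB D.y j s s1 ⟨⟨c1, c2⟩, h4, h5⟩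
    · exact Hv_dB' hk h2
    · exact absurd rfl hr1

theorem Rel.inB (h : D.Ok onW onE) (hk : 20 ≤ k) (R : D.Rel k hv vv) {s : Fin 4} {Y : ℕ}
    (hY : Y < 7 * k) (h1 : D.KW.lnB k s D.y Y = false) (h2 : D.KW.lnB k s D.y (Y + 1) = true) :
    hv (dB s) (Y + 1) ↔ vv 0 Y := by
  obtain ⟨j, t, hj, ht, rfl⟩ := exists_jt hY
  have hd := dB_le s
  have g1 := h1
  have g2 := h2
  rw [(LbY hk s hj ht).1] at g1
  rw [(LbY hk s hj ht).2] at g2
  obtain ⟨c1, c2, c3⟩ := Lb_in g1 g2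
  have hr := bpW_row h (t := t) ⟨s, Or.inr c2⟩
  obtain ⟨r1, r2⟩ := R.rowB h hk hj ht (Or.inr ⟨c1, c2, c3⟩) (dB s) le_rfl
  rw [← r2]
  refine R (dB s) _ (by omega) hY Prt.N Prt.W (by decide) ?_ r1 ?_
  · show D.Hv k (dB s) (j * k + t + 1) ≠ El.o
    rw [Hv_dB hk h2]; decide
  · intro r hr1 hr2
    cases r
    · exact absurd rfl hr2
    · show D.Vv k (dB s + 1) (j * k + t) = El.o
      refine Vv_Wo hk (by omega) ht ?_ ?_ hr.1 hr.2
      · intro s1 _ h4 h5 _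
        exact D.KW.mixB D.y j s1 s ⟨⟨h4, h5⟩, c1, c2⟩
      · intro s1 h3 _ _ h6
        have := sC_inj (h6.symm.trans c3)
        subst this
        omega
    · exact absurd rfl hr1
    · exact Hv_dB' hk h1

/-! ### tracks near the east side -/

theorem Rel.trA (h : D.Ok onW onE) (hk : 20 ≤ k) (R : D.Rel k hv vv) {s : Fin 4} {Y : ℕ}
    (hY : Y < 7 * k) (h1 : D.KE.lnA k s D.y Y = true) (h2 : D.KE.lnA k s D.y (Y + 1) = true) :
    hv (7 * k - 1 - dA s) Y ↔ hv (7 * k - 1 - dA s) (Y + 1) := by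
  obtain ⟨j, t, hj, ht, rfl⟩ := exists_jt hY
  have hd := dA_le s
  have g1 := h1
  have g2 := h2
  rw [(LaY hk s hj ht).1] at g1
  rw [(LaY hk s hj ht).2] at g2
  have hr := bpE_row h (t := t) ⟨s, La_row g1⟩
  have key : ∀ X, 6 * k ≤ X → X + dA s ≤ 7 * k → D.Vv k X (j * k + t) = El.o := by
    intro X hX hXk
    refine Vv_Eo hk hX ht ?_ ?_ hr.1 hr.2
    · intro s1 h3
      exact (D.KE.cleanA h.E h.oE h.aw g1 g2 s1 (dA_le_dA.1 (by omega))).1
    · intro s1 h3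
      exact (D.KE.cleanA h.E h.oE h.aw g1 g2 s1 (dA_le_dA.1 (by omega))).2
  refine R (7 * k - 1 - dA s) _ (by omega) hY Prt.S Prt.N (by decide) ?_ ?_ ?_
  · show D.Hv k (7 * k - 1 - dA s) (j * k + t) ≠ El.o
    rw [Hv_dA hk h1]; decide
  · show D.Hv k (7 * k - 1 - dA s) (j * k + t + 1) ≠ El.o
    rw [Hv_dA hk h2]; decide
  · intro r hr1 hr2
    cases r
    · exact key _ (by omega) (by omega)
    · exact key _ (by omega) (by omega)
    · exact absurd rfl hr2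
    · exact absurd rfl hr1

/-- the lane of a letter of the slot `s` on the A side -/
lemma Rel.rowA (h : D.Ok onW onE) (hk : 20 ≤ k) (R : D.Rel k hv vv) {s : Fin 4} {j t : ℕ}
    (hj : j < 7) (ht : t < k)
    (hl : (D.KE.bA s D.y j = false ∧ D.KE.aA s D.y j = true ∧ t = nC s) ∨
      (D.KE.bA s D.y j = true ∧ D.KE.aA s D.y j = false ∧ t = sC s)) :
    ∀ X, 7 * k ≤ X + dA s → X ≤ 7 * k → D.Vv k X (j * k + t) ≠ El.o ∧
      (vv X (j * k + t) ↔ vv (7 * k) (j * k + t)) := by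
  have hd := dA_le s
  have hV : ∀ X, 7 * k ≤ X + dA s → X ≤ 7 * k → D.Vv k X (j * k + t) ≠ El.o := by
    intro X hX hX'
    rcases hl with ⟨c1, c2, c3⟩ | ⟨c1, c2, c3⟩
    · rw [Vv_En hk (by omega) ht hX c1 c2 c3]; decide
    · rw [Vv_Es hk (by omega) ht hX c1 c2 c3]; decide
  have hL : ∀ s1, s < s1 → La (fun s => D.KE.bA s D.y j) (fun s => D.KE.aA s D.y j) s1 t = false ∧
      La (fun s => D.KE.bA s D.y j) (fun s => D.KE.aA s D.y j) s1 (t + 1) = false := by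
    intro s1 hs1
    rcases hl with ⟨c1, c2, c3⟩ | ⟨c1, c2, c3⟩
    · exact ⟨D.KE.nlA h.E h.oE h.aw c1 c2 s1 hs1 _ (by omega),
        D.KE.nlA h.E h.oE h.aw c1 c2 s1 hs1 _ (by omega)⟩
    · exact ⟨D.KE.slA h.E h.oE h.aw c1 c2 s1 hs1 _ (by omega),
        D.KE.slA h.E h.oE h.aw c1 c2 s1 hs1 _ (by omega)⟩
  have hH : ∀ X, 7 * k ≤ X + dA s → X < 7 * k →
      D.Hv k X (j * k + t) = El.o ∧ D.Hv k X (j * k + t + 1) = El.o := by
    intro X hX hX'
    rw [Hv_E hk (by omega), Hv_E hk (by omega)]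
    constructor
    · rw [if_neg]
      rintro ⟨s1, h1, h2⟩
      rw [(LaY hk s1 hj ht).1, (hL s1 (dA_lt.1 (by omega))).1] at h2
      exact absurd h2 (by decide)
    · rw [if_neg]
      rintro ⟨s1, h1, h2⟩
      rw [(LaY hk s1 hj ht).2, (hL s1 (dA_lt.1 (by omega))).2] at h2
      exact absurd h2 (by decide)
  have hrow := R.row (jt_lt hj ht) (a := 7 * k - dA s) (b := 7 * k) le_rfl
    (fun X h1 h2 => hV X (by omega) h2) (fun X h1 h2 => hH X (by omega) h2)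
  intro X hX hX'
  refine ⟨hV X hX hX', ?_⟩
  rw [hrow X (by omega) hX', hrow (7 * k) (by omega) le_rfl]

theorem Rel.outA (h : D.Ok onW onE) (hk : 20 ≤ k) (R : D.Rel k hv vv) {s : Fin 4} {Y : ℕ}
    (hY : Y < 7 * k) (h1 : D.KE.lnA k s D.y Y = true) (h2 : D.KE.lnA k s D.y (Y + 1) = false) :
    hv (7 * k - 1 - dA s) Y ↔ vv (7 * k) Y := by
  obtain ⟨j, t, hj, ht, rfl⟩ := exists_jt hY
  have hd := dA_le s
  have g1 := h1
  have g2 := h2
  rw [(LaY hk s hj ht).1] at g1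
  rw [(LaY hk s hj ht).2] at g2
  obtain ⟨c1, c2, c3⟩ := La_out g1 g2
  have hr := bpE_row h (t := t) ⟨s, Or.inl c1⟩
  obtain ⟨r1, r2⟩ := R.rowA h hk hj ht (Or.inr ⟨c1, c2, c3⟩) (7 * k - 1 - dA s + 1) (by omega)
    (by omega)
  rw [← r2]
  refine R (7 * k - 1 - dA s) _ (by omega) hY Prt.S Prt.E (by decide) ?_ r1 ?_
  · show D.Hv k (7 * k - 1 - dA s) (j * k + t) ≠ El.o
    rw [Hv_dA hk h1]; decide
  · intro r hr1 hr2
    cases r
    · show D.Vv k (7 * k - 1 - dA s) (j * k + t) = El.o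
      refine Vv_Eo hk (by omega) ht ?_ ?_ hr.1 hr.2
      · intro s1 _ h4 h5 _
        exact D.KE.mixA D.y j s s1 ⟨⟨c1, c2⟩, h4, h5⟩
      · intro s1 h3 _ _ h6
        have := sC_inj (h6.symm.trans c3)
        subst this
        omega
    · exact absurd rfl hr2
    · exact Hv_dA' hk h2
    · exact absurd rfl hr1

theorem Rel.inA (h : D.Ok onW onE) (hk : 20 ≤ k) (R : D.Rel k hv vv) {s : Fin 4} {Y : ℕ}
    (hY : Y < 7 * k) (h1 : D.KE.lnA k s D.y Y = false) (h2 : D.KE.lnA k s D.y (Y + 1) = true) :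
    hv (7 * k - 1 - dA s) (Y + 1) ↔ vv (7 * k) Y := by
  obtain ⟨j, t, hj, ht, rfl⟩ := exists_jt hY
  have hd := dA_le s
  have g1 := h1
  have g2 := h2
  rw [(LaY hk s hj ht).1] at g1
  rw [(LaY hk s hj ht).2] at g2
  obtain ⟨c1, c2, c3⟩ := La_in g1 g2
  have hr := bpE_row h (t := t) ⟨s, Or.inr c2⟩
  obtain ⟨r1, r2⟩ := R.rowA h hk hj ht (Or.inl ⟨c1, c2, c3⟩) (7 * k - 1 - dA s + 1) (by omega)
    (by omega)
  rw [← r2]
  refine R (7 * k - 1 - dA s) _ (by omega) hY Prt.N Prt.E (by decide) ?_ r1 ?_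
  · show D.Hv k (7 * k - 1 - dA s) (j * k + t + 1) ≠ El.o
    rw [Hv_dA hk h2]; decide
  · intro r hr1 hr2
    cases r
    · show D.Vv k (7 * k - 1 - dA s) (j * k + t) = El.o
      refine Vv_Eo hk (by omega) ht ?_ ?_ hr.1 hr.2
      · intro s1 h3 _ _ h6
        have := nC_inj (h6.symm.trans c3)
        subst this
        omega
      · intro s1 _ h4 h5 _
        exact D.KE.mixA D.y j s1 s ⟨⟨h4, h5⟩, c1, c2⟩
    · exact absurd rfl hr2
    · exact absurd rfl hr1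
    · exact Hv_dA' hk h1

/-! ### values in the middle -/

lemma Hv_a (hk : 20 ≤ k) {Y : ℕ}
    (h : D.nW = true ∨ D.KW.gN D.y = true ∨ (D.KW.vl D.y = true ∧ 4 * k + 3 < Y)) :
    D.Hv k (2 * k + 3) Y = El.n := by
  unfold Hv
  rw [if_neg (by omega), if_neg (by omega), if_pos ⟨rfl, h⟩]

lemma Hv_b (hk : 20 ≤ k) {Y : ℕ}
    (h : D.sW = true ∨ D.KW.fS (D.y + 1) = true ∨ (D.KW.bp D.y = true ∧ Y ≤ 2 * k + 3)) :
    D.Hv k (2 * k + 5) Y = El.s := by
  unfold Hv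
  rw [if_neg (by omega), if_neg (by omega), if_neg (by omega), if_pos ⟨rfl, h⟩]

lemma Hv_c (hk : 20 ≤ k) {Y : ℕ}
    (h : D.nE = true ∨ D.KE.fN (D.y + 1) = true ∨ (D.KE.bp D.y = true ∧ Y ≤ 2 * k + 3)) :
    D.Hv k (5 * k - 4) Y = El.n := by
  unfold Hv
  rw [if_neg (by omega), if_neg (by omega), if_neg (by omega), if_neg (by omega),
    if_pos ⟨by omega, h⟩]

lemma Hv_d (hk : 20 ≤ k) {Y : ℕ}
    (h : D.sE = true ∨ D.KE.gS D.y = true ∨ (D.KE.vl D.y = true ∧ 4 * k + 3 < Y)) :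
    D.Hv k (5 * k - 6) Y = El.s := by
  unfold Hv
  rw [if_neg (by omega), if_neg (by omega), if_neg (by omega), if_neg (by omega),
    if_neg (by omega), if_pos ⟨by omega, h⟩]

lemma Hv_r1 (hk : 20 ≤ k) {Y : ℕ} (h : D.r1 = true) : D.Hv k (3 * k + 3) Y = El.n := by
  unfold Hv
  rw [if_neg (by omega), if_neg (by omega), if_neg (by omega), if_neg (by omega),
    if_neg (by omega), if_neg (by omega), if_pos (Or.inl ⟨rfl, h⟩)]

lemma Hv_r2 (hk : 20 ≤ k) {Y : ℕ} (h : D.r2 = true) : D.Hv k (4 * k - 4) Y = El.n := by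
  unfold Hv
  rw [if_neg (by omega), if_neg (by omega), if_neg (by omega), if_neg (by omega),
    if_neg (by omega), if_neg (by omega), if_pos (Or.inr ⟨by omega, h⟩)]

/-- all other edges in the middle are empty -/
lemma Hv_o {X Y : ℕ} (h1 : k ≤ X) (h2 : X < 6 * k)
    (ha : X = 2 * k + 3 → ¬ (D.nW = true ∨ D.KW.gN D.y = true ∨
      (D.KW.vl D.y = true ∧ 4 * k + 3 < Y)))
    (hb : X = 2 * k + 5 → ¬ (D.sW = true ∨ D.KW.fS (D.y + 1) = true ∨
      (D.KW.bp D.y = true ∧ Y ≤ 2 * k + 3)))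
    (hc : X + 4 = 5 * k → ¬ (D.nE = true ∨ D.KE.fN (D.y + 1) = true ∨
      (D.KE.bp D.y = true ∧ Y ≤ 2 * k + 3)))
    (hd : X + 6 = 5 * k → ¬ (D.sE = true ∨ D.KE.gS D.y = true ∨
      (D.KE.vl D.y = true ∧ 4 * k + 3 < Y)))
    (hr : X ≠ 3 * k + 3) (hr' : X + 4 ≠ 4 * k) : D.Hv k X Y = El.o := by
  unfold Hv
  rw [if_neg (by omega), if_neg (by omega), if_neg (fun h => ha h.1 h.2),
    if_neg (fun h => hb h.1 h.2), if_neg (fun h => hc h.1 h.2), if_neg (fun h => hd h.1 h.2),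
    if_neg]
  rintro (h | h)
  · exact hr h.1
  · exact hr' h.1

lemma Vv_mo (hk : 20 ≤ k) {X : ℕ} (h1 : k ≤ X) (h2 : X ≤ 6 * k) {Y : ℕ}
    (h : ¬ ((Y = 2 * k + 3 ∧ ((D.KW.bp D.y = true ∧ X ≤ 2 * k + 5) ∨
      (D.KE.bp D.y = true ∧ 5 * k < X + 4))) ∨
    (Y = 4 * k + 3 ∧ ((D.KW.vl D.y = true ∧ X ≤ 2 * k + 3) ∨
      (D.KE.vl D.y = true ∧ 5 * k < X + 6))))) : D.Vv k X Y = El.o := by
  rw [Vv_mid hk h1 h2]
  unfold Vm
  simp only [Bool.toNat_eq_one]
  rw [if_neg h]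

lemma noM_B (s : Fin 4) {j : ℕ} (h0 : j ≠ 0) (h6 : j ≠ 6) (hM : D.KW.M s D.y = false) :
    D.KW.bB s D.y j = false ∧ D.KW.aB s D.y j = false := by
  rw [D.KW.bB_mid s _ h0, D.KW.aB_mid s _ h6, hM]
  exact ⟨rfl, rfl⟩

lemma noM_A (s : Fin 4) {j : ℕ} (h0 : j ≠ 0) (h6 : j ≠ 6) (hM : D.KE.M s D.y = false) :
    D.KE.bA s D.y j = false ∧ D.KE.aA s D.y j = false := by
  rw [D.KE.bA_mid s _ h0, D.KE.aA_mid s _ h6, hM]
  exact ⟨rfl, rfl⟩

/-- the run of a bump or valley -/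
lemma Vv_e (hk : 20 ≤ k) {X j : ℕ} (hj0 : j ≠ 0) (hj6 : j ≠ 6)
    (hW : X ≤ 5 → ∀ s, D.KW.M s D.y = false) (hE : 7 * k ≤ X + 5 → ∀ s, D.KE.M s D.y = false)
    (h : (j = 2 ∧ ((D.KW.bp D.y = true ∧ X ≤ 2 * k + 5) ∨
      (D.KE.bp D.y = true ∧ 5 * k < X + 4))) ∨
    (j = 4 ∧ ((D.KW.vl D.y = true ∧ X ≤ 2 * k + 3) ∨
      (D.KE.vl D.y = true ∧ 5 * k < X + 6)))) : D.Vv k X (j * k + 3) = El.e := by
  obtain ⟨e1, e2⟩ := div_mod (j := j) (t := 3) (k := k) (by omega)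
  unfold Vv
  rw [e1, e2, if_neg, if_neg, if_neg, if_neg, if_pos]
  · rcases h with ⟨rfl, h⟩ | ⟨rfl, h⟩
    · exact Or.inl ⟨rfl, h⟩
    · exact Or.inr ⟨rfl, h⟩
  · rintro ⟨s, h1, h2, -⟩
    have := dA_le s
    rw [(noM_A s hj0 hj6 (hE (by omega) s)).1] at h2
    exact absurd h2 (by decide)
  · rintro ⟨s, h1, -, h2, -⟩
    have := dA_le s
    rw [(noM_A s hj0 hj6 (hE (by omega) s)).2] at h2
    exact absurd h2 (by decide)
  · rintro ⟨s, h1, -, h2, -⟩
    have := dB_le s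
    rw [(noM_B s hj0 hj6 (hW (by omega) s)).2] at h2
    exact absurd h2 (by decide)
  · rintro ⟨s, h1, h2, -⟩
    have := dB_le s
    rw [(noM_B s hj0 hj6 (hW (by omega) s)).1] at h2
    exact absurd h2 (by decide)

lemma Hv_Wo (hk : 20 ≤ k) {X Y : ℕ} (hX : X < k) (h1 : k < Y) (h2 : Y ≤ 6 * k)
    (hM : ∀ s, D.KW.M s D.y = false) : D.Hv k X Y = El.o := by
  rw [Hv_W hk hX, if_neg]
  rintro ⟨s, -, h⟩
  unfold KD.lnB at h
  rw [if_neg (by omega), if_pos h2, hM] at h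
  simp at h

lemma Hv_Eo (hk : 20 ≤ k) {X Y : ℕ} (hX : 6 * k ≤ X) (h1 : k < Y) (h2 : Y ≤ 6 * k)
    (hM : ∀ s, D.KE.M s D.y = false) : D.Hv k X Y = El.o := by
  rw [Hv_E hk hX, if_neg]
  rintro ⟨s, -, h⟩
  unfold KD.lnA at h
  rw [if_neg (by omega), if_pos h2, hM] at h
  simp at h

/-! ### lanes -/

lemma Rel.wN' (h : D.Ok onW onE) (hk : 20 ≤ k) (R : D.Rel k hv vv)
    (h1 : D.nW = true ∨ D.KW.gN D.y = true) :
    ∀ Y ≤ 7 * k, (hv (2 * k + 3) Y ↔ hv (2 * k + 3) 0) := by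
  have hb : D.KW.bp D.y = false := by
    by_contra hc
    have hc : D.KW.bp D.y = true := by simpa using hc
    rcases h1 with h1 | h1
    · rw [(h.bpW hc).1] at h1; exact absurd h1 (by decide)
    · rw [(h.W.bp_ok _ hc).2.2.2.2.2.2] at h1; exact absurd h1 (by decide)
  have hv' : D.KW.vl D.y = false := by
    by_contra hc
    have hc : D.KW.vl D.y = true := by simpa using hc
    rcases h1 with h1 | h1
    · rw [h.vlW hc] at h1; exact absurd h1 (by decide)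
    · rw [(h.W.vl_ok _ hc).2.2.2.2.2.1] at h1; exact absurd h1 (by decide)
  intro Y hY
  refine R.col (by omega) le_rfl (fun Y _ _ => ?_) (fun Y _ _ => ⟨?_, ?_⟩) Y (Nat.zero_le _) hY
  · rw [Hv_a hk (by tauto)]; decide
  · apply Vv_mo hk (by omega) (by omega)
    rw [hb, hv']
    simp only [Bool.false_eq_true, false_and, false_or]
    omega
  · apply Vv_mo hk (by omega) (by omega)
    rw [hb, hv']
    simp only [Bool.false_eq_true, false_and, false_or]
    omega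

lemma Rel.wS' (h : D.Ok onW onE) (hk : 20 ≤ k) (R : D.Rel k hv vv)
    (h1 : D.sW = true ∨ D.KW.fS (D.y + 1) = true) :
    ∀ Y ≤ 7 * k, (hv (2 * k + 5) Y ↔ hv (2 * k + 5) 0) := by
  have hb : D.KW.bp D.y = false := by
    by_contra hc
    have hc : D.KW.bp D.y = true := by simpa using hc
    rcases h1 with h1 | h1
    · rw [(h.bpW hc).2] at h1; exact absurd h1 (by decide)
    · rw [(h.W.bp_ok _ hc).2.2.2.2.2.1] at h1; exact absurd h1 (by decide)
  intro Y hY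
  refine R.col (by omega) le_rfl (fun Y _ _ => ?_) (fun Y _ _ => ⟨?_, ?_⟩) Y (Nat.zero_le _) hY
  · rw [Hv_b hk (by tauto)]; decide
  · apply Vv_mo hk (by omega) (by omega)
    rw [hb]
    simp only [Bool.false_eq_true, false_and, false_or]
    omega
  · apply Vv_mo hk (by omega) (by omega)
    rw [hb]
    simp only [Bool.false_eq_true, false_and, false_or]
    omega

lemma Rel.eN' (h : D.Ok onW onE) (hk : 20 ≤ k) (R : D.Rel k hv vv)
    (h1 : D.nE = true ∨ D.KE.fN (D.y + 1) = true) :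
    ∀ Y ≤ 7 * k, (hv (5 * k - 4) Y ↔ hv (5 * k - 4) 0) := by
  have hb : D.KE.bp D.y = false := by
    by_contra hc
    have hc : D.KE.bp D.y = true := by simpa using hc
    rcases h1 with h1 | h1
    · rw [h.bpE hc] at h1; exact absurd h1 (by decide)
    · rw [(h.E.bp_ok _ hc).2.2.2.2.1] at h1; exact absurd h1 (by decide)
  have hv' : D.KE.vl D.y = false := by
    by_contra hc
    have hc : D.KE.vl D.y = true := by simpa using hc
    rcases h1 with h1 | h1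
    · rw [(h.vlE hc).1] at h1; exact absurd h1 (by decide)
    · rw [(h.E.vl_ok _ hc).2.2.2.2.2.2] at h1; exact absurd h1 (by decide)
  intro Y hY
  refine R.col (by omega) le_rfl (fun Y _ _ => ?_) (fun Y _ _ => ⟨?_, ?_⟩) Y (Nat.zero_le _) hY
  · rw [Hv_c hk (by tauto)]; decide
  · apply Vv_mo hk (by omega) (by omega)
    rw [hb, hv']
    simp only [Bool.false_eq_true, false_and, or_false]
    omega
  · apply Vv_mo hk (by omega) (by omega)
    rw [hb, hv']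
    simp only [Bool.false_eq_true, false_and, or_false]
    omega

lemma Rel.eS' (h : D.Ok onW onE) (hk : 20 ≤ k) (R : D.Rel k hv vv)
    (h1 : D.sE = true ∨ D.KE.gS D.y = true) :
    ∀ Y ≤ 7 * k, (hv (5 * k - 6) Y ↔ hv (5 * k - 6) 0) := by
  have hv' : D.KE.vl D.y = false := by
    by_contra hc
    have hc : D.KE.vl D.y = true := by simpa using hc
    rcases h1 with h1 | h1
    · rw [(h.vlE hc).2] at h1; exact absurd h1 (by decide)
    · rw [(h.E.vl_ok _ hc).2.2.2.2.1] at h1; exact absurd h1 (by decide)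
  intro Y hY
  refine R.col (by omega) le_rfl (fun Y _ _ => ?_) (fun Y _ _ => ⟨?_, ?_⟩) Y (Nat.zero_le _) hY
  · rw [Hv_d hk (by tauto)]; decide
  · apply Vv_mo hk (by omega) (by omega)
    rw [hv']
    simp only [Bool.false_eq_true, false_and, or_false]
    omega
  · apply Vv_mo hk (by omega) (by omega)
    rw [hv']
    simp only [Bool.false_eq_true, false_and, or_false]
    omega

lemma Rel.r1' (hk : 20 ≤ k) (R : D.Rel k hv vv) (h1 : D.r1 = true) :
    ∀ Y ≤ 7 * k, (hv (3 * k + 3) Y ↔ hv (3 * k + 3) 0) := by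
  intro Y hY
  refine R.col (by omega) le_rfl (fun Y _ _ => ?_) (fun Y _ _ => ⟨?_, ?_⟩) Y (Nat.zero_le _) hY
  · rw [Hv_r1 hk h1]; decide
  · exact Vv_mo hk (by omega) (by omega) (by omega)
  · exact Vv_mo hk (by omega) (by omega) (by omega)

lemma Rel.r2' (hk : 20 ≤ k) (R : D.Rel k hv vv) (h1 : D.r2 = true) :
    ∀ Y ≤ 7 * k, (hv (4 * k - 4) Y ↔ hv (4 * k - 4) 0) := by
  intro Y hY
  refine R.col (by omega) le_rfl (fun Y _ _ => ?_) (fun Y _ _ => ⟨?_, ?_⟩) Y (Nat.zero_le _) hY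
  · rw [Hv_r2 hk h1]; decide
  · exact Vv_mo hk (by omega) (by omega) (by omega)
  · exact Vv_mo hk (by omega) (by omega) (by omega)

theorem Rel.wN (h : D.Ok onW onE) (hk : 20 ≤ k) (R : D.Rel k hv vv)
    (h1 : D.nW = true ∨ D.KW.gN D.y = true) : hv (2 * k + 3) 0 ↔ hv (2 * k + 3) (7 * k) :=
  (R.wN' h hk h1 _ le_rfl).symm

theorem Rel.wS (h : D.Ok onW onE) (hk : 20 ≤ k) (R : D.Rel k hv vv)
    (h1 : D.sW = true ∨ D.KW.fS (D.y + 1) = true) :
    hv (2 * k + 5) 0 ↔ hv (2 * k + 5) (7 * k) :=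
  (R.wS' h hk h1 _ le_rfl).symm

theorem Rel.eN (h : D.Ok onW onE) (hk : 20 ≤ k) (R : D.Rel k hv vv)
    (h1 : D.nE = true ∨ D.KE.fN (D.y + 1) = true) :
    hv (5 * k - 4) 0 ↔ hv (5 * k - 4) (7 * k) :=
  (R.eN' h hk h1 _ le_rfl).symm

theorem Rel.eS (h : D.Ok onW onE) (hk : 20 ≤ k) (R : D.Rel k hv vv)
    (h1 : D.sE = true ∨ D.KE.gS D.y = true) : hv (5 * k - 6) 0 ↔ hv (5 * k - 6) (7 * k) :=
  (R.eS' h hk h1 _ le_rfl).symm

theorem Rel.r1 (h : D.Ok onW onE) (hk : 20 ≤ k) (R : D.Rel k hv vv) (h1 : D.r1 = true) :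
    hv (3 * k + 3) 0 ↔ hv (3 * k + 3) (7 * k) :=
  (R.r1' hk h1 _ le_rfl).symm

theorem Rel.r2 (h : D.Ok onW onE) (hk : 20 ≤ k) (R : D.Rel k hv vv) (h1 : D.r2 = true) :
    hv (4 * k - 4) 0 ↔ hv (4 * k - 4) (7 * k) :=
  (R.r2' hk h1 _ le_rfl).symm

/-! ### bumps and valleys -/

lemma Rel.bpW_row (h : D.Ok onW onE) (hk : 20 ≤ k) (R : D.Rel k hv vv)
    (h1 : D.KW.bp D.y = true) : ∀ X ≤ 2 * k + 5, (vv X (2 * k + 3) ↔ vv 0 (2 * k + 3)) := by
  obtain ⟨-, -, -, hM, -, hf, hg⟩ := h.W.bp_ok _ h1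
  obtain ⟨hn, hs⟩ := h.bpW h1
  intro X hX
  refine R.row (by omega) (by omega) (fun X _ _ => ?_) (fun X _ _ => ?_) X (Nat.zero_le _) hX
  · rw [Vv_e hk (by decide) (by decide) (fun _ => hM) (fun _ => by omega)
      (Or.inl ⟨rfl, Or.inl ⟨h1, by omega⟩⟩)]
    decide
  · by_cases hXk : X < k
    · exact ⟨Hv_Wo hk hXk (by omega) (by omega) hM, Hv_Wo hk hXk (by omega) (by omega) hM⟩
    · constructor
      · refine Hv_o (by omega) (by omega) (fun _ => ?_) (by omega) (by omega) (by omega) (by omega)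
          (by omega)
        rw [hn, hg]
        simp only [Bool.false_eq_true, false_or]
        omega
      · refine Hv_o (by omega) (by omega) (fun _ => ?_) (by omega) (by omega) (by omega) (by omega)
          (by omega)
        rw [hn, hg]
        simp only [Bool.false_eq_true, false_or]
        omega

lemma Rel.bpW_col (hk : 20 ≤ k) (R : D.Rel k hv vv)
    (h1 : D.KW.bp D.y = true) : ∀ Y ≤ 2 * k + 3, (hv (2 * k + 5) Y ↔ hv (2 * k + 5) 0) := by
  intro Y hY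
  refine R.col (by omega) (by omega) (fun Y _ _ => ?_) (fun Y _ _ => ⟨?_, ?_⟩) Y (Nat.zero_le _) hY
  · rw [Hv_b hk (Or.inr (Or.inr ⟨h1, by omega⟩))]; decide
  · exact Vv_mo hk (by omega) (by omega) (by omega)
  · exact Vv_mo hk (by omega) (by omega) (by omega)

theorem Rel.bpW (h : D.Ok onW onE) (hk : 20 ≤ k) (R : D.Rel k hv vv)
    (h1 : D.KW.bp D.y = true) : hv (2 * k + 5) 0 ↔ vv 0 (2 * k + 3) := by
  obtain ⟨-, -, -, hM, -, hf, hg⟩ := h.W.bp_ok _ h1
  obtain ⟨hn, hs⟩ := h.bpW h1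
  rw [← R.bpW_col hk h1 (2 * k + 3) le_rfl, ← R.bpW_row h hk h1 (2 * k + 5) le_rfl]
  refine R (2 * k + 5) (2 * k + 3) (by omega) (by omega) Prt.S Prt.W (by decide) ?_ ?_ ?_
  · show D.Hv k (2 * k + 5) (2 * k + 3) ≠ El.o
    rw [Hv_b hk (Or.inr (Or.inr ⟨h1, le_rfl⟩))]; decide
  · show D.Vv k (2 * k + 5) (2 * k + 3) ≠ El.o
    rw [Vv_e hk (by decide) (by decide) (fun _ => hM) (fun _ => by omega)
      (Or.inl ⟨rfl, Or.inl ⟨h1, by omega⟩⟩)]
    decide
  · intro r hr1 hr2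
    cases r
    · exact absurd rfl hr2
    · exact Vv_mo hk (by omega) (by omega) (by omega)
    · refine Hv_o (by omega) (by omega) (by omega) (fun _ => ?_) (by omega) (by omega) (by omega)
        (by omega)
      rw [hs, hf]
      simp only [Bool.false_eq_true, false_or]
      omega
    · exact absurd rfl hr1

lemma Rel.vlW_row (h : D.Ok onW onE) (hk : 20 ≤ k) (R : D.Rel k hv vv)
    (h1 : D.KW.vl D.y = true) : ∀ X ≤ 2 * k + 3, (vv X (4 * k + 3) ↔ vv 0 (4 * k + 3)) := by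
  obtain ⟨-, -, -, hM, hgS, hg, -⟩ := h.W.vl_ok _ h1
  intro X hX
  refine R.row (by omega) (by omega) (fun X _ _ => ?_) (fun X _ _ => ?_) X (Nat.zero_le _) hX
  · rw [Vv_e hk (by decide) (by decide) (fun _ => hM) (fun _ => by omega)
      (Or.inr ⟨rfl, Or.inl ⟨h1, by omega⟩⟩)]
    decide
  · by_cases hXk : X < k
    · exact ⟨Hv_Wo hk hXk (by omega) (by omega) hM, Hv_Wo hk hXk (by omega) (by omega) hM⟩
    · exact ⟨Hv_o (by omega) (by omega) (by omega) (by omega) (by omega) (by omega) (by omega)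
        (by omega), Hv_o (by omega) (by omega) (by omega) (by omega) (by omega) (by omega)
        (by omega) (by omega)⟩

lemma Rel.vlW_col (hk : 20 ≤ k) (R : D.Rel k hv vv) (h1 : D.KW.vl D.y = true) :
    ∀ Y, 4 * k + 4 ≤ Y → Y ≤ 7 * k → (hv (2 * k + 3) Y ↔ hv (2 * k + 3) (4 * k + 4)) := by
  intro Y hY hY'
  refine R.col (by omega) le_rfl (fun Y _ _ => ?_) (fun Y _ _ => ⟨?_, ?_⟩) Y hY hY'
  · rw [Hv_a hk (Or.inr (Or.inr ⟨h1, by omega⟩))]; decide
  · exact Vv_mo hk (by omega) (by omega) (by omega)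
  · exact Vv_mo hk (by omega) (by omega) (by omega)

theorem Rel.vlW (h : D.Ok onW onE) (hk : 20 ≤ k) (R : D.Rel k hv vv)
    (h1 : D.KW.vl D.y = true) : hv (2 * k + 3) (7 * k) ↔ vv 0 (4 * k + 3) := by
  obtain ⟨-, -, -, hM, hgS, hg, -⟩ := h.W.vl_ok _ h1
  have hn := h.vlW h1
  rw [R.vlW_col hk h1 (7 * k) (by omega) le_rfl, ← R.vlW_row h hk h1 (2 * k + 3) le_rfl]
  refine R (2 * k + 3) (4 * k + 3) (by omega) (by omega) Prt.N Prt.W (by decide) ?_ ?_ ?_
  · show D.Hv k (2 * k + 3) (4 * k + 3 + 1) ≠ El.o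
    rw [Hv_a hk (Or.inr (Or.inr ⟨h1, by omega⟩))]; decide
  · show D.Vv k (2 * k + 3) (4 * k + 3) ≠ El.o
    rw [Vv_e hk (by decide) (by decide) (fun _ => hM) (fun _ => by omega)
      (Or.inr ⟨rfl, Or.inl ⟨h1, by omega⟩⟩)]
    decide
  · intro r hr1 hr2
    cases r
    · exact absurd rfl hr2
    · exact Vv_mo hk (by omega) (by omega) (by omega)
    · exact absurd rfl hr1
    · refine Hv_o (by omega) (by omega) (fun _ => ?_) (by omega) (by omega) (by omega) (by omega)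
        (by omega)
      rw [hn, hg]
      simp only [Bool.false_eq_true, false_or]
      omega

lemma Rel.bpE_row (h : D.Ok onW onE) (hk : 20 ≤ k) (R : D.Rel k hv vv)
    (h1 : D.KE.bp D.y = true) : ∀ X, 5 * k - 3 ≤ X → X ≤ 7 * k →
      (vv X (2 * k + 3) ↔ vv (5 * k - 3) (2 * k + 3)) := by
  obtain ⟨-, -, -, hM, hf, -, -⟩ := h.E.bp_ok _ h1
  intro X hX hX'
  refine R.row (by omega) le_rfl (fun X _ _ => ?_) (fun X _ _ => ?_) X hX hX'
  · rw [Vv_e hk (by decide) (by decide) (fun _ => by omega) (fun _ => hM)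
      (Or.inl ⟨rfl, Or.inr ⟨h1, by omega⟩⟩)]
    decide
  · by_cases hXk : 6 * k ≤ X
    · exact ⟨Hv_Eo hk hXk (by omega) (by omega) hM, Hv_Eo hk hXk (by omega) (by omega) hM⟩
    · exact ⟨Hv_o (by omega) (by omega) (by omega) (by omega) (by omega) (by omega) (by omega)
        (by omega), Hv_o (by omega) (by omega) (by omega) (by omega) (by omega) (by omega)
        (by omega) (by omega)⟩

lemma Rel.bpE_col (hk : 20 ≤ k) (R : D.Rel k hv vv)
    (h1 : D.KE.bp D.y = true) : ∀ Y ≤ 2 * k + 3, (hv (5 * k - 4) Y ↔ hv (5 * k - 4) 0) := by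
  intro Y hY
  refine R.col (by omega) (by omega) (fun Y _ _ => ?_) (fun Y _ _ => ⟨?_, ?_⟩) Y (Nat.zero_le _) hY
  · rw [Hv_c hk (Or.inr (Or.inr ⟨h1, by omega⟩))]; decide
  · exact Vv_mo hk (by omega) (by omega) (by omega)
  · exact Vv_mo hk (by omega) (by omega) (by omega)

theorem Rel.bpE (h : D.Ok onW onE) (hk : 20 ≤ k) (R : D.Rel k hv vv)
    (h1 : D.KE.bp D.y = true) : hv (5 * k - 4) 0 ↔ vv (7 * k) (2 * k + 3) := by
  obtain ⟨-, -, -, hM, hf, -, -⟩ := h.E.bp_ok _ h1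
  have hn := h.bpE h1
  have hX : 5 * k - 4 + 1 = 5 * k - 3 := by omega
  rw [← R.bpE_col hk h1 (2 * k + 3) le_rfl, R.bpE_row h hk h1 (7 * k) (by omega) le_rfl, ← hX]
  refine R (5 * k - 4) (2 * k + 3) (by omega) (by omega) Prt.S Prt.E (by decide) ?_ ?_ ?_
  · show D.Hv k (5 * k - 4) (2 * k + 3) ≠ El.o
    rw [Hv_c hk (Or.inr (Or.inr ⟨h1, le_rfl⟩))]; decide
  · show D.Vv k (5 * k - 4 + 1) (2 * k + 3) ≠ El.o
    rw [Vv_e hk (by decide) (by decide) (fun _ => by omega) (fun _ => hM)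
      (Or.inl ⟨rfl, Or.inr ⟨h1, by omega⟩⟩)]
    decide
  · intro r hr1 hr2
    cases r
    · exact Vv_mo hk (by omega) (by omega) (by omega)
    · exact absurd rfl hr2
    · refine Hv_o (by omega) (by omega) (by omega) (by omega) (fun _ => ?_) (by omega) (by omega)
        (by omega)
      rw [hn, hf]
      simp only [Bool.false_eq_true, false_or]
      omega
    · exact absurd rfl hr1

lemma Rel.vlE_row (h : D.Ok onW onE) (hk : 20 ≤ k) (R : D.Rel k hv vv)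
    (h1 : D.KE.vl D.y = true) : ∀ X, 5 * k - 5 ≤ X → X ≤ 7 * k →
      (vv X (4 * k + 3) ↔ vv (5 * k - 5) (4 * k + 3)) := by
  obtain ⟨-, -, -, hM, hgS, -, hf⟩ := h.E.vl_ok _ h1
  obtain ⟨hn, hs⟩ := h.vlE h1
  intro X hX hX'
  refine R.row (by omega) le_rfl (fun X _ _ => ?_) (fun X _ _ => ?_) X hX hX'
  · rw [Vv_e hk (by decide) (by decide) (fun _ => by omega) (fun _ => hM)
      (Or.inr ⟨rfl, Or.inr ⟨h1, by omega⟩⟩)]
    decide
  · by_cases hXk : 6 * k ≤ X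
    · exact ⟨Hv_Eo hk hXk (by omega) (by omega) hM, Hv_Eo hk hXk (by omega) (by omega) hM⟩
    · constructor
      · refine Hv_o (by omega) (by omega) (by omega) (by omega) (fun _ => ?_) (by omega) (by omega)
          (by omega)
        rw [hn, hf]
        simp only [Bool.false_eq_true, false_or]
        omega
      · refine Hv_o (by omega) (by omega) (by omega) (by omega) (fun _ => ?_) (by omega) (by omega)
          (by omega)
        rw [hn, hf]
        simp only [Bool.false_eq_true, false_or]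
        omega

lemma Rel.vlE_col (hk : 20 ≤ k) (R : D.Rel k hv vv) (h1 : D.KE.vl D.y = true) :
    ∀ Y, 4 * k + 4 ≤ Y → Y ≤ 7 * k → (hv (5 * k - 6) Y ↔ hv (5 * k - 6) (4 * k + 4)) := by
  intro Y hY hY'
  refine R.col (by omega) le_rfl (fun Y _ _ => ?_) (fun Y _ _ => ⟨?_, ?_⟩) Y hY hY'
  · rw [Hv_d hk (Or.inr (Or.inr ⟨h1, by omega⟩))]; decide
  · exact Vv_mo hk (by omega) (by omega) (by omega)
  · exact Vv_mo hk (by omega) (by omega) (by omega)

theorem Rel.vlE (h : D.Ok onW onE) (hk : 20 ≤ k) (R : D.Rel k hv vv)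
    (h1 : D.KE.vl D.y = true) : hv (5 * k - 6) (7 * k) ↔ vv (7 * k) (4 * k + 3) := by
  obtain ⟨-, -, -, hM, hgS, -, hf⟩ := h.E.vl_ok _ h1
  obtain ⟨hn, hs⟩ := h.vlE h1
  have hX : 5 * k - 6 + 1 = 5 * k - 5 := by omega
  rw [R.vlE_col hk h1 (7 * k) (by omega) le_rfl, R.vlE_row h hk h1 (7 * k) (by omega) le_rfl, ← hX]
  refine R (5 * k - 6) (4 * k + 3) (by omega) (by omega) Prt.N Prt.E (by decide) ?_ ?_ ?_
  · show D.Hv k (5 * k - 6) (4 * k + 3 + 1) ≠ El.o
    rw [Hv_d hk (Or.inr (Or.inr ⟨h1, by omega⟩))]; decide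
  · show D.Vv k (5 * k - 6 + 1) (4 * k + 3) ≠ El.o
    rw [Vv_e hk (by decide) (by decide) (fun _ => by omega) (fun _ => hM)
      (Or.inr ⟨rfl, Or.inr ⟨h1, by omega⟩⟩)]
    decide
  · intro r hr1 hr2
    cases r
    · exact Vv_mo hk (by omega) (by omega) (by omega)
    · exact absurd rfl hr2
    · exact absurd rfl hr1
    · refine Hv_o (by omega) (by omega) (by omega) (by omega) (by omega) (fun _ => ?_) (by omega)
        (by omega)
      rw [hs, hgS]
      simp only [Bool.false_eq_true, false_or]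
      omega

/-! ### all strands -/

lemma Vv_cases {X j t : ℕ} (ht : t < k) (h : D.Vv k X (j * k + t) ≠ El.o) :
    (∃ s : Fin 4, X ≤ dB s ∧ ((D.KW.bB s D.y j = true ∧ D.KW.aB s D.y j = false ∧ t = nC s) ∨
      (D.KW.bB s D.y j = false ∧ D.KW.aB s D.y j = true ∧ t = sC s))) ∨
    (∃ s : Fin 4, 7 * k ≤ X + dA s ∧
      ((D.KE.bA s D.y j = false ∧ D.KE.aA s D.y j = true ∧ t = nC s) ∨
      (D.KE.bA s D.y j = true ∧ D.KE.aA s D.y j = false ∧ t = sC s))) ∨
    (j * k + t = 2 * k + 3 ∧ ((D.KW.bp D.y = true ∧ X ≤ 2 * k + 5) ∨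
      (D.KE.bp D.y = true ∧ 5 * k < X + 4))) ∨
    (j * k + t = 4 * k + 3 ∧ ((D.KW.vl D.y = true ∧ X ≤ 2 * k + 3) ∨
      (D.KE.vl D.y = true ∧ 5 * k < X + 6))) := by
  obtain ⟨e1, e2⟩ := div_mod (j := j) ht
  unfold Vv at h
  rw [e1, e2] at h
  split_ifs at h with h1 h2 h3 h4 h5
  · obtain ⟨s, a, b⟩ := h1
    exact Or.inl ⟨s, a, Or.inl b⟩
  · obtain ⟨s, a, b⟩ := h2
    exact Or.inl ⟨s, a, Or.inr b⟩
  · obtain ⟨s, a, b⟩ := h3
    exact Or.inr (Or.inl ⟨s, a, Or.inl b⟩)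
  · obtain ⟨s, a, b⟩ := h4
    exact Or.inr (Or.inl ⟨s, a, Or.inr b⟩)
  · exact Or.inr (Or.inr h5)
  · exact absurd rfl h

lemma inB_ne (hk : 20 ≤ k) {s : Fin 4} {Y : ℕ} (hY : Y < 7 * k)
    (h1 : D.KW.lnB k s D.y Y = false) (h2 : D.KW.lnB k s D.y (Y + 1) = true) :
    D.Vv k 0 Y ≠ El.o := by
  obtain ⟨j, t, hj, ht, rfl⟩ := exists_jt hY
  rw [(LbY hk s hj ht).1] at h1
  rw [(LbY hk s hj ht).2] at h2
  obtain ⟨c1, c2, c3⟩ := Lb_in h1 h2
  rw [Vv_Ws ht (Nat.zero_le _) c1 c2 c3]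
  decide

lemma inA_ne (hk : 20 ≤ k) {s : Fin 4} {Y : ℕ} (hY : Y < 7 * k)
    (h1 : D.KE.lnA k s D.y Y = false) (h2 : D.KE.lnA k s D.y (Y + 1) = true) :
    D.Vv k (7 * k) Y ≠ El.o := by
  obtain ⟨j, t, hj, ht, rfl⟩ := exists_jt hY
  rw [(LaY hk s hj ht).1] at h1
  rw [(LaY hk s hj ht).2] at h2
  obtain ⟨c1, c2, c3⟩ := La_in h1 h2
  rw [Vv_En hk (by omega) ht (by omega) c1 c2 c3]
  decide

/-- Every strand of a plate reaches the side of the plate. -/
theorem Rel.all (h : D.Ok onW onE) (hk : 20 ≤ k) (R : D.Rel k hv vv) {q : Prop}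
    (hN : ∀ X < 7 * k, D.Hv k X (7 * k) ≠ El.o → (hv X (7 * k) ↔ q))
    (hS : ∀ X < 7 * k, D.Hv k X 0 ≠ El.o → (hv X 0 ↔ q))
    (hW : ∀ Y < 7 * k, D.Vv k 0 Y ≠ El.o → (vv 0 Y ↔ q))
    (hE : ∀ Y < 7 * k, D.Vv k (7 * k) Y ≠ El.o → (vv (7 * k) Y ↔ q)) :
    (∀ X Y, X < 7 * k → Y ≤ 7 * k → D.Hv k X Y ≠ El.o → (hv X Y ↔ q)) ∧
      (∀ X Y, X ≤ 7 * k → Y < 7 * k → D.Vv k X Y ≠ El.o → (vv X Y ↔ q)) := by
  have hB : ∀ s : Fin 4, ∀ Y ≤ 7 * k, D.KW.lnB k s D.y Y = true → (hv (dB s) Y ↔ q) := by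
    intro s Y
    have hd := dB_le s
    induction Y with
    | zero =>
      intro _ hl
      exact hS _ (by omega) (by rw [Hv_dB hk hl]; decide)
    | succ Y ih =>
      intro hY hl
      by_cases hl' : D.KW.lnB k s D.y Y = true
      · rw [← R.trB h hk (by omega) hl' hl]
        exact ih (by omega) hl'
      · have hl' : D.KW.lnB k s D.y Y = false := by simpa using hl'
        rw [R.inB h hk (by omega) hl' hl]
        exact hW Y (by omega) (inB_ne hk (by omega) hl' hl)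
  have hA : ∀ s : Fin 4, ∀ Y ≤ 7 * k, D.KE.lnA k s D.y Y = true →
      (hv (7 * k - 1 - dA s) Y ↔ q) := by
    intro s Y
    have hd := dA_le s
    induction Y with
    | zero =>
      intro _ hl
      exact hS _ (by omega) (by rw [Hv_dA hk hl]; decide)
    | succ Y ih =>
      intro hY hl
      by_cases hl' : D.KE.lnA k s D.y Y = true
      · rw [← R.trA h hk (by omega) hl' hl]
        exact ih (by omega) hl'
      · have hl' : D.KE.lnA k s D.y Y = false := by simpa using hl'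
        rw [R.inA h hk (by omega) hl' hl]
        exact hE Y (by omega) (inA_ne hk (by omega) hl' hl)
  constructor
  · intro X Y hX hY hne
    unfold Hv at hne
    split_ifs at hne with h1 h2 h3 h4 h5 h6 h7
    · obtain ⟨-, s, rfl, hl⟩ := h1
      exact hB s Y hY hl
    · obtain ⟨-, s, hs, hl⟩ := h2
      have hd := dA_le s
      obtain rfl : X = 7 * k - 1 - dA s := by omega
      exact hA s Y hY hl
    · obtain ⟨rfl, c⟩ := h3
      rcases c with h3 | h3 | h3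
      · rw [R.wN' h hk (Or.inl h3) Y hY]
        exact hS _ hX (by rw [Hv_a hk (Or.inl h3)]; decide)
      · rw [R.wN' h hk (Or.inr h3) Y hY]
        exact hS _ hX (by rw [Hv_a hk (Or.inr (Or.inl h3))]; decide)
      · rw [R.vlW_col hk h3.1 Y (by omega) hY, ← R.vlW_col hk h3.1 (7 * k) (by omega) le_rfl]
        exact hN _ hX (by rw [Hv_a hk (Or.inr (Or.inr ⟨h3.1, by omega⟩))]; decide)
    · obtain ⟨rfl, c⟩ := h4
      rcases c with h3 | h3 | h3
      · rw [R.wS' h hk (Or.inl h3) Y hY]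
        exact hS _ hX (by rw [Hv_b hk (Or.inl h3)]; decide)
      · rw [R.wS' h hk (Or.inr h3) Y hY]
        exact hS _ hX (by rw [Hv_b hk (Or.inr (Or.inl h3))]; decide)
      · rw [R.bpW_col hk h3.1 Y h3.2]
        exact hS _ hX (by rw [Hv_b hk (Or.inr (Or.inr ⟨h3.1, by omega⟩))]; decide)
    · obtain ⟨hX4, c⟩ := h5
      obtain rfl : X = 5 * k - 4 := by omega
      rcases c with h3 | h3 | h3
      · rw [R.eN' h hk (Or.inl h3) Y hY]
        exact hS _ hX (by rw [Hv_c hk (Or.inl h3)]; decide)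
      · rw [R.eN' h hk (Or.inr h3) Y hY]
        exact hS _ hX (by rw [Hv_c hk (Or.inr (Or.inl h3))]; decide)
      · rw [R.bpE_col hk h3.1 Y h3.2]
        exact hS _ hX (by rw [Hv_c hk (Or.inr (Or.inr ⟨h3.1, by omega⟩))]; decide)
    · obtain ⟨hX4, c⟩ := h6
      obtain rfl : X = 5 * k - 6 := by omega
      rcases c with h3 | h3 | h3
      · rw [R.eS' h hk (Or.inl h3) Y hY]
        exact hS _ hX (by rw [Hv_d hk (Or.inl h3)]; decide)
      · rw [R.eS' h hk (Or.inr h3) Y hY]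
        exact hS _ hX (by rw [Hv_d hk (Or.inr (Or.inl h3))]; decide)
      · rw [R.vlE_col hk h3.1 Y (by omega) hY, ← R.vlE_col hk h3.1 (7 * k) (by omega) le_rfl]
        exact hN _ hX (by rw [Hv_d hk (Or.inr (Or.inr ⟨h3.1, by omega⟩))]; decide)
    · rcases h7 with ⟨rfl, h7⟩ | ⟨hX4, h7⟩
      · rw [R.r1' hk h7 Y hY]
        exact hS _ hX (by rw [Hv_r1 hk h7]; decide)
      · obtain rfl : X = 4 * k - 4 := by omega
        rw [R.r2' hk h7 Y hY]
        exact hS _ hX (by rw [Hv_r2 hk h7]; decide)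
    · exact absurd rfl hne
  · intro X Y hX hY hne
    obtain ⟨j, t, hj, ht, rfl⟩ := exists_jt hY
    rcases Vv_cases ht hne with ⟨s, h1, h2⟩ | ⟨s, h1, h2⟩ | ⟨e, ⟨h1, h2⟩ | ⟨h1, h2⟩⟩ |
      ⟨e, ⟨h1, h2⟩ | ⟨h1, h2⟩⟩
    · rw [(R.rowB h hk hj ht h2 X h1).2]
      exact hW _ hY (R.rowB h hk hj ht h2 0 (Nat.zero_le _)).1
    · rw [(R.rowA h hk hj ht h2 X h1 hX).2]
      exact hE _ hY (R.rowA h hk hj ht h2 (7 * k) (by omega) le_rfl).1
    · rw [e] at hY ⊢
      rw [R.bpW_row h hk h1 X h2]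
      refine hW _ hY ?_
      rw [Vv_e hk (by decide) (by decide) (fun _ => (h.W.bp_ok _ h1).2.2.2.1)
        (fun _ => by omega) (Or.inl ⟨rfl, Or.inl ⟨h1, by omega⟩⟩)]
      decide
    · rw [e] at hY ⊢
      rw [R.bpE_row h hk h1 X (by omega) hX, ← R.bpE_row h hk h1 (7 * k) (by omega) le_rfl]
      refine hE _ hY ?_
      rw [Vv_e hk (by decide) (by decide) (fun _ => by omega)
        (fun _ => (h.E.bp_ok _ h1).2.2.2.1) (Or.inl ⟨rfl, Or.inr ⟨h1, by omega⟩⟩)]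
      decide
    · rw [e] at hY ⊢
      rw [R.vlW_row h hk h1 X h2]
      refine hW _ hY ?_
      rw [Vv_e hk (by decide) (by decide) (fun _ => (h.W.vl_ok _ h1).2.2.2.1)
        (fun _ => by omega) (Or.inr ⟨rfl, Or.inl ⟨h1, by omega⟩⟩)]
      decide
    · rw [e] at hY ⊢
      rw [R.vlE_row h hk h1 X (by omega) hX, ← R.vlE_row h hk h1 (7 * k) (by omega) le_rfl]
      refine hE _ hY ?_
      rw [Vv_e hk (by decide) (by decide) (fun _ => by omega)
        (fun _ => (h.E.vl_ok _ h1).2.2.2.1) (Or.inr ⟨rfl, Or.inr ⟨h1, by omega⟩⟩)]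
      decide

end PD

end Pool.Agent.MP42D
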