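import Pool.Agent.MP42.D.Table

/-!
# Piece T1: the tables of the plates are good
-/

set_option autoImplicit false
set_option linter.unusedSectionVars false

namespace Pool.Agent.MP42D

open Pool.Agent.Helper55.UNF

namespace PD

variable {τ : Type*} (D : PD τ) (k : ℕ)

/-- **Piece T1.** All cells of a plate are good. -/
theorem cellOk {onW onE : ℤ → Bool} (h : D.Ok onW onE) (hk : 20 ≤ k) {i j : ℕ} (hi : i < 7)
    (hj : j < 7) : CellOk k (D.prT k i j) (D.laT k i j) := by
  sorry

/-- **Piece T1.** The values on the west side are the values of the line `KW`. -/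
theorem Vv_zero {onW onE : ℤ → Bool} (h : D.Ok onW onE) (hk : 20 ≤ k) {Y : ℕ} (hY : Y < 7 * k) :
    D.Vv k 0 Y = D.KW.kl k D.y Y := by
  sorry

/-- **Piece T1.** The values on the east side are the values of the line `KE`. -/
theorem Vv_end {onW onE : ℤ → Bool} (h : D.Ok onW onE) (hk : 20 ≤ k) {Y : ℕ} (hY : Y < 7 * k) :
    D.Vv k (7 * k) Y = D.KE.kl k D.y Y := by
  sorry

end PD

end Pool.Agent.MP42D
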