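import Pool.Agent.MP42.D.T2p

/-!
# Piece T2: the value of the north side of a state of `P.refine 7` (owner helper2)
-/

set_option autoImplicit false
set_option linter.unusedSectionVars false

namespace Pool.Agent.MP42D

open Pool.Agent.Helper55.UNF Pool.Agent.Helper55.UNF.GridSolid Pool.Agent.MP42G

variable {P : GridSolid}

/-! ### The four states of a facet -/

lemma four_aux : ∀ d e : Dir, d.1 ≠ e.1 →
    e = bfE d ∨ e = cross d (bfE d) ∨ e = opp (bfE d) ∨ e = opp (cross d (bfE d)) := by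
  decide

lemma four (s : P.FSt) : s = bf s.facet ∨ s = (bf s.facet).rL ∨ s = (bf s.facet).r2 ∨
    s = (bf s.facet).rR := by
  rcases four_aux s.1.d s.1.e s.2.2 with h | h | h | h
  · exact Or.inl (st_fe rfl h)
  · exact Or.inr (Or.inl (st_fe rfl h))
  · exact Or.inr (Or.inr (Or.inl (st_fe rfl h)))
  · exact Or.inr (Or.inr (Or.inr (st_fe rfl h)))

lemma ne_aux1 : ∀ d : Dir, cross d (bfE d) ≠ bfE d := by decide
lemma ne_aux2 : ∀ d : Dir, opp (bfE d) ≠ bfE d := by decide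
lemma ne_aux3 : ∀ d : Dir, opp (bfE d) ≠ cross d (bfE d) := by decide
lemma ne_aux4 : ∀ d : Dir, opp (cross d (bfE d)) ≠ bfE d := by decide
lemma ne_aux5 : ∀ d : Dir, opp (cross d (bfE d)) ≠ cross d (bfE d) := by decide
lemma ne_aux6 : ∀ d : Dir, opp (cross d (bfE d)) ≠ opp (bfE d) := by decide

section
variable (F : P.Facet)

lemma bf_e : (bf F).1.e = bfE F.1.2 := rfl

lemma rL_ne : (bf F).rL ≠ bf F := fun h => ne_aux1 F.1.2 (congrArg (fun s : P.FSt => s.1.e) h)
lemma r2_ne : (bf F).r2 ≠ bf F := fun h => ne_aux2 F.1.2 (congrArg (fun s : P.FSt => s.1.e) h)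
lemma r2_ne' : (bf F).r2 ≠ (bf F).rL :=
  fun h => ne_aux3 F.1.2 (congrArg (fun s : P.FSt => s.1.e) h)
lemma rR_ne : (bf F).rR ≠ bf F := fun h => ne_aux4 F.1.2 (congrArg (fun s : P.FSt => s.1.e) h)
lemma rR_ne' : (bf F).rR ≠ (bf F).rL :=
  fun h => ne_aux5 F.1.2 (congrArg (fun s : P.FSt => s.1.e) h)
lemma rR_ne'' : (bf F).rR ≠ (bf F).r2 :=
  fun h => ne_aux6 F.1.2 (congrArg (fun s : P.FSt => s.1.e) h)

end

namespace Deco0

variable (D : Deco0 P)

/-- values of the edges of a coarse facet in its base frame, parallel to the base east -/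
noncomputable def hF (k : ℕ) (F : P.Facet) (X Y : ℕ) : El :=
  if IsPl F then (D.pd (bf F)).Hv k X Y
  else if Y ≤ 3 * k then D.ev k (bf F).r2 (7 * k - 1 - X) else D.ev k (bf F) X

/-- parallel to the base north -/
noncomputable def vF (k : ℕ) (F : P.Facet) (X Y : ℕ) : El :=
  if IsPl F then (D.pd (bf F)).Vv k X Y else El.o

/-- the value of an edge of a coarse facet in the frame of a coarse state, parallel to the east -/
noncomputable def HS (k : ℕ) (s : P.FSt) (X Y : ℕ) : El :=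
  if s = bf s.facet then D.hF k s.facet X Y
  else if s = (bf s.facet).rL then D.vF k s.facet (7 * k - Y) X
  else if s = (bf s.facet).r2 then D.hF k s.facet (7 * k - 1 - X) (7 * k - Y)
  else D.vF k s.facet Y (7 * k - 1 - X)

variable {D} {k : ℕ}

lemma HS_bf (F : P.Facet) (X Y : ℕ) : D.HS k (bf F) X Y = D.hF k F X Y := if_pos rfl

lemma HS_rL (F : P.Facet) (X Y : ℕ) : D.HS k (bf F).rL X Y = D.vF k F (7 * k - Y) X := by
  unfold HS
  exact (if_neg (rL_ne F)).trans (if_pos rfl)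

lemma HS_r2 (F : P.Facet) (X Y : ℕ) :
    D.HS k (bf F).r2 X Y = D.hF k F (7 * k - 1 - X) (7 * k - Y) := by
  unfold HS
  exact (if_neg (r2_ne F)).trans ((if_neg (r2_ne' F)).trans (if_pos rfl))

lemma HS_rR (F : P.Facet) (X Y : ℕ) : D.HS k (bf F).rR X Y = D.vF k F Y (7 * k - 1 - X) := by
  unfold HS
  exact (if_neg (rR_ne F)).trans ((if_neg (rR_ne' F)).trans (if_neg (rR_ne'' F)))

/-- half turn -/
lemma HS_turn (s : P.FSt) {X Y : ℕ} (hX : X < 7 * k) (hY : Y ≤ 7 * k) :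
    D.HS k s.r2 (7 * k - 1 - X) (7 * k - Y) = D.HS k s X Y := by
  have e1 : 7 * k - 1 - (7 * k - 1 - X) = X := by omega
  have e2 : 7 * k - (7 * k - Y) = Y := by omega
  rcases four s with h | h | h | h <;> rw [h]
  · rw [HS_r2, HS_bf, e1, e2]
  · rw [FSt.rL_r2, HS_rR, HS_rL, e1]
  · rw [FSt.r2_r2, HS_bf, HS_r2]
  · rw [FSt.rR_r2, HS_rL, HS_rR, e2]

lemma HS_vert (s : P.FSt) (he : s.1.e.1 = 2) (X Y : ℕ) : D.HS k s X Y = El.o := by
  have aux : ∀ d : Dir, (bfE d).1 ≠ 2 := by decide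
  have hd : ¬ IsPl s.facet := by
    intro h
    exact s.2.2 (h.trans he.symm)
  have hv : ∀ X Y, D.vF k s.facet X Y = El.o := fun X Y => if_neg hd
  rcases four s with h | h | h | h
  · exfalso
    have := congrArg (fun s : P.FSt => s.1.e.1) h
    exact aux _ (this.symm.trans he)
  · rw [h, HS_rL]; exact hv _ _
  · exfalso
    have := congrArg (fun s : P.FSt => s.1.e.1) h
    exact aux _ (this.symm.trans he)
  · rw [h, HS_rR]; exact hv _ _

/-! ### Fine states -/

/-- the coarse state of a fine state -/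
noncomputable def coS (σ : (P.refine 7 h7).FSt) : P.FSt :=
  ⟨⟨(co h7 σ.facet).1.1, σ.1.d, σ.1.e⟩, (co h7 σ.facet).2, σ.2.2⟩

lemma coS_facet (σ : (P.refine 7 h7).FSt) : (coS σ).facet = co h7 σ.facet := rfl

variable (D) in
/-- the value of the edge `x` of the north side of a fine state -/
noncomputable def EV (k : ℕ) (σ : (P.refine 7 h7).FSt) (x : ℕ) : El :=
  D.HS k (coS σ) (ix 7 σ.1.e σ.1.c * k + x) ((ix 7 σ.1.n σ.1.c + 1) * k)

lemma coS_sub (s : P.FSt) {a b : ℕ} (ha : a < 7) (hb : b < 7) : coS (sub h7 s a b ha hb) = s := by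
  apply st_fe
  · exact co_sub h7 s ha hb
  · rfl

lemma EV_sub (s : P.FSt) {a b : ℕ} (ha : a < 7) (hb : b < 7) (x : ℕ) :
    D.EV k (sub h7 s a b ha hb) x = D.HS k s (a * k + x) ((b + 1) * k) := by
  unfold EV
  rw [coS_sub]
  have e1 : ix 7 (sub h7 s a b ha hb).1.e (sub h7 s a b ha hb).1.c = a :=
    ix_subC_e s.1 s.2.2 ha hb
  have e2 : ix 7 (sub h7 s a b ha hb).1.n (sub h7 s a b ha hb).1.c = b :=
    ix_subC_n s.1 s.2.2 ha hb
  rw [e1, e2]

lemma arX {a x : ℕ} (ha : a < 7) (hx : x < k) :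
    (7 - 1 - a) * k + (k - 1 - x) = 7 * k - 1 - (a * k + x) := by
  interval_cases a <;> omega

lemma arY {b : ℕ} (hb : b < 7) : (7 - 1 - b + 1) * k = 7 * k - b * k := by
  interval_cases b <;> omega

lemma arX_lt {a x : ℕ} (ha : a < 7) (hx : x < k) : a * k + x < 7 * k := by
  interval_cases a <;> omega

lemma arY_le {b : ℕ} (hb : b ≤ 7) : b * k ≤ 7 * k := Nat.mul_le_mul_right k hb

/-! ### The four sides of a part -/

lemma EV_sf (f : (P.refine 7 h7).Facet) (x : ℕ) :
    D.EV k (sf f) x = D.hF k (co h7 f) (fi f * k + x) ((fj f + 1) * k) := by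
  unfold sf
  rw [EV_sub, HS_bf]

lemma EV_sfL (f : (P.refine 7 h7).Facet) (x : ℕ) :
    D.EV k (sf f).rL x = D.vF k (co h7 f) (fi f * k) (fj f * k + x) := by
  have hi := fi_lt f
  unfold sf
  rw [sub_rL, EV_sub, HS_rL, arY hi, Nat.sub_sub_self (arY_le hi.le)]

lemma EV_sf2 (f : (P.refine 7 h7).Facet) {x : ℕ} (hx : x < k) :
    D.EV k (sf f).r2 x = D.hF k (co h7 f) (fi f * k + (k - 1 - x)) (fj f * k) := by
  have hi := fi_lt f
  have hj := fj_lt f
  unfold sf
  rw [sub_r2, EV_sub, HS_r2, arY hj, Nat.sub_sub_self (arY_le hj.le)]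
  congr 1
  have := arX (k := k) hi (x := k - 1 - x) (by omega)
  have h2 := arX_lt (k := k) hi (x := k - 1 - x) (by omega)
  have e : k - 1 - (k - 1 - x) = x := by omega
  rw [e] at this
  omega

lemma EV_sfR (f : (P.refine 7 h7).Facet) {x : ℕ} (hx : x < k) :
    D.EV k (sf f).rR x = D.vF k (co h7 f) ((fi f + 1) * k) (fj f * k + (k - 1 - x)) := by
  have hi := fi_lt f
  have hj := fj_lt f
  unfold sf
  rw [sub_rR, EV_sub, HS_rR]
  congr 1
  have := arX (k := k) hj (x := k - 1 - x) (by omega)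
  have h2 := arX_lt (k := k) hj (x := k - 1 - x) (by omega)
  have e : k - 1 - (k - 1 - x) = x := by omega
  rw [e] at this
  omega

/-! ### Tables and values -/

section tables

variable (D)

lemma pl_prT {f : (P.refine 7 h7).Facet} (hX : D.isX7 f = true) (x y : ℕ) :
    (D.pd (bf (co h7 f))).prT k (fi f) (fj f) x y =
      ((D.pd (bf (co h7 f))).Hv k (fi f * k + (k - 1 - y)) (fj f * k + x)).ie := if_pos hX

lemma pl_prT' {f : (P.refine 7 h7).Facet} (hX : ¬ D.isX7 f = true) (x y : ℕ) :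
    (D.pd (bf (co h7 f))).prT k (fi f) (fj f) x y =
      ((D.pd (bf (co h7 f))).Vv k (fi f * k + x) (fj f * k + y)).ie := if_neg hX

lemma pl_laT {f : (P.refine 7 h7).Facet} (hX : D.isX7 f = true) (x y : ℕ) :
    (D.pd (bf (co h7 f))).laT k (fi f) (fj f) x y =
      ((D.pd (bf (co h7 f))).Vv k (fi f * k + (k - y)) (fj f * k + x)).ln := if_pos hX

lemma pl_laT' {f : (P.refine 7 h7).Facet} (hX : ¬ D.isX7 f = true) (x y : ℕ) :
    (D.pd (bf (co h7 f))).laT k (fi f) (fj f) x y =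
      ((D.pd (bf (co h7 f))).Hv k (fi f * k + x) (fj f * k + y)).ln := if_neg hX

lemma la_N (f : (P.refine 7 h7).Facet) {x : ℕ} (hx : x < k) :
    D.la7 k f x k = (D.EV k (D.can7 f) x).ln := by
  have hi := fi_lt f
  have hj := fj_lt f
  unfold la7 can7
  by_cases hP : IsPl (co h7 f)
  · rw [if_pos hP, if_pos hP]
    by_cases hX : D.isX7 f = true
    · rw [if_pos (Or.inl hX), if_pos hX, EV_sfL, vF, if_pos hP, pl_laT D hX, Nat.sub_self,
        Nat.add_zero]
    · rw [if_neg hX]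
      by_cases hU : f.1.2.2 = true
      · rw [if_pos (Or.inr hU), if_pos hU, EV_sf, hF, if_pos hP, pl_laT' D hX, Nat.succ_mul]
      · rw [if_neg (not_or.2 ⟨hX, hU⟩), if_neg hU, EV_sf2 _ hx, hF, if_pos hP, pl_laT' D hX,
          Nat.sub_self, Nat.add_zero]
  · rw [if_neg hP, if_neg hP, EV_sf, hF, if_neg hP]
    by_cases h3 : fj f < 3
    · rw [if_pos (Or.inl h3), if_pos (Nat.mul_le_mul_right k (by omega))]
    · have hk : 0 < k := by omega
      rw [if_neg (by omega), if_neg]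
      have : 4 * k ≤ (fj f + 1) * k := Nat.mul_le_mul_right k (by omega)
      omega

lemma la_S (f : (P.refine 7 h7).Facet) {x : ℕ} (hx : x < k) :
    D.la7 k f x 0 = (D.EV k (D.can7 f).r2 (k - 1 - x)).ln := by
  have hi := fi_lt f
  have hj := fj_lt f
  have e : k - 1 - (k - 1 - x) = x := by omega
  unfold la7 can7
  by_cases hP : IsPl (co h7 f)
  · rw [if_pos hP, if_pos hP]
    by_cases hX : D.isX7 f = true
    · rw [if_pos (Or.inl hX), if_pos hX, FSt.rL_r2, EV_sfR _ (by omega), vF, if_pos hP,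
        pl_laT D hX, Nat.sub_zero, e, Nat.succ_mul]
    · rw [if_neg hX]
      by_cases hU : f.1.2.2 = true
      · rw [if_pos (Or.inr hU), if_pos hU, EV_sf2 _ (by omega), hF, if_pos hP, pl_laT' D hX, e,
          Nat.add_zero]
      · rw [if_neg (not_or.2 ⟨hX, hU⟩), if_neg hU, FSt.r2_r2, EV_sf, hF, if_pos hP, pl_laT' D hX,
          Nat.sub_zero, Nat.succ_mul]
  · rw [if_neg hP, if_neg hP, EV_sf2 _ (by omega), hF, if_neg hP, e]
    by_cases h3 : fj f ≤ 3
    · rw [if_pos (by omega), if_pos (Nat.mul_le_mul_right k h3)]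
    · have hk : 0 < k := by omega
      rw [if_neg (by omega), if_neg]
      have : 4 * k ≤ fj f * k := Nat.mul_le_mul_right k (by omega)
      omega

lemma pr_E (f : (P.refine 7 h7).Facet) {y : ℕ} (hy : y < k) :
    D.pr7 k f k y = (D.EV k (D.can7 f).rR (k - 1 - y)).ie := by
  have e : k - 1 - (k - 1 - y) = y := by omega
  unfold pr7 can7
  by_cases hP : IsPl (co h7 f)
  · rw [if_pos hP, if_pos hP]
    by_cases hX : D.isX7 f = true
    · rw [if_pos (Or.inl hX), if_pos hX, FSt.rL_rR, EV_sf, hF, if_pos hP, pl_prT D hX,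
        Nat.succ_mul]
    · rw [if_neg hX]
      by_cases hU : f.1.2.2 = true
      · rw [if_pos (Or.inr hU), if_pos hU, EV_sfR _ (by omega), vF, if_pos hP, pl_prT' D hX, e,
          Nat.succ_mul]
      · rw [if_neg (not_or.2 ⟨hX, hU⟩), if_neg hU, FSt.r2_rR, EV_sfL, vF, if_pos hP,
          pl_prT' D hX, Nat.sub_self, Nat.add_zero]
  · rw [if_neg hP, if_neg hP, EV_sfR _ (by omega), vF, if_neg hP]
    rfl

lemma pr_W (f : (P.refine 7 h7).Facet) {y : ℕ} (hy : y < k) :
    D.pr7 k f 0 y = (D.EV k (D.can7 f).rL y).ie := by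
  unfold pr7 can7
  by_cases hP : IsPl (co h7 f)
  · rw [if_pos hP, if_pos hP]
    by_cases hX : D.isX7 f = true
    · rw [if_pos (Or.inl hX), if_pos hX, FSt.rL_rL, EV_sf2 _ hy, hF, if_pos hP, pl_prT D hX,
        Nat.add_zero]
    · rw [if_neg hX]
      by_cases hU : f.1.2.2 = true
      · rw [if_pos (Or.inr hU), if_pos hU, EV_sfL, vF, if_pos hP, pl_prT' D hX,
          Nat.add_zero]
      · rw [if_neg (not_or.2 ⟨hX, hU⟩), if_neg hU, FSt.r2_rL, EV_sfR _ hy, vF, if_pos hP,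
          pl_prT' D hX, Nat.sub_zero, Nat.succ_mul]
  · rw [if_neg hP, if_neg hP, EV_sfL, vF, if_neg hP]
    rfl

end tables

end Deco0

end Pool.Agent.MP42D
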