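import Pool.Agent.MP42.D.T2a
import Pool.Agent.MP42.D.T2q

/-!
# Piece T2: the tables on `P.refine 7` fit together
-/

set_option autoImplicit false
set_option linter.unusedSectionVars false
set_option linter.unusedVariables false

namespace Pool.Agent.MP42D

open Pool.Agent.Helper55.UNF Pool.Agent.Helper55.UNF.GridSolid Pool.Agent.MP42G

variable {P : GridSolid}

namespace Deco

variable (D : Deco P)

/-! ### The fields of the junction certificate -/

theorem can7_facet (f : (P.refine 7 Deco0.h7).Facet) : (D.can7 f).facet = f :=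
  D.toDeco0.can7_facet0 f

lemma dir_aux1 : ∀ d : Dir, d.1 ≠ 2 → (cross d (bfE d)).1 = 2 := by decide
lemma dir_aux2 : ∀ d e : Dir, d.1 ≠ e.1 → (cross d e).1 = 2 → d.1 ≠ 2 := by decide

lemma core7_iff' (f : (P.refine 7 Deco0.h7).Facet) :
    Deco0.core7 f ↔ f.1.2.1 ≠ 2 ∧ f.1.1 2 % 7 = 3 := by
  rw [Deco0.core7_iff]
  refine and_congr_right fun h => ?_
  have hn : (bf (Pool.Agent.Helper55.UNF.GridSolid.co Deco0.h7 f)).1.n.1 = 2 := dir_aux1 _ h
  have h4 := Int.emod_nonneg (f.1.1 2) (show (7 : ℤ) ≠ 0 by norm_num)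
  have h5 := Int.emod_lt_of_pos (f.1.1 2) (show (0 : ℤ) < 7 by norm_num)
  unfold Deco0.fj ix
  rw [hn]
  push_cast
  split_ifs <;> omega

theorem core7_E (s : (P.refine 7 Deco0.h7).FSt) (hs : IsV s) :
    Deco0.core7 s.stE.facet ↔ Deco0.core7 s.facet := by
  rw [core7_iff', core7_iff']
  have h1 : s.facet.1.2.1 ≠ 2 := dir_aux2 _ _ s.2.2 hs
  have h2 : s.stE.facet.1.2.1 ≠ 2 := dir_aux2 _ _ s.stE.2.2 ((IsV_stE s).2 hs)
  have h3 : s.stE.1.c 2 = s.1.c 2 := by
    have hd : (2 : Fin 3) ≠ s.1.d.1 := h1.symm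
    have he : (2 : Fin 3) ≠ s.1.e.1 := by
      intro h
      have := cross_axis_right _ _ s.2.2
      apply this
      rw [← h]
      exact hs
    exact (P.refine 7 Deco0.h7).stepE_third s.1 hd he
  constructor
  · rintro ⟨-, h⟩
    refine ⟨h1, ?_⟩
    have h' : s.stE.1.c 2 % 7 = 3 := h
    rw [h3] at h'
    exact h'
  · rintro ⟨-, h⟩
    refine ⟨h2, ?_⟩
    show s.stE.1.c 2 % 7 = 3
    rw [h3]; exact h

theorem can7_core (f : (P.refine 7 Deco0.h7).Facet) (hf : Deco0.core7 f) : IsV (D.can7 f) := by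
  unfold Deco0.can7
  rw [if_neg hf.1]
  exact dir_aux1 _ hf.1

variable (hM : P.IsManifold) (h3 : MP42.Deg3 P) {k : ℕ} (hk : 62 ≤ k)

/-! ### The values agree -/

section values

include hM h3 hk

lemma cv (s : P.FSt) (he : s.1.e.1 ≠ 2) {X : ℕ} (hX : X < 7 * k) :
    D.HS k s X (7 * k) = D.ev k s X := by
  have hX' : 7 * k - 1 - X < 7 * k := by omega
  have eX : 7 * k - 1 - (7 * k - 1 - X) = X := by omega
  rcases four s with h | h | h | h
  · by_cases hP : IsPl s.facet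
    · have := D.side_N hM h3 hk s.facet hP hX
      rw [← h] at this
      rw [← this]
      conv_lhs => rw [h]
      rw [Deco0.HS_bf, Deco0.hF, if_pos hP, ← h]
    · conv_lhs => rw [h]
      rw [Deco0.HS_bf, Deco0.hF, if_neg hP, if_neg (by omega), ← h]
  · have hP : IsPl s.facet := by
      by_contra hP
      apply he
      rw [h]
      exact dir_aux1 _ hP
    have := D.side_W hM h3 hk s.facet hP hX
    rw [← h] at this
    rw [← this]
    conv_lhs => rw [h]
    rw [Deco0.HS_rL, Deco0.vF, if_pos hP, Nat.sub_self]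
  · by_cases hP : IsPl s.facet
    · have := D.side_S hM h3 hk s.facet hP hX'
      rw [← h, eX] at this
      rw [← this]
      conv_lhs => rw [h]
      rw [Deco0.HS_r2, Deco0.hF, if_pos hP, Nat.sub_self]
    · conv_lhs => rw [h]
      rw [Deco0.HS_r2, Deco0.hF, if_neg hP, Nat.sub_self, if_pos (Nat.zero_le _), ← h, eX]
  · have hP : IsPl s.facet := by
      by_contra hP
      apply he
      rw [h]
      exact dir_aux1 _ hP
    have := D.side_E hM h3 hk s.facet hP hX'
    rw [← h, eX] at this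
    rw [← this]
    conv_lhs => rw [h]
    rw [Deco0.HS_rR, Deco0.vF, if_pos hP]

lemma EV_symm (σ : (P.refine 7 Deco0.h7).FSt) {x : ℕ} (hx : x < k) :
    D.EV k σ.stN.r2 (k - 1 - x) = D.EV k σ x := by
  obtain ⟨s, a, b, ha, hb, rfl, -, -⟩ := Deco0.exists_sub σ
  by_cases hb1 : b + 1 < 7
  · rw [sub_stN_mid s ha hb1, sub_r2, Deco0.EV_sub, Deco0.EV_sub, Deco0.arX ha hx,
      Deco0.arY hb1, Deco0.HS_turn s (Deco0.arX_lt ha hx) (Deco0.arY_le hb1.le)]
  · obtain rfl : b = 6 := by omega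
    have e : (sub Deco0.h7 s a 6 ha hb).stN = sub Deco0.h7 s.stN a 0 ha Deco0.h7 :=
      sub_stN_end s ha
    rw [e, sub_r2, Deco0.EV_sub, Deco0.EV_sub, Deco0.arX ha hx]
    have e2 : (7 - 1 - 0 + 1) * k = 7 * k := rfl
    have e3 : (6 + 1) * k = 7 * k := rfl
    have hX := Deco0.arX_lt (k := k) ha hx
    have hX' : 7 * k - 1 - (a * k + x) < 7 * k := by omega
    rw [e2, e3]
    by_cases he : s.1.e.1 = 2
    · rw [Deco0.HS_vert s he, Deco0.HS_vert]
      show (opp s.stN.1.e).1 = 2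
      rw [opp_fst, FSt.stN_e]
      exact he
    · have he' : s.stN.r2.1.e.1 ≠ 2 := by
        show (opp s.stN.1.e).1 ≠ 2
        rw [opp_fst, FSt.stN_e]
        exact he
      rw [D.cv hM h3 hk s he hX, D.cv hM h3 hk _ he' hX']
      exact D.ev_symm hM h3 hk s he hX

/-- walls are not crossed by strands to the east -/
lemma EV_wall (σ : (P.refine 7 Deco0.h7).FSt) (hσ : σ.1.d.1 ≠ 2) {x : ℕ} (hx : x < k) :
    D.EV k σ x ≠ El.e := by
  obtain ⟨s, a, b, ha, hb, rfl, -, -⟩ := Deco0.exists_sub σ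
  rw [Deco0.EV_sub]
  have hd : s.1.d.1 ≠ 2 := hσ
  have hX := Deco0.arX_lt (k := k) ha hx
  by_cases he : s.1.e.1 = 2
  · rw [Deco0.HS_vert s he]; decide
  · have hn : s.1.n.1 = 2 := by
      have aux : ∀ d e : Dir, d.1 ≠ e.1 → d.1 ≠ 2 → e.1 ≠ 2 → (cross d e).1 = 2 := by decide
      exact aux _ _ s.2.2 hd he
    have hP : ¬ IsPl s.facet := hd
    have hn2 : s.r2.1.n.1 = 2 := by
      show (cross s.1.d (opp s.1.e)).1 = 2
      rw [cross_opp_right _ _ s.2.2, opp_fst]
      exact hn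
    have h1 : D.ev k s (a * k + x) ≠ El.e := D.ev_wall hM h3 hk s hd hn hX
    have h2 : D.ev k s.r2 (7 * k - 1 - (a * k + x)) ≠ El.e :=
      D.ev_wall hM h3 hk s.r2 hd hn2 (by omega)
    rcases four s with h | h | h | h
    · rw [h, Deco0.HS_bf, Deco0.hF, if_neg hP, ← h]
      split_ifs
      · exact h2
      · exact h1
    · exfalso
      apply he
      rw [h]
      exact dir_aux1 _ hP
    · rw [h, Deco0.HS_r2, Deco0.hF, if_neg hP, ← h]
      have h' : bf s.facet = s.r2 := by rw [h, FSt.r2_r2]; rfl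
      rw [h']
      split_ifs
      · have e : 7 * k - 1 - (7 * k - 1 - (a * k + x)) = a * k + x := by omega
        rw [e]
        exact h1
      · exact h2
    · exfalso
      apply he
      rw [h]
      exact dir_aux1 _ hP

/-- where the value of an edge is a strand to the east, its direction is canonical -/
lemma EV_e (σ : (P.refine 7 Deco0.h7).FSt) {x : ℕ} (hx : x < k) (h : D.EV k σ x = El.e) :
    σ.1.d.1 = 2 ∧ (σ.1.e.1 = 0 ↔ D.isX7 σ.facet = true) := by
  have hd : σ.1.d.1 = 2 := by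
    by_contra hd
    exact D.EV_wall hM h3 hk σ hd hx h
  refine ⟨hd, ?_⟩
  obtain ⟨f, hf⟩ : ∃ f, f = σ.facet := ⟨_, rfl⟩
  have hP : IsPl (co Deco0.h7 f) := by rw [hf]; exact hd
  have hi := Deco0.fi_lt f
  have hj := Deco0.fj_lt f
  have hpd := D.pd_ok hM (co Deco0.h7 f) hP
  have hE : ∀ d : Dir, d.1 = 2 → (bfE d).1 = 0 := by decide
  have hN : ∀ d : Dir, d.1 = 2 → (cross d (bfE d)).1 = 1 := by decide
  have hfd : f.1.2.1 = 2 := hP
  rw [← hf]
  have four' : σ = Deco0.sf f ∨ σ = (Deco0.sf f).rL ∨ σ = (Deco0.sf f).r2 ∨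
      σ = (Deco0.sf f).rR := by
    have hff : σ.facet = (Deco0.sf f).facet := by rw [← hf, Deco0.sf_facet]
    have hdd : σ.1.d = f.1.2 := by rw [hf]; rfl
    rcases four_aux σ.1.d σ.1.e σ.2.2 with h | h | h | h <;> rw [hdd] at h
    · exact Or.inl (st_fe hff h)
    · exact Or.inr (Or.inl (st_fe hff h))
    · exact Or.inr (Or.inr (Or.inl (st_fe hff h)))
    · exact Or.inr (Or.inr (Or.inr (st_fe hff h)))
  have hX : D.isX7 f = (D.pd (bf (co Deco0.h7 f))).isX (Deco0.fi f) (Deco0.fj f) := rfl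
  have fin : ∀ b : Bool, ¬ b = false → b = true := by decide
  rcases four' with h4 | h4 | h4 | h4
  · refine iff_of_true ?_ ?_
    · rw [h4]; exact hE _ hfd
    · apply fin
      intro hX'
      rw [h4, Deco0.EV_sf, Deco0.hF, if_pos hP, Nat.succ_mul] at h
      rw [hX] at hX'
      exact PD.Hv_Y (by omega) hi hj hX' hx le_rfl h
  · refine iff_of_false ?_ ?_
    · rw [h4]
      have : (Deco0.sf f).rL.1.e.1 = 1 := hN _ hfd
      rw [this]; decide
    · intro hX'
      rw [h4, Deco0.EV_sfL, Deco0.vF, if_pos hP] at h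
      rw [hX] at hX'
      exact PD.Vv_X hpd (by omega) hX' hx (Or.inl rfl) h
  · refine iff_of_true ?_ ?_
    · rw [h4]; exact hE _ hfd
    · apply fin
      intro hX'
      rw [h4, Deco0.EV_sf2 _ hx, Deco0.hF, if_pos hP] at h
      rw [hX] at hX'
      exact PD.Hv_Y (t := 0) (by omega) hi hj hX' (by omega) (Nat.zero_le _) h
  · refine iff_of_false ?_ ?_
    · rw [h4]
      have : (Deco0.sf f).rR.1.e.1 = 1 := hN _ hfd
      rw [this]; decide
    · intro hX'
      rw [h4, Deco0.EV_sfR _ hx, Deco0.vF, if_pos hP] at h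
      rw [hX] at hX'
      exact PD.Vv_X hpd (by omega) hX' (by omega) (Or.inr rfl) h

/-- where an edge of a plate is crossed by a lane, its direction is canonical -/
lemma EV_ln (σ : (P.refine 7 Deco0.h7).FSt) {x : ℕ} (hx : x < k) (hd : σ.1.d.1 = 2)
    (h : (D.EV k σ x).ln ≠ Ln.z) : σ.1.e.1 = 0 ↔ D.isX7 σ.facet = false := by
  obtain ⟨f, hf⟩ : ∃ f, f = σ.facet := ⟨_, rfl⟩
  have hP : IsPl (co Deco0.h7 f) := by rw [hf]; exact hd
  have hi := Deco0.fi_lt f
  have hj := Deco0.fj_lt f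
  have hE : ∀ d : Dir, d.1 = 2 → (bfE d).1 = 0 := by decide
  have hN : ∀ d : Dir, d.1 = 2 → (cross d (bfE d)).1 = 1 := by decide
  have hfd : f.1.2.1 = 2 := hP
  rw [← hf]
  have four' : σ = Deco0.sf f ∨ σ = (Deco0.sf f).rL ∨ σ = (Deco0.sf f).r2 ∨
      σ = (Deco0.sf f).rR := by
    have hff : σ.facet = (Deco0.sf f).facet := by rw [← hf, Deco0.sf_facet]
    have hdd : σ.1.d = f.1.2 := by rw [hf]; rfl
    rcases four_aux σ.1.d σ.1.e σ.2.2 with h | h | h | h <;> rw [hdd] at h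
    · exact Or.inl (st_fe hff h)
    · exact Or.inr (Or.inl (st_fe hff h))
    · exact Or.inr (Or.inr (Or.inl (st_fe hff h)))
    · exact Or.inr (Or.inr (Or.inr (st_fe hff h)))
  have hX : D.isX7 f = (D.pd (bf (co Deco0.h7 f))).isX (Deco0.fi f) (Deco0.fj f) := rfl
  have fin : ∀ b : Bool, ¬ b = false → b = true := by decide
  have fin' : ∀ b : Bool, ¬ b = true → b = false := by decide
  rcases four' with h4 | h4 | h4 | h4
  · refine iff_of_true ?_ ?_
    · rw [h4]; exact hE _ hfd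
    · apply fin'
      intro hX'
      rw [h4, Deco0.EV_sf, Deco0.hF, if_pos hP] at h
      rw [hX] at hX'
      exact h (PD.Hv_X (by omega) hX' hx _)
  · refine iff_of_false ?_ ?_
    · rw [h4]
      have : (Deco0.sf f).rL.1.e.1 = 1 := hN _ hfd
      rw [this]; decide
    · intro hX'
      rw [h4, Deco0.EV_sfL, Deco0.vF, if_pos hP] at h
      rw [hX] at hX'
      exact h (PD.Vv_Y (by omega) hi hX' hx (Or.inl rfl))
  · refine iff_of_true ?_ ?_
    · rw [h4]; exact hE _ hfd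
    · apply fin'
      intro hX'
      rw [h4, Deco0.EV_sf2 _ hx, Deco0.hF, if_pos hP] at h
      rw [hX] at hX'
      exact h (PD.Hv_X (by omega) hX' (by omega) _)
  · refine iff_of_false ?_ ?_
    · rw [h4]
      have : (Deco0.sf f).rR.1.e.1 = 1 := hN _ hfd
      rw [this]; decide
    · intro hX'
      rw [h4, Deco0.EV_sfR _ hx, Deco0.vF, if_pos hP] at h
      rw [hX] at hX'
      exact h (PD.Vv_Y (by omega) hi hX' (by omega) (Or.inr rfl))

end values

/-! ### Letters near the ends -/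

lemma ev_free {s : P.FSt} {i x : ℕ} (hk : 62 ≤ k) (hi : i < 7) (hx : x < k)
    (h : x < 2 ∨ k ≤ x + 2) : (D.ev k s (i * k + x)).ln = Ln.z := by
  have hkl : ∀ (K : KD (MP42.Dart P ⊕ MP42.Dart P)) (y : ℤ) (i x : ℕ), x < k →
      (x < 2 ∨ k ≤ x + 2) → (K.kl k y (i * k + x)).ln = Ln.z := by
    intro K y i x hx h
    obtain ⟨-, e2⟩ := PD.div_mod (j := i) hx
    unfold KD.kl
    rw [e2, if_neg, if_neg]
    · split_ifs <;> rfl
    · rintro ⟨q, -, hq⟩
      have h1 := three_le_sC q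
      have h2 := sC_le q
      omega
    · rintro ⟨q, -, hq⟩
      have h1 := three_le_nC q
      have h2 := nC_le q
      omega
  unfold Deco0.ev
  by_cases he : s.1.e.1 = 1
  · rw [if_pos he]
    by_cases h2 : s.1.e.2 = true
    · rw [if_pos h2]; exact hkl _ _ _ _ hx h
    · rw [if_neg h2]
      have e : 7 * k - 1 - (i * k + x) = (7 - 1 - i) * k + (k - 1 - x) := (Deco0.arX hi hx).symm
      rw [e]
      exact hkl _ _ _ _ (by omega) (by omega)
  · rw [if_neg he]
    have a1 : ¬ i * k + x = 2 * k + 3 := by interval_cases i <;> omega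
    have a2 : ¬ i * k + x = 2 * k + 5 := by interval_cases i <;> omega
    have a3 : ¬ i * k + x + 4 = 5 * k := by interval_cases i <;> omega
    have a4 : ¬ i * k + x + 6 = 5 * k := by interval_cases i <;> omega
    have a5 : ¬ i * k + x = 3 * k + 3 := by interval_cases i <;> omega
    have a6 : ¬ i * k + x + 4 = 4 * k := by interval_cases i <;> omega
    simp only [a1, a2, a3, a4, a5, a6, false_and, or_false, if_false]
    split_ifs <;> rfl

/-! ### Canonical states -/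

section canon

include hM h3 hk

/-- a state with east `+ x` or `+ y` that is not canonical is not crossed by lanes -/
lemma lnz {τ : (P.refine 7 Deco0.h7).FSt} (he : τ.1.e = (0, true) ∨ τ.1.e = (1, true))
    (hn : τ ≠ D.can7 τ.facet) {x : ℕ} (hx : x < k) :
    (D.EV k τ x).ln = Ln.z ∧ (D.EV k τ.r2 x).ln = Ln.z := by
  have e2 : τ.r2.1.e.1 = τ.1.e.1 := rfl
  rcases he with he | he
  · have h1 : ¬ (τ.1.d.1 = 2 → D.isX7 τ.facet = false) := fun h => hn (D.can7_y he h).symm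
    push Not at h1
    obtain ⟨hd, hX⟩ := h1
    have h0 : τ.1.e.1 = 0 := by rw [he]
    constructor
    · by_contra h
      exact hX ((D.EV_ln hM h3 hk τ hx hd h).1 h0)
    · by_contra h
      exact hX ((D.EV_ln hM h3 hk τ.r2 hx hd h).1 (e2.trans h0))
  · have h1 : ¬ (τ.1.d.1 = 2 → D.isX7 τ.facet = true) := fun h => hn (D.can7_x he h).symm
    push Not at h1
    obtain ⟨hd, hX⟩ := h1
    have hX' : D.isX7 τ.facet = false := by simpa using hX
    have h0 : τ.1.e.1 ≠ 0 := by rw [he]; decide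
    constructor
    · by_contra h
      exact h0 ((D.EV_ln hM h3 hk τ hx hd h).2 hX')
    · by_contra h
      exact h0 (e2.symm.trans ((D.EV_ln hM h3 hk τ.r2 hx hd h).2 hX'))

/-- a strand to the east enters a canonical facet -/
lemma key_e {τ : (P.refine 7 Deco0.h7).FSt} {y : ℕ} (hy : y < k) (h : D.EV k τ.rL y = El.e) :
    τ = D.can7 τ.facet ∨ τ = (D.can7 τ.facet).r2 := by
  obtain ⟨hd, hX⟩ := D.EV_e hM h3 hk τ.rL hy h
  have hd' : τ.1.d.1 = 2 := hd
  have aux1 : ∀ d e : Dir, d.1 = 2 → d.1 ≠ e.1 → ((cross d e).1 = 0 ∧ (e = (1, true) ∨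
      opp e = (1, true))) ∨ ((cross d e).1 ≠ 0 ∧ (e = (0, true) ∨ opp e = (0, true))) := by decide
  have hn : τ.rL.1.e = cross τ.1.d τ.1.e := rfl
  rw [hn] at hX
  have hX' : (cross τ.1.d τ.1.e).1 = 0 ↔ D.isX7 τ.facet = true := hX
  rcases aux1 _ _ hd' τ.2.2 with ⟨h0, he | he⟩ | ⟨h0, he | he⟩
  · left
    exact (D.can7_x he (fun _ => hX'.1 h0)).symm
  · right
    have h1 := D.can7_x (t := τ.r2) he (fun _ => hX'.1 h0)
    have h2 : D.can7 τ.facet = τ.r2 := h1
    rw [h2, FSt.r2_r2]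
  · left
    have hf : D.isX7 τ.facet = false := by
      by_contra hc
      exact h0 (hX'.2 (by simpa using hc))
    exact (D.can7_y he (fun _ => hf)).symm
  · right
    have hf : D.isX7 τ.facet = false := by
      by_contra hc
      exact h0 (hX'.2 (by simpa using hc))
    have h1 := D.can7_y (t := τ.r2) he (fun _ => hf)
    have h2 : D.can7 τ.facet = τ.r2 := h1
    rw [h2, FSt.r2_r2]

end canon

lemma can7_e' (f : (P.refine 7 Deco0.h7).Facet) :
    (D.can7 f).1.e = (0, true) ∨ (D.can7 f).1.e = (1, true) := by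
  rw [D.toDeco0.can7_e]
  split_ifs
  · exact Or.inr rfl
  · exact Or.inl rfl

lemma stN_rR (s : (P.refine 7 Deco0.h7).FSt) : s.rR.stN = s.stE.rR := by
  show s.rR.rL.stE.rR = s.stE.rR
  rw [FSt.rR_rL]

lemma stN_rL (s : (P.refine 7 Deco0.h7).FSt) : s.rL.stN = s.r2.stE.rR := by
  show s.rL.rL.stE.rR = s.r2.stE.rR
  rw [FSt.rL_rL]

include hM h3 hk

theorem ok7 (f : (P.refine 7 Deco0.h7).Facet) (hf : ¬ Deco0.core7 f) :
    CellOk k (D.pr7 k f) (D.la7 k f) := by
  by_cases hP : IsPl (co Deco0.h7 f)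
  · have hpd := PD.cellOk' (D.pd_ok hM (co Deco0.h7 f) hP) (k := k) (by omega) (Deco0.fi_lt f)
      (Deco0.fj_lt f)
    by_cases hU : D.isX7 f ∨ f.1.2.2 = true
    · have e1 : D.pr7 k f = (D.pd (bf (co Deco0.h7 f))).prT k (Deco0.fi f) (Deco0.fj f) := by
        funext x y
        unfold Deco0.pr7
        rw [if_pos hP, if_pos hU]
      have e2 : D.la7 k f = (D.pd (bf (co Deco0.h7 f))).laT k (Deco0.fi f) (Deco0.fj f) := by
        funext x y
        unfold Deco0.la7
        rw [if_pos hP, if_pos hU]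
      rw [e1, e2]
      exact hpd
    · have e1 : D.pr7 k f = Helper55.UNF.rV k ((D.pd (bf (co Deco0.h7 f))).prT k (Deco0.fi f)
          (Deco0.fj f)) := by
        funext x y
        unfold Deco0.pr7
        rw [if_pos hP, if_neg hU]
        rfl
      have e2 : D.la7 k f = Helper55.UNF.rH k ((D.pd (bf (co Deco0.h7 f))).laT k (Deco0.fi f)
          (Deco0.fj f)) := by
        funext x y
        unfold Deco0.la7
        rw [if_pos hP, if_neg hU]
        rfl
      rw [e1, e2]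
      exact hpd.rot
  · have hj : Deco0.fj f ≠ 3 := fun h => hf ⟨hP, h⟩
    intro x y hx hy
    have e1 : ∀ x y, D.pr7 k f x y = false := fun x y => by
      unfold Deco0.pr7
      rw [if_neg hP]
    have e2 : D.la7 k f x (y + 1) = D.la7 k f x y := by
      unfold Deco0.la7
      rw [if_neg hP, if_neg hP]
      refine if_congr ?_ rfl rfl
      omega
    rw [e1, e1, e2]
    exact okc_same _ _

theorem free7 (f : (P.refine 7 Deco0.h7).Facet) (hf : Deco0.core7 f) (x : ℕ) (hx : x < k)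
    (h : x < 2 ∨ k ≤ x + 2) : D.la7 k f x 0 = Ln.z ∧ D.la7 k f x k = Ln.z := by
  have hi := Deco0.fi_lt f
  unfold Deco0.la7
  rw [if_neg hf.1, if_neg hf.1, if_pos (Or.inr ⟨hf.2, rfl⟩), if_neg]
  · constructor
    · have e : 7 * k - 1 - (Deco0.fi f * k + x) = (7 - 1 - Deco0.fi f) * k + (k - 1 - x) :=
        (Deco0.arX hi hx).symm
      rw [e]
      exact D.ev_free hk (by omega) (by omega) (by omega)
    · exact D.ev_free hk hi hx h
  · have := hf.2
    omega

theorem gN7 (f g : (P.refine 7 Deco0.h7).Facet) (h : (D.can7 f).stN = D.can7 g) (x : ℕ)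
    (hx : x < k) : D.la7 k f x k = D.la7 k g x 0 := by
  rw [D.la_N f hx, D.la_S g hx, ← h, D.EV_symm hM h3 hk _ hx]

theorem gN7' (f : (P.refine 7 Deco0.h7).Facet) (h : ∀ g, (D.can7 f).stN ≠ D.can7 g) (x : ℕ)
    (hx : x < k) : D.la7 k f x k = Ln.z := by
  rw [D.la_N f hx, ← D.EV_symm hM h3 hk _ hx]
  refine (D.lnz hM h3 hk ?_ (h _) (by omega)).2
  rw [FSt.stN_e]
  exact D.can7_e' f

theorem gS7' (g : (P.refine 7 Deco0.h7).Facet) (h : ∀ f, (D.can7 f).stN ≠ D.can7 g) (x : ℕ)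
    (hx : x < k) : D.la7 k g x 0 = Ln.z := by
  rw [D.la_S g hx, ← D.EV_symm hM h3 hk _ (show k - 1 - x < k by omega)]
  have h0 : (D.can7 g).r2.stN.r2.stN = D.can7 g := pN.right_inv (D.can7 g)
  refine (D.lnz hM h3 hk ?_ ?_ (by omega)).1
  · have e : (D.can7 g).r2.stN.r2.1.e = (D.can7 g).1.e := by
      show opp ((D.can7 g).r2.stN.1.e) = _
      rw [FSt.stN_e]
      show opp (opp (D.can7 g).1.e) = _
      rw [opp_opp]
    rw [e]
    exact D.can7_e' g
  · intro hc
    apply h (D.can7 g).r2.stN.r2.facet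
    rw [← hc]
    exact h0

theorem gE7 (f g : (P.refine 7 Deco0.h7).Facet) (hf : ¬ Deco0.core7 f)
    (h : (D.can7 f).stE = D.can7 g) (y : ℕ) (hy : y < k) : D.pr7 k f k y = D.pr7 k g 0 y := by
  have e : k - 1 - (k - 1 - y) = y := by omega
  rw [D.pr_E f hy, D.pr_W g hy, ← D.EV_symm hM h3 hk _ (show k - 1 - y < k by omega), e, stN_rR,
    h, FSt.rR_r2]

theorem gEr7 (f g : (P.refine 7 Deco0.h7).Facet) (hf : ¬ Deco0.core7 f)
    (h : (D.can7 f).stE = (D.can7 g).r2) (y : ℕ) (hy : y < k) :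
    D.pr7 k f k y = D.pr7 k g k (k - 1 - y) := by
  have e : k - 1 - (k - 1 - y) = y := by omega
  rw [D.pr_E f hy, D.pr_E g (show k - 1 - y < k by omega),
    ← D.EV_symm hM h3 hk _ (show k - 1 - y < k by omega), e, stN_rR, h, FSt.r2_rR, FSt.rL_r2]

theorem gWr7 (f g : (P.refine 7 Deco0.h7).Facet) (hf : ¬ Deco0.core7 f)
    (h : (D.can7 f).r2.stE = D.can7 g) (y : ℕ) (hy : y < k) :
    D.pr7 k f 0 y = D.pr7 k g 0 (k - 1 - y) := by
  rw [D.pr_W f hy, D.pr_W g (show k - 1 - y < k by omega), ← D.EV_symm hM h3 hk _ hy, stN_rL, h,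
    FSt.rR_r2]

theorem gE7' (f : (P.refine 7 Deco0.h7).Facet) (hf : ¬ Deco0.core7 f)
    (h : ∀ g, (D.can7 f).stE ≠ D.can7 g ∧ (D.can7 f).stE ≠ (D.can7 g).r2) (y : ℕ) (hy : y < k) :
    D.pr7 k f k y = false := by
  have e : k - 1 - (k - 1 - y) = y := by omega
  rw [D.pr_E f hy, ← D.EV_symm hM h3 hk _ (show k - 1 - y < k by omega), e, stN_rR, El.ie_ne,
    FSt.rR_r2]
  intro hc
  rcases D.key_e hM h3 hk hy hc with h1 | h1
  · exact (h _).1 h1
  · exact (h _).2 h1

theorem gW7' (f : (P.refine 7 Deco0.h7).Facet) (hf : ¬ Deco0.core7 f)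
    (h : ∀ g, (D.can7 f).r2.stE ≠ D.can7 g ∧ (D.can7 f).r2.stE ≠ (D.can7 g).r2) (y : ℕ)
    (hy : y < k) : D.pr7 k f 0 y = false := by
  rw [D.pr_W f hy, ← D.EV_symm hM h3 hk _ hy, stN_rL, El.ie_ne, FSt.rR_r2]
  intro hc
  rcases D.key_e hM h3 hk (show k - 1 - y < k by omega) hc with h1 | h1
  · exact (h _).1 h1
  · exact (h _).2 h1

end Deco

end Pool.Agent.MP42D
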