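import Pool.Agent.MP42.D.Table

/-!
# Stage 2: piece T1, the cells of a plate (owner helper89)
-/

set_option autoImplicit false
set_option linter.unusedSectionVars false

namespace Pool.Agent.MP42D

open Pool.Agent.Helper55.UNF

/-! ## The moves of one row -/

/-- the value of the track of the slot `s` at the height `t` of a row; `b`, `a`: before and after
the row -/
def Lb (b a : Fin 4 → Bool) (s : Fin 4) (t : ℕ) : Bool :=
  (b s && a s) || (b s && !a s && decide (t ≤ nC s)) || (!b s && a s && decide (sC s < t))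

/-- the same on the A side -/
def La (b a : Fin 4 → Bool) (s : Fin 4) (t : ℕ) : Bool :=
  (b s && a s) || (b s && !a s && decide (t ≤ sC s)) || (!b s && a s && decide (nC s < t))

lemma nC_inj {s s' : Fin 4} (h : nC s = nC s') : s = s' := by
  unfold nC at h; ext; omega

lemma sC_inj {s s' : Fin 4} (h : sC s = sC s') : s = s' := by
  unfold sC at h; ext; omega

lemma dB_inj {s s' : Fin 4} (h : dB s = dB s') : s = s' := by
  unfold dB at h; ext; omega

lemma dA_inj {s s' : Fin 4} (h : dA s = dA s') : s = s' := by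
  unfold dA at h; ext; omega

lemma nC_le (s : Fin 4) : nC s ≤ 6 := by unfold nC; omega
lemma sC_le (s : Fin 4) : sC s ≤ 6 := by unfold sC; omega
lemma dB_le (s : Fin 4) : dB s ≤ 5 := by unfold dB; omega
lemma dA_le (s : Fin 4) : dA s ≤ 5 := by unfold dA; omega
lemma three_le_nC (s : Fin 4) : 3 ≤ nC s := by unfold nC; omega
lemma three_le_sC (s : Fin 4) : 3 ≤ sC s := by unfold sC; omega

lemma Lb_succ {b a : Fin 4 → Bool} {s : Fin 4} {t : ℕ}
    (h1 : ¬ (b s = true ∧ a s = false ∧ t = nC s)) (h2 : ¬ (b s = false ∧ a s = true ∧ t = sC s)) :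
    Lb b a s (t + 1) = Lb b a s t := by
  unfold Lb
  cases hb : b s <;> cases ha : a s <;> simp only [hb, ha] at h1 h2 ⊢ <;> simp at h1 h2 ⊢ <;> omega

lemma La_succ {b a : Fin 4 → Bool} {s : Fin 4} {t : ℕ}
    (h1 : ¬ (b s = true ∧ a s = false ∧ t = sC s)) (h2 : ¬ (b s = false ∧ a s = true ∧ t = nC s)) :
    La b a s (t + 1) = La b a s t := by
  unfold La
  cases hb : b s <;> cases ha : a s <;> simp only [hb, ha] at h1 h2 ⊢ <;> simp at h1 h2 ⊢ <;> omega

/-- the lane over the height `X`, seen from the B side -/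
noncomputable def VB (b a : Fin 4 → Bool) (X t : ℕ) : Ln :=
  if ∃ s : Fin 4, X ≤ dB s ∧ b s = true ∧ a s = false ∧ t = nC s then Ln.n
  else if ∃ s : Fin 4, X ≤ dB s ∧ b s = false ∧ a s = true ∧ t = sC s then Ln.s
  else Ln.z

lemma okc_same (c : Bool) (l : Ln) : okc c c l l = true := by
  cases c <;> cases l <;> rfl

lemma cellB {b a : Fin 4 → Bool}
    (hmix : ∀ s s', ¬ ((b s = true ∧ a s = false) ∧ (b s' = false ∧ a s' = true))) (X t : ℕ) :
    okc (decide (∃ s : Fin 4, X = dB s ∧ Lb b a s t = true))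
      (decide (∃ s : Fin 4, X = dB s ∧ Lb b a s (t + 1) = true)) (VB b a X t) (VB b a (X + 1) t)
      = true := by
  by_cases hN : ∃ s, b s = true ∧ a s = false ∧ t = nC s
  · obtain ⟨s1, hb, ha, ht⟩ := hN
    have hS : ∀ s', ¬ (b s' = false ∧ a s' = true) := fun s' h => hmix s1 s' ⟨⟨hb, ha⟩, h⟩
    have hV : ∀ Z, VB b a Z t = if Z ≤ dB s1 then Ln.n else Ln.z := by
      intro Z
      unfold VB
      by_cases hZ : Z ≤ dB s1
      · rw [if_pos ⟨s1, hZ, hb, ha, ht⟩, if_pos hZ]
      · rw [if_neg, if_neg, if_neg hZ]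
        · rintro ⟨s, -, h1, h2, -⟩
          exact hS s ⟨h1, h2⟩
        · rintro ⟨s, h1, -, -, h2⟩
          have := nC_inj (h2.symm.trans ht)
          subst this
          exact hZ h1
    rw [hV, hV]
    by_cases hX : X = dB s1
    · have e1 : decide (∃ s : Fin 4, X = dB s ∧ Lb b a s t = true) = true := by
        rw [decide_eq_true_iff]
        refine ⟨s1, hX, ?_⟩
        unfold Lb
        rw [hb, ha, ht]
        simp
      have e2 : decide (∃ s : Fin 4, X = dB s ∧ Lb b a s (t + 1) = true) = false := by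
        rw [decide_eq_false_iff_not]
        rintro ⟨s, h1, h2⟩
        have := dB_inj (h1.symm.trans hX)
        subst this
        unfold Lb at h2
        rw [hb, ha, ht] at h2
        simp at h2
      rw [e1, e2, if_pos (by omega), if_neg (by omega)]
      rfl
    · have e : decide (∃ s : Fin 4, X = dB s ∧ Lb b a s (t + 1) = true) =
          decide (∃ s : Fin 4, X = dB s ∧ Lb b a s t = true) := by
        apply decide_eq_decide.2
        constructor
        · rintro ⟨s, h1, h2⟩
          refine ⟨s, h1, ?_⟩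
          rw [Lb_succ] at h2
          · exact h2
          · rintro ⟨-, -, h3⟩
            have := nC_inj (h3.symm.trans ht)
            subst this
            exact hX h1
          · rintro ⟨h3, h4, -⟩
            exact hS s ⟨h3, h4⟩
        · rintro ⟨s, h1, h2⟩
          refine ⟨s, h1, ?_⟩
          rw [Lb_succ]
          · exact h2
          · rintro ⟨-, -, h3⟩
            have := nC_inj (h3.symm.trans ht)
            subst this
            exact hX h1
          · rintro ⟨h3, h4, -⟩
            exact hS s ⟨h3, h4⟩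
      rw [e]
      have e3 : (if X + 1 ≤ dB s1 then Ln.n else Ln.z) = if X ≤ dB s1 then Ln.n else Ln.z := by
        by_cases h : X ≤ dB s1
        · rw [if_pos h, if_pos (by omega)]
        · rw [if_neg h, if_neg (by omega)]
      rw [e3]
      exact okc_same _ _
  · by_cases hS : ∃ s, b s = false ∧ a s = true ∧ t = sC s
    · obtain ⟨s1, hb, ha, ht⟩ := hS
      have hN' : ∀ s', ¬ (b s' = true ∧ a s' = false) := fun s' h => hmix s' s1 ⟨h, hb, ha⟩
      have hV : ∀ Z, VB b a Z t = if Z ≤ dB s1 then Ln.s else Ln.z := by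
        intro Z
        unfold VB
        rw [if_neg (by rintro ⟨s, -, h1, h2, -⟩; exact hN' s ⟨h1, h2⟩)]
        by_cases hZ : Z ≤ dB s1
        · rw [if_pos ⟨s1, hZ, hb, ha, ht⟩, if_pos hZ]
        · rw [if_neg, if_neg hZ]
          rintro ⟨s, h1, -, -, h2⟩
          have := sC_inj (h2.symm.trans ht)
          subst this
          exact hZ h1
      rw [hV, hV]
      by_cases hX : X = dB s1
      · have e1 : decide (∃ s : Fin 4, X = dB s ∧ Lb b a s t = true) = false := by
          rw [decide_eq_false_iff_not]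
          rintro ⟨s, h1, h2⟩
          have := dB_inj (h1.symm.trans hX)
          subst this
          unfold Lb at h2
          rw [hb, ha, ht] at h2
          simp at h2
        have e2 : decide (∃ s : Fin 4, X = dB s ∧ Lb b a s (t + 1) = true) = true := by
          rw [decide_eq_true_iff]
          refine ⟨s1, hX, ?_⟩
          unfold Lb
          rw [hb, ha, ht]
          simp
        rw [e1, e2, if_pos (by omega), if_neg (by omega)]
        rfl
      · have e : decide (∃ s : Fin 4, X = dB s ∧ Lb b a s (t + 1) = true) =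
            decide (∃ s : Fin 4, X = dB s ∧ Lb b a s t = true) := by
          apply decide_eq_decide.2
          have key : ∀ s, X = dB s → Lb b a s (t + 1) = Lb b a s t := by
            intro s h1
            apply Lb_succ
            · rintro ⟨h3, h4, -⟩
              exact hN' s ⟨h3, h4⟩
            · rintro ⟨-, -, h3⟩
              have := sC_inj (h3.symm.trans ht)
              subst this
              exact hX h1
          exact ⟨fun ⟨s, h1, h2⟩ => ⟨s, h1, by rw [← key s h1]; exact h2⟩,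
            fun ⟨s, h1, h2⟩ => ⟨s, h1, by rw [key s h1]; exact h2⟩⟩
        rw [e]
        have e3 : (if X + 1 ≤ dB s1 then Ln.s else Ln.z) = if X ≤ dB s1 then Ln.s else Ln.z := by
          by_cases h : X ≤ dB s1
          · rw [if_pos h, if_pos (by omega)]
          · rw [if_neg h, if_neg (by omega)]
        rw [e3]
        exact okc_same _ _
    · have hV : ∀ Z, VB b a Z t = Ln.z := by
        intro Z
        unfold VB
        rw [if_neg (by rintro ⟨s, -, h1, h2, h3⟩; exact hN ⟨s, h1, h2, h3⟩),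
          if_neg (by rintro ⟨s, -, h1, h2, h3⟩; exact hS ⟨s, h1, h2, h3⟩)]
      rw [hV, hV]
      have key : ∀ s, Lb b a s (t + 1) = Lb b a s t := by
        intro s
        exact Lb_succ (fun h => hN ⟨s, h⟩) (fun h => hS ⟨s, h⟩)
      simp only [key]
      exact okc_same _ _

/-- the lane at the distance `Z` from the line, seen from the A side -/
noncomputable def VA (b a : Fin 4 → Bool) (Z t : ℕ) : Ln :=
  if ∃ s : Fin 4, Z ≤ dA s ∧ b s = false ∧ a s = true ∧ t = nC s then Ln.n
  else if ∃ s : Fin 4, Z ≤ dA s ∧ b s = true ∧ a s = false ∧ t = sC s then Ln.s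
  else Ln.z

lemma cellA {b a : Fin 4 → Bool}
    (hmix : ∀ s s', ¬ ((b s = true ∧ a s = false) ∧ (b s' = false ∧ a s' = true))) (Z t : ℕ) :
    okc (decide (∃ s : Fin 4, Z = dA s ∧ La b a s t = true))
      (decide (∃ s : Fin 4, Z = dA s ∧ La b a s (t + 1) = true)) (VA b a (Z + 1) t) (VA b a Z t)
      = true := by
  by_cases hN : ∃ s, b s = true ∧ a s = false ∧ t = sC s
  · obtain ⟨s1, hb, ha, ht⟩ := hN
    have hS : ∀ s', ¬ (b s' = false ∧ a s' = true) := fun s' h => hmix s1 s' ⟨⟨hb, ha⟩, h⟩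
    have hV : ∀ Z, VA b a Z t = if Z ≤ dA s1 then Ln.s else Ln.z := by
      intro Z
      unfold VA
      rw [if_neg (by rintro ⟨s, -, h1, h2, -⟩; exact hS s ⟨h1, h2⟩)]
      by_cases hZ : Z ≤ dA s1
      · rw [if_pos ⟨s1, hZ, hb, ha, ht⟩, if_pos hZ]
      · rw [if_neg, if_neg hZ]
        rintro ⟨s, h1, -, -, h2⟩
        have := sC_inj (h2.symm.trans ht)
        subst this
        exact hZ h1
    rw [hV, hV]
    by_cases hX : Z = dA s1
    · have e1 : decide (∃ s : Fin 4, Z = dA s ∧ La b a s t = true) = true := by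
        rw [decide_eq_true_iff]
        refine ⟨s1, hX, ?_⟩
        unfold La
        rw [hb, ha, ht]
        simp
      have e2 : decide (∃ s : Fin 4, Z = dA s ∧ La b a s (t + 1) = true) = false := by
        rw [decide_eq_false_iff_not]
        rintro ⟨s, h1, h2⟩
        have := dA_inj (h1.symm.trans hX)
        subst this
        unfold La at h2
        rw [hb, ha, ht] at h2
        simp at h2
      rw [e1, e2, if_neg (by omega), if_pos (by omega)]
      rfl
    · have key : ∀ s, Z = dA s → La b a s (t + 1) = La b a s t := by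
        intro s h1
        apply La_succ
        · rintro ⟨-, -, h3⟩
          have := sC_inj (h3.symm.trans ht)
          subst this
          exact hX h1
        · rintro ⟨h3, h4, -⟩
          exact hS s ⟨h3, h4⟩
      have e : decide (∃ s : Fin 4, Z = dA s ∧ La b a s (t + 1) = true) =
          decide (∃ s : Fin 4, Z = dA s ∧ La b a s t = true) :=
        decide_eq_decide.2 ⟨fun ⟨s, h1, h2⟩ => ⟨s, h1, by rw [← key s h1]; exact h2⟩,
          fun ⟨s, h1, h2⟩ => ⟨s, h1, by rw [key s h1]; exact h2⟩⟩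
      rw [e]
      have e3 : (if Z + 1 ≤ dA s1 then Ln.s else Ln.z) = if Z ≤ dA s1 then Ln.s else Ln.z := by
        by_cases h : Z ≤ dA s1
        · rw [if_pos h, if_pos (by omega)]
        · rw [if_neg h, if_neg (by omega)]
      rw [e3]
      exact okc_same _ _
  · by_cases hS : ∃ s, b s = false ∧ a s = true ∧ t = nC s
    · obtain ⟨s1, hb, ha, ht⟩ := hS
      have hN' : ∀ s', ¬ (b s' = true ∧ a s' = false) := fun s' h => hmix s' s1 ⟨h, hb, ha⟩
      have hV : ∀ Z, VA b a Z t = if Z ≤ dA s1 then Ln.n else Ln.z := by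
        intro Z
        unfold VA
        by_cases hZ : Z ≤ dA s1
        · rw [if_pos ⟨s1, hZ, hb, ha, ht⟩, if_pos hZ]
        · rw [if_neg, if_neg, if_neg hZ]
          · rintro ⟨s, -, h1, h2, -⟩
            exact hN' s ⟨h1, h2⟩
          · rintro ⟨s, h1, -, -, h2⟩
            have := nC_inj (h2.symm.trans ht)
            subst this
            exact hZ h1
      rw [hV, hV]
      by_cases hX : Z = dA s1
      · have e1 : decide (∃ s : Fin 4, Z = dA s ∧ La b a s t = true) = false := by
          rw [decide_eq_false_iff_not]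
          rintro ⟨s, h1, h2⟩
          have := dA_inj (h1.symm.trans hX)
          subst this
          unfold La at h2
          rw [hb, ha, ht] at h2
          simp at h2
        have e2 : decide (∃ s : Fin 4, Z = dA s ∧ La b a s (t + 1) = true) = true := by
          rw [decide_eq_true_iff]
          refine ⟨s1, hX, ?_⟩
          unfold La
          rw [hb, ha, ht]
          simp
        rw [e1, e2, if_neg (by omega), if_pos (by omega)]
        rfl
      · have key : ∀ s, Z = dA s → La b a s (t + 1) = La b a s t := by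
          intro s h1
          apply La_succ
          · rintro ⟨h3, h4, -⟩
            exact hN' s ⟨h3, h4⟩
          · rintro ⟨-, -, h3⟩
            have := nC_inj (h3.symm.trans ht)
            subst this
            exact hX h1
        have e : decide (∃ s : Fin 4, Z = dA s ∧ La b a s (t + 1) = true) =
            decide (∃ s : Fin 4, Z = dA s ∧ La b a s t = true) :=
          decide_eq_decide.2 ⟨fun ⟨s, h1, h2⟩ => ⟨s, h1, by rw [← key s h1]; exact h2⟩,
            fun ⟨s, h1, h2⟩ => ⟨s, h1, by rw [key s h1]; exact h2⟩⟩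
        rw [e]
        have e3 : (if Z + 1 ≤ dA s1 then Ln.n else Ln.z) = if Z ≤ dA s1 then Ln.n else Ln.z := by
          by_cases h : Z ≤ dA s1
          · rw [if_pos h, if_pos (by omega)]
          · rw [if_neg h, if_neg (by omega)]
        rw [e3]
        exact okc_same _ _
    · have hV : ∀ Z, VA b a Z t = Ln.z := by
        intro Z
        unfold VA
        rw [if_neg (by rintro ⟨s, -, h1, h2, h3⟩; exact hS ⟨s, h1, h2, h3⟩),
          if_neg (by rintro ⟨s, -, h1, h2, h3⟩; exact hN ⟨s, h1, h2, h3⟩)]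
      rw [hV, hV]
      have key : ∀ s, La b a s (t + 1) = La b a s t := by
        intro s
        exact La_succ (fun h => hN ⟨s, h⟩) (fun h => hS ⟨s, h⟩)
      simp only [key]
      exact okc_same _ _

/-! ## The tracks of a line -/

namespace KD

variable {τ : Type*} (K : KD τ)

lemma Lb_const (b a : Fin 4 → Bool) (s : Fin 4) (t : ℕ) (h : b s = a s) : Lb b a s t = b s := by
  unfold Lb
  rw [← h]
  cases b s <;> simp

lemma La_const (b a : Fin 4 → Bool) (s : Fin 4) (t : ℕ) (h : b s = a s) : La b a s t = b s := by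
  unfold La
  rw [← h]
  cases b s <;> simp

lemma Lb_big (b a : Fin 4 → Bool) (s : Fin 4) (t : ℕ) (h : 7 ≤ t) : Lb b a s t = a s := by
  have h1 := nC_le s
  have h2 := sC_le s
  unfold Lb
  rw [decide_eq_false (show ¬ t ≤ nC s by omega), decide_eq_true (show sC s < t by omega)]
  cases b s <;> cases a s <;> rfl

lemma La_big (b a : Fin 4 → Bool) (s : Fin 4) (t : ℕ) (h : 7 ≤ t) : La b a s t = a s := by
  have h1 := nC_le s
  have h2 := sC_le s
  unfold La
  rw [decide_eq_false (show ¬ t ≤ sC s by omega), decide_eq_true (show nC s < t by omega)]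
  cases b s <;> cases a s <;> rfl

lemma Lb_zero (b a : Fin 4 → Bool) (s : Fin 4) : Lb b a s 0 = b s := by
  unfold Lb
  rw [decide_eq_true (show 0 ≤ nC s by omega), decide_eq_false (show ¬ sC s < 0 by omega)]
  cases b s <;> cases a s <;> rfl

lemma La_zero (b a : Fin 4 → Bool) (s : Fin 4) : La b a s 0 = b s := by
  unfold La
  rw [decide_eq_true (show 0 ≤ sC s by omega), decide_eq_false (show ¬ nC s < 0 by omega)]
  cases b s <;> cases a s <;> rfl

lemma bB_mid (s : Fin 4) (y : ℤ) {j : ℕ} (h : j ≠ 0) : K.bB s y j = (K.M s y && !K.sd y) := by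
  unfold bB; rw [if_neg h]

lemma aB_mid (s : Fin 4) (y : ℤ) {j : ℕ} (h : j ≠ 6) : K.aB s y j = (K.M s y && !K.sd y) := by
  unfold aB; rw [if_neg h]

lemma bA_mid (s : Fin 4) (y : ℤ) {j : ℕ} (h : j ≠ 0) : K.bA s y j = (K.M s y && K.sd y) := by
  unfold bA; rw [if_neg h]

lemma aA_mid (s : Fin 4) (y : ℤ) {j : ℕ} (h : j ≠ 6) : K.aA s y j = (K.M s y && K.sd y) := by
  unfold aA; rw [if_neg h]

lemma lnB_eq {k : ℕ} (hk : 20 ≤ k) (s : Fin 4) (y : ℤ) {j t : ℕ} (hj : j < 7) (ht : t ≤ k) :
    K.lnB k s y (j * k + t) = Lb (fun s => K.bB s y j) (fun s => K.aB s y j) s t := by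
  by_cases h0 : j = 0
  · subst h0
    unfold lnB Lb
    rw [if_pos (by omega), Nat.zero_mul, Nat.zero_add]
  · by_cases h6 : j = 6
    · subst h6
      unfold lnB
      rw [if_neg (by omega)]
      by_cases h : t = 0
      · subst h
        rw [if_pos (by omega), Lb_zero, K.bB_mid s y (by omega)]
      · rw [if_neg (by omega)]
        unfold Lb
        have e1 : decide (6 * k + t ≤ 6 * k + nC s) = decide (t ≤ nC s) :=
          decide_eq_decide.2 (by omega)
        have e2 : decide (6 * k + sC s < 6 * k + t) = decide (sC s < t) :=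
          decide_eq_decide.2 (by omega)
        rw [e1, e2]
    · rw [Lb_const _ _ _ _ (by rw [K.bB_mid s y h0, K.aB_mid s y h6]), K.bB_mid s y h0]
      unfold lnB
      by_cases h : j * k + t ≤ k
      · have hjk : j * k + t = k := by
          have : 1 * k ≤ j * k := Nat.mul_le_mul_right k (by omega)
          omega
        rw [if_pos h]
        have h1 := nC_le s
        have h2 := sC_le s
        rw [decide_eq_false (show ¬ j * k + t ≤ nC s by omega),
          decide_eq_true (show sC s < j * k + t by omega), K.aB_mid s y (by omega : (0 : ℕ) ≠ 6)]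
        generalize K.bB s y 0 = u
        generalize (K.M s y && !K.sd y) = v
        cases u <;> cases v <;> rfl
      · rw [if_neg h, if_pos]
        have : j * k ≤ 5 * k := Nat.mul_le_mul_right k (by omega)
        omega

lemma lnA_eq {k : ℕ} (hk : 20 ≤ k) (s : Fin 4) (y : ℤ) {j t : ℕ} (hj : j < 7) (ht : t ≤ k) :
    K.lnA k s y (j * k + t) = La (fun s => K.bA s y j) (fun s => K.aA s y j) s t := by
  by_cases h0 : j = 0
  · subst h0
    unfold lnA La
    rw [if_pos (by omega), Nat.zero_mul, Nat.zero_add]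
  · by_cases h6 : j = 6
    · subst h6
      unfold lnA
      rw [if_neg (by omega)]
      by_cases h : t = 0
      · subst h
        rw [if_pos (by omega), La_zero, K.bA_mid s y (by omega)]
      · rw [if_neg (by omega)]
        unfold La
        have e1 : decide (6 * k + t ≤ 6 * k + sC s) = decide (t ≤ sC s) :=
          decide_eq_decide.2 (by omega)
        have e2 : decide (6 * k + nC s < 6 * k + t) = decide (nC s < t) :=
          decide_eq_decide.2 (by omega)
        rw [e1, e2]
    · rw [La_const _ _ _ _ (by rw [K.bA_mid s y h0, K.aA_mid s y h6]), K.bA_mid s y h0]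
      unfold lnA
      by_cases h : j * k + t ≤ k
      · have hjk : j * k + t = k := by
          have : 1 * k ≤ j * k := Nat.mul_le_mul_right k (by omega)
          omega
        rw [if_pos h]
        have h1 := nC_le s
        have h2 := sC_le s
        rw [decide_eq_false (show ¬ j * k + t ≤ sC s by omega),
          decide_eq_true (show nC s < j * k + t by omega), K.aA_mid s y (by omega : (0 : ℕ) ≠ 6)]
        generalize K.bA s y 0 = u
        generalize (K.M s y && K.sd y) = v
        cases u <;> cases v <;> rfl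
      · rw [if_neg h, if_pos]
        have : j * k ≤ 5 * k := Nat.mul_le_mul_right k (by omega)
        omega

lemma mixB (y : ℤ) (j : ℕ) (s s' : Fin 4) :
    ¬ ((K.bB s y j = true ∧ K.aB s y j = false) ∧ (K.bB s' y j = false ∧ K.aB s' y j = true)) := by
  rintro ⟨⟨h1, h2⟩, h3, h4⟩
  by_cases h0 : j = 0
  · subst h0
    rw [K.aB_mid s' y (by omega)] at h4
    unfold bB V at h1 h3
    rw [if_pos rfl] at h1 h3
    rw [Bool.and_eq_true] at h1 h4
    rw [h4.1, h1.2] at h3
    simp at h3
  · by_cases h6 : j = 6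
    · subst h6
      rw [K.bB_mid s y h0] at h1
      unfold aB V at h2 h4
      rw [if_pos rfl] at h2 h4
      rw [Bool.and_eq_true] at h1 h4
      rw [show y + 1 - 1 = y by ring, h1.1, h4.2] at h2
      simp at h2
    · rw [K.bB_mid s y h0] at h1
      rw [K.aB_mid s y h6, h1] at h2
      exact absurd h2 (by decide)

lemma mixA (y : ℤ) (j : ℕ) (s s' : Fin 4) :
    ¬ ((K.bA s y j = true ∧ K.aA s y j = false) ∧ (K.bA s' y j = false ∧ K.aA s' y j = true)) := by
  rintro ⟨⟨h1, h2⟩, h3, h4⟩
  by_cases h0 : j = 0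
  · subst h0
    rw [K.aA_mid s' y (by omega)] at h4
    unfold bA V at h1 h3
    rw [if_pos rfl] at h1 h3
    rw [Bool.and_eq_true] at h1 h4
    rw [h4.1, h1.2] at h3
    simp at h3
  · by_cases h6 : j = 6
    · subst h6
      rw [K.bA_mid s y h0] at h1
      unfold aA V at h2 h4
      rw [if_pos rfl] at h2 h4
      rw [Bool.and_eq_true] at h1 h4
      rw [show y + 1 - 1 = y by ring, h1.1, h4.2] at h2
      simp at h2
    · rw [K.bA_mid s y h0] at h1
      rw [K.aA_mid s y h6, h1] at h2
      exact absurd h2 (by decide)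

/-! ### the letters of a line on a plate -/

lemma auxW0 : ∀ m0 m a0 a b0 b : Bool, b = false →
    (m0 = true → m = false → (a0 = false ∧ a = true) ∨ (b0 = false ∧ b = true)) →
    let sdv : Bool := b && !a
    let stv : Bool := if a0 ≠ a then false else if b0 ≠ b then true else sdv
    let bBv := (m0 || m) && !stv
    let aBv := m && !sdv
    let bAv := (m0 || m) && stv
    let aAv := m && sdv
    ((bBv && !aBv) || (aAv && !bAv)) = (bBv && !aBv) ∧
      ((bAv && !aAv) || (aBv && !bBv)) = (aBv && !bBv) := by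
  decide

lemma auxW6 : ∀ m m1 a a1 b b1 : Bool, b = false →
    (m1 = true → m = false → (a = true ∧ a1 = false) ∨ (b = true ∧ b1 = false)) →
    let sdv : Bool := b && !a
    let sdv1 : Bool := b1 && !a1
    let stv : Bool := if a ≠ a1 then false else if b ≠ b1 then true else sdv1
    let bBv := m && !sdv
    let aBv := (m || m1) && !stv
    let bAv := m && sdv
    let aAv := (m || m1) && stv
    ((bBv && !aBv) || (aAv && !bAv)) = (bBv && !aBv) ∧
      ((bAv && !aAv) || (aBv && !bBv)) = (aBv && !bBv) := by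
  decide

lemma auxE0 : ∀ m0 m a0 a b0 b : Bool, a = false → (a0 = true → b = b0) →
    (m0 = true → m = false → (a0 = false ∧ a = true) ∨ (b0 = false ∧ b = true)) →
    let sdv : Bool := b && !a
    let stv : Bool := if a0 ≠ a then false else if b0 ≠ b then true else sdv
    let bBv := (m0 || m) && !stv
    let aBv := m && !sdv
    let bAv := (m0 || m) && stv
    let aAv := m && sdv
    ((bBv && !aBv) || (aAv && !bAv)) = (aAv && !bAv) ∧
      ((bAv && !aAv) || (aBv && !bBv)) = (bAv && !aAv) := by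
  decide

lemma auxE6 : ∀ m m1 a a1 b b1 : Bool, a = false → (a1 = true → b = b1) →
    (m1 = true → m = false → (a = true ∧ a1 = false) ∨ (b = true ∧ b1 = false)) →
    let sdv : Bool := b && !a
    let sdv1 : Bool := b1 && !a1
    let stv : Bool := if a ≠ a1 then false else if b ≠ b1 then true else sdv1
    let bBv := m && !sdv
    let aBv := (m || m1) && !stv
    let bAv := m && sdv
    let aAv := (m || m1) && stv
    ((bBv && !aBv) || (aAv && !bAv)) = (aAv && !bAv) ∧
      ((bAv && !aAv) || (aBv && !bBv)) = (bAv && !aAv) := by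
  decide

variable {K}

lemma letW {on : ℤ → Bool} (h : K.Ok on) {y : ℤ} (hb : K.bw y = false) (s : Fin 4) (j : ℕ) :
    K.kn s y j = (K.bB s y j && !K.aB s y j) ∧ K.ks s y j = (K.aB s y j && !K.bB s y j) := by
  have hcn : K.cn s y = false := by
    cases hc : K.cn s y
    · rfl
    · exact absurd (h.cn_ok s y hc).2.1 (by rw [hb]; decide)
  have hcs : K.cs s y = false := by
    cases hc : K.cs s y
    · rfl
    · exact absurd (h.cs_ok s y hc).2.1 (by rw [hb]; decide)
  unfold kn ks
  rw [hcn, hcs, Bool.and_false, Bool.or_false, Bool.or_false]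
  by_cases h0 : j = 0
  · subst h0
    exact auxW0 (K.M s (y - 1)) (K.M s y) (K.aw (y - 1)) (K.aw y) (K.bw (y - 1)) (K.bw y) hb
      (h.stop s y)
  · by_cases h6 : j = 6
    · subst h6
      have h1 := h.start s (y + 1)
      rw [show y + 1 - 1 = y by ring] at h1
      have := auxW6 (K.M s y) (K.M s (y + 1)) (K.aw y) (K.aw (y + 1)) (K.bw y) (K.bw (y + 1)) hb h1
      unfold bB aB bA aA V st
      rw [show y + 1 - 1 = y by ring]
      exact this
    · rw [K.bB_mid s y h0, K.aB_mid s y h6, K.bA_mid s y h0, K.aA_mid s y h6]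
      generalize (K.M s y && K.sd y) = u
      generalize (K.M s y && !K.sd y) = v
      cases u <;> cases v <;> exact ⟨rfl, rfl⟩

lemma letE {on : ℤ → Bool} (h : K.Ok on) {y : ℤ} (ho : on y = true) (ha : K.aw y = false)
    (s : Fin 4) (j : ℕ) :
    K.kn s y j = (K.aA s y j && !K.bA s y j) ∧ K.ks s y j = (K.bA s y j && !K.aA s y j) := by
  have hcn : K.cn s y = false := by
    cases hc : K.cn s y
    · rfl
    · exact absurd (h.cn_ok s y hc).1 (by rw [ha]; decide)
  have hcs : K.cs s y = false := by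
    cases hc : K.cs s y
    · rfl
    · exact absurd (h.cs_ok s y hc).1 (by rw [ha]; decide)
  unfold kn ks
  rw [hcn, hcs, Bool.and_false, Bool.or_false, Bool.or_false]
  by_cases h0 : j = 0
  · subst h0
    refine auxE0 (K.M s (y - 1)) (K.M s y) (K.aw (y - 1)) (K.aw y) (K.bw (y - 1)) (K.bw y) ha ?_
      (h.stop s y)
    intro h1
    rcases h.ev y (h.aw_on _ h1) ho with h2 | h2
    · rw [h1, ha] at h2
      exact absurd h2 (by decide)
    · exact h2.symm
  · by_cases h6 : j = 6
    · subst h6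
      have h1 := h.start s (y + 1)
      rw [show y + 1 - 1 = y by ring] at h1
      have := auxE6 (K.M s y) (K.M s (y + 1)) (K.aw y) (K.aw (y + 1)) (K.bw y) (K.bw (y + 1)) ha
        (by
          intro h2
          have h3 := h.ev (y + 1)
          rw [show y + 1 - 1 = y by ring] at h3
          rcases h3 ho (h.aw_on _ h2) with h4 | h4
          · rw [h2, ha] at h4
            exact absurd h4 (by decide)
          · exact h4) h1
      unfold bB aB bA aA V st
      rw [show y + 1 - 1 = y by ring]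
      exact this
    · rw [K.bB_mid s y h0, K.aB_mid s y h6, K.bA_mid s y h0, K.aA_mid s y h6]
      generalize (K.M s y && K.sd y) = u
      generalize (K.M s y && !K.sd y) = v
      cases u <;> cases v <;> exact ⟨rfl, rfl⟩

end KD

/-! ## The middle of a plate -/

def Vm (k a b c d X Y : ℕ) : El :=
  if (Y = 2 * k + 3 ∧ ((a = 1 ∧ X ≤ 2 * k + 5) ∨ (c = 1 ∧ 5 * k < X + 4))) ∨
    (Y = 4 * k + 3 ∧ ((b = 1 ∧ X ≤ 2 * k + 3) ∨ (d = 1 ∧ 5 * k < X + 6))) then El.e
  else El.o

def Hm (k a b c d p1 p2 p3 p4 r1 r2 X Y : ℕ) : El :=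
  if X = 2 * k + 3 ∧ (p1 = 1 ∨ (b = 1 ∧ 4 * k + 3 < Y)) then El.n
  else if X = 2 * k + 5 ∧ (p2 = 1 ∨ (a = 1 ∧ Y ≤ 2 * k + 3)) then El.s
  else if X + 4 = 5 * k ∧ (p3 = 1 ∨ (c = 1 ∧ Y ≤ 2 * k + 3)) then El.n
  else if X + 6 = 5 * k ∧ (p4 = 1 ∨ (d = 1 ∧ 4 * k + 3 < Y)) then El.s
  else if (X = 3 * k + 3 ∧ r1 = 1) ∨ (X + 4 = 4 * k ∧ r2 = 1) then El.n
  else El.o

lemma okmid {k a b c d p1 p2 p3 p4 : ℕ} (r1 r2 X Y : ℕ) (hk : 20 ≤ k)
    (ha : a = 1 → p1 ≠ 1 ∧ p2 ≠ 1) (hb : b = 1 → p1 ≠ 1) (hc : c = 1 → p3 ≠ 1)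
    (hd : d = 1 → p3 ≠ 1 ∧ p4 ≠ 1) :
    okc (Vm k a b c d X Y).ie (Vm k a b c d (X + 1) Y).ie
      (Hm k a b c d p1 p2 p3 p4 r1 r2 X (Y + 1)).ln (Hm k a b c d p1 p2 p3 p4 r1 r2 X Y).ln
      = true := by
  by_cases x1 : X = 2 * k + 3
  · have e : ∀ Y, Hm k a b c d p1 p2 p3 p4 r1 r2 X Y =
        if p1 = 1 ∨ (b = 1 ∧ 4 * k + 3 < Y) then El.n else El.o := by
      intro Y
      unfold Hm
      by_cases hh : p1 = 1 ∨ (b = 1 ∧ 4 * k + 3 < Y)
      · rw [if_pos ⟨x1, hh⟩, if_pos hh]
      · rw [if_neg (by omega), if_neg (by omega), if_neg (by omega), if_neg (by omega),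
          if_neg (by omega), if_neg hh]
    have v1 : Vm k a b c d X Y = if (Y = 2 * k + 3 ∧ a = 1) ∨ (Y = 4 * k + 3 ∧ b = 1) then El.e
        else El.o := by
      unfold Vm
      exact if_congr (by omega) rfl rfl
    have v2 : Vm k a b c d (X + 1) Y = if Y = 2 * k + 3 ∧ a = 1 then El.e
        else El.o := by
      unfold Vm
      exact if_congr (by omega) rfl rfl
    rw [e, e, v1, v2]
    split_ifs <;> first | rfl | (exfalso; omega)
  · by_cases x2 : X = 2 * k + 5
    · have e : ∀ Y, Hm k a b c d p1 p2 p3 p4 r1 r2 X Y =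
          if p2 = 1 ∨ (a = 1 ∧ Y ≤ 2 * k + 3) then El.s else El.o := by
        intro Y
        unfold Hm
        rw [if_neg (by omega)]
        by_cases hh : p2 = 1 ∨ (a = 1 ∧ Y ≤ 2 * k + 3)
        · rw [if_pos ⟨x2, hh⟩, if_pos hh]
        · rw [if_neg (by omega), if_neg (by omega), if_neg (by omega),
            if_neg (by omega), if_neg hh]
      have v1 : Vm k a b c d X Y = if Y = 2 * k + 3 ∧ a = 1 then El.e
          else El.o := by
        unfold Vm
        exact if_congr (by omega) rfl rfl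
      have v2 : Vm k a b c d (X + 1) Y = El.o := by
        unfold Vm
        exact if_neg (by omega)
      rw [e, e, v1, v2]
      split_ifs <;> first | rfl | (exfalso; omega)
    · by_cases x3 : X + 4 = 5 * k
      · have e : ∀ Y, Hm k a b c d p1 p2 p3 p4 r1 r2 X Y =
            if p3 = 1 ∨ (c = 1 ∧ Y ≤ 2 * k + 3) then El.n else El.o := by
          intro Y
          unfold Hm
          rw [if_neg (by omega), if_neg (by omega)]
          by_cases hh : p3 = 1 ∨ (c = 1 ∧ Y ≤ 2 * k + 3)
          · rw [if_pos ⟨x3, hh⟩, if_pos hh]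
          · rw [if_neg (by omega), if_neg (by omega), if_neg (by omega), if_neg hh]
        have v1 : Vm k a b c d X Y = if Y = 4 * k + 3 ∧ d = 1 then El.e
            else El.o := by
          unfold Vm
          exact if_congr (by omega) rfl rfl
        have v2 : Vm k a b c d (X + 1) Y =
            if (Y = 2 * k + 3 ∧ c = 1) ∨ (Y = 4 * k + 3 ∧ d = 1) then El.e else El.o := by
          unfold Vm
          exact if_congr (by omega) rfl rfl
        rw [e, e, v1, v2]
        split_ifs <;> first | rfl | (exfalso; omega)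
      · by_cases x4 : X + 6 = 5 * k
        · have e : ∀ Y, Hm k a b c d p1 p2 p3 p4 r1 r2 X Y =
              if p4 = 1 ∨ (d = 1 ∧ 4 * k + 3 < Y) then El.s else El.o := by
            intro Y
            unfold Hm
            rw [if_neg (by omega), if_neg (by omega), if_neg (by omega)]
            by_cases hh : p4 = 1 ∨ (d = 1 ∧ 4 * k + 3 < Y)
            · rw [if_pos ⟨x4, hh⟩, if_pos hh]
            · rw [if_neg (by omega), if_neg (by omega), if_neg hh]
          have v1 : Vm k a b c d X Y = El.o := by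
            unfold Vm
            exact if_neg (by omega)
          have v2 : Vm k a b c d (X + 1) Y = if Y = 4 * k + 3 ∧ d = 1 then El.e else El.o := by
            unfold Vm
            exact if_congr (by omega) rfl rfl
          rw [e, e, v1, v2]
          split_ifs <;> first | rfl | (exfalso; omega)
        · have e : ∀ Y, Hm k a b c d p1 p2 p3 p4 r1 r2 X Y =
              if (X = 3 * k + 3 ∧ r1 = 1) ∨ (X + 4 = 4 * k ∧ r2 = 1) then El.n else El.o := by
            intro Y
            unfold Hm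
            rw [if_neg (by omega), if_neg (by omega), if_neg (by omega), if_neg (by omega)]
          rw [e, e]
          have v : Vm k a b c d (X + 1) Y = Vm k a b c d X Y := by
            unfold Vm
            exact if_congr (by omega) rfl rfl
          rw [v]
          exact okc_same _ _

namespace PD

variable {τ : Type*} {D : PD τ} {k : ℕ}

lemma Vv_mid (hk : 20 ≤ k) {X : ℕ} (h1 : k ≤ X) (h2 : X ≤ 6 * k) (Y : ℕ) :
    D.Vv k X Y = Vm k (D.KW.bp D.y).toNat (D.KW.vl D.y).toNat (D.KE.bp D.y).toNat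
      (D.KE.vl D.y).toNat X Y := by
  unfold Vv Vm
  rw [if_neg, if_neg, if_neg, if_neg]
  · simp only [Bool.toNat_eq_one]
  · rintro ⟨s, h, -⟩
    have := dA_le s
    omega
  · rintro ⟨s, h, -⟩
    have := dA_le s
    omega
  · rintro ⟨s, h, -⟩
    have := dB_le s
    omega
  · rintro ⟨s, h, -⟩
    have := dB_le s
    omega

lemma Hv_mid {X : ℕ} (h1 : k ≤ X) (h2 : X + 1 ≤ 6 * k) (Y : ℕ) :
    D.Hv k X Y = Hm k (D.KW.bp D.y).toNat (D.KW.vl D.y).toNat (D.KE.bp D.y).toNat
      (D.KE.vl D.y).toNat (D.nW || D.KW.gN D.y).toNat (D.sW || D.KW.fS (D.y + 1)).toNat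
      (D.nE || D.KE.fN (D.y + 1)).toNat (D.sE || D.KE.gS D.y).toNat D.r1.toNat D.r2.toNat X Y := by
  unfold Hv Hm
  rw [if_neg (by omega), if_neg (by omega)]
  simp only [Bool.toNat_eq_one, Bool.or_eq_true, or_assoc]

lemma toNat_ne {b : Bool} (h : b = false) : b.toNat ≠ 1 := by rw [h]; decide

lemma cellMid {onW onE : ℤ → Bool} (h : D.Ok onW onE) (hk : 20 ≤ k) {X : ℕ} (h1 : k ≤ X)
    (h2 : X + 1 ≤ 6 * k) (Y : ℕ) :
    okc (D.Vv k X Y).ie (D.Vv k (X + 1) Y).ie (D.Hv k X (Y + 1)).ln (D.Hv k X Y).ln = true := by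
  rw [Vv_mid hk h1 (by omega), Vv_mid hk (by omega) h2, Hv_mid h1 h2, Hv_mid h1 h2]
  apply okmid _ _ _ _ hk
  · intro hb
    rw [Bool.toNat_eq_one] at hb
    obtain ⟨-, -, -, -, -, h3, h4⟩ := h.W.bp_ok _ hb
    obtain ⟨h5, h6⟩ := h.bpW hb
    exact ⟨toNat_ne (by rw [h5, h4]; rfl), toNat_ne (by rw [h6, h3]; rfl)⟩
  · intro hb
    rw [Bool.toNat_eq_one] at hb
    obtain ⟨-, -, -, -, -, h3, h4⟩ := h.W.vl_ok _ hb
    exact toNat_ne (by rw [h.vlW hb, h3]; rfl)
  · intro hb
    rw [Bool.toNat_eq_one] at hb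
    obtain ⟨-, -, -, -, h3, -, -⟩ := h.E.bp_ok _ hb
    exact toNat_ne (by rw [h.bpE hb, h3]; rfl)
  · intro hb
    rw [Bool.toNat_eq_one] at hb
    obtain ⟨-, -, -, -, h3, h4, h5⟩ := h.E.vl_ok _ hb
    obtain ⟨h6, h7⟩ := h.vlE hb
    exact ⟨toNat_ne (by rw [h6, h5]; rfl), toNat_ne (by rw [h7, h3]; rfl)⟩

lemma div_mod {j t : ℕ} (ht : t < k) : (j * k + t) / k = j ∧ (j * k + t) % k = t := by
  have hk : 0 < k := by omega
  constructor
  · rw [Nat.add_comm, Nat.add_mul_div_right _ _ hk, Nat.div_eq_of_lt ht, Nat.zero_add]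
  · rw [Nat.add_comm, Nat.add_mul_mod_self_right, Nat.mod_eq_of_lt ht]

lemma Hv_west (hk : 20 ≤ k) {X : ℕ} (hX : X < k) {j t : ℕ} (hj : j < 7) (ht : t ≤ k) :
    (D.Hv k X (j * k + t)).ie = decide (∃ s : Fin 4, X = dB s ∧
      Lb (fun s => D.KW.bB s D.y j) (fun s => D.KW.aB s D.y j) s t = true) := by
  have e : (∃ s : Fin 4, X = dB s ∧ D.KW.lnB k s D.y (j * k + t) = true) ↔
      ∃ s : Fin 4, X = dB s ∧
        Lb (fun s => D.KW.bB s D.y j) (fun s => D.KW.aB s D.y j) s t = true := by
    simp only [D.KW.lnB_eq hk _ _ hj ht]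
  unfold Hv
  by_cases hh : ∃ s : Fin 4, X = dB s ∧ D.KW.lnB k s D.y (j * k + t) = true
  · rw [if_pos ⟨hX, hh⟩, decide_eq_true (e.1 hh)]
    rfl
  · rw [if_neg (fun h => hh h.2), if_neg (by omega), decide_eq_false (fun h => hh (e.2 h))]
    split_ifs <;> rfl

lemma Vv_west (hk : 20 ≤ k) {X : ℕ} (hX : X ≤ k) {j t : ℕ} (ht : t < k) :
    (D.Vv k X (j * k + t)).ln =
      VB (fun s => D.KW.bB s D.y j) (fun s => D.KW.aB s D.y j) X t := by
  obtain ⟨h1, h2⟩ := div_mod (j := j) ht
  unfold Vv VB
  rw [h1, h2]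
  by_cases c1 : ∃ s : Fin 4, X ≤ dB s ∧ D.KW.bB s D.y j = true ∧ D.KW.aB s D.y j = false ∧
      t = nC s
  · rw [if_pos c1, if_pos c1]
    rfl
  · rw [if_neg c1, if_neg c1]
    by_cases c2 : ∃ s : Fin 4, X ≤ dB s ∧ D.KW.bB s D.y j = false ∧ D.KW.aB s D.y j = true ∧
        t = sC s
    · rw [if_pos c2, if_pos c2]
      rfl
    · rw [if_neg c2, if_neg c2, if_neg, if_neg]
      · split_ifs <;> rfl
      · rintro ⟨s, h, -⟩
        have := dA_le s
        omega
      · rintro ⟨s, h, -⟩
        have := dA_le s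
        omega

lemma Hv_east (hk : 20 ≤ k) {Z : ℕ} (hZ : Z < k) {j t : ℕ} (hj : j < 7) (ht : t ≤ k) :
    (D.Hv k (6 * k + (k - 1 - Z)) (j * k + t)).ie = decide (∃ s : Fin 4, Z = dA s ∧
      La (fun s => D.KE.bA s D.y j) (fun s => D.KE.aA s D.y j) s t = true) := by
  have e : (∃ s : Fin 4, 6 * k + (k - 1 - Z) + 1 + dA s = 7 * k ∧
      D.KE.lnA k s D.y (j * k + t) = true) ↔
      ∃ s : Fin 4, Z = dA s ∧
        La (fun s => D.KE.bA s D.y j) (fun s => D.KE.aA s D.y j) s t = true := by
    simp only [D.KE.lnA_eq hk _ _ hj ht]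
    constructor
    · rintro ⟨s, h1, h2⟩
      exact ⟨s, by omega, h2⟩
    · rintro ⟨s, h1, h2⟩
      exact ⟨s, by omega, h2⟩
  unfold Hv
  rw [if_neg (by omega)]
  by_cases hh : ∃ s : Fin 4, 6 * k + (k - 1 - Z) + 1 + dA s = 7 * k ∧
      D.KE.lnA k s D.y (j * k + t) = true
  · rw [if_pos ⟨by omega, hh⟩, decide_eq_true (e.1 hh)]
    rfl
  · rw [if_neg (fun h => hh h.2), decide_eq_false (fun h => hh (e.2 h))]
    split_ifs <;> rfl

lemma Vv_east (hk : 20 ≤ k) {Z : ℕ} (hZ : Z ≤ k) {j t : ℕ} (ht : t < k) :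
    (D.Vv k (6 * k + (k - Z)) (j * k + t)).ln =
      VA (fun s => D.KE.bA s D.y j) (fun s => D.KE.aA s D.y j) Z t := by
  obtain ⟨h1, h2⟩ := div_mod (j := j) ht
  unfold Vv VA
  rw [h1, h2, if_neg, if_neg]
  · have hZ' : ∀ s : Fin 4, (7 * k ≤ 6 * k + (k - Z) + dA s) ↔ Z ≤ dA s := fun s => by omega
    simp only [hZ']
    by_cases c1 : ∃ s : Fin 4, Z ≤ dA s ∧ D.KE.bA s D.y j = false ∧ D.KE.aA s D.y j = true ∧
        t = nC s
    · rw [if_pos c1, if_pos c1]
      rfl
    · rw [if_neg c1, if_neg c1]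
      by_cases c2 : ∃ s : Fin 4, Z ≤ dA s ∧ D.KE.bA s D.y j = true ∧ D.KE.aA s D.y j = false ∧
          t = sC s
      · rw [if_pos c2, if_pos c2]
        rfl
      · rw [if_neg c2, if_neg c2]
        split_ifs <;> rfl
  · rintro ⟨s, h, -⟩
    have := dB_le s
    omega
  · rintro ⟨s, h, -⟩
    have := dB_le s
    omega

lemma Vv_clear (hk : 20 ≤ k) {X : ℕ} {j t : ℕ} (ht : t < k)
    (h1 : k < X ∨ ∀ s : Fin 4, ¬ (D.KW.bB s D.y j = true ∨ D.KW.aB s D.y j = true))
    (h2 : X < 6 * k ∨ ∀ s : Fin 4, ¬ (D.KE.bA s D.y j = true ∨ D.KE.aA s D.y j = true)) :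
    D.Vv k X (j * k + t) = Vm k (D.KW.bp D.y).toNat (D.KW.vl D.y).toNat (D.KE.bp D.y).toNat
      (D.KE.vl D.y).toNat X (j * k + t) := by
  obtain ⟨e1, e2⟩ := div_mod (j := j) ht
  unfold Vv Vm
  rw [e1, e2, if_neg, if_neg, if_neg, if_neg]
  · simp only [Bool.toNat_eq_one]
  · rintro ⟨s, h, h3, -⟩
    have := dA_le s
    rcases h2 with h2 | h2
    · omega
    · exact h2 s (Or.inl h3)
  · rintro ⟨s, h, -, h3, -⟩
    have := dA_le s
    rcases h2 with h2 | h2
    · omega
    · exact h2 s (Or.inr h3)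
  · rintro ⟨s, h, -, h3, -⟩
    have := dB_le s
    rcases h1 with h1 | h1
    · omega
    · exact h1 s (Or.inr h3)
  · rintro ⟨s, h, h3, -⟩
    have := dB_le s
    rcases h1 with h1 | h1
    · omega
    · exact h1 s (Or.inl h3)

lemma Hv_side {X : ℕ} (hX : X < k ∨ 6 * k ≤ X) (hk : 20 ≤ k) (Y : ℕ) :
    (D.Hv k X Y).ln = Ln.z := by
  unfold Hv
  split_ifs <;> first | rfl | (exfalso; omega)

theorem cellOk' {onW onE : ℤ → Bool} (h : D.Ok onW onE) (hk : 20 ≤ k) {i j : ℕ} (hi : i < 7)
    (hj : j < 7) : CellOk k (D.prT k i j) (D.laT k i j) := by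
  intro x y hx hy
  unfold prT laT
  by_cases hX : D.isX i j = true
  · rw [if_pos hX, if_pos hX, if_pos hX, if_pos hX]
    unfold isX at hX
    simp only [Bool.or_eq_true, Bool.and_eq_true, decide_eq_true_iff] at hX
    rcases hX with ⟨rfl, -⟩ | ⟨rfl, -⟩
    · simp only [Nat.zero_mul, Nat.zero_add]
      rw [Hv_west hk (by omega) hj hx.le, Hv_west hk (by omega) hj hx,
        Vv_west hk (by omega) hx, Vv_west hk (by omega) hx]
      have := cellB (D.KW.mixB D.y j) (k - 1 - y) x
      rw [show k - (y + 1) = k - 1 - y by omega, show k - y = k - 1 - y + 1 by omega]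
      exact this
    · rw [Hv_east hk hy hj hx.le, Hv_east hk hy hj hx,
        Vv_east hk (by omega) hx, Vv_east hk (by omega) hx]
      exact cellA (D.KE.mixA D.y j) y x
  · rw [if_neg hX, if_neg hX, if_neg hX, if_neg hX]
    unfold isX at hX
    simp only [Bool.or_eq_true, Bool.and_eq_true, decide_eq_true_iff] at hX
    rw [not_or, not_and, not_and, not_exists, not_exists] at hX
    obtain ⟨hX0, hX6⟩ := hX
    by_cases h0 : i = 0
    · subst h0
      simp only [Nat.zero_mul, Nat.zero_add]
      rw [Vv_clear hk hy (Or.inr (hX0 rfl)) (Or.inl (by omega)),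
        Vv_clear hk hy (Or.inr (hX0 rfl)) (Or.inl (by omega)),
        Hv_side (Or.inl (by omega)) hk, Hv_side (Or.inl (by omega)) hk]
      have v : ∀ Y, Vm k (D.KW.bp D.y).toNat (D.KW.vl D.y).toNat (D.KE.bp D.y).toNat
          (D.KE.vl D.y).toNat (x + 1) Y = Vm k (D.KW.bp D.y).toNat (D.KW.vl D.y).toNat
          (D.KE.bp D.y).toNat (D.KE.vl D.y).toNat x Y := by
        intro Y
        unfold Vm
        exact if_congr (by omega) rfl rfl
      rw [v]
      exact okc_same _ _
    · by_cases h6 : i = 6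
      · subst h6
        rw [Vv_clear hk hy (Or.inl (by omega)) (Or.inr (hX6 rfl)),
          Vv_clear hk hy (Or.inl (by omega)) (Or.inr (hX6 rfl)),
          Hv_side (Or.inr (by omega)) hk, Hv_side (Or.inr (by omega)) hk]
        have v : ∀ Y, Vm k (D.KW.bp D.y).toNat (D.KW.vl D.y).toNat (D.KE.bp D.y).toNat
            (D.KE.vl D.y).toNat (6 * k + (x + 1)) Y = Vm k (D.KW.bp D.y).toNat
            (D.KW.vl D.y).toNat (D.KE.bp D.y).toNat (D.KE.vl D.y).toNat (6 * k + x) Y := by
          intro Y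
          unfold Vm
          exact if_congr (by omega) rfl rfl
        rw [v]
        exact okc_same _ _
      · have e1 : 1 * k ≤ i * k := Nat.mul_le_mul_right k (by omega)
        have e2 : i * k ≤ 5 * k := Nat.mul_le_mul_right k (by omega)
        have := cellMid h hk (X := i * k + x) (by omega) (by omega) (j * k + y)
        exact this

lemma Vv_zero' {onW onE : ℤ → Bool} (h : D.Ok onW onE) (hk : 20 ≤ k) {Y : ℕ} :
    D.Vv k 0 Y = D.KW.kl k D.y Y := by
  unfold Vv KD.kl
  have c1 : (∃ s : Fin 4, 0 ≤ dB s ∧ D.KW.bB s D.y (Y / k) = true ∧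
      D.KW.aB s D.y (Y / k) = false ∧ Y % k = nC s) ↔
      ∃ s : Fin 4, D.KW.kn s D.y (Y / k) = true ∧ Y % k = nC s := by
    apply exists_congr
    intro s
    rw [(KD.letW h.W h.bw s _).1]
    generalize D.KW.bB s D.y (Y / k) = u
    generalize D.KW.aB s D.y (Y / k) = v
    cases u <;> cases v <;> simp
  have c2 : (∃ s : Fin 4, 0 ≤ dB s ∧ D.KW.bB s D.y (Y / k) = false ∧
      D.KW.aB s D.y (Y / k) = true ∧ Y % k = sC s) ↔
      ∃ s : Fin 4, D.KW.ks s D.y (Y / k) = true ∧ Y % k = sC s := by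
    apply exists_congr
    intro s
    rw [(KD.letW h.W h.bw s _).2]
    generalize D.KW.bB s D.y (Y / k) = u
    generalize D.KW.aB s D.y (Y / k) = v
    cases u <;> cases v <;> simp
  apply if_congr c1 rfl
  apply if_congr c2 rfl
  rw [if_neg, if_neg]
  · have f1 : (5 * k < 0 + 4) ↔ False := iff_of_false (by omega) id
    have f2 : (5 * k < 0 + 6) ↔ False := iff_of_false (by omega) id
    have f3 : (0 ≤ 2 * k + 5) ↔ True := iff_of_true (by omega) trivial
    have f4 : (0 ≤ 2 * k + 3) ↔ True := iff_of_true (by omega) trivial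
    apply if_congr _ rfl rfl
    rw [f1, f2, f3, f4]
    simp only [and_false, or_false, and_true]
    rw [and_comm (a := Y = 2 * k + 3), and_comm (a := Y = 4 * k + 3)]
  · rintro ⟨s, h, -⟩
    have := dA_le s
    omega
  · rintro ⟨s, h, -⟩
    have := dA_le s
    omega

lemma Vv_end' {onW onE : ℤ → Bool} (h : D.Ok onW onE) (hk : 20 ≤ k) {Y : ℕ} :
    D.Vv k (7 * k) Y = D.KE.kl k D.y Y := by
  unfold Vv KD.kl
  rw [if_neg, if_neg]
  · have c1 : (∃ s : Fin 4, 7 * k ≤ 7 * k + dA s ∧ D.KE.bA s D.y (Y / k) = false ∧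
        D.KE.aA s D.y (Y / k) = true ∧ Y % k = nC s) ↔
        ∃ s : Fin 4, D.KE.kn s D.y (Y / k) = true ∧ Y % k = nC s := by
      apply exists_congr
      intro s
      rw [(KD.letE h.E h.oE h.aw s _).1]
      generalize D.KE.bA s D.y (Y / k) = u
      generalize D.KE.aA s D.y (Y / k) = v
      cases u <;> cases v <;> simp
    have c2 : (∃ s : Fin 4, 7 * k ≤ 7 * k + dA s ∧ D.KE.bA s D.y (Y / k) = true ∧
        D.KE.aA s D.y (Y / k) = false ∧ Y % k = sC s) ↔
        ∃ s : Fin 4, D.KE.ks s D.y (Y / k) = true ∧ Y % k = sC s := by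
      apply exists_congr
      intro s
      rw [(KD.letE h.E h.oE h.aw s _).2]
      generalize D.KE.bA s D.y (Y / k) = u
      generalize D.KE.aA s D.y (Y / k) = v
      cases u <;> cases v <;> simp
    apply if_congr c1 rfl
    apply if_congr c2 rfl
    have f1 : (5 * k < 7 * k + 4) ↔ True := iff_of_true (by omega) trivial
    have f2 : (5 * k < 7 * k + 6) ↔ True := iff_of_true (by omega) trivial
    have f3 : (7 * k ≤ 2 * k + 5) ↔ False := iff_of_false (by omega) id
    have f4 : (7 * k ≤ 2 * k + 3) ↔ False := iff_of_false (by omega) id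
    apply if_congr _ rfl rfl
    rw [f1, f2, f3, f4]
    simp only [and_false, false_or, and_true]
    rw [and_comm (a := Y = 2 * k + 3), and_comm (a := Y = 4 * k + 3)]
  · rintro ⟨s, h, -⟩
    have := dB_le s
    omega
  · rintro ⟨s, h, -⟩
    have := dB_le s
    omega

end PD

end Pool.Agent.MP42D
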