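import Pool.Agent.MP42.D.Coord
import Pool.Agent.MP42.D.TableP
import Pool.Agent.MP42.A1
import Pool.Agent.MP42.D.LeafE

/-!
# Piece T2a: edge values and the sides of the plates (owner helper83)
-/

set_option autoImplicit false
set_option linter.unusedSectionVars false

namespace Pool.Agent.MP42D

open Pool.Agent.Helper55.UNF Pool.Agent.Helper55.UNF.GridSolid Pool.Agent.MP42G

variable {P : GridSolid}

/-! ### Darts on rings -/

/-- **G**: a ring with east `± x` has a dart -/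
theorem isDart_end1F (s : P.FSt) (h : s.1.e.1 = 0) : MP42.IsDart (end1F s) := by
  have hex : ∃ j : ℕ, MP42.IsDart ((pN.symm ^ j) s) := by
    obtain ⟨q, hq⟩ := exists_wall_S s h
    refine ⟨q, ?_⟩
    have e : (pN.symm ^ q) s = (pN ^ (-(q : ℤ))) s := by
      rw [zpow_neg, zpow_natCast, ← inv_pow]; rfl
    rw [e]
    exact ⟨hq, by rw [pN_e]; exact h⟩
  exact srch_spec hex

/-- the first dart at or to the south of a state -/
noncomputable def dd (s : P.FSt) (h : s.1.e.1 = 0) : MP42.Dart P := ⟨end1F s, isDart_end1F s h⟩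

lemma onD_dd {α : Type*} (a : α) (g : MP42.Dart P → α) (s : P.FSt) (h : s.1.e.1 = 0) :
    onD a g s = g (dd s h) := dif_pos _

lemma symm_pow_r2 (u : P.FSt) (j : ℕ) : (pN.symm ^ j) u.r2 = ((pN ^ j) u).r2 := by
  induction j with
  | zero => rfl
  | succ j ih =>
    rw [pow_succ', pow_succ', Equiv.Perm.mul_apply, Equiv.Perm.mul_apply, ih, pN_symm_apply,
      FSt.r2_r2]
    rfl

lemma srch_r2 (u : P.FSt) : srch pN.symm MP42.IsDart u.r2 = srch pN MP42.IsDart u := by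
  unfold srch
  congr 1
  ext j
  simp only [Set.mem_ofPred_eq]
  rw [symm_pow_r2]
  exact MP42.IsDart_r2 _

lemma exists_dart_N (s : P.FSt) (h : s.1.e.1 = 0) : ∃ j : ℕ, MP42.IsDart ((pN ^ j) s) := by
  obtain ⟨q, hq⟩ := exists_wall_N s h
  exact ⟨q, hq, by rw [pN_e_nat]; exact h⟩

lemma symm_pow_e (s : P.FSt) (j : ℕ) : ((pN.symm ^ j) s).1.e = s.1.e := by
  have e : (pN.symm ^ j) s = (pN ^ (-(j : ℤ))) s := by
    rw [zpow_neg, zpow_natCast, ← inv_pow]; rfl
  rw [e, pN_e]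

lemma ret_end1F (s : P.FSt) (h : s.1.e.1 = 0) :
    MP42.retFun pN MP42.IsDart (end1F s) = MP42.retFun pN MP42.IsDart s := by
  have key : ∀ j : ℕ, j ≤ srch pN.symm MP42.IsDart s →
      MP42.retFun pN MP42.IsDart ((pN.symm ^ j) s) = MP42.retFun pN MP42.IsDart s := by
    intro j
    induction j with
    | zero => intro _; rfl
    | succ j ih =>
      intro hj
      have e1 : pN ((pN.symm ^ (j + 1)) s) = (pN.symm ^ j) s := by
        rw [pow_succ', Equiv.Perm.mul_apply]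
        exact Equiv.apply_symm_apply _ _
      rw [MP42.retFun_step' (by rw [e1]; exact srch_not (by omega))
        (exists_dart_N _ (by rw [symm_pow_e]; exact h)), e1]
      exact ih (by omega)
  exact key _ le_rfl

/-- the other end of the ring segment -/
lemma end1F_N (s : P.FSt) (h : s.1.e.1 = 0) :
    end1F s.stN.r2 = (MP42.theta P (dd s h)).1 := by
  have h1 : end1F s.stN.r2 = (MP42.retFun pN MP42.IsDart s).r2 := by
    unfold end1F
    rw [srch_r2, symm_pow_r2]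
    rfl
  rw [h1, ← ret_end1F s h]
  rfl

lemma e_N {s : P.FSt} (h : s.1.e.1 = 0) : s.stN.r2.1.e.1 = 0 := by
  show (opp s.stN.1.e).1 = 0
  rw [opp_fst, FSt.stN_e]
  exact h

lemma dd_N (s : P.FSt) (h : s.1.e.1 = 0) : dd s.stN.r2 (e_N h) = MP42.theta P (dd s h) :=
  Subtype.ext (end1F_N s h)

/-- south of a plate -/
lemma end1F_S (s : P.FSt) (h : s.1.e.1 = 0) (hd : ¬ MP42.IsDart s) :
    end1F (pN.symm s) = end1F s := by
  have hex : ∃ j : ℕ, MP42.IsDart ((pN.symm ^ j) s) := by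
    obtain ⟨q, hq⟩ := exists_wall_S s h
    refine ⟨q, ?_⟩
    have e : (pN.symm ^ q) s = (pN ^ (-(q : ℤ))) s := by
      rw [zpow_neg, zpow_natCast, ← inv_pow]; rfl
    rw [e]
    exact ⟨hq, by rw [pN_e]; exact h⟩
  unfold end1F
  rw [srch_step hd hex, pow_succ, Equiv.Perm.mul_apply]

/-! ### Corners -/

lemma nw_N (s : P.FSt) : MP42.Geo.nw s.stN.r2.1 = MP42.Geo.ne s.1 := by
  have h1 := MP42.Geo.sw_stepN P s.stN.r2.1 s.stN.r2.2.2
  have h2 : (s.stN.r2.1).stepN P = s.r2.1 := congrArg Subtype.val (FSt.stN_inv s)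
  rw [← h1, h2]
  obtain ⟨⟨c, d, e⟩, hs⟩ := s
  show MP42.Geo.cnr c d (opp (opp e)) (opp (cross d (opp e))) = MP42.Geo.cnr c d e (cross d e)
  rw [opp_opp, cross_opp_right _ _ hs.2, opp_opp]

lemma ne_N (s : P.FSt) : MP42.Geo.ne s.stN.r2.1 = MP42.Geo.nw s.1 := by
  have h1 : MP42.Geo.ne s.stN.r2.1 = MP42.Geo.sw s.stN.1 :=
    MP42.Geo.ne_rot2 s.stN.1 s.stN.2.2
  rw [h1]
  exact MP42.Geo.sw_stepN P s.1 s.2.2

lemma nw_ne_off (s : P.FSt) {a : Fin 3} (h : a ≠ s.1.e.1) :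
    MP42.Geo.nw s.1 a = MP42.Geo.ne s.1 a := by
  unfold MP42.Geo.nw MP42.Geo.ne MP42.Geo.cnr
  simp [h]

lemma r2_n' (s : P.FSt) : s.r2.1.n = opp s.1.n := cross_opp_right _ _ s.2.2

lemma stN_n (s : P.FSt) : s.stN.1.n = s.rL.stE.1.e := cross_opp_cross _ _ s.rL.stE.2.2

lemma n_ne_zero {s : P.FSt} (h : s.1.e.1 = 0) : s.1.n.1 ≠ 0 := by
  have h2 := cross_axis_right _ _ s.2.2
  rw [h] at h2
  exact h2

/-- two plates in a row -/
lemma stN_flat (s : P.FSt) (h : s.1.e.1 = 0) (h1 : s.1.n.1 = 1) (h2 : s.stN.1.n.1 = 1) :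
    s.stN.1.n = s.1.n := by
  have a1 : ∀ d e : Dir, d.1 ≠ e.1 → e.1 = 0 → (cross d e).1 = 1 → d.1 = 2 := by decide
  have d1 : s.1.d.1 = 2 := a1 _ _ s.2.2 h h1
  have e2 : s.stN.1.e.1 = 0 := by rw [FSt.stN_e]; exact h
  have d2 : s.stN.1.d.1 = 2 := a1 _ _ s.stN.2.2 e2 h2
  rw [stN_n]
  have h3 := MP42.Geo.stepE_flat_of_axis (P := P) s.rL.1 s.rL.2.2 (by
    show s.stN.1.d.1 = s.1.d.1
    rw [d1, d2])
  exact h3.2.1

lemma isUp_N (s : P.FSt) (h : s.1.e.1 = 0) : isUp s.stN.r2 = isDn s := by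
  have key : ∀ p q : Dir, p.1 ≠ 0 → q.1 ≠ 0 → (p.1 = 1 → q.1 = 1 → q = p) →
      decide (opp q = (1, true) ∨ ((opp q).1 = 2 ∧ opp p = (1, true))) =
      decide (p = (1, false) ∨ (p.1 = 2 ∧ q = (1, false))) := by decide
  unfold isUp isDn
  rw [r2_n', FSt.stN_inv, r2_n']
  exact key _ _ (n_ne_zero h) (n_ne_zero (by rw [FSt.stN_e]; exact h)) (stN_flat s h)

lemma isDn_N (s : P.FSt) (h : s.1.e.1 = 0) : isDn s.stN.r2 = isUp s := by
  have h1 := isUp_N s.stN.r2 (e_N h)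
  rw [FSt.stN_inv, FSt.r2_r2] at h1
  exact h1.symm

/-! ### The common form of the values on the sides with east `± x` -/

open Classical in
/-- the values on a side: lanes at the west end, at the east end, root lanes, tracks -/
noncomputable def F7 (k : ℕ) (w1 w2 w3 w4 r1 r2 : Bool) (T : Prop) (X : ℕ) : El :=
  if X = 2 * k + 3 ∧ w1 = true then El.n
  else if X = 2 * k + 5 ∧ w2 = true then El.s
  else if X + 4 = 5 * k ∧ w3 = true then El.n
  else if X + 6 = 5 * k ∧ w4 = true then El.s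
  else if (X = 3 * k + 3 ∧ r1 = true) ∨ (X + 4 = 4 * k ∧ r2 = true) then El.n
  else if T then El.e
  else El.o

lemma F7_T {k : ℕ} (hk : 62 ≤ k) {w1 w2 w3 w4 r1 r2 : Bool} {T : Prop} {X : ℕ} (hT : T)
    (hX : X ≤ 5 ∨ 7 * k ≤ X + 6) : F7 k w1 w2 w3 w4 r1 r2 T X = El.e := by
  unfold F7
  rw [if_neg (by omega), if_neg (by omega), if_neg (by omega), if_neg (by omega),
    if_neg (by omega), if_pos hT]

lemma F7_ne {k : ℕ} {w1 w2 w3 w4 r1 r2 : Bool} {T : Prop} {X : ℕ} (hT : ¬ T) :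
    F7 k w1 w2 w3 w4 r1 r2 T X ≠ El.e := by
  unfold F7
  rw [if_neg hT]
  split_ifs <;> decide

lemma F7_congr {k : ℕ} {w1 w2 w3 w4 r1 r2 w1' w2' w3' w4' r1' r2' : Bool} {T T' : Prop} {X : ℕ}
    (h1 : w1 = w1') (h2 : w2 = w2') (h3 : w3 = w3') (h4 : w4 = w4') (h5 : r1 = r1')
    (h6 : r2 = r2') (hT : T ↔ T') :
    F7 k w1 w2 w3 w4 r1 r2 T X = F7 k w1' w2' w3' w4' r1' r2' T' X := by
  subst h1 h2 h3 h4 h5 h6
  rw [propext hT]

lemma F7_symm {k : ℕ} (hk : 62 ≤ k) (w1 w2 w3 w4 r1 r2 : Bool) {T : Prop} {X : ℕ}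
    (hX : X < 7 * k) :
    F7 k w1 w2 w3 w4 r1 r2 T (7 * k - 1 - X) = F7 k w3 w4 w1 w2 r2 r1 T X := by
  unfold F7
  have a1 : (7 * k - 1 - X = 2 * k + 3) ↔ (X + 4 = 5 * k) := by omega
  have a2 : (7 * k - 1 - X = 2 * k + 5) ↔ (X + 6 = 5 * k) := by omega
  have a3 : (7 * k - 1 - X + 4 = 5 * k) ↔ (X = 2 * k + 3) := by omega
  have a4 : (7 * k - 1 - X + 6 = 5 * k) ↔ (X = 2 * k + 5) := by omega
  have a5 : (7 * k - 1 - X = 3 * k + 3) ↔ (X + 4 = 4 * k) := by omega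
  have a6 : (7 * k - 1 - X + 4 = 4 * k) ↔ (X = 3 * k + 3) := by omega
  simp only [a1, a2, a3, a4, a5, a6]
  by_cases p1 : X + 4 = 5 * k
  · have q1 : ¬ (X = 2 * k + 3) := by omega
    have q2 : ¬ (X = 2 * k + 5) := by omega
    have q3 : ¬ (X + 6 = 5 * k) := by omega
    have q4 : ¬ (X = 3 * k + 3) := by omega
    have q5 : ¬ (X + 4 = 4 * k) := by omega
    simp only [p1, q1, q2, q3, q4, q5, false_and, if_false, false_or, or_false]
  · by_cases p2 : X + 6 = 5 * k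
    · have q1 : ¬ (X = 2 * k + 3) := by omega
      have q2 : ¬ (X = 2 * k + 5) := by omega
      have q4 : ¬ (X = 3 * k + 3) := by omega
      have q5 : ¬ (X + 4 = 4 * k) := by omega
      simp only [p1, p2, q1, q2, q4, q5, false_and, if_false, false_or, or_false]
    · simp only [p1, p2, false_and, if_false]
      by_cases p3 : X = 2 * k + 3
      · have q2 : ¬ (X = 2 * k + 5) := by omega
        have q4 : ¬ (X = 3 * k + 3) := by omega
        have q5 : ¬ (X + 4 = 4 * k) := by omega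
        simp only [q2, q4, q5, false_and, if_false, false_or, or_false]
      · by_cases p4 : X = 2 * k + 5
        · have q4 : ¬ (X = 3 * k + 3) := by omega
          have q5 : ¬ (X + 4 = 4 * k) := by omega
          simp only [p3, q4, q5, false_and, if_false, false_or, or_false]
        · simp only [p3, p4, false_and, if_false]
          exact if_congr or_comm rfl rfl

namespace Deco0

variable (D : Deco0 P)

lemma ev_y (k : ℕ) (s : P.FSt) (he : s.1.e.1 = 1) (X : ℕ) :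
    D.ev k s X = (D.Kw s).kl k (sgY s) (if s.1.e.2 then X else 7 * k - 1 - X) := by
  unfold ev
  rw [if_pos he]

lemma ev_x (k : ℕ) (s : P.FSt) (he : s.1.e.1 = 0) (X : ℕ) :
    D.ev k s X = F7 k (D.wN s) (D.wS s) (D.eN s) (D.eS s) (D.rt1 s) (D.rt2 s)
      (D.wT s X ∨ D.eT k s X) X := by
  unfold ev F7
  rw [if_neg (by rw [he]; decide)]
  congr

lemma NLW_N (s : P.FSt) (h : s.1.e.1 = 0) : D.NLW s.stN.r2 = D.NLE s := by
  unfold NLW NLE
  rw [onD_dd _ _ _ (e_N h), onD_dd _ _ _ h, dd_N s h]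

lemma SLW_N (s : P.FSt) (h : s.1.e.1 = 0) : D.SLW s.stN.r2 = D.SLE s := by
  unfold SLW SLE
  rw [onD_dd _ _ _ (e_N h), onD_dd _ _ _ h, dd_N s h]

lemma NLE_N (s : P.FSt) (h : s.1.e.1 = 0) : D.NLE s.stN.r2 = D.NLW s := by
  unfold NLW NLE
  rw [onD_dd _ _ _ (e_N h), onD_dd _ _ _ h, dd_N s h, MP42.theta_theta]

lemma SLE_N (s : P.FSt) (h : s.1.e.1 = 0) : D.SLE s.stN.r2 = D.SLW s := by
  unfold SLW SLE
  rw [onD_dd _ _ _ (e_N h), onD_dd _ _ _ h, dd_N s h, MP42.theta_theta]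

lemma rt1_N (s : P.FSt) (h : s.1.e.1 = 0) : D.rt1 s.stN.r2 = D.rt2 s := by
  unfold rt1 rt2
  rw [onD_dd _ _ _ (e_N h), onD_dd _ _ _ h, dd_N s h, MP42.theta_theta]
  simp only [Equiv.Perm.sameCycle_comm]

lemma rt2_N (s : P.FSt) (h : s.1.e.1 = 0) : D.rt2 s.stN.r2 = D.rt1 s := by
  unfold rt1 rt2
  rw [onD_dd _ _ _ (e_N h), onD_dd _ _ _ h, dd_N s h, MP42.theta_theta]
  simp only [Equiv.Perm.sameCycle_comm]

lemma Kw_N (s : P.FSt) : D.Kw s.stN.r2 = D.Ke s := by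
  unfold Kw Ke
  rw [nw_N]

lemma Ke_N (s : P.FSt) : D.Ke s.stN.r2 = D.Kw s := by
  unfold Kw Ke
  rw [ne_N]

lemma wN_N (s : P.FSt) (h : s.1.e.1 = 0) : D.wN s.stN.r2 = D.eN s := by
  unfold wN eN
  rw [D.NLW_N s h, isUp_N s h, isDn_N s h, D.Kw_N, nw_N]
  cases D.NLE s <;> cases isUp s <;> cases isDn s <;> simp [Bool.or_comm]

lemma wS_N (s : P.FSt) (h : s.1.e.1 = 0) : D.wS s.stN.r2 = D.eS s := by
  unfold wS eS
  rw [D.SLW_N s h, isUp_N s h, isDn_N s h, D.Kw_N, nw_N]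
  cases D.SLE s <;> cases isUp s <;> cases isDn s <;> simp [Bool.or_comm]

lemma eN_N (s : P.FSt) (h : s.1.e.1 = 0) : D.eN s.stN.r2 = D.wN s := by
  have h1 := D.wN_N s.stN.r2 (e_N h)
  rw [FSt.stN_inv, FSt.r2_r2] at h1
  exact h1.symm

lemma eS_N (s : P.FSt) (h : s.1.e.1 = 0) : D.eS s.stN.r2 = D.wS s := by
  have h1 := D.wS_N s.stN.r2 (e_N h)
  rw [FSt.stN_inv, FSt.r2_r2] at h1
  exact h1.symm

lemma wT_N (k : ℕ) (s : P.FSt) (h : s.1.e.1 = 0) {X : ℕ} (hX : X < 7 * k) :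
    D.wT s.stN.r2 (7 * k - 1 - X) ↔ D.eT k s X := by
  unfold wT eT
  rw [isUp_N s h, isDn_N s h, D.Kw_N, nw_N]
  apply exists_congr
  intro q
  have a1 : (7 * k - 1 - X = dB q) ↔ (X + 1 + dB q = 7 * k) := by omega
  have a2 : (7 * k - 1 - X = dA q) ↔ (X + 1 + dA q = 7 * k) := by omega
  rw [a1, a2]
  exact or_comm

lemma eT_N (k : ℕ) (s : P.FSt) (h : s.1.e.1 = 0) {X : ℕ} (hX : X < 7 * k) :
    D.eT k s.stN.r2 (7 * k - 1 - X) ↔ D.wT s X := by
  have h1 := D.wT_N k s.stN.r2 (e_N h) (X := 7 * k - 1 - X) (by omega)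
  rw [FSt.stN_inv, FSt.r2_r2, show 7 * k - 1 - (7 * k - 1 - X) = X by omega] at h1
  exact h1.symm

/-- the two descriptions of the value of an edge agree -/
theorem ev_symm0 {k : ℕ} (hk : 62 ≤ k) (s : P.FSt)
    (he : s.1.e.1 ≠ 2) {X : ℕ} (hX : X < 7 * k) : D.ev k s.stN.r2 (7 * k - 1 - X) = D.ev k s X := by
  have h3 : ∀ a : Fin 3, a ≠ 2 → a = 0 ∨ a = 1 := by decide
  rcases h3 _ he with h | h
  · rw [D.ev_x k _ (e_N h), D.ev_x k _ h, F7_symm hk _ _ _ _ _ _ hX]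
    exact F7_congr (D.eN_N s h) (D.eS_N s h) (D.wN_N s h) (D.wS_N s h) (D.rt2_N s h)
      (D.rt1_N s h) (by rw [D.wT_N k s h hX, D.eT_N k s h hX]; exact or_comm)
  · have e1 : s.stN.r2.1.e = opp s.1.e := by
      show opp s.stN.1.e = _
      rw [FSt.stN_e]
    rw [D.ev_y k _ (by rw [e1, opp_fst]; exact h), D.ev_y k _ h]
    have e2 : D.Kw s.stN.r2 = D.Kw s := by
      rw [D.Kw_N]
      unfold Ke Kw
      rw [nw_ne_off s (by rw [h]; decide), nw_ne_off s (by rw [h]; decide)]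
    have e3 : sgY s.stN.r2 = sgY s := by
      unfold sgY
      rw [e1, nw_N, ne_N]
      cases hb : s.1.e.2 <;> simp [opp, hb]
    rw [e2, e3, e1]
    congr 1
    cases hb : s.1.e.2 <;> simp [opp, hb]
    omega

end Deco0


/-! ### Plates -/

lemma plate_e : ∀ d e : Dir, d.1 = 2 → d.1 ≠ e.1 → cross d e = (1, true) → e = (0, d.2) := by decide

/-- **G**: the bits at the west side and at the east side of a plate -/
theorem plate_bits (hM : P.IsManifold) (t : P.FSt) (hd : t.1.d.1 = 2) (hn : t.1.n = (1, true)) :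
    onP P (MP42.Geo.nw t.1 0) (t.1.c 1) (MP42.Geo.nw t.1 2) = true ∧
    bwP P (MP42.Geo.nw t.1 0) (t.1.c 1) (MP42.Geo.nw t.1 2) = false ∧
    onP P (MP42.Geo.ne t.1 0) (t.1.c 1) (MP42.Geo.ne t.1 2) = true ∧
    awP P (MP42.Geo.ne t.1 0) (t.1.c 1) (MP42.Geo.ne t.1 2) = false := by
  obtain ⟨⟨c, ⟨d, ds⟩, e⟩, ⟨hc, hc'⟩, hde⟩ := t
  simp only at hd hc hc' hde
  have he := plate_e _ _ hd hde hn
  subst hd
  simp only at he
  subst he
  rw [shift_z] at hc'
  rw [cell3 c] at hc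
  have hn1 : cross (2, ds) (0, ds) = (1, true) := hn
  simp only [MP42.Geo.nw, MP42.Geo.ne, hn1, opp, MP42.Geo.cnr]
  cases ds
  · simp at hc hc' ⊢
    have e1 : bit P (c 0 + 1) (c 1) (c 2) false true = true := by
      unfold bit; simpa using hc
    have e2 : bit P (c 0 + 1) (c 1) (c 2) false false = false := by
      unfold bit; simpa [sub_eq_add_neg] using hc'
    have e3 : bit P (c 0) (c 1) (c 2) true true = true := by
      unfold bit; simpa using hc
    have e4 : bit P (c 0) (c 1) (c 2) true false = false := by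
      unfold bit; simpa [sub_eq_add_neg] using hc'
    unfold onP bwP awP MP42.Geo.onB
    rw [e1, e2, e3, e4]
    cases bit P (c 0) (c 1) (c 2) false false <;> cases bit P (c 0) (c 1) (c 2) false true <;>
      cases bit P (c 0 + 1) (c 1) (c 2) true false <;>
      cases bit P (c 0 + 1) (c 1) (c 2) true true <;> simp
  · simp at hc hc' ⊢
    have e1 : bit P (c 0) (c 1) (c 2 + 1) true false = true := by
      unfold bit; simpa using hc
    have e2 : bit P (c 0) (c 1) (c 2 + 1) true true = false := by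
      unfold bit; simpa [sub_eq_add_neg] using hc'
    have e3 : bit P (c 0 + 1) (c 1) (c 2 + 1) false false = true := by
      unfold bit; simpa using hc
    have e4 : bit P (c 0 + 1) (c 1) (c 2 + 1) false true = false := by
      unfold bit; simpa [sub_eq_add_neg] using hc'
    unfold onP bwP awP MP42.Geo.onB
    rw [e1, e2, e3, e4]
    cases bit P (c 0) (c 1) (c 2 + 1) false false <;>
      cases bit P (c 0) (c 1) (c 2 + 1) false true <;>
      cases bit P (c 0 + 1) (c 1) (c 2 + 1) true false <;>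
      cases bit P (c 0 + 1) (c 1) (c 2 + 1) true true <;> simp

lemma nw_plate (t : P.FSt) (hd : t.1.d.1 = 2) (hn : t.1.n = (1, true)) :
    MP42.Geo.nw t.1 1 = t.1.c 1 + 1 ∧ MP42.Geo.ne t.1 1 = t.1.c 1 + 1 := by
  have he := plate_e _ _ hd t.2.2 hn
  have hn1 : cross t.1.d t.1.e = (1, true) := hn
  simp only [MP42.Geo.nw, MP42.Geo.ne, hn1, opp, MP42.Geo.cnr]
  simp

lemma isUp_plate (t : P.FSt) (hn : t.1.n = (1, true)) : isUp t = true := by
  unfold isUp
  rw [hn]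
  simp

lemma isDn_plate (t : P.FSt) (hn : t.1.n = (1, true)) : isDn t = false := by
  unfold isDn
  rw [hn]
  simp

lemma isUp_plate_r2 (t : P.FSt) (hn : t.1.n = (1, true)) : isUp t.r2 = false := by
  unfold isUp
  rw [r2_n', hn]
  simp [opp]

lemma isDn_plate_r2 (t : P.FSt) (hn : t.1.n = (1, true)) : isDn t.r2 = true := by
  unfold isDn
  rw [r2_n', hn]
  simp [opp]

/-- the corners of the reversed plate -/
lemma plate_r2 (t : P.FSt) (hd : t.1.d.1 = 2) (hn : t.1.n = (1, true)) :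
    MP42.Geo.nw t.r2.1 = ![MP42.Geo.ne t.1 0, t.1.c 1, MP42.Geo.ne t.1 2] ∧
    MP42.Geo.ne t.r2.1 = ![MP42.Geo.nw t.1 0, t.1.c 1, MP42.Geo.nw t.1 2] := by
  obtain ⟨⟨c, ⟨d, ds⟩, e⟩, ⟨hc, hc'⟩, hde⟩ := t
  simp only at hd hc hc' hde
  have he := plate_e _ _ hd hde hn
  subst hd
  simp only at he
  subst he
  have hn1 : cross (2, ds) (0, ds) = (1, true) := hn
  have hn2 : cross (2, ds) (0, !ds) = (1, false) := by
    clear hn1 hn hde hc'; revert ds; decide
  constructor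
  · show MP42.Geo.cnr c (2, ds) (opp (opp (0, ds))) (cross (2, ds) (opp (0, ds))) = _
    funext a
    simp only [MP42.Geo.nw, MP42.Geo.ne, hn1, hn2, opp, MP42.Geo.cnr]
    fin_cases a <;> simp
  · show MP42.Geo.cnr c (2, ds) (opp (0, ds)) (cross (2, ds) (opp (0, ds))) = _
    funext a
    simp only [MP42.Geo.nw, MP42.Geo.ne, hn1, hn2, opp, MP42.Geo.cnr]
    fin_cases a <;> simp

/-- the corners of the plate turned to the west and to the east -/
lemma plate_rLR (t : P.FSt) (hd : t.1.d.1 = 2) (hn : t.1.n = (1, true)) :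
    MP42.Geo.nw t.rL.1 = ![MP42.Geo.nw t.1 0, t.1.c 1, MP42.Geo.nw t.1 2] ∧
    MP42.Geo.ne t.rR.1 = ![MP42.Geo.ne t.1 0, t.1.c 1, MP42.Geo.ne t.1 2] ∧
    MP42.Geo.nw t.rR.1 = ![MP42.Geo.ne t.1 0, t.1.c 1 + 1, MP42.Geo.ne t.1 2] := by
  obtain ⟨⟨c, ⟨d, ds⟩, e⟩, ⟨hc, hc'⟩, hde⟩ := t
  simp only at hd hc hc' hde
  have he := plate_e _ _ hd hde hn
  subst hd
  simp only at he
  subst he
  have hn1 : cross (2, ds) (0, ds) = (1, true) := hn
  have hn2 : cross (2, ds) (1, true) = (0, !ds) := by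
    clear hn1 hn hde hc'; revert ds; decide
  have hn3 : cross (2, ds) (1, false) = (0, ds) := by
    clear hn2 hn1 hn hde hc'; revert ds; decide
  refine ⟨?_, ?_, ?_⟩
  · show MP42.Geo.cnr c (2, ds) (opp (cross (2, ds) (0, ds)))
      (cross (2, ds) (cross (2, ds) (0, ds))) = _
    funext a
    simp only [MP42.Geo.nw, MP42.Geo.ne, hn1, hn2, opp, MP42.Geo.cnr]
    fin_cases a <;> simp
  · show MP42.Geo.cnr c (2, ds) (opp (cross (2, ds) (0, ds)))
      (cross (2, ds) (opp (cross (2, ds) (0, ds)))) = _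
    funext a
    simp only [MP42.Geo.nw, MP42.Geo.ne, hn1, hn3, opp, MP42.Geo.cnr, Bool.not_true]
    fin_cases a <;> simp
  · show MP42.Geo.cnr c (2, ds) (opp (opp (cross (2, ds) (0, ds))))
      (cross (2, ds) (opp (cross (2, ds) (0, ds)))) = _
    funext a
    simp only [MP42.Geo.nw, MP42.Geo.ne, hn1, hn3, opp, MP42.Geo.cnr, Bool.not_true]
    fin_cases a <;> simp

/-! ### The tables of the plates -/

open Classical in
/-- the values of the edges parallel to the `x`-axis in the common form -/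
lemma Hv_eq {τ : Type*} (D : PD τ) {k : ℕ} (hk : 62 ≤ k) (X Y : ℕ) :
    D.Hv k X Y = F7 k (D.nW || D.KW.gN D.y || (D.KW.vl D.y && decide (4 * k + 3 < Y)))
      (D.sW || D.KW.fS (D.y + 1) || (D.KW.bp D.y && decide (Y ≤ 2 * k + 3)))
      (D.nE || D.KE.fN (D.y + 1) || (D.KE.bp D.y && decide (Y ≤ 2 * k + 3)))
      (D.sE || D.KE.gS D.y || (D.KE.vl D.y && decide (4 * k + 3 < Y))) D.r1 D.r2
      ((X < k ∧ ∃ s : Fin 4, X = dB s ∧ D.KW.lnB k s D.y Y = true) ∨
        (6 * k ≤ X ∧ ∃ s : Fin 4, X + 1 + dA s = 7 * k ∧ D.KE.lnA k s D.y Y = true)) X := by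
  by_cases h1 : X < k ∧ ∃ s : Fin 4, X = dB s ∧ D.KW.lnB k s D.y Y = true
  · rw [F7_T hk (Or.inl h1)]
    · unfold PD.Hv
      rw [if_pos h1]
    · obtain ⟨-, s, h2, -⟩ := h1
      have := dB_le s
      omega
  · by_cases h2 : 6 * k ≤ X ∧ ∃ s : Fin 4, X + 1 + dA s = 7 * k ∧ D.KE.lnA k s D.y Y = true
    · rw [F7_T hk (Or.inr h2)]
      · unfold PD.Hv
        rw [if_neg h1, if_pos h2]
      · obtain ⟨-, s, h3, -⟩ := h2
        have := dA_le s
        omega
    · have h3 : ¬ ((X < k ∧ ∃ s : Fin 4, X = dB s ∧ D.KW.lnB k s D.y Y = true) ∨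
        (6 * k ≤ X ∧ ∃ s : Fin 4, X + 1 + dA s = 7 * k ∧ D.KE.lnA k s D.y Y = true)) := by
        rintro (h | h)
        · exact h1 h
        · exact h2 h
      unfold PD.Hv F7
      rw [if_neg h1, if_neg h2, if_neg h3]
      simp only [Bool.or_eq_true, Bool.and_eq_true, decide_eq_true_eq, or_assoc]

lemma lnB_top {τ : Type*} (K : KD τ) {k : ℕ} (hk : 62 ≤ k) (s : Fin 4) (y : ℤ) :
    K.lnB k s y (7 * k) = (K.V s (y + 1) && !K.st (y + 1)) := by
  unfold KD.lnB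
  have h1 := nC_le s
  have h2 := sC_le s
  rw [if_neg (by omega), if_neg (by omega),
    decide_eq_false (show ¬ 7 * k ≤ 6 * k + nC s by omega),
    decide_eq_true (show 6 * k + sC s < 7 * k by omega)]
  have h3 : K.aB s y 6 = (K.V s (y + 1) && !K.st (y + 1)) := rfl
  rw [← h3]
  cases K.bB s y 6 <;> cases K.aB s y 6 <;> rfl

lemma lnA_top {τ : Type*} (K : KD τ) {k : ℕ} (hk : 62 ≤ k) (s : Fin 4) (y : ℤ) :
    K.lnA k s y (7 * k) = (K.V s (y + 1) && K.st (y + 1)) := by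
  unfold KD.lnA
  have h1 := nC_le s
  have h2 := sC_le s
  rw [if_neg (by omega), if_neg (by omega),
    decide_eq_false (show ¬ 7 * k ≤ 6 * k + sC s by omega),
    decide_eq_true (show 6 * k + nC s < 7 * k by omega)]
  have h3 : K.aA s y 6 = (K.V s (y + 1) && K.st (y + 1)) := rfl
  rw [← h3]
  cases K.bA s y 6 <;> cases K.aA s y 6 <;> rfl

lemma lnB_bot {τ : Type*} (K : KD τ) {k : ℕ} (hk : 62 ≤ k) (s : Fin 4) (y : ℤ) :
    K.lnB k s y 0 = (K.V s y && !K.st y) := by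
  unfold KD.lnB
  rw [if_pos (by omega), decide_eq_true (show 0 ≤ nC s by omega),
    decide_eq_false (show ¬ sC s < 0 by omega)]
  have h3 : K.bB s y 0 = (K.V s y && !K.st y) := rfl
  rw [← h3]
  cases K.bB s y 0 <;> cases K.aB s y 0 <;> rfl

lemma lnA_bot {τ : Type*} (K : KD τ) {k : ℕ} (hk : 62 ≤ k) (s : Fin 4) (y : ℤ) :
    K.lnA k s y 0 = (K.V s y && K.st y) := by
  unfold KD.lnA
  rw [if_pos (by omega), decide_eq_true (show 0 ≤ sC s by omega),
    decide_eq_false (show ¬ nC s < 0 by omega)]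
  have h3 : K.bA s y 0 = (K.V s y && K.st y) := rfl
  rw [← h3]
  cases K.bA s y 0 <;> cases K.aA s y 0 <;> rfl

namespace Deco

variable (D : Deco P)

/-- **G**: plates -/
theorem pd_ok (hM : P.IsManifold) (F : P.Facet) (hF : IsPl F) :
    (D.pd (bf F)).Ok (fun y => onP P (MP42.Geo.nw (bf F).1 0) y (MP42.Geo.nw (bf F).1 2))
      (fun y => onP P (MP42.Geo.ne (bf F).1 0) y (MP42.Geo.ne (bf F).1 2)) := by
  have hd : (bf F).1.d.1 = 2 := hF
  have hn : (bf F).1.n = (1, true) := Deco0.e_aux1 _ hF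
  obtain ⟨b1, b2, b3, b4⟩ := plate_bits hM (bf F) hd hn
  exact
    { W := D.ok _ _
      E := D.ok _ _
      oW := b1
      oE := b3
      bw := (D.bw_eq _ _ _).trans b2
      aw := (D.aw_eq _ _ _).trans b4
      bpW := (D.plB _ hd hn).1
      vlW := (D.plB _ hd hn).2
      bpE := (D.plA _ hd hn).1
      vlE := (D.plA _ hd hn).2 }

/-- **T2a**: the two descriptions of the value of an edge agree -/
theorem ev_symm (hM : P.IsManifold) (h3 : MP42.Deg3 P) {k : ℕ} (hk : 62 ≤ k) (s : P.FSt)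
    (he : s.1.e.1 ≠ 2) {X : ℕ} (hX : X < 7 * k) :
    D.ev k s.stN.r2 (7 * k - 1 - X) = D.ev k s X :=
  D.toDeco0.ev_symm0 hk s he hX

lemma bf_e0 (F : P.Facet) (hF : IsPl F) : (bf F).1.e.1 = 0 := by
  have : ∀ d : Dir, d.1 = 2 → (bfE d).1 = 0 := by decide
  exact this _ hF

/-- **T2a**: the sides of the table of a plate -/
theorem side_N (hM : P.IsManifold) (h3 : MP42.Deg3 P) {k : ℕ} (hk : 62 ≤ k) (F : P.Facet)
    (hF : IsPl F) {X : ℕ} (hX : X < 7 * k) :
    (D.pd (bf F)).Hv k X (7 * k) = D.ev k (bf F) X := by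
  have hd : (bf F).1.d.1 = 2 := hF
  have hn : (bf F).1.n = (1, true) := Deco0.e_aux1 _ hF
  obtain ⟨p1, p2⟩ := nw_plate _ hd hn
  have hu := isUp_plate _ hn
  have hv := isDn_plate _ hn
  have ok := D.pd_ok hM F hF
  have q1 := ok.W.gN_st _ ok.oW ok.bw
  have q2 := ok.E.gS_st _ ok.oE ok.aw
  have e1 : (D.pd (bf F)).y = (bf F).1.c 1 := rfl
  have e2 : (D.pd (bf F)).KW = D.Kw (bf F) := rfl
  have e3 : (D.pd (bf F)).KE = D.Ke (bf F) := rfl
  rw [e1, e2] at q1
  rw [e1, e3] at q2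
  rw [Hv_eq _ hk, D.ev_x k _ (bf_e0 F hF)]
  rw [e1, e2, e3]
  generalize (bf F) = t at *
  apply F7_congr
  · unfold Deco0.wN
    rw [hu, hv, p1, q1, decide_eq_true (show 4 * k + 3 < 7 * k by omega)]
    show (D.NLW t || _ || _) = _
    cases D.NLW t <;> simp
  · unfold Deco0.wS
    rw [hu, hv, p1, decide_eq_false (show ¬ 7 * k ≤ 2 * k + 3 by omega)]
    show (D.SLW t || _ || _) = _
    cases D.SLW t <;> simp
  · unfold Deco0.eN
    rw [hu, hv, p2, decide_eq_false (show ¬ 7 * k ≤ 2 * k + 3 by omega)]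
    show (D.NLE t || _ || _) = _
    cases D.NLE t <;> simp
  · unfold Deco0.eS
    rw [hu, hv, p2, q2, decide_eq_true (show 4 * k + 3 < 7 * k by omega)]
    show (D.SLE t || _ || _) = _
    cases D.SLE t <;> simp
  · rfl
  · rfl
  · unfold Deco0.wT Deco0.eT
    rw [hu, hv, p1, p2]
    simp only [lnB_top _ hk, lnA_top _ hk, Bool.and_eq_true, Bool.not_eq_true', true_and,
      Bool.false_eq_true, false_and, or_false]
    apply or_congr
    · constructor
      · rintro ⟨-, s, h1, h2⟩; exact ⟨s, h1, h2⟩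
      · rintro ⟨s, h1, h2⟩
        have := dB_le s
        exact ⟨by omega, s, h1, h2⟩
    · constructor
      · rintro ⟨-, s, h1, h2⟩; exact ⟨s, h1, h2⟩
      · rintro ⟨s, h1, h2⟩
        have := dA_le s
        exact ⟨by omega, s, h1, h2⟩

/-- the full lanes of the reversed plate -/
lemma r2_onD (t : P.FSt) (h : t.1.e.1 = 0) (hd : t.1.d.1 = 2) :
    ∃ s : P.FSt, ∃ hs : s.1.e.1 = 0, s.stN.r2 = t.r2 ∧ dd s hs = dd t h := by
  have hnd : ¬ MP42.IsDart t := by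
    rintro ⟨h1, -⟩
    rw [hd] at h1
    exact absurd h1 (by decide)
  refine ⟨pN.symm t, ?_, ?_, Subtype.ext (end1F_S t h hnd)⟩
  · have := symm_pow_e t 1
    rw [pow_one] at this
    rw [this]
    exact h
  · have : (pN.symm t).stN = t := Equiv.apply_symm_apply (pN : Equiv.Perm P.FSt) t
    rw [this]

theorem side_S (hM : P.IsManifold) (h3 : MP42.Deg3 P) {k : ℕ} (hk : 62 ≤ k) (F : P.Facet)
    (hF : IsPl F) {X : ℕ} (hX : X < 7 * k) :
    (D.pd (bf F)).Hv k X 0 = D.ev k (bf F).r2 (7 * k - 1 - X) := by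
  have hd : (bf F).1.d.1 = 2 := hF
  have hn : (bf F).1.n = (1, true) := Deco0.e_aux1 _ hF
  obtain ⟨p1, p2⟩ := plate_r2 _ hd hn
  have hu := isUp_plate_r2 _ hn
  have hv := isDn_plate_r2 _ hn
  have ok := D.pd_ok hM F hF
  have q1 := ok.W.fS_st _ ok.oW ok.bw
  have q2 := ok.E.fN_st _ ok.oE ok.aw
  have e1 : (D.pd (bf F)).y = (bf F).1.c 1 := rfl
  have e2 : (D.pd (bf F)).KW = D.Kw (bf F) := rfl
  have e3 : (D.pd (bf F)).KE = D.Ke (bf F) := rfl
  rw [e1, e2] at q1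
  rw [e1, e3] at q2
  have he := bf_e0 F hF
  have he2 : (bf F).r2.1.e.1 = 0 := by
    show (opp (bf F).1.e).1 = 0
    rw [opp_fst]
    exact he
  rw [Hv_eq _ hk, D.ev_x k _ he2, F7_symm hk _ _ _ _ _ _ hX]
  rw [e1, e2, e3]
  obtain ⟨s, hs, r1, r2⟩ := r2_onD _ he hd
  have n1 : D.NLW (bf F).r2 = D.NLE (bf F) := by
    rw [← r1, D.NLW_N s hs]
    unfold Deco0.NLE
    rw [onD_dd _ _ _ hs, onD_dd _ _ _ he, r2]
  have n2 : D.SLW (bf F).r2 = D.SLE (bf F) := by
    rw [← r1, D.SLW_N s hs]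
    unfold Deco0.SLE
    rw [onD_dd _ _ _ hs, onD_dd _ _ _ he, r2]
  have n3 : D.NLE (bf F).r2 = D.NLW (bf F) := by
    rw [← r1, D.NLE_N s hs]
    unfold Deco0.NLW
    rw [onD_dd _ _ _ hs, onD_dd _ _ _ he, r2]
  have n4 : D.SLE (bf F).r2 = D.SLW (bf F) := by
    rw [← r1, D.SLE_N s hs]
    unfold Deco0.SLW
    rw [onD_dd _ _ _ hs, onD_dd _ _ _ he, r2]
  have n5 : D.rt1 (bf F).r2 = D.rt2 (bf F) := by
    rw [← r1, D.rt1_N s hs]
    unfold Deco0.rt2
    rw [onD_dd _ _ _ hs, onD_dd _ _ _ he, r2]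
  have n6 : D.rt2 (bf F).r2 = D.rt1 (bf F) := by
    rw [← r1, D.rt2_N s hs]
    unfold Deco0.rt1
    rw [onD_dd _ _ _ hs, onD_dd _ _ _ he, r2]
  have k1 : D.Kw (bf F).r2 = D.Ke (bf F) := by
    unfold Deco0.Kw Deco0.Ke
    rw [p1]
    rfl
  have k2 : D.Ke (bf F).r2 = D.Kw (bf F) := by
    unfold Deco0.Kw Deco0.Ke
    rw [p2]
    rfl
  have y1 : MP42.Geo.nw (bf F).r2.1 1 = (bf F).1.c 1 := by rw [p1]; rfl
  have y2 : MP42.Geo.ne (bf F).r2.1 1 = (bf F).1.c 1 := by rw [p2]; rfl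
  generalize (bf F) = t at *
  apply F7_congr
  · unfold Deco0.eN
    rw [hu, hv, k2, y2, n3, decide_eq_false (show ¬ 4 * k + 3 < 0 by omega)]
    show (D.NLW t || _ || _) = _
    cases D.NLW t <;> simp
  · unfold Deco0.eS
    rw [hu, hv, k2, y2, n4, q1, decide_eq_true (show 0 ≤ 2 * k + 3 by omega)]
    show (D.SLW t || _ || _) = _
    cases D.SLW t <;> simp
  · unfold Deco0.wN
    rw [hu, hv, k1, y1, n1, q2, decide_eq_true (show 0 ≤ 2 * k + 3 by omega)]
    show (D.NLE t || _ || _) = _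
    cases D.NLE t <;> simp
  · unfold Deco0.wS
    rw [hu, hv, k1, y1, n2, decide_eq_false (show ¬ 4 * k + 3 < 0 by omega)]
    show (D.SLE t || _ || _) = _
    cases D.SLE t <;> simp
  · rw [n6]; rfl
  · rw [n5]; rfl
  · unfold Deco0.wT Deco0.eT
    rw [hu, hv, y1, y2, k1, k2]
    simp only [lnB_bot _ hk, lnA_bot _ hk, Bool.and_eq_true, Bool.not_eq_true', true_and,
      Bool.false_eq_true, false_and, false_or]
    rw [or_comm]
    apply or_congr
    · constructor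
      · rintro ⟨-, s, h1, h2⟩; exact ⟨s, by omega, h2⟩
      · rintro ⟨s, h1, h2⟩
        have := dA_le s
        exact ⟨by omega, s, by omega, h2⟩
    · constructor
      · rintro ⟨-, s, h1, h2⟩; exact ⟨s, by omega, h2⟩
      · rintro ⟨s, h1, h2⟩
        have := dB_le s
        exact ⟨by omega, s, by omega, h2⟩

theorem side_W (hM : P.IsManifold) (h3 : MP42.Deg3 P) {k : ℕ} (hk : 62 ≤ k) (F : P.Facet)
    (hF : IsPl F) {Y : ℕ} (hY : Y < 7 * k) : (D.pd (bf F)).Vv k 0 Y = D.ev k (bf F).rL Y := by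
  have hd : (bf F).1.d.1 = 2 := hF
  have hn : (bf F).1.n = (1, true) := Deco0.e_aux1 _ hF
  obtain ⟨p1, -, -⟩ := plate_rLR _ hd hn
  have he : (bf F).rL.1.e = (1, true) := hn
  rw [PD.Vv_zero' (D.pd_ok hM F hF) (by omega), D.ev_y k _ (by rw [he]), he]
  have e1 : Deco0.sgY (bf F).rL = (bf F).1.c 1 := by
    unfold Deco0.sgY
    rw [he, p1]
    rfl
  have e2 : D.Kw (bf F).rL = D.Kw (bf F) := by
    unfold Deco0.Kw
    rw [p1]
    rfl
  rw [e1, e2]
  rfl

theorem side_E (hM : P.IsManifold) (h3 : MP42.Deg3 P) {k : ℕ} (hk : 62 ≤ k) (F : P.Facet)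
    (hF : IsPl F) {Y : ℕ} (hY : Y < 7 * k) :
    (D.pd (bf F)).Vv k (7 * k) Y = D.ev k (bf F).rR (7 * k - 1 - Y) := by
  have hd : (bf F).1.d.1 = 2 := hF
  have hn : (bf F).1.n = (1, true) := Deco0.e_aux1 _ hF
  obtain ⟨-, p2, p3⟩ := plate_rLR _ hd hn
  have he : (bf F).rR.1.e = (1, false) := by
    show opp (bf F).1.n = _
    rw [hn]
    rfl
  rw [PD.Vv_end' (D.pd_ok hM F hF) (by omega), D.ev_y k _ (by rw [he]), he]
  have e1 : Deco0.sgY (bf F).rR = (bf F).1.c 1 := by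
    unfold Deco0.sgY
    rw [he, p2]
    rfl
  have e2 : D.Kw (bf F).rR = D.Ke (bf F) := by
    unfold Deco0.Kw Deco0.Ke
    rw [p3]
    rfl
  rw [e1, e2]
  show _ = KD.kl (D.Ke (bf F)) k ((bf F).1.c 1) (7 * k - 1 - (7 * k - 1 - Y))
  rw [show 7 * k - 1 - (7 * k - 1 - Y) = Y by omega]
  rfl

end Deco

/-! ### Walls -/

/-- the north side of a dart goes up or down -/
lemma dart_up (s : P.FSt) (hs : MP42.IsDart s) (b : Bool)
    (h : s.stN.1.n = (1, b)) :
    (s.1.d.2 = b ∧ shift (shift s.1.c s.1.n) s.1.d ∈ P.cells) ∨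
    (s.1.d.2 = !b ∧ shift (shift s.1.c s.1.n) s.1.d ∉ P.cells ∧ shift s.1.c s.1.n ∉ P.cells) := by
  obtain ⟨h1, h2⟩ := hs
  have hn2 : s.1.n.1 = 2 := MP42D.dart_n ⟨s, h1, h2⟩
  rw [stN_n] at h
  have e : s.rL.stE.1.e = (s.rL.1.stepE P).e := rfl
  rw [e] at h
  unfold St.stepE at h
  have r1 : s.rL.1.c = s.1.c := rfl
  have r2 : s.rL.1.d = s.1.d := rfl
  have r3 : s.rL.1.e = s.1.n := rfl
  rw [r1, r2, r3] at h
  by_cases c1 : shift (shift s.1.c s.1.n) s.1.d ∈ P.cells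
  · rw [if_pos c1] at h
    simp only at h
    left
    exact ⟨by rw [h], c1⟩
  · rw [if_neg c1] at h
    right
    by_cases c2 : shift s.1.c s.1.n ∈ P.cells
    · rw [if_pos c2] at h
      simp only at h
      rw [h] at hn2
      exact absurd hn2 (by simp)
    · rw [if_neg c2] at h
      simp only at h
      refine ⟨?_, c1, c2⟩
      have : s.1.d = opp (opp s.1.d) := (opp_opp _).symm
      rw [this, h]
      rfl

lemma dart_bits0 (c : Fin 3 → ℤ) (ds es r : Bool) (hc : c ∈ P.cells)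
    (hc' : shift c (1, ds) ∉ P.cells) {x y z : ℤ}
    (hx : x = c 0 + if r = true then 0 else 1)
    (hy : y = c 1 + if ds = true then 1 else 0)
    (hz : z = c 2 + if (ds != es) = true then 1 else 0) :
    bit P x (if ds = true then y - 1 else y) z r (!(ds != es)) = true ∧
    bit P x (if ds = true then y else y - 1) z r (!(ds != es)) = false ∧
    bit P x (if ds = true then y - 1 else y) z r (ds != es) =
      decide (shift c (2, ds != es) ∈ P.cells) ∧
    bit P x (if ds = true then y else y - 1) z r (ds != es) =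
      decide (shift (shift c (2, ds != es)) (1, ds) ∈ P.cells) := by
  rw [shift_y] at hc'
  rw [cell3 c] at hc
  rw [shift_z, shift_y]
  subst hx hy hz
  unfold bit
  cases ds <;> cases es <;> cases r <;> simp [sub_eq_add_neg] at hc hc' ⊢ <;>
    first | exact ⟨hc', hc⟩ | exact ⟨hc, hc'⟩

/-- the four bits at an end of the north side of a dart -/
lemma dart_bits (s : P.FSt) (hs : MP42.IsDart s) (r : Bool) {x y z : ℤ}
    (hx : x = s.1.c 0 + if r = true then 0 else 1)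
    (hy : y = s.1.c 1 + if s.1.d.2 = true then 1 else 0)
    (hz : z = s.1.c 2 + if s.1.n.2 = true then 1 else 0) :
    bit P x (if s.1.d.2 = true then y - 1 else y) z r (!s.1.n.2) = true ∧
    bit P x (if s.1.d.2 = true then y else y - 1) z r (!s.1.n.2) = false ∧
    bit P x (if s.1.d.2 = true then y - 1 else y) z r s.1.n.2 =
      decide (shift s.1.c s.1.n ∈ P.cells) ∧
    bit P x (if s.1.d.2 = true then y else y - 1) z r s.1.n.2 =
      decide (shift (shift s.1.c s.1.n) s.1.d ∈ P.cells) := by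
  obtain ⟨⟨c, ⟨d, ds⟩, ⟨e, es⟩⟩, ⟨hc, hc'⟩, hde⟩ := s
  obtain ⟨h1, h2⟩ := hs
  simp only at h1 h2 hc hc' hde hx hy
  subst h1 h2
  have hn : ∀ ds es : Bool, cross (1, ds) (0, es) = (2, ds != es) := by decide
  have hn' : (⟨c, (1, ds), (0, es)⟩ : St).n = (2, ds != es) := hn ds es
  simp only [hn'] at hz ⊢
  exact dart_bits0 c ds es r hc hc' hx hy hz

/-- the ends of the north side of a dart -/
lemma dart_ends (s : P.FSt) (hs : MP42.IsDart s) :
    MP42.Geo.nw s.1 0 = s.1.c 0 + (if s.1.e.2 = true then 0 else 1) ∧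
    MP42.Geo.ne s.1 0 = s.1.c 0 + (if (!s.1.e.2) = true then 0 else 1) ∧
    MP42.Geo.nw s.1 1 = s.1.c 1 + (if s.1.d.2 = true then 1 else 0) ∧
    MP42.Geo.ne s.1 1 = s.1.c 1 + (if s.1.d.2 = true then 1 else 0) ∧
    MP42.Geo.nw s.1 2 = s.1.c 2 + (if s.1.n.2 = true then 1 else 0) ∧
    MP42.Geo.ne s.1 2 = s.1.c 2 + (if s.1.n.2 = true then 1 else 0) := by
  obtain ⟨⟨c, ⟨d, ds⟩, ⟨e, es⟩⟩, ⟨hc, hc'⟩, hde⟩ := s
  obtain ⟨h1, h2⟩ := hs
  simp only at h1 h2
  subst h1 h2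
  have hn : ∀ ds es : Bool, cross (1, ds) (0, es) = (2, ds != es) := by decide
  unfold MP42.Geo.nw MP42.Geo.ne St.n MP42.Geo.cnr
  simp only [hn, opp]
  cases ds <;> cases es <;> simp

/-- where the north side of a dart goes in the direction `b`, the wall on the side `r == b` changes,
`r`: the quadrant of the end -/
lemma dart8 : ∀ a0 b0 c0 d0 a1 b1 c1 d1 : Bool,
    MP42.Geo.goodB a0 b0 c0 d0 a1 b1 c1 d1 = true →
    MP42.Geo.onB a0 b0 c0 d0 = true → MP42.Geo.onB a1 b1 c1 d1 = true →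
    ∀ ds nb r b : Bool,
    (if ds then q4 r (!nb) a0 b0 c0 d0 else q4 r (!nb) a1 b1 c1 d1) = true →
    (if ds then q4 r (!nb) a1 b1 c1 d1 else q4 r (!nb) a0 b0 c0 d0) = false →
    ((ds = b ∧ (if ds then q4 r nb a1 b1 c1 d1 else q4 r nb a0 b0 c0 d0) = true) ∨
      (ds = !b ∧ (if ds then q4 r nb a1 b1 c1 d1 else q4 r nb a0 b0 c0 d0) = false ∧
        (if ds then q4 r nb a0 b0 c0 d0 else q4 r nb a1 b1 c1 d1) = false)) →
    (((c0 && !d0) || (!a0 && b0)) = ((c1 && !d1) || (!a1 && b1)) ↔ (r = (b == (ds != nb)))) ∧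
    (((!c0 && d0) || (a0 && !b0)) = ((!c1 && d1) || (a1 && !b1)) ↔ ¬ (r = (b == (ds != nb)))) := by
  decide

lemma V_on {τ : Type*} {K : KD τ} {on : ℤ → Bool} (h : K.Ok on) {q : Fin 4} {y : ℤ}
    (hV : K.V q y = true) : on (y - 1) = true ∧ on y = true := by
  unfold KD.V at hV
  rw [Bool.or_eq_true] at hV
  rcases hV with h1 | h1
  · obtain ⟨-, h2, h4⟩ := h.M_on _ _ h1
    rw [sub_add_cancel] at h4
    exact ⟨h2, h4⟩
  · obtain ⟨h2, h4, -⟩ := h.M_on _ _ h1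
    exact ⟨h2, h4⟩

/-- the direction of the wall at a dart -/
lemma dart_ch (hM : P.IsManifold) (h3 : MP42.Deg3 P) (s : P.FSt) (hs : MP42.IsDart s) (b : Bool)
    (h : s.stN.1.n = (1, b)) (r : Bool) {x y z : ℤ}
    (hx : x = s.1.c 0 + if r = true then 0 else 1)
    (hy : y = s.1.c 1 + if s.1.d.2 = true then 1 else 0)
    (hz : z = s.1.c 2 + if s.1.n.2 = true then 1 else 0)
    (h1 : onP P x (y - 1) z = true) (h2 : onP P x y z = true) :
    (awP P x (y - 1) z = awP P x y z ↔ (r = (b == s.1.e.2))) ∧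
    (bwP P x (y - 1) z = bwP P x y z ↔ ¬ (r = (b == s.1.e.2))) := by
  obtain ⟨k1, k2, k3, k4⟩ := dart_bits s hs r hx hy hz
  have key := dart8 _ _ _ _ _ _ _ _ (good8 hM h3 x y z) h1 h2 s.1.d.2 s.1.n.2 r b
  have e1 : (s.1.d.2 != s.1.n.2) = s.1.e.2 := by
    obtain ⟨d1, d2⟩ := hs
    have : ∀ d e : Dir, d.1 = 1 → e.1 = 0 → (d.2 != (cross d e).2) = e.2 := by decide
    exact this _ _ d1 d2
  rw [e1] at key
  simp only [← bit_q4] at key
  apply key
  · cases hb : s.1.d.2 <;> rw [hb] at k1 <;> simpa using k1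
  · cases hb : s.1.d.2 <;> rw [hb] at k2 <;> simpa using k2
  · rcases dart_up s hs b h with ⟨c1, c2⟩ | ⟨c1, c2, c3⟩
    · left
      refine ⟨c1, ?_⟩
      rw [decide_eq_true c2] at k4
      cases hb : s.1.d.2 <;> rw [hb] at k4 <;> simpa using k4
    · right
      refine ⟨c1, ?_, ?_⟩
      · rw [decide_eq_false c2] at k4
        cases hb : s.1.d.2 <;> rw [hb] at k4 <;> simpa using k4
      · rw [decide_eq_false c3] at k3
        cases hb : s.1.d.2 <;> rw [hb] at k3 <;> simpa using k3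

namespace Deco

variable (D : Deco P)

lemma dart_st (hM : P.IsManifold) (h3 : MP42.Deg3 P) (s : P.FSt) (hs : MP42.IsDart s) (b : Bool)
    (h : s.stN.1.n = (1, b)) (r : Bool) {x y z : ℤ}
    (hx : x = s.1.c 0 + if r = true then 0 else 1)
    (hy : y = s.1.c 1 + if s.1.d.2 = true then 1 else 0)
    (hz : z = s.1.c 2 + if s.1.n.2 = true then 1 else 0) {q : Fin 4}
    (hV : (D.K x z).V q y = true) : (D.K x z).st y = (r == (b == s.1.e.2)) := by
  obtain ⟨h1, h2⟩ := V_on (D.ok x z) hV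
  obtain ⟨c1, c2⟩ := dart_ch hM h3 s hs b h r hx hy hz h1 h2
  unfold KD.st
  simp only [D.aw_eq, D.bw_eq]
  by_cases hr : r = (b == s.1.e.2)
  · rw [if_neg (not_not.2 (c1.2 hr)), if_pos (fun h' => (c2.1 h') hr), hr]
    simp
  · rw [if_pos (fun h' => hr (c1.1 h'))]
    symm
    rw [beq_eq_false_iff_ne]
    exact hr

lemma ne_e_kl {τ : Type*} (K : KD τ) (k : ℕ) (y : ℤ) (T : ℕ) (h1 : K.bp y = false)
    (h2 : K.vl y = false) : K.kl k y T ≠ El.e := by
  unfold KD.kl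
  rw [h1, h2]
  split_ifs with h3 h4 h5
  · decide
  · decide
  · simp at h5
  · decide

/-- **T2a**: no strand to the east crosses a side of a wall -/
theorem ev_wall (hM : P.IsManifold) (h3 : MP42.Deg3 P) {k : ℕ} (hk : 62 ≤ k) (s : P.FSt)
    (hs : s.1.d.1 ≠ 2) (hn : s.1.n.1 = 2) {X : ℕ} (hX : X < 7 * k) : D.ev k s X ≠ El.e := by
  rcases axes_of_n _ _ s.2.2 hn with ⟨d1, e0⟩ | ⟨d0, e1⟩
  · have hd : MP42.IsDart s := ⟨d1, e0⟩
    rw [D.ev_x k s e0]
    apply F7_ne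
    obtain ⟨x1, x2, y1, y2, z1, z2⟩ := dart_ends s hd
    have hup : isUp s = true → s.stN.1.n = (1, true) := by
      intro h
      unfold isUp at h
      rw [decide_eq_true_eq] at h
      rcases h with h | ⟨-, h⟩
      · rw [h] at hn; exact absurd hn (by decide)
      · exact h
    have hdn : isDn s = true → s.stN.1.n = (1, false) := by
      intro h
      unfold isDn at h
      rw [decide_eq_true_eq] at h
      rcases h with h | ⟨-, h⟩
      · rw [h] at hn; exact absurd hn (by decide)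
      · exact h
    rintro (⟨q, ⟨h1, -, h4, h5⟩ | ⟨h1, -, h4, h5⟩⟩ | ⟨q, ⟨h1, -, h4, h5⟩ | ⟨h1, -, h4, h5⟩⟩)
    · have := D.dart_st hM h3 s hd true (hup h1) _ x1 y1 z1 h4
      unfold Deco0.Kw at h5
      rw [this] at h5
      cases he : s.1.e.2 <;> rw [he] at h5 <;> simp at h5
    · have := D.dart_st hM h3 s hd false (hdn h1) _ x1 y1 z1 h4
      unfold Deco0.Kw at h5
      rw [this] at h5
      cases he : s.1.e.2 <;> rw [he] at h5 <;> simp at h5
    · have := D.dart_st hM h3 s hd true (hup h1) _ x2 y2 z2 h4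
      unfold Deco0.Ke at h5
      rw [this] at h5
      cases he : s.1.e.2 <;> rw [he] at h5 <;> simp at h5
    · have := D.dart_st hM h3 s hd false (hdn h1) _ x2 y2 z2 h4
      unfold Deco0.Ke at h5
      rw [this] at h5
      cases he : s.1.e.2 <;> rw [he] at h5 <;> simp at h5
  · rw [D.ev_y k s e1]
    have he : s.1.e = (1, s.1.e.2) := Prod.ext e1 rfl
    have hw := wall_bits s s.1.e.2 d0 he
    have hy : Deco0.sgY s = if s.1.e.2 then MP42.Geo.nw s.1 1 else MP42.Geo.nw s.1 1 - 1 := by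
      unfold Deco0.sgY
      cases hb : s.1.e.2
      · simp only [Bool.false_eq_true, if_false]
        have h4 := cnr_wall s.1.c s.1.d s.1.e s.1.n false d0 (by rw [he, hb]) hn 1
        have h5 : MP42.Geo.ne s.1 1 = MP42.Geo.nw s.1 1 + _ := h4
        rw [h5]
        simp
        rfl
      · simp
    have key : awP P (MP42.Geo.nw s.1 0) (Deco0.sgY s) (MP42.Geo.nw s.1 2) = true ∨
        bwP P (MP42.Geo.nw s.1 0) (Deco0.sgY s) (MP42.Geo.nw s.1 2) = true := by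
      rw [hy]
      cases hb : s.1.e.2
      · rw [hb] at hw
        exact Or.inl (wallU_aw hw)
      · rw [hb] at hw
        exact Or.inr (wallU_bw hw)
    have ok := D.ok (MP42.Geo.nw s.1 0) (MP42.Geo.nw s.1 2)
    apply ne_e_kl
    · by_contra h
      rw [Bool.not_eq_false] at h
      obtain ⟨-, h1, h2, -⟩ := ok.bp_ok _ h
      rw [D.aw_eq] at h1
      rw [D.bw_eq] at h2
      rw [h1, h2] at key
      simp at key
    · by_contra h
      rw [Bool.not_eq_false] at h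
      obtain ⟨-, h1, h2, -⟩ := ok.vl_ok _ h
      rw [D.aw_eq] at h1
      rw [D.bw_eq] at h2
      rw [h1, h2] at key
      simp at key

end Deco

end Pool.Agent.MP42D
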