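import Pool.Agent.MP42.D.Defs
import Pool.Agent.MP42.D.TableP
import Pool.Agent.MP42.D.Coord

/-!
# Piece T2: the values on the sides of the parts of a plate (owner helper2)
-/

set_option autoImplicit false
set_option linter.unusedSectionVars false

namespace Pool.Agent.MP42D

open Pool.Agent.Helper55.UNF Pool.Agent.Helper55.UNF.GridSolid Pool.Agent.MP42G

lemma El.ie_eq {v : El} : v.ie = true ↔ v = El.e := by
  cases v <;> simp [El.ie]

lemma El.ie_ne {v : El} : v.ie = false ↔ v ≠ El.e := by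
  cases v <;> simp [El.ie]

namespace PD

variable {τ : Type*} {D : PD τ} {k : ℕ}

lemma isX_iff {i j : ℕ} : D.isX i j = true ↔
    (i = 0 ∧ ∃ s : Fin 4, D.KW.bB s D.y j = true ∨ D.KW.aB s D.y j = true) ∨
    (i = 6 ∧ ∃ s : Fin 4, D.KE.bA s D.y j = true ∨ D.KE.aA s D.y j = true) := by
  unfold isX
  simp only [Bool.or_eq_true, Bool.and_eq_true, decide_eq_true_iff]

lemma isX_true {i j : ℕ} (h : D.isX i j = true) :
    (i = 0 ∧ ∃ s : Fin 4, D.KW.bB s D.y j = true ∨ D.KW.aB s D.y j = true) ∨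
    (i = 6 ∧ ∃ s : Fin 4, D.KE.bA s D.y j = true ∨ D.KE.aA s D.y j = true) := isX_iff.1 h

lemma isX_false0 {j : ℕ} (h : D.isX 0 j = false) (s : Fin 4) :
    D.KW.bB s D.y j = false ∧ D.KW.aB s D.y j = false := by
  have h' : ¬ D.isX 0 j = true := by rw [h]; decide
  rw [isX_iff] at h'
  constructor
  · by_contra hc
    exact h' (Or.inl ⟨rfl, s, Or.inl (by simpa using hc)⟩)
  · by_contra hc
    exact h' (Or.inl ⟨rfl, s, Or.inr (by simpa using hc)⟩)

lemma isX_false6 {j : ℕ} (h : D.isX 6 j = false) (s : Fin 4) :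
    D.KE.bA s D.y j = false ∧ D.KE.aA s D.y j = false := by
  have h' : ¬ D.isX 6 j = true := by rw [h]; decide
  rw [isX_iff] at h'
  constructor
  · by_contra hc
    exact h' (Or.inr ⟨rfl, s, Or.inl (by simpa using hc)⟩)
  · by_contra hc
    exact h' (Or.inr ⟨rfl, s, Or.inr (by simpa using hc)⟩)

/-- no lane over an edge parallel to the `x`-axis of an X-part -/
lemma Hv_X (hk : 20 ≤ k) {i j x : ℕ} (h : D.isX i j = true) (hx : x < k) (Y : ℕ) :
    (D.Hv k (i * k + x) Y).ln = Ln.z := by
  apply Hv_side _ hk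
  rcases isX_true h with ⟨rfl, -⟩ | ⟨rfl, -⟩
  · left; omega
  · right; omega

lemma Lb_ff {b a : Fin 4 → Bool} {s : Fin 4} {t : ℕ} (hb : b s = false) (ha : a s = false) :
    Lb b a s t = false := by
  unfold Lb; rw [hb, ha]; rfl

lemma La_ff {b a : Fin 4 → Bool} {s : Fin 4} {t : ℕ} (hb : b s = false) (ha : a s = false) :
    La b a s t = false := by
  unfold La; rw [hb, ha]; rfl

/-- no strand over an edge parallel to the `x`-axis of a Y-part -/
lemma Hv_Y (hk : 20 ≤ k) {i j x t : ℕ} (hi : i < 7) (hj : j < 7) (h : D.isX i j = false)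
    (hx : x < k) (ht : t ≤ k) : D.Hv k (i * k + x) (j * k + t) ≠ El.e := by
  rw [← El.ie_ne]
  by_cases h0 : i = 0
  · subst h0
    rw [Nat.zero_mul, Nat.zero_add, Hv_west hk hx hj ht]
    apply decide_eq_false
    rintro ⟨s, -, hs⟩
    obtain ⟨h1, h2⟩ := isX_false0 h s
    rw [Lb_ff h1 h2] at hs
    exact absurd hs (by decide)
  · by_cases h6 : i = 6
    · subst h6
      have e : 6 * k + x = 6 * k + (k - 1 - (k - 1 - x)) := by omega
      rw [e, Hv_east hk (by omega) hj ht]
      apply decide_eq_false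
      rintro ⟨s, -, hs⟩
      obtain ⟨h1, h2⟩ := isX_false6 h s
      rw [La_ff h1 h2] at hs
      exact absurd hs (by decide)
    · rw [Hv_mid]
      · unfold Hm
        split_ifs <;> rfl
      · have : 1 * k ≤ i * k := Nat.mul_le_mul_right k (by omega)
        omega
      · have : i * k ≤ 5 * k := Nat.mul_le_mul_right k (by omega)
        omega

/-- no strand over an edge parallel to the `y`-axis of an X-part -/
lemma Vv_X {onW onE : ℤ → Bool} (hD : D.Ok onW onE) (hk : 20 ≤ k) {i j t X : ℕ}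
    (h : D.isX i j = true) (ht : t < k) (hX : X = i * k ∨ X = (i + 1) * k) :
    D.Vv k X (j * k + t) ≠ El.e := by
  intro he
  have h2 : j * k + t = 2 * k + 3 → j = 2 := by
    intro e
    obtain ⟨e1, -⟩ := div_mod (j := j) ht
    obtain ⟨e2, -⟩ := div_mod (j := 2) (t := 3) (k := k) (by omega)
    rw [← e1, e, e2]
  have h4 : j * k + t = 4 * k + 3 → j = 4 := by
    intro e
    obtain ⟨e1, -⟩ := div_mod (j := j) ht
    obtain ⟨e2, -⟩ := div_mod (j := 4) (t := 3) (k := k) (by omega)
    rw [← e1, e, e2]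
  unfold Vv at he
  split_ifs at he with c1 c2 c3 c4 c5
  rcases isX_true h with ⟨rfl, s, hs⟩ | ⟨rfl, s, hs⟩
  · have hX' : X ≤ k := by rcases hX with rfl | rfl <;> omega
    rcases c5 with ⟨e, ⟨hb, -⟩ | ⟨-, hb⟩⟩ | ⟨e, ⟨hb, -⟩ | ⟨-, hb⟩⟩
    · have hM := (hD.W.bp_ok _ hb).2.2.2.1 s
      have hj := h2 e
      subst hj
      unfold KD.bB KD.aB at hs
      simp [hM] at hs
    · omega
    · have hM := (hD.W.vl_ok _ hb).2.2.2.1 s
      have hj := h4 e
      subst hj
      unfold KD.bB KD.aB at hs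
      simp [hM] at hs
    · omega
  · have hX' : 6 * k ≤ X := by rcases hX with rfl | rfl <;> omega
    rcases c5 with ⟨e, ⟨-, hb⟩ | ⟨hb, -⟩⟩ | ⟨e, ⟨-, hb⟩ | ⟨hb, -⟩⟩
    · omega
    · have hM := (hD.E.bp_ok _ hb).2.2.2.1 s
      have hj := h2 e
      subst hj
      unfold KD.bA KD.aA at hs
      simp [hM] at hs
    · omega
    · have hM := (hD.E.vl_ok _ hb).2.2.2.1 s
      have hj := h4 e
      subst hj
      unfold KD.bA KD.aA at hs
      simp [hM] at hs

/-- no lane over an edge parallel to the `y`-axis of a Y-part -/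
lemma Vv_Y (hk : 20 ≤ k) {i j t X : ℕ} (hi : i < 7) (h : D.isX i j = false) (ht : t < k)
    (hX : X = i * k ∨ X = (i + 1) * k) : (D.Vv k X (j * k + t)).ln = Ln.z := by
  by_cases h1 : k ≤ X
  · by_cases h2 : X ≤ 6 * k
    · rw [Vv_mid hk h1 h2]
      unfold Vm
      split_ifs <;> rfl
    · have hi6 : i = 6 := by
        have : i ≤ 5 → (i + 1) * k ≤ 6 * k := fun h => Nat.mul_le_mul_right k (by omega)
        have h3 : i * k ≤ (i + 1) * k := Nat.mul_le_mul_right k (by omega)
        rcases hX with rfl | rfl <;> omega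
      subst hi6
      have hX7 : X = 6 * k + (k - 0) := by omega
      rw [hX7, Vv_east hk (Nat.zero_le _) ht]
      unfold VA
      rw [if_neg, if_neg]
      · rintro ⟨s, -, hs, -⟩
        have hs' : D.KE.bA s D.y j = true := hs
        rw [(isX_false6 h s).1] at hs'
        exact absurd hs' (by decide)
      · rintro ⟨s, -, -, hs, -⟩
        have hs' : D.KE.aA s D.y j = true := hs
        rw [(isX_false6 h s).2] at hs'
        exact absurd hs' (by decide)
  · have hi0 : i = 0 := by
      by_contra hi0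
      have h3 : 1 * k ≤ i * k := Nat.mul_le_mul_right k (by omega)
      have h4 : i * k ≤ (i + 1) * k := Nat.mul_le_mul_right k (by omega)
      rcases hX with rfl | rfl <;> omega
    subst hi0
    have hX0 : X = 0 := by rcases hX with rfl | rfl <;> omega
    subst hX0
    rw [Vv_west hk (by omega) ht]
    unfold VB
    rw [if_neg, if_neg]
    · rintro ⟨s, -, -, hs, -⟩
      have hs' : D.KW.aB s D.y j = true := hs
      rw [(isX_false0 h s).2] at hs'
      exact absurd hs' (by decide)
    · rintro ⟨s, -, hs, -⟩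
      have hs' : D.KW.bB s D.y j = true := hs
      rw [(isX_false0 h s).1] at hs'
      exact absurd hs' (by decide)

end PD

end Pool.Agent.MP42D
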