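import Pool.Agent.Helper55.UNF.Win

/-!
# Stage 2 (vertices of degree three): line data and the tables of the plates

A line is parallel to the `y`-axis; its unit segments are numbered by `y : ℤ` (from `y` to `y + 1`),
its points also by `y : ℤ`.  `aw y`, `bw y`: the segment `y` has a wall on its A side, B side.
Tracks run along the line in four slots; `M s y`: a track runs in the slot `s` over the middle of
the segment `y`.

A plate (a facet of `P` with normal `± z`) is seen in the frame with north `= + y` and east from A to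
B (`+ x` for floors, `- x` for ceilings).  Its west side is on the B side of the line `KW`, its east
side is on the A side of the line `KE`.  It is divided into `7 k` by `7 k` cells.
`Hv X Y`: the value of the unit edge from `(X, Y)` to `(X + 1, Y)`; `Vv X Y`: the value of the unit
edge from `(X, Y)` to `(X, Y + 1)`.
-/

set_option autoImplicit false
set_option linter.unusedSectionVars false

namespace Pool.Agent.MP42D

open Pool.Agent.Helper55.UNF

/-- values of the unit edges: not crossed, crossed by a strand to the east, by a lane `n`, `s` -/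
inductive El
  | o | e | n | s
  deriving DecidableEq

namespace El

def ln : El → Ln
  | n => Ln.n
  | s => Ln.s
  | _ => Ln.z

def ie : El → Bool
  | e => true
  | _ => false

end El

/-- columns of the moves of the slot `s`, and distances of the lines of the slot from the line -/
def nC (s : Fin 4) : ℕ := 3 + s
def sC (s : Fin 4) : ℕ := 6 - s
def dB (s : Fin 4) : ℕ := 2 + s
def dA (s : Fin 4) : ℕ := 5 - s

/-- The data of a line. -/
structure KD (τ : Type*) where
  /-- walls on the A side and on the B side of the segments -/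
  aw : ℤ → Bool
  bw : ℤ → Bool
  /-- the tracks over the middle of the segments -/
  M : Fin 4 → ℤ → Bool
  /-- single letters `n`, `s` of the slots in the middle of a segment with two walls -/
  cn : Fin 4 → ℤ → Bool
  cs : Fin 4 → ℤ → Bool
  /-- bump and valley: a run to the east over the segment, in row 2 and in row 4 -/
  bp : ℤ → Bool
  vl : ℤ → Bool
  /-- lanes of the bumps over the points: `n` on the A side, `s` on the B side -/
  fN : ℤ → Bool
  fS : ℤ → Bool
  /-- lanes of the valleys over the points: `s` on the A side, `n` on the B side -/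
  gS : ℤ → Bool
  gN : ℤ → Bool
  /-- tags of the tracks (by segments), single letters (by segments), bumps (lanes: by points; bump
  at the segment `y`: `tb y`) and valleys (lanes: by points; valley at the segment `y`:
  `tv (y + 1)`) -/
  tM : Fin 4 → ℤ → τ
  tC : Fin 4 → ℤ → τ
  tb : ℤ → τ
  tv : ℤ → τ

namespace KD

variable {τ : Type*} (K : KD τ)

/-- the tracks over the middle of the segment `y` run on the A side (`true`) or on the B side -/
def sd (y : ℤ) : Bool := K.bw y && !K.aw y

/-- the tracks pass the point `y` on the A side (`true`) or on the B side -/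
def st (y : ℤ) : Bool :=
  if K.aw (y - 1) ≠ K.aw y then false else if K.bw (y - 1) ≠ K.bw y then true else K.sd y

/-- tracks at the point `y` -/
def V (s : Fin 4) (y : ℤ) : Bool := K.M s (y - 1) || K.M s y

/-- The segment `y` is divided into seven rows `j`.  `bB`, `aB`: slots that run on the B side before
and after the row `j`; `bA`, `aA`: on the A side. -/
def bB (s : Fin 4) (y : ℤ) (j : ℕ) : Bool :=
  if j = 0 then K.V s y && !K.st y else K.M s y && !K.sd y
def aB (s : Fin 4) (y : ℤ) (j : ℕ) : Bool :=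
  if j = 6 then K.V s (y + 1) && !K.st (y + 1) else K.M s y && !K.sd y
def bA (s : Fin 4) (y : ℤ) (j : ℕ) : Bool :=
  if j = 0 then K.V s y && K.st y else K.M s y && K.sd y
def aA (s : Fin 4) (y : ℤ) (j : ℕ) : Bool :=
  if j = 6 then K.V s (y + 1) && K.st (y + 1) else K.M s y && K.sd y

/-- the slots with a letter `n` in the row `j` -/
def kn (s : Fin 4) (y : ℤ) (j : ℕ) : Bool :=
  (K.bB s y j && !K.aB s y j) || (K.aA s y j && !K.bA s y j) || (decide (j = 3) && K.cn s y)

/-- the slots with a letter `s` in the row `j` -/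
def ks (s : Fin 4) (y : ℤ) (j : ℕ) : Bool :=
  (K.bA s y j && !K.aA s y j) || (K.aB s y j && !K.bB s y j) || (decide (j = 3) && K.cs s y)

/-- the values of the unit edges of the segment `y` of the line, `0 ≤ T < 7 k` -/
def kl (k : ℕ) (y : ℤ) (T : ℕ) : El :=
  if ∃ s : Fin 4, K.kn s y (T / k) = true ∧ T % k = nC s then El.n
  else if ∃ s : Fin 4, K.ks s y (T / k) = true ∧ T % k = sC s then El.s
  else if (K.bp y = true ∧ T = 2 * k + 3) ∨ (K.vl y = true ∧ T = 4 * k + 3) then El.e
  else El.o

/-- the track of the slot `s` runs on the B side over the height `Y` of the segment `y` -/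
def lnB (k : ℕ) (s : Fin 4) (y : ℤ) (Y : ℕ) : Bool :=
  if Y ≤ k then
    (K.bB s y 0 && K.aB s y 0) || (K.bB s y 0 && !K.aB s y 0 && decide (Y ≤ nC s)) ||
      (!K.bB s y 0 && K.aB s y 0 && decide (sC s < Y))
  else if Y ≤ 6 * k then K.M s y && !K.sd y
  else
    (K.bB s y 6 && K.aB s y 6) || (K.bB s y 6 && !K.aB s y 6 && decide (Y ≤ 6 * k + nC s)) ||
      (!K.bB s y 6 && K.aB s y 6 && decide (6 * k + sC s < Y))

/-- the track of the slot `s` runs on the A side over the height `Y` of the segment `y` -/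
def lnA (k : ℕ) (s : Fin 4) (y : ℤ) (Y : ℕ) : Bool :=
  if Y ≤ k then
    (K.bA s y 0 && K.aA s y 0) || (K.bA s y 0 && !K.aA s y 0 && decide (Y ≤ sC s)) ||
      (!K.bA s y 0 && K.aA s y 0 && decide (nC s < Y))
  else if Y ≤ 6 * k then K.M s y && K.sd y
  else
    (K.bA s y 6 && K.aA s y 6) || (K.bA s y 6 && !K.aA s y 6 && decide (Y ≤ 6 * k + sC s)) ||
      (!K.bA s y 6 && K.aA s y 6 && decide (6 * k + nC s < Y))

/-- The conditions on the data of a line.  `on y`: the segment `y` lies in the surface. -/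
structure Ok (on : ℤ → Bool) : Prop where
  /-- in the interior only one of the two walls changes at a point -/
  ev : ∀ y, on (y - 1) = true → on y = true → K.aw (y - 1) = K.aw y ∨ K.bw (y - 1) = K.bw y
  aw_on : ∀ y, K.aw y = true → on y = true
  bw_on : ∀ y, K.bw y = true → on y = true
  /-- tracks run in the interior -/
  M_on : ∀ s y, K.M s y = true → on (y - 1) = true ∧ on y = true ∧ on (y + 1) = true
  /-- a track starts where a wall ends -/
  start : ∀ s y, K.M s y = true → K.M s (y - 1) = false →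
    (K.aw (y - 1) = true ∧ K.aw y = false) ∨ (K.bw (y - 1) = true ∧ K.bw y = false)
  /-- a track ends where a wall starts -/
  stop : ∀ s y, K.M s (y - 1) = true → K.M s y = false →
    (K.aw (y - 1) = false ∧ K.aw y = true) ∨ (K.bw (y - 1) = false ∧ K.bw y = true)
  /-- Where an A wall starts or ends, the tracks that stop or start are in lower slots than the
  tracks that go on; where a B wall starts or ends, they are in higher slots. -/
  ordA : ∀ y s s', K.aw (y - 1) ≠ K.aw y → K.M s (y - 1) ≠ K.M s y → K.M s' (y - 1) = true →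
    K.M s' y = true → s < s'
  ordB : ∀ y s s', K.bw (y - 1) ≠ K.bw y → K.M s (y - 1) ≠ K.M s y → K.M s' (y - 1) = true →
    K.M s' y = true → s' < s
  /-- single letters -/
  cn_ok : ∀ s y, K.cn s y = true → K.aw y = true ∧ K.bw y = true ∧ (s = 1 ∨ s = 2) ∧
    (∀ s', K.M s' y = false) ∧ ∀ s', K.cs s' y = false
  cs_ok : ∀ s y, K.cs s y = true → K.aw y = true ∧ K.bw y = true ∧ (s = 1 ∨ s = 2) ∧
    (∀ s', K.M s' y = false) ∧ ∀ s', K.cn s' y = false
  /-- bumps and valleys are on segments without walls and without tracks -/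
  bp_ok : ∀ y, K.bp y = true → on y = true ∧ K.aw y = false ∧ K.bw y = false ∧
    (∀ s, K.M s y = false) ∧ K.fN (y + 1) = false ∧ K.fS (y + 1) = false ∧ K.gN y = false
  vl_ok : ∀ y, K.vl y = true → on y = true ∧ K.aw y = false ∧ K.bw y = false ∧
    (∀ s, K.M s y = false) ∧ K.gS y = false ∧ K.gN y = false ∧ K.fN (y + 1) = false
  /-- the lanes of bumps and valleys along a plate -/
  fN_st : ∀ y, on y = true → K.aw y = false → K.fN y = (K.fN (y + 1) || K.bp y)
  gS_st : ∀ y, on y = true → K.aw y = false → K.gS (y + 1) = (K.gS y || K.vl y)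
  fS_st : ∀ y, on y = true → K.bw y = false → K.fS y = (K.fS (y + 1) || K.bp y)
  gN_st : ∀ y, on y = true → K.bw y = false → K.gN (y + 1) = (K.gN y || K.vl y)
  /-- tags are constant -/
  tM_st : ∀ s y, K.M s (y - 1) = true → K.M s y = true → K.tM s y = K.tM s (y - 1)
  tb_N : ∀ y, on y = true → K.aw y = false → K.fN (y + 1) = true → K.tb (y + 1) = K.tb y
  tb_S : ∀ y, on y = true → K.bw y = false → K.fS (y + 1) = true → K.tb (y + 1) = K.tb y
  tv_S : ∀ y, on y = true → K.aw y = false → K.gS y = true → K.tv (y + 1) = K.tv y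
  tv_N : ∀ y, on y = true → K.bw y = false → K.gN y = true → K.tv (y + 1) = K.tv y

end KD

/-- The data of a plate. -/
structure PD (τ : Type*) where
  KW : KD τ
  KE : KD τ
  y : ℤ
  /-- full lanes `n`, `s` at the west side and at the east side, root lanes -/
  nW : Bool
  sW : Bool
  nE : Bool
  sE : Bool
  r1 : Bool
  r2 : Bool

namespace PD

variable {τ : Type*} (D : PD τ) (k : ℕ)

/-- values of the edges parallel to the `x`-axis, `0 ≤ X < 7 k`, `0 ≤ Y ≤ 7 k` -/
def Hv (X Y : ℕ) : El :=
  if X < k ∧ ∃ s : Fin 4, X = dB s ∧ D.KW.lnB k s D.y Y = true then El.e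
  else if 6 * k ≤ X ∧ ∃ s : Fin 4, X + 1 + dA s = 7 * k ∧ D.KE.lnA k s D.y Y = true then El.e
  else if X = 2 * k + 3 ∧
    (D.nW = true ∨ D.KW.gN D.y = true ∨ (D.KW.vl D.y = true ∧ 4 * k + 3 < Y)) then El.n
  else if X = 2 * k + 5 ∧
    (D.sW = true ∨ D.KW.fS (D.y + 1) = true ∨ (D.KW.bp D.y = true ∧ Y ≤ 2 * k + 3)) then El.s
  else if X + 4 = 5 * k ∧
    (D.nE = true ∨ D.KE.fN (D.y + 1) = true ∨ (D.KE.bp D.y = true ∧ Y ≤ 2 * k + 3)) then El.n
  else if X + 6 = 5 * k ∧
    (D.sE = true ∨ D.KE.gS D.y = true ∨ (D.KE.vl D.y = true ∧ 4 * k + 3 < Y)) then El.s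
  else if (X = 3 * k + 3 ∧ D.r1 = true) ∨ (X + 4 = 4 * k ∧ D.r2 = true) then El.n
  else El.o

/-- values of the edges parallel to the `y`-axis, `0 ≤ X ≤ 7 k`, `0 ≤ Y < 7 k` -/
def Vv (X Y : ℕ) : El :=
  if ∃ s : Fin 4, X ≤ dB s ∧ D.KW.bB s D.y (Y / k) = true ∧ D.KW.aB s D.y (Y / k) = false ∧
    Y % k = nC s then El.n
  else if ∃ s : Fin 4, X ≤ dB s ∧ D.KW.bB s D.y (Y / k) = false ∧ D.KW.aB s D.y (Y / k) = true ∧
    Y % k = sC s then El.s
  else if ∃ s : Fin 4, 7 * k ≤ X + dA s ∧ D.KE.bA s D.y (Y / k) = false ∧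
    D.KE.aA s D.y (Y / k) = true ∧ Y % k = nC s then El.n
  else if ∃ s : Fin 4, 7 * k ≤ X + dA s ∧ D.KE.bA s D.y (Y / k) = true ∧
    D.KE.aA s D.y (Y / k) = false ∧ Y % k = sC s then El.s
  else if (Y = 2 * k + 3 ∧ ((D.KW.bp D.y = true ∧ X ≤ 2 * k + 5) ∨
      (D.KE.bp D.y = true ∧ 5 * k < X + 4))) ∨
    (Y = 4 * k + 3 ∧ ((D.KW.vl D.y = true ∧ X ≤ 2 * k + 3) ∨
      (D.KE.vl D.y = true ∧ 5 * k < X + 6))) then El.e
  else El.o

/-- the part `(i, j)` of the plate is seen in the frame with east `= + y` -/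
def isX (i j : ℕ) : Bool :=
  (decide (i = 0) && decide (∃ s : Fin 4, D.KW.bB s D.y j = true ∨ D.KW.aB s D.y j = true)) ||
  (decide (i = 6) && decide (∃ s : Fin 4, D.KE.bA s D.y j = true ∨ D.KE.aA s D.y j = true))

/-- the table of the part `(i, j)`, in the frame `(A to B, + y)` or, if `isX`, in the frame
`(+ y, B to A)` -/
def prT (i j x y : ℕ) : Bool :=
  if D.isX i j then (D.Hv k (i * k + (k - 1 - y)) (j * k + x)).ie
  else (D.Vv k (i * k + x) (j * k + y)).ie

def laT (i j x y : ℕ) : Ln :=
  if D.isX i j then (D.Vv k (i * k + (k - y)) (j * k + x)).ln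
  else (D.Hv k (i * k + x) (j * k + y)).ln

/-- the conditions on a plate: `KW` has no B wall, `KE` has no A wall here -/
structure Ok (onW onE : ℤ → Bool) : Prop where
  W : D.KW.Ok onW
  E : D.KE.Ok onE
  oW : onW D.y = true
  oE : onE D.y = true
  bw : D.KW.bw D.y = false
  aw : D.KE.aw D.y = false
  bpW : D.KW.bp D.y = true → D.nW = false ∧ D.sW = false
  vlW : D.KW.vl D.y = true → D.nW = false
  bpE : D.KE.bp D.y = true → D.nE = false
  vlE : D.KE.vl D.y = true → D.nE = false ∧ D.sE = false

end PD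

end Pool.Agent.MP42D
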