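import Pool.Agent.MP42.D.W4d
import Pool.Agent.MP42.D.ARv

/-!
# Piece W4c, the lanes of bumps and valleys (owner helper83)
-/

set_option autoImplicit false
set_option linter.unusedSectionVars false

namespace Pool.Agent.MP42D

open Pool.Agent.Helper55.UNF Pool.Agent.Helper55.UNF.GridSolid Pool.Agent.MP42 Pool.Agent.MP42G

variable {P : GridSolid} {D : Deco P} {k B : ℕ} {W : CV D k B}

namespace W4

lemma go_dn {f : ℤ → Bool} {g : ℤ → Prop} {a b : ℤ}
    (h : ∀ p, a ≤ p → p < b → f (p + 1) = true → f p = true ∧ (g (p + 1) ↔ g p)) :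
    ∀ n : ℕ, ∀ y, y = a + n → y ≤ b → f y = true → f a = true ∧ (g y ↔ g a) := by
  intro n
  induction n with
  | zero =>
    intro y hy _ hf
    have : y = a := by rw [hy]; simp
    rw [this] at hf ⊢
    exact ⟨hf, Iff.rfl⟩
  | succ n ih =>
    intro y hy hb hf
    have e : y = (y - 1) + 1 := by ring
    have h1 := h (y - 1) (by push_cast at hy; omega) (by omega) (by rw [← e]; exact hf)
    obtain ⟨h2, h3⟩ := ih (y - 1) (by push_cast at hy; omega) (by omega) h1.1
    refine ⟨h2, ?_⟩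
    rw [← h3, ← h1.2, ← e]

lemma go_up {f : ℤ → Bool} {g : ℤ → Prop} {a b : ℤ}
    (h : ∀ p, a ≤ p → p < b → f p = true → f (p + 1) = true ∧ (g (p + 1) ↔ g p)) :
    ∀ n : ℕ, ∀ y, y = b - n → a ≤ y → f y = true → f b = true ∧ (g y ↔ g b) := by
  intro n
  induction n with
  | zero =>
    intro y hy _ hf
    have : y = b := by rw [hy]; simp
    rw [this] at hf ⊢
    exact ⟨hf, Iff.rfl⟩
  | succ n ih =>
    intro y hy hb hf
    have h1 := h y hb (by push_cast at hy; omega) hf
    obtain ⟨h2, h3⟩ := ih (y + 1) (by push_cast at hy; omega) (by omega) h1.1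
    exact ⟨h2, h1.2.symm.trans h3⟩

section

variable {V : Dart P → Prop}

/-- the corner at the strip on the B side -/
lemma cornerB (v1 : ∀ d, V (phi P d) ↔ V d) (v2 : ∀ d, V (theta P d) ↔ V d) {x y z : ℤ}
    {t : P.FSt} (ht : SB x y z t) (hb : (D.K x z).bw y = false) :
    ∃ d : Dart P, xl d = x ∧ zl d = z ∧ yw d ≤ y ∧ y < yu (nuD P d) ∧ (jv V t ↔ V d) := by
  have he : t.1.e = (1, true) := ht.1
  obtain ⟨d, a1, a2, a3, -, a5⟩ := W5.cover v1 v2 t (by rw [he])
  have hy : W5.uY t = y := by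
    unfold W5.uY
    rw [he, if_pos rfl]
    exact ht.nw1
  have h1 := a3 (by rw [he])
  rw [hy] at h1
  rw [ht.nw0] at a1
  rw [ht.nw2] at a2
  rcases h1 with ⟨h1, h2⟩ | ⟨h1, h2⟩
  · exfalso
    have h3 := (i2a d h1 h2).2
    rw [a1, a2, ← D.bw_eq, hb] at h3
    exact absurd h3 (by decide)
  · exact ⟨d, a1, a2, h1, h2, a5⟩

/-- the corner at the strip on the A side -/
lemma cornerA (hM : P.IsManifold) (v1 : ∀ d, V (phi P d) ↔ V d) (v2 : ∀ d, V (theta P d) ↔ V d)
    {x y z : ℤ} {t : P.FSt} (ht : SB x y z t) (ha : (D.K x z).aw y = false) :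
    ∃ d : Dart P, xl d = x ∧ zl d = z ∧ yu (nuD P d) ≤ y ∧ y < yw d ∧ (jv V t ↔ V d) := by
  have he : t.1.e = (1, true) := ht.1
  have hs := ht.toSA
  have he' : t.stN.r2.1.e = (1, false) := hs.1
  obtain ⟨d, a1, a2, -, a4, a5⟩ := W5.cover v1 v2 t.stN.r2 (by rw [he'])
  have hy : W5.uY t.stN.r2 = y := by
    rw [W5.uY_N t (by rw [he])]
    unfold W5.uY
    rw [he, if_pos rfl]
    exact ht.nw1
  have hx : Geo.nw t.stN.r2.1 0 = x := by
    rw [nw_N, ← nw_ne_off t (a := 0) (by rw [he]; decide)]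
    exact ht.nw0
  have hz : Geo.nw t.stN.r2.1 2 = z := by
    rw [nw_N, ← nw_ne_off t (a := 2) (by rw [he]; decide)]
    exact ht.nw2
  have h1 := a4 (by rw [he'])
  rw [hy] at h1
  rw [hx] at a1
  rw [hz] at a2
  rw [jv_symm' hM v1 v2 t (by rw [he]; decide)] at a5
  rcases h1 with ⟨h1, h2⟩ | ⟨h1, h2⟩
  · exfalso
    have h3 := (i2b d h1 h2).2
    rw [a1, a2, ← D.aw_eq, ha] at h3
    exact absurd h3 (by decide)
  · exact ⟨d, a1, a2, h1, h2, a5⟩

end

section

variable (hM : P.IsManifold) (hk : 62 ≤ k) (T : LD W) {V : Dart P → Prop}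
  (G : Good T hk V)

include hM G

/-- the lanes on the A side -/
theorem lanes_A {x y z : ℤ} {t : P.FSt} (ht : SB x y z t) (ha : (D.K x z).aw y = false) :
    ((D.K x z).fN y = true → ((T.F x z).fN y ↔ jv V t)) ∧
      ((D.K x z).fN (y + 1) = true → ((T.F x z).fN (y + 1) ↔ jv V t)) ∧
      ((D.K x z).gS y = true → ((T.F x z).gS y ↔ jv V t)) ∧
      ((D.K x z).gS (y + 1) = true → ((T.F x z).gS (y + 1) ↔ jv V t)) := by
  obtain ⟨d, rfl, rfl, h1, h2, h3⟩ := cornerA hM G.phi G.theta ht ha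
  have hon : ∀ p, yu (nuD P d) ≤ p → p < yw d → onP P (xl d) p (zl d) = true ∧
      (D.K (xl d) (zl d)).aw p = false := fun p p1 p2 => by
    rw [D.aw_eq]
    exact i2d d p1 p2
  have key1 : ∀ p, yu (nuD P d) ≤ p → p ≤ yw d → (D.K (xl d) (zl d)).fN p = true →
      ((T.F (xl d) (zl d)).fN p ↔ jv V t) := by
    intro p p1 p2 hp
    obtain ⟨k1, k2⟩ := go_dn (f := (D.K (xl d) (zl d)).fN) (g := (T.F (xl d) (zl d)).fN)
      (a := yu (nuD P d)) (b := yw d) (fun q q1 q2 hq => by
        obtain ⟨o1, o2⟩ := hon q q1 q2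
        refine ⟨?_, (T.F _ _).fN_st q o1 o2 hq⟩
        rw [(D.ok _ _).fN_st q o1 o2, hq]
        rfl) (p - yu (nuD P d)).toNat p (by omega) p2 hp
    rw [k2, h3, ← W5.V_nu G.phi G.theta d]
    have hu : isUp (nuD P d).1 = true := by
      rw [isUp_nu]
      exact decide_eq_true (by omega)
    refine G.rw (nuD P d) true ((D.K (xl d) (zl d)).tb (yu (nuD P d))) _ ?_
    rw [Deco0.Vals.rw_eq' (T.vals hk) (x := xl d) (z := zl d) (κ := nuD P d) (xl_it d 1)
      (zl_it d 1)]
    unfold Deco0.Vals.rw'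
    have hm : ((true, (D.K (xl d) (zl d)).tb (yu (nuD P d)),
        ((T.vals hk).V (xl d) (zl d)).fN (yu (nuD P d))) : Bool × (Dart P ⊕ Dart P) × Prop) ∈
        opt (isUp (nuD P d).1 && (D.K (xl d) (zl d)).fN (yu (nuD P d)))
          (true, (D.K (xl d) (zl d)).tb (yu (nuD P d)),
            ((T.vals hk).V (xl d) (zl d)).fN (yu (nuD P d))) := by
      rw [hu, k1]
      exact List.mem_cons_self
    exact List.mem_append_left _ (List.mem_append_right _ (List.mem_append_right _ hm))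
  have key2 : ∀ p, yu (nuD P d) ≤ p → p ≤ yw d → (D.K (xl d) (zl d)).gS p = true →
      ((T.F (xl d) (zl d)).gS p ↔ jv V t) := by
    intro p p1 p2 hp
    obtain ⟨k1, k2⟩ := go_up (f := (D.K (xl d) (zl d)).gS) (g := (T.F (xl d) (zl d)).gS)
      (a := yu (nuD P d)) (b := yw d) (fun q q1 q2 hq => by
        obtain ⟨o1, o2⟩ := hon q q1 q2
        refine ⟨?_, (T.F _ _).gS_st q o1 o2 hq⟩
        rw [(D.ok _ _).gS_st q o1 o2, hq]
        rfl) (yw d - p).toNat p (by omega) p1 hp
    rw [k2, h3]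
    have hu : isDn (phi P d).1 = true := by
      rw [isDn_phi]
      exact decide_eq_true (by omega)
    refine G.rw d false ((D.K (xl d) (zl d)).tv (yw d)) _ ?_
    rw [Deco0.Vals.rw_eq' (T.vals hk) (x := xl d) (z := zl d) rfl rfl]
    unfold Deco0.Vals.rw'
    have hm : ((false, (D.K (xl d) (zl d)).tv (yw d),
        ((T.vals hk).V (xl d) (zl d)).gS (yw d)) : Bool × (Dart P ⊕ Dart P) × Prop) ∈
        opt (isDn (phi P d).1 && (D.K (xl d) (zl d)).gS (yw d))
          (false, (D.K (xl d) (zl d)).tv (yw d),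
            ((T.vals hk).V (xl d) (zl d)).gS (yw d)) := by
      rw [hu, k1]
      exact List.mem_cons_self
    exact List.mem_append_left _ (List.mem_append_left _ (List.mem_append_left _
      (List.mem_append_left _ (List.mem_append_right _ hm))))
  exact ⟨key1 y h1 (by omega), key1 (y + 1) (by omega) (by omega), key2 y h1 (by omega),
    key2 (y + 1) (by omega) (by omega)⟩

omit hM in
/-- the lanes on the B side -/
theorem lanes_B {x y z : ℤ} {t : P.FSt} (ht : SB x y z t) (hb : (D.K x z).bw y = false) :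
    ((D.K x z).fS y = true → ((T.F x z).fS y ↔ jv V t)) ∧
      ((D.K x z).fS (y + 1) = true → ((T.F x z).fS (y + 1) ↔ jv V t)) ∧
      ((D.K x z).gN y = true → ((T.F x z).gN y ↔ jv V t)) ∧
      ((D.K x z).gN (y + 1) = true → ((T.F x z).gN (y + 1) ↔ jv V t)) := by
  obtain ⟨d, rfl, rfl, h1, h2, h3⟩ := cornerB G.phi G.theta ht hb
  have hon : ∀ p, yw d ≤ p → p < yu (nuD P d) → onP P (xl d) p (zl d) = true ∧
      (D.K (xl d) (zl d)).bw p = false := fun p p1 p2 => by
    rw [D.bw_eq]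
    exact i2c d p1 p2
  have key1 : ∀ p, yw d ≤ p → p ≤ yu (nuD P d) → (D.K (xl d) (zl d)).fS p = true →
      ((T.F (xl d) (zl d)).fS p ↔ jv V t) := by
    intro p p1 p2 hp
    obtain ⟨k1, k2⟩ := go_dn (f := (D.K (xl d) (zl d)).fS) (g := (T.F (xl d) (zl d)).fS)
      (a := yw d) (b := yu (nuD P d)) (fun q q1 q2 hq => by
        obtain ⟨o1, o2⟩ := hon q q1 q2
        refine ⟨?_, (T.F _ _).fS_st q o1 o2 hq⟩
        rw [(D.ok _ _).fS_st q o1 o2, hq]
        rfl) (p - yw d).toNat p (by omega) p2 hp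
    rw [k2, h3]
    have hu : isUp (phi P d).1 = true := by
      rw [isUp_phi]
      exact decide_eq_true (by omega)
    refine G.rw d false ((D.K (xl d) (zl d)).tb (yw d)) _ ?_
    rw [Deco0.Vals.rw_eq' (T.vals hk) (x := xl d) (z := zl d) rfl rfl]
    unfold Deco0.Vals.rw'
    have hm : ((false, (D.K (xl d) (zl d)).tb (yw d),
        ((T.vals hk).V (xl d) (zl d)).fS (yw d)) : Bool × (Dart P ⊕ Dart P) × Prop) ∈
        opt (isUp (phi P d).1 && (D.K (xl d) (zl d)).fS (yw d))
          (false, (D.K (xl d) (zl d)).tb (yw d),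
            ((T.vals hk).V (xl d) (zl d)).fS (yw d)) := by
      rw [hu, k1]
      exact List.mem_cons_self
    exact List.mem_append_left _ (List.mem_append_left _ (List.mem_append_left _
      (List.mem_append_left _ (List.mem_append_left _ (List.mem_append_right _ hm)))))
  have key2 : ∀ p, yw d ≤ p → p ≤ yu (nuD P d) → (D.K (xl d) (zl d)).gN p = true →
      ((T.F (xl d) (zl d)).gN p ↔ jv V t) := by
    intro p p1 p2 hp
    obtain ⟨k1, k2⟩ := go_up (f := (D.K (xl d) (zl d)).gN) (g := (T.F (xl d) (zl d)).gN)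
      (a := yw d) (b := yu (nuD P d)) (fun q q1 q2 hq => by
        obtain ⟨o1, o2⟩ := hon q q1 q2
        refine ⟨?_, (T.F _ _).gN_st q o1 o2 hq⟩
        rw [(D.ok _ _).gN_st q o1 o2, hq]
        rfl) (yu (nuD P d) - p).toNat p (by omega) p1 hp
    rw [k2, h3, ← W5.V_nu G.phi G.theta d]
    have hu : isDn (nuD P d).1 = true := by
      rw [isDn_nu]
      exact decide_eq_true (by omega)
    refine G.rw (nuD P d) true ((D.K (xl d) (zl d)).tv (yu (nuD P d))) _ ?_
    rw [Deco0.Vals.rw_eq' (T.vals hk) (x := xl d) (z := zl d) (κ := nuD P d) (xl_it d 1)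
      (zl_it d 1)]
    unfold Deco0.Vals.rw'
    have hm : ((true, (D.K (xl d) (zl d)).tv (yu (nuD P d)),
        ((T.vals hk).V (xl d) (zl d)).gN (yu (nuD P d))) : Bool × (Dart P ⊕ Dart P) × Prop) ∈
        opt (isDn (nuD P d).1 && (D.K (xl d) (zl d)).gN (yu (nuD P d)))
          (true, (D.K (xl d) (zl d)).tv (yu (nuD P d)),
            ((T.vals hk).V (xl d) (zl d)).gN (yu (nuD P d))) := by
      rw [hu, k1]
      exact List.mem_cons_self
    exact List.mem_append_left _ (List.mem_append_right _ (List.mem_append_left _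
      (List.mem_append_right _ hm)))
  exact ⟨key1 y h1 (by omega), key1 (y + 1) (by omega) (by omega), key2 y h1 (by omega),
    key2 (y + 1) (by omega) (by omega)⟩

end

end W4

end Pool.Agent.MP42D
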