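import Pool.Agent.MP42.D.W4Defs

/-!
# Piece W4e: the values of the states with east `± y` (owner helper55)
-/

set_option autoImplicit false
set_option linter.unusedSectionVars false

namespace Pool.Agent.MP42D

open Pool.Agent.Helper55.UNF Pool.Agent.Helper55.UNF.GridSolid Pool.Agent.MP42 Pool.Agent.MP42G
open W5

variable {P : GridSolid} {D : Deco P} {k B : ℕ} {W : CV D k B}

namespace W4e

section

variable (hM : P.IsManifold) {V : Dart P → Prop}
  (h1 : ∀ d, V (phi P d) ↔ V d) (h2 : ∀ d, V (theta P d) ↔ V d)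

include hM h1 h2

/-- the value of the junction does not change at a step along a flat side -/
lemma jv_flat {s t : P.FSt} (he : s.1.e.1 = 1) (h : s.stE = t) (hd : s.1.d.1 = t.1.d.1) :
    jv V s ↔ jv V t := by
  have hd2 : s.1.d.1 = 0 ∨ s.1.d.1 = 2 := two_axes s he
  rcases hd2 with hd2 | hd2
  · have hV : s.1.n.1 = 2 := n_of_wall _ _ hd2 he
    rw [← h]
    exact (jv_E hV).symm
  · have e1 : s.rR.stN = s.stE.rR := by
      show s.rR.rL.stE.rR = _
      rw [FSt.rR_rL]
    have hn : s.rR.1.e.1 ≠ 2 := by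
      have key : ∀ d e : Dir, d.1 = 2 → e.1 = 1 → (cross d e).1 ≠ 2 := by decide
      exact key _ _ hd2 he
    have k1 := jv_symm' hM h1 h2 s.rR hn
    rw [e1, h] at k1
    have hdt : t.1.d.1 = 2 := by rw [← hd]; exact hd2
    have k2 : jv V t.rR.r2 ↔ jv V t := jv_facet (V := V) hdt rfl
    have k3 : jv V s.rR ↔ jv V s := jv_facet (V := V) hd2 rfl
    exact k3.symm.trans (k1.symm.trans k2)

/-- the value of the junction is the same at two segments of a line with a common end -/
lemma jv_line (h3 : Deg3 P) {x y z : ℤ} {s t : P.FSt} (hs : SB x (y - 1) z s) (ht : SB x y z t) :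
    jv V s ↔ jv V t := by
  rcases one_event hM h3 x y z hs.on ht.on with h | h
  · -- the A side is flat
    have hs' := hs.toSA
    have ht' := ht.toSA
    have e := SA.next hM h3 hs' ht' h
    have k1 := jv_symm' hM h1 h2 s (by rw [hs.1]; decide)
    have k2 := jv_symm' hM h1 h2 t (by rw [ht.1]; decide)
    have hd : t.stN.r2.1.d.1 = s.stN.r2.1.d.1 := by
      cases hb : awP P x y z
      · rw [hb] at h
        rw [ht'.plate hb, hs'.plate h]
      · rw [hb] at h
        rw [ht'.wall hb, hs'.wall h]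
    have k3 := jv_flat hM h1 h2 (by rw [ht'.1]) e hd
    exact k1.symm.trans (k3.symm.trans k2)
  · have e := SB.next hM h3 hs ht h
    have hd : s.1.d.1 = t.1.d.1 := by
      cases hb : bwP P x y z
      · rw [hb] at h
        rw [ht.plate hb, hs.plate h]
      · rw [hb] at h
        rw [ht.wall hb, hs.wall h]
    exact jv_flat hM h1 h2 (by rw [hs.1]) e hd

end

end W4e

section

variable (hM : P.IsManifold) (h3 : Deg3 P) (hk : 62 ≤ k) (T : LD W) {V : Dart P → Prop}
  (h1 : ∀ d, V (phi P d) ↔ V d) (h2 : ∀ d, V (theta P d) ↔ V d)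
  (lv : ∀ (x y z : ℤ) (t : P.FSt), SB x y z t →
    (∀ s, (D.K x z).M s y = true → ((T.L x z).mv s y ↔ jv V t)) ∧
    (∀ s, ((D.K x z).cn s y = true ∨ (D.K x z).cs s y = true) → ((T.L x z).cv s y ↔ jv V t)))
  (vx : ∀ s : P.FSt, s.1.e.1 = 0 → ∀ X < 7 * k, D.ev k s X ≠ El.o → (W.val s X ↔ jv V s))

include hM h3 hk h1 h2 lv vx

lemma val_y_B {x y z : ℤ} {t : P.FSt} (ht : SB x y z t) {X : ℕ} (hX : X < 7 * k)
    (h : D.ev k t X ≠ El.o) : W.val t X ↔ jv V t := by
  have ho := ht.on
  have hok := D.ok x z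
  have hev := ht.ev D X (k := k)
  by_cases hl : ((D.K x z).kl k y X).ln = Helper55.UNF.Ln.z
  · -- a bump or a valley
    have he : (D.K x z).kl k y X = El.e := by
      rw [hev] at h
      revert hl h
      generalize (D.K x z).kl k y X = a
      cases a <;> simp [El.ln]
    have hbv : ((D.K x z).bp y = true ∧ X = 2 * k + 3) ∨
        ((D.K x z).vl y = true ∧ X = 4 * k + 3) := by
      unfold KD.kl at he
      split_ifs at he with c1 c2 c3
      exact c3
    have hbw : bwP P x y z = false := by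
      rw [← D.bw_eq]
      rcases hbv with ⟨h4, -⟩ | ⟨h4, -⟩
      · exact (hok.bp_ok _ h4).2.2.1
      · exact (hok.vl_ok _ h4).2.2.1
    obtain ⟨F, hF, e1, e2, e3, e4⟩ := ht.exF hbw
    have hd : (bf F).1.d.1 = 2 := hF
    have he0 : (bf F).1.e.1 = 0 := Deco.bf_e0 F hF
    have hKW : (D.pd (bf F)).KW = D.K x z := by
      show D.K (Geo.nw (bf F).1 0) (Geo.nw (bf F).1 2) = _
      rw [e2, e4]
    have hy : (D.pd (bf F)).y = y := e3
    have hpd := D.pd_ok hM F hF
    have hR := W.cell F hF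
    have hvv : W.val t X ↔ W.vv F 0 X := by
      rw [← e1] at h ⊢
      exact (W.sW F hF X hX h).symm
    have hjt : jv V t ↔ jv V (bf F) := by
      rw [← e1]
      exact jv_facet (V := V) hd rfl
    rw [hvv, hjt]
    rcases hbv with ⟨h4, rfl⟩ | ⟨h4, rfl⟩
    · have h5 : (D.pd (bf F)).KW.bp (D.pd (bf F)).y = true := by rw [hKW, hy]; exact h4
      rw [← hR.bpW hpd (by omega) h5]
      have h6 : D.ev k (bf F).r2 (7 * k - 1 - (2 * k + 5)) ≠ El.o := by
        rw [← D.side_S hM h3 hk F hF (by omega), PD.Hv_b (by omega) (Or.inr (Or.inr ⟨h5, by omega⟩))]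
        decide
      rw [W.sS F hF (2 * k + 5) (by omega) h6, vx (bf F).r2 he0 _ (by omega) h6]
      exact jv_facet (V := V) hd rfl
    · have h5 : (D.pd (bf F)).KW.vl (D.pd (bf F)).y = true := by rw [hKW, hy]; exact h4
      rw [← hR.vlW hpd (by omega) h5]
      have h6 : D.ev k (bf F) (2 * k + 3) ≠ El.o := by
        rw [← D.side_N hM h3 hk F hF (by omega), PD.Hv_a (by omega) (Or.inr (Or.inr ⟨h5, by omega⟩))]
        decide
      rw [W.sN F hF (2 * k + 3) (by omega) h6, vx (bf F) he0 _ (by omega) h6]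
  · -- a letter
    have hlam := (T.lk x z).lam t ht.1 ht.nw0 ht.nw2 X hX h
    rw [ht.nw1] at hlam
    rw [← hlam]
    rcases (T.L x z).letter hok (by omega) ho hX hl with ⟨s, hs, e⟩ | ⟨s, hs, e⟩ | ⟨s, hs, e⟩ |
      ⟨s, hs, e⟩
    · rw [e]
      exact (lv x y z t ht).1 s hs
    · rw [e]
      obtain ⟨t', ht'⟩ := exists_SB (hok.M_on s _ hs).2.1
      rw [(lv x (y - 1) z t' ht').1 s hs]
      exact W4e.jv_line hM h1 h2 h3 ht' ht
    · rw [e]
      obtain ⟨t', ht'⟩ := exists_SB (hok.M_on s _ hs).2.1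
      rw [(lv x (y + 1) z t' ht').1 s hs]
      have ht2 : SB x (y + 1 - 1) z t := by
        rw [show y + 1 - 1 = y by ring]; exact ht
      exact (W4e.jv_line hM h1 h2 h3 ht2 ht').symm
    · rw [e]
      exact (lv x y z t ht).2 s hs

/-- W4e: states with east `± y` -/
theorem val_y_of (s : P.FSt) (hs : s.1.e.1 = 1) {X : ℕ} (hX : X < 7 * k)
    (h : D.ev k s X ≠ El.o) : W.val s X ↔ jv V s := by
  have hcase : s.1.e = (1, true) ∨ s.1.e = (1, false) := by
    have key : ∀ e : Dir, e.1 = 1 → e = (1, true) ∨ e = (1, false) := by decide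
    exact key _ hs
  rcases hcase with he | he
  · have ht : SB (Geo.nw s.1 0) (Geo.nw s.1 1) (Geo.nw s.1 2) s := by
      refine ⟨he, ?_⟩
      funext a
      fin_cases a <;> rfl
    exact val_y_B hM h3 hk T h1 h2 lv vx ht hX h
  · have ht : SA (Geo.ne s.1 0) (Geo.ne s.1 1) (Geo.ne s.1 2) s := by
      refine ⟨he, ?_⟩
      funext a
      fin_cases a <;> rfl
    have hev := ht.ev D X (k := k)
    rw [hev] at h
    have h4 := SA.val (D := D) hM (W := W) ht ht.toSB (T := 7 * k - 1 - X) (by omega) h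
    rw [show 7 * k - 1 - (7 * k - 1 - X) = X by omega] at h4
    rw [← h4, val_y_B hM h3 hk T h1 h2 lv vx ht.toSB (X := 7 * k - 1 - X) (by omega)
      (by rw [ht.toSB.ev D]; exact h)]
    exact jv_symm' hM h1 h2 s (by rw [he]; decide)

end

end Pool.Agent.MP42D
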