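import Pool.Agent.MP42.D.W4b
import Pool.Agent.MP42.D.W4e

/-!
# Piece W4c: tracks and single letters have the value of the junction (owner helper89)
-/

set_option autoImplicit false
set_option linter.unusedSectionVars false

namespace Pool.Agent.MP42D

open Pool.Agent.Helper55.UNF Pool.Agent.Helper55.UNF.GridSolid Pool.Agent.MP42 Pool.Agent.MP42G

variable {P : GridSolid} {D : Deco P} {k B : ℕ} {W : CV D k B}

namespace W4

section

variable {V : Dart P → Prop}

/-- the corner of a wall on the B side -/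
lemma corner_B (v1 : ∀ d, V (phi P d) ↔ V d) (v2 : ∀ d, V (theta P d) ↔ V d)
    {x y z : ℤ} {t : P.FSt} (ht : SB x y z t) (hb : bwP P x y z = true) :
    ∃ κ : Dart P, xl κ = x ∧ zl κ = z ∧ yu κ ≤ y ∧ y < yw κ ∧ (jv V t ↔ V κ) := by
  obtain ⟨κ, h1, h2, h3, -, h5⟩ := W5.cover v1 v2 t (by rw [ht.1])
  rw [ht.nw0] at h1
  rw [ht.nw2] at h2
  have h6 := h3 (by rw [ht.1])
  have e : W5.uY t = y := by
    unfold W5.uY
    rw [ht.1, if_pos rfl, ht.nw1]
  rw [e] at h6
  rcases h6 with ⟨a, b⟩ | ⟨a, b⟩
  · exact ⟨κ, h1, h2, a, b, h5⟩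
  · exfalso
    have := (i2c κ a b).2
    rw [h1, h2, hb] at this
    exact absurd this (by decide)

/-- the corner of a wall on the A side -/
lemma corner_A (v1 : ∀ d, V (phi P d) ↔ V d) (v2 : ∀ d, V (theta P d) ↔ V d)
    {x y z : ℤ} {t : P.FSt} (ht : SA x y z t) (hb : awP P x y z = true) :
    ∃ κ : Dart P, xl κ = x ∧ zl κ = z ∧ yw κ ≤ y ∧ y < yu κ ∧ (jv V t ↔ V κ) := by
  obtain ⟨κ, h1, h2, -, h3, h5⟩ := W5.cover v1 v2 t (by rw [ht.1])
  have n0 : Geo.nw t.1 0 = x := by rw [ht.nw]; rfl
  have n1 : Geo.nw t.1 1 = y + 1 := by rw [ht.nw]; rfl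
  have n2 : Geo.nw t.1 2 = z := by rw [ht.nw]; rfl
  rw [n0] at h1
  rw [n2] at h2
  have h6 := h3 (by rw [ht.1])
  have e : W5.uY t = y := by
    unfold W5.uY
    rw [ht.1, if_neg (by decide), n1]
    ring
  rw [e] at h6
  rcases h6 with ⟨a, b⟩ | ⟨a, b⟩
  · exact ⟨κ, h1, h2, a, b, h5⟩
  · exfalso
    have := (i2d κ a b).2
    rw [h1, h2, hb] at this
    exact absurd this (by decide)

end

/-- a line in the surface is bounded -/
lemma on_bdd (x z : ℤ) : ∃ lo : ℤ, ∀ y, onP P x y z = true → lo ≤ y := by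
  have hfin : {y : ℤ | onP P x y z = true}.Finite := by
    have h1 : ∀ y : {y : ℤ | onP P x y z = true}, ∃ s : P.FSt, SB x y.1 z s :=
      fun y => exists_SB y.2
    choose f hf using h1
    have hinj : Function.Injective f := by
      intro y y' h
      apply Subtype.ext
      rw [← (hf y).nw1, ← (hf y').nw1, h]
    exact Set.finite_coe_iff.1 (Finite.of_injective f hinj)
  obtain ⟨lo, hlo⟩ := hfin.bddBelow
  exact ⟨lo, fun y hy => hlo hy⟩

section

variable (hM : P.IsManifold) (h3 : Deg3 P) (hk : 62 ≤ k) (T : LD W) {V : Dart P → Prop}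
  (G : Good T hk V)

include G

/-- letters of the walls of a corner -/
lemma mem_xw {κ : Dart P} {x z : ℤ} (hx : xl κ = x) (hz : zl κ = z) {b : Bool}
    {t : Dart P ⊕ Dart P} {v : Prop}
    (h : (b, t, v) ∈ ((D.K x z).withV ((T.vals hk).V x z)).xw (yu κ) (yw κ)) : v ↔ V κ := by
  subst hx hz
  apply G.rw κ b t v
  unfold Deco0.Vals.rw
  simp only [List.mem_append]
  exact Or.inl (Or.inl (Or.inr h))

omit G in
lemma mem_opt' {α : Type*} {b : Bool} {a : α} (h : b = true) : a ∈ opt b a := by
  subst h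
  exact List.mem_singleton.2 rfl

omit G in
lemma mem_sl4 {α : Type*} {f : Fin 4 → List α} {a : α} (s : Fin 4) (h : a ∈ f s) :
    a ∈ sl4 f ∧ a ∈ ls4 f := by
  unfold sl4 ls4
  simp only [List.mem_append]
  fin_cases s
  · exact ⟨Or.inl (Or.inl (Or.inl h)), Or.inr h⟩
  · exact ⟨Or.inl (Or.inl (Or.inr h)), Or.inl (Or.inr h)⟩
  · exact ⟨Or.inl (Or.inr h), Or.inl (Or.inl (Or.inr h))⟩
  · exact ⟨Or.inr h, Or.inl (Or.inl (Or.inl h))⟩

include hM h3

/-- **W4c**: tracks -/
theorem line_M {x y z : ℤ} {t : P.FSt} (ht : SB x y z t) (s : Fin 4)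
    (hs : (D.K x z).M s y = true) : (T.L x z).mv s y ↔ jv V t := by
  obtain ⟨lo, hlo⟩ := on_bdd (P := P) x z
  have hok := D.ok x z
  have main : ∀ (n : ℕ) (y : ℤ) (t : P.FSt), (y - lo).toNat = n → SB x y z t →
      (D.K x z).M s y = true → ((T.L x z).mv s y ↔ jv V t) := by
    intro n
    induction n using Nat.strong_induction_on with
    | _ n ih =>
      intro y t hn ht hs
      obtain ⟨o1, o2, -⟩ := hok.M_on s y hs
      obtain ⟨t', ht'⟩ := exists_SB o1
      have hj : jv V t' ↔ jv V t := W4e.jv_line hM G.phi G.theta h3 ht' ht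
      cases h1 : (D.K x z).M s (y - 1)
      · rcases hok.start s y hs h1 with ⟨a1, a2⟩ | ⟨a1, a2⟩
        · rw [D.aw_eq] at a1 a2
          have hA := ht'.toSA
          obtain ⟨κ, k1, k2, k4, k5, k6⟩ := corner_A G.phi G.theta hA a1
          have hy : yu κ = y := by
            by_contra hne
            have := (i2b κ (y := y) (by omega) (by omega)).2
            rw [k1, k2, a2] at this
            exact absurd this (by decide)
          have hmem : (false, (D.K x z).tM s y, (T.L x z).mv s y) ∈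
              ((D.K x z).withV ((T.vals hk).V x z)).xw (yu κ) (yw κ) := by
            unfold KD.xw
            rw [if_pos (by omega)]
            apply List.mem_append_right
            rw [hy]
            refine (mem_sl4 s ?_).2
            apply mem_opt'
            show ((D.K x z).M s y && !(D.K x z).M s (y - 1)) = true
            rw [hs, h1]
            rfl
          rw [mem_xw hk T G k1 k2 hmem, ← k6, ← hj]
          exact jv_symm' hM G.phi G.theta t' (by rw [ht'.1]; decide)
        · rw [D.bw_eq] at a1 a2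
          obtain ⟨κ, k1, k2, k4, k5, k6⟩ := corner_B G.phi G.theta ht' a1
          have hy : yw κ = y := by
            by_contra hne
            have := (i2a κ (y := y) (by omega) (by omega)).2
            rw [k1, k2, a2] at this
            exact absurd this (by decide)
          have hmem : (true, (D.K x z).tM s y, (T.L x z).mv s y) ∈
              ((D.K x z).withV ((T.vals hk).V x z)).xw (yu κ) (yw κ) := by
            unfold KD.xw
            rw [if_neg (by omega), if_pos (by omega)]
            apply List.mem_append_left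
            apply List.mem_append_left
            rw [hy]
            refine (mem_sl4 s ?_).2
            apply mem_opt'
            show ((D.K x z).M s y && !(D.K x z).M s (y - 1)) = true
            rw [hs, h1]
            rfl
          rw [mem_xw hk T G k1 k2 hmem, ← k6, ← hj]
      · rw [← (T.L x z).mv_st hok (by omega) h1 hs, ← hj]
        have hlo1 := hlo _ o1
        exact ih ((y - 1 - lo).toNat) (by omega) (y - 1) t' rfl ht' h1
  exact main _ y t rfl ht hs

omit hM h3 G in
lemma ct_mem {τ : Type*} (K : KD τ) {s : Fin 4} {y : ℤ} (hs : s = 1 ∨ s = 2) :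
    (K.cn s y = true → (true, K.tC s y) ∈ K.ct y) ∧
    (K.cs s y = true → (false, K.tC s y) ∈ K.ct y) := by
  unfold KD.ct
  simp only [List.mem_append]
  rcases hs with rfl | rfl
  · exact ⟨fun h => Or.inl (Or.inl (Or.inl (mem_opt' h))), fun h => Or.inr (mem_opt' h)⟩
  · exact ⟨fun h => Or.inl (Or.inr (mem_opt' h)), fun h => Or.inl (Or.inl (Or.inr (mem_opt' h)))⟩

omit hM h3 in
/-- **W4c**: single letters -/
theorem line_C {x y z : ℤ} {t : P.FSt} (ht : SB x y z t) (s : Fin 4)
    (hs : (D.K x z).cn s y = true ∨ (D.K x z).cs s y = true) : (T.L x z).cv s y ↔ jv V t := by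
  have hok := D.ok x z
  have hb : bwP P x y z = true ∧ (s = 1 ∨ s = 2) := by
    rw [← D.bw_eq]
    rcases hs with h | h
    · exact ⟨(hok.cn_ok s y h).2.1, (hok.cn_ok s y h).2.2.1⟩
    · exact ⟨(hok.cs_ok s y h).2.1, (hok.cs_ok s y h).2.2.1⟩
  obtain ⟨κ, k1, k2, k4, k5, k6⟩ := corner_B G.phi G.theta ht hb.1
  have hsub : ∀ a, a ∈ ((D.K x z).withV ((T.vals hk).V x z)).ct y →
      a ∈ ((D.K x z).withV ((T.vals hk).V x z)).xw (yu κ) (yw κ) := by
    intro a ha
    unfold KD.xw
    rw [if_neg (by omega), if_pos (by omega)]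
    apply List.mem_append_left
    apply List.mem_append_right
    rw [List.mem_reverse]
    unfold KD.cts
    rw [List.mem_flatMap]
    refine ⟨(y - yu κ).toNat, ?_, ?_⟩
    · rw [List.mem_range]
      omega
    · rw [show yu κ + ((y - yu κ).toNat : ℤ) = y by omega]
      exact ha
  have hct := ct_mem ((D.K x z).withV ((T.vals hk).V x z)) (s := s) (y := y) hb.2
  rw [k6]
  rcases hs with h | h
  · exact mem_xw hk T G k1 k2 (hsub _ (hct.1 h))
  · exact mem_xw hk T G k1 k2 (hsub _ (hct.2 h))

end

end W4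

end Pool.Agent.MP42D
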