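import Pool.Agent.MP42.D.W1a

/-!
# Piece W1b: the lanes along a line and along a strip (part of piece W, owner helper85)
-/

set_option autoImplicit false
set_option linter.unusedSectionVars false

namespace Pool.Agent.MP42D

open Pool.Agent.Helper55.UNF Pool.Agent.Helper55.UNF.GridSolid Pool.Agent.MP42 Pool.Agent.MP42G

variable {P : GridSolid}

/-! ### A state is determined by its east direction and a corner -/

lemma ed_rL_ne (s : P.FSt) (a : Fin 3) : Geo.ed s.rL.1 a =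
    Geo.ne s.1 a - (if a = s.1.e.1 ∧ s.1.e.2 = true then 1 else 0) := by
  have h1 := s.2.2
  have h2 := cross_axis_right s.1.d s.1.e h1
  show s.1.c a + Geo.offE s.1.d (cross s.1.d s.1.e) a =
    Geo.cnr s.1.c s.1.d s.1.e (cross s.1.d s.1.e) a - _
  unfold Geo.offE Geo.cnr
  simp only [dir_iff]
  by_cases he : a = s.1.e.1 ∧ s.1.e.2 = true
  · have c1 : ¬ (a = s.1.d.1 ∧ s.1.d.2 = true) := fun h => h1 (h.1.symm.trans he.1)
    have c2 : ¬ (a = (cross s.1.d s.1.e).1 ∧ (cross s.1.d s.1.e).2 = true) :=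
      fun h => h2 (h.1.symm.trans he.1)
    rw [if_neg (by tauto), if_pos (by tauto), if_pos he]
    ring
  · rw [if_neg he]
    have : ((a = s.1.d.1 ∧ s.1.d.2 = true) ∨ (a = s.1.e.1 ∧ s.1.e.2 = true) ∨
        (a = (cross s.1.d s.1.e).1 ∧ (cross s.1.d s.1.e).2 = true)) ↔
        ((a = s.1.d.1 ∧ s.1.d.2 = true) ∨
        (a = (cross s.1.d s.1.e).1 ∧ (cross s.1.d s.1.e).2 = true)) := by tauto
    rw [if_congr this rfl rfl]
    ring

lemma ne_uniq (hM : P.IsManifold) {s t : P.FSt} (he : s.1.e = t.1.e)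
    (h : Geo.ne s.1 = Geo.ne t.1) : s = t := by
  have h1 : s.rL = t.rL := by
    apply Geo.state_unique hM
    · show cross s.1.d (cross s.1.d s.1.e) = cross t.1.d (cross t.1.d t.1.e)
      rw [cross_cross _ _ s.2.2, cross_cross _ _ t.2.2, he]
    · funext a
      rw [ed_rL_ne, ed_rL_ne, h, he]
  have h2 := congrArg FSt.rR h1
  rwa [FSt.rL_rR, FSt.rL_rR] at h2

lemma nw_uniq (hM : P.IsManifold) {s t : P.FSt} (he : s.1.e = t.1.e)
    (h : Geo.nw s.1 = Geo.nw t.1) : s = t := by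
  have h1 : s.stN.r2 = t.stN.r2 := by
    apply ne_uniq hM
    · show opp s.stN.1.e = opp t.stN.1.e
      rw [FSt.stN_e, FSt.stN_e, he]
    · rw [ne_N, ne_N, h]
  have h2 : s.stN.r2.stN.r2 = t.stN.r2.stN.r2 := by rw [h1]
  rwa [NN, NN] at h2

/-! ### States that go up -/

lemma up_cases (s : P.FSt) (he : s.1.e.1 = 0) (hu : isUp s = true) :
    (∃ F : P.Facet, IsPl F ∧ s = bf F) ∨ ∃ F : P.Facet, IsPl F ∧ s.stN = bf F := by
  have a1 : ∀ d e : Dir, d.1 ≠ e.1 → e.1 = 0 → (cross d e).1 = 1 → d.1 = 2 := by decide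
  have key : ∀ t : P.FSt, t.1.e.1 = 0 → t.1.n = (1, true) → IsPl t.facet ∧ t = bf t.facet := by
    intro t h1 h2
    have h3 : (cross t.1.d t.1.e).1 = 1 := by
      have : cross t.1.d t.1.e = (1, true) := h2
      rw [this]
    have h4 : IsPl t.facet := a1 _ _ t.2.2 h1 h3
    exact ⟨h4, st_n_eq rfl (h2.trans (Deco0.e_aux1 _ h4).symm)⟩
  unfold isUp at hu
  rw [decide_eq_true_eq] at hu
  rcases hu with h | ⟨-, h⟩
  · exact Or.inl ⟨_, key s he h⟩
  · exact Or.inr ⟨_, key s.stN (by rw [FSt.stN_e]; exact he) h⟩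

lemma pl_strip_A (F : P.Facet) (hF : IsPl F) :
    stripU P (Geo.ne (bf F).1 0) ((bf F).1.c 1) (Geo.ne (bf F).1 2) (!(bf F).1.e.2) false := by
  have h1 := SA_bf F hF
  have h2 := strip_bits (bf F).rR false hF h1.1
  rw [h1.nw] at h2
  have h3 : (bf F).rR.1.n = (bf F).1.e := cross_opp_cross _ _ (bf F).2.2
  rw [h3] at h2
  simpa using h2

lemma pl_strip_B (F : P.Facet) (hF : IsPl F) :
    stripU P (Geo.nw (bf F).1 0) ((bf F).1.c 1) (Geo.nw (bf F).1 2) (bf F).1.e.2 true := by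
  have h1 := SB_bf F hF
  have h2 := strip_bits (bf F).rL true hF h1.1
  rw [h1.2] at h2
  have h3 : (bf F).rL.1.n = opp (bf F).1.e := cross_cross _ _ (bf F).2.2
  rw [h3] at h2
  simpa [opp] using h2

lemma ne_of_stN {s : P.FSt} {F : P.Facet} (hF : IsPl F) (h : s.stN = bf F) :
    Geo.ne s.1 = ![Geo.ne (bf F).1 0, (bf F).1.c 1, Geo.ne (bf F).1 2] := by
  rw [← nw_N, h]
  exact (plate_r2 (bf F) hF (Deco0.e_aux1 _ hF)).1

lemma nw_of_stN {s : P.FSt} {F : P.Facet} (hF : IsPl F) (h : s.stN = bf F) :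
    Geo.nw s.1 = ![Geo.nw (bf F).1 0, (bf F).1.c 1, Geo.nw (bf F).1 2] := by
  rw [← ne_N, h]
  exact (plate_r2 (bf F) hF (Deco0.e_aux1 _ hF)).2

lemma up_strip_ne (s : P.FSt) (he : s.1.e.1 = 0) (hu : isUp s = true) :
    ∃ y : ℤ, (y = Geo.ne s.1 1 - 1 ∨ y = Geo.ne s.1 1) ∧
      stripU P (Geo.ne s.1 0) y (Geo.ne s.1 2) (!s.1.e.2) false := by
  rcases up_cases s he hu with ⟨F, hF, rfl⟩ | ⟨F, hF, h⟩
  · refine ⟨_, Or.inl ?_, pl_strip_A F hF⟩
    rw [(nw_plate (bf F) hF (Deco0.e_aux1 _ hF)).2]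
    ring
  · have h1 := pl_strip_A F hF
    have h2 : (bf F).1.e = s.1.e := by rw [← h, FSt.stN_e]
    have h3 := ne_of_stN hF h
    refine ⟨(bf F).1.c 1, Or.inr ?_, ?_⟩
    · rw [h3]; rfl
    · rw [h3]
      rw [h2] at h1
      exact h1

lemma up_strip_nw (s : P.FSt) (he : s.1.e.1 = 0) (hu : isUp s = true) :
    ∃ y : ℤ, (y = Geo.nw s.1 1 - 1 ∨ y = Geo.nw s.1 1) ∧
      stripU P (Geo.nw s.1 0) y (Geo.nw s.1 2) s.1.e.2 true := by
  rcases up_cases s he hu with ⟨F, hF, rfl⟩ | ⟨F, hF, h⟩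
  · refine ⟨_, Or.inl ?_, pl_strip_B F hF⟩
    rw [(nw_plate (bf F) hF (Deco0.e_aux1 _ hF)).1]
    ring
  · have h1 := pl_strip_B F hF
    have h2 : (bf F).1.e = s.1.e := by rw [← h, FSt.stN_e]
    have h3 := nw_of_stN hF h
    refine ⟨(bf F).1.c 1, Or.inr ?_, ?_⟩
    · rw [h3]; rfl
    · rw [h3]
      rw [h2] at h1
      exact h1

lemma strip_side (hM : P.IsManifold) (h3 : Deg3 P) {x y z y1 y2 : ℤ} {r1 r2 b : Bool}
    (h1 : y1 = y - 1 ∨ y1 = y) (h2 : y2 = y - 1 ∨ y2 = y) (k1 : stripU P x y1 z r1 b)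
    (k2 : stripU P x y2 z r2 b) : r1 = r2 := by
  rcases h1 with rfl | rfl <;> rcases h2 with rfl | rfl
  · exact stripU_unique hM k1 k2
  · exact stripU_same hM h3 k1 k2
  · exact (stripU_same hM h3 k2 k1).symm
  · exact stripU_unique hM k1 k2

lemma up_ne_uniq (hM : P.IsManifold) (h3 : Deg3 P) {s t : P.FSt} (hs : s.1.e.1 = 0)
    (ht : t.1.e.1 = 0) (us : isUp s = true) (ut : isUp t = true)
    (h : Geo.ne s.1 = Geo.ne t.1) : s = t := by
  obtain ⟨y1, a1, k1⟩ := up_strip_ne s hs us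
  obtain ⟨y2, a2, k2⟩ := up_strip_ne t ht ut
  rw [h] at a1 k1
  have h4 := strip_side hM h3 a1 a2 k1 k2
  have h5 : s.1.e.2 = t.1.e.2 := by simpa using h4
  exact ne_uniq hM (Prod.ext (hs.trans ht.symm) h5) h

lemma up_nw_uniq (hM : P.IsManifold) (h3 : Deg3 P) {s t : P.FSt} (hs : s.1.e.1 = 0)
    (ht : t.1.e.1 = 0) (us : isUp s = true) (ut : isUp t = true)
    (h : Geo.nw s.1 = Geo.nw t.1) : s = t := by
  obtain ⟨y1, a1, k1⟩ := up_strip_nw s hs us
  obtain ⟨y2, a2, k2⟩ := up_strip_nw t ht ut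
  rw [h] at a1 k1
  have h5 : s.1.e.2 = t.1.e.2 := strip_side hM h3 a1 a2 k1 k2
  exact nw_uniq hM (Prod.ext (hs.trans ht.symm) h5) h

/-! ### Values at a point of a line -/

variable {D : Deco P} {k B : ℕ}

/-- the value next to the A side of a point -/
def vE (W : CV D k B) (v : Fin 3 → ℤ) (X : ℕ) : Prop :=
  ∃ s : P.FSt, s.1.e.1 = 0 ∧ isUp s = true ∧ Geo.ne s.1 = v ∧ W.val s X

/-- the value next to the B side of a point -/
def vW (W : CV D k B) (v : Fin 3 → ℤ) (X : ℕ) : Prop :=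
  ∃ s : P.FSt, s.1.e.1 = 0 ∧ isUp s = true ∧ Geo.nw s.1 = v ∧ W.val s X

lemma vE_iff (hM : P.IsManifold) (h3 : Deg3 P) (W : CV D k B) {s : P.FSt} (he : s.1.e.1 = 0)
    (hu : isUp s = true) {v : Fin 3 → ℤ} (hv : Geo.ne s.1 = v) (X : ℕ) :
    vE W v X ↔ W.val s X := by
  constructor
  · rintro ⟨t, h1, h2, h4, h5⟩
    rwa [up_ne_uniq hM h3 he h1 hu h2 (hv.trans h4.symm)]
  · intro h
    exact ⟨s, he, hu, hv, h⟩

lemma vW_iff (hM : P.IsManifold) (h3 : Deg3 P) (W : CV D k B) {s : P.FSt} (he : s.1.e.1 = 0)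
    (hu : isUp s = true) {v : Fin 3 → ℤ} (hv : Geo.nw s.1 = v) (X : ℕ) :
    vW W v X ↔ W.val s X := by
  constructor
  · rintro ⟨t, h1, h2, h4, h5⟩
    rwa [up_nw_uniq hM h3 he h1 hu h2 (hv.trans h4.symm)]
  · intro h
    exact ⟨s, he, hu, hv, h⟩

lemma vE_dn (hM : P.IsManifold) (h3 : Deg3 P) (W : CV D k B) {s : P.FSt} (he : s.1.e.1 = 0)
    (hd : isDn s = true) {v : Fin 3 → ℤ} (hv : Geo.nw s.1 = v) {X X' : ℕ} (hX : X < 7 * k)
    (hX' : X' = 7 * k - 1 - X) (h : D.ev k s X ≠ El.o) : vE W v X' ↔ W.val s X := by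
  subst hX'
  rw [vE_iff hM h3 W (s := s.stN.r2) (e_N he) (by rw [isUp_N s he]; exact hd)
    (by rw [ne_N]; exact hv)]
  exact W.symm s (by rw [he]; decide) X hX h

lemma vW_dn (hM : P.IsManifold) (h3 : Deg3 P) (W : CV D k B) {s : P.FSt} (he : s.1.e.1 = 0)
    (hd : isDn s = true) {v : Fin 3 → ℤ} (hv : Geo.ne s.1 = v) {X X' : ℕ} (hX : X < 7 * k)
    (hX' : X' = 7 * k - 1 - X) (h : D.ev k s X ≠ El.o) : vW W v X' ↔ W.val s X := by
  subst hX'
  rw [vW_iff hM h3 W (s := s.stN.r2) (e_N he) (by rw [isUp_N s he]; exact hd)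
    (by rw [nw_N]; exact hv)]
  exact W.symm s (by rw [he]; decide) X hX h

lemma ev_wN {s : P.FSt} (he : s.1.e.1 = 0) (h : D.wN s = true) :
    D.ev k s (2 * k + 3) ≠ El.o := by
  rw [D.ev_x k s he]
  unfold F7
  rw [if_pos ⟨rfl, h⟩]
  decide

lemma ev_wS {s : P.FSt} (he : s.1.e.1 = 0) (h : D.wS s = true) :
    D.ev k s (2 * k + 5) ≠ El.o := by
  rw [D.ev_x k s he]
  unfold F7
  rw [if_neg (by omega), if_pos ⟨rfl, h⟩]
  decide

lemma ev_eN (hk : 62 ≤ k) {s : P.FSt} (he : s.1.e.1 = 0) (h : D.eN s = true) :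
    D.ev k s (5 * k - 4) ≠ El.o := by
  rw [D.ev_x k s he]
  unfold F7
  rw [if_neg (by omega), if_neg (by omega), if_pos ⟨by omega, h⟩]
  decide

lemma ev_eS (hk : 62 ≤ k) {s : P.FSt} (he : s.1.e.1 = 0) (h : D.eS s = true) :
    D.ev k s (5 * k - 6) ≠ El.o := by
  rw [D.ev_x k s he]
  unfold F7
  rw [if_neg (by omega), if_neg (by omega), if_neg (by omega), if_pos ⟨by omega, h⟩]
  decide

/-! ### Values on the sides of a plate -/

section

variable (hM : P.IsManifold) (h3 : Deg3 P) (hk : 62 ≤ k) (W : CV D k B)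

include hM h3 hk

lemma pl_N {F : P.Facet} (hF : IsPl F) {X : ℕ} (hX : X < 7 * k)
    (h : (D.pd (bf F)).Hv k X (7 * k) ≠ El.o) : W.hv F X (7 * k) ↔ W.val (bf F) X :=
  W.sN F hF X hX (by rwa [← D.side_N hM h3 hk F hF hX])

lemma pl_S {F : P.Facet} (hF : IsPl F) {X : ℕ} (hX : X < 7 * k)
    (h : (D.pd (bf F)).Hv k X 0 ≠ El.o) : W.hv F X 0 ↔ W.val (bf F).r2 (7 * k - 1 - X) :=
  W.sS F hF X hX (by rwa [← D.side_S hM h3 hk F hF hX])

lemma plA_N {F : P.Facet} (hF : IsPl F) {X : ℕ} (hX : X < 7 * k)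
    (h : (D.pd (bf F)).Hv k X (7 * k) ≠ El.o) :
    vE W ![Geo.ne (bf F).1 0, (bf F).1.c 1 + 1, Geo.ne (bf F).1 2] X ↔ W.hv F X (7 * k) := by
  rw [pl_N hM h3 hk W hF hX h]
  refine vE_iff hM h3 W (Deco.bf_e0 F hF) (isUp_plate _ (Deco0.e_aux1 _ hF)) ?_ X
  have h4 := (nw_plate (bf F) hF (Deco0.e_aux1 _ hF)).2
  funext a
  fin_cases a
  · rfl
  · exact h4
  · rfl

lemma plB_N {F : P.Facet} (hF : IsPl F) {X : ℕ} (hX : X < 7 * k)
    (h : (D.pd (bf F)).Hv k X (7 * k) ≠ El.o) :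
    vW W ![Geo.nw (bf F).1 0, (bf F).1.c 1 + 1, Geo.nw (bf F).1 2] X ↔ W.hv F X (7 * k) := by
  rw [pl_N hM h3 hk W hF hX h]
  refine vW_iff hM h3 W (Deco.bf_e0 F hF) (isUp_plate _ (Deco0.e_aux1 _ hF)) ?_ X
  have h4 := (nw_plate (bf F) hF (Deco0.e_aux1 _ hF)).1
  funext a
  fin_cases a
  · rfl
  · exact h4
  · rfl

lemma plA_S {F : P.Facet} (hF : IsPl F) {X : ℕ} (hX : X < 7 * k)
    (h : (D.pd (bf F)).Hv k X 0 ≠ El.o) :
    vE W ![Geo.ne (bf F).1 0, (bf F).1.c 1, Geo.ne (bf F).1 2] X ↔ W.hv F X 0 := by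
  have hn := Deco0.e_aux1 _ hF
  rw [pl_S hM h3 hk W hF hX h]
  refine vE_dn hM h3 W (s := (bf F).r2) ?_ (isDn_plate_r2 _ hn) (plate_r2 (bf F) hF hn).1
    (by omega) (by omega) ?_
  · show (opp (bf F).1.e).1 = 0
    rw [opp_fst]
    exact Deco.bf_e0 F hF
  · rwa [← D.side_S hM h3 hk F hF hX]

lemma plB_S {F : P.Facet} (hF : IsPl F) {X : ℕ} (hX : X < 7 * k)
    (h : (D.pd (bf F)).Hv k X 0 ≠ El.o) :
    vW W ![Geo.nw (bf F).1 0, (bf F).1.c 1, Geo.nw (bf F).1 2] X ↔ W.hv F X 0 := by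
  have hn := Deco0.e_aux1 _ hF
  rw [pl_S hM h3 hk W hF hX h]
  refine vW_dn hM h3 W (s := (bf F).r2) ?_ (isDn_plate_r2 _ hn) (plate_r2 (bf F) hF hn).2
    (by omega) (by omega) ?_
  · show (opp (bf F).1.e).1 = 0
    rw [opp_fst]
    exact Deco.bf_e0 F hF
  · rwa [← D.side_S hM h3 hk F hF hX]

lemma pl_W {F : P.Facet} (hF : IsPl F) {Y : ℕ} (hY : Y < 7 * k)
    (h : (D.pd (bf F)).Vv k 0 Y ≠ El.o) : W.vv F 0 Y ↔ W.val (bf F).rL Y :=
  W.sW F hF Y hY (by rwa [← D.side_W hM h3 hk F hF hY])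

lemma pl_E {F : P.Facet} (hF : IsPl F) {Y : ℕ} (hY : Y < 7 * k)
    (h : (D.pd (bf F)).Vv k (7 * k) Y ≠ El.o) :
    W.vv F (7 * k) Y ↔ W.val (bf F).rR (7 * k - 1 - Y) :=
  W.sE F hF Y hY (by rwa [← D.side_E hM h3 hk F hF hY])

end

/-! ### The lanes along a line -/

lemma kl_ne {τ : Type*} (K : KD τ) (y : ℤ) {T : ℕ}
    (h : (K.bp y = true ∧ T = 2 * k + 3) ∨ (K.vl y = true ∧ T = 4 * k + 3)) :
    K.kl k y T ≠ El.o := by
  unfold KD.kl
  rw [if_pos h]
  split_ifs <;> decide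

lemma v3 {v : Fin 3 → ℤ} {x z : ℤ} (hx : v 0 = x) (hz : v 2 = z) : v = ![x, v 1, z] := by
  subst hx hz
  funext a
  fin_cases a <;> rfl

/-- **W1b** -/
theorem exists_fg' (hM : P.IsManifold) (h3 : Deg3 P) (hk : 62 ≤ k) (W : CV D k B) (x z : ℤ) :
    Nonempty (FG W x z) := by
  have hk' : 20 ≤ k := by omega
  have ok := D.ok x z
  -- plates along the line
  have exA : ∀ y, onP P x y z = true → (D.K x z).aw y = false → ∃ F : P.Facet, IsPl F ∧
      SA x y z (bf F).rR ∧ Geo.ne (bf F).1 0 = x ∧ (bf F).1.c 1 = y ∧ Geo.ne (bf F).1 2 = z := by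
    intro y ho ha
    obtain ⟨s, hs⟩ := exists_SA ho
    rw [D.aw_eq] at ha
    obtain ⟨F, hF, h1, h2, h4, h5⟩ := hs.exF ha
    exact ⟨F, hF, by rw [h1]; exact hs, h2, h4, h5⟩
  have exB : ∀ y, onP P x y z = true → (D.K x z).bw y = false → ∃ F : P.Facet, IsPl F ∧
      SB x y z (bf F).rL ∧ Geo.nw (bf F).1 0 = x ∧ (bf F).1.c 1 = y ∧ Geo.nw (bf F).1 2 = z := by
    intro y ho hb
    obtain ⟨s, hs⟩ := exists_SB ho
    rw [D.bw_eq] at hb
    obtain ⟨F, hF, h1, h2, h4, h5⟩ := hs.exF hb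
    exact ⟨F, hF, by rw [h1]; exact hs, h2, h4, h5⟩
  refine ⟨{
    fN := fun y => vE W ![x, y, z] (5 * k - 4)
    fS := fun y => vW W ![x, y, z] (2 * k + 5)
    gS := fun y => vE W ![x, y, z] (5 * k - 6)
    gN := fun y => vW W ![x, y, z] (2 * k + 3)
    fN_st := ?_, fS_st := ?_, gS_st := ?_, gN_st := ?_, bp := ?_, vl := ?_, wn := ?_, en := ?_ }⟩
  · intro y ho ha h
    obtain ⟨F, hF, -, rfl, rfl, rfl⟩ := exA y ho ha
    have e : ∀ Y, (D.pd (bf F)).Hv k (5 * k - 4) Y ≠ El.o := fun Y => by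
      rw [PD.Hv_c hk' (Or.inr (Or.inl h))]; decide
    have r := PD.Rel.eN (D.pd_ok hM F hF) hk' (W.cell F hF) (Or.inr h)
    show vE W _ _ ↔ vE W _ _
    rw [plA_N hM h3 hk W hF (by omega) (e _), plA_S hM h3 hk W hF (by omega) (e _)]
    exact r.symm
  · intro y ho ha h
    obtain ⟨F, hF, -, rfl, rfl, rfl⟩ := exB y ho ha
    have e : ∀ Y, (D.pd (bf F)).Hv k (2 * k + 5) Y ≠ El.o := fun Y => by
      rw [PD.Hv_b hk' (Or.inr (Or.inl h))]; decide
    have r := PD.Rel.wS (D.pd_ok hM F hF) hk' (W.cell F hF) (Or.inr h)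
    show vW W _ _ ↔ vW W _ _
    rw [plB_N hM h3 hk W hF (by omega) (e _), plB_S hM h3 hk W hF (by omega) (e _)]
    exact r.symm
  · intro y ho ha h
    obtain ⟨F, hF, -, rfl, rfl, rfl⟩ := exA y ho ha
    have e : ∀ Y, (D.pd (bf F)).Hv k (5 * k - 6) Y ≠ El.o := fun Y => by
      rw [PD.Hv_d hk' (Or.inr (Or.inl h))]; decide
    have r := PD.Rel.eS (D.pd_ok hM F hF) hk' (W.cell F hF) (Or.inr h)
    show vE W _ _ ↔ vE W _ _
    rw [plA_N hM h3 hk W hF (by omega) (e _), plA_S hM h3 hk W hF (by omega) (e _)]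
    exact r.symm
  · intro y ho ha h
    obtain ⟨F, hF, -, rfl, rfl, rfl⟩ := exB y ho ha
    have e : ∀ Y, (D.pd (bf F)).Hv k (2 * k + 3) Y ≠ El.o := fun Y => by
      rw [PD.Hv_a hk' (Or.inr (Or.inl h))]; decide
    have r := PD.Rel.wN (D.pd_ok hM F hF) hk' (W.cell F hF) (Or.inr h)
    show vW W _ _ ↔ vW W _ _
    rw [plB_N hM h3 hk W hF (by omega) (e _), plB_S hM h3 hk W hF (by omega) (e _)]
    exact r.symm
  · intro y h
    obtain ⟨ho, ha, hb, -⟩ := ok.bp_ok y h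
    obtain ⟨F, hF, sF, x1, y1, z1⟩ := exA y ho ha
    obtain ⟨G, hG, sG, x2, y2, z2⟩ := exB y ho hb
    have hv := sF.val D hM sG (W := W) (T := 2 * k + 3) (by omega) (kl_ne _ _ (Or.inl ⟨h, rfl⟩))
    have bF : (D.pd (bf F)).KE.bp (D.pd (bf F)).y = true := by
      show (D.K _ _).bp ((bf F).1.c 1) = true
      rw [x1, y1, z1]; exact h
    have bG : (D.pd (bf G)).KW.bp (D.pd (bf G)).y = true := by
      show (D.K _ _).bp ((bf G).1.c 1) = true
      rw [x2, y2, z2]; exact h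
    have r1 := PD.Rel.bpE (D.pd_ok hM F hF) hk' (W.cell F hF) bF
    have r2 := PD.Rel.bpW (D.pd_ok hM G hG) hk' (W.cell G hG) bG
    have n1 := plA_S hM h3 hk W hF (X := 5 * k - 4) (by omega) (by
      rw [PD.Hv_c hk' (Or.inr (Or.inr ⟨bF, by omega⟩))]; decide)
    have n2 := plB_S hM h3 hk W hG (X := 2 * k + 5) (by omega) (by
      rw [PD.Hv_b hk' (Or.inr (Or.inr ⟨bG, by omega⟩))]; decide)
    have m1 := W.sE F hF (2 * k + 3) (by omega) (by
      rw [sF.ev D, show 7 * k - 1 - (7 * k - 1 - (2 * k + 3)) = 2 * k + 3 by omega]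
      exact kl_ne _ _ (Or.inl ⟨h, rfl⟩))
    have m2 := W.sW G hG (2 * k + 3) (by omega) (by
      rw [sG.ev D]
      exact kl_ne _ _ (Or.inl ⟨h, rfl⟩))
    rw [x1, y1, z1] at n1
    rw [x2, y2, z2] at n2
    show vE W _ _ ↔ vW W _ _
    rw [n1, n2, r1, r2, m1, m2]
    exact hv.symm
  · intro y h
    obtain ⟨ho, ha, hb, -⟩ := ok.vl_ok y h
    obtain ⟨F, hF, sF, x1, y1, z1⟩ := exA y ho ha
    obtain ⟨G, hG, sG, x2, y2, z2⟩ := exB y ho hb
    have hv := sF.val D hM sG (W := W) (T := 4 * k + 3) (by omega) (kl_ne _ _ (Or.inr ⟨h, rfl⟩))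
    have bF : (D.pd (bf F)).KE.vl (D.pd (bf F)).y = true := by
      show (D.K _ _).vl ((bf F).1.c 1) = true
      rw [x1, y1, z1]; exact h
    have bG : (D.pd (bf G)).KW.vl (D.pd (bf G)).y = true := by
      show (D.K _ _).vl ((bf G).1.c 1) = true
      rw [x2, y2, z2]; exact h
    have r1 := PD.Rel.vlE (D.pd_ok hM F hF) hk' (W.cell F hF) bF
    have r2 := PD.Rel.vlW (D.pd_ok hM G hG) hk' (W.cell G hG) bG
    have n1 := plA_N hM h3 hk W hF (X := 5 * k - 6) (by omega) (by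
      rw [PD.Hv_d hk' (Or.inr (Or.inr ⟨bF, by omega⟩))]; decide)
    have n2 := plB_N hM h3 hk W hG (X := 2 * k + 3) (by omega) (by
      rw [PD.Hv_a hk' (Or.inr (Or.inr ⟨bG, by omega⟩))]; decide)
    have m1 := W.sE F hF (4 * k + 3) (by omega) (by
      rw [sF.ev D, show 7 * k - 1 - (7 * k - 1 - (4 * k + 3)) = 4 * k + 3 by omega]
      exact kl_ne _ _ (Or.inr ⟨h, rfl⟩))
    have m2 := W.sW G hG (4 * k + 3) (by omega) (by
      rw [sG.ev D]
      exact kl_ne _ _ (Or.inr ⟨h, rfl⟩))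
    rw [x1, y1, z1] at n1
    rw [x2, y2, z2] at n2
    show vW W _ _ ↔ vE W _ _
    rw [n1, n2, r1, r2, m1, m2]
    exact hv
  · intro s he hx hz
    have hv := v3 hx hz
    have hK : D.Kw s = D.K x z := by unfold Deco0.Kw; rw [hx, hz]
    refine ⟨fun hu _ => (vW_iff hM h3 W he hu hv _).symm, fun hd h => ?_,
      fun hu _ => (vW_iff hM h3 W he hu hv _).symm, fun hd h => ?_⟩
    · refine (vE_dn hM h3 W he hd hv (by omega) (by omega) (ev_wN he ?_)).symm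
      unfold Deco0.wN
      rw [hK, hd, h]
      simp
    · refine (vE_dn hM h3 W he hd hv (by omega) (by omega) (ev_wS he ?_)).symm
      unfold Deco0.wS
      rw [hK, hd, h]
      simp
  · intro s he hx hz
    have hv := v3 hx hz
    have hK : D.Ke s = D.K x z := by unfold Deco0.Ke; rw [hx, hz]
    refine ⟨fun hu _ => (vE_iff hM h3 W he hu hv _).symm, fun hd h => ?_,
      fun hu _ => (vE_iff hM h3 W he hu hv _).symm, fun hd h => ?_⟩
    · refine (vW_dn hM h3 W he hd hv (by omega) (by omega) (ev_eN hk he ?_)).symm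
      unfold Deco0.eN
      rw [hK, hd, h]
      simp
    · refine (vW_dn hM h3 W he hd hv (by omega) (by omega) (ev_eS hk he ?_)).symm
      unfold Deco0.eS
      rw [hK, hd, h]
      simp

/-! ### The lanes along a strip -/

lemma pl_cases {u : P.FSt} (he : u.1.e.1 = 0) (hd : u.1.d.1 = 2) :
    u = bf u.facet ∨ u = (bf u.facet).r2 := by
  have key : ∀ d e : Dir, d.1 = 2 → e.1 = 0 → e = bfE d ∨ e = opp (bfE d) := by decide
  rcases key _ _ hd he with h | h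
  · exact Or.inl (Deco0.bf_eq h).symm
  · right
    have h1 : u.r2.1.e = bfE u.r2.1.d := by
      show opp u.1.e = bfE u.1.d
      rw [h, opp_opp]
    have h2 := Deco0.bf_eq h1
    have h4 : bf u.facet = u.r2 := h2
    rw [h4, FSt.r2_r2]

/-- Lanes along a strip, general form. -/
lemma strip_gen (W : CV D k B) (g : P.FSt → Bool) {X : ℕ} (hX : X < 7 * k)
    (hg : ∀ s : P.FSt, s.1.e.1 = 0 → ¬ IsDart s → g (pN.symm s) = g s)
    (hev : ∀ s : P.FSt, s.1.e.1 = 0 → g s = true → D.ev k s X ≠ El.o)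
    (htr : ∀ u : P.FSt, u.1.e.1 = 0 → u.1.d.1 = 2 → g u = true →
      (W.val u X ↔ W.val u.r2 (7 * k - 1 - X)))
    (d : Dart P) (h : g d.1 = true) : W.val d.1 X ↔ W.val (theta P d).1 (7 * k - 1 - X) := by
  have he : ∀ j : ℕ, ((pN ^ j) d.1).1.e.1 = 0 := by
    intro j
    rw [pN_e_nat]
    exact d.2.2
  have hs : ∀ j : ℕ, (pN ^ (j + 1)) d.1 = ((pN ^ j) d.1).stN := by
    intro j
    rw [pow_succ', Equiv.Perm.mul_apply]
    rfl
  have main : ∀ j : ℕ, j ≤ retN pN IsDart d.1 → g ((pN ^ j) d.1) = true ∧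
      (W.val ((pN ^ j) d.1) X ↔ W.val d.1 X) := by
    intro j
    induction j with
    | zero => intro _; exact ⟨h, Iff.rfl⟩
    | succ j ih =>
      intro hj
      obtain ⟨h1, h2⟩ := ih (by omega)
      have hnd : ¬ IsDart ((pN ^ (j + 1)) d.1) := retN_not (by omega)
      have h4 : pN.symm ((pN ^ (j + 1)) d.1) = (pN ^ j) d.1 := by
        rw [pow_succ', Equiv.Perm.mul_apply]
        exact Equiv.symm_apply_apply _ _
      have h5 : g ((pN ^ (j + 1)) d.1) = true := by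
        rw [← hg _ (he _) hnd, h4]
        exact h1
      have hd2 : ((pN ^ (j + 1)) d.1).1.d.1 = 2 := by
        have a1 : ∀ d e : Dir, d.1 ≠ e.1 → e.1 = 0 → ¬ (d.1 = 1) → d.1 = 2 := by decide
        exact a1 _ _ ((pN ^ (j + 1)) d.1).2.2 (he _) (fun h' => hnd ⟨h', he _⟩)
      refine ⟨h5, ?_⟩
      have h6 := htr _ (he _) hd2 h5
      have h7 := W.symm ((pN ^ j) d.1) (by rw [he]; decide) X hX (hev _ (he _) h1)
      rw [h6, hs j, h7, h2]
  obtain ⟨h1, h2⟩ := main _ le_rfl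
  have h4 : (theta P d).1 = ((pN ^ retN pN IsDart d.1) d.1).stN.r2 := by
    rw [← hs]
    show (retFun pN IsDart d.1).r2 = _
    rw [retFun_eq]
  rw [h4, W.symm _ (by rw [he]; decide) X hX (hev _ (he _) h1), h2]

lemma NLW_S (D : Deco0 P) (s : P.FSt) (he : s.1.e.1 = 0) (hd : ¬ IsDart s) :
    D.NLW (pN.symm s) = D.NLW s := by
  unfold Deco0.NLW onD
  rw [end1F_S s he hd]

lemma SLW_S (D : Deco0 P) (s : P.FSt) (he : s.1.e.1 = 0) (hd : ¬ IsDart s) :
    D.SLW (pN.symm s) = D.SLW s := by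
  unfold Deco0.SLW onD
  rw [end1F_S s he hd]

lemma rt1_S (D : Deco0 P) (s : P.FSt) (he : s.1.e.1 = 0) (hd : ¬ IsDart s) :
    D.rt1 (pN.symm s) = D.rt1 s := by
  unfold Deco0.rt1 onD
  rw [end1F_S s he hd]

lemma NLW_r2 (D : Deco0 P) (t : P.FSt) (he : t.1.e.1 = 0) (hd : t.1.d.1 = 2) :
    D.NLW t.r2 = D.NLE t := by
  obtain ⟨s, hs, r1, r2⟩ := Deco.r2_onD t he hd
  rw [← r1, D.NLW_N s hs]
  unfold Deco0.NLE
  rw [onD_dd _ _ _ hs, onD_dd _ _ _ he, r2]

lemma SLW_r2 (D : Deco0 P) (t : P.FSt) (he : t.1.e.1 = 0) (hd : t.1.d.1 = 2) :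
    D.SLW t.r2 = D.SLE t := by
  obtain ⟨s, hs, r1, r2⟩ := Deco.r2_onD t he hd
  rw [← r1, D.SLW_N s hs]
  unfold Deco0.SLE
  rw [onD_dd _ _ _ hs, onD_dd _ _ _ he, r2]

lemma rt1_r2 (D : Deco0 P) (t : P.FSt) (he : t.1.e.1 = 0) (hd : t.1.d.1 = 2) :
    D.rt1 t.r2 = D.rt2 t := by
  obtain ⟨s, hs, r1, r2⟩ := Deco.r2_onD t he hd
  rw [← r1, D.rt1_N s hs]
  unfold Deco0.rt2
  rw [onD_dd _ _ _ hs, onD_dd _ _ _ he, r2]

section

variable (hM : P.IsManifold) (h3 : Deg3 P) (hk : 62 ≤ k) (W : CV D k B)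

include hM h3 hk

/-- **W1b**: the full lanes -/
theorem strip_NW' (d : Dart P) (h : D.NLW d.1 = true) :
    W.val d.1 (2 * k + 3) ↔ W.val (theta P d).1 (5 * k - 4) := by
  have hk' : 20 ≤ k := by omega
  have key := strip_gen W D.NLW (X := 2 * k + 3) (by omega) (fun s h1 h2 => NLW_S _ s h1 h2)
    (fun s he hs => ev_wN he (by unfold Deco0.wN; rw [hs]; simp)) ?_ d h
  · rwa [show 7 * k - 1 - (2 * k + 3) = 5 * k - 4 by omega] at key
  · intro u he hd hu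
    have hF : IsPl u.facet := hd
    have e0 := Deco.bf_e0 u.facet hF
    rcases pl_cases he hd with h1 | h1
    · have hn : (D.pd (bf u.facet)).nW = true := by
        show D.NLW (bf u.facet) = true
        rw [← h1]; exact hu
      have e : ∀ Y, (D.pd (bf u.facet)).Hv k (2 * k + 3) Y ≠ El.o := fun Y => by
        rw [PD.Hv_a hk' (Or.inl hn)]; decide
      have r := PD.Rel.wN (D.pd_ok hM _ hF) hk' (W.cell _ hF) (Or.inl hn)
      rw [pl_N hM h3 hk W hF (by omega) (e _), pl_S hM h3 hk W hF (by omega) (e _), ← h1] at r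
      exact r.symm
    · have hn : (D.pd (bf u.facet)).nE = true := by
        show D.NLE (bf u.facet) = true
        rw [← NLW_r2 _ _ e0 hF, ← h1]; exact hu
      have e : ∀ Y, (D.pd (bf u.facet)).Hv k (5 * k - 4) Y ≠ El.o := fun Y => by
        rw [PD.Hv_c hk' (Or.inl hn)]; decide
      have r := PD.Rel.eN (D.pd_ok hM _ hF) hk' (W.cell _ hF) (Or.inl hn)
      have h2 : u.r2 = bf u.facet := by
        have := congrArg FSt.r2 h1
        rwa [FSt.r2_r2] at this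
      rw [pl_N hM h3 hk W hF (by omega) (e _), pl_S hM h3 hk W hF (by omega) (e _), ← h1, ← h2,
        show 7 * k - 1 - (5 * k - 4) = 2 * k + 3 by omega] at r
      rw [show 7 * k - 1 - (2 * k + 3) = 5 * k - 4 by omega]
      exact r

theorem strip_SW' (d : Dart P) (h : D.SLW d.1 = true) :
    W.val d.1 (2 * k + 5) ↔ W.val (theta P d).1 (5 * k - 6) := by
  have hk' : 20 ≤ k := by omega
  have key := strip_gen W D.SLW (X := 2 * k + 5) (by omega) (fun s h1 h2 => SLW_S _ s h1 h2)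
    (fun s he hs => ev_wS he (by unfold Deco0.wS; rw [hs]; simp)) ?_ d h
  · rwa [show 7 * k - 1 - (2 * k + 5) = 5 * k - 6 by omega] at key
  · intro u he hd hu
    have hF : IsPl u.facet := hd
    have e0 := Deco.bf_e0 u.facet hF
    rcases pl_cases he hd with h1 | h1
    · have hn : (D.pd (bf u.facet)).sW = true := by
        show D.SLW (bf u.facet) = true
        rw [← h1]; exact hu
      have e : ∀ Y, (D.pd (bf u.facet)).Hv k (2 * k + 5) Y ≠ El.o := fun Y => by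
        rw [PD.Hv_b hk' (Or.inl hn)]; decide
      have r := PD.Rel.wS (D.pd_ok hM _ hF) hk' (W.cell _ hF) (Or.inl hn)
      rw [pl_N hM h3 hk W hF (by omega) (e _), pl_S hM h3 hk W hF (by omega) (e _), ← h1] at r
      exact r.symm
    · have hn : (D.pd (bf u.facet)).sE = true := by
        show D.SLE (bf u.facet) = true
        rw [← SLW_r2 _ _ e0 hF, ← h1]; exact hu
      have e : ∀ Y, (D.pd (bf u.facet)).Hv k (5 * k - 6) Y ≠ El.o := fun Y => by
        rw [PD.Hv_d hk' (Or.inl hn)]; decide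
      have r := PD.Rel.eS (D.pd_ok hM _ hF) hk' (W.cell _ hF) (Or.inl hn)
      have h2 : u.r2 = bf u.facet := by
        have := congrArg FSt.r2 h1
        rwa [FSt.r2_r2] at this
      rw [pl_N hM h3 hk W hF (by omega) (e _), pl_S hM h3 hk W hF (by omega) (e _), ← h1, ← h2,
        show 7 * k - 1 - (5 * k - 6) = 2 * k + 5 by omega] at r
      rw [show 7 * k - 1 - (2 * k + 5) = 5 * k - 6 by omega]
      exact r

/-- **W1b**: the root lanes -/
theorem strip_r1' (d : Dart P) (h : D.rt1 d.1 = true) :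
    W.val d.1 (3 * k + 3) ↔ W.val (theta P d).1 (4 * k - 4) := by
  have hk' : 20 ≤ k := by omega
  have key := strip_gen W D.rt1 (X := 3 * k + 3) (by omega) (fun s h1 h2 => rt1_S _ s h1 h2)
    (fun s he hs => by
      rw [D.ev_x k s he]
      unfold F7
      rw [if_neg (by omega), if_neg (by omega), if_neg (by omega), if_neg (by omega),
        if_pos (Or.inl ⟨rfl, hs⟩)]
      decide) ?_ d h
  · rwa [show 7 * k - 1 - (3 * k + 3) = 4 * k - 4 by omega] at key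
  · intro u he hd hu
    have hF : IsPl u.facet := hd
    have e0 := Deco.bf_e0 u.facet hF
    rcases pl_cases he hd with h1 | h1
    · have hn : (D.pd (bf u.facet)).r1 = true := by
        show D.rt1 (bf u.facet) = true
        rw [← h1]; exact hu
      have e : ∀ Y, (D.pd (bf u.facet)).Hv k (3 * k + 3) Y ≠ El.o := fun Y => by
        rw [PD.Hv_r1 hk' hn]; decide
      have r := PD.Rel.r1 (D.pd_ok hM _ hF) hk' (W.cell _ hF) hn
      rw [pl_N hM h3 hk W hF (by omega) (e _), pl_S hM h3 hk W hF (by omega) (e _), ← h1] at r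
      exact r.symm
    · have hn : (D.pd (bf u.facet)).r2 = true := by
        show D.rt2 (bf u.facet) = true
        rw [← rt1_r2 _ _ e0 hF, ← h1]; exact hu
      have e : ∀ Y, (D.pd (bf u.facet)).Hv k (4 * k - 4) Y ≠ El.o := fun Y => by
        rw [PD.Hv_r2 hk' hn]; decide
      have r := PD.Rel.r2 (D.pd_ok hM _ hF) hk' (W.cell _ hF) hn
      have h2 : u.r2 = bf u.facet := by
        have := congrArg FSt.r2 h1
        rwa [FSt.r2_r2] at this
      rw [pl_N hM h3 hk W hF (by omega) (e _), pl_S hM h3 hk W hF (by omega) (e _), ← h1, ← h2,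
        show 7 * k - 1 - (4 * k - 4) = 3 * k + 3 by omega] at r
      rw [show 7 * k - 1 - (3 * k + 3) = 4 * k - 4 by omega]
      exact r

end

end Pool.Agent.MP42D
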