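import Pool.Agent.MP42.D.W4b
import Pool.Agent.MP42.D.W1b

/-!
# Piece W4d: the lanes on the states with east `± x` (owner helper89)
-/

set_option autoImplicit false
set_option linter.unusedSectionVars false

namespace Pool.Agent.MP42D

open Pool.Agent.Helper55.UNF Pool.Agent.Helper55.UNF.GridSolid Pool.Agent.MP42 Pool.Agent.MP42G

variable {P : GridSolid} {D : Deco P} {k B : ℕ} {W : CV D k B}

/-- the values along the lines (statement of W4c) -/
def LineVals (T : LD W) (V : Dart P → Prop) : Prop :=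
  ∀ (x y z : ℤ) (t : P.FSt), SB x y z t →
    (∀ s, (D.K x z).M s y = true → ((T.L x z).mv s y ↔ jv V t)) ∧
    (∀ s, ((D.K x z).cn s y = true ∨ (D.K x z).cs s y = true) → ((T.L x z).cv s y ↔ jv V t)) ∧
    ((D.K x z).aw y = false → ((D.K x z).fN y = true → ((T.F x z).fN y ↔ jv V t)) ∧
      ((D.K x z).fN (y + 1) = true → ((T.F x z).fN (y + 1) ↔ jv V t)) ∧
      ((D.K x z).gS y = true → ((T.F x z).gS y ↔ jv V t)) ∧
      ((D.K x z).gS (y + 1) = true → ((T.F x z).gS (y + 1) ↔ jv V t))) ∧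
    ((D.K x z).bw y = false → ((D.K x z).fS y = true → ((T.F x z).fS y ↔ jv V t)) ∧
      ((D.K x z).fS (y + 1) = true → ((T.F x z).fS (y + 1) ↔ jv V t)) ∧
      ((D.K x z).gN y = true → ((T.F x z).gN y ↔ jv V t)) ∧
      ((D.K x z).gN (y + 1) = true → ((T.F x z).gN (y + 1) ↔ jv V t)))

namespace W4

/-- lanes along a strip down to the dart -/
lemma strip_down (W : CV D k B) (g : P.FSt → Bool) {X : ℕ} (hX : X < 7 * k)
    (hg : ∀ s : P.FSt, s.1.e.1 = 0 → ¬ IsDart s → g (pN.symm s) = g s)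
    (hev : ∀ s : P.FSt, s.1.e.1 = 0 → g s = true → D.ev k s X ≠ El.o)
    (htr : ∀ u : P.FSt, u.1.e.1 = 0 → u.1.d.1 = 2 → g u = true →
      (W.val u X ↔ W.val u.r2 (7 * k - 1 - X))) :
    ∀ (n : ℕ) (s : P.FSt) (hs : s.1.e.1 = 0), srch pN.symm IsDart s = n → g s = true →
      g (dd s hs).1 = true ∧ (W.val s X ↔ W.val (dd s hs).1 X) := by
  intro n
  induction n using Nat.strong_induction_on with
  | _ n ih =>
    intro s hs hn h
    by_cases hd : IsDart s
    · have : (dd s hs).1 = s := end1F_dart hd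
      rw [this]
      exact ⟨h, Iff.rfl⟩
    · set u := pN.symm s with hu
      have hus : u.stN = s := pN.apply_symm_apply s
      have hue : u.1.e.1 = 0 := by
        have : u.stN.1.e = u.1.e := FSt.stN_e u
        rw [← this, hus]
        exact hs
      have hgu : g u = true := by rw [hu, hg s hs hd]; exact h
      have hdd : dd u hue = dd s hs := Subtype.ext (end1F_S s hs hd)
      have hd2 : s.1.d.1 = 2 := by
        have a1 : ∀ d e : Dir, d.1 ≠ e.1 → e.1 = 0 → ¬ (d.1 = 1) → d.1 = 2 := by decide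
        exact a1 _ _ s.2.2 hs (fun h' => hd ⟨h', hs⟩)
      have hlt : srch pN.symm IsDart u < n := by
        have hex : ∃ j : ℕ, IsDart ((pN.symm ^ j) s) := ring_ex s hs
        obtain ⟨hd1, hmin⟩ : IsDart ((pN.symm ^ n) s) ∧ True := by
          rw [← hn]
          exact ⟨srch_spec hex, trivial⟩
        obtain ⟨m, rfl⟩ : ∃ m, n = m + 1 := by
          refine ⟨n - 1, ?_⟩
          rcases Nat.eq_zero_or_pos n with h0 | h0
          · exfalso
            rw [h0] at hd1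
            exact hd hd1
          · omega
        have : IsDart ((pN.symm ^ m) u) := by
          rw [hu, ← Equiv.Perm.mul_apply, ← pow_succ]
          exact hd1
        refine Nat.lt_succ_of_le ?_
        by_contra hc
        exact srch_not (by omega) this
      obtain ⟨h1, h2⟩ := ih _ hlt u hue rfl hgu
      rw [hdd] at h1 h2
      refine ⟨h1, ?_⟩
      have h4 := htr s hs hd2 h
      have h5 := W.symm u (by rw [hue]; decide) X hX (hev u hue hgu)
      rw [hus] at h5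
      exact h4.trans (h5.trans h2)

section

variable (hM : P.IsManifold) (h3 : Deg3 P) (hk : 62 ≤ k) (W : CV D k B)

include hM h3 hk

lemma down_NW {s : P.FSt} (hs : s.1.e.1 = 0) (h : D.NLW s = true) :
    D.NLW (dd s hs).1 = true ∧ (W.val s (2 * k + 3) ↔ W.val (dd s hs).1 (2 * k + 3)) := by
  have hk' : 20 ≤ k := by omega
  refine strip_down W D.NLW (X := 2 * k + 3) (by omega) (fun s h1 h2 => NLW_S _ s h1 h2)
    (fun s he hs => ev_wN he (by unfold Deco0.wN; rw [hs]; simp)) ?_ _ s hs rfl h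
  intro u he hd hu
  have hF : IsPl u.facet := hd
  have e0 := Deco.bf_e0 u.facet hF
  rcases pl_cases he hd with h1 | h1
  · have hn : (D.pd (bf u.facet)).nW = true := by
      show D.NLW (bf u.facet) = true
      rw [← h1]; exact hu
    have e : ∀ Y, (D.pd (bf u.facet)).Hv k (2 * k + 3) Y ≠ El.o := fun Y => by
      rw [PD.Hv_a hk' (Or.inl hn)]; decide
    have r := PD.Rel.wN (D.pd_ok hM _ hF) hk' (W.cell _ hF) (Or.inl hn)
    rw [pl_N hM h3 hk W hF (by omega) (e _), pl_S hM h3 hk W hF (by omega) (e _), ← h1] at r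
    exact r.symm
  · have hn : (D.pd (bf u.facet)).nE = true := by
      show D.NLE (bf u.facet) = true
      rw [← NLW_r2 _ _ e0 hF, ← h1]; exact hu
    have e : ∀ Y, (D.pd (bf u.facet)).Hv k (5 * k - 4) Y ≠ El.o := fun Y => by
      rw [PD.Hv_c hk' (Or.inl hn)]; decide
    have r := PD.Rel.eN (D.pd_ok hM _ hF) hk' (W.cell _ hF) (Or.inl hn)
    have h2 : u.r2 = bf u.facet := by
      have := congrArg FSt.r2 h1
      rwa [FSt.r2_r2] at this
    rw [pl_N hM h3 hk W hF (by omega) (e _), pl_S hM h3 hk W hF (by omega) (e _), ← h1, ← h2,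
      show 7 * k - 1 - (5 * k - 4) = 2 * k + 3 by omega] at r
    rw [show 7 * k - 1 - (2 * k + 3) = 5 * k - 4 by omega]
    exact r

lemma down_SW {s : P.FSt} (hs : s.1.e.1 = 0) (h : D.SLW s = true) :
    D.SLW (dd s hs).1 = true ∧ (W.val s (2 * k + 5) ↔ W.val (dd s hs).1 (2 * k + 5)) := by
  have hk' : 20 ≤ k := by omega
  refine strip_down W D.SLW (X := 2 * k + 5) (by omega) (fun s h1 h2 => SLW_S _ s h1 h2)
    (fun s he hs => ev_wS he (by unfold Deco0.wS; rw [hs]; simp)) ?_ _ s hs rfl h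
  intro u he hd hu
  have hF : IsPl u.facet := hd
  have e0 := Deco.bf_e0 u.facet hF
  rcases pl_cases he hd with h1 | h1
  · have hn : (D.pd (bf u.facet)).sW = true := by
      show D.SLW (bf u.facet) = true
      rw [← h1]; exact hu
    have e : ∀ Y, (D.pd (bf u.facet)).Hv k (2 * k + 5) Y ≠ El.o := fun Y => by
      rw [PD.Hv_b hk' (Or.inl hn)]; decide
    have r := PD.Rel.wS (D.pd_ok hM _ hF) hk' (W.cell _ hF) (Or.inl hn)
    rw [pl_N hM h3 hk W hF (by omega) (e _), pl_S hM h3 hk W hF (by omega) (e _), ← h1] at r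
    exact r.symm
  · have hn : (D.pd (bf u.facet)).sE = true := by
      show D.SLE (bf u.facet) = true
      rw [← SLW_r2 _ _ e0 hF, ← h1]; exact hu
    have e : ∀ Y, (D.pd (bf u.facet)).Hv k (5 * k - 6) Y ≠ El.o := fun Y => by
      rw [PD.Hv_d hk' (Or.inl hn)]; decide
    have r := PD.Rel.eS (D.pd_ok hM _ hF) hk' (W.cell _ hF) (Or.inl hn)
    have h2 : u.r2 = bf u.facet := by
      have := congrArg FSt.r2 h1
      rwa [FSt.r2_r2] at this
    rw [pl_N hM h3 hk W hF (by omega) (e _), pl_S hM h3 hk W hF (by omega) (e _), ← h1, ← h2,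
      show 7 * k - 1 - (5 * k - 6) = 2 * k + 5 by omega] at r
    rw [show 7 * k - 1 - (2 * k + 5) = 5 * k - 6 by omega]
    exact r

lemma down_r1 {s : P.FSt} (hs : s.1.e.1 = 0) (h : D.rt1 s = true) :
    D.rt1 (dd s hs).1 = true ∧ (W.val s (3 * k + 3) ↔ W.val (dd s hs).1 (3 * k + 3)) := by
  have hk' : 20 ≤ k := by omega
  refine strip_down W D.rt1 (X := 3 * k + 3) (by omega) (fun s h1 h2 => rt1_S _ s h1 h2)
    (fun s he hs => by
      rw [D.ev_x k s he]
      unfold F7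
      rw [if_neg (by omega), if_neg (by omega), if_neg (by omega), if_neg (by omega),
        if_pos (Or.inl ⟨rfl, hs⟩)]
      decide) ?_ _ s hs rfl h
  intro u he hd hu
  have hF : IsPl u.facet := hd
  have e0 := Deco.bf_e0 u.facet hF
  rcases pl_cases he hd with h1 | h1
  · have hn : (D.pd (bf u.facet)).r1 = true := by
      show D.rt1 (bf u.facet) = true
      rw [← h1]; exact hu
    have e : ∀ Y, (D.pd (bf u.facet)).Hv k (3 * k + 3) Y ≠ El.o := fun Y => by
      rw [PD.Hv_r1 hk' hn]; decide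
    have r := PD.Rel.r1 (D.pd_ok hM _ hF) hk' (W.cell _ hF) hn
    rw [pl_N hM h3 hk W hF (by omega) (e _), pl_S hM h3 hk W hF (by omega) (e _), ← h1] at r
    exact r.symm
  · have hn : (D.pd (bf u.facet)).r2 = true := by
      show D.rt2 (bf u.facet) = true
      rw [← rt1_r2 _ _ e0 hF, ← h1]; exact hu
    have e : ∀ Y, (D.pd (bf u.facet)).Hv k (4 * k - 4) Y ≠ El.o := fun Y => by
      rw [PD.Hv_r2 hk' hn]; decide
    have r := PD.Rel.r2 (D.pd_ok hM _ hF) hk' (W.cell _ hF) hn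
    have h2 : u.r2 = bf u.facet := by
      have := congrArg FSt.r2 h1
      rwa [FSt.r2_r2] at this
    rw [pl_N hM h3 hk W hF (by omega) (e _), pl_S hM h3 hk W hF (by omega) (e _), ← h1, ← h2,
      show 7 * k - 1 - (4 * k - 4) = 3 * k + 3 by omega] at r
    rw [show 7 * k - 1 - (3 * k + 3) = 4 * k - 4 by omega]
    exact r

end

/-! ### the plates at the two ends of a side -/

section

variable {V : Dart P → Prop}

lemma upW (hM : P.IsManifold) (v1 : ∀ d, V (phi P d) ↔ V d) (v2 : ∀ d, V (theta P d) ↔ V d)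
    (D : Deco P) (s : P.FSt) (hs : s.1.e.1 = 0) (hu : isUp s = true) :
    ∃ (y : ℤ) (t : P.FSt), SB (Geo.nw s.1 0) y (Geo.nw s.1 2) t ∧
      (D.K (Geo.nw s.1 0) (Geo.nw s.1 2)).bw y = false ∧
      (y = Geo.nw s.1 1 ∨ y + 1 = Geo.nw s.1 1) ∧ (jv V t ↔ jv V s) := by
  rcases up_cases s hs hu with ⟨F, hF, rfl⟩ | ⟨F, hF, h⟩
  · have h1 := SB_bf F hF
    have hn := Deco0.e_aux1 _ hF
    refine ⟨_, _, h1, ?_, Or.inr (nw_plate (bf F) hF hn).1.symm, ?_⟩
    · rw [D.bw_eq]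
      cases hb : bwP P (Geo.nw (bf F).1 0) ((bf F).1.c 1) (Geo.nw (bf F).1 2)
      · rfl
      · exfalso
        have h2 := h1.wall hb
        have h4 : (bf F).rL.1.d.1 = 2 := hF
        rw [h2] at h4
        exact absurd h4 (by decide)
    · exact W5.jv_facet hF rfl
  · have h1 := SB_bf F hF
    have hn := Deco0.e_aux1 _ hF
    have h2 := nw_of_stN hF h
    have e0 : Geo.nw s.1 0 = Geo.nw (bf F).1 0 := by rw [h2]; rfl
    have e1 : Geo.nw s.1 1 = (bf F).1.c 1 := by rw [h2]; rfl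
    have e2 : Geo.nw s.1 2 = Geo.nw (bf F).1 2 := by rw [h2]; rfl
    refine ⟨_, (bf F).rL, by rw [e0, e2]; exact h1, ?_, Or.inl e1.symm, ?_⟩
    · rw [D.bw_eq, e0, e2]
      cases hb : bwP P (Geo.nw (bf F).1 0) ((bf F).1.c 1) (Geo.nw (bf F).1 2)
      · rfl
      · exfalso
        have h2 := h1.wall hb
        have h4 : (bf F).rL.1.d.1 = 2 := hF
        rw [h2] at h4
        exact absurd h4 (by decide)
    · rw [← jv_symm' hM v1 v2 s (by rw [hs]; decide), h]
      exact W5.jv_facet hF rfl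

lemma upE (hM : P.IsManifold) (v1 : ∀ d, V (phi P d) ↔ V d) (v2 : ∀ d, V (theta P d) ↔ V d)
    (D : Deco P) (s : P.FSt) (hs : s.1.e.1 = 0) (hu : isUp s = true) :
    ∃ (y : ℤ) (t : P.FSt), SB (Geo.ne s.1 0) y (Geo.ne s.1 2) t ∧
      (D.K (Geo.ne s.1 0) (Geo.ne s.1 2)).aw y = false ∧
      (y = Geo.ne s.1 1 ∨ y + 1 = Geo.ne s.1 1) ∧ (jv V t ↔ jv V s) := by
  have key : ∀ F : P.Facet, IsPl F → (D.K (Geo.ne (bf F).1 0) (Geo.ne (bf F).1 2)).aw
      ((bf F).1.c 1) = false ∧ (jv V (bf F).rR.stN.r2 ↔ jv V (bf F)) := by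
    intro F hF
    have h1 := SA_bf F hF
    constructor
    · rw [D.aw_eq]
      cases hb : awP P (Geo.ne (bf F).1 0) ((bf F).1.c 1) (Geo.ne (bf F).1 2)
      · rfl
      · exfalso
        have h2 := h1.wall hb
        have h4 : (bf F).rR.1.d.1 = 2 := hF
        rw [h2] at h4
        exact absurd h4 (by decide)
    · rw [jv_symm' hM v1 v2 (bf F).rR (by rw [h1.1]; decide)]
      exact W5.jv_facet hF rfl
  rcases up_cases s hs hu with ⟨F, hF, rfl⟩ | ⟨F, hF, h⟩
  · have h1 := SA_bf F hF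
    have hn := Deco0.e_aux1 _ hF
    exact ⟨_, _, h1.toSB, (key F hF).1, Or.inr (nw_plate (bf F) hF hn).2.symm, (key F hF).2⟩
  · have h1 := SA_bf F hF
    have hn := Deco0.e_aux1 _ hF
    have h2 := ne_of_stN hF h
    have e0 : Geo.ne s.1 0 = Geo.ne (bf F).1 0 := by rw [h2]; rfl
    have e1 : Geo.ne s.1 1 = (bf F).1.c 1 := by rw [h2]; rfl
    have e2 : Geo.ne s.1 2 = Geo.ne (bf F).1 2 := by rw [h2]; rfl
    refine ⟨_, (bf F).rR.stN.r2, by rw [e0, e2]; exact h1.toSB, ?_, Or.inl e1.symm, ?_⟩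
    · rw [e0, e2]
      exact (key F hF).1
    · rw [(key F hF).2, ← jv_symm' hM v1 v2 s (by rw [hs]; decide), h]
      exact W5.jv_facet hF rfl

lemma dnW (hM : P.IsManifold) (v1 : ∀ d, V (phi P d) ↔ V d) (v2 : ∀ d, V (theta P d) ↔ V d)
    (D : Deco P) (s : P.FSt) (hs : s.1.e.1 = 0) (hu : isDn s = true) :
    ∃ (y : ℤ) (t : P.FSt), SB (Geo.nw s.1 0) y (Geo.nw s.1 2) t ∧
      (D.K (Geo.nw s.1 0) (Geo.nw s.1 2)).aw y = false ∧
      (y = Geo.nw s.1 1 ∨ y + 1 = Geo.nw s.1 1) ∧ (jv V t ↔ jv V s) := by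
  obtain ⟨y, t, h1, h2, h4, h5⟩ := upE hM v1 v2 D s.stN.r2 (e_N hs) (by rw [isUp_N s hs]; exact hu)
  rw [ne_N] at h1 h2 h4
  exact ⟨y, t, h1, h2, h4, h5.trans (jv_symm' hM v1 v2 s (by rw [hs]; decide))⟩

end

/-! ### the lanes -/

section

variable (hM : P.IsManifold) (h3 : Deg3 P) (hk : 62 ≤ k) (T : LD W) {V : Dart P → Prop}
  (G : Good T hk V) (H : LineVals T V)

include hM h3 G

lemma west_dd (s : P.FSt) (hs : s.1.e.1 = 0) : jv V s ↔ V (dd s hs) :=
  W5.jv_x G.phi G.theta hs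

lemma lane_NLW (s : P.FSt) (hs : s.1.e.1 = 0) (h : D.NLW s = true) :
    W.val s (2 * k + 3) ↔ jv V s := by
  obtain ⟨h1, h2⟩ := down_NW hM h3 hk W hs h
  rw [h2, west_dd hM h3 hk T G s hs]
  obtain ⟨κ, hκ⟩ : ∃ κ, phi P κ = dd s hs := ⟨_, (phi P).apply_symm_apply _⟩
  rw [← hκ, NLW_phi] at h1
  have h4 : (true, D.tN κ, (T.vals hk).vN κ) ∈ (T.vals hk).rw κ := by
    unfold Deco0.Vals.rw
    simp only [h1]
    simp [opt]
  have h5 := G.rw κ _ _ _ h4
  rw [← hκ, G.phi]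
  exact h5

lemma lane_SLW (s : P.FSt) (hs : s.1.e.1 = 0) (h : D.SLW s = true) :
    W.val s (2 * k + 5) ↔ jv V s := by
  obtain ⟨h1, h2⟩ := down_SW hM h3 hk W hs h
  rw [h2, west_dd hM h3 hk T G s hs]
  obtain ⟨κ, hκ⟩ : ∃ κ, phi P κ = dd s hs := ⟨_, (phi P).apply_symm_apply _⟩
  rw [← hκ, SLW_phi] at h1
  have h4 : (false, D.tS κ, (T.vals hk).vS κ) ∈ (T.vals hk).rw κ := by
    unfold Deco0.Vals.rw
    simp only [h1]
    simp [opt]
  have h5 := G.rw κ _ _ _ h4
  rw [← hκ, G.phi]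
  exact h5

include H

/-- the lanes in the west half -/
lemma west_lane (s : P.FSt) (hs : s.1.e.1 = 0) :
    (D.wN s = true → (W.val s (2 * k + 3) ↔ jv V s)) ∧
    (D.wS s = true → (W.val s (2 * k + 5) ↔ jv V s)) ∧
    (D.rt1 s = true → (W.val s (3 * k + 3) ↔ jv V s)) := by
  obtain ⟨w1, w2, w3, w4⟩ := (T.F (Geo.nw s.1 0) (Geo.nw s.1 2)).wn s hs rfl rfl
  refine ⟨?_, ?_, ?_⟩
  · intro h
    unfold Deco0.wN at h
    rw [Bool.or_eq_true, Bool.or_eq_true, Bool.and_eq_true, Bool.and_eq_true] at h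
    rcases h with (h | ⟨hu, h⟩) | ⟨hu, h⟩
    · exact lane_NLW hM h3 hk T G s hs h
    · have h' : (D.K (Geo.nw s.1 0) (Geo.nw s.1 2)).gN (Geo.nw s.1 1) = true := h
      rw [w1 hu h']
      obtain ⟨y, t, k1, k2, k4, k5⟩ := upW hM G.phi G.theta D s hs hu
      rw [← k5]
      have k6 := (H _ _ _ _ k1).2.2.2 k2
      rcases k4 with k4 | k4
      · rw [← k4] at h' ⊢
        exact k6.2.2.1 h'
      · rw [← k4] at h' ⊢
        exact k6.2.2.2 h'
    · have h' : (D.K (Geo.nw s.1 0) (Geo.nw s.1 2)).fN (Geo.nw s.1 1) = true := h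
      rw [w2 hu h']
      obtain ⟨y, t, k1, k2, k4, k5⟩ := dnW hM G.phi G.theta D s hs hu
      rw [← k5]
      have k6 := (H _ _ _ _ k1).2.2.1 k2
      rcases k4 with k4 | k4
      · rw [← k4] at h' ⊢
        exact k6.1 h'
      · rw [← k4] at h' ⊢
        exact k6.2.1 h'
  · intro h
    unfold Deco0.wS at h
    rw [Bool.or_eq_true, Bool.or_eq_true, Bool.and_eq_true, Bool.and_eq_true] at h
    rcases h with (h | ⟨hu, h⟩) | ⟨hu, h⟩
    · exact lane_SLW hM h3 hk T G s hs h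
    · have h' : (D.K (Geo.nw s.1 0) (Geo.nw s.1 2)).fS (Geo.nw s.1 1) = true := h
      rw [w3 hu h']
      obtain ⟨y, t, k1, k2, k4, k5⟩ := upW hM G.phi G.theta D s hs hu
      rw [← k5]
      have k6 := (H _ _ _ _ k1).2.2.2 k2
      rcases k4 with k4 | k4
      · rw [← k4] at h' ⊢
        exact k6.1 h'
      · rw [← k4] at h' ⊢
        exact k6.2.1 h'
    · have h' : (D.K (Geo.nw s.1 0) (Geo.nw s.1 2)).gS (Geo.nw s.1 1) = true := h
      rw [w4 hu h']
      obtain ⟨y, t, k1, k2, k4, k5⟩ := dnW hM G.phi G.theta D s hs hu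
      rw [← k5]
      have k6 := (H _ _ _ _ k1).2.2.1 k2
      rcases k4 with k4 | k4
      · rw [← k4] at h' ⊢
        exact k6.2.2.1 h'
      · rw [← k4] at h' ⊢
        exact k6.2.2.2 h'
  · intro h
    obtain ⟨h1, h2⟩ := down_r1 hM h3 hk W hs h
    rw [h2, west_dd hM h3 hk T G s hs]
    exact G.r1 _ h1

/-- **W4d** -/
theorem val_x' (HT : ∀ s : P.FSt, s.1.e.1 = 0 → ∀ X < 7 * k, (D.wT s X ∨ D.eT k s X) →
      (W.val s X ↔ jv V s)) (s : P.FSt) (hs : s.1.e.1 = 0) {X : ℕ} (hX : X < 7 * k)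
    (h : D.ev k s X ≠ El.o) : W.val s X ↔ jv V s := by
  obtain ⟨a1, a2, a4⟩ := west_lane hM h3 hk T G H s hs
  obtain ⟨b1, b2, b4⟩ := west_lane hM h3 hk T G H s.stN.r2 (e_N hs)
  have hj := jv_symm' hM G.phi G.theta s (by rw [hs]; decide)
  have hv := W.symm s (by rw [hs]; decide) X hX h
  rw [D.wN_N s hs] at b1
  rw [D.wS_N s hs] at b2
  rw [D.rt1_N s hs] at b4
  rw [D.ev_x k s hs] at h
  unfold F7 at h
  by_cases c1 : X = 2 * k + 3 ∧ D.wN s = true
  · rw [c1.1]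
    exact a1 c1.2
  rw [if_neg c1] at h
  by_cases c2 : X = 2 * k + 5 ∧ D.wS s = true
  · rw [c2.1]
    exact a2 c2.2
  rw [if_neg c2] at h
  by_cases c3 : X + 4 = 5 * k ∧ D.eN s = true
  · rw [← hv, show 7 * k - 1 - X = 2 * k + 3 by omega, b1 c3.2, hj]
  rw [if_neg c3] at h
  by_cases c4 : X + 6 = 5 * k ∧ D.eS s = true
  · rw [← hv, show 7 * k - 1 - X = 2 * k + 5 by omega, b2 c4.2, hj]
  rw [if_neg c4] at h
  by_cases c5 : (X = 3 * k + 3 ∧ D.rt1 s = true) ∨ (X + 4 = 4 * k ∧ D.rt2 s = true)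
  · rcases c5 with c5 | c5
    · rw [c5.1]
      exact a4 c5.2
    · rw [← hv, show 7 * k - 1 - X = 3 * k + 3 by omega, b4 c5.2, hj]
  rw [if_neg c5] at h
  by_cases c6 : D.wT s X ∨ D.eT k s X
  · exact HT s hs X hX c6
  · rw [if_neg c6] at h
    exact absurd rfl h

end

end W4

end Pool.Agent.MP42D
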