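import Pool.Agent.MP42.D.W4e

/-!
# Piece W4d: the tracks on the sides with east `± x` (owner helper83)
-/

set_option autoImplicit false
set_option linter.unusedSectionVars false

namespace Pool.Agent.MP42D

open Pool.Agent.Helper55.UNF Pool.Agent.Helper55.UNF.GridSolid Pool.Agent.MP42 Pool.Agent.MP42G
open W5

variable {P : GridSolid} {D : Deco P} {k B : ℕ} {W : CV D k B}

namespace W4dT

section

variable (hM : P.IsManifold) (h3 : Deg3 P) (hk : 62 ≤ k) (T : LD W) {V : Dart P → Prop}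
  (h1 : ∀ d, V (phi P d) ↔ V d) (h2 : ∀ d, V (theta P d) ↔ V d)
  (lv : ∀ (x y z : ℤ) (t : P.FSt), SB x y z t →
    ∀ s, (D.K x z).M s y = true → ((T.L x z).mv s y ↔ jv V t))

include hM h3 hk h1 h2 lv

lemma p0_jv {x y z : ℤ} {q : Fin 4} (hV : (D.K x z).V q y = true) {t : P.FSt}
    (ht : SB x y z t) : (T.L x z).p0 q y ↔ jv V t := by
  have hok := D.ok x z
  cases hm : (D.K x z).M q y
  · have hm1 : (D.K x z).M q (y - 1) = true := by
      unfold KD.V at hV; rw [hm, Bool.or_false] at hV; exact hV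
    rw [(T.L x z).p0_stop hok (by omega) hm1]
    obtain ⟨t', ht'⟩ := exists_SB (hok.M_on q _ hm1).2.1
    rw [lv x (y - 1) z t' ht' q hm1]
    exact W4e.jv_line hM h1 h2 h3 ht' ht
  · rw [(T.L x z).p0_mv hok (by omega) hm]
    exact lv x y z t ht q hm

lemma p7_jv {x y z : ℤ} {q : Fin 4} (hV : (D.K x z).V q (y + 1) = true) {t : P.FSt}
    (ht : SB x y z t) : (T.L x z).p7 q y ↔ jv V t := by
  have hok := D.ok x z
  cases hm : (D.K x z).M q y
  · have hm1 : (D.K x z).M q (y + 1) = true := by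
      unfold KD.V at hV
      rw [show y + 1 - 1 = y by ring, hm, Bool.false_or] at hV
      exact hV
    rw [(T.L x z).p7_start hok (by omega) hm1]
    obtain ⟨t', ht'⟩ := exists_SB (hok.M_on q _ hm1).2.1
    rw [lv x (y + 1) z t' ht' q hm1]
    have ht2 : SB x (y + 1 - 1) z t := by
      rw [show y + 1 - 1 = y by ring]; exact ht
    exact (W4e.jv_line hM h1 h2 h3 ht2 ht').symm
  · rw [(T.L x z).p7_mv hok (by omega) hm]
    exact lv x y z t ht q hm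

/-! ### plates -/

lemma jv_rL (F : P.Facet) (hF : IsPl F) : jv V (bf F).rL ↔ jv V (bf F) :=
  jv_facet (V := V) hF rfl

lemma jv_rR (F : P.Facet) (hF : IsPl F) : jv V (bf F).rR.stN.r2 ↔ jv V (bf F) := by
  have hn : (bf F).1.n = (1, true) := Deco0.e_aux1 _ hF
  have e : (bf F).rR.1.e.1 ≠ 2 := by
    show (opp (bf F).1.n).1 ≠ 2
    rw [hn]; decide
  exact (jv_symm' hM h1 h2 (bf F).rR e).trans (jv_facet (V := V) hF rfl)

lemma plB_top (F : P.Facet) (hF : IsPl F) {q : Fin 4}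
    (hV : (D.Kw (bf F)).V q ((bf F).1.c 1 + 1) = true)
    (hst : (D.Kw (bf F)).st ((bf F).1.c 1 + 1) = false) :
    W.hv F (dB q) (7 * k) ↔ jv V (bf F) := by
  have hpd := D.pd_ok hM F hF
  have hb : (D.K (Geo.nw (bf F).1 0) (Geo.nw (bf F).1 2)).bw ((bf F).1.c 1) = false := hpd.bw
  rw [← (T.lk _ _).pB F hF rfl rfl (7 * k) le_rfl q, ← jv_rL hM h3 hk T h1 h2 lv F hF,
    ← p7_jv hM h3 hk T h1 h2 lv (q := q) hV (SB_bf F hF)]
  unfold LV.p7 LV.vB
  unfold Deco0.Kw at hst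
  rw [hst, if_neg (by decide), if_neg (by rw [hb]; decide)]

lemma plB_bot (F : P.Facet) (hF : IsPl F) {q : Fin 4}
    (hV : (D.Kw (bf F)).V q ((bf F).1.c 1) = true)
    (hst : (D.Kw (bf F)).st ((bf F).1.c 1) = false) :
    W.hv F (dB q) 0 ↔ jv V (bf F) := by
  have hpd := D.pd_ok hM F hF
  have hb : (D.K (Geo.nw (bf F).1 0) (Geo.nw (bf F).1 2)).bw ((bf F).1.c 1) = false := hpd.bw
  rw [← (T.lk _ _).pB F hF rfl rfl 0 (by omega) q, ← jv_rL hM h3 hk T h1 h2 lv F hF,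
    ← p0_jv hM h3 hk T h1 h2 lv (q := q) hV (SB_bf F hF)]
  unfold LV.p0 LV.vB
  unfold Deco0.Kw at hst
  rw [hst, if_neg (by decide), if_neg (by rw [hb]; decide), Nat.zero_mul]

lemma plA_top (F : P.Facet) (hF : IsPl F) {q : Fin 4}
    (hV : (D.Ke (bf F)).V q ((bf F).1.c 1 + 1) = true)
    (hst : (D.Ke (bf F)).st ((bf F).1.c 1 + 1) = true) :
    W.hv F (7 * k - 1 - dA q) (7 * k) ↔ jv V (bf F) := by
  have hpd := D.pd_ok hM F hF
  have hb : (D.K (Geo.ne (bf F).1 0) (Geo.ne (bf F).1 2)).aw ((bf F).1.c 1) = false := hpd.aw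
  rw [← (T.lk _ _).pA F hF rfl rfl (7 * k) le_rfl q, ← jv_rR hM h3 hk T h1 h2 lv F hF,
    ← p7_jv hM h3 hk T h1 h2 lv (q := q) hV (SA_bf F hF).toSB]
  unfold LV.p7 LV.vA
  unfold Deco0.Ke at hst
  rw [hst, if_pos rfl, if_neg (by rw [hb]; decide)]

lemma plA_bot (F : P.Facet) (hF : IsPl F) {q : Fin 4}
    (hV : (D.Ke (bf F)).V q ((bf F).1.c 1) = true)
    (hst : (D.Ke (bf F)).st ((bf F).1.c 1) = true) :
    W.hv F (7 * k - 1 - dA q) 0 ↔ jv V (bf F) := by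
  have hpd := D.pd_ok hM F hF
  have hb : (D.K (Geo.ne (bf F).1 0) (Geo.ne (bf F).1 2)).aw ((bf F).1.c 1) = false := hpd.aw
  rw [← (T.lk _ _).pA F hF rfl rfl 0 (by omega) q, ← jv_rR hM h3 hk T h1 h2 lv F hF,
    ← p0_jv hM h3 hk T h1 h2 lv (q := q) hV (SA_bf F hF).toSB]
  unfold LV.p0 LV.vA
  unfold Deco0.Ke at hst
  rw [hst, if_pos rfl, if_neg (by rw [hb]; decide), Nat.zero_mul]

omit hM h3 hk h1 h2 lv in
lemma Kw_r2 (F : P.Facet) (hF : IsPl F) : D.Kw (bf F).r2 = D.Ke (bf F) ∧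
    Geo.nw (bf F).r2.1 1 = (bf F).1.c 1 := by
  have hn : (bf F).1.n = (1, true) := Deco0.e_aux1 _ hF
  have e := (plate_r2 (bf F) hF hn).1
  unfold Deco0.Kw Deco0.Ke
  rw [e]
  exact ⟨rfl, rfl⟩

omit hM h3 hk h1 h2 lv in
lemma Ke_r2 (F : P.Facet) (hF : IsPl F) : D.Ke (bf F).r2 = D.Kw (bf F) ∧
    Geo.ne (bf F).r2.1 1 = (bf F).1.c 1 := by
  have hn : (bf F).1.n = (1, true) := Deco0.e_aux1 _ hF
  have e := (plate_r2 (bf F) hF hn).2
  unfold Deco0.Kw Deco0.Ke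
  rw [e]
  exact ⟨rfl, rfl⟩

omit hM h3 h1 h2 lv in
lemma ev_ne (s : P.FSt) (hs : s.1.e.1 = 0) {X : ℕ} (h : D.wT s X ∨ D.eT k s X) :
    D.ev k s X ≠ El.o := by
  rw [D.ev_x k s hs, F7_T hk h]
  · decide
  · rcases h with ⟨q, ⟨-, e, -⟩ | ⟨-, e, -⟩⟩ | ⟨q, ⟨-, e, -⟩ | ⟨-, e, -⟩⟩ <;>
      (have a1 := dB_le q; have a2 := dA_le q; omega)

/-- the plates, north `+ y` -/
lemma val_N (F : P.Facet) (hF : IsPl F) {X : ℕ} (hX : X < 7 * k)
    (h : D.wT (bf F) X ∨ D.eT k (bf F) X) : W.val (bf F) X ↔ jv V (bf F) := by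
  have hn : (bf F).1.n = (1, true) := Deco0.e_aux1 _ hF
  have hu := isUp_plate _ hn
  have hv := isDn_plate _ hn
  obtain ⟨p1, p2⟩ := nw_plate (bf F) hF hn
  rw [← W.sN F hF X hX (ev_ne hk _ (Deco.bf_e0 F hF) h)]
  rcases h with ⟨q, ⟨-, e, c1, c2⟩ | ⟨c, -⟩⟩ | ⟨q, ⟨-, e, c1, c2⟩ | ⟨c, -⟩⟩
  · rw [p1] at c1 c2
    rw [e]
    exact plB_top hM h3 hk T h1 h2 lv F hF c1 c2
  · rw [hv] at c; exact absurd c (by decide)
  · rw [p2] at c1 c2
    rw [show X = 7 * k - 1 - dA q by omega]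
    exact plA_top hM h3 hk T h1 h2 lv F hF c1 c2
  · rw [hv] at c; exact absurd c (by decide)

/-- the plates, north `- y` -/
lemma val_S (F : P.Facet) (hF : IsPl F) {X : ℕ} (hX : X < 7 * k)
    (h : D.wT (bf F).r2 X ∨ D.eT k (bf F).r2 X) : W.val (bf F).r2 X ↔ jv V (bf F).r2 := by
  have hn : (bf F).1.n = (1, true) := Deco0.e_aux1 _ hF
  have hu := isUp_plate_r2 _ hn
  have hv := isDn_plate_r2 _ hn
  obtain ⟨k1, p1⟩ := Kw_r2 (D := D) F hF
  obtain ⟨k2, p2⟩ := Ke_r2 (D := D) F hF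
  have he : (bf F).r2.1.e.1 = 0 := by
    show (opp (bf F).1.e).1 = 0
    rw [opp_fst]
    exact Deco.bf_e0 F hF
  have hne := ev_ne (D := D) hk _ he h
  have hs := W.sS F hF (7 * k - 1 - X) (by omega) (by
    rw [show 7 * k - 1 - (7 * k - 1 - X) = X by omega]; exact hne)
  rw [show 7 * k - 1 - (7 * k - 1 - X) = X by omega] at hs
  rw [← hs, show jv V (bf F).r2 ↔ jv V (bf F) from jv_facet (V := V) hF rfl]
  rcases h with ⟨q, ⟨c, -⟩ | ⟨-, e, c1, c2⟩⟩ | ⟨q, ⟨c, -⟩ | ⟨-, e, c1, c2⟩⟩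
  · rw [hu] at c; exact absurd c (by decide)
  · rw [k1, p1] at c1 c2
    rw [e]
    exact plA_bot hM h3 hk T h1 h2 lv F hF c1 c2
  · rw [hu] at c; exact absurd c (by decide)
  · rw [k2, p2] at c1 c2
    rw [show 7 * k - 1 - X = dB q by omega]
    exact plB_bot hM h3 hk T h1 h2 lv F hF c1 c2

lemma val_pl (s : P.FSt) (hs : s.1.e.1 = 0) (hd : s.1.d.1 = 2) {X : ℕ} (hX : X < 7 * k)
    (h : D.wT s X ∨ D.eT k s X) : W.val s X ↔ jv V s := by
  rcases bf_cases hs hd with e | e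
  · have hF : IsPl s.facet := hd
    have := val_N hM h3 hk T h1 h2 lv s.facet hF hX
    rw [e] at this
    exact this h
  · have hF : IsPl s.facet := hd
    have := val_S hM h3 hk T h1 h2 lv s.facet hF hX
    rw [e] at this
    rw [FSt.r2_r2] at this
    exact this h

end

end W4dT

section

variable (hM : P.IsManifold) (h3 : Deg3 P) (hk : 62 ≤ k) (T : LD W) {V : Dart P → Prop}
  (h1 : ∀ d, V (phi P d) ↔ V d) (h2 : ∀ d, V (theta P d) ↔ V d)
  (lv : ∀ (x y z : ℤ) (t : P.FSt), SB x y z t →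
    ∀ s, (D.K x z).M s y = true → ((T.L x z).mv s y ↔ jv V t))

include hM h3 hk h1 h2 lv

/-- W4d, the tracks -/
theorem val_xT_of (s : P.FSt) (hs : s.1.e.1 = 0) {X : ℕ} (hX : X < 7 * k)
    (h : D.wT s X ∨ D.eT k s X) : W.val s X ↔ jv V s := by
  have hs2 : s.1.e.1 ≠ 2 := by rw [hs]; decide
  by_cases hd : s.1.d.1 = 2
  · exact W4dT.val_pl hM h3 hk T h1 h2 lv s hs hd hX h
  · have hn1 : s.1.n.1 ≠ 1 := by
      have key : ∀ d e : Dir, d.1 ≠ e.1 → e.1 = 0 → d.1 ≠ 2 → (cross d e).1 ≠ 1 := by decide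
      exact key _ _ s.2.2 hs hd
    have hN : s.stN.1.n.1 = 1 := by
      have hud : isUp s = true ∨ isDn s = true := by
        rcases h with ⟨q, ⟨c, -⟩ | ⟨c, -⟩⟩ | ⟨q, ⟨c, -⟩ | ⟨c, -⟩⟩
        · exact Or.inl c
        · exact Or.inr c
        · exact Or.inl c
        · exact Or.inr c
      rcases hud with c | c
      · unfold isUp at c
        rw [decide_eq_true_iff] at c
        rcases c with c | ⟨-, c⟩
        · rw [c] at hn1; exact absurd rfl hn1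
        · rw [c]
      · unfold isDn at c
        rw [decide_eq_true_iff] at c
        rcases c with c | ⟨-, c⟩
        · rw [c] at hn1; exact absurd rfl hn1
        · rw [c]
    have he' : s.stN.r2.1.e.1 = 0 := e_N hs
    have hd' : s.stN.r2.1.d.1 = 2 := by
      have key : ∀ d e : Dir, d.1 ≠ e.1 → e.1 = 0 → (cross d e).1 = 1 → d.1 = 2 := by decide
      have e0 : s.stN.1.e.1 = 0 := by rw [FSt.stN_e]; exact hs
      exact key _ _ s.stN.2.2 e0 hN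
    have h' : D.wT s.stN.r2 (7 * k - 1 - X) ∨ D.eT k s.stN.r2 (7 * k - 1 - X) := by
      rw [D.wT_N k s hs hX, D.eT_N k s hs hX]
      exact h.symm
    have k1 := W4dT.val_pl hM h3 hk T h1 h2 lv s.stN.r2 he' hd' (X := 7 * k - 1 - X) (by omega) h'
    rw [← W.symm s hs2 X hX (W4dT.ev_ne hk s hs h), k1]
    exact jv_symm' hM h1 h2 s hs2

end

/-- W4d, the tracks, from `Good` -/
theorem val_xT (hM : P.IsManifold) (h3 : Deg3 P) (hk : 62 ≤ k) (T : LD W) {V : Dart P → Prop}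
    (G : Good T hk V)
    (lv : ∀ (x y z : ℤ) (t : P.FSt), SB x y z t →
      ∀ s, (D.K x z).M s y = true → ((T.L x z).mv s y ↔ jv V t))
    (s : P.FSt) (hs : s.1.e.1 = 0) {X : ℕ} (hX : X < 7 * k)
    (h : D.wT s X ∨ D.eT k s X) : W.val s X ↔ jv V s :=
  val_xT_of hM h3 hk T G.phi G.theta lv s hs hX h

end Pool.Agent.MP42D
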