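import Pool.Agent.MP42.D.W5
import Pool.Agent.MP42.D.PL

/-!
# Piece W4f: walls and plates (owner helper55)
-/

set_option autoImplicit false
set_option linter.unusedSectionVars false

namespace Pool.Agent.MP42D

open Pool.Agent.Helper55.UNF Pool.Agent.Helper55.UNF.GridSolid Pool.Agent.MP42 Pool.Agent.MP42G
open W5

variable {P : GridSolid} {D : Deco P} {k B : ℕ} (W : CV D k B)

/-- W4f: from the values on the sides to all values -/
theorem all_vals_of (hM : P.IsManifold) (h3 : Deg3 P) (hk : 62 ≤ k) {V : Dart P → Prop}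
    (vx : ∀ s : P.FSt, s.1.e.1 = 0 → ∀ X < 7 * k, D.ev k s X ≠ El.o → (W.val s X ↔ jv V s))
    (vy : ∀ s : P.FSt, s.1.e.1 = 1 → ∀ X < 7 * k, D.ev k s X ≠ El.o → (W.val s X ↔ jv V s)) :
    (∀ s : P.FSt, IsV s → ∀ X < 7 * k, D.ev k s X ≠ El.o → (W.val s X ↔ jv V s)) ∧
    (∀ F : P.Facet, IsPl F →
      (∀ X Y, X < 7 * k → Y ≤ 7 * k → (D.pd (bf F)).Hv k X Y ≠ El.o →
        (W.hv F X Y ↔ jv V (bf F))) ∧
      (∀ X Y, X ≤ 7 * k → Y < 7 * k → (D.pd (bf F)).Vv k X Y ≠ El.o →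
        (W.vv F X Y ↔ jv V (bf F)))) := by
  have vals : ∀ s : P.FSt, s.1.e.1 ≠ 2 → ∀ X < 7 * k, D.ev k s X ≠ El.o →
      (W.val s X ↔ jv V s) := by
    intro s hs X hX h
    rcases (by omega : s.1.e.1 = 0 ∨ s.1.e.1 = 1 ∨ s.1.e.1 = 2) with h1 | h1 | h1
    · exact vx s h1 X hX h
    · exact vy s h1 X hX h
    · exact absurd h1 hs
  refine ⟨fun s hs => vals s (e_of_V hs), ?_⟩
  intro F hF
  have hd : (bf F).1.d.1 = 2 := hF
  have he0 : (bf F).1.e.1 = 0 := Deco.bf_e0 F hF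
  have hn : (bf F).1.n = (1, true) := Deco0.e_aux1 _ hF
  refine PD.Rel.all (D.pd_ok hM F hF) (by omega) (W.cell F hF) ?_ ?_ ?_ ?_
  · intro X hX h
    rw [D.side_N hM h3 hk F hF hX] at h
    rw [W.sN F hF X hX h]
    exact vals _ (by rw [he0]; decide) X hX h
  · intro X hX h
    rw [D.side_S hM h3 hk F hF hX] at h
    rw [W.sS F hF X hX h]
    have h1 := vals (bf F).r2 (by show (bf F).1.e.1 ≠ 2; rw [he0]; decide)
      (7 * k - 1 - X) (by omega) h
    rw [h1]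
    exact jv_facet hd rfl
  · intro Y hY h
    rw [D.side_W hM h3 hk F hF hY] at h
    rw [W.sW F hF Y hY h]
    have h1 := vals (bf F).rL (by show (bf F).1.n.1 ≠ 2; rw [hn]; decide) Y hY h
    rw [h1]
    exact jv_facet hd rfl
  · intro Y hY h
    rw [D.side_E hM h3 hk F hF hY] at h
    rw [W.sE F hF Y hY h]
    have h1 := vals (bf F).rR (by show (bf F).1.n.1 ≠ 2; rw [hn]; decide)
      (7 * k - 1 - Y) (by omega) h
    rw [h1]
    exact jv_facet hd rfl

end Pool.Agent.MP42D
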