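import Pool.Agent.MP42.D.W0d

/-!
# Piece W0: from the invariant predicates to the coarse values (part of piece W)

`pos s X`: the position on a rim of `P.refine 7` that belongs to the edge `X` of the coarse wall
state `s` (north towards the junction).  Going to the east on the rim of `P.refine 7` is going to
the west on the coarse level.

Hints.  (1) A generic lemma for every `JCert C`: for a state `σ` and `x < k` let `tl σ x` be the
table entry and `EV σ x` the value of the unit edge `x` (from west to east) on the north side of `σ`,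
by the four cases `can σ.facet = σ, σ.r2, σ.rL, σ.rR`:
`la f x k`, `la f (k-1-x) 0`, `pr f k (k-1-x)`, `pr f 0 x` (and the same for `χ`, `ψ`).  If the entry
is not zero then `EV σ.stN.r2 (k-1-x) ↔ EV σ x` (fields `gN gE gEr gWr` of `C` and of `Inv`, `gN' gS'
gE' gW'` exclude the other frames).
(2) Plates: define `hv F X Y`, `vv F X Y` by the sub-facet that contains the edge (with
`min (X / k) 6`): Y-frame and U plate: `ψ f a b`, `χ f a b`; V plate: `ψ f (k-a) (k-1-b)`,
`χ f (k-1-a) (k-b)`; X-frame: vertical edges `χ f b (k-a)`, horizontal edges `ψ f b (k-1-a)`.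
(3) Walls: collars are straight lanes, so the value on the side of the wall is the value `fv` on the
rim.  `cs s Y` is `stk C χ (pos s (Y - 1))` for `0 < Y`, `cs s 0 = cs (pE.symm s) (7 k)`.
-/

set_option autoImplicit false
set_option linter.unusedSectionVars false

namespace Pool.Agent.MP42D

open Pool.Agent.Helper55.UNF Pool.Agent.Helper55.UNF.GridSolid Pool.Agent.MP42 Pool.Agent.MP42G

variable {P : GridSolid}

variable (D : Deco P) (hM : P.IsManifold) (h3 : Deg3 P) {k : ℕ} (hk : 62 ≤ k)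

namespace W0

open Deco0

variable (ψ χ : (P.refine 7 Deco0.h7).Facet → ℕ → ℕ → Prop)

/-- the value of the edge `X` on the north side of a coarse state -/
noncomputable def val (s : P.FSt) (X : ℕ) : Prop :=
  vls (D.jc hM h3 hk) ψ χ (sub h7 s (min (X / k) 6) 6 (by omega) (by norm_num)) (X % k)

/-- the stack over the line `Y` of a coarse wall state -/
noncomputable def cs (s : P.FSt) (Y : ℕ) : ℕ → Prop :=
  if Y = 0 then stk (D.jc hM h3 hk) χ (pos k (pE.symm s) (7 * k - 1))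
  else stk (D.jc hM h3 hk) χ (pos k s (Y - 1))

variable {D hM h3 hk ψ χ}

lemma val_eq {s : P.FSt} {i x : ℕ} (hi : i < 7) (hx : x < k) :
    val D hM h3 hk ψ χ s (i * k + x) ↔
      vls (D.jc hM h3 hk) ψ χ (sub h7 s i 6 hi (by norm_num)) x := by
  obtain ⟨e1, -⟩ := Deco.min_div (k := k) (by omega) hi (Or.inl hx)
  have e2 : (i * k + x) % k = x := by
    rw [Nat.add_comm, Nat.add_mul_mod_self_right, Nat.mod_eq_of_lt hx]
  unfold val
  rw [e2, sub_congr (s := s) (t := s) (x := min ((i * k + x) / k) 6) (x' := i) (y := 6)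
    (y' := 6) (by omega) (by norm_num) rfl e1 rfl]

lemma exists_ij {k : ℕ} (hk : 62 ≤ k) {X : ℕ} (hX : X < 7 * k) :
    ∃ i x, i < 7 ∧ x < k ∧ X = i * k + x :=
  ⟨X / k, X % k, by have := divk hk hX; omega, Nat.mod_lt _ (by omega), (div_mod_k k X).symm⟩

lemma rev_ij {k i x : ℕ} (hi : i < 7) (hx : x < k) :
    7 * k - 1 - (i * k + x) = (6 - i) * k + (k - 1 - x) := (arX hi hx).symm

lemma symm (hI : (D.jc hM h3 hk).Inv ψ χ) {s : P.FSt} (he : s.1.e.1 ≠ 2) {X : ℕ}
    (hX : X < 7 * k) (hv : D.ev k s X ≠ El.o) :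
    val D hM h3 hk ψ χ s.stN.r2 (7 * k - 1 - X) ↔ val D hM h3 hk ψ χ s X := by
  obtain ⟨i, x, hi, hx, rfl⟩ := exists_ij hk hX
  rw [rev_ij hi hx, val_eq (by omega) (by omega), val_eq hi hx]
  have hEV : D.EV k (sub h7 s i 6 hi (by norm_num)) x ≠ El.o := by
    have e3 : (6 + 1) * k = 7 * k := rfl
    rw [EV_sub, e3, D.cv hM h3 hk s he hX]
    exact hv
  obtain ⟨h4, h5⟩ := D.ent_of_EV hM h3 hk hx hEV
  have h6 := vls_symm hI hx h5 h4
  have e : (sub h7 s i 6 hi (by norm_num)).stN.r2 =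
      sub h7 s.stN.r2 (6 - i) 6 (by omega) (by norm_num) := by
    have e4 : (sub h7 s i 6 hi (by norm_num)).stN = sub h7 s.stN i 0 hi h7 := sub_stN_end s hi
    rw [e4, sub_r2]
  rw [e] at h6
  exact h6

lemma sN (hI : (D.jc hM h3 hk).Inv ψ χ) {F : P.Facet} (hF : IsPl F) {X : ℕ} (hX : X < 7 * k) :
    D.hvC k ψ χ F X (7 * k) ↔ val D hM h3 hk ψ χ (bf F) X := by
  obtain ⟨i, x, hi, hx, rfl⟩ := exists_ij hk hX
  have e : 7 * k = 6 * k + k := by ring
  have hf : IsPl (co h7 (part F i 6 hi (by norm_num))) := by rw [co_part]; exact hF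
  rw [val_eq hi hx, e, Deco.hv_at hI hF hi (by norm_num) hx le_rfl (Or.inr (Or.inl rfl)),
    Deco.hvp_N (hM := hM) (h3 := h3) (hk := hk) hf hx, sf_part]

lemma sS (hI : (D.jc hM h3 hk).Inv ψ χ) {F : P.Facet} (hF : IsPl F) {X : ℕ} (hX : X < 7 * k) :
    D.hvC k ψ χ F X 0 ↔ val D hM h3 hk ψ χ (bf F).r2 (7 * k - 1 - X) := by
  obtain ⟨i, x, hi, hx, rfl⟩ := exists_ij hk hX
  have e : 0 = 0 * k + 0 := by ring
  have hf : IsPl (co h7 (part F i 0 hi (by norm_num))) := by rw [co_part]; exact hF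
  rw [rev_ij hi hx, val_eq (by omega) (by omega)]
  have h4 := Deco.hv_at hI hF hi (show 0 < 7 by norm_num) hx (Nat.zero_le _)
    (Or.inl (show 0 < k by omega))
  rw [Nat.zero_mul, Nat.zero_add] at h4
  rw [h4, Deco.hvp_S (hM := hM) (h3 := h3) (hk := hk) hf hx, sf_part, sub_r2]

lemma sW (hI : (D.jc hM h3 hk).Inv ψ χ) {F : P.Facet} (hF : IsPl F) {Y : ℕ} (hY : Y < 7 * k) :
    D.vvC k ψ χ F 0 Y ↔ val D hM h3 hk ψ χ (bf F).rL Y := by
  obtain ⟨j, y, hj, hy, rfl⟩ := exists_ij hk hY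
  have hf : IsPl (co h7 (part F 0 j (by norm_num) hj)) := by rw [co_part]; exact hF
  rw [val_eq hj hy]
  have h4 := Deco.vv_at hI hF (show 0 < 7 by norm_num) hj (Nat.zero_le _) hy
    (Or.inl (show 0 < k by omega))
  rw [Nat.zero_mul, Nat.zero_add] at h4
  rw [h4, Deco.vvp_W (hM := hM) (h3 := h3) (hk := hk) hf hy, sf_part, sub_rL]

lemma sE (hI : (D.jc hM h3 hk).Inv ψ χ) {F : P.Facet} (hF : IsPl F) {Y : ℕ} (hY : Y < 7 * k) :
    D.vvC k ψ χ F (7 * k) Y ↔ val D hM h3 hk ψ χ (bf F).rR (7 * k - 1 - Y) := by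
  obtain ⟨j, y, hj, hy, rfl⟩ := exists_ij hk hY
  have hf : IsPl (co h7 (part F 6 j (by norm_num) hj)) := by rw [co_part]; exact hF
  have e : 7 * k = 6 * k + k := by ring
  rw [rev_ij hj hy, val_eq (by omega) (by omega), e,
    Deco.vv_at hI hF (by norm_num) hj le_rfl hy (Or.inr (Or.inl rfl)),
    Deco.vvp_E (hM := hM) (h3 := h3) (hk := hk) hf hy, sf_part, sub_rR]

lemma cell (hI : (D.jc hM h3 hk).Inv ψ χ) {F : P.Facet} (hF : IsPl F) :
    (D.pd (bf F)).Rel k (D.hvC k ψ χ F) (D.vvC k ψ χ F) := by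
  intro X Y hX hY p q hpq hp hq ho
  obtain ⟨i, x, hi, hx, rfl⟩ := exists_ij hk hX
  obtain ⟨j, y, hj, hy, rfl⟩ := exists_ij hk hY
  have hf : IsPl (co h7 (part F i j hi hj)) := by rw [co_part]; exact hF
  have key : ∀ r, (D.pd (bf F)).cEl k (i * k + x) (j * k + y) r ≠ El.o →
      (PD.cVal (D.hvC k ψ χ F) (D.vvC k ψ χ F) (i * k + x) (j * k + y) r ↔
        PD.cVal (D.hvp ψ χ k (part F i j hi hj)) (D.vvp ψ χ k (part F i j hi hj)) x y r) := by
    intro r hr
    cases r
    · exact Deco.vv_at hI hF hi hj hx.le hy (Or.inl hx)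
    · exact Deco.vv_at hI hF hi hj (a := x + 1) hx hy (Or.inr (Or.inr hr))
    · exact Deco.hv_at hI hF hi hj hx (b := y + 1) hy (Or.inr (Or.inr hr))
    · exact Deco.hv_at hI hF hi hj hx hy.le (Or.inl hy)
  rw [key p hp, key q hq]
  have h4 := Deco.cell_part hI hf hx hy hpq
  rw [co_part, fi_part, fj_part] at h4
  exact h4 hp hq ho

/-! ### Stacks -/

lemma cs_succ (s : P.FSt) (X : ℕ) :
    cs D hM h3 hk χ s (X + 1) = stk (D.jc hM h3 hk) χ (pos k s X) := by
  unfold cs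
  rw [if_neg (by omega), Nat.add_sub_cancel]

lemma cs_nx {s : P.FSt} (hs : IsV s) {X : ℕ} (hX : X < 7 * k) :
    cs D hM h3 hk χ s X = stk (D.jc hM h3 hk) χ (JCert.nx k (pos k s X)) := by
  rcases Nat.eq_zero_or_pos X with rfl | h0
  · unfold cs
    rw [if_pos rfl]
    have e : (pE.symm s).stE = s := by
      show pE (pE.symm s) = s
      rw [Equiv.apply_symm_apply]
    have hs' : IsV (pE.symm s) := by
      rw [← IsV_stE, e]; exact hs
    have h4 := pos_nx0 (k := k) hk hs'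
    rw [e] at h4
    rw [h4]
  · obtain ⟨X, rfl⟩ : ∃ X', X = X' + 1 := ⟨X - 1, by omega⟩
    rw [cs_succ, pos_nx hs hX]

lemma fv_val (hI : (D.jc hM h3 hk).Inv ψ χ) {s : P.FSt} (hs : IsV s) {X : ℕ} (hX : X < 7 * k)
    (hv : (D.ev k s X).ln ≠ Helper55.UNF.Ln.z) :
    (D.jc hM h3 hk).fv χ (pos k s X).1 (pos k s X).2 ↔ val D hM h3 hk ψ χ s X := by
  rw [D.pos_fv hM h3 hk (ψ := ψ) hs hX]
  have h6 := divk hk hX
  have hm : min (X / k) 6 = X / k := by omega
  have hx : X % k < k := Nat.mod_lt _ (by omega)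
  have hv' : (D.ev k s (min (X / k) 6 * k + X % k)).ln ≠ Helper55.UNF.Ln.z := by
    rw [hm, div_mod_k]; exact hv
  exact D.row_val hM h3 hk hI hs (by omega) hx hv' 3 3 (by norm_num) le_rfl rfl

/-! ### Back to `P.refine 7` -/

lemma ver (hI : (D.jc hM h3 hk).Inv ψ χ) {f : (P.refine 7 h7).Facet} (hf : IsPl (co h7 f))
    {x y : ℕ} (hx : x ≤ k) (hy : y < k) (hp : D.pr7 k f x y = true) :
    (∃ X Y, X < 7 * k ∧ Y ≤ 7 * k ∧ (D.pd (bf (co h7 f))).Hv k X Y ≠ El.o ∧
      (ψ f x y ↔ D.hvC k ψ χ (co h7 f) X Y)) ∨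
    (∃ X Y, X ≤ 7 * k ∧ Y < 7 * k ∧ (D.pd (bf (co h7 f))).Vv k X Y ≠ El.o ∧
      (ψ f x y ↔ D.vvC k ψ χ (co h7 f) X Y)) := by
  have hi := fi_lt f
  have hj := fj_lt f
  have hi6 : fi f * k ≤ 6 * k := Nat.mul_le_mul_right k (by omega)
  have hj6 : fj f * k ≤ 6 * k := Nat.mul_le_mul_right k (by omega)
  have hpe : part (co h7 f) (fi f) (fj f) hi hj = f := part_eta f
  rcases Deco.can7_pl (D := D) hf with ⟨hX, -⟩ | ⟨hX, hU, -⟩ | ⟨hX, hU, -⟩
  · left
    rw [Deco.pr7_Xe hf _ _ hX, El.ie_eq] at hp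
    have hne : (D.pd (bf (co h7 f))).Hv k (fi f * k + (k - 1 - y)) (fj f * k + x) ≠ El.o := by
      rw [hp]; decide
    refine ⟨_, _, by omega, by omega, hne, ?_⟩
    rw [Deco.hv_at hI hf hi hj (by omega) hx (Or.inr (Or.inr hne)), hpe]
    unfold Deco.hvp
    rw [if_pos hX, show k - 1 - (k - 1 - y) = y by omega]
  · right
    rw [Deco.pr7_Ue hf _ _ hX hU, El.ie_eq] at hp
    have hne : (D.pd (bf (co h7 f))).Vv k (fi f * k + x) (fj f * k + y) ≠ El.o := by
      rw [hp]; decide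
    refine ⟨_, _, by omega, by omega, hne, ?_⟩
    rw [Deco.vv_at hI hf hi hj hx hy (Or.inr (Or.inr hne)), hpe]
    unfold Deco.vvp
    rw [if_neg hX, if_pos hU]
  · right
    rw [Deco.pr7_Ve hf _ _ hX hU, El.ie_eq] at hp
    have hne : (D.pd (bf (co h7 f))).Vv k (fi f * k + (k - x)) (fj f * k + (k - 1 - y)) ≠
        El.o := by
      rw [hp]; decide
    refine ⟨_, _, by omega, by omega, hne, ?_⟩
    rw [Deco.vv_at hI hf hi hj (by omega) (by omega) (Or.inr (Or.inr hne)), hpe]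
    unfold Deco.vvp
    rw [if_neg hX, if_neg hU, show k - (k - x) = x by omega,
      show k - 1 - (k - 1 - y) = y by omega]

lemma hor (hI : (D.jc hM h3 hk).Inv ψ χ) {f : (P.refine 7 h7).Facet} (hf : IsPl (co h7 f))
    {x y : ℕ} (hx : x < k) (hy : y ≤ k) (hp : D.la7 k f x y ≠ Helper55.UNF.Ln.z) :
    (∃ X Y, X < 7 * k ∧ Y ≤ 7 * k ∧ (D.pd (bf (co h7 f))).Hv k X Y ≠ El.o ∧
      (χ f x y ↔ D.hvC k ψ χ (co h7 f) X Y)) ∨
    (∃ X Y, X ≤ 7 * k ∧ Y < 7 * k ∧ (D.pd (bf (co h7 f))).Vv k X Y ≠ El.o ∧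
      (χ f x y ↔ D.vvC k ψ χ (co h7 f) X Y)) := by
  have hi := fi_lt f
  have hj := fj_lt f
  have hi6 : fi f * k ≤ 6 * k := Nat.mul_le_mul_right k (by omega)
  have hj6 : fj f * k ≤ 6 * k := Nat.mul_le_mul_right k (by omega)
  have hpe : part (co h7 f) (fi f) (fj f) hi hj = f := part_eta f
  rcases Deco.can7_pl (D := D) hf with ⟨hX, -⟩ | ⟨hX, hU, -⟩ | ⟨hX, hU, -⟩
  · right
    rw [Deco.la7_Xe hf _ _ hX] at hp
    have hne := (El.ne_o hp).1
    refine ⟨_, _, by omega, by omega, hne, ?_⟩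
    rw [Deco.vv_at hI hf hi hj (by omega) hx (Or.inr (Or.inr hne)), hpe]
    unfold Deco.vvp
    rw [if_pos hX, show k - (k - y) = y by omega]
  · left
    rw [Deco.la7_Ue hf _ _ hX hU] at hp
    have hne := (El.ne_o hp).1
    refine ⟨_, _, by omega, by omega, hne, ?_⟩
    rw [Deco.hv_at hI hf hi hj hx hy (Or.inr (Or.inr hne)), hpe]
    unfold Deco.hvp
    rw [if_neg hX, if_pos hU]
  · left
    rw [Deco.la7_Ve hf _ _ hX hU] at hp
    have hne := (El.ne_o hp).1
    refine ⟨_, _, by omega, by omega, hne, ?_⟩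
    rw [Deco.hv_at hI hf hi hj (by omega) (by omega) (Or.inr (Or.inr hne)), hpe]
    unfold Deco.hvp
    rw [if_neg hX, if_neg hU, show k - 1 - (k - 1 - x) = x by omega,
      show k - (k - y) = y by omega]

lemma wall_V {f : (P.refine 7 h7).Facet} (hf : ¬ IsPl (co h7 f)) : IsV (bf (co h7 f)) :=
  Deco.dir_aux1 _ hf

/-- the parts of a wall between the core and the north side of `s` -/
lemma up_val (hI : (D.jc hM h3 hk).Inv ψ χ) {s : P.FSt} (hs : IsV s) {i j : ℕ} (hi : i < 7)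
    (hj : j < 7) (hj3 : 3 ≤ j) {x : ℕ} (hx : x < k)
    (hv : (D.ev k s (i * k + x)).ln ≠ Helper55.UNF.Ln.z) :
    vls (D.jc hM h3 hk) ψ χ (sub h7 s i j hi hj) x ↔ val D hM h3 hk ψ χ s (i * k + x) := by
  rw [val_eq hi hx]
  exact D.row_val hM h3 hk hI hs hi hx hv (6 - j) j hj hj3 (by omega)

lemma low (hI : (D.jc hM h3 hk).Inv ψ χ) {f : (P.refine 7 h7).Facet} (hf : ¬ IsPl (co h7 f))
    {x y : ℕ} (hx : x < k) (hy : y ≤ k) (hc : fj f < 3 ∨ (fj f = 3 ∧ y = 0))
    (hl : D.la7 k f x y ≠ Helper55.UNF.Ln.z) :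
    χ f x y ↔ val D hM h3 hk ψ χ (bf (co h7 f)).r2 (7 * k - 1 - (fi f * k + x)) := by
  have hi := fi_lt f
  have hj := fj_lt f
  have hs : IsV (bf (co h7 f)).r2 := IsV_r2' (wall_V hf)
  have e1 : sub h7 (bf (co h7 f)).r2 (6 - fi f) (6 - fj f) (by omega) (by omega) =
      (sf f).r2 := (sub_r2 (hk := h7) (bf (co h7 f)) hi hj).symm
  have e1f : (sub h7 (bf (co h7 f)).r2 (6 - fi f) (6 - fj f) (by omega) (by omega)).facet = f := by
    rw [e1]; exact sf_facet f
  have hrev := rev_ij (k := k) hi hx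
  have hv : (D.ev k (bf (co h7 f)).r2 ((6 - fi f) * k + (k - 1 - x))).ln ≠
      Helper55.UNF.Ln.z := by
    rw [← hrev]
    unfold la7 at hl
    rw [if_neg hf, if_pos (by omega)] at hl
    exact hl
  rw [hrev, ← up_val hI hs (by omega) (show 6 - fj f < 7 by omega) (by omega) (by omega) hv, e1]
  have hcan : D.can7 (sf f).r2.facet = (sf f).r2.r2 := by
    have h4 : (sf f).r2.facet = f := sf_facet f
    rw [h4, FSt.r2_r2]
    unfold can7
    rw [if_neg hf]
  rw [vls_2 (C := D.jc hM h3 hk) hcan, show k - 1 - (k - 1 - x) = x by omega,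
    show (sf f).r2.facet = f from sf_facet f]
  rcases hc with hc | ⟨-, rfl⟩
  · have h4 := D.row_straight hM h3 hk hI hs (i := 6 - fi f) (j := 6 - fj f) (by omega)
      (by omega) (by omega) hx
    rw [e1f] at h4
    refine h4 ?_ y hy
    have h5 : D.la7 k f x 0 = D.la7 k f x y := by
      unfold la7
      rw [if_neg hf, if_neg hf, if_pos (Or.inl hc), if_pos (Or.inl hc)]
    rw [h5]
    exact hl
  · exact Iff.rfl

lemma high (hI : (D.jc hM h3 hk).Inv ψ χ) {f : (P.refine 7 h7).Facet} (hf : ¬ IsPl (co h7 f))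
    {x y : ℕ} (hx : x < k) (hy : y ≤ k) (hc : 3 < fj f ∨ (fj f = 3 ∧ y = k))
    (hl : D.la7 k f x y ≠ Helper55.UNF.Ln.z) :
    χ f x y ↔ val D hM h3 hk ψ χ (bf (co h7 f)) (fi f * k + x) := by
  have hi := fi_lt f
  have hj := fj_lt f
  have hs : IsV (bf (co h7 f)) := wall_V hf
  have e1f : (sub h7 (bf (co h7 f)) (fi f) (fj f) hi hj).facet = f := sf_facet f
  have hcn : ¬ (fj f < 3 ∨ (fj f = 3 ∧ y = 0)) := by omega
  have hv : (D.ev k (bf (co h7 f)) (fi f * k + x)).ln ≠ Helper55.UNF.Ln.z := by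
    unfold la7 at hl
    rw [if_neg hf, if_neg hcn] at hl
    exact hl
  rw [← up_val hI hs hi hj (by omega) hx hv]
  have hcan : D.can7 (sub h7 (bf (co h7 f)) (fi f) (fj f) hi hj).facet =
      sub h7 (bf (co h7 f)) (fi f) (fj f) hi hj := by
    rw [e1f]
    unfold can7
    rw [if_neg hf]
    rfl
  rw [vls_0 (C := D.jc hM h3 hk) hcan, e1f]
  rcases hc with hc | ⟨-, rfl⟩
  · have h4 := D.row_straight hM h3 hk hI hs (i := fi f) (j := fj f) hi hj hc hx
    rw [e1f] at h4
    have h5 : ∀ y', D.la7 k f x y' = D.la7 k f x y := by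
      intro y'
      unfold la7
      rw [if_neg hf, if_neg hf, if_neg (by omega), if_neg (by omega)]
    have h6 := h4 (by rw [h5]; exact hl)
    rw [h6 y hy, h6 k le_rfl]
  · exact Iff.rfl

end W0

/-! ### The coarse values -/

theorem exists_cv {ψ χ : (P.refine 7 Deco0.h7).Facet → ℕ → ℕ → Prop} {B : ℕ}
    (hW : (D.jc hM h3 hk).Words B) (hI : (D.jc hM h3 hk).Inv ψ χ) (hE : (D.jc hM h3 hk).Eq2 χ) :
    ∃ W : CV D k B, Back W ψ χ := by
  have hS := exists_stack hW hI hE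
  have hs_of : ∀ {s : P.FSt}, IsV s → IsV (pE.symm s) := by
    intro s hs
    have e : (pE.symm s).stE = s := by
      show pE (pE.symm s) = s
      rw [Equiv.apply_symm_apply]
    rw [← IsV_stE, e]; exact hs
  let W : CV D k B :=
    { val := W0.val D hM h3 hk ψ χ
      hv := D.hvC k ψ χ
      vv := D.vvC k ψ χ
      cs := W0.cs D hM h3 hk χ
      symm := fun s he X hX hv => W0.symm hI he hX hv
      cell := fun F hF => W0.cell hI hF
      sN := fun F hF X hX _ => W0.sN hI hF hX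
      sS := fun F hF X hX _ => W0.sS hI hF hX
      sW := fun F hF Y hY _ => W0.sW hI hF hY
      sE := fun F hF Y hY _ => W0.sE hI hF hY
      cs_E := by
        intro s hs
        obtain ⟨n, hn⟩ : ∃ n, 7 * k = n + 1 := ⟨7 * k - 1, by omega⟩
        rw [hn, W0.cs_succ]
        unfold W0.cs
        rw [if_pos rfl]
        have e : pE.symm s.stE = s := by
          show pE.symm (pE s) = s
          rw [Equiv.symm_apply_apply]
        rw [e, show 7 * k - 1 = n by omega]
      cs_z := by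
        intro s hs X hX hv
        rw [W0.cs_succ, W0.cs_nx hs hX]
        funext m
        apply propext
        exact hS.z _ (pos_ok D hM h3 hk hs hX) (by rw [pos_wd D hM h3 hk hs hX]; exact hv) m
      cs_n := by
        intro s hs X hX hv
        have hw : (D.jc hM h3 hk).wd (pos k s X).1 (pos k s X).2 = Helper55.UNF.Ln.n := by
          rw [pos_wd D hM h3 hk hs hX, hv]; rfl
        have hv' : (D.ev k s X).ln ≠ Helper55.UNF.Ln.z := by rw [hv]; decide
        rw [W0.cs_succ, W0.cs_nx hs hX]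
        funext m
        apply propext
        cases m with
        | zero =>
          rw [hS.n0 _ (pos_ok D hM h3 hk hs hX) hw]
          exact W0.fv_val hI hs hX hv'
        | succ m => exact hS.n1 _ (pos_ok D hM h3 hk hs hX) hw m
      cs_s := by
        intro s hs X hX hv
        have hw : (D.jc hM h3 hk).wd (pos k s X).1 (pos k s X).2 = Helper55.UNF.Ln.s := by
          rw [pos_wd D hM h3 hk hs hX, hv]; rfl
        have hv' : (D.ev k s X).ln ≠ Helper55.UNF.Ln.z := by rw [hv]; decide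
        rw [W0.cs_succ, W0.cs_nx hs hX]
        funext m
        apply propext
        cases m with
        | zero =>
          rw [hS.s0 _ (pos_ok D hM h3 hk hs hX) hw]
          exact W0.fv_val hI hs hX hv'
        | succ m => exact hS.s1 _ (pos_ok D hM h3 hk hs hX) hw m
      cs_ev := by
        intro s s' hs hss Y hY Y' hY' m m' hm hm'
        have hs' : IsV s' := by
          have h4 : ∀ n : ℕ, IsV ((pE ^ n) s) := by
            intro n
            induction n with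
            | zero => exact hs
            | succ n ih =>
              rw [pow_succ', Equiv.Perm.mul_apply]
              exact (IsV_stE _).2 ih
          obtain ⟨n, hn⟩ := hss.exists_nat_pow_eq
          rw [← hn]
          exact h4 n
        have key : ∀ {t : P.FSt}, IsV t → ∀ Z, Z ≤ 7 * k → ∃ (t' : P.FSt) (X : ℕ), IsV t' ∧
            X < 7 * k ∧ pE.SameCycle t' t ∧
            W0.cs D hM h3 hk χ t Z = stk (D.jc hM h3 hk) χ (pos k t' X) := by
          intro t ht Z hZ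
          rcases Nat.eq_zero_or_pos Z with rfl | h0
          · refine ⟨pE.symm t, 7 * k - 1, hs_of ht, by omega, ⟨1, by simp⟩, ?_⟩
            unfold W0.cs
            rw [if_pos rfl]
          · obtain ⟨Z, rfl⟩ : ∃ Z', Z = Z' + 1 := ⟨Z - 1, by omega⟩
            exact ⟨t, Z, ht, by omega, Equiv.Perm.SameCycle.refl _ _, W0.cs_succ _ _⟩
        obtain ⟨t, X, ht, hX, h4, h5⟩ := key hs Y hY
        obtain ⟨t', X', ht', hX', h4', h5'⟩ := key hs' Y' hY'
        rw [h5, h5']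
        exact hS.ev _ _ (pos_ok D hM h3 hk ht hX) (pos_ok D hM h3 hk ht' hX')
          (pos_same ht X X' ((h4.trans hss).trans h4'.symm)) m m' hm hm' }
  exact ⟨W, fun f x y hf hx hy hp => W0.ver hI hf hx hy hp,
    fun f x y hf hx hy hp => W0.hor hI hf hx hy hp,
    fun f x y hf hx hy hc hl => W0.low hI hf hx hy hc hl,
    fun f x y hf hx hy hc hl => W0.high hI hf hx hy hc hl⟩

end Pool.Agent.MP42D
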