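import Pool.Agent.MP42.D.LineT

/-!
# Piece W6: the sum of a word
-/

set_option autoImplicit false
set_option linter.unusedSectionVars false

namespace Pool.Agent.MP42D

/-- the sum of a word -/
def vsum {τ : Type*} (l : List (Bool × τ)) : ℤ := (l.map fun a => if a.1 = true then 1 else -1).sum

section

variable {τ : Type*}

lemma vsum_nil : vsum ([] : List (Bool × τ)) = 0 := rfl

lemma vsum_append (l l' : List (Bool × τ)) : vsum (l ++ l') = vsum l + vsum l' := by
  unfold vsum
  rw [List.map_append, List.sum_append]

lemma vsum_cons (a : Bool × τ) (l : List (Bool × τ)) :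
    vsum (a :: l) = (if a.1 = true then 1 else -1) + vsum l := by
  unfold vsum
  rw [List.map_cons, List.sum_cons]

lemma vsum_reverse (l : List (Bool × τ)) : vsum l.reverse = vsum l := by
  induction l with
  | nil => rfl
  | cons a l ih =>
    rw [List.reverse_cons, vsum_append, ih, vsum_cons, vsum_cons, vsum_nil]
    ring

lemma vsum_le (l : List (Bool × τ)) : vsum l ≤ l.length := by
  induction l with
  | nil => simp [vsum]
  | cons a l ih =>
    rw [vsum_cons, List.length_cons]
    push_cast
    split_ifs <;> linarith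

lemma le_vsum (l : List (Bool × τ)) : -(l.length : ℤ) ≤ vsum l := by
  induction l with
  | nil => simp [vsum]
  | cons a l ih =>
    rw [vsum_cons, List.length_cons]
    push_cast
    split_ifs <;> linarith

lemma vsum_opt_true (b : Bool) (t : τ) : vsum (opt b (true, t)) = b.toNat := by
  cases b <;> simp [opt, vsum]

lemma vsum_opt_false (b : Bool) (t : τ) : vsum (opt b (false, t)) = -(b.toNat : ℤ) := by
  cases b <;> simp [opt, vsum]

lemma length_opt {α : Type*} (b : Bool) (a : α) : (opt b a).length = b.toNat := by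
  cases b <;> rfl

lemma vsum_red {w w' : List (Bool × τ)} (h : Red w w') : vsum w = vsum w' := by
  induction h with
  | refl w => rfl
  | step u v t h ih =>
    rw [← ih, vsum_append, vsum_append, vsum_cons, vsum_cons]
    simp

end

namespace KD

variable {τ : Type*} (K : KD τ)

lemma ctsV_add (y : ℤ) (a b : ℕ) : K.cts y (a + b) = K.cts y a ++ K.cts (y + a) b := by
  unfold cts
  rw [List.range_add, List.flatMap_append, List.flatMap_map]
  congr 1
  apply List.flatMap_congr
  intro i _
  rw [show y + ((a + i : ℕ) : ℤ) = y + (a : ℤ) + (i : ℤ) by push_cast; ring]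

lemma ctsV_one (y : ℤ) : K.cts y 1 = K.ct y := by
  unfold cts
  simp

lemma ctsV_zero (y : ℤ) : K.cts y 0 = [] := by
  unfold cts
  simp

lemma ctsV_cons (y : ℤ) (n : ℕ) : K.cts y (n + 1) = K.ct y ++ K.cts (y + 1) n := by
  rw [Nat.add_comm, ctsV_add, ctsV_one]
  norm_num

lemma vsum_ct (y : ℤ) : vsum (K.ct y) = (K.cn 1 y).toNat + (K.cn 2 y).toNat -
    (K.cs 1 y).toNat - (K.cs 2 y).toNat := by
  unfold ct
  rw [vsum_append, vsum_append, vsum_append, vsum_opt_true, vsum_opt_true, vsum_opt_false,
    vsum_opt_false]
  ring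

lemma vsum_opB (w : ℤ) : vsum (K.opB w) = cnt (fun s => K.M s w && !K.M s (w - 1)) := by
  unfold opB ls4 cnt
  simp only [vsum_append, vsum_opt_true]
  push_cast
  ring

lemma vsum_clB (u : ℤ) : vsum (K.clB u) = -(cnt (fun s => K.M s (u - 1) && !K.M s u) : ℤ) := by
  unfold clB sl4 cnt
  simp only [vsum_append, vsum_opt_false]
  push_cast
  ring

lemma vsum_opA (w : ℤ) : vsum (K.opA w) = cnt (fun s => K.M s (w - 1) && !K.M s w) := by
  unfold opA sl4 cnt
  simp only [vsum_append, vsum_opt_true]
  push_cast
  ring

lemma vsum_clA (u : ℤ) : vsum (K.clA u) = -(cnt (fun s => K.M s u && !K.M s (u - 1)) : ℤ) := by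
  unfold clA ls4 cnt
  simp only [vsum_append, vsum_opt_false]
  push_cast
  ring

lemma len_opB (w : ℤ) : (K.opB w).length = cnt (fun s => K.M s w && !K.M s (w - 1)) := by
  unfold opB ls4 cnt
  simp only [List.length_append, length_opt]
  ring

lemma len_clB (u : ℤ) : (K.clB u).length = cnt (fun s => K.M s (u - 1) && !K.M s u) := by
  unfold clB sl4 cnt
  simp only [List.length_append, length_opt]

lemma len_opA (w : ℤ) : (K.opA w).length = cnt (fun s => K.M s (w - 1) && !K.M s w) := by
  unfold opA sl4 cnt
  simp only [List.length_append, length_opt]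

lemma len_clA (u : ℤ) : (K.clA u).length = cnt (fun s => K.M s u && !K.M s (u - 1)) := by
  unfold clA ls4 cnt
  simp only [List.length_append, length_opt]
  ring

end KD

end Pool.Agent.MP42D
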