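import Pool.Agent.MP42.D.LineC
import Pool.Agent.MP42.D.W6v

/-!
# Piece W6a: heights along a B run of walls of a line (owner helper83)
-/

set_option autoImplicit false
set_option linter.unusedSectionVars false

namespace Pool.Agent.MP42D

open Pool.Agent.Helper55.UNF Pool.Agent.MP42G

/-! ### sums of a row -/

lemma toNat_tr (b a q : Bool) (h1 : a = true → b = true ∧ q = false)
    (h2 : b = true → a = false → q = true) :
    (q.toNat : ℤ) = b.toNat - a.toNat + (q && !b).toNat := by
  cases a <;> cases b <;> cases q <;> simp_all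

lemma Tr.cnt_eq {b a q : Fin 4 → Bool} (h : Tr b a q) :
    (cnt q : ℤ) = cnt b - cnt a + cnt (fun s => q s && !b s) := by
  unfold cnt
  push_cast
  rw [toNat_tr (b 0) (a 0) (q 0) (h.ab 0) (h.bq 0), toNat_tr (b 1) (a 1) (q 1) (h.ab 1) (h.bq 1),
    toNat_tr (b 2) (a 2) (q 2) (h.ab 2) (h.bq 2), toNat_tr (b 3) (a 3) (q 3) (h.ab 3) (h.bq 3)]
  ring

lemma cnt_le (b : Fin 4 → Bool) : cnt b ≤ 4 := by
  have h := fun s => Bool.toNat_le (b s)
  have h0 := h 0
  have h1 := h 1
  have h2 := h 2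
  have h3 := h 3
  unfold cnt
  omega

lemma sum_nC {k : ℕ} (hk : 7 ≤ k) {q : Fin 4 → Bool} {f : ℕ → ℤ}
    (h1 : ∀ t < k, (∃ s, q s = true ∧ t = nC s) → f t = 1)
    (h2 : ∀ t < k, (¬ ∃ s, q s = true ∧ t = nC s) → f t = 0) :
    ∑ t ∈ Finset.range k, f t = cnt q := by
  have e : ∀ s : Fin 4, f (nC s) = (q s).toNat := by
    intro s
    have hs := nC_le s
    cases hq : q s
    · rw [h2 (nC s) (by omega)]
      · rfl
      · rintro ⟨s', h3, h4⟩
        rw [nC_inj h4, h3] at hq
        exact absurd hq (by decide)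
    · exact h1 (nC s) (by omega) ⟨s, hq, rfl⟩
  have hz : ∀ t < k, (∀ s, t ≠ nC s) → f t = 0 := fun t ht h3 => h2 t ht
    (by rintro ⟨s, -, h4⟩; exact h3 s h4)
  rw [← Finset.sum_subset (Finset.range_subset_range.2 hk) (fun t ht ht' => hz t
    (Finset.mem_range.1 ht) (fun s hs => ht' (by
      have := nC_le s
      rw [Finset.mem_range]; omega)))]
  have e0 := e 0
  have e1 := e 1
  have e2 := e 2
  have e3 := e 3
  rw [show nC 0 = 3 from rfl] at e0
  rw [show nC 1 = 4 from rfl] at e1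
  rw [show nC 2 = 5 from rfl] at e2
  rw [show nC 3 = 6 from rfl] at e3
  have z0 := hz 0 (by omega) (fun s => by have := three_le_nC s; omega)
  have z1 := hz 1 (by omega) (fun s => by have := three_le_nC s; omega)
  have z2 := hz 2 (by omega) (fun s => by have := three_le_nC s; omega)
  simp only [Finset.sum_range_succ, Finset.sum_range_zero, z0, z1, z2, e0, e1, e2, e3]
  unfold cnt
  push_cast
  ring

lemma sum_sC {k : ℕ} (hk : 7 ≤ k) {q : Fin 4 → Bool} {f : ℕ → ℤ}
    (h1 : ∀ t < k, (∃ s, q s = true ∧ t = sC s) → f t = -1)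
    (h2 : ∀ t < k, (¬ ∃ s, q s = true ∧ t = sC s) → f t = 0) :
    ∑ t ∈ Finset.range k, f t = -(cnt q : ℤ) := by
  have e : ∀ s : Fin 4, f (sC s) = -((q s).toNat : ℤ) := by
    intro s
    have hs := sC_le s
    cases hq : q s
    · rw [h2 (sC s) (by omega)]
      · rfl
      · rintro ⟨s', h3, h4⟩
        rw [sC_inj h4, h3] at hq
        exact absurd hq (by decide)
    · exact h1 (sC s) (by omega) ⟨s, hq, rfl⟩
  have hz : ∀ t < k, (∀ s, t ≠ sC s) → f t = 0 := fun t ht h3 => h2 t ht
    (by rintro ⟨s, -, h4⟩; exact h3 s h4)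
  rw [← Finset.sum_subset (Finset.range_subset_range.2 hk) (fun t ht ht' => hz t
    (Finset.mem_range.1 ht) (fun s hs => ht' (by
      have := sC_le s
      rw [Finset.mem_range]; omega)))]
  have e0 := e 0
  have e1 := e 1
  have e2 := e 2
  have e3 := e 3
  rw [show sC 0 = 6 from rfl] at e0
  rw [show sC 1 = 5 from rfl] at e1
  rw [show sC 2 = 4 from rfl] at e2
  rw [show sC 3 = 3 from rfl] at e3
  have z0 := hz 0 (by omega) (fun s => by have := three_le_sC s; omega)
  have z1 := hz 1 (by omega) (fun s => by have := three_le_sC s; omega)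
  have z2 := hz 2 (by omega) (fun s => by have := three_le_sC s; omega)
  simp only [Finset.sum_range_succ, Finset.sum_range_zero, z0, z1, z2, e0, e1, e2, e3]
  unfold cnt
  push_cast
  ring

lemma sum_tail_nonneg {k a : ℕ} {f : ℕ → ℤ} (h : ∀ t < k, 0 ≤ f t) :
    0 ≤ ∑ t ∈ Finset.Ico a k, f t ∧ ∑ t ∈ Finset.Ico a k, f t ≤ ∑ t ∈ Finset.range k, f t := by
  constructor
  · exact Finset.sum_nonneg fun t ht => h t (Finset.mem_Ico.1 ht).2
  · apply Finset.sum_le_sum_of_subset_of_nonneg
    · intro t ht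
      rw [Finset.mem_range]
      exact (Finset.mem_Ico.1 ht).2
    · intro t ht _
      exact h t (Finset.mem_range.1 ht)

lemma sum_tail_nonpos {k a : ℕ} {f : ℕ → ℤ} (h : ∀ t < k, f t ≤ 0) :
    ∑ t ∈ Finset.Ico a k, f t ≤ 0 ∧ ∑ t ∈ Finset.range k, f t ≤ ∑ t ∈ Finset.Ico a k, f t := by
  have := sum_tail_nonneg (k := k) (a := a) (f := fun t => - f t) (fun t ht => by
    have := h t ht
    linarith)
  simp only [Finset.sum_neg_distrib] at this
  constructor <;> linarith [this.1, this.2]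

lemma sum_shift {k j : ℕ} (a : ℕ) (v : ℕ → ℤ) :
    ∑ T ∈ Finset.Ico (j * k + a) ((j + 1) * k), v T = ∑ t ∈ Finset.Ico a k, v (j * k + t) := by
  rw [Finset.sum_Ico_add v a k (j * k), Nat.add_comm (j * k) a,
    show k + j * k = (j + 1) * k by ring]

namespace KD

variable {τ : Type*} {K : KD τ} {on : ℤ → Bool} {k : ℕ}

/-! ### the letters at the ends of a B run -/

lemma kn0_V {s : Fin 4} {y : ℤ} (hn : K.kn s y 0 = true) : K.V s y = true ∧ K.st y = false := by
  have hV : K.M s y = true → K.V s y = true := fun hs => by unfold V; rw [hs]; simp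
  rw [K.kn_0] at hn
  cases hv : K.V s y <;> cases hst : K.st y <;> cases hM : K.M s y <;> cases hsd : K.sd y <;>
    simp_all

lemma ks0_V {s : Fin 4} {y : ℤ} (hn : K.ks s y 0 = true) : K.V s y = true ∧ K.st y = true := by
  have hV : K.M s y = true → K.V s y = true := fun hs => by unfold V; rw [hs]; simp
  rw [K.ks_0] at hn
  cases hv : K.V s y <;> cases hst : K.st y <;> cases hM : K.M s y <;> cases hsd : K.sd y <;>
    simp_all

lemma kn6_V {s : Fin 4} {y : ℤ} (hn : K.kn s y 6 = true) :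
    K.V s (y + 1) = true ∧ K.st (y + 1) = true := by
  have hV : K.M s y = true → K.V s (y + 1) = true := fun hs => by
    unfold V; rw [show y + 1 - 1 = y by ring, hs]; simp
  rw [K.kn_6] at hn
  cases hv : K.V s (y + 1) <;> cases hst : K.st (y + 1) <;> cases hM : K.M s y <;>
    cases hsd : K.sd y <;> simp_all

lemma ks6_V {s : Fin 4} {y : ℤ} (hn : K.ks s y 6 = true) :
    K.V s (y + 1) = true ∧ K.st (y + 1) = false := by
  have hV : K.M s y = true → K.V s (y + 1) = true := fun hs => by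
    unfold V; rw [show y + 1 - 1 = y by ring, hs]; simp
  rw [K.ks_6] at hn
  cases hv : K.V s (y + 1) <;> cases hst : K.st (y + 1) <;> cases hM : K.M s y <;>
    cases hsd : K.sd y <;> simp_all

lemma kn0B (s : Fin 4) (y : ℤ) : (K.kn s y 0 && !K.bB s y 0) = false := by
  cases hn : K.kn s y 0
  · rfl
  · obtain ⟨h1, h2⟩ := kn0_V hn
    rw [K.bB_0, h1, h2]; rfl

lemma ks6B (s : Fin 4) (y : ℤ) : (K.ks s y 6 && !K.aB s y 6) = false := by
  cases hn : K.ks s y 6
  · rfl
  · obtain ⟨h1, h2⟩ := ks6_V hn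
    rw [K.aB_6, h1, h2]; rfl

lemma ks0B (h : K.Ok on) {y : ℤ} (hb : K.bw y = true) (s : Fin 4) :
    (K.ks s y 0 && !K.aB s y 0) = (K.M s (y - 1) && !K.M s y && !K.bw (y - 1)) := by
  cases hn : K.ks s y 0
  · cases hM1 : K.M s (y - 1)
    · rfl
    · cases hM : K.M s y
      · cases hb1 : K.bw (y - 1)
        · exfalso
          have hV : K.V s y = true := by unfold KD.V; rw [hM1]; rfl
          rw [K.ks_0] at hn
          rcases K.ev_stop h hM1 hM with ⟨-, -, a3, -⟩ | ⟨-, -, -, a4⟩
          · rw [hb1, hb] at a3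
            exact absurd a3 (by decide)
          · rw [hV, a4, hM] at hn
            simp at hn
        · rfl
      · rfl
  · obtain ⟨a1, a2⟩ := ks0_V hn
    rw [K.aB_mid _ _ (by omega)]
    cases hM : K.M s y
    · have hM1 : K.M s (y - 1) = true := by
        unfold KD.V at a1; rw [hM, Bool.or_false] at a1; exact a1
      rcases K.ev_stop h hM1 hM with ⟨-, -, -, a4⟩ | ⟨b1, -, -, -⟩
      · rw [a2] at a4
        exact absurd a4 (by decide)
      · rw [hM1, b1]; rfl
    · cases hsd : K.sd y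
      · simp
      · exfalso
        rw [K.ks_0, a2, hM, hsd, a1] at hn
        simp at hn

lemma kn6B (h : K.Ok on) {y : ℤ} (hb : K.bw y = true) (s : Fin 4) :
    (K.kn s y 6 && !K.bB s y 6) = (K.M s (y + 1) && !K.M s y && !K.bw (y + 1)) := by
  have hy : y + 1 - 1 = y := by ring
  cases hn : K.kn s y 6
  · cases hM1 : K.M s (y + 1)
    · rfl
    · cases hM : K.M s y
      · cases hb1 : K.bw (y + 1)
        · exfalso
          have hM' : K.M s (y + 1 - 1) = false := by rw [hy]; exact hM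
          have hV : K.V s (y + 1) = true := by unfold KD.V; rw [hM1]; simp
          rcases K.ev_start h hM1 hM' with ⟨-, -, a3, -⟩ | ⟨-, -, -, a4⟩
          · rw [hy, hb1, hb] at a3
            exact absurd a3 (by decide)
          · rw [K.kn_6, hV, a4, hM] at hn
            simp at hn
        · rfl
      · rfl
  · obtain ⟨a1, a2⟩ := kn6_V hn
    rw [K.bB_mid _ _ (by omega)]
    cases hM : K.M s y
    · have hM1 : K.M s (y + 1) = true := by
        unfold KD.V at a1; rw [hy, hM, Bool.false_or] at a1; exact a1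
      have hM' : K.M s (y + 1 - 1) = false := by rw [hy]; exact hM
      rcases K.ev_start h hM1 hM' with ⟨-, -, -, a4⟩ | ⟨-, b1, -, -⟩
      · rw [a2] at a4
        exact absurd a4 (by decide)
      · rw [hM1, b1]; rfl
    · cases hsd : K.sd y
      · simp
      · exfalso
        rw [K.kn_6, a2, hM, hsd, a1] at hn
        simp at hn

lemma kn_midB (s : Fin 4) (y : ℤ) {j : ℕ} (h0 : j ≠ 0) (h3 : j ≠ 3) (h6 : j ≠ 6) :
    K.kn s y j = false ∧ K.ks s y j = false := by
  rw [K.kn_mid _ _ h0 h6, K.ks_mid _ _ h0 h6]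
  simp [h3]

/-! ### the sum of the letters of a row -/

lemma row_cases (h : K.Ok on) {y : ℤ} {j : ℕ} (hj : j < 7) :
    (∀ s, K.ks s y j = false) ∨ ∀ s, K.kn s y j = false := by
  rcases K.trB h (y := y) hj with ⟨h1, -⟩ | ⟨h1, -⟩
  · exact Or.inl h1
  · exact Or.inr h1

lemma row_sum_n (hk : 20 ≤ k) {y : ℤ} {j : ℕ} (h1 : ∀ s, K.ks s y j = false) :
    ∑ t ∈ Finset.range k, MP42G.vl (K.kl k y (j * k + t)).ln = cnt (fun s => K.kn s y j) ∧
      ∀ t < k, 0 ≤ MP42G.vl (K.kl k y (j * k + t)).ln := by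
  have z : ∀ t < k, (¬ ∃ s, K.kn s y j = true ∧ t = nC s) →
      MP42G.vl (K.kl k y (j * k + t)).ln = 0 := by
    intro t ht h3
    rw [K.kl_z ht h3 (by
      rintro ⟨s, h4, -⟩
      rw [h1] at h4
      exact absurd h4 (by decide))]
    rfl
  have n : ∀ t < k, (∃ s, K.kn s y j = true ∧ t = nC s) →
      MP42G.vl (K.kl k y (j * k + t)).ln = 1 := by
    intro t ht h3
    rw [K.kl_n ht h3]
    rfl
  refine ⟨sum_nC (by omega) n z, ?_⟩
  intro t ht
  by_cases h3 : ∃ s, K.kn s y j = true ∧ t = nC s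
  · rw [n t ht h3]; norm_num
  · rw [z t ht h3]

lemma row_sum_s (hk : 20 ≤ k) {y : ℤ} {j : ℕ} (h1 : ∀ s, K.kn s y j = false) :
    ∑ t ∈ Finset.range k, MP42G.vl (K.kl k y (j * k + t)).ln = -(cnt (fun s => K.ks s y j) : ℤ) ∧
      ∀ t < k, MP42G.vl (K.kl k y (j * k + t)).ln ≤ 0 := by
  have z : ∀ t < k, (¬ ∃ s, K.ks s y j = true ∧ t = sC s) →
      MP42G.vl (K.kl k y (j * k + t)).ln = 0 := by
    intro t ht h3
    rw [K.kl_z ht (by
      rintro ⟨s, h4, -⟩
      rw [h1] at h4
      exact absurd h4 (by decide)) h3]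
    rfl
  have n : ∀ t < k, (∃ s, K.ks s y j = true ∧ t = sC s) →
      MP42G.vl (K.kl k y (j * k + t)).ln = -1 := by
    intro t ht h3
    rw [K.kl_s ht h1 h3]
    rfl
  refine ⟨sum_sC (by omega) n z, ?_⟩
  intro t ht
  by_cases h3 : ∃ s, K.ks s y j = true ∧ t = sC s
  · rw [n t ht h3]; norm_num
  · rw [z t ht h3]

lemma rowB (h : K.Ok on) (hk : 20 ≤ k) {y : ℤ} {j : ℕ} (hj : j < 7) :
    ∑ t ∈ Finset.range k, MP42G.vl (K.kl k y (j * k + t)).ln =
      (cnt (K.bdB y j) : ℤ) - cnt (K.bdB y (j + 1)) + cnt (fun s => K.kn s y j && !K.bB s y j) -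
        cnt (fun s => K.ks s y j && !K.aB s y j) := by
  have e1 : (fun s => K.bB s y j) = K.bdB y j := funext fun s => K.bB_eq hj s y
  have e2 : (fun s => K.aB s y j) = K.bdB y (j + 1) := funext fun s => K.aB_eq hj s y
  rcases K.trB h (y := y) hj with ⟨h1, h2⟩ | ⟨h1, h2⟩
  · rw [(row_sum_n hk h1).1, h2.cnt_eq, e1, e2,
      cnt_none (b := fun s => K.ks s y j && !K.aB s y j) (fun s => by rw [h1]; rfl)]
    push_cast
    ring
  · rw [(row_sum_s hk h1).1, h2.cnt_eq, e1, e2,
      cnt_none (b := fun s => K.kn s y j && !K.bB s y j) (fun s => by rw [h1]; rfl)]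
    push_cast
    ring

/-- a bound inside of a row from the bounds at its ends -/
lemma row_bd (h : K.Ok on) (hk : 20 ≤ k) {y : ℤ} {j : ℕ} (hj : j < 7) {a : ℕ} {c lo hi : ℤ}
    (h1 : lo ≤ c ∧ c ≤ hi)
    (h2 : lo ≤ c + ∑ t ∈ Finset.range k, MP42G.vl (K.kl k y (j * k + t)).ln ∧
      c + ∑ t ∈ Finset.range k, MP42G.vl (K.kl k y (j * k + t)).ln ≤ hi) :
    lo ≤ c + ∑ t ∈ Finset.Ico a k, MP42G.vl (K.kl k y (j * k + t)).ln ∧
      c + ∑ t ∈ Finset.Ico a k, MP42G.vl (K.kl k y (j * k + t)).ln ≤ hi := by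
  rcases row_cases h (y := y) hj with h3 | h3
  · have := sum_tail_nonneg (a := a) (row_sum_n hk h3).2
    constructor <;> linarith [this.1, this.2, h1.1, h1.2, h2.1, h2.2]
  · have := sum_tail_nonpos (a := a) (row_sum_s hk h3).2
    constructor <;> linarith [this.1, this.2, h1.1, h1.2, h2.1, h2.2]

/-! ### the heights -/

open Classical in
/-- the part of the word of the run that is above the boundary `j` of the segment `y` -/
noncomputable def beB (K : KD τ) (u w y : ℤ) (j : ℕ) : ℤ :=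
  if y = w - 1 ∧ j = 7 then 0 else
    (cnt (fun s => K.M s w && !K.M s (w - 1)) : ℤ) + vsum (K.cts (y + 1) (w - 1 - y).toNat) +
      (if j ≤ 3 then vsum (K.ct y) else 0) -
      (if j = 0 ∧ y = u then (cnt (fun s => K.M s (u - 1) && !K.M s u) : ℤ) else 0)

noncomputable def hiB (K : KD τ) (u w y : ℤ) (j : ℕ) : ℤ := (cnt (K.bdB y j) : ℤ) + K.beB u w y j

lemma beB_top (u w : ℤ) : K.beB u w (w - 1) 7 = 0 := by
  unfold beB
  rw [if_pos ⟨rfl, rfl⟩]

lemma beB_hi (u w : ℤ) {y : ℤ} {j : ℕ} (h1 : 3 < j) (h2 : y ≠ w - 1 ∨ j ≠ 7) : K.beB u w y j =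
    (cnt (fun s => K.M s w && !K.M s (w - 1)) : ℤ) + vsum (K.cts (y + 1) (w - 1 - y).toNat) := by
  unfold beB
  rw [if_neg (show ¬ (y = w - 1 ∧ j = 7) by tauto), if_neg (show ¬ j ≤ 3 by omega),
    if_neg (show ¬ (j = 0 ∧ y = u) by omega)]
  ring

lemma beB_lo (u w : ℤ) {y : ℤ} {j : ℕ} (h1 : j ≤ 3) (h2 : j ≠ 0 ∨ y ≠ u) : K.beB u w y j =
    (cnt (fun s => K.M s w && !K.M s (w - 1)) : ℤ) + vsum (K.cts (y + 1) (w - 1 - y).toNat) +
      vsum (K.ct y) := by
  unfold beB
  rw [if_neg (show ¬ (y = w - 1 ∧ j = 7) by omega), if_pos h1,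
    if_neg (show ¬ (j = 0 ∧ y = u) by tauto)]
  ring

lemma beB_bot (u w : ℤ) : K.beB u w u 0 =
    (cnt (fun s => K.M s w && !K.M s (w - 1)) : ℤ) + vsum (K.cts (u + 1) (w - 1 - u).toNat) +
      vsum (K.ct u) - cnt (fun s => K.M s (u - 1) && !K.M s u) := by
  unfold beB
  rw [if_neg (show ¬ (u = w - 1 ∧ 0 = 7) by omega), if_pos (by omega), if_pos ⟨rfl, rfl⟩]

lemma hiB_row (h : K.Ok on) (hk : 20 ≤ k) {u w : ℤ}
    (hb : ∀ y, u ≤ y → y < w → K.bw y = true) (hu : K.bw (u - 1) = false) (hw : K.bw w = false)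
    {y : ℤ} (hy1 : u ≤ y) (hy2 : y < w) {j : ℕ} (hj : j < 7) :
    K.hiB u w y j = K.hiB u w y (j + 1) +
      ∑ t ∈ Finset.range k, MP42G.vl (K.kl k y (j * k + t)).ln := by
  have hby := hb y hy1 hy2
  rw [rowB h hk hj]
  unfold hiB
  suffices hs : K.beB u w y j = K.beB u w y (j + 1) +
      cnt (fun s => K.kn s y j && !K.bB s y j) - cnt (fun s => K.ks s y j && !K.aB s y j) by
    linarith
  rcases Nat.eq_zero_or_pos j with h0 | h0
  · subst h0
    rw [cnt_none (b := fun s => K.kn s y 0 && !K.bB s y 0) (fun s => kn0B s y),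
      beB_lo u w (j := 0 + 1) (by omega) (Or.inl (by omega))]
    rcases eq_or_ne y u with h1 | h1
    · subst h1
      have e : (fun s => K.ks s y 0 && !K.aB s y 0) = fun s => K.M s (y - 1) && !K.M s y := by
        funext s
        rw [ks0B h hby, hu]
        simp
      rw [e, beB_bot]
      push_cast
      ring
    · have hb1 := hb (y - 1) (by omega) (by omega)
      rw [cnt_none (b := fun s => K.ks s y 0 && !K.aB s y 0) (fun s => by
        rw [ks0B h hby, hb1]
        simp), beB_lo u w (by omega) (Or.inr h1)]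
      push_cast
      ring
  · rcases eq_or_ne j 6 with h6 | h6
    · subst h6
      rw [cnt_none (b := fun s => K.ks s y 6 && !K.aB s y 6) (fun s => ks6B s y),
        beB_hi u w (j := 6) (by omega) (Or.inr (by omega))]
      rcases eq_or_ne y (w - 1) with h1 | h1
      · have e : (fun s => K.kn s y 6 && !K.bB s y 6) =
            fun s => K.M s w && !K.M s (w - 1) := by
          funext s
          rw [kn6B h hby, show y + 1 = w by omega, hw, h1]
          simp
        rw [e, h1, beB_top, show (w - 1 - (w - 1)).toNat = 0 by omega, K.ctsV_zero, vsum_nil]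
        push_cast
        ring
      · have hb1 := hb (y + 1) (by omega) (by omega)
        rw [cnt_none (b := fun s => K.kn s y 6 && !K.bB s y 6) (fun s => by
          rw [kn6B h hby, hb1]
          simp), beB_hi u w (j := 6 + 1) (by omega) (Or.inl h1)]
        push_cast
        ring
    · rcases eq_or_ne j 3 with h3 | h3
      · subst h3
        have e1 : (fun s => K.kn s y 3 && !K.bB s y 3) = fun s => K.cn s y :=
          funext fun s => (K.kn_3 h y s).1
        have e2 : (fun s => K.ks s y 3 && !K.aB s y 3) = fun s => K.cs s y :=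
          funext fun s => (K.ks_3 h y s).1
        rw [e1, e2, beB_lo u w (j := 3) (by omega) (Or.inl (by omega)),
          beB_hi u w (j := 3 + 1) (by omega) (Or.inr (by omega)), K.vsum_ct]
        unfold cnt
        simp only [(K.cn_03 h y).1, (K.cn_03 h y).2, (K.cs_03 h y).1, (K.cs_03 h y).2,
          Bool.toNat_false]
        push_cast
        ring
      · rw [cnt_none (b := fun s => K.kn s y j && !K.bB s y j) (fun s => by
            rw [(kn_midB s y (by omega) h3 h6).1]; rfl),
          cnt_none (b := fun s => K.ks s y j && !K.aB s y j) (fun s => by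
            rw [(kn_midB s y (by omega) h3 h6).2]; rfl)]
        by_cases h4 : j ≤ 3
        · rw [beB_lo u w (j := j) h4 (Or.inl (by omega)),
            beB_lo u w (j := j + 1) (by omega) (Or.inl (by omega))]
          push_cast
          ring
        · rw [beB_hi u w (j := j) (by omega) (Or.inr (by omega)),
            beB_hi u w (j := j + 1) (by omega) (Or.inr (by omega))]
          push_cast
          ring

/-- W6a -/
theorem htB' (h : K.Ok on) (hk : 20 ≤ k) {u w : ℤ} (huw : u < w)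
    (hb : ∀ y, u ≤ y → y < w → K.bw y = true) (hu : K.bw (u - 1) = false) (hw : K.bw w = false)
    (hl : (K.xw u w).length ≤ 4) :
    ∃ G : ℤ → ℕ → ℤ,
      (∀ y T, u ≤ y → y < w → T < 7 * k → G y T = G y (T + 1) + MP42G.vl (K.kl k y T).ln) ∧
      (∀ y, u < y → y < w → G (y - 1) (7 * k) = G y 0) ∧
      G u 0 = vsum (K.xw u w) ∧ G (w - 1) (7 * k) = 0 ∧
      ∀ y T, u ≤ y → y < w → T ≤ 7 * k → -4 ≤ G y T ∧ G y T ≤ 8 := by
  have hkp : 0 < k := by omega
  set v : ℤ → ℕ → ℤ := fun y T => MP42G.vl (K.kl k y T).ln with hv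
  set G : ℤ → ℕ → ℤ := fun y T => K.hiB u w y 7 + ∑ T' ∈ Finset.Ico T (7 * k), v y T' with hG
  -- heights over the boundaries
  have row : ∀ {y : ℤ}, u ≤ y → y < w → ∀ {j : ℕ}, j < 7 → K.hiB u w y j =
      K.hiB u w y (j + 1) + ∑ t ∈ Finset.range k, v y (j * k + t) := fun h1 h2 _ hj =>
    hiB_row h hk hb hu hw h1 h2 hj
  have split : ∀ {y : ℤ} {j a : ℕ}, j < 7 → a ≤ k → G y (j * k + a) =
      G y ((j + 1) * k) + ∑ t ∈ Finset.Ico a k, v y (j * k + t) := by
    intro y j a hj ha
    have h1 : j * k + a ≤ (j + 1) * k := by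
      rw [Nat.add_mul, Nat.one_mul]; omega
    have h2 : (j + 1) * k ≤ 7 * k := Nat.mul_le_mul_right k (by omega)
    simp only [hG]
    rw [← Finset.sum_Ico_consecutive _ h1 h2, sum_shift a]
    ring
  have bd : ∀ {y : ℤ}, u ≤ y → y < w → ∀ i ≤ 7, G y ((7 - i) * k) = K.hiB u w y (7 - i) := by
    intro y h1 h2 i
    induction i with
    | zero =>
      intro _
      simp [hG]
    | succ i ih =>
      intro hi
      have h3 := split (y := y) (j := 7 - (i + 1)) (a := 0) (by omega) (by omega)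
      rw [Nat.add_zero, show 7 - (i + 1) + 1 = 7 - i by omega, ih (by omega),
        ← Finset.range_eq_Ico] at h3
      rw [h3, row h1 h2 (j := 7 - (i + 1)) (by omega), show 7 - (i + 1) + 1 = 7 - i by omega]
  have bd' : ∀ {y : ℤ}, u ≤ y → y < w → ∀ j ≤ 7, G y (j * k) = K.hiB u w y j := by
    intro y h1 h2 j hj
    have := bd h1 h2 (7 - j) (by omega)
    rw [show 7 - (7 - j) = j by omega] at this
    exact this
  -- the bounds over the boundaries
  have hlen : (K.xw u w).length = cnt (fun s => K.M s w && !K.M s (w - 1)) +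
      (K.cts u (w - u).toNat).length + cnt (fun s => K.M s (u - 1) && !K.M s u) := by
    unfold xw
    rw [if_neg (by omega), if_pos huw, List.length_append, List.length_append, List.length_reverse,
      K.len_opB, K.len_clB]
  have hbe : ∀ {y : ℤ}, u ≤ y → y < w → ∀ j, -4 ≤ K.beB u w y j ∧ K.beB u w y j ≤ 4 := by
    intro y h1 h2 j
    have e1 : K.cts u (w - u).toNat = K.cts u (y - u).toNat ++ (K.ct y ++
        K.cts (y + 1) (w - 1 - y).toNat) := by
      rw [show (w - u).toNat = (y - u).toNat + ((w - 1 - y).toNat + 1) by omega, K.ctsV_add,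
        K.ctsV_cons, show u + ((y - u).toNat : ℤ) = y by omega]
    have e2 := congrArg List.length e1
    rw [List.length_append, List.length_append] at e2
    have a1 := vsum_le (K.ct y)
    have a2 := le_vsum (K.ct y)
    have a3 := vsum_le (K.cts (y + 1) (w - 1 - y).toNat)
    have a4 := le_vsum (K.cts (y + 1) (w - 1 - y).toNat)
    unfold beB
    split_ifs <;> constructor <;> omega
  have hhi : ∀ {y : ℤ}, u ≤ y → y < w → ∀ j, -4 ≤ K.hiB u w y j ∧ K.hiB u w y j ≤ 8 := by
    intro y h1 h2 j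
    have h3 := hbe h1 h2 j
    have h4 := cnt_le (K.bdB y j)
    unfold hiB
    constructor <;> omega
  refine ⟨G, ?_, ?_, ?_, ?_, ?_⟩
  · intro y T _ _ hT
    simp only [hG]
    rw [Finset.sum_eq_sum_Ico_succ_bot hT]
    simp only [hv]
    ring
  · intro y h1 h2
    rw [bd' (by omega) (by omega) 7 le_rfl, show G y 0 = G y (0 * k) by rw [Nat.zero_mul],
      bd' (by omega) h2 0 (by omega)]
    have e3 : K.bdB (y - 1) 7 = K.bdB y 0 := by
      funext s
      unfold KD.bdB
      rw [show y - 1 + 1 = y by ring]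
      simp
    unfold hiB
    rw [e3, beB_hi u w (y := y - 1) (j := 7) (by omega) (Or.inl (by omega)),
      beB_lo u w (y := y) (j := 0) (by omega) (Or.inr (by omega)),
      show (w - 1 - (y - 1)).toNat = (w - 1 - y).toNat + 1 by omega, show y - 1 + 1 = y by ring,
      K.ctsV_cons, vsum_append]
    ring
  · rw [show G u 0 = G u (0 * k) by rw [Nat.zero_mul], bd' le_rfl huw 0 (by omega)]
    have e2 : cnt (K.bdB u 0) = 0 := cnt_none fun s => by
      unfold KD.bdB
      rw [if_pos rfl]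
      exact K.noB h (by rw [hb u le_rfl huw, hu]; decide) s
    unfold hiB
    rw [e2, beB_bot]
    unfold xw
    rw [if_neg (by omega), if_pos huw, vsum_append, vsum_append, vsum_reverse,
      show (w - u).toNat = (w - 1 - u).toNat + 1 by omega, K.ctsV_cons, vsum_append, K.vsum_opB,
      K.vsum_clB]
    push_cast
    ring
  · have h1 := bd' (y := w - 1) (by omega) (by omega) 7 le_rfl
    rw [h1]
    have e1 : cnt (K.bdB (w - 1) 7) = 0 := cnt_none fun s => by
      unfold KD.bdB
      rw [if_neg (by omega), if_pos rfl, show w - 1 + 1 = w by ring]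
      exact K.noB h (by rw [hb (w - 1) (by omega) (by omega), hw]; decide) s
    unfold hiB
    rw [e1, beB_top]
    rfl
  · intro y T h1 h2 hT
    rcases eq_or_ne T (7 * k) with h3 | h3
    · rw [h3, bd' h1 h2 7 le_rfl]
      exact hhi h1 h2 7
    · have hj : T / k < 7 := by
        rw [Nat.div_lt_iff_lt_mul hkp]; omega
      have hm := Nat.mod_lt T hkp
      have eT : T = T / k * k + T % k := by
        rw [Nat.mul_comm]; exact (Nat.div_add_mod T k).symm
      have h4 := split (y := y) hj hm.le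
      rw [← eT, bd' h1 h2 (T / k + 1) (by omega)] at h4
      rw [h4]
      apply row_bd h hk hj (hhi h1 h2 _)
      have h5 := row h1 h2 hj
      simp only [hv] at h5
      rw [← h5]
      exact hhi h1 h2 _

end KD

end Pool.Agent.MP42D
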