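import Pool.Agent.MP42.D.W6a

/-!
# Piece W6b: heights along an A run of walls of a line (owner helper83)
-/

set_option autoImplicit false
set_option linter.unusedSectionVars false

namespace Pool.Agent.MP42D

open Pool.Agent.Helper55.UNF Pool.Agent.MP42G

lemma sum_head_nonneg {k a : ℕ} (ha : a ≤ k) {f : ℕ → ℤ} (h : ∀ t < k, 0 ≤ f t) :
    0 ≤ ∑ t ∈ Finset.range a, f t ∧ ∑ t ∈ Finset.range a, f t ≤ ∑ t ∈ Finset.range k, f t := by
  constructor
  · exact Finset.sum_nonneg fun t ht => h t (by rw [Finset.mem_range] at ht; omega)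
  · apply Finset.sum_le_sum_of_subset_of_nonneg
    · exact Finset.range_subset_range.2 ha
    · intro t ht _
      exact h t (Finset.mem_range.1 ht)

lemma sum_head_nonpos {k a : ℕ} (ha : a ≤ k) {f : ℕ → ℤ} (h : ∀ t < k, f t ≤ 0) :
    ∑ t ∈ Finset.range a, f t ≤ 0 ∧ ∑ t ∈ Finset.range k, f t ≤ ∑ t ∈ Finset.range a, f t := by
  have := sum_head_nonneg (k := k) ha (f := fun t => - f t) (fun t ht => by
    have := h t ht
    linarith)
  simp only [Finset.sum_neg_distrib] at this
  constructor <;> linarith [this.1, this.2]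

lemma cnt_rev (b : Fin 4 → Bool) : cnt (fun s => b (Fin.rev s)) = cnt b := by
  show (b 3).toNat + (b 2).toNat + (b 1).toNat + (b 0).toNat =
    (b 0).toNat + (b 1).toNat + (b 2).toNat + (b 3).toNat
  ring

namespace KD

variable {τ : Type*} {K : KD τ} {on : ℤ → Bool} {k : ℕ}

/-! ### the letters at the ends of an A run -/

lemma ks0A (s : Fin 4) (y : ℤ) : (K.ks s y 0 && !K.bA s y 0) = false := by
  cases hn : K.ks s y 0
  · rfl
  · obtain ⟨h1, h2⟩ := ks0_V hn
    rw [K.bA_0, h1, h2]; rfl

lemma kn6A (s : Fin 4) (y : ℤ) : (K.kn s y 6 && !K.aA s y 6) = false := by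
  cases hn : K.kn s y 6
  · rfl
  · obtain ⟨h1, h2⟩ := kn6_V hn
    rw [K.aA_6, h1, h2]; rfl

lemma kn0A (h : K.Ok on) {y : ℤ} (ha : K.aw y = true) (s : Fin 4) :
    (K.kn s y 0 && !K.aA s y 0) = (K.M s (y - 1) && !K.M s y && !K.aw (y - 1)) := by
  have hsd := sd_A ha
  cases hn : K.kn s y 0
  · cases hM1 : K.M s (y - 1)
    · rfl
    · cases hM : K.M s y
      · cases hb1 : K.aw (y - 1)
        · exfalso
          have hV : K.V s y = true := by unfold KD.V; rw [hM1]; rfl
          rw [K.kn_0] at hn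
          rcases K.ev_stop h hM1 hM with ⟨-, -, -, a4⟩ | ⟨-, -, a3, -⟩
          · rw [hV, a4, hM] at hn
            simp at hn
          · rw [hb1, ha] at a3
            exact absurd a3 (by decide)
        · rfl
      · rfl
  · obtain ⟨a1, a2⟩ := kn0_V hn
    rw [K.aA_mid _ _ (by omega), hsd, Bool.and_false]
    cases hM : K.M s y
    · have hM1 : K.M s (y - 1) = true := by
        unfold KD.V at a1; rw [hM, Bool.or_false] at a1; exact a1
      rcases K.ev_stop h hM1 hM with ⟨b1, -, -, -⟩ | ⟨-, -, -, a4⟩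
      · rw [hM1, b1]; rfl
      · rw [a2] at a4
        exact absurd a4 (by decide)
    · exfalso
      rw [K.kn_0, a2, hM, hsd, a1] at hn
      simp at hn

lemma ks6A (h : K.Ok on) {y : ℤ} (ha : K.aw y = true) (s : Fin 4) :
    (K.ks s y 6 && !K.bA s y 6) = (K.M s (y + 1) && !K.M s y && !K.aw (y + 1)) := by
  have hy : y + 1 - 1 = y := by ring
  have hsd := sd_A ha
  cases hn : K.ks s y 6
  · cases hM1 : K.M s (y + 1)
    · rfl
    · cases hM : K.M s y
      · cases hb1 : K.aw (y + 1)
        · exfalso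
          have hM' : K.M s (y + 1 - 1) = false := by rw [hy]; exact hM
          have hV : K.V s (y + 1) = true := by unfold KD.V; rw [hM1]; simp
          rcases K.ev_start h hM1 hM' with ⟨-, -, -, a4⟩ | ⟨-, -, a3, -⟩
          · rw [K.ks_6, hV, a4, hM] at hn
            simp at hn
          · rw [hy, hb1, ha] at a3
            exact absurd a3 (by decide)
        · rfl
      · rfl
  · obtain ⟨a1, a2⟩ := ks6_V hn
    rw [K.bA_mid _ _ (by omega), hsd, Bool.and_false]
    cases hM : K.M s y
    · have hM1 : K.M s (y + 1) = true := by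
        unfold KD.V at a1; rw [hy, hM, Bool.false_or] at a1; exact a1
      have hM' : K.M s (y + 1 - 1) = false := by rw [hy]; exact hM
      rcases K.ev_start h hM1 hM' with ⟨-, b1, -, -⟩ | ⟨-, -, -, a4⟩
      · rw [hM1, b1]; rfl
      · rw [a2] at a4
        exact absurd a4 (by decide)
    · exfalso
      rw [K.ks_6, a2, hM, hsd, a1] at hn
      simp at hn

/-! ### the sum of the letters of a row -/

lemma rowA (h : K.Ok on) (hk : 20 ≤ k) {y : ℤ} (ha : K.aw y = true) {j : ℕ} (hj : j < 7) :
    ∑ t ∈ Finset.range k, MP42G.vl (K.kl k y (j * k + t)).ln =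
      (cnt (K.bdA y (j + 1)) : ℤ) - cnt (K.bdA y j) + cnt (fun s => K.kn s y j && !K.aA s y j) -
        cnt (fun s => K.ks s y j && !K.bA s y j) := by
  have e1 : cnt (fun s => K.bA (Fin.rev s) y j) = cnt (K.bdA y j) := by
    rw [cnt_rev (fun s => K.bA s y j)]
    exact congrArg cnt (funext fun s => K.bA_eq hj s y)
  have e2 : cnt (fun s => K.aA (Fin.rev s) y j) = cnt (K.bdA y (j + 1)) := by
    rw [cnt_rev (fun s => K.aA s y j)]
    exact congrArg cnt (funext fun s => K.aA_eq hj s y)
  rcases K.trA h ha (y := y) hj with ⟨h1, h2⟩ | ⟨h1, h2⟩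
  · have h4 := h2.cnt_eq
    rw [e1, e2, cnt_rev (fun s => K.ks s y j),
      cnt_rev (fun s => K.ks s y j && !K.bA s y j)] at h4
    rw [(row_sum_s hk h1).1, h4,
      cnt_none (b := fun s => K.kn s y j && !K.aA s y j) (fun s => by rw [h1]; rfl)]
    push_cast
    ring
  · have h4 := h2.cnt_eq
    rw [e1, e2, cnt_rev (fun s => K.kn s y j),
      cnt_rev (fun s => K.kn s y j && !K.aA s y j)] at h4
    rw [(row_sum_n hk h1).1, h4,
      cnt_none (b := fun s => K.ks s y j && !K.bA s y j) (fun s => by rw [h1]; rfl)]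
    push_cast
    ring

/-- a bound inside of a row from the bounds at its ends -/
lemma row_bdA (h : K.Ok on) (hk : 20 ≤ k) {y : ℤ} {j : ℕ} (hj : j < 7) {a : ℕ} (ha : a ≤ k)
    {c lo hi : ℤ} (h1 : lo ≤ c ∧ c ≤ hi)
    (h2 : lo ≤ c + ∑ t ∈ Finset.range k, MP42G.vl (K.kl k y (j * k + t)).ln ∧
      c + ∑ t ∈ Finset.range k, MP42G.vl (K.kl k y (j * k + t)).ln ≤ hi) :
    lo ≤ c + ∑ t ∈ Finset.range a, MP42G.vl (K.kl k y (j * k + t)).ln ∧
      c + ∑ t ∈ Finset.range a, MP42G.vl (K.kl k y (j * k + t)).ln ≤ hi := by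
  rcases row_cases h (y := y) hj with h3 | h3
  · have := sum_head_nonneg ha (row_sum_n hk h3).2
    constructor <;> linarith [this.1, this.2, h1.1, h1.2, h2.1, h2.2]
  · have := sum_head_nonpos ha (row_sum_s hk h3).2
    constructor <;> linarith [this.1, this.2, h1.1, h1.2, h2.1, h2.2]

/-! ### the heights -/

open Classical in
/-- the part of the word of the run that is below the boundary `j` of the segment `y` -/
noncomputable def beA (K : KD τ) (u w y : ℤ) (j : ℕ) : ℤ :=
  if y = w ∧ j = 0 then 0 else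
    (cnt (fun s => K.M s (w - 1) && !K.M s w) : ℤ) + vsum (K.cts w (y - w).toNat) +
      (if 3 < j then vsum (K.ct y) else 0) -
      (if j = 7 ∧ y = u - 1 then (cnt (fun s => K.M s u && !K.M s (u - 1)) : ℤ) else 0)

noncomputable def hiA (K : KD τ) (u w y : ℤ) (j : ℕ) : ℤ := (cnt (K.bdA y j) : ℤ) + K.beA u w y j

lemma beA_bot (u w : ℤ) : K.beA u w w 0 = 0 := by
  unfold beA
  rw [if_pos ⟨rfl, rfl⟩]

lemma beA_lo (u w : ℤ) {y : ℤ} {j : ℕ} (h1 : j ≤ 3) (h2 : y ≠ w ∨ j ≠ 0) : K.beA u w y j =
    (cnt (fun s => K.M s (w - 1) && !K.M s w) : ℤ) + vsum (K.cts w (y - w).toNat) := by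
  unfold beA
  rw [if_neg (show ¬ (y = w ∧ j = 0) by tauto), if_neg (show ¬ 3 < j by omega),
    if_neg (show ¬ (j = 7 ∧ y = u - 1) by omega)]
  ring

lemma beA_hi (u w : ℤ) {y : ℤ} {j : ℕ} (h1 : 3 < j) (h2 : j ≠ 7 ∨ y ≠ u - 1) : K.beA u w y j =
    (cnt (fun s => K.M s (w - 1) && !K.M s w) : ℤ) + vsum (K.cts w (y - w).toNat) +
      vsum (K.ct y) := by
  unfold beA
  rw [if_neg (show ¬ (y = w ∧ j = 0) by omega), if_pos h1,
    if_neg (show ¬ (j = 7 ∧ y = u - 1) by tauto)]
  ring

lemma beA_top (u w : ℤ) : K.beA u w (u - 1) 7 =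
    (cnt (fun s => K.M s (w - 1) && !K.M s w) : ℤ) + vsum (K.cts w (u - 1 - w).toNat) +
      vsum (K.ct (u - 1)) - cnt (fun s => K.M s u && !K.M s (u - 1)) := by
  unfold beA
  rw [if_neg (show ¬ (u - 1 = w ∧ 7 = 0) by omega), if_pos (by omega), if_pos ⟨rfl, rfl⟩]

lemma hiA_row (h : K.Ok on) (hk : 20 ≤ k) {u w : ℤ}
    (ha : ∀ y, w ≤ y → y < u → K.aw y = true) (hw : K.aw (w - 1) = false) (hu : K.aw u = false)
    {y : ℤ} (hy1 : w ≤ y) (hy2 : y < u) {j : ℕ} (hj : j < 7) :
    K.hiA u w y (j + 1) = K.hiA u w y j +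
      ∑ t ∈ Finset.range k, MP42G.vl (K.kl k y (j * k + t)).ln := by
  have hay := ha y hy1 hy2
  rw [rowA h hk hay hj]
  unfold hiA
  suffices hs : K.beA u w y (j + 1) = K.beA u w y j +
      cnt (fun s => K.kn s y j && !K.aA s y j) - cnt (fun s => K.ks s y j && !K.bA s y j) by
    linarith
  rcases Nat.eq_zero_or_pos j with h0 | h0
  · subst h0
    rw [cnt_none (b := fun s => K.ks s y 0 && !K.bA s y 0) (fun s => ks0A s y),
      beA_lo u w (j := 0 + 1) (by omega) (Or.inr (by omega))]
    rcases eq_or_ne y w with h1 | h1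
    · subst h1
      have e : (fun s => K.kn s y 0 && !K.aA s y 0) = fun s => K.M s (y - 1) && !K.M s y := by
        funext s
        rw [kn0A h hay, hw]
        simp
      rw [e, beA_bot, show (y - y).toNat = 0 by omega, K.ctsV_zero, vsum_nil]
      push_cast
      ring
    · have hb1 := ha (y - 1) (by omega) (by omega)
      rw [cnt_none (b := fun s => K.kn s y 0 && !K.aA s y 0) (fun s => by
        rw [kn0A h hay, hb1]
        simp), beA_lo u w (by omega) (Or.inl h1)]
      push_cast
      ring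
  · rcases eq_or_ne j 6 with h6 | h6
    · subst h6
      rw [cnt_none (b := fun s => K.kn s y 6 && !K.aA s y 6) (fun s => kn6A s y),
        beA_hi u w (j := 6) (by omega) (Or.inl (by omega))]
      rcases eq_or_ne y (u - 1) with h1 | h1
      · have e : (fun s => K.ks s y 6 && !K.bA s y 6) =
            fun s => K.M s u && !K.M s (u - 1) := by
          funext s
          rw [ks6A h hay, show y + 1 = u by omega, hu, h1]
          simp
        rw [e, h1, beA_top]
        push_cast
        ring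
      · have hb1 := ha (y + 1) (by omega) (by omega)
        rw [cnt_none (b := fun s => K.ks s y 6 && !K.bA s y 6) (fun s => by
          rw [ks6A h hay, hb1]
          simp), beA_hi u w (j := 6 + 1) (by omega) (Or.inr h1)]
        push_cast
        ring
    · rcases eq_or_ne j 3 with h3 | h3
      · subst h3
        have e1 : (fun s => K.kn s y 3 && !K.aA s y 3) = fun s => K.cn s y :=
          funext fun s => (K.kn_3 h y s).2
        have e2 : (fun s => K.ks s y 3 && !K.bA s y 3) = fun s => K.cs s y :=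
          funext fun s => (K.ks_3 h y s).2
        rw [e1, e2, beA_lo u w (j := 3) (by omega) (Or.inr (by omega)),
          beA_hi u w (j := 3 + 1) (by omega) (Or.inl (by omega)), K.vsum_ct]
        unfold cnt
        simp only [(K.cn_03 h y).1, (K.cn_03 h y).2, (K.cs_03 h y).1, (K.cs_03 h y).2,
          Bool.toNat_false]
        push_cast
        ring
      · rw [cnt_none (b := fun s => K.kn s y j && !K.aA s y j) (fun s => by
            rw [(kn_midB s y (by omega) h3 h6).1]; rfl),
          cnt_none (b := fun s => K.ks s y j && !K.bA s y j) (fun s => by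
            rw [(kn_midB s y (by omega) h3 h6).2]; rfl)]
        by_cases h4 : j ≤ 3
        · rw [beA_lo u w (j := j) h4 (Or.inr (by omega)),
            beA_lo u w (j := j + 1) (by omega) (Or.inr (by omega))]
          push_cast
          ring
        · rw [beA_hi u w (j := j) (by omega) (Or.inl (by omega)),
            beA_hi u w (j := j + 1) (by omega) (Or.inl (by omega))]
          push_cast
          ring

/-- W6b -/
theorem htA' (h : K.Ok on) (hk : 20 ≤ k) {u w : ℤ} (hwu : w < u)
    (ha : ∀ y, w ≤ y → y < u → K.aw y = true) (hw : K.aw (w - 1) = false) (hu : K.aw u = false)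
    (hl : (K.xw u w).length ≤ 4) :
    ∃ G : ℤ → ℕ → ℤ,
      (∀ y T, w ≤ y → y < u → T < 7 * k → G y (T + 1) = G y T + MP42G.vl (K.kl k y T).ln) ∧
      (∀ y, w < y → y < u → G (y - 1) (7 * k) = G y 0) ∧
      G w 0 = 0 ∧ G (u - 1) (7 * k) = vsum (K.xw u w) ∧
      ∀ y T, w ≤ y → y < u → T ≤ 7 * k → -4 ≤ G y T ∧ G y T ≤ 8 := by
  have hkp : 0 < k := by omega
  set v : ℤ → ℕ → ℤ := fun y T => MP42G.vl (K.kl k y T).ln with hv
  set G : ℤ → ℕ → ℤ := fun y T => K.hiA u w y 0 + ∑ T' ∈ Finset.range T, v y T' with hG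
  -- heights over the boundaries
  have row : ∀ {y : ℤ}, w ≤ y → y < u → ∀ {j : ℕ}, j < 7 → K.hiA u w y (j + 1) =
      K.hiA u w y j + ∑ t ∈ Finset.range k, v y (j * k + t) := fun h1 h2 _ hj =>
    hiA_row h hk ha hw hu h1 h2 hj
  have split : ∀ {y : ℤ} {j a : ℕ}, G y (j * k + a) =
      G y (j * k) + ∑ t ∈ Finset.range a, v y (j * k + t) := by
    intro y j a
    simp only [hG]
    rw [Finset.sum_range_add]
    ring
  have bd : ∀ {y : ℤ}, w ≤ y → y < u → ∀ j ≤ 7, G y (j * k) = K.hiA u w y j := by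
    intro y h1 h2 j
    induction j with
    | zero =>
      intro _
      simp [hG]
    | succ j ih =>
      intro hj
      rw [row h1 h2 (by omega), ← ih (by omega), Nat.add_mul, Nat.one_mul, split]
  -- the bounds over the boundaries
  have hlen : (K.xw u w).length = cnt (fun s => K.M s (w - 1) && !K.M s w) +
      (K.cts w (u - w).toNat).length + cnt (fun s => K.M s u && !K.M s (u - 1)) := by
    unfold xw
    rw [if_pos hwu, List.length_append, List.length_append, K.len_opA, K.len_clA]
  have hbe : ∀ {y : ℤ}, w ≤ y → y < u → ∀ j, -4 ≤ K.beA u w y j ∧ K.beA u w y j ≤ 4 := by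
    intro y h1 h2 j
    have e1 : K.cts w (u - w).toNat = K.cts w (y - w).toNat ++ (K.ct y ++
        K.cts (y + 1) (u - 1 - y).toNat) := by
      rw [show (u - w).toNat = (y - w).toNat + ((u - 1 - y).toNat + 1) by omega, K.ctsV_add,
        K.ctsV_cons, show w + ((y - w).toNat : ℤ) = y by omega]
    have e2 := congrArg List.length e1
    rw [List.length_append, List.length_append] at e2
    have a1 := vsum_le (K.ct y)
    have a2 := le_vsum (K.ct y)
    have a3 := vsum_le (K.cts w (y - w).toNat)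
    have a4 := le_vsum (K.cts w (y - w).toNat)
    unfold beA
    split_ifs <;> constructor <;> omega
  have hhi : ∀ {y : ℤ}, w ≤ y → y < u → ∀ j, -4 ≤ K.hiA u w y j ∧ K.hiA u w y j ≤ 8 := by
    intro y h1 h2 j
    have h3 := hbe h1 h2 j
    have h4 := cnt_le (K.bdA y j)
    unfold hiA
    constructor <;> omega
  refine ⟨G, ?_, ?_, ?_, ?_, ?_⟩
  · intro y T _ _ hT
    simp only [hG]
    rw [Finset.sum_range_succ]
    simp only [hv]
    ring
  · intro y h1 h2
    rw [bd (by omega) (by omega) 7 le_rfl, show G y 0 = G y (0 * k) by rw [Nat.zero_mul],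
      bd (by omega) h2 0 (by omega)]
    have e3 : K.bdA (y - 1) 7 = K.bdA y 0 := by
      funext s
      unfold KD.bdA
      rw [show y - 1 + 1 = y by ring]
      simp
    unfold hiA
    rw [e3, beA_hi u w (y := y - 1) (j := 7) (by omega) (Or.inr (by omega)),
      beA_lo u w (y := y) (j := 0) (by omega) (Or.inl (by omega)),
      show (y - w).toNat = (y - 1 - w).toNat + 1 by omega, K.ctsV_add, K.ctsV_one,
      show w + ((y - 1 - w).toNat : ℤ) = y - 1 by omega, vsum_append]
    ring
  · rw [show G w 0 = G w (0 * k) by rw [Nat.zero_mul], bd le_rfl hwu 0 (by omega)]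
    have e2 : cnt (K.bdA w 0) = 0 := cnt_none fun s => by
      unfold KD.bdA
      rw [if_pos rfl]
      exact K.noA (by rw [ha w le_rfl hwu, hw]; decide) s
    unfold hiA
    rw [e2, beA_bot]
    rfl
  · have h1 := bd (y := u - 1) (by omega) (by omega) 7 le_rfl
    rw [h1]
    have e1 : cnt (K.bdA (u - 1) 7) = 0 := cnt_none fun s => by
      unfold KD.bdA
      rw [if_neg (by omega), if_pos rfl, show u - 1 + 1 = u by ring]
      exact K.noA (by rw [ha (u - 1) (by omega) (by omega), hu]; decide) s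
    unfold hiA
    rw [e1, beA_top]
    unfold xw
    rw [if_pos hwu, vsum_append, vsum_append,
      show (u - w).toNat = (u - 1 - w).toNat + 1 by omega, K.ctsV_add, K.ctsV_one,
      show w + ((u - 1 - w).toNat : ℤ) = u - 1 by omega, vsum_append, K.vsum_opA, K.vsum_clA]
    push_cast
    ring
  · intro y T h1 h2 hT
    rcases eq_or_ne T (7 * k) with h3 | h3
    · rw [h3, bd h1 h2 7 le_rfl]
      exact hhi h1 h2 7
    · have hj : T / k < 7 := by
        rw [Nat.div_lt_iff_lt_mul hkp]; omega
      have hm := Nat.mod_lt T hkp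
      have eT : T = T / k * k + T % k := by
        rw [Nat.mul_comm]; exact (Nat.div_add_mod T k).symm
      have h4 := split (y := y) (j := T / k) (a := T % k)
      rw [← eT, bd h1 h2 (T / k) (by omega)] at h4
      rw [h4]
      apply row_bdA h hk hj hm.le (hhi h1 h2 _)
      have h5 := row h1 h2 hj
      simp only [hv] at h5
      rw [← h5]
      exact hhi h1 h2 _

end KD

end Pool.Agent.MP42D
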