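import Pool.Agent.MP42.D.Defs
import Pool.Agent.MP42.D.AGeo
import Pool.Agent.MP42.A1
import Pool.Agent.MP42.Counter
import Pool.Agent.MP42.G.Height

/-!
# Piece W6r: the letters of the sites and of the roots (owner helper55)

`rhoD k s X`: on a dart `s`: `2` in the column `3 k + 10` for a site, `1` for each root lane.  The sum
over every closed walk on the walls is `2`.
-/

set_option autoImplicit false
set_option linter.unusedSectionVars false

namespace Pool.Agent.MP42D

open Pool.Agent.Helper55.UNF Pool.Agent.Helper55.UNF.GridSolid Pool.Agent.MP42 Pool.Agent.MP42G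

variable {P : GridSolid}

namespace Deco0

open Classical in
/-- sites and root lanes -/
noncomputable def rhoD (D : Deco0 P) (k : ℕ) (s : P.FSt) (X : ℕ) : ℤ :=
  if h : IsDart s then (if X = 3 * k + 10 ∧ D.S ⟨s, h⟩ = true then 2 else 0) +
    (if X = 3 * k + 3 ∧ D.rt1 s = true then 1 else 0) +
    (if X + 4 = 4 * k ∧ D.rt2 s = true then 1 else 0) else 0

theorem rhoD_nonneg (D : Deco0 P) (k : ℕ) (s : P.FSt) (X : ℕ) : 0 ≤ D.rhoD k s X := by
  unfold rhoD
  split_ifs <;> norm_num

/-- the sum over one dart -/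
noncomputable def rhoC (D : Deco0 P) (d : Dart P) : ℤ :=
  (if D.S d = true then 2 else 0) + (if D.rt1 d.1 = true then 1 else 0) +
    (if D.rt2 d.1 = true then 1 else 0)

lemma sum_one {n a : ℕ} (ha : a < n) (b : Prop) [Decidable b] (c : ℤ) :
    ∑ X ∈ Finset.range n, (if X = a ∧ b then c else 0) = if b then c else 0 := by
  by_cases hb : b
  · simp only [hb, and_true, if_true]
    rw [Finset.sum_ite_eq' (Finset.range n) a, if_pos (Finset.mem_range.2 ha)]
  · simp [hb]

lemma sum_one' {n a m : ℕ} (ha : a + 4 = m) (hn : a < n) (b : Prop) [Decidable b] (c : ℤ) :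
    ∑ X ∈ Finset.range n, (if X + 4 = m ∧ b then c else 0) = if b then c else 0 := by
  rw [← sum_one hn b c]
  apply Finset.sum_congr rfl
  intro X _
  have h : (X + 4 = m ∧ b) ↔ (X = a ∧ b) := by
    constructor
    · rintro ⟨h1, h2⟩; exact ⟨by omega, h2⟩
    · rintro ⟨h1, h2⟩; exact ⟨by omega, h2⟩
  exact if_congr h rfl rfl

open Classical in
lemma rhoD_row (D : Deco0 P) {k : ℕ} (hk : 62 ≤ k) (s : P.FSt) :
    ∑ X ∈ Finset.range (7 * k), D.rhoD k s X = if h : IsDart s then D.rhoC ⟨s, h⟩ else 0 := by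
  unfold rhoD rhoC
  by_cases h : IsDart s
  · simp only [dif_pos h]
    rw [Finset.sum_add_distrib, Finset.sum_add_distrib, sum_one (by omega), sum_one (by omega),
      sum_one' (show (4 * k - 4) + 4 = 4 * k by omega) (by omega)]
  · simp only [dif_neg h]
    exact Finset.sum_const_zero

lemma rt1_dart (D : Deco0 P) (d : Dart P) : D.rt1 d.1 = true ↔
    (D.R d = true ∨ (D.R (theta P d) = true ∧ ¬ (phi P).SameCycle d (theta P d))) := by
  unfold rt1
  rw [onD_eq _ _ _ d.2.2]
  have : e1 d.1 d.2.2 = d := Subtype.ext (end1F_dart d.2)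
  rw [this]
  simp

lemma rt2_dart (D : Deco0 P) (d : Dart P) : D.rt2 d.1 = true ↔
    (D.R (theta P d) = true ∨ (D.R d = true ∧ ¬ (phi P).SameCycle d (theta P d))) := by
  unfold rt2
  rw [onD_eq _ _ _ d.2.2]
  have : e1 d.1 d.2.2 = d := Subtype.ext (end1F_dart d.2)
  rw [this]
  simp

end Deco0

section

variable (D : Deco P)

lemma sum_eq_one {C : Finset (Dart P)} {e : Dart P} (he : e ∈ C) (f : Dart P → Prop)
    [DecidablePred f] (c : ℤ)
    (h : ∀ d ∈ C, f d ↔ d = e) : ∑ d ∈ C, (if f d then c else 0) = c := by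
  classical
  have h1 : ∑ d ∈ C, (if f d then c else 0) = ∑ d ∈ C, (if d = e then c else 0) := by
    apply Finset.sum_congr rfl
    intro d hd
    exact if_congr (h d hd) rfl rfl
  rw [h1, Finset.sum_ite_eq' C e, if_pos he]

lemma sum_eq_none {C : Finset (Dart P)} (f : Dart P → Prop) [DecidablePred f] (c : ℤ)
    (h : ∀ d ∈ C, ¬ f d) : ∑ d ∈ C, (if f d then c else 0) = 0 := by
  apply Finset.sum_eq_zero
  intro d hd
  rw [if_neg (h d hd)]

/-- the sum over a face -/
theorem rhoC_face (d0 : Dart P) (C : Finset (Dart P))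
    (hmem : ∀ d, d ∈ C ↔ (phi P).SameCycle d0 d) : ∑ d ∈ C, D.rhoC d = 2 := by
  have hsum : ∑ d ∈ C, D.rhoC d = ∑ d ∈ C, (if D.S d = true then (2 : ℤ) else 0) +
      ∑ d ∈ C, (if D.rt1 d.1 = true then (1 : ℤ) else 0) +
      ∑ d ∈ C, (if D.rt2 d.1 = true then (1 : ℤ) else 0) := by
    rw [← Finset.sum_add_distrib, ← Finset.sum_add_distrib]
    rfl
  rw [hsum]
  have hth : ∀ d : Dart P, theta P (theta P d) = d := theta_theta P
  have hsame : ∀ {a b : Dart P}, a ∈ C → b ∈ C → (phi P).SameCycle a b := fun ha hb =>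
    ((hmem _).1 ha).symm.trans ((hmem _).1 hb)
  have hin : ∀ {a b : Dart P}, a ∈ C → (phi P).SameCycle a b → b ∈ C := fun ha hb =>
    (hmem _).2 (((hmem _).1 ha).trans hb)
  by_cases hs : ∃ s ∈ C, D.S s = true
  · obtain ⟨s, hsC, hS⟩ := hs
    rw [sum_eq_one hsC (fun d => D.S d = true) 2, sum_eq_none (fun d => D.rt1 d.1 = true) 1,
      sum_eq_none (fun d => D.rt2 d.1 = true) 1]
    · norm_num
    · intro d hd h
      rw [D.rt2_dart] at h
      rcases h with h | ⟨h, -⟩
      · have := (D.S_R s _ hS h).2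
        rw [hth] at this
        exact this (hsame hsC hd)
      · exact (D.S_R s d hS h).1 (hsame hsC hd)
    · intro d hd h
      rw [D.rt1_dart] at h
      rcases h with h | ⟨h, -⟩
      · exact (D.S_R s d hS h).1 (hsame hsC hd)
      · have := (D.S_R s _ hS h).2
        rw [hth] at this
        exact this (hsame hsC hd)
    · intro d hd
      constructor
      · intro h
        exact D.S_uniq d s h hS (hsame hd hsC)
      · rintro rfl
        exact hS
  · have hS : ∀ d ∈ C, ¬ (D.S d = true) := fun d hd h => hs ⟨d, hd, h⟩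
    obtain ⟨r, hR, hr⟩ : ∃ r, D.R r = true ∧ (r ∈ C ∨ theta P r ∈ C) := by
      rcases D.face d0 with ⟨s, h1, h2⟩ | ⟨r, h1, h2⟩
      · exact absurd h1 (hS s ((hmem s).2 h2))
      · exact ⟨r, h1, h2.imp (hmem _).2 (hmem _).2⟩
    have hRt := D.R_theta r hR
    rw [sum_eq_none (fun d => D.S d = true) 2 hS]
    -- the root is unique
    have huniq : ∀ r', D.R r' = true → (r' ∈ C ∨ theta P r' ∈ C) → r' = r := by
      intro r' hR' hr'
      apply D.R_uniq r' r hR' hR
      rcases hr' with h1 | h1 <;> rcases hr with h2 | h2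
      · exact Or.inl (hsame h1 h2)
      · exact Or.inr (Or.inl (hsame h1 h2))
      · exact Or.inr (Or.inr (Or.inl (hsame h1 h2)))
      · exact Or.inr (Or.inr (Or.inr (hsame h1 h2)))
    by_cases hrr : (phi P).SameCycle r (theta P r)
    · have hrC : r ∈ C ∧ theta P r ∈ C := by
        rcases hr with h | h
        · exact ⟨h, hin h hrr⟩
        · exact ⟨hin h hrr.symm, h⟩
      rw [sum_eq_one hrC.1 (fun d => D.rt1 d.1 = true) 1,
        sum_eq_one hrC.2 (fun d => D.rt2 d.1 = true) 1]
      · norm_num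
      · intro d hd
        rw [D.rt2_dart]
        constructor
        · rintro (h | ⟨h, h'⟩)
          · have := huniq _ h (Or.inr (by rw [hth]; exact hd))
            rw [← this, hth]
          · have := huniq _ h (Or.inl hd)
            rw [this] at h'
            exact absurd hrr h'
        · rintro rfl
          left
          rw [hth]
          exact hR
      · intro d hd
        rw [D.rt1_dart]
        constructor
        · rintro (h | ⟨h, h'⟩)
          · exact huniq _ h (Or.inl hd)
          · have := huniq _ h (Or.inr (by rw [hth]; exact hd))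
            have h2 : d = theta P r := by rw [← this, hth]
            rw [h2, hth] at h'
            exact absurd hrr.symm h'
        · rintro rfl
          exact Or.inl hR
    · obtain ⟨e, heC, he⟩ : ∃ e ∈ C, e = r ∨ e = theta P r := by
        rcases hr with h | h
        · exact ⟨r, h, Or.inl rfl⟩
        · exact ⟨theta P r, h, Or.inr rfl⟩
      have hns : ¬ (phi P).SameCycle (theta P r) r := fun h => hrr h.symm
      have key : ∀ d ∈ C, (D.R d = true ∨ D.R (theta P d) = true) → d = e := by
        intro d hd h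
        have h1 : d = r ∨ d = theta P r := by
          rcases h with h | h
          · exact Or.inl (huniq _ h (Or.inl hd))
          · right
            have := huniq _ h (Or.inr (by rw [hth]; exact hd))
            rw [← this, hth]
        rcases h1 with h1 | h1 <;> rcases he with h2 | h2
        · rw [h1, h2]
        · exfalso
          have h3 := hsame hd heC
          rw [h1, h2] at h3
          exact hrr h3
        · exfalso
          have h3 := hsame heC hd
          rw [h1, h2] at h3
          exact hrr h3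
        · rw [h1, h2]
      rw [sum_eq_one heC (fun d => D.rt1 d.1 = true) 1,
        sum_eq_one heC (fun d => D.rt2 d.1 = true) 1]
      · norm_num
      · intro d hd
        rw [D.rt2_dart]
        constructor
        · rintro (h | ⟨h, -⟩)
          · exact key d hd (Or.inr h)
          · exact key d hd (Or.inl h)
        · rintro rfl
          rcases he with h | h
          · right; rw [h]; exact ⟨hR, hrr⟩
          · left; rw [h, hth]; exact hR
      · intro d hd
        rw [D.rt1_dart]
        constructor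
        · rintro (h | ⟨h, -⟩)
          · exact key d hd (Or.inl h)
          · exact key d hd (Or.inr h)
        · rintro rfl
          rcases he with h | h
          · left; rw [h]; exact hR
          · right; rw [h, hth]; exact ⟨hR, hns⟩

/-- a closed walk on the walls contains a dart -/
lemma exists_dart_V (s : P.FSt) (hs : IsV s) : ∃ d : Dart P, pE.SameCycle s d.1 := by
  have key : ∀ t : P.FSt, IsU t → ∃ d : Dart P, pE.SameCycle t d.1 := by
    intro t ht
    obtain ⟨j, hj⟩ := exists_dart (P := P) ⟨t, ht⟩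
    exact ⟨⟨(pE ^ j) t, hj⟩, ⟨(j : ℤ), by rw [zpow_natCast]⟩⟩
  by_cases hu : IsU s
  · exact key s hu
  · obtain ⟨d, hd⟩ := key s.r2 (JCert.not_IsU_r2 hs hu)
    refine ⟨⟨d.1.r2, (IsDart_r2 _).2 d.2⟩, ?_⟩
    have h := r2_same P hd
    rw [FSt.r2_r2] at h
    exact h

lemma cycle_set {W : Type*} [Fintype W] (σ : Equiv.Perm W) (a : W) (e : W → ℤ) :
    ∃ C : Finset W, (∀ t, t ∈ C ↔ σ.SameCycle a t) ∧
      ∑ j ∈ Finset.range (Function.minimalPeriod σ a), e ((σ ^ j) a) = ∑ t ∈ C, e t := by
  classical
  refine ⟨_, ?_, (sum_cycle σ a e).symm⟩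
  intro t
  rw [Finset.mem_filter]
  simp

theorem rhoD_sum {k : ℕ} (hk : 62 ≤ k) (s : P.FSt) (hs : IsV s) :
    ∑ i ∈ Finset.range (Function.minimalPeriod pE s),
      ∑ X ∈ Finset.range (7 * k), D.rhoD k ((pE ^ i) s) X = 2 := by
  classical
  obtain ⟨d0, hd0⟩ := exists_dart_V s hs
  obtain ⟨C, hC, h1⟩ := cycle_set pE s (fun t => if h : IsDart t then D.rhoC ⟨t, h⟩ else 0)
  have h0 : ∑ i ∈ Finset.range (Function.minimalPeriod pE s),
      ∑ X ∈ Finset.range (7 * k), D.rhoD k ((pE ^ i) s) X =
      ∑ t ∈ C, (if h : IsDart t then D.rhoC ⟨t, h⟩ else 0) := by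
    rw [← h1]
    apply Finset.sum_congr rfl
    intro i _
    rw [D.rhoD_row hk]
  rw [h0]
  set C' : Finset (Dart P) := Finset.univ.filter (fun d => (phi P).SameCycle d0 d) with hC'
  have hmem : ∀ d, d ∈ C' ↔ (phi P).SameCycle d0 d := fun d => by
    rw [hC', Finset.mem_filter]; simp
  rw [← rhoC_face D d0 C' hmem]
  symm
  rw [← Finset.sum_filter_add_sum_filter_not C (fun t => IsDart t)]
  have h2 : ∑ t ∈ C.filter (fun t => ¬ IsDart t),
      (if h : IsDart t then D.rhoC ⟨t, h⟩ else 0) = 0 := by
    apply Finset.sum_eq_zero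
    intro t ht
    rw [Finset.mem_filter] at ht
    rw [dif_neg ht.2]
  rw [h2, add_zero]
  apply Finset.sum_bij (fun (d : Dart P) _ => d.1)
  · intro d hd
    rw [Finset.mem_filter, hC]
    exact ⟨hd0.trans ((phi_same_iff P d0 d).1 ((hmem d).1 hd)), d.2⟩
  · intro d _ d' _ h
    exact Subtype.ext h
  · intro t ht
    rw [Finset.mem_filter, hC] at ht
    exact ⟨⟨t, ht.2⟩, (hmem _).2 ((phi_same_iff P d0 ⟨t, ht.2⟩).2 (hd0.symm.trans ht.1)), rfl⟩
  · intro d _
    rw [dif_pos d.2]

end

end Pool.Agent.MP42D
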