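import Pool.Agent.MP42.D.W6g
import Pool.Agent.MP42.D.W6r
import Pool.Agent.MP42.D.W6a

/-!
# Piece W6c: heights on the coarse walls (owners helper74, helper55)
-/

set_option autoImplicit false
set_option linter.unusedSectionVars false

namespace Pool.Agent.MP42D

open Pool.Agent.Helper55.UNF Pool.Agent.Helper55.UNF.GridSolid Pool.Agent.MP42 Pool.Agent.MP42G

variable {P : GridSolid}

variable (D : Deco P) (hM : P.IsManifold) (h3 : Deg3 P) {k : ℕ} (hk : 62 ≤ k)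

lemma HtB_holds (P : GridSolid) {k : ℕ} (hk : 62 ≤ k) : HtB P k :=
  fun _ _ h _ _ huw hb hu hw hl => KD.htB' h (by omega) huw hb hu hw hl

include hM h3 hk

/-- W6c, from `htA` -/
theorem exists_ht' (HA : HtA P k) : ∃ G ρ : P.FSt → ℕ → ℤ,
    (∀ s : P.FSt, IsV s → ∀ X < 7 * k,
      G s X = G s (X + 1) + MP42G.vl (D.ev k s X).ln - ρ s X) ∧
    (∀ s : P.FSt, IsV s → G s.stE 0 = G s (7 * k)) ∧
    (∀ s : P.FSt, IsV s → ∀ X ≤ 7 * k, -5 ≤ G s X ∧ G s X ≤ 9) ∧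
    (∀ s X, 0 ≤ ρ s X) ∧
    ∀ s : P.FSt, IsV s → ∑ i ∈ Finset.range (Function.minimalPeriod pE s),
      ∑ X ∈ Finset.range (7 * k), ρ ((pE ^ i) s) X = 2 := by
  obtain ⟨G, h1, h2, h3'⟩ := exists_GG D hM h3 hk (HtB_holds P hk) HA (D.toDeco0.rhoD k)
    (fun κ X => by
      unfold Deco0.rhoD
      rw [dif_pos κ.2])
    (fun s hs X => by
      unfold Deco0.rhoD
      rw [dif_neg hs])
  exact ⟨G, D.toDeco0.rhoD k, h1, h2, h3', fun s X => D.toDeco0.rhoD_nonneg k s X,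
    fun s hs => rhoD_sum D hk s hs⟩

end Pool.Agent.MP42D
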