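import Pool.Agent.MP42.D.W6v
import Pool.Agent.MP42.D.W6a
import Pool.Agent.MP42.D.W6b
import Pool.Agent.MP42.D.W6c
import Pool.Agent.MP42.D.W0

/-!
# Piece W6: the words of the rims (statements; captain helper89)

`W6a` (htB): heights along a B run of walls of a line.  `W6b` (htA): along an A run.  `W6c`
(exists_ht): heights on the coarse walls.  `W6d` (words'): from `exists_ht` to `Words`.

The walk on the rims (order of `JCert.nx`) goes to the west on the coarse walls (decreasing `X`);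
`G s X` is the height over the line `X`.

Hints for `htB`: `bdB y j` of LineV.lean (slots over the boundary `j` of the wall `y`), `trB` of
LineT.lean.  For `Tr b a q`: `cnt q = cnt b - cnt a + cnt (q && !b)`, so the sum over the row `j` is
`cnt (bdB y j) - cnt (bdB y (j + 1))` plus the letters `kn && !bB` minus the letters `ks && !aB`,
which are (see `stopB`, `startB` in LineW.lean and `kn_3`, `ks_3`, `noB` in LineC.lean, the Boolean
identities in their proofs) the tracks that stop at `u` (row 0 of the wall `u`), the tracks that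
start at `w` (row 6 of the wall `w - 1`), `cn` and `cs` (row 3).  In a row all letters are `n` or
all are `s`.  Over the lines `j k` the height is `cnt (bdB y j)` plus a sum of a part of `xw`.
For `htA`: `bdA`, `trA`, `stopA`, `startA`.

Hints for `exists_ht` (`κ` a dart, `S κ` counts as 0 or 1): `ρ κ (3 k + 10) = 2 S κ`, `ρ κ X = 1`
for the root letters, else `0`; `G (phi κ) X` for `X ≤ 3 k` is `wN` (if `X ≤ 2 k + 3`) minus `wS`
(if `X ≤ 2 k + 5`); `G κ X = 0` for `3 k ≤ X ≤ 3 k + 10`, `= 2 S κ` for `3 k + 10 < X ≤ 4 k`, and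
for `4 k ≤ X` it is `2 S κ` minus `eN` (if `5 k < X + 4`) plus `eS` (if `5 k < X + 6`).  On the walls
between `κ` and `phi κ` (`Wk κ m b`, LeafA.lean; `b = true`: B side, east `+ y`, segment
`Geo.nw s.1 1`, `u = yu κ < w = yw κ`; `b = false`: A side, east `- y`, segment `Geo.ne s.1 1`,
`w < u`) use `htB`, `htA` plus the constant `G (phi κ) 0`.  The two ends match because
`red κ : Red (rw κ) (ex κ)` keeps `vsum` and `vsum (ex κ) = 2 S κ`; `exclw`, `exclu` of `Deco`:
`wS (phi κ)` is `SL κ` or `fS` or `gS`, and not two of them, etc.  Sum of `ρ` over a face of `phi`: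
`face`, `S_uniq`, `S_R`, `R_uniq`, `R_theta`.
-/

set_option autoImplicit false
set_option linter.unusedSectionVars false

namespace Pool.Agent.MP42D

open Pool.Agent.Helper55.UNF Pool.Agent.Helper55.UNF.GridSolid Pool.Agent.MP42 Pool.Agent.MP42G

namespace KD

variable {τ : Type*} {K : KD τ} {on : ℤ → Bool} {k : ℕ}

/-- W6a -/
theorem htB (h : K.Ok on) (hk : 20 ≤ k) {u w : ℤ} (huw : u < w)
    (hb : ∀ y, u ≤ y → y < w → K.bw y = true) (hu : K.bw (u - 1) = false) (hw : K.bw w = false)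
    (hl : (K.xw u w).length ≤ 4) :
    ∃ G : ℤ → ℕ → ℤ,
      (∀ y T, u ≤ y → y < w → T < 7 * k → G y T = G y (T + 1) + MP42G.vl (K.kl k y T).ln) ∧
      (∀ y, u < y → y < w → G (y - 1) (7 * k) = G y 0) ∧
      G u 0 = vsum (K.xw u w) ∧ G (w - 1) (7 * k) = 0 ∧
      ∀ y T, u ≤ y → y < w → T ≤ 7 * k → -4 ≤ G y T ∧ G y T ≤ 8 :=
  htB' h hk huw hb hu hw hl

/-- W6b -/
theorem htA (h : K.Ok on) (hk : 20 ≤ k) {u w : ℤ} (hwu : w < u)
    (ha : ∀ y, w ≤ y → y < u → K.aw y = true) (hw : K.aw (w - 1) = false) (hu : K.aw u = false)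
    (hl : (K.xw u w).length ≤ 4) :
    ∃ G : ℤ → ℕ → ℤ,
      (∀ y T, w ≤ y → y < u → T < 7 * k → G y (T + 1) = G y T + MP42G.vl (K.kl k y T).ln) ∧
      (∀ y, w < y → y < u → G (y - 1) (7 * k) = G y 0) ∧
      G w 0 = 0 ∧ G (u - 1) (7 * k) = vsum (K.xw u w) ∧
      ∀ y T, w ≤ y → y < u → T ≤ 7 * k → -4 ≤ G y T ∧ G y T ≤ 8 :=
  htA' h hk hwu ha hw hu hl

end KD

variable {P : GridSolid}

variable (D : Deco P) (hM : P.IsManifold) (h3 : Deg3 P) {k : ℕ} (hk : 62 ≤ k)

include hM h3 hk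

/-- W6c -/
theorem exists_ht : ∃ G ρ : P.FSt → ℕ → ℤ,
    (∀ s : P.FSt, IsV s → ∀ X < 7 * k,
      G s X = G s (X + 1) + MP42G.vl (D.ev k s X).ln - ρ s X) ∧
    (∀ s : P.FSt, IsV s → G s.stE 0 = G s (7 * k)) ∧
    (∀ s : P.FSt, IsV s → ∀ X ≤ 7 * k, -5 ≤ G s X ∧ G s X ≤ 9) ∧
    (∀ s X, 0 ≤ ρ s X) ∧
    ∀ s : P.FSt, IsV s → ∑ i ∈ Finset.range (Function.minimalPeriod pE s),
      ∑ X ∈ Finset.range (7 * k), ρ ((pE ^ i) s) X = 2 := by
  exact exists_ht' D hM h3 hk (fun _ _ h _ _ hwu ha hw hu hl => KD.htA h (by omega) hwu ha hw hu hl)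

end Pool.Agent.MP42D
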