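import Pool.Agent.MP42.D.W0b
import Pool.Agent.MP42.G.Height

/-!
# Piece W6d: from heights on the coarse rims to `Words` (owner helper55)
-/

set_option autoImplicit false
set_option linter.unusedSectionVars false

namespace Pool.Agent.MP42D

open Pool.Agent.Helper55.UNF Pool.Agent.Helper55.UNF.GridSolid Pool.Agent.MP42 Pool.Agent.MP42G
open Function

/-! ## Periods of odometers -/

lemma per_gen {W : Type*} {σ : W → W} {τ : W × ℕ → W × ℕ} {K : ℕ} (hK : 0 < K) {c : ℕ → ℕ}
    (hc : ∀ x < K, c x = c 0 → x = 0)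
    (h : ∀ (i x : ℕ) (w : W), x < K → τ^[i * K + x] (w, c 0) = (σ^[i] w, c x)) {w : W}
    (hw : w ∈ periodicPts σ) {x : ℕ} (hx : x < K) :
    minimalPeriod τ (w, c x) = minimalPeriod σ w * K := by
  have key : ∀ n : ℕ, IsPeriodicPt τ n (w, c 0) ↔ minimalPeriod σ w * K ∣ n := by
    intro n
    have hn : n = n / K * K + n % K := by
      rw [Nat.mul_comm]; exact (Nat.div_add_mod n K).symm
    have h1 : τ^[n] (w, c 0) = (σ^[n / K] w, c (n % K)) := by
      conv_lhs => rw [hn]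
      exact h _ _ _ (Nat.mod_lt _ hK)
    constructor
    · intro h2
      have h3 : (σ^[n / K] w, c (n % K)) = (w, c 0) := h1.symm.trans h2
      have h4 : n % K = 0 := hc _ (Nat.mod_lt _ hK) (congrArg Prod.snd h3)
      have h5 : IsPeriodicPt σ (n / K) w := congrArg Prod.fst h3
      rw [hn, h4, Nat.add_zero]
      exact Nat.mul_dvd_mul_right h5.minimalPeriod_dvd K
    · rintro ⟨j, hj⟩
      have h4 : n % K = 0 := by
        rw [hj, Nat.mul_assoc, Nat.mul_comm K j, ← Nat.mul_assoc]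
        exact Nat.mul_mod_left _ _
      have h5 : n / K = minimalPeriod σ w * j := by
        rw [hj, Nat.mul_assoc, Nat.mul_comm K j, ← Nat.mul_assoc, Nat.mul_div_cancel _ hK]
      show τ^[n] (w, c 0) = (w, c 0)
      rw [h1, h4, h5]
      have h6 : IsPeriodicPt σ (minimalPeriod σ w * j) w :=
        (isPeriodicPt_minimalPeriod σ w).mul_const j
      exact Prod.ext h6 rfl
  have hpos : 0 < minimalPeriod σ w * K := Nat.mul_pos (minimalPeriod_pos_of_mem_periodicPts hw) hK
  have h0 : minimalPeriod τ (w, c 0) = minimalPeriod σ w * K := by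
    apply Nat.dvd_antisymm
    · exact IsPeriodicPt.minimalPeriod_dvd ((key _).2 dvd_rfl)
    · exact (key _).1 (isPeriodicPt_minimalPeriod τ _)
  have hper : (w, c 0) ∈ periodicPts τ := ⟨_, hpos, (key _).2 dvd_rfl⟩
  have h1 : τ^[x] (w, c 0) = (w, c x) := by
    have := h 0 x w hx
    rw [Nat.zero_mul, Nat.zero_add] at this
    exact this
  rw [← h1, minimalPeriod_apply_iterate hper, h0]

/-! ## Sums along an orbit -/

/-- the sum of the first `n` values along the orbit of `q` -/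
def osum {W : Type*} (τ : W → W) (g : W → ℤ) (q : W) (n : ℕ) : ℤ :=
  ∑ j ∈ Finset.range n, g (τ^[j] q)

lemma osum_add {W : Type*} {τ : W → W} {g : W → ℤ} (q : W) (m n : ℕ) :
    osum τ g q (m + n) = osum τ g q m + osum τ g (τ^[m] q) n := by
  unfold osum
  rw [Finset.sum_range_add]
  congr 1
  apply Finset.sum_congr rfl
  intro j _
  rw [add_comm m j, iterate_add_apply]

/-- the sum over a period does not depend on the starting point -/
lemma osum_shift {W : Type*} {τ : W → W} {g : W → ℤ} {q : W} {N : ℕ} (hN : τ^[N] q = q) (m : ℕ) :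
    osum τ g (τ^[m] q) N = osum τ g q N := by
  have h1 := osum_add (τ := τ) (g := g) q m N
  have h2 := osum_add (τ := τ) (g := g) q N m
  rw [hN, add_comm N m] at h2
  linarith

/-- the inverse runs through the same orbit -/
lemma sum_symm {W : Type*} [Finite W] (σ : Equiv.Perm W) (F : W → ℤ) (w : W) :
    ∑ i ∈ Finset.range (minimalPeriod σ w), F (σ.symm^[i] w) =
      ∑ i ∈ Finset.range (minimalPeriod σ w), F ((σ ^ i) w) := by
  set m := minimalPeriod σ w with hm
  have hmm : σ^[m] w = w := isPeriodicPt_minimalPeriod σ w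
  have h1 : ∀ i ≤ m, σ.symm^[i] w = σ^[m - i] w := by
    intro i hi
    have h2 : σ^[i] (σ.symm^[i] w) = w := by
      have h3 : Function.LeftInverse σ^[i] σ.symm^[i] :=
        Function.LeftInverse.iterate (f := σ.symm) (g := σ) (fun x => σ.apply_symm_apply x) i
      exact h3 w
    have h3 : σ^[i] (σ^[m - i] w) = w := by
      rw [← iterate_add_apply, show i + (m - i) = m by omega, hmm]
    exact (σ.injective.iterate i) (h2.trans h3.symm)
  have h2 : ∀ n : ℕ, n ≤ m → ∑ i ∈ Finset.range n, F (σ.symm^[i] w) + F (σ.symm^[n] w) =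
      ∑ i ∈ Finset.range n, F (σ.symm^[i + 1] w) + F w := by
    intro n _
    rw [← Finset.sum_range_succ, Finset.sum_range_succ' (fun i => F (σ.symm^[i] w)) n]
    rfl
  have h3 := h2 m le_rfl
  have h4 : σ.symm^[m] w = w := by
    rw [h1 m le_rfl, Nat.sub_self]; rfl
  rw [h4] at h3
  have h5 : ∑ i ∈ Finset.range m, F (σ.symm^[i] w) =
      ∑ i ∈ Finset.range m, F (σ.symm^[i + 1] w) := by linarith
  rw [h5]
  rw [← Finset.sum_range_reflect (fun i => F ((σ ^ i) w)) m]
  apply Finset.sum_congr rfl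
  intro i hi
  rw [Finset.mem_range] at hi
  rw [h1 (i + 1) (by omega), Equiv.Perm.iterate_eq_pow]
  congr 3
  omega

variable {P : GridSolid}

/-! ## The walk on the coarse rims -/

/-- the next position on a coarse rim -/
def cnx (k : ℕ) (q : P.FSt × ℕ) : P.FSt × ℕ :=
  if q.2 = 0 then (pE.symm q.1, 7 * k - 1) else (q.1, q.2 - 1)

lemma IsV_symm (s : P.FSt) : IsV (pE.symm s) ↔ IsV s := by
  have h := IsV_stE (pE.symm s)
  have h2 : (pE.symm s).stE = s := pE.apply_symm_apply s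
  rw [h2] at h
  exact h.symm

lemma IsV_symm_iter (s : P.FSt) (n : ℕ) : IsV (pE.symm^[n] s) ↔ IsV s := by
  induction n with
  | zero => rfl
  | succ n ih => rw [iterate_succ_apply', IsV_symm, ih]

lemma cnx_pos {k : ℕ} {s : P.FSt} {X : ℕ} (hX : X ≠ 0) : cnx k (s, X) = (s, X - 1) := by
  unfold cnx; rw [if_neg hX]

lemma cnx_zero {k : ℕ} {s : P.FSt} : cnx k (s, 0) = (pE.symm s, 7 * k - 1) := by
  unfold cnx; rw [if_pos rfl]

lemma cnx_iter {k : ℕ} (s : P.FSt) {X n : ℕ} (h : n ≤ X) : (cnx k)^[n] (s, X) = (s, X - n) := by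
  induction n with
  | zero => rfl
  | succ n ih =>
    rw [iterate_succ_apply', ih (by omega), cnx_pos (by omega)]
    congr 1

lemma cnx_turn {k : ℕ} (hk : 0 < k) (s : P.FSt) :
    (cnx k)^[7 * k] (s, 7 * k - 1) = (pE.symm s, 7 * k - 1) := by
  have h1 : 7 * k = 7 * k - 1 + 1 := by omega
  conv_lhs => rw [h1]
  rw [iterate_succ_apply', Nat.add_sub_cancel, cnx_iter s le_rfl, Nat.sub_self, cnx_zero]

lemma cnx_gen {k : ℕ} (hk : 0 < k) (i x : ℕ) (s : P.FSt) (hx : x < 7 * k) :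
    (cnx k)^[i * (7 * k) + x] (s, 7 * k - 1) = (pE.symm^[i] s, 7 * k - 1 - x) := by
  have h1 : ∀ i : ℕ, (cnx k)^[i * (7 * k)] (s, 7 * k - 1) = (pE.symm^[i] s, 7 * k - 1) := by
    intro i
    induction i with
    | zero => rw [Nat.zero_mul]; rfl
    | succ i ih =>
      rw [Nat.succ_mul, add_comm, iterate_add_apply, ih, cnx_turn hk, iterate_succ_apply']
  rw [add_comm, iterate_add_apply, h1, cnx_iter _ (by omega)]

section

variable {k : ℕ} (hk : 62 ≤ k)

include hk

lemma cnx_ok {q : P.FSt × ℕ} (h : IsV q.1 ∧ q.2 < 7 * k) :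
    IsV (cnx k q).1 ∧ (cnx k q).2 < 7 * k := by
  unfold cnx
  split_ifs with h0
  · exact ⟨(IsV_symm _).2 h.1, by show 7 * k - 1 < 7 * k; omega⟩
  · exact ⟨h.1, by show q.2 - 1 < 7 * k; omega⟩

lemma cnx_ok_iter {q : P.FSt × ℕ} (h : IsV q.1 ∧ q.2 < 7 * k) (n : ℕ) :
    IsV ((cnx k)^[n] q).1 ∧ ((cnx k)^[n] q).2 < 7 * k := by
  induction n with
  | zero => exact h
  | succ n ih => rw [iterate_succ_apply']; exact cnx_ok hk ih

lemma pos_cnx {q : P.FSt × ℕ} (h : IsV q.1 ∧ q.2 < 7 * k) :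
    JCert.nx k (pos k q.1 q.2) = pos k (cnx k q).1 (cnx k q).2 := by
  obtain ⟨s, X⟩ := q
  rcases Nat.eq_zero_or_pos X with rfl | hX
  · rw [cnx_zero]
    have h1 := pos_nx0 (P := P) (k := k) hk (s := pE.symm s) ((IsV_symm s).2 h.1)
    have h2 : (pE.symm s).stE = s := pE.apply_symm_apply s
    rw [h2] at h1
    exact h1
  · obtain ⟨X, rfl⟩ : ∃ Y, X = Y + 1 := ⟨X - 1, by omega⟩
    rw [cnx_pos (by omega)]
    exact pos_nx h.1 h.2

lemma pos_cnx_iter {q : P.FSt × ℕ} (h : IsV q.1 ∧ q.2 < 7 * k) (n : ℕ) :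
    (JCert.nx k)^[n] (pos k q.1 q.2) = pos k ((cnx k)^[n] q).1 ((cnx k)^[n] q).2 := by
  induction n with
  | zero => rfl
  | succ n ih =>
    rw [iterate_succ_apply', iterate_succ_apply', ih, pos_cnx hk (cnx_ok_iter hk h n)]

open Deco0 in
omit hk in
lemma sub7_inj {s s' : P.FSt} {i i' j j' : ℕ} {hi : i < 7} {hi' : i' < 7} {hj : j < 7}
    {hj' : j' < 7} (h : sub h7 s i j hi hj = sub h7 s' i' j' hi' hj') :
    s = s' ∧ i = i' ∧ j = j' := by
  have h1 : s.facet = s'.facet := by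
    have e1 := co_sub h7 s hi hj
    have e2 := co_sub h7 s' hi' hj'
    rw [h] at e1
    exact e1.symm.trans e2
  have h2 : s.1.e = s'.1.e := congrArg (fun t : (P.refine 7 h7).FSt => t.1.e) h
  obtain rfl := st_fe h1 h2
  have h3 : subC 7 s.1 i j = subC 7 s.1 i' j' :=
    congrArg (fun t : (P.refine 7 h7).FSt => t.1.c) h
  have e1 := ix_subC_e (k := 7) s.1 s.2.2 hi hj
  have e2 := ix_subC_e (k := 7) s.1 s.2.2 hi' hj'
  have e3 := ix_subC_n (k := 7) s.1 s.2.2 hi hj
  have e4 := ix_subC_n (k := 7) s.1 s.2.2 hi' hj'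
  rw [h3] at e1 e3
  exact ⟨rfl, e1.symm.trans e2, e3.symm.trans e4⟩

lemma pos_inj7 {s s' : P.FSt} {X X' : ℕ} (hX : X < 7 * k) (hX' : X' < 7 * k)
    (h : pos k s X = pos k s' X') : s = s' ∧ X = X' := by
  have h1 := congrArg Prod.fst h
  have h2 := congrArg Prod.snd h
  have h3 := congrArg FSt.r2 h1
  have h4 : k - 1 - X % k = k - 1 - X' % k := h2
  unfold pos at h3
  simp only [FSt.r2_r2] at h3
  obtain ⟨h5, h6, -⟩ := sub7_inj h3
  have a1 := divk hk hX
  have a2 := divk hk hX'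
  have b1 : X % k < k := Nat.mod_lt _ (by omega)
  have b2 : X' % k < k := Nat.mod_lt _ (by omega)
  have c1 := div_mod_k k X
  have c2 := div_mod_k k X'
  have d1 : X / k = X' / k := by omega
  have d2 : X % k = X' % k := by omega
  exact ⟨h5, by rw [← c1, ← c2, d1, d2]⟩

omit hk in
lemma per_fin {W : Type*} [Finite W] (σ : Equiv.Perm W) (w : W) : w ∈ periodicPts σ := by
  obtain ⟨n, hn, h⟩ := isOfFinOrder_iff_pow_eq_one.1 (isOfFinOrder_of_finite σ)
  refine ⟨n, hn, ?_⟩
  show σ^[n] w = w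
  rw [Equiv.Perm.iterate_eq_pow, h]
  rfl

omit hk in
lemma minimalPeriod_symm {W : Type*} [Finite W] (σ : Equiv.Perm W) (w : W) :
    minimalPeriod σ.symm w = minimalPeriod σ w := by
  rw [minimalPeriod_eq_minimalPeriod_iff]
  intro n
  have h1 : Function.LeftInverse σ^[n] σ.symm^[n] :=
    Function.LeftInverse.iterate (f := σ.symm) (g := σ) (fun x => σ.apply_symm_apply x) n
  have h2 : Function.LeftInverse σ.symm^[n] σ^[n] :=
    Function.LeftInverse.iterate (f := σ) (g := σ.symm) (fun x => σ.symm_apply_apply x) n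
  constructor
  · intro h
    have h3 : σ.symm^[n] w = w := h
    show σ^[n] w = w
    conv_lhs => rw [← h3]
    exact h1 w
  · intro h
    have h3 : σ^[n] w = w := h
    show σ.symm^[n] w = w
    conv_lhs => rw [← h3]
    exact h2 w

lemma per_cnx {s : P.FSt} {X : ℕ} (hX : X < 7 * k) :
    minimalPeriod (cnx (P := P) k) (s, X) = minimalPeriod pE s * (7 * k) := by
  have h1 := per_gen (σ := (pE.symm : P.FSt → P.FSt)) (τ := cnx (P := P) k) (K := 7 * k)
    (by omega) (c := fun x => 7 * k - 1 - x)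
    (fun x hx h => by
      have h : 7 * k - 1 - x = 7 * k - 1 - 0 := h
      omega)
    (fun i x w hx => cnx_gen (by omega) i x w hx) (w := s) (per_fin _ s)
    (x := 7 * k - 1 - X) (by omega)
  simp only [show 7 * k - 1 - (7 * k - 1 - X) = X by omega] at h1
  rw [h1, minimalPeriod_symm]

omit hk in
lemma per_nx {Q : GridSolid} {r : Q.FSt} {x : ℕ} (hx : x < k) :
    minimalPeriod (JCert.nx (P := Q) k) (r, x) = minimalPeriod pE r * k :=
  per_gen (σ := (pE : Q.FSt → Q.FSt)) (τ := JCert.nx (P := Q) k) (K := k) (by omega)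
    (c := fun x => x) (fun x _ h => h)
    (fun i x w hx => JCert.nx_gen w i hx) (w := r) (per_fin _ r) hx

end

section

variable {k : ℕ} (hk : 62 ≤ k)

include hk

lemma pos_per {s : P.FSt} (hs : IsV s) {X : ℕ} (hX : X < 7 * k) :
    minimalPeriod pE (pos k s X).1 * k = minimalPeriod pE s * (7 * k) := by
  have h2 : (pos k s X).2 < k := by
    show k - 1 - X % k < k
    omega
  rw [← per_nx h2, ← per_cnx hk hX, minimalPeriod_eq_minimalPeriod_iff]
  intro n
  have h4 := pos_cnx_iter hk (q := (s, X)) ⟨hs, hX⟩ n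
  have h5 := cnx_ok_iter hk (q := (s, X)) ⟨hs, hX⟩ n
  constructor
  · intro h
    have h6 : (JCert.nx k)^[n] (pos k s X) = pos k s X := h
    have h7 := pos_inj7 hk h5.2 hX (h4.symm.trans h6)
    exact Prod.ext h7.1 h7.2
  · intro h
    have h6 : (cnx k)^[n] (s, X) = (s, X) := h
    show (JCert.nx k)^[n] (pos k s X) = pos k s X
    rw [h4, h6]

end

section

variable (D : Deco P) (hM : P.IsManifold) (h3 : Deg3 P) {k : ℕ} (hk : 62 ≤ k)

include hM h3 hk

lemma wsum_pos {s : P.FSt} (hs : IsV s) {X : ℕ} (hX : X < 7 * k) (n : ℕ) :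
    (D.jc hM h3 hk).wsum (pos k s X) n =
      osum (cnx k) (fun q => MP42G.vl (D.ev k q.1 q.2).ln) (s, X) n := by
  unfold JCert.wsum osum
  apply Finset.sum_congr rfl
  intro j _
  have h4 := pos_cnx_iter hk (q := (s, X)) ⟨hs, hX⟩ j
  have h5 := cnx_ok_iter hk (q := (s, X)) ⟨hs, hX⟩ j
  rw [h4, pos_wd D hM h3 hk h5.1 h5.2]

end

/-- the sum over the full turn of a coarse rim -/
lemma osum_full {k : ℕ} (hk : 62 ≤ k) (ρ : P.FSt → ℕ → ℤ) {s : P.FSt} {X : ℕ} (hX : X < 7 * k) :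
    osum (cnx k) (fun q => ρ q.1 q.2) (s, X) (minimalPeriod pE s * (7 * k)) =
      ∑ i ∈ Finset.range (minimalPeriod pE s), ∑ X ∈ Finset.range (7 * k), ρ ((pE ^ i) s) X := by
  set m := minimalPeriod pE s with hm
  have hN : (cnx k)^[m * (7 * k)] (s, 7 * k - 1) = (s, 7 * k - 1) := by
    have h := isPeriodicPt_minimalPeriod (cnx (P := P) k) (s, 7 * k - 1)
    rw [per_cnx hk (by omega)] at h
    exact h
  have h1 : (cnx k)^[7 * k - 1 - X] (s, 7 * k - 1) = (s, X) := by
    rw [cnx_iter s (by omega)]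
    congr 1
    omega
  rw [← h1, osum_shift hN, ← sum_symm pE (fun t => ∑ X ∈ Finset.range (7 * k), ρ t X) s, ← hm]
  have key : ∀ i : ℕ, osum (cnx k) (fun q => ρ q.1 q.2) (s, 7 * k - 1) (i * (7 * k)) =
      ∑ j ∈ Finset.range i, ∑ X ∈ Finset.range (7 * k), ρ (pE.symm^[j] s) X := by
    intro i
    induction i with
    | zero => rw [Nat.zero_mul]; rfl
    | succ i ih =>
      rw [show (i + 1) * (7 * k) = i * (7 * k) + 7 * k by ring, osum_add, ih,
        Finset.sum_range_succ]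
      congr 1
      have h2 := cnx_gen (by omega : 0 < k) i 0 s (by omega)
      rw [Nat.add_zero, Nat.sub_zero] at h2
      rw [h2]
      unfold osum
      rw [← Finset.sum_range_reflect (fun X => ρ (pE.symm^[i] s) X) (7 * k)]
      apply Finset.sum_congr rfl
      intro j hj
      rw [Finset.mem_range] at hj
      rw [cnx_iter _ (by omega)]
  exact key m

section

variable (D : Deco P) (hM : P.IsManifold) (h3 : Deg3 P) {k : ℕ} (hk : 62 ≤ k)

include hM h3 hk

/-- W6d -/
theorem words' (H : ∃ G ρ : P.FSt → ℕ → ℤ,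
    (∀ s : P.FSt, IsV s → ∀ X < 7 * k,
      G s X = G s (X + 1) + MP42G.vl (D.ev k s X).ln - ρ s X) ∧
    (∀ s : P.FSt, IsV s → G s.stE 0 = G s (7 * k)) ∧
    (∀ s : P.FSt, IsV s → ∀ X ≤ 7 * k, -5 ≤ G s X ∧ G s X ≤ 9) ∧
    (∀ s X, 0 ≤ ρ s X) ∧
    ∀ s : P.FSt, IsV s → ∑ i ∈ Finset.range (Function.minimalPeriod pE s),
      ∑ X ∈ Finset.range (7 * k), ρ ((pE ^ i) s) X = 2) :
    (D.jc hM h3 hk).Words 16 := by
  obtain ⟨G, ρ, hG, hE, hB, hρ, hT⟩ := H
  -- the letters are differences of the heights plus `ρ`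
  have key : ∀ (q : P.FSt × ℕ), IsV q.1 ∧ q.2 < 7 * k → ∀ n : ℕ,
      osum (cnx k) (fun q => MP42G.vl (D.ev k q.1 q.2).ln) q n =
        G ((cnx k)^[n] q).1 (((cnx k)^[n] q).2 + 1) - G q.1 (q.2 + 1) +
          osum (cnx k) (fun q => ρ q.1 q.2) q n := by
    intro q hq n
    induction n with
    | zero =>
      show (0 : ℤ) = G q.1 (q.2 + 1) - G q.1 (q.2 + 1) + 0
      omega
    | succ n ih =>
      unfold osum at ih ⊢
      rw [Finset.sum_range_succ, Finset.sum_range_succ, ih, iterate_succ_apply']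
      have h5 := cnx_ok_iter hk hq n
      generalize (cnx k)^[n] q = p at h5
      obtain ⟨s, X⟩ := p
      have h6 := hG s h5.1 X h5.2
      have h7 : G (cnx k (s, X)).1 ((cnx k (s, X)).2 + 1) = G s X := by
        rcases Nat.eq_zero_or_pos X with rfl | hX
        · rw [cnx_zero]
          show G (pE.symm s) (7 * k - 1 + 1) = G s 0
          have h8 := hE (pE.symm s) ((IsV_symm s).2 h5.1)
          have h9 : (pE.symm s).stE = s := pE.apply_symm_apply s
          rw [h9] at h8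
          rw [h8]
          congr 1
          omega
        · rw [cnx_pos (by omega)]
          show G s (X - 1 + 1) = G s X
          congr 1
          omega
      rw [h7]
      show _ + MP42G.vl (D.ev k s X).ln = _ + (_ + ρ s X)
      linarith
  have hfull : ∀ (s : P.FSt) (X : ℕ), IsV s → X < 7 * k →
      osum (cnx k) (fun q => ρ q.1 q.2) (s, X) (minimalPeriod pE s * (7 * k)) = 2 := by
    intro s X hs hX
    rw [osum_full hk ρ hX]
    exact hT s hs
  have hret : ∀ (s : P.FSt) (X : ℕ), X < 7 * k →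
      (cnx k)^[minimalPeriod pE s * (7 * k)] (s, X) = (s, X) := by
    intro s X hX
    have h := isPeriodicPt_minimalPeriod (cnx (P := P) k) (s, X)
    rw [per_cnx hk hX] at h
    exact h
  have hmono : ∀ (q : P.FSt × ℕ) (n N : ℕ), n ≤ N →
      0 ≤ osum (cnx k) (fun q => ρ q.1 q.2) q n ∧
      osum (cnx k) (fun q => ρ q.1 q.2) q n ≤ osum (cnx k) (fun q => ρ q.1 q.2) q N :=
    fun q n N h => JCert.sum_nonneg_le h _ fun j => hρ _ _
  constructor
  · intro r x n hr hc hx hn
    obtain ⟨s, X, hs, hX, hp⟩ := pos_surj D hM h3 hk (r, x) ⟨⟨hr, hc⟩, hx⟩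
    have h1 := pos_per hk hs hX
    rw [hp] at h1
    have h2 := wsum_pos D hM h3 hk hs hX n
    rw [hp, key (s, X) ⟨hs, hX⟩ n] at h2
    rw [h2]
    have h4 : minimalPeriod pE r * k = minimalPeriod pE s * (7 * k) := h1
    rw [h4] at hn
    obtain ⟨h5, h6⟩ := hmono (s, X) n _ hn
    rw [hfull s X hs hX] at h6
    have h7 := cnx_ok_iter hk (q := (s, X)) ⟨hs, hX⟩ n
    obtain ⟨h8, h9⟩ := hB _ h7.1 (((cnx k)^[n] (s, X)).2 + 1) (by omega)
    obtain ⟨h10, h11⟩ := hB s hs (X + 1) (by omega)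
    rw [abs_le]
    constructor
    · push_cast
      linarith
    · push_cast
      linarith
  · intro r hr hc
    obtain ⟨s, X, hs, hX, hp⟩ := pos_surj D hM h3 hk (r, 0) ⟨⟨hr, hc⟩, by show 0 < k; omega⟩
    have h1 := pos_per hk hs hX
    rw [hp] at h1
    have h4 : minimalPeriod pE r * k = minimalPeriod pE s * (7 * k) := h1
    have h2 := wsum_pos D hM h3 hk hs hX (minimalPeriod pE r * k)
    rw [hp, key (s, X) ⟨hs, hX⟩, h4, hret s X hX, hfull s X hs hX] at h2
    rw [h4, h2]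
    ring

end

end Pool.Agent.MP42D
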