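import Pool.Agent.MP42.D.W0
import Pool.Agent.MP42.D.W4cL
import Pool.Agent.MP42.D.W4cM
import Pool.Agent.MP42.D.W4d
import Pool.Agent.MP42.D.W4dT
import Pool.Agent.MP42.D.W4f
import Pool.Agent.MP42.D.W6
import Pool.Agent.MP42.D.W6d

/-!
# Piece W: the words of the rims and the closed curves
-/

set_option autoImplicit false
set_option linter.unusedSectionVars false

namespace Pool.Agent.MP42D

open Pool.Agent.Helper55.UNF Pool.Agent.Helper55.UNF.GridSolid Pool.Agent.MP42 Pool.Agent.MP42G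

variable {P : GridSolid}

namespace Deco

variable (D : Deco P) (hM : P.IsManifold) (h3 : MP42.Deg3 P) {k : ℕ} (hk : 62 ≤ k)

/-- a bound for the partial sums -/
def wB : ℕ := 16

theorem words : (D.jc hM h3 hk).Words wB :=
  words' D hM h3 hk (exists_ht D hM h3 hk)

theorem conn7 : (D.jc hM h3 hk).Conn := by
  intro ψ χ hI hE
  obtain ⟨W, hB⟩ := exists_cv D hM h3 hk (D.words hM h3 hk) hI hE
  choose L lk using fun x z => exists_lv' D hM h3 hk W x z
  let T : LD W :=
    { L := L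
      lk := lk
      F := fun x z => (exists_fg' hM h3 hk W x z).some }
  have hS : Strips W := ⟨strip_NW' hM h3 hk W, strip_SW' hM h3 hk W, strip_r1' hM h3 hk W⟩
  obtain ⟨V, G⟩ := W4.exists_good' hM h3 hk hS T
  have H : LineVals T V := fun x y z t ht =>
    ⟨fun s hs => W4.line_M hM h3 hk T G ht s hs, fun s hs => W4.line_C hk T G ht s hs,
      fun ha => W4.lanes_A hM hk T G ht ha, fun hb => W4.lanes_B hk T G ht hb⟩
  have HT : ∀ s : P.FSt, s.1.e.1 = 0 → ∀ X < 7 * k, (D.wT s X ∨ D.eT k s X) →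
      (W.val s X ↔ jv V s) :=
    fun s hs X hX h => val_xT hM h3 hk T G (fun x y z t ht => (H x y z t ht).1) s hs hX h
  have vx : ∀ s : P.FSt, s.1.e.1 = 0 → ∀ X < 7 * k, D.ev k s X ≠ El.o → (W.val s X ↔ jv V s) :=
    fun s hs X hX h => W4.val_x' hM h3 hk T G H HT s hs hX h
  have vy : ∀ s : P.FSt, s.1.e.1 = 1 → ∀ X < 7 * k, D.ev k s X ≠ El.o → (W.val s X ↔ jv V s) :=
    fun s hs X hX h => val_y_of hM h3 hk T G.phi G.theta
      (fun x y z t ht => ⟨(H x y z t ht).1, (H x y z t ht).2.1⟩) vx s hs hX h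
  obtain ⟨hw, hp⟩ := all_vals_of W hM h3 hk vx vy
  exact constJ_of D hM h3 hk hB G.phi G.theta hw hp

end Deco

end Pool.Agent.MP42D
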