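import Pool.Agent.MP42.D.Coord
import Pool.Agent.MP42.G.Defs

/-!
# Piece W0: values on the sides of the facets of a junction certificate (owner helper55)

`ent C σ x`: the table entry of the unit edge `x` (from west to east) on the north side of the
state `σ` is used.  `vls C ψ χ σ x`: its value.  `vls_symm`: the value is the same from both sides.
-/

set_option autoImplicit false
set_option linter.unusedSectionVars false

namespace Pool.Agent.MP42D

open Pool.Agent.Helper55.UNF Pool.Agent.Helper55.UNF.GridSolid Pool.Agent.MP42G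

section Frames

variable {P : GridSolid}

lemma fr_dirs : ∀ d e e' : Dir, d.1 ≠ e.1 → d.1 ≠ e'.1 →
    e' = e ∨ e' = opp e ∨ e' = cross d e ∨ e' = opp (cross d e) := by decide

/-- the four frames of a facet -/
lemma fr_cases {s t : P.FSt} (h : t.facet = s.facet) :
    t = s ∨ t = s.r2 ∨ t = s.rL ∨ t = s.rR := by
  have hd : t.1.d = s.1.d := congrArg (fun g : P.Facet => g.1.2) h
  have h1 := fr_dirs s.1.d s.1.e t.1.e s.2.2 (by rw [← hd]; exact t.2.2)
  rcases h1 with h1 | h1 | h1 | h1
  · exact Or.inl (st_fe h h1)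
  · exact Or.inr (Or.inl (st_fe (s := t) (t := s.r2) h h1))
  · exact Or.inr (Or.inr (Or.inl (st_fe (s := t) (t := s.rL) h h1)))
  · exact Or.inr (Or.inr (Or.inr (st_fe (s := t) (t := s.rR) h h1)))

lemma fr_L (s : P.FSt) : s.rL ≠ s := by
  intro h
  have h1 : s.rL.1.e = s.1.e := by rw [h]
  have h2 : s.rL.1.e = s.1.n := rfl
  exact cross_axis_right _ _ s.2.2 (congrArg Prod.fst (h2.symm.trans h1))

lemma fr_R (s : P.FSt) : s.rR ≠ s := by
  intro h
  have := fr_L s.rR
  rw [FSt.rR_rL] at this
  exact this h.symm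

lemma fr_L2 (s : P.FSt) : s.rL ≠ s.r2 := by
  intro h
  rw [← FSt.rL_rL] at h
  exact fr_L _ h.symm

lemma fr_R2 (s : P.FSt) : s.rR ≠ s.r2 := by
  intro h
  rw [← FSt.rR_rR] at h
  exact fr_R _ h.symm

lemma fr_RL (s : P.FSt) : s.rR ≠ s.rL := by
  intro h
  have h2 : s.rL.r2 = s.rL := by rw [FSt.rL_r2]; exact h
  exact FSt.r2_ne _ h2

end Frames

section Val

variable {P : GridSolid} {k : ℕ} (C : JCert P k) (ψ χ : P.Facet → ℕ → ℕ → Prop)

open Classical in
/-- the table entry of the unit edge `x` on the north side of the state `s` is used -/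
noncomputable def ent (s : P.FSt) (x : ℕ) : Prop :=
  if C.can s.facet = s then C.la s.facet x k ≠ Ln.z
  else if C.can s.facet = s.r2 then C.la s.facet (k - 1 - x) 0 ≠ Ln.z
  else if C.can s.facet = s.rL then C.pr s.facet k (k - 1 - x) = true
  else C.pr s.facet 0 x = true

open Classical in
/-- the value of the unit edge `x` on the north side of the state `s` -/
noncomputable def vls (s : P.FSt) (x : ℕ) : Prop :=
  if C.can s.facet = s then χ s.facet x k
  else if C.can s.facet = s.r2 then χ s.facet (k - 1 - x) 0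
  else if C.can s.facet = s.rL then ψ s.facet k (k - 1 - x)
  else ψ s.facet 0 x

variable {C ψ χ} {s : P.FSt} {x : ℕ}

lemma ent_0 (h : C.can s.facet = s) : ent C s x ↔ C.la s.facet x k ≠ Ln.z := by
  unfold ent; rw [if_pos h]

lemma ent_2 (h : C.can s.facet = s.r2) : ent C s x ↔ C.la s.facet (k - 1 - x) 0 ≠ Ln.z := by
  unfold ent; rw [if_neg (by rw [h]; exact FSt.r2_ne s), if_pos h]

lemma ent_L (h : C.can s.facet = s.rL) : ent C s x ↔ C.pr s.facet k (k - 1 - x) = true := by
  unfold ent
  rw [if_neg (by rw [h]; exact fr_L s), if_neg (by rw [h]; exact fr_L2 s), if_pos h]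

lemma ent_R (h : C.can s.facet = s.rR) : ent C s x ↔ C.pr s.facet 0 x = true := by
  unfold ent
  rw [if_neg (by rw [h]; exact fr_R s), if_neg (by rw [h]; exact fr_R2 s),
    if_neg (by rw [h]; exact fr_RL s)]

lemma vls_0 (h : C.can s.facet = s) : vls C ψ χ s x ↔ χ s.facet x k := by
  unfold vls; rw [if_pos h]

lemma vls_2 (h : C.can s.facet = s.r2) : vls C ψ χ s x ↔ χ s.facet (k - 1 - x) 0 := by
  unfold vls; rw [if_neg (by rw [h]; exact FSt.r2_ne s), if_pos h]

lemma vls_L (h : C.can s.facet = s.rL) : vls C ψ χ s x ↔ ψ s.facet k (k - 1 - x) := by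
  unfold vls
  rw [if_neg (by rw [h]; exact fr_L s), if_neg (by rw [h]; exact fr_L2 s), if_pos h]

lemma vls_R (h : C.can s.facet = s.rR) : vls C ψ χ s x ↔ ψ s.facet 0 x := by
  unfold vls
  rw [if_neg (by rw [h]; exact fr_R s), if_neg (by rw [h]; exact fr_R2 s),
    if_neg (by rw [h]; exact fr_RL s)]

lemma can_eq {f : P.Facet} {t : P.FSt} (h : C.can f = t) : f = t.facet := by
  rw [← h, C.can_facet]

/-- the value of an edge is the same from both sides -/
theorem vls_symm (hI : C.Inv ψ χ) (hx : x < k)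
    (hc : ¬ C.core s.facet ∨ C.can s.facet = s ∨ C.can s.facet = s.r2) (h : ent C s x) :
    vls C ψ χ s.stN.r2 (k - 1 - x) ↔ vls C ψ χ s x := by
  have hk1 : k - 1 - (k - 1 - x) = x := by omega
  have hstN : s.stN = s.rL.stE.rR := rfl
  have hcases : C.can s.facet = s ∨ C.can s.facet = s.r2 ∨
      (¬ C.core s.facet ∧ C.can s.facet = s.rL) ∨ (¬ C.core s.facet ∧ C.can s.facet = s.rR) := by
    rcases hc with hc | hc | hc
    · rcases fr_cases (s := s) (C.can_facet s.facet) with h1 | h1 | h1 | h1
      · exact Or.inl h1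
      · exact Or.inr (Or.inl h1)
      · exact Or.inr (Or.inr (Or.inl ⟨hc, h1⟩))
      · exact Or.inr (Or.inr (Or.inr ⟨hc, h1⟩))
    · exact Or.inl hc
    · exact Or.inr (Or.inl hc)
  rcases hcases with h1 | h1 | ⟨hcr, h1⟩ | ⟨hcr, h1⟩
  · -- the frame of `s`
    rw [ent_0 h1] at h
    have hex : ∃ g, (C.can s.facet).stN = C.can g := by
      by_contra hcon
      push Not at hcon
      exact h (C.gN' _ hcon x hx)
    obtain ⟨g, hg⟩ := hex
    rw [h1] at hg
    have hgf : g = s.stN.facet := can_eq hg.symm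
    have h2 : C.can (s.stN.r2).facet = (s.stN.r2).r2 := by
      rw [FSt.r2_r2, FSt.facet_r2, ← hgf, ← hg]
    rw [vls_0 h1, vls_2 h2, hk1]
    have h3 := hI.gN s.facet g (by rw [h1, hg]) x hx h
    rw [h3, hgf, FSt.facet_r2]
  · rw [ent_2 h1] at h
    have hex : ∃ g, (C.can g).stN = C.can s.facet := by
      by_contra hcon
      push Not at hcon
      exact h (C.gS' _ hcon _ (by omega))
    obtain ⟨g, hg⟩ := hex
    have hg2 : C.can g = s.stN.r2 := by
      have h4 : pN (C.can g) = s.r2 := by rw [← h1]; exact hg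
      have h5 : C.can g = pN.symm s.r2 := by rw [← h4, Equiv.symm_apply_apply]
      rw [h5, pN_symm_apply, FSt.r2_r2]
    have hgf : g = s.stN.r2.facet := can_eq hg2
    have h2 : C.can (s.stN.r2).facet = s.stN.r2 := by rw [← hgf, hg2]
    rw [vls_2 h1, vls_0 h2, ← hgf]
    have h3 := C.gN g s.facet hg (k - 1 - x) (by omega)
    exact hI.gN g s.facet hg (k - 1 - x) (by omega) (by rw [h3]; exact h)
  · rw [ent_L h1] at h
    have hex : ∃ g, (C.can s.facet).stE = C.can g ∨ (C.can s.facet).stE = (C.can g).r2 := by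
      by_contra hcon
      push Not at hcon
      rw [C.gE' _ hcr hcon _ (by omega)] at h
      exact absurd h (by decide)
    obtain ⟨g, hg | hg⟩ := hex
    · have hg2 : C.can g = s.stN.r2.rR := by
        rw [FSt.r2_rR, hstN, FSt.rR_rL, ← h1, hg]
      have hgf : g = s.stN.r2.facet := by
        have := can_eq hg2
        rwa [FSt.facet_rR] at this
      have h2 : C.can (s.stN.r2).facet = s.stN.r2.rR := by rw [← hgf, hg2]
      rw [vls_L h1, vls_R h2, ← hgf]
      exact (hI.gE s.facet g hcr hg _ (by omega) h).symm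
    · have hg2 : C.can g = s.stN.r2.rL := by
        rw [FSt.r2_rL, hstN, FSt.rR_rR, ← h1, hg, FSt.r2_r2]
      have hgf : g = s.stN.r2.facet := by
        have := can_eq hg2
        rwa [FSt.facet_rL] at this
      have h2 : C.can (s.stN.r2).facet = s.stN.r2.rL := by rw [← hgf, hg2]
      rw [vls_L h1, vls_L h2, ← hgf, hk1]
      have h3 := hI.gEr s.facet g hcr hg (k - 1 - x) (by omega) h
      rw [hk1] at h3
      exact h3.symm
  · rw [ent_R h1] at h
    have hex : ∃ g, (C.can s.facet).r2.stE = C.can g ∨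
        (C.can s.facet).r2.stE = (C.can g).r2 := by
      by_contra hcon
      push Not at hcon
      rw [C.gW' _ hcr hcon _ hx] at h
      exact absurd h (by decide)
    have e1 : (C.can s.facet).r2.stE.rR = s.stN := by
      rw [h1, FSt.rR_r2, hstN]
    obtain ⟨g, hg | hg⟩ := hex
    · have hg2 : C.can g = s.stN.r2.rR := by
        rw [FSt.r2_rR, ← e1, FSt.rR_rL, hg]
      have hgf : g = s.stN.r2.facet := by
        have := can_eq hg2
        rwa [FSt.facet_rR] at this
      have h2 : C.can (s.stN.r2).facet = s.stN.r2.rR := by rw [← hgf, hg2]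
      rw [vls_R h1, vls_R h2, ← hgf]
      exact (hI.gWr s.facet g hcr hg x hx h).symm
    · have hg2 : C.can g = s.stN.r2.rL := by
        rw [FSt.r2_rL, ← e1, FSt.rR_rR, hg, FSt.r2_r2]
      have hgf : g = s.stN.r2.facet := by
        have := can_eq hg2
        rwa [FSt.facet_rL] at this
      have h2 : C.can (s.stN.r2).facet = s.stN.r2.rL := by rw [← hgf, hg2]
      -- the eastern neighbour of `g` is `s`
      have h3 : (C.can g).stE = C.can s.facet := by
        have h4 := FSt.stE_inv (C.can s.facet).r2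
        rw [hg, FSt.r2_r2, FSt.r2_r2] at h4
        exact h4
      have hcg : ¬ C.core g := by
        intro h4
        apply hcr
        have h5 := (C.core_E (C.can g) (C.can_core g h4)).2 (by rw [C.can_facet]; exact h4)
        rw [h3, C.can_facet] at h5
        exact h5
      have h6 := C.gE g s.facet hcg h3 x hx
      rw [vls_R h1, vls_L h2, ← hgf, hk1]
      exact hI.gE g s.facet hcg h3 x hx (by rw [h6]; exact h)

end Val

end Pool.Agent.MP42D
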