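import Pool.Agent.MP42.D.WDefs
import Pool.Agent.MP42.D.W0a

/-!
# Piece W0: positions on the rims (owner helper55)

`pos s X`: the position on a rim of `P.refine 7` that belongs to the edge `X` of the coarse wall
state `s` (north towards the junction).
-/

set_option autoImplicit false
set_option linter.unusedSectionVars false

namespace Pool.Agent.MP42D

open Pool.Agent.Helper55.UNF Pool.Agent.Helper55.UNF.GridSolid Pool.Agent.MP42 Pool.Agent.MP42G

variable {P : GridSolid}

/-- the position of the edge `X` of the coarse wall state `s` -/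
noncomputable def pos (k : ℕ) (s : P.FSt) (X : ℕ) : (P.refine 7 Deco0.h7).FSt × ℕ :=
  ((sub Deco0.h7 s (min (X / k) 6) 3 (by omega) (by omega)).r2, k - 1 - X % k)

section

open Deco0

lemma wall_d {s : P.FSt} (hs : IsV s) : s.1.d.1 ≠ 2 := by
  intro h
  have h1 : s.1.n.1 ≠ s.1.d.1 := cross_axis_left _ _ s.2.2
  exact h1 (hs.trans h.symm)

lemma wall_aux : ∀ d e : Dir, d.1 ≠ e.1 → (cross d e).1 = 2 → bfE d = e ∨ bfE d = opp e := by
  decide

/-- a coarse wall state with vertical north is a base frame or a base frame turned by a half turn -/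
lemma wall_bf {s : P.FSt} (hs : IsV s) : bf s.facet = s ∨ bf s.facet = s.r2 := by
  rcases wall_aux s.1.d s.1.e s.2.2 hs with h | h
  · exact Or.inl (st_fe (s := bf s.facet) (t := s) rfl h)
  · exact Or.inr (st_fe (s := bf s.facet) (t := s.r2) rfl h)

/-- the canonical frames of the parts of a wall -/
lemma can7_wall (D : Deco0 P) {s : P.FSt} (hs : IsV s) (i j : ℕ) (hi : i < 7) (hj : j < 7) :
    (bf s.facet = s ∧ D.can7 (sub h7 s i j hi hj).facet = sub h7 s i j hi hj ∧
      fi (sub h7 s i j hi hj).facet = i ∧ fj (sub h7 s i j hi hj).facet = j) ∨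
    (bf s.facet = s.r2 ∧ D.can7 (sub h7 s i j hi hj).facet = (sub h7 s i j hi hj).r2 ∧
      fi (sub h7 s i j hi hj).facet = 6 - i ∧ fj (sub h7 s i j hi hj).facet = 6 - j) := by
  have hd := wall_d hs
  have hcan : ∀ (i j : ℕ) (hi : i < 7) (hj : j < 7),
      D.can7 (part s.facet i j hi hj) = sub h7 (bf s.facet) i j hi hj := by
    intro i j hi hj
    unfold can7
    rw [if_neg (show ¬ IsPl (co h7 (part s.facet i j hi hj)) from hd), sf_part]
  rcases wall_bf hs with h | h
  · left
    refine ⟨h, ?_, ?_, ?_⟩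
    · rw [sub_bf h, hcan]
      exact sub_congr _ _ h rfl rfl
    · rw [sub_bf h, fi_part]
    · rw [sub_bf h, fj_part]
  · right
    refine ⟨h, ?_, ?_, ?_⟩
    · rw [sub_bf_r2 h, hcan, sub_r2]
      exact sub_congr _ _ h (by omega) (by omega)
    · rw [sub_bf_r2 h, fi_part]
    · rw [sub_bf_r2 h, fj_part]

lemma IsV_sub {s : P.FSt} (hs : IsV s) (i j : ℕ) (hi : i < 7) (hj : j < 7) :
    IsV (sub h7 s i j hi hj) := hs

lemma IsV_r2' {Q : GridSolid} {s : Q.FSt} (hs : IsV s) : IsV s.r2 := (IsV_r2 s).2 hs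

lemma core_sub3 {s : P.FSt} (hs : IsV s) (i : ℕ) (hi : i < 7) :
    core7 (sub h7 s i 3 hi (by norm_num)).facet := by
  refine ⟨wall_d hs, ?_⟩
  rcases wall_bf hs with h | h
  · rw [sub_bf h, fj_part]
  · rw [sub_bf_r2 h, fj_part]

lemma core_row {s : P.FSt} (hs : IsV s) {i j : ℕ} {hi : i < 7} {hj : j < 7}
    (h : core7 (sub h7 s i j hi hj).facet) : j = 3 := by
  have h2 := h.2
  rcases wall_bf hs with h | h
  · rw [sub_bf h, fj_part] at h2; exact h2
  · rw [sub_bf_r2 h, fj_part] at h2; omega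

end

variable (D : Deco P) (hM : P.IsManifold) (h3 : Deg3 P) {k : ℕ} (hk : 62 ≤ k)

open Deco0 in
include hk in
theorem pos_ok {s : P.FSt} (hs : IsV s) {X : ℕ} (hX : X < 7 * k) :
    JCert.Ok (D.jc hM h3 hk) (pos k s X) := by
  refine ⟨⟨IsV_r2' (IsV_sub hs _ _ _ _), ?_⟩, ?_⟩
  · exact core_sub3 hs (min (X / k) 6) (by omega)
  · show k - 1 - X % k < k
    omega

lemma divk {k X : ℕ} (hk : 62 ≤ k) (hX : X < 7 * k) : X / k ≤ 6 := by
  have : X / k < 7 := Nat.div_lt_of_lt_mul (by rw [Nat.mul_comm]; exact hX)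
  omega

lemma div_mod_k (k X : ℕ) : X / k * k + X % k = X := by
  rw [Nat.mul_comm]; exact Nat.div_add_mod X k

open Deco0 in
theorem pos_wd {s : P.FSt} (hs : IsV s) {X : ℕ} (hX : X < 7 * k) :
    (D.jc hM h3 hk).wd (pos k s X).1 (pos k s X).2 = (D.ev k s X).ln := by
  have h6 := divk hk hX
  have hm : min (X / k) 6 = X / k := by omega
  have hx : X % k < k := Nat.mod_lt _ (by omega)
  have hdm := div_mod_k k X
  have hik : X / k * k ≤ 6 * k := Nat.mul_le_mul_right k h6
  have hd := wall_d hs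
  set i := min (X / k) 6 with hi
  have hi7 : i < 7 := by omega
  unfold JCert.wd pos
  simp only [← hi]
  set t := sub h7 s i 3 (by omega) (by omega) with ht
  have hla : ∀ x y, D.la7 k t.facet x y = if fj t.facet < 3 ∨ (fj t.facet = 3 ∧ y = 0) then
      (D.ev k (bf s.facet).r2 (7 * k - 1 - (fi t.facet * k + x))).ln
      else (D.ev k (bf s.facet) (fi t.facet * k + x)).ln := by
    intro x y
    have hco : co h7 t.facet = s.facet := by rw [ht, co_sub]
    unfold la7
    rw [hco, if_neg (show ¬ IsPl s.facet from hd)]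
  rcases can7_wall D.toDeco0 hs i 3 hi7 (by norm_num) with ⟨h1, h2, h4, h5⟩ | ⟨h1, h2, h4, h5⟩
  · rw [if_neg]
    · show D.la7 k t.facet (k - 1 - (k - 1 - X % k)) k = _
      rw [hla, h5, if_neg (by omega), h4, h1]
      congr 2
      rw [show k - 1 - (k - 1 - X % k) = X % k by omega, hm, hdm]
    · show ¬ D.can7 t.facet = t.r2
      rw [h2]
      exact fun h => FSt.r2_ne _ h.symm
  · rw [if_pos]
    · show D.la7 k t.facet (k - 1 - X % k) 0 = _
      rw [hla, h5, if_pos (by omega), h4, h1, FSt.r2_r2]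
      congr 2
      rw [hm]
      have : (6 - X / k) * k = 6 * k - X / k * k := Nat.sub_mul 6 (X / k) k
      rw [this]
      omega
    · exact h2

open Deco0 in
theorem pos_nx {s : P.FSt} (_hs : IsV s) {X : ℕ} (hX : X + 1 < 7 * k) :
    JCert.nx k (pos k s (X + 1)) = pos k s X := by
  have hk0 : 0 < k := by omega
  have hx : X % k < k := Nat.mod_lt _ hk0
  have e1 := div_mod_k k X
  have h6 : X / k < 7 := Nat.div_lt_of_lt_mul (by rw [Nat.mul_comm]; omega)
  unfold JCert.nx pos
  by_cases h : X % k + 1 = k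
  · have e2 : X + 1 = (X / k + 1) * k := by
      rw [Nat.add_mul, Nat.one_mul]; omega
    have h1 : (X + 1) % k = 0 := by rw [e2]; exact Nat.mul_mod_left _ _
    have h2 : (X + 1) / k = X / k + 1 := by
      conv_lhs => rw [e2]
      exact Nat.mul_div_cancel _ hk0
    have h7' : X / k + 1 < 7 := by
      by_contra hc
      have : 7 * k ≤ (X / k + 1) * k := Nat.mul_le_mul_right k (by omega)
      omega
    simp only [h1]
    rw [if_neg (by omega)]
    apply Prod.ext
    · show (sub h7 s (min ((X + 1) / k) 6) 3 _ _).r2.stE = (sub h7 s (min (X / k) 6) 3 _ _).r2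
      have e3 : (sub h7 s (min (X / k) 6) 3 (by omega) (by omega)).stE =
          sub h7 s (min ((X + 1) / k) 6) 3 (by omega) (by omega) := by
        rw [sub_stE_mid s (by omega) (by omega)]
        exact sub_congr _ _ rfl (by omega) rfl
      rw [← e3, FSt.stE_inv]
    · show 0 = k - 1 - X % k
      omega
  · have e2 : X + 1 = (X % k + 1) + X / k * k := by omega
    have h1 : (X + 1) % k = X % k + 1 := by
      conv_lhs => rw [e2]
      rw [Nat.add_mul_mod_self_right, Nat.mod_eq_of_lt (by omega)]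
    have h2 : (X + 1) / k = X / k := by
      conv_lhs => rw [e2]
      rw [Nat.add_mul_div_right _ _ hk0, Nat.div_eq_of_lt (by omega), Nat.zero_add]
    simp only [h1]
    rw [if_pos (by omega)]
    apply Prod.ext
    · show (sub h7 s (min ((X + 1) / k) 6) 3 _ _).r2 = (sub h7 s (min (X / k) 6) 3 _ _).r2
      congr 1
      exact sub_congr _ _ rfl (by rw [h2]) rfl
    · show k - 1 - (X % k + 1) + 1 = k - 1 - X % k
      omega

open Deco0 in
include hk in
theorem pos_nx0 {s : P.FSt} (_hs : IsV s) :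
    JCert.nx k (pos k s.stE 0) = pos k s (7 * k - 1) := by
  have e1 : (7 * k - 1) / k = 6 := by
    have : 7 * k - 1 = (k - 1) + 6 * k := by omega
    rw [this, Nat.add_mul_div_right _ _ (by omega : 0 < k), Nat.div_eq_of_lt (by omega)]
  have e2 : (7 * k - 1) % k = k - 1 := by
    have : 7 * k - 1 = (k - 1) + 6 * k := by omega
    rw [this, Nat.add_mul_mod_self_right, Nat.mod_eq_of_lt (by omega)]
  unfold JCert.nx pos
  simp only [Nat.zero_mod, Nat.zero_div, e2]
  rw [if_neg (by omega)]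
  apply Prod.ext
  · show (sub h7 s.stE (min 0 6) 3 _ _).r2.stE = (sub h7 s (min ((7 * k - 1) / k) 6) 3 _ _).r2
    have e3 : (sub h7 s (min ((7 * k - 1) / k) 6) 3 (by omega) (by omega)).stE =
        sub h7 s.stE (min 0 6) 3 (by omega) (by omega) := by
      have e4 := sub_stE_end (hk := h7) s (y := 3) (by omega)
      have e5 : sub h7 s (min ((7 * k - 1) / k) 6) 3 (by omega) (by omega) =
          sub h7 s (7 - 1) 3 (by omega) (by omega) := sub_congr _ _ rfl (by omega) rfl
      rw [e5, e4]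
      exact sub_congr _ _ rfl (by omega) rfl
    rw [← e3, FSt.stE_inv]
  · show 0 = k - 1 - (k - 1)
    omega

open Deco0 in
theorem pos_surj (q : (P.refine 7 Deco0.h7).FSt × ℕ) (hq : JCert.Ok (D.jc hM h3 hk) q) :
    ∃ (s : P.FSt) (X : ℕ), IsV s ∧ X < 7 * k ∧ pos k s X = q := by
  obtain ⟨⟨h1, h2⟩, h4⟩ := hq
  obtain ⟨s, i, j, hi, hj, h5, h6, -⟩ := exists_sub q.1.r2
  have hs : IsV s := by
    have h7' : IsV q.1.r2 := IsV_r2' h1
    rw [h5] at h7'
    exact h7'
  have hj3 : j = 3 := by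
    apply core_row hs (i := i) (hi := hi) (hj := hj)
    rw [← h5]
    exact h2
  subst hj3
  have hik : i * k ≤ 6 * k := Nat.mul_le_mul_right k (by omega)
  refine ⟨s, i * k + (k - 1 - q.2), hs, by omega, ?_⟩
  have e1 : (i * k + (k - 1 - q.2)) / k = i := by
    rw [Nat.add_comm, Nat.add_mul_div_right _ _ (by omega : 0 < k), Nat.div_eq_of_lt (by omega),
      Nat.zero_add]
  have e2 : (i * k + (k - 1 - q.2)) % k = k - 1 - q.2 := by
    rw [Nat.add_comm, Nat.add_mul_mod_self_right, Nat.mod_eq_of_lt (by omega)]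
  unfold pos
  apply Prod.ext
  · show (sub h7 s (min ((i * k + (k - 1 - q.2)) / k) 6) 3 _ _).r2 = q.1
    have e3 : sub h7 s (min ((i * k + (k - 1 - q.2)) / k) 6) 3 (by omega) (by omega) =
        sub h7 s i 3 hi (by omega) := sub_congr _ _ rfl (by rw [e1]; omega) rfl
    rw [e3, ← h5, FSt.r2_r2]
  · show k - 1 - (i * k + (k - 1 - q.2)) % k = q.2
    rw [e2]
    omega

/-! ### Coarse rims and fine rims -/

section

open Deco0

lemma row_pow {Q : GridSolid} (s : Q.FSt) {i : ℕ} (hi : i < 7) {j : ℕ} (hj : j < 7) (n : ℕ)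
    (hn : i + n < 7) : (pE ^ n) (sub h7 s i j hi hj) = sub h7 s (i + n) j hn hj := by
  induction n with
  | zero => rfl
  | succ n ih =>
    rw [pow_succ', Equiv.Perm.mul_apply, ih (by omega)]
    show (sub h7 s (i + n) j _ hj).stE = _
    rw [sub_stE_mid s (by omega) hj]
    rfl

lemma row_same {Q : GridSolid} (s : Q.FSt) {i i' j : ℕ} (hi : i < 7) (hi' : i' < 7)
    (hj : j < 7) : pE.SameCycle (sub h7 s i j hi hj) (sub h7 s i' j hi' hj) := by
  rcases le_total i i' with h | h
  · refine ⟨((i' - i : ℕ) : ℤ), ?_⟩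
    rw [zpow_natCast, row_pow s hi hj (i' - i) (by omega)]
    exact sub_congr _ _ rfl (by omega) rfl
  · apply Equiv.Perm.SameCycle.symm
    refine ⟨((i - i' : ℕ) : ℤ), ?_⟩
    rw [zpow_natCast, row_pow s hi' hj (i - i') (by omega)]
    exact sub_congr _ _ rfl (by omega) rfl

lemma row_stE {Q : GridSolid} (s : Q.FSt) {i i' j : ℕ} (hi : i < 7) (hi' : i' < 7)
    (hj : j < 7) : pE.SameCycle (sub h7 s i j hi hj) (sub h7 s.stE i' j hi' hj) := by
  have h1 := row_same s hi (show 7 - 1 < 7 by norm_num) hj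
  have h2 : pE.SameCycle (sub h7 s (7 - 1) j (by norm_num) hj) (sub h7 s.stE 0 j h7 hj) :=
    ⟨1, by rw [zpow_one]; exact sub_stE_end (hk := h7) s hj⟩
  exact (h1.trans h2).trans (row_same s.stE h7 hi' hj)

lemma row_cycle {Q : GridSolid} {s s' : Q.FSt} (h : pE.SameCycle s s') {i i' j : ℕ} (hi : i < 7)
    (hi' : i' < 7) (hj : j < 7) :
    pE.SameCycle (sub h7 s i j hi hj) (sub h7 s' i' j hi' hj) := by
  obtain ⟨n, hn⟩ := h.exists_nat_pow_eq
  have key : ∀ n : ℕ, ∀ i' (hi' : i' < 7),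
      pE.SameCycle (sub h7 s i j hi hj) (sub h7 ((pE ^ n) s) i' j hi' hj) := by
    intro n
    induction n with
    | zero => intro i' hi'; exact row_same s hi hi' hj
    | succ n ih =>
      intro i' hi'
      have h1 := row_stE ((pE ^ n) s) hi hi' hj
      have h2 := ih i hi
      rw [pow_succ', Equiv.Perm.mul_apply]
      exact h2.trans h1
  have := key n i' hi'
  rw [hn] at this
  exact this

lemma r2_pow {Q : GridSolid} (s : Q.FSt) (n : ℤ) : (pE ^ n) s.r2 = ((pE ^ (-n)) s).r2 := by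
  have h1 : ∀ t : Q.FSt, pE t.r2 = (pE.symm t).r2 := by
    intro t
    rw [pE_symm_apply, FSt.r2_r2]
    rfl
  have h2 : ∀ t : Q.FSt, pE.symm t.r2 = (pE t).r2 := by
    intro t
    rw [pE_symm_apply, FSt.r2_r2]
    rfl
  induction n using Int.induction_on with
  | zero => simp
  | succ n ih =>
    rw [add_comm, zpow_one_add, Equiv.Perm.mul_apply, ih, h1]
    congr 1
    rw [show -((1 : ℤ) + n) = -1 + -(n : ℤ) by ring, zpow_add, Equiv.Perm.mul_apply, zpow_neg_one]
    rfl
  | pred n ih =>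
    rw [show -(n : ℤ) - 1 = -1 + -(n : ℤ) by ring, zpow_add, Equiv.Perm.mul_apply, ih,
      zpow_neg_one]
    show pE.symm _ = _
    rw [h2]
    congr 1
    rw [show -(-1 + -(n : ℤ)) = 1 + n by ring, zpow_add, Equiv.Perm.mul_apply, zpow_one, neg_neg]

lemma same_r2 {Q : GridSolid} {s s' : Q.FSt} (h : pE.SameCycle s s') :
    pE.SameCycle s.r2 s'.r2 := by
  obtain ⟨n, hn⟩ := h
  exact ⟨-n, by rw [r2_pow, neg_neg, hn]⟩

end

/-- coarse rims and fine rims -/
theorem pos_same {s s' : P.FSt} (_hs : IsV s) (X X' : ℕ) (h : pE.SameCycle s s') :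
    pE.SameCycle (pos k s X).1 (pos k s' X').1 :=
  same_r2 (row_cycle h _ _ _)

end Pool.Agent.MP42D
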