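import Pool.Agent.MP42.D.W0b

/-!
# Piece W0: values on the walls (owner helper55)
-/

set_option autoImplicit false
set_option linter.unusedSectionVars false

namespace Pool.Agent.MP42D

open Pool.Agent.Helper55.UNF Pool.Agent.Helper55.UNF.GridSolid Pool.Agent.MP42 Pool.Agent.MP42G

variable {P : GridSolid}

lemma El.ln_ne {v : El} (h : v ≠ El.o) (h2 : v ≠ El.e) : v.ln ≠ Helper55.UNF.Ln.z := by
  cases v
  · exact absurd rfl h
  · exact absurd rfl h2
  · decide
  · decide

lemma El.ne_o {v : El} (h : v.ln ≠ Helper55.UNF.Ln.z) : v ≠ El.o ∧ v ≠ El.e := by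
  cases v
  · exact absurd rfl h
  · exact absurd rfl h
  · decide
  · decide

namespace Deco

open Deco0

variable (D : Deco P) (hM : P.IsManifold) (h3 : Deg3 P) {k : ℕ} (hk : 62 ≤ k)

/-- used edges are seen in the canonical frame -/
lemma ent_of_EV {σ : (P.refine 7 h7).FSt} {x : ℕ} (hx : x < k) (h : D.EV k σ x ≠ El.o) :
    ent (D.jc hM h3 hk) σ x ∧ (¬ core7 σ.facet ∨ D.can7 σ.facet = σ ∨ D.can7 σ.facet = σ.r2) := by
  have hcan : D.can7 σ.facet = (D.jc hM h3 hk).can σ.facet := rfl
  have hce := D.can7_e σ.facet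
  have hd3 : σ.facet.1.2.1 = σ.1.d.1 := rfl
  rw [hd3] at hce
  rcases fr_cases (s := σ) (D.can7_facet0 σ.facet) with h1 | h1 | h1 | h1
  · refine ⟨?_, Or.inr (Or.inl h1)⟩
    rw [ent_0 (C := D.jc hM h3 hk) h1]
    show D.la7 k σ.facet x k ≠ _
    rw [D.la_N _ hx, h1]
    apply El.ln_ne h
    intro he
    obtain ⟨h2, h4⟩ := D.EV_e hM h3 hk σ hx he
    rw [h1] at hce
    by_cases hX : D.isX7 σ.facet = true
    · have h5 := h4.2 hX
      rw [if_pos (Or.inr ⟨h2, hX⟩)] at hce
      rw [hce] at h5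
      exact absurd h5 (by decide)
    · rw [if_neg] at hce
      · exact hX (h4.1 (by rw [hce]))
      · rintro (h6 | h6)
        · rw [h2] at h6; exact absurd h6 (by decide)
        · exact hX h6.2
  · refine ⟨?_, Or.inr (Or.inr h1)⟩
    rw [ent_2 (C := D.jc hM h3 hk) h1]
    show D.la7 k σ.facet (k - 1 - x) 0 ≠ _
    rw [D.la_S _ (by omega), h1, FSt.r2_r2, show k - 1 - (k - 1 - x) = x by omega]
    apply El.ln_ne h
    intro he
    obtain ⟨h2, h4⟩ := D.EV_e hM h3 hk σ hx he
    rw [h1] at hce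
    have e1 : σ.r2.1.e.1 = σ.1.e.1 := by
      show (opp σ.1.e).1 = _
      rw [opp_fst]
    by_cases hX : D.isX7 σ.facet = true
    · have h5 := h4.2 hX
      rw [if_pos (Or.inr ⟨h2, hX⟩)] at hce
      rw [← e1, hce] at h5
      exact absurd h5 (by decide)
    · rw [if_neg] at hce
      · exact hX (h4.1 (by rw [← e1, hce]))
      · rintro (h6 | h6)
        · rw [h2] at h6; exact absurd h6 (by decide)
        · exact hX h6.2
  · -- a quarter turn: plates only
    have key : σ.1.d.1 = 2 ∧ D.EV k σ x = El.e := by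
      by_cases hd : σ.1.d.1 = 2
      · refine ⟨hd, ?_⟩
        by_contra he
        have h2 := D.EV_ln hM h3 hk σ hx hd (El.ln_ne h he)
        have e1 : σ.rL.1.e = σ.1.n := rfl
        have e2 := cross_axis_right σ.1.d σ.1.e σ.2.2
        rw [h1, e1] at hce
        by_cases hX : D.isX7 σ.facet = true
        · rw [if_pos (Or.inr ⟨hd, hX⟩)] at hce
          have h4 : σ.1.e.1 = 0 := by
            have h5 : σ.1.n.1 ≠ σ.1.e.1 := e2
            rw [hce] at h5
            have h6 : σ.1.d.1 ≠ σ.1.e.1 := σ.2.2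
            rw [hd] at h6
            have : ∀ a : Fin 3, (1 : Fin 3) ≠ a → 2 ≠ a → a = 0 := by decide
            exact this _ h5 h6
          have h7' := h2.1 h4
          rw [hX] at h7'
          exact absurd h7' (by decide)
        · rw [if_neg] at hce
          · have h4 : σ.1.e.1 ≠ 0 := by
              intro h5
              have h6 : σ.1.n.1 ≠ σ.1.e.1 := e2
              rw [hce, h5] at h6
              exact h6 rfl
            apply h4
            apply h2.2
            simpa using hX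
          · rintro (h6 | h6)
            · rw [hd] at h6; exact absurd h6 (by decide)
            · exact hX h6.2
      · exfalso
        apply h
        obtain ⟨s, a, b, ha, hb, rfl, -, -⟩ := exists_sub σ
        rw [EV_sub]
        apply HS_vert
        -- the east direction of a wall state turned by a quarter is vertical
        have h2 := D.can7_core
        have h4 : (D.can7 (sub h7 s a b ha hb).facet).1.e = s.1.n := by rw [h1]; rfl
        rw [D.can7_e] at h4
        have h5 : s.1.n.1 ≠ 2 := by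
          rw [← h4]; split_ifs <;> decide
        have h6 : s.1.d.1 ≠ 2 := hd
        have h7' : s.1.n.1 ≠ s.1.d.1 := cross_axis_left _ _ s.2.2
        have h8 : s.1.n.1 ≠ s.1.e.1 := cross_axis_right _ _ s.2.2
        have h9 := s.2.2
        have : ∀ a b c : Fin 3, a ≠ 2 → b ≠ 2 → a ≠ b → a ≠ c → b ≠ c → c = 2 := by decide
        exact this _ _ _ h5 h6 h7' h8 h9
    refine ⟨?_, Or.inl (fun hc => hc.1 key.1)⟩
    rw [ent_L (C := D.jc hM h3 hk) h1]
    show D.pr7 k σ.facet k (k - 1 - x) = true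
    rw [D.pr_E _ (by omega), h1, FSt.rL_rR, show k - 1 - (k - 1 - x) = x by omega, key.2]
    rfl
  · have key : σ.1.d.1 = 2 ∧ D.EV k σ x = El.e := by
      by_cases hd : σ.1.d.1 = 2
      · refine ⟨hd, ?_⟩
        by_contra he
        have h2 := D.EV_ln hM h3 hk σ hx hd (El.ln_ne h he)
        have e1 : σ.rR.1.e.1 = σ.1.n.1 := by
          show (opp (cross σ.1.d σ.1.e)).1 = _
          rw [opp_fst]; rfl
        have e2 := cross_axis_right σ.1.d σ.1.e σ.2.2
        rw [h1] at hce
        by_cases hX : D.isX7 σ.facet = true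
        · rw [if_pos (Or.inr ⟨hd, hX⟩)] at hce
          have h4 : σ.1.e.1 = 0 := by
            have h5 : σ.1.n.1 ≠ σ.1.e.1 := e2
            rw [← e1, hce] at h5
            have h6 : σ.1.d.1 ≠ σ.1.e.1 := σ.2.2
            rw [hd] at h6
            have : ∀ a : Fin 3, (1 : Fin 3) ≠ a → 2 ≠ a → a = 0 := by decide
            exact this _ h5 h6
          have h7' := h2.1 h4
          rw [hX] at h7'
          exact absurd h7' (by decide)
        · rw [if_neg] at hce
          · have h4 : σ.1.e.1 ≠ 0 := by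
              intro h5
              have h6 : σ.1.n.1 ≠ σ.1.e.1 := e2
              rw [← e1, hce, h5] at h6
              exact h6 rfl
            apply h4
            apply h2.2
            simpa using hX
          · rintro (h6 | h6)
            · rw [hd] at h6; exact absurd h6 (by decide)
            · exact hX h6.2
      · exfalso
        apply h
        obtain ⟨s, a, b, ha, hb, rfl, -, -⟩ := exists_sub σ
        rw [EV_sub]
        apply HS_vert
        have h4 : (D.can7 (sub h7 s a b ha hb).facet).1.e.1 = s.1.n.1 := by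
          rw [h1]
          show (opp (cross s.1.d s.1.e)).1 = _
          rw [opp_fst]; rfl
        rw [D.can7_e] at h4
        have h5 : s.1.n.1 ≠ 2 := by
          rw [← h4]; split_ifs <;> decide
        have h6 : s.1.d.1 ≠ 2 := hd
        have h7' : s.1.n.1 ≠ s.1.d.1 := cross_axis_left _ _ s.2.2
        have h8 : s.1.n.1 ≠ s.1.e.1 := cross_axis_right _ _ s.2.2
        have h9 := s.2.2
        have : ∀ a b c : Fin 3, a ≠ 2 → b ≠ 2 → a ≠ b → a ≠ c → b ≠ c → c = 2 := by decide
        exact this _ _ _ h5 h6 h7' h8 h9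
    refine ⟨?_, Or.inl (fun hc => hc.1 key.1)⟩
    rw [ent_R (C := D.jc hM h3 hk) h1]
    show D.pr7 k σ.facet 0 x = true
    rw [D.pr_W _ hx, h1, FSt.rR_rL, key.2]
    rfl

/-! ### Straight lanes on the walls -/

/-- a column without strands and with constant lanes -/
lemma _root_.Pool.Agent.MP42D.col_straight {pr : ℕ → ℕ → Bool} {la : ℕ → ℕ → Helper55.UNF.Ln}
    {ψ χ : ℕ → ℕ → Prop} {l : Helper55.UNF.Ln} {x : ℕ} (h : CellRel k pr la ψ χ) (hx : x < k)
    (hp : ∀ y < k, pr x y = false ∧ pr (x + 1) y = false) (hl : l ≠ Helper55.UNF.Ln.z)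
    (hla : ∀ y ≤ k, la x y = l) : ∀ y ≤ k, (χ x y ↔ χ x 0) := by
  intro y
  induction y with
  | zero => intro _; exact Iff.rfl
  | succ y ih =>
    intro hy
    rw [← ih (by omega)]
    have h1 := h x y hx (by omega) Prt.S
    rw [(hp y (by omega)).1, (hp y (by omega)).2, hla y (by omega), hla (y + 1) hy] at h1
    cases l
    · exact absurd rfl hl
    · exact (h1 rfl).symm
    · exact (h1 rfl).symm

variable {ψ χ : (P.refine 7 h7).Facet → ℕ → ℕ → Prop}

/-- the values of the rows of a wall towards the junction -/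
lemma EV_row {s : P.FSt} (hs : IsV s) (hk : 62 ≤ k) {i j : ℕ} (hi : i < 7) (hj : j < 7)
    (hj3 : 3 ≤ j) {x : ℕ} (hx : x < k) :
    D.EV k (sub h7 s i j hi hj) x = D.ev k s (i * k + x) := by
  have hX := arX_lt (k := k) hi hx
  have hY : 4 * k ≤ (j + 1) * k := Nat.mul_le_mul_right k (by omega)
  have hY' : (j + 1) * k ≤ 7 * k := Nat.mul_le_mul_right k (by omega)
  have hP : ¬ IsPl s.facet := wall_d hs
  rw [EV_sub]
  rcases wall_bf hs with h | h
  · conv_lhs => rw [← h]
    rw [HS_bf, hF, if_neg hP, if_neg (by omega), h]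
  · have h2 : s = (bf s.facet).r2 := by rw [h, FSt.r2_r2]
    conv_lhs => rw [h2]
    rw [HS_r2, hF, if_neg hP, if_pos (by omega), ← h2]
    congr 1
    omega

/-- the lanes of the rows of a wall towards the junction -/
lemma la7_row {s : P.FSt} (hs : IsV s) {i j : ℕ} (hi : i < 7) (hj : j < 7)
    (hj3 : 3 < j) {x y : ℕ} (hx : x < k) :
    D.la7 k (sub h7 s i j hi hj).facet x y =
      (D.ev k s (if bf s.facet = s then i * k + x else i * k + (k - 1 - x))).ln := by
  have hX := arX_lt (k := k) hi hx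
  have hP : ¬ IsPl s.facet := wall_d hs
  unfold la7
  rw [co_sub, if_neg hP]
  rcases can7_wall D.toDeco0 hs i j hi hj with ⟨h1, -, h4, h5⟩ | ⟨h1, -, h4, h5⟩
  · rw [h4, h5, h1, if_pos rfl, if_neg (by omega)]
  · have h6 : ¬ s.r2 = s := FSt.r2_ne s
    rw [h4, h5, h1, if_neg h6, if_pos (by omega), FSt.r2_r2]
    congr 2
    have := arX (k := k) hi (x := k - 1 - x) (by omega)
    have e : k - 1 - (k - 1 - x) = x := by omega
    rw [e] at this
    have h8 : 7 - 1 - i = 6 - i := rfl
    rw [h8] at this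
    have h9 := arX_lt (k := k) hi (x := k - 1 - x) (by omega)
    omega

/-- the lanes run straight through a row -/
lemma row_straight (hI : (D.jc hM h3 hk).Inv ψ χ) {s : P.FSt} (hs : IsV s) {i j : ℕ}
    (hi : i < 7) (hj : j < 7) (hj3 : 3 < j) {x : ℕ} (hx : x < k)
    (hv : D.la7 k (sub h7 s i j hi hj).facet x 0 ≠ Helper55.UNF.Ln.z) :
    ∀ y ≤ k, (χ (sub h7 s i j hi hj).facet x y ↔ χ (sub h7 s i j hi hj).facet x 0) := by
  have hd : (sub h7 s i j hi hj).facet.1.2.1 ≠ 2 := wall_d hs
  have hc : ¬ core7 (sub h7 s i j hi hj).facet := by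
    intro h
    have := core_row hs h
    omega
  have hcell : CellRel k (D.pr7 k (sub h7 s i j hi hj).facet)
      (D.la7 k (sub h7 s i j hi hj).facet) (ψ (sub h7 s i j hi hj).facet)
      (χ (sub h7 s i j hi hj).facet) := hI.cell _ hc
  refine col_straight hcell hx (fun y _ => ⟨D.pr7_wall hd _ _, D.pr7_wall hd _ _⟩) hv ?_
  intro y _
  rw [D.la7_row hs hi hj hj3 hx, D.la7_row hs hi hj hj3 hx]

/-- north side and south side of a row -/
lemma row_NS (hI : (D.jc hM h3 hk).Inv ψ χ) {s : P.FSt} (hs : IsV s) {i j : ℕ}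
    (hi : i < 7) (hj : j < 7) (hj3 : 3 < j) {x : ℕ} (hx : x < k)
    (hv : (D.ev k s (i * k + x)).ln ≠ Helper55.UNF.Ln.z) :
    vls (D.jc hM h3 hk) ψ χ (sub h7 s i j hi hj).r2 (k - 1 - x) ↔
      vls (D.jc hM h3 hk) ψ χ (sub h7 s i j hi hj) x := by
  have e : k - 1 - (k - 1 - x) = x := by omega
  rcases can7_wall D.toDeco0 hs i j hi hj with ⟨h1, h2, -, -⟩ | ⟨h1, h2, -, -⟩
  · have h2' : (D.jc hM h3 hk).can (sub h7 s i j hi hj).r2.facet =
        (sub h7 s i j hi hj).r2.r2 := by rw [FSt.r2_r2]; exact h2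
    rw [vls_2 h2', vls_0 (C := D.jc hM h3 hk) h2, e, FSt.facet_r2]
    refine (D.row_straight hM h3 hk hI hs hi hj hj3 hx ?_ k le_rfl).symm
    rw [D.la7_row hs hi hj hj3 hx, if_pos h1]
    exact hv
  · have h2' : (D.jc hM h3 hk).can (sub h7 s i j hi hj).r2.facet =
        (sub h7 s i j hi hj).r2 := h2
    rw [vls_0 h2', vls_2 (C := D.jc hM h3 hk) h2, FSt.facet_r2]
    refine D.row_straight hM h3 hk hI hs hi hj hj3 (by omega) ?_ k le_rfl
    rw [D.la7_row hs hi hj hj3 (by omega), if_neg (by rw [h1]; exact FSt.r2_ne s), e]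
    exact hv

/-- the next row -/
lemma row_up (hI : (D.jc hM h3 hk).Inv ψ χ) {s : P.FSt} (hs : IsV s) {i j : ℕ}
    (hi : i < 7) (hj : j + 1 < 7) (hj3 : 3 ≤ j) {x : ℕ} (hx : x < k)
    (hv : (D.ev k s (i * k + x)).ln ≠ Helper55.UNF.Ln.z) :
    vls (D.jc hM h3 hk) ψ χ (sub h7 s i j hi (by omega)) x ↔
      vls (D.jc hM h3 hk) ψ χ (sub h7 s i (j + 1) hi hj) x := by
  have h1 := D.EV_row hs hk hi (show j < 7 by omega) hj3 hx
  obtain ⟨h2, h4⟩ := D.ent_of_EV hM h3 hk (σ := sub h7 s i j hi (by omega)) hx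
    (by rw [h1]; exact (El.ne_o hv).1)
  have h5 := vls_symm hI hx h4 h2
  rw [sub_stN_mid s hi hj] at h5
  rw [← h5]
  exact D.row_NS hM h3 hk hI hs hi hj (by omega) hx hv

/-- all rows from the core to the junction -/
lemma row_val (hI : (D.jc hM h3 hk).Inv ψ χ) {s : P.FSt} (hs : IsV s) {i : ℕ} (hi : i < 7)
    {x : ℕ} (hx : x < k) (hv : (D.ev k s (i * k + x)).ln ≠ Helper55.UNF.Ln.z) (n : ℕ) :
    ∀ j (hj : j < 7), 3 ≤ j → j + n = 6 →
      (vls (D.jc hM h3 hk) ψ χ (sub h7 s i j hi hj) x ↔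
        vls (D.jc hM h3 hk) ψ χ (sub h7 s i 6 hi (by norm_num)) x) := by
  induction n with
  | zero =>
    intro j hj hj3 hjn
    have : j = 6 := by omega
    subst this
    exact Iff.rfl
  | succ n ih =>
    intro j hj hj3 hjn
    rw [D.row_up hM h3 hk hI hs hi (show j + 1 < 7 by omega) hj3 hx hv]
    exact ih (j + 1) (by omega) (by omega) (by omega)

/-- the value at a position of a rim -/
lemma pos_fv {s : P.FSt} (hs : IsV s) {X : ℕ} (hX : X < 7 * k) :
    (D.jc hM h3 hk).fv χ (pos k s X).1 (pos k s X).2 ↔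
      vls (D.jc hM h3 hk) ψ χ (sub h7 s (min (X / k) 6) 3 (by omega) (by norm_num)) (X % k) := by
  have hx : X % k < k := Nat.mod_lt _ (by omega)
  unfold JCert.fv pos
  simp only []
  rcases can7_wall D.toDeco0 hs (min (X / k) 6) 3 (by omega) (by norm_num) with
    ⟨h1, h2, -, -⟩ | ⟨h1, h2, -, -⟩
  · rw [vls_0 (C := D.jc hM h3 hk) h2, if_neg, show k - 1 - (k - 1 - X % k) = X % k by omega]
    · rfl
    · show ¬ D.can7 _ = _
      rw [FSt.facet_r2, h2]
      exact fun h => FSt.r2_ne _ h.symm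
  · rw [vls_2 (C := D.jc hM h3 hk) h2, if_pos]
    · rfl
    · exact h2

end Deco

end Pool.Agent.MP42D
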