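import Pool.Agent.MP42.D.W0c

/-!
# Piece W0: values on the plates (owner helper55)
-/

set_option autoImplicit false
set_option linter.unusedSectionVars false

namespace Pool.Agent.MP42D

open Pool.Agent.Helper55.UNF Pool.Agent.Helper55.UNF.GridSolid Pool.Agent.MP42 Pool.Agent.MP42G

variable {P : GridSolid}

/-! ### Types of the edges of a part -/

lemma El.ie_iff {v : El} (h : v.ln = Helper55.UNF.Ln.z) : v.ie = true ↔ v ≠ El.o := by
  cases v
  · simp [El.ie]
  · simp [El.ie]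
  · exact absurd h (by decide)
  · exact absurd h (by decide)

lemma El.ln_iff {v : El} (h : v ≠ El.e) : (v.ln != Helper55.UNF.Ln.z) = true ↔ v ≠ El.o := by
  cases v
  · decide
  · exact absurd rfl h
  · decide
  · decide

namespace PD

variable {τ : Type*} {D : PD τ} {k : ℕ}

lemma Vv_Yall (hk : 20 ≤ k) {i j : ℕ} (hX : D.isX i j = false) (hi : i < 7) {x y : ℕ}
    (hx : x ≤ k) (hy : y < k) : (D.Vv k (i * k + x) (j * k + y)).ln = Helper55.UNF.Ln.z := by
  have key : ∀ a b c d : ℕ, (Vm k a b c d (i * k + x) (j * k + y)).ln = Helper55.UNF.Ln.z := by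
    intro a b c d
    unfold Vm
    split_ifs <;> rfl
  by_cases h0 : i = 0
  · subst h0
    rw [Vv_clear hk hy]
    · exact key _ _ _ _
    · right
      intro s hs
      have := (isX_zero (D := D) j).2 ⟨s, hs⟩
      rw [this] at hX
      exact absurd hX (by decide)
    · left
      omega
  · by_cases h6 : i = 6
    · subst h6
      rw [Vv_clear hk hy]
      · exact key _ _ _ _
      · left
        omega
      · right
        intro s hs
        have := (isX_six (D := D) j).2 ⟨s, hs⟩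
        rw [this] at hX
        exact absurd hX (by decide)
    · rw [Vv_mid hk]
      · exact key _ _ _ _
      · have : 1 * k ≤ i * k := Nat.mul_le_mul_right k (by omega)
        omega
      · have : i * k ≤ 5 * k := Nat.mul_le_mul_right k (by omega)
        omega

lemma Vv_Xall {onW onE : ℤ → Bool} (hD : D.Ok onW onE) (hk : 20 ≤ k) {i j : ℕ}
    (hX : D.isX i j = true) {x y : ℕ} (hx : x ≤ k) (hy : y < k) :
    D.Vv k (i * k + x) (j * k + y) ≠ El.e := by
  intro he
  unfold Vv at he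
  split_ifs at he with c1 c2 c3 c4 c5
  rw [row_iff hk hy, row_iff hk hy] at c5
  rcases isX_true hX with ⟨rfl, hs⟩ | ⟨rfl, hs⟩
  · have hc : D.KW.RE D.y j := by
      unfold KD.RE
      rcases c5 with ⟨⟨h1, -⟩, ⟨h2, -⟩ | ⟨-, h2⟩⟩ | ⟨⟨h1, -⟩, ⟨h2, -⟩ | ⟨-, h2⟩⟩
      · exact Or.inl ⟨h1, h2⟩
      · omega
      · exact Or.inr ⟨h1, h2⟩
      · omega
    exact KD.RE_not_XB hD.W hc hs
  · have hc : D.KE.RE D.y j := by
      unfold KD.RE
      rcases c5 with ⟨⟨h1, -⟩, ⟨-, h2⟩ | ⟨h2, -⟩⟩ | ⟨⟨h1, -⟩, ⟨-, h2⟩ | ⟨h2, -⟩⟩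
      · omega
      · exact Or.inl ⟨h1, h2⟩
      · omega
      · exact Or.inr ⟨h1, h2⟩
    exact KD.RE_not_XA hD.E hc hs

end PD

/-! ### Two used sides of a cell -/

lemma mate_two : ∀ a b u v, okc a b u v = true → ∀ p q, p ≠ q → usd a b u v p = true →
    usd a b u v q = true → (∀ r, r ≠ p → r ≠ q → usd a b u v r = false) →
    mate a b u v p = q := by decide

lemma two_sides {k : ℕ} {pr : ℕ → ℕ → Bool} {la : ℕ → ℕ → Helper55.UNF.Ln} {ψ χ : ℕ → ℕ → Prop}
    (hok : CellOk k pr la) (hr : CellRel k pr la ψ χ) {x y : ℕ} (hx : x < k) (hy : y < k)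
    {p q : Prt} (hpq : p ≠ q)
    (hp : usd (pr x y) (pr (x + 1) y) (la x (y + 1)) (la x y) p = true)
    (hq : usd (pr x y) (pr (x + 1) y) (la x (y + 1)) (la x y) q = true)
    (ho : ∀ r, r ≠ p → r ≠ q → usd (pr x y) (pr (x + 1) y) (la x (y + 1)) (la x y) r = false) :
    prt ψ χ x y p ↔ prt ψ χ x y q := by
  have h1 := hr x y hx hy p hp
  rw [mate_two _ _ _ _ (hok x y hx hy) p q hpq hp hq ho] at h1
  exact h1

/-- the side of the canonical frame with east `+ y` -/
def qX : Prt → Prt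
  | Prt.W => Prt.N
  | Prt.N => Prt.E
  | Prt.E => Prt.S
  | Prt.S => Prt.W

lemma qX_ne : ∀ p q : Prt, p ≠ q → qX p ≠ qX q := by decide
lemma qX_surj : ∀ r : Prt, ∃ p, qX p = r := by decide
lemma rpt_ne : ∀ p q : Prt, p ≠ q → rpt p ≠ rpt q := by decide
lemma rpt_surj : ∀ r : Prt, ∃ p, rpt p = r := by decide

namespace Deco

open Deco0

section Parts

variable (D : Deco P) (ψ χ : (P.refine 7 h7).Facet → ℕ → ℕ → Prop) (k : ℕ)

/-- the values of the edges of a part of a plate in its base frame -/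
noncomputable def hvp (f : (P.refine 7 h7).Facet) (a b : ℕ) : Prop :=
  if D.isX7 f = true then ψ f b (k - 1 - a)
  else if f.1.2.2 = true then χ f a b else χ f (k - 1 - a) (k - b)

noncomputable def vvp (f : (P.refine 7 h7).Facet) (a b : ℕ) : Prop :=
  if D.isX7 f = true then χ f b (k - a)
  else if f.1.2.2 = true then ψ f a b else ψ f (k - a) (k - 1 - b)

end Parts

variable {D : Deco P} {hM : P.IsManifold} {h3 : Deg3 P} {k : ℕ} {hk : 62 ≤ k}
  {ψ χ : (P.refine 7 h7).Facet → ℕ → ℕ → Prop}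

lemma can7_pl {f : (P.refine 7 h7).Facet} (hf : IsPl (co h7 f)) :
    (D.isX7 f = true ∧ D.can7 f = (sf f).rL) ∨
    (¬ D.isX7 f = true ∧ f.1.2.2 = true ∧ D.can7 f = sf f) ∨
    (¬ D.isX7 f = true ∧ ¬ f.1.2.2 = true ∧ D.can7 f = (sf f).r2) := by
  unfold can7
  by_cases hX : D.isX7 f = true
  · left; exact ⟨hX, by rw [if_pos hf, if_pos hX]⟩
  · by_cases hU : f.1.2.2 = true
    · right; left; exact ⟨hX, hU, by rw [if_pos hf, if_neg hX, if_pos hU]⟩
    · right; right; exact ⟨hX, hU, by rw [if_pos hf, if_neg hX, if_neg hU]⟩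

lemma hvp_N {f : (P.refine 7 h7).Facet} (hf : IsPl (co h7 f)) {a : ℕ} (ha : a < k) :
    D.hvp ψ χ k f a k ↔ vls (D.jc hM h3 hk) ψ χ (sf f) a := by
  have e : (sf f).facet = f := sf_facet f
  unfold hvp
  rcases can7_pl (D := D) hf with ⟨h1, h2⟩ | ⟨h1, h4, h2⟩ | ⟨h1, h4, h2⟩
  · rw [vls_L (C := D.jc hM h3 hk) (by rw [e]; exact h2), e, if_pos h1]
  · rw [vls_0 (C := D.jc hM h3 hk) (by rw [e]; exact h2), e, if_neg h1, if_pos h4]
  · rw [vls_2 (C := D.jc hM h3 hk) (by rw [e]; exact h2), e, if_neg h1, if_neg h4, Nat.sub_self]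

lemma hvp_S {f : (P.refine 7 h7).Facet} (hf : IsPl (co h7 f)) {a : ℕ} (ha : a < k) :
    D.hvp ψ χ k f a 0 ↔ vls (D.jc hM h3 hk) ψ χ (sf f).r2 (k - 1 - a) := by
  have e : (sf f).r2.facet = f := sf_facet f
  have e2 : k - 1 - (k - 1 - a) = a := by omega
  unfold hvp
  rcases can7_pl (D := D) hf with ⟨h1, h2⟩ | ⟨h1, h4, h2⟩ | ⟨h1, h4, h2⟩
  · rw [vls_R (C := D.jc hM h3 hk) (by rw [e, FSt.r2_rR]; exact h2), e, if_pos h1]
  · rw [vls_2 (C := D.jc hM h3 hk) (by rw [e, FSt.r2_r2]; exact h2), e, if_neg h1, if_pos h4, e2]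
  · rw [vls_0 (C := D.jc hM h3 hk) (by rw [e]; exact h2), e, if_neg h1, if_neg h4, Nat.sub_zero]

lemma vvp_W {f : (P.refine 7 h7).Facet} (hf : IsPl (co h7 f)) {b : ℕ} (hb : b < k) :
    D.vvp ψ χ k f 0 b ↔ vls (D.jc hM h3 hk) ψ χ (sf f).rL b := by
  have e : (sf f).rL.facet = f := sf_facet f
  unfold vvp
  rcases can7_pl (D := D) hf with ⟨h1, h2⟩ | ⟨h1, h4, h2⟩ | ⟨h1, h4, h2⟩
  · rw [vls_0 (C := D.jc hM h3 hk) (by rw [e]; exact h2), e, if_pos h1, Nat.sub_zero]
  · rw [vls_R (C := D.jc hM h3 hk) (by rw [e, FSt.rL_rR]; exact h2), e, if_neg h1, if_pos h4]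
  · rw [vls_L (C := D.jc hM h3 hk) (by rw [e, FSt.rL_rL]; exact h2), e, if_neg h1, if_neg h4,
      Nat.sub_zero]

lemma vvp_E {f : (P.refine 7 h7).Facet} (hf : IsPl (co h7 f)) {b : ℕ} (hb : b < k) :
    D.vvp ψ χ k f k b ↔ vls (D.jc hM h3 hk) ψ χ (sf f).rR (k - 1 - b) := by
  have e : (sf f).rR.facet = f := sf_facet f
  have e2 : k - 1 - (k - 1 - b) = b := by omega
  unfold vvp
  rcases can7_pl (D := D) hf with ⟨h1, h2⟩ | ⟨h1, h4, h2⟩ | ⟨h1, h4, h2⟩
  · rw [vls_2 (C := D.jc hM h3 hk) (by rw [e, FSt.rR_r2]; exact h2), e, if_pos h1, Nat.sub_self,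
      e2]
  · rw [vls_L (C := D.jc hM h3 hk) (by rw [e, FSt.rR_rL]; exact h2), e, if_neg h1, if_pos h4, e2]
  · rw [vls_R (C := D.jc hM h3 hk) (by rw [e, FSt.rR_rR]; exact h2), e, if_neg h1, if_neg h4,
      Nat.sub_self]

/-! ### The values on a coarse plate -/

variable (D ψ χ k)

/-- the values of the edges of a coarse plate in its base frame -/
noncomputable def hvC (F : P.Facet) (X Y : ℕ) : Prop :=
  D.hvp ψ χ k (part F (min (X / k) 6) (min (Y / k) 6) (by omega) (by omega))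
    (X - min (X / k) 6 * k) (Y - min (Y / k) 6 * k)

noncomputable def vvC (F : P.Facet) (X Y : ℕ) : Prop :=
  D.vvp ψ χ k (part F (min (X / k) 6) (min (Y / k) 6) (by omega) (by omega))
    (X - min (X / k) 6 * k) (Y - min (Y / k) 6 * k)

variable {D ψ χ k}

lemma min_div {i b : ℕ} (hk0 : 0 < k) (hi : i < 7) (hb : b < k ∨ (i = 6 ∧ b = k)) :
    min ((i * k + b) / k) 6 = i ∧ i * k + b - min ((i * k + b) / k) 6 * k = b := by
  have h1 : min ((i * k + b) / k) 6 = i := by
    rcases hb with hb | ⟨rfl, rfl⟩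
    · rw [Nat.add_comm, Nat.add_mul_div_right _ _ hk0, Nat.div_eq_of_lt hb]
      omega
    · have : 6 * b + b = 7 * b := by ring
      rw [this, Nat.mul_div_cancel _ hk0]
      rfl
  exact ⟨h1, by rw [h1]; omega⟩

lemma hvp_congr {F : P.Facet} {i j i' j' a b a' b' : ℕ} {hi : i < 7} {hj : j < 7} (h1 : i = i')
    (h2 : j = j') (h4 : a = a') (h5 : b = b') :
    D.hvp ψ χ k (part F i j hi hj) a b ↔
      D.hvp ψ χ k (part F i' j' (h1 ▸ hi) (h2 ▸ hj)) a' b' := by
  subst h1; subst h2; subst h4; subst h5; exact Iff.rfl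

lemma vvp_congr {F : P.Facet} {i j i' j' a b a' b' : ℕ} {hi : i < 7} {hj : j < 7} (h1 : i = i')
    (h2 : j = j') (h4 : a = a') (h5 : b = b') :
    D.vvp ψ χ k (part F i j hi hj) a b ↔
      D.vvp ψ χ k (part F i' j' (h1 ▸ hi) (h2 ▸ hj)) a' b' := by
  subst h1; subst h2; subst h4; subst h5; exact Iff.rfl

/-- the value of a horizontal edge of a part -/
lemma hv_at (hI : (D.jc hM h3 hk).Inv ψ χ) {F : P.Facet} (hF : IsPl F) {i j : ℕ} (hi : i < 7)
    (hj : j < 7) {a b : ℕ} (ha : a < k) (hb : b ≤ k)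
    (hne : b < k ∨ j = 6 ∨ (D.pd (bf F)).Hv k (i * k + a) (j * k + b) ≠ El.o) :
    D.hvC k ψ χ F (i * k + a) (j * k + b) ↔ D.hvp ψ χ k (part F i j hi hj) a b := by
  have hk0 : 0 < k := by omega
  obtain ⟨e1, e2⟩ := min_div (k := k) hk0 hi (Or.inl ha)
  unfold hvC
  by_cases hb2 : b < k ∨ (j = 6 ∧ b = k)
  · obtain ⟨e3, e4⟩ := min_div (k := k) hk0 hj hb2
    exact hvp_congr e1 e3 e2 e4
  · have hbk : b = k := by omega
    have hj6 : j < 6 := by omega
    subst hbk
    have hne' : (D.pd (bf F)).Hv b (i * b + a) (j * b + b) ≠ El.o := by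
      rcases hne with h | h | h
      · omega
      · omega
      · exact h
    have e5 : j * b + b = (j + 1) * b + 0 := by ring
    obtain ⟨e3, e4⟩ := min_div (k := b) (i := j + 1) (b := 0) hk0 (by omega) (Or.inl hk0)
    rw [← e5] at e3 e4
    rw [hvp_congr e1 e3 e2 e4]
    set f := part F i j hi hj with hf
    have hf1 : IsPl (co h7 f) := by rw [hf, co_part]; exact hF
    have hf2 : IsPl (co h7 (part F i (j + 1) hi (show j + 1 < 7 by omega))) := by
      rw [co_part]; exact hF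
    rw [hvp_N (hM := hM) (h3 := h3) (hk := hk) hf1 ha]
    refine Iff.trans (hvp_S (hM := hM) (h3 := h3) (hk := hk) hf2 ha) ?_
    have hEV : D.EV b (sf f) a ≠ El.o := by
      rw [EV_sf, Deco0.hF, if_pos hf1, hf, co_part, fi_part, fj_part, Nat.succ_mul]
      exact hne'
    obtain ⟨h4, h5⟩ := D.ent_of_EV hM h3 hk ha hEV
    have h6 := vls_symm hI ha h5 h4
    have hN : (sf f).stN = sf (part F i (j + 1) hi (show j + 1 < 7 by omega)) := by
      rw [hf, sf_part, sf_part, sub_stN_mid]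
    rw [hN] at h6
    exact h6

/-- the value of a vertical edge of a part -/
lemma vv_at (hI : (D.jc hM h3 hk).Inv ψ χ) {F : P.Facet} (hF : IsPl F) {i j : ℕ} (hi : i < 7)
    (hj : j < 7) {a b : ℕ} (ha : a ≤ k) (hb : b < k)
    (hne : a < k ∨ i = 6 ∨ (D.pd (bf F)).Vv k (i * k + a) (j * k + b) ≠ El.o) :
    D.vvC k ψ χ F (i * k + a) (j * k + b) ↔ D.vvp ψ χ k (part F i j hi hj) a b := by
  have hk0 : 0 < k := by omega
  obtain ⟨e1, e2⟩ := min_div (k := k) hk0 hj (Or.inl hb)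
  unfold vvC
  by_cases ha2 : a < k ∨ (i = 6 ∧ a = k)
  · obtain ⟨e3, e4⟩ := min_div (k := k) hk0 hi ha2
    exact vvp_congr e3 e1 e4 e2
  · have hak : a = k := by omega
    have hi6 : i < 6 := by omega
    subst hak
    have hne' : (D.pd (bf F)).Vv a (i * a + a) (j * a + b) ≠ El.o := by
      rcases hne with h | h | h
      · omega
      · omega
      · exact h
    have e5 : i * a + a = (i + 1) * a + 0 := by ring
    obtain ⟨e3, e4⟩ := min_div (k := a) (i := i + 1) (b := 0) hk0 (by omega) (Or.inl hk0)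
    rw [← e5] at e3 e4
    rw [vvp_congr e3 e1 e4 e2]
    set f := part F i j hi hj with hf
    have hf1 : IsPl (co h7 f) := by rw [hf, co_part]; exact hF
    have hf2 : IsPl (co h7 (part F (i + 1) j (show i + 1 < 7 by omega) hj)) := by
      rw [co_part]; exact hF
    rw [vvp_E (hM := hM) (h3 := h3) (hk := hk) hf1 hb]
    refine Iff.trans (vvp_W (hM := hM) (h3 := h3) (hk := hk) hf2 hb) ?_
    have hb' : a - 1 - b < a := by omega
    have hEV : D.EV a (sf f).rR (a - 1 - b) ≠ El.o := by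
      rw [EV_sfR _ hb', Deco0.vF, if_pos hf1, hf, co_part, fi_part, fj_part, Nat.succ_mul,
        show a - 1 - (a - 1 - b) = b by omega]
      exact hne'
    obtain ⟨h4, h5⟩ := D.ent_of_EV hM h3 hk hb' hEV
    have h6 := vls_symm hI hb' h5 h4
    have hN : (sf f).rR.stN.r2 =
        (sf (part F (i + 1) j (show i + 1 < 7 by omega) hj)).rL := by
      have h8 : (sf f).rR.stN = (sf f).stE.rR := by
        show (sf f).rR.rL.stE.rR = _
        rw [FSt.rR_rL]
      rw [h8, FSt.rR_r2, hf, sf_part, sf_part, sub_stE_mid]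
    rw [hN, show a - 1 - (a - 1 - b) = b by omega] at h6
    exact h6

/-! ### Tables of the parts of a plate -/

section Tables

variable {f : (P.refine 7 h7).Facet} (hf : IsPl (co h7 f)) (x y : ℕ)

include hf

lemma pr7_Xe (hX : D.isX7 f = true) : D.pr7 k f x y =
    ((D.pd (bf (co h7 f))).Hv k (fi f * k + (k - 1 - y)) (fj f * k + x)).ie := by
  unfold pr7
  rw [if_pos hf, if_pos (Or.inl hX), pl_prT D.toDeco0 hX]

lemma pr7_Ue (hX : ¬ D.isX7 f = true) (hU : f.1.2.2 = true) : D.pr7 k f x y =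
    ((D.pd (bf (co h7 f))).Vv k (fi f * k + x) (fj f * k + y)).ie := by
  unfold pr7
  rw [if_pos hf, if_pos (Or.inr hU), pl_prT' D.toDeco0 hX]

lemma pr7_Ve (hX : ¬ D.isX7 f = true) (hU : ¬ f.1.2.2 = true) : D.pr7 k f x y =
    ((D.pd (bf (co h7 f))).Vv k (fi f * k + (k - x)) (fj f * k + (k - 1 - y))).ie := by
  unfold pr7
  rw [if_pos hf, if_neg (not_or.2 ⟨hX, hU⟩), pl_prT' D.toDeco0 hX]

lemma la7_Xe (hX : D.isX7 f = true) : D.la7 k f x y =
    ((D.pd (bf (co h7 f))).Vv k (fi f * k + (k - y)) (fj f * k + x)).ln := by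
  unfold la7
  rw [if_pos hf, if_pos (Or.inl hX), pl_laT D.toDeco0 hX]

lemma la7_Ue (hX : ¬ D.isX7 f = true) (hU : f.1.2.2 = true) : D.la7 k f x y =
    ((D.pd (bf (co h7 f))).Hv k (fi f * k + x) (fj f * k + y)).ln := by
  unfold la7
  rw [if_pos hf, if_pos (Or.inr hU), pl_laT' D.toDeco0 hX]

lemma la7_Ve (hX : ¬ D.isX7 f = true) (hU : ¬ f.1.2.2 = true) : D.la7 k f x y =
    ((D.pd (bf (co h7 f))).Hv k (fi f * k + (k - 1 - x)) (fj f * k + (k - y))).ln := by
  unfold la7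
  rw [if_pos hf, if_neg (not_or.2 ⟨hX, hU⟩), pl_laT' D.toDeco0 hX]

end Tables

/-- the strands of a cell of a part, in the base frame -/
lemma cell_part (hI : (D.jc hM h3 hk).Inv ψ χ) {f : (P.refine 7 h7).Facet}
    (hf : IsPl (co h7 f)) {a b : ℕ} (ha : a < k) (hb : b < k) {p q : Prt} (hpq : p ≠ q)
    (hp : (D.pd (bf (co h7 f))).cEl k (fi f * k + a) (fj f * k + b) p ≠ El.o)
    (hq : (D.pd (bf (co h7 f))).cEl k (fi f * k + a) (fj f * k + b) q ≠ El.o)
    (ho : ∀ r, r ≠ p → r ≠ q →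
      (D.pd (bf (co h7 f))).cEl k (fi f * k + a) (fj f * k + b) r = El.o) :
    PD.cVal (D.hvp ψ χ k f) (D.vvp ψ χ k f) a b p ↔
      PD.cVal (D.hvp ψ χ k f) (D.vvp ψ χ k f) a b q := by
  have hc : ¬ core7 f := fun h => h.1 hf
  have hcell : CellRel k (D.pr7 k f) (D.la7 k f) (ψ f) (χ f) := hI.cell _ hc
  have hok := D.ok7 hM h3 hk f hc
  have hi := fi_lt f
  have hj := fj_lt f
  have hpd := D.pd_ok hM (co h7 f) hf
  have hk2 : 20 ≤ k := by omega
  set T := D.pd (bf (co h7 f)) with hT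
  have eX : T.isX (fi f) (fj f) = D.isX7 f := rfl
  rcases can7_pl (D := D) hf with ⟨hX, -⟩ | ⟨hX, hU, -⟩ | ⟨hX, hU, -⟩
  · -- the frame of the tracks
    have tv : ∀ x y, x ≤ k → y < k → T.Vv k (fi f * k + x) (fj f * k + y) ≠ El.e :=
      fun x y hx hy => PD.Vv_Xall hpd hk2 (by rw [eX]; exact hX) hx hy
    have th : ∀ x y, x < k → (T.Hv k (fi f * k + x) y).ln = Helper55.UNF.Ln.z :=
      fun x y hx => PD.Hv_X hk2 (by rw [eX]; exact hX) hx y
    have e1 : D.pr7 k f b (k - 1 - a) = (T.Hv k (fi f * k + a) (fj f * k + b)).ie := by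
      rw [pr7_Xe hf _ _ hX, show k - 1 - (k - 1 - a) = a by omega]
    have e2 : D.pr7 k f (b + 1) (k - 1 - a) =
        (T.Hv k (fi f * k + a) (fj f * k + b + 1)).ie := by
      rw [pr7_Xe hf _ _ hX, show k - 1 - (k - 1 - a) = a by omega]; rfl
    have e3 : D.la7 k f b (k - 1 - a + 1) = (T.Vv k (fi f * k + a) (fj f * k + b)).ln := by
      rw [la7_Xe hf _ _ hX, show k - (k - 1 - a + 1) = a by omega]
    have e4 : D.la7 k f b (k - 1 - a) = (T.Vv k (fi f * k + a + 1) (fj f * k + b)).ln := by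
      rw [la7_Xe hf _ _ hX, show k - (k - 1 - a) = a + 1 by omega]; rfl
    have hu : ∀ r, usd (D.pr7 k f b (k - 1 - a)) (D.pr7 k f (b + 1) (k - 1 - a))
        (D.la7 k f b (k - 1 - a + 1)) (D.la7 k f b (k - 1 - a)) (qX r) = true ↔
        T.cEl k (fi f * k + a) (fj f * k + b) r ≠ El.o := by
      rw [e1, e2, e3, e4]
      intro r
      cases r
      · exact El.ln_iff (tv a b ha.le hb)
      · exact El.ln_iff (tv (a + 1) b ha hb)
      · exact El.ie_iff (th a _ ha)
      · exact El.ie_iff (th a _ ha)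
    have hv : ∀ r, prt (ψ f) (χ f) b (k - 1 - a) (qX r) ↔
        PD.cVal (D.hvp ψ χ k f) (D.vvp ψ χ k f) a b r := by
      intro r
      unfold hvp vvp
      cases r
      · show χ f b (k - 1 - a + 1) ↔ if _ then _ else _
        rw [if_pos hX, show k - 1 - a + 1 = k - a by omega]
      · show χ f b (k - 1 - a) ↔ if _ then _ else _
        rw [if_pos hX, show k - (a + 1) = k - 1 - a by omega]
      · show ψ f (b + 1) (k - 1 - a) ↔ if _ then _ else _
        rw [if_pos hX]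
      · show ψ f b (k - 1 - a) ↔ if _ then _ else _
        rw [if_pos hX]
    rw [← hv, ← hv]
    apply two_sides hok hcell hb (by omega) (qX_ne p q hpq) ((hu p).2 hp) ((hu q).2 hq)
    intro r hr1 hr2
    obtain ⟨r', rfl⟩ := qX_surj r
    cases hus : usd (D.pr7 k f b (k - 1 - a)) (D.pr7 k f (b + 1) (k - 1 - a))
        (D.la7 k f b (k - 1 - a + 1)) (D.la7 k f b (k - 1 - a)) (qX r')
    · rfl
    · exact absurd (ho r' (fun h => hr1 (by rw [h])) (fun h => hr2 (by rw [h])))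
        ((hu r').1 hus)
  · have hXf : D.isX7 f = false := by simpa using hX
    have tv : ∀ x y, x ≤ k → y < k →
        (T.Vv k (fi f * k + x) (fj f * k + y)).ln = Helper55.UNF.Ln.z :=
      fun x y hx hy => PD.Vv_Yall hk2 (by rw [eX]; exact hXf) hi hx hy
    have th : ∀ x y, x < k → y ≤ k → T.Hv k (fi f * k + x) (fj f * k + y) ≠ El.e :=
      fun x y hx hy => PD.Hv_Y hk2 hi hj (by rw [eX]; exact hXf) hx hy
    have hu : ∀ r, usd (D.pr7 k f a b) (D.pr7 k f (a + 1) b)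
        (D.la7 k f a (b + 1)) (D.la7 k f a b) r = true ↔
        T.cEl k (fi f * k + a) (fj f * k + b) r ≠ El.o := by
      rw [pr7_Ue hf _ _ hX hU, pr7_Ue hf _ _ hX hU, la7_Ue hf _ _ hX hU, la7_Ue hf _ _ hX hU]
      intro r
      cases r
      · exact El.ie_iff (tv a b ha.le hb)
      · exact El.ie_iff (tv (a + 1) b ha hb)
      · exact El.ln_iff (th a (b + 1) ha hb)
      · exact El.ln_iff (th a b ha hb.le)
    have hv : ∀ r, prt (ψ f) (χ f) a b r ↔
        PD.cVal (D.hvp ψ χ k f) (D.vvp ψ χ k f) a b r := by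
      intro r
      unfold hvp vvp
      cases r
      · show ψ f a b ↔ if _ then _ else _
        rw [if_neg hX, if_pos hU]
      · show ψ f (a + 1) b ↔ if _ then _ else _
        rw [if_neg hX, if_pos hU]
      · show χ f a (b + 1) ↔ if _ then _ else _
        rw [if_neg hX, if_pos hU]
      · show χ f a b ↔ if _ then _ else _
        rw [if_neg hX, if_pos hU]
    rw [← hv, ← hv]
    apply two_sides hok hcell ha hb hpq ((hu p).2 hp) ((hu q).2 hq)
    intro r hr1 hr2
    cases hus : usd (D.pr7 k f a b) (D.pr7 k f (a + 1) b)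
        (D.la7 k f a (b + 1)) (D.la7 k f a b) r
    · rfl
    · exact absurd (ho r hr1 hr2) ((hu r).1 hus)
  · have hXf : D.isX7 f = false := by simpa using hX
    have tv : ∀ x y, x ≤ k → y < k →
        (T.Vv k (fi f * k + x) (fj f * k + y)).ln = Helper55.UNF.Ln.z :=
      fun x y hx hy => PD.Vv_Yall hk2 (by rw [eX]; exact hXf) hi hx hy
    have th : ∀ x y, x < k → y ≤ k → T.Hv k (fi f * k + x) (fj f * k + y) ≠ El.e :=
      fun x y hx hy => PD.Hv_Y hk2 hi hj (by rw [eX]; exact hXf) hx hy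
    have e1 : D.pr7 k f (k - 1 - a) (k - 1 - b) =
        (T.Vv k (fi f * k + a + 1) (fj f * k + b)).ie := by
      rw [pr7_Ve hf _ _ hX hU, show k - (k - 1 - a) = a + 1 by omega,
        show k - 1 - (k - 1 - b) = b by omega]; rfl
    have e2 : D.pr7 k f (k - 1 - a + 1) (k - 1 - b) =
        (T.Vv k (fi f * k + a) (fj f * k + b)).ie := by
      rw [pr7_Ve hf _ _ hX hU, show k - (k - 1 - a + 1) = a by omega,
        show k - 1 - (k - 1 - b) = b by omega]
    have e3 : D.la7 k f (k - 1 - a) (k - 1 - b + 1) =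
        (T.Hv k (fi f * k + a) (fj f * k + b)).ln := by
      rw [la7_Ve hf _ _ hX hU, show k - 1 - (k - 1 - a) = a by omega,
        show k - (k - 1 - b + 1) = b by omega]
    have e4 : D.la7 k f (k - 1 - a) (k - 1 - b) =
        (T.Hv k (fi f * k + a) (fj f * k + b + 1)).ln := by
      rw [la7_Ve hf _ _ hX hU, show k - 1 - (k - 1 - a) = a by omega,
        show k - (k - 1 - b) = b + 1 by omega]; rfl
    have hu : ∀ r, usd (D.pr7 k f (k - 1 - a) (k - 1 - b))
        (D.pr7 k f (k - 1 - a + 1) (k - 1 - b))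
        (D.la7 k f (k - 1 - a) (k - 1 - b + 1)) (D.la7 k f (k - 1 - a) (k - 1 - b))
        (rpt r) = true ↔ T.cEl k (fi f * k + a) (fj f * k + b) r ≠ El.o := by
      rw [e1, e2, e3, e4]
      intro r
      cases r
      · exact El.ie_iff (tv a b ha.le hb)
      · exact El.ie_iff (tv (a + 1) b ha hb)
      · exact El.ln_iff (th a (b + 1) ha hb)
      · exact El.ln_iff (th a b ha hb.le)
    have hv : ∀ r, prt (ψ f) (χ f) (k - 1 - a) (k - 1 - b) (rpt r) ↔
        PD.cVal (D.hvp ψ χ k f) (D.vvp ψ χ k f) a b r := by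
      intro r
      unfold hvp vvp
      cases r
      · show ψ f (k - 1 - a + 1) (k - 1 - b) ↔ if _ then _ else _
        rw [if_neg hX, if_neg hU, show k - 1 - a + 1 = k - a by omega]
      · show ψ f (k - 1 - a) (k - 1 - b) ↔ if _ then _ else _
        rw [if_neg hX, if_neg hU, show k - (a + 1) = k - 1 - a by omega]
      · show χ f (k - 1 - a) (k - 1 - b) ↔ if _ then _ else _
        rw [if_neg hX, if_neg hU, show k - (b + 1) = k - 1 - b by omega]
      · show χ f (k - 1 - a) (k - 1 - b + 1) ↔ if _ then _ else _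
        rw [if_neg hX, if_neg hU, show k - 1 - b + 1 = k - b by omega]
    rw [← hv, ← hv]
    apply two_sides hok hcell (by omega) (by omega) (rpt_ne p q hpq) ((hu p).2 hp) ((hu q).2 hq)
    intro r hr1 hr2
    obtain ⟨r', rfl⟩ := rpt_surj r
    cases hus : usd (D.pr7 k f (k - 1 - a) (k - 1 - b))
        (D.pr7 k f (k - 1 - a + 1) (k - 1 - b))
        (D.la7 k f (k - 1 - a) (k - 1 - b + 1)) (D.la7 k f (k - 1 - a) (k - 1 - b))
        (rpt r')
    · rfl
    · exact absurd (ho r' (fun h => hr1 (by rw [h])) (fun h => hr2 (by rw [h])))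
        ((hu r').1 hus)

end Deco

end Pool.Agent.MP42D
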