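import Pool.Agent.MP42.D.PL

/-!
# Piece W1: the values along a line and along a strip (part of piece W)
-/

set_option autoImplicit false
set_option linter.unusedSectionVars false

namespace Pool.Agent.MP42D

open Pool.Agent.Helper55.UNF Pool.Agent.Helper55.UNF.GridSolid Pool.Agent.MP42 Pool.Agent.MP42G

variable {P : GridSolid} (D : Deco P) (hM : P.IsManifold) (h3 : Deg3 P) {k B : ℕ} (hk : 62 ≤ k)
  (W : CV D k B)

/-- **W1a** -/
theorem exists_lv (x z : ℤ) :
    ∃ L : LV (D.K x z) k (fun y => onP P x y z), LV.Link W x z L := by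
  sorry

/-- **W1b** -/
theorem exists_fg (x z : ℤ) : Nonempty (FG W x z) := by
  sorry

/-- **W1b**: lanes along a whole strip; the full lanes -/
theorem strip_NW (d : Dart P) (h : D.NLW d.1 = true) :
    W.val d.1 (2 * k + 3) ↔ W.val (theta P d).1 (5 * k - 4) := by
  sorry

theorem strip_SW (d : Dart P) (h : D.SLW d.1 = true) :
    W.val d.1 (2 * k + 5) ↔ W.val (theta P d).1 (5 * k - 6) := by
  sorry

/-- **W1b**: the root lanes -/
theorem strip_r1 (d : Dart P) (h : D.rt1 d.1 = true) :
    W.val d.1 (3 * k + 3) ↔ W.val (theta P d).1 (4 * k - 4) := by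
  sorry

end Pool.Agent.MP42D
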