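import Pool.Agent.MP42.D.PL
import Pool.Agent.MP42.D.LeafE

/-!
# Piece W1a: the values along a line (part of piece W, owner helper83)
-/

set_option autoImplicit false
set_option linter.unusedSectionVars false

namespace Pool.Agent.MP42D

open Pool.Agent.Helper55.UNF Pool.Agent.Helper55.UNF.GridSolid Pool.Agent.MP42 Pool.Agent.MP42G

variable {P : GridSolid}

/-! ### The two states at a segment of a line -/

/-- the state on the B side of the segment `(x, y, z)` -/
def SB (x y z : ℤ) (s : P.FSt) : Prop := s.1.e = (1, true) ∧ Geo.nw s.1 = ![x, y, z]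

/-- the state on the A side of the segment `(x, y, z)` -/
def SA (x y z : ℤ) (s : P.FSt) : Prop := s.1.e = (1, false) ∧ Geo.ne s.1 = ![x, y, z]

variable {x y z : ℤ} {s t : P.FSt}

lemma dir_iff (a : Fin 3) (d : Dir) : (a, true) = d ↔ a = d.1 ∧ d.2 = true := by
  obtain ⟨d, b⟩ := d
  simp [Prod.ext_iff, eq_comm]

lemma ed_rL (s : P.FSt) (h : s.1.e = (1, true)) : Geo.ed s.rL.1 = Geo.nw s.1 := by
  funext a
  show s.1.c a + Geo.offE s.1.d s.1.n a = _
  unfold Geo.nw Geo.cnr Geo.offE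
  rw [h]
  simp only [dir_iff, opp, Bool.not_true, Bool.false_eq_true, and_false, false_or]
  have : s.1.n = cross s.1.d s.1.e := rfl
  rw [this, h]

lemma SB.uniq (hM : P.IsManifold) (hs : SB x y z s) (ht : SB x y z t) : s = t := by
  have h1 : s.rL = t.rL := by
    apply Geo.state_unique hM
    · show cross s.1.d (cross s.1.d s.1.e) = cross t.1.d (cross t.1.d t.1.e)
      rw [cross_cross _ _ s.2.2, cross_cross _ _ t.2.2, hs.1, ht.1]
    · rw [ed_rL s hs.1, ed_rL t ht.1, hs.2, ht.2]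
  have h2 := congrArg FSt.rR h1
  rwa [FSt.rL_rR, FSt.rL_rR] at h2

lemma SB.toSA (hs : SB x y z s) : SA x y z s.stN.r2 := by
  refine ⟨?_, ?_⟩
  · show opp s.stN.1.e = _
    rw [FSt.stN_e, hs.1]
    rfl
  · rw [ne_N]
    exact hs.2

lemma SA.toSB (hs : SA x y z s) : SB x y z s.stN.r2 := by
  refine ⟨?_, ?_⟩
  · show opp s.stN.1.e = _
    rw [FSt.stN_e, hs.1]
    rfl
  · rw [nw_N]
    exact hs.2

lemma NN (s : P.FSt) : s.stN.r2.stN.r2 = s := by
  rw [FSt.stN_inv, FSt.r2_r2]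

lemma SA.uniq (hM : P.IsManifold) (hs : SA x y z s) (ht : SA x y z t) : s = t := by
  have h1 := SB.uniq hM hs.toSB ht.toSB
  have h2 : s.stN.r2.stN.r2 = t.stN.r2.stN.r2 := by rw [h1]
  rwa [NN, NN] at h2

theorem exists_SB (h : onP P x y z = true) : ∃ s : P.FSt, SB x y z s := by
  by_cases c1 : bit P x y z true false = true ∧ bit P x y z true true = false
  · obtain ⟨h1, h2⟩ := c1
    unfold bit at h1 h2
    simp at h1 h2
    refine ⟨⟨⟨![x, y, z - 1], (2, true), (1, true)⟩, ⟨h1, ?_⟩, (by decide : (2 : Fin 3) ≠ 1)⟩, rfl, ?_⟩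
    · show shift ![x, y, z - 1] (2, true) ∉ P.cells
      rw [shift_z]
      simpa using h2
    · have hn : cross (2, true) (1, true) = (0, false) := by decide
      show Geo.cnr ![x, y, z - 1] (2, true) (opp (1, true)) (cross (2, true) (1, true)) = _
      rw [hn]
      funext a
      unfold Geo.cnr
      fin_cases a <;> simp [opp]
  by_cases c2 : bit P x y z false true = true ∧ bit P x y z false false = false
  · obtain ⟨h1, h2⟩ := c2
    unfold bit at h1 h2
    simp at h1 h2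
    refine ⟨⟨⟨![x - 1, y, z], (2, false), (1, true)⟩, ⟨h1, ?_⟩, (by decide : (2 : Fin 3) ≠ 1)⟩, rfl, ?_⟩
    · show shift ![x - 1, y, z] (2, false) ∉ P.cells
      rw [shift_z]
      simpa [sub_eq_add_neg] using h2
    · have hn : cross (2, false) (1, true) = (0, true) := by decide
      show Geo.cnr ![x - 1, y, z] (2, false) (opp (1, true)) (cross (2, false) (1, true)) = _
      rw [hn]
      funext a
      unfold Geo.cnr
      fin_cases a <;> simp [opp]
  by_cases c3 : bit P x y z false false = true ∧ bit P x y z true false = false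
  · obtain ⟨h1, h2⟩ := c3
    unfold bit at h1 h2
    simp at h1 h2
    refine ⟨⟨⟨![x - 1, y, z - 1], (0, true), (1, true)⟩, ⟨h1, ?_⟩, (by decide : (0 : Fin 3) ≠ 1)⟩, rfl, ?_⟩
    · show shift ![x - 1, y, z - 1] (0, true) ∉ P.cells
      rw [shift_x]
      simpa using h2
    · have hn : cross (0, true) (1, true) = (2, true) := by decide
      show Geo.cnr ![x - 1, y, z - 1] (0, true) (opp (1, true)) (cross (0, true) (1, true)) = _
      rw [hn]
      funext a
      unfold Geo.cnr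
      fin_cases a <;> simp [opp]
  by_cases c4 : bit P x y z true true = true ∧ bit P x y z false true = false
  · obtain ⟨h1, h2⟩ := c4
    unfold bit at h1 h2
    simp at h1 h2
    refine ⟨⟨⟨![x, y, z], (0, false), (1, true)⟩, ⟨h1, ?_⟩, (by decide : (0 : Fin 3) ≠ 1)⟩, rfl, ?_⟩
    · show shift ![x, y, z] (0, false) ∉ P.cells
      rw [shift_x]
      simpa [sub_eq_add_neg] using h2
    · have hn : cross (0, false) (1, true) = (2, false) := by decide
      show Geo.cnr ![x, y, z] (0, false) (opp (1, true)) (cross (0, false) (1, true)) = _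
      rw [hn]
      funext a
      unfold Geo.cnr
      fin_cases a <;> simp [opp]
  exfalso
  unfold onP Geo.onB at h
  revert h c1 c2 c3 c4
  generalize bit P x y z false false = a0
  generalize bit P x y z true false = b0
  generalize bit P x y z false true = c0
  generalize bit P x y z true true = d0
  revert a0 b0 c0 d0
  decide

theorem exists_SA (h : onP P x y z = true) : ∃ s : P.FSt, SA x y z s := by
  obtain ⟨s, hs⟩ := exists_SB h
  exact ⟨_, hs.toSA⟩

lemma SB.nw0 (hs : SB x y z s) : Geo.nw s.1 0 = x := by rw [hs.2]; rfl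
lemma SB.nw1 (hs : SB x y z s) : Geo.nw s.1 1 = y := by rw [hs.2]; rfl
lemma SB.nw2 (hs : SB x y z s) : Geo.nw s.1 2 = z := by rw [hs.2]; rfl

lemma two_axes (s : P.FSt) (h : s.1.e.1 = 1) : s.1.d.1 = 0 ∨ s.1.d.1 = 2 := by
  have h1 := s.2.2
  rw [h] at h1
  revert h1
  generalize s.1.d.1 = a
  revert a
  decide

lemma SB.on (hs : SB x y z s) : onP P x y z = true := by
  rcases two_axes s (by rw [hs.1]) with h | h
  · have := wall_bits s true h hs.1
    rw [hs.2] at this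
    exact wallU_on this
  · have := strip_bits s true h hs.1
    rw [hs.2] at this
    exact stripU_on this

lemma SB.wall (hs : SB x y z s) (h : bwP P x y z = true) : s.1.d.1 = 0 := by
  rcases two_axes s (by rw [hs.1]) with h1 | h1
  · exact h1
  · have := strip_bits s true h1 hs.1
    rw [hs.2] at this
    have h2 := stripU_bw this
    have h3 : bwP P x y z = false := h2
    rw [h] at h3
    exact absurd h3 (by decide)

lemma SB.plate (hs : SB x y z s) (h : bwP P x y z = false) : s.1.d.1 = 2 := by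
  rcases two_axes s (by rw [hs.1]) with h1 | h1
  · have := wall_bits s true h1 hs.1
    rw [hs.2] at this
    have h2 := wallU_bw this
    have h3 : bwP P x y z = true := h2
    rw [h] at h3
    exact absurd h3 (by decide)
  · exact h1

lemma SA.nw (hs : SA x y z s) : Geo.nw s.1 = ![x, y + 1, z] := by
  have h0 : s.1.d.1 ≠ 1 := by
    have := s.2.2
    rw [hs.1] at this
    exact this
  have hn : (cross s.1.d s.1.e).1 ≠ 1 := by
    have h1 := cross_axis_right _ _ s.2.2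
    rw [hs.1] at h1 ⊢
    exact h1
  funext a
  have h1 : Geo.ne s.1 a = Geo.nw s.1 a + (if a = 1 then (if false = true then 1 else -1) else 0) :=
    cnr_wall' s.1.c s.1.d s.1.e (cross s.1.d s.1.e) false h0 hs.1 hn a
  rw [hs.2] at h1
  fin_cases a
  · simp at h1 ⊢
    exact h1.symm
  · simp at h1 ⊢
    omega
  · simp at h1 ⊢
    exact h1.symm

lemma SA.wall (hs : SA x y z s) (h : awP P x y z = true) : s.1.d.1 = 0 := by
  rcases two_axes s (by rw [hs.1]) with h1 | h1
  · exact h1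
  · have := strip_bits s false h1 hs.1
    rw [hs.nw] at this
    simp only [Bool.false_eq_true, if_false] at this
    have h2 := stripU_aw this
    have h3 : awP P x y z = false := by
      have e : (![x, y + 1, z] : Fin 3 → ℤ) 1 - 1 = y := by simp
      rw [e] at h2
      exact h2
    rw [h] at h3
    exact absurd h3 (by decide)

lemma SA.plate (hs : SA x y z s) (h : awP P x y z = false) : s.1.d.1 = 2 := by
  rcases two_axes s (by rw [hs.1]) with h1 | h1
  · have := wall_bits s false h1 hs.1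
    rw [hs.nw] at this
    simp only [Bool.false_eq_true, if_false] at this
    have h2 := wallU_aw this
    have h3 : awP P x y z = true := by
      have e : (![x, y + 1, z] : Fin 3 → ℤ) 1 - 1 = y := by simp
      rw [e] at h2
      exact h2
    rw [h] at h3
    exact absurd h3 (by decide)
  · exact h1

lemma n_of_wall : ∀ d e : Dir, d.1 = 0 → e.1 = 1 → (cross d e).1 = 2 := by decide

lemma SB.isV (hs : SB x y z s) (h : bwP P x y z = true) : IsV s :=
  n_of_wall _ _ (hs.wall h) (by rw [hs.1])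

lemma SA.isV (hs : SA x y z s) (h : awP P x y z = true) : IsV s :=
  n_of_wall _ _ (hs.wall h) (by rw [hs.1])

/-! ### Steps along the line -/

lemma step_flat (hd : s.1.d = t.1.d) (he : s.1.e = t.1.e)
    (hc : ∀ a, Geo.nw t.1 a = Geo.nw s.1 a + (if a = s.1.e.1 then (if s.1.e.2 then 1 else -1) else 0)) :
    s.stE = t := by
  have hc' : t.1.c = shift s.1.c s.1.e := by
    funext a
    have h := hc a
    unfold Geo.nw Geo.cnr at h
    rw [← hd, ← he] at h
    rw [Geo.shift_eq]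
    omega
  apply FSt.ext'
  have h1 : s.stE.1 = s.1.stepE P := rfl
  rw [h1]
  unfold St.stepE
  rw [← hc', hd, he]
  have h2 : t.1.c ∈ P.cells := t.2.1.1
  have h3 : shift t.1.c t.1.d ∉ P.cells := t.2.1.2
  rw [if_neg h3, if_pos h2]

lemma strip8 : ∀ a0 b0 c0 d0 a1 b1 c1 d1 : Bool, Geo.goodB a0 b0 c0 d0 a1 b1 c1 d1 = true →
    Geo.onB a0 b0 c0 d0 = true → Geo.onB a1 b1 c1 d1 = true → ∀ b r r' : Bool,
    q4 r false a0 b0 c0 d0 = (b == r) → q4 r true a0 b0 c0 d0 = (b != r) →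
    q4 r' false a1 b1 c1 d1 = (b == r') → q4 r' true a1 b1 c1 d1 = (b != r') → r = r' := by
  decide

lemma wall8 : ∀ a0 b0 c0 d0 a1 b1 c1 d1 : Bool, Geo.goodB a0 b0 c0 d0 a1 b1 c1 d1 = true →
    Geo.onB a0 b0 c0 d0 = true → Geo.onB a1 b1 c1 d1 = true → ∀ b u u' : Bool,
    q4 false u a0 b0 c0 d0 = (b != u) → q4 true u a0 b0 c0 d0 = (b == u) →
    q4 false u' a1 b1 c1 d1 = (b != u') → q4 true u' a1 b1 c1 d1 = (b == u') → u = u' := by
  decide

lemma stripU_same (hM : P.IsManifold) (h3 : Deg3 P) {b r r' : Bool}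
    (h1 : stripU P x (y - 1) z r b) (h2 : stripU P x y z r' b) : r = r' := by
  have k1 := stripU_on h1
  have k2 := stripU_on h2
  obtain ⟨p1, p2⟩ := h1
  obtain ⟨q1, q2⟩ := h2
  rw [bit_q4] at p1 p2 q1 q2
  exact strip8 _ _ _ _ _ _ _ _ (good8 hM h3 x y z) k1 k2 b r r' p1 p2 q1 q2

lemma wallU_same (hM : P.IsManifold) (h3 : Deg3 P) {b u u' : Bool}
    (h1 : wallU P x (y - 1) z u b) (h2 : wallU P x y z u' b) : u = u' := by
  have k1 := wallU_on h1
  have k2 := wallU_on h2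
  obtain ⟨p1, p2⟩ := h1
  obtain ⟨q1, q2⟩ := h2
  rw [bit_q4] at p1 p2 q1 q2
  exact wall8 _ _ _ _ _ _ _ _ (good8 hM h3 x y z) k1 k2 b u u' p1 p2 q1 q2

lemma d_eq : ∀ d d' e : Dir, d.1 ≠ e.1 → d.1 = d'.1 → (cross d e).2 = (cross d' e).2 → d = d' := by
  decide

lemma SB.next (hM : P.IsManifold) (h3 : Deg3 P) (hs : SB x (y - 1) z s) (ht : SB x y z t)
    (h : bwP P x (y - 1) z = bwP P x y z) : s.stE = t := by
  have he : s.1.e = t.1.e := by rw [hs.1, ht.1]
  have hd : s.1.d = t.1.d := by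
    cases hb : bwP P x y z
    · rw [hb] at h
      have d1 := hs.plate h
      have d2 := ht.plate hb
      have k1 := strip_bits s true d1 hs.1
      have k2 := strip_bits t true d2 ht.1
      rw [hs.2] at k1
      rw [ht.2] at k2
      have k3 := stripU_same hM h3 (x := x) (y := y) (z := z) k1 k2
      have k4 : s.1.n.2 = t.1.n.2 := by simpa using k3
      apply d_eq _ _ _ s.2.2 (d1.trans d2.symm)
      have : (cross t.1.d s.1.e).2 = (cross t.1.d t.1.e).2 := by rw [he]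
      rw [this]
      exact k4
    · rw [hb] at h
      have d1 := hs.wall h
      have d2 := ht.wall hb
      have k1 := wall_bits s true d1 hs.1
      have k2 := wall_bits t true d2 ht.1
      rw [hs.2] at k1
      rw [ht.2] at k2
      have k3 := wallU_same hM h3 (x := x) (y := y) (z := z) k1 k2
      have k4 : s.1.n.2 = t.1.n.2 := by simpa using k3
      apply d_eq _ _ _ s.2.2 (d1.trans d2.symm)
      have : (cross t.1.d s.1.e).2 = (cross t.1.d t.1.e).2 := by rw [he]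
      rw [this]
      exact k4
  apply step_flat hd he
  intro a
  rw [hs.2, ht.2, hs.1]
  fin_cases a <;> simp

lemma SA.next (hM : P.IsManifold) (h3 : Deg3 P) (hs : SA x (y - 1) z s) (ht : SA x y z t)
    (h : awP P x (y - 1) z = awP P x y z) : t.stE = s := by
  have he : t.1.e = s.1.e := by rw [hs.1, ht.1]
  have e1 : (![x, y - 1 + 1, z] : Fin 3 → ℤ) 1 - 1 = y - 1 := by simp
  have e2 : (![x, y + 1, z] : Fin 3 → ℤ) 1 - 1 = y := by simp
  have hd : t.1.d = s.1.d := by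
    cases hb : awP P x y z
    · rw [hb] at h
      have d1 := hs.plate h
      have d2 := ht.plate hb
      have k1 := strip_bits s false d1 hs.1
      have k2 := strip_bits t false d2 ht.1
      rw [hs.nw] at k1
      rw [ht.nw] at k2
      simp only [Bool.false_eq_true, if_false] at k1 k2
      rw [e1] at k1
      rw [e2] at k2
      have k3 := stripU_same hM h3 (x := x) (y := y) (z := z) k1 k2
      have k4 : s.1.n.2 = t.1.n.2 := by simpa using k3
      apply d_eq _ _ _ t.2.2 (d2.trans d1.symm)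
      have : (cross s.1.d t.1.e).2 = (cross s.1.d s.1.e).2 := by rw [he]
      rw [this]
      exact k4.symm
    · rw [hb] at h
      have d1 := hs.wall h
      have d2 := ht.wall hb
      have k1 := wall_bits s false d1 hs.1
      have k2 := wall_bits t false d2 ht.1
      rw [hs.nw] at k1
      rw [ht.nw] at k2
      simp only [Bool.false_eq_true, if_false] at k1 k2
      rw [e1] at k1
      rw [e2] at k2
      have k3 := wallU_same hM h3 (x := x) (y := y) (z := z) k1 k2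
      have k4 : s.1.n.2 = t.1.n.2 := by simpa using k3
      apply d_eq _ _ _ t.2.2 (d2.trans d1.symm)
      have : (cross s.1.d t.1.e).2 = (cross s.1.d s.1.e).2 := by rw [he]
      rw [this]
      exact k4.symm
  apply step_flat hd he
  intro a
  rw [hs.nw, ht.nw, ht.1]
  fin_cases a <;> simp

/-! ### Plates along the line -/

lemma SB.exF (hs : SB x y z s) (h : bwP P x y z = false) : ∃ F : P.Facet, IsPl F ∧
    (bf F).rL = s ∧ Geo.nw (bf F).1 0 = x ∧ (bf F).1.c 1 = y ∧ Geo.nw (bf F).1 2 = z := by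
  have hF : IsPl s.facet := hs.plate h
  have hn : (bf s.facet).1.n = (1, true) := Deco0.e_aux1 _ hF
  have e1 : (bf s.facet).rL = s := by
    refine st_fe (show (bf s.facet).rL.facet = s.facet from rfl) ?_
    show (bf s.facet).1.n = s.1.e
    rw [hn, hs.1]
  have e2 := (plate_rLR (bf s.facet) hF hn).1
  rw [e1, hs.2] at e2
  refine ⟨s.facet, hF, e1, ?_, ?_, ?_⟩
  · exact (congrFun e2 0).symm
  · exact (congrFun e2 1).symm
  · exact (congrFun e2 2).symm

lemma SA.exF (hs : SA x y z s) (h : awP P x y z = false) : ∃ F : P.Facet, IsPl F ∧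
    (bf F).rR = s ∧ Geo.ne (bf F).1 0 = x ∧ (bf F).1.c 1 = y ∧ Geo.ne (bf F).1 2 = z := by
  have hF : IsPl s.facet := hs.plate h
  have hn : (bf s.facet).1.n = (1, true) := Deco0.e_aux1 _ hF
  have e1 : (bf s.facet).rR = s := by
    refine st_fe (show (bf s.facet).rR.facet = s.facet from rfl) ?_
    show opp (bf s.facet).1.n = s.1.e
    rw [hn, hs.1]
    rfl
  have e2 := (plate_rLR (bf s.facet) hF hn).2.1
  rw [e1, hs.2] at e2
  refine ⟨s.facet, hF, e1, ?_, ?_, ?_⟩
  · exact (congrFun e2 0).symm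
  · exact (congrFun e2 1).symm
  · exact (congrFun e2 2).symm

lemma SB_bf (F : P.Facet) (hF : IsPl F) :
    SB (Geo.nw (bf F).1 0) ((bf F).1.c 1) (Geo.nw (bf F).1 2) (bf F).rL := by
  have hn : (bf F).1.n = (1, true) := Deco0.e_aux1 _ hF
  exact ⟨hn, (plate_rLR (bf F) hF hn).1⟩

lemma SA_bf (F : P.Facet) (hF : IsPl F) :
    SA (Geo.ne (bf F).1 0) ((bf F).1.c 1) (Geo.ne (bf F).1 2) (bf F).rR := by
  have hn : (bf F).1.n = (1, true) := Deco0.e_aux1 _ hF
  refine ⟨?_, (plate_rLR (bf F) hF hn).2.1⟩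
  show opp (bf F).1.n = _
  rw [hn]
  rfl

lemma bf_rL_inj {F G : P.Facet} (h : (bf F).rL = (bf G).rL) : F = G := congrArg FSt.facet h
lemma bf_rR_inj {F G : P.Facet} (h : (bf F).rR = (bf G).rR) : F = G := congrArg FSt.facet h

/-! ### Letters on the sides -/

namespace PD

variable {τ : Type*} {D : PD τ} {k : ℕ}

lemma Vv_ne_B (hk : 20 ≤ k) {q : Fin 4} {Y : ℕ} (hY : Y < 7 * k)
    (h : D.KW.lnB k q D.y Y ≠ D.KW.lnB k q D.y (Y + 1)) : D.Vv k 0 Y ≠ El.o := by
  have hk0 : 0 < k := by omega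
  obtain ⟨j, t, hj, ht, rfl⟩ : ∃ j t, j < 7 ∧ t < k ∧ Y = j * k + t := by
    refine ⟨Y / k, Y % k, (Nat.div_lt_iff_lt_mul hk0).2 hY, Nat.mod_lt _ hk0, ?_⟩
    rw [Nat.mul_comm]
    exact (Nat.div_add_mod Y k).symm
  obtain ⟨e1, e2⟩ := div_mod ht (j := j)
  rw [KD.lnB_eq _ hk _ _ hj ht.le, Nat.add_assoc, KD.lnB_eq _ hk _ _ hj (by omega)] at h
  unfold Vv
  rw [e1, e2]
  have key : (D.KW.bB q D.y j = true ∧ D.KW.aB q D.y j = false ∧ t = nC q) ∨
      (D.KW.bB q D.y j = false ∧ D.KW.aB q D.y j = true ∧ t = sC q) := by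
    by_contra hc
    rw [not_or] at hc
    exact h (Lb_succ hc.1 hc.2).symm
  split_ifs with c1 c2 c3 c4 c5
  · decide
  · decide
  · decide
  · decide
  · decide
  · exfalso
    rcases key with ⟨k1, k2, k3⟩ | ⟨k1, k2, k3⟩
    · exact c1 ⟨q, by omega, k1, k2, k3⟩
    · exact c2 ⟨q, by omega, k1, k2, k3⟩

lemma Vv_ne_A (hk : 20 ≤ k) {q : Fin 4} {Y : ℕ} (hY : Y < 7 * k)
    (h : D.KE.lnA k q D.y Y ≠ D.KE.lnA k q D.y (Y + 1)) : D.Vv k (7 * k) Y ≠ El.o := by
  have hk0 : 0 < k := by omega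
  obtain ⟨j, t, hj, ht, rfl⟩ : ∃ j t, j < 7 ∧ t < k ∧ Y = j * k + t := by
    refine ⟨Y / k, Y % k, (Nat.div_lt_iff_lt_mul hk0).2 hY, Nat.mod_lt _ hk0, ?_⟩
    rw [Nat.mul_comm]
    exact (Nat.div_add_mod Y k).symm
  obtain ⟨e1, e2⟩ := div_mod ht (j := j)
  rw [KD.lnA_eq _ hk _ _ hj ht.le, Nat.add_assoc, KD.lnA_eq _ hk _ _ hj (by omega)] at h
  unfold Vv
  rw [e1, e2]
  have key : (D.KE.bA q D.y j = true ∧ D.KE.aA q D.y j = false ∧ t = sC q) ∨
      (D.KE.bA q D.y j = false ∧ D.KE.aA q D.y j = true ∧ t = nC q) := by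
    by_contra hc
    rw [not_or] at hc
    exact h (La_succ hc.1 hc.2).symm
  split_ifs with c1 c2 c3 c4 c5
  · decide
  · decide
  · decide
  · decide
  · decide
  · exfalso
    rcases key with ⟨k1, k2, k3⟩ | ⟨k1, k2, k3⟩
    · exact c4 ⟨q, by omega, k1, k2, k3⟩
    · exact c3 ⟨q, by omega, k1, k2, k3⟩

end PD

/-! ### The values -/

variable (D : Deco P) {k B : ℕ}

lemma SB.ev (hs : SB x y z s) (T : ℕ) : D.ev k s T = (D.K x z).kl k y T := by
  rw [D.ev_y k s (by rw [hs.1])]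
  unfold Deco0.Kw Deco0.sgY
  rw [hs.1, hs.nw0, hs.nw1, hs.nw2]
  rfl

lemma SA.ev (hs : SA x y z s) (T : ℕ) : D.ev k s T = (D.K x z).kl k y (7 * k - 1 - T) := by
  rw [D.ev_y k s (by rw [hs.1])]
  unfold Deco0.Kw Deco0.sgY
  rw [hs.1, hs.nw, hs.2]
  rfl

section

variable (hM : P.IsManifold) (h3 : Deg3 P) (hk : 62 ≤ k) (W : CV D k B)

include hM

lemma SA.val {W : CV D k B} (hs : SA x y z s) (ht : SB x y z t) {T : ℕ} (hT : T < 7 * k)
    (h : (D.K x z).kl k y T ≠ El.o) : W.val t T ↔ W.val s (7 * k - 1 - T) := by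
  have h1 : s.stN.r2 = t := SB.uniq hM hs.toSB ht
  have h2 := W.symm s (by rw [hs.1]; decide) (7 * k - 1 - T) (by omega) (by
    rw [hs.ev D, show 7 * k - 1 - (7 * k - 1 - T) = T by omega]
    exact h)
  rw [h1, show 7 * k - 1 - (7 * k - 1 - T) = T by omega] at h2
  exact h2

lemma eq_k (F : P.Facet) : (D.pd (bf F)).KW = D.Kw (bf F) := rfl

/-- the values of the tracks next to the line -/
lemma plate_N (h3 : Deg3 P) (hk : 62 ≤ k) {F G : P.Facet} (hF : IsPl F) (hG : IsPl G)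
    (hN : (bf F).stN = bf G) {X : ℕ} (hX : X < 7 * k)
    (h1 : (D.pd (bf F)).Hv k X (7 * k) ≠ El.o) (h2 : (D.pd (bf G)).Hv k X 0 ≠ El.o) :
    W.hv F X (7 * k) ↔ W.hv G X 0 := by
  have e1 := D.side_N hM h3 hk F hF hX
  have e2 := D.side_S hM h3 hk G hG hX
  rw [e1] at h1
  rw [e2] at h2
  rw [W.sN F hF X hX h1, W.sS G hG X hX h2, ← W.symm (bf F) (by
    rw [Deco.bf_e0 F hF]; decide) X hX h1, hN]

end

lemma Hv_west_e {τ : Type*} {E : PD τ} (hk : 62 ≤ k) {q : Fin 4} {Y : ℕ}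
    (h : E.KW.lnB k q E.y Y = true) : E.Hv k (dB q) Y = El.e := by
  unfold PD.Hv
  have := dB_le q
  rw [if_pos ⟨by omega, q, rfl, h⟩]

lemma Hv_east_e {τ : Type*} {E : PD τ} (hk : 62 ≤ k) {q : Fin 4} {Y : ℕ}
    (h : E.KE.lnA k q E.y Y = true) : E.Hv k (7 * k - 1 - dA q) Y = El.e := by
  unfold PD.Hv
  have := dA_le q
  rw [if_neg (by rintro ⟨h1, -⟩; omega), if_pos ⟨by omega, q, by omega, h⟩]

/-- **W1a** -/
theorem exists_lv' (hM : P.IsManifold) (h3 : Deg3 P) (hk : 62 ≤ k) (W : CV D k B) (x z : ℤ) :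
    ∃ L : LV (D.K x z) k (fun y => onP P x y z), LV.Link W x z L := by
  -- the data
  set lam : ℤ → ℕ → Prop := fun y T => ∃ s, SB x y z s ∧ W.val s T with hlam
  set pB : ℤ → ℕ → Fin 4 → Prop := fun y Y q => ∃ F : P.Facet, IsPl F ∧ SB x y z (bf F).rL ∧
    W.hv F (dB q) Y with hpB
  set pA : ℤ → ℕ → Fin 4 → Prop := fun y Y q => ∃ F : P.Facet, IsPl F ∧ SA x y z (bf F).rR ∧
    W.hv F (7 * k - 1 - dA q) Y with hpA
  set cB : ℤ → ℕ → ℕ → Prop := fun y T m => ∃ s, SB x y z s ∧ W.cs s T m with hcB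
  set cA : ℤ → ℕ → ℕ → Prop := fun y T m => ∃ s, SA x y z s ∧ W.cs s (7 * k - T) m with hcA
  have lam_eq : ∀ {y s}, SB x y z s → ∀ T, lam y T ↔ W.val s T := by
    intro y s hs T
    constructor
    · rintro ⟨t, ht, h⟩
      rwa [SB.uniq hM hs ht]
    · intro h
      exact ⟨s, hs, h⟩
  have pB_eq : ∀ {y F}, IsPl F → SB x y z (bf F).rL → ∀ Y q, pB y Y q ↔ W.hv F (dB q) Y := by
    intro y F hF hs Y q
    constructor
    · rintro ⟨G, -, ht, h⟩
      rwa [bf_rL_inj (SB.uniq hM hs ht)]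
    · intro h
      exact ⟨F, hF, hs, h⟩
  have pA_eq : ∀ {y F}, IsPl F → SA x y z (bf F).rR → ∀ Y q,
      pA y Y q ↔ W.hv F (7 * k - 1 - dA q) Y := by
    intro y F hF hs Y q
    constructor
    · rintro ⟨G, -, ht, h⟩
      rwa [bf_rR_inj (SA.uniq hM hs ht)]
    · intro h
      exact ⟨F, hF, hs, h⟩
  have cB_eq : ∀ {y s}, SB x y z s → ∀ T, cB y T = W.cs s T := by
    intro y s hs T
    funext m
    apply propext
    constructor
    · rintro ⟨t, ht, h⟩
      rwa [SB.uniq hM hs ht]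
    · intro h
      exact ⟨s, hs, h⟩
  have cA_eq : ∀ {y s}, SA x y z s → ∀ T, cA y T = W.cs s (7 * k - T) := by
    intro y s hs T
    funext m
    apply propext
    constructor
    · rintro ⟨t, ht, h⟩
      rwa [SA.uniq hM hs ht]
    · intro h
      exact ⟨s, hs, h⟩
  -- plates
  have plB : ∀ {y}, onP P x y z = true → (D.K x z).bw y = false → ∃ F, IsPl F ∧
      SB x y z (bf F).rL ∧ (D.pd (bf F)).KW = D.K x z ∧ (D.pd (bf F)).y = y := by
    intro y h1 h2
    rw [D.bw_eq] at h2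
    obtain ⟨s, hs⟩ := exists_SB h1
    obtain ⟨F, hF, e1, e2, e3, e4⟩ := hs.exF h2
    refine ⟨F, hF, by rw [e1]; exact hs, ?_, e3⟩
    show D.K (Geo.nw (bf F).1 0) (Geo.nw (bf F).1 2) = _
    rw [e2, e4]
  have plA : ∀ {y}, onP P x y z = true → (D.K x z).aw y = false → ∃ F, IsPl F ∧
      SA x y z (bf F).rR ∧ (D.pd (bf F)).KE = D.K x z ∧ (D.pd (bf F)).y = y := by
    intro y h1 h2
    rw [D.aw_eq] at h2
    obtain ⟨s, hs⟩ := exists_SA h1
    obtain ⟨F, hF, e1, e2, e3, e4⟩ := hs.exF h2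
    refine ⟨F, hF, by rw [e1]; exact hs, ?_, e3⟩
    show D.K (Geo.ne (bf F).1 0) (Geo.ne (bf F).1 2) = _
    rw [e2, e4]
  -- the letters on the west side of a plate
  have lamB : ∀ {y F}, IsPl F → SB x y z (bf F).rL → ∀ {Y}, Y < 7 * k →
      (D.pd (bf F)).Vv k 0 Y ≠ El.o → (W.vv F 0 Y ↔ lam y Y) := by
    intro y F hF hs Y hY h
    rw [D.side_W hM h3 hk F hF hY] at h
    rw [W.sW F hF Y hY h, lam_eq hs]
  have lamA : ∀ {y F}, IsPl F → SA x y z (bf F).rR → ∀ {Y}, Y < 7 * k →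
      (D.pd (bf F)).Vv k (7 * k) Y ≠ El.o → (W.vv F (7 * k) Y ↔ lam y Y) := by
    intro y F hF hs Y hY h
    rw [D.side_E hM h3 hk F hF hY] at h
    rw [W.sE F hF Y hY h, lam_eq hs.toSB, hs.val D hM hs.toSB hY]
    rw [hs.ev D, show 7 * k - 1 - (7 * k - 1 - Y) = Y by omega] at h
    exact h
  refine ⟨{
    lam := lam
    pB := pB
    pA := pA
    cB := cB
    cA := cA
    pB_c := ?_
    pB_o := ?_
    pB_i := ?_
    pB_n := ?_
    pA_c := ?_
    pA_o := ?_
    pA_i := ?_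
    pA_n := ?_
    cB_z := ?_
    cB_n := ?_
    cB_s := ?_
    cB_1 := ?_
    cA_z := ?_
    cA_n := ?_
    cA_s := ?_
    cA_1 := ?_ }, ?_⟩
  · intro y h1 h2 q Y hY h4 h5
    obtain ⟨F, hF, hs, e1, e2⟩ := plB h1 h2
    rw [pB_eq hF hs, pB_eq hF hs]
    exact PD.Rel.trB (D.pd_ok hM F hF) (by omega) (W.cell F hF) hY (by rw [e1, e2]; exact h4)
      (by rw [e1, e2]; exact h5)
  · intro y h1 h2 q Y hY h4 h5
    obtain ⟨F, hF, hs, e1, e2⟩ := plB h1 h2
    rw [← e1, ← e2] at h4 h5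
    rw [pB_eq hF hs, ← lamB hF hs hY (PD.Vv_ne_B (by omega) hY (q := q) (by rw [h4, h5]; decide))]
    exact PD.Rel.outB (D.pd_ok hM F hF) (by omega) (W.cell F hF) hY h4 h5
  · intro y h1 h2 q Y hY h4 h5
    obtain ⟨F, hF, hs, e1, e2⟩ := plB h1 h2
    rw [← e1, ← e2] at h4 h5
    rw [pB_eq hF hs, ← lamB hF hs hY (PD.Vv_ne_B (by omega) hY (q := q) (by rw [h4, h5]; decide))]
    exact PD.Rel.inB (D.pd_ok hM F hF) (by omega) (W.cell F hF) hY h4 h5
  · intro y h0 h1 h2 h2' q h4 h5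
    obtain ⟨F, hF, hs, e1, e2⟩ := plB h0 h2
    obtain ⟨G, hG, ht, f1, f2⟩ := plB h1 h2'
    rw [pB_eq hF hs, pB_eq hG ht]
    have hx := SB.next hM h3 hs ht (by rw [← D.bw_eq, ← D.bw_eq, h2, h2'])
    have hN : (bf F).stN = bf G := by
      show (bf F).rL.stE.rR = _
      rw [hx, FSt.rL_rR]
    have := dB_le q
    apply plate_N D hM W h3 hk hF hG hN (by omega)
    · rw [Hv_west_e hk]
      · decide
      · rw [e1, e2, lnB_top _ hk, sub_add_cancel, h4, h5]
        rfl
    · rw [Hv_west_e hk]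
      · decide
      · rw [f1, f2, lnB_bot _ hk, h4, h5]
        rfl
  · intro y h1 h2 q Y hY h4 h5
    obtain ⟨F, hF, hs, e1, e2⟩ := plA h1 h2
    rw [pA_eq hF hs, pA_eq hF hs]
    exact PD.Rel.trA (D.pd_ok hM F hF) (by omega) (W.cell F hF) hY (by rw [e1, e2]; exact h4)
      (by rw [e1, e2]; exact h5)
  · intro y h1 h2 q Y hY h4 h5
    obtain ⟨F, hF, hs, e1, e2⟩ := plA h1 h2
    rw [← e1, ← e2] at h4 h5
    rw [pA_eq hF hs, ← lamA hF hs hY (PD.Vv_ne_A (by omega) hY (q := q) (by rw [h4, h5]; decide))]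
    exact PD.Rel.outA (D.pd_ok hM F hF) (by omega) (W.cell F hF) hY h4 h5
  · intro y h1 h2 q Y hY h4 h5
    obtain ⟨F, hF, hs, e1, e2⟩ := plA h1 h2
    rw [← e1, ← e2] at h4 h5
    rw [pA_eq hF hs, ← lamA hF hs hY (PD.Vv_ne_A (by omega) hY (q := q) (by rw [h4, h5]; decide))]
    exact PD.Rel.inA (D.pd_ok hM F hF) (by omega) (W.cell F hF) hY h4 h5
  · intro y h0 h1 h2 h2' q h4 h5
    obtain ⟨F, hF, hs, e1, e2⟩ := plA h0 h2
    obtain ⟨G, hG, ht, f1, f2⟩ := plA h1 h2'
    rw [pA_eq hF hs, pA_eq hG ht]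
    have hx := SA.next hM h3 hs ht (by rw [← D.aw_eq, ← D.aw_eq, h2, h2'])
    have hN : (bf F).stN = bf G := by
      have e : (bf G).r2.stN = (bf F).r2 := by
        show (bf G).r2.rL.stE.rR = _
        rw [FSt.r2_rL, hx, FSt.rR_rR]
      have e' := FSt.stN_inv (bf G).r2
      rw [e, FSt.r2_r2, FSt.r2_r2] at e'
      exact e'
    have := dA_le q
    apply plate_N D hM W h3 hk hF hG hN (by omega)
    · rw [Hv_east_e hk]
      · decide
      · rw [e1, e2, lnA_top _ hk, sub_add_cancel, h4, h5]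
        rfl
    · rw [Hv_east_e hk]
      · decide
      · rw [f1, f2, lnA_bot _ hk, h4, h5]
        rfl
  · intro y h1 T hT h2
    obtain ⟨s, hs⟩ := exists_SB ((D.ok x z).bw_on y h1)
    rw [D.bw_eq] at h1
    rw [cB_eq hs, cB_eq hs]
    exact (W.cs_z s (hs.isV h1) T hT (by rw [hs.ev D]; exact h2)).symm
  · intro y h1 T hT h2
    obtain ⟨s, hs⟩ := exists_SB ((D.ok x z).bw_on y h1)
    rw [D.bw_eq] at h1
    rw [cB_eq hs, cB_eq hs, propext (lam_eq hs T)]
    exact W.cs_n s (hs.isV h1) T hT (by rw [hs.ev D]; exact h2)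
  · intro y h1 T hT h2
    obtain ⟨s, hs⟩ := exists_SB ((D.ok x z).bw_on y h1)
    rw [D.bw_eq] at h1
    rw [cB_eq hs, cB_eq hs, propext (lam_eq hs T)]
    exact W.cs_s s (hs.isV h1) T hT (by rw [hs.ev D]; exact h2)
  · intro y h1 h2
    obtain ⟨s, hs⟩ := exists_SB ((D.ok x z).bw_on _ h1)
    obtain ⟨t, ht⟩ := exists_SB ((D.ok x z).bw_on _ h2)
    rw [D.bw_eq] at h1 h2
    rw [cB_eq hs, cB_eq ht, ← SB.next hM h3 hs ht (h1.trans h2.symm)]
    exact (W.cs_E s (hs.isV h1)).symm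
  · intro y h1 T hT h2
    obtain ⟨s, hs⟩ := exists_SA ((D.ok x z).aw_on y h1)
    rw [D.aw_eq] at h1
    have h := W.cs_z s (hs.isV h1) (7 * k - 1 - T) (by omega) (by
      rw [hs.ev D, show 7 * k - 1 - (7 * k - 1 - T) = T by omega]; exact h2)
    rw [cA_eq hs, cA_eq hs]
    rw [show 7 * k - (T + 1) = 7 * k - 1 - T by omega, h]
    congr 1
    omega
  · intro y h1 T hT h2
    obtain ⟨s, hs⟩ := exists_SA ((D.ok x z).aw_on y h1)
    rw [D.aw_eq] at h1
    have h := W.cs_n s (hs.isV h1) (7 * k - 1 - T) (by omega) (by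
      rw [hs.ev D, show 7 * k - 1 - (7 * k - 1 - T) = T by omega]; exact h2)
    have hv := (lam_eq hs.toSB T).trans (hs.val D hM hs.toSB hT (by rw [h2]; decide))
    rw [cA_eq hs, cA_eq hs, propext hv]
    rw [show 7 * k - (T + 1) = 7 * k - 1 - T by omega, h]
    congr 2
    omega
  · intro y h1 T hT h2
    obtain ⟨s, hs⟩ := exists_SA ((D.ok x z).aw_on y h1)
    rw [D.aw_eq] at h1
    have h := W.cs_s s (hs.isV h1) (7 * k - 1 - T) (by omega) (by
      rw [hs.ev D, show 7 * k - 1 - (7 * k - 1 - T) = T by omega]; exact h2)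
    have hv := (lam_eq hs.toSB T).trans (hs.val D hM hs.toSB hT (by rw [h2]; decide))
    rw [cA_eq hs, cA_eq hs, propext hv]
    rw [show 7 * k - (T + 1) = 7 * k - 1 - T by omega, ← h]
    congr 1
    omega
  · intro y h1 h2
    obtain ⟨s, hs⟩ := exists_SA ((D.ok x z).aw_on _ h1)
    obtain ⟨t, ht⟩ := exists_SA ((D.ok x z).aw_on _ h2)
    rw [D.aw_eq] at h1 h2
    rw [cA_eq hs, cA_eq ht, ← SA.next hM h3 hs ht (h1.trans h2.symm), Nat.sub_self, Nat.sub_zero]
    exact W.cs_E t (ht.isV h2)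
  · have mkB : ∀ s : P.FSt, s.1.e = (1, true) → Geo.nw s.1 0 = x → Geo.nw s.1 2 = z →
        SB x (Geo.nw s.1 1) z s := by
      intro s h1 h2 h4
      refine ⟨h1, ?_⟩
      rw [← h2, ← h4]
      exact cell3 _
    have mkA : ∀ s : P.FSt, s.1.e = (1, false) → Geo.ne s.1 0 = x → Geo.ne s.1 2 = z →
        SA x (Geo.ne s.1 1) z s := by
      intro s h1 h2 h4
      refine ⟨h1, ?_⟩
      rw [← h2, ← h4]
      exact cell3 _
    exact
      { lam := fun s h1 h2 h4 T _ _ => lam_eq (mkB s h1 h2 h4) T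
        cB := fun s _ h1 h2 h4 T _ => cB_eq (mkB s h1 h2 h4) T
        cA := fun s _ h1 h2 h4 T _ => cA_eq (mkA s h1 h2 h4) T
        pB := by
          intro F hF h1 h2 Y _ q
          have := SB_bf F hF
          rw [h1, h2] at this
          exact pB_eq hF this Y q
        pA := by
          intro F hF h1 h2 Y _ q
          have := SA_bf F hF
          rw [h1, h2] at this
          exact pA_eq hF this Y q }

end Pool.Agent.MP42D
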