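import Pool.Agent.MP42.D.W4Defs

/-!
# Piece W4: from the values of the corners to all values (statements; captain helper89)

`W4b` (exists_good) is helper89's (corner words, gap lemma).

`W4c` (line_vals): `t` is the state on the B side of the segment `y` of the line, `jv V t` is the
value of the junction there.  Hints: (1) `jv V` is the same at `y - 1` and `y` if both segments are
on (`K.ev`; the side without an event is flat: `SB.next` / `SA.next`, `jv_symm'`, W5).  (2) Every
track has a letter in a corner word: go down to its first segment `y0`; `K.start`: an A wall ends at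
`y0` (letter `clA (yu κ)` of the A corner `κ` with `yu κ = y0`) or a B wall ends (letter
`opB (yw κ)` of the B corner with `yw κ = y0`); corners of walls: `W5.wall_step`, `Wk`.  Single
letters: `ct y` is part of `xw` of the corner of the wall.  Lanes: `fN` goes down along the A side
to the lower end `yu κ` of the strip (letter `isUp κ && fN (yu κ)`), `fS` down along the B side to
`yw κ` (`isUp (phi κ) && fS (yw κ)`), `gS` up along the A side to `yw κ`
(`isDn (phi κ) && gS (yw κ)`), `gN` up along the B side to `yu κ` (`isDn κ && gN (yu κ)`).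

`W4d` (val_x): states with east `± x` (walls and plates); `W4e` (val_y): states with east `± y`;
`W4f` (all_vals).
Hints for `val_x`: the cases of `ev`: full lanes and root lanes: along the strip to the dart `e1 s`
(`Rel.wN` ..., `symm`, `sN`, `sS`); there it is a letter of `rw (phi.symm (e1 s))` (`vN`, `vS`) or
`Good.r1`, `Good.r2`; at the far end: the strip lemmas W1b; lanes of bumps and valleys: `FG.wn`,
`FG.en`, then `line_vals`; tracks `wT`, `eT`: plate: `Link.pB`, `Link.pA` and `vB`, `vA`, `p0`, `p7`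
of LineW; wall: `symm` to the plate at `s.stN`.
Hints for `val_y`: `ev = kl` (`SB.ev`, `SA.ev`), `Link.lam`, letters: `LV.letter`; `El.e`: bump and
valley: `Rel.bpW`, `vlW`, `bpE`, `vlE` on the plates, then `FG.wn` / `en`.
Hint for `all_vals`: `Rel.all`, `Hv_side` / `Vv_zero'` / `Vv_end'` (TableP), `sN`, `sS`, `sW`, `sE`.
-/

set_option autoImplicit false
set_option linter.unusedSectionVars false

namespace Pool.Agent.MP42D

open Pool.Agent.Helper55.UNF Pool.Agent.Helper55.UNF.GridSolid Pool.Agent.MP42 Pool.Agent.MP42G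

variable {P : GridSolid} {D : Deco P} {k B : ℕ} {W : CV D k B}

variable (hM : P.IsManifold) (h3 : Deg3 P) (hk : 62 ≤ k) (T : LD W)

include hM h3

/-- W4b (helper89) -/
theorem exists_good : ∃ V, Good T hk V := by
  sorry

variable {V : Dart P → Prop} (G : Good T hk V)

include G

/-- W4c: the values along a line -/
theorem line_vals {x y z : ℤ} {t : P.FSt} (ht : SB x y z t) :
    (∀ s, (D.K x z).M s y = true → ((T.L x z).mv s y ↔ jv V t)) ∧
    (∀ s, ((D.K x z).cn s y = true ∨ (D.K x z).cs s y = true) → ((T.L x z).cv s y ↔ jv V t)) ∧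
    ((D.K x z).aw y = false → ((D.K x z).fN y = true → ((T.F x z).fN y ↔ jv V t)) ∧
      ((D.K x z).fN (y + 1) = true → ((T.F x z).fN (y + 1) ↔ jv V t)) ∧
      ((D.K x z).gS y = true → ((T.F x z).gS y ↔ jv V t)) ∧
      ((D.K x z).gS (y + 1) = true → ((T.F x z).gS (y + 1) ↔ jv V t))) ∧
    ((D.K x z).bw y = false → ((D.K x z).fS y = true → ((T.F x z).fS y ↔ jv V t)) ∧
      ((D.K x z).fS (y + 1) = true → ((T.F x z).fS (y + 1) ↔ jv V t)) ∧
      ((D.K x z).gN y = true → ((T.F x z).gN y ↔ jv V t)) ∧
      ((D.K x z).gN (y + 1) = true → ((T.F x z).gN (y + 1) ↔ jv V t))) := by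
  sorry

/-- W4d: states with east `± x` -/
theorem val_x (s : P.FSt) (hs : s.1.e.1 = 0) {X : ℕ} (hX : X < 7 * k) (h : D.ev k s X ≠ El.o) :
    W.val s X ↔ jv V s := by
  sorry

/-- W4e: states with east `± y` -/
theorem val_y (s : P.FSt) (hs : s.1.e.1 = 1) {X : ℕ} (hX : X < 7 * k) (h : D.ev k s X ≠ El.o) :
    W.val s X ↔ jv V s := by
  sorry

/-- W4f: walls and plates -/
theorem all_vals :
    (∀ s : P.FSt, IsV s → ∀ X < 7 * k, D.ev k s X ≠ El.o → (W.val s X ↔ jv V s)) ∧
    (∀ F : P.Facet, IsPl F →
      (∀ X Y, X < 7 * k → Y ≤ 7 * k → (D.pd (bf F)).Hv k X Y ≠ El.o →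
        (W.hv F X Y ↔ jv V (bf F))) ∧
      (∀ X Y, X ≤ 7 * k → Y < 7 * k → (D.pd (bf F)).Vv k X Y ≠ El.o →
        (W.vv F X Y ↔ jv V (bf F)))) := by
  sorry

end Pool.Agent.MP42D
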