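import Pool.Agent.MP42.D.W5b

/-!
# Piece W5: back to the junction certificate (part of piece W)
-/

set_option autoImplicit false
set_option linter.unusedSectionVars false

namespace Pool.Agent.MP42D

open Pool.Agent.Helper55.UNF Pool.Agent.Helper55.UNF.GridSolid Pool.Agent.MP42 Pool.Agent.MP42G

variable {P : GridSolid}

/-- **W5a**: the value of the junction is the same on both sides of an edge -/
theorem jv_symm (hM : P.IsManifold) (h3 : Deg3 P) {V : Dart P → Prop}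
    (h1 : ∀ d, V (phi P d) ↔ V d) (h2 : ∀ d, V (theta P d) ↔ V d) (s : P.FSt) (hs : s.1.e.1 ≠ 2) :
    jv V s.stN.r2 ↔ jv V s :=
  have _ := h3
  jv_symm' hM h1 h2 s hs

/-- **W5b** -/
theorem constJ_of (D : Deco P) (hM : P.IsManifold) (h3 : Deg3 P) {k B : ℕ} (hk : 62 ≤ k)
    {W : CV D k B} {ψ χ : (P.refine 7 Deco0.h7).Facet → ℕ → ℕ → Prop} (hB : Back W ψ χ)
    {V : Dart P → Prop} (h1 : ∀ d, V (phi P d) ↔ V d) (h2 : ∀ d, V (theta P d) ↔ V d)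
    (hw : ∀ s : P.FSt, IsV s → ∀ X < 7 * k, D.ev k s X ≠ El.o → (W.val s X ↔ jv V s))
    (hp : ∀ F : P.Facet, IsPl F →
      (∀ X Y, X < 7 * k → Y ≤ 7 * k → (D.pd (bf F)).Hv k X Y ≠ El.o → (W.hv F X Y ↔ jv V (bf F))) ∧
      (∀ X Y, X ≤ 7 * k → Y < 7 * k → (D.pd (bf F)).Vv k X Y ≠ El.o → (W.vv F X Y ↔ jv V (bf F)))) :
    ∃ Q, (D.jc hM h3 hk).ConstJ ψ χ Q :=
  constJ_of' D hM h3 hk hB h1 h2 hw hp

end Pool.Agent.MP42D
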