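import Pool.Agent.MP42.D.LineC
import Pool.Agent.MP42.D.W1a
import Pool.Agent.MP42.D.W5

/-!
# Piece W4: interface (captain helper89)

`LD W`: the values along all lines.  `Good T V`: all letters of the corners and the root letters
have the value of the junction `V`.
-/

set_option autoImplicit false
set_option linter.unusedSectionVars false

namespace Pool.Agent.MP42D

open Pool.Agent.Helper55.UNF Pool.Agent.Helper55.UNF.GridSolid Pool.Agent.MP42 Pool.Agent.MP42G

variable {P : GridSolid} {D : Deco P} {k B : ℕ}

/-- the values along all lines -/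
structure LD (W : CV D k B) where
  L : ∀ x z : ℤ, LV (D.K x z) k (fun y => onP P x y z)
  lk : ∀ x z, LV.Link W x z (L x z)
  F : ∀ x z, FG W x z

/-- the values of the strands of the decoration -/
noncomputable def LD.vals {W : CV D k B} (T : LD W) (hk : 62 ≤ k) : D.toDeco0.Vals where
  V x z :=
    { M := fun s y => (T.L x z).mv s y
      C := fun s y => (T.L x z).cv s y
      fN := (T.F x z).fN
      fS := (T.F x z).fS
      gS := (T.F x z).gS
      gN := (T.F x z).gN
      M_st := fun s y h1 h2 => by
        rw [(T.L x z).mv_st (D.ok x z) (by omega) h1 h2]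
      fN_st := (T.F x z).fN_st
      fS_st := (T.F x z).fS_st
      gS_st := (T.F x z).gS_st
      gN_st := (T.F x z).gN_st
      bp := (T.F x z).bp
      vl := (T.F x z).vl }
  vN := fun κ => W.val (phi P κ).1 (2 * k + 3)
  vS := fun κ => W.val (phi P κ).1 (2 * k + 5)

/-- all letters have the value of the junction -/
structure Good {W : CV D k B} (T : LD W) (hk : 62 ≤ k) (V : Dart P → Prop) : Prop where
  phi : ∀ d, V (phi P d) ↔ V d
  theta : ∀ d, V (theta P d) ↔ V d
  rw : ∀ κ b t x, (b, t, x) ∈ (T.vals hk).rw κ → (x ↔ V κ)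
  r1 : ∀ d : Dart P, D.rt1 d.1 = true → (W.val d.1 (3 * k + 3) ↔ V d)
  r2 : ∀ d : Dart P, D.rt2 d.1 = true → (W.val d.1 (4 * k - 4) ↔ V d)

end Pool.Agent.MP42D
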