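import Pool.Agent.MP42.D.W4Defs

/-!
# Piece W4a: the action of the corner words on the stacks of the rims (owner helper89)
-/

set_option autoImplicit false
set_option linter.unusedSectionVars false

namespace Pool.Agent.MP42D

open Pool.Agent.Helper55.UNF Pool.Agent.Helper55.UNF.GridSolid Pool.Agent.MP42 Pool.Agent.MP42G

variable {P : GridSolid} {D : Deco P} {k B : ℕ} {W : CV D k B}

/-- the lanes along whole strips (W1b) -/
structure Strips (W : CV D k B) : Prop where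
  NW : ∀ d : Dart P, D.NLW d.1 = true →
    (W.val d.1 (2 * k + 3) ↔ W.val (theta P d).1 (5 * k - 4))
  SW : ∀ d : Dart P, D.SLW d.1 = true →
    (W.val d.1 (2 * k + 5) ↔ W.val (theta P d).1 (5 * k - 6))
  r1 : ∀ d : Dart P, D.rt1 d.1 = true →
    (W.val d.1 (3 * k + 3) ↔ W.val (theta P d).1 (4 * k - 4))

namespace W4

/-! ### walls with east `± x` -/

lemma cs_const {s : P.FSt} (hs : IsV s) {a b : ℕ} (hab : a ≤ b) (hb : b ≤ 7 * k)
    (h : ∀ X, a ≤ X → X < b → (D.ev k s X).ln = Helper55.UNF.Ln.z) : W.cs s a = W.cs s b := by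
  induction b, hab using Nat.le_induction with
  | base => rfl
  | succ b hab ih =>
    rw [ih (by omega) (fun X h1 h2 => h X h1 (by omega))]
    exact W.cs_z s hs b (by omega) (h b hab (by omega))

lemma act_opt_n {τ : Type*} {b : Bool} {t : τ} {v : Prop} {c c' : ℕ → Prop}
    (h1 : b = true → c' = psh v c) (h2 : b = false → c' = c) : Act (opt b (true, t, v)) c c' := by
  cases b
  · exact (h2 rfl).symm
  · exact (h1 rfl).symm

lemma act_opt_s {τ : Type*} {b : Bool} {t : τ} {v : Prop} {c c' : ℕ → Prop}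
    (h1 : b = true → c = psh v c') (h2 : b = false → c' = c) : Act (opt b (false, t, v)) c c' := by
  cases b
  · exact (h2 rfl).symm
  · exact ⟨c', h1 rfl, rfl⟩

lemma ln_e : (El.e).ln = Helper55.UNF.Ln.z := rfl
lemma ln_o : (El.o).ln = Helper55.UNF.Ln.z := rfl

lemma ev_lo (hk : 62 ≤ k) {s : P.FSt} (he : s.1.e.1 = 0) {X : ℕ} (hX : X < 3 * k) :
    (X = 2 * k + 3 → D.wN s = true → D.ev k s X = El.n) ∧
    (X = 2 * k + 5 → D.wS s = true → D.ev k s X = El.s) ∧
    ((X = 2 * k + 3 → D.wN s = false) → (X = 2 * k + 5 → D.wS s = false) →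
      (D.ev k s X).ln = Helper55.UNF.Ln.z) := by
  rw [D.ev_x k s he]
  unfold F7
  refine ⟨?_, ?_, ?_⟩
  · intro h1 h2
    rw [if_pos ⟨h1, h2⟩]
  · intro h1 h2
    rw [if_neg (by omega), if_pos ⟨h1, h2⟩]
  · intro h1 h2
    rw [if_neg (by rintro ⟨a, b⟩; rw [h1 a] at b; exact absurd b (by decide)),
      if_neg (by rintro ⟨a, b⟩; rw [h2 a] at b; exact absurd b (by decide)),
      if_neg (by omega), if_neg (by omega), if_neg (by omega)]
    split_ifs <;> rfl

lemma ev_hi (hk : 62 ≤ k) {s : P.FSt} (he : s.1.e.1 = 0) {X : ℕ} (hX : 4 * k ≤ X) :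
    (X + 4 = 5 * k → D.eN s = true → D.ev k s X = El.n) ∧
    (X + 6 = 5 * k → D.eS s = true → D.ev k s X = El.s) ∧
    ((X + 4 = 5 * k → D.eN s = false) → (X + 6 = 5 * k → D.eS s = false) →
      (D.ev k s X).ln = Helper55.UNF.Ln.z) := by
  rw [D.ev_x k s he]
  unfold F7
  refine ⟨?_, ?_, ?_⟩
  · intro h1 h2
    rw [if_neg (by omega), if_neg (by omega), if_pos ⟨h1, h2⟩]
  · intro h1 h2
    rw [if_neg (by omega), if_neg (by omega), if_neg (by omega), if_pos ⟨h1, h2⟩]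
  · intro h1 h2
    rw [if_neg (by omega), if_neg (by omega),
      if_neg (by rintro ⟨a, b⟩; rw [h1 a] at b; exact absurd b (by decide)),
      if_neg (by rintro ⟨a, b⟩; rw [h2 a] at b; exact absurd b (by decide)), if_neg (by omega)]
    split_ifs <;> rfl

/-- the letters near the west end -/
lemma act_lo {τ : Type*} (hk : 62 ≤ k) {s : P.FSt} (hs : IsV s) (he : s.1.e.1 = 0) (t1 t2 : τ) :
    Act (opt (D.wS s) (false, t1, W.val s (2 * k + 5)) ++
      opt (D.wN s) (true, t2, W.val s (2 * k + 3))) (W.cs s (3 * k)) (W.cs s 0) := by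
  have e1 : W.cs s (2 * k + 6) = W.cs s (3 * k) :=
    cs_const hs (by omega) (by omega) fun X h1 h2 =>
      (ev_lo hk he h2).2.2 (by omega) (by omega)
  have e2 : W.cs s (2 * k + 4) = W.cs s (2 * k + 5) :=
    cs_const hs (by omega) (by omega) fun X h1 h2 =>
      (ev_lo hk he (by omega)).2.2 (by omega) (by omega)
  have e3 : W.cs s 0 = W.cs s (2 * k + 3) :=
    cs_const hs (by omega) (by omega) fun X h1 h2 =>
      (ev_lo hk he (by omega)).2.2 (by omega) (by omega)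
  rw [← e1, e3]
  refine Act.append (c1 := W.cs s (2 * k + 5)) (act_opt_s ?_ ?_) (act_opt_n ?_ ?_)
  · intro h
    exact W.cs_s s hs (2 * k + 5) (by omega) ((ev_lo hk he (by omega)).2.1 rfl h)
  · intro h
    exact W.cs_z s hs (2 * k + 5) (by omega) ((ev_lo hk he (by omega)).2.2 (by omega) fun _ => h)
  · intro h
    rw [← e2]
    exact W.cs_n s hs (2 * k + 3) (by omega) ((ev_lo hk he (by omega)).1 rfl h)
  · intro h
    rw [← e2]
    exact W.cs_z s hs (2 * k + 3) (by omega) ((ev_lo hk he (by omega)).2.2 (fun _ => h) (by omega))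

/-- the letters near the east end -/
lemma act_hi {τ : Type*} (hk : 62 ≤ k) {s : P.FSt} (hs : IsV s) (he : s.1.e.1 = 0) (t1 t2 : τ) :
    Act (opt (D.eN s) (true, t1, W.val s (5 * k - 4)) ++
      opt (D.eS s) (false, t2, W.val s (5 * k - 6))) (W.cs s (7 * k)) (W.cs s (4 * k)) := by
  have e1 : W.cs s (5 * k - 4 + 1) = W.cs s (7 * k) :=
    cs_const hs (by omega) (by omega) fun X h1 h2 =>
      (ev_hi hk he (by omega)).2.2 (by omega) (by omega)
  have e2 : W.cs s (5 * k - 6 + 1) = W.cs s (5 * k - 4) :=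
    cs_const hs (by omega) (by omega) fun X h1 h2 =>
      (ev_hi hk he (by omega)).2.2 (by omega) (by omega)
  have e3 : W.cs s (4 * k) = W.cs s (5 * k - 6) :=
    cs_const hs (by omega) (by omega) fun X h1 h2 =>
      (ev_hi hk he (by omega)).2.2 (by omega) (by omega)
  rw [← e1, e3]
  refine Act.append (c1 := W.cs s (5 * k - 4)) (act_opt_n ?_ ?_) (act_opt_s ?_ ?_)
  · intro h
    exact W.cs_n s hs (5 * k - 4) (by omega) ((ev_hi hk he (by omega)).1 (by omega) h)
  · intro h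
    exact W.cs_z s hs (5 * k - 4) (by omega)
      ((ev_hi hk he (by omega)).2.2 (fun _ => h) (by omega))
  · intro h
    rw [← e2]
    exact W.cs_s s hs (5 * k - 6) (by omega) ((ev_hi hk he (by omega)).2.1 (by omega) h)
  · intro h
    rw [← e2]
    exact W.cs_z s hs (5 * k - 6) (by omega)
      ((ev_hi hk he (by omega)).2.2 (by omega) (fun _ => h))

/-! ### groups of letters -/

lemma grp {τ : Type*} {b1 b2 b3 b : Bool} {t1 t2 t3 : τ} {v1 v2 v3 v : Prop} {x : Bool}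
    (hb : b = (b1 || b2 || b3)) (h1 : b1 = true → b2 = false ∧ b3 = false)
    (h2 : b2 = true → b3 = false) (e1 : b1 = true → (v1 ↔ v)) (e2 : b2 = true → (v2 ↔ v))
    (e3 : b3 = true → (v3 ↔ v)) :
    ∃ t, opt b1 (x, t1, v1) ++ opt b2 (x, t2, v2) ++ opt b3 (x, t3, v3) = opt b (x, t, v) := by
  subst hb
  cases b1
  · cases b2
    · cases b3
      · exact ⟨t1, rfl⟩
      · exact ⟨t3, by rw [propext (e3 rfl)]; rfl⟩
    · rw [h2 rfl]
      exact ⟨t2, by rw [propext (e2 rfl)]; rfl⟩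
  · rw [(h1 rfl).1, (h1 rfl).2]
    exact ⟨t1, by rw [propext (e1 rfl)]; rfl⟩

lemma up_dn (s : P.FSt) (h : isUp s = true) : isDn s = false := by
  unfold isUp isDn at *
  rw [decide_eq_true_iff] at h
  rw [decide_eq_false_iff_not]
  rintro (h1 | ⟨h1, h2⟩)
  · rcases h with h3 | ⟨h3, h4⟩
    · rw [h1] at h3; exact absurd h3 (by decide)
    · rw [h1] at h3; exact absurd h3 (by decide)
  · rcases h with h3 | ⟨h3, h4⟩
    · rw [h3] at h1; exact absurd h1 (by decide)
    · rw [h2] at h4; exact absurd h4 (by decide)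

/-! ### the flags of a corner -/

lemma dd_dart (d : Dart P) (h : d.1.1.e.1 = 0) : dd d.1 h = d := Subtype.ext (end1F_dart d.2)

lemma NLW_phi (κ : Dart P) : D.NLW (phi P κ).1 = D.NL κ := by
  unfold Deco0.NLW
  rw [onD_dd _ _ _ (phi P κ).2.2, dd_dart, Equiv.symm_apply_apply]

lemma SLW_phi (κ : Dart P) : D.SLW (phi P κ).1 = D.SL κ := by
  unfold Deco0.SLW
  rw [onD_dd _ _ _ (phi P κ).2.2, dd_dart, Equiv.symm_apply_apply]

lemma nu_symm (κ : Dart P) : (nuD P).symm κ = (phi P).symm (theta P κ) := by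
  rw [Equiv.symm_apply_eq]
  show κ = theta P (phi P ((phi P).symm (theta P κ)))
  rw [Equiv.apply_symm_apply, theta_theta]

lemma NLE_dart (κ : Dart P) : D.NLE κ.1 = D.NL ((nuD P).symm κ) := by
  unfold Deco0.NLE
  rw [onD_dd _ _ _ κ.2.2, dd_dart, nu_symm]

lemma SLE_dart (κ : Dart P) : D.SLE κ.1 = D.SL ((nuD P).symm κ) := by
  unfold Deco0.SLE
  rw [onD_dd _ _ _ κ.2.2, dd_dart, nu_symm]

lemma theta_phi_nu (κ : Dart P) : theta P (phi P ((nuD P).symm κ)) = κ :=
  (nuD P).apply_symm_apply κ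

/-! ### the ends of the walls of a corner -/

lemma bw_on' (D : Deco P) {x y z : ℤ} (h : bwP P x y z = true) : onP P x y z = true := by
  rw [← D.bw_eq] at h
  exact (D.ok x z).bw_on y h

lemma aw_on' (D : Deco P) {x y z : ℤ} (h : awP P x y z = true) : onP P x y z = true := by
  rw [← D.aw_eq] at h
  exact (D.ok x z).aw_on y h

lemma ends_up (D : Deco P) (hM : P.IsManifold) (h3 : Deg3 P) (κ : Dart P) (h : yu κ < yw κ) :
    bwP P (xl κ) (yu κ - 1) (zl κ) = false ∧ bwP P (xl κ) (yw κ) (zl κ) = false := by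
  constructor
  · cases hb : bwP P (xl κ) (yu κ - 1) (zl κ)
    · rfl
    · exfalso
      obtain ⟨κ', rfl⟩ : ∃ κ', κ = nuD P κ' := ⟨_, ((nuD P).apply_symm_apply κ).symm⟩
      rw [xl_nu, zl_nu] at hb
      have h1 := bw_on' D hb
      have h2 := (i2a (nuD P κ') le_rfl h).1
      rw [xl_nu, zl_nu] at h2
      rcases i4b hM h3 κ' rfl h1 h2 with ⟨a, b⟩ | ⟨a, b⟩
      · rw [(i2c κ' (y := yu (nuD P κ') - 1) (by omega) (by omega)).2] at hb
        exact absurd hb (by decide)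
      · omega
  · cases hb : bwP P (xl κ) (yw κ) (zl κ)
    · rfl
    · exfalso
      have h2 := bw_on' D hb
      have h1 := (i2a κ (y := yw κ - 1) (by omega) (by omega)).1
      rcases i4a hM h3 κ rfl h1 h2 with ⟨a, b⟩ | ⟨a, b⟩
      · rw [(i2c κ (y := yw κ) le_rfl b).2] at hb
        exact absurd hb (by decide)
      · omega

lemma ends_dn (D : Deco P) (hM : P.IsManifold) (h3 : Deg3 P) (κ : Dart P) (h : yw κ < yu κ) :
    awP P (xl κ) (yw κ - 1) (zl κ) = false ∧ awP P (xl κ) (yu κ) (zl κ) = false := by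
  constructor
  · cases hb : awP P (xl κ) (yw κ - 1) (zl κ)
    · rfl
    · exfalso
      have h1 := aw_on' D hb
      have h2 := (i2b κ (y := yw κ) le_rfl h).1
      rcases i4a hM h3 κ rfl h1 h2 with ⟨a, b⟩ | ⟨a, b⟩
      · omega
      · rw [(i2d κ (y := yw κ - 1) (by omega) (by omega)).2] at hb
        exact absurd hb (by decide)
  · cases hb : awP P (xl κ) (yu κ) (zl κ)
    · rfl
    · exfalso
      obtain ⟨κ', rfl⟩ : ∃ κ', κ = nuD P κ' := ⟨_, ((nuD P).apply_symm_apply κ).symm⟩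
      have h1 := (i2b (nuD P κ') (y := yu (nuD P κ') - 1) (by omega) (by omega)).1
      rw [xl_nu, zl_nu] at hb h1
      have h2 := aw_on' D hb
      rcases i4b hM h3 κ' rfl h1 h2 with ⟨a, b⟩ | ⟨a, b⟩
      · omega
      · rw [(i2d κ' (y := yu (nuD P κ')) le_rfl b).2] at hb
        exact absurd hb (by decide)

lemma dart_V (d : Dart P) : IsV d.1 := dart_n d

/-- the walls between two darts -/
lemma act_mid (hM : P.IsManifold) (h3 : Deg3 P) (hk : 62 ≤ k) (T : LD W) (κ : Dart P) :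
    Act (((D.Kc κ).withV ((T.vals hk).V (Geo.ne κ.1.1 0) (Geo.ne κ.1.1 2))).xw (yu κ) (yw κ))
      (W.cs (phi P κ).1 0) (W.cs κ.1 (7 * k)) := by
  obtain ⟨m, b, h⟩ := exists_wk' κ
  have hy := h.yw_eq
  have hE : W.cs κ.1.stE 0 = W.cs κ.1 (7 * k) := W.cs_E κ.1 (dart_V κ)
  have e0 : (pE ^ (0 + 1)) κ.1 = κ.1.stE := by rw [pE_pow_succ]; rfl
  rcases Nat.eq_zero_or_pos m with h0 | h0
  · subst h0
    have hyy : yw κ = yu κ := by cases b <;> simpa using hy
    have : (phi P κ).1 = κ.1.stE := by rw [h.hphi, e0]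
    rw [hyy, this, hE]
    unfold KD.xw
    rw [if_neg (lt_irrefl _), if_neg (lt_irrefl _)]
    exact rfl
  · have hV : ∀ j ≤ m + 1, IsV ((pE ^ j) κ.1) := fun j hj => by
      show ((pE ^ j) κ.1).1.n.1 = 2
      rw [h.hn j hj]
      exact dart_n κ
    have hlast : W.cs (phi P κ).1 0 = W.cs ((pE ^ (m - 1 + 1)) κ.1) (7 * k) := by
      rw [h.hphi, pE_pow_succ, show m - 1 + 1 = m by omega]
      exact W.cs_E _ (hV m (by omega))
    have h1 := h.hpos 0 (by omega)
    have h2 := h.hpos (m - 1) (by omega)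
    have e1 := h.he 0 h0
    have e2 := h.he (m - 1) (by omega)
    cases b
    · -- A side
      simp only [Bool.false_eq_true, if_false] at hy h1 h2
      have hlt : yw κ < yu κ := by omega
      obtain ⟨k1, k2⟩ := ends_dn D hM h3 κ hlt
      have hA : ∀ j ≤ m, j < m → ∀ a, Geo.ne ((pE ^ (j + 1)) κ.1).1 a =
          Geo.nw ((pE ^ (j + 1)) κ.1).1 a + (if a = 1 then (if false then 1 else -1) else 0) := by
        intro j _ hj a
        exact cnr_wall _ _ _ _ false (h.hd j hj) (h.he j hj)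
          (by have := hV (j + 1) (by omega); exact this) a
      have a1 := hA 0 (by omega) h0
      have a2 := hA (m - 1) (by omega) (by omega)
      have c1 := (T.lk (xl κ) (zl κ)).cA ((pE ^ (0 + 1)) κ.1) (hV _ (by omega)) e1
        (by rw [a1, h1]; simp [xl]) (by rw [a1, h1]; simp [zl]) (7 * k) le_rfl
      have c2 := (T.lk (xl κ) (zl κ)).cA ((pE ^ (m - 1 + 1)) κ.1) (hV _ (by omega)) e2
        (by rw [a2, h2]; simp [xl]) (by rw [a2, h2]; simp [zl]) 0 (by omega)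
      have y1 : Geo.ne ((pE ^ (0 + 1)) κ.1).1 1 = yu κ - 1 := by rw [a1, h1]; simp; ring
      have y2 : Geo.ne ((pE ^ (m - 1 + 1)) κ.1).1 1 = yw κ := by
        rw [a2, h2, hy]
        simp
        omega
      rw [y1, Nat.sub_self, e0, hE] at c1
      rw [y2, Nat.sub_zero] at c2
      rw [hlast, ← c2, ← c1]
      refine LV.cornerA (T.L (xl κ) (zl κ)) (D.ok _ _) (by omega) _ (fun s y => rfl)
        (fun s y => rfl) hlt ?_ ?_ ?_
      · intro y h4 h5
        show (D.K (xl κ) (zl κ)).aw y = true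
        rw [D.aw_eq]
        exact (i2b κ h4 h5).2
      · show (D.K (xl κ) (zl κ)).aw _ = false
        rw [D.aw_eq]
        exact k1
      · show (D.K (xl κ) (zl κ)).aw _ = false
        rw [D.aw_eq]
        exact k2
    · -- B side
      simp only [if_true] at hy h1 h2
      have hlt : yu κ < yw κ := by omega
      obtain ⟨k1, k2⟩ := ends_up D hM h3 κ hlt
      have c1 := (T.lk (xl κ) (zl κ)).cB ((pE ^ (0 + 1)) κ.1) (hV _ (by omega)) e1
        (by rw [h1]; simp [xl]) (by rw [h1]; simp [zl]) 0 (by omega)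
      have c2 := (T.lk (xl κ) (zl κ)).cB ((pE ^ (m - 1 + 1)) κ.1) (hV _ (by omega)) e2
        (by rw [h2]; simp [xl]) (by rw [h2]; simp [zl]) (7 * k) le_rfl
      have y1 : Geo.nw ((pE ^ (0 + 1)) κ.1).1 1 = yu κ := by rw [h1]; simp
      have y2 : Geo.nw ((pE ^ (m - 1 + 1)) κ.1).1 1 = yw κ - 1 := by
        rw [h2, hy]
        simp
        omega
      rw [y1, e0, hE] at c1
      rw [y2] at c2
      rw [hlast, ← c2, ← c1]
      refine LV.cornerB (T.L (xl κ) (zl κ)) (D.ok _ _) (by omega) _ (fun s y => rfl)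
        (fun s y => rfl) hlt ?_ ?_ ?_
      · intro y h4 h5
        show (D.K (xl κ) (zl κ)).bw y = true
        rw [D.bw_eq]
        exact (i2a κ h4 h5).2
      · show (D.K (xl κ) (zl κ)).bw _ = false
        rw [D.bw_eq]
        exact k1
      · show (D.K (xl κ) (zl κ)).bw _ = false
        rw [D.bw_eq]
        exact k2

/-- the word of a corner acts on the stacks -/
theorem act_rw (hM : P.IsManifold) (h3 : Deg3 P) (hk : 62 ≤ k) (hS : Strips W) (T : LD W)
    (κ : Dart P) :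
    Act ((T.vals hk).rw κ) (W.cs (phi P κ).1 (3 * k)) (W.cs κ.1 (4 * k)) := by
  have hnw := nw_phi κ
  have n0 : Geo.nw (phi P κ).1.1 0 = Geo.ne κ.1.1 0 := by rw [hnw]; rfl
  have n2 : Geo.nw (phi P κ).1.1 2 = Geo.ne κ.1.1 2 := by rw [hnw]; rfl
  have hKw : D.Kw (phi P κ).1 = D.Kc κ := by
    unfold Deco0.Kw Deco0.Kc
    rw [n0, n2]
  obtain ⟨x1, x2⟩ := D.exclw κ
  obtain ⟨x3, x4⟩ := D.exclu κ
  obtain ⟨w1, w2, w3, w4⟩ := (T.F (Geo.ne κ.1.1 0) (Geo.ne κ.1.1 2)).wn (phi P κ).1 (phi P κ).2.2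
    n0 n2
  obtain ⟨u1, u2, u3, u4⟩ := (T.F (Geo.ne κ.1.1 0) (Geo.ne κ.1.1 2)).en κ.1 κ.2.2 rfl rfl
  have eS : D.wS (phi P κ).1 = (D.SL κ || (isUp (phi P κ).1 && (D.Kc κ).fS (yw κ)) ||
      (isDn (phi P κ).1 && (D.Kc κ).gS (yw κ))) := by
    unfold Deco0.wS
    rw [SLW_phi, hKw]
    rfl
  have eN : D.wN (phi P κ).1 = (D.NL κ || (isUp (phi P κ).1 && (D.Kc κ).gN (yw κ)) ||
      (isDn (phi P κ).1 && (D.Kc κ).fN (yw κ))) := by
    unfold Deco0.wN
    rw [NLW_phi, hKw]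
    rfl
  have eN' : D.eN κ.1 = (D.NL ((nuD P).symm κ) || (isDn κ.1 && (D.Kc κ).gN (yu κ)) ||
      (isUp κ.1 && (D.Kc κ).fN (yu κ))) := by
    unfold Deco0.eN
    rw [NLE_dart, Bool.or_assoc, Bool.or_assoc, Bool.or_comm (isDn κ.1 && _)]
    rfl
  have eS' : D.eS κ.1 = (D.SL ((nuD P).symm κ) || (isDn κ.1 && (D.Kc κ).fS (yu κ)) ||
      (isUp κ.1 && (D.Kc κ).gS (yu κ))) := by
    unfold Deco0.eS
    rw [SLE_dart, Bool.or_assoc, Bool.or_assoc, Bool.or_comm (isDn κ.1 && _)]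
    rfl
  have ud : ∀ (s : P.FSt) (p q : Bool), (isUp s && p) = true → (isDn s && q) = false := by
    intro s p q h
    rw [Bool.and_eq_true] at h
    rw [up_dn s h.1]
    rfl
  have du : ∀ (s : P.FSt) (p q : Bool), (isDn s && p) = true → (isUp s && q) = false := by
    intro s p q h
    rw [Bool.and_eq_true] at h
    cases hu : isUp s
    · rfl
    · rw [up_dn s hu] at h
      exact absurd h.1 (by decide)
  obtain ⟨t1, g1⟩ := grp (t1 := D.tS κ) (t2 := (D.Kc κ).tb (yw κ)) (t3 := (D.Kc κ).tv (yw κ))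
    (v1 := (T.vals hk).vS κ)
    (v2 := ((T.vals hk).V (Geo.ne κ.1.1 0) (Geo.ne κ.1.1 2)).fS (yw κ))
    (v3 := ((T.vals hk).V (Geo.ne κ.1.1 0) (Geo.ne κ.1.1 2)).gS (yw κ))
    (v := W.val (phi P κ).1 (2 * k + 5)) (x := false) eS x2 (ud _ _ _) (fun _ => Iff.rfl)
    (fun h => by
      rw [Bool.and_eq_true] at h
      exact (w3 h.1 h.2).symm)
    (fun h => by
      rw [Bool.and_eq_true] at h
      exact (w4 h.1 h.2).symm)
  obtain ⟨t2, g2⟩ := grp (t1 := D.tN κ) (t2 := (D.Kc κ).tv (yw κ)) (t3 := (D.Kc κ).tb (yw κ))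
    (v1 := (T.vals hk).vN κ)
    (v2 := ((T.vals hk).V (Geo.ne κ.1.1 0) (Geo.ne κ.1.1 2)).gN (yw κ))
    (v3 := ((T.vals hk).V (Geo.ne κ.1.1 0) (Geo.ne κ.1.1 2)).fN (yw κ))
    (v := W.val (phi P κ).1 (2 * k + 3)) (x := true) eN x1 (ud _ _ _) (fun _ => Iff.rfl)
    (fun h => by
      rw [Bool.and_eq_true] at h
      exact (w1 h.1 h.2).symm)
    (fun h => by
      rw [Bool.and_eq_true] at h
      exact (w2 h.1 h.2).symm)
  obtain ⟨t4, g4⟩ := grp (t1 := D.tN ((nuD P).symm κ)) (t2 := (D.Kc κ).tv (yu κ))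
    (t3 := (D.Kc κ).tb (yu κ)) (v1 := (T.vals hk).vN ((nuD P).symm κ))
    (v2 := ((T.vals hk).V (Geo.ne κ.1.1 0) (Geo.ne κ.1.1 2)).gN (yu κ))
    (v3 := ((T.vals hk).V (Geo.ne κ.1.1 0) (Geo.ne κ.1.1 2)).fN (yu κ))
    (v := W.val κ.1 (5 * k - 4)) (x := true) eN' x3 (du _ _ _)
    (fun h => by
      have := hS.NW (phi P ((nuD P).symm κ)) (by rw [NLW_phi]; exact h)
      rw [theta_phi_nu] at this
      exact this)
    (fun h => by
      rw [Bool.and_eq_true] at h
      exact (u2 h.1 h.2).symm)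
    (fun h => by
      rw [Bool.and_eq_true] at h
      exact (u1 h.1 h.2).symm)
  obtain ⟨t5, g5⟩ := grp (t1 := D.tS ((nuD P).symm κ)) (t2 := (D.Kc κ).tb (yu κ))
    (t3 := (D.Kc κ).tv (yu κ)) (v1 := (T.vals hk).vS ((nuD P).symm κ))
    (v2 := ((T.vals hk).V (Geo.ne κ.1.1 0) (Geo.ne κ.1.1 2)).fS (yu κ))
    (v3 := ((T.vals hk).V (Geo.ne κ.1.1 0) (Geo.ne κ.1.1 2)).gS (yu κ))
    (v := W.val κ.1 (5 * k - 6)) (x := false) eS' x4 (du _ _ _)
    (fun h => by
      have := hS.SW (phi P ((nuD P).symm κ)) (by rw [SLW_phi]; exact h)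
      rw [theta_phi_nu] at this
      exact this)
    (fun h => by
      rw [Bool.and_eq_true] at h
      exact (u4 h.1 h.2).symm)
    (fun h => by
      rw [Bool.and_eq_true] at h
      exact (u3 h.1 h.2).symm)
  have key : (T.vals hk).rw κ =
      (opt (D.wS (phi P κ).1) (false, t1, W.val (phi P κ).1 (2 * k + 5)) ++
        opt (D.wN (phi P κ).1) (true, t2, W.val (phi P κ).1 (2 * k + 3))) ++
      ((D.Kc κ).withV ((T.vals hk).V (Geo.ne κ.1.1 0) (Geo.ne κ.1.1 2))).xw (yu κ) (yw κ) ++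
      (opt (D.eN κ.1) (true, t4, W.val κ.1 (5 * k - 4)) ++
        opt (D.eS κ.1) (false, t5, W.val κ.1 (5 * k - 6))) := by
    rw [← g1, ← g2, ← g4, ← g5, ← List.append_assoc]
    rfl
  rw [key]
  exact ((act_lo hk (dart_V (phi P κ)) (phi P κ).2.2 t1 t2).append
    (act_mid hM h3 hk T κ)).append (act_hi hk (dart_V κ) κ.2.2 t4 t5)

end W4

end Pool.Agent.MP42D
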