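import Pool.Agent.MP42.D.W4a
import Pool.Agent.MP42.D.ARw

/-!
# Piece W4b: the value of the junctions (owner helper89)
-/

set_option autoImplicit false
set_option linter.unusedSectionVars false

namespace Pool.Agent.MP42D

open Pool.Agent.Helper55.UNF Pool.Agent.Helper55.UNF.GridSolid Pool.Agent.MP42 Pool.Agent.MP42G

namespace W4

/-! ### reduction of words with values -/

lemma mg_split {τ : Type*} {l : List (Bool × τ × Prop)} {u w : List (Bool × τ)}
    (h : mg Prod.fst l = u ++ w) : ∃ lu lw, l = lu ++ lw ∧ mg Prod.fst lu = u ∧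
      mg Prod.fst lw = w := by
  unfold mg at h
  obtain ⟨lu, lw, h1, h2, h3⟩ := List.map_eq_append_iff.1 h
  exact ⟨lu, lw, h1, h2, h3⟩

lemma mg_cons {τ : Type*} {l : List (Bool × τ × Prop)} {b : Bool} {t : τ} {w : List (Bool × τ)}
    (h : mg Prod.fst l = (b, t) :: w) : ∃ a lw, l = (b, t, a) :: lw ∧ mg Prod.fst lw = w := by
  unfold mg at h
  obtain ⟨x, lw, h1, h2, h3⟩ := List.map_eq_cons_iff.1 h
  obtain ⟨b', t', a⟩ := x
  have e1 : b' = b := congrArg Prod.fst h2
  have e2 : t' = t := congrArg Prod.snd h2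
  subst e1 e2
  exact ⟨a, lw, h1, h3⟩

lemma mem_key {τ : Type*} {l : List (Bool × τ × Prop)} {b : Bool} {t : τ} {a : Prop}
    (h : (b, t, a) ∈ l) : (b, t) ∈ mg Prod.fst l := by
  unfold mg
  exact List.mem_map_of_mem (f := fun p : Bool × τ × Prop => (p.1, p.2.1)) h

lemma key_uniq {τ : Type*} {l : List (Bool × τ × Prop)} (h : (mg Prod.fst l).Nodup) {b : Bool}
    {t : τ} {a a' : Prop} (h1 : (b, t, a) ∈ l) (h2 : (b, t, a') ∈ l) : a = a' := by
  unfold mg at h
  have := List.inj_on_of_nodup_map h h1 h2 rfl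
  exact congrArg (fun p : Bool × τ × Prop => p.2.2) this

theorem red_act {τ : Type*} {w w' : List (Bool × τ)} (h : Red w w') :
    ∀ {l : List (Bool × τ × Prop)} {c c' : ℕ → Prop}, mg Prod.fst l = w → w.Nodup → Act l c c' →
    ∃ l', mg Prod.fst l' = w' ∧ Act l' c c' ∧ (∀ a ∈ l', a ∈ l) ∧
      ∀ t a b, (true, t, a) ∈ l → (false, t, b) ∈ l →
        (a ↔ b) ∨ ((true, t, a) ∈ l' ∧ (false, t, b) ∈ l') := by
  induction h with
  | refl w =>
    intro l c c' h1 h2 h3
    exact ⟨l, h1, h3, fun a ha => ha, fun t a b ha hb => Or.inr ⟨ha, hb⟩⟩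
  | @step u v t w h ih =>
    intro l c c' h1 h2 h3
    obtain ⟨lu, lw, rfl, e1, e2⟩ := mg_split h1
    obtain ⟨a0, lw, rfl, e3⟩ := mg_cons e2
    obtain ⟨b0, lv, rfl, e4⟩ := mg_cons e3
    obtain ⟨c1, h4, c2, h5, h6⟩ := h3.split
    obtain ⟨h7, h8⟩ := psh_inj h5
    subst h7 h8
    have hn : (u ++ v).Nodup := by
      refine h2.sublist ?_
      refine List.Sublist.append_left ?_ u
      exact (List.sublist_cons_self _ _).trans (List.sublist_cons_self _ _)
    obtain ⟨l', p1, p2, p3, p4⟩ := ih (l := lu ++ lv) (by rw [mg_append, e1, e4]) hn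
      (h4.append h6)
    have hnl : (mg Prod.fst (lu ++ (true, t, a0) :: (false, t, a0) :: lv)).Nodup := by
      rw [h1]; exact h2
    have m1 : (true, t, a0) ∈ lu ++ (true, t, a0) :: (false, t, a0) :: lv := by simp
    have m2 : (false, t, a0) ∈ lu ++ (true, t, a0) :: (false, t, a0) :: lv := by simp
    refine ⟨l', p1, p2, ?_, ?_⟩
    · intro a ha
      have := p3 a ha
      rw [List.mem_append] at this ⊢
      rcases this with h | h
      · exact Or.inl h
      · exact Or.inr (List.mem_cons_of_mem _ (List.mem_cons_of_mem _ h))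
    · intro t' a b ha hb
      by_cases ht : t' = t
      · subst ht
        left
        rw [key_uniq hnl ha m1, key_uniq hnl hb m2]
      · apply p4 t' a b
        · rw [List.mem_append] at ha ⊢
          rcases ha with h | h
          · exact Or.inl h
          · rw [List.mem_cons, List.mem_cons] at h
            rcases h with h | h | h
            · exact absurd (congrArg (fun p : Bool × τ × Prop => p.2.1) h) ht
            · exact absurd (congrArg (fun p : Bool × τ × Prop => p.2.1) h) ht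
            · exact Or.inr h
        · rw [List.mem_append] at hb ⊢
          rcases hb with h | h
          · exact Or.inl h
          · rw [List.mem_cons, List.mem_cons] at h
            rcases h with h | h | h
            · exact absurd (congrArg (fun p : Bool × τ × Prop => p.2.1) h) ht
            · exact absurd (congrArg (fun p : Bool × τ × Prop => p.2.1) h) ht
            · exact Or.inr h

/-! ### root letters -/

section

variable {P : GridSolid} {D : Deco P} {k B : ℕ} {W : CV D k B}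

lemma ev_rt (hk : 62 ≤ k) {s : P.FSt} (he : s.1.e.1 = 0) {X : ℕ} (h1 : 3 * k ≤ X)
    (h2 : X < 4 * k) :
    (X = 3 * k + 3 → D.rt1 s = true → D.ev k s X = El.n) ∧
    (X + 4 = 4 * k → D.rt2 s = true → D.ev k s X = El.n) ∧
    ((X = 3 * k + 3 → D.rt1 s = false) → (X + 4 = 4 * k → D.rt2 s = false) →
      (D.ev k s X).ln = Helper55.UNF.Ln.z) := by
  rw [D.ev_x k s he]
  unfold F7
  refine ⟨?_, ?_, ?_⟩
  · intro h3 h4
    rw [if_neg (by omega), if_neg (by omega), if_neg (by omega), if_neg (by omega),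
      if_pos (Or.inl ⟨h3, h4⟩)]
  · intro h3 h4
    rw [if_neg (by omega), if_neg (by omega), if_neg (by omega), if_neg (by omega),
      if_pos (Or.inr ⟨h3, h4⟩)]
  · intro h3 h4
    rw [if_neg (by omega), if_neg (by omega), if_neg (by omega), if_neg (by omega), if_neg]
    · split_ifs <;> rfl
    · rintro (⟨a, b⟩ | ⟨a, b⟩)
      · rw [h3 a] at b; exact absurd b (by decide)
      · rw [h4 a] at b; exact absurd b (by decide)

/-- the root letters on the stacks -/
lemma root (hk : 62 ≤ k) {s : P.FSt} (hs : IsV s) (he : s.1.e.1 = 0) :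
    W.cs s (3 * k) = app (opt (D.rt1 s) (W.val s (3 * k + 3)) ++
      opt (D.rt2 s) (W.val s (4 * k - 4))) (W.cs s (4 * k)) := by
  have e1 : W.cs s (3 * k) = W.cs s (3 * k + 3) :=
    cs_const hs (by omega) (by omega) fun X h1 h2 =>
      (ev_rt hk he h1 (by omega)).2.2 (by omega) (by omega)
  have e2 : W.cs s (3 * k + 4) = W.cs s (4 * k - 4) :=
    cs_const hs (by omega) (by omega) fun X h1 h2 =>
      (ev_rt hk he (by omega) (by omega)).2.2 (by omega) (by omega)
  have e3 : W.cs s (4 * k - 4 + 1) = W.cs s (4 * k) :=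
    cs_const hs (by omega) (by omega) fun X h1 h2 =>
      (ev_rt hk he (by omega) (by omega)).2.2 (by omega) (by omega)
  rw [app_append, e1]
  have f2 : W.cs s (4 * k - 4) = app (opt (D.rt2 s) (W.val s (4 * k - 4))) (W.cs s (4 * k)) := by
    rw [← e3]
    cases h : D.rt2 s
    · exact W.cs_z s hs (4 * k - 4) (by omega)
        ((ev_rt hk he (by omega) (by omega)).2.2 (by omega) fun _ => h)
    · exact W.cs_n s hs (4 * k - 4) (by omega)
        ((ev_rt hk he (by omega) (by omega)).2.1 (by omega) h)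
  rw [← f2, ← e2]
  cases h : D.rt1 s
  · exact W.cs_z s hs (3 * k + 3) (by omega)
      ((ev_rt hk he (by omega) (by omega)).2.2 (fun _ => h) (by omega))
  · exact W.cs_n s hs (3 * k + 3) (by omega)
      ((ev_rt hk he (by omega) (by omega)).1 rfl h)

lemma rt_iff (d : Dart P) : (D.rt1 d.1 = true → D.R d = true ∨ D.R (theta P d) = true) ∧
    (D.rt2 d.1 = true → D.R d = true ∨ D.R (theta P d) = true) ∧
    (D.R d = true → D.rt1 d.1 = true) ∧ (D.R (theta P d) = true → D.rt2 d.1 = true) := by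
  unfold Deco0.rt1 Deco0.rt2
  rw [onD_dd _ _ _ d.2.2, onD_dd _ _ _ d.2.2, dd_dart]
  refine ⟨?_, ?_, ?_, ?_⟩
  · intro h
    rw [Bool.or_eq_true, Bool.and_eq_true] at h
    rcases h with h | h
    · exact Or.inl h
    · exact Or.inr h.1
  · intro h
    rw [Bool.or_eq_true, Bool.and_eq_true] at h
    rcases h with h | h
    · exact Or.inr h
    · exact Or.inl h.1
  · intro h
    rw [h]; rfl
  · intro h
    rw [h]; rfl

/-! ### the values of the tags -/

/-- the value of a tag -/
def valT (N : D.toDeco0.Vals) (t : Dart P ⊕ Dart P) : Prop := ∃ κ b x, (b, t, x) ∈ N.rw κ ∧ x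

/-- the value of the closing strand of a run -/
def KK (D : Deco P) (N : D.toDeco0.Vals) (d : Dart P) : Prop :=
  ∃ (c : Dart P) (l : ℕ), ((nuD P) ^ l) c = d ∧ (∀ j < l, D.S (((nuD P) ^ j) c) = true) ∧
    D.S ((nuD P).symm c) = false ∧ valT N (Sum.inr c)

lemma pow_symm (c : Dart P) (l : ℕ) : (nuD P).symm (((nuD P) ^ (l + 1)) c) = ((nuD P) ^ l) c := by
  rw [pow_succ', Equiv.Perm.mul_apply, Equiv.symm_apply_apply]

lemma run_uniq (D : Deco P) : ∀ (l l' : ℕ) (c c' : Dart P),
    ((nuD P) ^ l) c = ((nuD P) ^ l') c' →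
    (∀ j < l, D.S (((nuD P) ^ j) c) = true) → (∀ j < l', D.S (((nuD P) ^ j) c') = true) →
    D.S ((nuD P).symm c) = false → D.S ((nuD P).symm c') = false → c = c'
  | 0, 0, c, c', h, _, _, _, _ => h
  | 0, l' + 1, c, c', h, _, h2, h3, _ => by
    exfalso
    have h4 : c = ((nuD P) ^ (l' + 1)) c' := h
    rw [h4, pow_symm, h2 l' (Nat.lt_succ_self l')] at h3
    exact absurd h3 (by decide)
  | l + 1, 0, c, c', h, h1, _, _, h3 => by
    exfalso
    have h4 : c' = ((nuD P) ^ (l + 1)) c := h.symm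
    rw [h4, pow_symm, h1 l (Nat.lt_succ_self l)] at h3
    exact absurd h3 (by decide)
  | l + 1, l' + 1, c, c', h, h1, h2, h3, h4 => by
    refine run_uniq D l l' c c' ?_ (fun j hj => h1 j (by omega)) (fun j hj => h2 j (by omega))
      h3 h4
    have := congrArg (nuD P).symm h
    rwa [pow_symm, pow_symm] at this

lemma KK_step (N : D.toDeco0.Vals) (e : Dart P) (he : D.S e = true) :
    KK D N (nuD P e) ↔ KK D N e := by
  constructor
  · rintro ⟨c, l, h1, h2, h3, h4⟩
    cases l with
    | zero =>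
      exfalso
      have h5 : c = nuD P e := h1
      rw [h5, Equiv.symm_apply_apply, he] at h3
      exact absurd h3 (by decide)
    | succ l =>
      refine ⟨c, l, ?_, fun j hj => h2 j (by omega), h3, h4⟩
      have := congrArg (nuD P).symm h1
      rwa [pow_symm, Equiv.symm_apply_apply] at this
  · rintro ⟨c, l, h1, h2, h3, h4⟩
    refine ⟨c, l + 1, ?_, ?_, h3, h4⟩
    · rw [pow_succ', Equiv.Perm.mul_apply, h1]
    · intro j hj
      rcases Nat.lt_succ_iff_lt_or_eq.1 hj with h5 | h5
      · exact h2 j h5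
      · rw [h5, h1]; exact he

lemma KK_at (N : D.toDeco0.Vals) {c d : Dart P} {l : ℕ} (h1 : ((nuD P) ^ l) c = d)
    (h2 : ∀ j < l, D.S (((nuD P) ^ j) c) = true) (h3 : D.S ((nuD P).symm c) = false) :
    KK D N d ↔ valT N (Sum.inr c) := by
  constructor
  · rintro ⟨c', l', h1', h2', h3', h4'⟩
    have := run_uniq D l' l c' c (h1'.trans h1.symm) h2' h2 h3' h3
    rw [← this]
    exact h4'
  · intro h4
    exact ⟨c, l, h1, h2, h3, h4⟩

section

variable (hM : P.IsManifold) (h3 : Deg3 P) (hk : 62 ≤ k) (hS : Strips W) (T : LD W)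

include hM h3 hS

/-- the word that remains -/
lemma ex_act (κ : Dart P) : ∃ l', mg Prod.fst l' = D.ex κ ∧
    Act l' (W.cs (phi P κ).1 (3 * k)) (W.cs κ.1 (4 * k)) ∧
    (∀ a ∈ l', a ∈ (T.vals hk).rw κ) ∧
    ∀ t a b, (true, t, a) ∈ (T.vals hk).rw κ → (false, t, b) ∈ (T.vals hk).rw κ → (a ↔ b) := by
  obtain ⟨l', h1, h2, h4, h5⟩ := red_act (D.red κ) ((T.vals hk).fst_rw κ) (D.nodup κ)
    (act_rw hM h3 hk hS T κ)
  refine ⟨l', h1, h2, h4, ?_⟩
  intro t a b ha hb
  rcases h5 t a b ha hb with h6 | ⟨h6, h7⟩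
  · exact h6
  · exfalso
    have k1 := mem_key h6
    have k2 := mem_key h7
    rw [h1] at k1 k2
    clear h4 h5
    unfold Deco0.ex at k1 k2
    cases a1 : D.S κ <;> cases a2 : D.S ((nuD P).symm κ) <;>
      simp only [a1, a2, Bool.false_eq_true, if_true, if_false, List.mem_cons, Prod.mk.injEq,
        List.not_mem_nil, or_false, false_and, true_and, reduceCtorEq] at k1 k2
    rw [k2] at k1
    exact absurd k1 (by simp)

lemma link' {κ κ' : Dart P} {b b' : Bool} {t : Dart P ⊕ Dart P} {x y : Prop}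
    (h1 : (b, t, x) ∈ (T.vals hk).rw κ) (h2 : (b', t, y) ∈ (T.vals hk).rw κ') : x ↔ y :=
  D.link (T.vals hk) (fun κ t a b ha hb => by
    obtain ⟨l', -, -, -, h⟩ := ex_act hM h3 hk hS T κ
    exact h t a b ha hb) κ κ' b b' t x y h1 h2

lemma val_tag {κ : Dart P} {b : Bool} {t : Dart P ⊕ Dart P} {x : Prop}
    (h1 : (b, t, x) ∈ (T.vals hk).rw κ) : x = valT (T.vals hk) t := by
  apply propext
  constructor
  · intro hx
    exact ⟨κ, b, x, h1, hx⟩
  · rintro ⟨κ', b', y, h2, hy⟩
    exact (link' hM h3 hk hS T h1 h2).2 hy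

/-- the stacks at a corner -/
lemma corner (κ : Dart P) :
    (D.S κ = true → D.S ((nuD P).symm κ) = true → W.cs κ.1 (4 * k) =
      psh (valT (T.vals hk) (Sum.inl ((nuD P).symm κ)))
        (psh (valT (T.vals hk) (Sum.inl κ)) (W.cs (phi P κ).1 (3 * k)))) ∧
    (D.S κ = true → D.S ((nuD P).symm κ) = false → W.cs κ.1 (4 * k) =
      psh (valT (T.vals hk) (Sum.inr κ))
        (psh (valT (T.vals hk) (Sum.inl κ)) (W.cs (phi P κ).1 (3 * k)))) ∧
    (D.S κ = false → D.S ((nuD P).symm κ) = true → ∃ c1,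
      W.cs (phi P κ).1 (3 * k) = psh (valT (T.vals hk) (Sum.inr (D.vc κ))) c1 ∧
      W.cs κ.1 (4 * k) = psh (valT (T.vals hk) (Sum.inl ((nuD P).symm κ))) c1) ∧
    (D.S κ = false → D.S ((nuD P).symm κ) = false →
      W.cs κ.1 (4 * k) = W.cs (phi P κ).1 (3 * k)) := by
  obtain ⟨l', e1, e2, e3, -⟩ := ex_act hM h3 hk hS T κ
  unfold Deco0.ex at e1
  refine ⟨?_, ?_, ?_, ?_⟩
  · intro a1 a2
    rw [if_pos a1, if_pos a2] at e1
    obtain ⟨x1, l1, rfl, e4⟩ := mg_cons e1
    obtain ⟨x2, l2, rfl, e5⟩ := mg_cons e4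
    have e6 : l2 = [] := List.map_eq_nil_iff.1 e5
    subst e6
    have m1 := val_tag hM h3 hk hS T (e3 _ List.mem_cons_self)
    have m2 := val_tag hM h3 hk hS T (e3 _ (List.mem_cons_of_mem _ List.mem_cons_self))
    rw [← m1, ← m2]
    exact e2.symm
  · intro a1 a2
    rw [if_pos a1, if_neg (by rw [a2]; decide)] at e1
    obtain ⟨x1, l1, rfl, e4⟩ := mg_cons e1
    obtain ⟨x2, l2, rfl, e5⟩ := mg_cons e4
    have e6 : l2 = [] := List.map_eq_nil_iff.1 e5
    subst e6
    have m1 := val_tag hM h3 hk hS T (e3 _ List.mem_cons_self)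
    have m2 := val_tag hM h3 hk hS T (e3 _ (List.mem_cons_of_mem _ List.mem_cons_self))
    rw [← m1, ← m2]
    exact e2.symm
  · intro a1 a2
    rw [if_neg (by rw [a1]; decide), if_pos a2] at e1
    obtain ⟨x1, l1, rfl, e4⟩ := mg_cons e1
    obtain ⟨x2, l2, rfl, e5⟩ := mg_cons e4
    have e6 : l2 = [] := List.map_eq_nil_iff.1 e5
    subst e6
    have m1 := val_tag hM h3 hk hS T (e3 _ List.mem_cons_self)
    have m2 := val_tag hM h3 hk hS T (e3 _ (List.mem_cons_of_mem _ List.mem_cons_self))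
    rw [← m1, ← m2]
    obtain ⟨c1, e7, e8⟩ := e2
    exact ⟨c1, e7, e8.symm⟩
  · intro a1 a2
    rw [if_neg (by rw [a1]; decide), if_neg (by rw [a2]; decide)] at e1
    have e6 : l' = [] := List.map_eq_nil_iff.1 e1
    subst e6
    exact e2.symm

omit hM h3 hS in
lemma nu_of {e d : Dart P} (h : theta P (phi P e) = d) : (nuD P).symm d = e := by
  rw [Equiv.symm_apply_eq]
  exact h.symm

/-- the data of the rims -/
lemma rimData : RimData (theta P) (phi P) {d | D.S d = true} {d | D.R d = true}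
    (fun d => W.cs (phi P d).1 (3 * k)) (fun d => W.cs d.1 (4 * k))
    (fun d => valT (T.vals hk) (Sum.inl d)) (KK D (T.vals hk)) B where
  ev := fun d e h m m' hm hm' =>
    W.cs_ev _ _ (dart_V _) ((phi_same_iff P _ _).1
      (Equiv.Perm.sameCycle_apply_left.2 (Equiv.Perm.sameCycle_apply_right.2 h))) _ (by omega) _
      (by omega) m m' hm hm'
  evb := fun d m m' hm hm' =>
    W.cs_ev _ _ (dart_V _) ((phi_same_iff P _ _).1
      (Equiv.Perm.sameCycle_apply_right.2 (Equiv.Perm.SameCycle.refl _ _))) _ (by omega) _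
      (by omega) m m' hm hm'
  S0 := by
    intro e he h
    have h1 := (corner hM h3 hk hS T (theta P (phi P e))).1 h (by rw [nu_of rfl]; exact he)
    rw [nu_of rfl] at h1
    show W.cs (theta P (phi P e)).1 (4 * k) 0 ↔ _
    rw [h1]
    exact Iff.rfl
  S0' := by
    intro d hd h
    have hS' : D.S ((nuD P).symm d) = false := by
      cases h1 : D.S ((nuD P).symm d)
      · rfl
      · exact absurd ((nuD P).apply_symm_apply d) (h _ h1)
    have h1 := (corner hM h3 hk hS T d).2.1 hd hS'
    show W.cs d.1 (4 * k) 0 ↔ KK D (T.vals hk) d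
    rw [h1]
    exact (KK_at (T.vals hk) (c := d) (d := d) (l := 0) rfl
      (fun j hj => absurd hj (by omega)) hS').symm
  S1 := by
    intro d hd
    show W.cs d.1 (4 * k) 1 ↔ _
    cases h1 : D.S ((nuD P).symm d)
    · rw [(corner hM h3 hk hS T d).2.1 hd h1]
      exact Iff.rfl
    · rw [(corner hM h3 hk hS T d).1 hd h1]
      exact Iff.rfl
  S2 := by
    intro d hd m
    show W.cs d.1 (4 * k) (m + 2) ↔ W.cs (phi P d).1 (3 * k) m
    cases h1 : D.S ((nuD P).symm d)
    · rw [(corner hM h3 hk hS T d).2.1 hd h1]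
      exact Iff.rfl
    · rw [(corner hM h3 hk hS T d).1 hd h1]
      exact Iff.rfl
  P0 := by
    intro e he h
    have he' : D.S ((nuD P).symm (theta P (phi P e))) = true := by rw [nu_of rfl]; exact he
    have h0 : D.S (theta P (phi P e)) = false := by
      cases h1 : D.S (theta P (phi P e))
      · rfl
      · exact absurd h1 h
    obtain ⟨c1, h1, h2⟩ := (corner hM h3 hk hS T (theta P (phi P e))).2.2.1 h0 he'
    obtain ⟨l, -, k2, k3, k4⟩ := D.vc_spec _ h0 he'
    show W.cs (phi P (theta P (phi P e))).1 (3 * k) 0 ↔ KK D (T.vals hk) (theta P (phi P e))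
    rw [h1, KK_at (T.vals hk) k2 k3 k4]
    exact Iff.rfl
  P1 := by
    intro e he h
    have he' : D.S ((nuD P).symm (theta P (phi P e))) = true := by rw [nu_of rfl]; exact he
    have h0 : D.S (theta P (phi P e)) = false := by
      cases h1 : D.S (theta P (phi P e))
      · rfl
      · exact absurd h1 h
    obtain ⟨c1, h1, h2⟩ := (corner hM h3 hk hS T (theta P (phi P e))).2.2.1 h0 he'
    rw [nu_of rfl] at h2
    show W.cs (theta P (phi P e)).1 (4 * k) 0 ↔ _
    rw [h2]
    exact Iff.rfl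
  P2 := by
    intro e he h m
    have he' : D.S ((nuD P).symm (theta P (phi P e))) = true := by rw [nu_of rfl]; exact he
    have h0 : D.S (theta P (phi P e)) = false := by
      cases h1 : D.S (theta P (phi P e))
      · rfl
      · exact absurd h1 h
    obtain ⟨c1, h1, h2⟩ := (corner hM h3 hk hS T (theta P (phi P e))).2.2.1 h0 he'
    show W.cs (theta P (phi P e)).1 (4 * k) (m + 1) ↔
      W.cs (phi P (theta P (phi P e))).1 (3 * k) (m + 1)
    rw [h1, h2]
    exact Iff.rfl
  O := by
    intro d hd h m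
    have h0 : D.S d = false := by
      cases h1 : D.S d
      · rfl
      · exact absurd h1 hd
    have hS' : D.S ((nuD P).symm d) = false := by
      cases h1 : D.S ((nuD P).symm d)
      · rfl
      · exact absurd ((nuD P).apply_symm_apply d) (h _ h1)
    show W.cs d.1 (4 * k) m ↔ W.cs (phi P d).1 (3 * k) m
    rw [(corner hM h3 hk hS T d).2.2.2 h0 hS']
  K := fun e he => KK_step (T.vals hk) e he
  rt := by
    intro d
    have h1 := root (W := W) hk (dart_V d) d.2.2
    obtain ⟨k1, k2, k3, k4⟩ := rt_iff (D := D) d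
    refine ⟨(D.rt1 d.1).toNat + (D.rt2 d.1).toNat, ?_, ?_⟩
    · intro m
      show W.cs (phi P ((phi P).symm d)).1 (3 * k) _ ↔ W.cs d.1 (4 * k) m
      rw [Equiv.apply_symm_apply, h1]
      cases D.rt1 d.1 <;> cases D.rt2 d.1 <;> exact Iff.rfl
    · constructor
      · intro h
        cases e1 : D.rt1 d.1
        · cases e2 : D.rt2 d.1
          · rw [e1, e2] at h
            exact absurd h (by decide)
          · exact k2 e2
        · exact k1 e1
      · rintro (h | h)
        · rw [k3 h]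
          exact Nat.lt_of_lt_of_le (by decide : 0 < true.toNat) (Nat.le_add_right _ _)
        · rw [k4 h]
          exact Nat.lt_of_lt_of_le (by decide : 0 < true.toNat) (Nat.le_add_left _ _)
  rr := by
    intro r hr
    have h1 := root (W := W) hk (dart_V r) r.2.2
    have h2 := root (W := W) hk (dart_V (theta P r)) (theta P r).2.2
    have e1 := (rt_iff (D := D) r).2.2.1 hr
    have e2 := (rt_iff (D := D) (theta P r)).2.2.2 (by rw [theta_theta]; exact hr)
    refine ⟨0, (D.rt1 (theta P r).1).toNat, ?_⟩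
    show W.cs (phi P ((phi P).symm r)).1 (3 * k) 0 ↔
      W.cs (phi P ((phi P).symm (theta P r))).1 (3 * k) _
    rw [Equiv.apply_symm_apply, Equiv.apply_symm_apply, h1, h2, e1, e2]
    have e3 := hS.r1 r e1
    cases D.rt1 (theta P r).1 <;> exact e3

include hk in
/-- **W4b** -/
theorem exists_good' : ∃ V, Good T hk V := by
  obtain ⟨V, v1, v2, v3, v4⟩ := gap (theta P) (phi P) (theta_theta P) (S := {d | D.S d = true})
    (R := {d | D.R d = true}) (h := D.h) D.h_phi (fun d hd => D.h_S d hd) D.face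
    (fun ψ g1 g2 g3 => D.conn ψ g1 (fun d hd => g2 d hd) (fun r hr => g3 r hr))
    (rimData hM h3 hk hS T)
  have hroot : ∀ d m, W.cs d.1 (3 * k) m ↔ V d := by
    intro d m
    have h1 := (v3 ((phi P).symm d) m).1
    have h2 := v1 ((phi P).symm d)
    rw [Equiv.apply_symm_apply] at h1 h2
    exact h1.trans h2.symm
  refine ⟨V, v1, v2, ?_, ?_, ?_⟩
  · intro κ b t x h
    rw [val_tag hM h3 hk hS T h]
    have hmem : (b, t) ∈ D.rw κ := by
      rw [← (T.vals hk).fst_rw κ]
      exact mem_key h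
    have hloc := D.loc κ b t hmem
    have hV : V κ ↔ V (Sum.elim id id t) :=
      Arbor.inv_sameCycle (fun d => W5.V_nu v1 v2 d) hloc
    rw [hV]
    obtain ⟨κ1, h1⟩ := D.src κ b t hmem
    unfold Deco0.ex at h1
    have key1 : ∀ e, D.S e = true → (valT (T.vals hk) (Sum.inl e) ↔ V e) :=
      fun e he => (v4 e he).1
    cases a1 : D.S κ1 <;> cases a2 : D.S ((nuD P).symm κ1) <;>
      simp only [a1, a2, Bool.false_eq_true, if_true, if_false, List.mem_cons, Prod.mk.injEq,
        List.not_mem_nil, or_false, false_and, true_and, reduceCtorEq, false_or] at h1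
    · rw [h1]
      exact key1 _ a2
    · rcases h1 with h1 | h1
      · rw [h1]
        exact key1 _ a1
      · rw [h1]
        exact (KK_at (T.vals hk) (c := κ1) (l := 0) rfl (fun j hj => absurd hj (by omega))
          a2).symm.trans (v4 κ1 a1).2
    · rcases h1 with h1 | h1
      · rw [h1]
        exact key1 _ a1
      · rw [h1]
        exact key1 _ a2
  · intro d hd
    have h1 := root (W := W) hk (dart_V d) d.2.2
    rw [hd] at h1
    have h2 := hroot d 0
    rw [h1] at h2
    exact h2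
  · intro d hd
    have h1 := root (W := W) hk (dart_V d) d.2.2
    rw [hd] at h1
    cases e1 : D.rt1 d.1
    · rw [e1] at h1
      have h2 := hroot d 0
      rw [h1] at h2
      exact h2
    · rw [e1] at h1
      have h2 := hroot d 1
      rw [h1] at h2
      exact h2

end

end

end W4

end Pool.Agent.MP42D
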