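import Pool.Agent.MP42.D.WDefs
import Pool.Agent.MP42.D.AGeo
import Pool.Agent.MP42.D.T2a

/-!
# Piece W5a: the value of the junction on both sides of an edge (owner helper66)
-/

set_option autoImplicit false
set_option linter.unusedSectionVars false

namespace Pool.Agent.MP42D

open Pool.Agent.Helper55.UNF Pool.Agent.Helper55.UNF.GridSolid Pool.Agent.MP42 Pool.Agent.MP42G

variable {P : GridSolid}

namespace W5

/-! ## Invariant predicates on darts -/

section Inv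

variable {V : Dart P → Prop}

lemma V_same (h1 : ∀ d, V (phi P d) ↔ V d) {d d' : Dart P} (h : pE.SameCycle d.1 d'.1) :
    V d ↔ V d' :=
  Arbor.inv_sameCycle h1 ((phi_same_iff P d d').2 h)

lemma V_nu (h1 : ∀ d, V (phi P d) ↔ V d) (h2 : ∀ d, V (theta P d) ↔ V d) (d : Dart P) :
    V (nuD P d) ↔ V d := (h2 (phi P d)).trans (h1 d)

lemma V_nu_it (h1 : ∀ d, V (phi P d) ↔ V d) (h2 : ∀ d, V (theta P d) ↔ V d) (d : Dart P)
    (i : ℕ) : V ((nuD P)^[i] d) ↔ V d := by
  induction i with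
  | zero => exact Iff.rfl
  | succ i ih => rw [it_succ, V_nu h1 h2, ih]

lemma jv_dart (h1 : ∀ d, V (phi P d) ↔ V d) {s : P.FSt} (hs : IsDart s) :
    jv V s ↔ V ⟨s, hs⟩ := by
  unfold jv
  rw [if_neg (by rw [hs.1]; decide)]
  constructor
  · rintro ⟨d, hd, hV⟩
    exact (V_same h1 (d := ⟨s, hs⟩) (d' := d) hd).2 hV
  · intro h
    exact ⟨⟨s, hs⟩, Equiv.Perm.SameCycle.refl _ _, h⟩

lemma bfE_pl : ∀ d e : Dir, d.1 = 2 → e.1 = 0 → bfE d = e ∨ bfE d = opp e := by decide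

lemma bf_cases {s : P.FSt} (hs : s.1.e.1 = 0) (hd : s.1.d.1 = 2) :
    bf s.facet = s ∨ bf s.facet = s.r2 := by
  rcases bfE_pl s.1.d s.1.e hd hs with h | h
  · exact Or.inl (st_fe rfl h)
  · exact Or.inr (st_fe rfl h)

lemma jv_plate (h2 : ∀ d, V (theta P d) ↔ V d) {s : P.FSt} (hs : s.1.e.1 = 0)
    (hd : s.1.d.1 = 2) : jv V s ↔ V (e1 s hs) := by
  unfold jv
  rw [if_pos hd]
  have hs' : s.r2.1.e.1 = 0 := hs
  rcases bf_cases hs hd with h | h
  · rw [h, onD_eq _ _ _ hs]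
  · rw [h, onD_eq _ _ _ hs', e1_r2 s hs hd hs', h2]

lemma jv_x (h1 : ∀ d, V (phi P d) ↔ V d) (h2 : ∀ d, V (theta P d) ↔ V d) {s : P.FSt}
    (hs : s.1.e.1 = 0) : jv V s ↔ V (e1 s hs) := by
  by_cases hd : s.1.d.1 = 2
  · exact jv_plate h2 hs hd
  · have hdart : IsDart s := by
      refine ⟨?_, hs⟩
      have h3 := s.2.2
      rw [hs] at h3
      have key : ∀ a : Fin 3, a ≠ 0 → a ≠ 2 → a = 1 := by decide
      exact key _ h3 hd
    rw [jv_dart h1 hdart]
    have : e1 s hs = ⟨s, hdart⟩ := Subtype.ext (end1F_dart hdart)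
    rw [this]

lemma jv_symm_x (h1 : ∀ d, V (phi P d) ↔ V d) (h2 : ∀ d, V (theta P d) ↔ V d) (s : P.FSt)
    (hs : s.1.e.1 = 0) : jv V s.stN.r2 ↔ jv V s := by
  rw [jv_x h1 h2 (e_N hs), jv_x h1 h2 hs]
  have : e1 s.stN.r2 (e_N hs) = theta P (e1 s hs) := dd_N s hs
  rw [this, h2]

end Inv

/-! ## Corners over a unit edge of a line -/

/-- the corner or the strip after it goes up over the unit edge `y` -/
def Up (d : Dart P) (y : ℤ) : Prop := (yu d ≤ y ∧ y < yw d) ∨ (yw d ≤ y ∧ y < yu (nuD P d))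

/-- the corner or the strip after it goes down over the unit edge `y` -/
def Dn (d : Dart P) (y : ℤ) : Prop := (yw d ≤ y ∧ y < yu d) ∨ (yu (nuD P d) ≤ y ∧ y < yw d)

lemma Up_unique (hM : P.IsManifold) {d d' : Dart P} (hx : xl d = xl d') (hz : zl d = zl d')
    {y : ℤ} (h : Up d y) (h' : Up d' y) : d = d' := by
  rcases h with ⟨a, b⟩ | ⟨a, b⟩ <;> rcases h' with ⟨a', b'⟩ | ⟨a', b'⟩
  · exact i3a hM d d' hx hz a b a' b'
  · exfalso
    have k1 := (i2a d a b).2
    have k2 := (i2c d' a' b').2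
    rw [hx, hz, k2] at k1
    exact absurd k1 (by decide)
  · exfalso
    have k1 := (i2c d a b).2
    have k2 := (i2a d' a' b').2
    rw [hx, hz, k2] at k1
    exact absurd k1 (by decide)
  · exact i3c hM d d' hx hz a b a' b'

lemma Dn_unique (hM : P.IsManifold) {d d' : Dart P} (hx : xl d = xl d') (hz : zl d = zl d')
    {y : ℤ} (h : Dn d y) (h' : Dn d' y) : d = d' := by
  rcases h with ⟨a, b⟩ | ⟨a, b⟩ <;> rcases h' with ⟨a', b'⟩ | ⟨a', b'⟩
  · exact i3b hM d d' hx hz a b a' b'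
  · exfalso
    have k1 := (i2b d a b).2
    have k2 := (i2d d' a' b').2
    rw [hx, hz, k2] at k1
    exact absurd k1 (by decide)
  · exfalso
    have k1 := (i2d d a b).2
    have k2 := (i2b d' a' b').2
    rw [hx, hz, k2] at k1
    exact absurd k1 (by decide)
  · exact i3d hM d d' hx hz a b a' b'

lemma cross_down (f : ℕ → ℤ) (y : ℤ) (a : ℕ) : ∀ n : ℕ, y < f a → f (a + n) ≤ y →
    ∃ j, a ≤ j ∧ y < f j ∧ f (j + 1) ≤ y := by
  intro n
  induction n with
  | zero => intro h1 h2; rw [add_zero] at h2; omega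
  | succ n ih =>
    intro h1 h2
    by_cases h3 : f (a + n) ≤ y
    · exact ih h1 h3
    · exact ⟨a + n, by omega, by omega, h2⟩

lemma it_per (d : Dart P) : (nuD P)^[orderOf (nuD P)] d = d := by
  rw [← Equiv.Perm.coe_pow, pow_orderOf_eq_one]
  rfl

lemma pw_per (d : Dart P) (j : ℕ) : pw d (j + 2 * orderOf (nuD P)) = pw d j := by
  unfold pw
  have e1 : (j + 2 * orderOf (nuD P)) % 2 = j % 2 := by omega
  have e2 : (j + 2 * orderOf (nuD P)) / 2 = j / 2 + orderOf (nuD P) := by omega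
  rw [e1, e2, Function.iterate_add_apply, it_per]

lemma pw_step_Dn (d : Dart P) {y : ℤ} {j : ℕ} (h1 : y < pw d j) (h2 : pw d (j + 1) ≤ y) :
    ∃ i, Dn ((nuD P)^[i] d) y := by
  rcases Nat.even_or_odd' j with ⟨i, rfl | rfl⟩
  · refine ⟨i, Or.inl ⟨?_, ?_⟩⟩
    · rw [pw_odd] at h2; exact h2
    · rw [pw_even] at h1; exact h1
  · refine ⟨i, Or.inr ⟨?_, ?_⟩⟩
    · have e : 2 * i + 1 + 1 = 2 * (i + 1) := by ring
      rw [e, pw_even, it_succ] at h2
      exact h2
    · rw [pw_odd] at h1; exact h1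

lemma pw_step_Up (d : Dart P) {y : ℤ} {j : ℕ} (h1 : pw d j ≤ y) (h2 : y < pw d (j + 1)) :
    ∃ i, Up ((nuD P)^[i] d) y := by
  rcases Nat.even_or_odd' j with ⟨i, rfl | rfl⟩
  · refine ⟨i, Or.inl ⟨?_, ?_⟩⟩
    · rw [pw_even] at h1; exact h1
    · rw [pw_odd] at h2; exact h2
  · refine ⟨i, Or.inr ⟨?_, ?_⟩⟩
    · rw [pw_odd] at h1; exact h1
    · have e : 2 * i + 1 + 1 = 2 * (i + 1) := by ring
      rw [e, pw_even, it_succ] at h2
      exact h2

/-- the walk around a leaf is closed -/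
lemma Dn_of_Up {d : Dart P} {y : ℤ} (h : Up d y) : ∃ i, Dn ((nuD P)^[i] d) y := by
  have hpos : 0 < orderOf (nuD P) := orderOf_pos _
  have e0 : pw d 0 = yu d := pw_even d 0
  have e1 : pw d 1 = yw d := pw_odd d 0
  have e2 : pw d 2 = yu (nuD P d) := by
    have := pw_even d 1
    rw [this]; rfl
  obtain ⟨a, ha, h1, h2⟩ : ∃ a, a ≤ 1 ∧ pw d a ≤ y ∧ y < pw d (a + 1) := by
    rcases h with ⟨a, b⟩ | ⟨a, b⟩
    · exact ⟨0, by omega, by rw [e0]; exact a, by rw [zero_add, e1]; exact b⟩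
    · exact ⟨1, le_rfl, by rw [e1]; exact a, by rw [one_add_one_eq_two, e2]; exact b⟩
  obtain ⟨j, -, k1, k2⟩ := cross_down (pw d) y (a + 1) (2 * orderOf (nuD P) - 1) h2 (by
    have e : a + 1 + (2 * orderOf (nuD P) - 1) = a + 2 * orderOf (nuD P) := by omega
    rw [e, pw_per]
    exact h1)
  exact pw_step_Dn d k1 k2

lemma Up_of_Dn {d : Dart P} {y : ℤ} (h : Dn d y) : ∃ i, Up ((nuD P)^[i] d) y := by
  have hpos : 0 < orderOf (nuD P) := orderOf_pos _
  have e0 : pw d 0 = yu d := pw_even d 0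
  have e1 : pw d 1 = yw d := pw_odd d 0
  have e2 : pw d 2 = yu (nuD P d) := by
    have := pw_even d 1
    rw [this]; rfl
  obtain ⟨a, ha, h1, h2⟩ : ∃ a, a ≤ 1 ∧ y < pw d a ∧ pw d (a + 1) ≤ y := by
    rcases h with ⟨a, b⟩ | ⟨a, b⟩
    · exact ⟨0, by omega, by rw [e0]; exact b, by rw [zero_add, e1]; exact a⟩
    · exact ⟨1, le_rfl, by rw [e1]; exact b, by rw [one_add_one_eq_two, e2]; exact a⟩
  obtain ⟨j, -, k1, k2⟩ := cross_down (fun i => - pw d i) (- y - 1) (a + 1)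
    (2 * orderOf (nuD P) - 1) (by show _ < - pw d (a + 1); omega) (by
    have e : a + 1 + (2 * orderOf (nuD P) - 1) = a + 2 * orderOf (nuD P) := by omega
    show - pw d (a + 1 + (2 * orderOf (nuD P) - 1)) ≤ _
    rw [e, pw_per]
    omega)
  change - y - 1 < - pw d j at k1
  change - pw d (j + 1) ≤ - y - 1 at k2
  exact pw_step_Up d (j := j) (by omega) (by omega)

/-! ## Every wall and every plate lies over a corner -/

lemma pE_ex (s : P.FSt) (hn : s.1.n.1 = 2) :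
    ∃ j : ℕ, IsDart (((pE.symm : Equiv.Perm P.FSt) ^ j) s) := by
  have hex : ∃ j : ℕ, IsDart ((pE ^ j) s) := by
    by_cases h : IsDart s
    · exact ⟨0, h⟩
    · obtain ⟨h1, h2⟩ := wall_of_not_dart s hn h
      obtain ⟨j, hj⟩ := Geo.exists_turn s
      refine ⟨j, ?_⟩
      by_contra h3
      have h4 := wall_of_not_dart ((pE ^ j) s) (by rw [pow_n]; exact hn) h3
      exact hj (h4.1.trans h1.symm)
  obtain ⟨j, hj⟩ := hex
  have ho := orderOf_pos' (pE : Equiv.Perm P.FSt)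
  refine ⟨(orderOf (pE : Equiv.Perm P.FSt)) * j - j, ?_⟩
  have h1 : ((pE.symm : Equiv.Perm P.FSt) ^ ((orderOf (pE : Equiv.Perm P.FSt)) * j - j)) s =
      (pE ^ j) s := by
    have e : (pE.symm : Equiv.Perm P.FSt) = pE⁻¹ := rfl
    rw [e, inv_pow]
    apply (pE ^ ((orderOf (pE : Equiv.Perm P.FSt)) * j - j)).injective
    rw [← Equiv.Perm.mul_apply, mul_inv_cancel, ← Equiv.Perm.mul_apply, ← pow_add,
      Nat.sub_add_cancel (Nat.le_mul_of_pos_left j ho), pow_mul, pow_orderOf_eq_one, one_pow]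
  rw [h1]
  exact hj

lemma symm_pow_pE (s : P.FSt) (r : ℕ) :
    (pE ^ r) (((pE.symm : Equiv.Perm P.FSt) ^ r) s) = s := by
  have e : (pE.symm : Equiv.Perm P.FSt) = pE⁻¹ := rfl
  rw [e, inv_pow, ← Equiv.Perm.mul_apply, mul_inv_cancel]
  rfl

/-- a wall is on the walk around a corner -/
lemma wall_step (s : P.FSt) (hn : s.1.n.1 = 2) (hd : s.1.d.1 = 0) :
    ∃ (d : Dart P) (k : ℕ) (b : Bool) (j : ℕ), Wk d k b ∧ j < k ∧ s = (pE ^ (j + 1)) d.1 := by
  have hnd : ¬ IsDart s := by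
    intro h
    rw [h.1] at hd
    exact absurd hd (by decide)
  have hex := pE_ex s hn
  have hpos : 0 < srch (pE.symm : Equiv.Perm P.FSt) IsDart s := srch_pos hnd hex
  obtain ⟨r, hr⟩ : ∃ r, srch (pE.symm : Equiv.Perm P.FSt) IsDart s = r + 1 :=
    ⟨_, (Nat.succ_pred_eq_of_pos hpos).symm⟩
  have hspec : IsDart (((pE.symm : Equiv.Perm P.FSt) ^ (r + 1)) s) := by
    have := srch_spec (π := (pE.symm : Equiv.Perm P.FSt)) (stop := IsDart) (s := s) hex
    rw [hr] at this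
    exact this
  set d : Dart P := ⟨((pE.symm : Equiv.Perm P.FSt) ^ (r + 1)) s, hspec⟩ with hdd
  have hs : s = (pE ^ (r + 1)) d.1 := (symm_pow_pE s (r + 1)).symm
  obtain ⟨k, b, h⟩ := exists_wk' d
  refine ⟨d, k, b, r, h, ?_, hs⟩
  by_contra hlt
  have h3 : IsDart ((pE ^ (k + 1)) d.1) := by
    rw [← h.hphi]
    exact (phi P d).2
  have h2 : (pE ^ (k + 1)) d.1 = ((pE.symm : Equiv.Perm P.FSt) ^ (r - k)) s := by
    have h4 : ((pE.symm : Equiv.Perm P.FSt) ^ (r + 1)) s =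
        ((pE.symm : Equiv.Perm P.FSt) ^ (k + 1)) (((pE.symm : Equiv.Perm P.FSt) ^ (r - k)) s) := by
      rw [← Equiv.Perm.mul_apply, ← pow_add]
      congr 2
      omega
    show (pE ^ (k + 1)) (((pE.symm : Equiv.Perm P.FSt) ^ (r + 1)) s) = _
    rw [h4, symm_pow_pE]
  rw [h2] at h3
  exact srch_not (π := (pE.symm : Equiv.Perm P.FSt)) (stop := IsDart) (s := s) (j := r - k)
    (by rw [hr]; omega) h3

/-- the unit edge on the north side of a state with east `± y` -/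
def uY (s : P.FSt) : ℤ := if s.1.e.2 then Geo.nw s.1 1 else Geo.nw s.1 1 - 1

section Cov

variable {V : Dart P → Prop}

/-- the corner over the north side of a state with east `± y` -/
lemma cover (h1 : ∀ d, V (phi P d) ↔ V d) (h2 : ∀ d, V (theta P d) ↔ V d) (s : P.FSt)
    (he : s.1.e.1 = 1) : ∃ d : Dart P, xl d = Geo.nw s.1 0 ∧ zl d = Geo.nw s.1 2 ∧
      (s.1.e.2 = true → Up d (uY s)) ∧ (s.1.e.2 = false → Dn d (uY s)) ∧ (jv V s ↔ V d) := by
  have hax : s.1.d.1 = 0 ∨ s.1.d.1 = 2 := by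
    have h3 := s.2.2
    rw [he] at h3
    have key : ∀ a : Fin 3, a ≠ 1 → a = 0 ∨ a = 2 := by decide
    exact key _ h3
  rcases hax with hd | hd
  · have hn : s.1.n.1 = 2 := by
      have : ∀ d e : Dir, d.1 = 0 → e.1 = 1 → (cross d e).1 = 2 := by decide
      exact this _ _ hd he
    obtain ⟨d, k, b, j, h, hj, hs⟩ := wall_step s hn hd
    have hb : s.1.e.2 = b := by
      have := h.he j hj
      rw [← hs] at this
      rw [this]
    have hp := h.hpos j hj.le
    rw [← hs] at hp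
    have hy := h.yw_eq
    have p0 := congrFun hp 0
    have p1 := congrFun hp 1
    have p2 := congrFun hp 2
    refine ⟨d, p0.symm, p2.symm, ?_, ?_, ?_⟩
    · intro hb'
      rw [hb] at hb'
      subst hb'
      left
      unfold uY
      rw [hb, if_pos rfl, p1]
      simp at hy ⊢
      omega
    · intro hb'
      rw [hb] at hb'
      subst hb'
      left
      unfold uY
      rw [hb, if_neg (by decide), p1]
      simp at hy ⊢
      omega
    · unfold jv
      rw [if_neg (by rw [hd]; decide)]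
      have hsc : pE.SameCycle s d.1 := by
        apply Equiv.Perm.SameCycle.symm
        refine ⟨((j + 1 : ℕ) : ℤ), ?_⟩
        rw [zpow_natCast]
        exact hs.symm
      constructor
      · rintro ⟨d', hd', hV⟩
        exact (V_same h1 (hsc.symm.trans hd')).2 hV
      · intro hV
        exact ⟨d, hsc, hV⟩
  · have hn : s.1.n.1 = 0 := by
      have : ∀ d e : Dir, d.1 = 2 → e.1 = 1 → (cross d e).1 = 0 := by decide
      exact this _ _ hd he
    have ht : s.rR.1.e.1 = 0 := hn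
    have htd : s.rR.1.d.1 = 2 := hd
    obtain ⟨l, b, j, h, hj, hsj⟩ := plate_step s.rR ht htd
    set κ := kW s.rR ht with hκ
    have hs : s = (pE ^ (j + 1)) (phi P κ).1.rL := by
      have h3 : s.rR.rL = (pE ^ (j + 1)) (phi P κ).1.rL := by
        rw [hsj, pN_pow', FSt.rR_rL]
      rw [FSt.rR_rL] at h3
      exact h3
    have hb : s.1.e.2 = b := by
      have := h.he j hj
      rw [← hs] at this
      rw [this]
    have hp := h.hpos j hj.le
    rw [← hs] at hp
    have hy := h.yu_eq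
    have p0 := congrFun hp 0
    have p1 := congrFun hp 1
    have p2 := congrFun hp 2
    refine ⟨κ, p0.symm, p2.symm, ?_, ?_, ?_⟩
    · intro hb'
      rw [hb] at hb'
      subst hb'
      right
      unfold uY
      rw [hb, if_pos rfl, p1]
      simp at hy ⊢
      omega
    · intro hb'
      rw [hb] at hb'
      subst hb'
      right
      unfold uY
      rw [hb, if_neg (by decide), p1]
      simp at hy ⊢
      omega
    · have h3 : jv V s ↔ jv V s.rR := by
        unfold jv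
        rw [if_pos hd, if_pos htd]
        rfl
      rw [h3, jv_plate h2 ht htd, ← phi_kW, h1]

lemma uY_N (s : P.FSt) (he : s.1.e.1 = 1) : uY s.stN.r2 = uY s := by
  unfold uY
  have e1 : s.stN.r2.1.e = opp s.1.e := by
    show opp s.stN.1.e = _
    rw [FSt.stN_e]
  have e2 : Geo.ne s.1 1 = Geo.nw s.1 1 + (if s.1.e.2 then 1 else -1) := by
    have h3 := s.2.2
    rw [he] at h3
    have h4 : s.1.n.1 ≠ 1 := by
      intro h4
      have := cross_axis_right s.1.d s.1.e s.2.2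
      rw [he] at this
      exact this h4
    have h5 := cnr_wall' s.1.c s.1.d s.1.e s.1.n s.1.e.2 h3 (Prod.ext he rfl) h4 1
    rw [if_pos rfl] at h5
    exact h5
  rw [nw_N, e1, e2]
  show (if (!s.1.e.2) = true then _ else _) = _
  cases s.1.e.2 <;> simp [sub_eq_add_neg]

lemma jv_symm_y (hM : P.IsManifold) (h1 : ∀ d, V (phi P d) ↔ V d)
    (h2 : ∀ d, V (theta P d) ↔ V d) (s : P.FSt) (he : s.1.e.1 = 1) :
    jv V s.stN.r2 ↔ jv V s := by
  have he' : s.stN.r2.1.e = opp s.1.e := by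
    show opp s.stN.1.e = _
    rw [FSt.stN_e]
  obtain ⟨d, a1, a2, a3, a4, a5⟩ := cover h1 h2 s he
  obtain ⟨d', b1, b2, b3, b4, b5⟩ := cover h1 h2 s.stN.r2 (by rw [he']; exact he)
  have hx : Geo.nw s.stN.r2.1 0 = Geo.nw s.1 0 := by
    rw [nw_N, nw_ne_off s (by rw [he]; decide)]
  have hz : Geo.nw s.stN.r2.1 2 = Geo.nw s.1 2 := by
    rw [nw_N, nw_ne_off s (by rw [he]; decide)]
  rw [hx] at b1
  rw [hz] at b2
  rw [uY_N s he] at b3 b4
  rw [a5, b5]
  cases hb : s.1.e.2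
  · have hb' : s.stN.r2.1.e.2 = true := by
      rw [he']; show (!s.1.e.2) = true; rw [hb]; rfl
    obtain ⟨i, hi⟩ := Up_of_Dn (a4 hb)
    have : (nuD P)^[i] d = d' := Up_unique hM (by rw [xl_it, a1, b1]) (by rw [zl_it, a2, b2]) hi
      (b3 hb')
    rw [← this, V_nu_it h1 h2]
  · have hb' : s.stN.r2.1.e.2 = false := by
      rw [he']; show (!s.1.e.2) = false; rw [hb]; rfl
    obtain ⟨i, hi⟩ := Dn_of_Up (a3 hb)
    have : (nuD P)^[i] d = d' := Dn_unique hM (by rw [xl_it, a1, b1]) (by rw [zl_it, a2, b2]) hi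
      (b4 hb')
    rw [← this, V_nu_it h1 h2]

end Cov

end W5

/-- **W5a**: the value of the junction is the same on both sides of an edge -/
theorem jv_symm' (hM : P.IsManifold) {V : Dart P → Prop}
    (h1 : ∀ d, V (phi P d) ↔ V d) (h2 : ∀ d, V (theta P d) ↔ V d) (s : P.FSt) (hs : s.1.e.1 ≠ 2) :
    jv V s.stN.r2 ↔ jv V s := by
  have key : ∀ a : Fin 3, a ≠ 2 → a = 0 ∨ a = 1 := by decide
  rcases key _ hs with h | h
  · exact W5.jv_symm_x h1 h2 s h
  · exact W5.jv_symm_y hM h1 h2 s h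

end Pool.Agent.MP42D
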