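import Pool.Agent.MP42.D.W5a

/-!
# Piece W5b: back to the junction certificate (owner helper66)
-/

set_option autoImplicit false
set_option linter.unusedSectionVars false

namespace Pool.Agent.MP42D

open Pool.Agent.Helper55.UNF Pool.Agent.Helper55.UNF.GridSolid Pool.Agent.MP42 Pool.Agent.MP42G

variable {P : GridSolid}

namespace W5

open Deco0

/-! ## The coarse state of a state -/

/-- the coarse state of a state -/
noncomputable def cst (r : (P.refine 7 h7).FSt) : P.FSt :=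
  ⟨⟨(co h7 r.facet).1.1, r.1.d, r.1.e⟩, (co h7 r.facet).2, r.2.2⟩

lemma cst_sub (t : P.FSt) {i j : ℕ} (hi : i < 7) (hj : j < 7) :
    cst (sub h7 t i j hi hj) = t :=
  st_fe (co_sub h7 t hi hj) rfl

lemma sub_cst (r : (P.refine 7 h7).FSt) :
    r = sub h7 (cst r) (ix 7 r.1.e r.facet.1.1) (ix 7 r.1.n r.facet.1.1) (ix_lt h7 _ _)
      (ix_lt h7 _ _) :=
  st_fe (sub_ix h7 (cst r) r.facet rfl).symm rfl

/-- the value of the junction at the part `(i, j)` of a coarse state -/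
noncomputable def Qc (V : Dart P → Prop) (t : P.FSt) (i j : ℕ) : Prop :=
  if t.1.d.1 = 2 then jv V t
  else if t.1.n.1 = 2 then (if 3 < j then jv V t else jv V t.r2)
  else (if 3 < i then jv V t.rR else jv V t.rR.r2)

/-- the value of the junction at a state -/
noncomputable def QQ (V : Dart P → Prop) (r : (P.refine 7 h7).FSt) : Prop :=
  Qc V (cst r) (ix 7 r.1.e r.facet.1.1) (ix 7 r.1.n r.facet.1.1)

lemma QQ_sub (V : Dart P → Prop) (t : P.FSt) {i j : ℕ} (hi : i < 7) (hj : j < 7) :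
    QQ V (sub h7 t i j hi hj) = Qc V t i j := by
  unfold QQ
  rw [cst_sub]
  have e1 : ix 7 (sub h7 t i j hi hj).1.e (sub h7 t i j hi hj).facet.1.1 = i :=
    ix_subC_e _ t.2.2 hi hj
  have e2 : ix 7 (sub h7 t i j hi hj).1.n (sub h7 t i j hi hj).facet.1.1 = j :=
    ix_subC_n _ t.2.2 hi hj
  rw [e1, e2]

/-! ## The core facets -/

lemma bfE_V : ∀ d e : Dir, d.1 ≠ e.1 → d.1 ≠ 2 → (cross d e).1 = 2 → bfE d = e ∨ bfE d = opp e := by
  decide

lemma bfE_H : ∀ d e : Dir, d.1 ≠ e.1 → d.1 ≠ 2 → (cross d e).1 ≠ 2 →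
    bfE d = cross d e ∨ bfE d = opp (cross d e) := by
  decide

lemma bf_V {t : P.FSt} (hd : t.1.d.1 ≠ 2) (hn : t.1.n.1 = 2) :
    bf t.facet = t ∨ bf t.facet = t.r2 := by
  rcases bfE_V _ _ t.2.2 hd hn with h | h
  · exact Or.inl (st_fe rfl h)
  · exact Or.inr (st_fe rfl h)

lemma bf_H {t : P.FSt} (hd : t.1.d.1 ≠ 2) (hn : t.1.n.1 ≠ 2) :
    bf t.facet = t.rL ∨ bf t.facet = t.rR := by
  rcases bfE_H _ _ t.2.2 hd hn with h | h
  · exact Or.inl (st_fe rfl h)
  · exact Or.inr (st_fe rfl h)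

lemma core_sub (t : P.FSt) {i j : ℕ} (hi : i < 7) (hj : j < 7) :
    core7 (sub h7 t i j hi hj).facet ↔ t.1.d.1 ≠ 2 ∧ (if t.1.n.1 = 2 then j = 3 else i = 3) := by
  have e : IsPl (co h7 (sub h7 t i j hi hj).facet) ↔ t.1.d.1 = 2 := by
    rw [co_sub]; exact Iff.rfl
  unfold core7
  rw [e]
  by_cases hd : t.1.d.1 = 2
  · simp [hd]
  · by_cases hn : t.1.n.1 = 2
    · rw [if_pos hn]
      rcases bf_V hd hn with h | h
      · rw [sub_bf h, fj_part]
      · rw [sub_bf_r2 h, fj_part]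
        apply and_congr Iff.rfl
        omega
    · rw [if_neg hn]
      rcases bf_H hd hn with h | h
      · rw [sub_bf_rL h, fj_part]
        apply and_congr Iff.rfl
        omega
      · rw [sub_bf_rR h, fj_part]

section

variable {V : Dart P → Prop}

lemma jv_facet {s t : P.FSt} (hs : s.1.d.1 = 2) (h : s.facet = t.facet) : jv V s ↔ jv V t := by
  have hd : s.1.d = t.1.d := congrArg (fun g : P.Facet => g.1.2) h
  unfold jv
  rw [if_pos hs, if_pos (by rw [← hd]; exact hs), h]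

lemma e_of_H {t : P.FSt} (hd : t.1.d.1 ≠ 2) (hn : t.1.n.1 ≠ 2) : t.1.e.1 = 2 := by
  have : ∀ d e : Dir, d.1 ≠ e.1 → d.1 ≠ 2 → (cross d e).1 ≠ 2 → e.1 = 2 := by decide
  exact this _ _ t.2.2 hd hn

lemma e_of_V {t : P.FSt} (hn : t.1.n.1 = 2) : t.1.e.1 ≠ 2 := by
  intro h
  have := cross_axis_right t.1.d t.1.e t.2.2
  rw [h] at this
  exact this hn

lemma d_of_V {t : P.FSt} (hn : t.1.n.1 = 2) : t.1.d.1 ≠ 2 := by
  intro h
  have := cross_axis_left t.1.d t.1.e t.2.2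
  rw [h] at this
  exact this hn

/-- outside the core the value belongs to the facet -/
lemma QQ_rL (r : (P.refine 7 h7).FSt) (hr : ¬ core7 r.facet) : QQ V r.rL ↔ QQ V r := by
  obtain ⟨t, i, j, hi, hj, rfl, -, -⟩ := exists_sub r
  rw [core_sub] at hr
  rw [sub_rL, QQ_sub, QQ_sub]
  unfold Qc
  by_cases hd : t.1.d.1 = 2
  · have hd' : t.rL.1.d.1 = 2 := hd
    rw [if_pos hd, if_pos hd']
    exact jv_facet hd' rfl
  · have hd' : ¬ t.rL.1.d.1 = 2 := hd
    rw [if_neg hd, if_neg hd']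
    by_cases hn : t.1.n.1 = 2
    · have hn' : ¬ t.rL.1.n.1 = 2 := by
        rw [rL_n]
        exact e_of_V hn
      rw [if_pos hn, if_neg hn', FSt.rL_rR]
    · have hn' : t.rL.1.n.1 = 2 := by
        rw [rL_n]
        exact e_of_H hd hn
      rw [if_neg hn, if_pos hn', FSt.rL_r2, FSt.rR_r2]
      rw [if_neg hn] at hr
      have hi3 : i ≠ 3 := fun h => hr ⟨hd, h⟩
      by_cases h3 : 3 < i
      · rw [if_pos h3, if_neg (by omega)]
      · rw [if_neg h3, if_pos (by omega)]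

lemma e4 : ∀ d e e' : Dir, d.1 ≠ e.1 → d.1 ≠ e'.1 →
    e' = e ∨ e' = cross d e ∨ e' = cross d (cross d e) ∨ e' = cross d (cross d (cross d e)) := by
  decide

lemma QQ_facet {s t : (P.refine 7 h7).FSt} (hs : ¬ core7 s.facet) (h : s.facet = t.facet) :
    QQ V s ↔ QQ V t := by
  have hd : s.1.d = t.1.d := congrArg (fun g : (P.refine 7 h7).Facet => g.1.2) h
  have h1 := QQ_rL (V := V) s hs
  have h2 := QQ_rL (V := V) s.rL hs
  have h3 := QQ_rL (V := V) s.rL.rL hs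
  rcases e4 s.1.d s.1.e t.1.e s.2.2 (by rw [hd]; exact t.2.2) with h4 | h4 | h4 | h4
  · rw [show t = s from st_fe h.symm h4]
  · rw [show t = s.rL from st_fe h.symm h4]
    exact h1.symm
  · rw [show t = s.rL.rL from st_fe h.symm h4]
    exact (h2.trans h1).symm
  · rw [show t = s.rL.rL.rL from st_fe h.symm h4]
    exact (h3.trans (h2.trans h1)).symm

lemma jv_E {t : P.FSt} (hn : t.1.n.1 = 2) : jv V t.stE ↔ jv V t := by
  have hd := d_of_V hn
  have hn' : t.stE.1.n.1 = 2 := by rw [Geo.stE_n]; exact hn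
  have hd' := d_of_V hn'
  unfold jv
  rw [if_neg hd, if_neg hd']
  have hsc : pE.SameCycle t t.stE := ⟨1, by rw [zpow_one]; rfl⟩
  constructor
  · rintro ⟨d, h, hV⟩; exact ⟨d, hsc.trans h, hV⟩
  · rintro ⟨d, h, hV⟩; exact ⟨d, hsc.symm.trans h, hV⟩

lemma jv_E2 {t : P.FSt} (hn : t.1.n.1 = 2) : jv V t.stE.r2 ↔ jv V t.r2 := by
  have e1 : t.r2 = t.stE.r2.stE := (FSt.stE_inv t).symm
  have hn' : t.stE.r2.1.n.1 = 2 := by
    rw [Geo.r2_n, Geo.stE_n]; exact hn
  have := jv_E (V := V) hn'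
  rw [← e1] at this
  exact this.symm

/-- north is vertical: the value does not change along a row -/
lemma QQ_E_V (r : (P.refine 7 h7).FSt) (hnr : r.1.n.1 = 2) : QQ V r.stE ↔ QQ V r := by
  obtain ⟨t, i, j, hi, hj, rfl, -, -⟩ := exists_sub r
  have hn : t.1.n.1 = 2 := hnr
  clear hnr
  by_cases h6 : i + 1 < 7
  · rw [sub_stE_mid t h6 hj, QQ_sub, QQ_sub]
    unfold Qc
    rw [if_neg (d_of_V hn), if_pos hn, if_neg (d_of_V hn), if_pos hn]
  · obtain rfl : i = 6 := by omega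
    rw [sub_stE_end t hj, QQ_sub, QQ_sub]
    have hn' : t.stE.1.n.1 = 2 := by rw [Geo.stE_n]; exact hn
    unfold Qc
    rw [if_neg (d_of_V hn), if_pos hn, if_neg (d_of_V hn'), if_pos hn', jv_E hn, jv_E2 hn]

variable (h1 : ∀ d, V (phi P d) ↔ V d) (h2 : ∀ d, V (theta P d) ↔ V d)

include h1 h2 in
lemma QQ_adj (hM : P.IsManifold) (s : (P.refine 7 h7).FSt) (hs : ¬ core7 s.facet) :
    QQ V s ↔ QQ V s.stE := by
  by_cases hns : s.1.n.1 = 2
  · exact (QQ_E_V s hns).symm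
  · obtain ⟨t, i, j, hi, hj, rfl, -, -⟩ := exists_sub s
    have hn : t.1.n.1 ≠ 2 := hns
    clear hns
    rw [core_sub, if_neg hn] at hs
    by_cases h6 : i + 1 < 7
    · rw [sub_stE_mid t h6 hj, QQ_sub, QQ_sub]
      unfold Qc
      by_cases hd : t.1.d.1 = 2
      · rw [if_pos hd, if_pos hd]
      · have hi3 : i ≠ 3 := fun h => hs ⟨hd, h⟩
        simp only [if_neg hd, if_neg hn]
        by_cases h3 : 3 < i
        · rw [if_pos h3, if_pos (by omega)]
        · rw [if_neg h3, if_neg (by omega)]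
    · obtain rfl : i = 6 := by omega
      rw [sub_stE_end t hj, QQ_sub, QQ_sub]
      have hn' : t.stE.1.n.1 ≠ 2 := by rw [Geo.stE_n]; exact hn
      have k1 : Qc V t 6 j ↔ jv V t.rR := by
        unfold Qc
        by_cases hd : t.1.d.1 = 2
        · rw [if_pos hd]
          exact jv_facet hd rfl
        · rw [if_neg hd, if_neg hn, if_pos (by norm_num)]
      have k2 : Qc V t.stE 0 j ↔ jv V t.stE.rR.r2 := by
        unfold Qc
        by_cases hd : t.stE.1.d.1 = 2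
        · rw [if_pos hd]
          exact jv_facet hd rfl
        · rw [if_neg hd, if_neg hn', if_neg (by norm_num)]
      rw [k1, k2]
      have e1 : t.rR.stN = t.stE.rR := by
        show t.rR.rL.stE.rR = _
        rw [FSt.rR_rL]
      rw [← e1]
      exact (jv_symm' hM h1 h2 t.rR hn).symm

end

/-! ## The values -/

lemma bf_n2 : ∀ d : Dir, d.1 ≠ 2 → (cross d (bfE d)).1 = 2 := by decide

lemma bf_IsV {F : P.Facet} (hF : ¬ IsPl F) : (bf F).1.n.1 = 2 := bf_n2 _ hF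

lemma QQ_pl (V : Dart P → Prop) (r : (P.refine 7 h7).FSt) (h : IsPl (co h7 r.facet)) :
    QQ V r ↔ jv V (bf (co h7 r.facet)) := by
  unfold QQ Qc
  rw [if_pos (show (cst r).1.d.1 = 2 from h)]
  exact jv_facet h rfl

lemma QQ_sf (V : Dart P → Prop) (f : (P.refine 7 h7).Facet) (h : ¬ IsPl (co h7 f)) :
    QQ V (sf f) ↔ if 3 < fj f then jv V (bf (co h7 f)) else jv V (bf (co h7 f)).r2 := by
  unfold sf
  rw [QQ_sub]
  unfold Qc
  have hd : ¬ (bf (co h7 f)).1.d.1 = 2 := h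
  rw [if_neg hd, if_pos (bf_IsV h)]

lemma QQ_sf2 (V : Dart P → Prop) (f : (P.refine 7 h7).Facet) (h : ¬ IsPl (co h7 f))
    (hj : fj f = 3) : QQ V (sf f).r2 ↔ jv V (bf (co h7 f)) := by
  unfold sf
  rw [sub_r2, QQ_sub]
  unfold Qc
  have hn : (bf (co h7 f)).r2.1.n.1 = 2 := by
    rw [Geo.r2_n]
    exact bf_IsV h
  have hd : ¬ (bf (co h7 f)).r2.1.d.1 = 2 := h
  rw [if_neg hd, if_pos hn, if_neg (by omega), FSt.r2_r2]

lemma ln_ne {v : El} (h : v.ln ≠ Helper55.UNF.Ln.z) : v ≠ El.o := by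
  rintro rfl
  exact h rfl

lemma X_low {k i x : ℕ} (hx : x < k) : 7 * k - 1 - (i * k + x) < 7 * k := by
  omega

lemma X_high {k i x : ℕ} (hi : i < 7) (hx : x < k) : i * k + x < 7 * k := by
  have : (i + 1) * k ≤ 7 * k := Nat.mul_le_mul_right k (by omega)
  have e : (i + 1) * k = i * k + k := by ring
  omega

end W5

open W5 in
/-- **W5b** -/
theorem constJ_of' (D : Deco P) (hM : P.IsManifold) (h3 : Deg3 P) {k B : ℕ} (hk : 62 ≤ k)
    {W : CV D k B} {ψ χ : (P.refine 7 Deco0.h7).Facet → ℕ → ℕ → Prop} (hB : Back W ψ χ)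
    {V : Dart P → Prop} (h1 : ∀ d, V (phi P d) ↔ V d) (h2 : ∀ d, V (theta P d) ↔ V d)
    (hw : ∀ s : P.FSt, IsV s → ∀ X < 7 * k, D.ev k s X ≠ El.o → (W.val s X ↔ jv V s))
    (hp : ∀ F : P.Facet, IsPl F →
      (∀ X Y, X < 7 * k → Y ≤ 7 * k → (D.pd (bf F)).Hv k X Y ≠ El.o → (W.hv F X Y ↔ jv V (bf F))) ∧
      (∀ X Y, X ≤ 7 * k → Y < 7 * k → (D.pd (bf F)).Vv k X Y ≠ El.o → (W.vv F X Y ↔ jv V (bf F)))) :
    ∃ Q, (D.jc hM h3 hk).ConstJ ψ χ Q := by
  -- values of the lanes on the walls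
  have low : ∀ (f : (P.refine 7 Deco0.h7).Facet) (x y : ℕ), ¬ IsPl (co Deco0.h7 f) → x < k →
      y ≤ k → (Deco0.fj f < 3 ∨ (Deco0.fj f = 3 ∧ y = 0)) → D.la7 k f x y ≠ Helper55.UNF.Ln.z →
      (χ f x y ↔ jv V (bf (co Deco0.h7 f)).r2) := by
    intro f x y hf hx hy hj hl
    rw [hB.low f x y hf hx hy hj hl]
    apply hw
    · show (bf (co Deco0.h7 f)).r2.1.n.1 = 2
      rw [Geo.r2_n]
      exact bf_IsV hf
    · exact X_low hx
    · apply ln_ne
      unfold Deco0.la7 at hl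
      rw [if_neg hf, if_pos hj] at hl
      exact hl
  have high : ∀ (f : (P.refine 7 Deco0.h7).Facet) (x y : ℕ), ¬ IsPl (co Deco0.h7 f) → x < k →
      y ≤ k → (3 < Deco0.fj f ∨ (Deco0.fj f = 3 ∧ y = k)) → D.la7 k f x y ≠ Helper55.UNF.Ln.z →
      (χ f x y ↔ jv V (bf (co Deco0.h7 f))) := by
    intro f x y hf hx hy hj hl
    rw [hB.high f x y hf hx hy hj hl]
    apply hw
    · exact bf_IsV hf
    · exact X_high (Deco0.fi_lt f) hx
    · apply ln_ne
      unfold Deco0.la7 at hl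
      rw [if_neg hf, if_neg (by rcases hj with hj | hj <;> omega)] at hl
      exact hl
  have hcan : ∀ f : (P.refine 7 Deco0.h7).Facet, ¬ IsPl (co Deco0.h7 f) →
      D.can7 f = Deco0.sf f := by
    intro f hf
    unfold Deco0.can7
    rw [if_neg hf]
  refine ⟨QQ V, ?_, ?_, ?_, ?_, ?_, ?_, ?_⟩
  · -- fac
    intro s hs
    exact QQ_facet hs (D.can7_facet s.facet).symm
  · -- adj
    intro s hs _
    exact QQ_adj h1 h2 hM s hs
  · -- rim
    intro r hr _
    exact (QQ_E_V r hr).symm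
  · -- link
    intro r hr hc
    obtain ⟨t, i, j, hi, hj, rfl, -, -⟩ := Deco0.exists_sub r
    have hn : t.1.n.1 = 2 := hr
    have hc' : Deco0.core7 (sub Deco0.h7 t i j hi hj).facet := hc
    rw [core_sub, if_pos hn] at hc'
    obtain ⟨hd, rfl⟩ := hc'
    rw [sub_r2, sub_stN_mid _ _ (by norm_num), QQ_sub, QQ_sub]
    unfold Qc
    have hn' : t.r2.1.n.1 = 2 := by rw [Geo.r2_n]; exact hn
    have hd' : ¬ t.r2.1.d.1 = 2 := hd
    rw [if_neg hd, if_pos hn, if_neg hd', if_pos hn', if_neg (by norm_num), if_pos (by norm_num)]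
  · -- feet
    intro r x hr hc hx hwd
    have hc' : Deco0.core7 r.facet := hc
    have hf := hc'.1
    have hj := hc'.2
    have hcf := hcan r.facet hf
    by_cases hcr : D.can7 r.facet = r
    · have hw1 : (D.jc hM h3 hk).wd r x = D.la7 k r.facet x 0 := by
        unfold JCert.wd
        exact if_pos hcr
      have hw2 : (D.jc hM h3 hk).fv χ r x = χ r.facet x 0 := by
        unfold JCert.fv
        exact if_pos hcr
      rw [hw1] at hwd
      rw [hw2, low r.facet x 0 hf hx (Nat.zero_le _) (Or.inr ⟨hj, rfl⟩) hwd]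
      have : QQ V r ↔ QQ V (Deco0.sf r.facet) := by
        rw [← hcf, hcr]
      rw [this, QQ_sf V _ hf, if_neg (by omega)]
    · have hw1 : (D.jc hM h3 hk).wd r x = D.la7 k r.facet (k - 1 - x) k := by
        unfold JCert.wd
        exact if_neg hcr
      have hw2 : (D.jc hM h3 hk).fv χ r x = χ r.facet (k - 1 - x) k := by
        unfold JCert.fv
        exact if_neg hcr
      rw [hw1] at hwd
      rw [hw2, high r.facet (k - 1 - x) k hf (by omega) le_rfl (Or.inr ⟨hj, rfl⟩) hwd]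
      have e1 : Deco0.sf r.facet = r.r2 := by
        rcases bfE_V r.1.d r.1.e r.2.2 hf hr with h | h
        · exact absurd (hcf.trans (st_fe (Deco0.sf_facet _) (by
            rw [Deco0.sf_e]; exact h))) hcr
        · exact st_fe (Deco0.sf_facet _) (by rw [Deco0.sf_e]; exact h)
      have e2 : r = (Deco0.sf r.facet).r2 := by rw [e1, FSt.r2_r2]
      have : QQ V r ↔ QQ V (Deco0.sf r.facet).r2 := by rw [← e2]
      rw [this, QQ_sf2 V _ hf hj]
  · -- ver
    intro f x y hf hx hy hpr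
    by_cases hP : IsPl (co Deco0.h7 f)
    · have hP' : IsPl (co Deco0.h7 (D.can7 f).facet) := by rw [D.can7_facet]; exact hP
      have e : QQ V (D.can7 f) ↔ jv V (bf (co Deco0.h7 f)) := by
        rw [QQ_pl V _ hP', D.can7_facet]
      show ψ f x y ↔ QQ V (D.can7 f)
      rw [e]
      rcases hB.ver f x y hP hx hy hpr with ⟨X, Y, a1, a2, a3, a4⟩ | ⟨X, Y, a1, a2, a3, a4⟩
      · rw [a4]; exact (hp _ hP).1 X Y a1 a2 a3
      · rw [a4]; exact (hp _ hP).2 X Y a1 a2 a3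
    · exfalso
      have : D.pr7 k f x y = false := by
        unfold Deco0.pr7
        rw [if_neg hP]
      have hpr' : D.pr7 k f x y = true := hpr
      rw [this] at hpr'
      exact absurd hpr' (by decide)
  · -- hor
    intro f x y hf hx hy hla
    by_cases hP : IsPl (co Deco0.h7 f)
    · have hP' : IsPl (co Deco0.h7 (D.can7 f).facet) := by rw [D.can7_facet]; exact hP
      have e : QQ V (D.can7 f) ↔ jv V (bf (co Deco0.h7 f)) := by
        rw [QQ_pl V _ hP', D.can7_facet]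
      show χ f x y ↔ QQ V (D.can7 f)
      rw [e]
      rcases hB.hor f x y hP hx hy hla with ⟨X, Y, a1, a2, a3, a4⟩ | ⟨X, Y, a1, a2, a3, a4⟩
      · rw [a4]; exact (hp _ hP).1 X Y a1 a2 a3
      · rw [a4]; exact (hp _ hP).2 X Y a1 a2 a3
    · show χ f x y ↔ QQ V (D.can7 f)
      have hj : Deco0.fj f ≠ 3 := fun h => hf ⟨hP, h⟩
      rw [hcan f hP, QQ_sf V f hP]
      by_cases h4 : 3 < Deco0.fj f
      · rw [if_pos h4]
        exact high f x y hP hx hy (Or.inl h4) hla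
      · rw [if_neg h4]
        exact low f x y hP hx hy (Or.inl (by omega)) hla

end Pool.Agent.MP42D
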