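import Pool.Agent.MP42.D.W6v
import Pool.Agent.MP42.D.W5a

/-!
# Piece W6c, first half: heights on the coarse walls (owner helper74)
-/

set_option autoImplicit false
set_option linter.unusedSectionVars false

namespace Pool.Agent.MP42D

open Pool.Agent.Helper55.UNF Pool.Agent.Helper55.UNF.GridSolid Pool.Agent.MP42 Pool.Agent.MP42G

variable {P : GridSolid}

/-! ### The ends of the runs of walls -/

lemma endB8 : ∀ a0 b0 c0 d0 a1 b1 c1 d1 : Bool, Geo.goodB a0 b0 c0 d0 a1 b1 c1 d1 = true →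
    ∀ r u : Bool,
    (q4 false u a1 b1 c1 d1 = (true != u) → q4 true u a1 b1 c1 d1 = (true == u) →
      q4 r u a0 b0 c0 d0 = (u != r) → q4 r u a1 b1 c1 d1 = (u == r) →
      ((!c0 && d0) || (a0 && !b0)) = false) ∧
    (q4 false u a0 b0 c0 d0 = (true != u) → q4 true u a0 b0 c0 d0 = (true == u) →
      q4 r u a0 b0 c0 d0 = (u == r) → q4 r u a1 b1 c1 d1 = (u != r) →
      ((!c1 && d1) || (a1 && !b1)) = false) := by
  decide

lemma endA8 : ∀ a0 b0 c0 d0 a1 b1 c1 d1 : Bool, Geo.goodB a0 b0 c0 d0 a1 b1 c1 d1 = true →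
    ∀ r u : Bool,
    (q4 false u a0 b0 c0 d0 = (false != u) → q4 true u a0 b0 c0 d0 = (false == u) →
      q4 r u a0 b0 c0 d0 = (u != r) → q4 r u a1 b1 c1 d1 = (u == r) →
      ((c1 && !d1) || (!a1 && b1)) = false) ∧
    (q4 false u a1 b1 c1 d1 = (false != u) → q4 true u a1 b1 c1 d1 = (false == u) →
      q4 r u a0 b0 c0 d0 = (u == r) → q4 r u a1 b1 c1 d1 = (u != r) →
      ((c0 && !d0) || (!a0 && b0)) = false) := by
  decide

section

variable (hM : P.IsManifold) (h3 : Deg3 P)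

include hM h3

lemma startB_bw {x y z : ℤ} {r u : Bool} (hw : wallU P x y z u true) (hh : headQ P x y z r u) :
    bwP P x (y - 1) z = false := by
  unfold wallU at hw
  unfold headQ at hh
  rw [bit_q4 x y z false u, bit_q4 x y z true u] at hw
  rw [bit_q4 x (y - 1) z r u, bit_q4 x y z r u] at hh
  exact (endB8 _ _ _ _ _ _ _ _ (good8 hM h3 x y z) r u).1 hw.1 hw.2 hh.1 hh.2

lemma stopB_bw {x y z : ℤ} {r u : Bool} (hw : wallU P x (y - 1) z u true)
    (hh : tailQ P x y z r u) : bwP P x y z = false := by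
  unfold wallU at hw
  unfold tailQ at hh
  rw [bit_q4 x (y - 1) z false u, bit_q4 x (y - 1) z true u] at hw
  rw [bit_q4 x (y - 1) z r u, bit_q4 x y z r u] at hh
  exact (endB8 _ _ _ _ _ _ _ _ (good8 hM h3 x y z) r u).2 hw.1 hw.2 hh.1 hh.2

lemma startA_aw {x y z : ℤ} {r u : Bool} (hw : wallU P x (y - 1) z u false)
    (hh : headQ P x y z r u) : awP P x y z = false := by
  unfold wallU at hw
  unfold headQ at hh
  rw [bit_q4 x (y - 1) z false u, bit_q4 x (y - 1) z true u] at hw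
  rw [bit_q4 x (y - 1) z r u, bit_q4 x y z r u] at hh
  exact (endA8 _ _ _ _ _ _ _ _ (good8 hM h3 x y z) r u).1 hw.1 hw.2 hh.1 hh.2

lemma stopA_aw {x y z : ℤ} {r u : Bool} (hw : wallU P x y z u false) (hh : tailQ P x y z r u) :
    awP P x (y - 1) z = false := by
  unfold wallU at hw
  unfold tailQ at hh
  rw [bit_q4 x y z false u, bit_q4 x y z true u] at hw
  rw [bit_q4 x (y - 1) z r u, bit_q4 x y z r u] at hh
  exact (endA8 _ _ _ _ _ _ _ _ (good8 hM h3 x y z) r u).2 hw.1 hw.2 hh.1 hh.2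

/-- the B walls of a corner -/
lemma corner_bw (κ : Dart P) (h : yu κ < yw κ) :
    (∀ y, yu κ ≤ y → y < yw κ → bwP P (xl κ) y (zl κ) = true) ∧
      bwP P (xl κ) (yu κ - 1) (zl κ) = false ∧ bwP P (xl κ) (yw κ) (zl κ) = false := by
  refine ⟨fun y h1 h2 => (i2a κ h1 h2).2, ?_, ?_⟩
  · exact startB_bw hM h3 (wall_up κ le_rfl h) (head_q κ)
  · exact stopB_bw hM h3 (wall_up κ (y := yw κ - 1) (by omega) (by omega)) (tail_q κ)

/-- the A walls of a corner -/
lemma corner_aw (κ : Dart P) (h : yw κ < yu κ) :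
    (∀ y, yw κ ≤ y → y < yu κ → awP P (xl κ) y (zl κ) = true) ∧
      awP P (xl κ) (yw κ - 1) (zl κ) = false ∧ awP P (xl κ) (yu κ) (zl κ) = false := by
  refine ⟨fun y h1 h2 => (i2b κ h1 h2).2, ?_, ?_⟩
  · exact stopA_aw hM h3 (wall_dn κ le_rfl h) (tail_q κ)
  · exact startA_aw hM h3 (wall_dn κ (y := yu κ - 1) (by omega) (by omega)) (head_q κ)

end

/-! ### The height on a dart -/

open Classical in
/-- the height on the north side of a dart -/
noncomputable def gD (D : Deco0 P) (k : ℕ) (s : P.FSt) (X : ℕ) : ℤ :=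
  (if X ≤ 2 * k + 3 then ((D.wN s).toNat : ℤ) else 0) -
    (if X ≤ 2 * k + 5 then ((D.wS s).toNat : ℤ) else 0) +
    (if 3 * k + 10 < X ∧ (∃ h : IsDart s, D.S ⟨s, h⟩ = true) then 2 else 0) -
    (if 5 * k < X + 4 then ((D.eN s).toNat : ℤ) else 0) +
    (if 5 * k < X + 6 then ((D.eS s).toNat : ℤ) else 0)

lemma toNat_bd (b : Bool) : 0 ≤ (b.toNat : ℤ) ∧ (b.toNat : ℤ) ≤ 1 := by cases b <;> simp

lemma gD_bd (D : Deco0 P) (k : ℕ) (s : P.FSt) (X : ℕ) : -2 ≤ gD D k s X ∧ gD D k s X ≤ 4 := by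
  have h1 := toNat_bd (D.wN s)
  have h2 := toNat_bd (D.wS s)
  have h3 := toNat_bd (D.eN s)
  have h4 := toNat_bd (D.eS s)
  unfold gD
  split_ifs <;> constructor <;> omega

lemma gD_zero (D : Deco0 P) {k : ℕ} (hk : 62 ≤ k) (s : P.FSt) :
    gD D k s 0 = (D.wN s).toNat - (D.wS s).toNat := by
  unfold gD
  rw [if_pos (by omega), if_pos (by omega), if_neg (by omega), if_neg (by omega),
    if_neg (by omega)]
  ring

lemma gD_last (D : Deco0 P) {k : ℕ} (hk : 62 ≤ k) (κ : Dart P) :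
    gD D k κ.1 (7 * k) = (if D.S κ = true then 2 else 0) - (D.eN κ.1).toNat +
      (D.eS κ.1).toNat := by
  unfold gD
  rw [if_neg (by omega), if_neg (by omega), if_pos (by omega : 5 * k < 7 * k + 4),
    if_pos (by omega : 5 * k < 7 * k + 6)]
  have h : (3 * k + 10 < 7 * k ∧ ∃ h : IsDart κ.1, D.S ⟨κ.1, h⟩ = true) ↔ D.S κ = true := by
    constructor
    · rintro ⟨-, h, h'⟩
      exact h'
    · intro h
      exact ⟨by omega, κ.2, h⟩
  by_cases hS : D.S κ = true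
  · rw [if_pos (h.2 hS), if_pos hS]; ring
  · rw [if_neg (fun h' => hS (h.1 h')), if_neg hS]; ring

/-- the values at a dart -/
lemma vl_ev (D : Deco0 P) {k : ℕ} (hk : 62 ≤ k) {s : P.FSt} (hs : s.1.e.1 = 0) (X : ℕ) :
    MP42G.vl (D.ev k s X).ln = (if X = 2 * k + 3 then ((D.wN s).toNat : ℤ) else 0) -
      (if X = 2 * k + 5 then ((D.wS s).toNat : ℤ) else 0) +
      (if X + 4 = 5 * k then ((D.eN s).toNat : ℤ) else 0) -
      (if X + 6 = 5 * k then ((D.eS s).toNat : ℤ) else 0) +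
      (if X = 3 * k + 3 ∧ D.rt1 s = true then 1 else 0) +
      (if X + 4 = 4 * k ∧ D.rt2 s = true then 1 else 0) := by
  unfold Deco0.ev
  rw [if_neg (by rw [hs]; decide)]
  by_cases c1 : X = 2 * k + 3
  · have n2 : ¬ X = 2 * k + 5 := by omega
    have n3 : ¬ X + 4 = 5 * k := by omega
    have n4 : ¬ X + 6 = 5 * k := by omega
    have n5 : ¬ X = 3 * k + 3 := by omega
    have n6 : ¬ X + 4 = 4 * k := by omega
    simp only [c1, true_and, if_true] at *
    simp only [n2, n3, n4, n5, n6, false_and, if_false, or_self]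
    cases D.wN s
    · simp only [Bool.false_eq_true, if_false]
      split_ifs <;> simp [El.ln, MP42G.vl]
    · simp [El.ln, MP42G.vl]
  by_cases c2 : X = 2 * k + 5
  · have n3 : ¬ X + 4 = 5 * k := by omega
    have n4 : ¬ X + 6 = 5 * k := by omega
    have n5 : ¬ X = 3 * k + 3 := by omega
    have n6 : ¬ X + 4 = 4 * k := by omega
    simp only [c1, false_and, if_false]
    simp only [c2, true_and, if_true] at *
    simp only [n3, n4, n5, n6, false_and, if_false, or_self]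
    cases D.wS s
    · simp only [Bool.false_eq_true, if_false]
      split_ifs <;> simp [El.ln, MP42G.vl]
    · simp [El.ln, MP42G.vl]
  by_cases c3 : X + 4 = 5 * k
  · have n4 : ¬ X + 6 = 5 * k := by omega
    have n5 : ¬ X = 3 * k + 3 := by omega
    have n6 : ¬ X + 4 = 4 * k := by omega
    simp only [c1, c2, c3, n4, n5, true_and, if_true, false_and, if_false]
    have n6' : ¬ 5 * k = 4 * k := by omega
    simp only [n6', false_and, if_false, or_self]
    cases D.eN s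
    · simp only [Bool.false_eq_true, if_false]
      split_ifs <;> simp [El.ln, MP42G.vl]
    · simp [El.ln, MP42G.vl]
  by_cases c4 : X + 6 = 5 * k
  · have n5 : ¬ X = 3 * k + 3 := by omega
    have n6 : ¬ X + 4 = 4 * k := by omega
    simp only [c1, c2, c3, c4, n5, n6, true_and, if_true, false_and, if_false, or_self]
    cases D.eS s
    · simp only [Bool.false_eq_true, if_false]
      split_ifs <;> simp [El.ln, MP42G.vl]
    · simp [El.ln, MP42G.vl]
  by_cases c5 : X = 3 * k + 3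
  · have n6 : ¬ X + 4 = 4 * k := by omega
    simp only [c1, c2, c3, c4, n6, false_and, if_false, or_false]
    simp only [c5, true_and]
    cases D.rt1 s
    · simp only [Bool.false_eq_true, if_false]
      split_ifs <;> simp [El.ln, MP42G.vl]
    · simp [El.ln, MP42G.vl]
  by_cases c6 : X + 4 = 4 * k
  · simp only [c1, c2, c3, c4, c5, false_and, if_false, false_or]
    simp only [c6, true_and]
    cases D.rt2 s
    · simp only [Bool.false_eq_true, if_false]
      split_ifs <;> simp [El.ln, MP42G.vl]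
    · simp [El.ln, MP42G.vl]
  simp only [c1, c2, c3, c4, c5, c6, false_and, if_false, false_or]
  split_ifs <;> simp [El.ln, MP42G.vl]

open Classical in
/-- the step over an edge of a dart -/
lemma gD_step (D : Deco0 P) {k : ℕ} (hk : 62 ≤ k) (κ : Dart P) (X : ℕ) :
    gD D k κ.1 X = gD D k κ.1 (X + 1) + MP42G.vl (D.ev k κ.1 X).ln -
      ((if X = 3 * k + 10 ∧ D.S κ = true then 2 else 0) +
        (if X = 3 * k + 3 ∧ D.rt1 κ.1 = true then 1 else 0) +
        (if X + 4 = 4 * k ∧ D.rt2 κ.1 = true then 1 else 0)) := by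
  rw [vl_ev D hk κ.2.2]
  have h : (∃ h : IsDart κ.1, D.S ⟨κ.1, h⟩ = true) ↔ D.S κ = true :=
    ⟨fun ⟨_, h'⟩ => h', fun h => ⟨κ.2, h⟩⟩
  unfold gD
  have e1 : (if X ≤ 2 * k + 3 then ((D.wN κ.1).toNat : ℤ) else 0) =
      (if X + 1 ≤ 2 * k + 3 then ((D.wN κ.1).toNat : ℤ) else 0) +
      (if X = 2 * k + 3 then ((D.wN κ.1).toNat : ℤ) else 0) := by
    split_ifs <;> omega
  have e2 : (if X ≤ 2 * k + 5 then ((D.wS κ.1).toNat : ℤ) else 0) =
      (if X + 1 ≤ 2 * k + 5 then ((D.wS κ.1).toNat : ℤ) else 0) +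
      (if X = 2 * k + 5 then ((D.wS κ.1).toNat : ℤ) else 0) := by
    split_ifs <;> omega
  have e3 : (if 5 * k < X + 4 then ((D.eN κ.1).toNat : ℤ) else 0) =
      (if 5 * k < X + 1 + 4 then ((D.eN κ.1).toNat : ℤ) else 0) -
      (if X + 4 = 5 * k then ((D.eN κ.1).toNat : ℤ) else 0) := by
    split_ifs <;> omega
  have e4 : (if 5 * k < X + 6 then ((D.eS κ.1).toNat : ℤ) else 0) =
      (if 5 * k < X + 1 + 6 then ((D.eS κ.1).toNat : ℤ) else 0) -
      (if X + 6 = 5 * k then ((D.eS κ.1).toNat : ℤ) else 0) := by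
    split_ifs <;> omega
  have i1 : ∀ Y, (if 3 * k + 10 < Y ∧ (∃ h : IsDart κ.1, D.S ⟨κ.1, h⟩ = true) then (2 : ℤ)
      else 0) = if 3 * k + 10 < Y ∧ D.S κ = true then 2 else 0 :=
    fun Y => if_congr (and_congr_right fun _ => h) rfl rfl
  have e5 : (if 3 * k + 10 < X ∧ D.S κ = true then (2 : ℤ) else 0) =
      (if 3 * k + 10 < X + 1 ∧ D.S κ = true then (2 : ℤ) else 0) -
      (if X = 3 * k + 10 ∧ D.S κ = true then (2 : ℤ) else 0) := by
    by_cases hS : D.S κ = true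
    · simp only [hS, and_true]
      split_ifs <;> omega
    · rw [if_neg (fun h' => hS h'.2), if_neg (fun h' => hS h'.2), if_neg (fun h' => hS h'.2)]
      norm_num
  rw [i1, i1, e1, e2, e3, e4, e5]
  ring

/-! ### The two ends of a corner -/

lemma or3 (a p q g f : Bool) (h1 : a = true → (p && g) = false ∧ (q && f) = false)
    (h2 : ¬ (p = true ∧ q = true)) :
    ((a || (p && g) || (q && f)).toNat : ℤ) = a.toNat + (p && g).toNat + (q && f).toNat := by
  revert h1 h2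
  cases a <;> cases p <;> cases q <;> cases g <;> cases f <;> simp

lemma not_up_dn (s : P.FSt) : ¬ (isUp s = true ∧ isDn s = true) := by
  rintro ⟨h1, h2⟩
  unfold isUp at h1
  unfold isDn at h2
  rw [decide_eq_true_iff] at h1 h2
  rcases h1 with h1 | ⟨h1, h1'⟩ <;> rcases h2 with h2 | ⟨h2, h2'⟩
  · rw [h1] at h2; exact absurd h2 (by decide)
  · rw [h1] at h2; exact absurd h2 (by decide)
  · rw [h2] at h1; exact absurd h1 (by decide)
  · rw [h1'] at h2'; exact absurd h2' (by decide)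

lemma nu_symm_eq (κ : Dart P) : (nuD P).symm κ = (phi P).symm (theta P κ) := by
  rw [Equiv.symm_apply_eq]
  show κ = theta P (phi P ((phi P).symm (theta P κ)))
  rw [Equiv.apply_symm_apply, theta_theta]

lemma e1_dart (κ : Dart P) (h : κ.1.1.e.1 = 0) : e1 κ.1 h = κ := Subtype.ext (end1F_dart κ.2)

section

variable (D : Deco0 P)

lemma NLW_phi (κ : Dart P) : D.NLW (phi P κ).1 = D.NL κ := by
  unfold Deco0.NLW
  rw [onD_eq _ _ _ (phi P κ).2.2, e1_dart, Equiv.symm_apply_apply]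

lemma SLW_phi (κ : Dart P) : D.SLW (phi P κ).1 = D.SL κ := by
  unfold Deco0.SLW
  rw [onD_eq _ _ _ (phi P κ).2.2, e1_dart, Equiv.symm_apply_apply]

lemma NLE_dart (κ : Dart P) : D.NLE κ.1 = D.NL ((nuD P).symm κ) := by
  unfold Deco0.NLE
  rw [onD_eq _ _ _ κ.2.2, e1_dart, nu_symm_eq]

lemma SLE_dart (κ : Dart P) : D.SLE κ.1 = D.SL ((nuD P).symm κ) := by
  unfold Deco0.SLE
  rw [onD_eq _ _ _ κ.2.2, e1_dart, nu_symm_eq]

lemma Kw_phi (κ : Dart P) : D.Kw (phi P κ).1 = D.Kc κ := by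
  unfold Deco0.Kw Deco0.Kc
  rw [nw_phi]
  rfl

end

/-- the heights at the two ends of the walls of a corner -/
theorem gD_match (D : Deco P) {k : ℕ} (hk : 62 ≤ k) (κ : Dart P) :
    vsum ((D.Kc κ).xw (yu κ) (yw κ)) + gD D.toDeco0 k (phi P κ).1 0 =
      gD D.toDeco0 k κ.1 (7 * k) := by
  have h1 := vsum_red (D.red κ)
  have h2 : vsum (D.toDeco0.ex κ) = if D.S κ = true then 2 else 0 := by
    unfold Deco0.ex
    simp only []
    split_ifs <;> simp [vsum]
  rw [h2] at h1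
  have u1 := not_up_dn (phi P κ).1
  have u2 := not_up_dn κ.1
  have w1 := D.exclw κ
  have w2 := D.exclu κ
  rw [gD_zero _ hk, gD_last _ hk, ← h1]
  have a1 : ((D.wN (phi P κ).1).toNat : ℤ) = (D.NL κ).toNat +
      (isUp (phi P κ).1 && (D.Kc κ).gN (yw κ)).toNat +
      (isDn (phi P κ).1 && (D.Kc κ).fN (yw κ)).toNat := by
    unfold Deco0.wN
    rw [NLW_phi, Kw_phi]
    exact or3 _ _ _ _ _ w1.1 u1
  have a2 : ((D.wS (phi P κ).1).toNat : ℤ) = (D.SL κ).toNat +
      (isUp (phi P κ).1 && (D.Kc κ).fS (yw κ)).toNat +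
      (isDn (phi P κ).1 && (D.Kc κ).gS (yw κ)).toNat := by
    unfold Deco0.wS
    rw [SLW_phi, Kw_phi]
    exact or3 _ _ _ _ _ w1.2 u1
  have a3 : ((D.eN κ.1).toNat : ℤ) = (D.NL ((nuD P).symm κ)).toNat +
      (isUp κ.1 && (D.Kc κ).fN (yu κ)).toNat +
      (isDn κ.1 && (D.Kc κ).gN (yu κ)).toNat := by
    unfold Deco0.eN
    rw [NLE_dart]
    exact or3 _ _ _ _ _ (fun h => ⟨(w2.1 h).2, (w2.1 h).1⟩) u2
  have a4 : ((D.eS κ.1).toNat : ℤ) = (D.SL ((nuD P).symm κ)).toNat +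
      (isUp κ.1 && (D.Kc κ).gS (yu κ)).toNat +
      (isDn κ.1 && (D.Kc κ).fS (yu κ)).toNat := by
    unfold Deco0.eS
    rw [SLE_dart]
    exact or3 _ _ _ _ _ (fun h => ⟨(w2.2 h).2, (w2.2 h).1⟩) u2
  rw [a1, a2, a3, a4]
  unfold Deco0.rw
  simp only [vsum_append, vsum_opt_true, vsum_opt_false]
  ring

/-! ### The values on the walls of a corner -/

lemma ev_B (D : Deco0 P) {κ : Dart P} {m : ℕ} (h : Wk κ m true) {j : ℕ} (hj : j < m) (k X : ℕ) :
    D.ev k ((pE ^ (j + 1)) κ.1) X = (D.Kc κ).kl k (yu κ + j) X := by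
  have he := h.he j hj
  have hp := h.hpos j hj.le
  unfold Deco0.ev Deco0.sgY
  rw [he, if_pos rfl, if_pos rfl, if_pos rfl]
  unfold Deco0.Kw Deco0.Kc
  rw [hp]
  rfl

lemma ev_A (D : Deco0 P) {κ : Dart P} {m : ℕ} (h : Wk κ m false) {j : ℕ} (hj : j < m)
    (k X : ℕ) :
    D.ev k ((pE ^ (j + 1)) κ.1) X = (D.Kc κ).kl k (yu κ - j - 1) (7 * k - 1 - X) := by
  have he := h.he j hj
  have hp := h.hpos j hj.le
  have hp' := h.hpos (j + 1) hj
  have h1 : Geo.nw ((pE ^ (j + 1)) κ.1).stE.1 = Geo.ne ((pE ^ (j + 1)) κ.1).1 :=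
    Geo.nw_stepE P _ ((pE ^ (j + 1)) κ.1).2.2
  rw [pE_pow_succ κ.1 (j + 1), h1] at hp'
  have h2 : Geo.ne ((pE ^ (j + 1)) κ.1).1 1 = yu κ - j - 1 := by
    rw [hp']
    simp
    ring
  unfold Deco0.ev Deco0.sgY
  rw [he, if_pos rfl, if_neg (by decide), if_neg (by decide), h2]
  unfold Deco0.Kw Deco0.Kc
  rw [hp]
  rfl

/-! ### The heights on the walls of a corner -/

/-- statement of `htB` for the lines of a decoration -/
def HtB (P : GridSolid) (k : ℕ) : Prop :=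
  ∀ (K : KD (Dart P ⊕ Dart P)) (on : ℤ → Bool), K.Ok on → ∀ u w : ℤ, u < w →
    (∀ y, u ≤ y → y < w → K.bw y = true) → K.bw (u - 1) = false → K.bw w = false →
    (K.xw u w).length ≤ 4 →
    ∃ G : ℤ → ℕ → ℤ,
      (∀ y T, u ≤ y → y < w → T < 7 * k → G y T = G y (T + 1) + MP42G.vl (K.kl k y T).ln) ∧
      (∀ y, u < y → y < w → G (y - 1) (7 * k) = G y 0) ∧
      G u 0 = vsum (K.xw u w) ∧ G (w - 1) (7 * k) = 0 ∧
      ∀ y T, u ≤ y → y < w → T ≤ 7 * k → -4 ≤ G y T ∧ G y T ≤ 8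

/-- statement of `htA` for the lines of a decoration -/
def HtA (P : GridSolid) (k : ℕ) : Prop :=
  ∀ (K : KD (Dart P ⊕ Dart P)) (on : ℤ → Bool), K.Ok on → ∀ u w : ℤ, w < u →
    (∀ y, w ≤ y → y < u → K.aw y = true) → K.aw (w - 1) = false → K.aw u = false →
    (K.xw u w).length ≤ 4 →
    ∃ G : ℤ → ℕ → ℤ,
      (∀ y T, w ≤ y → y < u → T < 7 * k → G y (T + 1) = G y T + MP42G.vl (K.kl k y T).ln) ∧
      (∀ y, w < y → y < u → G (y - 1) (7 * k) = G y 0) ∧
      G w 0 = 0 ∧ G (u - 1) (7 * k) = vsum (K.xw u w) ∧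
      ∀ y T, w ≤ y → y < u → T ≤ 7 * k → -4 ≤ G y T ∧ G y T ≤ 8

/-- the heights `H j X` on the walls `j < m` of a corner -/
structure HP (D : Deco0 P) (k : ℕ) (κ : Dart P) (m : ℕ) (H : ℕ → ℕ → ℤ) : Prop where
  step : ∀ j < m, ∀ X < 7 * k,
    H j X = H j (X + 1) + MP42G.vl (D.ev k ((pE ^ (j + 1)) κ.1) X).ln
  link : ∀ j, j + 1 < m → H (j + 1) 0 = H j (7 * k)
  first : 0 < m → H 0 0 = gD D k κ.1 (7 * k)
  last : ∀ j, j + 1 = m → gD D k (phi P κ).1 0 = H j (7 * k)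
  bd : ∀ j < m, ∀ X ≤ 7 * k, -5 ≤ H j X ∧ H j X ≤ 9

lemma gD_zero_bd (D : Deco0 P) {k : ℕ} (hk : 62 ≤ k) (s : P.FSt) :
    -1 ≤ gD D k s 0 ∧ gD D k s 0 ≤ 1 := by
  rw [gD_zero D hk]
  have h1 := toNat_bd (D.wN s)
  have h2 := toNat_bd (D.wS s)
  constructor <;> omega

lemma xw_len (D : Deco P) (κ : Dart P) : ((D.Kc κ).xw (yu κ) (yw κ)).length ≤ 4 := by
  have h := D.len κ
  unfold Deco0.rw at h
  simp only [List.length_append] at h
  omega

section

variable (D : Deco P) (hM : P.IsManifold) (h3 : Deg3 P) {k : ℕ} (hk : 62 ≤ k)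
  (HB : HtB P k) (HA : HtA P k)

include hM h3 hk HB HA

theorem exists_HP (κ : Dart P) {m : ℕ} {b : Bool} (h : Wk κ m b) :
    ∃ H, HP D.toDeco0 k κ m H := by
  rcases Nat.eq_zero_or_pos m with rfl | hm
  · exact ⟨fun _ _ => 0, fun j hj => by omega, fun j hj => by omega, fun h => by omega,
      fun j hj => by omega, fun j hj => by omega⟩
  have hc := gD_zero_bd D.toDeco0 hk (phi P κ).1
  have hma := gD_match D hk κ
  have hlen := xw_len D κ
  have hok : (D.Kc κ).Ok (fun y => onP P (xl κ) y (zl κ)) := D.ok (xl κ) (zl κ)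
  have hyw := h.yw_eq
  cases b
  · simp only [Bool.false_eq_true, if_false] at hyw
    have hlt : yw κ < yu κ := by omega
    obtain ⟨c1, c2, c3⟩ := corner_aw hM h3 κ hlt
    have haw : ∀ y, (D.Kc κ).aw y = awP P (xl κ) y (zl κ) := fun y => D.aw_eq _ _ _
    obtain ⟨G, g1, g2, g3, g4, g5⟩ := HA (D.Kc κ) _ hok (yu κ) (yw κ) hlt
      (fun y h1 h2 => by rw [haw]; exact c1 y h1 h2) (by rw [haw]; exact c2)
      (by rw [haw]; exact c3) hlen
    refine ⟨fun j X => G (yu κ - j - 1) (7 * k - X) + gD D.toDeco0 k (phi P κ).1 0, ?_, ?_, ?_,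
      ?_, ?_⟩
    · intro j hj X hX
      have e := g1 (yu κ - j - 1) (7 * k - 1 - X) (by omega) (by omega) (by omega)
      rw [show 7 * k - 1 - X + 1 = 7 * k - X by omega] at e
      rw [ev_A D.toDeco0 h hj]
      show G (yu κ - j - 1) (7 * k - X) + _ = G (yu κ - j - 1) (7 * k - (X + 1)) + _ + _
      rw [e, show 7 * k - (X + 1) = 7 * k - 1 - X by omega]
      ring
    · intro j hj
      have e := g2 (yu κ - j - 1) (by omega) (by omega)
      show G (yu κ - (j + 1 : ℕ) - 1) (7 * k - 0) + _ = G (yu κ - j - 1) (7 * k - 7 * k) + _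
      rw [Nat.sub_self, Nat.sub_zero, ← e]
      congr 2
      push_cast
      ring
    · intro _
      show G (yu κ - (0 : ℕ) - 1) (7 * k - 0) + _ = _
      rw [← hma, ← g4, Nat.sub_zero]
      norm_num
    · intro j hj
      show _ = G (yu κ - j - 1) (7 * k - 7 * k) + _
      rw [show yu κ - j - 1 = yw κ by omega, Nat.sub_self, g3]
      ring
    · intro j hj X hX
      have e := g5 (yu κ - j - 1) (7 * k - X) (by omega) (by omega) (by omega)
      show -5 ≤ G (yu κ - j - 1) (7 * k - X) + _ ∧ G (yu κ - j - 1) (7 * k - X) + _ ≤ 9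
      constructor <;> linarith [e.1, e.2, hc.1, hc.2]
  · simp only [if_true] at hyw
    have hlt : yu κ < yw κ := by omega
    obtain ⟨c1, c2, c3⟩ := corner_bw hM h3 κ hlt
    have hbw : ∀ y, (D.Kc κ).bw y = bwP P (xl κ) y (zl κ) := fun y => D.bw_eq _ _ _
    obtain ⟨G, g1, g2, g3, g4, g5⟩ := HB (D.Kc κ) _ hok (yu κ) (yw κ) hlt
      (fun y h1 h2 => by rw [hbw]; exact c1 y h1 h2) (by rw [hbw]; exact c2)
      (by rw [hbw]; exact c3) hlen
    refine ⟨fun j X => G (yu κ + j) X + gD D.toDeco0 k (phi P κ).1 0, ?_, ?_, ?_,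
      ?_, ?_⟩
    · intro j hj X hX
      rw [ev_B D.toDeco0 h hj]
      show G (yu κ + j) X + _ = G (yu κ + j) (X + 1) + _ + _
      rw [g1 (yu κ + j) X (by omega) (by omega) hX]
      ring
    · intro j hj
      have e := g2 (yu κ + (j + 1 : ℕ)) (by push_cast; omega) (by push_cast; omega)
      show G (yu κ + (j + 1 : ℕ)) 0 + _ = G (yu κ + j) (7 * k) + _
      rw [← e]
      congr 2
      push_cast
      ring
    · intro _
      show G (yu κ + (0 : ℕ)) 0 + _ = _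
      rw [← hma, ← g3]
      norm_num
    · intro j hj
      show _ = G (yu κ + j) (7 * k) + _
      rw [show yu κ + j = yw κ - 1 by omega, g4]
      ring
    · intro j hj X hX
      have e := g5 (yu κ + j) X (by omega) (by omega) hX
      show -5 ≤ G (yu κ + j) X + _ ∧ G (yu κ + j) X + _ ≤ 9
      constructor <;> linarith [e.1, e.2, hc.1, hc.2]

end

/-! ### Positions of the walls -/

lemma Wk.len_unique {κ : Dart P} {m m' : ℕ} {b b' : Bool} (h : Wk κ m b) (h' : Wk κ m' b') :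
    m = m' := by
  have key : ∀ {m m' : ℕ} {b b' : Bool}, Wk κ m b → Wk κ m' b' → ¬ m < m' := by
    intro m m' b b' h h' hlt
    have h1 := h'.hd m hlt
    rw [← h.hphi, (phi P κ).2.1] at h1
    exact absurd h1 (by decide)
  have h1 := key h h'
  have h2 := key h' h
  omega

/-- the wall `s` is number `j` of the corner `κ` -/
def WS (s : P.FSt) (κ : Dart P) (j : ℕ) : Prop :=
  ∃ m b, Wk κ m b ∧ j < m ∧ s = (pE ^ (j + 1)) κ.1

lemma WS.not_dart {s : P.FSt} {κ : Dart P} {j : ℕ} (h : WS s κ j) : ¬ IsDart s := by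
  obtain ⟨m, b, h1, h2, rfl⟩ := h
  intro h3
  have h4 := h1.hd j h2
  rw [h3.1] at h4
  exact absurd h4 (by decide)

lemma WS_unique {s : P.FSt} {κ κ' : Dart P} {j j' : ℕ} (h : WS s κ j) (h' : WS s κ' j') :
    κ = κ' ∧ j = j' := by
  have key : ∀ {κ κ' : Dart P} {j j' : ℕ}, WS s κ j → WS s κ' j' → j ≤ j' → κ = κ' ∧ j = j' := by
    intro κ κ' j j' h h' hle
    obtain ⟨m, b, h1, h2, h3⟩ := h
    obtain ⟨m', b', h1', h2', h3'⟩ := h'
    obtain ⟨i, rfl⟩ := Nat.exists_eq_add_of_le hle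
    have e : κ.1 = (pE ^ i) κ'.1 := by
      apply (pE ^ (j + 1)).injective
      rw [← h3, h3', ← Equiv.Perm.mul_apply, ← pow_add]
      congr 2
      omega
    rcases Nat.eq_zero_or_pos i with rfl | hi
    · exact ⟨Subtype.ext e, rfl⟩
    · exfalso
      have h4 := h1'.hd (i - 1) (by omega)
      rw [show i - 1 + 1 = i by omega, ← e, κ.2.1] at h4
      exact absurd h4 (by decide)
  rcases le_total j j' with hle | hle
  · exact key h h' hle
  · obtain ⟨h1, h2⟩ := key h' h hle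
    exact ⟨h1.symm, h2.symm⟩

lemma exists_WS {s : P.FSt} (hs : IsV s) (h : ¬ IsDart s) : ∃ κ j, WS s κ j := by
  obtain ⟨h1, -⟩ := wall_of_not_dart s hs h
  obtain ⟨κ, m, b, j, h2, h3, h4⟩ := W5.wall_step s hs h1
  exact ⟨κ, j, m, b, h2, h3, h4⟩

open Classical in
/-- the heights -/
noncomputable def GG (D : Deco0 P) (k : ℕ) (H : Dart P → ℕ → ℕ → ℤ) (s : P.FSt) (X : ℕ) : ℤ :=
  if IsDart s then gD D k s X
  else if h : ∃ κ j, WS s κ j then H h.choose h.choose_spec.choose X else 0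

lemma GG_dart (D : Deco0 P) (k : ℕ) (H : Dart P → ℕ → ℕ → ℤ) {s : P.FSt} (hs : IsDart s)
    (X : ℕ) : GG D k H s X = gD D k s X := by
  unfold GG
  rw [if_pos hs]

lemma GG_wall (D : Deco0 P) (k : ℕ) (H : Dart P → ℕ → ℕ → ℤ) {s : P.FSt} {κ : Dart P} {j : ℕ}
    (hs : WS s κ j) (X : ℕ) : GG D k H s X = H κ j X := by
  unfold GG
  have h : ∃ κ j, WS s κ j := ⟨κ, j, hs⟩
  rw [if_neg hs.not_dart, dif_pos h]
  have key : ∀ κ' j', WS s κ' j' → H κ' j' X = H κ j X := by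
    intro κ' j' h'
    obtain ⟨rfl, rfl⟩ := WS_unique h' hs
    rfl
  exact key _ _ h.choose_spec.choose_spec

section

variable (D : Deco P) (hM : P.IsManifold) (h3 : Deg3 P) {k : ℕ} (hk : 62 ≤ k)
  (HB : HtB P k) (HA : HtA P k)

include hM h3 hk HB HA

/-- the heights on the coarse walls -/
theorem exists_GG (ρ : P.FSt → ℕ → ℤ) (hρ : ∀ κ : Dart P, ∀ X, ρ κ.1 X =
      (if X = 3 * k + 10 ∧ D.S κ = true then 2 else 0) +
        (if X = 3 * k + 3 ∧ D.rt1 κ.1 = true then 1 else 0) +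
        (if X + 4 = 4 * k ∧ D.rt2 κ.1 = true then 1 else 0))
    (hρ' : ∀ s, ¬ IsDart s → ∀ X, ρ s X = 0) :
    ∃ G : P.FSt → ℕ → ℤ,
    (∀ s : P.FSt, IsV s → ∀ X < 7 * k,
      G s X = G s (X + 1) + MP42G.vl (D.ev k s X).ln - ρ s X) ∧
    (∀ s : P.FSt, IsV s → G s.stE 0 = G s (7 * k)) ∧
    (∀ s : P.FSt, IsV s → ∀ X ≤ 7 * k, -5 ≤ G s X ∧ G s X ≤ 9) := by
  have hH : ∀ κ : Dart P, ∃ H, ∀ m b, Wk κ m b → HP D.toDeco0 k κ m H := by
    intro κ
    obtain ⟨m, b, h⟩ := exists_wk' κ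
    obtain ⟨H, hH⟩ := exists_HP D hM h3 hk HB HA κ h
    refine ⟨H, fun m' b' h' => ?_⟩
    rw [← h.len_unique h']
    exact hH
  choose H hH using hH
  refine ⟨GG D.toDeco0 k H, ?_, ?_, ?_⟩
  · intro s hs X hX
    by_cases hd : IsDart s
    · rw [GG_dart _ _ _ hd, GG_dart _ _ _ hd]
      have e := gD_step D.toDeco0 hk ⟨s, hd⟩ X
      rw [hρ ⟨s, hd⟩]
      exact e
    · obtain ⟨κ, j, h⟩ := exists_WS hs hd
      rw [GG_wall _ _ _ h, GG_wall _ _ _ h, hρ' s hd, sub_zero]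
      obtain ⟨m, b, h1, h2, rfl⟩ := h
      exact (hH κ m b h1).step j h2 X hX
  · intro s hs
    by_cases hd : IsDart s
    · obtain ⟨m, b, h⟩ := exists_wk' (⟨s, hd⟩ : Dart P)
      rw [GG_dart _ _ _ hd (7 * k)]
      rcases Nat.eq_zero_or_pos m with rfl | hm
      · have e1 : (phi P ⟨s, hd⟩).1 = s.stE := h.hphi
        have e2 : IsDart s.stE := by rw [← e1]; exact (phi P ⟨s, hd⟩).2
        rw [GG_dart _ _ _ e2, ← e1]
        have e3 := gD_match D hk ⟨s, hd⟩
        have e4 : yw (⟨s, hd⟩ : Dart P) = yu ⟨s, hd⟩ := by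
          rw [h.yw_eq]
          cases b <;> simp
        rw [e4] at e3
        have e5 : (D.Kc ⟨s, hd⟩).xw (yu ⟨s, hd⟩) (yu ⟨s, hd⟩) = [] := by
          unfold KD.xw
          rw [if_neg (lt_irrefl _), if_neg (lt_irrefl _)]
        rw [e5, vsum_nil, zero_add] at e3
        exact e3
      · have e1 : WS s.stE ⟨s, hd⟩ 0 := ⟨m, b, h, hm, rfl⟩
        rw [GG_wall _ _ _ e1]
        exact (hH _ m b h).first hm
    · obtain ⟨κ, j, h⟩ := exists_WS hs hd
      rw [GG_wall _ _ _ h]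
      obtain ⟨m, b, h1, h2, rfl⟩ := h
      rcases Nat.lt_or_ge (j + 1) m with hj | hj
      · have e1 : WS ((pE ^ (j + 1)) κ.1).stE κ (j + 1) :=
          ⟨m, b, h1, hj, (pE_pow_succ κ.1 (j + 1)).symm⟩
        rw [GG_wall _ _ _ e1]
        exact (hH κ m b h1).link j hj
      · have hm : j + 1 = m := by omega
        have e1 : (phi P κ).1 = ((pE ^ (j + 1)) κ.1).stE := by
          rw [h1.hphi, ← hm, pE_pow_succ κ.1 (j + 1)]
        rw [← e1, GG_dart _ _ _ (phi P κ).2]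
        exact (hH κ m b h1).last j hm
  · intro s hs X hX
    by_cases hd : IsDart s
    · rw [GG_dart _ _ _ hd]
      have := gD_bd D.toDeco0 k s X
      constructor <;> linarith [this.1, this.2]
    · obtain ⟨κ, j, h⟩ := exists_WS hs hd
      rw [GG_wall _ _ _ h]
      obtain ⟨m, b, h1, h2, rfl⟩ := h
      exact (hH κ m b h1).bd j h2 X hX

end

end Pool.Agent.MP42D
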